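import Pool.Agent.Lib.MP_17a322_nt.Mb

/-!
Abelian varieties in projective space: a homogeneous ideal, a group law on the sets of points over all
extension fields, and forms of bidegree (2, 2) for the pair (sum, difference).

For an abelian variety and a symmetric, very ample, projectively normal line bundle (for example the
fourth power of an ample symmetric one) such forms exist: the pull back of `L ⊠ L` under
`(P, Q) ↦ (P + Q, P - Q)` is `L ^ 2 ⊠ L ^ 2` (theorem of the cube).
-/

universe u

namespace Pool.Agent.Lib.MP_17a322_nt.VA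

open MvPolynomial

/-- The set of the points with coordinates in the field `L` of the closed subset of projective space
given by the ideal `I`. -/
def Pt {K : Type u} [Field K] {N : ℕ} (I : Ideal (MvPolynomial (Fin (N + 1)) K)) (L : Type u)
    [Field L] [Algebra K L] : Type u :=
  {p : Projectivization L (Fin (N + 1) → L) // ∀ f ∈ I, aeval p.rep f = 0}

/-- `P'` is the image of the point `P` under the homomorphism `φ` of fields. -/
def IsImg {K : Type u} [Field K] {N : ℕ} {I : Ideal (MvPolynomial (Fin (N + 1)) K)}
    {L L' : Type u} [Field L] [Algebra K L] [Field L'] [Algebra K L'] (φ : L →ₐ[K] L')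
    (P : Pt I L) (P' : Pt I L') : Prop :=
  ∃ c : L', c ≠ 0 ∧ ∀ i, φ (P.1.rep i) = c * P'.1.rep i

/-- An abelian variety over `K` in `ℙ^N`: a geometrically integral closed subset with a group law on
its sets of points over all extension fields (compatible with homomorphisms of fields) and with forms
`S a b` of bidegree `(2, 2)` such that `S a b (P, Q)` is proportional to
`X a (P + Q) * X b (P - Q)`. -/
structure AV (K : Type u) [Field K] (N : ℕ) where
  /-- The ideal of the variety. -/
  I : Ideal (MvPolynomial (Fin (N + 1)) K)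
  homog : ∀ f ∈ I, ∀ d, homogeneousComponent d f ∈ I
  prime : ∀ (L : Type u) [Field L] [Algebra K L],
    (I.map (MvPolynomial.map (σ := Fin (N + 1)) (algebraMap K L))).IsPrime
  /-- The group law. -/
  grp : ∀ (L : Type u) [Field L] [Algebra K L], AddCommGroup (Pt I L)
  functorial : ∀ (L L' : Type u) [Field L] [Algebra K L] [Field L'] [Algebra K L']
    (φ : L →ₐ[K] L') (P Q : Pt I L) (P' Q' : Pt I L'), IsImg φ P P' → IsImg φ Q Q' →
      letI := grp L
      letI := grp L'
      IsImg φ (P + Q) (P' + Q')
  /-- The forms for the sum and the difference. -/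
  S : Fin (N + 1) → Fin (N + 1) → MvPolynomial (Fin (N + 1) ⊕ Fin (N + 1)) K
  bihomog : ∀ a b, ∀ m ∈ (S a b).support, ∑ i, m (Sum.inl i) = 2 ∧ ∑ i, m (Sum.inr i) = 2
  spec : ∀ (L : Type u) [Field L] [Algebra K L] (P Q : Pt I L),
    letI := grp L
    ∃ c : L, c ≠ 0 ∧ ∀ a b, aeval (Sum.elim P.1.rep Q.1.rep) (S a b) =
      c * ((P + Q).1.rep a * (P - Q).1.rep b)

/-- The points of `A` over `L`. -/
def AV.Pts {K : Type u} [Field K] {N : ℕ} (A : AV K N) (L : Type u) [Field L] [Algebra K L] :
    Type u :=
  Pt A.I L

instance {K : Type u} [Field K] {N : ℕ} (A : AV K N) (L : Type u) [Field L] [Algebra K L] :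
    AddCommGroup (A.Pts L) :=
  A.grp L

/-- Coordinates of a point. -/
noncomputable def AV.x {K : Type u} [Field K] {N : ℕ} (A : AV K N) {L : Type u} [Field L]
    [Algebra K L] (P : A.Pts L) : Fin (N + 1) → L :=
  P.1.rep

/-- The transcendence degree over `K` of the point with coordinates `y`. -/
noncomputable def tdeg (K : Type u) [Field K] {L : Type u} [Field L] [Algebra K L] {N : ℕ}
    (y : Fin (N + 1) → L) : Cardinal.{u} :=
  Algebra.trdeg K (IntermediateField.adjoin K
    (Set.range fun p : Fin (N + 1) × Fin (N + 1) => y p.1 / y p.2))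

/-- `A` has dimension `n`. -/
def AV.dimIs {K : Type u} [Field K] {N : ℕ} (A : AV K N) (n : ℕ) : Prop :=
  (∀ (L : Type u) [Field L] [Algebra K L] (P : A.Pts L), tdeg K (A.x P) ≤ n) ∧
    ∃ (L : Type u) (_ : Field L) (_ : Algebra K L) (P : A.Pts L), tdeg K (A.x P) = n

/-- A vector with entries in a ring that satisfies the equations of `A`. -/
def AV.IsPt {K : Type u} [Field K] {N : ℕ} (A : AV K N) {R : Type u} [CommRing R] [Algebra K R]
    (y : Fin (N + 1) → R) : Prop :=
  ∀ f ∈ A.I, aeval y f = 0

end Pool.Agent.Lib.MP_17a322_nt.VA
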