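import Pool.Agent.Lib.MP_17a322_nt.VA.A1
import Pool.Agent.Lib.MP_17a322_nt.VJ.A3

/-!
VA, part A: the Nullstellensatz over all extension fields and lower bounds for values of polynomials
without common zeros.
-/

universe u w

namespace Pool.Agent.Lib.MP_17a322_nt.VA

open MvPolynomial Height
open Pool.Agent.Lib.MP_17a322_nt.VJ

/-- A polynomial vanishing at all common zeros of `E` over all extension fields is in the radical of
the ideal of `E`. -/
theorem nullst {K : Type u} [Field K] {σ : Type} (E : Set (MvPolynomial σ K))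
    (G : MvPolynomial σ K)
    (h : ∀ (L : Type u) [Field L] [Algebra K L] (x : σ → L), (∀ e ∈ E, aeval x e = 0) →
      aeval x G = 0) : G ∈ (Ideal.span E).radical := by
  by_contra hG
  rw [Ideal.radical_eq_sInf, Submodule.mem_sInf] at hG
  push Not at hG
  obtain ⟨p, ⟨hEp, hp⟩, hGp⟩ := hG
  have hp' : Ideal.IsPrime p := hp
  let A := MvPolynomial σ K ⧸ p
  let L := FractionRing A
  let φ : MvPolynomial σ K →ₐ[K] L := (Algebra.algHom K A L).comp (Ideal.Quotient.mkₐ K p)
  have hφ : ∀ f, φ f = 0 ↔ f ∈ p := by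
    intro f
    have h1 : φ f = algebraMap A L (Ideal.Quotient.mk p f) := rfl
    rw [h1, map_eq_zero_iff _ (IsFractionRing.injective A L), Ideal.Quotient.eq_zero_iff_mem]
  have hφ' : ∀ f, aeval (fun t => φ (X t)) f = φ f := by
    intro f
    have h2 : aeval (fun t => φ (X t)) = φ := by
      refine MvPolynomial.algHom_ext fun t => ?_
      rw [aeval_X]
    rw [h2]
  refine hGp ((hφ G).mp ?_)
  rw [← hφ' G]
  refine h L _ fun e he => ?_
  rw [hφ' e]
  exact (hφ e).mpr (hEp (Ideal.subset_span he))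

/-- Elements of the ideal of `E` vanish at the zeros of `E`. -/
theorem aeval_span {K : Type*} [Field K] {σ : Type*} {E : Set (MvPolynomial σ K)} {L : Type*}
    [Field L] [Algebra K L] {x : σ → L} (hx : ∀ e ∈ E, aeval x e = 0) {f : MvPolynomial σ K}
    (hf : f ∈ Ideal.span E) : aeval x f = 0 := by
  have h1 : Ideal.span E ≤ RingHom.ker (aeval x : MvPolynomial σ K →ₐ[K] L) :=
    Ideal.span_le.mpr fun e he => hx e he
  exact h1 hf

/-- A certificate: a power of `G` is a combination of elements of `E` and of the `F i`. -/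
theorem nullst_fun {K : Type u} [Field K] {σ : Type} (E : Set (MvPolynomial σ K)) {ι : Type*}
    [Finite ι] (F : ι → MvPolynomial σ K) (G : MvPolynomial σ K)
    (h : ∀ (L : Type u) [Field L] [Algebra K L] (x : σ → L), (∀ e ∈ E, aeval x e = 0) →
      (∀ i, aeval x (F i) = 0) → aeval x G = 0) :
    ∃ (M : ℕ) (R : ι → MvPolynomial σ K), ∀ (L : Type w) [Field L] [Algebra K L] (x : σ → L),
      (∀ e ∈ E, aeval x e = 0) →
        aeval x G ^ M = ∑ᶠ i, aeval x (R i) * aeval x (F i) := by
  classical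
  have := Fintype.ofFinite ι
  obtain ⟨M, hM⟩ := nullst (E ∪ Set.range F) G fun L _ _ x hx =>
    h L x (fun e he => hx e (Or.inl he)) fun i => hx _ (Or.inr ⟨i, rfl⟩)
  rw [Ideal.span_union] at hM
  obtain ⟨e, he, f, hf, hef⟩ := Submodule.mem_sup.mp hM
  obtain ⟨R, hR⟩ := (Ideal.mem_span_range_iff_exists_fun).mp hf
  refine ⟨M, R, fun L _ _ x hx => ?_⟩
  rw [finsum_eq_sum_of_fintype, ← map_pow, ← hef, map_add, aeval_span hx he, zero_add, ← hR, map_sum]
  exact Finset.sum_congr rfl fun i _ => by rw [map_mul]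

/-- Lower bound: if the `F i` have no common zero on `{E = 0, G ≠ 0}`, then at the zeros `x` of `E` with
`|x| ≤ 1` and `G(x) = 1` one of the values `F i (x)` is not too small. -/
theorem lower_bound {K : Type u} [Field K] {σ : Type} [Finite σ] (E : Set (MvPolynomial σ K))
    {ι : Type*} [Finite ι] (F : ι → MvPolynomial σ K) (G : MvPolynomial σ K)
    (h : ∀ (L : Type u) [Field L] [Algebra K L] (x : σ → L), (∀ e ∈ E, aeval x e = 0) →
      (∀ i, aeval x (F i) = 0) → aeval x G = 0) :
    ∃ κ : SC K, ∀ (L : Type w) [Field L] [Algebra K L] (v : AbsoluteValue L ℝ) (x : σ → L),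
        (∀ e ∈ E, aeval x e = 0) → (∀ t, v (x t) ≤ 1) → aeval x G = 1 →
          ∃ i, 1 ≤ κ.k v * v (aeval x (F i)) := by
  classical
  have := Fintype.ofFinite ι
  have := Fintype.ofFinite σ
  obtain ⟨M, R, hR⟩ := nullst_fun.{u, w} E F G h
  have h1 : ∀ i : ι, Adm.{u, w} K fun L _ _ v =>
      cst v (Fintype.card ι) * max 1 (NV v (MvPolynomial.map (algebraMap K L) (R i))) := fun i =>
    (Adm_cst _).mul (Adm_NV (R i)) fun L _ _ v => zero_le_one.trans (le_max_left _ _)
  obtain ⟨n, S, k, hn, h2⟩ := Adm.family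
    (fun i L _ _ v => cst v (Fintype.card ι) *
      max 1 (NV v (MvPolynomial.map (algebraMap K L) (R i)))) h1
  refine ⟨scOf n S k, fun L _ _ v x hx hx1 hG => ?_⟩
  have h3 := hR L x hx
  rw [hG, one_pow, finsum_eq_sum_of_fintype] at h3
  have hne : (Finset.univ : Finset ι).Nonempty := by
    by_contra hc
    rw [Finset.not_nonempty_iff_eq_empty.mp hc, Finset.sum_empty] at h3
    exact one_ne_zero h3
  obtain ⟨i₀, -, hi₀⟩ := Finset.exists_max_image Finset.univ
    (fun i => v (aeval x (R i) * aeval x (F i))) hne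
  refine ⟨i₀, ?_⟩
  have h4 : v (∑ i, aeval x (R i) * aeval x (F i)) ≤
      cst v (Finset.univ : Finset ι).card * v (aeval x (R i₀) * aeval x (F i₀)) :=
    (SN_self v).sum_le Finset.univ _ (v.nonneg _) fun i _ => hi₀ i (Finset.mem_univ i)
  rw [← h3, map_one, Finset.card_univ, map_mul] at h4
  have h5 : v (aeval x (R i₀)) ≤ NV v (MvPolynomial.map (algebraMap K L) (R i₀)) := by
    have h6 := (SN_self v).aeval_le' (A := L) (R i₀) (fun t => (R i₀).degreeOf t)
      (fun t => le_rfl) x
    refine h6.trans (le_of_eq ?_)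
    rw [Finset.prod_eq_one fun t _ => ?_, mul_one]
    rw [max_eq_left (hx1 t), one_pow]
  refine h4.trans ?_
  rw [← mul_assoc]
  refine mul_le_mul_of_nonneg_right ?_ (v.nonneg _)
  exact (mul_le_mul_of_nonneg_left (h5.trans (le_max_right _ _)) (cst_nonneg v _)).trans
    ((h2 i₀ L v).trans (le_scOf hn S k v))

/-- Upper bound for the values of a polynomial at `|x| ≤ 1`. -/
theorem upper_bound {K : Type u} [Field K] {σ : Type} [Finite σ] {ι : Type*} [Finite ι]
    (F : ι → MvPolynomial σ K) :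
    ∃ κ : SC K, ∀ (L : Type w) [Field L] [Algebra K L] (v : AbsoluteValue L ℝ) (x : σ → L),
        (∀ t, v (x t) ≤ 1) → ∀ i, v (aeval x (F i)) ≤ κ.k v := by
  classical
  have := Fintype.ofFinite σ
  obtain ⟨n, S, k, hn, h2⟩ := Adm.family
    (fun (i : ι) (L : Type w) _ _ v => max 1 (NV v (MvPolynomial.map (algebraMap K L) (F i))))
    fun i => Adm_NV (F i)
  refine ⟨scOf n S k, fun L _ _ v x hx1 i => ?_⟩
  refine le_trans ?_ ((le_max_right _ _).trans ((h2 i L v).trans (le_scOf hn S k v)))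
  have h6 := (SN_self v).aeval_le' (A := L) (F i) (fun t => (F i).degreeOf t)
    (fun t => le_rfl) x
  refine h6.trans (le_of_eq ?_)
  rw [Finset.prod_eq_one fun t _ => ?_, mul_one]
  rw [max_eq_left (hx1 t), one_pow]

end Pool.Agent.Lib.MP_17a322_nt.VA
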