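import Pool.Agent.Lib.MP_17a322_nt.VA.A3

/-!
VA, part A: images of points under homomorphisms of fields; representatives of sums and multiples.
-/

universe u w

namespace Pool.Agent.Lib.MP_17a322_nt.VA

open MvPolynomial

section

variable {K : Type u} [Field K] {N : ℕ} (A : AV K N)
variable {L : Type u} [Field L] [Algebra K L] {L' : Type u} [Field L'] [Algebra K L']
  {L'' : Type u} [Field L''] [Algebra K L'']

theorem AV.exists_img (φ : L →ₐ[K] L') (P : A.Pts L) :
    ∃ P' : A.Pts L', A.Rep P' fun i => φ (A.x P i) := by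
  refine AV.exists_rep (A := A) ?_ ((A.x_isPt P).map φ)
  obtain ⟨a, ha⟩ := A.exists_x_ne P
  intro h0
  have h1 := congrFun h0 a
  rw [Pi.zero_apply] at h1
  exact ha ((map_eq_zero φ).mp h1)

/-- The image of a point under a homomorphism of fields. -/
noncomputable def AV.img (φ : L →ₐ[K] L') (P : A.Pts L) : A.Pts L' :=
  (A.exists_img φ P).choose

theorem AV.img_rep (φ : L →ₐ[K] L') (P : A.Pts L) :
    A.Rep (A.img φ P) fun i => φ (A.x P i) :=
  (A.exists_img φ P).choose_spec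

variable {A}

theorem AV.Rep.img (φ : L →ₐ[K] L') {P : A.Pts L} {y : Fin (N + 1) → L} (h : A.Rep P y) :
    A.Rep (A.img φ P) fun i => φ (y i) := by
  obtain ⟨c, hc, h1⟩ := h
  have h2 := (A.img_rep φ P).smul (c := φ c) ((map_ne_zero φ).mpr hc)
  have h3 : (fun i => φ (y i)) = fun i => φ c * φ (A.x P i) := by
    funext i
    rw [h1 i, map_mul]
  rw [h3]
  exact h2

theorem AV.img_eq_iff (φ : L →ₐ[K] L') {P : A.Pts L} {P' : A.Pts L'} :
    A.img φ P = P' ↔ IsImg φ P P' := by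
  constructor
  · rintro rfl
    exact A.img_rep φ P
  · intro h
    exact (A.img_rep φ P).unique h

theorem AV.img_add (φ : L →ₐ[K] L') (P Q : A.Pts L) :
    A.img φ (P + Q) = A.img φ P + A.img φ Q := by
  rw [AV.img_eq_iff]
  exact A.functorial L L' φ P Q _ _ (A.img_rep φ P) (A.img_rep φ Q)

variable (A)

/-- The image of points as a homomorphism of groups. -/
noncomputable def AV.imgHom (φ : L →ₐ[K] L') : A.Pts L →+ A.Pts L' :=
  AddMonoidHom.mk' (A.img φ) (AV.img_add φ)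

theorem AV.imgHom_apply (φ : L →ₐ[K] L') (P : A.Pts L) : A.imgHom φ P = A.img φ P := rfl

variable {A}

theorem AV.img_zero (φ : L →ₐ[K] L') : A.img φ (0 : A.Pts L) = 0 :=
  (A.imgHom φ).map_zero

theorem AV.img_neg (φ : L →ₐ[K] L') (P : A.Pts L) : A.img φ (-P) = -A.img φ P :=
  (A.imgHom φ).map_neg P

theorem AV.img_sub (φ : L →ₐ[K] L') (P Q : A.Pts L) :
    A.img φ (P - Q) = A.img φ P - A.img φ Q :=
  (A.imgHom φ).map_sub P Q

theorem AV.img_nsmul (φ : L →ₐ[K] L') (n : ℕ) (P : A.Pts L) :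
    A.img φ (n • P) = n • A.img φ P :=
  (A.imgHom φ).map_nsmul n P

theorem AV.img_zsmul (φ : L →ₐ[K] L') (n : ℤ) (P : A.Pts L) :
    A.img φ (n • P) = n • A.img φ P :=
  (A.imgHom φ).map_zsmul n P

theorem AV.img_injective (φ : L →ₐ[K] L') : Function.Injective (A.img φ) := by
  intro P Q h
  have h1 := A.img_rep φ P
  have h2 := A.img_rep φ Q
  rw [h] at h1
  refine (AV.Rep.self P).unique ((AV.Rep.self Q).of_prop (A.x_ne P) fun i j => ?_)
  have h3 := h2.prop h1 i j
  apply φ.injective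
  rw [map_mul, map_mul]
  exact h3

theorem AV.img_comp (φ : L →ₐ[K] L') (ψ : L' →ₐ[K] L'') (P : A.Pts L) :
    A.img (ψ.comp φ) P = A.img ψ (A.img φ P) :=
  (A.img_rep (ψ.comp φ) P).unique ((A.img_rep φ P).img ψ)

theorem AV.img_id (P : A.Pts L) : A.img (AlgHom.id K L) P = P :=
  (A.img_rep (AlgHom.id K L) P).unique (AV.Rep.self P)

/-- The zero point has coordinates in `K`. -/
theorem AV.zero_rep : A.Rep (0 : A.Pts L) fun i => algebraMap K L (A.x (0 : A.Pts K) i) := by
  have h1 := A.img_rep (Algebra.ofId K L) (0 : A.Pts K)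
  rw [AV.img_zero] at h1
  exact h1

theorem AV.x_zero_b₀ : A.x (0 : A.Pts L) A.b₀ ≠ 0 := by
  rw [← (AV.zero_rep (A := A) (L := L)).ne_iff]
  exact (map_ne_zero _).mpr A.b₀_spec

/-- Duplication. -/
theorem AV.Rep.dup {P : A.Pts L} {y : Fin (N + 1) → L} (h : A.Rep P y) :
    A.Rep (2 • P) (A.dup y) := by
  have h1 : A.x (P - P) A.b₀ ≠ 0 := by
    rw [sub_self]
    exact AV.x_zero_b₀
  rw [two_nsmul]
  exact h.add h h1

theorem AV.Rep.mu {P : A.Pts L} {y : Fin (N + 1) → L} (h : A.Rep P y) (j : ℕ) :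
    A.Rep (2 ^ j • P) (A.mu j y) := by
  induction j with
  | zero => rw [pow_zero, one_nsmul]; exact h
  | succ j ih =>
    rw [A.mu_succ, pow_succ', mul_nsmul']
    exact ih.dup

/-- Some value of the forms `S` at two points is not zero. -/
theorem AV.Rep.exists_S_ne {P Q : A.Pts L} {y y' : Fin (N + 1) → L} (h : A.Rep P y)
    (h' : A.Rep Q y') : ∃ a b, aeval (Sum.elim y y') (A.S a b) ≠ 0 := by
  obtain ⟨c, hc, h1⟩ := h.spec h'
  obtain ⟨a, ha⟩ := A.exists_x_ne (P + Q)
  obtain ⟨b, hb⟩ := A.exists_x_ne (P - Q)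
  refine ⟨a, b, ?_⟩
  rw [h1]
  exact mul_ne_zero hc (mul_ne_zero ha hb)

/-- The negative of a point. -/
theorem AV.Rep.neg {P : A.Pts L} {y : Fin (N + 1) → L} (h : A.Rep P y)
    {a : Fin (N + 1)} (ha : y a ≠ 0) :
    A.Rep (-P) fun b => aeval (Sum.elim (fun i => algebraMap K L (A.x (0 : A.Pts K) i)) y)
      (A.S a b) := by
  have h1 := (AV.zero_rep (A := A) (L := L)).sub h (a := a)
    (by rw [zero_add]; exact (h.ne_iff a).mp ha)
  rw [zero_sub] at h1
  exact h1

end

end Pool.Agent.Lib.MP_17a322_nt.VA
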