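import Pool.Agent.Lib.MP_17a322_nt.VA.A4b

/-!
VA, part A: identities for the group law at vectors with entries in `K`-algebras.
-/

universe u w

namespace Pool.Agent.Lib.MP_17a322_nt.VA

open MvPolynomial

section

variable {K : Type u} [Field K] {N : ℕ} {A : AV K N}

/-- Identities in one point. -/
theorem AV.ident1 {f : MvPolynomial (Fin (N + 1)) K}
    (h0 : aeval (fun _ => (0 : K)) f = 0)
    (h : ∀ (L : Type u) [Field L] [Algebra K L] (P : A.Pts L) (x : Fin (N + 1) → L),
      A.Rep P x → aeval x f = 0) : f ∈ A.I := by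
  refine mem_of_vanish A.gr.isRadical fun L _ _ x hx => ?_
  by_cases h1 : x = 0
  · rw [h1]
    have h2 : (0 : Fin (N + 1) → L) = fun i => algebraMap K L ((fun _ => (0 : K)) i) := by
      funext i
      rw [map_zero, Pi.zero_apply]
    rw [h2, aeval_algMap, h0, map_zero]
  · obtain ⟨P, hP⟩ := AV.exists_rep (A := A) h1 hx
    exact h L P x hP

section

variable {R : Type u} [CommRing R] [Algebra K R] {y y' : Fin (N + 1) → R}

/-- `(P + Q) - Q = P`. -/
theorem AV.add_sub_right (hy : A.IsPt y) (hy' : A.IsPt y') (a b c d : Fin (N + 1)) :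
    y d * A.s2 (fun i => A.s2 y y' i c) y' a b = y b * A.s2 (fun i => A.s2 y y' i c) y' a d := by
  have h := AV.ident2 (A := A) (f := X (Sum.inl d) * A.s2 (fun i => A.S i c)
    (fun i => X (Sum.inr i)) a b - X (Sum.inl b) * A.s2 (fun i => A.S i c)
    (fun i => X (Sum.inr i)) a d) ?_ ?_ hy hy'
  · simp only [map_sub, map_mul, aeval_X, AV.aeval_s2, Sum.elim_inl, Sum.elim_inr] at h
    exact sub_eq_zero.mp h
  · intro L _ _ x
    have e1 : ∀ a b, aeval (Sum.elim x fun _ => 0) (A.S a b) = 0 := AV.s2_zero_right x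
    have e2 : ∀ a b, aeval (Sum.elim (fun _ => 0) x) (A.S a b) = 0 := AV.s2_zero_left x
    constructor
    · simp only [map_sub, map_mul, aeval_X, AV.aeval_s2, e1, AV.s2_zero_left, mul_zero, sub_zero]
    · simp only [map_sub, map_mul, aeval_X, AV.aeval_s2, e2, AV.s2_zero_left, mul_zero, sub_zero]
  · intro L _ _ P Q x x' hP hQ
    simp only [map_sub, map_mul, aeval_X, AV.aeval_s2, Sum.elim_inl, Sum.elim_inr]
    by_cases hc : A.x (P - Q) c = 0
    · obtain ⟨c', hc', h1⟩ := hP.spec hQ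
      have h2 : (fun i => aeval (Sum.elim x x') (A.S i c)) = fun _ => 0 := by
        funext i
        rw [h1, hc, mul_zero, mul_zero]
      rw [h2, AV.s2_zero_left, AV.s2_zero_left, mul_zero, mul_zero, sub_zero]
    · obtain ⟨c'', hc'', h1⟩ := (hP.add hQ hc).s2 hQ
      obtain ⟨c', hc', h2⟩ := hP
      rw [h1, h1, add_sub_cancel_right, h2, h2]
      ring

/-- `(P + Q) - P = Q`. -/
theorem AV.add_sub_left (hy : A.IsPt y) (hy' : A.IsPt y') (a b c d : Fin (N + 1)) :
    y' d * A.s2 (fun i => A.s2 y y' i c) y a b = y' b * A.s2 (fun i => A.s2 y y' i c) y a d := by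
  have h := AV.ident2 (A := A) (f := X (Sum.inr d) * A.s2 (fun i => A.S i c)
    (fun i => X (Sum.inl i)) a b - X (Sum.inr b) * A.s2 (fun i => A.S i c)
    (fun i => X (Sum.inl i)) a d) ?_ ?_ hy hy'
  · simp only [map_sub, map_mul, aeval_X, AV.aeval_s2, Sum.elim_inl, Sum.elim_inr] at h
    exact sub_eq_zero.mp h
  · intro L _ _ x
    have e1 : ∀ a b, aeval (Sum.elim x fun _ => 0) (A.S a b) = 0 := AV.s2_zero_right x
    have e2 : ∀ a b, aeval (Sum.elim (fun _ => 0) x) (A.S a b) = 0 := AV.s2_zero_left x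
    constructor
    · simp only [map_sub, map_mul, aeval_X, AV.aeval_s2, e1, AV.s2_zero_left, mul_zero, sub_zero]
    · simp only [map_sub, map_mul, aeval_X, AV.aeval_s2, e2, AV.s2_zero_left, mul_zero, sub_zero]
  · intro L _ _ P Q x x' hP hQ
    simp only [map_sub, map_mul, aeval_X, AV.aeval_s2, Sum.elim_inl, Sum.elim_inr]
    by_cases hc : A.x (P - Q) c = 0
    · obtain ⟨c', hc', h1⟩ := hP.spec hQ
      have h2 : (fun i => aeval (Sum.elim x x') (A.S i c)) = fun _ => 0 := by
        funext i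
        rw [h1, hc, mul_zero, mul_zero]
      rw [h2, AV.s2_zero_left, AV.s2_zero_left, mul_zero, mul_zero, sub_zero]
    · obtain ⟨c'', hc'', h1⟩ := (hP.add hQ hc).s2 hP
      obtain ⟨c', hc', h2⟩ := hQ
      rw [h1, h1, add_sub_cancel_left, h2, h2]
      ring

/-- `(P - Q) + Q = P`. -/
theorem AV.sub_add_right (hy : A.IsPt y) (hy' : A.IsPt y') (a b c d : Fin (N + 1)) :
    y d * A.s2 (fun i => A.s2 y y' c i) y' a b = y a * A.s2 (fun i => A.s2 y y' c i) y' d b := by
  have h := AV.ident2 (A := A) (f := X (Sum.inl d) * A.s2 (fun i => A.S c i)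
    (fun i => X (Sum.inr i)) a b - X (Sum.inl a) * A.s2 (fun i => A.S c i)
    (fun i => X (Sum.inr i)) d b) ?_ ?_ hy hy'
  · simp only [map_sub, map_mul, aeval_X, AV.aeval_s2, Sum.elim_inl, Sum.elim_inr] at h
    exact sub_eq_zero.mp h
  · intro L _ _ x
    have e1 : ∀ a b, aeval (Sum.elim x fun _ => 0) (A.S a b) = 0 := AV.s2_zero_right x
    have e2 : ∀ a b, aeval (Sum.elim (fun _ => 0) x) (A.S a b) = 0 := AV.s2_zero_left x
    constructor
    · simp only [map_sub, map_mul, aeval_X, AV.aeval_s2, e1, AV.s2_zero_left, mul_zero, sub_zero]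
    · simp only [map_sub, map_mul, aeval_X, AV.aeval_s2, e2, AV.s2_zero_left, mul_zero, sub_zero]
  · intro L _ _ P Q x x' hP hQ
    simp only [map_sub, map_mul, aeval_X, AV.aeval_s2, Sum.elim_inl, Sum.elim_inr]
    by_cases hc : A.x (P + Q) c = 0
    · obtain ⟨c', hc', h1⟩ := hP.spec hQ
      have h2 : (fun i => aeval (Sum.elim x x') (A.S c i)) = fun _ => 0 := by
        funext i
        rw [h1, hc, zero_mul, mul_zero]
      rw [h2, AV.s2_zero_left, AV.s2_zero_left, mul_zero, mul_zero, sub_zero]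
    · obtain ⟨c'', hc'', h1⟩ := (hP.sub hQ hc).s2 hQ
      obtain ⟨c', hc', h2⟩ := hP
      rw [h1, h1, sub_add_cancel, h2, h2]
      ring

/-- `P + Q = Q + P`. -/
theorem AV.s2_comm (hy : A.IsPt y) (hy' : A.IsPt y') (a b c d : Fin (N + 1)) :
    A.s2 y y' a b * A.s2 y' y c d = A.s2 y y' c b * A.s2 y' y a d := by
  have h := AV.ident2 (A := A) (f := A.S a b * A.s2 (fun i => X (Sum.inr i))
    (fun i => X (Sum.inl i)) c d - A.S c b * A.s2 (fun i => X (Sum.inr i))
    (fun i => X (Sum.inl i)) a d) ?_ ?_ hy hy'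
  · simp only [map_sub, map_mul, aeval_X, AV.aeval_s2, Sum.elim_inl, Sum.elim_inr] at h
    exact sub_eq_zero.mp h
  · intro L _ _ x
    have e1 : ∀ a b, aeval (Sum.elim x fun _ => 0) (A.S a b) = 0 := AV.s2_zero_right x
    have e2 : ∀ a b, aeval (Sum.elim (fun _ => 0) x) (A.S a b) = 0 := AV.s2_zero_left x
    constructor
    · simp only [map_sub, map_mul, e1, zero_mul, sub_zero]
    · simp only [map_sub, map_mul, e2, zero_mul, sub_zero]
  · intro L _ _ P Q x x' hP hQ
    simp only [map_sub, map_mul, aeval_X, AV.aeval_s2, Sum.elim_inl, Sum.elim_inr]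
    obtain ⟨c', hc', h1⟩ := hP.spec hQ
    obtain ⟨c'', hc'', h2⟩ := hQ.s2 hP
    rw [h1, h1, h2, h2, add_comm Q P]
    ring

/-- `P - P = 0`. -/
theorem AV.s2_self (hy : A.IsPt y) (a b d : Fin (N + 1)) :
    algebraMap K R (A.x (0 : A.Pts K) d) * A.s2 y y a b =
      algebraMap K R (A.x (0 : A.Pts K) b) * A.s2 y y a d := by
  have h : C (A.x (0 : A.Pts K) d) * A.s2 X X a b - C (A.x (0 : A.Pts K) b) * A.s2 X X a d ∈
      A.I := by
    refine AV.ident1 ?_ ?_
    · simp only [map_sub, map_mul, aeval_X, AV.aeval_s2, AV.s2_zero_left, mul_zero, sub_zero]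
    · intro L _ _ P x hP
      simp only [map_sub, map_mul, aeval_X, AV.aeval_s2, aeval_C]
      obtain ⟨c', hc', h1⟩ := hP.s2 hP
      obtain ⟨c, hc, h2⟩ := AV.zero_rep (A := A) (L := L)
      have h3 : ∀ i, algebraMap K L (A.x (0 : A.Pts K) i) = c * A.x (0 : A.Pts L) i := h2
      rw [h1, h1, h3, h3, sub_self]
      ring
  have h1 := hy _ h
  simp only [map_sub, map_mul, aeval_X, AV.aeval_s2, aeval_C] at h1
  exact sub_eq_zero.mp h1

/-- `P + 0 = P`. -/
theorem AV.s2_zero_add (hy : A.IsPt y) (a b d : Fin (N + 1)) :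
    y d * A.s2 y (fun i => algebraMap K R (A.x (0 : A.Pts K) i)) a b =
      y a * A.s2 y (fun i => algebraMap K R (A.x (0 : A.Pts K) i)) d b := by
  have h : X d * A.s2 X (fun i => C (A.x (0 : A.Pts K) i)) a b -
      X a * A.s2 X (fun i => C (A.x (0 : A.Pts K) i)) d b ∈ A.I := by
    refine AV.ident1 ?_ ?_
    · simp only [map_sub, map_mul, aeval_X, zero_mul, sub_zero]
    · intro L _ _ P x hP
      simp only [map_sub, map_mul, aeval_X, AV.aeval_s2, aeval_C]
      obtain ⟨c', hc', h1⟩ := hP.s2 (AV.zero_rep (A := A) (L := L))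
      obtain ⟨c, hc, h2⟩ := hP
      rw [h1, h1, h2, h2, add_zero]
      ring
  have h1 := hy _ h
  simp only [map_sub, map_mul, aeval_X, AV.aeval_s2, aeval_C] at h1
  exact sub_eq_zero.mp h1

/-- `P - 0 = P`. -/
theorem AV.s2_zero_sub (hy : A.IsPt y) (a b d : Fin (N + 1)) :
    y d * A.s2 y (fun i => algebraMap K R (A.x (0 : A.Pts K) i)) a b =
      y b * A.s2 y (fun i => algebraMap K R (A.x (0 : A.Pts K) i)) a d := by
  have h : X d * A.s2 X (fun i => C (A.x (0 : A.Pts K) i)) a b -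
      X b * A.s2 X (fun i => C (A.x (0 : A.Pts K) i)) a d ∈ A.I := by
    refine AV.ident1 ?_ ?_
    · simp only [map_sub, map_mul, aeval_X, zero_mul, sub_zero]
    · intro L _ _ P x hP
      simp only [map_sub, map_mul, aeval_X, AV.aeval_s2, aeval_C]
      obtain ⟨c', hc', h1⟩ := hP.s2 (AV.zero_rep (A := A) (L := L))
      obtain ⟨c, hc, h2⟩ := hP
      rw [h1, h1, h2, h2, sub_zero]
      ring
  have h1 := hy _ h
  simp only [map_sub, map_mul, aeval_X, AV.aeval_s2, aeval_C] at h1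
  exact sub_eq_zero.mp h1

end

end

end Pool.Agent.Lib.MP_17a322_nt.VA
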