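import Pool.Agent.Lib.MP_17a322_nt.VA.A5
import Pool.Agent.Lib.MP_17a322_nt.VA.A4c

/-!
VA, part A: local bounds for duplication and for linear forms.
-/

universe u w

namespace Pool.Agent.Lib.MP_17a322_nt.VA

open MvPolynomial Height
open Pool.Agent.Lib.MP_17a322_nt.VJ

section

variable {K : Type u} [Field K] {N : ℕ}

theorem vm_zero {L : Type*} [Field L] (v : AbsoluteValue L ℝ) {ι : Type*} [Nonempty ι] :
    vm v (fun _ : ι => (0 : L)) = 0 :=
  le_antisymm (vm_le v fun i => by rw [map_zero]) (vm_nonneg v _)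

/-- A constant dominating finitely many size constants. -/
theorem exists_sup {ι : Type*} [Finite ι] (κ : ι → SC K) : ∃ E : SC K, ∀ (i : ι) (L : Type w)
    [Field L] [Algebra K L] (v : AbsoluteValue L ℝ), (κ i).k v ≤ E.k v := by
  obtain ⟨n, S, k, hn, h2⟩ := Adm.family
    (fun (i : ι) (L : Type w) _ _ v => (κ i).k v) fun i => (κ i).adm
  exact ⟨scOf n S k, fun i L _ _ v => (h2 i L v).trans (le_scOf hn S k v)⟩

/-- Linear forms: upper bound. -/
theorem lf_upper {ι : Type*} [Finite ι] (l : ι → Fin (N + 1) → K) : ∃ κ : SC K,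
    ∀ (L : Type w) [Field L] [Algebra K L] (v : AbsoluteValue L ℝ) (y : Fin (N + 1) → L) (k : ι),
      v (lf (l k) y) ≤ κ.k v * vm v y := by
  have h1 : ∀ k : ι, Adm.{u, w} K fun L _ _ v =>
      cst v (N + 1) * ∏ a, max 1 (v (algebraMap K L (l k a))) := fun k =>
    (Adm_cst _).mul (Adm.prod Finset.univ (fun a L _ _ v => max 1 (v (algebraMap K L (l k a))))
      (fun a _ => Adm_abv _) fun _ _ _ _ _ _ => zero_le_one.trans (le_max_left _ _))
      fun _ _ _ _ => Finset.prod_nonneg fun _ _ => zero_le_one.trans (le_max_left _ _)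
  obtain ⟨n, S, k, hn, h2⟩ := Adm.family _ h1
  refine ⟨scOf n S k, fun L _ _ v y i => ?_⟩
  have h3 : v (lf (l i) y) ≤ cst v (Finset.univ : Finset (Fin (N + 1))).card *
      ((∏ a, max 1 (v (algebraMap K L (l i a)))) * vm v y) := by
    unfold lf
    refine (SN_self v).sum_le Finset.univ _ (mul_nonneg
      (Finset.prod_nonneg fun _ _ => zero_le_one.trans (le_max_left _ _)) (vm_nonneg v y)) ?_
    intro a _
    show v (algebraMap K L (l i a) * y a) ≤ _
    rw [map_mul]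
    refine mul_le_mul ?_ (le_vm v y a) (v.nonneg _)
      (Finset.prod_nonneg fun _ _ => zero_le_one.trans (le_max_left _ _))
    exact (le_max_right 1 _).trans (le_prod_max Finset.univ
      (fun a => max 1 (v (algebraMap K L (l i a)))) (fun _ _ => le_max_left _ _)
      (Finset.mem_univ a))
  rw [Finset.card_univ, Fintype.card_fin, ← mul_assoc] at h3
  refine h3.trans (mul_le_mul_of_nonneg_right ?_ (vm_nonneg v y))
  exact (h2 i L v).trans (le_scOf hn S k v)

theorem aeval_lf {R : Type*} [CommRing R] [Algebra K R] (l : Fin (N + 1) → K)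
    (y : Fin (N + 1) → R) : aeval y (∑ a, C (l a) * X a : MvPolynomial (Fin (N + 1)) K) =
      lf l y := by
  rw [map_sum]
  unfold lf
  refine Finset.sum_congr rfl fun a _ => ?_
  rw [map_mul, aeval_C, aeval_X]

theorem lf_smul {R : Type*} [CommRing R] [Algebra K R] (l : Fin (N + 1) → K) (c : R)
    (y : Fin (N + 1) → R) : lf l (fun i => c * y i) = c * lf l y := by
  unfold lf
  rw [Finset.mul_sum]
  exact Finset.sum_congr rfl fun a _ => by ring

theorem lf_map {R R' : Type*} [CommRing R] [Algebra K R] [CommRing R'] [Algebra K R']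
    (φ : R →ₐ[K] R') (l : Fin (N + 1) → K) (y : Fin (N + 1) → R) :
    φ (lf l y) = lf l fun i => φ (y i) := by
  unfold lf
  rw [map_sum]
  refine Finset.sum_congr rfl fun a _ => ?_
  rw [map_mul, AlgHom.commutes]

variable (A : AV K N)

/-- Linear forms without common zero: lower bound. -/
theorem AV.lf_lower {ι : Type*} [Finite ι] (l : ι → Fin (N + 1) → K)
    (hl : ∀ (L : Type u) [Field L] [Algebra K L] (P : A.Pts L), ∃ k, lf (l k) (A.x P) ≠ 0) :
    ∃ κ : SC K, ∀ (L : Type u) [Field L] [Algebra K L] (v : AbsoluteValue L ℝ)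
      (y : Fin (N + 1) → L), A.IsPt y → y ≠ 0 → ∃ k, vm v y ≤ κ.k v * v (lf (l k) y) := by
  have h1 : ∀ i : Fin (N + 1), ∃ κ : SC K, ∀ (L : Type u) [Field L] [Algebra K L]
      (v : AbsoluteValue L ℝ) (x : Fin (N + 1) → L),
        (∀ e ∈ (A.I : Set (MvPolynomial (Fin (N + 1)) K)), aeval x e = 0) →
          (∀ t, v (x t) ≤ 1) → aeval x (X i : MvPolynomial (Fin (N + 1)) K) = 1 →
          ∃ k : ι, 1 ≤ κ.k v * v (aeval x (∑ a, C (l k a) * X a :
            MvPolynomial (Fin (N + 1)) K)) := by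
    intro i
    refine lower_bound.{u, u} (A.I : Set (MvPolynomial (Fin (N + 1)) K))
      (fun k => ∑ a, C (l k a) * X a) _ ?_
    intro L _ _ x hx hS
    rw [aeval_X]
    by_contra hc
    obtain ⟨P, hP⟩ := AV.exists_rep (A := A) (y := x) (fun h0 => hc (congrFun h0 i)) hx
    obtain ⟨k, hk⟩ := hl L P
    obtain ⟨c, hc', h2⟩ := hP
    have h3 := hS k
    rw [aeval_lf, funext h2, lf_smul] at h3
    exact mul_ne_zero hc' hk h3
  choose κ hκ using h1
  obtain ⟨E, hE⟩ := exists_sup.{u, u} κ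
  refine ⟨E, fun L _ _ v y hy hy0 => ?_⟩
  obtain ⟨i, c, z, hc, hcv, hz, hzi, hz1, -, hzz⟩ := exists_normal v hy0
  have hzp : A.IsPt z := by
    rw [funext hzz]
    exact hy.smul _
  obtain ⟨k, hk⟩ := hκ i L v z hzp hz1 (by rw [aeval_X, hzi])
  refine ⟨k, ?_⟩
  rw [aeval_lf] at hk
  have h4 : lf (l k) y = c * lf (l k) z := by rw [← lf_smul, ← funext hz]
  rw [← hcv, h4, map_mul]
  have h5 : 1 ≤ E.k v * v (lf (l k) z) :=
    hk.trans (mul_le_mul_of_nonneg_right (hE i L v) (v.nonneg _))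
  calc v c = v c * 1 := (mul_one _).symm
    _ ≤ v c * (E.k v * v (lf (l k) z)) := mul_le_mul_of_nonneg_left h5 (v.nonneg _)
    _ = _ := by ring

/-- Two sided bounds for duplication. -/
theorem AV.dup_bd : ∃ κ : SC K, ∀ (L : Type u) [Field L] [Algebra K L] (v : AbsoluteValue L ℝ)
    (y : Fin (N + 1) → L), vm v (A.dup y) ≤ κ.k v * vm v y ^ 4 ∧
      (A.IsPt y → vm v y ^ 4 ≤ κ.k v * vm v (A.dup y)) := by
  obtain ⟨κ₁, h1⟩ := A.S_upper
  obtain ⟨κ₂, h2⟩ := A.S_lower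
  obtain ⟨κ₃, h3⟩ := (Adm.prod.{u, u} (Finset.univ : Finset (Fin (N + 1)))
    (fun b L _ _ v => max 1 (v (algebraMap K L (A.x (0 : A.Pts K) b / A.x (0 : A.Pts K) A.b₀))))
    (fun b _ => Adm_abv _) fun _ _ _ _ _ _ => zero_le_one.trans (le_max_left _ _)).exists_SC
  refine ⟨κ₁.mul (κ₂.mul κ₃), fun L _ _ v y => ⟨?_, fun hy => ?_⟩⟩
  · refine vm_le v fun a => ?_
    refine (h1 L v y y a A.b₀).trans ?_
    rw [show vm v y ^ 2 * vm v y ^ 2 = vm v y ^ 4 by ring]
    exact mul_le_mul_of_nonneg_right (κ₁.le_mul_left _ v) (pow_nonneg (vm_nonneg v y) 4)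
  · obtain ⟨a, b, hab⟩ := h2 L v y y hy hy
    rw [show vm v y ^ 2 * vm v y ^ 2 = vm v y ^ 4 by ring] at hab
    refine hab.trans ?_
    have h4 := AV.s2_self (R := L) hy a b A.b₀
    have h5 : aeval (Sum.elim y y) (A.S a b) =
        algebraMap K L (A.x (0 : A.Pts K) b / A.x (0 : A.Pts K) A.b₀) * A.dup y a := by
      have h6 : algebraMap K L (A.x (0 : A.Pts K) A.b₀) ≠ 0 := (map_ne_zero _).mpr A.b₀_spec
      rw [map_div₀, div_mul_eq_mul_div, eq_div_iff h6, mul_comm]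
      exact h4
    rw [h5, map_mul]
    have h7 : v (algebraMap K L (A.x (0 : A.Pts K) b / A.x (0 : A.Pts K) A.b₀)) ≤ κ₃.k v := by
      refine le_trans ?_ (h3 L v)
      exact (le_max_right 1 _).trans (le_prod_max Finset.univ (fun b => max 1
        (v (algebraMap K L (A.x (0 : A.Pts K) b / A.x (0 : A.Pts K) A.b₀))))
        (fun _ _ => le_max_left _ _) (Finset.mem_univ b))
    calc κ₂.k v * (v (algebraMap K L (A.x (0 : A.Pts K) b / A.x (0 : A.Pts K) A.b₀)) *
          v (A.dup y a)) ≤ κ₂.k v * (κ₃.k v * vm v (A.dup y)) := by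
          refine mul_le_mul_of_nonneg_left ?_ (κ₂.pos v).le
          exact mul_le_mul h7 (le_vm v _ a) (v.nonneg _) (κ₃.pos v).le
      _ = κ₂.k v * κ₃.k v * vm v (A.dup y) := by ring
      _ ≤ (κ₁.mul (κ₂.mul κ₃)).k v * vm v (A.dup y) := by
          refine mul_le_mul_of_nonneg_right ?_ (vm_nonneg v _)
          exact (κ₂.mul_le κ₃ v).trans (κ₁.le_mul_right _ v)

theorem AV.dup_isPt {R : Type u} [CommRing R] [Algebra K R] {y : Fin (N + 1) → R}
    (hy : A.IsPt y) : A.IsPt (A.dup y) :=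
  AV.col_isPt hy hy A.b₀

theorem AV.mu_isPt {R : Type u} [CommRing R] [Algebra K R] {y : Fin (N + 1) → R}
    (hy : A.IsPt y) (j : ℕ) : A.IsPt (A.mu j y) := by
  induction j with
  | zero => exact hy
  | succ j ih =>
    rw [A.mu_succ]
    exact A.dup_isPt ih

/-- Two sided bounds for the multiplication by `2 ^ j`. -/
theorem AV.mu_bd : ∃ κ : SC K, ∀ (L : Type u) [Field L] [Algebra K L] (v : AbsoluteValue L ℝ)
    (j : ℕ) (y : Fin (N + 1) → L), vm v (A.mu j y) ≤ κ.k v ^ (4 ^ j - 1) * vm v y ^ 4 ^ j ∧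
      (A.IsPt y → vm v y ^ 4 ^ j ≤ κ.k v ^ (4 ^ j - 1) * vm v (A.mu j y)) := by
  obtain ⟨κ, h1⟩ := A.dup_bd
  refine ⟨κ, fun L _ _ v j y => ?_⟩
  induction j with
  | zero =>
    rw [pow_zero, Nat.sub_self, pow_zero, pow_one, one_mul, one_mul, A.mu_zero]
    exact ⟨le_rfl, fun _ => le_rfl⟩
  | succ j ih =>
    have hk := κ.one_le v
    have e1 : 1 ≤ 4 ^ j := Nat.one_le_pow _ _ (by norm_num)
    have e2 : 4 ^ (j + 1) = 4 * 4 ^ j := by rw [pow_succ']
    have e3 : 4 * (4 ^ j - 1) + 1 ≤ 4 ^ (j + 1) - 1 := by omega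
    rw [A.mu_succ]
    obtain ⟨h2, h3⟩ := h1 L v (A.mu j y)
    constructor
    · refine h2.trans ?_
      calc κ.k v * vm v (A.mu j y) ^ 4 ≤
          κ.k v * (κ.k v ^ (4 ^ j - 1) * vm v y ^ 4 ^ j) ^ 4 := by
            refine mul_le_mul_of_nonneg_left ?_ (κ.pos v).le
            exact pow_le_pow_left₀ (vm_nonneg v _) ih.1 4
        _ = κ.k v ^ (4 * (4 ^ j - 1) + 1) * vm v y ^ 4 ^ (j + 1) := by
            rw [e2, mul_pow, ← pow_mul, ← pow_mul, mul_comm (4 ^ j - 1) 4, mul_comm (4 ^ j) 4,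
              pow_succ]
            ring
        _ ≤ _ := mul_le_mul_of_nonneg_right (pow_le_pow_right₀ hk e3)
            (pow_nonneg (vm_nonneg v y) _)
    · intro hy
      have h4 := h3 (A.mu_isPt hy j)
      calc vm v y ^ 4 ^ (j + 1) = (vm v y ^ 4 ^ j) ^ 4 := by rw [← pow_mul, e2, mul_comm]
        _ ≤ (κ.k v ^ (4 ^ j - 1) * vm v (A.mu j y)) ^ 4 :=
            pow_le_pow_left₀ (pow_nonneg (vm_nonneg v y) _) (ih.2 hy) 4
        _ = κ.k v ^ (4 * (4 ^ j - 1)) * vm v (A.mu j y) ^ 4 := by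
            rw [mul_pow, ← pow_mul, mul_comm (4 ^ j - 1) 4]
        _ ≤ κ.k v ^ (4 * (4 ^ j - 1)) * (κ.k v * vm v (A.dup (A.mu j y))) :=
            mul_le_mul_of_nonneg_left h4 (pow_nonneg (κ.pos v).le _)
        _ = κ.k v ^ (4 * (4 ^ j - 1) + 1) * vm v (A.dup (A.mu j y)) := by
            rw [pow_succ]
            ring
        _ ≤ _ := mul_le_mul_of_nonneg_right (pow_le_pow_right₀ hk e3) (vm_nonneg v _)

end

end Pool.Agent.Lib.MP_17a322_nt.VA
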