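import Pool.Agent.Lib.MP_17a322_nt.VA.Z1

/-!
Division points are algebraic.

`Z_alg_iff`: the elements which are in all valuation rings that contain `L` are the elements which are
algebraic over `L`. `Z_ladder`: the maximal value of the coordinates of suitable representatives of
`m • P` is the `m ^ 2`-th power of the one of `P`.
-/

universe u

namespace Pool.Agent.Lib.MP_17a322_nt.VA

open MvPolynomial

theorem Z_alg_iff {L L' : Type u} [Field L] [Field L'] [Algebra L L'] (f : L') :
    IsAlgebraic L f ↔ ∀ O : ValuationSubring L', (∀ c : L, algebraMap L L' c ∈ O) → f ∈ O := by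
  have h1 := iInf_valuationSubring_superset (s := Set.range (algebraMap L L'))
  have h2 : Subring.closure (Set.range (algebraMap L L')) = (algebraMap L L').range := by
    rw [← RingHom.coe_range, Subring.closure_eq]
  have h3 : f ∈ (⨅ V : {V : ValuationSubring L' // Set.range (algebraMap L L') ⊆ V.toSubring},
      V.1.toSubring) ↔ ∀ O : ValuationSubring L', (∀ c : L, algebraMap L L' c ∈ O) → f ∈ O := by
    rw [Subring.mem_iInf]
    constructor
    · intro h O hO
      exact h ⟨O, by rintro _ ⟨c, rfl⟩; exact hO c⟩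
    · intro h V
      exact h V.1 fun c => V.2 ⟨c, rfl⟩
  rw [← h3, h1, h2]
  constructor
  · intro h
    obtain ⟨p, hp, hp0⟩ := h.isIntegral
    refine ⟨p.map (algebraMap L L').rangeRestrict, hp.map _, ?_⟩
    rw [Polynomial.eval₂_map]
    exact hp0
  · rintro ⟨p, hp, hp0⟩
    obtain ⟨q, hq, -, hq'⟩ := Polynomial.lifts_and_natDegree_eq_and_monic (f :=
      (algebraMap L L').rangeRestrict) (p := p) (by
        rw [Polynomial.lifts_iff_coeff_lifts]
        intro n
        exact (algebraMap L L').rangeRestrict_surjective _) hp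
    refine (IsIntegral.isAlgebraic ⟨q, hq', ?_⟩)
    rw [← hq, Polynomial.eval₂_map] at hp0
    exact hp0

section

variable {F Γ : Type*} [Field F] [LinearOrderedCommGroupWithZero Γ] (v : Valuation F Γ)

/-- The maximal value of the entries. -/
def mx {ι : Type*} (y : ι → F) (g : Γ) : Prop := (∀ i, v (y i) ≤ g) ∧ ∃ i, v (y i) = g

theorem mx_unique {ι : Type*} {y : ι → F} {g g' : Γ} (h : mx v y g) (h' : mx v y g') : g = g' := by
  obtain ⟨h1, i, hi⟩ := h
  obtain ⟨h1', i', hi'⟩ := h'
  exact le_antisymm (hi ▸ h1' i) (hi' ▸ h1 i')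

theorem mx_exists {ι : Type*} [Finite ι] [Nonempty ι] (y : ι → F) : ∃ g, mx v y g := by
  obtain ⟨i, hi⟩ := Finite.exists_max fun i => v (y i)
  exact ⟨v (y i), hi, i, rfl⟩

theorem mx_smul {ι : Type*} {y : ι → F} {g : Γ} (h : mx v y g) (c : F) :
    mx v (fun i => c * y i) (v c * g) := by
  obtain ⟨h1, i, hi⟩ := h
  refine ⟨fun j => ?_, i, ?_⟩
  · rw [map_mul]
    exact mul_le_mul_right (h1 j) _
  · rw [map_mul, hi]

theorem mx_mul {ι κ : Type*} {y : ι → F} {z : κ → F} {g h : Γ} (hy : mx v y g) (hz : mx v z h) :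
    mx v (fun p : ι × κ => y p.1 * z p.2) (g * h) := by
  obtain ⟨h1, i, hi⟩ := hy
  obtain ⟨h2, j, hj⟩ := hz
  refine ⟨fun p => ?_, (i, j), ?_⟩
  · rw [map_mul]
    exact mul_le_mul' (h1 _) (h2 _)
  · rw [map_mul, hi, hj]

theorem mx_ne_zero {ι : Type*} {y : ι → F} {g : Γ} (h : mx v y g) (hy : y ≠ 0) : g ≠ 0 := by
  rintro rfl
  refine hy (funext fun i => ?_)
  have h1 := h.1 i
  rwa [le_zero_iff, map_eq_zero] at h1

end

section

variable {K : Type u} [Field K] {N : ℕ} (A : AV K N) {F : Type u} [Field F] [Algebra K F]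
  (O : ValuationSubring F) (hO : ∀ c : K, algebraMap K F c ∈ O)

include hO

theorem Z_mx_S {P Q : A.Pts F} {y z : Fin (N + 1) → F} {c d : F} (hc : c ≠ 0) (hd : d ≠ 0)
    (hy : ∀ i, A.x P i = c * y i) (hz : ∀ i, A.x Q i = d * z i) {g h : O.ValueGroup}
    (hg : mx O.valuation y g) (hh : mx O.valuation z h) :
    mx O.valuation (fun p : Fin (N + 1) × Fin (N + 1) => aeval (Sum.elim y z) (A.S p.1 p.2))
      (g ^ 2 * h ^ 2) := by
  let _ : Algebra K O := ((algebraMap K F).codRestrict O.toSubring hO).toAlgebra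
  have : IsScalarTower K O F := IsScalarTower.of_algebraMap_eq fun _ => rfl
  let π : O →ₐ[K] IsLocalRing.ResidueField O := IsScalarTower.toAlgHom K O _
  have hy0 : y ≠ 0 := by
    rintro rfl
    exact Z_x_ne A P (funext fun i => by rw [hy]; simp)
  have hz0 : z ≠ 0 := by
    rintro rfl
    exact Z_x_ne A Q (funext fun i => by rw [hz]; simp)
  obtain ⟨y', c', i₀, hc', hy', hyy⟩ := Z_normalise (R := O) hy0
  obtain ⟨z', d', j₀, hd', hz', hzz⟩ := Z_normalise (R := O) hz0
  have key : ∀ (w : Fin (N + 1) → F) (w' : Fin (N + 1) → O) (e : F) (i : Fin (N + 1)) (g : _),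
      w' i = 1 → (∀ i, w i = e * algebraMap O F (w' i)) → mx O.valuation w g →
        g = O.valuation e := by
    intro w w' e i g h1 h2 h3
    refine mx_unique O.valuation h3 ⟨fun j => ?_, i, ?_⟩
    · rw [h2, map_mul]
      exact mul_le_of_le_one_right' (O.valuation_le_one _)
    · rw [h2, h1, map_one, mul_one]
  have hg' := key y y' c' i₀ g hy' hyy hg
  have hh' := key z z' d' j₀ h hz' hzz hh
  have hS : ∀ a b, aeval (Sum.elim y z) (A.S a b) =
      c' ^ 2 * d' ^ 2 * algebraMap O F (aeval (Sum.elim y' z') (A.S a b)) := by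
    intro a b
    have h1 : y = fun i => c' * algebraMap O F (y' i) := funext hyy
    have h2 : z = fun i => d' * algebraMap O F (z' i) := funext hzz
    rw [h1, h2, Z_S_smul A, ← aeval_algebraMap_apply]
    congr 3
    funext i
    rcases i with i | i
    · rfl
    · rfl
  rw [hg', hh']
  refine ⟨fun p => ?_, ?_⟩
  · show O.valuation (aeval (Sum.elim y z) (A.S p.1 p.2)) ≤ _
    rw [hS, map_mul, map_mul, map_pow, map_pow]
    exact mul_le_of_le_one_right' (O.valuation_le_one _)
  · -- a unit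
    have hP : ∀ i, A.x P i = (c * c') * algebraMap O F (y' i) := by
      intro i
      rw [hy, hyy]
      ring
    have hQ : ∀ i, A.x Q i = (d * d') * algebraMap O F (z' i) := by
      intro i
      rw [hz, hzz]
      ring
    have hyp : A.IsPt y' := Z_isPt_of_map A (mul_ne_zero hc hc') hP
    have hzp : A.IsPt z' := Z_isPt_of_map A (mul_ne_zero hd hd') hQ
    have hmap : ∀ w : Fin (N + 1) → O, A.IsPt w → A.IsPt fun i => π (w i) := by
      intro w hw f hf
      have h3 : aeval (fun i => π (w i)) f = π (aeval w f) := by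
        rw [← AlgHom.comp_apply]
        congr 1
        refine MvPolynomial.algHom_ext fun i => ?_
        simp
      rw [h3, hw f hf, map_zero]
    obtain ⟨p, e, he, hp⟩ := Z_exists_pt A (y := fun i => π (y' i)) (fun h => by
      have h1 := congrFun h i₀
      simp only [hy', map_one, Pi.zero_apply] at h1
      exact one_ne_zero h1) (hmap y' hyp)
    obtain ⟨q, e', he', hq⟩ := Z_exists_pt A (y := fun i => π (z' i)) (fun h => by
      have h1 := congrFun h j₀
      simp only [hz', map_one, Pi.zero_apply] at h1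
      exact one_ne_zero h1) (hmap z' hzp)
    obtain ⟨C, hC, hspec⟩ := A.spec _ p q
    obtain ⟨a, ha⟩ : ∃ a, A.x (p + q) a ≠ 0 := by
      by_contra hcon
      push Not at hcon
      exact Z_x_ne A (p + q) (funext hcon)
    obtain ⟨b, hb⟩ : ∃ b, A.x (p - q) b ≠ 0 := by
      by_contra hcon
      push Not at hcon
      exact Z_x_ne A (p - q) (funext hcon)
    have h1 : aeval (Sum.elim p.1.rep q.1.rep) (A.S a b) ≠ 0 := by
      rw [hspec a b]
      exact mul_ne_zero hC (mul_ne_zero ha hb)
    have h2 : (Sum.elim p.1.rep q.1.rep : Fin (N + 1) ⊕ Fin (N + 1) → _) =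
        Sum.elim (fun i => e * π (y' i)) fun i => e' * π (z' i) := by
      congr 1
      · funext i
        exact hp i
      · funext i
        exact hq i
    rw [h2, Z_S_smul A] at h1
    have h3 : aeval (Sum.elim (fun i => π (y' i)) fun i => π (z' i)) (A.S a b) =
        π (aeval (Sum.elim y' z') (A.S a b)) := by
      rw [← AlgHom.comp_apply]
      congr 1
      refine MvPolynomial.algHom_ext fun i => ?_
      rcases i with i | i
      · simp
      · simp
    rw [h3] at h1
    have h4 : π (aeval (Sum.elim y' z') (A.S a b)) ≠ 0 := fun h5 => h1 (by rw [h5, mul_zero])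
    have h5 : IsUnit (aeval (Sum.elim y' z') (A.S a b)) := by
      by_contra h6
      exact h4 ((IsLocalRing.residue_eq_zero_iff _).2 ((IsLocalRing.mem_maximalIdeal _).2 h6))
    refine ⟨(a, b), ?_⟩
    show O.valuation (aeval (Sum.elim y z) (A.S a b)) = _
    rw [hS, map_mul, map_mul, map_pow, map_pow]
    have h6 : O.valuation (algebraMap O F (aeval (Sum.elim y' z') (A.S a b))) = 1 :=
      (O.valuation_eq_one_iff _).1 h5
    rw [h6, mul_one]

theorem Z_v_const (c : K) (hc : c ≠ 0) : O.valuation (algebraMap K F c) = 1 := by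
  have h1 : O.valuation (algebraMap K F c) ≤ 1 := (O.valuation_le_one_iff _).2 (hO c)
  have h2 : O.valuation (algebraMap K F c⁻¹) ≤ 1 := (O.valuation_le_one_iff _).2 (hO c⁻¹)
  have h3 : O.valuation (algebraMap K F c) * O.valuation (algebraMap K F c⁻¹) = 1 := by
    rw [← map_mul, ← map_mul, mul_inv_cancel₀ hc, map_one, map_one]
  refine le_antisymm h1 ?_
  rw [← h3]
  exact mul_le_of_le_one_right' h2

theorem Z_mx_const {ι : Type*} {y : ι → K} (hy : y ≠ 0) :
    mx O.valuation (fun i => algebraMap K F (y i)) 1 := by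
  obtain ⟨i, hi⟩ : ∃ i, y i ≠ 0 := by
    by_contra hcon
    push Not at hcon
    exact hy (funext hcon)
  refine ⟨fun j => ?_, i, Z_v_const O hO _ hi⟩
  exact (O.valuation_le_one_iff _).2 (hO _)

end

section

variable {K : Type u} [Field K] {N : ℕ} (A : AV K N)

/-- The image of a point. -/
theorem Z_exists_img {L L' : Type u} [Field L] [Algebra K L] [Field L'] [Algebra K L']
    (φ : L →ₐ[K] L') (P : A.Pts L) : ∃ P' : A.Pts L', A.Img φ P P' := by
  have h1 : A.IsPt fun i => φ (A.x P i) := by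
    intro f hf
    have h3 : aeval (fun i => φ (A.x P i)) f = φ (aeval (A.x P) f) := by
      rw [← AlgHom.comp_apply]
      congr 1
      refine MvPolynomial.algHom_ext fun i => ?_
      simp
    rw [h3, Z_x_isPt A P f hf, map_zero]
  have h2 : (fun i => φ (A.x P i)) ≠ 0 := by
    intro h
    refine Z_x_ne A P (funext fun i => ?_)
    have h3 := congrFun h i
    exact (map_eq_zero φ).1 h3
  obtain ⟨P', c, hc, h⟩ := Z_exists_pt A h2 h1
  refine ⟨P', c⁻¹, inv_ne_zero hc, fun i => ?_⟩
  have h3 : A.x P' i = c * φ (A.x P i) := h i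
  show φ (A.x P i) = c⁻¹ * A.x P' i
  rw [h3, inv_mul_cancel_left₀ hc]

theorem Z_img_unique {L L' : Type u} [Field L] [Algebra K L] [Field L'] [Algebra K L']
    {φ : L →ₐ[K] L'} {P : A.Pts L} {P' P'' : A.Pts L'} (h : A.Img φ P P') (h' : A.Img φ P P'') :
    P' = P'' := by
  obtain ⟨c, hc, h1⟩ := h
  obtain ⟨c', hc', h2⟩ := h'
  refine Z_ext A (c := c⁻¹ * c') (mul_ne_zero (inv_ne_zero hc) hc') fun i => ?_
  have h3 : φ (P.1.rep i) = c * A.x P' i := h1 i
  have h4 : φ (P.1.rep i) = c' * A.x P'' i := h2 i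
  rw [mul_assoc, ← h4, h3, inv_mul_cancel_left₀ hc]

theorem Z_img_add {L L' : Type u} [Field L] [Algebra K L] [Field L'] [Algebra K L']
    {φ : L →ₐ[K] L'} {P Q : A.Pts L} {P' Q' : A.Pts L'} (hP : A.Img φ P P') (hQ : A.Img φ Q Q') :
    A.Img φ (P + Q) (P' + Q') :=
  A.functorial L L' φ P Q P' Q' hP hQ

theorem Z_img_zero {L L' : Type u} [Field L] [Algebra K L] [Field L'] [Algebra K L']
    (φ : L →ₐ[K] L') : A.Img φ (0 : A.Pts L) (0 : A.Pts L') := by
  obtain ⟨o, ho⟩ := Z_exists_img A φ (0 : A.Pts L)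
  have h1 : A.Img φ ((0 : A.Pts L) + 0) (o + o) := Z_img_add A ho ho
  rw [add_zero] at h1
  have h2 : o = o + o := Z_img_unique A ho h1
  have h3 : o = 0 := by
    have h4 : o + 0 = o + o := by rw [add_zero]; exact h2
    exact (add_left_cancel h4).symm
  rw [h3] at ho
  exact ho

theorem Z_img_neg {L L' : Type u} [Field L] [Algebra K L] [Field L'] [Algebra K L']
    {φ : L →ₐ[K] L'} {P : A.Pts L} {P' : A.Pts L'} (hP : A.Img φ P P') : A.Img φ (-P) (-P') := by
  obtain ⟨Q, hQ⟩ := Z_exists_img A φ (-P)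
  have h1 : A.Img φ (P + -P) (P' + Q) := Z_img_add A hP hQ
  rw [add_neg_cancel] at h1
  have h2 : P' + Q = 0 := Z_img_unique A h1 (Z_img_zero A φ)
  have h3 : Q = -P' := (neg_eq_of_add_eq_zero_right h2).symm
  rw [← h3]
  exact hQ

theorem Z_img_sub {L L' : Type u} [Field L] [Algebra K L] [Field L'] [Algebra K L']
    {φ : L →ₐ[K] L'} {P Q : A.Pts L} {P' Q' : A.Pts L'} (hP : A.Img φ P P') (hQ : A.Img φ Q Q') :
    A.Img φ (P - Q) (P' - Q') := by
  rw [sub_eq_add_neg, sub_eq_add_neg]
  exact Z_img_add A hP (Z_img_neg A hQ)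

theorem Z_img_nsmul {L L' : Type u} [Field L] [Algebra K L] [Field L'] [Algebra K L']
    {φ : L →ₐ[K] L'} {P : A.Pts L} {P' : A.Pts L'} (hP : A.Img φ P P') (n : ℕ) :
    A.Img φ (n • P) (n • P') := by
  induction n with
  | zero =>
    rw [zero_smul, zero_smul]
    exact Z_img_zero A φ
  | succ n ih =>
    rw [succ_nsmul, succ_nsmul]
    exact Z_img_add A ih hP

theorem Z_ladder {F : Type u} [Field F] [Algebra K F] (P : A.Pts F) (y : Fin (N + 1) → F) (c : F)
    (hc : c ≠ 0) (hy : ∀ i, A.x P i = c * y i) (m : ℕ) :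
    ∃ (R R' : Fin (N + 1) → F) (e e' : F), e ≠ 0 ∧ e' ≠ 0 ∧ (∀ i, A.x (m • P) i = e * R i) ∧
      (∀ i, A.x ((m + 1) • P) i = e' * R' i) ∧
      ∀ O : ValuationSubring F, (∀ c : K, algebraMap K F c ∈ O) → ∀ g, mx O.valuation y g →
        mx O.valuation R (g ^ (m ^ 2)) ∧ mx O.valuation R' (g ^ ((m + 1) ^ 2)) := by
  induction m with
  | zero =>
    obtain ⟨e, he, h1⟩ := Z_img_zero A (Algebra.ofId K F)
    refine ⟨fun i => algebraMap K F (A.x (0 : A.Pts K) i), y, e⁻¹, c, inv_ne_zero he, hc,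
      fun i => ?_, fun i => ?_, fun O hO g hg => ⟨?_, ?_⟩⟩
    · have h2 : algebraMap K F (A.x (0 : A.Pts K) i) = e * A.x (0 : A.Pts F) i := h1 i
      show A.x ((0 : ℕ) • P) i = e⁻¹ * algebraMap K F (A.x (0 : A.Pts K) i)
      rw [zero_smul, h2, inv_mul_cancel_left₀ he]
    · rw [zero_add, one_smul, hy]
    · have h2 := Z_mx_const O hO (Z_x_ne A (0 : A.Pts K))
      rw [zero_pow two_ne_zero, pow_zero]
      exact h2
    · rw [zero_add, one_pow, pow_one]
      exact hg
  | succ m ih =>
    obtain ⟨R, R', e, e', he, he', hR, hR', hmx⟩ := ih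
    obtain ⟨C, hC, hS⟩ := A.spec F ((m + 1) • P) P
    have e1 : ((m + 1) • P + P : A.Pts F) = (m + 1 + 1) • P := by
      rw [succ_nsmul P (m + 1)]
    have e2 : ((m + 1) • P - P : A.Pts F) = m • P := by
      rw [succ_nsmul, add_sub_cancel_right]
    have key : ∀ a b, aeval (Sum.elim R' y) (A.S a b) =
        (C * e / (e' ^ 2 * c ^ 2) * A.x ((m + 1 + 1) • P) a) * R b := by
      intro a b
      have h1 := hS a b
      have h2 : (Sum.elim ((m + 1) • P : A.Pts F).1.rep P.1.rep : Fin (N + 1) ⊕ Fin (N + 1) → F) =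
          Sum.elim (fun i => e' * R' i) fun i => c * y i := by
        congr 1
        · funext i
          exact hR' i
        · funext i
          exact hy i
      rw [h2, Z_S_smul A] at h1
      have h3 : e' ^ 2 * c ^ 2 * aeval (Sum.elim R' y) (A.S a b) =
          C * (A.x ((m + 1 + 1) • P) a * (e * R b)) := by
        rw [h1, ← hR, ← e1]
        congr 2
        exact congrArg (fun Q : A.Pts F => A.x Q b) e2
      field_simp
      linear_combination h3
    have hne : C * e / (e' ^ 2 * c ^ 2) ≠ 0 :=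
      div_ne_zero (mul_ne_zero hC he) (mul_ne_zero (pow_ne_zero _ he') (pow_ne_zero _ hc))
    refine ⟨R', fun a => C * e / (e' ^ 2 * c ^ 2) * A.x ((m + 1 + 1) • P) a, e',
      (C * e / (e' ^ 2 * c ^ 2))⁻¹, he', inv_ne_zero hne, hR', fun i => ?_,
      fun O hO g hg => ⟨(hmx O hO g hg).2, ?_⟩⟩
    · rw [inv_mul_cancel_left₀ hne]
    · obtain ⟨h1, h2⟩ := hmx O hO g hg
      have h3 := Z_mx_S A O hO he' hc hR' hy h2 hg
      obtain ⟨g', hg'⟩ := mx_exists O.valuation
        (fun a => C * e / (e' ^ 2 * c ^ 2) * A.x ((m + 1 + 1) • P) a)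
      have h4 := mx_mul O.valuation hg' h1
      have h5 : (fun p : Fin (N + 1) × Fin (N + 1) => aeval (Sum.elim R' y) (A.S p.1 p.2)) =
          fun p => (C * e / (e' ^ 2 * c ^ 2) * A.x ((m + 1 + 1) • P) p.1) * R p.2 :=
        funext fun p => key p.1 p.2
      rw [h5] at h3
      have h6 := mx_unique O.valuation h4 h3
      have hR0 : R ≠ 0 := by
        rintro rfl
        exact Z_x_ne A (m • P) (funext fun i => by rw [hR]; simp)
      have h7 := mx_ne_zero O.valuation h1 hR0
      have hg0 : g ≠ 0 := mx_ne_zero O.valuation hg (by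
        rintro rfl
        exact Z_x_ne A P (funext fun i => by rw [hy]; simp))
      have h8 : g' = g ^ ((m + 1 + 1) ^ 2) := by
        refine mul_right_cancel₀ h7 ?_
        rw [h6, ← pow_add, ← pow_mul, ← pow_add]
        congr 1
        ring
      rw [← h8]
      exact hg'

/-- If a positive multiple of a point has coordinates in `L`, the point is algebraic over `L`. -/
theorem Z_alg {L F : Type u} [Field L] [Field F] [Algebra K L] [Algebra K F] [Algebra L F]
    [IsScalarTower K L F] (P : A.Pts F) (m : ℕ) (hm : m ≠ 0) (Q : A.Pts L)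
    (hQ : A.Img (IsScalarTower.toAlgHom K L F) Q (m • P)) (i j : Fin (N + 1)) :
    IsAlgebraic L (A.x P i / A.x P j) := by
  by_cases hj : A.x P j = 0
  · rw [hj, div_zero]
    exact isAlgebraic_zero
  obtain ⟨R, R', e, e', he, he', hR, hR', hmx⟩ := Z_ladder A P (fun i => A.x P i / A.x P j) (A.x P j) hj
    (fun i => (mul_div_cancel₀ _ hj).symm) m
  obtain ⟨c, hc, hQ'⟩ := hQ
  -- `R = f φ(Q)`
  obtain ⟨f, hf⟩ : ∃ f : F, f = (e * c)⁻¹ := ⟨_, rfl⟩
  have hf0 : f ≠ 0 := by
    rw [hf]
    exact inv_ne_zero (mul_ne_zero he hc)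
  have hRf : ∀ i, R i = f * algebraMap L F (A.x Q i) := by
    intro i
    have h1 : algebraMap L F (A.x Q i) = c * A.x (m • P) i := hQ' i
    rw [h1, hR, hf]
    field_simp
  have hone : ∀ O : ValuationSubring F, ∀ g, mx O.valuation (fun i => A.x P i / A.x P j) g →
      1 ≤ g := by
    intro O g hg
    have h1 : O.valuation (A.x P j / A.x P j) ≤ g := hg.1 j
    rwa [div_self hj, map_one] at h1
  have hm2 : m ^ 2 ≠ 0 := pow_ne_zero 2 hm
  have key : ∀ O : ValuationSubring F, (∀ c : L, algebraMap L F c ∈ O) → ∀ g,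
      mx O.valuation (fun i => A.x P i / A.x P j) g → O.valuation f = g ^ (m ^ 2) := by
    intro O hO g hg
    have hK : ∀ c : K, algebraMap K F c ∈ O := fun c => by
      rw [IsScalarTower.algebraMap_apply K L F]
      exact hO _
    have h1 := (hmx O hK g hg).1
    have h2 := mx_smul O.valuation (Z_mx_const O hO (Z_x_ne A Q)) f
    rw [mul_one] at h2
    have h3 : R = fun i => f * algebraMap L F (A.x Q i) := funext hRf
    rw [← h3] at h2
    exact mx_unique O.valuation h2 h1
  have hfalg : IsAlgebraic L f⁻¹ := by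
    rw [Z_alg_iff]
    intro O hO
    obtain ⟨g, hg⟩ := mx_exists O.valuation fun i => A.x P i / A.x P j
    rw [← O.valuation_le_one_iff, map_inv₀, key O hO g hg]
    exact inv_le_one_of_one_le₀ (one_le_pow₀ (hone O g hg))
  have hfalg' : IsAlgebraic L f := by
    have h1 := hfalg.inv
    rwa [inv_inv] at h1
  rw [Z_alg_iff]
  intro O hO
  obtain ⟨g, hg⟩ := mx_exists O.valuation fun i => A.x P i / A.x P j
  have h1 : O.valuation f ≤ 1 := (O.valuation_le_one_iff _).2 ((Z_alg_iff f).1 hfalg' O hO)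
  rw [key O hO g hg] at h1
  have h2 : g ≤ 1 := by
    by_contra h3
    push Not at h3
    exact absurd h1 (not_le.2 (one_lt_pow₀ h3 hm2))
  rw [← O.valuation_le_one_iff]
  exact (hg.1 i).trans h2

end

end Pool.Agent.Lib.MP_17a322_nt.VA
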