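import Pool.Agent.Lib.MP_17a322_nt.VN.Defs
import Pool.Agent.Lib.MP_17a322_nt.VA.AV

/-!
Definitions for Vojta's inequality (`D = 0`) on abelian varieties.

`SC K`: a size constant `E`; `E.k v ≥ 1` for every absolute value `v` of every extension of `K`.
`lf l y`: the linear form with coefficients `l`.
`Noe A n e`: Noether normalisation by linear forms `l 0, .., l n`; everything is in the chart
`l 0 ≠ 0`: affine coordinates `y = x / l 0 (x)`, Noether coordinates `s k = l (k + 1) (y)`.
-/

universe u

namespace Pool.Agent.Lib.MP_17a322_nt.VA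

open MvPolynomial Height Filter
open Pool.Agent.Lib.MP_17a322_nt.RO
open Pool.Agent.Lib.MP_17a322_nt.VJ
open Pool.Agent.Lib.MP_17a322_nt.VN

/-- A size constant. -/
structure SC (K : Type*) where
  T : Finset K
  M : ℕ

/-- The value of a size constant at an absolute value of an extension. -/
noncomputable def SC.k {K : Type*} [Field K] (E : SC K) {L : Type*} [Field L] [Algebra K L]
    (v : AbsoluteValue L ℝ) : ℝ :=
  (cst v (E.M + 1) * ∏ a ∈ E.T, max 1 (v (algebraMap K L a))) ^ (E.M + 1)

/-- The maximum of the absolute values of the entries of a vector. -/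
noncomputable def vm {L : Type*} [Field L] (v : AbsoluteValue L ℝ) {ι : Type*} (y : ι → L) : ℝ :=
  ⨆ i, v (y i)

/-- A linear form. -/
noncomputable def lf {K : Type*} [Field K] {N : ℕ} (l : Fin (N + 1) → K) {R : Type*} [CommRing R]
    [Algebra K R] (y : Fin (N + 1) → R) : R :=
  ∑ a, algebraMap K R (l a) * y a

/-- The height of a point. -/
noncomputable def AV.h {K : Type u} [Field K] {N : ℕ} (A : AV K N) {L : Type u} [Field L]
    [Algebra K L] [AdmissibleAbsValues L] (P : A.Pts L) : ℝ :=
  logHeight (A.x P)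

/-- `o` is a vector of coordinates of the origin, `t` a basis of tangent vectors there. -/
def AV.Frame {K : Type u} [Field K] {N : ℕ} (A : AV K N) {n : ℕ} (o : Fin (N + 1) → K)
    (t : Fin n → Fin (N + 1) → K) : Prop :=
  (∃ c : K, c ≠ 0 ∧ ∀ i, A.x (0 : A.Pts K) i = c * o i) ∧
    (∀ a, A.IsPt (R := DualNumber K) fun i =>
      TrivSqZeroExt.inl (o i) + TrivSqZeroExt.inr (t a i)) ∧
    LinearIndependent K (Fin.cons (α := fun _ => Fin (N + 1) → K) o t)

/-- Noether normalisation of `A` by linear forms, the multiplication table of the affine coordinate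
ring as a module over the polynomial ring, and a hypersurface model. -/
structure Noe {K : Type u} [Field K] {N : ℕ} (A : AV K N) (n e : ℕ) where
  /-- The linear forms. -/
  l : Fin (n + 1) → Fin (N + 1) → K
  nz : ∀ (L : Type u) [Field L] [Algebra K L] (P : A.Pts L), ∃ k, lf (l k) (A.x P) ≠ 0
  indep : ∃ (L : Type u) (_ : Field L) (_ : Algebra K L) (P : A.Pts L),
    lf (l 0) (A.x P) ≠ 0 ∧
      AlgebraicIndependent K (fun k : Fin n => lf (l k.succ) (A.x P) / lf (l 0) (A.x P))
  /-- Generators of the affine coordinate ring as a module. -/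
  w : Fin (e + 1) → MvPolynomial (Fin (N + 1)) K
  /-- The matrices of the multiplication by the affine coordinates. -/
  Mx : Fin (N + 1) → Matrix (Fin (e + 1)) (Fin (e + 1)) (MvPolynomial (Fin n) K)
  w_zero : w 0 = 1
  rel : ∀ (R : Type u) [CommRing R] [Algebra K R] (y : Fin (N + 1) → R), A.IsPt y →
    lf (l 0) y = 1 → ∀ j m, ∑ r, aeval y (w r) * aeval (fun k : Fin n => lf (l k.succ) y)
      (Mx j r m) = y j * aeval y (w m)
  /-- The primitive element. -/
  θ : MvPolynomial (Fin (N + 1)) K
  /-- Its equation over the polynomial ring. -/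
  Φ : Polynomial (MvPolynomial (Fin n) K)
  /-- The coordinates are `p j (θ) / δ`. -/
  p : Fin (N + 1) → Polynomial (MvPolynomial (Fin n) K)
  δ : MvPolynomial (Fin n) K
  Φ_monic : Φ.Monic
  δ_ne : δ ≠ 0
  Φ_zero : ∀ (R : Type u) [CommRing R] [Algebra K R] (y : Fin (N + 1) → R), A.IsPt y →
    lf (l 0) y = 1 →
      Φ.eval₂ (aeval (R := K) fun k : Fin n => lf (l k.succ) y).toRingHom (aeval y θ) = 0
  p_eq : ∀ (R : Type u) [CommRing R] [Algebra K R] (y : Fin (N + 1) → R), A.IsPt y →
    lf (l 0) y = 1 → ∀ j, aeval (fun k : Fin n => lf (l k.succ) y) δ * y j =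
      (p j).eval₂ (aeval (R := K) fun k : Fin n => lf (l k.succ) y).toRingHom (aeval y θ)
  back : ∀ (R : Type u) [CommRing R] [Algebra K R] (s : Fin n → R) (t : R),
    Φ.eval₂ (aeval (R := K) s).toRingHom t = 0 → IsUnit (aeval s δ) →
      ∃ y : Fin (N + 1) → R, A.IsPt y ∧ lf (l 0) y = 1 ∧ (∀ k : Fin n, lf (l k.succ) y = s k) ∧
        aeval y θ = t
  sep : ∃ a b : Polynomial (MvPolynomial (Fin n) K),
    a * Φ + b * Polynomial.derivative Φ = Polynomial.C δ

section

variable {K : Type u} [Field K] {N : ℕ} {A : AV K N} {n e : ℕ} (nd : Noe A n e)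

/-- The affine coordinates of a point with `l 0 ≠ 0`. -/
noncomputable def Noe.y {L : Type u} [Field L] [Algebra K L] (P : A.Pts L) : Fin (N + 1) → L :=
  fun a => A.x P a / lf (nd.l 0) (A.x P)

/-- The Noether coordinates of a point with `l 0 ≠ 0`. -/
noncomputable def Noe.s {L : Type u} [Field L] [Algebra K L] (P : A.Pts L) : Fin n → L :=
  fun k => lf (nd.l k.succ) (A.x P) / lf (nd.l 0) (A.x P)

/-- The point is in the chart and the Noether normalisation is étale there. -/
def Noe.Good {L : Type u} [Field L] [Algebra K L] (P : A.Pts L) : Prop :=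
  lf (nd.l 0) (A.x P) ≠ 0 ∧ aeval (nd.s P) nd.δ ≠ 0

/-- The point `P` is in the chart `l 0 ≠ 0` at `v` (up to the size constant `κ`). -/
def Noe.In {L : Type u} [Field L] [Algebra K L] (κ : SC K) (v : AbsoluteValue L ℝ)
    (P : A.Pts L) : Prop :=
  ∀ i, v (A.x P i) ≤ κ.k v * v (lf (nd.l 0) (A.x P))

/-- The gain: the sum of `- log (min (1, max (|a|, |b|)))` over the places at which `P` is in the
chart. -/
noncomputable def Noe.gn {L : Type u} [Field L] [Algebra K L] [AdmissibleAbsValues L] (κ : SC K)
    (P : A.Pts L) (a b : L) : ℝ :=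
  open Classical in
  gs fun v : AbsoluteValue L ℝ =>
    if nd.In κ v P then - Real.log (min 1 (max (v a) (v b))) else 0

/-- `M k a` is the derivative of the `k`-th Noether coordinate at `P` in the direction of the
translate of the tangent vector `t a` at the origin. -/
def Noe.IsDS (o : Fin (N + 1) → K) (t : Fin n → Fin (N + 1) → K) {L : Type u} [Field L]
    [Algebra K L] (P : A.Pts L) (M : Matrix (Fin n) (Fin n) L) : Prop :=
  ∀ (a : Fin n) (c' : Fin (N + 1)) (k : Fin n),
    let T : Fin (N + 1) → DualNumber L := fun b =>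
      aeval (Sum.elim (fun i => TrivSqZeroExt.inl (A.x P i)) fun i =>
        TrivSqZeroExt.inl (algebraMap K L (o i)) + TrivSqZeroExt.inr (algebraMap K L (t a i)))
        (A.S b c')
    lf (nd.l k.succ) T =
      (TrivSqZeroExt.inl (nd.s P k) + TrivSqZeroExt.inr (M k a)) * lf (nd.l 0) T

end

/-- The height of the subspace spanned by the first `k` of the vectors `E`. -/
noncomputable def wh {K : Type*} [Field K] [AdmissibleAbsValues K] {c n : ℕ}
    (E : Fin c → Fin n → K) (k : ℕ) : ℝ :=
  logHeight fun I : Fin k → Fin n =>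
    (Matrix.of fun a b : Fin k => if h : (a : ℕ) < c then E ⟨a, h⟩ (I b) else 0).det

end Pool.Agent.Lib.MP_17a322_nt.VA
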