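import Pool.Agent.Lib.MP_17a322_nt.VN.F3
import Pool.Agent.Lib.MP_17a322_nt.VA.Defs
import Pool.Agent.Lib.MP_17a322_nt.VA.Z2

/-!
Germs of points, closeness, closed subgroups.
-/

universe u

namespace Pool.Agent.Lib.MP_17a322_nt.VA

open MvPolynomial Height Filter
open Pool.Agent.Lib.MP_17a322_nt.RO
open Pool.Agent.Lib.MP_17a322_nt.VJ
open Pool.Agent.Lib.MP_17a322_nt.VN

/-- The point `p` over the field of germs is the germ of the sequence `P` of points. -/
def IsGerm {K : Type u} [Field K] {N : ℕ} (A : AV K N) (P : ℕ → A.Pts K) (p : A.Pts (GK K)) : Prop :=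
  ∃ c : GK K, c ≠ 0 ∧ ∀ i, gm (fun ν => A.x (P ν) i) = c * A.x p i

/-- `B` is a closed subgroup of `A`. -/
structure IsSubAV {K : Type u} [Field K] {N : ℕ} (B A : AV K N) : Prop where
  le : A.I ≤ B.I
  S_eq : B.S = A.S
  add : ∀ (L : Type u) [Field L] [Algebra K L] (P Q : B.Pts L) (P' Q' : A.Pts L), P.1 = P'.1 →
    Q.1 = Q'.1 → (P + Q).1 = (P' + Q').1

/-- The inclusion of a closed subgroup. -/
noncomputable def IsSubAV.inc {K : Type u} [Field K] {N : ℕ} {B A : AV K N} (h : IsSubAV B A)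
    (L : Type u) [Field L] [Algebra K L] : B.Pts L →+ A.Pts L :=
  AddMonoidHom.mk' (fun P => ⟨P.1, fun f hf => P.2 f (h.le hf)⟩) fun P Q =>
    Subtype.ext (h.add L P Q ⟨P.1, fun f hf => P.2 f (h.le hf)⟩ ⟨Q.1, fun f hf => Q.2 f (h.le hf)⟩
      rfl rfl)

theorem IsSubAV.x_inc {K : Type u} [Field K] {N : ℕ} {B A : AV K N} (h : IsSubAV B A)
    {L : Type u} [Field L] [Algebra K L] (P : B.Pts L) : A.x (h.inc L P) = B.x P := rfl

/-- No nonzero covector over `k0` vanishes on the tangent space at `b` of the smallest closed set over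
`k0` that contains `b` (in the Noether coordinates `s`; `M` is the matrix of the invariant vector
fields). -/
def NoRat {K : Type u} [Field K] [NumberField K] {N : ℕ} (B : AV K N) {H : ℕ → ℝ}
    (hH : Tendsto H (hyperfilter ℕ : Filter ℕ) atTop) (b : B.Pts (GK K)) : Prop :=
  ∀ (n e : ℕ) (nd : Noe B n e), lf (nd.l 0) (B.x b) ≠ 0 →
    ∀ (o : Fin (N + 1) → K) (t : Fin n → Fin (N + 1) → K), B.Frame o t →
      ∀ M : Matrix (Fin n) (Fin n) (GK K), nd.IsDS o t b M →
        ∀ ν : Fin n → k0 K H hH, (fun a => (ν a : GK K)) ∈ Submodule.span (GK K)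
          {x : Fin n → GK K | ∃ q : MvPolynomial (Fin n) (k0 K H hH),
            aeval (nd.s b) q = 0 ∧ x = fun a => ∑ l, aeval (nd.s b) (pderiv l q) * M l a} → ν = 0

/-- `B` is the smallest closed subset over `K` closed under differences that contains `b` (closed
subsets are given by homogeneous ideals `J`). -/
def MinSub {K : Type u} [Field K] {N : ℕ} (B : AV K N) {F : Type u} [Field F] [Algebra K F]
    (b : B.Pts F) : Prop :=
  ∀ J : Ideal (MvPolynomial (Fin (N + 1)) K),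
    (∀ f ∈ J, ∀ d : ℕ, homogeneousComponent d f ∈ J) →
    (∀ (L : Type u) [Field L] [Algebra K L] (P P' : B.Pts L), (∀ f ∈ J, aeval (B.x P) f = 0) →
      (∀ f ∈ J, aeval (B.x P') f = 0) → ∀ f ∈ J, aeval (B.x (P - P')) f = 0) →
    (∀ f ∈ J, aeval (B.x b) f = 0) → J ≤ B.I

end Pool.Agent.Lib.MP_17a322_nt.VA
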