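import Pool.Agent.Lib.MP_17a322_nt.VA.Z3
import Pool.Agent.Lib.MP_17a322_nt.VA.ZDefs

/-!
The dimension count.
-/

universe u

namespace Pool.Agent.Lib.MP_17a322_nt.VA

open MvPolynomial Pool.Agent.Lib.MP_17a322_nt.VN

theorem Z_alg_map {K L L' : Type*} [Field K] [Field L] [Field L'] [Algebra K L] [Algebra K L']
    (φ : L →ₐ[K] L') {S : Set L} {a : L} (h : IsAlgebraic (IntermediateField.adjoin K S) a) :
    IsAlgebraic (IntermediateField.adjoin K (φ '' S)) (φ a) := by
  have h1 : IsAlgebraic ((IntermediateField.adjoin K S).map φ) (φ a) :=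
    h.ringHom_of_comp_eq (S := (IntermediateField.adjoin K S).map φ)
      ((IntermediateField.adjoin K S).equivMap φ) φ
      ((IntermediateField.adjoin K S).equivMap φ).injective rfl
  rwa [IntermediateField.adjoin_map] at h1

section

variable {K : Type u} [Field K] {N : ℕ} (A : AV K N)

theorem Z_img_trans {L L' L'' : Type u} [Field L] [Algebra K L] [Field L'] [Algebra K L']
    [Field L''] [Algebra K L''] {φ : L →ₐ[K] L'} {ψ : L' →ₐ[K] L''} {P : A.Pts L} {P' : A.Pts L'}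
    {P'' : A.Pts L''} (h : A.Img φ P P') (h' : A.Img ψ P' P'') : A.Img (ψ.comp φ) P P'' := by
  obtain ⟨c, hc, h1⟩ := h
  obtain ⟨d, hd, h2⟩ := h'
  refine ⟨ψ c * d, mul_ne_zero ((map_ne_zero ψ).2 hc) hd, fun i => ?_⟩
  rw [AlgHom.comp_apply, h1, map_mul, h2, mul_assoc]

theorem Z_img_rt {L L' : Type u} [Field L] [Algebra K L] [Field L'] [Algebra K L']
    {φ : L →ₐ[K] L'} {P : A.Pts L} {P' : A.Pts L'} (h : A.Img φ P P')
    (i : Fin (N + 1) × Fin (N + 1)) : rt (A.x P') i = φ (rt (A.x P) i) := by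
  obtain ⟨c, hc, h1⟩ := h
  unfold rt
  rw [map_div₀, h1, h1, mul_div_mul_left _ _ hc]

/-- A point with ratios of coordinates in `E` is `E`-rational. -/
theorem Z_descend {L : Type u} [Field L] [Algebra K L] (E : IntermediateField K L) (P : A.Pts L)
    (h : ∀ i, rt (A.x P) i ∈ E) : ∃ P₀ : A.Pts E, A.Img E.val P₀ P := by
  obtain ⟨j, hj⟩ : ∃ j, A.x P j ≠ 0 := by
    by_contra hcon
    push Not at hcon
    exact Z_x_ne A P (funext hcon)
  obtain ⟨y, hy⟩ : ∃ y : Fin (N + 1) → E, ∀ i, ((y i : E) : L) = A.x P i / A.x P j :=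
    ⟨fun i => ⟨_, h (i, j)⟩, fun i => rfl⟩
  have hy0 : y ≠ 0 := by
    intro h0
    have h1 := hy j
    rw [h0, div_self hj] at h1
    simp at h1
  have hyP : A.IsPt y := by
    intro f hf
    refine (algebraMap E L).injective ?_
    rw [map_zero, ← aeval_algebraMap_apply]
    have h1 := Z_isPt_smul A (Z_x_isPt A P) (A.x P j)⁻¹ f hf
    have h2 : (fun i => (A.x P j)⁻¹ * A.x P i) = fun i => algebraMap E L (y i) := by
      funext i
      have h3 : algebraMap E L (y i) = A.x P i / A.x P j := hy i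
      rw [h3, div_eq_inv_mul]
    rw [h2] at h1
    exact h1
  obtain ⟨P₀, c, hc, hP₀⟩ := Z_exists_pt A hy0 hyP
  refine ⟨P₀, (c : L) / A.x P j, div_ne_zero ?_ hj, fun i => ?_⟩
  · intro h0
    exact hc (Subtype.ext h0)
  · rw [hP₀, map_mul]
    show (c : L) * (y i : L) = _
    rw [hy]
    ring

theorem Z_rt_mem {L : Type u} [Field L] [Algebra K L] {E : IntermediateField K L} {P₀ : A.Pts E}
    {P : A.Pts L} (h : A.Img E.val P₀ P) (i : Fin (N + 1) × Fin (N + 1)) : rt (A.x P) i ∈ E := by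
  rw [Z_img_rt A h]
  exact (rt (A.x P₀) i).2

theorem Z_tdeg_img {L L' : Type u} [Field L] [Algebra K L] [Field L'] [Algebra K L']
    {φ : L →ₐ[K] L'} {P : A.Pts L} {P' : A.Pts L'} (h : A.Img φ P P') :
    tdeg K (A.x P') ≤ tdeg K (A.x P) := by
  obtain ⟨T, hT, hT', hcard⟩ := Z_exists_basis (K := K) (A.x P)
  rw [hcard]
  refine Z_tdeg_le_card _ (fun t : T => rt (A.x P') t) fun i => ?_
  have h1 := Z_alg_map φ (hT' i)
  rw [← Z_img_rt A h] at h1
  have h2 : φ '' (rt (A.x P) '' T) = Set.range fun t : T => rt (A.x P') t := by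
    rw [Set.image_image, Set.image_eq_range]
    congr 1
    funext t
    exact (Z_img_rt A h t).symm
  rw [← h2]
  exact h1

end

theorem Z_inc_img {K : Type u} [Field K] {N : ℕ} {A B : AV K N} (hB : IsSubAV B A)
    {L L' : Type u} [Field L] [Algebra K L] [Field L'] [Algebra K L'] {φ : L →ₐ[K] L'}
    {P : B.Pts L} {P' : B.Pts L'} (h : B.Img φ P P') : A.Img φ (hB.inc L P) (hB.inc L' P') := h

/-- The dimension count. -/
theorem Z_count {K : Type u} [Field K] {N : ℕ} {A B : AV K N} (hB : IsSubAV B A)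
    {k F Ω : Type u} [Field k] [Field F] [Field Ω] [Algebra K k] [Algebra K F] [Algebra k F]
    [IsScalarTower K k F] [Algebra K Ω] [Algebra k Ω] [IsScalarTower K k Ω]
    {δ : ℕ} (hδ : 0 < δ) {w : A.Pts k} {wF : A.Pts F} {wΩ : A.Pts Ω}
    (hwF : A.Img (IsScalarTower.toAlgHom K k F) w wF)
    (hwΩ : A.Img (IsScalarTower.toAlgHom K k Ω) w wΩ)
    {s : A.Pts F} {b : B.Pts F} (hs : δ • s = wF + hB.inc F b) {p : A.Pts Ω} {q : B.Pts Ω}
    (hp : δ • p = wΩ + hB.inc Ω q) (n' : ℕ)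
    (hn' : ∀ (L : Type u) [Field L] [Algebra K L] (P : B.Pts L), tdeg K (B.x P) ≤ n') :
    tdeg K (A.x s) + tdeg k (A.x p) ≤ tdeg K (A.x p) + n' := by
  obtain ⟨Ω', i1, i2, i3, i4, σ, hσ⟩ := Z_embed k F Ω
  let _ : Algebra K Ω' := ((algebraMap k Ω').comp (algebraMap K k)).toAlgebra
  have i5 : IsScalarTower K k Ω' := IsScalarTower.of_algebraMap_eq fun _ => rfl
  have i6 : IsScalarTower K Ω Ω' := IsScalarTower.of_algebraMap_eq fun c => by
    rw [IsScalarTower.algebraMap_apply K k Ω', IsScalarTower.algebraMap_apply k Ω Ω',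
      IsScalarTower.algebraMap_apply K k Ω]
  obtain ⟨σ', hσ'⟩ : ∃ σ' : F →ₐ[K] Ω', ∀ a, σ' a = σ a := ⟨σ.restrictScalars K, fun _ => rfl⟩
  obtain ⟨ρ, hρ⟩ : ∃ ρ : Ω →ₐ[K] Ω', ∀ a, ρ a = algebraMap Ω Ω' a :=
    ⟨IsScalarTower.toAlgHom K Ω Ω', fun _ => rfl⟩
  obtain ⟨s', hs'⟩ := Z_exists_img A σ' s
  obtain ⟨p', hp'⟩ := Z_exists_img A ρ p
  obtain ⟨b', hb'⟩ := Z_exists_img B σ' b
  obtain ⟨q', hq'⟩ := Z_exists_img B ρ q
  obtain ⟨w', hw'⟩ := Z_exists_img A (IsScalarTower.toAlgHom K k Ω') w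
  -- the images of `w`
  have hw1 : A.Img σ' wF w' := by
    obtain ⟨w'', hw''⟩ := Z_exists_img A σ' wF
    have h1 := Z_img_trans A hwF hw''
    have h2 : σ'.comp (IsScalarTower.toAlgHom K k F) = IsScalarTower.toAlgHom K k Ω' := by
      refine AlgHom.ext fun a => ?_
      rw [AlgHom.comp_apply, hσ']
      exact σ.commutes a
    rw [h2] at h1
    rw [Z_img_unique A hw' h1]
    exact hw''
  have hw2 : A.Img ρ wΩ w' := by
    obtain ⟨w'', hw''⟩ := Z_exists_img A ρ wΩ
    have h1 := Z_img_trans A hwΩ hw''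
    have h2 : ρ.comp (IsScalarTower.toAlgHom K k Ω) = IsScalarTower.toAlgHom K k Ω' := by
      refine AlgHom.ext fun a => ?_
      rw [AlgHom.comp_apply, hρ]
      exact (IsScalarTower.algebraMap_apply k Ω Ω' a).symm
    rw [h2] at h1
    rw [Z_img_unique A hw' h1]
    exact hw''
  have hs2 : δ • s' = w' + hB.inc Ω' b' := by
    have h1 := Z_img_nsmul A hs' δ
    rw [hs] at h1
    exact Z_img_unique A h1 (Z_img_add A hw1 (Z_inc_img hB hb'))
  have hp2 : δ • p' = w' + hB.inc Ω' q' := by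
    have h1 := Z_img_nsmul A hp' δ
    rw [hp] at h1
    exact Z_img_unique A h1 (Z_img_add A hw2 (Z_inc_img hB hq'))
  have hsp : δ • (s' - p') = hB.inc Ω' (b' - q') := by
    rw [smul_sub, hs2, hp2, map_sub]
    abel
  -- the bases
  obtain ⟨T₁, hT₁, -, hc₁⟩ := Z_exists_basis (K := K) (A.x s)
  obtain ⟨T₂, hT₂, -, hc₂⟩ := Z_exists_basis (K := k) (A.x p)
  obtain ⟨T₃, -, hT₃, hc₃⟩ := Z_exists_basis (K := K) (B.x (b' - q'))
  obtain ⟨T₄, -, hT₄, hc₄⟩ := Z_exists_basis (K := K) (A.x p')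
  obtain ⟨W, hW⟩ : ∃ W : T₃ ⊕ T₄ → Ω', W = Sum.elim (fun t : T₃ => rt (B.x (b' - q')) t)
    fun t : T₄ => rt (A.x p') t := ⟨_, rfl⟩
  have hmono : ∀ (S : Set Ω') (a : Ω'), S ⊆ Set.range W →
      IsAlgebraic (IntermediateField.adjoin K S) a →
      IsAlgebraic (IntermediateField.adjoin K (Set.range W)) a := by
    intro S a hS ha
    exact IsAlgebraic.tower_top_of_subalgebra_le
      (show (IntermediateField.adjoin K S).toSubalgebra ≤
        (IntermediateField.adjoin K (Set.range W)).toSubalgebra from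
        IntermediateField.adjoin.mono K _ _ hS) ha
  have hWy : ∀ i, IsAlgebraic (IntermediateField.adjoin K (Set.range W))
      (rt (B.x (b' - q')) i) := fun i => hmono _ _ (by
    rintro _ ⟨t, ht, rfl⟩
    exact ⟨Sum.inl ⟨t, ht⟩, by rw [hW]; rfl⟩) (hT₃ i)
  have hWp : ∀ i, IsAlgebraic (IntermediateField.adjoin K (Set.range W))
      (rt (A.x p') i) := fun i => hmono _ _ (by
    rintro _ ⟨t, ht, rfl⟩
    exact ⟨Sum.inr ⟨t, ht⟩, by rw [hW]; rfl⟩) (hT₄ i)
  -- the field of the elements algebraic over `K(W)`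
  obtain ⟨E, hE⟩ : ∃ E : IntermediateField K Ω', ∀ a, a ∈ E ↔
      IsAlgebraic (IntermediateField.adjoin K (Set.range W)) a :=
    ⟨(algebraicClosure (IntermediateField.adjoin K (Set.range W)) Ω').restrictScalars K,
      fun a => mem_algebraicClosure_iff⟩
  have hEalg : ∀ a, IsAlgebraic E a → a ∈ E := by
    intro a ha
    rw [hE]
    have h1 : IntermediateField.adjoin K (Set.range W) ≤ E := fun x hx => by
      rw [hE]
      exact isAlgebraic_algebraMap (⟨x, hx⟩ : IntermediateField.adjoin K (Set.range W))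
    let _ : Algebra (IntermediateField.adjoin K (Set.range W)) E :=
      (IntermediateField.inclusion h1).toRingHom.toAlgebra
    have i7 : IsScalarTower (IntermediateField.adjoin K (Set.range W)) E Ω' :=
      IsScalarTower.of_algebraMap_eq fun _ => rfl
    have i8 : Algebra.IsAlgebraic (IntermediateField.adjoin K (Set.range W)) E := by
      refine ⟨fun e => ?_⟩
      have h2 := (hE e).1 e.2
      exact (isAlgebraic_algebraMap_iff (R := IntermediateField.adjoin K (Set.range W))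
        (algebraMap E Ω').injective).1 h2
    exact ha.restrictScalars _
  obtain ⟨y₀, hy₀⟩ := Z_descend B E (b' - q') fun i => (hE _).2 (hWy i)
  obtain ⟨p₀, hp₀⟩ := Z_descend A E p' fun i => (hE _).2 (hWp i)
  have h1 : ∀ i, rt (A.x (s' - p')) i ∈ E := by
    intro i
    refine hEalg _ ?_
    have h2 : A.Img E.val (hB.inc E y₀) (δ • (s' - p')) := by
      rw [hsp]
      exact Z_inc_img hB hy₀
    exact Z_alg A (s' - p') δ hδ.ne' (hB.inc E y₀) h2 i.1 i.2
  obtain ⟨d₀, hd₀⟩ := Z_descend A E (s' - p') h1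
  have h2 : A.Img E.val (d₀ + p₀) s' := by
    have h3 := Z_img_add A hd₀ hp₀
    rwa [sub_add_cancel] at h3
  have hWs : ∀ i, IsAlgebraic (IntermediateField.adjoin K (Set.range W)) (rt (A.x s') i) :=
    fun i => (hE _).1 (Z_rt_mem A h2 i)
  -- the independent family
  let _ : Algebra F Ω' := σ.toRingHom.toAlgebra
  have i9 : IsScalarTower K F Ω' := IsScalarTower.of_algebraMap_eq fun c => by
    have h3 := σ'.commutes c
    rw [hσ'] at h3
    exact h3.symm
  have h3 := hσ T₂ (fun t => rt (A.x p) t) hT₂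
  have h4 := AlgebraicIndependent.sumElim_comp hT₁ h3
  have h5 : ∀ i, IsAlgebraic (IntermediateField.adjoin K (Set.range W))
      (Sum.elim (fun i : T₂ => algebraMap Ω Ω' (rt (A.x p) i))
        (algebraMap F Ω' ∘ fun t : T₁ => rt (A.x s) t) i) := by
    intro i
    rcases i with i | i
    · have h6 := hWp i
      rw [Z_img_rt A hp', hρ] at h6
      exact h6
    · have h6 := hWs i
      rw [Z_img_rt A hs', hσ'] at h6
      exact h6
  have h6 := (indep_card_le _ h4 W h5).2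
  rw [Nat.card_sum, Nat.card_sum] at h6
  have h7 : Nat.card T₃ ≤ n' := by
    have h8 := hn' Ω' (b' - q')
    rw [hc₃] at h8
    exact_mod_cast h8
  have h8 : ((Nat.card T₄ : ℕ) : Cardinal.{u}) ≤ tdeg K (A.x p) := by
    rw [← hc₄]
    exact Z_tdeg_img A hp'
  rw [hc₁, hc₂]
  calc ((Nat.card T₁ : ℕ) : Cardinal.{u}) + (Nat.card T₂ : ℕ) ≤ (Nat.card T₄ : ℕ) + (n' : ℕ) := by
        exact_mod_cast (by omega : Nat.card T₁ + Nat.card T₂ ≤ Nat.card T₄ + n')
    _ ≤ _ := by gcongr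

end Pool.Agent.Lib.MP_17a322_nt.VA
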