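import Pool.Agent.Lib.MP_17a322_nt.VA.A5b
import Pool.Agent.Lib.MP_17a322_nt.RO.A2

/-!
VA, part A: heights of points, the parallelogram law.
-/

universe u w

namespace Pool.Agent.Lib.MP_17a322_nt.VA

open MvPolynomial Height
open Pool.Agent.Lib.MP_17a322_nt.VJ
open Pool.Agent.Lib.MP_17a322_nt.RO

section

variable {K : Type u} [Field K] {N : ℕ} (A : AV K N)

theorem AV.Rep.logHeight {A : AV K N} {L : Type u} [Field L] [Algebra K L]
    [AdmissibleAbsValues L] {P : A.Pts L} {y : Fin (N + 1) → L} (h : A.Rep P y) :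
    logHeight y = A.h P := by
  obtain ⟨c, hc, h1⟩ := h
  rw [funext h1]
  exact logHeight_smul_eq_logHeight (A.x P) hc

theorem AV.h_nonneg {A : AV K N} {L : Type u} [Field L] [Algebra K L]
    [AdmissibleAbsValues L] (P : A.Pts L) : 0 ≤ A.h P :=
  logHeight_nonneg _

theorem gs_log_vm {L : Type*} [Field L] [AdmissibleAbsValues L] {ι : Type*} [Finite ι]
    {x : ι → L} (hx : x ≠ 0) : gs (fun v => Real.log (vm v x)) = logHeight x :=
  gs_log_iSup hx

theorem FS_log_vm {L : Type*} [Field L] [AdmissibleAbsValues L] {ι : Type*} [Finite ι]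
    {x : ι → L} (hx : x ≠ 0) : FS (fun v => Real.log (vm v x)) :=
  FS_log_iSup hx

theorem vm_eq_iSup {L : Type*} [Field L] (v : AbsoluteValue L ℝ) {ι : Type*} (x : ι → L) :
    vm v x = ⨆ i, v (x i) := rfl

/-- The height of the matrix `S(P, Q)`. -/
theorem AV.h_matrix {L : Type u} [Field L] [Algebra K L] [AdmissibleAbsValues L]
    (P Q : A.Pts L) : logHeight (fun i : Fin (N + 1) × Fin (N + 1) =>
      aeval (Sum.elim (A.x P) (A.x Q)) (A.S i.1 i.2)) = A.h (P + Q) + A.h (P - Q) := by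
  obtain ⟨c, hc, h1⟩ := (AV.Rep.self P).spec (AV.Rep.self Q)
  have h2 : (fun i : Fin (N + 1) × Fin (N + 1) =>
      aeval (Sum.elim (A.x P) (A.x Q)) (A.S i.1 i.2)) =
      c • fun i : Fin (N + 1) × Fin (N + 1) => A.x (P + Q) i.1 * A.x (P - Q) i.2 := by
    funext i
    rw [h1, Pi.smul_apply, smul_eq_mul]
  rw [h2, logHeight_smul_eq_logHeight _ hc,
    logHeight_fun_mul_eq (A.x_ne (P + Q)) (A.x_ne (P - Q))]
  rfl

variable [NumberField K]

/-- The parallelogram law up to a bounded function. -/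
theorem AV.parallelogram : ∃ C : ℝ, 0 ≤ C ∧ ∀ (L : Type u) [Field L] [NumberField L]
    [Algebra K L] (P Q : A.Pts L),
      |A.h (P + Q) + A.h (P - Q) - 2 * A.h P - 2 * A.h Q| ≤ C * Module.finrank ℚ L := by
  obtain ⟨κ₁, h1⟩ := A.S_upper
  obtain ⟨κ₂, h2⟩ := A.S_lower
  obtain ⟨C₁, hC₁, h3⟩ := κ₁.gs_log_le
  obtain ⟨C₂, hC₂, h4⟩ := κ₂.gs_log_le
  refine ⟨C₁ + C₂, add_nonneg hC₁ hC₂, fun L _ _ _ P Q => ?_⟩
  obtain ⟨w, hw⟩ : ∃ w : Fin (N + 1) × Fin (N + 1) → L,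
      w = fun i => aeval (Sum.elim (A.x P) (A.x Q)) (A.S i.1 i.2) := ⟨_, rfl⟩
  have hw0 : w ≠ 0 := by
    obtain ⟨a, b, hab⟩ := (AV.Rep.self P).exists_S_ne (AV.Rep.self Q)
    intro h0
    have := congrFun h0 (a, b)
    rw [hw] at this
    exact hab this
  have hm := A.h_matrix P Q
  rw [← hw] at hm
  have hfP := FS_log_vm (A.x_ne P)
  have hfQ := FS_log_vm (A.x_ne Q)
  have hPQ : gs (fun v : AbsoluteValue L ℝ =>
      2 * Real.log (vm v (A.x P)) + 2 * Real.log (vm v (A.x Q))) = 2 * A.h P + 2 * A.h Q := by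
    rw [gs_add (FS_const_mul 2 hfP) (FS_const_mul 2 hfQ), gs_const_mul, gs_const_mul,
      gs_log_vm (A.x_ne P), gs_log_vm (A.x_ne Q)]
    rfl
  have u1 : gs (fun v : AbsoluteValue L ℝ => Real.log (vm v w)) ≤
      gs (fun v : AbsoluteValue L ℝ => Real.log (κ₁.k v) +
        (2 * Real.log (vm v (A.x P)) + 2 * Real.log (vm v (A.x Q)))) := by
    refine gs_le (FS_log_vm hw0) (FS_add (κ₁.FS_log L)
      (FS_add (FS_const_mul 2 hfP) (FS_const_mul 2 hfQ))) fun v _ => ?_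
    have p1 := vm_pos v (A.x_ne P)
    have p2 := vm_pos v (A.x_ne Q)
    have p3 := vm_pos v hw0
    have h5 : vm v w ≤ κ₁.k v * (vm v (A.x P) ^ 2 * vm v (A.x Q) ^ 2) := by
      refine vm_le v fun i => ?_
      rw [hw]
      exact h1 L v (A.x P) (A.x Q) i.1 i.2
    have h6 := Real.log_le_log p3 h5
    rw [Real.log_mul (κ₁.pos v).ne' (by positivity), Real.log_mul (by positivity)
      (by positivity), Real.log_pow, Real.log_pow] at h6
    exact_mod_cast h6
  have u2 : gs (fun v : AbsoluteValue L ℝ =>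
      2 * Real.log (vm v (A.x P)) + 2 * Real.log (vm v (A.x Q))) ≤
      gs (fun v : AbsoluteValue L ℝ => Real.log (κ₂.k v) + Real.log (vm v w)) := by
    refine gs_le (FS_add (FS_const_mul 2 hfP) (FS_const_mul 2 hfQ))
      (FS_add (κ₂.FS_log L) (FS_log_vm hw0)) fun v _ => ?_
    have p1 := vm_pos v (A.x_ne P)
    have p2 := vm_pos v (A.x_ne Q)
    have p3 := vm_pos v hw0
    obtain ⟨a, b, hab⟩ := h2 L v (A.x P) (A.x Q) (A.x_isPt P) (A.x_isPt Q)
    have h5 : vm v (A.x P) ^ 2 * vm v (A.x Q) ^ 2 ≤ κ₂.k v * vm v w := by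
      refine hab.trans (mul_le_mul_of_nonneg_left ?_ (κ₂.pos v).le)
      have := le_vm v w (a, b)
      rw [hw] at this ⊢
      exact this
    have h6 := Real.log_le_log (by positivity) h5
    rw [Real.log_mul (κ₂.pos v).ne' p3.ne', Real.log_mul (by positivity)
      (by positivity), Real.log_pow, Real.log_pow] at h6
    exact_mod_cast h6
  rw [gs_add (κ₁.FS_log L) (FS_add (FS_const_mul 2 hfP) (FS_const_mul 2 hfQ)), hPQ,
    gs_log_vm hw0, hm] at u1
  rw [gs_add (κ₂.FS_log L) (FS_log_vm hw0), hPQ, gs_log_vm hw0, hm] at u2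
  have u3 := h3 L
  have u4 := h4 L
  have hd : (0 : ℝ) ≤ Module.finrank ℚ L := Nat.cast_nonneg _
  have u5 : 0 ≤ C₁ * Module.finrank ℚ L := mul_nonneg hC₁ hd
  have u6 : 0 ≤ C₂ * Module.finrank ℚ L := mul_nonneg hC₂ hd
  rw [abs_le, add_mul]
  constructor <;> linarith

/-- The exact quadratic function over `K`. -/
theorem AV.exists_quad : ∃ (q : A.Pts K → ℝ) (C : ℝ), (∀ P, |q P - A.h P| ≤ C) ∧
    (∀ P, 0 ≤ q P) ∧ ∀ P Q, q (P + Q) + q (P - Q) = 2 * q P + 2 * q Q := by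
  obtain ⟨C, hC, h1⟩ := A.parallelogram
  exact exists_quadratic (fun P : A.Pts K => A.h P) ⟨0, fun P => AV.h_nonneg P⟩
    (C * Module.finrank ℚ K) fun P Q => h1 K P Q

end

end Pool.Agent.Lib.MP_17a322_nt.VA
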