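import Pool.Agent.Lib.MP_17a322_nt.VA.A2
import Pool.Agent.Lib.MP_17a322_nt.VA.A3b

/-!
VA, part A: local bounds for the forms `S`, for duplication and for linear forms.
-/

universe u w

namespace Pool.Agent.Lib.MP_17a322_nt.VA

open MvPolynomial Height
open Pool.Agent.Lib.MP_17a322_nt.VJ

section

variable {L : Type*} [Field L]

theorem vm_nonneg (v : AbsoluteValue L ℝ) {ι : Type*} (y : ι → L) : 0 ≤ vm v y :=
  Real.iSup_nonneg fun _ => v.nonneg _

theorem le_vm (v : AbsoluteValue L ℝ) {ι : Type*} [Finite ι] (y : ι → L) (i : ι) :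
    v (y i) ≤ vm v y :=
  le_ciSup (f := fun i => v (y i)) (Set.finite_range _).bddAbove i

theorem vm_le (v : AbsoluteValue L ℝ) {ι : Type*} [Nonempty ι] {y : ι → L} {B : ℝ}
    (h : ∀ i, v (y i) ≤ B) : vm v y ≤ B :=
  ciSup_le h

theorem exists_vm (v : AbsoluteValue L ℝ) {ι : Type*} [Finite ι] [Nonempty ι] (y : ι → L) :
    ∃ i, vm v y = v (y i) := by
  obtain ⟨i, hi⟩ := exists_eq_ciSup_of_finite (f := fun i => v (y i))
  exact ⟨i, hi.symm⟩

theorem vm_pos (v : AbsoluteValue L ℝ) {ι : Type*} [Finite ι] {y : ι → L} (hy : y ≠ 0) :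
    0 < vm v y := by
  obtain ⟨i, hi⟩ := Function.ne_iff.mp hy
  exact (v.pos hi).trans_le (le_vm v y i)

theorem vm_smul (v : AbsoluteValue L ℝ) {ι : Type*} [Finite ι] [Nonempty ι] (c : L) (y : ι → L) :
    vm v (fun i => c * y i) = v c * vm v y := by
  refine le_antisymm (vm_le v fun i => ?_) ?_
  · rw [map_mul]
    exact mul_le_mul_of_nonneg_left (le_vm v y i) (v.nonneg c)
  · obtain ⟨i, hi⟩ := exists_vm v y
    rw [hi, ← map_mul]
    exact le_vm v (fun i => c * y i) i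

/-- Normalisation of a nonzero vector. -/
theorem exists_normal (v : AbsoluteValue L ℝ) {ι : Type*} [Finite ι] [Nonempty ι] {y : ι → L}
    (hy : y ≠ 0) : ∃ (i : ι) (c : L) (z : ι → L), c ≠ 0 ∧ v c = vm v y ∧ (∀ i, y i = c * z i) ∧
      z i = 1 ∧ (∀ t, v (z t) ≤ 1) ∧ c = y i ∧ ∀ t, z t = c⁻¹ * y t := by
  obtain ⟨i, hi⟩ := exists_vm v y
  have hpos := vm_pos v hy
  have hyi : y i ≠ 0 := by
    intro h0
    rw [hi, h0, map_zero] at hpos
    exact lt_irrefl _ hpos
  refine ⟨i, y i, fun t => (y i)⁻¹ * y t, hyi, hi.symm, fun t => ?_, inv_mul_cancel₀ hyi,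
    fun t => ?_, rfl, fun _ => rfl⟩
  · rw [← mul_assoc, mul_inv_cancel₀ hyi, one_mul]
  · rw [map_mul, map_inv₀]
    rw [inv_mul_le_iff₀ (v.pos hyi), mul_one, ← hi]
    exact le_vm v y t

end

section

variable {K : Type u} [Field K] {N : ℕ} (A : AV K N)

/-- `A × A` as a set of equations. -/
def AV.E2 : Set (MvPolynomial (Fin (N + 1) ⊕ Fin (N + 1)) K) :=
  (fun f => rename Sum.inl f) '' A.I ∪ (fun f => rename Sum.inr f) '' A.I

theorem AV.E2_iff {R : Type*} [CommRing R] [Algebra K R] (z : Fin (N + 1) ⊕ Fin (N + 1) → R) :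
    (∀ e ∈ A.E2, aeval z e = 0) ↔
      (∀ f ∈ A.I, aeval (fun i => z (Sum.inl i)) f = 0) ∧
        ∀ f ∈ A.I, aeval (fun i => z (Sum.inr i)) f = 0 := by
  constructor
  · intro h
    refine ⟨fun f hf => ?_, fun f hf => ?_⟩
    · have h1 := h _ (Or.inl ⟨f, hf, rfl⟩)
      rw [aeval_rename] at h1
      exact h1
    · have h1 := h _ (Or.inr ⟨f, hf, rfl⟩)
      rw [aeval_rename] at h1
      exact h1
  · rintro ⟨h1, h2⟩ e (⟨f, hf, rfl⟩ | ⟨f, hf, rfl⟩)
    · show aeval z (rename Sum.inl f) = 0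
      rw [aeval_rename]
      exact h1 f hf
    · show aeval z (rename Sum.inr f) = 0
      rw [aeval_rename]
      exact h2 f hf

/-- The forms `S` have no common zero. -/
theorem AV.S_lower : ∃ κ : SC K, ∀ (L : Type u) [Field L] [Algebra K L] (v : AbsoluteValue L ℝ)
    (y y' : Fin (N + 1) → L), A.IsPt y → A.IsPt y' →
      ∃ a b, vm v y ^ 2 * vm v y' ^ 2 ≤ κ.k v * v (aeval (Sum.elim y y') (A.S a b)) := by
  have h1 : ∀ i : Fin (N + 1) × Fin (N + 1), ∃ κ : SC K, ∀ (L : Type u) [Field L] [Algebra K L]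
      (v : AbsoluteValue L ℝ) (x : Fin (N + 1) ⊕ Fin (N + 1) → L),
        (∀ e ∈ A.E2, aeval x e = 0) → (∀ t, v (x t) ≤ 1) →
          aeval x (X (Sum.inl i.1) * X (Sum.inr i.2) :
            MvPolynomial (Fin (N + 1) ⊕ Fin (N + 1)) K) = 1 →
          ∃ j : Fin (N + 1) × Fin (N + 1), 1 ≤ κ.k v * v (aeval x (A.S j.1 j.2)) := by
    intro i
    refine lower_bound.{u, u} A.E2 (fun j : Fin (N + 1) × Fin (N + 1) => A.S j.1 j.2) _ ?_
    intro L _ _ x hx hS
    rw [A.E2_iff] at hx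
    rw [map_mul, aeval_X, aeval_X]
    by_contra hc
    rw [mul_eq_zero, not_or] at hc
    obtain ⟨P, hP⟩ := AV.exists_rep (A := A) (y := fun i => x (Sum.inl i))
      (fun h0 => hc.1 (congrFun h0 i.1)) hx.1
    obtain ⟨Q, hQ⟩ := AV.exists_rep (A := A) (y := fun i => x (Sum.inr i))
      (fun h0 => hc.2 (congrFun h0 i.2)) hx.2
    obtain ⟨a, b, hab⟩ := hP.exists_S_ne hQ
    apply hab
    have h2 : Sum.elim (fun i => x (Sum.inl i)) (fun i => x (Sum.inr i)) = x := by
      funext s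
      cases s <;> rfl
    rw [h2]
    exact hS (a, b)
  choose κ hκ using h1
  obtain ⟨n, S, k, hn, h2⟩ := Adm.family
    (fun (i : Fin (N + 1) × Fin (N + 1)) (L : Type u) _ _ v => (κ i).k v) fun i => (κ i).adm
  refine ⟨scOf n S k, fun L _ _ v y y' hy hy' => ?_⟩
  by_cases h0 : y = 0
  · refine ⟨0, 0, ?_⟩
    have h3 : vm v y = 0 := by
      rw [h0]
      refine le_antisymm (vm_le v fun i => ?_) (vm_nonneg v _)
      rw [Pi.zero_apply, map_zero]
    rw [h3, zero_pow two_ne_zero, zero_mul]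
    exact mul_nonneg (SC.pos _ v).le (v.nonneg _)
  by_cases h0' : y' = 0
  · refine ⟨0, 0, ?_⟩
    have h3 : vm v y' = 0 := by
      rw [h0']
      refine le_antisymm (vm_le v fun i => ?_) (vm_nonneg v _)
      rw [Pi.zero_apply, map_zero]
    rw [h3, zero_pow two_ne_zero, mul_zero]
    exact mul_nonneg (SC.pos _ v).le (v.nonneg _)
  obtain ⟨i, c, z, hc, hcv, hz, hzi, hz1, -, hzz⟩ := exists_normal v h0
  obtain ⟨i', c', z', hc', hcv', hz', hzi', hz1', -, hzz'⟩ := exists_normal v h0'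
  have hzp : A.IsPt z := by
    rw [funext hzz]
    exact hy.smul _
  have hzp' : A.IsPt z' := by
    rw [funext hzz']
    exact hy'.smul _
  obtain ⟨j, hj⟩ := hκ (i, i') L v (Sum.elim z z') ((A.E2_iff _).mpr ⟨hzp, hzp'⟩)
    (by rintro (t | t); exacts [hz1 t, hz1' t])
    (by rw [map_mul, aeval_X, aeval_X, Sum.elim_inl, Sum.elim_inr, hzi, hzi', one_mul])
  refine ⟨j.1, j.2, ?_⟩
  rw [funext hz, funext hz', A.S_smul, vm_smul, vm_smul, map_mul, map_mul, map_pow, map_pow]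
  have h4 : vm v z = 1 := by
    refine le_antisymm (vm_le v hz1) ?_
    have := le_vm v z i
    rwa [hzi, map_one] at this
  have h4' : vm v z' = 1 := by
    refine le_antisymm (vm_le v hz1') ?_
    have := le_vm v z' i'
    rwa [hzi', map_one] at this
  rw [h4, h4', mul_one, mul_one]
  have h5 : 1 ≤ (scOf n S k).k v * v (aeval (Sum.elim z z') (A.S j.1 j.2)) :=
    hj.trans (mul_le_mul_of_nonneg_right ((h2 (i, i') L v).trans (le_scOf hn S k v))
      (v.nonneg _))
  have h6 : 0 ≤ v c ^ 2 * v c' ^ 2 := by positivity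
  calc v c ^ 2 * v c' ^ 2 = v c ^ 2 * v c' ^ 2 * 1 := by ring
    _ ≤ v c ^ 2 * v c' ^ 2 * ((scOf n S k).k v * v (aeval (Sum.elim z z') (A.S j.1 j.2))) :=
      mul_le_mul_of_nonneg_left h5 h6
    _ = _ := by ring

theorem AV.S_upper : ∃ κ : SC K, ∀ (L : Type u) [Field L] [Algebra K L] (v : AbsoluteValue L ℝ)
    (y y' : Fin (N + 1) → L) (a b : Fin (N + 1)),
      v (aeval (Sum.elim y y') (A.S a b)) ≤ κ.k v * (vm v y ^ 2 * vm v y' ^ 2) := by
  obtain ⟨κ, hκ⟩ := upper_bound.{u, u} (K := K)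
    (fun j : Fin (N + 1) × Fin (N + 1) => A.S j.1 j.2)
  refine ⟨κ, fun L _ _ v y y' a b => ?_⟩
  by_cases h0 : y = 0
  · have h1 : aeval (Sum.elim y y') (A.S a b) = 0 := by
      have h2 := A.S_smul a b (0 : L) 1 y y'
      rw [zero_pow two_ne_zero, zero_mul, zero_mul] at h2
      rw [← h2]
      congr 2
      funext s
      cases s
      · simp [h0]
      · simp
    rw [h1, map_zero]
    exact mul_nonneg (κ.pos v).le (by positivity)
  by_cases h0' : y' = 0
  · have h1 : aeval (Sum.elim y y') (A.S a b) = 0 := by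
      have h2 := A.S_smul a b (1 : L) 0 y y'
      rw [zero_pow two_ne_zero, mul_zero, zero_mul] at h2
      rw [← h2]
      congr 2
      funext s
      cases s
      · simp
      · simp [h0']
    rw [h1, map_zero]
    exact mul_nonneg (κ.pos v).le (by positivity)
  obtain ⟨i, c, z, hc, hcv, hz, hzi, hz1, -, hzz⟩ := exists_normal v h0
  obtain ⟨i', c', z', hc', hcv', hz', hzi', hz1', -, hzz'⟩ := exists_normal v h0'
  have h3 := hκ L v (Sum.elim z z') (by rintro (t | t); exacts [hz1 t, hz1' t]) (a, b)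
  rw [← hcv, ← hcv']
  have h4 : aeval (Sum.elim y y') (A.S a b) =
      c ^ 2 * c' ^ 2 * aeval (Sum.elim z z') (A.S a b) := by
    rw [funext hz, funext hz', A.S_smul]
  rw [h4, map_mul, map_mul, map_pow, map_pow, mul_comm]
  exact mul_le_mul_of_nonneg_right h3 (by positivity)

end

end Pool.Agent.Lib.MP_17a322_nt.VA
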