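import Pool.Agent.Lib.MP_17a322_nt.VJ.A7
import Pool.Agent.Lib.MP_17a322_nt.VA.Defs

/-!
VA, part A: admissible local constants.

`cc n S v = cst v n * ∏_{a ∈ S} max(1, |a|_v)` for a finite set `S ⊆ K` and an absolute value `v` of an
extension of `K`. `Adm f`: the function `f` of absolute values of extensions of `K` is bounded by a power
of some `cc n S`.
-/

universe u w

namespace Pool.Agent.Lib.MP_17a322_nt.VA

open MvPolynomial Height
open Pool.Agent.Lib.MP_17a322_nt.VJ

/-- The local constant attached to a number `n` and a finite subset `S` of `K`. -/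
noncomputable def cc {K : Type*} [Field K] (n : ℕ) (S : Finset K) {L : Type*} [Field L] [Algebra K L]
    (v : AbsoluteValue L ℝ) : ℝ :=
  cst v n * ∏ a ∈ S, max 1 (v (algebraMap K L a))

section

variable {K : Type*} [Field K] {L : Type*} [Field L] [Algebra K L]

theorem one_le_prod_max {ι : Type*} (S : Finset ι) (f : ι → ℝ) (hf : ∀ i ∈ S, 1 ≤ f i) :
    1 ≤ ∏ i ∈ S, f i := by
  classical
  induction S using Finset.induction_on with
  | empty => simp
  | insert a s ha ih =>
    rw [Finset.prod_insert ha]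
    exact one_le_mul_of_one_le_of_one_le (hf a (Finset.mem_insert_self a s))
      (ih fun i hi => hf i (Finset.mem_insert_of_mem hi))

theorem le_prod_max {ι : Type*} (S : Finset ι) (f : ι → ℝ) (hf : ∀ i ∈ S, 1 ≤ f i) {i : ι}
    (hi : i ∈ S) : f i ≤ ∏ i ∈ S, f i := by
  classical
  rw [← Finset.mul_prod_erase S f hi]
  exact le_mul_of_one_le_right (zero_le_one.trans (hf i hi))
    (one_le_prod_max _ f fun j hj => hf j (Finset.mem_of_mem_erase hj))

theorem one_le_cc {n : ℕ} (hn : 1 ≤ n) (S : Finset K) (v : AbsoluteValue L ℝ) : 1 ≤ cc n S v :=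
  one_le_mul_of_one_le_of_one_le (one_le_cst v hn) (one_le_prod_max S _ fun _ _ => le_max_left _ _)

theorem cc_pos {n : ℕ} (hn : 1 ≤ n) (S : Finset K) (v : AbsoluteValue L ℝ) : 0 < cc n S v :=
  one_pos.trans_le (one_le_cc hn S v)

theorem cc_mono {n n' : ℕ} {S S' : Finset K} (hn : n ≤ n') (hS : S ⊆ S') (v : AbsoluteValue L ℝ) :
    cc n S v ≤ cc n' S' v := by
  classical
  unfold cc
  rw [← Finset.prod_sdiff hS]
  refine mul_le_mul (cst_mono v hn) ?_ (zero_le_one.trans (one_le_prod_max S _ fun _ _ =>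
    le_max_left _ _)) (cst_nonneg v n')
  exact le_mul_of_one_le_left (zero_le_one.trans (one_le_prod_max S _ fun _ _ =>
    le_max_left _ _)) (one_le_prod_max _ _ fun _ _ => le_max_left _ _)

theorem cst_le_cc (n : ℕ) (S : Finset K) (v : AbsoluteValue L ℝ) : cst v n ≤ cc n S v :=
  le_mul_of_one_le_right (cst_nonneg v n) (one_le_prod_max S _ fun _ _ => le_max_left _ _)

theorem abv_le_cc {n : ℕ} (hn : 1 ≤ n) {S : Finset K} {a : K} (ha : a ∈ S)
    (v : AbsoluteValue L ℝ) : max 1 (v (algebraMap K L a)) ≤ cc n S v := by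
  have h1 : max 1 (v (algebraMap K L a)) ≤ ∏ a ∈ S, max 1 (v (algebraMap K L a)) :=
    le_prod_max S (fun a => max 1 (v (algebraMap K L a))) (fun _ _ => le_max_left _ _) ha
  exact h1.trans (le_mul_of_one_le_left (zero_le_one.trans (one_le_prod_max S _ fun _ _ =>
    le_max_left _ _)) (one_le_cst v hn))

/-- `f` is bounded by an admissible local constant. -/
def Adm (K : Type u) [Field K] (f : ∀ (L : Type w) [Field L] [Algebra K L], AbsoluteValue L ℝ → ℝ) :
    Prop :=
  ∃ (n : ℕ) (S : Finset K) (k : ℕ), 1 ≤ n ∧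
    ∀ (L : Type w) [Field L] [Algebra K L] (v : AbsoluteValue L ℝ), f L v ≤ cc n S v ^ k

end

section

variable {K : Type u} [Field K]
  {f g : ∀ (L : Type w) [Field L] [Algebra K L], AbsoluteValue L ℝ → ℝ}

theorem Adm.mono (hg : Adm.{u, w} K g)
    (h : ∀ (L : Type w) [Field L] [Algebra K L] (v : AbsoluteValue L ℝ), f L v ≤ g L v) :
    Adm.{u, w} K f := by
  obtain ⟨n, S, k, hn, h1⟩ := hg
  exact ⟨n, S, k, hn, fun L _ _ v => (h L v).trans (h1 L v)⟩

/-- Two admissible functions have a common bound of the form `cc n S ^ k`. -/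
theorem Adm.common (hf : Adm.{u, w} K f) (hg : Adm.{u, w} K g) :
    ∃ (n : ℕ) (S : Finset K) (k : ℕ), 1 ≤ n ∧
      ∀ (L : Type w) [Field L] [Algebra K L] (v : AbsoluteValue L ℝ),
        f L v ≤ cc n S v ^ k ∧ g L v ≤ cc n S v ^ k := by
  classical
  obtain ⟨n, S, k, hn, h1⟩ := hf
  obtain ⟨n', S', k', hn', h2⟩ := hg
  refine ⟨max n n', S ∪ S', max k k', hn.trans (le_max_left _ _), fun L _ _ v => ⟨?_, ?_⟩⟩
  · refine (h1 L v).trans ((pow_le_pow_left₀ (zero_le_one.trans (one_le_cc hn S v))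
      (cc_mono (le_max_left n n') (Finset.subset_union_left : S ⊆ S ∪ S') v) k).trans ?_)
    exact pow_le_pow_right₀ (one_le_cc (hn.trans (le_max_left _ _)) _ v) (le_max_left _ _)
  · refine (h2 L v).trans ((pow_le_pow_left₀ (zero_le_one.trans (one_le_cc hn' S' v))
      (cc_mono (le_max_right n n') (Finset.subset_union_right : S' ⊆ S ∪ S') v) k').trans ?_)
    exact pow_le_pow_right₀ (one_le_cc (hn.trans (le_max_left _ _)) _ v) (le_max_right _ _)

theorem Adm.mul (hf : Adm.{u, w} K f) (hg : Adm.{u, w} K g)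
    (h : ∀ (L : Type w) [Field L] [Algebra K L] (v : AbsoluteValue L ℝ), 0 ≤ g L v) :
    Adm.{u, w} K fun L _ _ v => f L v * g L v := by
  obtain ⟨n, S, k, hn, h1⟩ := hf.common hg
  refine ⟨n, S, k + k, hn, fun L _ _ v => ?_⟩
  rw [pow_add]
  exact mul_le_mul (h1 L v).1 (h1 L v).2 (h L v) (pow_nonneg (cc_pos hn S v).le k)

theorem Adm.max (hf : Adm.{u, w} K f) (hg : Adm.{u, w} K g) :
    Adm.{u, w} K fun L _ _ v => Max.max (f L v) (g L v) := by
  obtain ⟨n, S, k, hn, h1⟩ := hf.common hg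
  exact ⟨n, S, k, hn, fun L _ _ v => max_le (h1 L v).1 (h1 L v).2⟩

theorem Adm_one : Adm.{u, w} K fun _ _ _ _ => 1 :=
  ⟨1, ∅, 0, le_rfl, fun _ _ _ v => by rw [pow_zero]⟩

theorem Adm.pow (hf : Adm.{u, w} K f)
    (h : ∀ (L : Type w) [Field L] [Algebra K L] (v : AbsoluteValue L ℝ), 0 ≤ f L v) (k : ℕ) :
    Adm.{u, w} K fun L _ _ v => f L v ^ k := by
  induction k with
  | zero => simpa only [pow_zero] using Adm_one
  | succ k ih =>
    simp only [pow_succ]
    exact ih.mul hf h

theorem Adm_cst (n : ℕ) : Adm.{u, w} K fun L _ _ v => cst v n := by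
  refine ⟨n + 1, ∅, 1, Nat.le_add_left 1 n, fun L _ _ v => ?_⟩
  rw [pow_one]
  exact (cst_mono v (Nat.le_succ n)).trans (cst_le_cc _ _ v)

theorem Adm_abv (a : K) : Adm.{u, w} K fun L _ _ v => Max.max 1 (v (algebraMap K L a)) := by
  classical
  refine ⟨1, {a}, 1, le_rfl, fun L _ _ v => ?_⟩
  rw [pow_one]
  exact abv_le_cc le_rfl (Finset.mem_singleton_self a) v

theorem Adm.prod {ι : Type*} (s : Finset ι)
    (F : ι → ∀ (L : Type w) [Field L] [Algebra K L], AbsoluteValue L ℝ → ℝ)
    (hF : ∀ i ∈ s, Adm.{u, w} K (F i))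
    (h : ∀ i ∈ s, ∀ (L : Type w) [Field L] [Algebra K L] (v : AbsoluteValue L ℝ), 0 ≤ F i L v) :
    Adm.{u, w} K fun L _ _ v => ∏ i ∈ s, F i L v := by
  classical
  induction s using Finset.induction_on with
  | empty => simpa only [Finset.prod_empty] using Adm_one
  | insert a s ha ih =>
    simp only [Finset.prod_insert ha]
    exact (hF a (Finset.mem_insert_self a s)).mul
      (ih (fun i hi => hF i (Finset.mem_insert_of_mem hi))
        fun i hi => h i (Finset.mem_insert_of_mem hi))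
      fun L _ _ v => Finset.prod_nonneg fun i hi => h i (Finset.mem_insert_of_mem hi) L v

/-- A finite family of admissible functions has an admissible common bound. -/
theorem Adm.family {ι : Type*} [Finite ι]
    (F : ι → ∀ (L : Type w) [Field L] [Algebra K L], AbsoluteValue L ℝ → ℝ)
    (hF : ∀ i, Adm.{u, w} K (F i)) :
    ∃ (n : ℕ) (S : Finset K) (k : ℕ), 1 ≤ n ∧
      ∀ i (L : Type w) [Field L] [Algebra K L] (v : AbsoluteValue L ℝ), F i L v ≤ cc n S v ^ k := by
  classical
  have := Fintype.ofFinite ι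
  have h1 : Adm.{u, w} K fun L _ _ v => ∏ i, Max.max 1 (F i L v) :=
    Adm.prod Finset.univ (fun i L _ _ v => Max.max 1 (F i L v)) (fun i _ => Adm_one.max (hF i))
      fun i _ L _ _ v => zero_le_one.trans (le_max_left _ _)
  obtain ⟨n, S, k, hn, h2⟩ := h1
  refine ⟨n, S, k, hn, fun i L _ _ v => ?_⟩
  refine ((le_max_right 1 (F i L v)).trans ?_).trans (h2 L v)
  exact le_prod_max Finset.univ (fun i => Max.max 1 (F i L v)) (fun _ _ => le_max_left _ _)
    (Finset.mem_univ i)

theorem NV_map_le_cc {σ : Type*} {L : Type*} [Field L] [Algebra K L] (F : MvPolynomial σ K)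
    (v : AbsoluteValue L ℝ) [DecidableEq K] :
    Max.max 1 (NV v (MvPolynomial.map (algebraMap K L) F)) ≤
      cc (F.support.card + 1) (F.support.image fun m => coeff m F) v := by
  have hn : 1 ≤ F.support.card + 1 := Nat.le_add_left _ _
  refine max_le (one_le_cc hn _ v) ?_
  have h1 : ∀ m, v (coeff m (MvPolynomial.map (algebraMap K L) F)) ≤
      ∏ a ∈ F.support.image fun m => coeff m F, Max.max 1 (v (algebraMap K L a)) := by
    intro m
    rw [coeff_map]
    by_cases hm : m ∈ F.support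
    · refine (le_max_right 1 _).trans (le_prod_max _
        (fun a => Max.max 1 (v (algebraMap K L a))) (fun _ _ => le_max_left _ _) ?_)
      exact Finset.mem_image_of_mem _ hm
    · rw [notMem_support_iff.mp hm, map_zero, map_zero]
      exact zero_le_one.trans (one_le_prod_max _ _ fun _ _ => le_max_left _ _)
  refine (NV_le_of_coeff v _ (zero_le_one.trans (one_le_prod_max _ _ fun _ _ =>
    le_max_left _ _)) h1).trans ?_
  rw [cc, A7_support]
  exact mul_le_mul_of_nonneg_right (cst_mono v (Nat.le_succ _))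
    (zero_le_one.trans (one_le_prod_max _ _ fun _ _ => le_max_left _ _))

theorem Adm_NV {σ : Type*} (F : MvPolynomial σ K) :
    Adm.{u, w} K fun L _ _ v => Max.max 1 (NV v (MvPolynomial.map (algebraMap K L) F)) := by
  classical
  refine ⟨F.support.card + 1, F.support.image fun m => coeff m F, 1, Nat.le_add_left _ _,
    fun L _ _ v => ?_⟩
  rw [pow_one]
  exact NV_map_le_cc F v

end

/-! ### Sums over the places -/

section

variable {K : Type u} [Field K]

theorem FS_log_cc {n : ℕ} (hn : 1 ≤ n) (S : Finset K) (L : Type u) [Field L] [NumberField L]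
    [Algebra K L] : FS fun v : AbsoluteValue L ℝ => Real.log (cc n S v) := by
  have h1 : ∀ v : AbsoluteValue L ℝ, Real.log (cc n S v) =
      Real.log (cst v n) + ∑ a ∈ S, Real.log (Max.max 1 (v (algebraMap K L a))) := by
    intro v
    unfold cc
    rw [Real.log_mul (zero_lt_one.trans_le (one_le_cst v hn)).ne'
      (zero_lt_one.trans_le (one_le_prod_max S _ fun _ _ => le_max_left _ _)).ne',
      Real.log_prod]
    exact fun a _ => (zero_lt_one.trans_le (le_max_left _ _)).ne'
  simp only [h1]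
  exact FS_add (FS_log_cst n) (FS_sum S fun a _ => FS_log_max _)

variable [NumberField K]

theorem gs_log_cc_le {n : ℕ} (hn : 1 ≤ n) (S : Finset K) :
    ∃ C : ℝ, 0 ≤ C ∧ ∀ (L : Type u) [Field L] [NumberField L] [Algebra K L],
      gs (fun v : AbsoluteValue L ℝ => Real.log (cc n S v)) ≤ C * Module.finrank ℚ L := by
  choose C hC0 hC using fun a : K => gs_log_max_abv_le a
  refine ⟨Real.log n + ∑ a ∈ S, C a, ?_, ?_⟩
  · exact add_nonneg (Real.log_natCast_nonneg n) (Finset.sum_nonneg fun a _ => hC0 a)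
  intro L _ _ _
  have h1 : ∀ v : AbsoluteValue L ℝ, Real.log (cc n S v) =
      Real.log (cst v n) + ∑ a ∈ S, Real.log (Max.max 1 (v (algebraMap K L a))) := by
    intro v
    unfold cc
    rw [Real.log_mul (zero_lt_one.trans_le (one_le_cst v hn)).ne'
      (zero_lt_one.trans_le (one_le_prod_max S _ fun _ _ => le_max_left _ _)).ne',
      Real.log_prod]
    exact fun a _ => (zero_lt_one.trans_le (le_max_left _ _)).ne'
  simp only [h1]
  rw [gs_add (FS_log_cst n) (FS_sum S fun a _ => FS_log_max _), gs_sum S fun a _ => FS_log_max _,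
    add_mul, Finset.sum_mul]
  refine add_le_add ?_ (Finset.sum_le_sum fun a _ => hC a L)
  rw [mul_comm]
  refine (gs_log_cst hn).trans (mul_le_mul_of_nonneg_right ?_ (Real.log_natCast_nonneg n))
  rw [NumberField.totalWeight_eq_finrank]

end

/-! ### The size constants `SC` -/

section

variable {K : Type u} [Field K]

theorem SC.k_eq (E : SC K) {L : Type*} [Field L] [Algebra K L] (v : AbsoluteValue L ℝ) :
    E.k v = cc (E.M + 1) E.T v ^ (E.M + 1) := rfl

theorem SC.one_le (E : SC K) {L : Type*} [Field L] [Algebra K L] (v : AbsoluteValue L ℝ) :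
    1 ≤ E.k v := by
  rw [E.k_eq]
  exact one_le_pow₀ (one_le_cc (Nat.le_add_left _ _) _ v)

theorem SC.pos (E : SC K) {L : Type*} [Field L] [Algebra K L] (v : AbsoluteValue L ℝ) :
    0 < E.k v := one_pos.trans_le (E.one_le v)

theorem SC.k_mono {E E' : SC K} (hT : E.T ⊆ E'.T) (hM : E.M ≤ E'.M) {L : Type*} [Field L]
    [Algebra K L] (v : AbsoluteValue L ℝ) : E.k v ≤ E'.k v := by
  rw [E.k_eq, E'.k_eq]
  refine (pow_le_pow_left₀ (zero_le_one.trans (one_le_cc (Nat.le_add_left _ _) _ v))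
    (cc_mono (Nat.add_le_add_right hM 1) hT v) _).trans ?_
  exact pow_le_pow_right₀ (one_le_cc (Nat.le_add_left _ _) _ v) (Nat.add_le_add_right hM 1)

open Classical in
/-- A size constant at least the product of two. -/
noncomputable def SC.mul (E E' : SC K) : SC K := ⟨E.T ∪ E'.T, E.M + E'.M + 1⟩

theorem SC.mul_le (E E' : SC K) {L : Type*} [Field L] [Algebra K L] (v : AbsoluteValue L ℝ) :
    E.k v * E'.k v ≤ (E.mul E').k v := by
  classical
  have hM : (E.mul E').M = E.M + E'.M + 1 := rfl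
  have hT : (E.mul E').T = E.T ∪ E'.T := by
    unfold SC.mul
    congr
  rw [E.k_eq, E'.k_eq, (E.mul E').k_eq, hM, hT,
    show E.M + E'.M + 1 + 1 = (E.M + 1) + (E'.M + 1) by ring]
  rw [pow_add (cc (E.M + 1 + (E'.M + 1)) (E.T ∪ E'.T) v)]
  refine mul_le_mul (pow_le_pow_left₀ (cc_pos (Nat.le_add_left _ _) _ v).le
    (cc_mono (by omega) (Finset.subset_union_left : E.T ⊆ E.T ∪ E'.T) v) _)
    (pow_le_pow_left₀ (cc_pos (Nat.le_add_left _ _) _ v).le
    (cc_mono (by omega) (Finset.subset_union_right : E'.T ⊆ E.T ∪ E'.T) v) _)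
    (pow_nonneg (cc_pos (Nat.le_add_left _ _) _ v).le _)
    (pow_nonneg (cc_pos (by omega) _ v).le _)

theorem SC.le_mul_left (E E' : SC K) {L : Type*} [Field L] [Algebra K L]
    (v : AbsoluteValue L ℝ) : E.k v ≤ (E.mul E').k v :=
  (le_mul_of_one_le_right (E.pos v).le (E'.one_le v)).trans (E.mul_le E' v)

theorem SC.le_mul_right (E E' : SC K) {L : Type*} [Field L] [Algebra K L]
    (v : AbsoluteValue L ℝ) : E'.k v ≤ (E.mul E').k v :=
  (le_mul_of_one_le_left (E'.pos v).le (E.one_le v)).trans (E.mul_le E' v)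

/-- A size constant at least the `k`-th power. -/
noncomputable def SC.pw (E : SC K) : ℕ → SC K
  | 0 => ⟨∅, 0⟩
  | k + 1 => (E.pw k).mul E

theorem SC.pow_le (E : SC K) (k : ℕ) {L : Type*} [Field L] [Algebra K L]
    (v : AbsoluteValue L ℝ) : E.k v ^ k ≤ (E.pw k).k v := by
  induction k with
  | zero => rw [pow_zero]; exact SC.one_le _ v
  | succ k ih =>
    rw [pow_succ]
    exact (mul_le_mul_of_nonneg_right ih (E.pos v).le).trans ((E.pw k).mul_le E v)

/-- The size constant of an admissible bound. -/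
def scOf (n : ℕ) (S : Finset K) (k : ℕ) : SC K := ⟨S, n + k⟩

theorem le_scOf {n : ℕ} (hn : 1 ≤ n) (S : Finset K) (k : ℕ) {L : Type*} [Field L] [Algebra K L]
    (v : AbsoluteValue L ℝ) : cc n S v ^ k ≤ (scOf n S k).k v := by
  rw [SC.k_eq]
  refine (pow_le_pow_left₀ (cc_pos hn S v).le (cc_mono (n' := n + k + 1) (by omega)
    (Finset.Subset.refl S) v) k).trans ?_
  exact pow_le_pow_right₀ (one_le_cc (by omega) _ v) (by omega : k ≤ n + k + 1)

theorem Adm.exists_SC {f : ∀ (L : Type w) [Field L] [Algebra K L], AbsoluteValue L ℝ → ℝ}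
    (hf : Adm.{u, w} K f) : ∃ E : SC K, ∀ (L : Type w) [Field L] [Algebra K L]
      (v : AbsoluteValue L ℝ), f L v ≤ E.k v := by
  obtain ⟨n, S, k, hn, h⟩ := hf
  exact ⟨scOf n S k, fun L _ _ v => (h L v).trans (le_scOf hn S k v)⟩

theorem SC.adm (E : SC K) : Adm.{u, w} K fun _ _ _ v => E.k v :=
  ⟨E.M + 1, E.T, E.M + 1, Nat.le_add_left _ _, fun _ _ _ v => (E.k_eq v).le⟩

theorem SC.FS_log (E : SC K) (L : Type u) [Field L] [NumberField L] [Algebra K L] :
    FS fun v : AbsoluteValue L ℝ => Real.log (E.k v) := by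
  simp only [E.k_eq, Real.log_pow]
  exact FS_const_mul _ (FS_log_cc (Nat.le_add_left _ _) _ L)

theorem SC.gs_log_le [NumberField K] (E : SC K) : ∃ C : ℝ, 0 ≤ C ∧
    ∀ (L : Type u) [Field L] [NumberField L] [Algebra K L],
      gs (fun v : AbsoluteValue L ℝ => Real.log (E.k v)) ≤ C * Module.finrank ℚ L := by
  obtain ⟨C, hC, h⟩ := gs_log_cc_le (K := K) (n := E.M + 1) (Nat.le_add_left _ _) E.T
  refine ⟨((E.M + 1 : ℕ) : ℝ) * C, by positivity, fun L _ _ _ => ?_⟩
  simp only [E.k_eq, Real.log_pow]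
  rw [gs_const_mul, mul_assoc]
  exact mul_le_mul_of_nonneg_left (h L) (by positivity)

theorem SC.gs_log_nonneg (E : SC K) (L : Type u) [Field L] [NumberField L]
    [Algebra K L] : 0 ≤ gs (fun v : AbsoluteValue L ℝ => Real.log (E.k v)) :=
  gs_nonneg fun v _ => Real.log_nonneg (E.one_le v)

end

end Pool.Agent.Lib.MP_17a322_nt.VA
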