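import Pool.Agent.Lib.MP_17a322_nt.VA.Mu

/-!
VA, part A: points and their representatives.
-/

universe u w

namespace Pool.Agent.Lib.MP_17a322_nt.VA

open MvPolynomial

/-- `y` is a vector of projective coordinates of the point `P`. -/
def AV.Rep {K : Type u} [Field K] {N : ℕ} (A : AV K N) {L : Type u} [Field L] [Algebra K L]
    (P : A.Pts L) (y : Fin (N + 1) → L) : Prop :=
  ∃ c : L, c ≠ 0 ∧ ∀ i, y i = c * A.x P i

section

variable {K : Type u} [Field K] {N : ℕ} (A : AV K N)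

/-- Evaluation at a multiple of a vector. -/
theorem aeval_mul_homog {R : Type*} [CommRing R] [Algebra K R] {σ : Type*} {f : MvPolynomial σ K}
    {d : ℕ} (hf : f.IsHomogeneous d) (c : R) (y : σ → R) :
    aeval (fun i => c * y i) f = c ^ d * aeval y f := by
  rw [aeval_def, aeval_def, eval₂_eq, eval₂_eq, Finset.mul_sum]
  refine Finset.sum_congr rfl fun m hm => ?_
  have h1 : ∑ i ∈ m.support, m i = d := by
    have := hf (mem_support_iff.mp hm)
    rw [← this, Finsupp.weight_apply, Finsupp.sum]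
    simp
  simp only [mul_pow, Finset.prod_mul_distrib]
  rw [Finset.prod_pow_eq_pow_sum, h1]
  ring

variable {A}

theorem AV.IsPt.smul {R : Type u} [CommRing R] [Algebra K R] {y : Fin (N + 1) → R}
    (hy : A.IsPt y) (c : R) : A.IsPt fun i => c * y i := by
  intro f hf
  have h1 := sum_homogeneousComponent f
  rw [← h1, map_sum]
  refine Finset.sum_eq_zero fun d _ => ?_
  rw [aeval_mul_homog (homogeneousComponent_isHomogeneous d f), hy _ (A.homog f hf d), mul_zero]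

theorem AV.IsPt.map {R R' : Type u} [CommRing R] [Algebra K R] [CommRing R'] [Algebra K R']
    {y : Fin (N + 1) → R} (hy : A.IsPt y) (φ : R →ₐ[K] R') : A.IsPt fun i => φ (y i) := by
  intro f hf
  have h1 : aeval (fun i => φ (y i)) f = φ (aeval y f) := by
    rw [← AlgHom.comp_apply, MvPolynomial.comp_aeval]
  rw [h1, hy f hf, map_zero]

/-- `IsPt` may be checked after an injective homomorphism. -/
theorem AV.IsPt.of_injective {R R' : Type u} [CommRing R] [Algebra K R] [CommRing R']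
    [Algebra K R'] {y : Fin (N + 1) → R} (φ : R →ₐ[K] R') (hφ : Function.Injective φ)
    (hy : A.IsPt fun i => φ (y i)) : A.IsPt y := by
  intro f hf
  apply hφ
  rw [map_zero, ← hy f hf]
  have h1 : aeval (fun i => φ (y i)) f = φ (aeval y f) := by
    rw [← AlgHom.comp_apply, MvPolynomial.comp_aeval]
  exact h1.symm

variable {L : Type u} [Field L] [Algebra K L]

theorem AV.Rep.self (P : A.Pts L) : A.Rep P (A.x P) :=
  ⟨1, one_ne_zero, fun _ => (one_mul _).symm⟩

theorem AV.Rep.ne_zero {P : A.Pts L} {y : Fin (N + 1) → L} (h : A.Rep P y) : y ≠ 0 := by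
  obtain ⟨c, hc, h1⟩ := h
  obtain ⟨a, ha⟩ := A.exists_x_ne P
  intro h0
  have h2 := h1 a
  rw [h0, Pi.zero_apply] at h2
  exact mul_ne_zero hc ha h2.symm

theorem AV.Rep.isPt {P : A.Pts L} {y : Fin (N + 1) → L} (h : A.Rep P y) : A.IsPt y := by
  obtain ⟨c, hc, h1⟩ := h
  rw [funext h1]
  exact AV.IsPt.smul (A.x_isPt P) c

theorem AV.Rep.ne_iff {P : A.Pts L} {y : Fin (N + 1) → L} (h : A.Rep P y) (a : Fin (N + 1)) :
    y a ≠ 0 ↔ A.x P a ≠ 0 := by
  obtain ⟨c, hc, h1⟩ := h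
  rw [h1 a, mul_ne_zero_iff]
  exact ⟨fun h => h.2, fun h => ⟨hc, h⟩⟩

theorem AV.Rep.smul {P : A.Pts L} {y : Fin (N + 1) → L} (h : A.Rep P y) {c : L} (hc : c ≠ 0) :
    A.Rep P fun i => c * y i := by
  obtain ⟨c', hc', h1⟩ := h
  refine ⟨c * c', mul_ne_zero hc hc', fun i => ?_⟩
  show c * y i = _
  rw [h1 i, mul_assoc]

/-- Every nonzero vector satisfying the equations represents a point. -/
theorem AV.exists_rep {y : Fin (N + 1) → L} (hy : y ≠ 0) (h : A.IsPt y) :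
    ∃ P : A.Pts L, A.Rep P y := by
  obtain ⟨a, ha⟩ := Projectivization.exists_smul_eq_mk_rep L y hy
  have h1 : ∀ i, (Projectivization.mk L y hy).rep i = (a : L) * y i := by
    intro i
    rw [← ha]
    rfl
  refine ⟨⟨Projectivization.mk L y hy, ?_⟩, (a : L)⁻¹, inv_ne_zero a.ne_zero, ?_⟩
  · intro f hf
    rw [funext h1]
    exact (AV.IsPt.smul h (a : L)) f hf
  · intro i
    show y i = (a : L)⁻¹ * (Projectivization.mk L y hy).rep i
    rw [h1 i, ← mul_assoc, inv_mul_cancel₀ a.ne_zero, one_mul]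

theorem AV.Rep.unique {P Q : A.Pts L} {y : Fin (N + 1) → L} (h : A.Rep P y) (h' : A.Rep Q y) :
    P = Q := by
  obtain ⟨c, hc, h1⟩ := h
  obtain ⟨c', hc', h2⟩ := h'
  apply Subtype.ext
  rw [← Projectivization.mk_rep P.1, ← Projectivization.mk_rep Q.1,
    Projectivization.mk_eq_mk_iff']
  refine ⟨c⁻¹ * c', ?_⟩
  funext i
  have h3 : c * P.1.rep i = c' * Q.1.rep i := (h1 i).symm.trans (h2 i)
  show c⁻¹ * c' * Q.1.rep i = P.1.rep i
  rw [mul_assoc, ← h3, ← mul_assoc, inv_mul_cancel₀ hc, one_mul]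

/-- Proportional vectors. -/
theorem AV.Rep.of_prop {P : A.Pts L} {y y' : Fin (N + 1) → L} (h : A.Rep P y) (hy' : y' ≠ 0)
    (hp : ∀ i j, y i * y' j = y j * y' i) : A.Rep P y' := by
  obtain ⟨a, ha⟩ := A.exists_x_ne P
  have ha' := (h.ne_iff a).mpr ha
  have h1 : ∀ i, y' i = y' a * (y a)⁻¹ * y i := by
    intro i
    have h2 := hp a i
    field_simp
    rw [mul_comm (y' i), h2]
    ring
  have h3 : y' a ≠ 0 := by
    intro h0
    apply hy'
    funext i
    rw [h1 i, h0, zero_mul, zero_mul, Pi.zero_apply]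
  rw [funext h1]
  exact h.smul (mul_ne_zero h3 (inv_ne_zero ha'))

theorem AV.Rep.prop {P : A.Pts L} {y y' : Fin (N + 1) → L} (h : A.Rep P y) (h' : A.Rep P y')
    (i j : Fin (N + 1)) : y i * y' j = y j * y' i := by
  obtain ⟨c, hc, h1⟩ := h
  obtain ⟨c', hc', h2⟩ := h'
  rw [h1, h1, h2, h2]
  ring

/-- The forms `S` at arbitrary representatives. -/
theorem AV.Rep.spec {P Q : A.Pts L} {y y' : Fin (N + 1) → L} (h : A.Rep P y) (h' : A.Rep Q y') :
    ∃ c : L, c ≠ 0 ∧ ∀ a b, aeval (Sum.elim y y') (A.S a b) =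
      c * (A.x (P + Q) a * A.x (P - Q) b) := by
  obtain ⟨c, hc, h1⟩ := h
  obtain ⟨c', hc', h2⟩ := h'
  obtain ⟨c'', hc'', h3⟩ := A.spec L P Q
  refine ⟨c ^ 2 * c' ^ 2 * c'', by positivity, fun a b => ?_⟩
  rw [funext h1, funext h2, A.S_smul]
  have h4 : aeval (Sum.elim (A.x P) (A.x Q)) (A.S a b) =
      c'' * (A.x (P + Q) a * A.x (P - Q) b) := h3 a b
  rw [h4]
  ring

theorem AV.Rep.add {P Q : A.Pts L} {y y' : Fin (N + 1) → L} (h : A.Rep P y) (h' : A.Rep Q y')
    {b : Fin (N + 1)} (hb : A.x (P - Q) b ≠ 0) :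
    A.Rep (P + Q) fun a => aeval (Sum.elim y y') (A.S a b) := by
  obtain ⟨c, hc, h1⟩ := h.spec h'
  refine ⟨c * A.x (P - Q) b, mul_ne_zero hc hb, fun a => ?_⟩
  show aeval (Sum.elim y y') (A.S a b) = _
  rw [h1]
  ring

theorem AV.Rep.sub {P Q : A.Pts L} {y y' : Fin (N + 1) → L} (h : A.Rep P y) (h' : A.Rep Q y')
    {a : Fin (N + 1)} (ha : A.x (P + Q) a ≠ 0) :
    A.Rep (P - Q) fun b => aeval (Sum.elim y y') (A.S a b) := by
  obtain ⟨c, hc, h1⟩ := h.spec h'
  refine ⟨c * A.x (P + Q) a, mul_ne_zero hc ha, fun b => ?_⟩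
  show aeval (Sum.elim y y') (A.S a b) = _
  rw [h1]
  ring

end

end Pool.Agent.Lib.MP_17a322_nt.VA
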