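import Pool.Agent.Lib.MP_17a322_nt.VJ.A4
import Pool.Agent.Lib.MP_17a322_nt.VN.Z4
import Pool.Agent.Lib.MP_17a322_nt.VN.Z6
import Pool.Agent.Lib.MP_17a322_nt.VN.F3b
import Pool.Agent.Lib.MP_17a322_nt.VA.Z5

/-!
Germs of sequences of points.
-/

universe u

namespace Pool.Agent.Lib.MP_17a322_nt.VA

open MvPolynomial Height Filter
open Pool.Agent.Lib.MP_17a322_nt.RO
open Pool.Agent.Lib.MP_17a322_nt.VJ
open Pool.Agent.Lib.MP_17a322_nt.VN

/-- A member of a finite family of conditions holds almost everywhere. -/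
theorem Z_ev_exists {ι : Type*} [Finite ι] {p : ι → ℕ → Prop}
    (h : ∀ᶠ i in (hyperfilter ℕ : Filter ℕ), ∃ χ, p χ i) :
    ∃ χ, ∀ᶠ i in (hyperfilter ℕ : Filter ℕ), p χ i :=
  eventually_exists_fintype (hyperfilter ℕ) p h

/-- A number field is relatively algebraically closed in the field of germs. -/
theorem K_closed {K : Type u} [Field K] (a : GK K) (ha : IsAlgebraic K a) :
    a ∈ Set.range (algebraMap K (GK K)) := by
  obtain ⟨α, rfl⟩ := exists_gm a
  obtain ⟨Q, hQ0, hQ⟩ := ha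
  have h2 : Polynomial.aeval (gm α) Q = gm fun i => Q.eval (α i) := by
    rw [Polynomial.aeval_def, Polynomial.eval₂_eq_sum_range]
    have h3 : (fun i => Q.eval (α i)) =
        fun i => ∑ j ∈ Finset.range (Q.natDegree + 1), Q.coeff j * α i ^ j := by
      funext i
      rw [Polynomial.eval_eq_sum_range]
    rw [h3, gm_sum]
    rfl
  rw [h2, gm_eq_zero_iff] at hQ
  classical
  have h3 : ∀ᶠ i in (hyperfilter ℕ : Filter ℕ), ∃ r : {r // r ∈ Q.roots.toFinset}, α i = r := by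
    filter_upwards [hQ] with i hi
    exact ⟨⟨α i, by
      rw [Multiset.mem_toFinset, Polynomial.mem_roots hQ0]
      exact hi⟩, rfl⟩
  obtain ⟨r, hr⟩ := Z_ev_exists h3
  refine ⟨r, ?_⟩
  rw [algebraMap_GK, gm_eq_iff]
  filter_upwards [hr] with i hi
  exact hi.symm

section

variable {K : Type u} [Field K] {N : ℕ} (A : AV K N)

/-- Values of the equations and forms at germs. -/
theorem Z_aeval_gm {σ : Type*} (s : σ → ℕ → K) (G : MvPolynomial σ K) :
    aeval (fun t => gm (s t)) G = gm fun i => aeval (fun t => s t i) G := by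
  have h1 := aeval_gm (fun i t => s t i) G
  exact h1

theorem Z_gm_ne {s : Fin (N + 1) → ℕ → K} (h : ∀ᶠ ν in (hyperfilter ℕ : Filter ℕ),
    (fun i => s i ν) ≠ 0) : (fun i => gm (s i)) ≠ 0 := by
  intro h0
  have h1 : ∀ᶠ ν in (hyperfilter ℕ : Filter ℕ), ∀ i, s i ν = 0 := by
    rw [eventually_all]
    intro i
    exact gm_eq_zero_iff.1 (congrFun h0 i)
  obtain ⟨ν, h2, h3⟩ := (h.and h1).exists
  exact h2 (funext h3)

theorem Z_exists_germ (P : ℕ → A.Pts K) : ∃ p : A.Pts (GK K), IsGerm A P p := by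
  have h0 : (fun i => gm fun ν => A.x (P ν) i) ≠ 0 :=
    Z_gm_ne (s := fun i ν => A.x (P ν) i) (Eventually.of_forall fun ν => Z_x_ne A (P ν))
  have h1 : A.IsPt fun i => gm fun ν => A.x (P ν) i := by
    intro f hf
    rw [Z_aeval_gm, gm_eq_zero_iff]
    exact Eventually.of_forall fun ν => Z_x_isPt A (P ν) f hf
  obtain ⟨p, c, hc, hp⟩ := Z_exists_pt A h0 h1
  exact ⟨p, c⁻¹, inv_ne_zero hc, fun i => by rw [hp, inv_mul_cancel_left₀ hc]⟩

theorem Z_germ_seq (p : A.Pts (GK K)) : ∃ P : ℕ → A.Pts K, IsGerm A P p := by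
  choose s hs using fun i => exists_gm (A.x p i)
  have h0 : ∀ᶠ ν in (hyperfilter ℕ : Filter ℕ), (fun i => s i ν) ≠ 0 := by
    by_contra hcon
    rw [not_eventually_iff] at hcon
    refine Z_x_ne A p (funext fun i => ?_)
    rw [← hs, Pi.zero_apply, gm_eq_zero_iff]
    filter_upwards [hcon] with ν hν
    exact congrFun (not_not.1 hν) i
  obtain ⟨S, hS⟩ : A.I.FG := IsNoetherian.noetherian A.I
  have h1 : ∀ᶠ ν in (hyperfilter ℕ : Filter ℕ), ∀ f ∈ S, aeval (fun i => s i ν) f = 0 := by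
    rw [Filter.eventually_all_finset]
    intro f hf
    rw [← gm_eq_zero_iff, ← Z_aeval_gm]
    have h2 : f ∈ A.I := by
      rw [← hS]
      exact Ideal.subset_span hf
    simp only [hs]
    exact Z_x_isPt A p f h2
  have h2 : ∀ᶠ ν in (hyperfilter ℕ : Filter ℕ), A.IsPt fun i => s i ν := by
    filter_upwards [h1] with ν hν
    intro f hf
    have h3 : A.I ≤ RingHom.ker (aeval (fun i => s i ν) : MvPolynomial _ K →ₐ[K] K) := by
      rw [← hS]
      exact Ideal.span_le.2 fun g hg => hν g hg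
    exact h3 hf
  have h3 : ∀ᶠ ν in (hyperfilter ℕ : Filter ℕ), ∃ Pc : A.Pts K × K,
      Pc.2 ≠ 0 ∧ ∀ i, A.x Pc.1 i = Pc.2 * s i ν := by
    filter_upwards [h0, h2] with ν g1 g2
    obtain ⟨P, c, hc, hP⟩ := Z_exists_pt A g1 g2
    exact ⟨(P, c), hc, hP⟩
  have hne : Nonempty (A.Pts K × K) := ⟨(0, 0)⟩
  obtain ⟨Pc, hPc⟩ := exists_seq h3
  refine ⟨fun ν => (Pc ν).1, gm fun ν => (Pc ν).2, ?_, fun i => ?_⟩
  · rw [gm_ne_zero_iff]
    exact hPc.mono fun ν h => h.1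
  · rw [← hs, ← gm_mul, gm_eq_iff]
    exact hPc.mono fun ν h => h.2 i

variable {A}

theorem IsGerm.unique {P : ℕ → A.Pts K} {p p' : A.Pts (GK K)} (h : IsGerm A P p)
    (h' : IsGerm A P p') : p = p' := by
  obtain ⟨c, hc, h1⟩ := h
  obtain ⟨d, hd, h2⟩ := h'
  refine Z_ext A (c := c⁻¹ * d) (mul_ne_zero (inv_ne_zero hc) hd) fun i => ?_
  rw [mul_assoc, ← h2, h1, inv_mul_cancel_left₀ hc]

theorem IsGerm.ev_eq {P P' : ℕ → A.Pts K} {p : A.Pts (GK K)} (h : IsGerm A P p)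
    (h' : IsGerm A P' p) : ∀ᶠ ν in (hyperfilter ℕ : Filter ℕ), P ν = P' ν := by
  obtain ⟨c, hc, h1⟩ := h
  obtain ⟨d, hd, h2⟩ := h'
  obtain ⟨α, hα⟩ := exists_gm (c / d)
  have h3 : ∀ᶠ ν in (hyperfilter ℕ : Filter ℕ), ∀ i, A.x (P ν) i = α ν * A.x (P' ν) i := by
    rw [eventually_all]
    intro i
    rw [← gm_eq_iff, gm_mul, hα, h1, h2]
    field_simp
  have h4 : ∀ᶠ ν in (hyperfilter ℕ : Filter ℕ), α ν ≠ 0 := by
    rw [← gm_ne_zero_iff, hα]
    exact div_ne_zero hc hd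
  filter_upwards [h3, h4] with ν g1 g2
  exact Z_ext A g2 g1

theorem IsGerm.congr {P P' : ℕ → A.Pts K} {p : A.Pts (GK K)} (h : IsGerm A P p)
    (h' : ∀ᶠ ν in (hyperfilter ℕ : Filter ℕ), P ν = P' ν) : IsGerm A P' p := by
  obtain ⟨c, hc, h1⟩ := h
  refine ⟨c, hc, fun i => ?_⟩
  rw [← h1, gm_eq_iff]
  filter_upwards [h'] with ν hν
  rw [hν]

theorem IsGerm.add_sub {P Q : ℕ → A.Pts K} {p q : A.Pts (GK K)} (hP : IsGerm A P p)
    (hQ : IsGerm A Q q) : IsGerm A (fun ν => P ν + Q ν) (p + q) ∧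
      IsGerm A (fun ν => P ν - Q ν) (p - q) := by
  obtain ⟨c, hc, h1⟩ := hP
  obtain ⟨d, hd, h2⟩ := hQ
  choose γ hγ0 hγ using fun ν => A.spec K (P ν) (Q ν)
  obtain ⟨C, hC, hS⟩ := A.spec (GK K) p q
  -- the forms at the germs
  have e1 : ∀ a b, (gm fun ν => γ ν) * ((gm fun ν => A.x (P ν + Q ν) a) *
      gm fun ν => A.x (P ν - Q ν) b) =
        (c ^ 2 * d ^ 2 * C) * (A.x (p + q) a * A.x (p - q) b) := by
    intro a b
    have h3 : aeval (fun t => gm ((Sum.elim (fun i ν => A.x (P ν) i) fun i ν => A.x (Q ν) i :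
        Fin (N + 1) ⊕ Fin (N + 1) → ℕ → K) t)) (A.S a b) =
        aeval (Sum.elim (fun i => c * A.x p i) fun i => d * A.x q i) (A.S a b) := by
      congr 1
      congr 1
      funext t
      rcases t with t | t
      · exact h1 t
      · exact h2 t
    rw [Z_aeval_gm, Z_S_smul A] at h3
    have h4 : aeval (Sum.elim (A.x p) (A.x q)) (A.S a b) = C * (A.x (p + q) a * A.x (p - q) b) :=
      hS a b
    rw [h4] at h3
    rw [← gm_mul, ← gm_mul, mul_assoc, ← h3]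
    congr 1
    funext ν
    have h5 := hγ ν a b
    have h6 : (fun t => (Sum.elim (fun i ν => A.x (P ν) i) fun i ν => A.x (Q ν) i :
        Fin (N + 1) ⊕ Fin (N + 1) → ℕ → K) t ν) = Sum.elim (P ν).1.rep (Q ν).1.rep := by
      funext t
      rcases t with t | t <;> rfl
    rw [h6, h5]
    rfl
  have hγ' : (gm fun ν => γ ν) ≠ 0 := by
    rw [gm_ne_zero_iff]
    exact Eventually.of_forall hγ0
  have e2 : ∀ a b, (gm fun ν => A.x (P ν + Q ν) a) * (gm fun ν => A.x (P ν - Q ν) b) =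
      ((gm fun ν => γ ν)⁻¹ * (c ^ 2 * d ^ 2 * C)) * (A.x (p + q) a * A.x (p - q) b) := by
    intro a b
    rw [mul_assoc _ _ (A.x (p + q) a * _), ← e1, inv_mul_cancel_left₀ hγ']
  obtain ⟨⟨l, hl, hl'⟩, ⟨l₂, hl₂, hl₂'⟩⟩ := Z_rank_one
    (u := fun a => gm fun ν => A.x (P ν + Q ν) a) (v := fun b => gm fun ν => A.x (P ν - Q ν) b)
    (u' := A.x (p + q)) (v' := A.x (p - q))
    (Z_gm_ne (s := fun i ν => A.x (P ν + Q ν) i) (Eventually.of_forall fun ν => Z_x_ne A _))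
    (Z_gm_ne (s := fun i ν => A.x (P ν - Q ν) i) (Eventually.of_forall fun ν => Z_x_ne A _)) _ e2
  exact ⟨⟨l, hl, hl'⟩, ⟨l₂, hl₂, hl₂'⟩⟩

theorem IsGerm.zero : IsGerm A (fun _ => (0 : A.Pts K)) 0 := by
  obtain ⟨c, hc, h⟩ := Z_img_zero A (Algebra.ofId K (GK K))
  exact ⟨c, hc, fun i => h i⟩

theorem IsGerm.nsmul {P : ℕ → A.Pts K} {p : A.Pts (GK K)} (h : IsGerm A P p) (n : ℕ) :
    IsGerm A (fun ν => n • P ν) (n • p) := by
  induction n with
  | zero =>
    simp only [zero_smul]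
    exact IsGerm.zero
  | succ n ih =>
    simp only [succ_nsmul]
    exact (ih.add_sub h).1

theorem IsGerm.inc {A B : AV K N} (hB : IsSubAV B A) {P : ℕ → B.Pts K} {p : B.Pts (GK K)}
    (h : IsGerm B P p) : IsGerm A (fun ν => hB.inc K (P ν)) (hB.inc (GK K) p) := h

/-- The ratios of the coordinates. -/
theorem IsGerm.rt {P : ℕ → A.Pts K} {p : A.Pts (GK K)} (h : IsGerm A P p)
    (i : Fin (N + 1) × Fin (N + 1)) : rt (A.x p) i = gm fun ν => A.x (P ν) i.1 / A.x (P ν) i.2 := by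
  obtain ⟨c, hc, h1⟩ := h
  unfold VA.rt
  rw [gm_div, h1, h1, mul_div_mul_left _ _ hc]

theorem IsGerm.ne_iff {P : ℕ → A.Pts K} {p : A.Pts (GK K)} (h : IsGerm A P p) (i : Fin (N + 1)) :
    A.x p i ≠ 0 ↔ ∀ᶠ ν in (hyperfilter ℕ : Filter ℕ), A.x (P ν) i ≠ 0 := by
  obtain ⟨c, hc, h1⟩ := h
  rw [← gm_ne_zero_iff, h1]
  simp [hc]

end

/-- The height of a vector with an entry `1`. -/
theorem Z_logHeight_le_sum {K : Type*} [Field K] [AdmissibleAbsValues K] {ι : Type*} [Fintype ι]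
    [Nonempty ι] {y : ι → K} (hy : y ≠ 0) : logHeight y ≤ ∑ i, logHeight₁ (y i) := by
  rw [← gs_log_iSup hy]
  simp only [← gs_log_max]
  rw [← gs_sum _ fun i _ => FS_log_max (y i)]
  refine gs_le (FS_log_iSup hy) (FS_sum _ fun i _ => FS_log_max (y i)) fun v _ => ?_
  have h1 : ∀ i, v (y i) ≤ ∏ i, max 1 (v (y i)) := by
    intro i
    refine (le_max_right 1 (v (y i))).trans ?_
    exact single_le_prod_real Finset.univ (fun i => max 1 (v (y i))) (fun j => le_max_left _ _)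
      (Finset.mem_univ i)
  obtain ⟨j, hj⟩ := Function.ne_iff.1 hy
  have h2 : 0 < ⨆ i, v (y i) :=
    (v.pos hj).trans_le (le_ciSup (Set.finite_range fun i => v (y i)).bddAbove j)
  refine (Real.log_le_log h2 (ciSup_le h1)).trans_eq ?_
  rw [Real.log_prod]
  intro i _
  exact (lt_max_of_lt_left one_pos).ne'

section

variable {K : Type u} [Field K] [NumberField K] {N : ℕ} {A : AV K N}

/-- A point with ratios of coordinates in `k0` has height `o(H)`. -/
theorem Z_oH_of_rt {H : ℕ → ℝ} (hH : Tendsto H (hyperfilter ℕ : Filter ℕ) atTop)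
    {P : ℕ → A.Pts K} {p : A.Pts (GK K)} (h : IsGerm A P p)
    (hp : ∀ i, rt (A.x p) i ∈ k0 K H hH) : oH H fun ν => A.h (P ν) := by
  obtain ⟨j, hj⟩ : ∃ j, A.x p j ≠ 0 := by
    by_contra hcon
    push Not at hcon
    exact Z_x_ne A p (funext hcon)
  have h1 : ∀ i, oH H fun ν => logHeight₁ (A.x (P ν) i / A.x (P ν) j) := by
    intro i
    rw [← mem_k0 (hH := hH), ← h.rt (i, j)]
    exact hp (i, j)
  refine (oH.sum hH Finset.univ _ fun i _ => h1 i).mono ?_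
  filter_upwards [(h.ne_iff j).1 hj] with ν hν
  have h2 : (fun i => (A.x (P ν) j)⁻¹ * A.x (P ν) i) ≠ 0 := by
    intro h0
    have h3 := congrFun h0 j
    simp only [Pi.zero_apply, mul_eq_zero, inv_eq_zero, or_self] at h3
    exact hν h3
  have h3 := Z_logHeight_le_sum h2
  have h4 : A.h (P ν) = logHeight fun i => (A.x (P ν) j)⁻¹ * A.x (P ν) i := by
    unfold AV.h
    exact (logHeight_smul_eq_logHeight (A.x (P ν)) (inv_ne_zero hν)).symm
  rw [h4]
  refine h3.trans_eq (Finset.sum_congr rfl fun i _ => ?_)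
  rw [div_eq_inv_mul]

/-- A point over `k0` has height `o(H)`. -/
theorem Z_oH_of_img {H : ℕ → ℝ} (hH : Tendsto H (hyperfilter ℕ : Filter ℕ) atTop)
    {W : ℕ → A.Pts K} {w' : A.Pts (GK K)} (h : IsGerm A W w') {w : A.Pts (k0 K H hH)}
    (hw : A.Img (k0 K H hH).val w w') : oH H fun ν => A.h (W ν) :=
  Z_oH_of_rt hH h fun i => Z_rt_mem A hw i

end

end Pool.Agent.Lib.MP_17a322_nt.VA
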