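import Pool.Agent.Lib.MP_17a322_nt.VN.Z5
import Pool.Agent.Lib.MP_17a322_nt.VA.Z6

/-!
Generic sequences of points.
-/

universe u

namespace Pool.Agent.Lib.MP_17a322_nt.VA

open MvPolynomial Height Filter
open Pool.Agent.Lib.MP_17a322_nt.RO
open Pool.Agent.Lib.MP_17a322_nt.VJ
open Pool.Agent.Lib.MP_17a322_nt.VN

section

variable {K : Type u} [Field K] {N : ℕ} (A : AV K N)

theorem Z_prime : A.I.IsPrime := by
  have h := A.prime K
  have h1 : MvPolynomial.map (σ := Fin (N + 1)) (algebraMap K K) = RingHom.id _ := by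
    refine RingHom.ext fun p => ?_
    rw [Algebra.algebraMap_self, MvPolynomial.map_id, RingHom.id_apply]
  rwa [h1, Ideal.map_id] at h

theorem Z_aeval_smul {R : Type*} [CommRing R] [Algebra K R] {D : ℕ}
    {G : MvPolynomial (Fin (N + 1)) K} (hG : G.IsHomogeneous D) (c : R) (y : Fin (N + 1) → R) :
    aeval (fun i => c * y i) G = c ^ D * aeval y G := by
  rw [aeval_def, aeval_def, eval₂_eq', eval₂_eq', Finset.mul_sum]
  refine Finset.sum_congr rfl fun m hm => ?_
  have h4 : ∑ i, m i = D := by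
    have h5 := hG (mem_support_iff.1 hm)
    rw [← h5, Finsupp.weight_apply, Finsupp.sum_fintype]
    · simp
    · intro i
      simp
  simp_rw [mul_pow]
  rw [Finset.prod_mul_distrib, Finset.prod_pow_eq_pow_sum, h4]
  ring

/-- Homogenisation of a polynomial in ratios of the coordinates. -/
noncomputable def Z_hmg {T : Type*} [Fintype T] (u : T → Fin (N + 1) × Fin (N + 1)) (D : ℕ)
    (f : MvPolynomial T K) : MvPolynomial (Fin (N + 1)) K :=
  ∑ m ∈ f.support, C (coeff m f) * ∏ t, (X (u t).1 ^ m t * X (u t).2 ^ (D - m t))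

theorem Z_hmg_homog {T : Type*} [Fintype T] (u : T → Fin (N + 1) × Fin (N + 1)) {D : ℕ}
    {f : MvPolynomial T K} (hf : ∀ t, f.degreeOf t ≤ D) :
    (Z_hmg u D f).IsHomogeneous (Fintype.card T * D) := by
  refine IsHomogeneous.sum _ _ _ fun m hm => ?_
  have h1 : (∏ t, (X (u t).1 ^ m t * X (u t).2 ^ (D - m t)) :
      MvPolynomial (Fin (N + 1)) K).IsHomogeneous (∑ _t : T, D) := by
    refine IsHomogeneous.prod _ _ _ fun t _ => ?_
    have h2 := ((isHomogeneous_X K (u t).1).pow (m t)).mul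
      ((isHomogeneous_X K (u t).2).pow (D - m t))
    have h3 : m t ≤ D := (monomial_le_degreeOf t hm).trans (hf t)
    rw [one_mul, one_mul, Nat.add_sub_cancel' h3] at h2
    exact h2
  have h3 := (isHomogeneous_C (Fin (N + 1)) (coeff m f)).mul h1
  rw [zero_add, Finset.sum_const, Finset.card_univ, smul_eq_mul] at h3
  exact h3

theorem Z_aeval_hmg {T : Type*} [Fintype T] (u : T → Fin (N + 1) × Fin (N + 1)) {D : ℕ}
    {f : MvPolynomial T K} (hf : ∀ t, f.degreeOf t ≤ D) {L : Type*} [Field L] [Algebra K L]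
    (y : Fin (N + 1) → L) (hy : ∀ t, y (u t).2 ≠ 0) :
    aeval y (Z_hmg u D f) = (∏ t, y (u t).2 ^ D) * aeval (fun t => rt y (u t)) f := by
  unfold Z_hmg
  rw [map_sum, aeval_def (p := f), eval₂_eq', Finset.mul_sum]
  refine Finset.sum_congr rfl fun m hm => ?_
  rw [map_mul, map_prod, aeval_C, mul_left_comm, ← Finset.prod_mul_distrib]
  congr 1
  refine Finset.prod_congr rfl fun t _ => ?_
  have h3 : m t ≤ D := (monomial_le_degreeOf t hm).trans (hf t)
  rw [map_mul, map_pow, map_pow, aeval_X, aeval_X]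
  unfold rt
  rw [div_pow]
  obtain ⟨j, hj⟩ := Nat.exists_eq_add_of_le h3
  rw [hj, Nat.add_sub_cancel_left, pow_add]
  field_simp [hy t]

/-- A generic point has the maximal transcendence degree. -/
theorem Z_generic_tdeg {L L' : Type u} [Field L] [Algebra K L] [Field L'] [Algebra K L']
    {p : A.Pts L}
    (hp : ∀ (G : MvPolynomial (Fin (N + 1)) K) (D : ℕ), G.IsHomogeneous D → G ∉ A.I →
      aeval (A.x p) G ≠ 0) (Q : A.Pts L') : tdeg K (A.x Q) ≤ tdeg K (A.x p) := by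
  classical
  obtain ⟨T, hT, -, hc⟩ := Z_exists_basis (K := K) (A.x Q)
  have : Fintype T := Fintype.ofFinite T
  rw [hc]
  have hQ : ∀ t : T, A.x Q (t : Fin (N + 1) × Fin (N + 1)).2 ≠ 0 := by
    intro t h0
    refine (hT.transcendental t) ?_
    have h1 : rt (A.x Q) t = 0 := by
      unfold rt
      rw [h0, div_zero]
    rw [h1]
    exact isAlgebraic_zero
  have hpt : ∀ t : T, A.x p (t : Fin (N + 1) × Fin (N + 1)).2 ≠ 0 := by
    intro t
    have h1 := hp (X (t : Fin (N + 1) × Fin (N + 1)).2) 1 (isHomogeneous_X K _) fun h2 => by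
      have h3 := Z_x_isPt A Q _ h2
      rw [aeval_X] at h3
      exact hQ t h3
    rwa [aeval_X] at h1
  refine (Z_card_le_tdeg (A.x p) (fun t : T => rt (A.x p) t) ?_ fun t => isAlgebraic_algebraMap
      (⟨rt (A.x p) t, IntermediateField.subset_adjoin K _ ⟨_, rfl⟩⟩ :
        IntermediateField.adjoin K (Set.range (rt (A.x p))))).2
  rw [algebraicIndependent_iff]
  intro f hf
  obtain ⟨D, hD⟩ : ∃ D : ℕ, ∀ t, f.degreeOf t ≤ D :=
    ⟨∑ t, f.degreeOf t, fun t => Finset.single_le_sum (f := fun t => f.degreeOf t)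
      (fun _ _ => Nat.zero_le _) (Finset.mem_univ t)⟩
  have h1 := Z_aeval_hmg (fun t : T => (t : Fin (N + 1) × Fin (N + 1))) hD (A.x p) hpt
  rw [hf, mul_zero] at h1
  have h2 : Z_hmg (fun t : T => (t : Fin (N + 1) × Fin (N + 1))) D f ∈ A.I := by
    by_contra hcon
    exact hp _ _ (Z_hmg_homog _ hD) hcon h1
  have h3 := Z_aeval_hmg (fun t : T => (t : Fin (N + 1) × Fin (N + 1))) hD (A.x Q) hQ
  rw [Z_x_isPt A Q _ h2] at h3
  have h4 : (∏ t : T, A.x Q (t : Fin (N + 1) × Fin (N + 1)).2 ^ D) ≠ 0 :=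
    Finset.prod_ne_zero_iff.2 fun t _ => pow_ne_zero _ (hQ t)
  exact (algebraicIndependent_iff.1 hT) f ((mul_eq_zero.1 h3.symm).resolve_left h4)

/-- The dimension exists. -/
theorem Z_exists_dim : ∃ n, A.dimIs n := by
  classical
  have hb : ∀ (L : Type u) [Field L] [Algebra K L] (P : A.Pts L), ∃ m : ℕ,
      m ≤ (N + 1) * (N + 1) ∧ tdeg K (A.x P) = m := by
    intro L _ _ P
    obtain ⟨T, -, -, hc⟩ := Z_exists_basis (K := K) (A.x P)
    refine ⟨Nat.card T, ?_, hc⟩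
    have h1 := Nat.card_mono (Set.toFinite (Set.univ : Set (Fin (N + 1) × Fin (N + 1))))
      (Set.subset_univ T)
    rw [Nat.card_univ, Nat.card_prod, Nat.card_fin] at h1
    exact h1
  obtain ⟨n, hn, hmax⟩ : ∃ n : ℕ, (∃ (L : Type u) (_ : Field L) (_ : Algebra K L) (P : A.Pts L),
      tdeg K (A.x P) = n) ∧ ∀ m : ℕ, (∃ (L : Type u) (_ : Field L) (_ : Algebra K L)
        (P : A.Pts L), tdeg K (A.x P) = m) → m ≤ n := by
    have hne : ({m : ℕ | ∃ (L : Type u) (_ : Field L) (_ : Algebra K L) (P : A.Pts L),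
        tdeg K (A.x P) = m}).Nonempty := by
      obtain ⟨m, -, hm⟩ := hb K 0
      exact ⟨m, K, inferInstance, inferInstance, 0, hm⟩
    have hbd : BddAbove {m : ℕ | ∃ (L : Type u) (_ : Field L) (_ : Algebra K L) (P : A.Pts L),
        tdeg K (A.x P) = m} := by
      refine ⟨(N + 1) * (N + 1), ?_⟩
      rintro m ⟨L, _, _, P, hm⟩
      obtain ⟨m', h1, h2⟩ := hb L P
      rw [h2] at hm
      have h3 : m' = m := by exact_mod_cast hm
      omega
    exact ⟨sSup _, Nat.sSup_mem hne hbd, fun m hm => le_csSup hbd hm⟩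
  refine ⟨n, fun L _ _ P => ?_, hn⟩
  obtain ⟨m, -, hm⟩ := hb L P
  rw [hm]
  exact_mod_cast hmax m ⟨L, inferInstance, inferInstance, P, hm⟩

end

/-- If for every homogeneous `G` not in the ideal and every `ν` there is a bad point of level `ν` at
which `G` does not vanish then there is a sequence of bad points leaving every hypersurface. -/
theorem Z_generic_seq {K : Type u} [Field K] [NumberField K] {N : ℕ} (A : AV K N)
    (bad : ℕ → Set (A.Pts K))
    (h : ∀ (G : MvPolynomial (Fin (N + 1)) K) (D : ℕ), G.IsHomogeneous D → G ∉ A.I →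
      ∀ ν : ℕ, ∃ p ∈ bad ν, aeval (A.x p) G ≠ 0) :
    ∃ P : ℕ → A.Pts K, (∀ ν, P ν ∈ bad ν) ∧
      ∀ (G : MvPolynomial (Fin (N + 1)) K) (D : ℕ), G.IsHomogeneous D → G ∉ A.I →
        ∀ᶠ ν in atTop, aeval (A.x (P ν)) G ≠ 0 := by
  classical
  have hpr := Z_prime A
  have hc : Countable {G : MvPolynomial (Fin (N + 1)) K // (∃ D, G.IsHomogeneous D) ∧ G ∉ A.I} := by
    have := countable_mvPolynomial K (N + 1)
    infer_instance
  have hne : Nonempty {G : MvPolynomial (Fin (N + 1)) K // (∃ D, G.IsHomogeneous D) ∧ G ∉ A.I} :=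
    ⟨⟨1, ⟨0, isHomogeneous_one _ _⟩, fun h1 => hpr.ne_top ((Ideal.eq_top_iff_one _).2 h1)⟩⟩
  obtain ⟨E, hE⟩ := exists_surjective_nat
    {G : MvPolynomial (Fin (N + 1)) K // (∃ D, G.IsHomogeneous D) ∧ G ∉ A.I}
  choose d hd using fun i => (E i).2.1
  have hhom : ∀ ν : ℕ, (∏ i ∈ Finset.range (ν + 1),
      (E i : MvPolynomial (Fin (N + 1)) K)).IsHomogeneous (∑ i ∈ Finset.range (ν + 1), d i) :=
    fun ν => IsHomogeneous.prod _ _ _ fun i _ => hd i
  have hprod : ∀ ν : ℕ, ∏ i ∈ Finset.range (ν + 1), (E i : MvPolynomial (Fin (N + 1)) K) ∉ A.I := by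
    intro ν h1
    obtain ⟨i, -, hi⟩ := (hpr.prod_mem_iff).1 h1
    exact (E i).2.2 hi
  choose P hP hPG using fun ν => h _ _ (hhom ν) (hprod ν) ν
  refine ⟨P, hP, fun G D hGD hG => ?_⟩
  obtain ⟨i, hi⟩ := hE ⟨G, ⟨D, hGD⟩, hG⟩
  refine eventually_atTop.2 ⟨i, fun ν hν => ?_⟩
  have h1 := hPG ν
  rw [map_prod] at h1
  have h2 := Finset.prod_ne_zero_iff.1 h1 i (Finset.mem_range.2 (by omega))
  rw [hi] at h2
  exact h2

/-- The germ of a generic sequence is a generic point. -/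
theorem Z_germ_generic {K : Type u} [Field K] {N : ℕ} {A : AV K N} {P : ℕ → A.Pts K}
    {p : A.Pts (GK K)} (h : IsGerm A P p)
    (hP : ∀ (G : MvPolynomial (Fin (N + 1)) K) (D : ℕ), G.IsHomogeneous D → G ∉ A.I →
        ∀ᶠ ν in (hyperfilter ℕ : Filter ℕ), aeval (A.x (P ν)) G ≠ 0)
    (G : MvPolynomial (Fin (N + 1)) K) (D : ℕ) (hD : G.IsHomogeneous D) (hG : G ∉ A.I) :
    aeval (A.x p) G ≠ 0 := by
  obtain ⟨c, hc, h1⟩ := h
  intro h0
  have h2 := Z_aeval_smul hD c (A.x p)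
  rw [h0, mul_zero] at h2
  have h3 : (fun i => c * A.x p i) = fun i => gm fun ν => A.x (P ν) i := by
    funext i
    exact (h1 i).symm
  rw [h3, Z_aeval_gm, gm_eq_zero_iff] at h2
  obtain ⟨ν, h4, h5⟩ := ((hP G D hD hG).and h2).exists
  exact h4 h5

end Pool.Agent.Lib.MP_17a322_nt.VA
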