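import Pool.Agent.Lib.MP_17a322_nt.VA.AV

/-!
VA, part A: coordinates of points and the duplication forms.

`A.dup y a = S a b₀ (y, y)` where `b₀` is the index of a nonzero coordinate of the zero point; `A.mu j` is
the `j`-th iterate: a form of degree `4 ^ j` for the multiplication by `2 ^ j`.
-/

universe u w

namespace Pool.Agent.Lib.MP_17a322_nt.VA

open MvPolynomial

section

variable {K : Type u} [Field K] {N : ℕ} (A : AV K N)

theorem AV.x_ne {L : Type u} [Field L] [Algebra K L] (P : A.Pts L) : A.x P ≠ 0 :=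
  P.1.rep_nonzero

theorem AV.x_isPt {L : Type u} [Field L] [Algebra K L] (P : A.Pts L) : A.IsPt (A.x P) :=
  P.2

theorem AV.exists_x_ne {L : Type u} [Field L] [Algebra K L] (P : A.Pts L) :
    ∃ a, A.x P a ≠ 0 :=
  Function.ne_iff.mp (A.x_ne P)

/-- The index of a nonzero coordinate of the zero point. -/
noncomputable def AV.b₀ : Fin (N + 1) :=
  (A.exists_x_ne (0 : A.Pts K)).choose

theorem AV.b₀_spec : A.x (0 : A.Pts K) A.b₀ ≠ 0 :=
  (A.exists_x_ne (0 : A.Pts K)).choose_spec

/-- Duplication. -/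
noncomputable def AV.dup {R : Type w} [CommRing R] [Algebra K R] (y : Fin (N + 1) → R) :
    Fin (N + 1) → R :=
  fun a => aeval (Sum.elim y y) (A.S a A.b₀)

/-- Multiplication by `2 ^ j`. -/
noncomputable def AV.mu {R : Type w} [CommRing R] [Algebra K R] (j : ℕ) (y : Fin (N + 1) → R) :
    Fin (N + 1) → R :=
  A.dup^[j] y

/-- The forms of the multiplication by `2 ^ j`. -/
noncomputable def AV.muP (j : ℕ) : Fin (N + 1) → MvPolynomial (Fin (N + 1)) K :=
  A.mu j X

theorem AV.mu_zero {R : Type w} [CommRing R] [Algebra K R] (y : Fin (N + 1) → R) :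
    A.mu 0 y = y := rfl

theorem AV.mu_succ {R : Type w} [CommRing R] [Algebra K R] (j : ℕ) (y : Fin (N + 1) → R) :
    A.mu (j + 1) y = A.dup (A.mu j y) :=
  Function.iterate_succ_apply' _ _ _

theorem AV.mu_succ' {R : Type w} [CommRing R] [Algebra K R] (j : ℕ) (y : Fin (N + 1) → R) :
    A.mu (j + 1) y = A.mu j (A.dup y) :=
  Function.iterate_succ_apply _ _ _

theorem AV.mu_add {R : Type w} [CommRing R] [Algebra K R] (i j : ℕ) (y : Fin (N + 1) → R) :
    A.mu (i + j) y = A.mu i (A.mu j y) :=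
  Function.iterate_add_apply _ _ _ _

theorem AV.map_dup {R : Type w} [CommRing R] [Algebra K R] {R' : Type*} [CommRing R'] [Algebra K R']
    (φ : R →ₐ[K] R') (y : Fin (N + 1) → R) (a : Fin (N + 1)) :
    φ (A.dup y a) = A.dup (fun i => φ (y i)) a := by
  unfold AV.dup
  rw [← AlgHom.comp_apply, MvPolynomial.comp_aeval]
  congr 2
  funext s
  cases s <;> rfl

theorem AV.map_mu {R : Type w} [CommRing R] [Algebra K R] {R' : Type*} [CommRing R'] [Algebra K R']
    (φ : R →ₐ[K] R') (j : ℕ) (y : Fin (N + 1) → R) (a : Fin (N + 1)) :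
    φ (A.mu j y a) = A.mu j (fun i => φ (y i)) a := by
  induction j generalizing a with
  | zero => rfl
  | succ j ih =>
    rw [A.mu_succ, A.mu_succ, A.map_dup]
    congr 1
    funext i
    exact ih i

theorem AV.aeval_muP {R : Type w} [CommRing R] [Algebra K R] (j : ℕ) (y : Fin (N + 1) → R)
    (a : Fin (N + 1)) : aeval y (A.muP j a) = A.mu j y a := by
  unfold AV.muP
  rw [A.map_mu]
  congr 1
  funext i
  exact aeval_X _ _

/-- A bihomogeneous form of bidegree `(2, 2)` at multiples of vectors. -/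
theorem AV.S_smul {R : Type w} [CommRing R] [Algebra K R] (a b : Fin (N + 1)) (c c' : R)
    (y y' : Fin (N + 1) → R) :
    aeval (Sum.elim (fun i => c * y i) (fun i => c' * y' i)) (A.S a b) =
      c ^ 2 * c' ^ 2 * aeval (Sum.elim y y') (A.S a b) := by
  rw [aeval_def, aeval_def, eval₂_eq', eval₂_eq', Finset.mul_sum]
  refine Finset.sum_congr rfl fun m hm => ?_
  obtain ⟨h1, h2⟩ := A.bihomog a b m hm
  rw [Fintype.prod_sum_type, Fintype.prod_sum_type]
  simp only [Sum.elim_inl, Sum.elim_inr, mul_pow, Finset.prod_mul_distrib]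
  rw [Finset.prod_pow_eq_pow_sum, Finset.prod_pow_eq_pow_sum, h1, h2]
  ring

theorem AV.dup_smul {R : Type w} [CommRing R] [Algebra K R] (c : R) (y : Fin (N + 1) → R)
    (a : Fin (N + 1)) : A.dup (fun i => c * y i) a = c ^ 4 * A.dup y a := by
  unfold AV.dup
  rw [A.S_smul]
  ring

theorem AV.mu_smul {R : Type w} [CommRing R] [Algebra K R] (j : ℕ) (c : R)
    (y : Fin (N + 1) → R) (a : Fin (N + 1)) :
    A.mu j (fun i => c * y i) a = c ^ 4 ^ j * A.mu j y a := by
  induction j generalizing a with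
  | zero => simp only [pow_zero, pow_one]; rfl
  | succ j ih =>
    rw [A.mu_succ, A.mu_succ]
    have h1 : A.mu j (fun i => c * y i) = fun i => c ^ 4 ^ j * A.mu j y i := funext ih
    rw [h1, A.dup_smul, ← pow_mul, pow_succ]

end

end Pool.Agent.Lib.MP_17a322_nt.VA
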