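import Pool.Agent.Lib.MP_17a322_nt.VA.F1

/-!
VA, part F: sequences near a finitely generated group have the property `FRM`.
-/

universe u

namespace Pool.Agent.Lib.MP_17a322_nt.VA

open Filter Topology Height
open Pool.Agent.Lib.MP_17a322_nt.RO
open Pool.Agent.Lib.MP_17a322_nt.VJ
open Pool.Agent.Lib.MP_17a322_nt.VN

theorem FRM_of_FG {G : Type*} [AddCommGroup G] {q h : G → ℝ} (hq0 : ∀ x, 0 ≤ q x)
    (hpar : ∀ x y, q (x + y) + q (x - y) = 2 * q x + 2 * q y) {D : ℝ}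
    (hqh : ∀ x, |q x - h x| ≤ D) (Γ : AddSubgroup G) (hΓ : Γ.FG) (s : ℕ → G)
    (hs : ∀ i, s i ∈ Γ) (hH : Tendsto (fun i => h (s i)) (hyperfilter ℕ : Filter ℕ) atTop)
    {δ : ℕ} (hδ : 0 < δ) (w : ℕ → G) (hw : oH (fun i => h (s i)) fun i => h (w i)) :
    FRM h (fun i => h (s i)) fun i => δ • s i - w i := by
  intro hh hhh S hS m R₀ C₀ η hη
  have hD0 : 0 ≤ D := (abs_nonneg _).trans (hqh 0)
  -- parameters
  obtain ⟨θ, hθ0, hθ1, hθη⟩ : ∃ θ : ℝ, 0 < θ ∧ θ ≤ 1 / 4 ∧ 4 * θ ≤ η :=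
    ⟨min (1 / 4) (η / 4), by positivity, min_le_left _ _, by
      have := min_le_right (1 / 4 : ℝ) (η / 4)
      linarith⟩
  obtain ⟨n, hn⟩ : ∃ n : ℕ, 16 / θ + 1 ≤ (n : ℝ) := exists_nat_ge _
  have hn1 : 16 ≤ θ * n := by
    have h1 : 16 / θ ≤ (n : ℝ) := by linarith
    rw [div_le_iff₀ hθ0] at h1
    linarith
  have hn0 : 0 < n := by
    have h1 : 0 < 16 / θ := by positivity
    have h2 : (0 : ℝ) < n := by linarith
    exact_mod_cast h2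
  obtain ⟨τ, hτ0, hτ⟩ : ∃ τ : ℝ, 0 < τ ∧ 64 * (((n : ℝ) + 1) * τ) ≤ θ :=
    ⟨θ / (64 * (n + 1)), by positivity, by
      apply le_of_eq
      field_simp⟩
  obtain ⟨η', hη0, hη'⟩ : ∃ η' : ℝ, 0 < η' ∧ 16 * η' ≤ θ := ⟨θ / 16, by positivity, by linarith⟩
  obtain ⟨N₁, hN₁⟩ : ∃ N₁ : ℕ, 4 / τ ≤ (N₁ : ℝ) := exists_nat_ge _
  -- a subsequence in `S` with small `w`
  have hex : ∀ N : ℕ, ∃ i, S i ∧ (N : ℝ) ≤ h (s i) ∧ hh i ≤ 1 / ((N : ℝ) + 1) * h (s i) ∧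
      h (w i) ≤ 1 / ((N : ℝ) + 1) * h (s i) := by
    intro N
    have h1 := hS.and ((hH.eventually_ge_atTop (N : ℝ)).and
      ((hhh (1 / ((N : ℝ) + 1)) (by positivity)).and (hw (1 / ((N : ℝ) + 1)) (by positivity))))
    exact h1.exists
  choose c₀ hcS₀ hcN₀ hch₀ hcw₀ using hex
  obtain ⟨c, hc⟩ : ∃ c : ℕ → ℕ, ∀ N, c N = c₀ (N + N₁) := ⟨_, fun _ => rfl⟩
  have hcS : ∀ N, S (c N) := fun N => by rw [hc]; exact hcS₀ _
  have hcN : ∀ N : ℕ, (N : ℝ) ≤ h (s (c N)) := by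
    intro N
    rw [hc]
    refine le_trans ?_ (hcN₀ (N + N₁))
    push_cast
    have : (0 : ℝ) ≤ N₁ := Nat.cast_nonneg _
    linarith
  have hh0 : ∀ N, 0 ≤ h (s (c N)) := fun N => (Nat.cast_nonneg N).trans (hcN N)
  have hch : ∀ N : ℕ, hh (c N) ≤ 1 / ((N : ℝ) + 1) * h (s (c N)) := by
    intro N
    have h1 := hch₀ (N + N₁)
    rw [← hc] at h1
    refine h1.trans (mul_le_mul_of_nonneg_right ?_ (hh0 N))
    refine one_div_le_one_div_of_le (by positivity) ?_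
    push_cast
    have : (0 : ℝ) ≤ N₁ := Nat.cast_nonneg _
    linarith
  have hcw : ∀ N : ℕ, h (w (c N)) ≤ τ / 4 * h (s (c N)) := by
    intro N
    have h1 := hcw₀ (N + N₁)
    rw [← hc] at h1
    refine h1.trans (mul_le_mul_of_nonneg_right ?_ (hh0 N))
    rw [div_le_iff₀ hτ0] at hN₁
    push_cast
    rw [div_le_iff₀ (by positivity)]
    have : (0 : ℝ) ≤ N := Nat.cast_nonneg _
    have : 0 ≤ τ * N := by positivity
    nlinarith
  -- the exact quadratic function on `Γ`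
  have hfg : AddGroup.FG Γ := (AddGroup.fg_iff_addSubgroup_fg _).mpr hΓ
  obtain ⟨sq, hsq⟩ : ∃ sq : ℕ → Γ, ∀ N, sq N = ⟨s (c N), hs (c N)⟩ := ⟨_, fun _ => rfl⟩
  have hsq' : ∀ N, ((sq N : Γ) : G) = s (c N) := fun N => by rw [hsq]
  have hlimq : Tendsto (fun N => q (sq N)) atTop atTop := by
    have h1 : Tendsto (fun N : ℕ => -D + (N : ℝ)) atTop atTop :=
      tendsto_atTop_add_const_left _ _ tendsto_natCast_atTop_atTop
    refine tendsto_atTop_mono (fun N => ?_) h1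
    have h2 := abs_le.mp (hqh (s (c N)))
    rw [hsq']
    linarith [h2.1, hcN N]
  obtain ⟨M, hM0, hM1, hM2⟩ : ∃ M : ℝ, 1 ≤ M ∧ 2 * C₀ ≤ M ∧ 8 * D ≤ τ * M := by
    refine ⟨max 1 (max (2 * C₀) (8 * D / τ)), le_max_left _ _,
      (le_max_left _ _).trans (le_max_right _ _), ?_⟩
    have h1 : 8 * D / τ ≤ max 1 (max (2 * C₀) (8 * D / τ)) :=
      (le_max_right _ _).trans (le_max_right _ _)
    rw [div_le_iff₀ hτ0] at h1
    linarith
  obtain ⟨φ, j, hφ, hj, hj0, hH₀, hR, hpig⟩ := K3_group (fun x : Γ => q (x : G))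
    (fun x => hq0 _) (fun x y => by simpa using hpar (x : G) (y : G)) sq hlimq hη0 R₀ M
  -- facts at the chosen indices
  have f1 : ∀ k, M ≤ q (s (c (φ k))) := by
    intro k
    have := hH₀ k
    rwa [hsq'] at this
  have f2 : ∀ k, 8 * D ≤ τ * q (s (c (φ k))) := fun k =>
    hM2.trans (mul_le_mul_of_nonneg_left (f1 k) hτ0.le)
  have hτ1 : τ ≤ 1 := by
    have : (0 : ℝ) ≤ n := Nat.cast_nonneg _
    nlinarith
  have f3 : ∀ k, h (s (c (φ k))) ≤ 2 * q (s (c (φ k))) := by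
    intro k
    have h2 := abs_le.mp (hqh (s (c (φ k))))
    have h3 := f2 k
    have h4 := hq0 (s (c (φ k)))
    nlinarith [h2.1]
  have f4 : ∀ k, q (w (c (φ k))) ≤ τ * q (s (c (φ k))) := by
    intro k
    have h2 := abs_le.mp (hqh (w (c (φ k))))
    have h3 := f2 k
    have h4 := hcw (φ k)
    have h5 := f3 k
    nlinarith [h2.2]
  have f5 : ∀ k, D ≤ τ * q (s (c (φ k))) := fun k => by
    have h3 := f2 k
    linarith
  -- the estimates relative to the first point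
  have g : ∀ k, |h (δ • s (c (φ k)) - w (c (φ k))) - δ ^ 2 * (4 ^ j k * q (s (c (φ 0))))| ≤
        θ * (δ ^ 2 * (4 ^ j k * q (s (c (φ 0))))) ∧
      |4 ^ j k * h (δ • s (c (φ 0)) - w (c (φ 0))) - δ ^ 2 * (4 ^ j k * q (s (c (φ 0))))| ≤
        θ * (δ ^ 2 * (4 ^ j k * q (s (c (φ 0))))) ∧
      h ((δ • s (c (φ k)) - w (c (φ k))) - 2 ^ j k • (δ • s (c (φ 0)) - w (c (φ 0)))) ≤
        θ * (δ ^ 2 * (4 ^ j k * q (s (c (φ 0))))) := by
    intro k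
    obtain ⟨h1, h2⟩ := hpig 0 k (Nat.zero_le _)
    rw [hj0, Nat.sub_zero] at h1 h2
    have h3 : (((sq (φ k) - (2 ^ j k : ℕ) • sq (φ 0) : Γ) : G)) =
        s (c (φ k)) - 2 ^ j k • s (c (φ 0)) := by
      rw [AddSubgroup.coe_sub, AddSubgroup.coe_nsmul, hsq', hsq']
    rw [h3, hsq'] at h1
    rw [hsq', hsq'] at h2
    exact frm_core hq0 hpar hqh hδ hθ0 (by linarith) hn0 hn1 hτ0 hτ hη' hη0 _ _ _ _ _ (f5 0)
      (f5 k) (f4 0) (f4 k) h2 h1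
  have hδ' : (1 : ℝ) ≤ (δ : ℝ) ^ 2 := by
    have : (1 : ℝ) ≤ δ := by exact_mod_cast hδ
    nlinarith
  obtain ⟨u, hu⟩ : ∃ u, u = q (s (c (φ 0))) := ⟨_, rfl⟩
  have hu1 : 1 ≤ u := hu ▸ hM0.trans (f1 0)
  have huM : M ≤ u := hu ▸ f1 0
  rw [← hu] at g
  have hV : ∀ k, 0 < (δ : ℝ) ^ 2 * (4 ^ j k * u) := by
    intro k
    have : (0 : ℝ) < (δ : ℝ) ^ 2 := by linarith
    positivity
  -- the height of `P_0`
  have ha : 1 / 2 * u ≤ h (δ • s (c (φ 0)) - w (c (φ 0))) := by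
    have h1 := abs_le.mp (g 0).2.1
    rw [hj0, pow_zero, one_mul, one_mul] at h1
    have h2 : u ≤ (δ : ℝ) ^ 2 * u := le_mul_of_one_le_left (by linarith) hδ'
    nlinarith [h1.1]
  have hJa : ∀ k, (δ : ℝ) ^ 2 * (4 ^ j k * u) ≤
      2 * (4 ^ j k * h (δ • s (c (φ 0)) - w (c (φ 0)))) := by
    intro k
    have h1 := abs_le.mp (g k).2.1
    have h2 := hV k
    nlinarith [h1.1]
  obtain ⟨N₀, hN₀⟩ : ∃ N₀ : ℕ, 4 * u ≤ (N₀ : ℝ) := exists_nat_ge _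
  refine ⟨c (φ 0), fun i => c (φ (N₀ + 1 + i)), fun i => j (N₀ + 1 + i), hcS _, fun i => hcS _,
    ?_, ?_, ?_, ?_, ?_, ?_, ?_, ?_⟩
  · linarith
  · linarith
  · intro i
    have h1 := hR 0 (N₀ + 1 + i) (by omega)
    rw [hj0, pow_zero, mul_one] at h1
    exact h1
  · intro i i' hii
    have h1 : (i : ℕ) < i' := hii
    exact hR _ _ (by omega)
  · intro i
    obtain ⟨k, hk⟩ : ∃ k, k = N₀ + 1 + (i : ℕ) := ⟨_, rfl⟩
    simp only [← hk]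
    have h1 := hch (φ k)
    have h2 : (N₀ : ℝ) ≤ (φ k : ℝ) := by
      have h3 : k ≤ φ k := hφ.id_le k
      have h4 : N₀ ≤ φ k := by omega
      exact_mod_cast h4
    have h6 : (0 : ℝ) < (φ k : ℝ) + 1 := by positivity
    rw [div_mul_eq_mul_div, one_mul, le_div_iff₀ h6] at h1
    have h7 : (0 : ℝ) < 4 ^ j k := by positivity
    have h8 : h (s (c (φ k))) ≤ 4 ^ j k * ((φ k : ℝ) + 1) := by
      have h9 := f3 k
      obtain ⟨-, h10⟩ := hpig 0 k (Nat.zero_le _)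
      rw [hj0, Nat.sub_zero, hsq', hsq', ← hu] at h10
      have h11 := abs_le.mp h10
      have h12 := hq0 (s (c (φ k)))
      have h13 : q (s (c (φ k))) ≤ 2 * (4 ^ j k * u) := by nlinarith [h11.2]
      have h14 : 4 * u ≤ (φ k : ℝ) + 1 := by linarith
      have h15 := mul_le_mul_of_nonneg_left h14 h7.le
      linarith
    exact le_of_mul_le_mul_right (h1.trans h8) h6
  · intro i
    have h1 := abs_le.mp (g (N₀ + 1 + i)).1
    have h2 := abs_le.mp (g (N₀ + 1 + i)).2.1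
    have h3 := hV (N₀ + 1 + i)
    show 4 ^ j (N₀ + 1 + i) * h (δ • s (c (φ 0)) - w (c (φ 0))) ≤
      2 * h (δ • s (c (φ (N₀ + 1 + i))) - w (c (φ (N₀ + 1 + i))))
    nlinarith [h1.1, h2.2]
  · intro i
    have h1 := (g (N₀ + 1 + i)).2.2
    have h2 := hJa (N₀ + 1 + i)
    have h3 := hV (N₀ + 1 + i)
    show h ((δ • s (c (φ (N₀ + 1 + i))) - w (c (φ (N₀ + 1 + i)))) -
      2 ^ j (N₀ + 1 + i) • (δ • s (c (φ 0)) - w (c (φ 0)))) ≤
      η * (4 ^ j (N₀ + 1 + i) * h (δ • s (c (φ 0)) - w (c (φ 0))))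
    have h4 : θ * ((δ : ℝ) ^ 2 * (4 ^ j (N₀ + 1 + i) * u)) ≤
        θ * (2 * (4 ^ j (N₀ + 1 + i) * h (δ • s (c (φ 0)) - w (c (φ 0))))) :=
      mul_le_mul_of_nonneg_left h2 hθ0.le
    have h5 : 0 ≤ 4 ^ j (N₀ + 1 + i) * h (δ • s (c (φ 0)) - w (c (φ 0))) := by linarith
    nlinarith
  · intro i
    have h1 := abs_le.mp (g (N₀ + 1 + i)).1
    have h2 := abs_le.mp (g (N₀ + 1 + i)).2.1
    have h3 := hJa (N₀ + 1 + i)
    have h5 := hV (N₀ + 1 + i)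
    show |h (δ • s (c (φ (N₀ + 1 + i))) - w (c (φ (N₀ + 1 + i)))) -
      4 ^ j (N₀ + 1 + i) * h (δ • s (c (φ 0)) - w (c (φ 0)))| ≤
      η * (4 ^ j (N₀ + 1 + i) * h (δ • s (c (φ 0)) - w (c (φ 0))))
    have h4 : θ * ((δ : ℝ) ^ 2 * (4 ^ j (N₀ + 1 + i) * u)) ≤
        θ * (2 * (4 ^ j (N₀ + 1 + i) * h (δ • s (c (φ 0)) - w (c (φ 0))))) :=
      mul_le_mul_of_nonneg_left h3 hθ0.le
    have h6 : 0 ≤ 4 ^ j (N₀ + 1 + i) * h (δ • s (c (φ 0)) - w (c (φ 0))) := by linarith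
    have h7 : 2 * (θ * ((δ : ℝ) ^ 2 * (4 ^ j (N₀ + 1 + i) * u))) ≤
        η * (4 ^ j (N₀ + 1 + i) * h (δ • s (c (φ 0)) - w (c (φ 0)))) := by nlinarith
    rw [abs_le]
    constructor <;> linarith [h1.1, h1.2, h2.1, h2.2]

end Pool.Agent.Lib.MP_17a322_nt.VA
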