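import Pool.Agent.Lib.MP_17a322_nt.VN.E19a
import Pool.Agent.Lib.MP_17a322_nt.VA.Z2

/-!
Transcendence degrees: auxiliary statements.
-/

universe u

namespace Pool.Agent.Lib.MP_17a322_nt.VA

open MvPolynomial Pool.Agent.Lib.MP_17a322_nt.VN

/-- The ratios of the coordinates. -/
def rt {L : Type*} [Field L] {N : ℕ} (y : Fin (N + 1) → L) (p : Fin (N + 1) × Fin (N + 1)) : L :=
  y p.1 / y p.2

theorem Z_alg_adjoin {K L : Type*} [Field K] [Field L] [Algebra K L] {S : Set L}
    {L₀ : IntermediateField K L} (h : ∀ x ∈ S, IsAlgebraic L₀ x) {e : L}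
    (he : e ∈ IntermediateField.adjoin K S) : IsAlgebraic L₀ e := by
  have h1 : IntermediateField.adjoin K S ≤ (algebraicClosure L₀ L).restrictScalars K := by
    rw [IntermediateField.adjoin_le_iff]
    intro x hx
    exact mem_algebraicClosure_iff.2 (h x hx)
  exact mem_algebraicClosure_iff.1 (h1 he)

section

variable {K L : Type u} [Field K] [Field L] [Algebra K L] {N : ℕ}

theorem Z_tdeg_le_card (y : Fin (N + 1) → L) {κ : Type*} [Finite κ] (w : κ → L)
    (h : ∀ p, IsAlgebraic (IntermediateField.adjoin K (Set.range w)) (rt y p)) :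
    tdeg K y ≤ (Nat.card κ : Cardinal.{u}) := by
  obtain ⟨s, hs⟩ := exists_isTranscendenceBasis K
    (IntermediateField.adjoin K (Set.range (rt y)))
  have h1 : AlgebraicIndependent K
      ((IntermediateField.adjoin K (Set.range (rt y))).val ∘ ((↑) : s → _)) :=
    hs.1.map' (IntermediateField.adjoin K (Set.range (rt y))).val.toRingHom.injective
  have h2 : ∀ i : s, IsAlgebraic (IntermediateField.adjoin K (Set.range w))
      (((IntermediateField.adjoin K (Set.range (rt y))).val ∘ ((↑) : s → _)) i) := by
    intro i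
    refine Z_alg_adjoin (S := Set.range (rt y)) ?_ i.1.2
    rintro _ ⟨p, rfl⟩
    exact h p
  obtain ⟨hfin, hcard⟩ := indep_card_le (K := K) _ h1 w h2
  have h3 : tdeg K y = Cardinal.mk s := hs.cardinalMk_eq_trdeg.symm
  rw [h3, ← Nat.cast_card (α := s)]
  exact_mod_cast hcard

theorem Z_card_le_tdeg (y : Fin (N + 1) → L) {ι : Type*} (v : ι → L)
    (hv : AlgebraicIndependent K v)
    (h : ∀ i, IsAlgebraic (IntermediateField.adjoin K (Set.range (rt y))) (v i)) :
    Finite ι ∧ (Nat.card ι : Cardinal.{u}) ≤ tdeg K y := by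
  obtain ⟨T, hT, hT'⟩ := exists_basis_subset (K := K) (rt y)
  have hr : Set.range (fun t : T => rt y t) = rt y '' T := (Set.image_eq_range _ _).symm
  have h1 : ∀ i, IsAlgebraic (IntermediateField.adjoin K (Set.range fun t : T => rt y t))
      (v i) := by
    intro i
    rw [hr]
    have h2 : Algebra.IsAlgebraic (IntermediateField.adjoin K (rt y '' T))
        (IntermediateField.adjoin (IntermediateField.adjoin K (rt y '' T)) (Set.range (rt y))) := by
      refine IntermediateField.isAlgebraic_adjoin ?_
      rintro _ ⟨p, rfl⟩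
      exact (hT' p).isIntegral
    have h3 : IsAlgebraic (IntermediateField.adjoin (IntermediateField.adjoin K (rt y '' T))
        (Set.range (rt y))) (v i) := by
      have h4 : (IntermediateField.adjoin K (Set.range (rt y))).toSubalgebra ≤
          ((IntermediateField.adjoin (IntermediateField.adjoin K (rt y '' T))
            (Set.range (rt y))).restrictScalars K).toSubalgebra := by
        show IntermediateField.adjoin K (Set.range (rt y)) ≤
          (IntermediateField.adjoin (IntermediateField.adjoin K (rt y '' T))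
            (Set.range (rt y))).restrictScalars K
        rw [IntermediateField.adjoin_le_iff]
        exact IntermediateField.subset_adjoin (IntermediateField.adjoin K (rt y '' T)) _
      exact IsAlgebraic.tower_top_of_subalgebra_le h4 (h i)
    exact h3.restrictScalars _
  obtain ⟨h2, h3⟩ := indep_card_le (K := K) v hv (fun t : T => rt y t) h1
  refine ⟨h2, ?_⟩
  have h4 : ∀ t : T, rt y t ∈ IntermediateField.adjoin K (Set.range (rt y)) := fun t =>
    IntermediateField.subset_adjoin K _ ⟨_, rfl⟩
  have h5 : AlgebraicIndependent K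
      fun t : T => (⟨rt y t, h4 t⟩ : IntermediateField.adjoin K (Set.range (rt y))) :=
    AlgebraicIndependent.of_comp (IntermediateField.val _) hT
  have h6 := h5.lift_cardinalMk_le_trdeg
  have h7 : (Nat.card T : Cardinal.{u}) ≤ tdeg K y := by
    have h8 : Cardinal.lift.{u} (Cardinal.mk T) = (Nat.card T : Cardinal.{u}) := by
      rw [← Nat.cast_card (α := T), Cardinal.lift_natCast]
    rw [← h8]
    refine h6.trans ?_
    rw [Cardinal.lift_id'.{0, u}]
    exact le_refl _
  exact le_trans (by exact_mod_cast h3) h7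

theorem Z_exists_basis (y : Fin (N + 1) → L) : ∃ T : Set (Fin (N + 1) × Fin (N + 1)),
    AlgebraicIndependent K (fun t : T => rt y t) ∧
    (∀ p, IsAlgebraic (IntermediateField.adjoin K (rt y '' T)) (rt y p)) ∧
    tdeg K y = (Nat.card T : Cardinal.{u}) := by
  obtain ⟨T, hT, hT'⟩ := exists_basis_subset (K := K) (rt y)
  refine ⟨T, hT, hT', le_antisymm ?_ ?_⟩
  · refine Z_tdeg_le_card y (fun t : T => rt y t) fun p => ?_
    have h1 := hT' p
    rwa [Set.image_eq_range] at h1
  · exact (Z_card_le_tdeg y _ hT fun t => isAlgebraic_algebraMap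
      (⟨rt y t, IntermediateField.subset_adjoin K _ ⟨_, rfl⟩⟩ :
        IntermediateField.adjoin K (Set.range (rt y)))).2

end

/-- An algebraically closed extension with independent elements. -/
theorem Z_closed_ext (Ω : Type u) [Field Ω] (T : Type u) : ∃ (Ω' : Type u) (_ : Field Ω')
    (_ : IsAlgClosed Ω') (_ : Algebra Ω Ω') (x : T → Ω'), AlgebraicIndependent Ω x := by
  let G := FractionRing (MvPolynomial T Ω)
  have h1 : AlgebraicIndependent Ω (X : T → MvPolynomial T Ω) := MvPolynomial.algebraicIndependent_X T Ω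
  have h2 : AlgebraicIndependent Ω ((IsScalarTower.toAlgHom Ω (MvPolynomial T Ω) G) ∘
      (X : T → MvPolynomial T Ω)) :=
    h1.map' (IsFractionRing.injective (MvPolynomial T Ω) G)
  have h3 : AlgebraicIndependent Ω ((IsScalarTower.toAlgHom Ω G (AlgebraicClosure G)) ∘
      ((IsScalarTower.toAlgHom Ω (MvPolynomial T Ω) G) ∘ (X : T → MvPolynomial T Ω))) :=
    h2.map' (algebraMap G (AlgebraicClosure G)).injective
  exact ⟨AlgebraicClosure G, inferInstance, inferInstance, inferInstance, _, h3⟩

/-- Independence over the polynomial ring. -/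
theorem Z_indep_poly {k Ω' : Type*} [Field k] [Field Ω'] [Algebra k Ω'] {T κ : Type*}
    (x : T → Ω') (v : κ → Ω') (h : AlgebraicIndependent k (Sum.elim v x)) :
    letI := (aeval x : MvPolynomial T k →ₐ[k] Ω').toRingHom.toAlgebra
    AlgebraicIndependent (MvPolynomial T k) v := by
  let _ := (aeval x : MvPolynomial T k →ₐ[k] Ω').toRingHom.toAlgebra
  have e1 : ∀ p : MvPolynomial (κ ⊕ T) k,
      aeval v (sumAlgEquiv k κ T p) = aeval (Sum.elim v x) p := by
    intro p
    induction p using MvPolynomial.induction_on with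
    | C a =>
      rw [sumAlgEquiv_C_inl, aeval_C, aeval_C]
      show aeval x (C a) = _
      rw [aeval_C]
    | add p q hp hq => rw [map_add, map_add, map_add, hp, hq]
    | mul_X p i hp =>
      rw [map_mul, map_mul, map_mul, hp, aeval_X]
      congr 1
      rcases i with i | i
      · rw [sumAlgEquiv_X_inl, aeval_X]
        rfl
      · rw [sumAlgEquiv_X_inr, aeval_C]
        show aeval x (X i) = _
        rw [aeval_X]
        rfl
  rw [algebraicIndependent_iff_injective_aeval]
  intro p q hpq
  obtain ⟨p, rfl⟩ := (sumAlgEquiv k κ T).surjective p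
  obtain ⟨q, rfl⟩ := (sumAlgEquiv k κ T).surjective q
  rw [e1, e1] at hpq
  exact congrArg _ (h hpq)

/-- A generic embedding. -/
theorem Z_embed (k E Ω : Type u) [Field k] [Field E] [Field Ω] [Algebra k E] [Algebra k Ω] :
    ∃ (Ω' : Type u) (_ : Field Ω') (_ : Algebra k Ω') (_ : Algebra Ω Ω')
      (_ : IsScalarTower k Ω Ω') (σ : E →ₐ[k] Ω'),
      ∀ (κ : Type) (v : κ → Ω), AlgebraicIndependent k v →
        letI := σ.toRingHom.toAlgebra
        AlgebraicIndependent E fun i => algebraMap Ω Ω' (v i) := by
  obtain ⟨T, hT⟩ := exists_isTranscendenceBasis k E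
  obtain ⟨Ω', i1, i2, i3, x, hx⟩ := Z_closed_ext Ω T
  let _ : Algebra k Ω' := ((algebraMap Ω Ω').comp (algebraMap k Ω)).toAlgebra
  have i4 : IsScalarTower k Ω Ω' := IsScalarTower.of_algebraMap_eq fun _ => rfl
  let u : T → E := fun t => t
  have hu : IsTranscendenceBasis k u := hT
  have hx' : AlgebraicIndependent k x := hx.restrictScalars (algebraMap k Ω).injective
  let _ : Algebra (MvPolynomial T k) E := (aeval u : MvPolynomial T k →ₐ[k] E).toRingHom.toAlgebra
  let _ : Algebra (MvPolynomial T k) Ω' := (aeval x : MvPolynomial T k →ₐ[k] Ω').toRingHom.toAlgebra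
  have i5 : FaithfulSMul (MvPolynomial T k) E :=
    (faithfulSMul_iff_algebraMap_injective _ _).2 hu.1
  have i6 : FaithfulSMul (MvPolynomial T k) Ω' :=
    (faithfulSMul_iff_algebraMap_injective _ _).2 hx'
  have i7 : Algebra.IsAlgebraic (MvPolynomial T k) E := by
    have h1 := hu.isAlgebraic
    refine Algebra.IsAlgebraic.of_ringHom_of_comp_eq
      (hu.1.aevalEquiv : MvPolynomial T k ≃ₐ[k] Algebra.adjoin k (Set.range u)).toRingHom
      (RingHom.id E) (hu.1.aevalEquiv).surjective (fun _ _ h => h) ?_
    refine RingHom.ext fun p => ?_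
    show ((hu.1.aevalEquiv p : Algebra.adjoin k (Set.range u)) : E) = aeval u p
    exact hu.1.algebraMap_aevalEquiv p
  let σ : E →ₐ[MvPolynomial T k] Ω' := IsAlgClosed.lift
  have i8 : IsScalarTower k (MvPolynomial T k) E := IsScalarTower.of_algebraMap_eq fun a => by
    show algebraMap k E a = aeval u (C a)
    rw [aeval_C]
  have i9 : IsScalarTower k (MvPolynomial T k) Ω' := IsScalarTower.of_algebraMap_eq fun a => by
    show algebraMap k Ω' a = aeval x (C a)
    rw [aeval_C]
  refine ⟨Ω', i1, inferInstance, i3, i4, σ.restrictScalars k, ?_⟩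
  intro κ v hv
  let _ := (σ.restrictScalars k).toRingHom.toAlgebra
  have h1 : AlgebraicIndependent k (Sum.elim x fun i => algebraMap Ω Ω' (v i)) := by
    have h2 := AlgebraicIndependent.sumElim_comp hv hx
    exact h2
  have h2 : AlgebraicIndependent k (Sum.elim (fun i => algebraMap Ω Ω' (v i)) x) := by
    have h3 := h1.comp Sum.swap (Equiv.sumComm κ T).injective
    have h4 : (Sum.elim x fun i => algebraMap Ω Ω' (v i)) ∘ Sum.swap =
        Sum.elim (fun i => algebraMap Ω Ω' (v i)) x := by
      funext i
      rcases i with i | i <;> rfl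
    rw [h4] at h3
    exact h3
  have h3 := Z_indep_poly x (fun i => algebraMap Ω Ω' (v i)) h2
  have i10 : IsScalarTower (MvPolynomial T k) E Ω' := IsScalarTower.of_algebraMap_eq fun p =>
    (σ.commutes p).symm
  exact h3.extendScalars E

end Pool.Agent.Lib.MP_17a322_nt.VA
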