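import Pool.Agent.Lib.MP_17a322_nt.VA.N5
import Pool.Agent.Lib.MP_17a322_nt.VA.A5

/-!
Finitely many charts cover all places.
-/

universe u

namespace Pool.Agent.Lib.MP_17a322_nt.VA

open MvPolynomial
open Pool.Agent.Lib.MP_17a322_nt.VN

section

variable {K : Type u} [Field K] {N : ℕ}

theorem AV.gp_coord_ne {A : AV K N} {L : Type u} [Field L] [Algebra K L] {x : Fin (N + 1) → L}
    (hx : A.IsPt x) {l : Fin (N + 1) → K} (h : lf l x ≠ 0) : lf l A.gp ≠ 0 := by
  intro h1
  have h2 : lp l ∈ A.I := by rw [← A.gp_zero_iff, aeval_lp, h1]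
  have h3 := hx _ h2
  rw [aeval_lp] at h3
  exact h h3

/-- A finite number of Noether normalisations covers all places. -/
theorem exists_cover {K : Type u} [Field K] [NumberField K] {N : ℕ} (A : AV K N) {n : ℕ}
    (hn : A.dimIs n) :
    ∃ (r : ℕ) (e : Fin r → ℕ) (nd : ∀ c, Noe A n (e c)) (κ : SC K),
      ∀ (L : Type u) [Field L] [Algebra K L] (v : AbsoluteValue L ℝ) (P : A.Pts L),
        ∃ c, (nd c).In κ v P := by
  classical
  let T := {a : Fin (N + 1) // lf (Pi.single a (1 : K)) A.gp ≠ 0}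
  choose e nd hnd using fun a : T => AV.exists_Noe hn a.2
  refine ⟨Fintype.card T, fun c => e ((Fintype.equivFin T).symm c),
    fun c => nd ((Fintype.equivFin T).symm c), ⟨∅, 0⟩, fun L _ _ v P => ?_⟩
  obtain ⟨a, ha⟩ := exists_vm v (A.x P)
  have hne : A.x P ≠ 0 := (AV.Rep.self P).ne_zero
  have hpos := vm_pos v hne
  have hxa : A.x P a ≠ 0 := by
    intro h
    rw [ha, h, map_zero] at hpos
    exact lt_irrefl _ hpos
  have hga : lf (Pi.single a (1 : K)) A.gp ≠ 0 :=
    AV.gp_coord_ne (AV.Rep.self P).isPt (by rw [lf_single]; exact hxa)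
  refine ⟨Fintype.equivFin T ⟨a, hga⟩, fun i => ?_⟩
  dsimp only
  rw [Equiv.symm_apply_apply, hnd ⟨a, hga⟩, lf_single]
  have h1 := le_vm v (A.x P) i
  rw [ha] at h1
  refine h1.trans ?_
  exact le_mul_of_one_le_left (v.nonneg _) (SC.one_le _ v)

end

end Pool.Agent.Lib.MP_17a322_nt.VA
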