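import Pool.Agent.Lib.MP_17a322_nt.VA.A6
import Pool.Agent.Lib.MP_17a322_nt.VN.F6a

/-!
The gain of a pair of numbers at a point: symmetry, finite support, and its behaviour under
combinations with polynomial coefficients.
-/

universe u

namespace Pool.Agent.Lib.MP_17a322_nt.VA

open MvPolynomial Height Filter
open Pool.Agent.Lib.MP_17a322_nt.RO
open Pool.Agent.Lib.MP_17a322_nt.VJ
open Pool.Agent.Lib.MP_17a322_nt.VN (nh1 FS_nh1)

theorem gnA_swap {K : Type u} [Field K] {N : ℕ} {A : AV K N} {n e : ℕ} (nd : Noe A n e)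
    (κ : SC K) {L : Type u} [Field L] [Algebra K L] [AdmissibleAbsValues L] (P : A.Pts L)
    (a b : L) : nd.gn κ P a b = nd.gn κ P b a := by
  unfold Noe.gn
  simp only [max_comm]

theorem gnA_FS {K : Type u} [Field K] [NumberField K] {N : ℕ} {A : AV K N} {n e : ℕ}
    (nd : Noe A n e) (κ : SC K) (P : A.Pts K) (a b : K) :
    open Classical in
    FS fun v : AbsoluteValue K ℝ =>
      if nd.In κ v P then - Real.log (min 1 (max (v a) (v b))) else 0 := by
  classical
  by_cases h : a = 0 ∧ b = 0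
  · have : (fun v : AbsoluteValue K ℝ =>
        if nd.In κ v P then - Real.log (min 1 (max (v a) (v b))) else 0) = fun _ => 0 := by
      funext v
      rw [h.1, h.2, map_zero, max_self, min_eq_right zero_le_one, Real.log_zero, neg_zero, ite_self]
    rw [this]
    unfold FS
    simp
  · have key : ∀ c : K, c ≠ 0 → (c = a ∨ c = b) → FS fun v : AbsoluteValue K ℝ =>
        if nd.In κ v P then - Real.log (min 1 (max (v a) (v b))) else 0 := by
      intro c hc hc'
      have h1 := FS_log_abv hc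
      unfold FS at h1 ⊢
      refine h1.subset fun v hv => ?_
      intro h2
      apply hv
      have h3 : v.val c = 1 := by
        have h4 : 0 < v.val c := v.val.pos hc
        exact Real.eq_one_of_pos_of_log_eq_zero h4 h2
      have h5 : 1 ≤ max (v.val a) (v.val b) := by
        rcases hc' with rfl | rfl
        · rw [h3]
          exact le_max_left _ _
        · rw [h3]
          exact le_max_right _ _
      show (if nd.In κ v.val P then - Real.log (min 1 (max (v.val a) (v.val b))) else 0) = 0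
      rw [min_eq_left h5, Real.log_one, neg_zero, ite_self]
    by_cases ha : a = 0
    · exact key b (fun hb => h ⟨ha, hb⟩) (Or.inr rfl)
    · exact key a ha (Or.inl rfl)

theorem FA2_add {K : Type*} [Field K] (v : AbsoluteValue K ℝ) (x y : K) {B : ℝ}
    (hx : v x ≤ B) (hy : v y ≤ B) : v (x + y) ≤ cst v 2 * B := by
  by_cases hv : IsNonarchimedean v
  · have h1 : cst v 2 = 1 := by
      unfold cst
      rw [if_pos hv]
    rw [h1, one_mul]
    exact (hv x y).trans (max_le hx hy)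
  · have h1 : cst v 2 = 2 := by
      unfold cst
      rw [if_neg hv]
      norm_num
    rw [h1]
    have := v.add_le x y
    linarith

theorem FA2_eval {K : Type*} [Field K] (v : AbsoluteValue K ℝ) {n : ℕ} (s : Fin n → K) {B : ℝ}
    (hB : 1 ≤ B) (hs : ∀ t, v (s t) ≤ B) (D : ℕ) (F : MvPolynomial (Fin n) K)
    (hF : ∀ t, F.degreeOf t ≤ D) : v (eval s F) ≤ max 1 (NV v F) * B ^ (n * D) := by
  have h1 : v (eval s F) ≤ NV v F * ∏ t, (max 1 (v (s t))) ^ D :=
    (SN_self v).aeval_le F (fun _ => D) hF s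
  have h2 : ∏ t, (max 1 (v (s t))) ^ D ≤ B ^ (n * D) := by
    have h3 : ∏ t, (max 1 (v (s t))) ^ D ≤ ∏ _t : Fin n, B ^ D :=
      Finset.prod_le_prod (fun t _ => pow_nonneg (zero_le_one.trans (le_max_left _ _)) _)
        fun t _ => pow_le_pow_left₀ (zero_le_one.trans (le_max_left _ _)) (max_le hB (hs t)) D
    rw [Finset.prod_const, Finset.card_univ, Fintype.card_fin, ← pow_mul, mul_comm D n] at h3
    exact h3
  have h0 : 0 ≤ ∏ t, (max 1 (v (s t))) ^ D :=
    Finset.prod_nonneg fun t _ => pow_nonneg (zero_le_one.trans (le_max_left _ _)) _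
  refine h1.trans (mul_le_mul (le_max_right _ _) h2 h0 (zero_le_one.trans (le_max_left _ _)))

theorem FA2_s {K : Type u} [Field K] {N : ℕ} {A : AV K N} {n e : ℕ} (nd : Noe A n e) (κ κ₁ : SC K)
    (h₁ : ∀ (L : Type u) [Field L] [Algebra K L] (v : AbsoluteValue L ℝ) (y : Fin (N + 1) → L)
      (k : Fin (n + 1)), v (lf (nd.l k) y) ≤ κ₁.k v * vm v y) (P : A.Pts K)
    (hP : lf (nd.l 0) (A.x P) ≠ 0) (v : AbsoluteValue K ℝ) (hv : nd.In κ v P) (t : Fin n) :
    v (nd.s P t) ≤ (κ₁.mul κ).k v := by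
  have h0 : 0 < v (lf (nd.l 0) (A.x P)) := v.pos hP
  have h2 : vm v (A.x P) ≤ κ.k v * v (lf (nd.l 0) (A.x P)) := vm_le v hv
  have h3 := h₁ K v (A.x P) t.succ
  show v (lf (nd.l t.succ) (A.x P) / lf (nd.l 0) (A.x P)) ≤ _
  rw [map_div₀, div_le_iff₀ h0]
  calc v (lf (nd.l t.succ) (A.x P)) ≤ κ₁.k v * vm v (A.x P) := h3
    _ ≤ κ₁.k v * (κ.k v * v (lf (nd.l 0) (A.x P))) := mul_le_mul_of_nonneg_left h2 (κ₁.pos v).le
    _ = κ₁.k v * κ.k v * v (lf (nd.l 0) (A.x P)) := by ring
    _ ≤ (κ₁.mul κ).k v * v (lf (nd.l 0) (A.x P)) :=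
        mul_le_mul_of_nonneg_right (κ₁.mul_le κ v) h0.le

/-- Combinations with polynomial coefficients of bounded degree do not lose much gain. -/
theorem gnA_poly {K : Type u} [Field K] [NumberField K] {N : ℕ} {A : AV K N} {n e : ℕ}
    (nd : Noe A n e) (κ : SC K) (D : ℕ) :
    ∃ C₀ : ℝ, 0 ≤ C₀ ∧ ∀ (P : A.Pts K), lf (nd.l 0) (A.x P) ≠ 0 →
      ∀ F G F' G' : MvPolynomial (Fin n) K, (∀ t, F.degreeOf t ≤ D) → (∀ t, G.degreeOf t ≤ D) →
      (∀ t, F'.degreeOf t ≤ D) → (∀ t, G'.degreeOf t ≤ D) →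
      ∀ a b a' b' : K, a' = eval (nd.s P) F * a + eval (nd.s P) G * b →
      b' = eval (nd.s P) F' * a + eval (nd.s P) G' * b → (a' ≠ 0 ∨ b' ≠ 0) →
      nd.gn κ P a b ≤ nd.gn κ P a' b' + (nh1 F + nh1 G + nh1 F' + nh1 G' + C₀) := by
  obtain ⟨κ₁, h₁⟩ := lf_upper.{u, u} nd.l
  obtain ⟨CE, hCE, hE⟩ := (κ₁.mul κ).gs_log_le
  refine ⟨((n * D : ℕ) : ℝ) * (CE * Module.finrank ℚ K) +
    totalWeight K * Real.log ((2 : ℕ) : ℝ), by positivity, ?_⟩
  intro P hP A B A' B' dA dB dA' dB' a b a' b' ha hb h0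
  have hφ : ∀ c d : K, ∃ φ : AbsoluteValue K ℝ → ℝ, FS φ ∧ gs φ = nd.gn κ P c d ∧
      (∀ v, nd.In κ v P → φ v = - Real.log (min 1 (max (v c) (v d)))) ∧
      ∀ v, ¬ nd.In κ v P → φ v = 0 := fun c d =>
    ⟨_, gnA_FS nd κ P c d, rfl, fun v h => if_pos h, fun v h => if_neg h⟩
  obtain ⟨φ, hφ1, hφ2, hφ3, hφ4⟩ := hφ a b
  obtain ⟨φ', f1, hφ2', hφ3', hφ4'⟩ := hφ a' b'
  have fA := FS_nh1 A
  have fB := FS_nh1 B
  have fA' := FS_nh1 A'
  have fB' := FS_nh1 B'
  have f2 := FS_log_cst (L := K) 2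
  have fE := FS_const_mul ((n * D : ℕ) : ℝ) ((κ₁.mul κ).FS_log K)
  have h1 : gs φ ≤ gs fun v : AbsoluteValue K ℝ => φ' v +
      (Real.log (max 1 (NV v A)) + Real.log (max 1 (NV v B)) + Real.log (max 1 (NV v A')) +
        Real.log (max 1 (NV v B')) + ((n * D : ℕ) : ℝ) * Real.log ((κ₁.mul κ).k v) +
          Real.log (cst v 2)) := by
    refine gs_le hφ1
      (FS_add f1 (FS_add (FS_add (FS_add (FS_add (FS_add fA fB) fA') fB') fE) f2)) fun v _ => ?_
    have c1 : (1 : ℝ) ≤ max 1 (NV v A) := le_max_left _ _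
    have c2 : (1 : ℝ) ≤ max 1 (NV v B) := le_max_left _ _
    have c3 : (1 : ℝ) ≤ max 1 (NV v A') := le_max_left _ _
    have c4 : (1 : ℝ) ≤ max 1 (NV v B') := le_max_left _ _
    have c5 : (1 : ℝ) ≤ cst v 2 := one_le_cst v (by norm_num)
    obtain ⟨T, hT⟩ : ∃ T : ℝ, T = (κ₁.mul κ).k v := ⟨_, rfl⟩
    have hT1 : 1 ≤ T := by rw [hT]; exact (κ₁.mul κ).one_le v
    have c6 : (1 : ℝ) ≤ T ^ (n * D) := one_le_pow₀ hT1
    have c60 : (0 : ℝ) < T ^ (n * D) := one_pos.trans_le c6
    obtain ⟨C, hC⟩ : ∃ C : ℝ, C = max 1 (NV v A) * max 1 (NV v B) * max 1 (NV v A') *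
      max 1 (NV v B') * T ^ (n * D) * cst v 2 := ⟨_, rfl⟩
    have hlog : Real.log (max 1 (NV v A)) + Real.log (max 1 (NV v B)) +
        Real.log (max 1 (NV v A')) + Real.log (max 1 (NV v B')) +
        ((n * D : ℕ) : ℝ) * Real.log T + Real.log (cst v 2) =
        Real.log C := by
      rw [hC, Real.log_mul (by positivity) (by positivity),
        Real.log_mul (by positivity) (by positivity),
        Real.log_mul (by positivity) (by positivity),
        Real.log_mul (by positivity) (by positivity), Real.log_mul (by positivity) (by positivity),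
        Real.log_pow]
    have c12 : 1 ≤ max 1 (NV v A) * max 1 (NV v B) := one_le_mul_of_one_le_of_one_le c1 c2
    have c34 : 1 ≤ max 1 (NV v A') * max 1 (NV v B') := one_le_mul_of_one_le_of_one_le c3 c4
    obtain ⟨E, hE⟩ : ∃ E : ℝ, E = max 1 (NV v A) * max 1 (NV v B) * (max 1 (NV v A') *
      max 1 (NV v B')) := ⟨_, rfl⟩
    have hCE : C = cst v 2 * (E * T ^ (n * D)) := by rw [hC, hE]; ring
    have hE1 : 1 ≤ E := by rw [hE]; exact one_le_mul_of_one_le_of_one_le c12 c34
    have hC1 : 1 ≤ C := by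
      rw [hCE]
      exact one_le_mul_of_one_le_of_one_le c5 (one_le_mul_of_one_le_of_one_le hE1 c6)
    have eA : max 1 (NV v A) ≤ E := by
      rw [hE]
      calc max 1 (NV v A) = max 1 (NV v A) * 1 * (1 * 1) := by ring
        _ ≤ _ := by gcongr
    have eB : max 1 (NV v B) ≤ E := by
      rw [hE]
      calc max 1 (NV v B) = 1 * max 1 (NV v B) * (1 * 1) := by ring
        _ ≤ _ := by gcongr
    have eA' : max 1 (NV v A') ≤ E := by
      rw [hE]
      calc max 1 (NV v A') = 1 * 1 * (max 1 (NV v A') * 1) := by ring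
        _ ≤ _ := by gcongr
    have eB' : max 1 (NV v B') ≤ E := by
      rw [hE]
      calc max 1 (NV v B') = 1 * 1 * (1 * max 1 (NV v B')) := by ring
        _ ≤ _ := by gcongr
    rw [← hT, hlog]
    by_cases hs : nd.In κ v P
    · rw [hφ3 v hs, hφ3' v hs]
      have hsT : ∀ t, v (nd.s P t) ≤ T := fun t => by
        rw [hT]
        exact FA2_s nd κ κ₁ h₁ P hP v hs t
      have hET0 : 0 ≤ E * T ^ (n * D) := mul_nonneg (zero_le_one.trans hE1) c60.le
      have hM : 0 ≤ max (v a) (v b) := le_max_of_le_left (v.nonneg _)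
      have key : ∀ F G : MvPolynomial (Fin n) K, (∀ t, F.degreeOf t ≤ D) →
          (∀ t, G.degreeOf t ≤ D) → max 1 (NV v F) ≤ E → max 1 (NV v G) ≤ E →
          v (eval (nd.s P) F * a + eval (nd.s P) G * b) ≤ C * max (v a) (v b) := by
        intro F G dF dG hF hG
        rw [hCE, mul_assoc]
        refine FA2_add v _ _ ?_ ?_
        · rw [map_mul]
          exact mul_le_mul ((FA2_eval v _ hT1 hsT D F dF).trans
            (mul_le_mul_of_nonneg_right hF c60.le)) (le_max_left _ _) (v.nonneg _) hET0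
        · rw [map_mul]
          exact mul_le_mul ((FA2_eval v _ hT1 hsT D G dG).trans
            (mul_le_mul_of_nonneg_right hG c60.le)) (le_max_right _ _) (v.nonneg _) hET0
      have k1 : max (v a') (v b') ≤ C * max (v a) (v b) := by
        refine max_le ?_ ?_
        · rw [ha]
          exact key A B dA dB eA eB
        · rw [hb]
          exact key A' B' dA' dB' eA' eB'
      have k2 : 0 < max (v a') (v b') := by
        rcases h0 with h | h
        · exact lt_max_of_lt_left (v.pos h)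
        · exact lt_max_of_lt_right (v.pos h)
      have k3 : 0 < max (v a) (v b) := by
        by_contra hc
        have h3 : max (v a) (v b) = 0 := le_antisymm (not_lt.mp hc) hM
        rw [h3, mul_zero] at k1
        linarith
      have k4 : min 1 (max (v a') (v b')) ≤ C * min 1 (max (v a) (v b)) := by
        rw [mul_min_of_nonneg _ _ (zero_le_one.trans hC1), mul_one]
        exact min_le_min hC1 k1
      have k5 := Real.log_le_log (lt_min one_pos k2) k4
      rw [Real.log_mul (by linarith) (lt_min one_pos k3).ne'] at k5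
      linarith
    · rw [hφ4 v hs, hφ4' v hs, zero_add]
      exact Real.log_nonneg hC1
  rw [gs_add f1 (FS_add (FS_add (FS_add (FS_add (FS_add fA fB) fA') fB') fE) f2),
    gs_add (FS_add (FS_add (FS_add (FS_add fA fB) fA') fB') fE) f2,
    gs_add (FS_add (FS_add (FS_add fA fB) fA') fB') fE, gs_add (FS_add (FS_add fA fB) fA') fB',
    gs_add (FS_add fA fB) fA', gs_add fA fB, gs_const_mul, hφ2, hφ2'] at h1
  have h2 := gs_log_cst (L := K) (n := 2) (by norm_num)
  have h3 : ((n * D : ℕ) : ℝ) * gs (fun v : AbsoluteValue K ℝ => Real.log ((κ₁.mul κ).k v)) ≤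
      ((n * D : ℕ) : ℝ) * (CE * Module.finrank ℚ K) :=
    mul_le_mul_of_nonneg_left (hE K) (Nat.cast_nonneg _)
  refine h1.trans ?_
  show nd.gn κ P a' b' + (nh1 A + nh1 B + nh1 A' + nh1 B' + _ + _) ≤ _
  linarith

end Pool.Agent.Lib.MP_17a322_nt.VA
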