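import Pool.Agent.Lib.MP_17a322_nt.VA.AV

/-!
Points and vectors.
-/

universe u

namespace Pool.Agent.Lib.MP_17a322_nt.VA

open MvPolynomial

section

variable {K : Type u} [Field K] {N : ℕ} (A : AV K N)

/-- `P'` is the image of `P`. -/
def AV.Img {L L' : Type u} [Field L] [Algebra K L] [Field L'] [Algebra K L'] (φ : L →ₐ[K] L')
    (P : A.Pts L) (P' : A.Pts L') : Prop :=
  ∃ c : L', c ≠ 0 ∧ ∀ i, φ (A.x P i) = c * A.x P' i

theorem Z_img_iff {L L' : Type u} [Field L] [Algebra K L] [Field L'] [Algebra K L']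
    (φ : L →ₐ[K] L') (P : A.Pts L) (P' : A.Pts L') : A.Img φ P P' ↔ IsImg φ P P' := Iff.rfl

theorem Z_x_ne {L : Type u} [Field L] [Algebra K L] (P : A.Pts L) : A.x P ≠ 0 :=
  P.1.rep_nonzero

theorem Z_x_isPt {L : Type u} [Field L] [Algebra K L] (P : A.Pts L) : A.IsPt (A.x P) :=
  P.2

/-- The ideal is homogeneous, so that multiples of points are points. -/
theorem Z_isPt_smul {R : Type u} [CommRing R] [Algebra K R] {y : Fin (N + 1) → R} (hy : A.IsPt y)
    (c : R) : A.IsPt fun i => c * y i := by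
  intro f hf
  have h1 : f = ∑ d ∈ Finset.range (f.totalDegree + 1), homogeneousComponent d f :=
    (sum_homogeneousComponent f).symm
  rw [h1, map_sum]
  refine Finset.sum_eq_zero fun d _ => ?_
  have h2 : aeval (fun i => c * y i) (homogeneousComponent d f) =
      c ^ d * aeval y (homogeneousComponent d f) := by
    have h3 : (homogeneousComponent d f).IsHomogeneous d := homogeneousComponent_isHomogeneous d f
    rw [aeval_def, aeval_def, eval₂_eq', eval₂_eq', Finset.mul_sum]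
    refine Finset.sum_congr rfl fun m hm => ?_
    have h4 : ∑ i, m i = d := by
      have h5 := h3 (mem_support_iff.1 hm)
      rw [← h5, Finsupp.weight_apply, Finsupp.sum_fintype]
      · simp
      · intro i
        simp
    simp_rw [mul_pow]
    rw [Finset.prod_mul_distrib, Finset.prod_pow_eq_pow_sum, h4]
    ring
  rw [h2, hy _ (A.homog f hf d), mul_zero]

/-- Homogeneity of the forms `S a b`. -/
theorem Z_S_smul {R : Type u} [CommRing R] [Algebra K R] (y z : Fin (N + 1) → R) (c d : R)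
    (a b : Fin (N + 1)) : aeval (Sum.elim (fun i => c * y i) fun i => d * z i) (A.S a b) =
      c ^ 2 * d ^ 2 * aeval (Sum.elim y z) (A.S a b) := by
  rw [aeval_def, aeval_def, eval₂_eq', eval₂_eq', Finset.mul_sum]
  refine Finset.sum_congr rfl fun m hm => ?_
  obtain ⟨h1, h2⟩ := A.bihomog a b m hm
  rw [Fintype.prod_sum_type, Fintype.prod_sum_type]
  simp only [Sum.elim_inl, Sum.elim_inr]
  simp_rw [mul_pow]
  rw [Finset.prod_mul_distrib, Finset.prod_mul_distrib, Finset.prod_pow_eq_pow_sum,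
    Finset.prod_pow_eq_pow_sum, h1, h2]
  ring

theorem Z_exists_pt {L : Type u} [Field L] [Algebra K L] {y : Fin (N + 1) → L} (h0 : y ≠ 0)
    (hy : A.IsPt y) : ∃ (P : A.Pts L) (c : L), c ≠ 0 ∧ ∀ i, A.x P i = c * y i := by
  obtain ⟨c, hc⟩ := Projectivization.exists_smul_eq_mk_rep L y h0
  have h1 : (Projectivization.mk L y h0).rep = fun i => (c : L) * y i := by
    rw [← hc]
    rfl
  refine ⟨⟨Projectivization.mk L y h0, ?_⟩, c, c.ne_zero, fun i => ?_⟩
  · rw [h1]
    exact Z_isPt_smul A hy _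
  · show (Projectivization.mk L y h0).rep i = _
    rw [h1]

theorem Z_ext {L : Type u} [Field L] [Algebra K L] {P Q : A.Pts L} {c : L} (hc : c ≠ 0)
    (h : ∀ i, A.x P i = c * A.x Q i) : P = Q := by
  refine Subtype.ext ?_
  rw [← P.1.mk_rep, ← Q.1.mk_rep, Projectivization.mk_eq_mk_iff]
  refine ⟨Units.mk0 c hc, ?_⟩
  funext i
  exact (h i).symm

end

/-- Equal matrices of rank one. -/
theorem Z_rank_one {L ι : Type*} [Field L] {u v u' v' : ι → L} (hu : u ≠ 0) (hv : v ≠ 0)
    (c : L) (h : ∀ a b, u a * v b = c * (u' a * v' b)) :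
    (∃ l : L, l ≠ 0 ∧ ∀ a, u a = l * u' a) ∧ ∃ l : L, l ≠ 0 ∧ ∀ b, v b = l * v' b := by
  obtain ⟨a₀, ha₀⟩ : ∃ a, u a ≠ 0 := by
    by_contra hcon
    push Not at hcon
    exact hu (funext hcon)
  obtain ⟨b₀, hb₀⟩ : ∃ b, v b ≠ 0 := by
    by_contra hcon
    push Not at hcon
    exact hv (funext hcon)
  have h1 := h a₀ b₀
  have h2 : c * (u' a₀ * v' b₀) ≠ 0 := by
    rw [← h1]
    exact mul_ne_zero ha₀ hb₀
  have hc : c ≠ 0 := fun h3 => h2 (by rw [h3, zero_mul])
  have hu' : u' a₀ ≠ 0 := fun h3 => h2 (by rw [h3, zero_mul, mul_zero])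
  have hv' : v' b₀ ≠ 0 := fun h3 => h2 (by rw [h3, mul_zero, mul_zero])
  refine ⟨⟨c * v' b₀ / v b₀, div_ne_zero (mul_ne_zero hc hv') hb₀, fun a => ?_⟩,
    ⟨c * u' a₀ / u a₀, div_ne_zero (mul_ne_zero hc hu') ha₀, fun b => ?_⟩⟩
  · have h3 := h a b₀
    field_simp
    linear_combination h3
  · have h3 := h a₀ b
    field_simp
    linear_combination h3

end Pool.Agent.Lib.MP_17a322_nt.VA
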