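import Pool.Agent.Lib.MP_17a322_nt.VN.F3
import Pool.Agent.Lib.MP_17a322_nt.VA.Defs
import Pool.Agent.Lib.MP_17a322_nt.VA.Z0
import Pool.Agent.Lib.MP_17a322_nt.VA.A5b

/-!
Germs of the matrices of the invariant vector fields.
-/

universe u

namespace Pool.Agent.Lib.MP_17a322_nt.VA

open MvPolynomial Height Filter
open Pool.Agent.Lib.MP_17a322_nt.RO
open Pool.Agent.Lib.MP_17a322_nt.VJ
open Pool.Agent.Lib.MP_17a322_nt.VN hiding lf

section

variable {K : Type u} [Field K]

/-- The ring of sequences maps to the field of germs. -/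
noncomputable def gA (K : Type u) [Field K] : (ℕ → K) →ₐ[K] GK K where
  toRingHom := gR K
  commutes' c := by
    rw [algebraMap_GK]
    rfl

theorem gA_apply (a : ℕ → K) : gA K a = gm a := rfl

theorem gm_aeval {σ : Type*} (f : MvPolynomial σ K) (y : ℕ → σ → K) :
    gm (fun i => aeval (y i) f) = aeval (fun t => gm fun i => y i t) f := by
  have h1 : (gA K).comp (aeval fun t i => y i t : MvPolynomial σ K →ₐ[K] (ℕ → K)) =
      aeval fun t => gm fun i => y i t := by
    apply MvPolynomial.algHom_ext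
    intro t
    rw [AlgHom.comp_apply, aeval_X, aeval_X, gA_apply]
  have h2 : (aeval (fun t i => y i t) f : ℕ → K) = fun i => aeval (y i) f := by
    funext i
    have h3 : (Pi.evalAlgHom K (fun _ : ℕ => K) i).comp
        (aeval fun t i => y i t : MvPolynomial σ K →ₐ[K] (ℕ → K)) = aeval (y i) := by
      apply MvPolynomial.algHom_ext
      intro t
      rw [AlgHom.comp_apply, aeval_X, aeval_X]
      rfl
    exact congrArg (fun φ => φ f) h3
  rw [← h1, AlgHom.comp_apply, h2, gA_apply]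

variable {R R' : Type u} [CommRing R] [Algebra K R] [CommRing R'] [Algebra K R']

/-- Dual numbers are functorial. -/
noncomputable def dm (φ : R →ₐ[K] R') : DualNumber R →ₐ[K] DualNumber R' where
  toFun x := TrivSqZeroExt.inl (φ x.fst) + TrivSqZeroExt.inr (φ x.snd)
  map_one' := by
    ext <;> simp
  map_mul' x y := by
    ext
    · simp
    · simp
  map_zero' := by
    ext <;> simp
  map_add' x y := by
    ext <;> simp
  commutes' c := by
    ext
    · simp [TrivSqZeroExt.algebraMap_eq_inl']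
    · simp [TrivSqZeroExt.algebraMap_eq_inl']

theorem dm_inl (φ : R →ₐ[K] R') (x : R) :
    dm φ (TrivSqZeroExt.inl x) = TrivSqZeroExt.inl (φ x) := by
  show TrivSqZeroExt.inl (φ (TrivSqZeroExt.inl x : DualNumber R).fst) +
    TrivSqZeroExt.inr (φ (TrivSqZeroExt.inl x : DualNumber R).snd) = _
  rw [TrivSqZeroExt.fst_inl, TrivSqZeroExt.snd_inl, map_zero, TrivSqZeroExt.inr_zero, add_zero]

theorem dm_inr (φ : R →ₐ[K] R') (x : R) :
    dm φ (TrivSqZeroExt.inr x) = TrivSqZeroExt.inr (φ x) := by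
  show TrivSqZeroExt.inl (φ (TrivSqZeroExt.inr x : DualNumber R).fst) +
    TrivSqZeroExt.inr (φ (TrivSqZeroExt.inr x : DualNumber R).snd) = _
  rw [TrivSqZeroExt.fst_inr, TrivSqZeroExt.snd_inr, map_zero, TrivSqZeroExt.inl_zero, zero_add]

theorem dm_fst (φ : R →ₐ[K] R') (x : DualNumber R) : (dm φ x).fst = φ x.fst := by
  show (TrivSqZeroExt.inl (φ x.fst) + TrivSqZeroExt.inr (φ x.snd) : DualNumber R').fst = _
  simp

theorem dm_snd (φ : R →ₐ[K] R') (x : DualNumber R) : (dm φ x).snd = φ x.snd := by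
  show (TrivSqZeroExt.inl (φ x.fst) + TrivSqZeroExt.inr (φ x.snd) : DualNumber R').snd = _
  simp

variable {N : ℕ} {A : AV K N} {n e : ℕ} (nd : Noe A n e)

/-- The translate of the tangent vector `t` at the origin. -/
noncomputable def DT (A : AV K N) (o t : Fin (N + 1) → K) (y : Fin (N + 1) → R)
    (c' b : Fin (N + 1)) : DualNumber R :=
  aeval (Sum.elim (fun i => TrivSqZeroExt.inl (y i)) fun i =>
    TrivSqZeroExt.inl (algebraMap K R (o i)) + TrivSqZeroExt.inr (algebraMap K R (t i)))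
    (A.S b c')

/-- `IsDS` for vectors over rings. -/
def Noe.DSv (o : Fin (N + 1) → K) (t : Fin n → Fin (N + 1) → K) (y : Fin (N + 1) → R)
    (s : Fin n → R) (M : Matrix (Fin n) (Fin n) R) : Prop :=
  ∀ (a : Fin n) (c' : Fin (N + 1)) (k : Fin n),
    lf (nd.l k.succ) (DT A o (t a) y c') =
      (TrivSqZeroExt.inl (s k) + TrivSqZeroExt.inr (M k a)) * lf (nd.l 0) (DT A o (t a) y c')

theorem Noe.isDS_iff {L : Type u} [Field L] [Algebra K L] (o : Fin (N + 1) → K)
    (t : Fin n → Fin (N + 1) → K) (P : A.Pts L) (M : Matrix (Fin n) (Fin n) L) :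
    nd.IsDS o t P M ↔ nd.DSv o t (A.x P) (nd.s P) M := Iff.rfl

theorem DT_map (φ : R →ₐ[K] R') (o t : Fin (N + 1) → K) (y : Fin (N + 1) → R)
    (c' b : Fin (N + 1)) : dm φ (DT A o t y c' b) = DT A o t (fun i => φ (y i)) c' b := by
  rw [DT, DT]
  have h : (dm φ).comp (aeval (Sum.elim (fun i => TrivSqZeroExt.inl (y i)) fun i =>
      TrivSqZeroExt.inl (algebraMap K R (o i)) + TrivSqZeroExt.inr (algebraMap K R (t i)))) =
      aeval (Sum.elim (fun i => TrivSqZeroExt.inl (φ (y i))) fun i =>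
        TrivSqZeroExt.inl (algebraMap K R' (o i)) + TrivSqZeroExt.inr (algebraMap K R' (t i))) := by
    apply MvPolynomial.algHom_ext
    rintro (i | i)
    · rw [AlgHom.comp_apply, aeval_X, aeval_X, Sum.elim_inl, Sum.elim_inl, dm_inl]
    · rw [AlgHom.comp_apply, aeval_X, aeval_X, Sum.elim_inr, Sum.elim_inr, map_add, dm_inl, dm_inr,
        AlgHom.commutes, AlgHom.commutes]
  exact congrArg (fun ψ => ψ (A.S b c')) h

theorem DT_smul (o t : Fin (N + 1) → K) (c : R) (y : Fin (N + 1) → R) (c' : Fin (N + 1)) :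
    DT A o t (fun i => c * y i) c' = fun b => TrivSqZeroExt.inl (c ^ 2) * DT A o t y c' b := by
  funext b
  rw [DT, DT]
  have h := Z_S_smul A (R := DualNumber R) (fun i => TrivSqZeroExt.inl (y i)) (fun i =>
    TrivSqZeroExt.inl (algebraMap K R (o i)) + TrivSqZeroExt.inr (algebraMap K R (t i)))
    (TrivSqZeroExt.inl c) 1 b c'
  simp only [one_mul, one_pow, mul_one] at h
  have h1 : ∀ i, (TrivSqZeroExt.inl (c * y i) : DualNumber R) =
      TrivSqZeroExt.inl c * TrivSqZeroExt.inl (y i) := fun i => by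
    rw [TrivSqZeroExt.inl_mul]
  simp only [h1]
  rw [h, ← TrivSqZeroExt.inl_pow]

theorem Noe.DSv.smul {o : Fin (N + 1) → K} {t : Fin n → Fin (N + 1) → K} {y : Fin (N + 1) → R}
    {s : Fin n → R} {M : Matrix (Fin n) (Fin n) R} (h : nd.DSv o t y s M) (c : R) :
    nd.DSv o t (fun i => c * y i) s M := by
  intro a c' k
  rw [DT_smul, lf_smul, lf_smul, h a c' k]
  ring

theorem Noe.DSv.map {o : Fin (N + 1) → K} {t : Fin n → Fin (N + 1) → K} {y : Fin (N + 1) → R}
    {s : Fin n → R} {M : Matrix (Fin n) (Fin n) R} (h : nd.DSv o t y s M) (φ : R →ₐ[K] R') :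
    nd.DSv o t (fun i => φ (y i)) (fun k => φ (s k)) (M.map φ) := by
  intro a c' k
  have h1 := congrArg (dm φ) (h a c' k)
  rw [map_mul, lf_map, lf_map, map_add, dm_inl, dm_inr] at h1
  simp only [DT_map] at h1
  exact h1

/-- The equation of `DSv`. -/
noncomputable def Noe.DE (o : Fin (N + 1) → K) (t : Fin n → Fin (N + 1) → K) (y : Fin (N + 1) → R)
    (s : Fin n → R) (M : Matrix (Fin n) (Fin n) R) (a : Fin n) (c' : Fin (N + 1)) (k : Fin n) :
    DualNumber R :=
  lf (nd.l k.succ) (DT A o (t a) y c') -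
    (TrivSqZeroExt.inl (s k) + TrivSqZeroExt.inr (M k a)) * lf (nd.l 0) (DT A o (t a) y c')

theorem Noe.DSv_iff {o : Fin (N + 1) → K} {t : Fin n → Fin (N + 1) → K} {y : Fin (N + 1) → R}
    {s : Fin n → R} {M : Matrix (Fin n) (Fin n) R} :
    nd.DSv o t y s M ↔ ∀ a c' k, (nd.DE o t y s M a c' k).fst = 0 ∧
      (nd.DE o t y s M a c' k).snd = 0 := by
  constructor
  · intro h a c' k
    have h1 : nd.DE o t y s M a c' k = 0 := by rw [Noe.DE, h a c' k, sub_self]
    rw [h1]
    exact ⟨rfl, rfl⟩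
  · intro h a c' k
    have h1 : nd.DE o t y s M a c' k = 0 := TrivSqZeroExt.ext (h a c' k).1 (h a c' k).2
    rwa [Noe.DE, sub_eq_zero] at h1

theorem Noe.DE_map (φ : R →ₐ[K] R') (o : Fin (N + 1) → K) (t : Fin n → Fin (N + 1) → K)
    (y : Fin (N + 1) → R) (s : Fin n → R) (M : Matrix (Fin n) (Fin n) R) (a : Fin n)
    (c' : Fin (N + 1)) (k : Fin n) : dm φ (nd.DE o t y s M a c' k) =
      nd.DE o t (fun i => φ (y i)) (fun k => φ (s k)) (M.map φ) a c' k := by
  rw [Noe.DE, Noe.DE, map_sub, map_mul, lf_map, lf_map, map_add, dm_inl, dm_inr]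
  simp only [DT_map]
  rfl

theorem Noe.DSv_map_iff (φ : R →ₐ[K] R') {o : Fin (N + 1) → K} {t : Fin n → Fin (N + 1) → K}
    {y : Fin (N + 1) → R} {s : Fin n → R} {M : Matrix (Fin n) (Fin n) R} :
    nd.DSv o t (fun i => φ (y i)) (fun k => φ (s k)) (M.map φ) ↔
      ∀ a c' k, φ (nd.DE o t y s M a c' k).fst = 0 ∧ φ (nd.DE o t y s M a c' k).snd = 0 := by
  rw [Noe.DSv_iff]
  simp only [← Noe.DE_map, dm_fst, dm_snd]

/-- The members of the sequence satisfy what the germ satisfies. -/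
theorem Noe.DSv_germ {o : Fin (N + 1) → K} {t : Fin n → Fin (N + 1) → K}
    {y : ℕ → Fin (N + 1) → K} {s : ℕ → Fin n → K} {M : ℕ → Matrix (Fin n) (Fin n) K}
    (h : nd.DSv o t (fun b => gm fun i => y i b) (fun k => gm fun i => s i k)
      (Matrix.of fun k a => gm fun i => M i k a)) :
    ∀ᶠ i in (hyperfilter ℕ : Filter ℕ), nd.DSv o t (y i) (s i) (M i) := by
  have h1 := (nd.DSv_map_iff (gA K) (o := o) (t := t) (y := fun b i => y i b)
    (s := fun k i => s i k) (M := Matrix.of fun k a => fun i => M i k a)).1 h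
  have h2 : ∀ᶠ i in (hyperfilter ℕ : Filter ℕ), ∀ a c' k,
      (nd.DE o t (fun b i => y i b) (fun k i => s i k)
        (Matrix.of fun k a => fun i => M i k a) a c' k).fst i = 0 ∧
      (nd.DE o t (fun b i => y i b) (fun k i => s i k)
        (Matrix.of fun k a => fun i => M i k a) a c' k).snd i = 0 := by
    rw [eventually_all]
    intro a
    rw [eventually_all]
    intro c'
    rw [eventually_all]
    intro k
    have h3 := (h1 a c' k).1
    have h4 := (h1 a c' k).2
    rw [gA_apply, gm_eq_zero_iff] at h3 h4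
    exact h3.and h4
  filter_upwards [h2] with i h3
  exact (nd.DSv_map_iff (Pi.evalAlgHom K (fun _ : ℕ => K) i) (o := o) (t := t)
    (y := fun b i => y i b) (s := fun k i => s i k)
    (M := Matrix.of fun k a => fun i => M i k a)).2 h3

end

end Pool.Agent.Lib.MP_17a322_nt.VA
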