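import Pool.Agent.Lib.MP_17a322_nt.VA.Z6
import Pool.Agent.Lib.MP_17a322_nt.VA.F4

/-!
Noether coordinates and goodness for a germ of points.
-/

universe u

namespace Pool.Agent.Lib.MP_17a322_nt.VA

open MvPolynomial Height Filter
open Pool.Agent.Lib.MP_17a322_nt.RO
open Pool.Agent.Lib.MP_17a322_nt.VJ
open Pool.Agent.Lib.MP_17a322_nt.VN hiding lf

section

variable {K : Type u} [Field K] [NumberField K] {N : ℕ} {A : AV K N} {n e : ℕ} (nd : Noe A n e)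
  {Q : ℕ → A.Pts K} {b : A.Pts (GK K)} (hb : IsGerm A Q b)

theorem FA5_lf {c : GK K} (hc : ∀ i, gm (fun ν => A.x (Q ν) i) = c * A.x b i)
    (l : Fin (N + 1) → K) : gm (fun i => lf l (A.x (Q i))) = c * lf l (A.x b) := by
  unfold lf
  rw [gm_sum, Finset.mul_sum]
  refine Finset.sum_congr rfl fun a _ => ?_
  have h1 := gm_mul (fun _ => algebraMap K K (l a)) (fun i => A.x (Q i) a)
  rw [h1, hc, algebraMap_GK]
  have h2 : gm (fun _ : ℕ => algebraMap K K (l a)) = gm fun _ => l a := rfl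
  rw [h2]
  ring

include hb

theorem s_germ (k : Fin n) : nd.s b k = gm fun i => nd.s (Q i) k := by
  obtain ⟨c, hc0, hc⟩ := hb
  have h1 : gm (fun i => nd.s (Q i) k) =
      gm (fun i => lf (nd.l k.succ) (A.x (Q i))) / gm (fun i => lf (nd.l 0) (A.x (Q i))) :=
    gm_div _ _
  rw [h1, FA5_lf hc, FA5_lf hc, mul_div_mul_left _ _ hc0]
  rfl

theorem good_germ : nd.Good b ↔ ∀ᶠ i in (hyperfilter ℕ : Filter ℕ), nd.Good (Q i) := by
  have hs : (fun k => gm fun i => nd.s (Q i) k) = nd.s b := funext fun k => (s_germ nd hb k).symm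
  obtain ⟨c, hc0, hc⟩ := hb
  have h1 : lf (nd.l 0) (A.x b) ≠ 0 ↔
      ∀ᶠ i in (hyperfilter ℕ : Filter ℕ), lf (nd.l 0) (A.x (Q i)) ≠ 0 := by
    rw [← gm_ne_zero_iff, FA5_lf hc]
    exact ⟨fun h => mul_ne_zero hc0 h, fun h => (mul_ne_zero_iff.1 h).2⟩
  have h2 : aeval (nd.s b) nd.δ ≠ 0 ↔
      ∀ᶠ i in (hyperfilter ℕ : Filter ℕ), aeval (nd.s (Q i)) nd.δ ≠ 0 := by
    rw [← gm_ne_zero_iff, gm_aeval, hs]
  show (_ ∧ _) ↔ ∀ᶠ i in (hyperfilter ℕ : Filter ℕ), (_ ∧ _)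
  rw [Filter.eventually_and, h1, h2]

end

end Pool.Agent.Lib.MP_17a322_nt.VA
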