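import Pool.Agent.Lib.MP_17a322_nt.VA.F3
import Pool.Agent.Lib.MP_17a322_nt.VA.FA2
import Pool.Agent.Lib.MP_17a322_nt.VA.FA5

/-!
Centre data for the members of the sequence.
-/

universe u

namespace Pool.Agent.Lib.MP_17a322_nt.VA

open MvPolynomial Height Filter
open Pool.Agent.Lib.MP_17a322_nt.RO
open Pool.Agent.Lib.MP_17a322_nt.VJ
open Pool.Agent.Lib.MP_17a322_nt.VN hiding lf

theorem centreA {K : Type u} [Field K] [NumberField K] {N : ℕ} {A : AV K N} {H : ℕ → ℝ}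
    {hH : Tendsto H (hyperfilter ℕ : Filter ℕ) atTop} {k e : ℕ} (nd : Noe A (k + 2) e)
    (κ : SC K) {Q : ℕ → A.Pts K} {b : A.Pts (GK K)} (hb : IsGerm A Q b)
    (hl0 : ∀ᶠ i in (hyperfilter ℕ : Filter ℕ), lf (nd.l 0) (A.x (Q i)) ≠ 0)
    (f g : MvPolynomial (Fin (k + 2)) (k0 K H hH)) (hfg : IsRelPrime f g)
    (hf0 : aeval (nd.s b) f ≠ 0 ∨ aeval (nd.s b) g ≠ 0) (a a' : ℕ → K)
    (ha : gm a = aeval (nd.s b) f) (ha' : gm a' = aeval (nd.s b) g) (ε : ℝ) (hε : 0 < ε)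
    (hgain : ∀ᶠ i in (hyperfilter ℕ : Filter ℕ), ε * H i ≤ nd.gn κ (Q i) (a i) (a' i)) :
    ∃ (e' D : ℕ) (h : ℕ → ℝ), oH H h ∧ ∀ᶠ i in (hyperfilter ℕ : Filter ℕ),
      ∃ ρ : REP K (k + 2) e', ρ.Deg D ∧ ρ.ht ≤ h i ∧
        (eval (nd.s (Q i)) (ρ.z 0) ≠ 0 ∨ eval (nd.s (Q i)) (ρ.z 1) ≠ 0) ∧
        ε / 2 * H i ≤ nd.gn κ (Q i) (eval (nd.s (Q i)) (ρ.z 0)) (eval (nd.s (Q i)) (ρ.z 1)) := by
  classical
  obtain ⟨e', ρ, hz0, hz1, hnz⟩ := REPEX2 f g hfg (nd.s b) hf0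
  obtain ⟨F, G, hFG⟩ := Ideal.mem_span_pair.mp hz0
  obtain ⟨F', G', hFG'⟩ := Ideal.mem_span_pair.mp hz1
  obtain ⟨D, h, hh, hρ⟩ := REP_transfer ρ
  have hsb : nd.s b = fun t => gm fun i => nd.s (Q i) t := funext fun t => s_germ nd hb t
  refine ⟨e', D, h, hh, ?_⟩
  -- the values of `z 0`, `z 1`
  have key : ∀ z F G : MvPolynomial (Fin (k + 2)) (k0 K H hH), F * f + G * g = z →
      ∀ᶠ i in (hyperfilter ℕ : Filter ℕ), eval (nd.s (Q i)) (pr z i) =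
        eval (nd.s (Q i)) (pr F i) * a i + eval (nd.s (Q i)) (pr G i) * a' i := by
    intro z F G hz
    rw [← gm_eq_iff, gm_add, gm_mul, gm_mul, gm_eval_pr z fun i => nd.s (Q i),
      gm_eval_pr F fun i => nd.s (Q i), gm_eval_pr G fun i => nd.s (Q i), ← hsb, ha, ha', ← hz,
      map_add, map_mul, map_mul]
  have hz : ∀ᶠ i in (hyperfilter ℕ : Filter ℕ), eval (nd.s (Q i)) (pr (ρ.z 0) i) ≠ 0 := by
    rw [hsb, ← gm_eval_pr (ρ.z 0) fun i => nd.s (Q i), gm_ne_zero_iff] at hnz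
    exact hnz
  obtain ⟨C₀, -, hC⟩ := gnA_poly nd κ
    (F.totalDegree + G.totalDegree + F'.totalDegree + G'.totalDegree)
  have hdeg : ∀ (p : MvPolynomial (Fin (k + 2)) (k0 K H hH)) (i : ℕ) (t : Fin (k + 2)),
      (pr p i).degreeOf t ≤ p.totalDegree := fun p i t =>
    (degreeOf_pr p i t).trans (degreeOf_le_totalDegree p t)
  have hsm : oH H fun i => nh1 (pr F i) + nh1 (pr G i) + nh1 (pr F' i) + nh1 (pr G' i) + C₀ :=
    ((((oH_nh1_pr F).add (oH_nh1_pr G)).add (oH_nh1_pr F')).add (oH_nh1_pr G')).add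
      (oH_const hH _)
  filter_upwards [hρ, key _ _ _ hFG, key _ _ _ hFG', hz, hsm (ε / 2) (by positivity), hgain,
    hl0] with i h1 h2 h3 h4 h5 h6 h7
  obtain ⟨ρ', g1, g2, g3⟩ := h1
  refine ⟨ρ', g2, g3, ?_, ?_⟩
  · rw [g1]
    exact Or.inl h4
  · rw [g1, g1]
    have g4 := hC (Q i) h7 (pr F i) (pr G i) (pr F' i) (pr G' i)
      (fun t => (hdeg F i t).trans (by omega)) (fun t => (hdeg G i t).trans (by omega))
      (fun t => (hdeg F' i t).trans (by omega)) (fun t => (hdeg G' i t).trans (by omega))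
      (a i) (a' i) _ _ h2 h3 (Or.inl h4)
    have g6 : ε * H i = ε / 2 * H i + ε / 2 * H i := by ring
    have g7 := h6.trans (g4.trans (add_le_add_right h5 _))
    rw [g6] at g7
    exact le_of_add_le_add_right g7

end Pool.Agent.Lib.MP_17a322_nt.VA
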