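import Pool.Agent.Lib.MP_17a322_nt.VA.C11a
import Pool.Agent.Lib.MP_17a322_nt.VA.A1
import Pool.Agent.Lib.MP_17a322_nt.VN.C11

/-!
# JOB VA C11b: the height of the matrix

PROOF. Copy `matrix_height` (VN/C11.lean) with `exists_MCA_le`: the bound of the entries at `v` is `E.k v ^ (N' * 4 ^ J) * ∏ i, (cst v (e + 1) * (ρ i).RB v) ^ (2 * (k + 2) * nd.DM * (N' * 4 ^ (J - j i)))` (`b * 4 ^ j = N' * 4 ^ J`). `E.k v = cc (E.M + 1) E.T v ^ (E.M + 1)` (`SC.k_eq`), `FS_log_cc`, `gs_log_cc_le` (VA/A1.lean) give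
`FS` and the bound of `gs (fun v => Real.log (E.k v))` (see the end of VA/A1.lean for the lemmas about `Real.log (E.k v)`).
-/

universe u

namespace Pool.Agent.Lib.MP_17a322_nt.VA

open MvPolynomial Height
open Pool.Agent.Lib.MP_17a322_nt.RO
open Pool.Agent.Lib.MP_17a322_nt.VJ
open Pool.Agent.Lib.MP_17a322_nt.VN

theorem matrix_heightA {K : Type u} [Field K] [NumberField K] {N : ℕ} {A : AV K N} {k e₀ : ℕ}
    (nd : Noe A (k + 2) e₀) (e m N' : ℕ) :
    ∃ C : ℝ, 0 ≤ C ∧ ∀ (J : ℕ) (j : Fin m → ℕ) (ρ : Fin m → REP K (k + 2) e),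
      (∀ i, j i ≤ J) → ∀ (ι : Type) [Finite ι] (x : ι → K),
      (∀ p, x p = 0 ∨ ∃ (i : Fin m) (c : Fin (N + 1)) (r' r : Fin (e₀ + 1)) (l : Fin (e + 1))
        (q β a μ : Fin (k + 2) → ℕ), (∀ t, μ t ≤ N' * 4 ^ (J - j i)) ∧
          x p = MCA nd (ρ i) (j i) (N' * 4 ^ (J - j i)) c r' r l q β a μ) →
      logHeight x ≤ C * (4 ^ J + ∑ i, 4 ^ (J - j i) * (ρ i).ht) := by
  classical
  obtain ⟨E₁, hE₁⟩ := exists_MCA_le nd
  obtain ⟨C₁, hC₁0, hC₁⟩ := E₁.gs_log_le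
  set f : ℝ := (Module.finrank ℚ K : ℝ) with hf
  have hf0 : 0 ≤ f := Nat.cast_nonneg _
  have hle0 : 0 ≤ Real.log ((e + 1 : ℕ) : ℝ) := Real.log_natCast_nonneg _
  set d : ℕ := 2 * (k + 2) * nd.DM with hd
  set A' : ℝ := N' * (C₁ * f) with hA
  set B : ℝ := m * (d * N' * (f * Real.log ((e + 1 : ℕ) : ℝ))) with hB
  set E : ℝ := d * N' with hE
  have hA0 : 0 ≤ A' := by positivity
  have hB0 : 0 ≤ B := by positivity
  have hE0 : 0 ≤ E := by positivity
  refine ⟨A' + B + E, by positivity, ?_⟩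
  intro J j ρ hj ι _ x hx
  have hht : 0 ≤ ∑ i, (4 : ℝ) ^ (J - j i) * (ρ i).ht :=
    Finset.sum_nonneg fun i _ => mul_nonneg (by positivity) (ht_nonneg (ρ i))
  have h4J : (0 : ℝ) ≤ 4 ^ J := by positivity
  by_cases hx0 : x = 0
  · rw [hx0, logHeight_zero]
    positivity
  rw [← gs_log_iSup hx0]
  let kf : AbsoluteValue K ℝ → ℝ := fun v => Real.log (E₁.k v)
  let rbf : Fin m → AbsoluteValue K ℝ → ℝ := fun i v => Real.log ((ρ i).RB v)
  let csf : AbsoluteValue K ℝ → ℝ := fun v => Real.log (cst v (e + 1))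
  have hF1 : FS (fun v : AbsoluteValue K ℝ => ((N' * 4 ^ J : ℕ) : ℝ) * kf v) :=
    FS_const_mul _ (E₁.FS_log K)
  have hF2 : ∀ i : Fin m, FS (fun v : AbsoluteValue K ℝ =>
      ((d * (N' * 4 ^ (J - j i)) : ℕ) : ℝ) * (csf v + rbf i v)) := fun i =>
    FS_const_mul _ (FS_add (FS_log_cst _) (FS_log_RB (ρ i)))
  have hF3 : FS (fun v : AbsoluteValue K ℝ => ∑ i,
      ((d * (N' * 4 ^ (J - j i)) : ℕ) : ℝ) * (csf v + rbf i v)) :=
    FS_sum _ fun i _ => hF2 i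
  refine (gs_le (FS_log_iSup hx0) (FS_add hF1 hF3) fun v _ => ?_).trans ?_
  · obtain ⟨p, hp⟩ := Function.ne_iff.mp hx0
    have : Nonempty ι := ⟨p⟩
    have hk1 : 1 ≤ E₁.k v := E₁.one_le v
    have hcr : ∀ i, 1 ≤ cst v (e + 1) * (ρ i).RB v := fun i =>
      one_le_mul_of_one_le_of_one_le (one_le_cst v (by omega)) (one_le_RB (ρ i) v)
    have hcrp : ∀ i, 1 ≤ (cst v (e + 1) * (ρ i).RB v) ^ (d * (N' * 4 ^ (J - j i))) :=
      fun i => one_le_pow₀ (hcr i)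
    have hbig : 1 ≤ E₁.k v ^ (N' * 4 ^ J) := one_le_pow₀ hk1
    have hbig2 : 1 ≤ ∏ i, (cst v (e + 1) * (ρ i).RB v) ^ (d * (N' * 4 ^ (J - j i))) :=
      E1_one_le_prod _ _ hcrp
    have hpos : 0 < ⨆ i, v (x i) :=
      (v.pos hp).trans_le (le_ciSup (f := fun i => v (x i)) (Set.finite_range _).bddAbove p)
    have hle : ⨆ i, v (x i) ≤ E₁.k v ^ (N' * 4 ^ J) *
        ∏ i, (cst v (e + 1) * (ρ i).RB v) ^ (d * (N' * 4 ^ (J - j i))) := by
      refine ciSup_le fun b => ?_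
      rcases hx b with hb | ⟨i, c, r', r, l, q, β, a, μ, hμ, hxb⟩
      · rw [hb, map_zero]
        exact mul_nonneg (zero_le_one.trans hbig) (zero_le_one.trans hbig2)
      · rw [hxb]
        refine (hE₁ v (ρ i) (j i) _ c r' r l q β a μ hμ).trans ?_
        have h1 : N' * 4 ^ (J - j i) * 4 ^ j i = N' * 4 ^ J := by
          rw [mul_assoc, ← pow_add, Nat.sub_add_cancel (hj i)]
        rw [h1]
        refine mul_le_mul_of_nonneg_left ?_ (zero_le_one.trans hbig)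
        exact E1_le_prod Finset.univ _ hcrp (Finset.mem_univ i)
    have h1 := Real.log_le_log hpos hle
    rw [Real.log_mul (zero_lt_one.trans_le hbig).ne' (zero_lt_one.trans_le hbig2).ne',
      Real.log_pow,
      Real.log_prod (fun i _ => (zero_lt_one.trans_le (hcrp i)).ne')] at h1
    refine h1.trans (le_of_eq ?_)
    refine congrArg (fun z => ((N' * 4 ^ J : ℕ) : ℝ) * Real.log (E₁.k v) + z)
      (Finset.sum_congr rfl fun i _ => ?_)
    rw [Real.log_pow, Real.log_mul (zero_lt_one.trans_le (one_le_cst v (by omega))).ne'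
      (zero_lt_one.trans_le (one_le_RB (ρ i) v)).ne']
  · rw [gs_add hF1 hF3, gs_sum _ (fun i _ => hF2 i)]
    have h2 : gs (fun v : AbsoluteValue K ℝ => ((N' * 4 ^ J : ℕ) : ℝ) * kf v) ≤ A' * 4 ^ J := by
      rw [gs_const_mul]
      refine (mul_le_mul_of_nonneg_left (hC₁ K) (Nat.cast_nonneg _)).trans (le_of_eq ?_)
      rw [hA]
      push_cast
      ring
    have h3 : ∀ i : Fin m, gs (fun v : AbsoluteValue K ℝ =>
        ((d * (N' * 4 ^ (J - j i)) : ℕ) : ℝ) * (csf v + rbf i v)) ≤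
        (d * N' * (f * Real.log ((e + 1 : ℕ) : ℝ))) * 4 ^ J +
          E * (4 ^ (J - j i) * (ρ i).ht) := by
      intro i
      rw [gs_const_mul, gs_add (FS_log_cst _) (FS_log_RB (ρ i))]
      have h4 := gs_log_cst (L := K) (n := e + 1) (by omega)
      rw [NumberField.totalWeight_eq_finrank] at h4
      have h5 : gs (rbf i) = (ρ i).ht := rfl
      have h6 : gs csf ≤ f * Real.log ((e + 1 : ℕ) : ℝ) := h4
      rw [h5]
      have h7 : ((d * (N' * 4 ^ (J - j i)) : ℕ) : ℝ) * (gs csf + (ρ i).ht) ≤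
          ((d * (N' * 4 ^ (J - j i)) : ℕ) : ℝ) *
            (f * Real.log ((e + 1 : ℕ) : ℝ) + (ρ i).ht) :=
        mul_le_mul_of_nonneg_left (add_le_add h6 le_rfl) (Nat.cast_nonneg _)
      refine h7.trans ?_
      have h8 : (4 : ℝ) ^ (J - j i) ≤ 4 ^ J :=
        pow_le_pow_right₀ (by norm_num) (Nat.sub_le _ _)
      have h9 : 0 ≤ (d : ℝ) * N' * (f * Real.log ((e + 1 : ℕ) : ℝ)) := by positivity
      have h10 := mul_le_mul_of_nonneg_left h8 h9
      have h11 : ((d * (N' * 4 ^ (J - j i)) : ℕ) : ℝ) *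
            (f * Real.log ((e + 1 : ℕ) : ℝ) + (ρ i).ht) =
          (d : ℝ) * N' * (f * Real.log ((e + 1 : ℕ) : ℝ)) * 4 ^ (J - j i) +
            E * (4 ^ (J - j i) * (ρ i).ht) := by
        rw [hE, Nat.cast_mul d, Nat.cast_mul N', Nat.cast_pow]
        push_cast
        ring
      rw [h11]
      exact add_le_add h10 le_rfl
    have h12 : ∑ i : Fin m, ((d * N' * (f * Real.log ((e + 1 : ℕ) : ℝ))) * 4 ^ J +
          E * (4 ^ (J - j i) * (ρ i).ht)) = B * 4 ^ J + E * ∑ i, 4 ^ (J - j i) * (ρ i).ht := by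
      rw [Finset.sum_add_distrib, Finset.sum_const, Finset.card_univ, Fintype.card_fin,
        nsmul_eq_mul, ← Finset.mul_sum, hB]
      ring
    have h15 := Finset.sum_le_sum fun i (_ : i ∈ Finset.univ) => h3 i
    rw [h12] at h15
    refine (add_le_add h2 h15).trans ?_
    have h16 : 0 ≤ E * 4 ^ J := mul_nonneg hE0 h4J
    have h17 : 0 ≤ (A' + B) * ∑ i, (4 : ℝ) ^ (J - j i) * (ρ i).ht :=
      mul_nonneg (add_nonneg hA0 hB0) hht
    linarith [h16, h17, mul_add (A' + B + E) ((4 : ℝ) ^ J) (∑ i, 4 ^ (J - j i) * (ρ i).ht),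
      add_mul A' B ((4 : ℝ) ^ J), add_mul (A' + B) E ((4 : ℝ) ^ J),
      add_mul (A' + B) E (∑ i, (4 : ℝ) ^ (J - j i) * (ρ i).ht)]

end Pool.Agent.Lib.MP_17a322_nt.VA
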