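import Pool.Agent.Lib.MP_17a322_nt.VA.C10
import Pool.Agent.Lib.MP_17a322_nt.VA.C11b
import Pool.Agent.Lib.MP_17a322_nt.VN.C12

/-!
# JOB VA C12: the auxiliary polynomial (Siegel's lemma)

PROOF. Copy `exists_aux` (VN/C12.lean), with `MCA`, `count_rowsA`, `matrix_heightA`, `MCA_zero` instead of `MC`, `count_rows`, `matrix_height`, `MC_zero`. Constants: `G = (N + 1) * ((e₀ + 1) * ((e₀ + 1) * (e + 1)))`, `c₁ = 2 * (k + 2) * nd.DM + 1`, `c₂ = 2 * (k + 2) * nd.DM * D`, `c = G * c₁ ^ (k + 2) * (c₂ + 1) ^ k`, `c₀ = 8 * c`,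
`N' = Nat.sqrt (2 * m * c) + 1`. Rows `α = Σ i : Fin m, Fin (N + 1) × Fin (e₀ + 1) × Fin (e₀ + 1) × Fin (e + 1) × ↥(box fun _ : Fin (k+2) => c₁ * (N' * 4 ^ J) + 1) × ↥(box (bt k (4 ^ (J - j i)) (c₂ * (N' * 4 ^ (J - j i)) + 1))) × ↥(BB fun i' => if i' = i then 1 else N' * 4 ^ (J - j i') + 1)`.
-/

universe u

namespace Pool.Agent.Lib.MP_17a322_nt.VA

open MvPolynomial Height
open Pool.Agent.Lib.MP_17a322_nt.RO
open Pool.Agent.Lib.MP_17a322_nt.VJ
open Pool.Agent.Lib.MP_17a322_nt.VN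

theorem exists_auxA {K : Type u} [Field K] [NumberField K] {N : ℕ} {A : AV K N} {k e₀ : ℕ}
    (nd : Noe A (k + 2) e₀) (e D : ℕ) :
    ∃ c₀ : ℕ, ∀ m : ℕ, 1 ≤ m → ∃ (N' : ℕ) (C : ℝ), 1 ≤ N' ∧ N' ^ 2 ≤ c₀ * m ∧ 0 ≤ C ∧
      ∀ (J : ℕ) (j : Fin m → ℕ) (ρ : Fin m → REP K (k + 2) e),
      (∀ i, j i ≤ J) → (∀ i, (ρ i).Deg D) →
      ∃ F : (Fin (k + 2) → ℕ) → (Fin m → Fin (k + 2) → ℕ) → K,
        (∃ a ν, F a ν ≠ 0) ∧
        (∀ a ν, F a ν ≠ 0 → a ∈ box (fun _ : Fin (k + 2) => N' * 4 ^ J + 1) ∧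
          ν ∈ BB (fun i : Fin m => N' * 4 ^ (J - j i) + 1)) ∧
        CCA nd ρ N' J j F ∧
        logHeight (fun p : (box (fun _ : Fin (k + 2) => N' * 4 ^ J + 1)) ×
          (BB (fun i : Fin m => N' * 4 ^ (J - j i) + 1) : Finset (Fin m → Fin (k + 2) → ℕ)) =>
            F p.1 p.2) ≤ C * (4 ^ J + ∑ i, 4 ^ (J - j i) * (ρ i).ht) := by
  classical
  obtain ⟨G, hG⟩ : ∃ G, G = (N + 1) * ((e₀ + 1) * ((e₀ + 1) * (e + 1))) := ⟨_, rfl⟩
  obtain ⟨c₁, hc₁⟩ : ∃ c₁, c₁ = 2 * (k + 2) * nd.DM + 1 := ⟨_, rfl⟩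
  obtain ⟨c₂, hc₂⟩ : ∃ c₂, c₂ = 2 * (k + 2) * nd.DM * D := ⟨_, rfl⟩
  refine ⟨8 * (G * c₁ ^ (k + 2) * (c₂ + 1) ^ k), fun m hm => ?_⟩
  obtain ⟨C1, hC1, h1⟩ := siegel K
  obtain ⟨c, hc⟩ : ∃ c, c = G * c₁ ^ (k + 2) * (c₂ + 1) ^ k := ⟨_, rfl⟩
  have hc1 : 1 ≤ c := by
    rw [hc]
    refine Nat.succ_le_of_lt (Nat.mul_pos (Nat.mul_pos ?_ ?_) ?_)
    · rw [hG]
      positivity
    · rw [hc₁]
      positivity
    · positivity
  obtain ⟨N', hNd⟩ : ∃ N', N' = Nat.sqrt (2 * m * c) + 1 := ⟨_, rfl⟩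
  obtain ⟨C2, hC2, h2⟩ := matrix_heightA nd e m N'
  have hN1 : 1 ≤ N' := by omega
  have hs1 : 1 ≤ Nat.sqrt (2 * m * c) := by
    rw [Nat.le_sqrt']
    have : 1 ≤ m * c := Nat.one_le_iff_ne_zero.2 (Nat.mul_ne_zero (by omega) (by omega))
    nlinarith
  have hs2 : Nat.sqrt (2 * m * c) ^ 2 ≤ 2 * m * c := Nat.sqrt_le' _
  have hNle : 2 * m * (G * c₁ ^ (k + 2) * (c₂ + 1) ^ k) ≤ N' ^ 2 := by
    rw [← hc, hNd]
    exact (Nat.lt_succ_sqrt' (2 * m * c)).le
  have hNm : N' ^ 2 ≤ 8 * (G * c₁ ^ (k + 2) * (c₂ + 1) ^ k) * m := by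
    rw [← hc, hNd]
    nlinarith
  refine ⟨N', C1 + (C2 + C1 + C1 * ((k + 2) * (m + 1) * N')), hN1, hNm, by positivity,
    fun J j ρ hj hD => ?_⟩
  have hcount := count_rowsA G c₁ c₂ k m N' J j hN1 (by omega) hNle
  have hlog := log_unknowns k m N' J j
  let α := Σ i : Fin m, Fin (N + 1) × Fin (e₀ + 1) × Fin (e₀ + 1) × Fin (e + 1) ×
    (box fun _ : Fin (k + 2) => c₁ * (N' * 4 ^ J) + 1) ×
    (box (bt k (4 ^ (J - j i)) (c₂ * (N' * 4 ^ (J - j i)) + 1))) ×
    (BB (fun i' => if i' = i then 1 else N' * 4 ^ (J - j i') + 1) :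
      Finset (Fin m → Fin (k + 2) → ℕ))
  let β := (box (fun _ : Fin (k + 2) => N' * 4 ^ J + 1)) ×
    (BB (fun i : Fin m => N' * 4 ^ (J - j i) + 1) : Finset (Fin m → Fin (k + 2) → ℕ))
  have hGX : ∀ X : ℕ, (N + 1) * ((e₀ + 1) * ((e₀ + 1) * ((e + 1) * X))) = G * X := by
    intro X
    rw [hG]
    ring
  have hα : Fintype.card α = ∑ i, (G *
      ((c₁ * (N' * 4 ^ J) + 1) ^ (k + 2) *
      ((4 ^ (J - j i) * 4 ^ (J - j i) * (c₂ * (N' * 4 ^ (J - j i)) + 1) ^ k) *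
        ∏ i', (if i' = i then 1 else N' * 4 ^ (J - j i') + 1) ^ (k + 2)))) := by
    rw [Fintype.card_sigma]
    refine Finset.sum_congr rfl fun i _ => ?_
    rw [Fintype.card_prod, Fintype.card_prod, Fintype.card_prod, Fintype.card_prod,
      Fintype.card_prod, Fintype.card_prod, Fintype.card_coe, Fintype.card_coe, Fintype.card_coe,
      card_box, card_bt, card_BB, Fintype.card_fin, Fintype.card_fin, Fintype.card_fin,
      Finset.prod_const, Finset.card_univ, Fintype.card_fin]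
    exact hGX _
  have hβ : Fintype.card β = (N' * 4 ^ J + 1) ^ (k + 2) * ∏ i, (N' * 4 ^ (J - j i) + 1) ^ (k + 2) := by
    rw [Fintype.card_prod, Fintype.card_coe, Fintype.card_coe, card_box, card_BB,
      Finset.prod_const, Finset.card_univ, Fintype.card_fin]
  have hβpos : 0 < Fintype.card β := by
    rw [hβ]
    exact Nat.mul_pos (Nat.pow_pos (Nat.succ_pos _))
      (Finset.prod_pos fun i _ => Nat.pow_pos (Nat.succ_pos _))
  have h2α : 2 * Fintype.card α ≤ Fintype.card β := by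
    rw [hα, hβ]
    exact hcount
  have hlt : Fintype.card α < Fintype.card β := by omega
  obtain ⟨A, hA⟩ : ∃ A : Matrix α β K, A = fun a b =>
      if ∀ i', i' ≠ a.1 → (b.2 : Fin m → Fin (k + 2) → ℕ) i' =
          (a.2.2.2.2.2.2.2 : Fin m → Fin (k + 2) → ℕ) i' then
        MCA nd (ρ a.1) (j a.1) (N' * 4 ^ (J - j a.1)) a.2.1 a.2.2.1 a.2.2.2.1 a.2.2.2.2.1
          (a.2.2.2.2.2.1 : Fin (k + 2) → ℕ) (a.2.2.2.2.2.2.1 : Fin (k + 2) → ℕ)
          (b.1 : Fin (k + 2) → ℕ) ((b.2 : Fin m → Fin (k + 2) → ℕ) a.1)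
      else 0 := ⟨_, rfl⟩
  obtain ⟨x, hx0, hAx, hx⟩ := h1 α β A hlt
  have hmat := h2 J j ρ hj (α × β) (fun p : α × β => A p.1 p.2) (by
    intro p
    rw [hA]
    by_cases h : ∀ i', i' ≠ p.1.1 → (p.2.2 : Fin m → Fin (k + 2) → ℕ) i' =
        (p.1.2.2.2.2.2.2.2 : Fin m → Fin (k + 2) → ℕ) i'
    · right
      refine ⟨p.1.1, p.1.2.1, p.1.2.2.1, p.1.2.2.2.1, p.1.2.2.2.2.1, p.1.2.2.2.2.2.1,
        p.1.2.2.2.2.2.2.1, p.2.1,
        (p.2.2 : Fin m → Fin (k + 2) → ℕ) p.1.1, fun t => ?_, ?_⟩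
      · exact Nat.lt_succ_iff.1 ((mem_BB _ _).1 p.2.2.2 p.1.1 t)
      · exact if_pos h
    · left
      exact if_neg h)
  obtain ⟨F, hF⟩ : ∃ F : (Fin (k + 2) → ℕ) → (Fin m → Fin (k + 2) → ℕ) → K, F = fun a ν =>
      if h : a ∈ box (fun _ : Fin (k + 2) => N' * 4 ^ J + 1) ∧
        ν ∈ BB (fun i : Fin m => N' * 4 ^ (J - j i) + 1) then x (⟨a, h.1⟩, ⟨ν, h.2⟩) else 0 :=
    ⟨_, rfl⟩
  have hFp : ∀ p : β, F p.1 p.2 = x p := by
    rintro ⟨⟨a, ha⟩, ⟨ν, hν⟩⟩
    rw [hF]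
    exact dif_pos ⟨ha, hν⟩
  have hFn : ∀ a ν, F a ν ≠ 0 → a ∈ box (fun _ : Fin (k + 2) => N' * 4 ^ J + 1) ∧
      ν ∈ BB (fun i : Fin m => N' * 4 ^ (J - j i) + 1) := by
    intro a ν h
    by_contra hc
    apply h
    rw [hF]
    exact dif_neg hc
  refine ⟨F, ?_, hFn, ?_, ?_⟩
  · obtain ⟨p, hp⟩ := Function.ne_iff.mp hx0
    refine ⟨p.1, p.2, ?_⟩
    rw [hFp]
    exact hp
  · intro i c r' r l q β' ν hβ'
    by_cases hq : q ∈ box (fun _ : Fin (k + 2) => c₁ * (N' * 4 ^ J) + 1) ∧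
      ∀ t, β' t < c₂ * (N' * 4 ^ (J - j i)) + 1
    swap
    · refine Finset.sum_eq_zero fun a ha => Finset.sum_eq_zero fun μ hμ => ?_
      have h3 : MCA nd (ρ i) (j i) (N' * 4 ^ (J - j i)) c r' r l q β' a μ = 0 := by
        by_contra h4
        apply hq
        rw [hc₁, hc₂]
        exact MCA_zero nd (ρ i) (hD i) (hj i) c r' r l q β' a μ ha hμ h4
      rw [h3, mul_zero]
    by_cases hν : ∀ i', i' ≠ i → ∀ t, ν i' t < N' * 4 ^ (J - j i') + 1
    swap
    · refine Finset.sum_eq_zero fun a ha => Finset.sum_eq_zero fun μ hμ => ?_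
      have h3 : F a (Function.update ν i μ) = 0 := by
        by_contra h4
        apply hν
        intro i' hi' t
        have h5 := (mem_BB _ _).1 (hFn _ _ h4).2 i' t
        rw [Function.update_of_ne hi'] at h5
        exact h5
      rw [h3, zero_mul]
    obtain ⟨ν0, hν0⟩ : ∃ ν0, ν0 = Function.update ν i 0 := ⟨_, rfl⟩
    have hν0m : ν0 ∈ (BB (fun i' => if i' = i then 1 else N' * 4 ^ (J - j i') + 1) :
        Finset (Fin m → Fin (k + 2) → ℕ)) := by
      rw [mem_BB]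
      intro i' t
      rw [hν0]
      by_cases h : i' = i
      · rw [if_pos h, h, Function.update_self]
        exact Nat.zero_lt_one
      · rw [if_neg h, Function.update_of_ne h]
        exact hν i' h t
    have hν0i : ∀ i', i' ≠ i → ν0 i' = ν i' := by
      intro i' h
      rw [hν0, Function.update_of_ne h]
    have hβm : β' ∈ box (bt k (4 ^ (J - j i)) (c₂ * (N' * 4 ^ (J - j i)) + 1)) := by
      rw [mem_box]
      intro t
      unfold bt
      split_ifs with ht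
      · have h3 : t = 0 ∨ t = 1 := by
          rcases Nat.lt_or_ge (t : ℕ) 1 with h4 | h4
          · left
            apply Fin.ext
            show (t : ℕ) = 0
            omega
          · right
            apply Fin.ext
            show (t : ℕ) = 1 % (k + 2)
            rw [Nat.mod_eq_of_lt (by omega)]
            omega
        rcases h3 with h3 | h3
        · rw [h3]
          omega
        · rw [h3]
          omega
      · exact hq.2 t
    have h3 := congrFun hAx ⟨i, c, r', r, l, ⟨q, hq.1⟩, ⟨β', hβm⟩, ⟨ν0, hν0m⟩⟩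
    rw [Pi.zero_apply, Matrix.mulVec, dotProduct, Fintype.sum_prod_type] at h3
    refine Eq.trans ?_ h3
    rw [← Finset.sum_coe_sort (box (fun _ : Fin (k + 2) => N' * 4 ^ J + 1))]
    refine Finset.sum_congr rfl fun a _ => ?_
    have h4 : ∑ y : (BB (fun i : Fin m => N' * 4 ^ (J - j i) + 1) :
          Finset (Fin m → Fin (k + 2) → ℕ)),
          A ⟨i, c, r', r, l, ⟨q, hq.1⟩, ⟨β', hβm⟩, ⟨ν0, hν0m⟩⟩ (a, y) * x (a, y) =
        ∑ ν' ∈ (BB (fun i : Fin m => N' * 4 ^ (J - j i) + 1) :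
          Finset (Fin m → Fin (k + 2) → ℕ)),
          (if ∀ i', i' ≠ i → ν' i' = ν0 i' then
            F a ν' * MCA nd (ρ i) (j i) (N' * 4 ^ (J - j i)) c r' r l q β' a (ν' i) else 0) := by
      rw [← Finset.sum_coe_sort (BB (fun i : Fin m => N' * 4 ^ (J - j i) + 1) :
          Finset (Fin m → Fin (k + 2) → ℕ))]
      refine Finset.sum_congr rfl fun y _ => ?_
      have h5 := hFp (a, y)
      rw [hA]
      show (if ∀ i', i' ≠ i → (y : Fin m → Fin (k + 2) → ℕ) i' = ν0 i' then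
        MCA nd (ρ i) (j i) (N' * 4 ^ (J - j i)) c r' r l q β' a ((y : Fin m → Fin (k + 2) → ℕ) i)
        else 0) * x (a, y) = _
      rw [← h5, ite_mul, zero_mul]
      split_ifs with h6
      · exact mul_comm _ _
      · rfl
    refine Eq.trans ?_ h4.symm
    rw [← Finset.sum_filter]
    refine Finset.sum_nbij' (fun μ => Function.update ν i μ) (fun ν' => ν' i) ?_ ?_ ?_ ?_ ?_
    · intro μ hμ
      rw [Finset.mem_filter, mem_BB]
      refine ⟨fun i' t => ?_, fun i' hi' => ?_⟩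
      · by_cases h : i' = i
        · rw [h, Function.update_self]
          exact (mem_box _ _).1 hμ t
        · rw [Function.update_of_ne h]
          exact hν i' h t
      · rw [Function.update_of_ne hi', hν0i i' hi']
    · intro ν' hν'
      rw [Finset.mem_filter, mem_BB] at hν'
      rw [mem_box]
      exact fun t => hν'.1 i t
    · intro μ _
      exact Function.update_self _ _ _
    · intro ν' hν'
      rw [Finset.mem_filter] at hν'
      funext i'
      by_cases h : i' = i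
      · rw [h, Function.update_self]
      · rw [Function.update_of_ne h, hν'.2 i' h, hν0i i' h]
    · intro μ _
      rw [Function.update_self]
  · have h4 : (fun p : β => F p.1 p.2) = x := funext hFp
    rw [h4]
    refine hx.trans ?_
    have hfrac0 : 0 ≤ (Fintype.card α : ℝ) / (Fintype.card β - Fintype.card α : ℝ) := by
      have : (Fintype.card α : ℝ) < Fintype.card β := by exact_mod_cast hlt
      exact div_nonneg (Nat.cast_nonneg _) (by linarith)
    have hfrac1 : (Fintype.card α : ℝ) / (Fintype.card β - Fintype.card α : ℝ) ≤ 1 := by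
      have h5 : (Fintype.card α : ℝ) < Fintype.card β := by exact_mod_cast hlt
      have h6 : (2 : ℝ) * Fintype.card α ≤ Fintype.card β := by exact_mod_cast h2α
      rw [div_le_one (by linarith)]
      linarith
    obtain ⟨S, hS⟩ : ∃ S : ℝ, S = 4 ^ J + ∑ i, 4 ^ (J - j i) * (ρ i).ht := ⟨_, rfl⟩
    rw [← hS] at hmat ⊢
    have hsum : 0 ≤ ∑ i, 4 ^ (J - j i) * (ρ i).ht :=
      Finset.sum_nonneg fun i _ => mul_nonneg (by positivity) (ht_nonneg _)
    have hJS : (4 : ℝ) ^ J ≤ S := by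
      rw [hS]
      linarith
    have h4J : (1 : ℝ) ≤ 4 ^ J := one_le_pow₀ (by norm_num)
    have h1S : (1 : ℝ) ≤ S := h4J.trans hJS
    have hlog' : Real.log (Fintype.card β) ≤ (k + 2) * (m + 1) * N' * S := by
      rw [hβ]
      refine hlog.trans ?_
      have h5 : ((k : ℝ) + 2) * (m + 1) * (N' * 4 ^ J) = (k + 2) * (m + 1) * N' * 4 ^ J := by ring
      rw [h5]
      exact mul_le_mul_of_nonneg_left hJS (by positivity)
    have hlog0 : 0 ≤ Real.log (Fintype.card β) := Real.log_natCast_nonneg _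
    have hin : logHeight (fun p : α × β => A p.1 p.2) + C1 + C1 * Real.log (Fintype.card β) ≤
        (C2 + C1 + C1 * ((k + 2) * (m + 1) * N')) * S := by
      have h7 := mul_le_mul_of_nonneg_left hlog' hC1
      have h8 : C1 ≤ C1 * S := le_mul_of_one_le_right hC1 h1S
      calc _ ≤ C2 * S + C1 * S + C1 * ((k + 2) * (m + 1) * N' * S) := by linarith
        _ = _ := by ring
    have hin' : (Fintype.card α : ℝ) / (Fintype.card β - Fintype.card α : ℝ) *
        (logHeight (fun p : α × β => A p.1 p.2) + C1 + C1 * Real.log (Fintype.card β)) ≤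
        (C2 + C1 + C1 * ((k + 2) * (m + 1) * N')) * S := by
      refine (mul_le_mul_of_nonneg_left hin hfrac0).trans ?_
      exact mul_le_of_le_one_left (mul_nonneg (by positivity) (by linarith)) hfrac1
    have h9 : C1 ≤ C1 * S := le_mul_of_one_le_right hC1 h1S
    calc _ ≤ C1 * S + (C2 + C1 + C1 * ((k + 2) * (m + 1) * N')) * S := add_le_add h9 hin'
      _ = _ := by ring

end Pool.Agent.Lib.MP_17a322_nt.VA
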