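import Pool.Agent.Lib.MP_17a322_nt.VA.CL1
import Pool.Agent.Lib.MP_17a322_nt.VN.L2C2

/-!
The choice of the auxiliary field, part 2: roots of unity and the field.
-/

universe u

namespace Pool.Agent.Lib.MP_17a322_nt.VA

open MvPolynomial
open Pool.Agent.Lib.MP_17a322_nt.VJ
open Pool.Agent.Lib.MP_17a322_nt.VN

section

variable {K : Type u} [Field K] {N : ℕ} {A : AV K N} {n e : ℕ} (nd : Noe A n e)

/-- The degree of the equation is positive. -/
theorem Noe.natDegree_ne : nd.Φ.natDegree ≠ 0 := by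
  intro h
  have h1 := Polynomial.eq_one_of_monic_natDegree_zero nd.Φ_monic h
  obtain ⟨L, _, _, P, hP, -⟩ := nd.indep
  have h2 : A.IsPt fun a => A.x P a / lf (nd.l 0) (A.x P) := by
    have h3 := AV.IsPt.smul (A.x_isPt P) (lf (nd.l 0) (A.x P))⁻¹
    have h4 : (fun a => A.x P a / lf (nd.l 0) (A.x P)) =
        fun a => (lf (nd.l 0) (A.x P))⁻¹ * A.x P a := by
      funext a
      rw [div_eq_mul_inv, mul_comm]
    rw [h4]
    exact h3
  have h5 : lf (nd.l 0) (fun a => A.x P a / lf (nd.l 0) (A.x P)) = 1 := by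
    have h4 : (fun a => A.x P a / lf (nd.l 0) (A.x P)) =
        fun a => (lf (nd.l 0) (A.x P))⁻¹ * A.x P a := by
      funext a
      rw [div_eq_mul_inv, mul_comm]
    rw [h4, lf_smul, inv_mul_cancel₀ hP]
  have h6 := nd.Φ_zero L _ h2 h5
  rw [h1, Polynomial.eval₂_one] at h6
  exact one_ne_zero h6

/-- A root of the equation gives a point. -/
theorem Noe.exists_pt {L : Type u} [Field L] [Algebra K L] (z : Option (Fin n) → L)
    (hz : aeval z (unp nd.Φ) = 0) (hδ : aeval (fun t => z (some t)) nd.δ ≠ 0) :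
    ∃ (y : Fin (N + 1) → L) (w : A.Pts L), A.Rep w y ∧ lf (nd.l 0) y = 1 ∧
      (∀ t : Fin n, lf (nd.l t.succ) y = z (some t)) ∧
      ∀ i, aeval z (nd.pv i) = aeval (fun t => z (some t)) nd.δ * y i := by
  rw [aeval_unp] at hz
  obtain ⟨y, hy, h1, h2, h3⟩ := nd.back L (fun t => z (some t)) (z none) hz hδ.isUnit
  have hy0 : y ≠ 0 := by
    rintro rfl
    have h4 : lf (nd.l 0) (0 : Fin (N + 1) → L) = 0 := by
      unfold lf
      simp
    rw [h4] at h1
    exact zero_ne_one h1
  obtain ⟨w, hw⟩ := AV.exists_rep hy0 hy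
  refine ⟨y, w, hw, h1, h2, fun i => ?_⟩
  have h4 := nd.aeval_pv hy h1 i
  have h5 : nd.pO y = z := by
    funext o
    rcases o with _ | t
    · exact h3
    · exact h2 t
  have h6 : (fun k : Fin n => lf (nd.l k.succ) y) = fun t => z (some t) := funext h2
  rw [h5, h6] at h4
  exact h4

end

section

variable {K : Type u} [Field K] {N : ℕ} {A : AV K N} {n e : ℕ} (nd : Noe A n e)

/-- The eliminant of the conditions. -/
theorem exists_elim {m : ℕ} {τ : Type} [Finite τ] [DecidableEq τ] (P₀ : A.Pts K)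
    (P : Fin m → A.Pts K) (j : Fin m → ℕ) (g : MvPolynomial (Fin n ⊕ τ) K) (hg : g ≠ 0)
    (d : ℕ) (G : MvPolynomial (Option (Fin n) ⊕ τ) K)
    (hG : ∀ (L : Type u) [Field L] [Algebra K L] (v : Option (Fin n) → L) (ζ : τ → L),
      v none ≠ 0 → aeval (Sum.elim v ζ) G =
        v none ^ d * aeval (Sum.elim (fun t => v (some t) / v none) ζ) g) :
    El (Sum.inl none) (rename Sum.inl (unp nd.Φ)) (nd.Hp P₀ P j G) ≠ 0 := by
  classical
  let M := MvPolynomial (Option (Fin n) ⊕ τ) K
  let Ω := AlgebraicClosure (FractionRing M)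
  let _ : Algebra K Ω := ((algebraMap (FractionRing M) Ω).comp
    ((algebraMap M (FractionRing M)).comp (algebraMap K M))).toAlgebra
  let φ : M →ₐ[K] Ω := { (algebraMap (FractionRing M) Ω).comp (algebraMap M (FractionRing M)) with
    commutes' := fun _ => rfl }
  have hφ : Function.Injective φ := by
    intro a b h
    exact IsFractionRing.injective M (FractionRing M) ((algebraMap (FractionRing M) Ω).injective h)
  obtain ⟨s, hs⟩ : ∃ s : Option (Fin n) ⊕ τ → Ω, s = fun x => φ (X x) := ⟨_, rfl⟩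
  have hsv : ∀ F : M, aeval s F = φ F := by
    intro F
    rw [hs]
    have h1 : aeval (fun x => φ (X x)) = φ := by
      refine MvPolynomial.algHom_ext fun x => ?_
      rw [aeval_X]
    rw [h1]
  have hind : AlgebraicIndependent K s := by
    intro a b h
    rw [hsv, hsv] at h
    exact hφ h
  have hne : ∀ F : M, F ≠ 0 → aeval s F ≠ 0 := by
    intro F hF h
    exact hF (hind (by rw [h, map_zero]))
  have hf0 : (rename Sum.inl (unp nd.Φ) : M) ≠ 0 := by
    intro h
    have h1 : unp nd.Φ = 0 := rename_injective _ Sum.inl_injective (by rw [h, map_zero])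
    have h2 : nd.Φ = 0 := (optionEquivLeft K (Fin n)).symm.injective (by
      rw [map_zero]
      exact h1)
    exact nd.Φ_monic.ne_zero h2
  have hl : lcv (Sum.inl none) (rename Sum.inl (unp nd.Φ) : M) ≠ 0 := by
    unfold lcv
    rw [← natDegree_vw]
    exact Polynomial.leadingCoeff_ne_zero.2 (vw_ne_zero _ hf0)
  intro h0
  refine El_ne_zero_at (Sum.inl none) (rename Sum.inl (unp nd.Φ) : M) (nd.Hp P₀ P j G) s
    (hne _ hl) (fun r hr => ?_) (by rw [h0, map_zero])
  obtain ⟨z, hz⟩ : ∃ z : Option (Fin n) → Ω, z = fun o => Function.update s (Sum.inl none) r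
    (Sum.inl o) := ⟨_, rfl⟩
  obtain ⟨ζ, hζ⟩ : ∃ ζ : τ → Ω, ζ = fun p => s (Sum.inr p) := ⟨_, rfl⟩
  have hu : Function.update s (Sum.inl none) r = Sum.elim z ζ := by
    funext x
    rcases x with o | p
    · rw [hz]
      rfl
    · rw [hζ, Function.update_of_ne (by simp)]
      rfl
  have hzs : ∀ t, z (some t) = s (Sum.inl (some t)) := by
    intro t
    rw [hz]
    exact Function.update_of_ne (by simp) _ _
  rw [hu] at hr ⊢
  have hr' : aeval z (unp nd.Φ) = 0 := by
    rw [aeval_rename] at hr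
    exact hr
  have hδ : aeval (fun t => z (some t)) nd.δ ≠ 0 := by
    have h1 : aeval s (rename (fun t => Sum.inl (some t)) nd.δ : M) ≠ 0 := by
      refine hne _ fun h => nd.δ_ne ?_
      refine rename_injective (fun t : Fin n => (Sum.inl (some t) : Option (Fin n) ⊕ τ)) ?_
        (by rw [h, map_zero])
      intro a b hab
      exact Option.some.inj (Sum.inl.inj hab)
    rw [aeval_rename] at h1
    have h2 : (fun t => z (some t)) = s ∘ fun t => Sum.inl (some t) := funext hzs
    rw [h2]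
    exact h1
  obtain ⟨y, w, hw, hy1, hy2, hy3⟩ := nd.exists_pt z hr' hδ
  have hw' := hw.smul hδ
  rw [nd.Hp_ne_iff P₀ P j g d G (hG Ω) z ζ _ w hy3 hw']
  refine generic_ne nd P₀ P j g hg hw hy1 ζ ?_
  have h3 : (Sum.elim (fun t : Fin n => lf (nd.l t.succ) y) ζ) =
      s ∘ Sum.map some id := by
    funext x
    rcases x with t | p
    · show lf (nd.l t.succ) y = s (Sum.inl (some t))
      rw [hy2, hzs]
    · show ζ p = s (Sum.inr p)
      rw [hζ]
  rw [h3]
  exact hind.comp _ (Sum.map_injective.2 ⟨Option.some_injective _, Function.injective_id⟩)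

end

/-- The choice of the field, of the translation and of the roots of unity. -/
theorem choose_L {K : Type u} [Field K] [NumberField K] {N : ℕ} (A : AV K N) {n e m : ℕ}
    (nd : Noe A n e) (g : MvPolynomial (Fin n ⊕ Fin m × Fin n) K) (hg : g ≠ 0) (P₀ : A.Pts K)
    (P : Fin m → A.Pts K) (j : Fin m → ℕ) :
    ∃ (L : Type u) (_ : Field L) (_ : NumberField L) (_ : Algebra K L) (w : A.Pts L)
      (ζ : Fin m × Fin n → L), lf (nd.l 0) (A.x w) ≠ 0 ∧ (∀ t, ∃ k, 0 < k ∧ nd.s w t ^ k = 1) ∧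
      (∀ p, ∃ k, 0 < k ∧ ζ p ^ k = 1) ∧
      lf (nd.l 0) (A.x (A.img (Algebra.ofId K L) P₀ + w)) ≠ 0 ∧
      aeval (Sum.elim (nd.s (A.img (Algebra.ofId K L) P₀ + w)) ζ) g ≠ 0 ∧
      ∀ i, lf (nd.l 0) (A.x (A.img (Algebra.ofId K L) (P i) -
        2 ^ j i • (A.img (Algebra.ofId K L) P₀ + w))) ≠ 0 := by
  classical
  obtain ⟨d, G, hG⟩ := exists_homog g
  have hR := exists_elim nd P₀ P j g hg d G hG
  obtain ⟨R, hRd⟩ : ∃ R, R = El (Sum.inl none) (rename Sum.inl (unp nd.Φ)) (nd.Hp P₀ P j G) :=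
    ⟨_, rfl⟩
  rw [← hRd] at hR
  have hinj : Function.Injective
      (fun t : Fin n => (Sum.inl (some t) : Option (Fin n) ⊕ Fin m × Fin n)) := by
    intro a b hab
    exact Option.some.inj (Sum.inl.inj hab)
  have hδ0 : (rename (fun t => Sum.inl (some t)) nd.δ :
      MvPolynomial (Option (Fin n) ⊕ Fin m × Fin n) K) ≠ 0 := by
    intro h
    exact nd.δ_ne (rename_injective _ hinj (by rw [h, map_zero]))
  let Ω := AlgebraicClosure K
  obtain ⟨s, hs, hsR⟩ := exists_mem_ne (Ω := Ω) _ (mul_ne_zero hR hδ0)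
    (fun _ => {ζ : Ω | ∃ N, 0 < N ∧ ζ ^ N = 1}) (fun _ => infinite_root_one Ω)
  rw [map_mul] at hsR
  have hsR1 := left_ne_zero_of_mul hsR
  have hsδ := right_ne_zero_of_mul hsR
  rw [aeval_rename] at hsδ
  -- the root
  obtain ⟨r, hr⟩ : ∃ r : Ω, (nd.Φ.map (aeval (R := K) fun t : Fin n =>
      s (Sum.inl (some t))).toRingHom).eval r = 0 := by
    refine IsAlgClosed.exists_root _ ?_
    rw [Polynomial.degree_eq_natDegree (nd.Φ_monic.map _).ne_zero, nd.Φ_monic.natDegree_map]
    exact_mod_cast nd.natDegree_ne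
  rw [Polynomial.eval_map] at hr
  -- the field
  obtain ⟨S, hS⟩ : ∃ S : Set Ω, S = Set.range (Function.update s (Sum.inl none) r) := ⟨_, rfl⟩
  have hfin : Finite S := by
    rw [hS]
    exact Set.finite_range _
  let E := IntermediateField.adjoin K S
  have hfd : FiniteDimensional K E :=
    IntermediateField.finiteDimensional_adjoin fun x _ => Algebra.IsIntegral.isIntegral x
  have hnf : NumberField E := NumberField.of_module_finite K E
  have hmem : ∀ x, Function.update s (Sum.inl none) r x ∈ E := fun x =>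
    IntermediateField.subset_adjoin K S (by rw [hS]; exact ⟨x, rfl⟩)
  obtain ⟨z, hz⟩ : ∃ z : Option (Fin n) → E, z = fun o => ⟨_, hmem (Sum.inl o)⟩ := ⟨_, rfl⟩
  obtain ⟨ζ, hζ⟩ : ∃ ζ : Fin m × Fin n → E, ζ = fun p => ⟨_, hmem (Sum.inr p)⟩ := ⟨_, rfl⟩
  have hzv : ∀ o, E.val (z o) = Function.update s (Sum.inl none) r (Sum.inl o) := by
    intro o
    rw [hz]
    rfl
  have hζv : ∀ p, E.val (ζ p) = s (Sum.inr p) := by
    intro p
    rw [hζ]
    show Function.update s (Sum.inl none) r (Sum.inr p) = _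
    exact Function.update_of_ne Sum.inr_ne_inl _ _
  have hzt : ∀ t, E.val (z (some t)) = s (Sum.inl (some t)) := by
    intro t
    rw [hzv]
    exact Function.update_of_ne (by simp) _ _
  have hzn : E.val (z none) = r := by
    rw [hzv]
    exact Function.update_self _ _ _
  have hval : ∀ F : MvPolynomial (Option (Fin n) ⊕ Fin m × Fin n) K,
      E.val (aeval (Sum.elim z ζ) F) = aeval (Function.update s (Sum.inl none) r) F := by
    intro F
    rw [← AlgHom.comp_apply, MvPolynomial.comp_aeval]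
    congr 2
    funext x
    rcases x with o | p
    · exact hzv o
    · exact (hζv p).trans (Function.update_of_ne Sum.inr_ne_inl _ _).symm
  have hvali : Function.Injective E.val := E.val.injective
  have hzΦ : aeval z (unp nd.Φ) = 0 := by
    apply hvali
    have h1 := hval (rename Sum.inl (unp nd.Φ))
    rw [aeval_rename, aeval_rename] at h1
    rw [map_zero]
    refine (show E.val (aeval z (unp nd.Φ)) = _ from h1).trans ?_
    rw [aeval_unp]
    have h2 : (fun t : Fin n => (Function.update s (Sum.inl none) r ∘ Sum.inl) (some t)) =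
        fun t => s (Sum.inl (some t)) := by
      funext t
      exact Function.update_of_ne (by simp) _ _
    have h3 : (Function.update s (Sum.inl none) r ∘ Sum.inl) none = r :=
      Function.update_self _ _ _
    rw [h2, h3]
    exact hr
  have hzδ : aeval (fun t => z (some t)) nd.δ ≠ 0 := by
    intro h
    apply hsδ
    have h1 : E.val (aeval (fun t => z (some t)) nd.δ) =
        aeval (s ∘ fun t => Sum.inl (some t)) nd.δ := by
      rw [← AlgHom.comp_apply, MvPolynomial.comp_aeval]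
      congr 2
      funext t
      exact hzt t
    rw [← h1, h, map_zero]
  obtain ⟨y, w, hw, hy1, hy2, hy3⟩ := nd.exists_pt z hzΦ hzδ
  have hHp : aeval (Sum.elim z ζ) (nd.Hp P₀ P j G) ≠ 0 := by
    intro h
    have h1 := hval (nd.Hp P₀ P j G)
    rw [h, map_zero] at h1
    have h2 := aeval_dvd_El (Sum.inl none) (rename Sum.inl (unp nd.Φ)) (nd.Hp P₀ P j G)
      (Or.inl (by
        rw [degreeOf_rename_of_injective Sum.inl_injective, degreeOf_none_unp]
        exact nd.natDegree_ne)) (Function.update s (Sum.inl none) r) (by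
        have h3 := hval (rename Sum.inl (unp nd.Φ))
        rw [← h3, aeval_rename]
        have h4 : aeval (Sum.elim z ζ ∘ Sum.inl) (unp nd.Φ) = 0 := hzΦ
        rw [h4, map_zero])
    rw [← h1, zero_dvd_iff, ← hRd] at h2
    apply hsR1
    rw [← h2]
    rw [aeval_update_of_degreeOf_eq_zero]
    rw [hRd]
    exact degreeOf_El_self _ _ _
  have hw' := hw.smul hzδ
  rw [nd.Hp_ne_iff P₀ P j g d G (hG E) z ζ _ w hy3 hw'] at hHp
  obtain ⟨g1, g2, g3, g4⟩ := hHp
  have hw0 : lf (nd.l 0) (A.x w) ≠ 0 := by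
    obtain ⟨c, hc, h1⟩ := hw
    intro h0
    rw [show y = _ from funext h1, lf_smul, h0, mul_zero] at hy1
    exact zero_ne_one hy1
  have hsw : ∀ t, nd.s w t = z (some t) := by
    intro t
    obtain ⟨c, hc, h1⟩ := hw
    have h2 : ∀ l : Fin (N + 1) → K, lf l y = c * lf l (A.x w) := by
      intro l
      rw [show y = _ from funext h1, lf_smul]
    rw [← hy2 t]
    unfold Noe.s
    rw [h2]
    have h3 := hy1
    rw [h2] at h3
    rw [div_eq_iff hw0]
    linear_combination (-(lf (nd.l t.succ) (A.x w))) * h3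
  refine ⟨E, inferInstance, hnf, inferInstance, w, ζ, hw0, fun t => ?_, fun p => ?_, g2, g3,
    fun i => (g4 i).2⟩
  · obtain ⟨k, hk, hk1⟩ := hs (Sum.inl (some t))
    refine ⟨k, hk, hvali ?_⟩
    rw [hsw, map_pow, hzt, map_one]
    exact hk1
  · obtain ⟨k, hk, hk1⟩ := hs (Sum.inr p)
    refine ⟨k, hk, hvali ?_⟩
    rw [map_pow, hζv, map_one]
    exact hk1

end Pool.Agent.Lib.MP_17a322_nt.VA
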