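import Pool.Agent.Lib.MP_17a322_nt.VA.E16

/-!
Part E of VA: the main statement in the form used by part L.
-/

universe u

namespace Pool.Agent.Lib.MP_17a322_nt.VA

open MvPolynomial Height
open Pool.Agent.Lib.MP_17a322_nt.RO
open Pool.Agent.Lib.MP_17a322_nt.VJ
open Pool.Agent.Lib.MP_17a322_nt.VN

/-- The lowest coefficient. -/
theorem E14 {K : Type u} [Field K] [NumberField K] {N : ℕ} (A : AV K N) {n e c : ℕ}
    (nd : Noe A n e) (rr : Fin c → Fin n) (hrr : Function.Injective rr) (m D : ℕ) (s B : ℝ)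
    (hs : 0 < s) (hB : 0 ≤ B) :
    ∃ (D' R₀ : ℕ) (B' C₁ : ℝ), 0 ≤ B' ∧ 0 ≤ C₁ ∧ ∀ (P : Fin m → A.Pts K) (j : Fin m → ℕ)
      (q' : Fin m → Fin c → MvPolynomial (Fin n) K) (M : Fin m → Matrix (Fin n) (Fin n) K)
      (Ev : Fin m → Fin c → Fin n → K) (U : Fin m → Matrix (Fin c) (Fin c) K)
      (F : MvPolynomial (Fin n ⊕ Fin m × Fin n) K) (b : ℝ),
      (∀ i i', i < i' → R₀ * 4 ^ j i ≤ 4 ^ j i') →
      (∀ i, IsEq nd rr D (P i) (q' i)) → (∀ i b, nh (q' i b) ≤ 4 ^ j i) →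
      (∀ i, LinearIndependent K (Ev i)) → (∀ i, (U i).det ≠ 0) →
      (∀ i b a, Ev i b a = ∑ r, U i b r * ∑ l,
        eval (nd.s (P i)) (pderiv l (q' i r)) * M i l a) →
      F ≠ 0 → (∀ t, (F.degreeOf (Sum.inl t) : ℝ) ≤ b) →
      (∀ p : Fin m × Fin n, (4 : ℝ) ^ j p.1 * F.degreeOf (Sum.inr p) ≤ b) → nh F ≤ B * b →
      1 ≤ b →
      (∃ (i : Fin m) (G : MvPolynomial (Fin n) K), G ≠ 0 ∧ (∀ b, G.degreeOf (rr b) = 0) ∧
        (∀ a, G.degreeOf a ≤ D') ∧ nh G ≤ B' * 4 ^ j i ∧ eval (nd.s (P i)) G = 0) ∨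
      ∃ g : MvPolynomial (Fin n ⊕ Fin m × Fin n) K, g ≠ 0 ∧
        ∀ (L : Type u) [Field L] [NumberField L] [Algebra K L] (Y : Fin (N + 1) → L)
          (ζ : Fin m × Fin n → L) (qq : Fin m → Fin n → L)
          (y : Fin m → Fin (N + 1) → D2 L (Fin m × Fin n))
          (ξ : Fin m → Fin n → D2 L (Fin m × Fin n)),
          A.IsPt Y → lf (nd.l 0) Y = 1 →
          aeval (Sum.elim (fun k => lf (nd.l k.succ) Y) ζ) g ≠ 0 →
          (∀ i, A.IsPt (y i) ∧ lf (nd.l 0) (y i) = 1 ∧ (∀ b, HS i (y i b)) ∧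
            (∀ k, HS i (ξ i k)) ∧
            (∀ b, PowerSeries.constantCoeff (PowerSeries.constantCoeff (y i b)) =
              C (algebraMap K L (nd.y (P i) b))) ∧
            (∀ k, k ∉ Set.range rr → PowerSeries.constantCoeff (lf (nd.l k.succ) (y i)) =
              PowerSeries.C (C (algebraMap K L (nd.s (P i) k))) +
                PowerSeries.C (C (ζ (i, k))) * PowerSeries.X ^ 4 ^ j i) ∧
            (∀ b, aeval (fun k : Fin n => PowerSeries.constantCoeff (lf (nd.l k.succ) (y i)))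
              (q' i b) = 0) ∧
            (∀ b, IsUnit (aeval (fun k : Fin n =>
              PowerSeries.constantCoeff (lf (nd.l k.succ) (y i))) (pderiv (rr b) (q' i b)))) ∧
            (∀ k, PowerSeries.constantCoeff (PowerSeries.coeff 1 (lf (nd.l k.succ) (y i))) =
              ∑ a, C (algebraMap K L (M i k a)) * X (i, a)) ∧
            (∀ (a : Fin (N + 1)) (k : Fin n),
              ξ i k * lf (nd.l 0) (A.col a (y i) (c2 L _ (A.mu (j i) Y))) =
              lf (nd.l k.succ) (A.col a (y i) (c2 L _ (A.mu (j i) Y)))) ∧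
            (∀ k, PowerSeries.constantCoeff (PowerSeries.constantCoeff (ξ i k)) =
              C (qq i k))) →
          ∃ (s' : Fin m → ℕ) (F' : Fin (m + 1) → MvPolynomial (Fin m × Fin n)
              (D1 L (Fin m × Fin n))) (f : D1 L (Fin m × Fin n)) (a : ℕ)
              (Q : MvPolynomial (Fin m × Fin c) L),
            (∀ i, (4 : ℝ) ^ j i * s' i ≤ C₁ * b) ∧
            F' 0 = aeval (Sum.elim (fun k => (C (algebraMap L (D1 L (Fin m × Fin n))
              (lf (nd.l k.succ) Y)) : MvPolynomial (Fin m × Fin n) (D1 L (Fin m × Fin n)))) X)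
              F ∧
            (∀ i : Fin m, F' i.succ = PowerSeries.coeff (s' i)
              (PsS (fun p => ξ p.1 p.2) i (F' i.castSucc))) ∧
            F' (Fin.last m) = C f ∧ (a : ℝ) < s * b ∧ PowerSeries.coeff a f ≠ 0 ∧
            PowerSeries.coeff a f = aeval (fun p : Fin m × Fin c =>
              ∑ b, (C (algebraMap K L (Ev p.1 p.2 b)) * X (p.1, b) :
                MvPolynomial (Fin m × Fin n) L)) Q ∧
            ∀ u ∈ (PowerSeries.coeff a f).support, ∀ i, ∑ b, u (i, b) = s' i := by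
  obtain ⟨R₀, D', C₁, hC₁, hmain⟩ := glue A nd rr hrr m D s B hs hB
  refine ⟨D', R₀, C₁, C₁, hC₁, hC₁, ?_⟩
  intro P j q' M Ev U F b hj hq hqh hEi hU hEU hF hFx hFz hFh hb
  rcases hmain j P q' F b hj (fun i b' => ⟨(hq i b').1, (hq i b').2.1, hqh i b',
    (hq i b').2.2.1, (hq i b').2.2.2⟩) hF hb hFx hFz hFh with h | ⟨g, hg, h⟩
  · exact Or.inl h
  · refine Or.inr ⟨g, hg, ?_⟩
    intro L _ _ _ Y ζ qq y ξ hY hY1 hgY hblk
    obtain ⟨ρ, F', a, f, Q, k1, k2, k3, k4, k5, -, k7, k8, k9⟩ :=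
      h L Y ζ (fun i => A.mu (j i) Y) y (fun p => ξ p.1 p.2) M Ev U hY hY1 hgY
        { isPt := fun i => (hblk i).1
          l0 := fun i => (hblk i).2.1
          hs := fun i t => (hblk i).2.2.2.1 t
          mu := fun i => ⟨1, one_ne_zero, fun a => (one_mul _).symm⟩
          at0 := fun i b => (hblk i).2.2.2.2.1 b
          path := fun i k hk => (hblk i).2.2.2.2.2.1 k hk
          eq := fun i b => (hblk i).2.2.2.2.2.2.1 b
          unit := fun i b => (hblk i).2.2.2.2.2.2.2.1 b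
          der := fun i k => (hblk i).2.2.2.2.2.2.2.2.1 k
          col := fun i a k => (hblk i).2.2.2.2.2.2.2.2.2.1 a k } hEi hU hEU
    exact ⟨ρ, F', f, a, Q, k1, k2, fun i => (k3 i).1, k4, k5, k7, k8, k9⟩

end Pool.Agent.Lib.MP_17a322_nt.VA
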