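import Pool.Agent.Lib.MP_17a322_nt.VA.T6

/-!
VA, part A (formal point): equations of `A` at the origin, solved for the coordinates.
-/

universe u

namespace Pool.Agent.Lib.MP_17a322_nt.VA

open MvPolynomial

section

variable {K : Type*} [Field K] {ι : Type*} [Fintype ι]

/-- Taylor's formula of first order. -/
theorem fp_taylor [DecidableEq ι] (o : ι → K) (h : MvPolynomial ι K) :
    aeval (fun i => C (o i) + X i) h - C (aeval o h) -
      ∑ i, C (aeval o (pderiv i h)) * X i ∈ idealOfVars ι K ^ 2 := by
  induction h using MvPolynomial.induction_on with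
  | C a => simp
  | add p q hp hq =>
    have h1 := Ideal.add_mem _ hp hq
    refine (congrArg (· ∈ idealOfVars ι K ^ 2) ?_).mp h1
    simp only [map_add, add_mul, Finset.sum_add_distrib]
    ring
  | mul_X p j hp =>
    have hX : ∀ i : ι, (X i : MvPolynomial ι K) ∈ idealOfVars ι K := fun i =>
      Ideal.subset_span ⟨i, rfl⟩
    have h1 : aeval (fun i => C (o i) + X i) (p * X j) - C (aeval o (p * X j)) -
        ∑ i, C (aeval o (pderiv i (p * X j))) * X i =
        (aeval (fun i => C (o i) + X i) p - C (aeval o p) -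
          ∑ i, C (aeval o (pderiv i p)) * X i) * (C (o j) + X j) +
        ∑ i, C (aeval o (pderiv i p)) * (X i * X j) := by
      have h2 : ∀ i, C (aeval o (pderiv i (p * X j))) * (X i : MvPolynomial ι K) =
          C (aeval o (pderiv i p)) * X i * C (o j) + if i = j then C (aeval o p) * X j else 0 := by
        intro i
        rw [Derivation.leibniz, pderiv_X]
        split_ifs with h
        · subst h
          simp only [Pi.single_eq_same, smul_eq_mul, mul_one, map_add, map_mul, aeval_X]
          ring
        · rw [Pi.single_eq_of_ne (by exact fun h' => h h'.symm)]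
          simp only [smul_eq_mul, mul_zero, zero_add, map_mul, aeval_X]
          ring
      simp only [h2, Finset.sum_add_distrib, Finset.sum_ite_eq', Finset.mem_univ, if_true, map_mul,
        aeval_X]
      have h3 : ∑ i, C (aeval o (pderiv i p)) * ((X i : MvPolynomial ι K) * X j) =
          (∑ i, C (aeval o (pderiv i p)) * X i) * X j := by
        rw [Finset.sum_mul]
        exact Finset.sum_congr rfl fun i _ => by ring
      rw [h3, ← Finset.sum_mul]
      ring
    rw [h1]
    refine Ideal.add_mem _ (Ideal.mul_mem_right _ _ hp) (Ideal.sum_mem _ fun i _ => ?_)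
    refine Ideal.mul_mem_left _ _ ?_
    rw [pow_two]
    exact Ideal.mul_mem_mul (hX i) (hX j)

/-- A linear form that vanishes on the orthogonal complement of a subspace. -/
theorem fp_dual (U : Submodule K (ι → K)) (w : ι → K)
    (h : ∀ τ : ι → K, (∀ u ∈ U, ∑ i, u i * τ i = 0) → ∑ i, w i * τ i = 0) : w ∈ U := by
  classical
  by_contra hw
  obtain ⟨f, hf, hf'⟩ := Submodule.exists_dual_map_eq_bot_of_notMem hw inferInstance
  have h1 : ∀ u : ι → K, f u = ∑ i, u i * f (Pi.single i 1) := by
    intro u
    conv_lhs => rw [← Finset.univ_sum_single u, map_sum]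
    refine Finset.sum_congr rfl fun i _ => ?_
    have h2 : (Pi.single i (u i) : ι → K) = u i • Pi.single i 1 := by
      rw [← Pi.single_smul, smul_eq_mul, mul_one]
    rw [h2, map_smul, smul_eq_mul]
  refine hf ?_
  rw [h1]
  refine h _ fun u hu => ?_
  rw [← h1]
  have h3 : f u ∈ U.map f := Submodule.mem_map_of_mem hu
  rw [hf', Submodule.mem_bot] at h3
  exact h3

end

section

variable {K : Type u} [Field K] {N : ℕ} {A : AV K N}

/-- The data for the fixed point equation of the formal point. -/
theorem fp_data {n e : ℕ} (nd : Noe A n e) {o : Fin (N + 1) → K} {t : Fin n → Fin (N + 1) → K}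
    (ht : A.Frame o t) : ∃ (l₀ : Fin (N + 1) → K) (lam : Fin n → Fin (N + 1) → K)
      (h G : Fin (N + 1) → MvPolynomial (Fin (N + 1)) K),
      ∑ i, l₀ i * o i = 1 ∧ (∀ a, ∑ i, lam a i * o i = 0) ∧
      (∀ b, h b ∈ A.I) ∧ (∀ b, G b ∈ idealOfVars (Fin (N + 1)) K ^ 2) ∧
      ∀ b, G b = X b - C (o b) * (∑ i, C (l₀ i) * X i) -
        (∑ a, C (t a b) * ∑ i, C (lam a i) * X i) - aeval (fun i => C (o i) + X i) (h b) := by
  classical
  have hor : A.Rep (0 : A.Pts K) o := ht.rep (L := K)
  have ho : A.IsPt o := hor.isPt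
  have hli := ht.2.2
  -- dual functionals
  obtain ⟨T, hT⟩ : ∃ T : Fin (n + 1) → Fin (N + 1) → K,
      T = Fin.cons (α := fun _ => Fin (N + 1) → K) o t := ⟨_, rfl⟩
  rw [← hT] at hli
  obtain ⟨g, hg⟩ := LinearMap.exists_leftInverse_of_injective (Fintype.linearCombination K T)
    (LinearMap.ker_eq_bot.mpr (by
      intro a b hab
      have h1 := Fintype.linearIndependent_iff.mp hli (a - b) (by
        have h2 : Fintype.linearCombination K T (a - b) = 0 := by rw [map_sub, hab, sub_self]
        rwa [Fintype.linearCombination_apply] at h2)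
      funext j
      exact sub_eq_zero.mp (h1 j)))
  obtain ⟨lm, hlm⟩ : ∃ lm : Fin (n + 1) → Fin (N + 1) → K,
      ∀ j i, lm j i = g (Pi.single i 1) j := ⟨_, fun _ _ => rfl⟩
  have hgj : ∀ (u : Fin (N + 1) → K) j, ∑ i, lm j i * u i = g u j := by
    intro u j
    conv_rhs => rw [← Finset.univ_sum_single u, map_sum, Finset.sum_apply]
    refine Finset.sum_congr rfl fun i _ => ?_
    have h2 : (Pi.single i (u i) : Fin (N + 1) → K) = u i • Pi.single i 1 := by
      rw [← Pi.single_smul, smul_eq_mul, mul_one]
    rw [h2, map_smul, Pi.smul_apply, smul_eq_mul, hlm]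
    ring
  have hgT : ∀ j j', ∑ i, lm j i * T j' i = if j = j' then 1 else 0 := by
    intro j j'
    rw [hgj]
    have h1 := LinearMap.congr_fun hg (Pi.single j' 1)
    rw [LinearMap.comp_apply, Fintype.linearCombination_apply_single, one_smul,
      LinearMap.id_apply] at h1
    rw [h1, Pi.single_apply]
  -- the space of the differentials
  obtain ⟨U, hU⟩ : ∃ U : Submodule K (Fin (N + 1) → K), ∀ w, w ∈ U ↔
      ∃ f ∈ A.I, ∀ i, w i = aeval o (pderiv i f) :=
    ⟨{ carrier := {w | ∃ f ∈ A.I, ∀ i, w i = aeval o (pderiv i f)}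
       add_mem' := by
        rintro w w' ⟨f, hf, h1⟩ ⟨f', hf', h1'⟩
        refine ⟨f + f', A.I.add_mem hf hf', fun i => ?_⟩
        rw [Pi.add_apply, map_add, map_add, h1, h1']
       zero_mem' := ⟨0, A.I.zero_mem, fun i => by simp⟩
       smul_mem' := by
        rintro c w ⟨f, hf, h1⟩
        refine ⟨C c * f, A.I.mul_mem_left _ hf, fun i => ?_⟩
        rw [Pi.smul_apply, h1, smul_eq_mul, pderiv_C_mul, map_mul, aeval_C]
        rfl },
      fun w => Iff.rfl⟩
  have key : ∀ b, ∃ f ∈ A.I, ∀ i, aeval o (pderiv i f) =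
      (if i = b then 1 else 0) - ∑ j, lm j i * T j b := by
    intro b
    obtain ⟨w, hw⟩ : ∃ w : Fin (N + 1) → K, ∀ i, w i = (if i = b then 1 else 0) -
        ∑ j, lm j i * T j b := ⟨_, fun _ => rfl⟩
    have h1 : w ∈ U := by
      refine fp_dual U w fun τ hτ => ?_
      have h2 : A.IsT (L := K) (fun i => algebraMap K K (o i)) τ := by
        rw [AV.isT_iff]
        intro f hf
        refine ⟨?_, ?_⟩
        · have := ho f hf
          simpa using this
        · have h3 := hτ (fun i => aeval o (pderiv i f)) ((hU _).mpr ⟨f, hf, fun _ => rfl⟩)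
          have h4 : ∑ i, aeval (fun i => algebraMap K K (o i)) (pderiv i f) * τ i = 0 := by
            simpa using h3
          first
          | exact h4
          | (rw [← h4]; exact Finset.sum_congr rfl fun i _ => mul_comm _ _)
      obtain ⟨c, om, h3⟩ := AV.frame_span nd ht h2
      obtain ⟨cc, hcc⟩ : ∃ cc : Fin (n + 1) → K, cc = Fin.cons (α := fun _ => K) c om := ⟨_, rfl⟩
      have h4 : τ = Fintype.linearCombination K T cc := by
        funext b
        rw [Fintype.linearCombination_apply, Finset.sum_apply, Fin.sum_univ_succ, h3 b, hcc, hT]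
        simp
      have h5 : ∀ j, ∑ i, lm j i * τ i = cc j := by
        intro j
        rw [hgj, h4]
        exact congrFun (LinearMap.congr_fun hg cc) j
      have h6 : ∑ i, w i * τ i = τ b - ∑ j, T j b * ∑ i, lm j i * τ i := by
        have h7 : ∀ i, w i * τ i = (if i = b then τ i else 0) - ∑ j, T j b * (lm j i * τ i) := by
          intro i
          rw [hw, sub_mul, Finset.sum_mul]
          congr 1
          · split_ifs <;> simp
          · exact Finset.sum_congr rfl fun j _ => by ring
        simp only [h7, Finset.sum_sub_distrib, Finset.sum_ite_eq', Finset.mem_univ, if_true]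
        rw [Finset.sum_comm]
        congr 1
        exact Finset.sum_congr rfl fun j _ => by rw [Finset.mul_sum]
      rw [h6]
      simp only [h5]
      have h8 : τ b = ∑ j, cc j * T j b := by
        conv_lhs => rw [h4]
        rw [Fintype.linearCombination_apply, Finset.sum_apply]
        rfl
      rw [h8, sub_eq_zero]
      exact Finset.sum_congr rfl fun j _ => mul_comm _ _
    obtain ⟨f, hf, h5⟩ := (hU w).mp h1
    exact ⟨f, hf, fun i => by rw [← h5, hw]⟩
  choose h hhI hh using key
  refine ⟨lm 0, fun a => lm a.succ, h, fun b => X b - C (o b) * (∑ i, C (lm 0 i) * X i) -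
        (∑ a : Fin n, C (t a b) * ∑ i, C (lm a.succ i) * X i) -
          aeval (fun i => C (o i) + X i) (h b), ?_, ?_, hhI, ?_, fun b => rfl⟩
  · have h1 := hgT 0 0
    rw [if_pos rfl, hT] at h1
    simpa using h1
  · intro a
    have h1 := hgT a.succ 0
    rw [if_neg (Fin.succ_ne_zero a), hT] at h1
    simpa using h1
  · intro b
    have h1 := fp_taylor o (h b)
    have h2 : aeval o (h b) = 0 := ho _ (hhI b)
    rw [h2, map_zero, sub_zero] at h1
    have h3 : ∑ i, C (aeval o (pderiv i (h b))) * (X i : MvPolynomial (Fin (N + 1)) K) =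
        X b - C (o b) * (∑ i, C (lm 0 i) * X i) -
        (∑ a : Fin n, C (t a b) * ∑ i, C (lm a.succ i) * X i) := by
      have h4 : ∀ i, C (aeval o (pderiv i (h b))) * (X i : MvPolynomial (Fin (N + 1)) K) =
          (if i = b then X i else 0) - ∑ j, C (T j b) * (C (lm j i) * X i) := by
        intro i
        rw [hh, map_sub, sub_mul]
        congr 1
        · split_ifs <;> simp
        · rw [map_sum, Finset.sum_mul]
          exact Finset.sum_congr rfl fun j _ => by rw [map_mul]; ring
      simp only [h4, Finset.sum_sub_distrib, Finset.sum_ite_eq', Finset.mem_univ, if_true]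
      rw [Finset.sum_comm, Fin.sum_univ_succ, hT]
      simp only [Fin.cons_zero, Fin.cons_succ, ← Finset.mul_sum]
      ring
    rw [h3] at h1
    have h5 := (idealOfVars (Fin (N + 1)) K ^ 2).neg_mem h1
    refine (congrArg (· ∈ idealOfVars (Fin (N + 1)) K ^ 2) ?_).mp h5
    ring

end

end Pool.Agent.Lib.MP_17a322_nt.VA
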