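import Pool.Agent.Lib.MP_17a322_nt.VA.T3

/-!
The matrix of the invariant vector fields at a good point.
-/

universe u

namespace Pool.Agent.Lib.MP_17a322_nt.VA

open MvPolynomial

section

variable {K : Type u} [Field K] {N : ℕ} {A : AV K N}
variable {L : Type u} [Field L] [Algebra K L]

theorem AV.Frame.rep {n : ℕ} {o : Fin (N + 1) → K} {t : Fin n → Fin (N + 1) → K}
    (ht : A.Frame o t) : A.Rep (0 : A.Pts L) fun i => algebraMap K L (o i) := by
  obtain ⟨c, hc, h⟩ := ht.1
  have h1 := AV.zero_rep (A := A) (L := L)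
  have hc' : algebraMap K L c ≠ 0 := by rwa [Ne, FaithfulSMul.algebraMap_eq_zero_iff]
  have h2 := h1.smul (inv_ne_zero hc')
  have h3 : (fun i => (algebraMap K L c)⁻¹ * algebraMap K L (A.x (0 : A.Pts K) i)) =
      fun i => algebraMap K L (o i) := by
    funext i
    rw [h i, map_mul, inv_mul_cancel_left₀ hc']
  rw [h3] at h2
  exact h2

theorem AV.Frame.isT {n : ℕ} {o : Fin (N + 1) → K} {t : Fin n → Fin (N + 1) → K}
    (ht : A.Frame o t) (a : Fin n) :
    A.IsT (fun i => algebraMap K L (o i)) fun i => algebraMap K L (t a i) := by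
  have h1 := (ht.2.1 a).map (dm (Algebra.ofId K L))
  have h2 : (fun i => dm (Algebra.ofId K L)
      (TrivSqZeroExt.inl (o i) + TrivSqZeroExt.inr (t a i))) =
      dv (fun i => algebraMap K L (o i)) fun i => algebraMap K L (t a i) := by
    funext i
    rw [map_add, dm_inl, dm_inr]
    rfl
  show A.IsPt (dv _ _)
  rw [← h2]
  exact h1

theorem AV.Frame.indepL {n : ℕ} {o : Fin (N + 1) → K} {t : Fin n → Fin (N + 1) → K}
    (ht : A.Frame o t) (c : L) (lam : Fin n → L)
    (h : ∀ b, c * algebraMap K L (o b) + ∑ a, lam a * algebraMap K L (t a b) = 0) :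
    c = 0 ∧ ∀ a, lam a = 0 := by
  have h1 : LinearIndependent L fun (i : Fin (n + 1)) =>
      algebraMap K L ∘ (Fin.cons (α := fun _ => Fin (N + 1) → K) o t) i :=
    linearIndependent_algebraMap_comp_iff.2 ht.2.2
  rw [Fintype.linearIndependent_iff] at h1
  have h2 := h1 (Fin.cons (α := fun _ => L) c lam) (by
    funext b
    rw [Finset.sum_apply, Fin.sum_univ_succ]
    simp only [Pi.smul_apply, Fin.cons_zero, Fin.cons_succ, smul_eq_mul, Pi.zero_apply,
      Function.comp_apply]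
    exact h b)
  exact ⟨by simpa using h2 0, fun a => by simpa using h2 a.succ⟩

theorem Noe.exists_DS {n e : ℕ} (nd : Noe A n e) {o : Fin (N + 1) → K}
    {t : Fin n → Fin (N + 1) → K} (ht : A.Frame o t) (P : A.Pts L) (hP : nd.Good P) :
    ∃ M : Matrix (Fin n) (Fin n) L, nd.IsDS o t P M ∧ M.det ≠ 0 := by
  classical
  obtain ⟨hl, hδ⟩ := hP
  set x := A.x P with hx
  set y : Fin (N + 1) → L := fun i => (lf (nd.l 0) x)⁻¹ * x i with hy
  have hyr : A.Rep P y := (AV.Rep.self P).smul (inv_ne_zero hl)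
  have h1 : lf (nd.l 0) y = 1 := by rw [hy, lf_smul, inv_mul_cancel₀ hl]
  have hs : ∀ k : Fin n, lf (nd.l k.succ) y = nd.s P k := by
    intro k
    rw [hy, lf_smul, Noe.s, div_eq_inv_mul]
  have ho := ht.rep (L := L)
  obtain ⟨Λ, hΛ, hΛ'⟩ := exists_Lam hyr ho (nd.l 0) h1
  set τ : Fin n → Fin (N + 1) → L := fun a i => algebraMap K L (t a i) with hτ
  let M : Matrix (Fin n) (Fin n) L := Matrix.of fun k a => lf (nd.l k.succ) (Λ (τ a))
  have hDS : nd.DSv o t y (nd.s P) M := by
    intro a c' k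
    obtain ⟨w, hw⟩ := (hΛ (τ a) (ht.isT a)).2.2 c'
    have h2 : DT A o (t a) y c' = fun b => w * dv y (Λ (τ a)) b := funext hw
    rw [h2, lf_smul, lf_smul]
    have h3 : ∀ l : Fin (N + 1) → K, lf l (dv y (Λ (τ a))) =
        TrivSqZeroExt.inl (lf l y) + TrivSqZeroExt.inr (lf l (Λ (τ a))) := fun l => lf_dual l _ _
    rw [h3, h3, hs k, h1, (hΛ (τ a) (ht.isT a)).2.1, TrivSqZeroExt.inr_zero, add_zero,
      TrivSqZeroExt.inl_one, mul_one]
    rw [mul_comm]
    rfl
  refine ⟨M, ?_, ?_⟩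
  · rw [nd.isDS_iff]
    have h2 := hDS.smul nd (lf (nd.l 0) x)
    have h3 : (fun i => lf (nd.l 0) x * y i) = A.x P := by
      funext i
      rw [hy]
      dsimp only
      rw [mul_inv_cancel_left₀ hl]
    rw [h3] at h2
    exact h2
  · intro hdet
    obtain ⟨lam, hlam, hlam0⟩ := Matrix.exists_mulVec_eq_zero_iff.2 hdet
    set ξ : Fin (N + 1) → L := fun b => ∑ a, lam a * τ a b with hξ
    have hξT : A.IsT (fun i => algebraMap K L (o i)) ξ :=
      AV.IsT.sum ho.isPt Finset.univ lam τ fun a _ => ht.isT a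
    have hξ' : ξ = ∑ a, lam a • τ a := by
      funext b
      rw [Finset.sum_apply]
      rfl
    have hΛξ : Λ ξ = fun b => ∑ a, lam a * Λ (τ a) b := by
      rw [hξ', map_sum]
      funext b
      rw [Finset.sum_apply]
      refine Finset.sum_congr rfl fun a _ => ?_
      rw [map_smul]
      rfl
    have hk : ∀ k : Fin n, lf (nd.l k.succ) (Λ ξ) = 0 := by
      intro k
      rw [hΛξ, lf_sum]
      have h4 := congrFun hlam0 k
      rw [Matrix.mulVec, Pi.zero_apply] at h4
      rw [← h4, dotProduct]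
      refine Finset.sum_congr rfl fun a _ => ?_
      rw [lf_smul]
      exact mul_comm _ _
    have hδ' : aeval (fun k : Fin n => lf (nd.l k.succ) y) nd.δ ≠ 0 := by
      simp only [hs]
      exact hδ
    have h5 : Λ ξ = 0 := nd.tan_inj hyr.isPt h1 hδ' (hΛ ξ hξT).1 (hΛ ξ hξT).2.1 hk
    have h6 := hΛ' ξ hξT h5
    obtain ⟨b₀, hb₀⟩ := Function.ne_iff.1 ho.ne_zero
    rw [Pi.zero_apply] at hb₀
    have h7 : ∀ d, -(ξ b₀ / algebraMap K L (o b₀)) * algebraMap K L (o d) +
        ∑ a, lam a * algebraMap K L (t a d) = 0 := by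
      intro d
      have h8 : ∑ a, lam a * algebraMap K L (t a d) = ξ d := rfl
      rw [h8]
      have h9 := h6 b₀ d
      field_simp
      linear_combination h9
    obtain ⟨-, h10⟩ := ht.indepL _ lam h7
    exact hlam (funext h10)

end

end Pool.Agent.Lib.MP_17a322_nt.VA
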