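import Pool.Agent.Lib.MP_17a322_nt.VA.FP5
import Pool.Agent.Lib.MP_17a322_nt.VA.T4

/-!
VA, part A (formal point): a formal point at the origin over an extension.
-/

universe u

namespace Pool.Agent.Lib.MP_17a322_nt.VA

open MvPolynomial

section

variable {K : Type u} [Field K] {N : ℕ} {A : AV K N}

/-- Series over polynomials with constant term in `M` and linear term in the subalgebra `R`. -/
def FpS {M : Type u} [Field M] {n : ℕ} (R : Subalgebra M (MvPolynomial (Fin n) M))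
    (g : PowerSeries (MvPolynomial (Fin n) M)) : Prop :=
  (∃ m : M, PowerSeries.constantCoeff g = C m) ∧ PowerSeries.coeff 1 g ∈ R

theorem fpS_aeval {M : Type u} [Field M] [Algebra K M] {n : ℕ}
    (R : Subalgebra M (MvPolynomial (Fin n) M)) {σ : Type*}
    {g : σ → PowerSeries (MvPolynomial (Fin n) M)} (hg : ∀ s, FpS R (g s))
    (P : MvPolynomial σ K) : FpS R (aeval g P) := by
  have hC : ∀ m : M, (C m : MvPolynomial (Fin n) M) ∈ R := fun m => R.algebraMap_mem m
  induction P using MvPolynomial.induction_on with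
  | C a =>
    rw [aeval_C, PowerSeries.algebraMap_apply]
    refine ⟨⟨algebraMap K M a, ?_⟩, ?_⟩
    · rw [PowerSeries.constantCoeff_C]
      exact (IsScalarTower.algebraMap_apply K M (MvPolynomial (Fin n) M) a)
    · rw [PowerSeries.coeff_C, if_neg one_ne_zero]
      exact R.zero_mem
  | add p q hp hq =>
    obtain ⟨⟨m, h1⟩, h2⟩ := hp
    obtain ⟨⟨m', h1'⟩, h2'⟩ := hq
    rw [map_add]
    refine ⟨⟨m + m', ?_⟩, ?_⟩
    · rw [map_add, h1, h1', map_add]
    · rw [map_add]
      exact R.add_mem h2 h2'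
  | mul_X p i hp =>
    obtain ⟨⟨m, h1⟩, h2⟩ := hp
    obtain ⟨⟨m', h1'⟩, h2'⟩ := hg i
    rw [map_mul, aeval_X]
    refine ⟨⟨m * m', ?_⟩, ?_⟩
    · rw [map_mul, h1, h1', map_mul]
    · rw [PowerSeries.coeff_one_mul, h1, h1']
      exact R.add_mem (R.mul_mem h2 (hC _)) (R.mul_mem h2' (hC _))

theorem FpS.coeff_lf {M : Type u} [Field M] [Algebra K M] {n : ℕ} (l : Fin (N + 1) → K)
    (y : Fin (N + 1) → PowerSeries (MvPolynomial (Fin n) M)) (k : ℕ) :
    PowerSeries.coeff k (lf l y) = ∑ b, algebraMap K (MvPolynomial (Fin n) M) (l b) *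
      PowerSeries.coeff k (y b) := by
  unfold lf
  rw [map_sum]
  refine Finset.sum_congr rfl fun b _ => ?_
  rw [PowerSeries.algebraMap_apply, PowerSeries.coeff_C_mul]

/-- A formal point at the origin, over an extension. -/
theorem fp_true {n e : ℕ} (nd : Noe A n e) {o : Fin (N + 1) → K} {t : Fin n → Fin (N + 1) → K}
    (ht : A.Frame o t) {l₀ : Fin (N + 1) → K} (hl₀ : ∑ i, l₀ i * o i = 1) :
    ∃ (M : Type u) (_ : Field M) (_ : Algebra K M)
      (Z : Fin (N + 1) → PowerSeries (MvPolynomial (Fin n) M)),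
      A.IsPt Z ∧ lf l₀ Z = 1 ∧
      (∀ b, PowerSeries.constantCoeff (Z b) = C (algebraMap K M (o b))) ∧
      ∀ k : Fin n, (X k : MvPolynomial (Fin n) M) ∈
        Algebra.adjoin M (Set.range fun b => PowerSeries.coeff 1 (Z b)) := by
  obtain ⟨M, _, _, P, h0, hind⟩ := nd.indep
  refine ⟨M, inferInstance, inferInstance, ?_⟩
  -- the good point
  obtain ⟨y0, hy0d⟩ : ∃ y0 : Fin (N + 1) → M, y0 = fun a => (lf (nd.l 0) (A.x P))⁻¹ * A.x P a :=
    ⟨_, rfl⟩
  have hr0 : A.Rep P y0 := by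
    rw [hy0d]
    exact ⟨_, inv_ne_zero h0, fun i => rfl⟩
  have hl0 : lf (nd.l 0) y0 = 1 := by
    rw [hy0d, lf_smul, inv_mul_cancel₀ h0]
  have hlk : ∀ k : Fin n, lf (nd.l k.succ) y0 = lf (nd.l k.succ) (A.x P) / lf (nd.l 0) (A.x P) := by
    intro k
    rw [hy0d, lf_smul, div_eq_inv_mul]
  have hδ : aeval (fun k : Fin n => lf (nd.l k.succ) y0) nd.δ ≠ 0 := by
    intro h
    refine nd.δ_ne (hind ?_)
    rw [map_zero, ← h, funext hlk]
  obtain ⟨y, hy, hy1, hyk, hyc⟩ := fp_lift nd hr0.isPt hl0 hδ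
  let cc : PowerSeries (MvPolynomial (Fin n) M) →ₐ[K] MvPolynomial (Fin n) M :=
    { PowerSeries.constantCoeff (R := MvPolynomial (Fin n) M) with
      commutes' := fun r => by
        show PowerSeries.constantCoeff (algebraMap K (PowerSeries (MvPolynomial (Fin n) M)) r) = _
        rw [PowerSeries.algebraMap_apply, PowerSeries.constantCoeff_C] }
  have hcc : ∀ f, cc f = PowerSeries.constantCoeff f := fun _ => rfl
  let ι : M →ₐ[K] MvPolynomial (Fin n) M := IsScalarTower.toAlgHom K M (MvPolynomial (Fin n) M)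
  have hι : ∀ x, ι x = C x := fun _ => rfl
  let κ : M →ₐ[K] PowerSeries (MvPolynomial (Fin n) M) :=
    { toRingHom := (PowerSeries.C (R := MvPolynomial (Fin n) M)).comp C
      commutes' := fun r => by
        show PowerSeries.C (C (algebraMap K M r)) = _
        rw [PowerSeries.algebraMap_apply, ← MvPolynomial.algebraMap_eq,
          ← IsScalarTower.algebraMap_apply] }
  have hκ : ∀ x, κ x = PowerSeries.C (C x) := fun _ => rfl
  obtain ⟨y', hy'd⟩ : ∃ y' : Fin (N + 1) → PowerSeries (MvPolynomial (Fin n) M),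
      y' = fun b => κ (y0 b) := ⟨_, rfl⟩
  have hy' : A.IsPt y' := by rw [hy'd]; exact hr0.isPt.map κ
  have hccy : (fun b => cc (y b)) = fun b => ι (y0 b) := funext fun b => hyc b
  have hccy' : (fun b => cc (y' b)) = fun b => ι (y0 b) := by
    funext b
    rw [hcc, hy'd]
    show PowerSeries.constantCoeff (κ (y0 b)) = _
    rw [hκ, PowerSeries.constantCoeff_C, hι]
  obtain ⟨c, hc⟩ := A.exists_x_ne (P + P)
  obtain ⟨β, hβ⟩ := A.exists_x_ne (0 - P)
  -- translation by - P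
  obtain ⟨Z'', hZ''d⟩ : ∃ Z'' : Fin (N + 1) → PowerSeries (MvPolynomial (Fin n) M),
      Z'' = fun b => A.s2 y y' c b := ⟨_, rfl⟩
  have hZ''p : A.IsPt Z'' := by rw [hZ''d]; exact AV.row_isPt hy hy' c
  obtain ⟨c', hc', hs⟩ := hr0.s2 hr0
  have hor : A.Rep (0 : A.Pts M) fun i => algebraMap K M (o i) := ht.rep
  obtain ⟨c2, hc2, ho⟩ := hor
  have ho' : ∀ i, algebraMap K M (o i) = c2 * A.x (0 : A.Pts M) i := ho
  obtain ⟨ε, hεd⟩ : ∃ ε : M, ε = c' * A.x (P + P) c / c2 := ⟨_, rfl⟩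
  have hε : ε ≠ 0 := by
    rw [hεd]
    exact div_ne_zero (mul_ne_zero hc' hc) hc2
  have hsε : ∀ b, A.s2 y0 y0 c b = ε * algebraMap K M (o b) := by
    intro b
    rw [hs, sub_self, ho', hεd]
    field_simp
  have hZ''c : ∀ b, PowerSeries.constantCoeff (Z'' b) = C (ε * algebraMap K M (o b)) := by
    intro b
    rw [← hcc, hZ''d]
    show cc (A.s2 y y' c b) = _
    rw [AV.map_s2, hccy, hccy', ← AV.map_s2, hι, hsε]
  obtain ⟨w, hwd⟩ : ∃ w, w = lf l₀ Z'' := ⟨_, rfl⟩
  have hwc : PowerSeries.constantCoeff w = C ε := by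
    rw [hwd, ← hcc, lf_map]
    have h3 : (fun i => cc (Z'' i)) = fun i => ι (ε * algebraMap K M (o i)) :=
      funext fun b => hZ''c b
    rw [h3, ← lf_map, lf_smul, hι]
    have h4 : lf l₀ (fun i => algebraMap K M (o i)) = 1 := by
      unfold lf
      rw [← map_one (algebraMap K M), ← hl₀, map_sum]
      exact Finset.sum_congr rfl fun i _ => (map_mul _ _ _).symm
    rw [h4, mul_one]
  have hwu : IsUnit w := by
    rw [PowerSeries.isUnit_iff_constantCoeff, hwc]
    exact (isUnit_iff_ne_zero.mpr hε).map C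
  obtain ⟨ρ, hρ⟩ := hwu.exists_right_inv
  have hρc : PowerSeries.constantCoeff ρ = C ε⁻¹ := by
    have h3 := congrArg PowerSeries.constantCoeff hρ
    rw [map_mul, hwc, map_one] at h3
    have h4 : (C ε : MvPolynomial (Fin n) M) ≠ 0 := by rw [Ne, C_eq_zero]; exact hε
    refine mul_left_cancel₀ h4 ?_
    rw [h3, ← map_mul, mul_inv_cancel₀ hε, map_one]
  obtain ⟨Z, hZd⟩ : ∃ Z : Fin (N + 1) → PowerSeries (MvPolynomial (Fin n) M),
      Z = fun b => ρ * Z'' b := ⟨_, rfl⟩
  have hZp : A.IsPt Z := by rw [hZd]; exact hZ''p.smul ρ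
  have hZ1 : lf l₀ Z = 1 := by rw [hZd, lf_smul, ← hwd, mul_comm, hρ]
  have hZc : ∀ b, PowerSeries.constantCoeff (Z b) = C (algebraMap K M (o b)) := by
    intro b
    rw [hZd]
    show PowerSeries.constantCoeff (ρ * Z'' b) = _
    rw [map_mul, hρc, hZ''c, ← map_mul, inv_mul_cancel_left₀ hε]
  have hZ'' : Z'' = fun b => w * Z b := by
    funext b
    rw [hZd]
    show Z'' b = w * (ρ * Z'' b)
    rw [← mul_assoc, hρ, one_mul]
  refine ⟨Z, hZp, hZ1, hZc, ?_⟩
  -- back
  obtain ⟨R, hR⟩ : ∃ R, R = Algebra.adjoin M (Set.range fun b => PowerSeries.coeff 1 (Z b)) :=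
    ⟨_, rfl⟩
  rw [← hR]
  have hC : ∀ m : M, (C m : MvPolynomial (Fin n) M) ∈ R := fun m => R.algebraMap_mem m
  have hCK : ∀ a : K, algebraMap K (MvPolynomial (Fin n) M) a ∈ R := fun a => by
    rw [IsScalarTower.algebraMap_apply K M (MvPolynomial (Fin n) M)]
    exact hC _
  have hg : ∀ s, FpS R (Sum.elim Z y' s) := by
    rintro (b | b)
    · refine ⟨⟨_, hZc b⟩, ?_⟩
      rw [hR]
      exact Algebra.subset_adjoin ⟨b, rfl⟩
    · refine ⟨⟨y0 b, ?_⟩, ?_⟩
      · rw [Sum.elim_inr, hy'd]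
        show PowerSeries.constantCoeff (κ (y0 b)) = _
        rw [hκ, PowerSeries.constantCoeff_C]
      · rw [Sum.elim_inr, hy'd]
        show PowerSeries.coeff 1 (κ (y0 b)) ∈ R
        rw [hκ, PowerSeries.coeff_C, if_neg one_ne_zero]
        exact R.zero_mem
  obtain ⟨W, hWd⟩ : ∃ W : Fin (N + 1) → PowerSeries (MvPolynomial (Fin n) M),
      W = fun a => A.s2 Z y' a β := ⟨_, rfl⟩
  have hWS : ∀ a, FpS R (W a) := by
    intro a
    rw [hWd]
    exact fpS_aeval R hg (A.S a β)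
  have hW : ∀ d, y d * lf (nd.l 0) W = W d := by
    intro d
    have h3 : ∀ a, y d * W a = y a * W d := by
      intro a
      have h4 := AV.sub_add_right hy hy' a β c d
      have h5 : (fun i => A.s2 y y' c i) = fun b => w * Z b := by rw [← hZ'', hZ''d]
      rw [h5] at h4
      have h6 : ∀ a, A.s2 (fun b => w * Z b) y' a β = w ^ 2 * W a := by
        intro a
        have h7 := A.S_smul a β w 1 Z y'
        simp only [one_mul, one_pow, mul_one] at h7
        rw [hWd]
        exact h7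
      rw [h6, h6] at h4
      refine (hwu.pow 2).mul_left_cancel ?_
      linear_combination h4
    have h8 : y d * lf (nd.l 0) W = lf (nd.l 0) y * W d := by
      unfold lf
      rw [Finset.mul_sum, Finset.sum_mul]
      refine Finset.sum_congr rfl fun a _ => ?_
      linear_combination (algebraMap K _ (nd.l 0 a)) * h3 a
    rw [h8, hy1, one_mul]
  have hw0 : ∃ w0 : M, w0 ≠ 0 ∧ PowerSeries.constantCoeff (lf (nd.l 0) W) = C w0 := by
    obtain ⟨c3, hc3, hs3⟩ := (AV.Rep.s2 (A := A) ⟨c2, hc2, ho⟩ hr0 :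
      ∃ c3 : M, c3 ≠ 0 ∧ ∀ a b, A.s2 (fun i => algebraMap K M (o i)) y0 a b =
        c3 * (A.x (0 + P) a * A.x (0 - P) b))
    refine ⟨c3 * A.x (0 - P) β * lf (nd.l 0) (A.x P), mul_ne_zero (mul_ne_zero hc3 hβ) h0, ?_⟩
    rw [← hcc, lf_map]
    have h3 : (fun i => cc (W i)) = fun i => ι ((c3 * A.x (0 - P) β) * A.x P i) := by
      funext a
      rw [hWd]
      show cc (A.s2 Z y' a β) = _
      have h4 : (fun b => cc (Z b)) = fun b => ι (algebraMap K M (o b)) := funext fun b => hZc b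
      rw [AV.map_s2, h4, hccy', ← AV.map_s2, hs3, zero_add]
      congr 1
      ring
    rw [h3, ← lf_map, lf_smul, hι]
  obtain ⟨w0, hw0, hw0c⟩ := hw0
  have hlW : PowerSeries.coeff 1 (lf (nd.l 0) W) ∈ R := by
    rw [FpS.coeff_lf]
    exact R.sum_mem fun b _ => R.mul_mem (hCK _) (hWS b).2
  have hy1R : ∀ d, PowerSeries.coeff 1 (y d) ∈ R := by
    intro d
    have h3 := congrArg (PowerSeries.coeff 1) (hW d)
    rw [PowerSeries.coeff_one_mul, hw0c, hyc] at h3
    have h4 : PowerSeries.coeff 1 (y d) = C w0⁻¹ * (PowerSeries.coeff 1 (W d) -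
        PowerSeries.coeff 1 (lf (nd.l 0) W) * C (y0 d)) := by
      rw [← h3]
      have h5 : (C w0⁻¹ : MvPolynomial (Fin n) M) * C w0 = 1 := by
        rw [← map_mul, inv_mul_cancel₀ hw0, map_one]
      linear_combination (-(PowerSeries.coeff 1 (y d))) * h5
    rw [h4]
    exact R.mul_mem (hC _) (R.sub_mem (hWS d).2 (R.mul_mem hlW (hC _)))
  intro k
  have h3 : PowerSeries.coeff 1 (lf (nd.l k.succ) y) = X k := by
    rw [hyk, map_add, PowerSeries.coeff_C, if_neg one_ne_zero, zero_add, PowerSeries.coeff_mul_C,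
      PowerSeries.coeff_one_X, one_mul]
  rw [← h3, FpS.coeff_lf]
  exact R.sum_mem fun b _ => R.mul_mem (hCK _) (hy1R b)

end

end Pool.Agent.Lib.MP_17a322_nt.VA
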