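import Pool.Agent.Lib.MP_17a322_nt.VA.FP3
import Pool.Agent.Lib.MP_17a322_nt.VA.FP4
import Pool.Agent.Lib.MP_17a322_nt.VA.FP6

/-!
VA, part A: the formal point at the origin (helper79). `exists_formal` is the statement of LAInt.
-/

universe u

namespace Pool.Agent.Lib.MP_17a322_nt.VA

open MvPolynomial Height
open Pool.Agent.Lib.MP_17a322_nt.RO
open Pool.Agent.Lib.MP_17a322_nt.VJ
open Pool.Agent.Lib.MP_17a322_nt.VN

section

variable {K : Type u} [Field K] {N : ℕ} {A : AV K N}

/-- A surjective endomorphism of a noetherian ring is injective. -/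
theorem fp_noeth {R : Type*} [CommRing R] [IsNoetherianRing R] (f : R →+* R)
    (hf : Function.Surjective f) : Function.Injective f := by
  have hmono : Monotone fun k : ℕ => RingHom.ker (f ^ k) := by
    refine monotone_nat_of_le_succ fun k x hx => ?_
    rw [RingHom.mem_ker] at hx ⊢
    rw [pow_succ', RingHom.mul_def, RingHom.comp_apply, hx, map_zero]
  obtain ⟨n, hn⟩ := monotone_stabilizes_iff_noetherian.mpr
    (inferInstance : IsNoetherian R R) ⟨_, hmono⟩
  rw [injective_iff_map_eq_zero]
  intro x hx
  have hs : Function.Surjective (f ^ n) := by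
    rw [RingHom.coe_pow]
    exact hf.iterate n
  obtain ⟨y, rfl⟩ := hs x
  have h1 : y ∈ RingHom.ker (f ^ (n + 1)) := by
    rw [RingHom.mem_ker, pow_succ', RingHom.mul_def, RingHom.comp_apply, hx]
  have h2 := hn (n + 1) (Nat.le_succ n)
  have h3 : RingHom.ker (f ^ n) = RingHom.ker (f ^ (n + 1)) := h2
  rw [← h3, RingHom.mem_ker] at h1
  exact h1

/-- The linear forms of the fixed point equation. -/
noncomputable def fpg {K : Type*} [Field K] {N n : ℕ} (t : Fin n → Fin (N + 1) → K)
    (b : Fin (N + 1)) : MvPolynomial (Fin n) K :=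
  ∑ a, C (t a b) * X a

theorem fp_isHom {G : Fin (N + 1) → MvPolynomial (Fin (N + 1)) K}
    (hG : ∀ b, G b ∈ idealOfVars (Fin (N + 1)) K ^ 2) {n : ℕ} (t : Fin n → Fin (N + 1) → K)
    {V : Fin (N + 1) → PowerSeries (MvPolynomial (Fin n) K)}
    (hV : ∀ b, (PowerSeries.X : PowerSeries (MvPolynomial (Fin n) K)) ∣ V b)
    (e : ∀ b, V b = PowerSeries.X * PowerSeries.C (fpg t b) + aeval V (G b)) (b : Fin (N + 1)) :
    V b ∈ fpH K n := by
  have hℓ : ∀ b, PowerSeries.X * PowerSeries.C (fpg t b) ∈ fpH K n := by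
    intro b
    have h1 : PowerSeries.X * PowerSeries.C (fpg t b) =
        ∑ a, algebraMap K (PowerSeries (MvPolynomial (Fin n) K)) (t a b) * fpX K n a := by
      unfold fpg fpX
      rw [map_sum, Finset.mul_sum]
      refine Finset.sum_congr rfl fun a _ => ?_
      rw [PowerSeries.algebraMap_apply, MvPolynomial.algebraMap_eq, map_mul]
      ring
    rw [h1]
    exact (fpH K n).sum_mem fun a _ => (fpH K n).mul_mem ((fpH K n).algebraMap_mem _) (fpX_mem a)
  have hit : ∀ k b, fpIter (fun b => PowerSeries.X * PowerSeries.C (fpg t b)) G k b ∈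
      fpH K n := by
    intro k
    induction k with
    | zero => intro b; exact (fpH K n).zero_mem
    | succ k ih => intro b; exact (fpH K n).add_mem (hℓ b) (fp_aeval_mem _ ih)
  intro k
  have h1 := fpIter_sub (fun b => dvd_mul_right _ _) hG hV e k b
  have h2 := PowerSeries.X_pow_dvd_iff.mp h1 k (Nat.lt_succ_self k)
  rw [map_sub, sub_eq_zero] at h2
  rw [h2]
  exact hit k b k

theorem fp_coeff_one {M : Type*} [CommRing M] [Algebra K M] {G : MvPolynomial (Fin (N + 1)) K}
    (hG : G ∈ idealOfVars (Fin (N + 1)) K ^ 2) {V : Fin (N + 1) → PowerSeries M}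
    (hV : ∀ b, (PowerSeries.X : PowerSeries M) ∣ V b) :
    PowerSeries.coeff 1 (aeval V G) = 0 := by
  have h1 := fp_step hG hV (V' := fun _ => 0) (fun _ => dvd_zero _) (k := 1) fun i => by
    rw [sub_zero, pow_one]
    exact hV i
  have h2 : aeval (fun _ : Fin (N + 1) => (0 : PowerSeries M)) G = 0 := by
    have h3 : (fun _ : Fin (N + 1) => (0 : PowerSeries M)) =
        fun i => algebraMap K (PowerSeries M) ((fun _ => (0 : K)) i) := by
      funext i
      rw [map_zero]
    have h4 : aeval (fun _ : Fin (N + 1) => (0 : K)) G = 0 := by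
      have h5 := (mem_pow_idealOfVars_iff' 2 G).mp hG 0 (by simp)
      have h6 : aeval (fun _ : Fin (N + 1) => (0 : K)) G = constantCoeff G := by
        have := MvPolynomial.aeval_zero (R := K) (S₁ := K) G
        simpa [Pi.zero_def] using this
      rw [h6]
      exact h5
    rw [h3, aeval_algMap, h4, map_zero]
  rw [h2, sub_zero] at h1
  exact PowerSeries.X_pow_dvd_iff.mp h1 1 (by norm_num)

/-- Part A (helper1): the formal point at the origin. -/
theorem exists_formal {K : Type u} [Field K] [CharZero K] {N : ℕ} (A : AV K N) {n e : ℕ}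
    (nd : Noe A n e) (o : Fin (N + 1) → K) (t : Fin n → Fin (N + 1) → K) (ht : A.Frame o t) :
    ∃ (Z : Fin (N + 1) → MvPowerSeries (Fin n) K) (κ : SC K), A.IsPt Z ∧
      (∀ b, MvPowerSeries.constantCoeff (Z b) = o b) ∧
      (∀ b a, MvPowerSeries.coeff (Finsupp.single a 1) (Z b) = t a b) ∧
      ∀ (L : Type u) [Field L] [Algebra K L] (v : AbsoluteValue L ℝ) (α : Fin n →₀ ℕ)
        (b : Fin (N + 1)),
        v (algebraMap K L (MvPowerSeries.coeff α (Z b))) ≤ κ.k v ^ (α.degree + 1) := by
  classical
  obtain ⟨l₀, lam, h, G, hl₀, hlam, hI, hG, hGd⟩ := fp_data nd ht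
  have ho : A.IsPt o := (ht.rep (L := K)).isPt
  obtain ⟨V, hV, e⟩ := fp_exists (K := K) (A := MvPolynomial (Fin n) K)
    (ℓ := fun b => PowerSeries.X * PowerSeries.C (fpg t b)) (fun b => dvd_mul_right _ _) hG
  have hVH := fp_isHom hG t hV e
  obtain ⟨Zm, hZm⟩ : ∃ Zm : Fin (N + 1) → MvPowerSeries (Fin n) K, ∀ b, Zm b = fpMv (V b) :=
    ⟨_, fun _ => rfl⟩
  have hZmV : ∀ b, fpS (K := K) (fpX_dvd (K := K) (n := n)) (Zm b) = V b := fun b => by
    rw [hZm, fpS_fpMv (hVH b)]
  have hZmc : ∀ (b : Fin (N + 1)) (α : Fin n →₀ ℕ), MvPowerSeries.coeff α (Zm b) =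
      MvPolynomial.coeff α (PowerSeries.coeff α.degree (V b)) := fun b α => by
    rw [hZm]
    rfl
  -- the equation for `Zm`
  have hZe : ∀ b, Zm b = (∑ a, algebraMap K (MvPowerSeries (Fin n) K) (t a b) *
      MvPowerSeries.X a) + aeval Zm (G b) := by
    intro b
    apply fpS_fpX_injective
    rw [hZmV, map_add, map_sum]
    have h1 : fpS (K := K) (fpX_dvd (K := K) (n := n)) (aeval Zm (G b)) = aeval V (G b) := by
      rw [← AlgHom.comp_apply, MvPolynomial.comp_aeval]
      congr 2
      exact funext hZmV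
    have h2 : ∑ a, fpS (K := K) (fpX_dvd (K := K) (n := n))
        (algebraMap K (MvPowerSeries (Fin n) K) (t a b) * MvPowerSeries.X a) =
        PowerSeries.X * PowerSeries.C (fpg t b) := by
      unfold fpg
      rw [map_sum, Finset.mul_sum]
      refine Finset.sum_congr rfl fun a _ => ?_
      rw [map_mul, fpS_X, AlgHom.commutes, PowerSeries.algebraMap_apply,
        MvPolynomial.algebraMap_eq, map_mul]
      unfold fpX
      ring
    rw [h1, h2]
    exact e b
  obtain ⟨Z, hZ⟩ : ∃ Z : Fin (N + 1) → MvPowerSeries (Fin n) K,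
      ∀ b, Z b = algebraMap K (MvPowerSeries (Fin n) K) (o b) + Zm b := ⟨_, fun _ => rfl⟩
  have hcZ : ∀ (b : Fin (N + 1)) (α : Fin n →₀ ℕ), MvPowerSeries.coeff α (Z b) =
      (if α = 0 then o b else 0) + MvPolynomial.coeff α (PowerSeries.coeff α.degree (V b)) := by
    intro b α
    rw [hZ, map_add, hZmc, MvPowerSeries.algebraMap_apply, MvPowerSeries.coeff_C]
    rfl
  have hV0 : ∀ b, PowerSeries.coeff 0 (V b) = 0 := fun b =>
    PowerSeries.X_pow_dvd_iff.mp (by rw [pow_one]; exact hV b : PowerSeries.X ^ 1 ∣ V b) 0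
      (by norm_num)
  -- size constants
  obtain ⟨E, hE⟩ : ∃ E : SC K, ∀ (L : Type u) [Field L] [Algebra K L] (v : AbsoluteValue L ℝ),
      max (cst v 2) (max (∏ b, max 1 (NV v (MvPolynomial.map (algebraMap K L) (G b))))
        (max (∏ b, max 1 (NV v (MvPolynomial.map (algebraMap K L) (fpg t b))))
          (∏ b, max 1 (v (algebraMap K L (o b)))))) ≤ E.k v := by
    have h1 := (Adm_cst (K := K) 2).max ((Adm.prod Finset.univ
      (fun b L _ _ v => max 1 (NV v (MvPolynomial.map (algebraMap K L) (G b))))
      (fun b _ => Adm_NV (G b)) fun b _ L _ _ v => zero_le_one.trans (le_max_left _ _)).max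
      ((Adm.prod Finset.univ
      (fun b L _ _ v => max 1 (NV v (MvPolynomial.map (algebraMap K L) (fpg t b))))
      (fun b _ => Adm_NV (fpg t b)) fun b _ L _ _ v => zero_le_one.trans (le_max_left _ _)).max
      (Adm.prod Finset.univ (fun b L _ _ v => max 1 (v (algebraMap K L (o b))))
      (fun b _ => Adm_abv (o b)) fun b _ L _ _ v => zero_le_one.trans (le_max_left _ _))))
    exact h1.exists_SC
  refine ⟨Z, E.pw 4, ?_, ?_, ?_, ?_⟩
  · -- the equations
    obtain ⟨M, _, _, Z', hZ'p, hZ'1, hZ'c, hZ'X⟩ := fp_true nd ht hl₀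
    obtain ⟨φ, hφd⟩ : ∃ φ : Fin n → PowerSeries (MvPolynomial (Fin n) M),
        φ = fun a => lf (lam a) Z' := ⟨_, rfl⟩
    have hfo : ∀ l : Fin (N + 1) → K, PowerSeries.constantCoeff (lf l Z') =
        C (algebraMap K M (∑ i, l i * o i)) := by
      intro l
      have h1 := FpS.coeff_lf l Z' 0
      rw [PowerSeries.coeff_zero_eq_constantCoeff_apply] at h1
      rw [h1, map_sum, map_sum]
      refine Finset.sum_congr rfl fun i _ => ?_
      rw [PowerSeries.coeff_zero_eq_constantCoeff_apply, hZ'c, map_mul, map_mul,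
        IsScalarTower.algebraMap_apply K M (MvPolynomial (Fin n) M), MvPolynomial.algebraMap_eq]
    have hφ : ∀ a, (PowerSeries.X : PowerSeries (MvPolynomial (Fin n) M)) ∣ φ a := by
      intro a
      rw [PowerSeries.X_dvd_iff, hφd]
      show PowerSeries.constantCoeff (lf (lam a) Z') = 0
      rw [hfo, hlam, map_zero, map_zero]
    obtain ⟨V2, hV2d⟩ : ∃ V2 : Fin (N + 1) → PowerSeries (MvPolynomial (Fin n) M),
        V2 = fun b => Z' b - algebraMap K _ (o b) := ⟨_, rfl⟩
    have hV2 : ∀ b, (PowerSeries.X : PowerSeries (MvPolynomial (Fin n) M)) ∣ V2 b := by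
      intro b
      rw [PowerSeries.X_dvd_iff, hV2d]
      show PowerSeries.constantCoeff (Z' b - algebraMap K _ (o b)) = 0
      rw [map_sub, hZ'c, PowerSeries.algebraMap_apply, PowerSeries.constantCoeff_C,
        IsScalarTower.algebraMap_apply K M (MvPolynomial (Fin n) M), MvPolynomial.algebraMap_eq,
        sub_self]
    have hlfV2 : ∀ l : Fin (N + 1) → K, aeval V2 (∑ i, C (l i) * X i) =
        lf l Z' - algebraMap K _ (∑ i, l i * o i) := by
      intro l
      rw [map_sum, map_sum]
      unfold lf
      rw [← Finset.sum_sub_distrib]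
      refine Finset.sum_congr rfl fun i _ => ?_
      rw [map_mul, aeval_C, aeval_X, hV2d, map_mul]
      ring
    have e2 : ∀ b, V2 b = (∑ a, algebraMap K _ (t a b) * φ a) + aeval V2 (G b) := by
      intro b
      have h1 : aeval V2 (aeval (fun i => C (o i) + X i) (h b)) = 0 := by
        have h2 : aeval V2 (aeval (fun i => C (o i) + X i) (h b)) = aeval Z' (h b) := by
          rw [← AlgHom.comp_apply, MvPolynomial.comp_aeval]
          congr 2
          funext i
          rw [map_add, aeval_C, aeval_X, hV2d]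
          ring
        rw [h2]
        exact hZ'p _ (hI b)
      rw [hGd b, map_sub, map_sub, map_sub, h1, sub_zero, map_mul, hlfV2, hZ'1, hl₀, map_one,
        sub_self, mul_zero, sub_zero, aeval_X, map_sum]
      have h3 : ∑ a : Fin n, aeval V2 (C (t a b) * ∑ i, C (lam a i) * X i) =
          ∑ a, algebraMap K (PowerSeries (MvPolynomial (Fin n) M)) (t a b) * φ a := by
        refine Finset.sum_congr rfl fun a _ => ?_
        rw [map_mul, aeval_C, hlfV2, hlam, map_zero, sub_zero, hφd]
      rw [h3]
      ring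
    obtain ⟨V1, hV1d⟩ : ∃ V1 : Fin (N + 1) → PowerSeries (MvPolynomial (Fin n) M),
        V1 = fun b => fpS (K := K) hφ (Zm b) := ⟨_, rfl⟩
    have e1 : ∀ b, V1 b = (∑ a, algebraMap K _ (t a b) * φ a) + aeval V1 (G b) := by
      intro b
      have h1 := congrArg (fpS (K := K) hφ) (hZe b)
      rw [map_add, map_sum, ← AlgHom.comp_apply, MvPolynomial.comp_aeval] at h1
      rw [hV1d]
      refine h1.trans ?_
      congr 1
      refine Finset.sum_congr rfl fun a _ => ?_
      rw [map_mul, fpS_X, AlgHom.commutes]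
    have hZm0 : ∀ b, MvPowerSeries.constantCoeff (Zm b) = 0 := by
      intro b
      rw [← MvPowerSeries.coeff_zero_eq_constantCoeff_apply, hZmc]
      have : (0 : Fin n →₀ ℕ).degree = 0 := map_zero _
      rw [this, hV0, MvPolynomial.coeff_zero]
    have hV1 : ∀ b, (PowerSeries.X : PowerSeries (MvPolynomial (Fin n) M)) ∣ V1 b := by
      intro b
      rw [PowerSeries.X_dvd_iff, hV1d]
      show PowerSeries.constantCoeff (fpS (K := K) hφ (Zm b)) = 0
      have h1 := coeff_fpS hφ (Zm b) 0 fun d hd => absurd hd (Nat.not_lt_zero _)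
      rw [PowerSeries.coeff_zero_eq_constantCoeff_apply] at h1
      rw [h1]
      have h2 : fpD (Zm b) 0 = 0 := by
        ext d
        rw [coeff_fpD, MvPolynomial.coeff_zero]
        split_ifs with hd
        · have hd' : d = 0 := by
            rwa [Finsupp.degree_eq_zero_iff] at hd
          rw [hd']
          exact hZm0 b
        · rfl
      rw [h2, map_zero]
    have h12 : V1 = V2 := fp_unique (fun b => Finset.dvd_sum fun a _ => (hφ a).mul_left _) hG
      hV1 e1 hV2 e2
    have hfZ : ∀ b, fpS (K := K) hφ (Z b) = Z' b := by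
      intro b
      rw [hZ, map_add, AlgHom.commutes]
      have h1 := congrFun h12 b
      rw [hV1d, hV2d] at h1
      have h2 : fpS (K := K) hφ (Zm b) = Z' b - algebraMap K _ (o b) := h1
      rw [h2]
      ring
    -- injectivity
    have hc1 : ∀ b, PowerSeries.coeff 1 (Z' b) =
        ∑ a, algebraMap K (MvPolynomial (Fin n) M) (t a b) * PowerSeries.coeff 1 (φ a) := by
      intro b
      have h1 := congrArg (PowerSeries.coeff 1) (e2 b)
      rw [map_add, fp_coeff_one (hG b) hV2, add_zero, map_sum] at h1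
      have h2 : PowerSeries.coeff 1 (V2 b) = PowerSeries.coeff 1 (Z' b) := by
        rw [hV2d]
        show PowerSeries.coeff 1 (Z' b - algebraMap K _ (o b)) = _
        rw [map_sub, PowerSeries.algebraMap_apply, PowerSeries.coeff_C, if_neg one_ne_zero,
          sub_zero]
      rw [← h2, h1]
      refine Finset.sum_congr rfl fun a _ => ?_
      rw [PowerSeries.algebraMap_apply, PowerSeries.coeff_C_mul]
    have hinj : Function.Injective (aeval (fun a => PowerSeries.coeff 1 (φ a)) :
        MvPolynomial (Fin n) K →ₐ[K] MvPolynomial (Fin n) M) := by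
      let Λ : MvPolynomial (Fin n) M →ₐ[M] MvPolynomial (Fin n) M :=
        aeval fun a => PowerSeries.coeff 1 (φ a)
      have hΛX : ∀ a, PowerSeries.coeff 1 (φ a) ∈ Λ.range := fun a => ⟨X a, by
        show Λ (X a) = _
        exact aeval_X _ _⟩
      have hΛ : Function.Surjective Λ := by
        have h1 : Algebra.adjoin M (Set.range fun b => PowerSeries.coeff 1 (Z' b)) ≤ Λ.range := by
          rw [Algebra.adjoin_le_iff]
          rintro _ ⟨b, rfl⟩
          show PowerSeries.coeff 1 (Z' b) ∈ Λ.range
          rw [hc1]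
          refine Λ.range.sum_mem fun a _ => Λ.range.mul_mem ?_ (hΛX a)
          rw [IsScalarTower.algebraMap_apply K M (MvPolynomial (Fin n) M)]
          exact Λ.range.algebraMap_mem _
        have h2 : (⊤ : Subalgebra M (MvPolynomial (Fin n) M)) ≤ Λ.range := by
          rw [← MvPolynomial.adjoin_range_X, Algebra.adjoin_le_iff]
          rintro _ ⟨k, rfl⟩
          exact h1 (hZ'X k)
        intro p
        exact h2 Algebra.mem_top
      have hΛi : Function.Injective Λ :=
        fp_noeth Λ.toRingHom hΛ
      intro p q hpq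
      apply MvPolynomial.map_injective (algebraMap K M) (algebraMap K M).injective
      apply hΛi
      show aeval (fun a => PowerSeries.coeff 1 (φ a)) (MvPolynomial.map (algebraMap K M) p) =
        aeval (fun a => PowerSeries.coeff 1 (φ a)) (MvPolynomial.map (algebraMap K M) q)
      rw [aeval_map_algebraMap, aeval_map_algebraMap]
      exact hpq
    intro f hf
    apply fpS_injective hφ hinj
    rw [← AlgHom.comp_apply, MvPolynomial.comp_aeval]
    have h1 : (fun i => fpS (K := K) hφ (Z i)) = Z' := funext hfZ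
    rw [h1]
    exact hZ'p f hf
  · intro b
    rw [← MvPowerSeries.coeff_zero_eq_constantCoeff_apply, hcZ, if_pos rfl]
    have : (0 : Fin n →₀ ℕ).degree = 0 := map_zero _
    rw [this, hV0, MvPolynomial.coeff_zero, add_zero]
  · intro b a
    have h0 : (Finsupp.single a 1 : Fin n →₀ ℕ) ≠ 0 := by
      rw [Ne, Finsupp.single_eq_zero]
      exact one_ne_zero
    have h1 : (Finsupp.single a 1 : Fin n →₀ ℕ).degree = 1 := Finsupp.degree_single a 1
    rw [hcZ, if_neg h0, zero_add, h1, e b, map_add, fp_coeff_one (hG b) hV, add_zero,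
      PowerSeries.coeff_mul_C, PowerSeries.coeff_one_X, one_mul]
    unfold fpg
    rw [MvPolynomial.coeff_sum, Finset.sum_eq_single a]
    · rw [MvPolynomial.coeff_C_mul, MvPolynomial.coeff_X, if_pos rfl, mul_one]
    · intro a' _ ha'
      rw [MvPolynomial.coeff_C_mul, MvPolynomial.coeff_X, if_neg, mul_zero]
      intro h2
      exact ha' (Finsupp.single_left_injective one_ne_zero h2)
    · intro h2
      exact absurd (Finset.mem_univ a) h2
  · intro L _ _ v α b
    obtain ⟨c, hcd⟩ : ∃ c : ℝ, c = E.k v := ⟨_, rfl⟩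
    have hc1 : 1 ≤ c := by rw [hcd]; exact E.one_le v
    have hEv := hE L v
    rw [← hcd] at hEv
    have hκ : c ^ 4 ≤ (E.pw 4).k v := by rw [hcd]; exact E.pow_le 4 v
    have h4 : 1 ≤ c ^ 4 := one_le_pow₀ hc1
    have hκ1 : 1 ≤ (E.pw 4).k v := h4.trans hκ
    have hcG : ∀ b, NV v (MvPolynomial.map (algebraMap K L) (G b)) ≤ c := fun b =>
      ((le_max_right 1 _).trans (le_prod_max Finset.univ
        (fun b => max 1 (NV v (MvPolynomial.map (algebraMap K L) (G b))))
        (fun _ _ => le_max_left _ _) (Finset.mem_univ b))).trans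
        (((le_max_left _ _).trans (le_max_right _ _)).trans hEv)
    have hcg : ∀ b, NV v (MvPolynomial.map (algebraMap K L) (fpg t b)) ≤ c := fun b =>
      ((le_max_right 1 _).trans (le_prod_max Finset.univ
        (fun b => max 1 (NV v (MvPolynomial.map (algebraMap K L) (fpg t b))))
        (fun _ _ => le_max_left _ _) (Finset.mem_univ b))).trans
        (((le_max_left _ _).trans ((le_max_right _ _).trans (le_max_right _ _))).trans hEv)
    have hco : ∀ b, v (algebraMap K L (o b)) ≤ c := fun b =>
      ((le_max_right 1 _).trans (le_prod_max Finset.univ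
        (fun b => max 1 (v (algebraMap K L (o b))))
        (fun _ _ => le_max_left _ _) (Finset.mem_univ b))).trans
        (((le_max_right _ _).trans ((le_max_right _ _).trans (le_max_right _ _))).trans hEv)
    by_cases hα : α = 0
    · have h5 : (0 : Fin n →₀ ℕ).degree = 0 := map_zero _
      rw [hcZ, if_pos hα, hα, h5, hV0, MvPolynomial.coeff_zero, add_zero, zero_add, pow_one]
      exact (hco b).trans ((le_self_pow₀ hc1 (by norm_num)).trans hκ)
    · rw [hcZ, if_neg hα, zero_add]
      let Ψ : MvPolynomial (Fin n) K →ₐ[K] MvPolynomial (Fin n) L :=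
        { MvPolynomial.map (algebraMap K L) with
          commutes' := fun r => by
            show MvPolynomial.map (algebraMap K L) (algebraMap K (MvPolynomial (Fin n) K) r) = _
            rw [MvPolynomial.algebraMap_eq, map_C,
              IsScalarTower.algebraMap_apply K L (MvPolynomial (Fin n) L),
              MvPolynomial.algebraMap_eq] }
      have hΨ : ∀ p, Ψ p = MvPolynomial.map (algebraMap K L) p := fun _ => rfl
      let Ψ' : PowerSeries (MvPolynomial (Fin n) K) →ₐ[K] PowerSeries (MvPolynomial (Fin n) L) :=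
        { PowerSeries.map Ψ.toRingHom with
          commutes' := fun r => by
            show PowerSeries.map Ψ.toRingHom
              (algebraMap K (PowerSeries (MvPolynomial (Fin n) K)) r) = _
            rw [PowerSeries.algebraMap_apply, PowerSeries.map_C, PowerSeries.algebraMap_apply]
            exact congrArg _ (Ψ.commutes r) }
      have hΨ' : ∀ f, Ψ' f = PowerSeries.map Ψ.toRingHom f := fun _ => rfl
      obtain ⟨VL, hVL⟩ : ∃ VL : Fin (N + 1) → PowerSeries (MvPolynomial (Fin n) L),
          VL = fun b => Ψ' (V b) := ⟨_, rfl⟩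
      have hVLX : ∀ b, (PowerSeries.X : PowerSeries (MvPolynomial (Fin n) L)) ∣ VL b := by
        intro b
        rw [hVL]
        have := map_dvd Ψ' (hV b)
        rwa [hΨ' PowerSeries.X, PowerSeries.map_X] at this
      have eL : ∀ b, VL b = PowerSeries.X * PowerSeries.C (Ψ (fpg t b)) + aeval VL (G b) := by
        intro b
        have h5 := congrArg Ψ' (e b)
        rw [map_add, map_mul, hΨ' PowerSeries.X, PowerSeries.map_X, hΨ' (PowerSeries.C _),
          PowerSeries.map_C, ← AlgHom.comp_apply, MvPolynomial.comp_aeval] at h5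
        rw [hVL]
        exact h5
      have h6 := fp_size (SN_NV v) hG hc1 ((le_max_left _ _).trans hEv) hcG
        (g := fun b => Ψ (fpg t b)) (fun b => hcg b) hVLX eL b α.degree
      have h7 : v (algebraMap K L (MvPolynomial.coeff α (PowerSeries.coeff α.degree (V b)))) ≤
          (c ^ 4) ^ α.degree := by
        refine le_trans ?_ h6
        have h8 : algebraMap K L (MvPolynomial.coeff α (PowerSeries.coeff α.degree (V b))) =
            MvPolynomial.coeff α (PowerSeries.coeff α.degree (VL b)) := by
          rw [hVL]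
          show _ = MvPolynomial.coeff α (PowerSeries.coeff α.degree (Ψ' (V b)))
          rw [hΨ', PowerSeries.coeff_map]
          show _ = MvPolynomial.coeff α (MvPolynomial.map (algebraMap K L) _)
          rw [MvPolynomial.coeff_map]
        rw [h8]
        exact coeff_le_NV v _ α
      refine h7.trans ((pow_le_pow_left₀ (by positivity) hκ _).trans ?_)
      exact pow_le_pow_right₀ hκ1 (Nat.le_succ _)

end

end Pool.Agent.Lib.MP_17a322_nt.VA
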