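import Pool.Agent.Lib.MP_17a322_nt.VA.LA6
import Pool.Agent.Lib.MP_17a322_nt.VA.FP7

/-!
VA, part LA: the path, its translate and the difference, for one block.
-/

universe u

namespace Pool.Agent.Lib.MP_17a322_nt.VA

open MvPolynomial Height
open Pool.Agent.Lib.MP_17a322_nt.RO
open Pool.Agent.Lib.MP_17a322_nt.VJ
open Pool.Agent.Lib.MP_17a322_nt.VN

theorem exists_block {K : Type u} [Field K] [CharZero K] {N : ℕ} (A : AV K N) {n e c : ℕ}
    (nd : Noe A n e) (rr : Fin c → Fin n) (hrr : Function.Injective rr) (o : Fin (N + 1) → K)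
    (t : Fin n → Fin (N + 1) → K) (ht : A.Frame o t) (κ : SC K) (D : ℕ) :
    ∃ (E : SC K) (c₀ : ℕ), ∀ (P : A.Pts K) (q' : Fin c → MvPolynomial (Fin n) K)
      (Mx : Matrix (Fin n) (Fin n) K), nd.Good P → IsEq nd rr D P q' → nd.IsDS o t P Mx →
      ∀ (L : Type u) [Field L] [Algebra K L] {m : ℕ} (i : Fin m) (w : ℕ) (ζ : Fin n → L)
        (M : Fin (N + 1) → L) (q : Fin n → L) (hw : 0 < w),
        (∀ a, ∃ k, 0 < k ∧ ζ a ^ k = 1) → A.IsPt M → M ≠ 0 →
        (∃ a, lf (nd.l 0) (A.col a (fun b => algebraMap K L (nd.y P b)) M) ≠ 0) →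
        (∀ (a : Fin (N + 1)) (k : Fin n),
          lf (nd.l k.succ) (A.col a (fun b => algebraMap K L (nd.y P b)) M) =
            q k * lf (nd.l 0) (A.col a (fun b => algebraMap K L (nd.y P b)) M)) →
        ∃ (y : Fin (N + 1) → D2 L (Fin m × Fin n)) (ξ : Fin n → D2 L (Fin m × Fin n)),
          A.IsPt y ∧ lf (nd.l 0) y = 1 ∧ (∀ b, HS i (y b)) ∧ (∀ k, HS i (ξ k)) ∧
          (∀ b, PowerSeries.constantCoeff (PowerSeries.constantCoeff (y b)) =
            C (algebraMap K L (nd.y P b))) ∧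
          (∀ k, k ∉ Set.range rr → PowerSeries.constantCoeff (lf (nd.l k.succ) y) =
            PowerSeries.C (C (algebraMap K L (nd.s P k))) +
              PowerSeries.C (C (ζ k)) * PowerSeries.X ^ w) ∧
          (∀ b, aeval (fun k : Fin n => PowerSeries.constantCoeff (lf (nd.l k.succ) y))
            (q' b) = 0) ∧
          (∀ b, IsUnit (aeval (fun k : Fin n => PowerSeries.constantCoeff (lf (nd.l k.succ) y))
            (pderiv (rr b) (q' b)))) ∧
          (∀ k, PowerSeries.constantCoeff (PowerSeries.coeff 1 (lf (nd.l k.succ) y)) =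
            ∑ a, C (algebraMap K L (Mx k a)) * X (i, a)) ∧
          (∀ (a : Fin (N + 1)) (k : Fin n), ξ k * lf (nd.l 0) (A.col a y (c2 L _ M)) =
            lf (nd.l k.succ) (A.col a y (c2 L _ M))) ∧
          (∀ k, PowerSeries.constantCoeff (PowerSeries.constantCoeff (ξ k)) = C (q k)) ∧
          (∀ b, y b ∈ Set.range (Exp L (Fin m × Fin n) w hw.ne')) ∧
          ∀ v : AbsoluteValue L ℝ, (0 < rad nd rr E c₀ P q' v ∧ rad nd rr E c₀ P q' v ≤ 1) ∧
            PKG nd κ E w v (fun b => algebraMap K L (nd.y P b)) M q y ξ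
              (rad nd rr E c₀ P q' v) := by
  obtain ⟨Z, κZ, hZ, hZ0, hZ1, hZs⟩ := exists_formal A nd o t ht
  exact exists_block_of A nd rr hrr o t ht κ D Z κZ hZ hZ0 hZ1 hZs

end Pool.Agent.Lib.MP_17a322_nt.VA
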