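import Pool.Agent.Lib.MP_17a322_nt.VA.LB10
import Pool.Agent.Lib.MP_17a322_nt.VA.LA7
import Pool.Agent.Lib.MP_17a322_nt.VA.E17
import Pool.Agent.Lib.MP_17a322_nt.VA.CL2
import Pool.Agent.Lib.MP_17a322_nt.VA.C12
import Pool.Agent.Lib.MP_17a322_nt.VN.L1w

/-!
The numerical theorem for abelian varieties.
-/

universe u

namespace Pool.Agent.Lib.MP_17a322_nt.VA

open MvPolynomial Height
open Pool.Agent.Lib.MP_17a322_nt.RO
open Pool.Agent.Lib.MP_17a322_nt.VJ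
open Pool.Agent.Lib.MP_17a322_nt.VN

theorem S {K : Type u} [Field K] [NumberField K] {N : ℕ} (A : AV K N) {k c e₀ : ℕ}
    (rr : Fin c → Fin (k + 2)) (hrr : Function.Injective rr) (_hc : c < k + 2)
    (nd : Noe A (k + 2) e₀) (o : Fin (N + 1) → K) (t : Fin (k + 2) → Fin (N + 1) → K)
    (ht : A.Frame o t) (κ : SC K) (e D : ℕ) (ε : ℝ) (hε : 0 < ε) :
    ∃ (m D' R₀ : ℕ) (C₀ η : ℝ), 0 < m ∧ 0 ≤ C₀ ∧ 0 < η ∧
      ∀ (P₀ : A.Pts K) (P : Fin m → A.Pts K) (j : Fin m → ℕ) (ρ : Fin m → REP K (k + 2) e)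
        (q : Fin m → Fin c → MvPolynomial (Fin (k + 2)) K)
        (M : Fin m → Matrix (Fin (k + 2)) (Fin (k + 2)) K)
        (E : Fin m → Fin c → Fin (k + 2) → K) (U : Fin m → Matrix (Fin c) (Fin c) K),
      (∀ i, R₀ ≤ 4 ^ j i) → (∀ i i', i < i' → R₀ * 4 ^ j i ≤ 4 ^ j i') →
      (∀ i, nd.Good (P i)) →
      (∀ i, (ρ i).Deg D) → (∀ i, (ρ i).ht ≤ 4 ^ j i) →
      (∀ i, eval (nd.s (P i)) ((ρ i).z 0) ≠ 0 ∨ eval (nd.s (P i)) ((ρ i).z 1) ≠ 0) →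
      (∀ i, ε * A.h (P i) ≤
        nd.gn κ (P i) (eval (nd.s (P i)) ((ρ i).z 0)) (eval (nd.s (P i)) ((ρ i).z 1))) →
      (∀ i b, (∀ b', b' ≠ b → (q i b).degreeOf (rr b') = 0) ∧ (∀ a, (q i b).degreeOf a ≤ D) ∧
        nh (q i b) ≤ 4 ^ j i ∧ eval (nd.s (P i)) (q i b) = 0 ∧
        eval (nd.s (P i)) (pderiv (rr b) (q i b)) ≠ 0) →
      (∀ i, nd.IsDS o t (P i) (M i)) →
      (∀ i, (U i).det ≠ 0) →
      (∀ i b a, E i b a = ∑ r, U i b r * ∑ l,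
        eval (nd.s (P i)) (pderiv l (q i r)) * M i l a) →
      (∀ i, ∀ b < c, ε * A.h (P i) + wh (E i) b ≤ wh (E i) (b + 1)) →
      C₀ ≤ A.h P₀ →
      (∀ i, A.h (P i - 2 ^ j i • P₀) ≤ η * (4 ^ j i * A.h P₀)) →
      (∀ i, |A.h (P i) - 4 ^ j i * A.h P₀| ≤ η * (4 ^ j i * A.h P₀)) →
      ∃ (i : Fin m) (G : MvPolynomial (Fin (k + 2)) K), G ≠ 0 ∧
        (∀ b, G.degreeOf (rr b) = 0) ∧ (∀ a, G.degreeOf a ≤ D') ∧
        nh G ≤ C₀ * 4 ^ j i ∧ eval (nd.s (P i)) G = 0 := by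
  classical
  obtain ⟨E₀, c₀', hblock⟩ := exists_block A nd rr hrr o t ht κ D
  obtain ⟨Cw, hCw, hw⟩ := exists_hw nd
  obtain ⟨c₀, hc₀⟩ := exists_auxA nd e D
  obtain ⟨m, hm1, hm⟩ := choose_m ((k + 2) ^ 2 * c₀) ε hε
  obtain ⟨N', CA, hN1, hN2, hCA, haux⟩ := hc₀ m hm1
  have hNε := hm ((k + 2) * N') (by
    rw [mul_pow, mul_assoc]
    exact Nat.mul_le_mul_left _ hN2)
  obtain ⟨C, hC, hend⟩ := exists_endA nd rr κ E₀ c₀' D e m N' hN1 Cw hCw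
  obtain ⟨CF, hCF⟩ : ∃ CF : ℝ, CF = CA * (m + 1) := ⟨_, rfl⟩
  obtain ⟨B, hB⟩ : ∃ B : ℝ, B = CF + Module.finrank ℚ K * (((k + 2 : ℕ) : ℝ) * (m + 1)) :=
    ⟨_, rfl⟩
  have hCF0 : 0 ≤ CF := by rw [hCF]; positivity
  have hB0 : 0 ≤ B := by rw [hB]; positivity
  obtain ⟨NN, hNN⟩ : ∃ NN : ℝ, NN = ((k + 2) * N' : ℕ) := ⟨_, rfl⟩
  have hNN0 : 0 ≤ NN := by rw [hNN]; exact Nat.cast_nonneg _
  have hden : 0 < 8 * ((NN + 1) * (2 * C + 2)) := by positivity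
  obtain ⟨s₁, hs₁⟩ : ∃ s₁ : ℝ, s₁ = ε / (8 * ((NN + 1) * (2 * C + 2))) := ⟨_, rfl⟩
  have hs₁0 : 0 < s₁ := by rw [hs₁]; exact div_pos hε hden
  obtain ⟨D', R₁, B', C₁, hB', hC₁, hlow⟩ := E14 A nd rr hrr m D s₁ B hs₁0 hB0
  obtain ⟨C₂, hC₂⟩ : ∃ C₂ : ℝ, C₂ = C₁ + 1 := ⟨_, rfl⟩
  have hC₂0 : 0 < C₂ := by rw [hC₂]; linarith
  obtain ⟨s₀, hs₀⟩ : ∃ s₀ : ℝ, s₀ = s₁ / C₂ := ⟨_, rfl⟩
  have hs₀0 : 0 < s₀ := by rw [hs₀]; exact div_pos hs₁0 hC₂0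
  have hs₀C : s₀ * C₂ = s₁ := by rw [hs₀]; exact div_mul_cancel₀ s₁ hC₂0.ne'
  have hs₀1 : s₀ * (C₂ * NN) * (2 * C + 2) ≤ ε / 8 := by
    rw [← mul_assoc s₀, hs₀C]
    have h1 : s₁ * (8 * ((NN + 1) * (2 * C + 2))) = ε := by
      rw [hs₁]
      exact div_mul_cancel₀ ε hden.ne'
    have h2 : 0 ≤ s₁ * (2 * C + 2) := mul_nonneg hs₁0.le (by linarith)
    have h3 : s₁ * (8 * ((NN + 1) * (2 * C + 2))) =
      8 * (s₁ * NN * (2 * C + 2)) + 8 * (s₁ * (2 * C + 2)) := by ring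
    linarith
  obtain ⟨η, C₃, hη, hC₃, hnum⟩ := numeric_end 1 m ((k + 2) * N') ε C C₂ s₀ CF hε hm1
    (by exact_mod_cast hNε) hC hC₂0.le hs₀0 (by rw [← hNN]; exact hs₀1) hCF0
  refine ⟨m, D', max R₁ 2, max (max C₃ B') 1, min η (1 / 2), hm1,
    le_max_of_le_left (le_max_of_le_left hC₃), lt_min hη (by norm_num), ?_⟩
  intro P₀ P j ρ q M E U hj hgap hgood hDeg hht hz hgn hq hM hU hE hwh hC₀ hdiff hHN
  have hη1 : min η (1 / 2) ≤ η := min_le_left _ _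
  have hη2 : min η (1 / 2) ≤ 1 / 2 := min_le_right _ _
  have hH1 : 1 ≤ A.h P₀ := (le_max_right _ _).trans hC₀
  have hH0 : 0 ≤ A.h P₀ := zero_le_one.trans hH1
  obtain ⟨J, hJd⟩ : ∃ J, J = Finset.univ.sup j := ⟨_, rfl⟩
  have hJ : ∀ i, j i ≤ J := by
    intro i
    rw [hJd]
    exact Finset.le_sup (Finset.mem_univ i)
  have h4J : (1 : ℝ) ≤ 4 ^ J := one_le_pow₀ (by norm_num)
  have hNr : (1 : ℝ) ≤ N' := by exact_mod_cast hN1
  have hgeom := geom_J j J (max R₁ 2) hJ (le_max_right _ _) hgap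
  -- the auxiliary polynomial
  obtain ⟨F₀, hF1, hF2, hF3, hF4⟩ := haux J j ρ hJ hDeg
  have hF5 : logHeight (fun p : (box (fun _ : Fin (k + 2) => N' * 4 ^ J + 1)) ×
          (BB (fun i : Fin m => N' * 4 ^ (J - j i) + 1) : Finset (Fin m → Fin (k + 2) → ℕ)) =>
            F₀ p.1 p.2) ≤ CF * 4 ^ J := by
    refine hF4.trans ?_
    have h1 : ∑ i, (4 : ℝ) ^ (J - j i) * (ρ i).ht ≤ m * 4 ^ J := by
      have h2 : ∀ i ∈ (Finset.univ : Finset (Fin m)), (4 : ℝ) ^ (J - j i) * (ρ i).ht ≤ 4 ^ J := by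
        intro i _
        have h3 : (4 : ℝ) ^ (J - j i) * (ρ i).ht ≤ 4 ^ (J - j i) * 4 ^ j i :=
          mul_le_mul_of_nonneg_left (hht i) (by positivity)
        rw [← pow_add, Nat.sub_add_cancel (hJ i)] at h3
        exact h3
      have h4 := Finset.sum_le_card_nsmul _ _ _ h2
      rw [Finset.card_univ, Fintype.card_fin, nsmul_eq_mul] at h4
      exact h4
    rw [hCF]
    have h5 : CA * (4 ^ J + ∑ i, (4 : ℝ) ^ (J - j i) * (ρ i).ht) ≤ CA * (4 ^ J + m * 4 ^ J) :=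
      mul_le_mul_of_nonneg_left (by linarith) hCA
    refine h5.trans (le_of_eq ?_)
    ring
  obtain ⟨b, hb⟩ : ∃ b : ℝ, b = N' * 4 ^ J := ⟨_, rfl⟩
  have hb1 : (1 : ℝ) ≤ b := by
    rw [hb]
    calc (1 : ℝ) = 1 * 1 := by ring
      _ ≤ N' * 4 ^ J := mul_le_mul hNr h4J zero_le_one (by linarith)
  have hb4 : (4 : ℝ) ^ J ≤ b := by
    rw [hb]
    exact le_mul_of_one_le_left (by positivity) hNr
  have hne := NFS_ne N' J j F₀ hF1 hF2
  obtain ⟨hd1, hd2⟩ := NFS_deg N' J j hJ F₀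
  have hnh := NFS_height N' J j F₀ hF1 hF2
  rw [← hb] at hd1 hd2 hnh
  have hnh2 : nh (NFS N' J j F₀) ≤ B * b := by
    refine hnh.trans ?_
    have h1 : CF * 4 ^ J ≤ CF * b := mul_le_mul_of_nonneg_left hb4 hCF0
    rw [hB, add_mul]
    refine add_le_add (hF5.trans h1) (le_of_eq ?_)
    ring
  have hgap1 : ∀ i i' : Fin m, i < i' → R₁ * 4 ^ j i ≤ 4 ^ j i' := by
    intro i i' hii
    exact (Nat.mul_le_mul_right _ (le_max_left _ _)).trans (hgap i i' hii)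
  have hIsEq : ∀ i, IsEq nd rr D (P i) (q i) := fun i b =>
    ⟨(hq i b).1, (hq i b).2.1, (hq i b).2.2.2.1, (hq i b).2.2.2.2⟩
  have hqh : ∀ i b, nh (q i b) ≤ 4 ^ j i := fun i b => (hq i b).2.2.1
  have hposP : ∀ i, 0 < ε * A.h (P i) := by
    intro i
    have h1 := (abs_le.1 (hHN i)).1
    have h2 : (0 : ℝ) < 4 ^ j i * A.h P₀ := by positivity
    have h3 : min η (1 / 2) * (4 ^ j i * A.h P₀) ≤ 1 / 2 * (4 ^ j i * A.h P₀) :=
      mul_le_mul_of_nonneg_right hη2 h2.le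
    have h4 : 0 < A.h (P i) := by linarith
    positivity
  have hlin : ∀ i, LinearIndependent K (E i) := fun i =>
    linInd_of_wh (E i) _ (hposP i) (hwh i)
  rcases hlow P j q M E U (NFS N' J j F₀) b hgap1 hIsEq hqh hlin hU hE hne hd1 hd2 hnh2
    hb1 with hA | ⟨g, hg, hA⟩
  · obtain ⟨i, G, hG0, hG1, hG2, hG3, hG4⟩ := hA
    refine ⟨i, G, hG0, hG1, hG2, hG3.trans ?_, hG4⟩
    exact mul_le_mul_of_nonneg_right ((le_max_right _ _).trans (le_max_left _ _)) (by positivity)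
  · exfalso
    obtain ⟨L, _, _, _, w, ζ, hw0, hw1, hζ, hQ0, hgQ, hR0⟩ := choose_L A nd g hg P₀ P j
    obtain ⟨Q, hQ⟩ : ∃ Q : A.Pts L, Q = A.img (Algebra.ofId K L) P₀ + w := ⟨_, rfl⟩
    have hQ0' := hQ0
    rw [← hQ] at hQ0'
    have hYrep : A.Rep Q (nd.y Q) := nd.rep_y Q hQ0'
    have hPi : ∀ i, A.Rep (A.img (Algebra.ofId K L) (P i))
        fun b => algebraMap K L (nd.y (P i) b) := fun i =>
      (nd.rep_y (P i) (hgood i).1).img (Algebra.ofId K L)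
    have hMi : ∀ i, A.Rep (2 ^ j i • Q) (A.mu (j i) (nd.y Q)) := fun i => hYrep.mu (j i)
    have h0 : ∀ i, lf (nd.l 0) (A.x (A.img (Algebra.ofId K L) (P i) - 2 ^ j i • Q)) ≠ 0 := by
      intro i
      rw [hQ]
      exact hR0 i
    have hblk := fun i => hblock (P i) (q i) (M i) (hgood i) (hIsEq i) (hM i) L i (4 ^ j i)
        (fun a => ζ (i, a)) (A.mu (j i) (nd.y Q))
        (nd.s (A.img (Algebra.ofId K L) (P i) - 2 ^ j i • Q)) (pow_pos four_pos _)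
        (fun a => hζ (i, a)) (hMi i).isPt (hMi i).ne_zero
        (block_hyp nd _ _ (hPi i) (hMi i) (h0 i)).1 (block_hyp nd _ _ (hPi i) (hMi i) (h0 i)).2
    choose y ξ hy using hblk
    have hblk2 := fun i => show _ ∧ _ ∧ _ ∧ _ ∧ _ ∧ _ ∧ _ ∧ _ ∧ _ ∧ _ ∧ _ from
      ⟨(hy i).1, (hy i).2.1, (hy i).2.2.1, (hy i).2.2.2.1, (hy i).2.2.2.2.1, (hy i).2.2.2.2.2.1,
        (hy i).2.2.2.2.2.2.1, (hy i).2.2.2.2.2.2.2.1, (hy i).2.2.2.2.2.2.2.2.1,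
        (hy i).2.2.2.2.2.2.2.2.2.1, (hy i).2.2.2.2.2.2.2.2.2.2.1⟩
    obtain ⟨s', F', f, a, Qf, e1, e2, e3, e4, e5, e6, e7, e8⟩ := hA L (nd.y Q) ζ
      (fun i => nd.s (A.img (Algebra.ofId K L) (P i) - 2 ^ j i • Q)) y ξ (nd.y_isPt Q)
      (nd.lf_y_zero Q hQ0') (by
        have h1 : (fun k_1 : Fin (k + 2) => lf (nd.l k_1.succ) (nd.y Q)) = nd.s Q :=
          funext fun t => nd.lf_y_succ Q t
        rw [h1, hQ]
        exact hgQ) hblk2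
    · have hlast : coeff 0 (F' (Fin.last m)) = f := by
        rw [e4, coeff_zero_C]
      have hI := hend P₀ P j ρ q E (fun i => ε * A.h (P i)) J F₀ s' a a hJ hgood hDeg hht hz
        hIsEq hqh hlin hwh hF1 hF2 hF3 L w
        (hw L w hw0 hw1) hQ0 hR0 y ξ (fun i => (hy i).1) (fun i => (hy i).2.1)
        (fun i => (hy i).2.2.2.2.2.2.2.2.2.2.2.1) (fun i => (hy i).2.2.2.2.1)
        (fun i v => by
          have h1 := (hy i).2.2.2.2.2.2.2.2.2.2.2.2 v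
          rw [← hQ]
          exact h1) F' (fun e' => by
          rw [e2, NFS_aeval N' J j F₀ hF2 (fun t => lf (nd.l t.succ) (nd.y Q)) e', ← hQ]
          congr 2
          funext t
          exact nd.lf_y_succ Q t) e3 le_rfl (by rw [hlast]; exact e6)
        (by rw [hlast]; exact ⟨Qf, e7⟩) (by rw [hlast]; exact e8)
      have hb0 : 0 ≤ b := by linarith
      have hbN : b ≤ NN * 4 ^ J := by
        rw [hb, hNN]
        refine mul_le_mul_of_nonneg_right ?_ (by positivity)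
        push_cast
        have : (0 : ℝ) ≤ k := Nat.cast_nonneg k
        nlinarith
      refine hnum _ (A.h P₀) J j s' _ _ _ _ a hJ hgeom
        ((le_max_left _ _).trans ((le_max_left _ _).trans hC₀)) hF5
        (fun i => AV.h_nonneg _) (fun i => ?_) (fun i => ?_) hgn (fun i => Or.inr le_rfl)
        (fun i => ?_) ?_ hI
      · rw [Nat.cast_one, one_mul]
        exact (hdiff i).trans (mul_le_mul_of_nonneg_right hη1 (by positivity))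
      · exact (hHN i).trans (mul_le_mul_of_nonneg_right hη1 (by positivity))
      · refine (e1 i).trans ?_
        rw [← hNN]
        have h1 : C₁ ≤ C₂ := by rw [hC₂]; linarith
        exact mul_le_mul h1 hbN hb0 hC₂0.le
      · rw [← hNN, ← mul_assoc, hs₀C]
        exact e5.trans_le (mul_le_mul_of_nonneg_left hbN hs₁0.le)

end Pool.Agent.Lib.MP_17a322_nt.VA
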