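import Pool.Agent.Lib.MP_17a322_nt.VA.N4
import Pool.Agent.Lib.MP_17a322_nt.VA.Defs

/-!
Existence of Noether normalisations.
-/

universe u

namespace Pool.Agent.Lib.MP_17a322_nt.VA

open MvPolynomial
open Pool.Agent.Lib.MP_17a322_nt.VN

section

variable {K : Type u} [Field K] {N : ℕ} {A : AV K N}

/-- Evaluation of a polynomial over a polynomial ring. -/
noncomputable def ev2 {n : ℕ} {R : Type*} [CommRing R] [Algebra K R] (s : Fin n → R) (t : R) :
    Polynomial (MvPolynomial (Fin n) K) →ₐ[K] R :=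
  Polynomial.eval₂AlgHom (aeval s) t fun _ => Commute.all _ _

theorem ev2_apply {n : ℕ} {R : Type*} [CommRing R] [Algebra K R] (s : Fin n → R) (t : R)
    (f : Polynomial (MvPolynomial (Fin n) K)) :
    ev2 (K := K) s t f = f.eval₂ (aeval (R := K) s).toRingHom t := rfl

theorem ev2_C {n : ℕ} {R : Type*} [CommRing R] [Algebra K R] (s : Fin n → R) (t : R)
    (q : MvPolynomial (Fin n) K) : ev2 (K := K) s t (Polynomial.C q) = aeval s q := by
  rw [ev2_apply, Polynomial.eval₂_C]
  rfl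

theorem ev2_X {n : ℕ} {R : Type*} [CommRing R] [Algebra K R] (s : Fin n → R) (t : R) :
    ev2 (K := K) s t Polynomial.X = t := by
  rw [ev2_apply, Polynomial.eval₂_X]

theorem ev2_map {n : ℕ} {R R' : Type*} [CommRing R] [Algebra K R] [CommRing R'] [Algebra K R']
    (φ : R →ₐ[K] R') (s : Fin n → R) (t : R) (f : Polynomial (MvPolynomial (Fin n) K)) :
    φ (ev2 (K := K) s t f) = ev2 (K := K) (fun k => φ (s k)) (φ t) f := by
  rw [ev2_apply, ev2_apply]
  have h := Polynomial.hom_eval₂ f (aeval (R := K) s).toRingHom φ.toRingHom t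
  have h1 : φ.toRingHom.comp (aeval (R := K) s).toRingHom =
      (aeval (R := K) fun k => φ (s k)).toRingHom := by
    have h2 : φ.comp (aeval s : MvPolynomial (Fin n) K →ₐ[K] R) = aeval fun k => φ (s k) := by
      apply MvPolynomial.algHom_ext
      intro i
      rw [AlgHom.comp_apply, aeval_X, aeval_X]
    rw [← h2]
    rfl
  rw [h1] at h
  exact h

/-- Homogeneous substitution: a polynomial in the numerators. -/
theorem exists_numer {n : ℕ} (p : Fin (N + 1) → Polynomial (MvPolynomial (Fin n) K))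
    (δ : MvPolynomial (Fin n) K) (f : MvPolynomial (Fin (N + 1)) K) :
    ∃ (D : ℕ) (Ψ : Polynomial (MvPolynomial (Fin n) K)), ∀ {R : Type u} [CommRing R] [Algebra K R]
      (s : Fin n → R) (t : R) (y : Fin (N + 1) → R),
      (∀ j, aeval s δ * y j = ev2 (K := K) s t (p j)) →
        ev2 (K := K) s t Ψ = aeval s δ ^ D * aeval y f := by
  refine ⟨f.totalDegree, ∑ d ∈ Finset.range (f.totalDegree + 1),
    Polynomial.C (δ ^ (f.totalDegree - d)) * aeval p (homogeneousComponent d f), ?_⟩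
  intro R _ _ s t y hy
  have h0 : aeval y f = ∑ d ∈ Finset.range (f.totalDegree + 1),
      aeval y (homogeneousComponent d f) := by
    rw [← map_sum, sum_homogeneousComponent]
  rw [map_sum, h0, Finset.mul_sum]
  refine Finset.sum_congr rfl fun d hd => ?_
  rw [map_mul, ev2_C, map_pow]
  have h1 : ev2 (K := K) s t (aeval p (homogeneousComponent d f)) =
      aeval (fun j => ev2 (K := K) s t (p j)) (homogeneousComponent d f) := by
    have h2 : (ev2 (K := K) s t).comp (aeval p) = aeval fun j => ev2 (K := K) s t (p j) := by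
      apply MvPolynomial.algHom_ext
      intro i
      rw [AlgHom.comp_apply, aeval_X, aeval_X]
    rw [← h2, AlgHom.comp_apply]
  have h3 : (fun j => ev2 (K := K) s t (p j)) = fun j => aeval s δ * y j :=
    funext fun j => (hy j).symm
  rw [h1, h3, aeval_mul_homog (homogeneousComponent_isHomogeneous d f), ← mul_assoc, ← pow_add,
    Nat.sub_add_cancel (Nat.lt_succ_iff.1 (Finset.mem_range.1 hd))]

theorem N5_sub {n : ℕ} {R : Type*} [CommRing R] [Algebra K R] (m : Fin n → Fin (N + 1) → K)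
    (y : Fin (N + 1) → R) (f : MvPolynomial (Fin n) K) :
    aeval y (aeval (fun k => lp (m k)) f) = aeval (fun k => lf (m k) y) f := by
  have h3 : ((aeval y : MvPolynomial (Fin (N + 1)) K →ₐ[K] R).comp
      (aeval fun k => lp (m k))) =
      (aeval fun k => lf (m k) y : MvPolynomial (Fin n) K →ₐ[K] R) := by
    apply MvPolynomial.algHom_ext
    intro i
    rw [AlgHom.comp_apply, aeval_X, aeval_X, aeval_lp]
  rw [← h3, AlgHom.comp_apply]

/-- The primitive element. -/
theorem N5_prim [CharZero K] {F : Type*} [Field F] [Algebra K F] {n : ℕ} (g : Fin (N + 1) → F)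
    (s : Fin n → F) (hs : ∀ f : MvPolynomial (Fin n) K, ∃ f' : MvPolynomial (Fin (N + 1)) K,
      aeval g f' = aeval s f)
    (hind : AlgebraicIndependent K s)
    (hint : ∀ i, (aeval s : MvPolynomial (Fin n) K →ₐ[K] F).toRingHom.IsIntegralElem (g i)) :
    ∃ (θ : F) (Φ : Polynomial (MvPolynomial (Fin n) K))
      (p : Fin (N + 1) → Polynomial (MvPolynomial (Fin n) K)) (δ : MvPolynomial (Fin n) K),
      (∃ θ' : MvPolynomial (Fin (N + 1)) K, aeval g θ' = θ) ∧ Φ.Monic ∧ δ ≠ 0 ∧
      ev2 (K := K) s θ Φ = 0 ∧ (∀ j, aeval s δ * g j = ev2 (K := K) s θ (p j)) ∧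
      (∀ q : Polynomial (MvPolynomial (Fin n) K), ev2 (K := K) s θ q = 0 → Φ ∣ q) ∧
      ∃ a b : Polynomial (MvPolynomial (Fin n) K),
        a * Φ + b * Polynomial.derivative Φ = Polynomial.C δ := by
  let _ : Algebra (MvPolynomial (Fin n) K) F :=
    (aeval s : MvPolynomial (Fin n) K →ₐ[K] F).toRingHom.toAlgebra
  have hinj : Function.Injective (algebraMap (MvPolynomial (Fin n) K) F) := hind
  have hfs : FaithfulSMul (MvPolynomial (Fin n) K) F :=
    (faithfulSMul_iff_algebraMap_injective _ _).2 hinj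
  obtain ⟨θ, Φ, p, δ, h1, h2, h3, h4, h5, h6, h7⟩ :=
    exists_prim (P := MvPolynomial (Fin n) K) g fun i => hint i
  refine ⟨θ, Φ, p, δ, ?_, h2, h3, h4, h5, h6, h7⟩
  refine Algebra.adjoin_induction (p := fun x _ => ∃ θ' : MvPolynomial (Fin (N + 1)) K,
    aeval g θ' = x) ?_ ?_ ?_ ?_ h1
  · rintro _ ⟨j, rfl⟩
    exact ⟨X j, aeval_X _ _⟩
  · intro r
    exact hs r
  · rintro x y _ _ ⟨a, ha⟩ ⟨b, hb⟩
    exact ⟨a + b, by rw [map_add, ha, hb]⟩
  · rintro x y _ _ ⟨a, ha⟩ ⟨b, hb⟩
    exact ⟨a * b, by rw [map_mul, ha, hb]⟩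

/-- Existence of Noether normalisations. -/
theorem AV.exists_Noe [CharZero K] {n : ℕ} (hn : A.dimIs n) {l : Fin (N + 1) → K}
    (hl : lf l A.gp ≠ 0) : ∃ (e : ℕ) (nd : Noe A n e), nd.l 0 = l := by
  classical
  obtain ⟨m, hm⟩ := AV.exists_nz hn hl
  obtain ⟨e, w, hw, hgen⟩ := AV.exists_gen hl hm
  have hind := AV.indep hn hl hm
  set g := A.ga l with hg
  set s : Fin n → A.FF := fun k => lf (m k) g with hs
  have hg1 : lf l g = 1 := AV.lf_ga hl
  have hgp : A.IsPt g := AV.ga_isPt l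
  choose q hq using hgen
  -- a relation in the polynomial ring
  have hsub : ∀ {R : Type u} [CommRing R] [Algebra K R] (y : Fin (N + 1) → R)
      (f : MvPolynomial (Fin n) K),
      aeval y (aeval (fun k => lp (m k)) f) = aeval (fun k => lf (m k) y) f := by
    intro R _ _ y f
    exact N5_sub m y f
  have hsub2 : ∀ {R : Type u} [CommRing R] [Algebra K R] (y : Fin (N + 1) → R)
      (θ : MvPolynomial (Fin (N + 1)) K) (f : Polynomial (MvPolynomial (Fin n) K)),
      aeval y (ev2 (K := K) (fun k => lp (m k)) θ f) =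
        ev2 (K := K) (fun k => lf (m k) y) (aeval y θ) f := by
    intro R _ _ y θ f
    rw [ev2_map]
    simp only [aeval_lp]
  -- the primitive element
  have hprim : ∃ (θ : A.FF) (Φ : Polynomial (MvPolynomial (Fin n) K))
      (p : Fin (N + 1) → Polynomial (MvPolynomial (Fin n) K)) (δ : MvPolynomial (Fin n) K),
      (∃ θ' : MvPolynomial (Fin (N + 1)) K, aeval g θ' = θ) ∧ Φ.Monic ∧ δ ≠ 0 ∧
      ev2 (K := K) s θ Φ = 0 ∧ (∀ j, aeval s δ * g j = ev2 (K := K) s θ (p j)) ∧
      (∀ q : Polynomial (MvPolynomial (Fin n) K), ev2 (K := K) s θ q = 0 → Φ ∣ q) ∧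
      ∃ a b : Polynomial (MvPolynomial (Fin n) K),
        a * Φ + b * Polynomial.derivative Φ = Polynomial.C δ := by
    refine N5_prim g s (fun r => ⟨aeval (fun k => lp (m k)) r, hsub g r⟩) hind fun i => ?_
    have := AV.ga_integral hl hm (X i)
    rw [aeval_X] at this
    exact this
  obtain ⟨θg, Φ, p, δ, ⟨θ, hθ⟩, hΦm, hδ, hΦ0, hp, hdiv, hsep⟩ := hprim
  have hpt : ∃ P : A.Pts A.FF, A.Rep P A.gp := AV.exists_rep A.gp_ne A.gp_isPt
  refine ⟨e, {
    l := Fin.cons l m
    nz := ?_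
    indep := ?_
    w := w
    Mx := fun j => Matrix.of fun r i => q (X j * w i) r
    w_zero := hw
    rel := ?_
    θ := θ
    Φ := Φ
    p := p
    δ := δ
    Φ_monic := hΦm
    δ_ne := hδ
    Φ_zero := ?_
    p_eq := ?_
    back := ?_
    sep := hsep }, rfl⟩
  · intro L _ _ P
    by_contra hcon
    push Not at hcon
    have h1 := hcon 0
    rw [Fin.cons_zero] at h1
    exact (AV.Rep.self P).ne_zero (hm L (A.x P) (AV.Rep.self P).isPt h1 fun k => by
      have := hcon k.succ
      rwa [Fin.cons_succ] at this)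
  · obtain ⟨P, c, hc, hcx⟩ := hpt
    refine ⟨A.FF, inferInstance, inferInstance, P, ?_, ?_⟩
    · rw [Fin.cons_zero]
      intro h
      apply hl
      have h2 : A.gp = fun a => c * A.x P a := funext hcx
      rw [h2, lf_smul, h, mul_zero]
    · have h2 : A.gp = fun a => c * A.x P a := funext hcx
      have h3 : ∀ k : Fin n, lf ((Fin.cons l m : Fin (n + 1) → Fin (N + 1) → K) k.succ) (A.x P) /
          lf ((Fin.cons l m : Fin (n + 1) → Fin (N + 1) → K) 0) (A.x P) = s k := by
        intro k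
        rw [Fin.cons_succ, Fin.cons_zero]
        have h4 : lf (m k) A.gp = lf l A.gp * s k := by
          conv_lhs => rw [AV.gp_eq hl]
          rw [lf_smul]
        have h5 : s k = lf (m k) A.gp / lf l A.gp := by
          rw [h4, mul_div_cancel_left₀ _ hl]
        rw [h5, h2, lf_smul, lf_smul, mul_div_mul_left _ _ hc]
      simp only [h3]
      exact hind
  · intro R _ _ y hy h1 j i
    simp only [Fin.cons_succ, Fin.cons_zero, Matrix.of_apply] at h1 ⊢
    have h2 : aeval g ((∑ r, w r * aeval (fun k => lp (m k)) (q (X j * w i) r)) - X j * w i) = 0 := by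
      rw [map_sub, map_sum, hq (X j * w i), sub_eq_zero]
      refine Finset.sum_congr rfl fun r _ => ?_
      rw [map_mul, hsub]
    have h3 := AV.transfer hl h2 hy h1
    rw [map_sub, map_sum, sub_eq_zero, map_mul, aeval_X] at h3
    rw [← h3]
    refine Finset.sum_congr rfl fun r _ => ?_
    rw [map_mul, hsub]
  · intro R _ _ y hy h1
    simp only [Fin.cons_succ, Fin.cons_zero] at h1 ⊢
    have h2 : aeval g (ev2 (K := K) (fun k => lp (m k)) θ Φ) = 0 := by
      rw [hsub2, hθ]; exact hΦ0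
    have h3 := AV.transfer hl h2 hy h1
    rw [hsub2] at h3
    exact h3
  · intro R _ _ y hy h1 j
    simp only [Fin.cons_succ, Fin.cons_zero] at h1 ⊢
    have h2 : aeval g (aeval (fun k => lp (m k)) δ * X j -
        ev2 (K := K) (fun k => lp (m k)) θ (p j)) = 0 := by
      rw [map_sub, map_mul, aeval_X, hsub, hsub2, hθ, sub_eq_zero]
      exact hp j
    have h3 := AV.transfer hl h2 hy h1
    rw [map_sub, map_mul, aeval_X, hsub, hsub2, sub_eq_zero] at h3
    exact h3
  · intro R _ _ s' t hΦ' hδ'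
    obtain ⟨u, hu⟩ := hδ'
    have hu' : (aeval s' δ) * (↑u⁻¹ : R) = 1 := by rw [← hu, Units.mul_inv]
    set y : Fin (N + 1) → R := fun j => (↑u⁻¹ : R) * ev2 (K := K) s' t (p j) with hy
    have hyp : ∀ j, aeval s' δ * y j = ev2 (K := K) s' t (p j) := by
      intro j
      rw [hy]
      dsimp only
      rw [← mul_assoc, hu', one_mul]
    have key : ∀ (f : MvPolynomial (Fin (N + 1)) K) (Ψ₀ : Polynomial (MvPolynomial (Fin n) K)),
        aeval g f = ev2 (K := K) s θg Ψ₀ → aeval y f = ev2 (K := K) s' t Ψ₀ := by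
      intro f Ψ₀ hf
      obtain ⟨D, Ψ, hΨ⟩ := exists_numer p δ f
      have h1 : ev2 (K := K) s θg (Ψ - Polynomial.C (δ ^ D) * Ψ₀) = 0 := by
        rw [map_sub, map_mul, ev2_C, map_pow, hΨ s θg g hp, hf, sub_self]
      obtain ⟨Ψ', hΨ'⟩ := hdiv _ h1
      have h2 : ev2 (K := K) s' t (Ψ - Polynomial.C (δ ^ D) * Ψ₀) = 0 := by
        rw [hΨ', map_mul, ev2_apply s' t Φ, hΦ', zero_mul]
      rw [map_sub, map_mul, ev2_C, map_pow, hΨ s' t y hyp, sub_eq_zero] at h2
      have h3 : (aeval s' δ : R) ^ D * (↑u⁻¹ : R) ^ D = 1 := by rw [← mul_pow, hu', one_pow]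
      calc aeval y f = ((aeval s' δ : R) ^ D * (↑u⁻¹ : R) ^ D) * aeval y f := by
            rw [h3, one_mul]
        _ = (↑u⁻¹ : R) ^ D * ((aeval s' δ : R) ^ D * aeval y f) := by ring
        _ = (↑u⁻¹ : R) ^ D * ((aeval s' δ : R) ^ D * ev2 (K := K) s' t Ψ₀) := by rw [h2]
        _ = ((aeval s' δ : R) ^ D * (↑u⁻¹ : R) ^ D) * ev2 (K := K) s' t Ψ₀ := by ring
        _ = _ := by rw [h3, one_mul]
    refine ⟨y, ?_, ?_, ?_, ?_⟩
    · intro f hf
      rw [key f 0 (by rw [map_zero]; exact hgp f hf), map_zero]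
    · rw [Fin.cons_zero, ← aeval_lp, key (lp l) 1 (by rw [map_one, aeval_lp, hg1]), map_one]
    · intro k
      rw [Fin.cons_succ, ← aeval_lp, key (lp (m k)) (Polynomial.C (X k)) (by
        rw [aeval_lp, ev2_C, aeval_X]), ev2_C, aeval_X]
    · rw [key θ Polynomial.X (by rw [hθ, ev2_X]), ev2_X]

end

end Pool.Agent.Lib.MP_17a322_nt.VA
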