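import Pool.Agent.Lib.MP_17a322_nt.VA.T4
import Pool.Agent.Lib.MP_17a322_nt.VA.N5

/-!
Existence of frames.
-/

universe u

namespace Pool.Agent.Lib.MP_17a322_nt.VA

open MvPolynomial

section

variable {K : Type u} [Field K] {N : ℕ} {A : AV K N}

theorem aeval_algebraMap_self {L : Type u} [Field L] [Algebra K L] {σ : Type*} (o : σ → K)
    (f : MvPolynomial σ K) :
    aeval (fun i => algebraMap K L (o i)) f = algebraMap K L (aeval o f) :=
  (aeval_algMap (K := K) (L := K) (R := L) o f)

/-- The tangent space at a vector. -/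
def AV.TS {L : Type u} [Field L] [Algebra K L] {y : Fin (N + 1) → L} (hy : A.IsPt y) :
    Submodule L (Fin (N + 1) → L) where
  carrier := {τ | A.IsT y τ}
  add_mem' := by
    intro τ τ' h h'
    rw [Set.mem_ofPred_eq, AV.isT_iff] at *
    intro f hf
    refine ⟨(h f hf).1, ?_⟩
    simp only [Pi.add_apply, add_mul, Finset.sum_add_distrib, (h f hf).2, (h' f hf).2, add_zero]
  zero_mem' := by
    rw [Set.mem_ofPred_eq, AV.isT_iff]
    intro f hf
    exact ⟨hy f hf, by simp⟩
  smul_mem' := by
    intro c τ h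
    rw [Set.mem_ofPred_eq, AV.isT_iff] at *
    intro f hf
    refine ⟨(h f hf).1, ?_⟩
    simp only [Pi.smul_apply, smul_eq_mul, mul_assoc, ← Finset.mul_sum, (h f hf).2, mul_zero]

theorem AV.mem_TS {L : Type u} [Field L] [Algebra K L] {y : Fin (N + 1) → L} (hy : A.IsPt y)
    {τ : Fin (N + 1) → L} : τ ∈ AV.TS hy ↔ A.IsT y τ := Iff.rfl

/-- The tangent space at a vector over `K` does not grow under extensions of the field. -/
theorem AV.TS_descend {L : Type u} [Field L] [Algebra K L] {o : Fin (N + 1) → K} (ho : A.IsPt o)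
    {m : ℕ} (ρ : Fin m → Fin (N + 1) → L) (hρ : LinearIndependent L ρ)
    (h : ∀ j, A.IsT (fun i => algebraMap K L (o i)) (ρ j)) :
    m ≤ Module.finrank K (AV.TS ho) := by
  classical
  let v := Module.finBasis K (AV.TS ho)
  let w : Fin (Module.finrank K (AV.TS ho)) → Fin (N + 1) → L := fun j i =>
    algebraMap K L ((v j : Fin (N + 1) → K) i)
  let W : Submodule L (Fin (N + 1) → L) := Submodule.span L (Set.range w)
  have h1 : ∀ τ : Fin (N + 1) → K, A.IsT o τ → (fun i => algebraMap K L (τ i)) ∈ W := by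
    intro τ hτ
    have h2 := v.sum_repr ⟨τ, hτ⟩
    have h3 : (fun i => algebraMap K L (τ i)) =
        ∑ j, algebraMap K L (v.repr ⟨τ, hτ⟩ j) • w j := by
      funext i
      have h4 := congrArg (fun z : AV.TS ho => (z : Fin (N + 1) → K) i) h2
      simp only [Submodule.coe_sum, Submodule.coe_smul, Finset.sum_apply, Pi.smul_apply,
        smul_eq_mul] at h4
      rw [Finset.sum_apply, ← h4, map_sum]
      refine Finset.sum_congr rfl fun j _ => ?_
      rw [map_mul]
      rfl
    rw [h3]
    exact Submodule.sum_mem _ fun j _ => Submodule.smul_mem _ _ (Submodule.subset_span ⟨j, rfl⟩)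
  have h2 : ∀ j, ρ j ∈ W := by
    intro j
    let E := Module.Basis.ofVectorSpace K L
    let S := Finset.univ.biUnion fun i : Fin (N + 1) => (E.repr (ρ j i)).support
    have h3 : ρ j = ∑ q ∈ S, E q • fun i => algebraMap K L (E.repr (ρ j i) q) := by
      funext i
      rw [Finset.sum_apply]
      have h4 := E.linearCombination_repr (ρ j i)
      rw [Finsupp.linearCombination_apply, Finsupp.sum_of_support_subset (s := S)] at h4
      · conv_lhs => rw [← h4]
        refine Finset.sum_congr rfl fun q _ => ?_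
        rw [Pi.smul_apply, smul_eq_mul, mul_comm, Algebra.smul_def]
      · intro q hq
        exact Finset.mem_biUnion.2 ⟨i, Finset.mem_univ _, hq⟩
      · intro q _
        rw [zero_smul]
    rw [h3]
    refine Submodule.sum_mem _ fun q _ => Submodule.smul_mem _ _ (h1 _ ?_)
    rw [AV.isT_iff]
    intro f hf
    refine ⟨ho f hf, ?_⟩
    have h5 := (AV.isT_iff.1 (h j) f hf).2
    simp only [aeval_algebraMap_self] at h5
    have h6 := congrArg (fun z => E.repr z q) h5
    simp only [map_sum, map_zero, Finsupp.coe_finsetSum, Finset.sum_apply, Finsupp.coe_zero,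
      Pi.zero_apply] at h6
    rw [← h6]
    refine Finset.sum_congr rfl fun i _ => ?_
    rw [mul_comm (ρ j i), ← Algebra.smul_def, map_smul, Finsupp.smul_apply, smul_eq_mul, mul_comm]
  have h3 : LinearIndependent L fun j => (⟨ρ j, h2 j⟩ : W) := by
    apply LinearIndependent.of_comp W.subtype
    exact hρ
  have h4 := h3.fintype_card_le_finrank
  rw [Fintype.card_fin] at h4
  refine h4.trans ?_
  have h5 := finrank_range_le_card (R := L) w
  rw [Fintype.card_fin] at h5
  exact h5

/-- Existence of frames. -/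
theorem AV.exists_frame [CharZero K] {n : ℕ} (hn : A.dimIs n) :
    ∃ (o : Fin (N + 1) → K) (t : Fin n → Fin (N + 1) → K), A.Frame o t := by
  classical
  set o := A.x (0 : A.Pts K) with hoo
  have hor : A.Rep (0 : A.Pts K) o := AV.Rep.self 0
  have ho : A.IsPt o := hor.isPt
  obtain ⟨b₀, hb₀⟩ := Function.ne_iff.1 hor.ne_zero
  rw [Pi.zero_apply] at hb₀
  obtain ⟨a₀, ha₀⟩ := Function.ne_iff.1 A.gp_ne
  rw [Pi.zero_apply] at ha₀
  obtain ⟨e, nd, hnd⟩ := AV.exists_Noe hn (l := Pi.single a₀ (1 : K)) (by rwa [lf_single])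
  obtain ⟨L, _, _, P, hl, hind⟩ := nd.indep
  set x := A.x P with hx
  set y : Fin (N + 1) → L := fun i => (lf (nd.l 0) x)⁻¹ * x i with hy
  have hyr : A.Rep P y := (AV.Rep.self P).smul (inv_ne_zero hl)
  have h1 : lf (nd.l 0) y = 1 := by rw [hy, lf_smul, inv_mul_cancel₀ hl]
  have hs : (fun k : Fin n => lf (nd.l k.succ) y) =
      fun k : Fin n => lf (nd.l k.succ) x / lf (nd.l 0) x := by
    funext k
    rw [hy, lf_smul, div_eq_inv_mul]
  have hδ : aeval (fun k : Fin n => lf (nd.l k.succ) y) nd.δ ≠ 0 := by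
    rw [hs]
    intro h
    exact nd.δ_ne ((algebraicIndependent_iff.1 hind) nd.δ h)
  choose τ hτ hτ0 hτk using fun k : Fin n => nd.tan_surj hyr.isPt h1 hδ (Pi.single k 1)
  have hoL : A.Rep (0 : A.Pts L) fun i => algebraMap K L (o i) := AV.zero_rep
  have hbL : algebraMap K L (o b₀) ≠ 0 := by
    rw [Ne, FaithfulSMul.algebraMap_eq_zero_iff]
    exact hb₀
  obtain ⟨Γ, hΓ, hΓ'⟩ := exists_Gam hyr hoL (nd.l 0) h1 (b₀ := b₀) hbL
  have hself : A.IsT (fun i => algebraMap K L (o i)) fun i => algebraMap K L (o i) := by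
    have h2 := (inl_isPt hoL.isPt).smul (TrivSqZeroExt.inl 1 + TrivSqZeroExt.inr 1)
    have h3 : (fun i => (TrivSqZeroExt.inl 1 + TrivSqZeroExt.inr 1 : DualNumber L) *
        TrivSqZeroExt.inl (algebraMap K L (o i))) =
        dv (fun i => algebraMap K L (o i)) fun i => algebraMap K L (o i) := by
      apply eq_dv
      · intro i; simp
      · intro i; simp
    show A.IsPt (dv _ _)
    rw [← h3]
    exact h2
  have hselfK : A.IsT o o := by
    have h2 := (inl_isPt ho).smul (TrivSqZeroExt.inl 1 + TrivSqZeroExt.inr 1)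
    have h3 : (fun i => (TrivSqZeroExt.inl 1 + TrivSqZeroExt.inr 1 : DualNumber K) *
        TrivSqZeroExt.inl (o i)) = dv o o := by
      apply eq_dv
      · intro i; simp
      · intro i; simp
    show A.IsPt (dv _ _)
    rw [← h3]
    exact h2
  have hrank : n + 1 ≤ Module.finrank K (AV.TS ho) := by
    refine AV.TS_descend ho (Fin.cons (α := fun _ => Fin (N + 1) → L)
      (fun i => algebraMap K L (o i)) fun k => Γ (τ k)) ?_ ?_
    · rw [Fintype.linearIndependent_iff]
      intro g hg
      rw [Fin.sum_univ_succ] at hg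
      simp only [Fin.cons_zero, Fin.cons_succ] at hg
      have h2 := congrFun hg b₀
      have h3 : ∀ k, Γ (τ k) b₀ = 0 := fun k => (hΓ (τ k) (hτ k)).2
      simp only [Pi.add_apply, Pi.smul_apply, Finset.sum_apply, smul_eq_mul, h3, mul_zero,
        Finset.sum_const_zero, add_zero, Pi.zero_apply] at h2
      have h4 : g 0 = 0 := (mul_eq_zero.1 h2).resolve_right hbL
      rw [h4, zero_smul, zero_add] at hg
      set ξ : Fin (N + 1) → L := fun b => ∑ k, g k.succ * τ k b with hξ
      have hξ' : ξ = ∑ k, g (Fin.succ k) • τ k := by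
        funext b
        rw [Finset.sum_apply]
        rfl
      have h5 : Γ ξ = 0 := by
        rw [hξ', map_sum]
        rw [← hg]
        exact Finset.sum_congr rfl fun k _ => map_smul Γ _ _
      have h6 : A.IsT y ξ := AV.IsT.sum hyr.isPt Finset.univ _ τ fun k _ => hτ k
      have h7 : lf (nd.l 0) ξ = 0 := by
        rw [hξ, lf_sum]
        exact Finset.sum_eq_zero fun k _ => by rw [lf_smul, hτ0 k, mul_zero]
      have h8 := hΓ' ξ h6 h7 h5
      have h9 : ∀ j : Fin n, g j.succ = 0 := by
        intro j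
        have h10 : lf (nd.l j.succ) ξ = g j.succ := by
          rw [hξ, lf_sum, Finset.sum_eq_single j]
          · rw [lf_smul, hτk j j, Pi.single_eq_same, mul_one]
          · intro k _ hk
            rw [lf_smul, hτk k j, Pi.single_eq_of_ne (fun h' => hk h'.symm), mul_zero]
          · intro h'; exact absurd (Finset.mem_univ j) h'
        rw [← h10, h8]
        simp [lf]
      intro i
      refine Fin.cases h4 h9 i
    · intro j
      refine Fin.cases ?_ (fun k => ?_) j
      · rw [Fin.cons_zero]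
        exact hself
      · rw [Fin.cons_succ]
        exact (hΓ (τ k) (hτ k)).1
  have hext : ∀ j : ℕ, j ≤ n → ∃ w : Fin (j + 1) → AV.TS ho, LinearIndependent K w ∧
      w 0 = ⟨o, hselfK⟩ := by
    intro j
    induction j with
    | zero =>
      intro _
      refine ⟨fun _ => ⟨o, hselfK⟩, ?_, rfl⟩
      rw [Fintype.linearIndependent_iff]
      intro g hg i
      rw [Fin.sum_univ_one] at hg
      have h2 : (⟨o, hselfK⟩ : AV.TS ho) ≠ 0 := fun h => hor.ne_zero (congrArg Subtype.val h)
      have h3 : i = 0 := Fin.ext (by omega)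
      rw [h3]
      exact (smul_eq_zero.1 hg).resolve_right h2
    | succ j ih =>
      intro hj
      obtain ⟨w, hw, hw0⟩ := ih (by omega)
      obtain ⟨x', hx'⟩ := exists_linearIndependent_snoc_of_lt_finrank hw (by omega)
      refine ⟨Fin.snoc w x', hx', ?_⟩
      have h2 : (0 : Fin (j + 1 + 1)) = Fin.castSucc 0 := rfl
      rw [h2, Fin.snoc_castSucc, hw0]
  obtain ⟨w, hw, hw0⟩ := hext n le_rfl
  refine ⟨o, fun a => (w a.succ : Fin (N + 1) → K), ⟨1, one_ne_zero, fun i => (one_mul _).symm⟩,
    fun a => (w a.succ).2, ?_⟩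
  have h2 : (Fin.cons (α := fun _ => Fin (N + 1) → K) o fun a : Fin n =>
      (w a.succ : Fin (N + 1) → K)) = (AV.TS ho).subtype ∘ w := by
    funext i
    refine Fin.cases ?_ (fun k => ?_) i
    · rw [Fin.cons_zero, Function.comp_apply, hw0]
      rfl
    · rw [Fin.cons_succ]
      rfl
  rw [h2]
  exact hw.map' _ (Submodule.ker_subtype _)

end

end Pool.Agent.Lib.MP_17a322_nt.VA
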