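import Pool.Agent.Lib.MP_17a322_nt.VA.FA6
import Pool.Agent.Lib.MP_17a322_nt.VA.FA7
import Pool.Agent.Lib.MP_17a322_nt.VA.F2
import Pool.Agent.Lib.MP_17a322_nt.VA.T5
import Pool.Agent.Lib.MP_17a322_nt.VA.LB11
import Pool.Agent.Lib.MP_17a322_nt.VN.F5
import Pool.Agent.Lib.MP_17a322_nt.VN.F3b

/-!
There is no gain for a germ of points without rational covectors: assembly.
-/

universe u

namespace Pool.Agent.Lib.MP_17a322_nt.VA

open MvPolynomial Height Filter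
open Pool.Agent.Lib.MP_17a322_nt.RO
open Pool.Agent.Lib.MP_17a322_nt.VJ
open Pool.Agent.Lib.MP_17a322_nt.VN hiding lf

/-- Not all Noether coordinates are algebraic over `k0`. -/
theorem c_lt {K : Type u} [Field K] [NumberField K] {N : ℕ} {A : AV K N} {H : ℕ → ℝ}
    (hH : Tendsto H (hyperfilter ℕ : Filter ℕ) atTop) {n e : ℕ} (nd : Noe A n e)
    {b : A.Pts (GK K)} (h0 : lf (nd.l 0) (A.x b) ≠ 0)
    (hnr : NoRat A hH b) (o : Fin (N + 1) → K) (t : Fin n → Fin (N + 1) → K) (ht : A.Frame o t)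
    (Mb : Matrix (Fin n) (Fin n) (GK K)) (hMb : nd.IsDS o t b Mb) (hdet : Mb.det ≠ 0)
    (hn : 0 < n) : ¬ ∀ i, IsAlgebraic (k0 K H hH) (nd.s b i) := by
  classical
  intro halg
  have hs : ∀ l, nd.s b l ∈ k0 K H hH := fun l => k0_closed H hH _ (halg l)
  let q : Fin n → MvPolynomial (Fin n) (k0 K H hH) := fun l => X l - C ⟨nd.s b l, hs l⟩
  have hq : ∀ l, aeval (nd.s b) (q l) = 0 := by
    intro l
    show aeval (nd.s b) (X l - C (⟨nd.s b l, hs l⟩ : k0 K H hH)) = 0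
    rw [map_sub, aeval_X, aeval_C]
    exact sub_self _
  have hpd : ∀ l l', pderiv l' (q l) = if l' = l then 1 else 0 := by
    intro l l'
    show pderiv l' (X l - C (⟨nd.s b l, hs l⟩ : k0 K H hH)) = _
    rw [map_sub, pderiv_C, sub_zero, pderiv_X, Pi.single_apply]
    simp only [eq_comm]
  have hrow : ∀ l, (fun a => Mb l a) ∈ {x : Fin n → GK K | ∃ q : MvPolynomial (Fin n) (k0 K H hH),
      aeval (nd.s b) q = 0 ∧ x = fun a => ∑ l, aeval (nd.s b) (pderiv l q) * Mb l a} := by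
    intro l
    refine ⟨q l, hq l, ?_⟩
    funext a
    rw [Finset.sum_eq_single l]
    · rw [hpd, if_pos rfl, map_one, one_mul]
    · intro l' _ hl'
      rw [hpd, if_neg hl', map_zero, zero_mul]
    · intro h
      exact absurd (Finset.mem_univ l) h
  have hall : ∀ x : Fin n → GK K, x ∈ Submodule.span (GK K)
      {x : Fin n → GK K | ∃ q : MvPolynomial (Fin n) (k0 K H hH),
        aeval (nd.s b) q = 0 ∧ x = fun a => ∑ l, aeval (nd.s b) (pderiv l q) * Mb l a} := by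
    intro x
    have h1 : Matrix.vecMul (Matrix.vecMul x Mb⁻¹) Mb = x := by
      rw [Matrix.vecMul_vecMul, Matrix.nonsing_inv_mul _ (isUnit_iff_ne_zero.2 hdet),
        Matrix.vecMul_one]
    have h2 : x = ∑ l, Matrix.vecMul x Mb⁻¹ l • fun a => Mb l a := by
      conv_lhs => rw [← h1]
      funext a
      rw [Finset.sum_apply]
      rfl
    rw [h2]
    exact Submodule.sum_mem _ fun l _ =>
      Submodule.smul_mem _ _ (Submodule.subset_span (hrow l))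
  have h3 := hnr n e nd h0 o t ht Mb hMb (Pi.single ⟨0, hn⟩ 1) (hall _)
  have h4 := congrFun h3 ⟨0, hn⟩
  rw [Pi.single_eq_same] at h4
  exact one_ne_zero h4

theorem FA8_oH_max {H h h' : ℕ → ℝ} (h1 : oH H h) (h2 : oH H h') :
    oH H fun i => max (h i) (h' i) := by
  intro δ hδ
  filter_upwards [h1 δ hδ, h2 δ hδ] with i h3 h4
  exact max_le h3 h4

theorem FA8_Deg_mono {k : Type*} [CommRing k] {n e : ℕ} {ρ : REP k n e} {D D' : ℕ}
    (h : ρ.Deg D) (hD : D ≤ D') : ρ.Deg D' :=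
  ⟨fun j => (h.1 j).trans hD, fun l => (h.2.1 l).trans hD, fun j l m => (h.2.2 j l m).trans hD⟩

/-- No gain. -/
theorem no_gain {K : Type u} [Field K] [NumberField K] {N : ℕ} (B : AV K N) {H : ℕ → ℝ}
    (hH : Tendsto H (hyperfilter ℕ : Filter ℕ) atTop) (Q : ℕ → B.Pts K) (hQ : FRM B.h H Q)
    (hc : ∃ c : ℝ, 0 < c ∧ ∀ᶠ i in (hyperfilter ℕ : Filter ℕ), c * H i ≤ B.h (Q i))
    (hC : ∃ C : ℝ, 0 < C ∧ ∀ᶠ i in (hyperfilter ℕ : Filter ℕ), B.h (Q i) ≤ C * H i)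
    (b : B.Pts (GK K)) (hb : IsGerm B Q b) {k e : ℕ} (hdim : B.dimIs (k + 2))
    (nd : Noe B (k + 2) e) (κ : SC K) (hgood : nd.Good b) (hnr : NoRat B hH b)
    (z₀ z₁ : MvPolynomial (Fin (k + 2)) (k0 K H hH)) (hz : IsRelPrime z₀ z₁)
    (hz0 : aeval (nd.s b) z₀ ≠ 0 ∨ aeval (nd.s b) z₁ ≠ 0) (a a' : ℕ → K)
    (ha : gm a = aeval (nd.s b) z₀) (ha' : gm a' = aeval (nd.s b) z₁) (ε : ℝ) (hε : 0 < ε) :
    ∀ᶠ i in (hyperfilter ℕ : Filter ℕ), nd.gn κ (Q i) (a i) (a' i) ≤ ε * H i := by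
  classical
  by_contra hcon
  rw [not_eventually_iff] at hcon
  have hgain : ∀ᶠ i in (hyperfilter ℕ : Filter ℕ), ε * H i ≤ nd.gn κ (Q i) (a i) (a' i) :=
    hcon.mono fun i hi => (not_le.mp hi).le
  obtain ⟨o, t, ht⟩ := B.exists_frame hdim
  obtain ⟨Mb, hMb, hdet⟩ := nd.exists_DS ht b hgood
  have h0 : lf (nd.l 0) (B.x b) ≠ 0 := hgood.1
  have hgoodQ : ∀ᶠ i in (hyperfilter ℕ : Filter ℕ), nd.Good (Q i) := (good_germ nd hb).mp hgood
  obtain ⟨c, rr, hrr, hind, hq⟩ := exists_eqs (k := k0 K H hH) (nd.s b)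
  have hcn : c < k + 2 := by
    have h1 : c ≤ k + 2 := by
      have h2 := Fintype.card_le_of_injective rr hrr
      rwa [Fintype.card_fin, Fintype.card_fin] at h2
    refine lt_of_le_of_ne h1 fun h2 => ?_
    subst h2
    exact c_lt hH nd h0 hnr o t ht Mb hMb hdet (by omega) (eqs_algebraic (nd.s b) rr hrr hq)
  choose q hq1 hq2 hq3 using hq
  obtain ⟨M, E, U, ε', hε', hE⟩ :=
    exists_E hH nd hb h0 hnr o t ht Mb hMb hdet rr q hq1 hq2 hq3
  obtain ⟨e', D, h, hh, hρ⟩ := centreA nd κ hb (hgoodQ.mono fun i hi => hi.1) z₀ z₁ hz hz0 a a'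
    ha ha' ε hε hgain
  obtain ⟨C, hC0, hCi⟩ := hC
  set μ : ℝ := min (ε / 2) ε' with hμ
  have hμ0 : 0 < μ := lt_min (by positivity) hε'
  set D₁ : ℕ := D + ∑ r, (q r).totalDegree with hD₁
  obtain ⟨m, D', R₀, C₀, η, hm, hC₀, hη, hS⟩ :=
    S B rr hrr hcn nd o t ht κ e' D₁ (μ / C) (by positivity)
  have hsg : (fun t : {t : Fin (k + 2) // t ∉ Set.range rr} => gm fun i => nd.s (Q i) t) =
      fun t : {t : Fin (k + 2) // t ∉ Set.range rr} => nd.s b t :=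
    funext fun t => (s_germ nd hb t).symm
  obtain ⟨δ, hδ, hSI⟩ := SI (H := H) (hH := hH) (fun i => nd.s (Q i))
    (fun t : {t : Fin (k + 2) // t ∉ Set.range rr} => (t : Fin (k + 2))) Subtype.val_injective
    (by rw [hsg]; exact hind) D'
  have hsb : (fun t => gm fun i => nd.s (Q i) t) = nd.s b :=
    funext fun t => (s_germ nd hb t).symm
  have hev : ∀ᶠ i in (hyperfilter ℕ : Filter ℕ), ∀ r,
      eval (nd.s (Q i)) (pr (q r) i) = 0 ∧
        eval (nd.s (Q i)) (pderiv (rr r) (pr (q r) i)) ≠ 0 := by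
    rw [eventually_all]
    intro r
    have h1 := gm_eval_pr (q r) fun i => nd.s (Q i)
    have h2 := gm_eval_pr (pderiv (rr r) (q r)) fun i => nd.s (Q i)
    rw [hsb, hq2 r, gm_eq_zero_iff] at h1
    rw [hsb] at h2
    have h3 : gm (fun i => eval (nd.s (Q i)) (pr (pderiv (rr r) (q r)) i)) ≠ 0 := by
      rw [h2]
      exact hq3 r
    rw [gm_ne_zero_iff] at h3
    filter_upwards [h1, h3, pr_pderiv (q r) (rr r)] with i g1 g2 g3
    rw [g3] at g2
    exact ⟨g1, g2⟩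
  set hhh : ℕ → ℝ := fun i => max (h i) (∑ r, nh1 (pr (q r) i)) with hhhh
  have hoH : oH H hhh := FA8_oH_max hh (oH.sum hH Finset.univ _ fun r _ => oH_nh1_pr (q r))
  obtain ⟨a₀, b₀, j, -, hSb, hCa, hpos, hR1, hR2, hhj, h4j, hpt, hcone⟩ :=
    hQ hhh hoH (fun i => (∃ ρ : REP K (k + 2) e', ρ.Deg D ∧ ρ.ht ≤ h i ∧
        (eval (nd.s (Q i)) (ρ.z 0) ≠ 0 ∨ eval (nd.s (Q i)) (ρ.z 1) ≠ 0) ∧
        ε / 2 * H i ≤ nd.gn κ (Q i) (eval (nd.s (Q i)) (ρ.z 0)) (eval (nd.s (Q i)) (ρ.z 1))) ∧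
      nd.Good (Q i) ∧ (nd.IsDS o t (Q i) (M i) ∧ (U i).det ≠ 0 ∧
        (∀ b' a, E i b' a = ∑ r, U i b' r * ∑ l,
          eval (nd.s (Q i)) (pderiv l (pr (q r) i)) * M i l a) ∧
        ∀ b' < c, ε' * H i + wh (E i) b' ≤ wh (E i) (b' + 1)) ∧
      (∀ r, eval (nd.s (Q i)) (pr (q r) i) = 0 ∧
        eval (nd.s (Q i)) (pderiv (rr r) (pr (q r) i)) ≠ 0) ∧ B.h (Q i) ≤ C * H i ∧
      ∀ G : MvPolynomial (Fin (k + 2)) K, G ≠ 0 →
        (∀ t, t ∉ Set.range (fun t : {t : Fin (k + 2) // t ∉ Set.range rr} =>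
          (t : Fin (k + 2))) → G.degreeOf t = 0) →
        (∀ t, G.degreeOf t ≤ D') → nh G ≤ δ * H i → eval (nd.s (Q i)) G ≠ 0)
      (hρ.and (hgoodQ.and (hE.and (hev.and (hCi.and hSI))))) m R₀ (max C₀ (2 * C * C₀ / δ)) η hη
  choose ρ hρD hρh hρz hρg using fun i => (hSb i).1
  have hH0 : ∀ i, 0 ≤ H (b₀ i) := by
    intro i
    have h1 : 0 ≤ C * H (b₀ i) := (AV.h_nonneg (Q (b₀ i))).trans (hSb i).2.2.2.2.1
    exact nonneg_of_mul_nonneg_right h1 hC0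
  have hμH : ∀ i, μ / C * B.h (Q (b₀ i)) ≤ μ * H (b₀ i) := by
    intro i
    calc μ / C * B.h (Q (b₀ i)) ≤ μ / C * (C * H (b₀ i)) :=
          mul_le_mul_of_nonneg_left (hSb i).2.2.2.2.1 (by positivity)
      _ = μ * H (b₀ i) := by field_simp
  obtain ⟨i, G, hG0, hGr, hGd, hGn, hGe⟩ := hS (Q a₀) (fun i => Q (b₀ i)) j ρ
    (fun i r => pr (q r) (b₀ i)) (fun i => M (b₀ i)) (fun i => E (b₀ i)) (fun i => U (b₀ i))
    hR1 hR2 (fun i => (hSb i).2.1)
    (fun i => FA8_Deg_mono (hρD i) (Nat.le_add_right _ _))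
    (fun i => (hρh i).trans ((le_max_left _ _).trans (hhj i)))
    hρz
    (fun i => ((hμH i).trans (mul_le_mul_of_nonneg_right (min_le_left _ _) (hH0 i))).trans
      (hρg i))
    (fun i r => by
      refine ⟨fun r' hr' => ?_, fun t => ?_, ?_, ((hSb i).2.2.2.1 r).1, ((hSb i).2.2.2.1 r).2⟩
      · exact Nat.le_zero.mp ((degreeOf_pr (q r) (b₀ i) (rr r')).trans (hq1 r r' hr').le)
      · refine ((degreeOf_pr (q r) (b₀ i) t).trans (degreeOf_le_totalDegree _ _)).trans ?_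
        refine le_trans ?_ (Nat.le_add_left _ _)
        exact Finset.single_le_sum (f := fun r => (q r).totalDegree)
          (fun _ _ => Nat.zero_le _) (Finset.mem_univ r)
      · refine (nh_le_nh1 _).trans (le_trans ?_ ((le_max_right _ _).trans (hhj i)))
        exact Finset.single_le_sum (f := fun r => nh1 (pr (q r) (b₀ i)))
          (fun r _ => nh1_nonneg _) (Finset.mem_univ r))
    (fun i => (hSb i).2.2.1.1) (fun i => (hSb i).2.2.1.2.1) (fun i => (hSb i).2.2.1.2.2.1)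
    (fun i b' hb' => by
      refine le_trans ?_ ((hSb i).2.2.1.2.2.2 b' hb')
      have h1 := (hμH i).trans (mul_le_mul_of_nonneg_right (min_le_right (ε / 2) ε') (hH0 i))
      linarith)
    ((le_max_left _ _).trans hCa) hpt hcone
  refine (hSb i).2.2.2.2.2 G hG0 (fun t ht => ?_) hGd ?_ hGe
  · by_cases h1 : t ∈ Set.range rr
    · obtain ⟨r, rfl⟩ := h1
      exact hGr r
    · exact absurd ⟨⟨t, h1⟩, rfl⟩ ht
  · refine hGn.trans ?_
    have h1 : 2 * C * C₀ / δ ≤ B.h (Q a₀) := (le_max_right _ _).trans hCa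
    rw [div_le_iff₀ hδ] at h1
    have h2 : (4 : ℝ) ^ j i * B.h (Q a₀) ≤ 2 * (C * H (b₀ i)) :=
      (h4j i).trans (mul_le_mul_of_nonneg_left (hSb i).2.2.2.2.1 (by norm_num))
    have h3 : (0 : ℝ) < 4 ^ j i := by positivity
    have h4 := mul_le_mul_of_nonneg_left h1 h3.le
    have h5 := mul_le_mul_of_nonneg_left h2 hδ.le
    have h6 : C * (C₀ * 4 ^ j i) ≤ C * (δ * H (b₀ i)) := by nlinarith
    exact le_of_mul_le_mul_left h6 hC0

end Pool.Agent.Lib.MP_17a322_nt.VA
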