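import Pool.Agent.Lib.MP_17a322_nt.VN.E0

/-!
VA, part G, job G23: descent of the base field by derivations and automorphisms.

Proof (complete). `≥` is clear (`Ideal.map_comap_le`). `≤`: let `J` be the right side. Claim: every `v ∈ 𝔟` is in `J`; strong induction on `v.support.card`. Let `v ≠ 0`. Among the nonzero `u ∈ 𝔟` with `u.support ⊆ v.support` choose one with `u.support.card` minimal (`v` is one of them;
`Nat.find` or `WellFounded.min`). Choose `m ∈ u.support` and replace `u` by `C (coeff m u)⁻¹ * u ∈ 𝔟` (same support): `coeff m u = 1`. For `δ : Derivation ℤ k k` zero on `K`: `w := dc σ δ u ∈ 𝔟`, `coeff n w = δ (coeff n u)` (`coeff_dc`), so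
`w.support ⊆ u.support` and `coeff m w = δ 1 = 0`, so the support of `w` is strictly smaller; by minimality `w = 0`: `δ (coeff n u) = 0` for all `n`. For `φ ∈ Γ`: `w := map φ u - u ∈ 𝔟`, `coeff n w = φ (coeff n u) - coeff n u`, the same argument: `φ (coeff n u) = coeff n u`. By `hfix` all coefficients of `u`
are in the image of `K`: `u = map (algebraMap K k) u₀` (`MvPolynomial.mem_range_map_iff_coeffs_subset`-like, or `u₀ := ∑ n ∈ u.support, monomial n (choose ..)`), `u₀ ∈ 𝔟.comap (map ..)`, so `u ∈ J`. Then `v - C (coeff m v) * u ∈ 𝔟` has its support in `v.support \ {m}`, so by induction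
it is in `J`, and so is `v`.
-/

universe u

namespace Pool.Agent.Lib.MP_17a322_nt.VA.G

open MvPolynomial
open Pool.Agent.Lib.MP_17a322_nt.VN

theorem descend {K k : Type u} [Field K] [Field k] [Algebra K k] {σ : Type*}
    (𝔟 : Ideal (MvPolynomial σ k)) (Γ : Set (k →+* k))
    (hΓ : ∀ φ ∈ Γ, ∀ G ∈ 𝔟, map φ G ∈ 𝔟)
    (hδ : ∀ δ : Derivation ℤ k k, (∀ c : K, δ (algebraMap K k c) = 0) → ∀ G ∈ 𝔟, dc σ δ G ∈ 𝔟)
    (hfix : ∀ c : k, (∀ φ ∈ Γ, φ c = c) →
      (∀ δ : Derivation ℤ k k, (∀ c : K, δ (algebraMap K k c) = 0) → δ c = 0) →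
        c ∈ (algebraMap K k).range) :
    𝔟 = (𝔟.comap (map (algebraMap K k))).map (map (algebraMap K k)) := by
  classical
  obtain ⟨J, hJ⟩ : ∃ J, J = (𝔟.comap (map (algebraMap K k))).map (map (algebraMap K k)) := ⟨_, rfl⟩
  rw [← hJ]
  have hJle : J ≤ 𝔟 := by rw [hJ]; exact Ideal.map_comap_le
  refine le_antisymm (fun v hv => ?_) hJle
  induction hn : v.support.card using Nat.strong_induction_on generalizing v with
  | _ N ih =>
    by_cases hv0 : v = 0
    · rw [hv0]; exact J.zero_mem
    · have hex : ∃ c : ℕ, ∃ u ∈ 𝔟, u ≠ 0 ∧ u.support ⊆ v.support ∧ u.support.card = c :=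
        ⟨_, v, hv, hv0, subset_rfl, rfl⟩
      obtain ⟨u, hu, hu0, husub, hucard⟩ := Nat.find_spec hex
      have hmin : ∀ w ∈ 𝔟, w.support ⊆ v.support → w.support.card < u.support.card → w = 0 := by
        intro w hw hws hwc
        by_contra hw0
        rw [hucard] at hwc
        exact Nat.find_min hex hwc ⟨w, hw, hw0, hws, rfl⟩
      obtain ⟨m, hm⟩ : ∃ m, m ∈ u.support := by
        by_contra hcon
        push Not at hcon
        exact hu0 (support_eq_empty.1 (Finset.eq_empty_of_forall_notMem hcon))
      obtain ⟨a, ha⟩ : ∃ a, a = coeff m u := ⟨_, rfl⟩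
      have ha0 : a ≠ 0 := by rw [ha]; exact mem_support_iff.1 hm
      obtain ⟨u', hu'⟩ : ∃ u', u' = C a⁻¹ * u := ⟨_, rfl⟩
      have hu'c : ∀ n, coeff n u' = a⁻¹ * coeff n u := fun n => by rw [hu', coeff_C_mul]
      have hu's : ∀ n, n ∈ u.support ↔ coeff n u' ≠ 0 := by
        intro n
        rw [mem_support_iff, hu'c, mul_ne_zero_iff]
        exact ⟨fun h => ⟨inv_ne_zero ha0, h⟩, fun h => h.2⟩
      have hu'b : u' ∈ 𝔟 := by rw [hu']; exact 𝔟.mul_mem_left _ hu
      have hm1 : coeff m u' = 1 := by rw [hu'c, ← ha, inv_mul_cancel₀ ha0]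
      have key : ∀ w ∈ 𝔟, (∀ n, coeff n u' = 0 → coeff n w = 0) → coeff m w = 0 → w = 0 := by
        intro w hw h1 h2
        have hws : w.support ⊆ u.support := by
          intro n hn
          rw [hu's]
          intro h3
          exact (mem_support_iff.1 hn) (h1 n h3)
        refine hmin w hw (hws.trans husub) (Finset.card_lt_card ⟨hws, fun h3 => ?_⟩)
        exact (mem_support_iff.1 (h3 hm)) h2
      have hco : ∀ n, coeff n u' ∈ (algebraMap K k).range := by
        intro n
        refine hfix _ (fun φ hφ => ?_) (fun δ hδ0 => ?_)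
        · have h1 := key (map φ u' - u') (𝔟.sub_mem (hΓ φ hφ u' hu'b) hu'b)
            (fun l hl => by rw [coeff_sub, coeff_map, hl, map_zero, sub_zero])
            (by rw [coeff_sub, coeff_map, hm1, map_one, sub_self])
          have h2 := congrArg (coeff n) h1
          rw [coeff_sub, coeff_map, coeff_zero, sub_eq_zero] at h2
          exact h2
        · have h1 := key (dc σ δ u') (hδ δ hδ0 u' hu'b)
            (fun l hl => by rw [coeff_dc, hl, map_zero])
            (by rw [coeff_dc, hm1, Derivation.map_one_eq_zero])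
          have h2 := congrArg (coeff n) h1
          rw [coeff_dc, coeff_zero] at h2
          exact h2
      choose g hg using hco
      obtain ⟨u₀, hu₀⟩ : ∃ u₀ : MvPolynomial σ K, u₀ = ∑ n ∈ u'.support, monomial n (g n) :=
        ⟨_, rfl⟩
      have hmap : map (algebraMap K k) u₀ = u' := by
        rw [hu₀, map_sum]
        conv_rhs => rw [u'.as_sum]
        refine Finset.sum_congr rfl fun n _ => ?_
        rw [map_monomial, hg]
      have hu'J : u' ∈ J := by
        rw [hJ, ← hmap]
        refine Ideal.mem_map_of_mem _ ?_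
        rw [Ideal.mem_comap, hmap]
        exact hu'b
      have hmv : m ∈ v.support := husub hm
      obtain ⟨w, hw⟩ : ∃ w, w = v - C (coeff m v) * u' := ⟨_, rfl⟩
      have hwb : w ∈ 𝔟 := by rw [hw]; exact 𝔟.sub_mem hv (𝔟.mul_mem_left _ hu'b)
      have hws : w.support ⊆ v.support.erase m := by
        intro n hn
        rw [mem_support_iff, hw, coeff_sub, coeff_C_mul] at hn
        rw [Finset.mem_erase]
        refine ⟨fun h => hn ?_, ?_⟩
        · rw [h, hm1, mul_one, sub_self]
        · by_contra h
          have h1 : coeff n v = 0 := notMem_support_iff.1 h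
          have h2 : coeff n u' = 0 := by
            by_contra h3
            exact h (husub ((hu's n).2 h3))
          exact hn (by rw [h1, h2, mul_zero, sub_zero])
      have hwc : w.support.card < N := by
        rw [← hn]
        exact (Finset.card_le_card hws).trans_lt (Finset.card_erase_lt_of_mem hmv)
      have hwJ : w ∈ J := ih _ hwc w hwb rfl
      have hvw : v = w + C (coeff m v) * u' := by rw [hw, sub_add_cancel]
      rw [hvw]
      exact J.add_mem hwJ (J.mul_mem_left _ hu'J)

end Pool.Agent.Lib.MP_17a322_nt.VA.G
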