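import Pool.Agent.Lib.MP_17a322_nt.VA.G03b

/-!
VA, part G, job G24: prime ideals over algebraically closed fields stay prime; descent of ideal membership.

Proofs (complete).
`map_isPrime`: Let `L := FractionRing (MvPolynomial (Fin n) k ⧸ 𝔟)`, `x i` the class of `X i`: `aeval x g = 0 ↔ g ∈ 𝔟` for `g : MvPolynomial (Fin n) k`. `exists_pair k k L E` (or with `E, L` exchanged): a field `L₃`, `ι₁ : E →ₐ[k] L₃`, `ι₂ : L →ₐ[k] L₃` with `LD ι₂' ι₁'`; here we need:
if `e 0, .., e (m-1) ∈ E` are linearly independent over `k` and `a j ∈ L`, `∑ j, ι_L (a j) * ι_E (e j) = 0`, then all `a j = 0`: this is `LD ι_L ι_E` for `L₁ := L`, `L₂ := E`. Let `Ψ : MvPolynomial (Fin n) E →+* L₃` be `eval₂Hom ι_E.toRingHom (ι_L ∘ x)`. Claim: `ker Ψ = 𝔟.map (map (algebraMap k E))`; then it is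
prime (`RingHom.ker_isPrime`). `≥`: `Ψ (map (algebraMap k E) g) = ι_L (aeval x g) = 0` for `g ∈ 𝔟`. `≤`: let `Ψ G = 0`; the coefficients of `G` are in the span of finitely many linearly independent `e j`: `G = ∑ j, C (e j) * map (algebraMap k E) (G j)` with `G j : MvPolynomial (Fin n) k` (coordinates of the coefficients in
a basis of `E` over `k`); `0 = Ψ G = ∑ j, ι_E (e j) * ι_L (aeval x (G j))`, so `aeval x (G j) = 0`, `G j ∈ 𝔟`.
`comap_map`: `≥` clear. `≤`: let `G : MvPolynomial (Fin n) L` with `map (algebraMap L E) G ∈ I.map (map (algebraMap L E))`. Choose an `L`-linear map `ρ : E → L` with `ρ 1 = 1` (a left inverse of `Algebra.linearMap L E`: `LinearMap.exists_leftInverse_of_injective`), and let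
`ρ' : MvPolynomial (Fin n) E → MvPolynomial (Fin n) L` be `ρ` on the coefficients, an additive map with `ρ' (map (algebraMap L E) g * H) = g * ρ' H`. `ρ'` maps `I.map (map ..)` into `I` (`Submodule.span_induction`: elements `H * map .. g` with `g ∈ I`), and `ρ' (map .. G) = G`.
[Mathlib: `Ideal.comap_map_eq_self_of_faithfullyFlat` would also do, if the instance for `MvPolynomial` can be found.]
-/

universe u

namespace Pool.Agent.Lib.MP_17a322_nt.VA.G

open MvPolynomial

/-- A polynomial over `E` is a combination of polynomials over `k` with coefficients in a basis. -/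
private theorem g24a_decomp {k E : Type u} [Field k] [Field E] [Algebra k E] {n : ℕ}
    (G : MvPolynomial (Fin n) E) : ∃ (r : ℕ) (b : Fin r → E) (g : Fin r → MvPolynomial (Fin n) k),
      LinearIndependent k b ∧ G = ∑ j, C (b j) * map (algebraMap k E) (g j) := by
  classical
  obtain ⟨bas, -⟩ : ∃ bas : Module.Basis (Module.Basis.ofVectorSpaceIndex k E) k E,
    bas = Module.Basis.ofVectorSpace k E := ⟨_, rfl⟩
  obtain ⟨T, hT⟩ : ∃ T : Finset (Module.Basis.ofVectorSpaceIndex k E),
    T = G.support.biUnion (fun m => (bas.repr (coeff m G)).support) := ⟨_, rfl⟩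
  obtain ⟨Gi, hGi⟩ : ∃ Gi : Module.Basis.ofVectorSpaceIndex k E → MvPolynomial (Fin n) k,
    Gi = fun i => ∑ m ∈ G.support, monomial m (bas.repr (coeff m G) i) := ⟨_, rfl⟩
  have hc : ∀ i m, coeff m (Gi i) = bas.repr (coeff m G) i := by
    intro i m
    rw [hGi]
    simp only
    rw [coeff_sum]
    by_cases hm : m ∈ G.support
    · rw [Finset.sum_eq_single_of_mem m hm]
      · rw [coeff_monomial, if_pos rfl]
      · intro m' _ hm'
        rw [coeff_monomial, if_neg hm']
    · rw [notMem_support_iff.1 hm, map_zero, Finsupp.zero_apply]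
      refine Finset.sum_eq_zero fun m' hm' => ?_
      rw [coeff_monomial, if_neg]
      intro h
      exact hm (h ▸ hm')
  have hG : G = ∑ i ∈ T, C (bas i) * map (algebraMap k E) (Gi i) := by
    ext m
    rw [coeff_sum]
    have h1 : ∀ i ∈ T, coeff m (C (bas i) * map (algebraMap k E) (Gi i)) =
        bas.repr (coeff m G) i • bas i := by
      intro i _
      rw [coeff_C_mul, coeff_map, hc, Algebra.smul_def, mul_comm]
    rw [Finset.sum_congr rfl h1]
    have h2 := bas.linearCombination_repr (coeff m G)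
    rw [Finsupp.linearCombination_apply] at h2
    have h3 : (bas.repr (coeff m G)).support ⊆ T := by
      intro i hi
      by_cases hm : m ∈ G.support
      · rw [hT]
        exact Finset.mem_biUnion.2 ⟨m, hm, hi⟩
      · rw [notMem_support_iff.1 hm, map_zero, Finsupp.support_zero] at hi
        exact absurd hi (Finset.notMem_empty _)
    rw [Finsupp.sum_of_support_subset _ h3 _ (fun i _ => zero_smul k (bas i))] at h2
    exact h2.symm
  refine ⟨T.card, fun j => bas (T.equivFin.symm j), fun j => Gi (T.equivFin.symm j), ?_, ?_⟩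
  · have h1 := bas.linearIndependent.comp (fun j : Fin T.card => (T.equivFin.symm j : _)) ?_
    · exact h1
    · intro i j hij
      exact T.equivFin.symm.injective (Subtype.ext hij)
  · rw [hG]
    rw [← Finset.sum_coe_sort T (fun i => C (bas i) * map (algebraMap k E) (Gi i))]
    exact (Equiv.sum_comp T.equivFin.symm
      (fun i : T => C (bas i) * map (algebraMap k E) (Gi i))).symm

theorem map_isPrime {k E : Type u} [Field k] [IsAlgClosed k] [Field E] [Algebra k E] {n : ℕ}
    (𝔟 : Ideal (MvPolynomial (Fin n) k)) [h : 𝔟.IsPrime] :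
    (𝔟.map (map (σ := Fin n) (algebraMap k E))).IsPrime := by
  obtain ⟨L₃, _, _, _, _, ι₁, ι₂, hLD⟩ := exists_pair k k
    (FractionRing (MvPolynomial (Fin n) k ⧸ 𝔟)) E
  obtain ⟨x, hx⟩ : ∃ x : Fin n → FractionRing (MvPolynomial (Fin n) k ⧸ 𝔟),
    x = fun i => algebraMap (MvPolynomial (Fin n) k ⧸ 𝔟) _ (Ideal.Quotient.mk 𝔟 (X i)) := ⟨_, rfl⟩
  have hae : ∀ g : MvPolynomial (Fin n) k, aeval x g =
      algebraMap (MvPolynomial (Fin n) k ⧸ 𝔟) (FractionRing (MvPolynomial (Fin n) k ⧸ 𝔟))
        (Ideal.Quotient.mk 𝔟 g) := by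
    intro g
    have h1 : (aeval x : MvPolynomial (Fin n) k →ₐ[k] _) =
        (IsScalarTower.toAlgHom k (MvPolynomial (Fin n) k ⧸ 𝔟)
          (FractionRing (MvPolynomial (Fin n) k ⧸ 𝔟))).comp (Ideal.Quotient.mkₐ k 𝔟) := by
      refine MvPolynomial.algHom_ext fun i => ?_
      rw [aeval_X, hx]
      rfl
    rw [h1]
    rfl
  have hae0 : ∀ g : MvPolynomial (Fin n) k, aeval x g = 0 → g ∈ 𝔟 := by
    intro g hg
    rw [hae g] at hg
    have h1 : Ideal.Quotient.mk 𝔟 g = 0 :=
      (map_eq_zero_iff _ (IsFractionRing.injective (MvPolynomial (Fin n) k ⧸ 𝔟)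
        (FractionRing (MvPolynomial (Fin n) k ⧸ 𝔟)))).1 hg
    exact Ideal.Quotient.eq_zero_iff_mem.1 h1
  obtain ⟨Ψ, hΨ⟩ : ∃ Ψ : MvPolynomial (Fin n) E →+* L₃,
    Ψ = eval₂Hom (ι₂ : E →+* L₃) (fun i => ι₁ (x i)) := ⟨_, rfl⟩
  have hΨC : ∀ y : E, Ψ (C y) = ι₂ y := by
    intro y
    rw [hΨ, eval₂Hom_C]
    rfl
  have hΨm : ∀ g : MvPolynomial (Fin n) k, Ψ (map (algebraMap k E) g) = ι₁ (aeval x g) := by
    intro g
    have h1 : Ψ.comp (map (algebraMap k E)) =
        (ι₁ : FractionRing (MvPolynomial (Fin n) k ⧸ 𝔟) →+* L₃).comp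
          (aeval x : MvPolynomial (Fin n) k →ₐ[k] _).toRingHom := by
      refine MvPolynomial.ringHom_ext ?_ ?_
      · intro c
        rw [RingHom.comp_apply, map_C, hΨC, RingHom.comp_apply]
        change ι₂ (algebraMap k E c) = ι₁ (aeval x (C c))
        rw [aeval_C, AlgHom.commutes, AlgHom.commutes]
      · intro i
        rw [RingHom.comp_apply, map_X, RingHom.comp_apply, hΨ, eval₂Hom_X']
        change ι₁ (x i) = ι₁ (aeval x (X i))
        rw [aeval_X]
    exact congrArg (fun f : MvPolynomial (Fin n) k →+* L₃ => f g) h1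
  have hker : 𝔟.map (map (σ := Fin n) (algebraMap k E)) = RingHom.ker Ψ := by
    refine le_antisymm ?_ ?_
    · rw [Ideal.map_le_iff_le_comap]
      intro g hg
      rw [Ideal.mem_comap, RingHom.mem_ker, hΨm, hae, Ideal.Quotient.eq_zero_iff_mem.2 hg,
        map_zero, map_zero]
    · intro G hG
      rw [RingHom.mem_ker] at hG
      obtain ⟨r, b, g, hb, hGd⟩ := g24a_decomp (k := k) G
      rw [hGd, map_sum] at hG
      have h1 := hLD r (fun j => aeval x (g j)) b hb (by
        rw [← hG]
        refine Finset.sum_congr rfl fun j _ => ?_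
        rw [map_mul, hΨC, hΨm, mul_comm])
      rw [hGd]
      refine Ideal.sum_mem _ fun j _ => ?_
      exact Ideal.mul_mem_left _ _ (Ideal.mem_map_of_mem _ (hae0 _ (h1 j)))
  rw [hker]
  exact RingHom.ker_isPrime Ψ

/-- The map `ρ` on the coefficients. -/
private noncomputable def g24b_rho {L E : Type u} [Field L] [Field E] [Algebra L E] {n : ℕ}
    (ρ : E →ₗ[L] L) (G : MvPolynomial (Fin n) E) : MvPolynomial (Fin n) L :=
  ∑ m ∈ G.support, monomial m (ρ (coeff m G))

private theorem g24b_coeff {L E : Type u} [Field L] [Field E] [Algebra L E] {n : ℕ}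
    (ρ : E →ₗ[L] L) (G : MvPolynomial (Fin n) E) (m : Fin n →₀ ℕ) :
    coeff m (g24b_rho ρ G) = ρ (coeff m G) := by
  classical
  unfold g24b_rho
  rw [coeff_sum]
  simp only [coeff_monomial]
  rw [Finset.sum_ite_eq']
  split_ifs with h
  · rfl
  · rw [notMem_support_iff.mp h, map_zero]

private theorem g24b_add {L E : Type u} [Field L] [Field E] [Algebra L E] {n : ℕ}
    (ρ : E →ₗ[L] L) (G H : MvPolynomial (Fin n) E) :
    g24b_rho ρ (G + H) = g24b_rho ρ G + g24b_rho ρ H := by
  ext m
  rw [coeff_add, g24b_coeff, g24b_coeff, g24b_coeff, coeff_add, map_add]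

private theorem g24b_zero {L E : Type u} [Field L] [Field E] [Algebra L E] {n : ℕ}
    (ρ : E →ₗ[L] L) : g24b_rho ρ (0 : MvPolynomial (Fin n) E) = 0 := by
  ext m
  rw [g24b_coeff, coeff_zero, coeff_zero, map_zero]

private theorem g24b_mul {L E : Type u} [Field L] [Field E] [Algebra L E] {n : ℕ}
    (ρ : E →ₗ[L] L) (g : MvPolynomial (Fin n) L) (H : MvPolynomial (Fin n) E) :
    g24b_rho ρ (map (algebraMap L E) g * H) = g * g24b_rho ρ H := by
  classical
  ext m
  rw [g24b_coeff, coeff_mul, coeff_mul, map_sum]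
  refine Finset.sum_congr rfl fun x _ => ?_
  rw [coeff_map, g24b_coeff, ← Algebra.smul_def, LinearMap.map_smul, smul_eq_mul]

theorem comap_map {L E : Type u} [Field L] [Field E] [Algebra L E] {n : ℕ}
    (I : Ideal (MvPolynomial (Fin n) L)) :
    (I.map (map (σ := Fin n) (algebraMap L E))).comap (map (σ := Fin n) (algebraMap L E)) = I := by
  refine le_antisymm ?_ Ideal.le_comap_map
  intro G hG
  rw [Ideal.mem_comap] at hG
  obtain ⟨ρ, hρ⟩ := LinearMap.exists_leftInverse_of_injective (Algebra.linearMap L E)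
    (LinearMap.ker_eq_bot.mpr (algebraMap L E).injective)
  have hρa : ∀ a : L, ρ (algebraMap L E a) = a := fun a => by
    have h := LinearMap.congr_fun hρ a
    rw [LinearMap.comp_apply, Algebra.linearMap_apply, LinearMap.id_apply] at h
    exact h
  have key : ∀ G' ∈ I.map (map (σ := Fin n) (algebraMap L E)), ∀ H : MvPolynomial (Fin n) E,
      g24b_rho ρ (H * G') ∈ I := by
    intro G' hG'
    unfold Ideal.map at hG'
    refine Submodule.span_induction (p := fun G' _ => ∀ H : MvPolynomial (Fin n) E,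
      g24b_rho ρ (H * G') ∈ I) ?_ ?_ ?_ ?_ hG'
    · rintro _ ⟨g, hg, rfl⟩ H
      rw [mul_comm, g24b_mul]
      exact I.mul_mem_right _ hg
    · intro H
      rw [mul_zero, g24b_zero]
      exact I.zero_mem
    · intro x y _ _ hx hy H
      rw [mul_add, g24b_add]
      exact I.add_mem (hx H) (hy H)
    · intro a x _ hx H
      rw [smul_eq_mul, ← mul_assoc]
      exact hx (H * a)
  have h1 := key _ hG 1
  rw [one_mul] at h1
  have h2 : g24b_rho ρ (map (algebraMap L E) G) = G := by
    ext m
    rw [g24b_coeff, coeff_map, hρa]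
  rwa [h2] at h1

end Pool.Agent.Lib.MP_17a322_nt.VA.G
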