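import Pool.Agent.Lib.MP_17a322_nt.VA.G02
import Pool.Agent.Lib.MP_17a322_nt.VA.G24
import Pool.Agent.Lib.MP_17a322_nt.VA.ZDefs

/-!
VA, part G, job G25: the abelian variety with the ideal `𝔟`.

Proofs (complete). `I := 𝔟.comap (map (algebraMap K k))`.
`A_le`: for `f ∈ A.I`: `map (algebraMap K k) f ∈ 𝔟` (by `hA`), so `A.I ≤ I`.
`sub_mem`: for a field `L` over `K` and `P, Q : A.Pts L` with `∀ f ∈ I, aeval (A.x P) f = 0`, the same for `Q`: then the same for `P - Q`, and for `0`. Proof: `exists_compositum K L k` (G03b): `E`, `φ : L →ₐ[K] E`, `ψ : k →ₐ[K] E`; `letI := ψ.toRingHom.toAlgebra` (so `IsScalarTower K k E`). The images `P', Q'` of `P, Q` in `A.Pts E` are zeros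
of `𝔟`: for `f ∈ I` all components are in `I` (`𝔟` contains the components of its elements; `homogeneousComponent` commutes with `map`) so `map (algebraMap K k) f ∈ loc k (A.x P')` (`map_mem_loc`, `mem_loc`, and `A.x P' = c⁻¹ • φ ∘ A.x P`, `loc_map`, `loc_smul`); `𝔟 = I.map (map ..)` is generated by these (`Ideal.map_le_iff_le_comap`).
By `h𝔟.2` `P' - Q'` is a zero of `𝔟`, so `map .. f ∈ loc k (A.x (P' - Q'))`, `f ∈ loc K (A.x (P' - Q')) = loc K (A.x (P - Q))` (`map_mem_loc`, `Z_img_sub`, `loc_map`, `loc_smul`).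
`exists_sub`: define `B : AV K N` by `I`; `homog`: from `hhom`; `prime`: Let `L` be a field over `K`; `E, φ, ψ` as above, `letI` both algebra structures. `(I.map (map (algebraMap K L))).map (map (algebraMap L E)) = I.map (map (algebraMap K E)) = (I.map (map (algebraMap K k))).map (map (algebraMap k E)) =
𝔟.map (map (algebraMap k E))` (`Ideal.map_map`, `MvPolynomial.map_comp..`) is prime (`map_isPrime`), and its contraction to `L[X]` is `I.map (map (algebraMap K L))` (`comap_map`), so this is prime (`Ideal.IsPrime.comap`).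
`grp L`: `Pt I L` is (by the inclusion `Pt I L → Pt A.I L`, `P ↦ ⟨P.1, _⟩`, injective) the subgroup `{P : A.Pts L | ∀ f ∈ I, aeval (A.x P) f = 0}`: transport the structure: `P + Q := ⟨(incl P + incl Q).1, _⟩`, `0`, `-P`, `P - Q`; the axioms are those of `A.Pts L` (`Subtype.ext`); use `Function.Injective.addCommGroup` with
`nsmul`, `zsmul` by iteration, or `AddCommGroup.ofLeftAxioms`-like constructions. [It may be convenient to define the `AddSubgroup` `H L` of `A.Pts L` and the equivalence `Pt I L ≃ H L`, and `Equiv.addCommGroup`.] `functorial`: `A.functorial` (the vector `.1.rep` is the same). `S := A.S`, `bihomog := A.bihomog`,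
`spec`: `A.spec` for the included points. `IsSubAV`: `le`, `S_eq := rfl`, `add` by definition of the sum (the points `P', Q'` are the included points: `Subtype.ext`).
-/

universe u

namespace Pool.Agent.Lib.MP_17a322_nt.VA.G

open MvPolynomial

private theorem g25b_comp (K L E : Type u) [Field K] [Field L] [Field E] [Algebra K L]
    [Algebra K E] [Algebra L E] [IsScalarTower K L E] (n : ℕ) :
    (map (σ := Fin n) (algebraMap L E)).comp (map (algebraMap K L)) = map (algebraMap K E) := by
  refine MvPolynomial.ringHom_ext (fun r => ?_) (fun i => ?_)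
  · rw [RingHom.comp_apply, map_C, map_C, map_C, ← IsScalarTower.algebraMap_apply]
  · rw [RingHom.comp_apply, map_X, map_X, map_X]

private theorem g25b_homog {K k : Type u} [Field K] [Field k] [Algebra K k] {n : ℕ} (d : ℕ)
    (f : MvPolynomial (Fin n) K) : map (algebraMap K k) (homogeneousComponent d f) =
      homogeneousComponent d (map (algebraMap K k) f) := by
  ext m
  rw [coeff_map, coeff_homogeneousComponent, coeff_homogeneousComponent, coeff_map]
  by_cases h : m.degree = d
  · rw [if_pos h, if_pos h]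
  · rw [if_neg h, if_neg h, map_zero]

private theorem g25b_prime {K k : Type u} [Field K] [Field k] [Algebra K k] [IsAlgClosed k] {n : ℕ}
    {𝔟 : Ideal (MvPolynomial (Fin n) k)} [𝔟.IsPrime]
    (hdesc : 𝔟 = (𝔟.comap (map (algebraMap K k))).map (map (algebraMap K k)))
    (L : Type u) [Field L] [Algebra K L] :
    ((𝔟.comap (map (algebraMap K k))).map
      (MvPolynomial.map (σ := Fin n) (algebraMap K L))).IsPrime := by
  obtain ⟨E, _, _, φ, ψ, -⟩ := exists_compositum K L k
  letI : Algebra L E := φ.toRingHom.toAlgebra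
  letI : Algebra k E := ψ.toRingHom.toAlgebra
  haveI : IsScalarTower K L E := IsScalarTower.of_algebraMap_eq fun x => (φ.commutes x).symm
  haveI : IsScalarTower K k E := IsScalarTower.of_algebraMap_eq fun x => (ψ.commutes x).symm
  have h1 : ((𝔟.comap (map (algebraMap K k))).map (map (algebraMap K L))).map
      (map (σ := Fin n) (algebraMap L E)) = 𝔟.map (map (algebraMap k E)) := by
    rw [Ideal.map_map, g25b_comp]
    conv_rhs => rw [hdesc, Ideal.map_map, g25b_comp]
  have h2 := comap_map (L := L) (E := E) ((𝔟.comap (map (algebraMap K k))).map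
    (map (σ := Fin n) (algebraMap K L)))
  rw [← h2, h1]
  have h3 := map_isPrime (E := E) 𝔟
  exact Ideal.IsPrime.comap _

section

variable {K : Type u} [Field K] {N : ℕ} (A : AV K N)

/-- The ideal over `K` of the image of a point. -/
private theorem g25a_loc {L E : Type u} [Field L] [Algebra K L] [Field E] [Algebra K E]
    {φ : L →ₐ[K] E} {P : A.Pts L} {P' : A.Pts E} (h : A.Img φ P P') :
    loc K (A.x P') = loc K (A.x P) := by
  obtain ⟨c, hc, h1⟩ := h
  have h2 : (fun i => φ (A.x P i)) = fun i => c * A.x P' i := funext h1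
  rw [← loc_map (k := K) φ (x := A.x P), h2, loc_smul hc]

private theorem g25a_map_comp {k : Type u} [Field k] [Algebra K k] {n : ℕ}
    (f : MvPolynomial (Fin n) K) (d : ℕ) :
    homogeneousComponent d (map (algebraMap K k) f) =
      map (algebraMap K k) (homogeneousComponent d f) := by
  ext m
  rw [coeff_homogeneousComponent, coeff_map, coeff_map, coeff_homogeneousComponent]
  split_ifs
  · rfl
  · rw [map_zero]

variable {k : Type u} [Field k] [Algebra K k] {𝔟 : Ideal (MvPolynomial (Fin (N + 1)) k)}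

private theorem g25a_ZP (hhom : ∀ G ∈ 𝔟, ∀ d, homogeneousComponent d G ∈ 𝔟)
    (hdesc : 𝔟 = (𝔟.comap (map (algebraMap K k))).map (map (algebraMap K k)))
    {L E : Type u} [Field L] [Algebra K L] [Field E] [Algebra K E] [Algebra k E]
    [IsScalarTower K k E] {φ : L →ₐ[K] E} {P : A.Pts L} {P' : A.Pts E} (h : A.Img φ P P')
    (hP : ∀ f ∈ 𝔟.comap (map (algebraMap K k)), aeval (A.x P) f = 0) : ZP A 𝔟 P' := by
  show 𝔟 ≤ loc k (A.x P')
  have h1 : (𝔟.comap (map (algebraMap K k))).map (map (algebraMap K k)) ≤ loc k (A.x P') := by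
    rw [Ideal.map_le_iff_le_comap]
    intro f hf
    rw [Ideal.mem_comap, map_mem_loc, g25a_loc A h, mem_loc]
    intro d
    refine hP _ ?_
    rw [Ideal.mem_comap] at hf ⊢
    rw [← g25a_map_comp]
    exact hhom _ hf d
  rwa [← hdesc] at h1

private theorem g25a_back {L E : Type u} [Field L] [Algebra K L] [Field E] [Algebra K E]
    [Algebra k E] [IsScalarTower K k E] {φ : L →ₐ[K] E} {P : A.Pts L} {P' : A.Pts E}
    (h : A.Img φ P P') (hP : ZP A 𝔟 P') :
    ∀ f ∈ 𝔟.comap (map (algebraMap K k)), aeval (A.x P) f = 0 := by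
  intro f hf
  rw [Ideal.mem_comap] at hf
  have h1 : map (algebraMap K k) f ∈ loc k (A.x P') := hP hf
  rw [map_mem_loc, g25a_loc A h] at h1
  exact aeval_of_mem_loc h1

variable {K : Type u} [Field K] {N : ℕ} (A : AV K N) {k : Type u} [Field k] [Algebra K k]
  {𝔟 : Ideal (MvPolynomial (Fin (N + 1)) k)} (h𝔟 : GrpI A 𝔟)
  (hhom : ∀ G ∈ 𝔟, ∀ d, homogeneousComponent d G ∈ 𝔟)
  (hdesc : 𝔟 = (𝔟.comap (map (algebraMap K k))).map (map (algebraMap K k)))

include h𝔟 hhom hdesc

theorem zero_sub_mem {L : Type u} [Field L] [Algebra K L] :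
    (∀ f ∈ 𝔟.comap (map (algebraMap K k)), aeval (A.x (0 : A.Pts L)) f = 0) ∧
      ∀ P Q : A.Pts L, (∀ f ∈ 𝔟.comap (map (algebraMap K k)), aeval (A.x P) f = 0) →
        (∀ f ∈ 𝔟.comap (map (algebraMap K k)), aeval (A.x Q) f = 0) →
        ∀ f ∈ 𝔟.comap (map (algebraMap K k)), aeval (A.x (P - Q)) f = 0 := by
  obtain ⟨E, iE, iKE, φ, ψ, -⟩ := exists_compositum K L k
  let _ : Algebra k E := ψ.toRingHom.toAlgebra
  have hst : IsScalarTower K k E := IsScalarTower.of_algebraMap_eq fun x => (ψ.commutes x).symm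
  refine ⟨g25a_back A (Z_img_zero A φ) (GrpI.zero A h𝔟 E), fun P Q hP hQ => ?_⟩
  obtain ⟨P', hP'⟩ := Z_exists_img A φ P
  obtain ⟨Q', hQ'⟩ := Z_exists_img A φ Q
  exact g25a_back A (Z_img_sub A hP' hQ')
    (h𝔟.2 E P' Q' (g25a_ZP A hhom hdesc hP' hP) (g25a_ZP A hhom hdesc hQ' hQ))

theorem exists_sub [IsAlgClosed k] [𝔟.IsPrime]
    (hA : ∀ f ∈ A.I, map (algebraMap K k) f ∈ 𝔟) :
    ∃ B : AV K N, IsSubAV B A ∧ B.I = 𝔟.comap (map (algebraMap K k)) := by
  have hle : A.I ≤ 𝔟.comap (map (algebraMap K k)) := fun f hf => hA f hf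
  -- the subgroups
  have hz : ∀ (L : Type u) [Field L] [Algebra K L],
      ∀ f ∈ 𝔟.comap (map (algebraMap K k)), aeval (A.x (0 : A.Pts L)) f = 0 :=
    fun L _ _ => (zero_sub_mem A h𝔟 hhom hdesc (L := L)).1
  have hs : ∀ (L : Type u) [Field L] [Algebra K L] (P Q : A.Pts L),
      (∀ f ∈ 𝔟.comap (map (algebraMap K k)), aeval (A.x P) f = 0) →
      (∀ f ∈ 𝔟.comap (map (algebraMap K k)), aeval (A.x Q) f = 0) →
      ∀ f ∈ 𝔟.comap (map (algebraMap K k)), aeval (A.x (P - Q)) f = 0 :=
    fun L _ _ => (zero_sub_mem A h𝔟 hhom hdesc (L := L)).2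
  let H : ∀ (L : Type u) [Field L] [Algebra K L], AddSubgroup (A.Pts L) := fun L _ _ =>
    { carrier := {P | ∀ f ∈ 𝔟.comap (map (algebraMap K k)), aeval (A.x P) f = 0}
      zero_mem' := hz L
      neg_mem' := fun {P} hP => by
        have h1 := hs L 0 P (hz L) hP
        rw [zero_sub] at h1
        exact h1
      add_mem' := fun {P Q} hP hQ => by
        have h1 := hs L 0 Q (hz L) hQ
        have h2 := hs L P (0 - Q) hP h1
        rw [zero_sub, sub_neg_eq_add] at h2
        exact h2 }
  let e : ∀ (L : Type u) [Field L] [Algebra K L],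
      Pt (𝔟.comap (map (algebraMap K k))) L ≃ H L := fun L _ _ =>
    { toFun := fun P => ⟨⟨P.1, fun f hf => P.2 f (hle hf)⟩, P.2⟩
      invFun := fun Q => ⟨Q.1.1, Q.2⟩
      left_inv := fun P => rfl
      right_inv := fun Q => rfl }
  let B : AV K N :=
    { I := 𝔟.comap (map (algebraMap K k))
      homog := fun f hf d => by
        show map (algebraMap K k) (homogeneousComponent d f) ∈ 𝔟
        rw [g25b_homog]
        exact hhom _ hf d
      prime := fun L _ _ => g25b_prime hdesc L
      grp := fun L _ _ => (e L).addCommGroup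
      functorial := fun L L' _ _ _ _ φ P Q P' Q' hP hQ =>
        A.functorial L L' φ (e L P).1 (e L Q).1 (e L' P').1 (e L' Q').1 hP hQ
      S := A.S
      bihomog := A.bihomog
      spec := fun L _ _ P Q => A.spec L (e L P).1 (e L Q).1 }
  refine ⟨B, ⟨hle, rfl, ?_⟩, rfl⟩
  intro L _ _ P Q P' Q' hP hQ
  have h1 : P' = ((e L P).1 : A.Pts L) := Subtype.ext hP.symm
  have h2 : Q' = ((e L Q).1 : A.Pts L) := Subtype.ext hQ.symm
  rw [h1, h2]
  rfl

end

end Pool.Agent.Lib.MP_17a322_nt.VA.G
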