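import Pool.Agent.Lib.MP_17a322_nt.Mb

/-!
VA, part G, job G06: the descending chain condition for prime ideals of a Noetherian ring.

Proof. Choose `I ∈ C` of minimal height (`ℕ∞` is well-founded: `exists_minimal..`/`WellFounded.min` for
`Ideal.height '' C`). If `J ∈ C`, `J ≤ I`, `J ≠ I`, then `J < I`, and `Ideal.height_strict_mono_of_isPrime` (or
`.._of_isPrime_of_isPrime`; the `FiniteHeight` instance for Noetherian rings is
`Ideal.finiteHeight_of_isNoetherianRing`, file Mathlib/RingTheory/Ideal/KrullsHeightTheorem.lean) gives `J.height < I.height`,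
a contradiction.
-/

namespace Pool.Agent.Lib.MP_17a322_nt.VA.G

theorem exists_minimal_prime {R : Type*} [CommRing R] [IsNoetherianRing R] (C : Set (Ideal R))
    (hC : C.Nonempty) (hp : ∀ I ∈ C, I.IsPrime) : ∃ I ∈ C, ∀ J ∈ C, J ≤ I → J = I := by
  obtain ⟨I, hI, hmin⟩ := exists_minimalFor_of_wellFoundedLT (fun I : Ideal R => I ∈ C)
    (fun I : Ideal R => I.height) hC
  refine ⟨I, hI, fun J hJ hJI => ?_⟩
  by_contra hne
  have hlt : J < I := lt_of_le_of_ne hJI hne
  have := hp J hJ
  have := hp I hI
  have h1 : J.height < I.height := Ideal.height_strict_mono_of_isPrime hlt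
  exact absurd (hmin hJ h1.le) (not_le.2 h1)

end Pool.Agent.Lib.MP_17a322_nt.VA.G
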