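import Pool.Agent.Lib.MP_17a322_nt.Mb

/-!
VA, part G, job G09: the exponential of a derivation.

Proof (complete). `e a := PowerSeries.mk fun n => (D^[n] a) / n !` (`D^[n] = (⇑D)^[n]`). Additive: `Function.iterate` of an additive map
(`iterate_map_add`). Multiplicative: Leibniz `D^[n] (a b) = ∑ (i, j) ∈ antidiagonal n, n.choose i * (D^[i] a) *
(D^[j] b)` by induction on `n` (or Mathlib's lemma for iterated derivations if there is one, compare
`Finset.sum_antidiagonal_choose_succ_mul`), and `n.choose i / n ! = 1 / (i ! j !)`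
(`Nat.choose_mul_factorial_mul_factorial`, characteristic 0), `PowerSeries.coeff_mul`. `e 1 = 1` since `D 1 = 0`. If `D a = 0` then `D^[n] a = 0` for `n ≥ 1`.
-/

universe u

namespace Pool.Agent.Lib.MP_17a322_nt.VA.G

private theorem g09_div {L : Type u} [Field L] [CharZero L] (D : Derivation ℤ L L) (x : L)
    (n : ℕ) : D (x / (Nat.factorial n : L)) = D x / (Nat.factorial n : L) := by
  have h0 : (Nat.factorial n : L) ≠ 0 := Nat.cast_ne_zero.mpr (Nat.factorial_ne_zero n)
  rw [eq_div_iff h0, mul_comm, ← nsmul_eq_mul, ← map_nsmul, nsmul_eq_mul, mul_div_cancel₀ _ h0]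

private noncomputable def g09_F {L : Type u} [Field L] (D : Derivation ℤ L L)
    (a : L) : PowerSeries L :=
  PowerSeries.mk fun n => ((⇑D)^[n] a) / (Nat.factorial n : L)

private theorem g09_rec {L : Type u} [Field L] [CharZero L] (D : Derivation ℤ L L) (a : L)
    (n : ℕ) : PowerSeries.coeff (n + 1) (g09_F D a) * (n + 1) =
      D (PowerSeries.coeff n (g09_F D a)) := by
  have h0 : (Nat.factorial n : L) ≠ 0 := Nat.cast_ne_zero.mpr (Nat.factorial_ne_zero n)
  have h1 : ((n : L) + 1) ≠ 0 := Nat.cast_add_one_ne_zero n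
  unfold g09_F
  rw [PowerSeries.coeff_mk, PowerSeries.coeff_mk, g09_div, Function.iterate_succ_apply',
    Nat.factorial_succ]
  push_cast
  field_simp

private theorem g09_uniq {L : Type u} [Field L] [CharZero L] (D : Derivation ℤ L L)
    (Y Z : PowerSeries L) (h0 : PowerSeries.coeff 0 Y = PowerSeries.coeff 0 Z)
    (hY : ∀ n : ℕ, PowerSeries.coeff (n + 1) Y * (n + 1) = D (PowerSeries.coeff n Y))
    (hZ : ∀ n : ℕ, PowerSeries.coeff (n + 1) Z * (n + 1) = D (PowerSeries.coeff n Z)) :
    Y = Z := by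
  refine PowerSeries.ext fun n => ?_
  induction n with
  | zero => exact h0
  | succ n ih =>
    have h1 : ((n : L) + 1) ≠ 0 := Nat.cast_add_one_ne_zero n
    exact mul_right_cancel₀ h1 (by rw [hY, hZ, ih])

private theorem g09_zero {L : Type u} [Field L] (D : Derivation ℤ L L) (a : L) :
    PowerSeries.coeff 0 (g09_F D a) = a := by
  unfold g09_F
  rw [PowerSeries.coeff_mk]
  simp

private theorem g09_mul {L : Type u} [Field L] [CharZero L] (D : Derivation ℤ L L)
    (Y Z : PowerSeries L)
    (hY : ∀ n : ℕ, PowerSeries.coeff (n + 1) Y * (n + 1) = D (PowerSeries.coeff n Y))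
    (hZ : ∀ n : ℕ, PowerSeries.coeff (n + 1) Z * (n + 1) = D (PowerSeries.coeff n Z)) (n : ℕ) :
    PowerSeries.coeff (n + 1) (Y * Z) * (n + 1) = D (PowerSeries.coeff n (Y * Z)) := by
  rw [← PowerSeries.coeff_derivative, Derivation.leibniz, map_add, smul_eq_mul, smul_eq_mul,
    PowerSeries.coeff_mul, PowerSeries.coeff_mul, PowerSeries.coeff_mul, map_sum]
  have h1 : ∑ p ∈ Finset.HasAntidiagonal.antidiagonal n, PowerSeries.coeff p.1 Z *
      PowerSeries.coeff p.2 (PowerSeries.derivative L Y) =
      ∑ p ∈ Finset.HasAntidiagonal.antidiagonal n, PowerSeries.coeff p.2 Z *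
      PowerSeries.coeff p.1 (PowerSeries.derivative L Y) :=
    (Finset.Nat.sum_antidiagonal_swap (n := n) (f := fun p : ℕ × ℕ => PowerSeries.coeff p.2 Z *
      PowerSeries.coeff p.1 (PowerSeries.derivative L Y)))
  rw [h1, ← Finset.sum_add_distrib]
  refine Finset.sum_congr rfl fun p _ => ?_
  rw [Derivation.leibniz, smul_eq_mul, smul_eq_mul, PowerSeries.coeff_derivative,
    PowerSeries.coeff_derivative, hY, hZ]

theorem exists_exp {L : Type u} [Field L] [CharZero L] (D : Derivation ℤ L L) :
    ∃ e : L →+* PowerSeries L, (∀ a, PowerSeries.coeff 0 (e a) = a) ∧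
      (∀ a, PowerSeries.coeff 1 (e a) = D a) ∧ ∀ a, D a = 0 → e a = PowerSeries.C a := by
  refine ⟨{ toFun := g09_F D, map_one' := ?_, map_mul' := ?_, map_zero' := ?_, map_add' := ?_ },
    ?_, ?_, ?_⟩
  · refine g09_uniq D _ _ ?_ (g09_rec D 1) ?_
    · rw [g09_zero]
      simp
    · intro n
      rcases n with _ | n
      · simp [PowerSeries.coeff_one]
      · simp [PowerSeries.coeff_one]
  · intro a b
    refine g09_uniq D _ _ ?_ (g09_rec D (a * b)) (g09_mul D _ _ (g09_rec D a) (g09_rec D b))
    rw [g09_zero, PowerSeries.coeff_mul]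
    simp [g09_zero]
  · refine g09_uniq D _ _ ?_ (g09_rec D 0) ?_
    · rw [g09_zero, map_zero]
    · intro n
      simp
  · intro a b
    refine g09_uniq D _ _ ?_ (g09_rec D (a + b)) ?_
    · rw [map_add, g09_zero, g09_zero, g09_zero]
    · intro n
      rw [map_add, map_add, map_add, add_mul, g09_rec, g09_rec]
  · exact g09_zero D
  · intro a
    have h := g09_rec D a 0
    rw [g09_zero] at h
    simpa using h
  · intro a ha
    refine g09_uniq D (g09_F D a) _ ?_ (g09_rec D a) ?_
    · rw [g09_zero]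
      simp
    · intro n
      rcases n with _ | n
      · simp [PowerSeries.coeff_C, ha]
      · simp

end Pool.Agent.Lib.MP_17a322_nt.VA.G
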