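import Pool.Agent.Lib.MP_17a322_nt.Mb

/-!
VA, part G, job G10: dual numbers.

Proofs. `aeval_dual`: induction on `f` (`MvPolynomial.induction_on`): constants, sums, and products with `X j`:
`(inl a + inr b) * (inl x + inr v) = inl (a x) + inr (a v + b x)`; `pderiv i (f * X j) = pderiv i f * X j + f * (if i = j ..)`;
compare fst and snd (`TrivSqZeroExt.ext`, `fst_mul`, `snd_mul`, smul of `L` and `Lᵐᵒᵖ` : `simp`).
`exists_tr`: `AlgHom` with `toFun f := inl (coeff 0 f) + inr (coeff 1 f)`: `coeff 1 (f g) = f₀ g₁ + f₁ g₀`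
(`PowerSeries.coeff_mul`, `Finset.Nat.antidiagonal_succ`). `aeval_tr`: `MvPolynomial.aeval` commutes with the `K`-algebra
homomorphism `(tr L).restrictScalars K` (`map_aeval`/`comp_aeval`). `isUnit_dual`: `TrivSqZeroExt.isUnit_iff_isUnit_fst`.
-/

universe u

namespace Pool.Agent.Lib.MP_17a322_nt.VA.G

open MvPolynomial

section

variable {L : Type u} [Field L]

/-- Taylor expansion. -/
theorem aeval_dual {K : Type u} [Field K] [Algebra K L] {σ : Type*} [Fintype σ] (x v : σ → L)
    (f : MvPolynomial σ K) :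
    aeval (fun i => (TrivSqZeroExt.inl (x i) + TrivSqZeroExt.inr (v i) : DualNumber L)) f =
      TrivSqZeroExt.inl (aeval x f) + TrivSqZeroExt.inr (∑ i, aeval x (pderiv i f) * v i) := by
  classical
  induction f using MvPolynomial.induction_on with
  | C a =>
    simp only [aeval_C, pderiv_C, map_zero, zero_mul, Finset.sum_const_zero]
    rw [TrivSqZeroExt.algebraMap_eq_inl' K L L a, TrivSqZeroExt.inr_zero, add_zero]
  | add p q hp hq =>
    rw [map_add, hp, hq, map_add, TrivSqZeroExt.inl_add]
    have h : ∑ i, aeval x (pderiv i (p + q)) * v i =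
        ∑ i, aeval x (pderiv i p) * v i + ∑ i, aeval x (pderiv i q) * v i := by
      rw [← Finset.sum_add_distrib]
      refine Finset.sum_congr rfl fun i _ => ?_
      rw [map_add, map_add, add_mul]
    rw [h, TrivSqZeroExt.inr_add]
    abel
  | mul_X p j hp =>
    rw [map_mul, hp, aeval_X, map_mul, aeval_X]
    have h : ∑ i, aeval x (pderiv i (p * X j)) * v i =
        (∑ i, aeval x (pderiv i p) * v i) * x j + aeval x p * v j := by
      have h1 : ∀ i, aeval x (pderiv i (p * X j)) * v i =
          (aeval x (pderiv i p) * v i) * x j + (if i = j then aeval x p * v i else 0) := by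
        intro i
        rw [pderiv_mul, map_add, map_mul, map_mul, aeval_X, pderiv_X]
        by_cases hij : i = j
        · subst hij
          rw [Pi.single_eq_same, map_one, if_pos rfl]
          ring
        · rw [Pi.single_eq_of_ne' hij, map_zero, if_neg hij]
          ring
      rw [Finset.sum_congr rfl fun i _ => h1 i, Finset.sum_add_distrib, ← Finset.sum_mul,
        Finset.sum_ite_eq' Finset.univ j, if_pos (Finset.mem_univ j)]
    rw [h]
    ext
    · simp only [TrivSqZeroExt.fst_mul, TrivSqZeroExt.fst_add, TrivSqZeroExt.fst_inl,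
        TrivSqZeroExt.fst_inr, add_zero]
    · simp only [TrivSqZeroExt.snd_mul, TrivSqZeroExt.fst_add, TrivSqZeroExt.fst_inl,
        TrivSqZeroExt.fst_inr, TrivSqZeroExt.snd_add, TrivSqZeroExt.snd_inl,
        TrivSqZeroExt.snd_inr, add_zero, zero_add, smul_eq_mul, MulOpposite.smul_eq_mul_unop,
        MulOpposite.unop_op]
      ring

theorem exists_tr (L : Type u) [Field L] : ∃ φ : PowerSeries L →ₐ[L] DualNumber L, ∀ f,
    φ f = TrivSqZeroExt.inl (PowerSeries.coeff 0 f) + TrivSqZeroExt.inr (PowerSeries.coeff 1 f) := by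
  refine ⟨
    { toFun := fun f => TrivSqZeroExt.inl (PowerSeries.coeff 0 f) +
        TrivSqZeroExt.inr (PowerSeries.coeff 1 f)
      map_one' := ?_
      map_mul' := ?_
      map_zero' := ?_
      map_add' := ?_
      commutes' := ?_ }, fun f => rfl⟩
  · ext
    · simp [PowerSeries.coeff_one]
    · simp [PowerSeries.coeff_one]
  · intro f g
    have h0 : PowerSeries.coeff 0 (f * g) = PowerSeries.coeff 0 f * PowerSeries.coeff 0 g := by
      simp
    have h1 : PowerSeries.coeff 1 (f * g) = PowerSeries.coeff 0 f * PowerSeries.coeff 1 g +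
        PowerSeries.coeff 1 f * PowerSeries.coeff 0 g := by
      rw [PowerSeries.coeff_mul, Finset.Nat.antidiagonal_succ]
      simp
    rw [h0, h1]
    ext
    · simp only [TrivSqZeroExt.fst_mul, TrivSqZeroExt.fst_add, TrivSqZeroExt.fst_inl,
        TrivSqZeroExt.fst_inr, add_zero]
    · simp only [TrivSqZeroExt.snd_mul, TrivSqZeroExt.fst_add, TrivSqZeroExt.fst_inl,
        TrivSqZeroExt.fst_inr, TrivSqZeroExt.snd_add, TrivSqZeroExt.snd_inl,
        TrivSqZeroExt.snd_inr, add_zero, zero_add, smul_eq_mul, MulOpposite.smul_eq_mul_unop,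
        MulOpposite.unop_op]
  · ext
    · simp
    · simp
  · intro f g
    ext
    · simp
    · simp
  · intro r
    rw [TrivSqZeroExt.algebraMap_eq_inl]
    ext
    · simp [PowerSeries.algebraMap_apply]
    · have h1 : PowerSeries.coeff 1 (algebraMap L (PowerSeries L) r) = 0 := by
        rw [PowerSeries.algebraMap_apply, Algebra.algebraMap_self, RingHom.id_apply,
          PowerSeries.coeff_C, if_neg one_ne_zero]
      simp [h1]

/-- Truncation of power series. -/
noncomputable def tr (L : Type u) [Field L] : PowerSeries L →ₐ[L] DualNumber L :=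
  (exists_tr L).choose

theorem tr_apply (f : PowerSeries L) : tr L f =
    TrivSqZeroExt.inl (PowerSeries.coeff 0 f) + TrivSqZeroExt.inr (PowerSeries.coeff 1 f) :=
  (exists_tr L).choose_spec f

theorem fst_tr (f : PowerSeries L) : (tr L f).fst = PowerSeries.coeff 0 f := by
  rw [tr_apply, TrivSqZeroExt.fst_add, TrivSqZeroExt.fst_inl, TrivSqZeroExt.fst_inr, add_zero]

theorem snd_tr (f : PowerSeries L) : (tr L f).snd = PowerSeries.coeff 1 f := by
  rw [tr_apply, TrivSqZeroExt.snd_add, TrivSqZeroExt.snd_inl, TrivSqZeroExt.snd_inr, zero_add]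

theorem aeval_tr {K : Type u} [Field K] [Algebra K L] {σ : Type*} (f : MvPolynomial σ K)
    (y : σ → PowerSeries L) : tr L (aeval y f) = aeval (fun i => tr L (y i)) f := by
  induction f using MvPolynomial.induction_on with
  | C a =>
    rw [aeval_C, aeval_C, IsScalarTower.algebraMap_apply K L (PowerSeries L), AlgHom.commutes,
      IsScalarTower.algebraMap_apply K L (DualNumber L)]
  | add p q hp hq => rw [map_add, map_add, map_add, hp, hq]
  | mul_X p j hp => rw [map_mul, map_mul, map_mul, hp, aeval_X, aeval_X]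

theorem isUnit_dual {a : DualNumber L} (h : a.fst ≠ 0) : IsUnit a :=
  TrivSqZeroExt.isUnit_iff_isUnit_fst.2 (isUnit_iff_ne_zero.2 h)

/-- Values at power series. -/
theorem coeff_aeval {K : Type u} [Field K] [Algebra K L] {σ : Type*} [Fintype σ]
    (f : MvPolynomial σ K) (y : σ → PowerSeries L) :
    PowerSeries.coeff 0 (aeval y f) = aeval (fun i => PowerSeries.coeff 0 (y i)) f ∧
      PowerSeries.coeff 1 (aeval y f) =
        ∑ i, aeval (fun i => PowerSeries.coeff 0 (y i)) (pderiv i f) * PowerSeries.coeff 1 (y i) := by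
  have h1 := aeval_tr f y
  have h2 : (fun i => tr L (y i)) = fun i => (TrivSqZeroExt.inl (PowerSeries.coeff 0 (y i)) +
      TrivSqZeroExt.inr (PowerSeries.coeff 1 (y i)) : DualNumber L) :=
    funext fun i => tr_apply (y i)
  rw [h2, aeval_dual (fun i => PowerSeries.coeff 0 (y i)) (fun i => PowerSeries.coeff 1 (y i))] at h1
  constructor
  · rw [← fst_tr, h1, TrivSqZeroExt.fst_add, TrivSqZeroExt.fst_inl, TrivSqZeroExt.fst_inr,
      add_zero]
  · rw [← snd_tr, h1, TrivSqZeroExt.snd_add, TrivSqZeroExt.snd_inl, TrivSqZeroExt.snd_inr,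
      zero_add]

end

end Pool.Agent.Lib.MP_17a322_nt.VA.G
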