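import Pool.Agent.Lib.MP_17a322_nt.VA.G02
import Pool.Agent.Lib.MP_17a322_nt.VA.G09
import Pool.Agent.Lib.MP_17a322_nt.VA.G10

/-!
VA, part G, job G12: the formal point `exp (D) P - P`.

`F := FractionRing (PowerSeries L)`, `R := PowerSeries L`.

Proofs (complete).
`exists_expK`: from `exists_exp` (G09): `e : L →+* R` with `coeff 0 (e a) = a`, `coeff 1 (e a) = D a`, `e c = C c` if `D c = 0`. `φ := algebraMap R F ∘ e`, a `K`-algebra
homomorphism since `D` kills `K` (`algebraMap K F c = algebraMap R F (algebraMap K R c)`, `algebraMap K R c = PowerSeries.C (algebraMap K L c)`); `ψ := algebraMap R F ∘ C`.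
`tan_exp`: `A.x P₁ = c₁⁻¹ • φ (A.x P) = c₁⁻¹ φ(c) • φ (x)`, `A.x P₂ = c₂⁻¹ ψ(c) • ψ (x)` (from `A.Img`, `hx`). `W a b := aeval (Sum.elim (e ∘ x) (C ∘ x)) (A.S a b) : R`. By
`S_pts` (over `F`) and `A.S_smul`: `algebraMap R F (W a b) = γ * (A.x (P₁+P₂) a * A.x (P₁-P₂) b)`, `γ ≠ 0`. `coeff 0 (W a b) = aeval (Sum.elim x x) (A.S a b)`
(`coeff_aeval` of G10) and by `S_pts` over `L` for `P, P`, `S_smul`, `zero_rep`: `aeval (Sum.elim x x) (A.S a b) = γ₀ * (A.x (P+P) a * oL A L b)`, `γ₀ ≠ 0` (`P - P = 0`). In particular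
`A.dup x a = γ₀ * A.x (P+P) a` (`o_b₀`; `A.dup x a = aeval (Sum.elim x x) (A.S a A.b₀)` by definition), so some `A.dup x a ≠ 0`, and for `a := ix A x` `A.dup x a ≠ 0` (`Classical.epsilon_spec`).
Fix this `a`. `W a b₀` is a unit of `R`. So `A.x (P₁+P₂) a ≠ 0`, and with `e' b := W a b * (W a b₀)⁻¹`: `A.x (P₁-P₂) b = (..) * algebraMap R F (e' b)`, `e' b₀ = 1`, `coeff 0 (e' b) = oL A L b`,
and from `e' b * W a b₀ = W a b`: `coeff 1 (e' b) * A.dup x a + oL A L b * coeff 1 (W a b₀) = coeff 1 (W a b)`. Finally `coeff 1 (W a b) = ∑ i, aeval (Sum.elim x x) (pderiv (inl i) (A.S a b)) * D (x i) +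
∑ i, aeval .. (pderiv (inr i) ..) * coeff 1 (C (x i)) = dS A a b x (D ∘ x)` (`coeff_aeval`, `Fintype.sum_sum_type`, `coeff 1 (C _) = 0`). So `coeff 1 (e' b) = ellv A x (D ∘ x) b`.
-/

universe u

namespace Pool.Agent.Lib.MP_17a322_nt.VA.G

open MvPolynomial

section

variable {K : Type u} [Field K] {N : ℕ} (A : AV K N) {L : Type u} [Field L] [Algebra K L]

private theorem g12_alg (c : K) : algebraMap K (FractionRing (PowerSeries L)) c =
    algebraMap (PowerSeries L) (FractionRing (PowerSeries L))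
      (PowerSeries.C (algebraMap K L c)) := by
  rw [IsScalarTower.algebraMap_apply K (PowerSeries L) (FractionRing (PowerSeries L)),
    PowerSeries.algebraMap_apply]

/-- The exponential of a derivation, with values in the field of fractions. -/
theorem exists_expK [CharZero L] (D : Derivation ℤ L L)
    (hD : ∀ c : K, D (algebraMap K L c) = 0) :
    ∃ (e : L →+* PowerSeries L) (φ ψ : L →ₐ[K] FractionRing (PowerSeries L)),
      (∀ a, PowerSeries.coeff 0 (e a) = a) ∧ (∀ a, PowerSeries.coeff 1 (e a) = D a) ∧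
      (∀ a, D a = 0 → e a = PowerSeries.C a) ∧
      (∀ a, φ a = algebraMap (PowerSeries L) _ (e a)) ∧
      ∀ a, ψ a = algebraMap (PowerSeries L) _ (PowerSeries.C a) := by
  obtain ⟨e, h0, h1, hC⟩ := exists_exp D
  refine ⟨e, { (algebraMap (PowerSeries L) (FractionRing (PowerSeries L))).comp e with
      commutes' := fun c => ?_ },
    { (algebraMap (PowerSeries L) (FractionRing (PowerSeries L))).comp
        (PowerSeries.C (R := L)) with
      commutes' := fun c => ?_ }, h0, h1, hC, fun a => rfl, fun a => rfl⟩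
  · show algebraMap (PowerSeries L) (FractionRing (PowerSeries L)) (e (algebraMap K L c)) = _
    rw [hC _ (hD c), g12_alg]
  · show algebraMap (PowerSeries L) (FractionRing (PowerSeries L))
      (PowerSeries.C (algebraMap K L c)) = _
    rw [g12_alg]

private theorem g12_S {P : A.Pts L} {x : Fin (N + 1) → L} {c : L} (hc : c ≠ 0)
    (hx : ∀ i, A.x P i = c * x i) : ∃ γ : L, γ ≠ 0 ∧ ∀ a b,
      aeval (Sum.elim x x) (A.S a b) = γ * (A.x (P + P) a * oL A L b) := by
  obtain ⟨s, hs, h1⟩ := S_pts A P P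
  obtain ⟨t, ht, h2⟩ := zero_rep A L
  refine ⟨s * t / (c ^ 2 * c ^ 2), div_ne_zero (mul_ne_zero hs ht)
    (mul_ne_zero (pow_ne_zero 2 hc) (pow_ne_zero 2 hc)), fun a b => ?_⟩
  have h3 := h1 a b
  have h4 : (Sum.elim (A.x P) (A.x P) : Fin (N + 1) ⊕ Fin (N + 1) → L) =
      Sum.elim (fun i => c * x i) (fun i => c * x i) := by
    rw [show A.x P = fun i => c * x i from funext hx]
  rw [h4, A.S_smul, sub_self, h2 b] at h3
  have hc2 : c ^ 2 * c ^ 2 ≠ 0 := mul_ne_zero (pow_ne_zero 2 hc) (pow_ne_zero 2 hc)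
  rw [div_mul_eq_mul_div, eq_div_iff hc2]
  linear_combination h3

private theorem g12_dup {P : A.Pts L} {x : Fin (N + 1) → L} {γ : L}
    (h : ∀ a b, aeval (Sum.elim x x) (A.S a b) = γ * (A.x (P + P) a * oL A L b))
    (a : Fin (N + 1)) : A.dup x a = γ * A.x (P + P) a := by
  have h1 : oL A L A.b₀ = 1 := by
    show algebraMap K L (o₀ A A.b₀) = 1
    rw [o_b₀, map_one]
  have h2 := h a A.b₀
  rw [h1, mul_one] at h2
  exact h2

/-- The index `ix A x` for a representative of a point. -/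
private theorem g12_ix {P : A.Pts L} {x : Fin (N + 1) → L} {c : L} (hc : c ≠ 0)
    (hx : ∀ i, A.x P i = c * x i) : A.dup x (ix A x) ≠ 0 := by
  obtain ⟨γ, hγ, h⟩ := g12_S A hc hx
  have h1 : ∃ a, A.dup x a ≠ 0 := by
    obtain ⟨a, ha⟩ := A.exists_x_ne (P + P)
    exact ⟨a, by rw [g12_dup A h]; exact mul_ne_zero hγ ha⟩
  exact Classical.epsilon_spec h1

private theorem g12_c1 (f g : PowerSeries L) : PowerSeries.coeff 1 (f * g) =
    PowerSeries.coeff 0 f * PowerSeries.coeff 1 g +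
      PowerSeries.coeff 1 f * PowerSeries.coeff 0 g := by
  rw [PowerSeries.coeff_mul, Finset.Nat.sum_antidiagonal_succ]
  simp

private theorem g12_c0 (f g : PowerSeries L) : PowerSeries.coeff 0 (f * g) =
    PowerSeries.coeff 0 f * PowerSeries.coeff 0 g := by
  simp

theorem tan_exp {D : Derivation ℤ L L} {e : L →+* PowerSeries L}
    {φ ψ : L →ₐ[K] FractionRing (PowerSeries L)} (h0 : ∀ a, PowerSeries.coeff 0 (e a) = a)
    (h1 : ∀ a, PowerSeries.coeff 1 (e a) = D a)
    (hφ : ∀ a, φ a = algebraMap (PowerSeries L) _ (e a))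
    (hψ : ∀ a, ψ a = algebraMap (PowerSeries L) _ (PowerSeries.C a)) {P : A.Pts L}
    {P₁ P₂ : A.Pts (FractionRing (PowerSeries L))} (hP₁ : A.Img φ P P₁) (hP₂ : A.Img ψ P P₂)
    {x : Fin (N + 1) → L} {c : L} (hc : c ≠ 0) (hx : ∀ i, A.x P i = c * x i) :
    Tan A (P₁ - P₂) (ellv A x fun i => D (x i)) := by
  have hinj : Function.Injective (algebraMap (PowerSeries L) (FractionRing (PowerSeries L))) :=
    IsFractionRing.injective _ _
  obtain ⟨c₁, hc₁, h₁⟩ := hP₁
  obtain ⟨c₂, hc₂, h₂⟩ := hP₂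
  obtain ⟨γ₀, hγ₀, hS₀⟩ := g12_S A hc hx
  obtain ⟨s, hs, hS⟩ := S_pts A P₁ P₂
  have hdup := g12_ix A hc hx
  have hφc : φ c ≠ 0 := (map_ne_zero φ).2 hc
  have hψc : ψ c ≠ 0 := (map_ne_zero ψ).2 hc
  have hx₁ : A.x P₁ = fun i => (c₁⁻¹ * φ c) * algebraMap (PowerSeries L)
      (FractionRing (PowerSeries L)) (e (x i)) := by
    funext i
    have h3 := h₁ i
    rw [hx i, map_mul, hφ (x i)] at h3
    rw [mul_assoc, h3, inv_mul_cancel_left₀ hc₁]
  have hx₂ : A.x P₂ = fun i => (c₂⁻¹ * ψ c) * algebraMap (PowerSeries L)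
      (FractionRing (PowerSeries L)) (PowerSeries.C (x i)) := by
    funext i
    have h3 := h₂ i
    rw [hx i, map_mul, hψ (x i)] at h3
    rw [mul_assoc, h3, inv_mul_cancel_left₀ hc₂]
  set d₁ : FractionRing (PowerSeries L) := c₁⁻¹ * φ c with hd₁
  set d₂ : FractionRing (PowerSeries L) := c₂⁻¹ * ψ c with hd₂
  have hd₁0 : d₁ ≠ 0 := mul_ne_zero (inv_ne_zero hc₁) hφc
  have hd₂0 : d₂ ≠ 0 := mul_ne_zero (inv_ne_zero hc₂) hψc
  let yy : Fin (N + 1) ⊕ Fin (N + 1) → PowerSeries L :=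
    Sum.elim (fun i => e (x i)) (fun i => PowerSeries.C (x i))
  let W : Fin (N + 1) → Fin (N + 1) → PowerSeries L := fun a b => aeval yy (A.S a b)
  have hW : ∀ a b, algebraMap (PowerSeries L) (FractionRing (PowerSeries L)) (W a b) =
      s / (d₁ ^ 2 * d₂ ^ 2) * (A.x (P₁ + P₂) a * A.x (P₁ - P₂) b) := by
    intro a b
    have h3 := hS a b
    rw [hx₁, hx₂, A.S_smul] at h3
    have h4 : algebraMap (PowerSeries L) (FractionRing (PowerSeries L)) (W a b) =
        aeval (Sum.elim (fun i => algebraMap (PowerSeries L) (FractionRing (PowerSeries L))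
          (e (x i))) (fun i => algebraMap (PowerSeries L) (FractionRing (PowerSeries L))
          (PowerSeries.C (x i)))) (A.S a b) := by
      show algebraMap (PowerSeries L) (FractionRing (PowerSeries L)) (aeval yy (A.S a b)) = _
      rw [← aeval_algebraMap_apply]
      congr 2
      funext i
      rcases i with i | i
      · rfl
      · rfl
    rw [← h4] at h3
    have hd : d₁ ^ 2 * d₂ ^ 2 ≠ 0 := mul_ne_zero (pow_ne_zero 2 hd₁0) (pow_ne_zero 2 hd₂0)
    rw [div_mul_eq_mul_div, eq_div_iff hd]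
    linear_combination h3
  have hyy0 : (fun i => PowerSeries.coeff 0 (yy i)) = Sum.elim x x := by
    funext i
    rcases i with i | i
    · exact h0 (x i)
    · show PowerSeries.coeff 0 (PowerSeries.C (x i)) = x i
      rw [PowerSeries.coeff_zero_eq_constantCoeff_apply, PowerSeries.constantCoeff_C]
  have hW0 : ∀ a b, PowerSeries.coeff 0 (W a b) = γ₀ * (A.x (P + P) a * oL A L b) := by
    intro a b
    rw [← hS₀ a b, ← hyy0]
    exact (coeff_aeval (A.S a b) yy).1
  have hW1 : ∀ a b, PowerSeries.coeff 1 (W a b) = dS A a b x fun i => D (x i) := by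
    intro a b
    have h3 := (coeff_aeval (A.S a b) yy).2
    rw [hyy0, Fintype.sum_sum_type] at h3
    have h4 : ∑ i, aeval (Sum.elim x x) (pderiv (Sum.inr i) (A.S a b)) *
        PowerSeries.coeff 1 (yy (Sum.inr i)) = 0 := by
      refine Finset.sum_eq_zero fun i _ => ?_
      have h5 : PowerSeries.coeff 1 (yy (Sum.inr i)) = 0 := by
        show PowerSeries.coeff 1 (PowerSeries.C (x i)) = 0
        rw [PowerSeries.coeff_C, if_neg one_ne_zero]
      rw [h5, mul_zero]
    rw [h4, add_zero] at h3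
    rw [show PowerSeries.coeff 1 (W a b) = _ from h3]
    unfold dS
    refine Finset.sum_congr rfl fun i _ => ?_
    rw [show PowerSeries.coeff 1 (yy (Sum.inl i)) = D (x i) from h1 (x i)]
  set a := ix A x with ha
  have hdupa : A.dup x a = γ₀ * A.x (P + P) a := g12_dup A hS₀ a
  have hW0' : ∀ b, PowerSeries.coeff 0 (W a b) = A.dup x a * oL A L b := by
    intro b
    rw [hW0, hdupa, mul_assoc]
  have hWb : PowerSeries.coeff 0 (W a A.b₀) = A.dup x a := by
    rw [hW0']
    show A.dup x a * algebraMap K L (o₀ A A.b₀) = A.dup x a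
    rw [o_b₀, map_one, mul_one]
  have hcc : PowerSeries.constantCoeff (W a A.b₀) ≠ 0 := by
    rw [← PowerSeries.coeff_zero_eq_constantCoeff_apply, hWb]
    exact hdup
  have hWne : W a A.b₀ ≠ 0 := by
    intro h3
    rw [h3, map_zero] at hcc
    exact hcc rfl
  have hWne' : algebraMap (PowerSeries L) (FractionRing (PowerSeries L)) (W a A.b₀) ≠ 0 :=
    fun h3 => hWne (hinj (by rw [h3, map_zero]))
  have hXa : A.x (P₁ + P₂) a ≠ 0 := by
    intro h3
    apply hWne'
    rw [hW, h3, zero_mul, mul_zero]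
  have hγ : s / (d₁ ^ 2 * d₂ ^ 2) ≠ 0 :=
    div_ne_zero hs (mul_ne_zero (pow_ne_zero 2 hd₁0) (pow_ne_zero 2 hd₂0))
  have hee : ∀ b, W a b * (W a A.b₀)⁻¹ * W a A.b₀ = W a b := by
    intro b
    rw [mul_assoc, PowerSeries.inv_mul_cancel _ hcc, mul_one]
  have hdup0 : A.dup x a ≠ 0 := hdup
  have hcf0 : ∀ b, PowerSeries.coeff 0 (W a b * (W a A.b₀)⁻¹) = oL A L b := by
    intro b
    have h3 := congrArg (PowerSeries.coeff 0) (hee b)
    rw [g12_c0, hWb, hW0' b, mul_comm (A.dup x a)] at h3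
    exact mul_right_cancel₀ hdup0 h3
  refine ⟨fun b => W a b * (W a A.b₀)⁻¹,
    algebraMap (PowerSeries L) (FractionRing (PowerSeries L)) (W a A.b₀) /
      (s / (d₁ ^ 2 * d₂ ^ 2) * A.x (P₁ + P₂) a),
    div_ne_zero hWne' (mul_ne_zero hγ hXa), fun b => ?_, ?_, hcf0, fun b => ?_⟩
  · have h3 := hW a b
    rw [← hee b, map_mul] at h3
    rw [div_mul_eq_mul_div, eq_div_iff (mul_ne_zero hγ hXa)]
    linear_combination -h3
  · exact PowerSeries.mul_inv_cancel _ hcc
  · have h3 := congrArg (PowerSeries.coeff 1) (hee b)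
    rw [g12_c1, hcf0 b, hWb, hW1, hW1] at h3
    show PowerSeries.coeff 1 (W a b * (W a A.b₀)⁻¹) =
      (dS A a b x (fun i => D (x i)) - oL A L b * dS A a A.b₀ x fun i => D (x i)) / A.dup x a
    rw [eq_div_iff hdup0]
    linear_combination h3

/-- The index `ix A x` for a representative of a point. -/
theorem dup_ix_ne {P : A.Pts L} {x : Fin (N + 1) → L} {c : L} (hc : c ≠ 0)
    (hx : ∀ i, A.x P i = c * x i) : A.dup x (ix A x) ≠ 0 :=
  g12_ix A hc hx

end

end Pool.Agent.Lib.MP_17a322_nt.VA.G
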