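import Pool.Agent.Lib.MP_17a322_nt.VA.G11
import Pool.Agent.Lib.MP_17a322_nt.VA.G12

/-!
VA, part G, job G13: the logarithmic derivative `ell`.

Proofs (complete).
`ell_eq`: `exists_expK`, images `P₁, P₂` of `P` (`Z_exists_img`), `tan_exp` for `x` and for `A.x P` (`c = 1`), `Tan.unique`.
`ell_sub`: the images of `P - Q` are `P₁ - Q₁`, `P₂ - Q₂` (`Z_img_sub`), and `(P₁ - Q₁) - (P₂ - Q₂) = (P₁ - P₂) - (Q₁ - Q₂)`; `tan_exp`, `Tan.sub`, `Tan.unique`.
`ell_zero`: `ell_sub` for `P = Q` (`P - P = 0`). `ell_neg`: `0 - P`. `ell_add`: `P - (-Q)`. `ell_nsmul`: induction.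
`ellv_add`, `ellv_smul`, `ellv_zero`, `ellv_sum`: `dS A a b x` is linear in the last argument, `ix A x` does not depend on it.
`ellv_map`: `A.dup (ι ∘ x) a = ι (A.dup x a)` (`A.map_dup` of VA/Mu.lean), so the predicates in `ix A (ι ∘ x)` and `ix A x` are equal (`funext`, `propext`, `ι` injective) and
`ix A (ι ∘ x) = ix A x`; `dS A a b (ι ∘ x) (ι ∘ v) = ι (dS A a b x v)`, `ι (oL A L b) = oL A L' b`.
`ell_img`: `A.x P' = c⁻¹ • σ (A.x P)`, so by `ell_eq` `ell A D' P' = ellv A (σ ∘ A.x P) (D' ∘ σ ∘ A.x P) = ellv A (σ ∘ x) (σ ∘ D ∘ x) = σ ∘ ellv A x (D ∘ x)` by `ellv_map`.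
`ell_b₀`: `e b₀ = 1`, so `coeff 1 (e b₀) = 0` in the definition of `Tan` (or directly from the formula: `oL A L b₀ = 1`).
`ell_der_add`, `ell_der_smul`, `ell_der_sum`: `ellv_add` etc.
-/

universe u

namespace Pool.Agent.Lib.MP_17a322_nt.VA.G

open MvPolynomial

section

variable {K : Type u} [Field K] {N : ℕ} (A : AV K N) {L : Type u} [Field L] [Algebra K L]

private theorem g13a_dS_add (a b : Fin (N + 1)) (x v w : Fin (N + 1) → L) :
    dS A a b x (v + w) = dS A a b x v + dS A a b x w := by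
  unfold dS
  rw [← Finset.sum_add_distrib]
  refine Finset.sum_congr rfl fun i _ => ?_
  rw [Pi.add_apply, mul_add]

private theorem g13a_dS_smul (a b : Fin (N + 1)) (x v : Fin (N + 1) → L) (c : L) :
    dS A a b x (c • v) = c * dS A a b x v := by
  unfold dS
  rw [Finset.mul_sum]
  refine Finset.sum_congr rfl fun i _ => ?_
  rw [Pi.smul_apply, smul_eq_mul]
  ring

theorem ellv_add (x v w : Fin (N + 1) → L) : ellv A x (v + w) = ellv A x v + ellv A x w := by
  funext b
  rw [Pi.add_apply]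
  unfold ellv
  rw [g13a_dS_add, g13a_dS_add]
  ring

theorem ellv_smul (x v : Fin (N + 1) → L) (c : L) : ellv A x (c • v) = c • ellv A x v := by
  funext b
  rw [Pi.smul_apply, smul_eq_mul]
  unfold ellv
  rw [g13a_dS_smul, g13a_dS_smul]
  ring

theorem ellv_zero (x : Fin (N + 1) → L) : ellv A x 0 = 0 := by
  have h1 := ellv_smul A x 0 0
  rwa [zero_smul, zero_smul] at h1

theorem ellv_sum {ι : Type*} (s : Finset ι) (x : Fin (N + 1) → L) (v : ι → Fin (N + 1) → L) :
    ellv A x (∑ j ∈ s, v j) = ∑ j ∈ s, ellv A x (v j) := by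
  classical
  induction s using Finset.induction_on with
  | empty => rw [Finset.sum_empty, Finset.sum_empty, ellv_zero]
  | insert j s hj ih => rw [Finset.sum_insert hj, Finset.sum_insert hj, ellv_add, ih]

theorem ellv_map {L' : Type u} [Field L'] [Algebra K L'] (ι : L →ₐ[K] L')
    (x v : Fin (N + 1) → L) :
    ellv A (fun i => ι (x i)) (fun i => ι (v i)) = fun i => ι (ellv A x v i) := by
  have h1 : ix A (fun i => ι (x i)) = ix A x := by
    unfold ix
    refine congrArg Classical.epsilon (funext fun a => propext ?_)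
    rw [← A.map_dup ι x a]
    exact not_congr (map_eq_zero_iff ι ι.injective)
  have h2 : ∀ a b, dS A a b (fun i => ι (x i)) (fun i => ι (v i)) = ι (dS A a b x v) := by
    intro a b
    unfold dS
    rw [map_sum]
    refine Finset.sum_congr rfl fun i _ => ?_
    rw [map_mul, comp_aeval_apply]
    have h3 : (Sum.elim (fun i => ι (x i)) fun i => ι (x i) : Fin (N + 1) ⊕ Fin (N + 1) → L') =
        fun i => ι (Sum.elim x x i) := by
      funext s
      rcases s with s | s <;> rfl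
    rw [h3]
  have h3 : ∀ b, oL A L' b = ι (oL A L b) := fun b => (ι.commutes _).symm
  funext b
  show ellv A (fun i => ι (x i)) (fun i => ι (v i)) b = ι (ellv A x v b)
  unfold ellv
  rw [h1, h2, h2, h3, ← A.map_dup, map_div₀, map_sub, map_mul]

theorem ell_b₀ (D : Derivation ℤ L L) (P : A.Pts L) : ell A D P A.b₀ = 0 := by
  have h1 : oL A L A.b₀ = 1 := by
    unfold oL o₀
    rw [div_self A.b₀_spec, map_one]
  unfold ell ellv
  rw [h1, one_mul, sub_self, zero_div]

theorem ell_der_add (D D' : Derivation ℤ L L) (P : A.Pts L) :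
    ell A (D + D') P = ell A D P + ell A D' P := by
  unfold ell
  rw [← ellv_add]
  rfl

theorem ell_der_sub (D D' : Derivation ℤ L L) (P : A.Pts L) :
    ell A (D - D') P = ell A D P - ell A D' P := by
  rw [eq_sub_iff_add_eq, ← ell_der_add, sub_add_cancel]

theorem ell_der_smul (c : L) (D : Derivation ℤ L L) (P : A.Pts L) :
    ell A (c • D) P = c • ell A D P := by
  unfold ell
  rw [← ellv_smul]
  rfl

section

variable [CharZero L] {D : Derivation ℤ L L} (hD : ∀ c : K, D (algebraMap K L c) = 0)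

include hD

theorem ell_eq {P : A.Pts L} {x : Fin (N + 1) → L} {c : L} (hc : c ≠ 0)
    (hx : ∀ i, A.x P i = c * x i) : ell A D P = ellv A x fun i => D (x i) := by
  obtain ⟨e, φ, ψ, h0, h1, -, hφ, hψ⟩ := exists_expK D hD
  obtain ⟨P₁, hP₁⟩ := Z_exists_img A φ P
  obtain ⟨P₂, hP₂⟩ := Z_exists_img A ψ P
  exact Tan.unique A
    (tan_exp A h0 h1 hφ hψ hP₁ hP₂ one_ne_zero fun i => (one_mul (A.x P i)).symm)
    (tan_exp A h0 h1 hφ hψ hP₁ hP₂ hc hx)

theorem ell_sub (P Q : A.Pts L) : ell A D (P - Q) = ell A D P - ell A D Q := by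
  obtain ⟨e, φ, ψ, h0, h1, -, hφ, hψ⟩ := exists_expK D hD
  obtain ⟨P₁, hP₁⟩ := Z_exists_img A φ P
  obtain ⟨P₂, hP₂⟩ := Z_exists_img A ψ P
  obtain ⟨Q₁, hQ₁⟩ := Z_exists_img A φ Q
  obtain ⟨Q₂, hQ₂⟩ := Z_exists_img A ψ Q
  have h2 : Tan A ((P₁ - Q₁) - (P₂ - Q₂)) (ell A D (P - Q)) :=
    tan_exp A h0 h1 hφ hψ (Z_img_sub A hP₁ hQ₁) (Z_img_sub A hP₂ hQ₂) one_ne_zero
      fun i => (one_mul (A.x (P - Q) i)).symm
  have h3 : Tan A (P₁ - P₂) (ell A D P) :=
    tan_exp A h0 h1 hφ hψ hP₁ hP₂ one_ne_zero fun i => (one_mul (A.x P i)).symm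
  have h4 : Tan A (Q₁ - Q₂) (ell A D Q) :=
    tan_exp A h0 h1 hφ hψ hQ₁ hQ₂ one_ne_zero fun i => (one_mul (A.x Q i)).symm
  have h5 := Tan.sub A h3 h4
  rw [sub_sub_sub_comm] at h2
  exact Tan.unique A h2 h5

theorem ell_zero : ell A D (0 : A.Pts L) = 0 := by
  have h1 := ell_sub A hD (0 : A.Pts L) 0
  rw [sub_self, sub_self] at h1
  exact h1

theorem ell_neg (P : A.Pts L) : ell A D (-P) = -ell A D P := by
  have h1 := ell_sub A hD (0 : A.Pts L) P
  rw [zero_sub, ell_zero A hD, zero_sub] at h1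
  exact h1

theorem ell_add (P Q : A.Pts L) : ell A D (P + Q) = ell A D P + ell A D Q := by
  have h1 := ell_sub A hD P (-Q)
  rw [sub_neg_eq_add, ell_neg A hD, sub_neg_eq_add] at h1
  exact h1

theorem ell_nsmul (m : ℕ) (P : A.Pts L) : ell A D (m • P) = m • ell A D P := by
  induction m with
  | zero => rw [zero_nsmul, zero_nsmul, ell_zero A hD]
  | succ m ih => rw [succ_nsmul, succ_nsmul, ell_add A hD, ih]

end

theorem ell_img {L' : Type u} [Field L'] [Algebra K L'] [CharZero L'] (σ : L →ₐ[K] L')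
    {D : Derivation ℤ L L} {D' : Derivation ℤ L' L'} (hD' : ∀ c : K, D' (algebraMap K L' c) = 0)
    (h : ∀ a, D' (σ a) = σ (D a)) {P : A.Pts L} {P' : A.Pts L'} (hP : A.Img σ P P') :
    ell A D' P' = fun i => σ (ell A D P i) := by
  obtain ⟨c, hc, h1⟩ := hP
  have h2 : ∀ i, A.x P' i = c⁻¹ * σ (A.x P i) := fun i => by
    rw [h1, inv_mul_cancel_left₀ hc]
  have h3 : (fun i => D' (σ (A.x P i))) = fun i => σ (D (A.x P i)) := funext fun i => h _
  rw [ell_eq A hD' (inv_ne_zero hc) h2, h3, ellv_map]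
  rfl

end

end Pool.Agent.Lib.MP_17a322_nt.VA.G
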