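import Pool.Agent.Lib.MP_17a322_nt.VA.G08
import Pool.Agent.Lib.MP_17a322_nt.VA.G13

/-!
VA, part G, job G17: transfer of logarithmic derivatives along embeddings.

Proof (complete). Let `x := A.x P`; `A.x P' = c⁻¹ • (ι ∘ x)` with `c ≠ 0` (`A.Img`). By `ell_eq` (`δ₁'` kills `K` since `δ` does: `algebraMap K L' c = algebraMap k L' (algebraMap K k c)`)
`ell A δ₁' P' = ellv A (ι ∘ x) (δ₁' ∘ ι ∘ x)`. The map `Δ a := δ₁' (ι a) - ι (δ₁ a)` from `L` to `L'` is additive, satisfies `Δ (a b) = ι a * Δ b + ι b * Δ a`, and kills `k` (both derivations extend `δ`; `ι` is a `k`-algebra homomorphism).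
By `der_expand` (G08): `Δ (x i) = ∑ j, e j * ι (E j (x i))` with derivations `E j` of `L` which kill `k`. So (`ellv_add`, `ellv_sum`, `ellv_smul`, `ellv_map` for `ι.restrictScalars K`)
`ell A δ₁' P' = ellv A (ι ∘ x) (ι ∘ δ₁ ∘ x + ∑ j, e j • (ι ∘ E j ∘ x)) = ι ∘ ell A δ₁ P + ∑ j, e j • ι ∘ ell A (E j) P`. Apply `∑ i, χ i * ..`: the terms with `E j` vanish by `hχ` (`algebraMap k L' (χ i) = ι (algebraMap k L (χ i))`).
`ell_transfer_zero` is the case `δ = 0`, `δ₁ = 0` (`ell A 0 P = 0`: `ellv_zero`).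
-/

universe u

namespace Pool.Agent.Lib.MP_17a322_nt.VA.G

open MvPolynomial

section

variable {K : Type u} [Field K] {N : ℕ} (A : AV K N) {k : Type u} [Field k] [Algebra K k]
  {L L' : Type u} [Field L] [Algebra K L] [Algebra k L] [IsScalarTower K k L] [CharZero L]
  [Field L'] [Algebra K L'] [Algebra k L'] [IsScalarTower K k L'] [CharZero L'] (ι : L →ₐ[k] L')
  {P : A.Pts L} {P' : A.Pts L'} (hP : A.Img (ι.restrictScalars K) P P') (χ : Fin (N + 1) → k)
  (hχ : ∀ D : Derivation ℤ L L, (∀ c : k, D (algebraMap k L c) = 0) →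
    ∑ i, algebraMap k L (χ i) * ell A D P i = 0)

include hP hχ

theorem ell_transfer (δ : Derivation ℤ k k) (hδ : ∀ c : K, δ (algebraMap K k c) = 0)
    (δ₁ : Derivation ℤ L L) (h₁ : ∀ c : k, δ₁ (algebraMap k L c) = algebraMap k L (δ c))
    (δ₁' : Derivation ℤ L' L') (h₁' : ∀ c : k, δ₁' (algebraMap k L' c) = algebraMap k L' (δ c)) :
    ∑ i, algebraMap k L' (χ i) * ell A δ₁' P' i =
      ι (∑ i, algebraMap k L (χ i) * ell A δ₁ P i) := by
  obtain ⟨c, hc, hx⟩ := hP
  have hK : ∀ c : K, δ₁' (algebraMap K L' c) = 0 := by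
    intro c
    rw [IsScalarTower.algebraMap_apply K k L' c, h₁', hδ, map_zero]
  have e1 := ell_eq A hK (P := P') (x := fun i => ι (A.x P i)) (c := c⁻¹) (inv_ne_zero hc)
    (fun i => by
      have h2 : ι (A.x P i) = c * A.x P' i := hx i
      rw [h2, inv_mul_cancel_left₀ hc])
  obtain ⟨m, e, E, hE, hEx⟩ := der_expand ι (fun a => δ₁' (ι a) - ι (δ₁ a))
    (fun a b => by
      simp only [map_add]
      ring)
    (fun a b => by
      simp only [map_mul, Derivation.leibniz, smul_eq_mul, map_add]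
      ring)
    (fun c => by
      beta_reduce
      rw [ι.commutes, h₁', h₁, ι.commutes, sub_self]) (A.x P)
  have e2 : (fun i => δ₁' (ι (A.x P i))) = (fun i => ι (δ₁ (A.x P i))) +
      ∑ j, e j • (fun i => ι (E j (A.x P i))) := by
    funext i
    have h3 := hEx i
    beta_reduce at h3
    rw [Pi.add_apply, Finset.sum_apply]
    have h4 : ∀ j, (e j • (fun i => ι (E j (A.x P i)))) i = e j * ι (E j (A.x P i)) :=
      fun j => rfl
    rw [Finset.sum_congr rfl fun j _ => h4 j, ← h3]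
    ring
  have e3 : ∀ D : Derivation ℤ L L, ellv A (fun i => ι (A.x P i)) (fun i => ι (D (A.x P i))) =
      fun i => ι (ell A D P i) :=
    fun D => ellv_map A (ι.restrictScalars K) (A.x P) (fun i => D (A.x P i))
  have e4 : ∀ i, ell A δ₁' P' i = ι (ell A δ₁ P i) + ∑ j, e j * ι (ell A (E j) P i) := by
    intro i
    rw [e1]
    show ellv A (fun i => ι (A.x P i)) (fun i => δ₁' (ι (A.x P i))) i = _
    rw [e2, ellv_add, ellv_sum, e3, Pi.add_apply, Finset.sum_apply]
    congr 1
    refine Finset.sum_congr rfl fun j _ => ?_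
    rw [ellv_smul, e3]
    rfl
  have e5 : ∀ i, algebraMap k L' (χ i) * ell A δ₁' P' i =
      ι (algebraMap k L (χ i) * ell A δ₁ P i) +
        ∑ j, e j * ι (algebraMap k L (χ i) * ell A (E j) P i) := by
    intro i
    rw [e4, map_mul, ι.commutes, mul_add, Finset.mul_sum]
    congr 1
    refine Finset.sum_congr rfl fun j _ => ?_
    rw [map_mul, ι.commutes]
    ring
  rw [Finset.sum_congr rfl fun i _ => e5 i, Finset.sum_add_distrib, ← map_sum, Finset.sum_comm]
  have e6 : ∑ j, ∑ i, e j * ι (algebraMap k L (χ i) * ell A (E j) P i) = 0 := by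
    refine Finset.sum_eq_zero fun j _ => ?_
    rw [← Finset.mul_sum, ← map_sum, hχ (E j) (hE j), map_zero, mul_zero]
  rw [e6, add_zero]

theorem ell_transfer_zero (D' : Derivation ℤ L' L')
    (hD' : ∀ c : k, D' (algebraMap k L' c) = 0) :
    ∑ i, algebraMap k L' (χ i) * ell A D' P' i = 0 := by
  have h := ell_transfer A ι hP χ hχ 0 (fun c => rfl) 0 (fun c => by
    rw [Derivation.zero_apply, Derivation.zero_apply, map_zero]) D' (fun c => by
    rw [hD' c, Derivation.zero_apply, map_zero])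
  rw [h]
  have h1 : ell A (0 : Derivation ℤ L L) P = 0 := ellv_zero A (A.x P)
  rw [h1]
  have h2 : ∑ i, algebraMap k L (χ i) * (0 : Fin (N + 1) → L) i = 0 :=
    Finset.sum_eq_zero fun i _ => by rw [Pi.zero_apply, mul_zero]
  rw [h2, map_zero]

end

end Pool.Agent.Lib.MP_17a322_nt.VA.G
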