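import Pool.Agent.Lib.MP_17a322_nt.VA.G05
import Pool.Agent.Lib.MP_17a322_nt.VA.G06
import Pool.Agent.Lib.MP_17a322_nt.VA.G17

/-!
VA, part G, job G26: the subgroup generated by the differences.

Proof (complete). `J := loc k (A.x s)`. Let `C` be the set of the ideals `𝔞` such that there are a field `M` (with `Algebra K M`, `Algebra k M`, tower) and `y : A.Pts M` with `loc k (A.x y) = 𝔞` and
 (i) `∀ φ ∈ Γ, ∀ G ∈ 𝔞, map φ G ∈ 𝔞`; (ii) `ZP A 𝔞 (0 : A.Pts k)`; (iii) `∀ L' P Q, ZP A J P → ZP A J Q → ZP A 𝔞 (P - Q)`;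
 (v) for every `𝔠`, `m` as in the statement `ZP A 𝔠 (m • y)`;
 (iv) for every `χ : Fin (N+1) → k`, if `∑ i, χ i * ell A D s i = 0` for all derivations `D` of `L` that kill `k` then the same for `y` and all derivations of `M` that kill `k`.
Step 1 (`step`, private): let `y : A.Pts M`, `M₃, ι₁, ι₂` a pair for `M, M` (`exists_pair`), `Y₁, Y₂` the images, `z := Y₁ - Y₂`. (a) If `loc k (A.x y)` satisfies (i), so does `loc k (A.x z)`: let `G ∈ loc k (A.x z)`; its components are too; `homogeneousComponent d (map φ G) = map φ (homogeneousComponent d G)`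
(compare coefficients), `mem_loc_of_comp`, so let `G` be homogeneous; by `pair` `subP A k G a ∈ prodI ..` for all `a`; `map φ (subP A k G a) = subP A k (map φ G) a` (since `φ` fixes the image of `K`: `map φ (map (algebraMap K k) p) = map (algebraMap K k) p`; `MvPolynomial.map_bind₁`); `prodI_map`; `pair` again.
(b) `ZP A (loc k (A.x z)) (P - Q)` for all zeros `P, Q` of `loc k (A.x y)`: `ZP_pair`. In particular (ii) holds for `z`: `P = Q = y` and `loc_img` for `Algebra.ofId k M` (`loc k (A.x (0 : A.Pts M)) = loc k (A.x (0 : A.Pts k))`, `Z_img_zero`).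
(c) (iv) passes from `y` to `z`: `ell_sub` and `ell_transfer_zero` (G17) for `ι₁`, `ι₂`. (d) (v) passes from `y` to `z`: `m • z = m • Y₁ - m • Y₂` and `m • Y₁`, `m • Y₂` are the images of `m • y` (`Z_img_nsmul`), zeros of `𝔠` by `ZP_img`.
`C` is nonempty: step 1 for `y := s`: (iii) is (b), (iv) for `s` is trivial, (v) is its hypothesis.
`C` consists of prime ideals (`loc_isPrime`), so by `exists_minimal_prime` (G06; `MvPolynomial (Fin (N+1)) k` is Noetherian) there is a minimal `𝔟 = loc k (A.x y) ∈ C`. Let `z` be as in step 1 for this `y`. `loc k (A.x z) ≤ 𝔟`: `0` is a zero of `𝔟` over `M` (by (ii) and `loc_img`), so (b) with `P = y, Q = 0`: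
`loc k (A.x z) ≤ loc k (A.x (y - 0)) = 𝔟`. `loc k (A.x z) ∈ C`: (i) by (a), (ii) by (b), (iii) since `loc k (A.x z) ≤ 𝔟`, (iv) by (c), (v) by (d). So `loc k (A.x z) = 𝔟`, and (b) says that `𝔟` is a `GrpI`.
(Characteristic 0 of `M`, .. : `charZero_of_injective_algebraMap`.)
-/

universe u

namespace Pool.Agent.Lib.MP_17a322_nt.VA.G

open MvPolynomial

private theorem g26_comp {k : Type u} [Field k] {n : ℕ} (φ : k →+* k) (d : ℕ)
    (G : MvPolynomial (Fin n) k) :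
    homogeneousComponent d (map φ G) = map φ (homogeneousComponent d G) := by
  classical
  ext m
  rw [coeff_homogeneousComponent, coeff_map, coeff_map, coeff_homogeneousComponent]
  split_ifs with h
  · rfl
  · rw [map_zero]

section

variable {K : Type u} [Field K] {N : ℕ} (A : AV K N) {k : Type u} [Field k] [Algebra K k]

private theorem g26_subP (φ : k →+* k) (hφ : ∀ c : K, φ (algebraMap K k c) = algebraMap K k c)
    (G : MvPolynomial (Fin (N + 1)) k) (a : Fin (N + 1)) :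
    map φ (subP A k G a) = subP A k (map φ G) a := by
  unfold subP
  rw [map_bind₁]
  congr 2
  funext b
  have h : φ.comp (algebraMap K k) = algebraMap K k := RingHom.ext hφ
  rw [map_map, h]

variable {L L₃ : Type u} [Field L] [Algebra K L] [Algebra k L] [IsScalarTower K k L]
  [Field L₃] [Algebra K L₃] [Algebra k L₃] [IsScalarTower K k L₃]

private theorem g26_a {ι₁ ι₂ : L →ₐ[k] L₃} (hι : LD ι₁ ι₂) {y : A.Pts L} {Y₁ Y₂ : A.Pts L₃}
    (h₁ : A.Img (ι₁.restrictScalars K) y Y₁) (h₂ : A.Img (ι₂.restrictScalars K) y Y₂)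
    {Γ : Set (k →+* k)} (hΓ : ∀ φ ∈ Γ, ∀ c : K, φ (algebraMap K k c) = algebraMap K k c)
    (hy : ∀ φ ∈ Γ, ∀ G ∈ loc k (A.x y), map φ G ∈ loc k (A.x y)) :
    ∀ φ ∈ Γ, ∀ G ∈ loc k (A.x (Y₁ - Y₂)), map φ G ∈ loc k (A.x (Y₁ - Y₂)) := by
  intro φ hφ G hG
  rw [mem_loc] at hG ⊢
  intro d
  rw [g26_comp]
  have h1 := (pair A hι h₁ h₂ (homogeneousComponent_isHomogeneous d G)).1 (hG d)
  rw [pair A hι h₁ h₂ ((homogeneousComponent_isHomogeneous d G).map φ)]
  intro a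
  rw [← g26_subP A φ (hΓ φ hφ)]
  exact prodI_map φ (hy φ hφ) (h1 a)

private theorem g26_zero {𝔞 : Ideal (MvPolynomial (Fin (N + 1)) k)} :
    ZP A 𝔞 (0 : A.Pts L) ↔ ZP A 𝔞 (0 : A.Pts k) := by
  unfold ZP
  rw [loc_img A (Algebra.ofId k L) (Z_img_zero A ((Algebra.ofId k L).restrictScalars K))]

private theorem g26_l [CharZero L] [CharZero L₃] {ι₁ ι₂ : L →ₐ[k] L₃} {y : A.Pts L}
    {Y₁ Y₂ : A.Pts L₃} (h₁ : A.Img (ι₁.restrictScalars K) y Y₁)
    (h₂ : A.Img (ι₂.restrictScalars K) y Y₂) (χ : Fin (N + 1) → k)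
    (hχ : ∀ D : Derivation ℤ L L, (∀ c : k, D (algebraMap k L c) = 0) →
      ∑ i, algebraMap k L (χ i) * ell A D y i = 0)
    (D : Derivation ℤ L₃ L₃) (hD : ∀ c : k, D (algebraMap k L₃ c) = 0) :
    ∑ i, algebraMap k L₃ (χ i) * ell A D (Y₁ - Y₂) i = 0 := by
  have h3 := ell_transfer_zero A ι₁ h₁ χ hχ D hD
  have h4 := ell_transfer_zero A ι₂ h₂ χ hχ D hD
  have hD' : ∀ c : K, D (algebraMap K L₃ c) = 0 := by
    intro c
    rw [IsScalarTower.algebraMap_apply K k L₃]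
    exact hD _
  rw [ell_sub A hD' Y₁ Y₂]
  have h5 : ∀ i, algebraMap k L₃ (χ i) * (ell A D Y₁ - ell A D Y₂) i =
      algebraMap k L₃ (χ i) * ell A D Y₁ i - algebraMap k L₃ (χ i) * ell A D Y₂ i :=
    fun i => mul_sub _ _ _
  rw [Finset.sum_congr rfl fun i _ => h5 i, Finset.sum_sub_distrib, h3, h4, sub_zero]

/-- the conditions on the point -/
private def g26P (s : A.Pts L) (Γ : Set (k →+* k)) {M : Type u} [Field M] [Algebra K M]
    [Algebra k M] [IsScalarTower K k M] (y : A.Pts M) : Prop :=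
  (∀ φ ∈ Γ, ∀ G ∈ loc k (A.x y), map φ G ∈ loc k (A.x y)) ∧
  ZP A (loc k (A.x y)) (0 : A.Pts k) ∧
  (∀ (L' : Type u) [Field L'] [Algebra K L'] [Algebra k L'] [IsScalarTower K k L']
    (P Q : A.Pts L'), ZP A (loc k (A.x s)) P → ZP A (loc k (A.x s)) Q →
      ZP A (loc k (A.x y)) (P - Q)) ∧
  (∀ χ : Fin (N + 1) → k, (∀ D : Derivation ℤ L L, (∀ c : k, D (algebraMap k L c) = 0) →
      ∑ i, algebraMap k L (χ i) * ell A D s i = 0) →
    ∀ D : Derivation ℤ M M, (∀ c : k, D (algebraMap k M c) = 0) →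
      ∑ i, algebraMap k M (χ i) * ell A D y i = 0) ∧
  ∀ (𝔠 : Ideal (MvPolynomial (Fin (N + 1)) k)) (m : ℕ),
    (∀ (L' : Type u) [Field L'] [Algebra K L'] [Algebra k L'] [IsScalarTower K k L']
      (P Q : A.Pts L'), ZP A 𝔠 P → ZP A 𝔠 Q → ZP A 𝔠 (P - Q)) →
    (∀ (L' : Type u) [Field L'] [Algebra K L'] [Algebra k L'] [IsScalarTower K k L']
      (ι₁ ι₂ : L →ₐ[k] L') (P₁ P₂ : A.Pts L'), A.Img (ι₁.restrictScalars K) s P₁ →
        A.Img (ι₂.restrictScalars K) s P₂ → ZP A 𝔠 (m • (P₁ - P₂))) →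
    ZP A 𝔠 (m • y)

end

section

variable {K : Type u} [Field K] [CharZero K] {N : ℕ} (A : AV K N) {k : Type u} [Field k]
  [Algebra K k] [IsAlgClosed k] {L : Type u} [Field L] [Algebra K L] [Algebra k L]
  [IsScalarTower K k L] (s : A.Pts L) (Γ : Set (k →+* k))
  (hΓ : ∀ φ ∈ Γ, ∀ c : K, φ (algebraMap K k c) = algebraMap K k c)
  (hs : ∀ φ ∈ Γ, ∀ G ∈ loc k (A.x s), map φ G ∈ loc k (A.x s))

include hΓ hs

theorem exists_grp : ∃ (M : Type u) (_ : Field M) (_ : Algebra K M) (_ : Algebra k M)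
    (_ : IsScalarTower K k M) (y : A.Pts M), GrpI A (loc k (A.x y)) ∧
      (∀ φ ∈ Γ, ∀ G ∈ loc k (A.x y), map φ G ∈ loc k (A.x y)) ∧
      (∀ (L' : Type u) [Field L'] [Algebra K L'] [Algebra k L'] [IsScalarTower K k L']
        (P Q : A.Pts L'), ZP A (loc k (A.x s)) P → ZP A (loc k (A.x s)) Q →
          ZP A (loc k (A.x y)) (P - Q)) ∧
      (∀ χ : Fin (N + 1) → k, (∀ D : Derivation ℤ L L, (∀ c : k, D (algebraMap k L c) = 0) →
          ∑ i, algebraMap k L (χ i) * ell A D s i = 0) →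
        ∀ D : Derivation ℤ M M, (∀ c : k, D (algebraMap k M c) = 0) →
          ∑ i, algebraMap k M (χ i) * ell A D y i = 0) ∧
      ∀ (𝔠 : Ideal (MvPolynomial (Fin (N + 1)) k)) (m : ℕ),
        (∀ (L' : Type u) [Field L'] [Algebra K L'] [Algebra k L'] [IsScalarTower K k L']
          (P Q : A.Pts L'), ZP A 𝔠 P → ZP A 𝔠 Q → ZP A 𝔠 (P - Q)) →
        (∀ (L' : Type u) [Field L'] [Algebra K L'] [Algebra k L'] [IsScalarTower K k L']
          (ι₁ ι₂ : L →ₐ[k] L') (P₁ P₂ : A.Pts L'), A.Img (ι₁.restrictScalars K) s P₁ →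
            A.Img (ι₂.restrictScalars K) s P₂ → ZP A 𝔠 (m • (P₁ - P₂))) →
        ZP A 𝔠 (m • y) := by
  classical
  let C : Set (Ideal (MvPolynomial (Fin (N + 1)) k)) := {𝔞 | ∃ (M : Type u) (_ : Field M)
    (_ : Algebra K M) (_ : Algebra k M) (_ : IsScalarTower K k M) (y : A.Pts M),
    loc k (A.x y) = 𝔞 ∧ g26P A s Γ y}
  have hC : C.Nonempty := by
    obtain ⟨L₃, _, _, _, _, ι₁, ι₂, hι⟩ := exists_pair K k L L
    obtain ⟨Y₁, h₁⟩ := Z_exists_img A (ι₁.restrictScalars K) s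
    obtain ⟨Y₂, h₂⟩ := Z_exists_img A (ι₂.restrictScalars K) s
    have _ : CharZero L := charZero_of_injective_algebraMap (algebraMap K L).injective
    have _ : CharZero L₃ := charZero_of_injective_algebraMap (algebraMap K L₃).injective
    refine ⟨loc k (A.x (Y₁ - Y₂)), L₃, _, _, _, inferInstance, Y₁ - Y₂, rfl, g26_a A hι h₁ h₂ hΓ hs, ?_, ?_,
      ?_, ?_⟩
    · rw [← g26_zero A (L := L), ← sub_self s]
      exact ZP_pair A hι h₁ h₂ (P := s) (Q := s) le_rfl le_rfl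
    · intro L' _ _ _ _ P Q hP hQ
      exact ZP_pair A hι h₁ h₂ hP hQ
    · intro χ hχ D hD
      exact g26_l A h₁ h₂ χ hχ D hD
    · intro 𝔠 m _ h2
      exact h2 L₃ ι₁ ι₂ Y₁ Y₂ h₁ h₂
  obtain ⟨𝔟, ⟨M, _, _, _, _, y, hy, hyP⟩, hmin⟩ := exists_minimal_prime C hC (by
    rintro _ ⟨M, _, _, _, _, y, rfl, _⟩
    exact loc_isPrime)
  have _ : CharZero M := charZero_of_injective_algebraMap (algebraMap K M).injective
  obtain ⟨hy1, hy2, hy3, hy4, hy5⟩ := hyP
  obtain ⟨M₃, _, _, _, _, ι₁, ι₂, hι⟩ := exists_pair K k M M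
  obtain ⟨Y₁, h₁⟩ := Z_exists_img A (ι₁.restrictScalars K) y
  obtain ⟨Y₂, h₂⟩ := Z_exists_img A (ι₂.restrictScalars K) y
  have _ : CharZero M₃ := charZero_of_injective_algebraMap (algebraMap K M₃).injective
  have hle : loc k (A.x (Y₁ - Y₂)) ≤ loc k (A.x y) := by
    have h3 := ZP_pair A hι h₁ h₂ (P := y) (Q := 0) le_rfl ((g26_zero A).2 hy2)
    rw [sub_zero] at h3
    exact h3
  have hmem : loc k (A.x (Y₁ - Y₂)) ∈ C := by
    refine ⟨M₃, _, _, _, inferInstance, Y₁ - Y₂, rfl, g26_a A hι h₁ h₂ hΓ hy1, ?_, ?_, ?_, ?_⟩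
    · rw [← g26_zero A (L := M), ← sub_self y]
      exact ZP_pair A hι h₁ h₂ (P := y) (Q := y) le_rfl le_rfl
    · intro L' _ _ _ _ P Q hP hQ
      exact hle.trans (hy3 L' P Q hP hQ)
    · intro χ hχ D hD
      exact g26_l A h₁ h₂ χ (hy4 χ hχ) D hD
    · intro 𝔠 m h3 h4
      rw [smul_sub]
      have h5 := hy5 𝔠 m h3 h4
      exact h3 M₃ _ _ (ZP_img A ι₁ (Z_img_nsmul A h₁ m) h5) (ZP_img A ι₂ (Z_img_nsmul A h₂ m) h5)
  have heq : loc k (A.x (Y₁ - Y₂)) = loc k (A.x y) := by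
    rw [hy] at hle ⊢
    exact hmin _ hmem hle
  refine ⟨M, _, _, _, inferInstance, y, ⟨hy2, ?_⟩, hy1, hy3, hy4, hy5⟩
  intro L' _ _ _ _ P Q hP hQ
  rw [← heq]
  exact ZP_pair A hι h₁ h₂ hP hQ

end

end Pool.Agent.Lib.MP_17a322_nt.VA.G
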