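import Pool.Agent.Lib.MP_17a322_nt.VA.G18

/-!
VA, part G, job G27: points over `k` and averages of conjugate points.

Proofs (complete).
`exists_point`: `J := loc k (A.x s)` is prime. If every zero `v : Fin (N+1) → k` of `J` were 0, every `X i` would vanish on the zero locus of `J`, so `X i ∈ J` (`MvPolynomial.IsPrime.vanishingIdeal_zeroLocus` with `K := k`, Mathlib/RingTheory/Nullstellensatz.lean), so `A.x s i = 0` for all `i` (`mem_loc_of_homog`): contradiction (`Z_x_ne`). So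
there is a zero `v ≠ 0` of `J`. For `f ∈ A.I`: `map (algebraMap K k) f ∈ J` (`map_mem_loc`; `f ∈ loc K (A.x s)` by `mem_loc`, `A.homog`, `Z_x_isPt`), so `v` is a zero of `A.I`, and `Z_exists_pt` gives `w` with `A.x w = c • v`. `ZP A J w`: `le_loc` (components: `comp_mem_loc`) and `aeval_smul_of_homog`.
`exists_average`: choose `j` with `A.x P j ≠ 0`, `r i := A.x P i / A.x P j`. If `p` is the image of `P` under `τ` then `A.x p j ≠ 0` and `A.x p i / A.x p j = τ (r i)`, a root of `minpoly F (r i)`. The map `p ↦ (A.x p i / A.x p j)_i` is injective on the set `O` of all images (`Z_ext`) with values in the finite set of the vectors with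
`i`-th entry a root of `minpoly F (r i)` (`Polynomial.rootSet`, `Set.Finite.pi`), so `O` is finite. `m` is its number of elements and `p : Fin m → ..` an enumeration (`Finset.equivFin`); `0 < m` since `P ∈ O` (`τ = 1`). For `τ`: the map `p ↦` image of `p` under `τ` maps `O` to `O` (composition of automorphisms) and is injective (the inverse is given by
`τ⁻¹`), so it is a permutation, and the image of the sum is the sum of the images (`Z_img_add`, `Z_img_zero`, induction over the `Finset`).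
`exists_center`: `p, m` from `exists_average`. Let `E := algebraicClosure k₀ Ω` (an intermediate field of `Ω / k₀`; as a `K`-algebra: `E.restrictScalars K`, `E.val.restrictScalars K : E →ₐ[K] Ω`). Every `p l` has its ratios in `E` (`τ (r i)` is algebraic over `k₀`, since `τ` fixes the image of `k₀ ⊆ F`: `IsAlgebraic.algHom`-like), so it is the image of
a point over `E` (`exists_pt_sub`), so the sum `Q := ∑ l, p l` is (`Z_img_add`), so its ratios are algebraic over `k₀`. They are fixed by all `τ` (from `A.Img .. Q Q`: `τ (A.x Q i) = c * A.x Q i` for all `i`), so they are in the image of `F` (`InfiniteGalois.mem_range_algebraMap_iff_fixed`), say `= algebraMap F Ω a`, `a` is algebraic over `k₀`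
(`isAlgebraic_algebraMap_iff`, injectivity), so `a ∈ k₀` by `hk₀`. So `exists_pt_sub` for `φ : k₀ →ₐ[K] Ω` gives `w`.
-/

universe u

namespace Pool.Agent.Lib.MP_17a322_nt.VA.G

open MvPolynomial

section

variable {K : Type u} [Field K] {N : ℕ} (A : AV K N)

theorem exists_point {k : Type u} [Field k] [Algebra K k] [IsAlgClosed k] {L : Type u} [Field L]
    [Algebra K L] [Algebra k L] [IsScalarTower K k L] (s : A.Pts L) :
    ∃ w : A.Pts k, ZP A (loc k (A.x s)) w := by
  obtain ⟨v, hv, hv0⟩ : ∃ v : Fin (N + 1) → k, v ∈ zeroLocus k (loc k (A.x s)) ∧ v ≠ 0 := by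
    by_contra hcon
    push Not at hcon
    refine Z_x_ne A s (funext fun i => ?_)
    have h1 : (X i : MvPolynomial (Fin (N + 1)) k) ∈
        vanishingIdeal k (zeroLocus k (loc k (A.x s))) := by
      intro v hv
      rw [hcon v hv, aeval_X, Pi.zero_apply]
    have h2 : (loc k (A.x s)).radical = loc k (A.x s) := (loc_isPrime (k := k) (x := A.x s)).radical
    rw [vanishingIdeal_zeroLocus_eq_radical, h2, mem_loc_of_homog (isHomogeneous_X k i), aeval_X] at h1
    exact h1
  have h3 : A.IsPt v := by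
    intro f hf
    have h4 : map (algebraMap K k) f ∈ loc k (A.x s) := by
      rw [map_mem_loc, mem_loc]
      exact fun d => Z_x_isPt A s _ (A.homog f hf d)
    have h5 := hv _ h4
    rw [aeval_map_algebraMap] at h5
    exact h5
  obtain ⟨w, c, hc, hw⟩ := Z_exists_pt A hv0 h3
  refine ⟨w, ?_⟩
  unfold ZP
  have h6 : A.x w = fun i => c * v i := funext hw
  rw [h6, loc_smul hc]
  exact le_loc (fun G hG d => comp_mem_loc hG d) fun G hG d _ => hv G hG

variable {F Ω : Type u} [Field F] [Field Ω] [Algebra K F] [Algebra F Ω] [Algebra K Ω]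
  [IsScalarTower K F Ω]

/-- Images under an automorphism determine the point. -/
private theorem g27b_inj (τ : Ω ≃ₐ[F] Ω) {q q' p : A.Pts Ω}
    (h : A.Img ((τ : Ω →ₐ[F] Ω).restrictScalars K) q p)
    (h' : A.Img ((τ : Ω →ₐ[F] Ω).restrictScalars K) q' p) : q = q' := by
  obtain ⟨c, hc, h1⟩ := h
  obtain ⟨c', hc', h2⟩ := h'
  have h1' : ∀ i, τ (A.x q i) = c * A.x p i := h1
  have h2' : ∀ i, τ (A.x q' i) = c' * A.x p i := h2
  refine Z_ext A (c := τ.symm (c / c')) ?_ fun i => ?_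
  · intro h3
    have h4 : c / c' = 0 := by
      have h5 := congrArg τ h3
      rw [AlgEquiv.apply_symm_apply, map_zero] at h5
      exact h5
    exact div_ne_zero hc hc' h4
  · refine τ.injective ?_
    rw [map_mul, AlgEquiv.apply_symm_apply, h1', h2']
    field_simp

/-- Composition of images. -/
private theorem g27b_comp (τ τ' : Ω ≃ₐ[F] Ω) {q p p' : A.Pts Ω}
    (h : A.Img ((τ : Ω →ₐ[F] Ω).restrictScalars K) q p)
    (h' : A.Img ((τ' : Ω →ₐ[F] Ω).restrictScalars K) p p') :
    A.Img (((τ.trans τ' : Ω ≃ₐ[F] Ω) : Ω →ₐ[F] Ω).restrictScalars K) q p' := by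
  obtain ⟨c, hc, h1⟩ := h
  obtain ⟨c', hc', h2⟩ := h'
  have h1' : ∀ i, τ (A.x q i) = c * A.x p i := h1
  have h2' : ∀ i, τ' (A.x p i) = c' * A.x p' i := h2
  refine ⟨τ' c * c', mul_ne_zero ?_ hc', fun i => ?_⟩
  · intro h3
    refine hc (τ'.injective ?_)
    rw [h3, map_zero]
  · show τ' (τ (A.x q i)) = τ' c * c' * A.x p' i
    rw [h1', map_mul, h2', mul_assoc]

/-- The set of the images is finite. -/
private theorem g27b_fin [Algebra.IsAlgebraic F Ω] (P : A.Pts Ω) :
    {p : A.Pts Ω | ∃ τ : Ω ≃ₐ[F] Ω, A.Img ((τ : Ω →ₐ[F] Ω).restrictScalars K) P p}.Finite := by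
  obtain ⟨j, hj⟩ : ∃ j, A.x P j ≠ 0 := by
    by_contra hcon
    push Not at hcon
    exact Z_x_ne A P (funext hcon)
  have hne : ∀ (τ : Ω ≃ₐ[F] Ω) (p : A.Pts Ω),
      A.Img ((τ : Ω →ₐ[F] Ω).restrictScalars K) P p → A.x p j ≠ 0 ∧
        ∀ i, A.x p i / A.x p j = τ (A.x P i / A.x P j) := by
    intro τ p h
    obtain ⟨c, hc, h1⟩ := h
    have h1' : ∀ i, τ (A.x P i) = c * A.x p i := h1
    have h2 : A.x p j ≠ 0 := by
      intro h3
      have h4 := h1' j
      rw [h3, mul_zero] at h4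
      refine hj (τ.injective ?_)
      rw [h4, map_zero]
    refine ⟨h2, fun i => ?_⟩
    rw [map_div₀, h1', h1', mul_div_mul_left _ _ hc]
  refine Set.Finite.of_injOn (f := fun p : A.Pts Ω => fun i => A.x p i / A.x p j)
    (t := Set.pi Set.univ fun i => (minpoly F (A.x P i / A.x P j)).rootSet Ω) ?_ ?_
    (Set.Finite.pi fun i => Polynomial.rootSet_finite _ _)
  · rintro p ⟨τ, hτ⟩
    refine Set.mem_univ_pi.mpr fun i => ?_
    rw [Polynomial.mem_rootSet]
    refine ⟨minpoly.ne_zero (Algebra.IsAlgebraic.isAlgebraic _).isIntegral, ?_⟩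
    show Polynomial.aeval (A.x p i / A.x p j) _ = 0
    rw [(hne τ p hτ).2 i]
    have h5 := Polynomial.aeval_algHom_apply (τ : Ω →ₐ[F] Ω) (A.x P i / A.x P j)
      (minpoly F (A.x P i / A.x P j))
    rw [minpoly.aeval, map_zero] at h5
    exact h5
  · rintro p ⟨τ, hτ⟩ p' ⟨τ', hτ'⟩ h
    have hp := (hne τ p hτ).1
    have hp' := (hne τ' p' hτ').1
    refine Z_ext A (c := A.x p j / A.x p' j) (div_ne_zero hp hp') fun i => ?_
    have h1 : A.x p i / A.x p j = A.x p' i / A.x p' j := congrFun h i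
    rw [div_eq_div_iff hp hp'] at h1
    field_simp
    linear_combination h1

/-- The image of a sum. -/
private theorem g27b_sum (τ : Ω ≃ₐ[F] Ω) (f : A.Pts Ω → A.Pts Ω)
    (hf : ∀ q, A.Img ((τ : Ω →ₐ[F] Ω).restrictScalars K) q (f q)) (T : Finset (A.Pts Ω)) :
    A.Img ((τ : Ω →ₐ[F] Ω).restrictScalars K) (∑ q ∈ T, q) (∑ q ∈ T, f q) := by
  classical
  induction T using Finset.induction_on with
  | empty =>
    rw [Finset.sum_empty, Finset.sum_empty]
    exact Z_img_zero A _
  | insert a T ha ih =>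
    rw [Finset.sum_insert ha, Finset.sum_insert ha]
    exact Z_img_add A (hf a) ih

theorem exists_average [Algebra.IsAlgebraic F Ω] (P : A.Pts Ω) :
    ∃ (m : ℕ) (p : Fin m → A.Pts Ω), 0 < m ∧
      (∀ l, ∃ τ : Ω ≃ₐ[F] Ω, A.Img ((τ : Ω →ₐ[F] Ω).restrictScalars K) P (p l)) ∧
      ∀ τ : Ω ≃ₐ[F] Ω, A.Img ((τ : Ω →ₐ[F] Ω).restrictScalars K) (∑ l, p l) (∑ l, p l) := by
  classical
  have hfin := g27b_fin (F := F) A P
  obtain ⟨T, hT⟩ : ∃ T : Finset (A.Pts Ω), ∀ p, p ∈ T ↔
      ∃ τ : Ω ≃ₐ[F] Ω, A.Img ((τ : Ω →ₐ[F] Ω).restrictScalars K) P p :=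
    ⟨hfin.toFinset, fun p => hfin.mem_toFinset⟩
  have hP : P ∈ T := by
    rw [hT]
    refine ⟨AlgEquiv.refl, 1, one_ne_zero, fun i => ?_⟩
    rw [one_mul]
    rfl
  have hsum : ∑ l, ((T.equivFin.symm l : T) : A.Pts Ω) = ∑ q ∈ T, q := by
    rw [Equiv.sum_comp T.equivFin.symm fun q : T => (q : A.Pts Ω)]
    exact Finset.sum_coe_sort T fun q => q
  refine ⟨T.card, fun l => (T.equivFin.symm l : T), Finset.card_pos.mpr ⟨P, hP⟩, fun l => ?_,
    fun τ => ?_⟩
  · exact (hT _).mp (T.equivFin.symm l).2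
  · rw [hsum]
    choose f hf using fun q : A.Pts Ω =>
      Z_exists_img A ((τ : Ω →ₐ[F] Ω).restrictScalars K) q
    have h1 := g27b_sum A τ f hf T
    have hinj : Set.InjOn f T := by
      intro q _ q' _ h
      refine g27b_inj A τ (hf q) ?_
      rw [h]
      exact hf q'
    have himg : T.image f = T := by
      refine Finset.eq_of_subset_of_card_le ?_ (Finset.card_image_of_injOn hinj).ge
      intro q hq
      obtain ⟨p, hp, rfl⟩ := Finset.mem_image.mp hq
      obtain ⟨τ', hτ'⟩ := (hT p).mp hp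
      exact (hT _).mpr ⟨τ'.trans τ, g27b_comp A τ' τ hτ' (hf p)⟩
    have h2 : ∑ q ∈ T, f q = ∑ q ∈ T, q := by
      rw [← Finset.sum_image (f := fun q : A.Pts Ω => q) hinj, himg]
    rw [h2] at h1
    exact h1

private theorem g27c_img_sum {L L' : Type u} [Field L] [Algebra K L] [Field L'] [Algebra K L']
    (φ : L →ₐ[K] L') {m : ℕ} (P : Fin m → A.Pts L) (P' : Fin m → A.Pts L')
    (h : ∀ l, A.Img φ (P l) (P' l)) : A.Img φ (∑ l, P l) (∑ l, P' l) := by
  classical
  have h1 : ∀ s : Finset (Fin m), A.Img φ (∑ l ∈ s, P l) (∑ l ∈ s, P' l) := by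
    intro s
    induction s using Finset.induction_on with
    | empty =>
      rw [Finset.sum_empty, Finset.sum_empty]
      exact Z_img_zero A φ
    | insert a s ha ih =>
      rw [Finset.sum_insert ha, Finset.sum_insert ha]
      exact Z_img_add A (h a) ih
  exact h1 Finset.univ

private theorem g27c_ratio {L L' : Type u} [Field L] [Algebra K L] [Field L'] [Algebra K L']
    {φ : L →ₐ[K] L'} {P : A.Pts L} {P' : A.Pts L'} (h : A.Img φ P P') (i j : Fin (N + 1)) :
    A.x P' i / A.x P' j = φ (A.x P i / A.x P j) := by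
  obtain ⟨c, hc, h1⟩ := h
  rw [map_div₀, h1, h1, mul_div_mul_left _ _ hc]

theorem exists_center [IsGalois F Ω] (k₀ : IntermediateField K F)
    (hk₀ : ∀ a : F, IsAlgebraic k₀ a → a ∈ k₀) (P : A.Pts Ω)
    (hP : ∀ i j, IsAlgebraic k₀ (A.x P i / A.x P j)) :
    ∃ (m : ℕ) (p : Fin m → A.Pts Ω) (w : A.Pts k₀), 0 < m ∧
      (∀ l, ∃ τ : Ω ≃ₐ[F] Ω, A.Img ((τ : Ω →ₐ[F] Ω).restrictScalars K) P (p l)) ∧
      A.Img ((IsScalarTower.toAlgHom K F Ω).comp k₀.val) w (∑ l, p l) := by
  obtain ⟨m, p, hm, hp, hτ⟩ := exists_average (F := F) A P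
  have h1 : ∀ l, ∃ P₀ : A.Pts (algebraicClosure k₀ Ω),
      A.Img ((algebraicClosure k₀ Ω).val.restrictScalars K) P₀ (p l) := by
    intro l
    refine exists_pt_sub A _ (p l) fun i j => ?_
    obtain ⟨τ, ht⟩ := hp l
    have h2 : IsAlgebraic k₀ (A.x (p l) i / A.x (p l) j) := by
      rw [g27c_ratio A ht]
      exact (hP i j).algHom ((τ : Ω →ₐ[F] Ω).restrictScalars k₀)
    exact ⟨⟨_, mem_algebraicClosure_iff.2 h2⟩, rfl⟩
  choose P₀ hP₀ using h1
  have h3 := g27c_img_sum A _ P₀ p hP₀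
  have h4 : ∀ i j, A.x (∑ l, p l) i / A.x (∑ l, p l) j ∈
      ((IsScalarTower.toAlgHom K F Ω).comp k₀.val).range := by
    intro i j
    have h5 : IsAlgebraic k₀ (A.x (∑ l, p l) i / A.x (∑ l, p l) j) := by
      rw [g27c_ratio A h3]
      exact mem_algebraicClosure_iff.1 (A.x (∑ l, P₀ l) i / A.x (∑ l, P₀ l) j).2
    have h6 : A.x (∑ l, p l) i / A.x (∑ l, p l) j ∈ Set.range (algebraMap F Ω) := by
      rw [InfiniteGalois.mem_range_algebraMap_iff_fixed]
      intro τ
      exact (g27c_ratio A (hτ τ) i j).symm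
    obtain ⟨a, ha⟩ := h6
    have h7 : IsAlgebraic k₀ a := by
      rw [← ha] at h5
      exact (isAlgebraic_algebraMap_iff (FaithfulSMul.algebraMap_injective F Ω)).1 h5
    exact ⟨⟨a, hk₀ a h7⟩, ha⟩
  obtain ⟨w, hw⟩ := exists_pt_sub A ((IsScalarTower.toAlgHom K F Ω).comp k₀.val) _ h4
  exact ⟨m, p, w, hm, hp, hw⟩

end

end Pool.Agent.Lib.MP_17a322_nt.VA.G
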