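import Pool.Agent.Lib.MP_17a322_nt.VA.G15
import Pool.Agent.Lib.MP_17a322_nt.VA.ZDefs

/-!
VA, part G, job G28: auxiliary statements for the assembly.

Proofs.
`b₀_eq`: `A.x (0 : A.Pts K) = B.x (0 : B.Pts K)` (`(hB.inc K 0 = 0)` by `map_zero`, `IsSubAV.x_inc`), and `AV.b₀` is `Exists.choose` of `∃ a, A.x 0 a ≠ 0` (unfold `AV.b₀`): prove first: for `f g : Fin (N+1) → K`, `f = g`, and proofs of `∃ a, f a ≠ 0`, `∃ a, g a ≠ 0` the chosen elements are equal (`subst`, proof irrelevance).
`o₀_eq`, `oL_eq`, `dS_eq`, `dup_eq`, `ellv_eq` follow (`hB.S_eq`). `ell_inc`: `ellv_eq` and `x_inc`. `Tsp_sub`: `b₀_eq`, `oL_eq`.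
`Tsp_map`: let `M` be a field over `k`. `oL A M i = algebraMap K M (o₀ A i)`. For `g ∈ I` and `G = map (algebraMap K k) g`: `aeval (oL A M) (pderiv i G) = algebraMap K M (aeval (o₀ A) (pderiv i g))` (`pderiv_map`, `aeval_map_algebraMap`, `aeval_algebraMap_apply`). The set of the `G` in `I.map ..` with
`aeval (oL A M) G = 0` and `∑ i, aeval (oL A M) (pderiv i G) * algebraMap K M (τ i) = 0` contains the generators and is closed under sums and multiplication by polynomials `H` (Leibniz: `∂ (H G) = H ∂ G + G ∂ H`): `Submodule.span_induction`.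
`exists_lift_hom`: the ring homomorphism `algebraMap k Ω` is an isomorphism onto its range; compose (`RingHom.rangeRestrict`, `RingEquiv.ofBijective`), or define `φ c` by choice and check the axioms by injectivity.
`exists_fields`: `Ω := AlgebraicClosure F`, `k := algebraicClosure k₀ Ω` (an intermediate field; it is algebraically closed: `algebraicClosure.isAlgClosure`, `IsAlgClosure.isAlgClosed`), `Algebra K k`: `((algebraMap k₀ k).comp (algebraMap K k₀)).toAlgebra` or the instance; towers by `IsScalarTower.of_algebraMap_eq`. The last property is `mem_algebraicClosure_iff`.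
-/

universe u

namespace Pool.Agent.Lib.MP_17a322_nt.VA.G

open MvPolynomial

/-- The chosen elements of equal predicates are equal. -/
private theorem g28a_choose {α β : Type*} [Zero β] {f g : α → β} (h : f = g) (hf : ∃ a, f a ≠ 0)
    (hg : ∃ a, g a ≠ 0) : hf.choose = hg.choose := by
  subst h
  rfl

section

variable {K : Type u} [Field K] {N : ℕ} {B A : AV K N} (hB : IsSubAV B A)

include hB

private theorem g28a_x_zero : B.x (0 : B.Pts K) = A.x (0 : A.Pts K) := by
  have h1 : A.x (hB.inc K 0) = B.x (0 : B.Pts K) := hB.x_inc 0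
  rw [map_zero] at h1
  exact h1.symm

theorem b₀_eq : B.b₀ = A.b₀ :=
  g28a_choose (g28a_x_zero hB) _ _

theorem o₀_eq : o₀ B = o₀ A := by
  unfold o₀
  rw [g28a_x_zero hB, b₀_eq hB]

theorem oL_eq (R : Type u) [CommRing R] [Algebra K R] : oL B R = oL A R := by
  unfold oL
  rw [o₀_eq hB]

variable {L : Type u} [Field L] [Algebra K L]

private theorem g28a_dS (a b : Fin (N + 1)) (x v : Fin (N + 1) → L) :
    dS B a b x v = dS A a b x v := by
  unfold dS
  rw [hB.S_eq]

private theorem g28a_dup (x : Fin (N + 1) → L) : B.dup x = A.dup x := by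
  unfold AV.dup
  rw [hB.S_eq, b₀_eq hB]

private theorem g28a_ix (x : Fin (N + 1) → L) : ix B x = ix A x := by
  unfold ix
  rw [g28a_dup hB]

theorem ellv_eq (x v : Fin (N + 1) → L) : ellv B x v = ellv A x v := by
  unfold ellv
  rw [g28a_ix hB, g28a_dup hB, b₀_eq hB, oL_eq hB]
  funext b
  rw [g28a_dS hB, g28a_dS hB]

theorem ell_inc (D : Derivation ℤ L L) (P : B.Pts L) : ell A D (hB.inc L P) = ell B D P := by
  unfold ell
  rw [hB.x_inc, ellv_eq hB]

theorem Tsp_sub {k : Type u} [Field k] [Algebra K k] [Algebra k L]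
    (𝔟 : Ideal (MvPolynomial (Fin (N + 1)) k)) : Tsp B 𝔟 L = Tsp A 𝔟 L := by
  unfold Tsp
  rw [b₀_eq hB, oL_eq hB]

end

theorem Tsp_map {K : Type u} [Field K] {N : ℕ} (A : AV K N)
    {I : Ideal (MvPolynomial (Fin (N + 1)) K)} (h0 : Kl I (o₀ A)) {τ : Fin (N + 1) → K}
    (hτ : τ ∈ Tsp A I K) (k M : Type u) [Field k] [Algebra K k] [Field M] [Algebra K M]
    [Algebra k M] [IsScalarTower K k M] :
    (fun i => algebraMap K M (τ i)) ∈ Tsp A (I.map (map (algebraMap K k))) M := by
  obtain ⟨hτ0, hτ1⟩ := hτ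
  have hK : (oL A K : Fin (N + 1) → K) = o₀ A := rfl
  have hM : (oL A M : Fin (N + 1) → M) = algebraMap K M ∘ o₀ A := rfl
  have hval : ∀ g : MvPolynomial (Fin (N + 1)) K,
      aeval (oL A M) (map (algebraMap K k) g) = algebraMap K M (aeval (o₀ A) g) := by
    intro g
    rw [aeval_map_algebraMap, hM]
    exact aeval_algebraMap_apply (B := M) (o₀ A) g
  refine ⟨?_, ?_⟩
  · change algebraMap K M (τ A.b₀) = 0
    rw [hτ0, map_zero]
  · intro G hG
    suffices h : aeval (oL A M) G = 0 ∧
        ∑ i, aeval (oL A M) (pderiv i G) * algebraMap K M (τ i) = 0 from h.2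
    change G ∈ Submodule.span _ _ at hG
    induction hG using Submodule.span_induction with
    | mem G hG =>
      obtain ⟨g, hg, rfl⟩ := hG
      refine ⟨?_, ?_⟩
      · rw [hval, h0 g hg, map_zero]
      · have h1 := hτ1 g hg
        rw [hK] at h1
        have h2 := congrArg (algebraMap K M) h1
        rw [map_sum, map_zero] at h2
        rw [← h2]
        refine Finset.sum_congr rfl fun i _ => ?_
        rw [pderiv_map, hval, map_mul]
    | zero =>
      refine ⟨map_zero _, Finset.sum_eq_zero fun i _ => ?_⟩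
      rw [map_zero, map_zero, zero_mul]
    | add x y _ _ hx hy =>
      refine ⟨by rw [map_add, hx.1, hy.1, add_zero], ?_⟩
      rw [← add_zero (0 : M)]
      nth_rewrite 1 [← hx.2]
      rw [← hy.2, ← Finset.sum_add_distrib]
      refine Finset.sum_congr rfl fun i _ => ?_
      rw [map_add, map_add, add_mul]
    | smul a x _ hx =>
      rw [smul_eq_mul]
      refine ⟨by rw [map_mul, hx.1, mul_zero], ?_⟩
      have h3 : ∀ i, aeval (oL A M) (pderiv i (a * x)) * algebraMap K M (τ i) =
          aeval (oL A M) a * (aeval (oL A M) (pderiv i x) * algebraMap K M (τ i)) := by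
        intro i
        rw [pderiv_mul, map_add, map_mul, map_mul, hx.1, mul_zero, zero_add, mul_assoc]
      rw [Finset.sum_congr rfl fun i _ => h3 i, ← Finset.mul_sum, hx.2, mul_zero]

theorem exists_lift_hom {k Ω : Type u} [Field k] [Field Ω] [Algebra k Ω] (ψ : k →+* Ω)
    (h : ∀ c, ψ c ∈ (algebraMap k Ω).range) : ∃ φ : k →+* k, ∀ c, algebraMap k Ω (φ c) = ψ c := by
  choose f hf using h
  have hinj : Function.Injective (algebraMap k Ω) := (algebraMap k Ω).injective
  refine ⟨{ toFun := f
            map_one' := hinj (by rw [hf, map_one, map_one])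
            map_zero' := hinj (by rw [hf, map_zero, map_zero])
            map_mul' := fun x y => hinj (by rw [hf, map_mul, map_mul, hf, hf])
            map_add' := fun x y => hinj (by rw [hf, map_add, map_add, hf, hf]) }, hf⟩

private theorem g28c_aux {K F : Type u} [Field K] [Field F] [Algebra K F]
    (k₀ : IntermediateField K F) (Ω : Type u) [Field Ω] [Algebra F Ω] [Algebra K Ω]
    [IsScalarTower K F Ω] [IsAlgClosed Ω] :
    ∃ (k : Type u) (_ : Field k) (_ : IsAlgClosed k) (_ : Algebra K k) (_ : Algebra k Ω)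
      (_ : IsScalarTower K k Ω), ∀ z : Ω, z ∈ (algebraMap k Ω).range ↔ IsAlgebraic k₀ z := by
  have htow : IsScalarTower K k₀ Ω := IsScalarTower.of_algebraMap_eq fun c => by
    rw [IsScalarTower.algebraMap_apply K F Ω]
    rfl
  let _i : Algebra K (algebraicClosure k₀ Ω) :=
    ((algebraMap k₀ (algebraicClosure k₀ Ω)).comp (algebraMap K k₀)).toAlgebra
  refine ⟨algebraicClosure k₀ Ω, inferInstance,
    (algebraicClosure.isAlgClosure k₀ Ω).isAlgClosed, _i, inferInstance, ?_, ?_⟩
  · refine IsScalarTower.of_algebraMap_eq fun c => ?_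
    rw [IsScalarTower.algebraMap_apply K k₀ Ω]
    rfl
  · intro z
    rw [← mem_algebraicClosure_iff]
    constructor
    · rintro ⟨y, rfl⟩
      exact y.2
    · intro hz
      exact ⟨⟨z, hz⟩, rfl⟩

theorem exists_fields {K F : Type u} [Field K] [CharZero K] [Field F] [Algebra K F]
    (k₀ : IntermediateField K F) :
    ∃ (Ω k : Type u) (_ : Field Ω) (_ : Algebra F Ω) (_ : Algebra K Ω) (_ : IsScalarTower K F Ω)
      (_ : IsGalois F Ω) (_ : Field k) (_ : IsAlgClosed k) (_ : Algebra K k) (_ : Algebra k Ω)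
      (_ : IsScalarTower K k Ω), ∀ z : Ω, z ∈ (algebraMap k Ω).range ↔ IsAlgebraic k₀ z := by
  have hF : CharZero F := charZero_of_injective_algebraMap (algebraMap K F).injective
  obtain ⟨k, i1, i2, i3, i4, i5, h⟩ := g28c_aux k₀ (AlgebraicClosure F)
  exact ⟨AlgebraicClosure F, k, inferInstance, inferInstance, inferInstance, inferInstance,
    inferInstance, i1, i2, i3, i4, i5, h⟩

end Pool.Agent.Lib.MP_17a322_nt.VA.G
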