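import Pool.Agent.Lib.MP_17a322_nt.VA.G18
import Pool.Agent.Lib.MP_17a322_nt.VN.E19a

/-!
VA, part G, job G31: positive multiples of generic points are generic.

Proofs (complete).
`loc_eq_of_alg`. Suppose that `G ∈ loc k u`, `G ∉ loc k x`; passing to a component let `G` be homogeneous (`mem_loc_of_comp`, `comp_mem_loc`). Choose `j` with `u j ≠ 0`. `x j ≠ 0` (otherwise `X j ∈ loc k x ≤ loc k u`, `mem_loc_of_homog`). Let `u' i := u i / u j`, `x' i := x i / x j`. `g := aeval x' G ≠ 0`, `aeval u' G = 0` (`aeval_smul_of_homog`).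
(1) For every `h : MvPolynomial (Fin (N+1)) k` with `aeval x' h = 0` also `aeval u' h = 0`: `exists_homogenize` (G16) for `j`: `aeval x H = x j ^ d * aeval x' h = 0`, so `H ∈ loc k x ≤ loc k u`, and `0 = aeval u H = u j ^ d * aeval u' h`.
By `exists_basis_subset u'` (VN/E19a.lean) there is `T` such that `(u' t)_(t ∈ T)` is algebraically independent over `k` and all `u' i` are algebraic over `k(u'_T)`. So all ratios `u a / u b = u' a / u' b`, hence by `halg` all `x' i`, are algebraic over `k(u'_T)` (transitivity; `Z_alg_adjoin` in VA/Z3.lean is a helper for this), so `g` is.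
So any family of `T.card + 1` elements of `k(x')` is algebraically dependent over `k` (`indep_card_le`, VN/E19a.lean): in particular the family `x'_T` (indexed by `T`) together with `g`. [`Option T → L`.] So there is a polynomial `R ≠ 0` in the variables `Option T` over `k` with `R (g, x'_T) = 0` (`none ↦ g`, `some t ↦ x' t`). Divide by the highest power of `X none` that divides `R`
(`g ≠ 0`; choose `R` of minimal total degree): `R` is not divisible by `X none`, so `R₀ := R (0, X_T) ≠ 0`. Let `h := aeval (none ↦ G, some t ↦ X t) R : MvPolynomial (Fin (N+1)) k`. `aeval x' h = R (g, x'_T) = 0`, so by (1) `0 = aeval u' h = R (aeval u' G, u'_T) = R (0, u'_T) = R₀ (u'_T)`, a contradiction to the independence of `u'_T`.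
[`R ↦ R₀`: use `MvPolynomial.optionEquivLeft` (polynomial in `X none` over `MvPolynomial T k`), `Polynomial.X_dvd_iff`, `Polynomial.coeff_zero`.]
`loc_nsmul`: `u := A.x (m • y)`, `x := A.x y`. `loc k x = 𝔟 ≤ loc k u` by `GrpI` (`m • y` is a zero of `𝔟`: induction with `GrpI.add`, `GrpI.zero`). `halg`: let `E := IntermediateField.adjoin k (Set.range ..)` of the ratios of `u`; the point `m • y` is the image of a point over `E` (`exists_pt_sub` for `E.val.restrictScalars K`), so `Z_alg` (VA/Z2.lean) applies.
-/

universe u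

namespace Pool.Agent.Lib.MP_17a322_nt.VA.G

open MvPolynomial

open Pool.Agent.Lib.MP_17a322_nt.VN

private theorem g31a_mem {k L : Type u} [Field k] [Field L] [Algebra k L] (S : Set L) (a : L) :
    a ∈ (AlgebraicIndependent.matroid k L).closure S ↔
      IsAlgebraic (IntermediateField.adjoin k S) a := by
  rw [AlgebraicIndependent.matroid_closure_eq]
  exact IntermediateField.isAlgebraic_adjoin_iff.symm

private theorem g31a_trans {k L : Type u} [Field k] [Field L] [Algebra k L] {S S' : Set L} {a : L}
    (h : ∀ b ∈ S, IsAlgebraic (IntermediateField.adjoin k S') b)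
    (ha : IsAlgebraic (IntermediateField.adjoin k S) a) :
    IsAlgebraic (IntermediateField.adjoin k S') a := by
  rw [← g31a_mem] at ha ⊢
  refine (AlgebraicIndependent.matroid k L).closure_subset_closure_of_subset_closure
    (fun b hb => ?_) ha
  rw [g31a_mem]
  exact h b hb

private theorem g31a_poly {k L : Type u} [Field k] [Field L] [Algebra k L] {n : ℕ}
    {x : Fin n → L} (E : IntermediateField k L) (h : ∀ i, IsAlgebraic E (x i))
    (G : MvPolynomial (Fin n) k) : IsAlgebraic E (aeval x G) := by
  induction G using MvPolynomial.induction_on with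
  | C a =>
    rw [aeval_C]
    exact isAlgebraic_algebraMap (A := L) (algebraMap k E a)
  | add p q hp hq =>
    rw [map_add]
    exact hp.add hq
  | mul_X p i hp =>
    rw [map_mul, aeval_X]
    exact hp.mul (h i)

private theorem g31a_core {k L : Type u} [Field k] [Field L] [Algebra k L] {n : ℕ}
    {x u : Fin n → L} (h1 : ∀ h : MvPolynomial (Fin n) k, aeval x h = 0 → aeval u h = 0)
    (h2 : ∀ i, IsAlgebraic (IntermediateField.adjoin k (Set.range u)) (x i))
    (G : MvPolynomial (Fin n) k) (hG : aeval u G = 0) : aeval x G = 0 := by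
  classical
  by_contra hg
  obtain ⟨T, hT, halg⟩ := exists_basis_subset (K := k) u
  have h3 : ∀ i, IsAlgebraic (IntermediateField.adjoin k (u '' T)) (x i) := by
    intro i
    refine g31a_trans ?_ (h2 i)
    rintro _ ⟨i', rfl⟩
    exact halg i'
  have hxT : AlgebraicIndependent k (fun t : T => x t) := by
    rw [algebraicIndependent_iff]
    intro p hp
    have h4 := h1 (rename (Subtype.val : T → Fin n) p) (by
      rw [aeval_rename]
      exact hp)
    rw [aeval_rename] at h4
    exact (algebraicIndependent_iff.1 hT) p h4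
  have hgalg : IsAlgebraic (Algebra.adjoin k (Set.range fun t : T => x t)) (aeval x G) := by
    by_contra htr
    have h4 := (hxT.option_iff_transcendental (aeval x G)).2 htr
    have h5 := indep_card_le _ h4 (fun t : T => u t) (fun o => by
      have h6 : Set.range (fun t : T => u t) = u '' T := by
        ext a
        constructor
        · rintro ⟨t, rfl⟩
          exact ⟨t, t.2, rfl⟩
        · rintro ⟨t, ht, rfl⟩
          exact ⟨⟨t, ht⟩, rfl⟩
      rw [h6]
      cases o with
      | none => exact g31a_poly _ h3 G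
      | some t => exact h3 t)
    have h6 : Nat.card (Option T) = Nat.card T + 1 := Finite.card_option
    omega
  obtain ⟨p, hp0, hp⟩ := hgalg
  -- a polynomial over the polynomial ring
  obtain ⟨P, hP0, hP⟩ : ∃ P : Polynomial (MvPolynomial T k), P ≠ 0 ∧
      P.eval₂ (aeval (R := k) (fun t : T => x t)).toRingHom (aeval x G) = 0 := by
    refine ⟨p.map (hxT.aevalEquiv.symm : _ →+* MvPolynomial T k), ?_, ?_⟩
    · exact (Polynomial.map_ne_zero_iff hxT.aevalEquiv.symm.injective).2 hp0
    · rw [Polynomial.eval₂_map]
      have h4 : ((aeval (R := k) (fun t : T => x t)).toRingHom).comp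
          (hxT.aevalEquiv.symm : _ →+* MvPolynomial T k) =
            algebraMap (Algebra.adjoin k (Set.range fun t : T => x t)) L := by
        ext a
        obtain ⟨b, rfl⟩ := hxT.aevalEquiv.surjective a
        show aeval (fun t : T => x t) (hxT.aevalEquiv.symm (hxT.aevalEquiv b)) = _
        rw [AlgEquiv.symm_apply_apply]
        exact (hxT.algebraMap_aevalEquiv b).symm
      rw [h4]
      exact hp
  obtain ⟨q, hq1, hq2⟩ := Polynomial.exists_eq_pow_rootMultiplicity_mul_and_not_dvd P hP0 0
  rw [map_zero, sub_zero] at hq1 hq2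
  have hq0 : q.coeff 0 ≠ 0 := fun h => hq2 (Polynomial.X_dvd_iff.2 h)
  have hq : q.eval₂ (aeval (R := k) (fun t : T => x t)).toRingHom (aeval x G) = 0 := by
    rw [hq1, Polynomial.eval₂_mul, Polynomial.eval₂_pow, Polynomial.eval₂_X] at hP
    exact (mul_eq_zero.1 hP).resolve_left (pow_ne_zero _ hg)
  have hev : ∀ w : Fin n → L, aeval w (q.eval₂ (rename (Subtype.val : T → Fin n) :
      MvPolynomial T k →ₐ[k] MvPolynomial (Fin n) k).toRingHom G) =
        q.eval₂ (aeval (R := k) (fun t : T => w t)).toRingHom (aeval w G) := by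
    intro w
    have h4 := Polynomial.hom_eval₂ q (rename (Subtype.val : T → Fin n) :
      MvPolynomial T k →ₐ[k] MvPolynomial (Fin n) k).toRingHom
      (aeval w : MvPolynomial (Fin n) k →ₐ[k] L).toRingHom G
    have h5 : ((aeval w : MvPolynomial (Fin n) k →ₐ[k] L).toRingHom).comp
        (rename (Subtype.val : T → Fin n) :
          MvPolynomial T k →ₐ[k] MvPolynomial (Fin n) k).toRingHom =
            (aeval (R := k) (fun t : T => w t)).toRingHom := by
      ext b
      · exact aeval_rename _ _ _
      · exact aeval_rename _ _ _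
    rw [h5] at h4
    exact h4
  have h6 := h1 _ ((hev x).trans hq)
  rw [hev u, hG, Polynomial.eval₂_at_zero] at h6
  exact hq0 ((algebraicIndependent_iff.1 hT) _ h6)

theorem loc_eq_of_alg {k L : Type u} [Field k] [Field L] [Algebra k L] {N : ℕ}
    {x u : Fin (N + 1) → L} (hu : u ≠ 0) (h : loc k x ≤ loc k u)
    (halg : ∀ i j, IsAlgebraic (IntermediateField.adjoin k
      (Set.range fun p : Fin (N + 1) × Fin (N + 1) => u p.1 / u p.2)) (x i / x j)) :
    loc k u = loc k x := by
  obtain ⟨j, hj⟩ : ∃ j, u j ≠ 0 := by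
    by_contra hcon
    push Not at hcon
    exact hu (funext hcon)
  have hxj : x j ≠ 0 := by
    intro h0
    apply hj
    have h1 : (X j : MvPolynomial (Fin (N + 1)) k) ∈ loc k x := by
      rw [mem_loc_of_homog (isHomogeneous_X k j), aeval_X]
      exact h0
    have h2 := (mem_loc_of_homog (isHomogeneous_X k j)).1 (h h1)
    rwa [aeval_X] at h2
  have key : ∀ g : MvPolynomial (Fin (N + 1)) k, aeval (fun i => x i / x j) g = 0 →
      aeval (fun i => u i / u j) g = 0 := by
    intro g hg
    obtain ⟨d, H, hH, hev⟩ := exists_homogenize j g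
    have h1 := hev L x (fun i => x i / x j) (x j) (mul_div_cancel₀ _ hxj)
      (fun i => (mul_div_cancel₀ _ hxj).symm)
    rw [hg, mul_zero] at h1
    have h2 := (mem_loc_of_homog hH).1 (h ((mem_loc_of_homog hH).2 h1))
    have h3 := hev L u (fun i => u i / u j) (u j) (mul_div_cancel₀ _ hj)
      (fun i => (mul_div_cancel₀ _ hj).symm)
    rw [h2] at h3
    exact (mul_eq_zero.1 h3.symm).resolve_left (pow_ne_zero _ hj)
  have halg' : ∀ i, IsAlgebraic (IntermediateField.adjoin k (Set.range fun i => u i / u j))
      (x i / x j) := by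
    intro i
    refine g31a_trans ?_ (halg i j)
    rintro _ ⟨⟨a, b⟩, rfl⟩
    have h1 : u a / u b = (u a / u j) / (u b / u j) := by
      rw [div_div_div_cancel_right₀ hj]
    have h2 : u a / u b ∈ IntermediateField.adjoin k (Set.range fun i => u i / u j) := by
      rw [h1]
      exact div_mem (IntermediateField.subset_adjoin k _ ⟨a, rfl⟩)
        (IntermediateField.subset_adjoin k _ ⟨b, rfl⟩)
    exact isAlgebraic_algebraMap (A := L)
      (⟨u a / u b, h2⟩ : IntermediateField.adjoin k (Set.range fun i => u i / u j))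
  refine le_antisymm (fun G hG => mem_loc_of_comp fun d => ?_) h
  have hd := homogeneousComponent_isHomogeneous d G
  have h1 := (mem_loc_of_homog hd).1 (comp_mem_loc hG d)
  rw [mem_loc_of_homog hd]
  have h2 : aeval (fun i => u i / u j) (homogeneousComponent d G) = 0 := by
    have h3 := aeval_smul_of_homog hd u (u j)⁻¹
    rw [h1, mul_zero] at h3
    have h4 : (fun i => u i / u j) = fun i => (u j)⁻¹ * u i := by
      funext i
      rw [div_eq_inv_mul]
    rw [h4]
    exact h3
  have h3 := g31a_core key halg' _ h2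
  have h4 := aeval_smul_of_homog hd (fun i => x i / x j) (x j)
  have h5 : (fun i => x j * (x i / x j)) = x := by
    funext i
    exact mul_div_cancel₀ _ hxj
  rw [h5, h3, mul_zero] at h4
  exact h4

private theorem g31b_tower {K k L : Type u} [Field K] [Field k] [Field L] [Algebra K k]
    [Algebra K L] [Algebra k L] [IsScalarTower K k L] (E : IntermediateField k L) :
    IsScalarTower K E L :=
  IsScalarTower.of_algebraMap_eq fun x => by
    rw [IsScalarTower.algebraMap_apply K k E, ← IsScalarTower.algebraMap_apply k E L,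
      ← IsScalarTower.algebraMap_apply K k L]

theorem loc_nsmul {K : Type u} [Field K] {N : ℕ} (A : AV K N) {k : Type u} [Field k]
    [Algebra K k] {𝔟 : Ideal (MvPolynomial (Fin (N + 1)) k)} {L : Type u} [Field L] [Algebra K L]
    [Algebra k L] [IsScalarTower K k L] (h𝔟 : GrpI A 𝔟) {y : A.Pts L}
    (hy : loc k (A.x y) = 𝔟) {m : ℕ} (hm : 0 < m) : loc k (A.x (m • y)) = 𝔟 := by
  subst hy
  have hz : ∀ n : ℕ, ZP A (loc k (A.x y)) (n • y) := by
    intro n
    induction n with
    | zero => rw [zero_smul]; exact GrpI.zero A h𝔟 L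
    | succ n ih => rw [succ_nsmul]; exact GrpI.add A h𝔟 ih (le_refl _)
  refine loc_eq_of_alg (Z_x_ne A _) (hz m) ?_
  intro i j
  have hT := g31b_tower (K := K) (IntermediateField.adjoin k
      (Set.range fun p : Fin (N + 1) × Fin (N + 1) => A.x (m • y) p.1 / A.x (m • y) p.2))
  obtain ⟨Q, hQ⟩ := exists_pt_sub A (IsScalarTower.toAlgHom K (IntermediateField.adjoin k
      (Set.range fun p : Fin (N + 1) × Fin (N + 1) =>
        A.x (m • y) p.1 / A.x (m • y) p.2)) L) (m • y)
    (fun i j => ⟨⟨_, IntermediateField.subset_adjoin _ _ ⟨(i, j), rfl⟩⟩, rfl⟩)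
  exact Z_alg A y m hm.ne' Q hQ i j

end Pool.Agent.Lib.MP_17a322_nt.VA.G
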