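import Pool.Agent.Lib.MP_17a322_nt.VA.G22
import Pool.Agent.Lib.MP_17a322_nt.VA.G23
import Pool.Agent.Lib.MP_17a322_nt.VA.G25
import Pool.Agent.Lib.MP_17a322_nt.VA.G26
import Pool.Agent.Lib.MP_17a322_nt.VA.G27
import Pool.Agent.Lib.MP_17a322_nt.VA.G28
import Pool.Agent.Lib.MP_17a322_nt.VA.G31

/-!
VA, part G: the closed subgroup of a point over `F / k₀`.
-/

universe u

namespace Pool.Agent.Lib.MP_17a322_nt.VA.G

open MvPolynomial
open Pool.Agent.Lib.MP_17a322_nt.VN

section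

variable {K : Type u} [Field K] {N : ℕ} (A : AV K N)

/-- Components and maps of the coefficients. -/
theorem comp_map {k k' : Type*} [CommSemiring k] [CommSemiring k'] {n : ℕ} (φ : k →+* k')
    (G : MvPolynomial (Fin n) k) (d : ℕ) :
    homogeneousComponent d (map φ G) = map φ (homogeneousComponent d G) := by
  ext m
  rw [coeff_map, coeff_homogeneousComponent, coeff_homogeneousComponent, coeff_map]
  split_ifs
  · rfl
  · rw [map_zero]

/-- The automorphisms of `Ω` over `F`, on `k`, preserve the ideal of a point over `F`. -/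
theorem map_mem_loc_of_fixed {F Ω k : Type u} [Field F] [Field Ω] [Field k] [Algebra K F]
    [Algebra F Ω] [Algebra K Ω] [IsScalarTower K F Ω] [Algebra K k] [Algebra k Ω]
    {s : A.Pts F} {s' : A.Pts Ω} (hs : A.Img (IsScalarTower.toAlgHom K F Ω) s s') {φ : k →+* k}
    {τ : Ω ≃ₐ[F] Ω} (hφ : ∀ c, algebraMap k Ω (φ c) = τ (algebraMap k Ω c))
    {G : MvPolynomial (Fin (N + 1)) k} (hG : G ∈ loc k (A.x s')) :
    map φ G ∈ loc k (A.x s') := by
  obtain ⟨c, hc, h⟩ := hs
  have h1 : loc k (A.x s') = loc k (fun i => algebraMap F Ω (A.x s i)) := by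
    have h2 : (fun i => algebraMap F Ω (A.x s i)) = fun i => c * A.x s' i := by
      funext i
      exact h i
    rw [h2, loc_smul hc]
  rw [h1] at hG ⊢
  rw [mem_loc] at hG ⊢
  intro d
  rw [comp_map]
  have h3 : ∀ H : MvPolynomial (Fin (N + 1)) k,
      aeval (fun i => algebraMap F Ω (A.x s i)) (map φ H) =
        τ (aeval (fun i => algebraMap F Ω (A.x s i)) H) := by
    intro H
    induction H using MvPolynomial.induction_on with
    | C a => rw [map_C, aeval_C, aeval_C, hφ]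
    | add p q hp hq => rw [map_add, map_add, hp, hq, map_add, map_add]
    | mul_X p i hp =>
      rw [map_mul, map_mul, hp, map_X, aeval_X, map_mul, aeval_X, map_mul, AlgEquiv.commutes]
  rw [h3, hG d, map_zero]

/-- `f` vanishes at the image of a point if it vanishes at the point. -/
theorem vanish_img {L L' : Type u} [Field L] [Algebra K L] [Field L'] [Algebra K L']
    (φ : L →ₐ[K] L') {P : A.Pts L} {P' : A.Pts L'} (h : A.Img φ P P')
    {f : MvPolynomial (Fin (N + 1)) K} : f ∈ loc K (A.x P') ↔ f ∈ loc K (A.x P) := by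
  obtain ⟨c, hc, h⟩ := h
  have h1 : (fun i => φ (A.x P i)) = fun i => c * A.x P' i := funext h
  rw [← loc_map φ (x := A.x P), h1, loc_smul hc]

theorem img_sum {L L' : Type u} [Field L] [Algebra K L] [Field L'] [Algebra K L']
    (φ : L →ₐ[K] L') {m : ℕ} {P : Fin m → A.Pts L} {P' : Fin m → A.Pts L'}
    (h : ∀ l, A.Img φ (P l) (P' l)) : A.Img φ (∑ l, P l) (∑ l, P' l) := by
  classical
  have h1 : ∀ s : Finset (Fin m), A.Img φ (∑ l ∈ s, P l) (∑ l ∈ s, P' l) := by
    intro s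
    induction s using Finset.induction_on with
    | empty =>
      rw [Finset.sum_empty, Finset.sum_empty]
      exact Z_img_zero A φ
    | insert a s ha ih =>
      rw [Finset.sum_insert ha, Finset.sum_insert ha]
      exact Z_img_add A (h a) ih
  exact h1 Finset.univ

theorem img_comp {L L' L'' : Type u} [Field L] [Algebra K L] [Field L'] [Algebra K L']
    [Field L''] [Algebra K L''] (φ : L →ₐ[K] L') (ψ : L' →ₐ[K] L'') {P : A.Pts L}
    {P' : A.Pts L'} {P'' : A.Pts L''} (h : A.Img φ P P') (h' : A.Img ψ P' P'') :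
    A.Img (ψ.comp φ) P P'' := by
  obtain ⟨c, hc, h⟩ := h
  obtain ⟨c', hc', h'⟩ := h'
  refine ⟨ψ c * c', mul_ne_zero ((map_ne_zero ψ).2 hc) hc', fun i => ?_⟩
  rw [AlgHom.comp_apply, h i, map_mul, h' i, mul_assoc]

theorem ZP_map_iff {k : Type u} [Field k] [Algebra K k] {J : Ideal (MvPolynomial (Fin (N + 1)) K)}
    {L : Type u} [Field L] [Algebra K L] [Algebra k L] [IsScalarTower K k L] (P : A.Pts L) :
    ZP A (J.map (map (algebraMap K k))) P ↔ ∀ f ∈ J, f ∈ loc K (A.x P) := by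
  have h1 : ∀ f : MvPolynomial (Fin (N + 1)) K,
      map (algebraMap K k) f ∈ loc k (A.x P) ↔ f ∈ loc K (A.x P) := fun f => map_mem_loc
  show J.map (map (algebraMap K k)) ≤ loc k (A.x P) ↔ _
  rw [Ideal.map_le_iff_le_comap]
  constructor
  · intro h f hf
    rw [← h1]
    exact h hf
  · intro h f hf
    show map (algebraMap K k) f ∈ loc k (A.x P)
    rw [h1]
    exact h f hf

theorem sup_le_iff_mem {R : Type*} [CommRing R] {I J : Ideal R} {S : Ideal R} :
    (∀ f ∈ J ⊔ I, f ∈ S) ↔ (∀ f ∈ I, f ∈ S) ∧ ∀ f ∈ J, f ∈ S := by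
  constructor
  · intro h
    exact ⟨fun f hf => h f (Ideal.mem_sup_right hf), fun f hf => h f (Ideal.mem_sup_left hf)⟩
  · rintro ⟨h1, h2⟩
    have h3 : J ⊔ I ≤ S := sup_le h2 h1
    exact h3

end

/-- The geometric theorem, with derivations. -/
theorem geomD {K : Type u} [Field K] [CharZero K] {N : ℕ} (A : AV K N) {F : Type u} [Field F]
    [Algebra K F] (k₀ : IntermediateField K F)
    (hK : ∀ a : F, IsAlgebraic K a → a ∈ (algebraMap K F).range)
    (hk₀ : ∀ a : F, IsAlgebraic k₀ a → a ∈ k₀) (s : A.Pts F) :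
    ∃ (B : AV K N) (hB : IsSubAV B A) (δ : ℕ) (w : A.Pts k₀) (w' : A.Pts F) (b : B.Pts F),
      0 < δ ∧ A.Img k₀.val w w' ∧ δ • s = w' + hB.inc F b ∧ MinSub B b ∧ NoRatD B k₀ b := by
  classical
  obtain ⟨Ω, k, _, _, _, _, _, _, _, _, _, _, hk⟩ := exists_fields k₀
  have : CharZero F := charZero_of_injective_algebraMap (algebraMap K F).injective
  have : CharZero Ω := charZero_of_injective_algebraMap (algebraMap K Ω).injective
  have : CharZero k := charZero_of_injective_algebraMap (algebraMap K k).injective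
  -- the point over `Ω`
  obtain ⟨s', hs'⟩ := Z_exists_img A (IsScalarTower.toAlgHom K F Ω) s
  -- the group
  obtain ⟨Γ, hΓdef⟩ : ∃ Γ : Set (k →+* k), Γ = {φ | ∃ τ : Ω ≃ₐ[F] Ω, ∀ c,
    algebraMap k Ω (φ c) = τ (algebraMap k Ω c)} := ⟨_, rfl⟩
  have hτk : ∀ (τ : Ω ≃ₐ[F] Ω) (c : k), τ (algebraMap k Ω c) ∈ (algebraMap k Ω).range := by
    intro τ c
    rw [hk]
    have h1 : IsAlgebraic k₀ (algebraMap k Ω c) := (hk _).1 ⟨c, rfl⟩
    have h2 := h1.algHom ((τ : Ω →ₐ[F] Ω).restrictScalars k₀)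
    exact h2
  have hΓex : ∀ τ : Ω ≃ₐ[F] Ω, ∃ φ ∈ Γ, ∀ c, algebraMap k Ω (φ c) = τ (algebraMap k Ω c) := by
    intro τ
    obtain ⟨φ, hφ⟩ := exists_lift_hom (k := k) (Ω := Ω)
      ((τ : Ω →+* Ω).comp (algebraMap k Ω)) (hτk τ)
    refine ⟨φ, ?_, hφ⟩
    rw [hΓdef]
    exact ⟨τ, hφ⟩
  have hΓ : ∀ φ ∈ Γ, ∀ c : K, φ (algebraMap K k c) = algebraMap K k c := by
    intro φ hφ c
    rw [hΓdef] at hφ
    obtain ⟨τ, hτ⟩ := hφ
    refine (algebraMap k Ω).injective ?_
    rw [hτ, ← IsScalarTower.algebraMap_apply, IsScalarTower.algebraMap_apply K F Ω,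
      AlgEquiv.commutes]
  have hΓs : ∀ φ ∈ Γ, ∀ G ∈ loc k (A.x s'), map φ G ∈ loc k (A.x s') := by
    intro φ hφ G hG
    rw [hΓdef] at hφ
    obtain ⟨τ, hτ⟩ := hφ
    exact map_mem_loc_of_fixed A hs' hτ hG
  -- the subgroup
  obtain ⟨M, _, _, _, _, y, hgrp, hst, hdiff, hker, hmin⟩ := exists_grp A s' Γ hΓ hΓs
  have : CharZero M := charZero_of_injective_algebraMap (algebraMap K M).injective
  obtain ⟨𝔟, h𝔟⟩ : ∃ 𝔟, 𝔟 = loc k (A.x y) := ⟨_, rfl⟩
  have hhom : ∀ G ∈ 𝔟, ∀ d, homogeneousComponent d G ∈ 𝔟 := by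
    rw [h𝔟]
    exact fun G hG d => comp_mem_loc hG d
  rw [← h𝔟] at hgrp hst hdiff
  have hprime : 𝔟.IsPrime := by
    rw [h𝔟]
    exact loc_isPrime
  have hfix : ∀ c : k, (∀ φ ∈ Γ, φ c = c) →
      (∀ δ : Derivation ℤ k k, (∀ c : K, δ (algebraMap K k c) = 0) → δ c = 0) →
        c ∈ (algebraMap K k).range := by
    intro c h1 h2
    have h3 : IsAlgebraic K c := isAlgebraic_of_derivation c h2
    have h4 : algebraMap k Ω c ∈ Set.range (algebraMap F Ω) := by
      rw [InfiniteGalois.mem_range_algebraMap_iff_fixed]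
      intro τ
      obtain ⟨φ, hφ, hφ'⟩ := hΓex τ
      rw [← hφ', h1 φ hφ]
    obtain ⟨a, ha⟩ := h4
    have h5 : IsAlgebraic K a := by
      have h6 : IsAlgebraic K (algebraMap F Ω a) := by
        rw [ha]
        exact h3.algHom (IsScalarTower.toAlgHom K k Ω)
      exact (isAlgebraic_algebraMap_iff (algebraMap F Ω).injective).1 h6
    obtain ⟨a', rfl⟩ := hK a h5
    refine ⟨a', (algebraMap k Ω).injective ?_⟩
    rw [← ha, ← IsScalarTower.algebraMap_apply, ← IsScalarTower.algebraMap_apply]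
  have hdesc := descend 𝔟 Γ hst (fun δ hδ G hG => dc_mem A hgrp h𝔟.symm δ hδ hG) hfix
  have hAI : ∀ f ∈ A.I, ∀ (L : Type u) [Field L] [Algebra K L] (P : A.Pts L),
      f ∈ loc K (A.x P) := by
    intro f hf L _ _ P
    rw [mem_loc]
    intro d
    exact Z_x_isPt A P _ (A.homog f hf d)
  obtain ⟨B, hB, hBI⟩ := exists_sub A hgrp hhom hdesc (fun f hf => by
    rw [h𝔟, map_mem_loc]
    exact hAI f hf M y)
  have hmem : ∀ {f : MvPolynomial (Fin (N + 1)) K}, f ∈ B.I ↔ map (algebraMap K k) f ∈ 𝔟 := by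
    intro f
    rw [hBI]
    rfl
  -- the points of `B`
  have hV0 := fun (L : Type u) [Field L] [Algebra K L] =>
    zero_sub_mem A hgrp hhom hdesc (L := L)
  have hBloc : ∀ {L : Type u} [Field L] [Algebra K L] (P : A.Pts L),
      (∀ f ∈ B.I, f ∈ loc K (A.x P)) ↔ ∀ f ∈ B.I, aeval (A.x P) f = 0 := by
    intro L _ _ P
    refine ⟨fun h f hf => aeval_of_mem_loc (h f hf), fun h f hf => mem_loc.2 fun d => ?_⟩
    exact h _ (B.homog f hf d)
  have hBsub : ∀ {L : Type u} [Field L] [Algebra K L] {P Q : A.Pts L},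
      (∀ f ∈ B.I, f ∈ loc K (A.x P)) → (∀ f ∈ B.I, f ∈ loc K (A.x Q)) →
        ∀ f ∈ B.I, f ∈ loc K (A.x (P - Q)) := by
    intro L _ _ P Q hP hQ
    rw [hBloc] at hP hQ ⊢
    rw [hBI] at hP hQ ⊢
    exact (hV0 L).2 P Q hP hQ
  have hBzero : ∀ (L : Type u) [Field L] [Algebra K L],
      ∀ f ∈ B.I, f ∈ loc K (A.x (0 : A.Pts L)) := by
    intro L _ _
    rw [hBloc, hBI]
    exact (hV0 L).1
  have hBadd : ∀ {L : Type u} [Field L] [Algebra K L] {P Q : A.Pts L},
      (∀ f ∈ B.I, f ∈ loc K (A.x P)) → (∀ f ∈ B.I, f ∈ loc K (A.x Q)) →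
        ∀ f ∈ B.I, f ∈ loc K (A.x (P + Q)) := by
    intro L _ _ P Q hP hQ
    have h1 := hBsub (hBzero L) hQ
    have h2 := hBsub hP h1
    rw [zero_sub, sub_neg_eq_add] at h2
    exact h2
  -- the centre
  obtain ⟨w₀, hw₀⟩ := exists_point A (k := k) s'
  obtain ⟨W, hW⟩ := Z_exists_img A (IsScalarTower.toAlgHom K k Ω) w₀
  have hWalg : ∀ i j, IsAlgebraic k₀ (A.x W i / A.x W j) := by
    intro i j
    obtain ⟨c, hc, h⟩ := hW
    rw [← hk]
    refine ⟨A.x w₀ i / A.x w₀ j, ?_⟩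
    have h1 : algebraMap k Ω (A.x w₀ i) = c * A.x W i := h i
    have h2 : algebraMap k Ω (A.x w₀ j) = c * A.x W j := h j
    rw [map_div₀, h1, h2, mul_div_mul_left _ _ hc]
  obtain ⟨m, p, w, hm, hp, hw⟩ := exists_center A k₀ hk₀ W hWalg
  obtain ⟨w', hw'⟩ := Z_exists_img A k₀.val w
  have hw'Ω : A.Img (IsScalarTower.toAlgHom K F Ω) w' (∑ l, p l) := by
    obtain ⟨z, hz⟩ := Z_exists_img A (IsScalarTower.toAlgHom K F Ω) w'
    have h1 := img_comp A _ _ hw' hz
    have h2 : z = ∑ l, p l := Z_img_unique A h1 hw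
    rw [← h2]
    exact hz
  -- the point `b`
  have hW' : ZP A (loc k (A.x s')) W := by
    have h1 : loc k (A.x W) = loc k (A.x w₀) :=
      loc_img A (Algebra.ofId k Ω) (P := w₀) (P' := W) hW
    show loc k (A.x s') ≤ loc k (A.x W)
    rw [h1]
    exact hw₀
  have hsW : ∀ f ∈ B.I, f ∈ loc K (A.x (s' - W)) := by
    intro f hf
    have h1 := hdiff Ω s' W le_rfl hW' (hmem.1 hf)
    rwa [map_mem_loc] at h1
  have hsτ : ∀ τ : Ω ≃ₐ[F] Ω, A.Img ((τ : Ω →ₐ[F] Ω).restrictScalars K) s' s' := by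
    intro τ
    obtain ⟨c, hc, h⟩ := hs'
    refine ⟨(τ c)⁻¹ * c, mul_ne_zero (inv_ne_zero ((map_ne_zero τ).2 hc)) hc, fun i => ?_⟩
    have h1 : algebraMap F Ω (A.x s i) = c * A.x s' i := h i
    have h2 : τ (algebraMap F Ω (A.x s i)) = algebraMap F Ω (A.x s i) := τ.commutes _
    rw [h1, map_mul] at h2
    have h3 : τ c ≠ 0 := (map_ne_zero τ).2 hc
    show τ (A.x s' i) = (τ c)⁻¹ * c * A.x s' i
    rw [mul_assoc, ← h2, ← mul_assoc, inv_mul_cancel₀ h3, one_mul]
  have hsp : ∀ l, ∀ f ∈ B.I, f ∈ loc K (A.x (s' - p l)) := by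
    intro l f hf
    obtain ⟨τ, hτ⟩ := hp l
    have h1 := Z_img_sub A (hsτ τ) hτ
    exact (vanish_img A _ h1).2 (hsW f hf)
  have hsum : ∀ t : Finset (Fin m), ∀ f ∈ B.I, f ∈ loc K (A.x (∑ l ∈ t, (s' - p l))) := by
    intro t
    induction t using Finset.induction_on with
    | empty =>
      rw [Finset.sum_empty]
      exact hBzero Ω
    | insert a t ha ih =>
      rw [Finset.sum_insert ha]
      exact hBadd (hsp a) ih
  have hbF : ∀ f ∈ B.I, f ∈ loc K (A.x (m • s - w')) := by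
    intro f hf
    have h1 : A.Img (IsScalarTower.toAlgHom K F Ω) (m • s - w') (m • s' - ∑ l, p l) :=
      Z_img_sub A (Z_img_nsmul A hs' m) hw'Ω
    rw [← vanish_img A _ h1]
    have h2 : m • s' - ∑ l, p l = ∑ l, (s' - p l) := by
      rw [Finset.sum_sub_distrib, Finset.sum_const, Finset.card_univ, Fintype.card_fin]
    rw [h2]
    exact hsum Finset.univ f hf
  have hex : ∀ {L : Type u} [Field L] [Algebra K L] (P : A.Pts L),
      (∀ f ∈ B.I, f ∈ loc K (A.x P)) → ∃ P' : B.Pts L, hB.inc L P' = P := by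
    intro L _ _ P hP
    exact ⟨⟨P.1, (hBloc P).1 hP⟩, Subtype.ext rfl⟩
  obtain ⟨b, hb⟩ := hex _ hbF
  refine ⟨B, hB, m, w, w', b, hm, hw', ?_, ?_, ?_⟩
  · rw [hb]
    abel
  · -- minimality
    intro J hJhom hJ hJb
    obtain ⟨𝔠, h𝔠⟩ : ∃ 𝔠 : Ideal (MvPolynomial (Fin (N + 1)) k), 𝔠 =
      (J ⊔ B.I).map (map (algebraMap K k)) := ⟨_, rfl⟩
    have hc1 : ∀ {L' : Type u} [Field L'] [Algebra K L'] [Algebra k L'] [IsScalarTower K k L']
        (P : A.Pts L'), ZP A 𝔠 P ↔
          (∀ f ∈ B.I, f ∈ loc K (A.x P)) ∧ ∀ f ∈ J, f ∈ loc K (A.x P) := by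
      intro L' _ _ _ _ P
      rw [h𝔠, ZP_map_iff, sup_le_iff_mem]
    have hJloc : ∀ {L : Type u} [Field L] [Algebra K L] (P : A.Pts L),
        (∀ f ∈ J, f ∈ loc K (A.x P)) ↔ ∀ f ∈ J, aeval (A.x P) f = 0 := by
      intro L _ _ P
      refine ⟨fun h f hf => aeval_of_mem_loc (h f hf), fun h f hf => mem_loc.2 fun d => ?_⟩
      exact h _ (hJhom f hf d)
    have hc2 : ∀ {L' : Type u} [Field L'] [Algebra K L'] [Algebra k L'] [IsScalarTower K k L']
        {P Q : A.Pts L'}, ZP A 𝔠 P → ZP A 𝔠 Q → ZP A 𝔠 (P - Q) := by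
      intro L' _ _ _ _ P Q hP hQ
      rw [hc1] at hP hQ ⊢
      refine ⟨hBsub hP.1 hQ.1, ?_⟩
      obtain ⟨P', rfl⟩ := hex P hP.1
      obtain ⟨Q', rfl⟩ := hex Q hQ.1
      have e1 : ∀ f ∈ J, aeval (B.x P') f = 0 := by
        intro f hf
        rw [← hB.x_inc P']
        exact aeval_of_mem_loc (hP.2 f hf)
      have e2 : ∀ f ∈ J, aeval (B.x Q') f = 0 := by
        intro f hf
        rw [← hB.x_inc Q']
        exact aeval_of_mem_loc (hQ.2 f hf)
      have e3 := hJ L' P' Q' e1 e2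
      rw [← map_sub, hJloc]
      intro f hf
      rw [hB.x_inc (P' - Q')]
      exact e3 f hf
    -- the point `b` over `Ω`
    obtain ⟨bΩ, hbΩ⟩ := Z_exists_img A (IsScalarTower.toAlgHom K F Ω) (hB.inc F b)
    have hcb : ZP A 𝔠 bΩ := by
      rw [hc1]
      constructor
      · intro f hf
        rw [vanish_img A _ hbΩ, hb]
        exact hbF f hf
      · intro f hf
        rw [vanish_img A _ hbΩ]
        revert f hf
        rw [hJloc]
        intro f hf
        rw [hB.x_inc b]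
        exact hJb f hf
    have hms : m • s' = (∑ l, p l) + bΩ := by
      have h1 : A.Img (IsScalarTower.toAlgHom K F Ω) (m • s) (m • s') := Z_img_nsmul A hs' m
      have h2 : A.Img (IsScalarTower.toAlgHom K F Ω) (w' + hB.inc F b) ((∑ l, p l) + bΩ) :=
        Z_img_add A hw'Ω hbΩ
      have h3 : m • s = w' + hB.inc F b := by
        rw [hb]
        abel
      rw [← h3] at h2
      exact Z_img_unique A h1 h2
    -- the centre comes from `k`
    obtain ⟨wk, hwk⟩ : ∃ wk : A.Pts k, A.Img (IsScalarTower.toAlgHom K k Ω) wk (∑ l, p l) := by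
      refine exists_pt_sub A _ _ fun i j => ?_
      obtain ⟨c, hc, h⟩ := hw
      have h1 : ∀ i, algebraMap k₀ Ω (A.x w i) = c * A.x (∑ l, p l) i := h
      have h2 : A.x (∑ l, p l) i / A.x (∑ l, p l) j =
          algebraMap k₀ Ω (A.x w i / A.x w j) := by
        rw [map_div₀, h1, h1, mul_div_mul_left _ _ hc]
      obtain ⟨c', hc'⟩ := (hk _).2 (isAlgebraic_algebraMap (R := k₀) (A := Ω)
        (A.x w i / A.x w j))
      rw [h2, ← hc']
      exact ⟨c', rfl⟩
    have hcy : ZP A 𝔠 (m • y) := by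
      refine hmin 𝔠 m (fun L' _ _ _ _ P Q hP hQ => hc2 hP hQ) ?_
      intro L' _ _ _ _ ι₁ ι₂ P₁ P₂ hP₁ hP₂
      obtain ⟨c, hc⟩ := Z_exists_img A (IsScalarTower.toAlgHom K k L') wk
      have hcc : ∀ ι : Ω →ₐ[k] L', A.Img (ι.restrictScalars K) (∑ l, p l) c := by
        intro ι
        obtain ⟨z, hz⟩ := Z_exists_img A (ι.restrictScalars K) (∑ l, p l)
        have h1 := img_comp A _ _ hwk hz
        have h2 : (ι.restrictScalars K).comp (IsScalarTower.toAlgHom K k Ω) =
            IsScalarTower.toAlgHom K k L' := by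
          ext a
          exact ι.commutes a
        rw [h2] at h1
        rw [Z_img_unique A hc h1]
        exact hz
      obtain ⟨b₁, hb₁⟩ := Z_exists_img A (ι₁.restrictScalars K) bΩ
      obtain ⟨b₂, hb₂⟩ := Z_exists_img A (ι₂.restrictScalars K) bΩ
      have e1 : m • P₁ = c + b₁ := by
        have h1 := Z_img_nsmul A hP₁ m
        rw [hms] at h1
        exact Z_img_unique A h1 (Z_img_add A (hcc ι₁) hb₁)
      have e2 : m • P₂ = c + b₂ := by
        have h1 := Z_img_nsmul A hP₂ m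
        rw [hms] at h1
        exact Z_img_unique A h1 (Z_img_add A (hcc ι₂) hb₂)
      have e3 : m • (P₁ - P₂) = b₁ - b₂ := by
        rw [smul_sub, e1, e2]
        abel
      rw [e3]
      exact hc2 (ZP_img A ι₁ hb₁ hcb) (ZP_img A ι₂ hb₂ hcb)
    intro f hf
    have h1 : map (algebraMap K k) f ∈ 𝔠 := by
      rw [h𝔠]
      exact Ideal.mem_map_of_mem _ (Ideal.mem_sup_left hf)
    have h2 := hcy h1
    rw [loc_nsmul A hgrp h𝔟.symm hm] at h2
    exact hmem.2 h2
  · -- no rational forms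
    intro χ hχ τ hτ
    have hKF : ∀ (D : Derivation ℤ F F), (∀ c : k₀, D c = 0) → ∀ c : K,
        D (algebraMap K F c) = 0 := fun D hD c => hD (algebraMap K k₀ c)
    have h1 : ∀ D : Derivation ℤ F F, (∀ c : k₀, D (algebraMap k₀ F c) = 0) →
        ∑ i, algebraMap k₀ F (χ i) * ell A D s i = 0 := by
      intro D hD
      have h2 := hχ D hD
      have h3 : ell B D b = m • ell A D s := by
        rw [← ell_inc hB, hb, ell_sub A (hKF D hD), ell_nsmul A (hKF D hD)]
        have h4 : ell A D w' = 0 := by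
          have h5 := ell_img A (L := k₀) (L' := F) k₀.val (D := 0) (D' := D) (hKF D hD)
            (fun a => by
              have : D (k₀.val a) = 0 := hD a
              rw [this]
              simp) hw'
          rw [h5]
          funext i
          have h6 : ell A (0 : Derivation ℤ k₀ k₀) w = 0 := ellv_zero A _
          rw [h6]
          simp
        rw [h4, sub_zero]
      rw [h3] at h2
      have h4 : ∑ i, (χ i : F) * (m • ell A D s) i = m * ∑ i, (χ i : F) * ell A D s i := by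
        rw [Finset.mul_sum]
        refine Finset.sum_congr rfl fun i _ => ?_
        rw [Pi.smul_apply, nsmul_eq_mul]
        ring
      rw [h4] at h2
      exact (mul_eq_zero.1 h2).resolve_left (Nat.cast_ne_zero.2 hm.ne')
    have h2 : ∀ D' : Derivation ℤ Ω Ω, (∀ c : k₀, D' (algebraMap k₀ Ω c) = 0) →
        ∑ i, algebraMap k₀ Ω (χ i) * ell A D' s' i = 0 := fun D' hD' =>
      ell_transfer_zero A (k := k₀) (IsScalarTower.toAlgHom k₀ F Ω) (P := s) (P' := s') hs' χ h1
        D' hD'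
    have h3 : ∀ i, ∃ c : k, algebraMap k Ω c = algebraMap k₀ Ω (χ i) := fun i =>
      (hk _).2 (isAlgebraic_algebraMap _)
    choose χ' hχ' using h3
    have h4 : ∀ D' : Derivation ℤ Ω Ω, (∀ c : k, D' (algebraMap k Ω c) = 0) →
        ∑ i, algebraMap k Ω (χ' i) * ell A D' s' i = 0 := by
      intro D' hD'
      simp_rw [hχ']
      refine h2 D' fun c => ?_
      obtain ⟨c', hc'⟩ := (hk _).2 (isAlgebraic_algebraMap (R := k₀) (A := Ω) c)
      rw [← hc']
      exact hD' c'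
    have h5 := hker χ' h4
    have h6 : (fun i => algebraMap K M (τ i)) ∈ Tsp A 𝔟 M := by
      rw [Tsp_sub hB] at hτ
      have h7 := Tsp_map A (I := B.I) (fun f hf => by
        have h8 := hBzero K f hf
        obtain ⟨c, hc, h9⟩ := zero_rep A K
        have h10 : A.x (0 : A.Pts K) = fun i => c * o₀ A i := funext h9
        rw [h10, loc_smul hc] at h8
        exact aeval_of_mem_loc h8) hτ k M
      have h8 : 𝔟 = B.I.map (map (algebraMap K k)) := by
        rw [hBI]
        exact hdesc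
      rw [h8]
      exact h7
    obtain ⟨D, hD, hDy⟩ := exists_der A hgrp h𝔟.symm h6
    have h7 := h5 D hD
    rw [hDy] at h7
    have h8 : algebraMap k M (∑ i, χ' i * algebraMap K k (τ i)) = 0 := by
      rw [map_sum, ← h7]
      refine Finset.sum_congr rfl fun i _ => ?_
      rw [map_mul, ← IsScalarTower.algebraMap_apply]
    have h9 : ∑ i, χ' i * algebraMap K k (τ i) = 0 := (map_eq_zero _).1 h8
    have h10 : algebraMap k₀ Ω (∑ i, χ i * algebraMap K k₀ (τ i)) = 0 := by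
      rw [← map_zero (algebraMap k Ω), ← h9, map_sum, map_sum]
      refine Finset.sum_congr rfl fun i _ => ?_
      rw [map_mul, map_mul, hχ', ← IsScalarTower.algebraMap_apply,
        ← IsScalarTower.algebraMap_apply]
    exact (map_eq_zero _).1 h10

end Pool.Agent.Lib.MP_17a322_nt.VA.G
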