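import Pool.Agent.Lib.MP_17a322_nt.VA.G29

/-!
VA, part G, job G32: frames and logarithmic derivatives, auxiliary statements.

Proofs (complete).
`exists_functional`: the `n + 1` vectors `o, t 0, .., t (n-1)` of `K^(N+1)` are linearly independent, so there is a linear map `Φ : (Fin (N+1) → K) →ₗ[K] (Fin (n+1) → K)` with `Φ (cons o t j) = Pi.single j 1` (extend to a basis, or `LinearIndependent.repr` and a left inverse: `LinearMap.exists_leftInverse_of_injective` for
the injective map `c ↦ ∑ j, c j • cons o t j`); `φ a i := Φ (Pi.single i 1) a.succ`, and `Φ v j = ∑ i, v i * Φ (Pi.single i 1) j` (`pi_eq_sum_univ'`).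
`frame_gamma`: `A.x 0 i = c * o i`, `o₀ A i = A.x 0 i / A.x 0 A.b₀`, so `o i = γ * o₀ A i`, `γ = A.x 0 A.b₀ / c`.
`frame_tan`: `o = γ • o₀ A`. The dual number vector `inl (o i) + inr (t a i)` satisfies `A.IsPt`. Let `α := t a A.b₀ / o A.b₀` (`o A.b₀ = γ ≠ 0`). `(γ⁻¹ (1 - ε α)) * (inl (o i) + inr (t a i)) = inl (o₀ A i) + inr (γ⁻¹ * (t a i - α * o i))` satisfies `A.IsPt` (`Z_isPt_smul`), so with
`τ i := γ⁻¹ * (t a i - α * o i)`: `τ A.b₀ = 0`, and by `aeval_dual` (G10; `oL A K = o₀ A` since `algebraMap K K` is the identity) `∑ i, aeval (oL A K) (pderiv i f) * τ i = 0` for `f ∈ A.I`. So `τ ∈ Tsp A A.I K`. And `t a i = γ * τ i + α * o i`.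
`isPt_ell`: by `ell_mem` (G15) for `𝔟 := A.I.map (map (algebraMap K K))` (`grpI_top A K`, `ZP_top`), `ell A D P ∈ Tsp A 𝔟 F`, and `Tsp_kl` (G15): the dual number vector `inl (oL A F i) + inr (ell A D P i)` is a zero of `𝔟`, which contains `map (algebraMap K K) f = f` (`MvPolynomial.map_id`, `Algebra.algebraMap_self`) for `f ∈ A.I`.
`ds_eq`. Let `x := A.x b`, `ℓ := ell A D b`, `γ` from `frame_gamma` (over `F`: `algebraMap K F γ`), `τ' i := ∑ a, ω a * algebraMap K F (t a i)`, so `γ ℓ = c' o + τ'` (hypothesis `h`). Choose `b₁` with `x b₁ ≠ 0`. For a vector `v : Fin (N+1) → F` let `T v i := aeval (Sum.elim (inl ∘ x) (fun i => inl (algebraMap K F (o i)) + inr (v i))) (A.S i b₁) : DualNumber F`.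
By `ell_inv` (G14) with `b := b₁`: `u` with `u.fst ≠ 0`, `aeval (Sum.elim (inl ∘ x) (inl (oL) + inr ℓ)) (A.S i b₁) = u * (inl (x i) + inr (D (x i)))`. Multiply by `(inl γ) ^ 2` (`A.S_smul` with `c = 1`, `c' = inl γ`): `T (γ ℓ) i = u₁ * (inl (x i) + inr (D (x i)))`, `u₁.fst ≠ 0`. Since
`inl o + inr (c' o + τ') = (1 + ε c') * (inl o + inr τ')`, `T (γ ℓ) = (1 + ε c') ^ 2 * T τ'`; so `T τ' i = u₂ * (inl (x i) + inr (D (x i)))` with `u₂.fst ≠ 0`, a unit.
By `aeval_dual` `T v i = inl (W i) + inr (∂ v i)`, `W i = aeval (Sum.elim x o) (A.S i b₁)`, `∂ v i = ∑ j, aeval (Sum.elim x o) (pderiv (inr j) (A.S i b₁)) * v j`, linear in `v` (`Fintype.sum_sum_type`). The hypothesis `hM a b₁ k` is: `lf (nd.l k.succ) (T (t a)) = (inl (nd.s b k) + inr (M k a)) * lf (nd.l 0) (T (t a))`, whose `snd` is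
`lf (nd.l k.succ) (∂ (t a)) = nd.s b k * lf (nd.l 0) (∂ (t a)) + M k a * lf (nd.l 0) W` (`lf l (inl W + inr V) = inl (lf l W) + inr (lf l V)`, where `lf` on the left is over `DualNumber F`). Multiply by `ω a` and sum:
(1) `lf (nd.l k.succ) (∂ τ') = nd.s b k * lf (nd.l 0) (∂ τ') + (∑ a, M k a * ω a) * lf (nd.l 0) W`.
`W = u₂.fst • x`, and `lf (nd.l k.succ) x = nd.s b k * lf (nd.l 0) x` (definition of `nd.s`, `hl`), so (2) `lf (nd.l k.succ) W = nd.s b k * lf (nd.l 0) W`. (1) and (2) say `lf (nd.l k.succ) (T τ') = (inl (nd.s b k) + inr (∑ a, M k a * ω a)) * lf (nd.l 0) (T τ')`. Cancel the unit `u₂`: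
`lf (nd.l k.succ) (inl x + inr (D x)) = (..) * lf (nd.l 0) (inl x + inr (D x))`; `snd`: `lf (nd.l k.succ) (D x) = nd.s b k * lf (nd.l 0) (D x) + (∑ a, M k a * ω a) * lf (nd.l 0) x`. `D (lf l x) = lf l (D x)` (`D` kills `K`) and `D` of `lf (nd.l k.succ) x = nd.s b k * lf (nd.l 0) x` give `D (nd.s b k) * lf (nd.l 0) x =
(∑ a, M k a * ω a) * lf (nd.l 0) x`. Cancel `lf (nd.l 0) x ≠ 0`.
-/

universe u

namespace Pool.Agent.Lib.MP_17a322_nt.VA.G

open MvPolynomial

theorem exists_functional {K : Type u} [Field K] {N n : ℕ} {o : Fin (N + 1) → K}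
    {t : Fin n → Fin (N + 1) → K}
    (h : LinearIndependent K (Fin.cons (α := fun _ => Fin (N + 1) → K) o t)) :
    ∃ φ : Fin n → Fin (N + 1) → K, (∀ a, ∑ i, φ a i * o i = 0) ∧
      ∀ a b, ∑ i, φ a i * t b i = if a = b then 1 else 0 := by
  classical
  obtain ⟨v, hv⟩ : ∃ v : Fin (n + 1) → Fin (N + 1) → K,
      v = Fin.cons (α := fun _ => Fin (N + 1) → K) o t := ⟨_, rfl⟩
  have hv0 : v 0 = o := by
    rw [hv]
    rfl
  have hvs : ∀ b : Fin n, v b.succ = t b := by
    intro b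
    rw [hv]
    rfl
  rw [← hv] at h
  have hinj : Function.Injective (Fintype.linearCombination K v) :=
    linearIndependent_iff_injective_fintypeLinearCombination.1 h
  obtain ⟨Φ, hΦ⟩ := LinearMap.exists_leftInverse_of_injective (Fintype.linearCombination K v)
    (LinearMap.ker_eq_bot.2 hinj)
  have h1 : ∀ j, Φ (v j) = Pi.single j 1 := by
    intro j
    have h2 : Fintype.linearCombination K v (Pi.single j 1) = v j := by
      rw [Fintype.linearCombination_apply_single, one_smul]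
    rw [← h2]
    exact LinearMap.congr_fun hΦ (Pi.single j 1)
  have h3 : ∀ (w : Fin (N + 1) → K) (m : Fin (n + 1)),
      ∑ i, Φ (Pi.single i 1) m * w i = Φ w m := by
    intro w m
    have h4 : w = ∑ i, w i • (Pi.single i (1 : K) : Fin (N + 1) → K) := pi_eq_sum_univ' w
    conv_rhs => rw [h4, map_sum, Finset.sum_apply]
    refine Finset.sum_congr rfl fun i _ => ?_
    rw [map_smul, Pi.smul_apply, smul_eq_mul, mul_comm]
  refine ⟨fun a i => Φ (Pi.single i 1) a.succ, fun a => ?_, fun a b => ?_⟩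
  · rw [h3, ← hv0, h1, Pi.single_eq_of_ne (Fin.succ_ne_zero a)]
  · rw [h3, ← hvs, h1, Pi.single_apply]
    simp only [Fin.succ_inj]

section

variable {K : Type u} [Field K] {N : ℕ} {A : AV K N} {n : ℕ} {o : Fin (N + 1) → K}
  {t : Fin n → Fin (N + 1) → K} (ht : A.Frame o t)

include ht

theorem frame_gamma : ∃ γ : K, γ ≠ 0 ∧ ∀ i, o i = γ * o₀ A i := by
  obtain ⟨c, hc, h⟩ := ht.1
  have hb := A.b₀_spec
  refine ⟨A.x (0 : A.Pts K) A.b₀ / c, div_ne_zero hb hc, fun i => ?_⟩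
  have h1 : o₀ A i = A.x (0 : A.Pts K) i / A.x (0 : A.Pts K) A.b₀ := rfl
  rw [h1, h i]
  field_simp

theorem frame_tan (a : Fin n) : ∃ (γ α : K) (τ : Fin (N + 1) → K), τ ∈ Tsp A A.I K ∧ γ ≠ 0 ∧
    ∀ i, t a i = γ * τ i + α * o i := by
  obtain ⟨γ, hγ, hγo⟩ := frame_gamma ht
  have hob : o A.b₀ = γ := by rw [hγo, o_b₀, mul_one]
  refine ⟨γ, t a A.b₀ / γ, fun i => γ⁻¹ * (t a i - t a A.b₀ / γ * o i), ⟨?_, ?_⟩, hγ, fun i => ?_⟩
  · change γ⁻¹ * (t a A.b₀ - t a A.b₀ / γ * o A.b₀) = 0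
    rw [hob, div_mul_cancel₀ _ hγ, sub_self, mul_zero]
  · intro G hG
    have h1 := Z_isPt_smul A (ht.2.1 a)
      (TrivSqZeroExt.inl γ⁻¹ + TrivSqZeroExt.inr (-(γ⁻¹ * (t a A.b₀ / γ))) : DualNumber K) G hG
    have h2 : (fun i => (TrivSqZeroExt.inl γ⁻¹ + TrivSqZeroExt.inr (-(γ⁻¹ * (t a A.b₀ / γ))) : DualNumber K) *
        (TrivSqZeroExt.inl (o i) + TrivSqZeroExt.inr (t a i))) =
        fun i => (TrivSqZeroExt.inl (o₀ A i) +
          TrivSqZeroExt.inr (γ⁻¹ * (t a i - t a A.b₀ / γ * o i)) : DualNumber K) := by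
      funext i
      have h3 : γ⁻¹ * o i = o₀ A i := by
        rw [hγo i, ← mul_assoc, inv_mul_cancel₀ hγ, one_mul]
      ext
      · simp only [TrivSqZeroExt.fst_mul, TrivSqZeroExt.fst_add, TrivSqZeroExt.fst_inl,
          TrivSqZeroExt.fst_inr, add_zero]
        exact h3
      · simp only [TrivSqZeroExt.snd_mul, TrivSqZeroExt.fst_add, TrivSqZeroExt.fst_inl,
          TrivSqZeroExt.fst_inr, TrivSqZeroExt.snd_add, TrivSqZeroExt.snd_inl,
          TrivSqZeroExt.snd_inr, add_zero, zero_add, smul_eq_mul, MulOpposite.smul_eq_mul_unop,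
          MulOpposite.unop_op]
        ring
    rw [h2, aeval_dual] at h1
    have h4 := congrArg TrivSqZeroExt.snd h1
    rw [TrivSqZeroExt.snd_add, TrivSqZeroExt.snd_inl, TrivSqZeroExt.snd_inr, zero_add,
      TrivSqZeroExt.snd_zero] at h4
    exact h4
  · field_simp
    ring

end

private theorem g32d_lf_mul {K : Type u} [Field K] {N : ℕ} {R : Type u} [CommRing R]
    [Algebra K R] (l : Fin (N + 1) → K) (c : R) (y : Fin (N + 1) → R) :
    lf l (fun i => c * y i) = c * lf l y := by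
  unfold lf
  rw [Finset.mul_sum]
  refine Finset.sum_congr rfl fun i _ => ?_
  ring

private theorem g32d_lf_lin {K : Type u} [Field K] {N : ℕ} {R : Type u} [CommRing R]
    [Algebra K R] (l : Fin (N + 1) → K) (c c' : R) (y y' : Fin (N + 1) → R) :
    lf l (fun i => c * y i + c' * y' i) = c * lf l y + c' * lf l y' := by
  unfold lf
  rw [Finset.mul_sum, Finset.mul_sum, ← Finset.sum_add_distrib]
  refine Finset.sum_congr rfl fun i _ => ?_
  ring

private theorem g32d_lf_sum {K : Type u} [Field K] {N n : ℕ} {R : Type u} [CommRing R]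
    [Algebra K R] (l : Fin (N + 1) → K) (ω : Fin n → R) (y : Fin n → Fin (N + 1) → R) :
    lf l (fun i => ∑ a, ω a * y a i) = ∑ a, ω a * lf l (y a) := by
  unfold lf
  simp only [Finset.mul_sum]
  rw [Finset.sum_comm]
  refine Finset.sum_congr rfl fun a _ => Finset.sum_congr rfl fun i _ => ?_
  ring

private theorem g32d_lf_dual {K : Type u} [Field K] {N : ℕ} {F : Type u} [Field F]
    [Algebra K F] (l : Fin (N + 1) → K) (w v : Fin (N + 1) → F) :
    lf l (fun i => (TrivSqZeroExt.inl (w i) + TrivSqZeroExt.inr (v i) : DualNumber F)) =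
      TrivSqZeroExt.inl (lf l w) + TrivSqZeroExt.inr (lf l v) := by
  unfold lf
  have h1 : ∀ a : K, algebraMap K (DualNumber F) a =
      TrivSqZeroExt.inl (algebraMap K F a) := fun a =>
    TrivSqZeroExt.algebraMap_eq_inl' K F F a
  simp only [h1]
  ext
  · rw [TrivSqZeroExt.fst_sum, TrivSqZeroExt.fst_add, TrivSqZeroExt.fst_inl,
      TrivSqZeroExt.fst_inr, add_zero]
    refine Finset.sum_congr rfl fun i _ => ?_
    rw [TrivSqZeroExt.fst_mul, TrivSqZeroExt.fst_inl, TrivSqZeroExt.fst_add,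
      TrivSqZeroExt.fst_inl, TrivSqZeroExt.fst_inr, add_zero]
  · rw [TrivSqZeroExt.snd_sum, TrivSqZeroExt.snd_add, TrivSqZeroExt.snd_inl,
      TrivSqZeroExt.snd_inr, zero_add]
    refine Finset.sum_congr rfl fun i _ => ?_
    simp only [TrivSqZeroExt.snd_mul, TrivSqZeroExt.fst_add, TrivSqZeroExt.fst_inl,
        TrivSqZeroExt.fst_inr, TrivSqZeroExt.snd_add, TrivSqZeroExt.snd_inl,
        TrivSqZeroExt.snd_inr, add_zero, zero_add, smul_eq_mul, smul_zero]

private theorem g32d_T {K : Type u} [Field K] {N : ℕ} {F : Type u} [Field F] [Algebra K F]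
    (x o' v : Fin (N + 1) → F) (f : MvPolynomial (Fin (N + 1) ⊕ Fin (N + 1)) K) :
    aeval (Sum.elim (fun i => TrivSqZeroExt.inl (x i)) fun i =>
      (TrivSqZeroExt.inl (o' i) + TrivSqZeroExt.inr (v i) : DualNumber F)) f =
      TrivSqZeroExt.inl (aeval (Sum.elim x o') f) +
        TrivSqZeroExt.inr (∑ j, aeval (Sum.elim x o') (pderiv (Sum.inr j) f) * v j) := by
  have h1 : (Sum.elim (fun i => TrivSqZeroExt.inl (x i)) fun i =>
      TrivSqZeroExt.inl (o' i) + TrivSqZeroExt.inr (v i) :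
      Fin (N + 1) ⊕ Fin (N + 1) → DualNumber F) = fun i =>
        TrivSqZeroExt.inl (Sum.elim x o' i) + TrivSqZeroExt.inr (Sum.elim (fun _ => 0) v i) := by
    funext s
    rcases s with s | s
    · simp
    · simp
  rw [h1, aeval_dual, Fintype.sum_sum_type]
  congr 2
  simp only [Sum.elim_inl, Sum.elim_inr, mul_zero, Finset.sum_const_zero, zero_add]

private theorem g32d_D_lf {K : Type u} [Field K] {N : ℕ} {F : Type u} [Field F]
    [Algebra K F] {D : Derivation ℤ F F} (hD : ∀ c : K, D (algebraMap K F c) = 0)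
    (l : Fin (N + 1) → K) (x : Fin (N + 1) → F) : D (lf l x) = lf l fun i => D (x i) := by
  unfold lf
  rw [map_sum]
  refine Finset.sum_congr rfl fun i _ => ?_
  rw [Derivation.leibniz, hD, smul_zero, add_zero, smul_eq_mul]

section

variable {K : Type u} [Field K] [CharZero K] {N : ℕ} {A : AV K N} {F : Type u} [Field F]
  [Algebra K F] {D : Derivation ℤ F F} (hD : ∀ c : K, D (algebraMap K F c) = 0)

include hD

theorem isPt_ell (P : A.Pts F) : A.IsPt (R := DualNumber F) fun i =>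
    TrivSqZeroExt.inl (oL A F i) + TrivSqZeroExt.inr (ell A D P i) := by
  have : CharZero F := charZero_of_injective_algebraMap (algebraMap K F).injective
  have h1 := ell_mem A (grpI_top A K) (D := D) hD (ZP_top A K P)
  have h2 := Tsp_kl A (grpI_top A K) h1
  intro f hf
  have h3 := h2 (map (algebraMap K K) f) (Ideal.mem_map_of_mem _ hf)
  rw [Algebra.algebraMap_self, map_id] at h3
  exact h3

theorem ds_eq {n e : ℕ} (nd : Noe A n e) {o : Fin (N + 1) → K} {t : Fin n → Fin (N + 1) → K}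
    (ht : A.Frame o t) (b : A.Pts F) (hl : lf (nd.l 0) (A.x b) ≠ 0)
    (M : Matrix (Fin n) (Fin n) F) (hM : nd.IsDS o t b M) (γ : K) (hγ : γ ≠ 0)
    (hγo : ∀ i, o i = γ * o₀ A i) (c : F) (ω : Fin n → F)
    (h : ∀ i, algebraMap K F γ * ell A D b i =
      c * algebraMap K F (o i) + ∑ a, ω a * algebraMap K F (t a i)) (k : Fin n) :
    D (nd.s b k) = ∑ a, M k a * ω a := by
  classical
  have : CharZero F := charZero_of_injective_algebraMap (algebraMap K F).injective
  obtain ⟨b₁, hb₁⟩ := A.exists_x_ne b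
  obtain ⟨u, hu, hw⟩ := ell_inv A hD b b₁
  have hu0 : u.fst ≠ 0 := hu hb₁
  have hγF : algebraMap K F γ ≠ 0 := by
    intro h1
    exact hγ ((map_eq_zero _).1 h1)
  -- the derivative of the sum at `(x, o)` in the direction `t`
  obtain ⟨W, hW⟩ : ∃ W : Fin (N + 1) → F, W = fun i =>
      aeval (Sum.elim (A.x b) fun i => algebraMap K F (o i)) (A.S i b₁) := ⟨_, rfl⟩
  obtain ⟨dl, hdl⟩ : ∃ dl : (Fin (N + 1) → F) → Fin (N + 1) → F, dl = fun v i =>
      ∑ j, aeval (Sum.elim (A.x b) fun i => algebraMap K F (o i))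
        (pderiv (Sum.inr j) (A.S i b₁)) * v j := ⟨_, rfl⟩
  have hT : ∀ (v : Fin (N + 1) → F) (i : Fin (N + 1)),
      aeval (Sum.elim (fun i => TrivSqZeroExt.inl (A.x b i)) fun i =>
        (TrivSqZeroExt.inl (algebraMap K F (o i)) + TrivSqZeroExt.inr (v i) : DualNumber F))
        (A.S i b₁) = TrivSqZeroExt.inl (W i) + TrivSqZeroExt.inr (dl v i) := by
    intro v i
    rw [g32d_T, hW, hdl]
  obtain ⟨τ, hτ⟩ : ∃ τ : Fin (N + 1) → F, τ = fun i => ∑ a, ω a * algebraMap K F (t a i) :=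
    ⟨_, rfl⟩
  obtain ⟨g, hg⟩ : ∃ g : DualNumber F, g = TrivSqZeroExt.inl (algebraMap K F γ) +
      TrivSqZeroExt.inr (-(c * algebraMap K F γ)) := ⟨_, rfl⟩
  have hg1 : ∀ i, (TrivSqZeroExt.inl (algebraMap K F (o i)) + TrivSqZeroExt.inr (τ i) :
      DualNumber F) = g * (TrivSqZeroExt.inl (oL A F i) + TrivSqZeroExt.inr (ell A D b i)) := by
    intro i
    have h1 : algebraMap K F (o i) = algebraMap K F γ * oL A F i := by
      rw [hγo, map_mul]
      rfl
    have h2 := h i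
    have h3 : τ i = ∑ a, ω a * algebraMap K F (t a i) := by rw [hτ]
    rw [← h3, h1] at h2
    rw [hg, h1]
    ext
    · simp only [TrivSqZeroExt.fst_mul, TrivSqZeroExt.fst_add, TrivSqZeroExt.fst_inl,
        TrivSqZeroExt.fst_inr, add_zero]
    · simp only [TrivSqZeroExt.snd_mul, TrivSqZeroExt.fst_add, TrivSqZeroExt.fst_inl,
        TrivSqZeroExt.fst_inr, TrivSqZeroExt.snd_add, TrivSqZeroExt.snd_inl,
        TrivSqZeroExt.snd_inr, add_zero, zero_add, smul_eq_mul, MulOpposite.smul_eq_mul_unop,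
        MulOpposite.unop_op]
      linear_combination -h2
  have hTτ : ∀ i, (TrivSqZeroExt.inl (W i) + TrivSqZeroExt.inr (dl τ i) : DualNumber F) =
      (g ^ 2 * u) * (TrivSqZeroExt.inl (A.x b i) + TrivSqZeroExt.inr (D (A.x b i))) := by
    intro i
    rw [← hT, mul_assoc, ← hw i]
    have h1 := AV.S_smul A i b₁ (1 : DualNumber F) g (fun i => TrivSqZeroExt.inl (A.x b i))
      fun i => (TrivSqZeroExt.inl (oL A F i) + TrivSqZeroExt.inr (ell A D b i))
    rw [one_pow, one_mul] at h1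
    rw [← h1]
    congr 2
    funext s
    rcases s with s | s
    · exact (one_mul _).symm
    · exact hg1 s
  obtain ⟨u₂, hu₂⟩ : ∃ u₂ : DualNumber F, u₂ = g ^ 2 * u := ⟨_, rfl⟩
  rw [← hu₂] at hTτ
  have hu₂0 : u₂.fst ≠ 0 := by
    rw [hu₂, TrivSqZeroExt.fst_mul, TrivSqZeroExt.fst_pow, hg, TrivSqZeroExt.fst_add,
      TrivSqZeroExt.fst_inl, TrivSqZeroExt.fst_inr, add_zero]
    exact mul_ne_zero (pow_ne_zero _ hγF) hu0
  have hWx : W = fun i => u₂.fst * A.x b i := by
    funext i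
    have h1 := congrArg TrivSqZeroExt.fst (hTτ i)
    simpa only [TrivSqZeroExt.fst_mul, TrivSqZeroExt.fst_add, TrivSqZeroExt.fst_inl,
        TrivSqZeroExt.fst_inr, add_zero] using h1
  have hdτ : dl τ = fun i => u₂.fst * D (A.x b i) + u₂.snd * A.x b i := by
    funext i
    have h1 := congrArg TrivSqZeroExt.snd (hTτ i)
    simp only [TrivSqZeroExt.snd_mul, TrivSqZeroExt.fst_add, TrivSqZeroExt.fst_inl,
        TrivSqZeroExt.fst_inr, TrivSqZeroExt.snd_add, TrivSqZeroExt.snd_inl,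
        TrivSqZeroExt.snd_inr, add_zero, zero_add, smul_eq_mul, MulOpposite.smul_eq_mul_unop,
        MulOpposite.unop_op] at h1
    rw [h1]
  -- the hypothesis on `M`
  have hMa : ∀ a, lf (nd.l k.succ) (dl fun i => algebraMap K F (t a i)) =
      nd.s b k * lf (nd.l 0) (dl fun i => algebraMap K F (t a i)) + M k a * lf (nd.l 0) W := by
    intro a
    have h1 := hM a b₁ k
    have h2 : (fun i => aeval (Sum.elim (fun i => TrivSqZeroExt.inl (A.x b i)) fun i =>
        (TrivSqZeroExt.inl (algebraMap K F (o i)) + TrivSqZeroExt.inr (algebraMap K F (t a i)) :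
          DualNumber F)) (A.S i b₁)) = fun i =>
        (TrivSqZeroExt.inl (W i) + TrivSqZeroExt.inr (dl (fun i => algebraMap K F (t a i)) i) :
          DualNumber F) := by
      funext i
      exact hT (fun i => algebraMap K F (t a i)) i
    simp only [h2] at h1
    rw [g32d_lf_dual, g32d_lf_dual] at h1
    have h3 := congrArg TrivSqZeroExt.snd h1
    simp only [TrivSqZeroExt.snd_mul, TrivSqZeroExt.fst_add, TrivSqZeroExt.fst_inl,
        TrivSqZeroExt.fst_inr, TrivSqZeroExt.snd_add, TrivSqZeroExt.snd_inl,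
        TrivSqZeroExt.snd_inr, add_zero, zero_add, smul_eq_mul, MulOpposite.smul_eq_mul_unop,
        MulOpposite.unop_op] at h3
    rw [h3]
  have hdsum : dl τ = fun i => ∑ a, ω a * dl (fun i => algebraMap K F (t a i)) i := by
    funext i
    rw [hdl, hτ]
    simp only [Finset.mul_sum]
    rw [Finset.sum_comm]
    exact Finset.sum_congr rfl fun a _ => Finset.sum_congr rfl fun j _ => mul_left_comm _ _ _
  have hlsum : ∀ l : Fin (N + 1) → K, lf l (dl τ) =
      ∑ a, ω a * lf l (dl fun i => algebraMap K F (t a i)) := by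
    intro l
    rw [hdsum]
    exact g32d_lf_sum l ω _
  have h1 : lf (nd.l k.succ) (dl τ) =
      nd.s b k * lf (nd.l 0) (dl τ) + (∑ a, M k a * ω a) * lf (nd.l 0) W := by
    rw [hlsum, hlsum, Finset.mul_sum, Finset.sum_mul, ← Finset.sum_add_distrib]
    refine Finset.sum_congr rfl fun a _ => ?_
    rw [hMa a]
    ring
  have hs : lf (nd.l k.succ) (A.x b) = nd.s b k * lf (nd.l 0) (A.x b) := by
    show _ = lf (nd.l k.succ) (A.x b) / lf (nd.l 0) (A.x b) * lf (nd.l 0) (A.x b)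
    rw [div_mul_cancel₀ _ hl]
  rw [hWx, hdτ, g32d_lf_lin, g32d_lf_lin, g32d_lf_mul, hs] at h1
  have h2 : lf (nd.l k.succ) (fun i => D (A.x b i)) =
      nd.s b k * lf (nd.l 0) (fun i => D (A.x b i)) +
        (∑ a, M k a * ω a) * lf (nd.l 0) (A.x b) := by
    refine mul_left_cancel₀ hu₂0 ?_
    linear_combination h1
  have h3 := congrArg D hs
  rw [Derivation.leibniz, smul_eq_mul, smul_eq_mul, g32d_D_lf hD, g32d_D_lf hD] at h3
  refine mul_right_cancel₀ hl ?_
  linear_combination h2 - h3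

end

end Pool.Agent.Lib.MP_17a322_nt.VA.G
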