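import Pool.Agent.Lib.MP_17a322_nt.VA.A3b
import Pool.Agent.Lib.MP_17a322_nt.VA.G30
import Pool.Agent.Lib.MP_17a322_nt.VA.G32
import Pool.Agent.Lib.MP_17a322_nt.VA.Z6

/-!
VA, part G: no rational covectors; the final statement of part G.
-/

universe u

namespace Pool.Agent.Lib.MP_17a322_nt.VA

namespace G

open MvPolynomial

/-- From the intrinsic statement to covectors in the Noether coordinates. -/
theorem noRat_of_noRatD {K : Type u} [Field K] [CharZero K] {N : ℕ} (B : AV K N) {F : Type u}
    [Field F] [Algebra K F] (k₀ : IntermediateField K F) (b : B.Pts F) (hb : NoRatD B k₀ b)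
    {n e : ℕ} (nd : Noe B n e) (hl : lf (nd.l 0) (B.x b) ≠ 0) {o : Fin (N + 1) → K}
    {t : Fin n → Fin (N + 1) → K} (ht : B.Frame o t) (M : Matrix (Fin n) (Fin n) F)
    (hM : nd.IsDS o t b M) (ν : Fin n → k₀)
    (hν : (fun a => (ν a : F)) ∈ Submodule.span F {x : Fin n → F |
      ∃ q : MvPolynomial (Fin n) k₀, aeval (nd.s b) q = 0 ∧
        x = fun a => ∑ l, aeval (nd.s b) (pderiv l q) * M l a}) : ν = 0 := by
  classical
  have : CharZero F := charZero_of_injective_algebraMap (algebraMap K F).injective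
  obtain ⟨γ, hγ, hγo⟩ := frame_gamma ht
  obtain ⟨φ, hφo, hφt⟩ := exists_functional ht.2.2
  -- the linear form
  obtain ⟨χ, hχ⟩ : ∃ χ : Fin (N + 1) → k₀, χ = fun i => ∑ a, ν a * algebraMap K k₀ (φ a i) :=
    ⟨_, rfl⟩
  have hχo : ∑ i, χ i * algebraMap K k₀ (o i) = 0 := by
    rw [hχ]
    simp_rw [Finset.sum_mul]
    rw [Finset.sum_comm]
    refine Finset.sum_eq_zero fun a _ => ?_
    have h1 : ∑ i, ν a * algebraMap K k₀ (φ a i) * algebraMap K k₀ (o i) =
        ν a * algebraMap K k₀ (∑ i, φ a i * o i) := by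
      rw [map_sum, Finset.mul_sum]
      refine Finset.sum_congr rfl fun i _ => ?_
      rw [map_mul, mul_assoc]
    rw [h1, hφo, map_zero, mul_zero]
  have hχt : ∀ b', ∑ i, χ i * algebraMap K k₀ (t b' i) = ν b' := by
    intro b'
    rw [hχ]
    simp_rw [Finset.sum_mul]
    rw [Finset.sum_comm]
    have h1 : ∀ a, ∑ i, ν a * algebraMap K k₀ (φ a i) * algebraMap K k₀ (t b' i) =
        ν a * algebraMap K k₀ (if a = b' then 1 else 0) := by
      intro a
      rw [← hφt, map_sum, Finset.mul_sum]
      refine Finset.sum_congr rfl fun i _ => ?_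
      rw [map_mul, mul_assoc]
    simp_rw [h1]
    rw [Finset.sum_eq_single b']
    · rw [if_pos rfl, map_one, mul_one]
    · intro a _ ha
      rw [if_neg ha, map_zero, mul_zero]
    · intro h
      exact absurd (Finset.mem_univ _) h
  -- it vanishes at the logarithmic derivatives
  have hχD : ∀ D : Derivation ℤ F F, (∀ c : k₀, D c = 0) →
      ∑ i, (χ i : F) * ell B D b i = 0 := by
    intro D hD
    have hDK : ∀ c : K, D (algebraMap K F c) = 0 := fun c => hD (algebraMap K k₀ c)
    have h1 : B.IsPt (R := DualNumber F) fun i =>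
        TrivSqZeroExt.inl (algebraMap K F (o i)) +
          TrivSqZeroExt.inr (algebraMap K F γ * ell B D b i) := by
      have h2 := Z_isPt_smul B (isPt_ell hDK b)
        (TrivSqZeroExt.inl (algebraMap K F γ) : DualNumber F)
      have h3 : (fun i => (TrivSqZeroExt.inl (algebraMap K F γ) : DualNumber F) *
          (TrivSqZeroExt.inl (oL B F i) + TrivSqZeroExt.inr (ell B D b i))) = fun i =>
          TrivSqZeroExt.inl (algebraMap K F (o i)) +
          TrivSqZeroExt.inr (algebraMap K F γ * ell B D b i) := by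
        funext i
        rw [mul_add, ← TrivSqZeroExt.inl_mul, TrivSqZeroExt.inl_mul_inr, hγo i, map_mul]
        rfl
      rw [h3] at h2
      exact h2
    obtain ⟨c, ω, hω⟩ := frame_span nd ht _ h1
    have h4 := ds_eq hDK nd ht b hl M hM γ hγ hγo c ω hω
    -- the functional
    have h5 : ∀ x ∈ Submodule.span F {x : Fin n → F |
        ∃ q : MvPolynomial (Fin n) k₀, aeval (nd.s b) q = 0 ∧
          x = fun a => ∑ l, aeval (nd.s b) (pderiv l q) * M l a}, ∑ a, x a * ω a = 0 := by
      intro x hx
      induction hx using Submodule.span_induction with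
      | mem x hx =>
        obtain ⟨q, hq, rfl⟩ := hx
        simp_rw [Finset.sum_mul]
        rw [Finset.sum_comm]
        have h6 := der_aeval (k := k₀) D hD (nd.s b) q
        rw [hq, map_zero] at h6
        rw [h6]
        refine Finset.sum_congr rfl fun l _ => ?_
        rw [h4, Finset.mul_sum]
        refine Finset.sum_congr rfl fun a _ => ?_
        rw [mul_assoc]
      | zero => simp
      | add x y _ _ h1 h2 =>
        simp_rw [Pi.add_apply, add_mul]
        rw [Finset.sum_add_distrib, h1, h2, add_zero]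
      | smul c x _ h1 =>
        simp_rw [Pi.smul_apply, smul_eq_mul, mul_assoc]
        rw [← Finset.mul_sum, h1, mul_zero]
    have h6 := h5 _ hν
    have h7 : algebraMap K F γ * ∑ i, (χ i : F) * ell B D b i = 0 := by
      have h8 : algebraMap K F γ * ∑ i, (χ i : F) * ell B D b i =
          ∑ i, (χ i : F) * (algebraMap K F γ * ell B D b i) := by
        rw [Finset.mul_sum]
        refine Finset.sum_congr rfl fun i _ => ?_
        ring
      rw [h8]
      have h9 : ∑ i, (χ i : F) * (c * algebraMap K F (o i)) = 0 := by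
        have h10 : ∑ i, (χ i : F) * (c * algebraMap K F (o i)) =
            c * ((∑ i, χ i * algebraMap K k₀ (o i) : k₀) : F) := by
          rw [show ((∑ i, χ i * algebraMap K k₀ (o i) : k₀) : F) =
            ∑ i, (χ i : F) * algebraMap K F (o i) from by
              rw [← IntermediateField.algebraMap_apply, map_sum]
              rfl, Finset.mul_sum]
          refine Finset.sum_congr rfl fun i _ => ?_
          ring
        rw [h10, hχo]
        simp
      have h10 : ∀ a, ∑ i, (χ i : F) * (ω a * algebraMap K F (t a i)) = ω a * (ν a : F) := by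
        intro a
        rw [← hχt a, show ((∑ i, χ i * algebraMap K k₀ (t a i) : k₀) : F) =
            ∑ i, (χ i : F) * algebraMap K F (t a i) from by
              rw [← IntermediateField.algebraMap_apply, map_sum]
              rfl, Finset.mul_sum]
        refine Finset.sum_congr rfl fun i _ => ?_
        ring
      have hc : ∑ i, ∑ a, (χ i : F) * (ω a * algebraMap K F (t a i)) =
          ∑ a, ∑ i, (χ i : F) * (ω a * algebraMap K F (t a i)) := Finset.sum_comm
      simp_rw [hω, mul_add, Finset.mul_sum]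
      rw [Finset.sum_add_distrib, hc]
      simp_rw [h10]
      rw [h9, zero_add, ← h6]
      refine Finset.sum_congr rfl fun a _ => ?_
      ring
    exact (mul_eq_zero.1 h7).resolve_left ((map_ne_zero _).2 hγ)
  have hfin := hb χ hχD
  funext a
  obtain ⟨γ', α, τ, hτ, hγ', hτa⟩ := frame_tan ht a
  have h1 := hfin τ hτ
  have h2 : ν a = algebraMap K k₀ γ' * ∑ i, χ i * algebraMap K k₀ (τ i) +
      algebraMap K k₀ α * ∑ i, χ i * algebraMap K k₀ (o i) := by
    rw [← hχt a, Finset.mul_sum, Finset.mul_sum, ← Finset.sum_add_distrib]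
    refine Finset.sum_congr rfl fun i _ => ?_
    rw [hτa i, map_add, map_mul, map_mul]
    ring
  rw [h2, h1, hχo, mul_zero, mul_zero, add_zero]
  rfl

theorem noRatD_sub {K : Type u} [Field K] [CharZero K] {N : ℕ} (B : AV K N) {F : Type u}
    [Field F] [Algebra K F] (k₀ : IntermediateField K F) {b : B.Pts F} (hb : NoRatD B k₀ b)
    {p : B.Pts K} {p' : B.Pts F} (hp : B.Img (Algebra.ofId K F) p p') :
    NoRatD B k₀ (b - p') := by
  have : CharZero F := charZero_of_injective_algebraMap (algebraMap K F).injective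
  intro χ hχ
  refine hb χ fun D hD => ?_
  have hDK : ∀ c : K, D (algebraMap K F c) = 0 := fun c => hD (algebraMap K k₀ c)
  have h1 := hχ D hD
  have h2 : ell B D p' = 0 := by
    rw [ell_img B (Algebra.ofId K F) (D := 0) hDK (fun a => by
      rw [show D (Algebra.ofId K F a) = 0 from hDK a]
      simp) hp]
    funext i
    have h3 : ell B (0 : Derivation ℤ K K) p = 0 := ellv_zero B _
    rw [h3]
    simp
  rw [ell_sub B hDK, h2, sub_zero] at h1
  exact h1

end G

open MvPolynomial Height Filter
open Pool.Agent.Lib.MP_17a322_nt.RO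
open Pool.Agent.Lib.MP_17a322_nt.VJ
open Pool.Agent.Lib.MP_17a322_nt.VN

/-- The smallest subgroup, and no rational covector at any translate of `b` by a point of `B(K)`. -/
theorem geom_noRat {K : Type u} [Field K] [NumberField K] {N : ℕ} (A : AV K N) {H : ℕ → ℝ}
    (hH : Tendsto H (hyperfilter ℕ : Filter ℕ) atTop) (s : A.Pts (GK K)) :
    ∃ (B : AV K N) (hB : IsSubAV B A) (δ : ℕ) (w : A.Pts (k0 K H hH)) (w' : A.Pts (GK K))
      (b : B.Pts (GK K)), 0 < δ ∧ A.Img (k0 K H hH).val w w' ∧ δ • s = w' + hB.inc (GK K) b ∧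
      MinSub B b ∧ ∀ p : B.Pts K, NoRat B hH (b - B.img (Algebra.ofId K (GK K)) p) := by
  obtain ⟨B, hB, δ, w, w', b, h1, h2, h3, h4, h5⟩ := G.geomD A (k0 K H hH)
    (fun a ha => K_closed a ha) (fun a ha => k0_closed H hH a ha) s
  refine ⟨B, hB, δ, w, w', b, h1, h2, h3, h4, fun p => ?_⟩
  intro n e nd hl o t ht M hM ν hν
  have h6 : B.Img (Algebra.ofId K (GK K)) p (B.img (Algebra.ofId K (GK K)) p) :=
    (B.img_eq_iff (Algebra.ofId K (GK K))).1 rfl
  exact G.noRat_of_noRatD B (k0 K H hH) _ (G.noRatD_sub B (k0 K H hH) h5 h6) nd hl ht M hM ν hν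

end Pool.Agent.Lib.MP_17a322_nt.VA
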