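import Pool.Agent.Lib.MP_17a322_nt.VA.ZDefs
import Pool.Agent.Lib.MP_17a322_nt.VA.N6

/-!
The points over `K` of the smallest subgroup are dense: a translate of `b` by a point over `K` is good.
-/

universe u w

namespace Pool.Agent.Lib.MP_17a322_nt.VA

open MvPolynomial Height Filter
open Pool.Agent.Lib.MP_17a322_nt.RO
open Pool.Agent.Lib.MP_17a322_nt.VJ
open Pool.Agent.Lib.MP_17a322_nt.VN

section

variable {K : Type u} [Field K]

/-- A polynomial over an extension that vanishes at points over `K` vanishes wherever the
polynomials over `K` with this property vanish. -/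
theorem ZS_ext {L : Type w} [Field L] [Algebra K L] {σ : Type*} (V : Set (σ → K)) (y : σ → L)
    (hy : ∀ f : MvPolynomial σ K, (∀ v ∈ V, aeval v f = 0) → aeval y f = 0)
    (g : MvPolynomial σ L) (hg : ∀ v ∈ V, eval (fun i => algebraMap K L (v i)) g = 0) :
    eval y g = 0 := by
  classical
  let B := Module.Basis.ofVectorSpace K L
  have h1 : ∀ j, ∑ m ∈ g.support, algebraMap K L (B.repr (coeff m g) j) *
      (m.prod fun i e => y i ^ e) = 0 := by
    intro j
    let f : MvPolynomial σ K := ∑ m ∈ g.support, monomial m (B.repr (coeff m g) j)
    have h2 : ∀ v ∈ V, aeval v f = 0 := by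
      intro v hv
      have h3 := hg v hv
      have h4 : aeval v f = B.repr (eval (fun i => algebraMap K L (v i)) g) j := by
        have h5 : eval (fun i => algebraMap K L (v i)) g =
            ∑ m ∈ g.support, (m.prod fun i e => v i ^ e) • coeff m g := by
          rw [eval_eq]
          refine Finset.sum_congr rfl fun m _ => ?_
          rw [Algebra.smul_def, mul_comm, Finsupp.prod, map_prod]
          simp only [map_pow]
        rw [h5, map_sum, map_sum, Finsupp.finsetSum_apply]
        refine Finset.sum_congr rfl fun m _ => ?_
        rw [map_smul, Finsupp.smul_apply, aeval_monomial, smul_eq_mul, mul_comm]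
        rfl
      rw [h4, h3, map_zero, Finsupp.zero_apply]
    have h6 := hy f h2
    rw [map_sum] at h6
    rw [← h6]
    refine Finset.sum_congr rfl fun m _ => ?_
    rw [aeval_monomial]
  let T : Finset _ := g.support.biUnion fun m => (B.repr (coeff m g)).support
  have h7 : ∀ m ∈ g.support, coeff m g = ∑ j ∈ T, algebraMap K L (B.repr (coeff m g) j) * B j := by
    intro m hm
    have h8 : (B.repr (coeff m g)).support ⊆ T :=
      Finset.subset_biUnion_of_mem (fun m => (B.repr (coeff m g)).support) hm
    have h11 : coeff m g = (B.repr (coeff m g)).sum fun i a => a • B i := by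
      rw [← Finsupp.linearCombination_apply, B.linearCombination_repr]
    have h12 : ((B.repr (coeff m g)).sum fun i a => a • B i) =
        ∑ j ∈ T, B.repr (coeff m g) j • B j :=
      Finsupp.sum_of_support_subset _ h8 _ fun i _ => zero_smul K _
    conv_lhs => rw [h11, h12]
    exact Finset.sum_congr rfl fun j _ => Algebra.smul_def _ _
  have h9 : eval y g = ∑ m ∈ g.support, (∑ j ∈ T, algebraMap K L (B.repr (coeff m g) j) * B j) *
      (m.prod fun i e => y i ^ e) := by
    rw [eval_eq]
    refine Finset.sum_congr rfl fun m hm => ?_
    rw [← h7 m hm]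
    rfl
  rw [h9]
  simp only [Finset.sum_mul]
  rw [Finset.sum_comm]
  refine Finset.sum_eq_zero fun j _ => ?_
  have h10 : ∑ m ∈ g.support, algebraMap K L (B.repr (coeff m g) j) * B j *
      (m.prod fun i e => y i ^ e) = B j * ∑ m ∈ g.support, algebraMap K L (B.repr (coeff m g) j) *
      (m.prod fun i e => y i ^ e) := by
    rw [Finset.mul_sum]
    refine Finset.sum_congr rfl fun m _ => ?_
    ring
  rw [h10, h1 j, mul_zero]

/-- The homogeneous components of a polynomial vanishing on a line through the origin. -/
theorem ZS_comp_zero [Infinite K] {σ : Type*} {f : MvPolynomial σ K} {v : σ → K}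
    (h : ∀ c : K, aeval (fun i => c * v i) f = 0) (d : ℕ) :
    aeval v (homogeneousComponent d f) = 0 := by
  let p : Polynomial K := ∑ e ∈ Finset.range (f.totalDegree + 1),
    Polynomial.monomial e (aeval v (homogeneousComponent e f))
  have h1 : p = 0 := by
    apply Polynomial.funext
    intro c
    rw [Polynomial.eval_zero, Polynomial.eval_finsetSum, ← h c]
    conv_rhs => rw [← sum_homogeneousComponent f, map_sum]
    refine Finset.sum_congr rfl fun e _ => ?_
    rw [Polynomial.eval_monomial, aeval_mul_homog (homogeneousComponent_isHomogeneous e f), mul_comm]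
  by_cases hd : d < f.totalDegree + 1
  · have h2 := congrArg (fun q => Polynomial.coeff q d) h1
    simp only [Polynomial.coeff_zero] at h2
    rw [Polynomial.finsetSum_coeff, Finset.sum_eq_single d] at h2
    · rwa [Polynomial.coeff_monomial_same] at h2
    · intro e _ he
      exact Polynomial.coeff_monomial_of_ne _ (Ne.symm he)
    · intro h3
      exact absurd (Finset.mem_range.2 hd) h3
  · rw [homogeneousComponent_eq_zero d f (by omega), map_zero]

end

end Pool.Agent.Lib.MP_17a322_nt.VA
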