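import Pool.Agent.Lib.MP_17a322_nt.VA.Z6
import Pool.Agent.Lib.MP_17a322_nt.VA.Z16

/-!
The points over `K` of the smallest subgroup are dense: a translate of `b` by a point over `K` is good.
-/

universe u w

namespace Pool.Agent.Lib.MP_17a322_nt.VA

open MvPolynomial Height Filter
open Pool.Agent.Lib.MP_17a322_nt.RO
open Pool.Agent.Lib.MP_17a322_nt.VJ
open Pool.Agent.Lib.MP_17a322_nt.VN

section

variable {K : Type u} [Field K] {N : ℕ} (B : AV K N)

/-- The cone of the vectors of coordinates of the points over `K`. -/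
def AV.cone : Set (Fin (N + 1) → K) :=
  {v | ∃ (c : K) (p : B.Pts K), v = fun i => c * B.x p i}

/-- The ideal of the points over `K`. -/
noncomputable def AV.vI : Ideal (MvPolynomial (Fin (N + 1)) K) :=
  ⨅ v : B.cone, RingHom.ker (aeval (R := K) v.1 : MvPolynomial (Fin (N + 1)) K →ₐ[K] K)

variable {B}

theorem AV.mem_vI {f : MvPolynomial (Fin (N + 1)) K} :
    f ∈ B.vI ↔ ∀ v ∈ B.cone, aeval v f = 0 := by
  rw [AV.vI, Ideal.mem_iInf]
  exact ⟨fun h v hv => h ⟨v, hv⟩, fun h v => h v.1 v.2⟩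

theorem AV.vI_homog [Infinite K] {f : MvPolynomial (Fin (N + 1)) K} (hf : f ∈ B.vI) (d : ℕ) :
    homogeneousComponent d f ∈ B.vI := by
  rw [AV.mem_vI] at hf ⊢
  rintro v ⟨c, p, rfl⟩
  refine ZS_comp_zero (fun c' => hf _ ⟨c' * c, p, ?_⟩) d
  funext i
  ring

theorem AV.cone_sub {v v' : Fin (N + 1) → K} (hv : v ∈ B.cone) (hv' : v' ∈ B.cone)
    (a : Fin (N + 1)) : (fun b => aeval (Sum.elim v v') (B.S a b)) ∈ B.cone := by
  obtain ⟨c, p, rfl⟩ := hv
  obtain ⟨c', p', rfl⟩ := hv'
  obtain ⟨k, hk, h1⟩ := (AV.Rep.self p).spec (AV.Rep.self p')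
  refine ⟨c ^ 2 * c' ^ 2 * (k * B.x (p + p') a), p - p', ?_⟩
  funext b
  rw [B.S_smul, h1]
  ring

variable {L : Type u} [Field L] [Algebra K L]

/-- Values of polynomials in the forms at one fixed argument. -/
theorem AV.eval_right (y y' : Fin (N + 1) → L) (a : Fin (N + 1)) (f : MvPolynomial (Fin (N + 1)) K) :
    eval y' (aeval (R := K) (fun b => aeval (R := K)
      (Sum.elim (fun i => (C (y i) : MvPolynomial (Fin (N + 1)) L)) X) (B.S a b)) f) =
      aeval (fun b => aeval (Sum.elim y y') (B.S a b)) f := by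
  let φ : MvPolynomial (Fin (N + 1)) L →ₐ[K] L := (aeval (R := L) y').restrictScalars K
  have h0 : ∀ g : MvPolynomial (Fin (N + 1)) L, φ g = eval y' g := fun g => by
    show aeval y' g = _
    rw [aeval_eq_eval]
  rw [← h0, comp_aeval_apply]
  congr 2
  funext b
  rw [comp_aeval_apply]
  congr 2
  funext s
  cases s with
  | inl i => exact (h0 _).trans (eval_C _)
  | inr i => exact (h0 _).trans (eval_X _)

theorem AV.eval_left (y y' : Fin (N + 1) → L) (a : Fin (N + 1)) (f : MvPolynomial (Fin (N + 1)) K) :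
    eval y (aeval (R := K) (fun b => aeval (R := K)
      (Sum.elim X fun i => (C (y' i) : MvPolynomial (Fin (N + 1)) L)) (B.S a b)) f) =
      aeval (fun b => aeval (Sum.elim y y') (B.S a b)) f := by
  let φ : MvPolynomial (Fin (N + 1)) L →ₐ[K] L := (aeval (R := L) y).restrictScalars K
  have h0 : ∀ g : MvPolynomial (Fin (N + 1)) L, φ g = eval y g := fun g => by
    show aeval y g = _
    rw [aeval_eq_eval]
  rw [← h0, comp_aeval_apply]
  congr 2
  funext b
  rw [comp_aeval_apply]
  congr 2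
  funext s
  cases s with
  | inl i => exact (h0 _).trans (eval_X _)
  | inr i => exact (h0 _).trans (eval_C _)

/-- The closure of the group of points over `K` is closed under differences. -/
theorem AV.vI_sub {y y' : Fin (N + 1) → L} (hy : ∀ f ∈ B.vI, aeval y f = 0)
    (hy' : ∀ f ∈ B.vI, aeval y' f = 0) {f : MvPolynomial (Fin (N + 1)) K} (hf : f ∈ B.vI)
    (a : Fin (N + 1)) : aeval (fun b => aeval (Sum.elim y y') (B.S a b)) f = 0 := by
  rw [← AV.eval_left]
  refine ZS_ext B.cone y (fun f hf => hy f (AV.mem_vI.2 hf)) _ fun v hv => ?_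
  rw [AV.eval_left, ← AV.eval_right]
  have h1 : aeval (R := K) (fun b => aeval (R := K)
      (Sum.elim (fun i => (C (algebraMap K L (v i)) : MvPolynomial (Fin (N + 1)) L)) X)
        (B.S a b)) f =
      MvPolynomial.map (algebraMap K L) (aeval (R := K) (fun b => aeval (R := K)
      (Sum.elim (fun i => (C (v i) : MvPolynomial (Fin (N + 1)) K)) X) (B.S a b)) f) := by
    let ψ : MvPolynomial (Fin (N + 1)) K →ₐ[K] MvPolynomial (Fin (N + 1)) L :=
      mapAlgHom (Algebra.ofId K L)
    have h0 : ∀ g, MvPolynomial.map (algebraMap K L) g = ψ g := fun g => rfl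
    rw [h0, comp_aeval_apply]
    congr 2
    funext b
    rw [comp_aeval_apply]
    congr 2
    funext s
    cases s with
    | inl i => exact (MvPolynomial.map_C _ _).symm
    | inr i => exact (MvPolynomial.map_X _ _).symm
  rw [h1, eval_map, ← aeval_def]
  refine hy' _ (AV.mem_vI.2 fun v' hv' => ?_)
  have h2 := AV.eval_right (B := B) (L := K) v v' a f
  rw [← aeval_eq_eval] at h2
  exact h2.trans (AV.mem_vI.1 hf _ (AV.cone_sub hv hv' a))

/-- `B(K)` is dense in `B`. -/
theorem AV.vI_le [Infinite K] {Q : ℕ → B.Pts K} {b : B.Pts (GK K)} (hb : IsGerm B Q b)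
    (hmin : MinSub B b) : B.vI ≤ B.I := by
  refine hmin B.vI (fun f hf d => AV.vI_homog hf d) ?_ ?_
  · intro L _ _ P P' hP hP' f hf
    rw [← sum_homogeneousComponent f, map_sum]
    refine Finset.sum_eq_zero fun d _ => ?_
    obtain ⟨a, ha⟩ := B.exists_x_ne (P + P')
    obtain ⟨k, hk, h1⟩ := (AV.Rep.self P).spec (AV.Rep.self P')
    have h2 := AV.vI_sub hP hP' (AV.vI_homog hf d) a
    have h3 : (fun b => aeval (Sum.elim (B.x P) (B.x P')) (B.S a b)) =
        fun b => (k * B.x (P + P') a) * B.x (P - P') b := by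
      funext b
      rw [h1]
      ring
    rw [h3, aeval_mul_homog (homogeneousComponent_isHomogeneous d f)] at h2
    exact (mul_eq_zero.1 h2).resolve_left (pow_ne_zero _ (mul_ne_zero hk ha))
  · intro f hf
    rw [← sum_homogeneousComponent f, map_sum]
    refine Finset.sum_eq_zero fun d _ => ?_
    obtain ⟨c, hc, h1⟩ := hb
    have h2 : aeval (fun i => c * B.x b i) (homogeneousComponent d f) = 0 := by
      rw [← funext h1, Z_aeval_gm, gm_eq_zero_iff]
      refine Eventually.of_forall fun ν => ?_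
      refine AV.mem_vI.1 (AV.vI_homog hf d) _ ⟨1, Q ν, ?_⟩
      funext i
      rw [one_mul]
    rw [aeval_mul_homog (homogeneousComponent_isHomogeneous d f)] at h2
    exact (mul_eq_zero.1 h2).resolve_left (pow_ne_zero _ hc)

/-- The form whose nonvanishing is goodness. -/
noncomputable def Noe.gf {n e : ℕ} (nd : Noe B n e) : MvPolynomial (Fin (N + 1)) K :=
  lp (nd.l 0) * hzl (nd.l 0) (fun k => nd.l k.succ) nd.δ

theorem Noe.gf_eq {n e : ℕ} (nd : Noe B n e) {P : B.Pts L} {y : Fin (N + 1) → L}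
    (h : B.Rep P y) : aeval y nd.gf = lf (nd.l 0) y * (lf (nd.l 0) y ^ nd.δ.totalDegree *
      aeval (nd.s P) nd.δ) := by
  rw [Noe.gf, map_mul, aeval_lp, aeval_hzl]
  obtain ⟨c, hc, h1⟩ := h
  by_cases h0 : lf (nd.l 0) y = 0
  · rw [h0, zero_mul, zero_mul]
  congr 1
  have h2 : ∀ k, lf (nd.l k.succ) y = lf (nd.l 0) y * nd.s P k := by
    intro k
    have h3 : y = fun i => c * B.x P i := funext h1
    have h4 : lf (nd.l 0) (B.x P) ≠ 0 := by
      intro h5
      apply h0
      rw [h3, lf_smul, h5, mul_zero]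
    rw [h3, lf_smul, lf_smul, Noe.s]
    field_simp
  have h5 : (fun k => lf (nd.l k.succ) y) = fun k => lf (nd.l 0) y * nd.s P k := funext h2
  conv_rhs => rw [← sum_homogeneousComponent nd.δ, map_sum, Finset.mul_sum]
  refine Finset.sum_congr rfl fun d hd => ?_
  rw [h5, aeval_mul_homog (homogeneousComponent_isHomogeneous d nd.δ), sum_homogeneousComponent,
    ← mul_assoc, ← pow_add]
  congr 2
  have := Finset.mem_range.1 hd
  omega

theorem Noe.gf_ne_iff {n e : ℕ} (nd : Noe B n e) {P : B.Pts L} {y : Fin (N + 1) → L}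
    (h : B.Rep P y) : aeval y nd.gf ≠ 0 ↔ nd.Good P := by
  rw [nd.gf_eq h]
  obtain ⟨c, hc, h1⟩ := h
  have h2 : lf (nd.l 0) y = c * lf (nd.l 0) (B.x P) := by rw [funext h1, lf_smul]
  unfold Noe.Good
  rw [h2]
  constructor
  · intro h3
    exact ⟨right_ne_zero_of_mul (left_ne_zero_of_mul h3), right_ne_zero_of_mul
      (right_ne_zero_of_mul h3)⟩
  · rintro ⟨h3, h4⟩
    have h5 := mul_ne_zero hc h3
    exact mul_ne_zero h5 (mul_ne_zero (pow_ne_zero _ h5) h4)

theorem Noe.gf_notMem {n e : ℕ} (nd : Noe B n e) : nd.gf ∉ B.I := by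
  intro h
  obtain ⟨L, _, _, P, h1, h2⟩ := nd.indep
  have h3 : nd.Good P := ⟨h1, fun h4 => nd.δ_ne (h2 (h4.trans (map_zero _).symm))⟩
  exact (nd.gf_ne_iff (AV.Rep.self P)).2 h3 (B.x_isPt P _ h)

theorem Noe.gf_zero {n e : ℕ} (nd : Noe B n e) : aeval (fun _ => (0 : L)) nd.gf = 0 := by
  rw [Noe.gf, map_mul, aeval_lp]
  have h : lf (nd.l 0) (fun _ => (0 : L)) = 0 := by
    unfold lf
    exact Finset.sum_eq_zero fun _ _ => mul_zero _
  rw [h, zero_mul]

end

/-- `B(K)` is dense, so a translate of `b` by a point of `B(K)` is good for finitely many Noether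
normalisations. -/
theorem exists_shift {K : Type u} [Field K] [NumberField K] {N : ℕ} (B : AV K N) (Q : ℕ → B.Pts K)
    (b : B.Pts (GK K)) (hb : IsGerm B Q b) (hmin : MinSub B b) {n r : ℕ} (e : Fin r → ℕ)
    (nd : ∀ c, Noe B n (e c)) :
    ∃ p : B.Pts K, ∀ c, (nd c).Good (b - B.img (Algebra.ofId K (GK K)) p) := by
  classical
  by_contra hcon
  push Not at hcon
  have hle : B.vI ≤ B.I := AV.vI_le hb hmin
  obtain ⟨c₀, -⟩ := hcon 0
  let G : MvPolynomial (Fin (N + 1)) K := ∏ c, (nd c).gf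
  have hG0 : aeval (fun _ => (0 : GK K)) G = 0 := by
    rw [map_prod]
    exact Finset.prod_eq_zero (Finset.mem_univ c₀) (Noe.gf_zero _)
  have hGiff : ∀ (L : Type u) [Field L] [Algebra K L] (P : B.Pts L) (y : Fin (N + 1) → L),
      B.Rep P y → (aeval y G ≠ 0 ↔ ∀ c, (nd c).Good P) := by
    intro L _ _ P y h
    rw [map_prod, Finset.prod_ne_zero_iff]
    exact ⟨fun h1 c => ((nd c).gf_ne_iff h).1 (h1 c (Finset.mem_univ c)),
      fun h1 c _ => ((nd c).gf_ne_iff h).2 (h1 c)⟩
  have hGI : G ∉ B.I := by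
    intro h
    have := B.I_prime
    obtain ⟨c, -, hc⟩ := (Ideal.IsPrime.prod_mem_iff).1 h
    exact (nd c).gf_notMem hc
  have hGv : G ∉ B.vI := fun h => hGI (hle h)
  rw [AV.mem_vI] at hGv
  push Not at hGv
  obtain ⟨v, ⟨c, p₀, hv⟩, hGv⟩ := hGv
  have hc : c ≠ 0 := by
    rintro rfl
    apply hGv
    have h1 : v = fun _ => 0 := by
      rw [hv]
      funext i
      exact zero_mul _
    rw [h1, map_prod]
    exact Finset.prod_eq_zero (Finset.mem_univ c₀) (Noe.gf_zero _)
  have hrep : B.Rep p₀ v := ⟨c, hc, fun i => congrFun hv i⟩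
  have hrep' : B.Rep (B.img (Algebra.ofId K (GK K)) p₀) fun i => Algebra.ofId K (GK K) (v i) :=
    hrep.img _
  have hgood : ∀ c, (nd c).Good (B.img (Algebra.ofId K (GK K)) p₀) := by
    rw [← hGiff _ _ _ hrep', ← comp_aeval_apply]
    exact (map_ne_zero _).2 hGv
  -- the polynomials `G(S a (x b, Y))` vanish on the cone
  have h1 : ∀ a, ∀ w ∈ B.cone, eval (fun i => algebraMap K (GK K) (w i)) (aeval (R := K)
      (fun b' => aeval (R := K) (Sum.elim (fun i => (C (B.x b i) :
        MvPolynomial (Fin (N + 1)) (GK K))) X) (B.S a b')) G) = 0 := by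
    intro a w hw
    rw [AV.eval_right]
    obtain ⟨c', p, hw⟩ := hw
    by_contra h2
    by_cases hc' : c' = 0
    · apply h2
      have h3 : (fun b' => aeval (Sum.elim (B.x b) fun i => algebraMap K (GK K) (w i))
          (B.S a b')) = fun _ => 0 := by
        funext b'
        have h4 : (fun i => algebraMap K (GK K) (w i)) = fun _ => 0 := by
          funext i
          rw [hw, hc']
          show algebraMap K (GK K) (0 * B.x p i) = 0
          rw [zero_mul, map_zero]
        rw [h4]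
        exact AV.s2_zero_right (A := B) (B.x b) a b'
      rw [h3, hG0]
    · have hr : B.Rep (B.img (Algebra.ofId K (GK K)) p) fun i => algebraMap K (GK K) (w i) :=
        (show B.Rep p w from ⟨c', hc', fun i => congrFun hw i⟩).img _
      obtain ⟨k, hk, h3⟩ := (AV.Rep.self b).spec hr
      by_cases h4 : B.x (b + B.img (Algebra.ofId K (GK K)) p) a = 0
      · apply h2
        have h5 : (fun b' => aeval (Sum.elim (B.x b) fun i => algebraMap K (GK K) (w i))
            (B.S a b')) = fun _ => 0 := by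
          funext b'
          rw [h3, h4, zero_mul, mul_zero]
        rw [h5, hG0]
      · have h6 : B.Rep (b - B.img (Algebra.ofId K (GK K)) p) fun b' =>
            aeval (Sum.elim (B.x b) fun i => algebraMap K (GK K) (w i)) (B.S a b') :=
          (AV.Rep.self b).sub hr h4
        obtain ⟨c₁, hc₁⟩ := hcon p
        exact hc₁ ((hGiff _ _ _ h6).1 h2 c₁)
  let P₁ : B.Pts (GK K) := b - B.img (Algebra.ofId K (GK K)) p₀
  obtain ⟨a, ha⟩ := B.exists_x_ne (b + P₁)
  have h2 := ZS_ext B.cone (B.x P₁) (fun f hf => B.x_isPt P₁ f (hle (AV.mem_vI.2 hf))) _ (h1 a)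
  rw [AV.eval_right] at h2
  have h3 : B.Rep (b - P₁) fun b' => aeval (Sum.elim (B.x b) (B.x P₁)) (B.S a b') :=
    (AV.Rep.self b).sub (AV.Rep.self P₁) ha
  have h4 : b - P₁ = B.img (Algebra.ofId K (GK K)) p₀ := sub_sub_cancel _ _
  rw [h4] at h3
  exact (hGiff _ _ _ h3).2 hgood h2

end Pool.Agent.Lib.MP_17a322_nt.VA
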