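import Pool.Agent.Lib.MP_17a322_nt.VA.ZDefs
import Pool.Agent.Lib.MP_17a322_nt.VA.A6
import Pool.Agent.Lib.MP_17a322_nt.VA.F2

/-!
The configurations of points of the main argument in the smallest subgroup.
-/

universe u

namespace Pool.Agent.Lib.MP_17a322_nt.VA

open MvPolynomial Height Filter
open Pool.Agent.Lib.MP_17a322_nt.RO
open Pool.Agent.Lib.MP_17a322_nt.VJ
open Pool.Agent.Lib.MP_17a322_nt.VN

theorem IsSubAV.h_inc {K : Type u} [Field K] {N : ℕ} {B A : AV K N} (hB : IsSubAV B A)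
    {L : Type u} [Field L] [Algebra K L] [AdmissibleAbsValues L] (P : B.Pts L) :
    A.h (hB.inc L P) = B.h P := rfl

/-- The configurations of points needed in the main argument exist in the sequence
`Q = δ P - w` of points of the subgroup `B`. -/
theorem frm_sub {K : Type u} [Field K] [NumberField K] {N : ℕ} (A B : AV K N) (hB : IsSubAV B A)
    (Γ : AddSubgroup (A.Pts K)) (hΓ : Γ.FG) (P : ℕ → A.Pts K) (hP : ∀ i, P i ∈ Γ)
    (hH : Tendsto (fun i => A.h (P i)) (hyperfilter ℕ : Filter ℕ) atTop) {δ : ℕ} (hδ : 0 < δ)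
    (w : ℕ → A.Pts K) (hw : oH (fun i => A.h (P i)) fun i => A.h (w i)) (Q : ℕ → B.Pts K)
    (hQ : ∀ᶠ i in (hyperfilter ℕ : Filter ℕ), hB.inc K (Q i) = δ • P i - w i) :
    FRM B.h (fun i => A.h (P i)) Q ∧
      (∃ c : ℝ, 0 < c ∧ ∀ᶠ i in (hyperfilter ℕ : Filter ℕ), c * A.h (P i) ≤ B.h (Q i)) ∧
      ∃ C : ℝ, 0 < C ∧ ∀ᶠ i in (hyperfilter ℕ : Filter ℕ), B.h (Q i) ≤ C * A.h (P i) := by
  obtain ⟨q, D, hqh, hq0, hpar⟩ := A.exists_quad
  have hD : 0 ≤ D := (abs_nonneg _).trans (hqh 0)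
  have hfrm := FRM_of_FG (h := fun P : A.Pts K => A.h P) hq0 hpar hqh Γ hΓ P hP hH hδ w hw
  have hδ1 : (1 : ℝ) ≤ δ ^ 2 := by
    have : (1 : ℝ) ≤ δ := by exact_mod_cast hδ
    nlinarith
  have hest : ∀ᶠ i in (hyperfilter ℕ : Filter ℕ),
      1 / 4 * A.h (P i) ≤ B.h (Q i) ∧ B.h (Q i) ≤ (3 * δ ^ 2 + 1) * A.h (P i) := by
    filter_upwards [hQ, hH.eventually_ge_atTop (100 * (δ ^ 2 * D) + 100 * D),
      hw (1 / 100) (by norm_num)] with i h1 h2 h3
    have h4 : B.h (Q i) = A.h (δ • P i - w i) := by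
      rw [← hB.h_inc, h1]
    have h5 := quad_close hq0 hpar (δ • P i) (w i) (n := 2) (by norm_num)
    rw [quad_nsmul hpar] at h5
    have h6 := abs_le.mp h5
    have h7 := abs_le.mp (hqh (δ • P i - w i))
    have h8 := abs_le.mp (hqh (P i))
    have h9 := abs_le.mp (hqh (w i))
    have h10 := hq0 (P i)
    have h11 : q (P i) ≤ δ ^ 2 * q (P i) := le_mul_of_one_le_left h10 hδ1
    have h12 : (δ : ℝ) ^ 2 * q (P i) ≤ δ ^ 2 * (A.h (P i) + D) :=
      mul_le_mul_of_nonneg_left (by linarith [h8.2]) (by positivity)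
    have h13 : D ≤ δ ^ 2 * D := le_mul_of_one_le_left hD hδ1
    have h14 : 0 ≤ A.h (P i) := AV.h_nonneg _
    have h15 : A.h (P i) ≤ δ ^ 2 * A.h (P i) := le_mul_of_one_le_left h14 hδ1
    push_cast at h6
    rw [h4]
    constructor
    · linarith [h6.1, h7.2, h8.2, h9.2]
    · linarith [h6.2, h7.1, h8.1, h9.2]
  refine ⟨?_, ⟨1 / 4, by norm_num, hest.mono fun i h => h.1⟩,
    ⟨3 * δ ^ 2 + 1, by positivity, hest.mono fun i h => h.2⟩⟩
  intro hh hhh S hS m R₀ C₀ η hη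
  obtain ⟨a, b, j, h1, h2, h3, h4, h5, h6, h7, h8, h9, h10⟩ :=
    hfrm hh hhh (fun i => S i ∧ hB.inc K (Q i) = δ • P i - w i) (hS.and hQ) m R₀ C₀ η hη
  have ha : B.h (Q a) = A.h (δ • P a - w a) := by rw [← hB.h_inc, h1.2]
  have hb : ∀ i, B.h (Q (b i)) = A.h (δ • P (b i) - w (b i)) := fun i => by
    rw [← hB.h_inc, (h2 i).2]
  have hc : ∀ i, B.h (Q (b i) - 2 ^ j i • Q a) =
      A.h ((δ • P (b i) - w (b i)) - 2 ^ j i • (δ • P a - w a)) := fun i => by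
    rw [← hB.h_inc, map_sub, map_nsmul, (h2 i).2, h1.2]
  refine ⟨a, b, j, h1.1, fun i => (h2 i).1, by rw [ha]; exact h3, by rw [ha]; exact h4, h5, h6, h7,
    fun i => by rw [ha, hb]; exact h8 i, fun i => by rw [ha, hc]; exact h9 i,
    fun i => by rw [ha, hb]; exact h10 i⟩

end Pool.Agent.Lib.MP_17a322_nt.VA
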