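import Pool.Agent.Lib.MP_17a322_nt.VA.Z14
import Pool.Agent.Lib.MP_17a322_nt.VA.N6
import Pool.Agent.Lib.MP_17a322_nt.VA.Z17
import Pool.Agent.Lib.MP_17a322_nt.VA.Z18
import Pool.Agent.Lib.MP_17a322_nt.VA.FA8
import Pool.Agent.Lib.MP_17a322_nt.VA.G33

/-!
Vojta's inequality with `D = 0` on abelian varieties.
-/

universe u

namespace Pool.Agent.Lib.MP_17a322_nt.VA

open MvPolynomial Height Filter
open Pool.Agent.Lib.MP_17a322_nt.RO
open Pool.Agent.Lib.MP_17a322_nt.VJ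
open Pool.Agent.Lib.MP_17a322_nt.VN

theorem IsGerm.const {K : Type u} [Field K] {N : ℕ} {B : AV K N} (p : B.Pts K) {q : B.Pts (GK K)}
    (h : B.Img (Algebra.ofId K (GK K)) p q) : IsGerm B (fun _ => p) q := by
  obtain ⟨c, hc, h1⟩ := h
  exact ⟨c, hc, fun i => h1 i⟩

theorem Z_img_img {K : Type u} [Field K] {N : ℕ} {A : AV K N} {L L' : Type u} [Field L]
    [Algebra K L] [Field L'] [Algebra K L'] (φ : L →ₐ[K] L') (P : A.Pts L) :
    A.Img φ P (A.img φ P) := by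
  obtain ⟨P', hP'⟩ := Z_exists_img A φ P
  rwa [show A.img φ P = P' from (AV.img_eq_iff φ).2 hP']

/-- A sequence of bad points which leaves every hypersurface does not exist. -/
theorem final_seq {K : Type u} [Field K] [NumberField K] {N : ℕ} (A : AV K N)
    (Γ : AddSubgroup (A.Pts K)) (hΓ : Γ.FG) (d r : ℕ)
    (g : Fin r → MvPolynomial (Fin (N + 1)) K) (hg : ∀ k, (g k).IsHomogeneous d)
    (hY : ∀ (F : Type u) [Field F] [Algebra K F] (P : A.Pts F), (∀ k, aeval (A.x P) (g k) = 0) →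
      ∃ (F' : Type u) (_ : Field F') (_ : Algebra K F') (Q : A.Pts F'),
        tdeg K (A.x P) + 2 ≤ tdeg K (A.x Q)) (ε : ℝ) (hε : 0 < ε) (P : ℕ → A.Pts K)
    (hPΓ : ∀ ν, P ν ∈ Γ)
    (hbad : ∀ ν, ε * A.h (P ν) + ν <
      d * A.h (P ν) - logHeight (fun k => aeval (A.x (P ν)) (g k)))
    (hPg : ∀ (G : MvPolynomial (Fin (N + 1)) K) (D : ℕ), G.IsHomogeneous D → G ∉ A.I →
      ∀ᶠ ν in (hyperfilter ℕ : Filter ℕ), aeval (A.x (P ν)) G ≠ 0) : False := by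
  classical
  have hH0 : ∀ ν, 0 ≤ A.h (P ν) := fun ν => logHeight_nonneg _
  have hH : Tendsto (fun ν => A.h (P ν)) (hyperfilter ℕ : Filter ℕ) atTop := by
    refine tendsto_atTop.2 fun C => ?_
    obtain ⟨m, hm⟩ := exists_nat_ge (d * C)
    filter_upwards [eventually_ge_hyper m] with ν hν
    have h1 := hbad ν
    have h2 : 0 ≤ logHeight (fun k => aeval (A.x (P ν)) (g k)) := logHeight_nonneg _
    have h3 : 0 ≤ ε * A.h (P ν) := mul_nonneg hε.le (hH0 ν)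
    have h4 : (m : ℝ) ≤ ν := by exact_mod_cast hν
    have h5 : (d : ℝ) * C < d * A.h (P ν) := by linarith
    exact (lt_of_mul_lt_mul_left h5 (Nat.cast_nonneg d)).le
  obtain ⟨p, hPp⟩ := Z_exists_germ A P
  have hgen := Z_germ_generic hPp hPg
  obtain ⟨B, hB, δ, w, w', b, hδ, hw, hrel, hmin, hnr⟩ := geom_noRat A hH p
  obtain ⟨W, hW⟩ := Z_germ_seq A w'
  obtain ⟨Q₀, hQ₀⟩ := Z_germ_seq B b
  obtain ⟨n, hn⟩ := Z_exists_dim B
  obtain ⟨s, e, nd, κ, hcov⟩ := exists_cover B hn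
  obtain ⟨p₁, hgood⟩ := exists_shift B Q₀ b hQ₀ hmin e nd
  -- the shifted points
  obtain ⟨q₁, hq₁⟩ : ∃ q₁, q₁ = B.img (Algebra.ofId K (GK K)) p₁ := ⟨_, rfl⟩
  have hp₁ : B.Img (Algebra.ofId K (GK K)) p₁ q₁ := by
    rw [hq₁]
    exact Z_img_img _ _
  have hQ : IsGerm B (fun ν => Q₀ ν - p₁) (b - q₁) := (hQ₀.add_sub (IsGerm.const p₁ hp₁)).2
  obtain ⟨Q, hQdef⟩ : ∃ Q : ℕ → B.Pts K, ∀ ν, Q ν = Q₀ ν - p₁ := ⟨_, fun _ => rfl⟩
  have hQb : IsGerm B Q (b - q₁) := by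
    rw [show Q = fun ν => Q₀ ν - p₁ from funext hQdef]
    exact hQ
  have hw₁ : A.Img (k0 K (fun ν => A.h (P ν)) hH).val
      (A.img (Algebra.ofId K (k0 K (fun ν => A.h (P ν)) hH)) (hB.inc K p₁))
      (hB.inc (GK K) q₁) := by
    obtain ⟨y, hy⟩ := Z_exists_img A (k0 K (fun ν => A.h (P ν)) hH).val
      (A.img (Algebra.ofId K (k0 K (fun ν => A.h (P ν)) hH)) (hB.inc K p₁))
    have h1 := Z_img_trans A (Z_img_img (Algebra.ofId K (k0 K (fun ν => A.h (P ν)) hH))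
      (hB.inc K p₁)) hy
    have h2 : (k0 K (fun ν => A.h (P ν)) hH).val.comp
        (Algebra.ofId K (k0 K (fun ν => A.h (P ν)) hH)) = Algebra.ofId K (GK K) :=
      Subsingleton.elim _ _
    rw [h2] at h1
    rw [← Z_img_unique A h1 (Z_inc_img hB hp₁)]
    exact hy
  have hw₂ := Z_img_add A hw hw₁
  have hrel₂ : δ • p = (w' + hB.inc (GK K) q₁) + hB.inc (GK K) (b - q₁) := by
    rw [map_sub, hrel]
    abel
  have hW₂ : IsGerm A (fun ν => W ν + hB.inc K p₁) (w' + hB.inc (GK K) q₁) :=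
    (hW.add_sub (IsGerm.inc hB (IsGerm.const p₁ hp₁))).1
  have hoH := Z_oH_of_img hH hW₂ hw₂
  have hrelK : ∀ᶠ ν in (hyperfilter ℕ : Filter ℕ),
      hB.inc K (Q ν) = δ • P ν - (W ν + hB.inc K p₁) := by
    have h1 := (hPp.nsmul δ)
    rw [hrel₂] at h1
    filter_upwards [h1.ev_eq (hW₂.add_sub (hQb.inc hB)).1] with ν hν
    rw [hν]
    abel
  obtain ⟨hfrm, hlow, hupp⟩ := frm_sub A B hB Γ hΓ P hPΓ hH hδ _ hoH Q hrelK
  -- no gain in every chart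
  have hchart : ∀ x : Fin (N + 1) × Fin s, ∀ ε' : ℝ, 0 < ε' →
      ∀ᶠ ν in (hyperfilter ℕ : Filter ℕ), jg (ChP (nd x.2) κ P Q x.1 ν)
        (fun j => aeval (fun c => A.x (P ν) c / A.x (P ν) x.1) (g j)) < ε' * A.h (P ν) := by
    intro x ε' hε'
    by_contra hcon
    rw [not_eventually_iff] at hcon
    refine Z_chart hB hH hδ hw₂ hPp hQb hrel₂ hgen g hg hY hn.1 (nd x.2) κ ?_ ?_ x.1 ε' hε'
      (hcon.mono fun ν hν => not_lt.1 hν)
    · rw [hq₁]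
      exact (hgood x.2).1
    · intro h2 z₀ z₁ hzz h0 a a' ha ha' ε₁ hε₁
      obtain ⟨k, rfl⟩ := Nat.exists_eq_add_of_le' h2
      exact no_gain B hH Q hfrm hlow hupp (b - q₁) hQb hn (nd x.2) κ
        (by rw [hq₁]; exact hgood x.2) (by rw [hq₁]; exact hnr p₁) z₀ z₁ hzz h0 a a' ha ha' ε₁ hε₁
  -- the family of forms does not vanish
  obtain ⟨j₀, hj₀⟩ : ∃ j, g j ∉ A.I := by
    by_contra hcon
    push Not at hcon
    obtain ⟨F', _, _, q, hq⟩ := hY (GK K) p fun j => Z_x_isPt A p _ (hcon j)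
    exact Z_tdeg_absurd (p := p) (p' := p) (q := q) le_self_add hq (Z_generic_tdeg A hgen q)
  obtain ⟨M, hM⟩ : ∃ M : ℝ, M = ((Fintype.card (Fin (N + 1) × Fin s) : ℕ) : ℝ) + 1 := ⟨_, rfl⟩
  have hM0 : 0 < M := by
    rw [hM]
    positivity
  have hall : ∀ᶠ ν in (hyperfilter ℕ : Filter ℕ), ∀ x : Fin (N + 1) × Fin s,
      jg (ChP (nd x.2) κ P Q x.1 ν)
        (fun j => aeval (fun c => A.x (P ν) c / A.x (P ν) x.1) (g j)) < ε / M * A.h (P ν) := by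
    rw [eventually_all]
    exact fun x => hchart x (ε / M) (by positivity)
  obtain ⟨ν, h1, h2, h3⟩ := (hall.and ((hPg (g j₀) d (hg j₀) hj₀).and
    (hH.eventually_gt_atTop 0))).exists
  have h4 := Z_total g hg (A.x (P ν)) (Z_x_ne A (P ν)) (by
    intro h0
    exact h2 (congrFun h0 j₀)) (fun c v => (nd c).In κ v (Q ν)) (fun v => hcov K v (Q ν))
  have h5 : ∑ x : Fin (N + 1) × Fin s, jg (ChC (A.x (P ν)) x.1 fun v => (nd x.2).In κ v (Q ν))
      (fun k => aeval (fun b => A.x (P ν) b / A.x (P ν) x.1) (g k)) ≤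
      ∑ x : Fin (N + 1) × Fin s, ε / M * A.h (P ν) :=
    Finset.sum_le_sum fun x _ => (h1 x).le
  rw [Finset.sum_const, Finset.card_univ, nsmul_eq_mul] at h5
  have h6 : ((Fintype.card (Fin (N + 1) × Fin s) : ℕ) : ℝ) * (ε / M * A.h (P ν)) ≤
      ε * A.h (P ν) := by
    have h7 : ((Fintype.card (Fin (N + 1) × Fin s) : ℕ) : ℝ) ≤ M := by
      rw [hM]
      linarith
    have h8 : 0 ≤ ε / M * A.h (P ν) := by positivity
    calc _ ≤ M * (ε / M * A.h (P ν)) := mul_le_mul_of_nonneg_right h7 h8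
      _ = ε * A.h (P ν) := by field_simp
  have h9 := hbad ν
  have h10 : d * A.h (P ν) - logHeight (fun k => aeval (A.x (P ν)) (g k)) ≤ ε * A.h (P ν) :=
    h4.trans (h5.trans h6)
  have h11 : (0 : ℝ) ≤ ν := Nat.cast_nonneg ν
  linarith

/-- Vojta's inequality with `D = 0` on abelian varieties. -/
theorem final {K : Type u} [Field K] [NumberField K] {N : ℕ} (A : AV K N)
    (Γ : AddSubgroup (A.Pts K)) (hΓ : Γ.FG) (d r : ℕ)
    (g : Fin r → MvPolynomial (Fin (N + 1)) K) (hg : ∀ k, (g k).IsHomogeneous d)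
    (hY : ∀ (F : Type u) [Field F] [Algebra K F] (P : A.Pts F), (∀ k, aeval (A.x P) (g k) = 0) →
      ∃ (F' : Type u) (_ : Field F') (_ : Algebra K F') (Q : A.Pts F'),
        tdeg K (A.x P) + 2 ≤ tdeg K (A.x Q)) (ε : ℝ) (hε : 0 < ε) :
    ∃ (G : MvPolynomial (Fin (N + 1)) K) (C : ℝ), G ∉ A.I ∧ (∃ D, G.IsHomogeneous D) ∧
      ∀ P ∈ Γ, aeval (A.x P) G ≠ 0 →
        d * logHeight (A.x P) - logHeight (fun k => aeval (A.x P) (g k)) ≤
          ε * logHeight (A.x P) + C := by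
  by_contra hcon
  push Not at hcon
  obtain ⟨P, hP, hPg⟩ := Z_generic_seq A (fun ν => {P : A.Pts K | P ∈ Γ ∧ ε * A.h P + ν <
    d * A.h P - logHeight (fun k => aeval (A.x P) (g k))}) fun G D hGD hG ν => by
      obtain ⟨p, h1, h2, h3⟩ := hcon G ν hG ⟨D, hGD⟩
      exact ⟨p, ⟨h1, h3⟩, h2⟩
  exact final_seq A Γ hΓ d r g hg hY ε hε P (fun ν => (hP ν).1) (fun ν => (hP ν).2)
    fun G D hGD hG => (hPg G D hGD hG).filter_mono Nat.hyperfilter_le_atTop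

end Pool.Agent.Lib.MP_17a322_nt.VA
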