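import Pool.Agent.Lib.MP_17a322_nt.VA.M1
import Pool.Agent.Lib.MP_17a322_nt.VN.F1

/-!
Germs of vectors and of minors; vectors of small height.
-/

universe u

namespace Pool.Agent.Lib.MP_17a322_nt.VA

open MvPolynomial Height Filter
open Pool.Agent.Lib.MP_17a322_nt.RO
open Pool.Agent.Lib.MP_17a322_nt.VJ
open Pool.Agent.Lib.MP_17a322_nt.VN

/-- The germ of a sequence of families of vectors. -/
noncomputable def GE {K : Type*} {c n : ℕ} (E : ℕ → Fin c → Fin n → K) : Fin c → Fin n → GK K :=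
  fun b a => gm fun i => E i b a

theorem exists_GE {K : Type*} {c n : ℕ} (v : Fin c → Fin n → GK K) :
    ∃ E : ℕ → Fin c → Fin n → K, GE E = v := by
  choose α hα using fun b a => exists_gm (v b a)
  exact ⟨fun i b a => α b a i, funext fun b => funext fun a => hα b a⟩

theorem mn_GE {K : Type u} [Field K] {c n : ℕ} (E : ℕ → Fin c → Fin n → K) (I : Fin c → Fin n) :
    mn (GE E) I = gm fun i => mn (E i) I := by
  have h1 : mn (fun b a => (fun i => E i b a : ℕ → K)) I = fun i => mn (E i) I := by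
    funext i
    exact (mn_map (Pi.evalRingHom (fun _ : ℕ => K) i) (fun b a => (fun i => E i b a : ℕ → K))
      I).symm
  have h2 := mn_map (gR K) (fun b a => (fun i => E i b a : ℕ → K)) I
  rw [h1] at h2
  exact h2

theorem ind_GE {K : Type u} [Field K] {c n : ℕ} (E : ℕ → Fin c → Fin n → K) :
    LinearIndependent (GK K) (GE E) ↔
      ∀ᶠ i in (hyperfilter ℕ : Filter ℕ), ∃ I, mn (E i) I ≠ 0 := by
  rw [mn_indep, Ultrafilter.eventually_exists_iff]
  exact exists_congr fun I => by rw [mn_GE, gm_ne_zero_iff]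

theorem exists_sml_multiple {K : Type u} [Field K] [NumberField K] {H : ℕ → ℝ} {n : ℕ}
    (x : ℕ → Fin n → K) (hx : ∀ᶠ i in (hyperfilter ℕ : Filter ℕ), x i ≠ 0)
    (h : ∀ δ : ℝ, 0 < δ → ∀ᶠ i in (hyperfilter ℕ : Filter ℕ), logHeight (x i) ≤ δ * H i) :
    ∃ a₀ : Fin n, (∀ᶠ i in (hyperfilter ℕ : Filter ℕ), x i a₀ ≠ 0) ∧
      ∀ a, sml H (gm fun i => x i a / x i a₀) := by
  have h1 : ∀ᶠ i in (hyperfilter ℕ : Filter ℕ), ∃ a, x i a ≠ 0 := by
    filter_upwards [hx] with i hi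
    exact Function.ne_iff.1 hi
  obtain ⟨a₀, h2⟩ := Ultrafilter.eventually_exists_iff.mp h1
  refine ⟨a₀, h2, fun a => sml_iff.2 fun δ hδ => ?_⟩
  filter_upwards [h δ hδ] with i hi
  have h3 : logHeight₁ (x i a / x i a₀) ≤ logHeight (x i) := by
    rw [logHeight₁_div_eq_logHeight]
    have h4 : (![x i a, x i a₀] : Fin 2 → K) = x i ∘ ![a, a₀] := by
      funext b
      fin_cases b <;> rfl
    rw [h4]
    exact logHeight_comp_le _ _
  exact h3.trans hi

theorem CLam {K : Type u} [Field K] [NumberField K] {H : ℕ → ℝ}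
    (hH : Tendsto H (hyperfilter ℕ : Filter ℕ) atTop) {k n : ℕ} (E : ℕ → Fin k → Fin n → K)
    (h : ∀ x : Fin n → GK K, (∀ a, sml H (x a)) → (∀ j, ∑ a, GE E j a * x a = 0) → x = 0) :
    ∃ ε : ℝ, 0 < ε ∧ ∀ᶠ i in (hyperfilter ℕ : Filter ℕ), ∀ x : Fin n → K, x ≠ 0 →
      (∀ j, ∑ a, E i j a * x a = 0) → ε * H i ≤ logHeight x := by
  by_contra hcon
  push Not at hcon
  have hQ : ∀ m : ℕ, ∀ᶠ i in (hyperfilter ℕ : Filter ℕ), ∃ x : Fin n → K, x ≠ 0 ∧
      (∀ j, ∑ a, E i j a * x a = 0) ∧ logHeight x < 1 / ((m : ℝ) + 1) * H i := by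
    intro m
    have h1 := hcon (1 / ((m : ℝ) + 1)) (by positivity)
    exact h1
  obtain ⟨ν, h1, h2⟩ := exists_diag hQ
  obtain ⟨x, hx⟩ := exists_seq h1
  have hx0 : ∀ᶠ i in (hyperfilter ℕ : Filter ℕ), x i ≠ 0 := by
    filter_upwards [hx] with i hi
    exact hi.1
  have hxs : ∀ δ : ℝ, 0 < δ → ∀ᶠ i in (hyperfilter ℕ : Filter ℕ),
      logHeight (x i) ≤ δ * H i := by
    intro δ hδ
    obtain ⟨N, hN⟩ := exists_nat_one_div_lt hδ
    filter_upwards [hx, h2 N, hH.eventually_ge_atTop 0] with i hi hi2 hi3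
    refine hi.2.2.le.trans (mul_le_mul_of_nonneg_right ?_ hi3)
    refine le_trans ?_ hN.le
    have h5 : (N : ℝ) ≤ (ν i : ℝ) := by exact_mod_cast hi2
    exact one_div_le_one_div_of_le (by positivity) (by linarith)
  obtain ⟨a₀, ha₀, hs⟩ := exists_sml_multiple x hx0 hxs
  have hy := h (fun a => gm fun i => x i a / x i a₀) hs (fun j => ?_)
  · have h5 := congrFun hy a₀
    have h6 : gm (fun i => x i a₀ / x i a₀) = (0 : GK K) := h5
    rw [gm_eq_zero_iff] at h6
    have h7 : ∀ᶠ _i in (hyperfilter ℕ : Filter ℕ), False := by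
      filter_upwards [h6, ha₀] with i hi hi2
      rw [div_self hi2] at hi
      exact one_ne_zero hi
    exact (Filter.eventually_false_iff_eq_bot.1 h7 |> (hyperfilter ℕ).neBot.ne)
  · have h5 : ∑ a, GE E j a * (gm fun i => x i a / x i a₀) =
        gm fun i => ∑ a, E i j a * (x i a / x i a₀) := by
      rw [gm_sum]
      rfl
    rw [h5, gm_eq_zero_iff]
    filter_upwards [hx] with i hi
    have h6 : ∑ a, E i j a * (x i a / x i a₀) = (∑ a, E i j a * x i a) / x i a₀ := by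
      rw [Finset.sum_div]
      exact Finset.sum_congr rfl fun a _ => (mul_div_assoc _ _ _).symm
    rw [h6, hi.2.1 j, zero_div]

end Pool.Agent.Lib.MP_17a322_nt.VA
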