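import Pool.Agent.Lib.MP_17a322_nt.VA.G05b
import Pool.Agent.Lib.MP_17a322_nt.VA.G13

/-!
VA, part G, job G15: the logarithmic derivative of a point of a subgroup is in the tangent space.

Proof (complete). `F := FractionRing (PowerSeries L)`, `R := PowerSeries L`. `exists_expK` (for the base field `k`: the derivation kills `k`, `D (algebraMap k L c) = 0`) gives `e, φ, ψ` with `φ, ψ : L →ₐ[k] F`
(then `φ.restrictScalars K`, `ψ.restrictScalars K`). Let `P₁, P₂` be the images of `P`; they are zeros of `𝔟` (`ZP_img`), so `P₁ - P₂` is (`GrpI`, second component, for the field `F`). `tan_exp` (for the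
`K`-algebra homomorphisms, `x = A.x P`, `c = 1`) gives `Tan A (P₁ - P₂) (ell A D P)`: `ê : Fin (N+1) → R` with `A.x (P₁ - P₂) i = c * algebraMap R F (ê i)`, `coeff 0 (ê i) = oL A L i`, `coeff 1 (ê i) = ell A D P i`.
Let `G ∈ 𝔟`. `aeval ê G = 0` in `R`: `G ∈ 𝔟 ≤ loc k (A.x (P₁ - P₂)) = loc k (algebraMap R F ∘ ê)` (`loc_smul`), `aeval_of_mem_loc`, `aeval_algebraMap_apply`, `IsFractionRing.injective`. So `coeff 1 (aeval ê G) = 0`, and by `coeff_aeval` (G10)
this is `∑ i, aeval (oL A L) (pderiv i G) * ell A D P i`. `ell A D P A.b₀ = 0`: `ell_b₀`. (The hypothesis of `ell_b₀`.. on `K`: `D` kills `K` since it kills `k`.)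
`Tsp_kl`: for `τ ∈ Tsp A 𝔟 L` and a zero `0` of `𝔟` the vector `o + ε τ` is a zero of `𝔟`: `aeval_dual` (G10): `G (o + ε τ) = inl (aeval (oL A L) G) + inr (∑ i, aeval (oL A L) (pderiv i G) * τ i)`; the first part is 0
since `ZP A 𝔟 (0 : A.Pts L)` and `zero_rep`, `loc_smul`, `aeval_of_mem_loc`.
`Tsp_add`, `Tsp_smul`, `Tsp_zero`: clear.
-/

universe u

namespace Pool.Agent.Lib.MP_17a322_nt.VA.G

open MvPolynomial

section

variable {K : Type u} [Field K] {N : ℕ} (A : AV K N) {k : Type u} [Field k] [Algebra K k]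
  {𝔟 : Ideal (MvPolynomial (Fin (N + 1)) k)} {L : Type u} [Field L] [Algebra K L]
  [Algebra k L]

theorem Tsp_zero : (0 : Fin (N + 1) → L) ∈ Tsp A 𝔟 L := by
  refine ⟨rfl, fun G _ => Finset.sum_eq_zero fun i _ => ?_⟩
  rw [Pi.zero_apply, mul_zero]

theorem Tsp_add {τ τ' : Fin (N + 1) → L} (h : τ ∈ Tsp A 𝔟 L) (h' : τ' ∈ Tsp A 𝔟 L) :
    τ + τ' ∈ Tsp A 𝔟 L := by
  refine ⟨?_, fun G hG => ?_⟩
  · rw [Pi.add_apply, h.1, h'.1, add_zero]
  · have h1 := h.2 G hG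
    have h2 := h'.2 G hG
    have h3 : ∑ i, aeval (oL A L) (pderiv i G) * (τ + τ') i =
        ∑ i, aeval (oL A L) (pderiv i G) * τ i + ∑ i, aeval (oL A L) (pderiv i G) * τ' i := by
      rw [← Finset.sum_add_distrib]
      refine Finset.sum_congr rfl fun i _ => ?_
      rw [Pi.add_apply, mul_add]
    rw [h3, h1, h2, add_zero]

theorem Tsp_smul {τ : Fin (N + 1) → L} (h : τ ∈ Tsp A 𝔟 L) (c : L) : c • τ ∈ Tsp A 𝔟 L := by
  refine ⟨?_, fun G hG => ?_⟩
  · rw [Pi.smul_apply, h.1, smul_zero]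
  · have h1 := h.2 G hG
    have h3 : ∑ i, aeval (oL A L) (pderiv i G) * (c • τ) i =
        c * ∑ i, aeval (oL A L) (pderiv i G) * τ i := by
      rw [Finset.mul_sum]
      refine Finset.sum_congr rfl fun i _ => ?_
      rw [Pi.smul_apply, smul_eq_mul]
      ring
    rw [h3, h1, mul_zero]

variable [IsScalarTower K k L] (h𝔟 : GrpI A 𝔟)

include h𝔟

theorem kl_oL : Kl 𝔟 (oL A L) := by
  intro G hG
  have h1 : 𝔟 ≤ loc k (A.x (0 : A.Pts L)) := GrpI.zero A h𝔟 L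
  obtain ⟨c, hc, h2⟩ := zero_rep A L
  have h3 : A.x (0 : A.Pts L) = fun i => c * oL A L i := funext h2
  rw [h3, loc_smul hc] at h1
  exact aeval_of_mem_loc (h1 hG)

theorem Tsp_kl {τ : Fin (N + 1) → L} (h : τ ∈ Tsp A 𝔟 L) :
    Kl 𝔟 (fun i => (TrivSqZeroExt.inl (oL A L i) + TrivSqZeroExt.inr (τ i) : DualNumber L)) := by
  intro G hG
  have h1 : aeval (fun i => (TrivSqZeroExt.inl (oL A L i) + TrivSqZeroExt.inr (τ i) :
      DualNumber L)) G = TrivSqZeroExt.inl (aeval (oL A L) G) +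
      TrivSqZeroExt.inr (∑ i, aeval (oL A L) (pderiv i G) * τ i) := aeval_dual (oL A L) τ G
  have h2 : aeval (oL A L) G = 0 := kl_oL A h𝔟 G hG
  rw [h1, h.2 G hG, h2, TrivSqZeroExt.inl_zero, TrivSqZeroExt.inr_zero, add_zero]

theorem ell_mem [CharZero L] {D : Derivation ℤ L L} (hD : ∀ c : k, D (algebraMap k L c) = 0)
    {P : A.Pts L} (hP : ZP A 𝔟 P) : ell A D P ∈ Tsp A 𝔟 L := by
  refine ⟨ell_b₀ A D P, fun G hG => ?_⟩
  obtain ⟨e, φ, ψ, h0, h1, -, hφ, hψ⟩ := exists_expK (K := k) D hD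
  obtain ⟨P₁, hP₁⟩ := Z_exists_img A (φ.restrictScalars K) P
  obtain ⟨P₂, hP₂⟩ := Z_exists_img A (ψ.restrictScalars K) P
  have hz : ZP A 𝔟 (P₁ - P₂) := h𝔟.2 _ P₁ P₂ (ZP_img A φ hP₁ hP) (ZP_img A ψ hP₂ hP)
  have ht : Tan A (P₁ - P₂) (ell A D P) :=
    tan_exp A (φ := φ.restrictScalars K) (ψ := ψ.restrictScalars K) h0 h1 (fun a => hφ a) (fun a => hψ a)
      hP₁ hP₂ (x := A.x P) (c := 1) one_ne_zero fun i => (one_mul _).symm
  obtain ⟨y, c, hc, h2, -, h3, h4⟩ := ht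
  have h5 : A.x (P₁ - P₂) = fun i => c * algebraMap (PowerSeries L) (FractionRing (PowerSeries L)) (y i) :=
    funext h2
  have h6 : 𝔟 ≤ loc k (A.x (P₁ - P₂)) := hz
  rw [h5, loc_smul hc] at h6
  have h7 : algebraMap (PowerSeries L) (FractionRing (PowerSeries L)) (aeval y G) = 0 := by
    rw [← aeval_algebraMap_apply]
    exact aeval_of_mem_loc (h6 hG)
  have h8 : aeval y G = 0 := by
    refine IsFractionRing.injective (PowerSeries L) (FractionRing (PowerSeries L)) ?_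
    rw [h7, map_zero]
  have h9 := (coeff_aeval G y).2
  rw [h8, map_zero] at h9
  have h10 : (fun i => PowerSeries.coeff 0 (y i)) = oL A L := funext h3
  rw [h10] at h9
  rw [h9]
  exact Finset.sum_congr rfl fun i _ => by rw [h4]

end

end Pool.Agent.Lib.MP_17a322_nt.VA.G
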