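import Pool.Agent.Lib.MP_17a322_nt.VA.G07b
import Pool.Agent.Lib.MP_17a322_nt.VA.G15

/-!
VA, part G, job G16: every tangent vector is the logarithmic derivative of the generic point.

Proof (complete). Let `x := A.x y`, `e i := inl (oL A L i) + inr (τ i) : DualNumber L`, `X i := inl (x i)`. `e` is a zero of `𝔟` (`Tsp_kl`), and `X` too (`kl_of_ZP`, and `aeval (inl ∘ x) G = inl (aeval x G)`; `y` is a zero
of `𝔟` since `loc k (A.x y) = 𝔟`). Choose `j` with `x j ≠ 0`. Let `h a := aeval (Sum.elim X e) (A.S a j) : DualNumber L`. Then `fst (h a) = aeval (Sum.elim x (oL A L)) (A.S a j) = γ * (x a * x j)` with `γ ≠ 0` independent of `a`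
(`S_pts` for `y, 0`, `zero_rep`, `A.S_smul`, `add_zero`, `sub_zero`). So `h j` is a unit (`isUnit_dual`). Let `z a := h a * (h j)⁻¹`, `fst (z a) = x a / x j`, `v a := snd (z a)`, so `z a = inl (x a / x j) + inr (v a)`, `z j = 1`.
(1) `h` is a zero of every homogeneous `G ∈ 𝔟`: `aeval (Sum.elim X e) (addP A k G j) = 0` by `sum_mem`, `prodI_zero`, and the left side is `aeval h G` (`aeval_addP_ring`).
(2) If `g : MvPolynomial (Fin (N+1)) k` and `aeval (fun a => x a / x j) g = 0` then `aeval z g = 0`: let `d := g.totalDegree` and `G := ∑ m ∈ g.support, C (coeff m g) * (∏ i, X i ^ m i) * X j ^ (d - ∑ i, m i)`, homogeneous of degree `d`. For every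
commutative `k`-algebra, vector `w` and unit `u = w j`: `aeval w G = u ^ d * aeval (w / u) g` (term by term: `(∏ w i ^ m i) * u ^ (d - |m|) = u ^ d * ∏ (w i / u) ^ m i`). For `w = x` this is 0, so `G ∈ loc k x = 𝔟` (`mem_loc_of_homog`), so by (1) it is 0 for `w = h`, so
`aeval z g = 0`. Taking `snd` and `aeval_dual`: `∑ i, aeval (x / x j) (pderiv i g) * v i = 0`.
(3) `der_rel` (G07b) for `z := x / x j` and `v`: a derivation `D` with `D = 0` on `k` and `D (x a / x j) = v a`. So `z a = inl (x' a) + inr (D (x' a))` with `x' a := x a / x j`.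
(4) `ell A D y = ellv A x' (D ∘ x')` (`ell_eq`, `c = x j`). By `dif_mem` and `prodI_zero` at `(X, e)` [`aeval_bind₁`, the inner substitution gives `h`; `aeval_map_algebraMap`], with `b := j`, `d := A.b₀` and `e A.b₀ = 1`
(`oL A L A.b₀ = 1`, `τ A.b₀ = 0`): `aeval (Sum.elim h X) (A.S a' b') = aeval (Sum.elim h X) (A.S a' A.b₀) * e b'` for all `a', b'`. Here `h = h j • z`, `X = inl (x j) • inl ∘ x'`, so by `A.S_smul` (and cancelling units)
`aeval (Sum.elim z (inl ∘ x')) (A.S a' b') = aeval (Sum.elim z (inl ∘ x')) (A.S a' A.b₀) * e b'`. By `aeval_dual` (the vector `Sum.elim z (inl ∘ x')` is `inl (Sum.elim x' x') + inr (Sum.elim (D ∘ x') 0)`, `Fintype.sum_sum_type`)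
`aeval (Sum.elim z (inl ∘ x')) (A.S a' b') = inl (aeval (Sum.elim x' x') (A.S a' b')) + inr (dS A a' b' x' (D ∘ x'))`. Compare `snd`: `dS A a' b' x' v = A.dup x' a' * τ b' + dS A a' A.b₀ x' v * oL A L b'`. For `a' = ix A x'` (`dup_ix_ne`): `τ b' = ellv A x' v b'`.
-/

universe u

namespace Pool.Agent.Lib.MP_17a322_nt.VA.G

open MvPolynomial

/-- Homogenisation of polynomials with respect to the variable `j`. -/
theorem exists_homogenize {k : Type u} [Field k] {n : ℕ} (j : Fin n)
    (g : MvPolynomial (Fin n) k) : ∃ (d : ℕ) (G : MvPolynomial (Fin n) k), G.IsHomogeneous d ∧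
      ∀ (R : Type u) [CommRing R] [Algebra k R] (w w' : Fin n → R) (c : R), c * w' j = c →
        (∀ i, w i = c * w' i) → aeval w G = c ^ d * aeval w' g := by
  have hle : ∀ m ∈ g.support, ∑ i, m i ≤ g.totalDegree := by
    intro m hm
    have h1 := le_totalDegree hm
    rwa [Finsupp.sum_fintype _ _ (fun _ => rfl)] at h1
  refine ⟨g.totalDegree, ∑ m ∈ g.support, monomial m (coeff m g) *
    X j ^ (g.totalDegree - ∑ i, m i), ?_, ?_⟩
  · refine IsHomogeneous.sum _ _ _ fun m hm => ?_
    have h1 : (monomial m (coeff m g)).IsHomogeneous (∑ i, m i) := by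
      refine isHomogeneous_monomial _ ?_
      rw [Finsupp.degree_eq_sum]
    have h2 : (X j ^ (g.totalDegree - ∑ i, m i) : MvPolynomial (Fin n) k).IsHomogeneous
        (g.totalDegree - ∑ i, m i) := isHomogeneous_X_pow _ _
    have h3 := h1.mul h2
    rwa [Nat.add_sub_cancel' (hle m hm)] at h3
  · intro R _ _ w w' c hj hw
    rw [map_sum, aeval_def w' g, eval₂_eq', Finset.mul_sum]
    refine Finset.sum_congr rfl fun m hm => ?_
    rw [map_mul, aeval_monomial, map_pow, aeval_X, hw j, hj, Finsupp.prod_fintype _ _ (fun _ => pow_zero _)]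
    simp_rw [hw, mul_pow]
    rw [Finset.prod_mul_distrib, Finset.prod_pow_eq_pow_sum]
    have h3 : c ^ g.totalDegree = c ^ (∑ i, m i) * c ^ (g.totalDegree - ∑ i, m i) := by
      rw [← pow_add, Nat.add_sub_cancel' (hle m hm)]
    rw [h3]
    ring

section

variable {K : Type u} [Field K] {N : ℕ} (A : AV K N) {k : Type u} [Field k] [Algebra K k]
  [IsAlgClosed k] {𝔟 : Ideal (MvPolynomial (Fin (N + 1)) k)} {L : Type u} [Field L] [Algebra K L]
  [Algebra k L] [IsScalarTower K k L] (h𝔟 : GrpI A 𝔟)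

include h𝔟

theorem exists_der [CharZero L] {y : A.Pts L} (hy : loc k (A.x y) = 𝔟) {τ : Fin (N + 1) → L}
    (hτ : τ ∈ Tsp A 𝔟 L) : ∃ D : Derivation ℤ L L, (∀ c : k, D (algebraMap k L c) = 0) ∧
      ell A D y = τ := by
  classical
  have hk : CharZero k := (algebraMap k L).charZero
  have htw : IsScalarTower K k (DualNumber L) := by
    refine IsScalarTower.of_algebraMap_eq fun c => ?_
    change TrivSqZeroExt.inl (algebraMap K L c) = TrivSqZeroExt.inl (algebraMap k L (algebraMap K k c))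
    rw [← IsScalarTower.algebraMap_apply]
  set x : Fin (N + 1) → L := A.x y with hx
  let e : Fin (N + 1) → DualNumber L := fun i =>
    TrivSqZeroExt.inl (oL A L i) + TrivSqZeroExt.inr (τ i)
  let X' : Fin (N + 1) → DualNumber L := fun i => TrivSqZeroExt.inl (x i)
  have he : Kl 𝔟 e := Tsp_kl A h𝔟 hτ
  have hzy : ZP A 𝔟 y := hy.ge
  have hX' : Kl 𝔟 X' := by
    intro G hG
    have h1 := aeval_dual x 0 G
    have h2 : aeval x G = 0 := kl_of_ZP A hzy G hG
    rw [h2] at h1
    have h3 : (fun i => (TrivSqZeroExt.inl (x i) + TrivSqZeroExt.inr ((0 : Fin (N + 1) → L) i) :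
        DualNumber L)) = X' := by
      funext i
      change TrivSqZeroExt.inl (x i) + TrivSqZeroExt.inr (0 : L) = TrivSqZeroExt.inl (x i)
      rw [TrivSqZeroExt.inr_zero, add_zero]
    rw [h3] at h1
    rw [h1]
    have h4 : ∑ i, aeval x (pderiv i G) * (0 : Fin (N + 1) → L) i = 0 :=
      Finset.sum_eq_zero fun i _ => mul_zero _
    rw [h4, TrivSqZeroExt.inl_zero, TrivSqZeroExt.inr_zero, add_zero]
  obtain ⟨j, hj⟩ := A.exists_x_ne y
  let h : Fin (N + 1) → DualNumber L := fun a => aeval (Sum.elim X' e) (A.S a j)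
  have hel : Sum.elim X' e = fun s => (TrivSqZeroExt.inl (Sum.elim x (oL A L) s) +
      TrivSqZeroExt.inr (Sum.elim (0 : Fin (N + 1) → L) τ s) : DualNumber L) := by
    funext s
    rcases s with i | i
    · change TrivSqZeroExt.inl (x i) = TrivSqZeroExt.inl (x i) + TrivSqZeroExt.inr (0 : L)
      rw [TrivSqZeroExt.inr_zero, add_zero]
    · rfl
  obtain ⟨c, hc, hcS⟩ := S_pts A y 0
  obtain ⟨c₀, hc₀, hcz⟩ := zero_rep A L
  have hSx : ∀ a b, c₀ ^ 2 * aeval (Sum.elim x (oL A L)) (A.S a b) = c * (x a * x b) := by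
    intro a b
    have h1 := hcS a b
    rw [add_zero, sub_zero] at h1
    have h2 := A.S_smul a b (1 : L) c₀ x (oL A L)
    have h3 : (fun i => (1 : L) * x i) = A.x y := funext fun i => one_mul _
    have h4 : (fun i => c₀ * oL A L i) = A.x (0 : A.Pts L) := funext fun i => (hcz i).symm
    rw [h3, h4, h1, one_pow, one_mul] at h2
    exact h2.symm
  have hfst : ∀ a, c₀ ^ 2 * (h a).fst = c * (x a * x j) := by
    intro a
    rw [← hSx a j]
    have h1 : h a = TrivSqZeroExt.inl (aeval (Sum.elim x (oL A L)) (A.S a j)) + TrivSqZeroExt.inr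
        (∑ s, aeval (Sum.elim x (oL A L)) (pderiv s (A.S a j)) *
          Sum.elim (0 : Fin (N + 1) → L) τ s) := by
      change aeval (Sum.elim X' e) (A.S a j) = _
      rw [hel]
      exact aeval_dual _ _ _
    rw [h1, TrivSqZeroExt.fst_add, TrivSqZeroExt.fst_inl, TrivSqZeroExt.fst_inr, add_zero]
  have hxj : x j ≠ 0 := hj
  have hj0 : (h j).fst ≠ 0 := by
    intro h0
    have h1 := hfst j
    rw [h0, mul_zero] at h1
    exact mul_ne_zero hc (mul_ne_zero hxj hxj) h1.symm
  obtain ⟨u, hu⟩ := isUnit_dual hj0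
  let z : Fin (N + 1) → DualNumber L := fun a => ↑u⁻¹ * h a
  have hz : ∀ a, h a = h j * z a := by
    intro a
    change h a = h j * (↑u⁻¹ * h a)
    rw [← mul_assoc, ← hu, Units.mul_inv, one_mul]
  have hzj : z j = 1 := by
    change ↑u⁻¹ * h j = 1
    rw [← hu, Units.inv_mul]
  let x' : Fin (N + 1) → L := fun a => x a / x j
  let v : Fin (N + 1) → L := fun a => (z a).snd
  have hzf : ∀ a, (z a).fst = x' a := by
    intro a
    have h1 := hfst a
    rw [hz a, TrivSqZeroExt.fst_mul, ← mul_assoc, hfst j] at h1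
    have h2 : c * (x j * x j) ≠ 0 := mul_ne_zero hc (mul_ne_zero hxj hxj)
    change (z a).fst = x a / x j
    rw [eq_div_iff hxj]
    have h3 : c * (x j) * ((z a).fst * x j) = c * (x j) * x a := by
      calc c * (x j) * ((z a).fst * x j) = c * (x j * x j) * (z a).fst := by ring
        _ = c * (x a * x j) := h1
        _ = _ := by ring
    exact mul_left_cancel₀ (mul_ne_zero hc hxj) h3
  have hzv : z = fun a => (TrivSqZeroExt.inl (x' a) + TrivSqZeroExt.inr (v a) : DualNumber L) := by
    funext a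
    rw [← hzf a]
    exact (TrivSqZeroExt.inl_fst_add_inr_snd_eq (z a)).symm
  have step1 : ∀ (G : MvPolynomial (Fin (N + 1)) k) (d : ℕ), G.IsHomogeneous d → G ∈ 𝔟 →
      aeval h G = 0 := by
    intro G d hd hG
    have h1 := prodI_zero hX' he (sum_mem A h𝔟 hy hG hd j)
    rw [aeval_addP_ring] at h1
    exact h1
  have step2 : ∀ g : MvPolynomial (Fin (N + 1)) k, aeval x' g = 0 →
      ∑ i, aeval x' (pderiv i g) * v i = 0 := by
    intro g hg
    obtain ⟨d, G, hG, hGe⟩ := exists_homogenize j g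
    have h1 : aeval x G = 0 := by
      rw [hGe L x x' (x j) (mul_div_cancel₀ _ hxj) fun i => (mul_div_cancel₀ _ hxj).symm, hg,
        mul_zero]
    have h2 : G ∈ 𝔟 := by
      rw [← hy]
      exact (mem_loc_of_homog hG).2 h1
    have h3 := step1 G d hG h2
    rw [hGe (DualNumber L) h z (h j) (by rw [hzj, mul_one]) hz] at h3
    have h4 : aeval z g = 0 := by
      have h5 : IsUnit (h j ^ d) := (hu ▸ u.isUnit : IsUnit (h j)).pow d
      exact (h5.mul_right_eq_zero).1 h3
    rw [hzv, aeval_dual, hg] at h4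
    have h6 := congrArg TrivSqZeroExt.snd h4
    rw [TrivSqZeroExt.snd_add, TrivSqZeroExt.snd_inl, TrivSqZeroExt.snd_inr, zero_add,
      TrivSqZeroExt.snd_zero] at h6
    exact h6
  obtain ⟨D, hD, hDx⟩ := der_rel x' v step2
  refine ⟨D, hD, ?_⟩
  have hDK : ∀ c : K, D (algebraMap K L c) = 0 := by
    intro c
    rw [IsScalarTower.algebraMap_apply K k L]
    exact hD _
  have hxx : ∀ i, A.x y i = x j * x' i := fun i => (mul_div_cancel₀ _ hxj).symm
  rw [ell_eq A hDK hxj hxx]
  have hDv : (fun i => D (x' i)) = v := funext hDx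
  rw [hDv]
  have step3 : ∀ a' b', aeval (Sum.elim h X') (A.S a' b') =
      aeval (Sum.elim h X') (A.S a' A.b₀) * e b' := by
    intro a' b'
    have h1 := prodI_zero hX' he (dif_mem A hy a' b' j A.b₀)
    have h2 : ∀ b'', aeval (Sum.elim X' e) (bind₁ (Sum.elim
        (fun a => map (algebraMap K k) (A.S a j)) fun i => X (Sum.inl i))
        (map (algebraMap K k) (A.S a' b''))) = aeval (Sum.elim h X') (A.S a' b'') := by
      intro b''
      rw [aeval_bind₁, aeval_map_algebraMap]
      refine congrArg (fun f => aeval f (A.S a' b'')) ?_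
      funext s
      rcases s with i | i
      · change aeval (Sum.elim X' e) (map (algebraMap K k) (A.S i j)) = h i
        rw [aeval_map_algebraMap]
      · change aeval (Sum.elim X' e) (X (Sum.inl i)) = X' i
        rw [aeval_X]
        rfl
    have h3 : e A.b₀ = 1 := by
      change TrivSqZeroExt.inl (oL A L A.b₀) + TrivSqZeroExt.inr (τ A.b₀) = (1 : DualNumber L)
      have h4 : oL A L A.b₀ = 1 := by
        unfold oL
        rw [o_b₀, map_one]
      rw [h4, hτ.1, TrivSqZeroExt.inr_zero, add_zero, TrivSqZeroExt.inl_one]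
    rw [map_sub, map_mul, map_mul, h2, h2, aeval_X, aeval_X, Sum.elim_inr, Sum.elim_inr, h3,
      mul_one, sub_eq_zero] at h1
    exact h1
  have hXx : X' = fun i => (TrivSqZeroExt.inl (x j) : DualNumber L) * TrivSqZeroExt.inl (x' i) := by
    funext i
    rw [TrivSqZeroExt.inl_mul_inl]
    change TrivSqZeroExt.inl (x i) = _
    rw [← hxx i]
  have step4 : ∀ a' b', aeval (Sum.elim z fun i => (TrivSqZeroExt.inl (x' i) : DualNumber L))
      (A.S a' b') = aeval (Sum.elim z fun i => (TrivSqZeroExt.inl (x' i) : DualNumber L))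
        (A.S a' A.b₀) * e b' := by
    intro a' b'
    have h1 := step3 a' b'
    have hh : h = fun i => h j * z i := funext hz
    have h2 : ∀ b'', aeval (Sum.elim h X') (A.S a' b'') = (h j) ^ 2 *
        (TrivSqZeroExt.inl (x j) : DualNumber L) ^ 2 * aeval (Sum.elim z fun i =>
          (TrivSqZeroExt.inl (x' i) : DualNumber L)) (A.S a' b'') := by
      intro b''
      rw [← A.S_smul a' b'' (h j) (TrivSqZeroExt.inl (x j)) z, ← hh, ← hXx]
    rw [h2, h2, mul_assoc (h j ^ 2 * _)] at h1
    have h3 : IsUnit ((h j) ^ 2 * (TrivSqZeroExt.inl (x j) : DualNumber L) ^ 2) := by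
      refine ((hu ▸ u.isUnit : IsUnit (h j)).pow 2).mul (IsUnit.pow 2 (isUnit_dual ?_))
      rw [TrivSqZeroExt.fst_inl]
      exact hxj
    exact h3.mul_left_cancel h1
  have step5 : ∀ a' b', aeval (Sum.elim z fun i => (TrivSqZeroExt.inl (x' i) : DualNumber L))
      (A.S a' b') = TrivSqZeroExt.inl (aeval (Sum.elim x' x') (A.S a' b')) +
        TrivSqZeroExt.inr (dS A a' b' x' v) := by
    intro a' b'
    have h1 : (Sum.elim z fun i => (TrivSqZeroExt.inl (x' i) : DualNumber L)) =
        fun s => (TrivSqZeroExt.inl (Sum.elim x' x' s) +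
          TrivSqZeroExt.inr (Sum.elim v (0 : Fin (N + 1) → L) s) : DualNumber L) := by
      funext s
      rcases s with i | i
      · exact congrFun hzv i
      · change TrivSqZeroExt.inl (x' i) = TrivSqZeroExt.inl (x' i) + TrivSqZeroExt.inr (0 : L)
        rw [TrivSqZeroExt.inr_zero, add_zero]
    rw [h1, aeval_dual, Fintype.sum_sum_type]
    have h2 : ∑ i, aeval (Sum.elim x' x') (pderiv (Sum.inr i) (A.S a' b')) *
        Sum.elim v (0 : Fin (N + 1) → L) (Sum.inr i) = 0 :=
      Finset.sum_eq_zero fun i _ => mul_zero _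
    rw [h2, add_zero]
    rfl
  funext b'
  have hne : A.dup x' (ix A x') ≠ 0 := dup_ix_ne A hxj hxx
  have h1 := step4 (ix A x') b'
  rw [step5, step5] at h1
  have h2 := congrArg TrivSqZeroExt.snd h1
  rw [TrivSqZeroExt.snd_add, TrivSqZeroExt.snd_inl, TrivSqZeroExt.snd_inr, zero_add,
    TrivSqZeroExt.snd_mul] at h2
  have h3 : dS A (ix A x') b' x' v = A.dup x' (ix A x') * τ b' +
      oL A L b' * dS A (ix A x') A.b₀ x' v := by
    rw [h2]
    simp only [e, TrivSqZeroExt.fst_add, TrivSqZeroExt.fst_inl, TrivSqZeroExt.fst_inr,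
      TrivSqZeroExt.snd_add, TrivSqZeroExt.snd_inl, TrivSqZeroExt.snd_inr, add_zero, zero_add,
      smul_eq_mul, MulOpposite.smul_eq_mul_unop, MulOpposite.unop_op]
    rw [mul_comm (oL A L b')]
    rfl
  unfold ellv
  rw [h3, add_sub_cancel_right, mul_div_cancel_left₀ _ hne]

end

end Pool.Agent.Lib.MP_17a322_nt.VA.G
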