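import Pool.Agent.Lib.MP_17a322_nt.VA.G03

/-!
VA, part G, job G03b: linearly disjoint composita.

Proof. `L₃ := FractionRing (L₁ ⊗[k] L₂)` (a domain by G03), `ι₁ a = a ⊗ 1`, `ι₂ b = 1 ⊗ b`
(`Algebra.TensorProduct.includeLeft`, `includeRight`, composed with the injective
`algebraMap (L₁ ⊗ L₂) (FractionRing _)`). `Algebra K L₃ := ((algebraMap k L₃).comp
(algebraMap K k)).toAlgebra`, `IsScalarTower.of_algebraMap_eq fun _ => rfl`.
`LD ι₁ ι₂`: `∑ ι₁ (a i) * ι₂ (b i) = 0` gives `∑ a i ⊗ b i = 0` in `L₁ ⊗ L₂`; extend the independent family `b`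
to a basis of `L₂` (or: the family `1 ⊗ b i` is `L₁`-linearly independent in `L₁ ⊗ L₂`:
`LinearIndependent.tmul..`, or `Algebra.TensorProduct.basis` for the basis `Basis.extend`, coordinates),
so `a i = 0`. `exists_compositum`: for any field `K` (not nec. algebraically closed): `k ⊗[K] L` is not
the zero ring; take a maximal ideal `M` and `E := (k ⊗[K] L) ⧸ M`.
-/

universe u

namespace Pool.Agent.Lib.MP_17a322_nt.VA.G

open TensorProduct

private theorem g03b_indep {k L₁ L₂ : Type u} [Field k] [Field L₁] [Field L₂] [Algebra k L₁]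
    [Algebra k L₂] (n : ℕ) (a : Fin n → L₁) (b : Fin n → L₂) (hb : LinearIndependent k b)
    (h : ∑ i, (a i ⊗ₜ[k] b i : L₁ ⊗[k] L₂) = 0) (j : Fin n) : a j = 0 := by
  obtain ⟨g, hg⟩ := LinearMap.exists_leftInverse_of_injective (Finsupp.linearCombination k b)
    (LinearMap.ker_eq_bot.2 hb)
  have hgb : ∀ i, g (b i) = Finsupp.single i 1 := by
    intro i
    have h1 := LinearMap.congr_fun hg (Finsupp.single i 1)
    rw [LinearMap.comp_apply, Finsupp.linearCombination_single, one_smul] at h1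
    exact h1
  have h2 := congrArg (fun z => TensorProduct.rid k L₁
    (LinearMap.lTensor L₁ ((Finsupp.lapply j : (Fin n →₀ k) →ₗ[k] k).comp g) z)) h
  simp only [map_sum, LinearMap.lTensor_tmul, TensorProduct.rid_tmul, LinearMap.comp_apply, hgb,
    Finsupp.lapply_apply, map_zero] at h2
  rw [Finset.sum_eq_single j] at h2
  · rw [Finsupp.single_eq_same, one_smul] at h2
    exact h2
  · intro i _ hij
    rw [Finsupp.single_eq_of_ne hij.symm, zero_smul]
  · intro h3
    exact absurd (Finset.mem_univ j) h3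

theorem exists_pair (K k L₁ L₂ : Type u) [Field K] [Field k] [IsAlgClosed k] [Algebra K k]
    [Field L₁] [Field L₂] [Algebra k L₁] [Algebra k L₂] :
    ∃ (L₃ : Type u) (_ : Field L₃) (_ : Algebra K L₃) (_ : Algebra k L₃) (_ : IsScalarTower K k L₃)
      (ι₁ : L₁ →ₐ[k] L₃) (ι₂ : L₂ →ₐ[k] L₃), LD ι₁ ι₂ := by
  have := tensor_isDomain k L₁ L₂
  let L₃ := FractionRing (L₁ ⊗[k] L₂)
  let iK : Algebra K L₃ := ((algebraMap k L₃).comp (algebraMap K k)).toAlgebra
  have iT : IsScalarTower K k L₃ := IsScalarTower.of_algebraMap_eq fun _ => rfl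
  let j : (L₁ ⊗[k] L₂) →ₐ[k] L₃ := IsScalarTower.toAlgHom k (L₁ ⊗[k] L₂) L₃
  have hj : Function.Injective j := IsFractionRing.injective (L₁ ⊗[k] L₂) L₃
  refine ⟨L₃, inferInstance, iK, inferInstance, iT, j.comp Algebra.TensorProduct.includeLeft,
    j.comp Algebra.TensorProduct.includeRight, ?_⟩
  intro n a b hb h i
  refine g03b_indep n a b hb ?_ i
  apply hj
  rw [map_zero, map_sum, ← h]
  refine Finset.sum_congr rfl fun l _ => ?_
  show j (a l ⊗ₜ[k] b l) = j (a l ⊗ₜ[k] 1) * j (1 ⊗ₜ[k] b l)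
  rw [← map_mul, Algebra.TensorProduct.tmul_mul_tmul, mul_one, one_mul]

theorem exists_compositum (K L₁ L₂ : Type u) [Field K] [Field L₁] [Field L₂] [Algebra K L₁]
    [Algebra K L₂] : ∃ (E : Type u) (_ : Field E) (_ : Algebra K E) (_ : L₁ →ₐ[K] E)
      (_ : L₂ →ₐ[K] E), True := by
  have : Nontrivial (L₁ ⊗[K] L₂) := inferInstance
  obtain ⟨M, hM⟩ := Ideal.exists_maximal (L₁ ⊗[K] L₂)
  exact ⟨(L₁ ⊗[K] L₂) ⧸ M, Ideal.Quotient.field M, inferInstance,
    (Ideal.Quotient.mkₐ K M).comp Algebra.TensorProduct.includeLeft,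
    (Ideal.Quotient.mkₐ K M).comp Algebra.TensorProduct.includeRight, trivial⟩

end Pool.Agent.Lib.MP_17a322_nt.VA.G
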