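import Pool.Agent.Lib.MP_17a322_nt.VA.GD

/-!
VA, part G, job G02a: bihomogeneous polynomials.

`BiH d e` is `IsWeightedHomogeneous` for the weight `Sum.elim (fun _ => (1, 0)) (fun _ => (0, 1))` with values in
`ℕ × ℕ` (for `Fintype` index types; `Finsupp.weight_apply`, `Finsupp.sum_fintype`, `Fintype.sum_sum_type`): prove this
equivalence first (private lemma); then `BiH_zero`, `BiH_sub`, `BiH_mul`, `BiH_X_inl`, `BiH_X_inr` are
the corresponding statements of Mathlib (`isWeightedHomogeneous_zero`, `.add`, `.mul`, `isWeightedHomogeneous_X`), and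
`BiH_bind`, `BiH_bind_sum`: write `G = ∑ m ∈ G.support, C (coeff m G) * ∏ i, X i ^ m i`
(`MvPolynomial.as_sum`, `aeval_def`/`eval₂_eq'`), so `bind₁ f G = ∑ m, C (coeff m G) * ∏ i, f i ^ m i`, and
`∏ i, f i ^ m i` is bihomogeneous of bidegree `(∑ i, m i * d, ∑ i, m i * e) = (D * d, D * e)` since `∑ i, m i = D`
(`IsWeightedHomogeneous.prod`, `.pow`, `IsWeightedHomogeneous.sum`; `isWeightedHomogeneous_C` has degree 0). The same
for `BiH_bind_sum`, with the two groups of variables.
`aeval_smul_BiH`: expand as in `Z_S_smul` of VA/Z0.lean.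
-/

universe u w

namespace Pool.Agent.Lib.MP_17a322_nt.VA.G

open MvPolynomial

section

variable {k : Type u} [Field k] {n n' : ℕ}

private theorem g02a_C (a : k) : BiH 0 0 (C a : MvPolynomial (Fin n ⊕ Fin n') k) := by
  classical
  intro m hm
  rw [C_apply] at hm
  have h1 := Finset.mem_singleton.1 (support_monomial_subset hm)
  subst h1
  exact ⟨Finset.sum_eq_zero fun i _ => rfl, Finset.sum_eq_zero fun i _ => rfl⟩

private theorem g02a_sum {d e : ℕ} {ι : Type*} (s : Finset ι)
    (H : ι → MvPolynomial (Fin n ⊕ Fin n') k) (h : ∀ i ∈ s, BiH d e (H i)) :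
    BiH d e (∑ i ∈ s, H i) := by
  classical
  intro m hm
  have h1 := support_sum hm
  rw [Finset.mem_biUnion] at h1
  obtain ⟨i, hi, hmi⟩ := h1
  exact h i hi m hmi

theorem BiH_zero (d e : ℕ) : BiH d e (0 : MvPolynomial (Fin n ⊕ Fin n') k) := by
  intro m hm
  rw [support_zero] at hm
  exact absurd hm (Finset.notMem_empty m)

theorem BiH_sub {d e : ℕ} {H H' : MvPolynomial (Fin n ⊕ Fin n') k} (h : BiH d e H)
    (h' : BiH d e H') : BiH d e (H - H') := by
  classical
  intro m hm
  rw [sub_eq_add_neg] at hm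
  have h1 := support_add hm
  rw [Finset.mem_union, support_neg] at h1
  exact h1.elim (h m) (h' m)

theorem BiH_mul {d e d' e' : ℕ} {H H' : MvPolynomial (Fin n ⊕ Fin n') k} (h : BiH d e H)
    (h' : BiH d' e' H') : BiH (d + d') (e + e') (H * H') := by
  classical
  intro m hm
  obtain ⟨a, ha, b, hb, rfl⟩ := Finset.mem_add.1 (support_mul H H' hm)
  simp only [Finsupp.add_apply, Finset.sum_add_distrib]
  rw [(h a ha).1, (h a ha).2, (h' b hb).1, (h' b hb).2]
  exact ⟨rfl, rfl⟩

private theorem g02a_pow {d e : ℕ} {H : MvPolynomial (Fin n ⊕ Fin n') k} (h : BiH d e H)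
    (r : ℕ) : BiH (r * d) (r * e) (H ^ r) := by
  induction r with
  | zero =>
    rw [pow_zero, zero_mul, zero_mul, ← C_1]
    exact g02a_C 1
  | succ r ih =>
    rw [pow_succ, Nat.succ_mul, Nat.succ_mul]
    exact BiH_mul ih h

private theorem g02a_prod {ι : Type*} (s : Finset ι) (d e : ι → ℕ)
    (H : ι → MvPolynomial (Fin n ⊕ Fin n') k) (h : ∀ i ∈ s, BiH (d i) (e i) (H i)) :
    BiH (∑ i ∈ s, d i) (∑ i ∈ s, e i) (∏ i ∈ s, H i) := by
  classical
  induction s using Finset.induction_on with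
  | empty =>
    rw [Finset.prod_empty, Finset.sum_empty, Finset.sum_empty, ← C_1]
    exact g02a_C 1
  | insert a s ha ih =>
    rw [Finset.prod_insert ha, Finset.sum_insert ha, Finset.sum_insert ha]
    exact BiH_mul (h a (Finset.mem_insert_self a s))
      (ih fun i hi => h i (Finset.mem_insert_of_mem hi))

theorem BiH_X_inl (i : Fin n) : BiH 1 0 (X (Sum.inl i) : MvPolynomial (Fin n ⊕ Fin n') k) := by
  classical
  intro m hm
  have h1 := Finset.mem_singleton.1 (support_monomial_subset hm)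
  subst h1
  constructor
  · simp [Finsupp.single_apply]
  · refine Finset.sum_eq_zero fun j _ => ?_
    rw [Finsupp.single_apply, if_neg Sum.inl_ne_inr]

theorem BiH_X_inr (i : Fin n') : BiH 0 1 (X (Sum.inr i) : MvPolynomial (Fin n ⊕ Fin n') k) := by
  classical
  intro m hm
  have h1 := Finset.mem_singleton.1 (support_monomial_subset hm)
  subst h1
  constructor
  · refine Finset.sum_eq_zero fun j _ => ?_
    rw [Finsupp.single_apply, if_neg Sum.inr_ne_inl]
  · simp [Finsupp.single_apply]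

/-- Substitution of bihomogeneous polynomials into a homogeneous polynomial. -/
theorem BiH_bind {d e D : ℕ} {m : ℕ} {G : MvPolynomial (Fin m) k} (hG : G.IsHomogeneous D)
    {f : Fin m → MvPolynomial (Fin n ⊕ Fin n') k} (hf : ∀ i, BiH d e (f i)) :
    BiH (D * d) (D * e) (bind₁ f G) := by
  have h1 : bind₁ f G = ∑ u ∈ G.support, C (coeff u G) * ∏ i, f i ^ u i := by
    rw [bind₁, aeval_def, eval₂_eq', algebraMap_eq]
  rw [h1]
  refine g02a_sum _ _ fun u hu => ?_
  have h2 : ∑ i, u i = D := by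
    rw [← hG (mem_support_iff.1 hu), Finsupp.weight_apply, Finsupp.sum_fintype _ _ (by simp)]
    simp
  have h3 := BiH_mul (g02a_C (coeff u G))
    (g02a_prod Finset.univ (fun i => u i * d) (fun i => u i * e) (fun i => f i ^ u i)
      fun i _ => g02a_pow (hf i) (u i))
  rw [zero_add, zero_add, ← Finset.sum_mul, ← Finset.sum_mul, h2] at h3
  exact h3

/-- Substitution into a bihomogeneous polynomial. -/
theorem BiH_bind_sum {d e d₁ e₁ d₂ e₂ : ℕ} {m m' : ℕ} {H : MvPolynomial (Fin m ⊕ Fin m') k}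
    (hH : BiH d e H) {f : Fin m → MvPolynomial (Fin n ⊕ Fin n') k}
    {g : Fin m' → MvPolynomial (Fin n ⊕ Fin n') k} (hf : ∀ i, BiH d₁ e₁ (f i))
    (hg : ∀ i, BiH d₂ e₂ (g i)) :
    BiH (d * d₁ + e * d₂) (d * e₁ + e * e₂) (bind₁ (Sum.elim f g) H) := by
  have h1 : bind₁ (Sum.elim f g) H = ∑ u ∈ H.support, C (coeff u H) *
      ((∏ i, f i ^ u (Sum.inl i)) * ∏ i, g i ^ u (Sum.inr i)) := by
    rw [bind₁, aeval_def, eval₂_eq', algebraMap_eq]
    refine Finset.sum_congr rfl fun u _ => ?_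
    rw [Fintype.prod_sum_type]
    rfl
  rw [h1]
  refine g02a_sum _ _ fun u hu => ?_
  obtain ⟨h2, h2'⟩ := hH u hu
  have h3 := BiH_mul (g02a_C (coeff u H)) (BiH_mul
    (g02a_prod Finset.univ (fun i => u (Sum.inl i) * d₁) (fun i => u (Sum.inl i) * e₁)
      (fun i => f i ^ u (Sum.inl i)) fun i _ => g02a_pow (hf i) _)
    (g02a_prod Finset.univ (fun i => u (Sum.inr i) * d₂) (fun i => u (Sum.inr i) * e₂)
      (fun i => g i ^ u (Sum.inr i)) fun i _ => g02a_pow (hg i) _))
  rw [zero_add, zero_add, ← Finset.sum_mul, ← Finset.sum_mul, ← Finset.sum_mul,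
    ← Finset.sum_mul, h2, h2'] at h3
  exact h3

theorem aeval_smul_BiH {d e : ℕ} {H : MvPolynomial (Fin n ⊕ Fin n') k} (hH : BiH d e H)
    {R : Type u} [CommRing R] [Algebra k R] (x : Fin n → R) (y : Fin n' → R) (c c' : R) :
    aeval (Sum.elim (fun i => c * x i) fun i => c' * y i) H =
      c ^ d * c' ^ e * aeval (Sum.elim x y) H := by
  rw [aeval_def, aeval_def, eval₂_eq', eval₂_eq', Finset.mul_sum]
  refine Finset.sum_congr rfl fun u hu => ?_
  obtain ⟨h2, h2'⟩ := hH u hu
  rw [Fintype.prod_sum_type, Fintype.prod_sum_type]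
  simp only [Sum.elim_inl, Sum.elim_inr, mul_pow, Finset.prod_mul_distrib,
    Finset.prod_pow_eq_pow_sum]
  rw [h2, h2']
  ring

end

end Pool.Agent.Lib.MP_17a322_nt.VA.G
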