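import Pool.Agent.Lib.MP_17a322_nt.VA.G01
import Pool.Agent.Lib.MP_17a322_nt.VA.G02a

/-!
VA, part G, job G04: bihomogeneous polynomials that vanish at a linearly disjoint pair.

Proof (complete). Let `E` be the finite set of the `n : Fin n' →₀ ℕ` with `∑ i, n i = e`. For `n ∈ E` let
`β n := ∏ i, y' i ^ n i ∈ L₂`. Choose `T ⊆ E` such that `(β t)_(t ∈ T)` is `k`-linearly independent and
every `β n` (`n ∈ E`) is in its span (`exists_linearIndependent'` or maximal independent subset of a
finite family): `β n = ∑ t ∈ T, c n t • β t`. The polynomial `R n := monomial n 1 -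
∑ t ∈ T, c n t • monomial t 1` is homogeneous of degree `e` and vanishes at `y'`, so it is in
`loc k y'` (`mem_loc_of_homog`, G01). Write `H = ∑ n ∈ E, inl (A n) * inr (monomial n 1)` with
`A n : MvPolynomial (Fin n) k` homogeneous of degree `d` (`A n := ∑ m, coeff (m ⊔ n) H • monomial m 1`,
over the finite set of the `m` with `∑ m = d`; here `inl = rename Sum.inl`; it may be convenient to write
`H` as the double sum over `(m, n)` of `C (coeff (Sum m n) H) * inl (monomial m 1) * inr (monomial n 1)`,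
using the equivalence `Finsupp.sumFinsuppEquivProdFinsupp`). Then `H = ∑ n, inl (A n) * inr (R n) +
∑ t ∈ T, inl (B t) * inr (monomial t 1)`, `B t := ∑ n, c n t • A n`, homogeneous of degree `d`. The first
sum is in `prodI` and vanishes at the point; so evaluating at `(ι₁ y, ι₂ y')`:
`0 = ∑ t ∈ T, ι₁ (aeval y (B t)) * ι₂ (β t)`. By `LD` `aeval y (B t) = 0`, so `B t ∈ loc k y`, so
`H ∈ prodI`.
`prodI_zero`: elements of `prodI 𝔞 𝔟` vanish at `(u, v)` for every zero `u` of `𝔞` and `v` of `𝔟` in a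
ring: `Ideal.map_le_iff_le_comap`, sup_le, for the kernel of `aeval (Sum.elim u v)`, `aeval_rename`.
`prodI_map`: `map φ` (φ : k →+* k) maps `prodI 𝔞 𝔞` into itself if it maps `𝔞` into itself
(`MvPolynomial.map_rename`, `Ideal.map_le_iff_le_comap`).
-/

universe u

namespace Pool.Agent.Lib.MP_17a322_nt.VA.G

open MvPolynomial

section

variable {k : Type u} [Field k] {n n' : ℕ}

theorem prodI_zero {𝔞 : Ideal (MvPolynomial (Fin n) k)} {𝔟 : Ideal (MvPolynomial (Fin n') k)}
    {R : Type u} [CommRing R] [Algebra k R] {u : Fin n → R} {v : Fin n' → R} (hu : Kl 𝔞 u)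
    (hv : Kl 𝔟 v) {H : MvPolynomial (Fin n ⊕ Fin n') k} (hH : H ∈ prodI 𝔞 𝔟) :
    aeval (Sum.elim u v) H = 0 := by
  have h1 : prodI 𝔞 𝔟 ≤ RingHom.ker (aeval (Sum.elim u v) :
      MvPolynomial (Fin n ⊕ Fin n') k →ₐ[k] R) := by
    refine sup_le (Ideal.map_le_iff_le_comap.2 fun G hG => ?_)
      (Ideal.map_le_iff_le_comap.2 fun G hG => ?_)
    · rw [Ideal.mem_comap, RingHom.mem_ker, aeval_rename]
      exact hu G hG
    · rw [Ideal.mem_comap, RingHom.mem_ker, aeval_rename]
      exact hv G hG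
  exact RingHom.mem_ker.1 (h1 hH)

theorem prodI_map (φ : k →+* k) {𝔞 : Ideal (MvPolynomial (Fin n) k)}
    (h : ∀ G ∈ 𝔞, map φ G ∈ 𝔞) {H : MvPolynomial (Fin n ⊕ Fin n) k} (hH : H ∈ prodI 𝔞 𝔞) :
    map φ H ∈ prodI 𝔞 𝔞 := by
  have h1 : prodI 𝔞 𝔞 ≤ (prodI 𝔞 𝔞).comap (map φ) := by
    refine sup_le (Ideal.map_le_iff_le_comap.2 fun G hG => ?_)
      (Ideal.map_le_iff_le_comap.2 fun G hG => ?_)
    · rw [Ideal.mem_comap, Ideal.mem_comap, map_rename]
      exact Ideal.mem_sup_left (Ideal.mem_map_of_mem _ (h G hG))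
    · rw [Ideal.mem_comap, Ideal.mem_comap, map_rename]
      exact Ideal.mem_sup_right (Ideal.mem_map_of_mem _ (h G hG))
  exact h1 hH

private noncomputable def g04b_L (s : Fin n ⊕ Fin n' →₀ ℕ) : Fin n →₀ ℕ :=
  Finsupp.equivFunOnFinite.symm fun i => s (Sum.inl i)

private noncomputable def g04b_R (s : Fin n ⊕ Fin n' →₀ ℕ) : Fin n' →₀ ℕ :=
  Finsupp.equivFunOnFinite.symm fun i => s (Sum.inr i)

private theorem g04b_mono (s : Fin n ⊕ Fin n' →₀ ℕ) (c : k) :
    (monomial s c : MvPolynomial (Fin n ⊕ Fin n') k) =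
      rename Sum.inl (monomial (g04b_L s) c) * rename Sum.inr (monomial (g04b_R s) 1) := by
  rw [rename_monomial, rename_monomial, monomial_mul, mul_one]
  refine congrArg (fun t => monomial t c) ?_
  ext i
  rw [Finsupp.add_apply]
  rcases i with i | i
  · rw [Finsupp.mapDomain_apply Sum.inl_injective,
      Finsupp.mapDomain_of_notMem_range _ _ (by rintro ⟨j, hj⟩; exact Sum.inr_ne_inl hj), add_zero]
    rfl
  · rw [Finsupp.mapDomain_apply Sum.inr_injective,
      Finsupp.mapDomain_of_notMem_range _ _ (by rintro ⟨j, hj⟩; exact Sum.inl_ne_inr hj), zero_add]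
    rfl

private theorem g04b_Kl {L L' : Type u} [Field L] [Field L'] [Algebra k L] [Algebra k L']
    (ι : L →ₐ[k] L') (x : Fin n → L) : Kl (loc k x) fun i => ι (x i) := by
  intro G hG
  have h1 := aeval_of_mem_loc hG
  have h2 : aeval (fun i => ι (x i)) G = ι (aeval x G) := by
    rw [← AlgHom.comp_apply, comp_aeval]
  rw [h2, h1, map_zero]

theorem mem_prodI {L₁ L₂ L₃ : Type u} [Field L₁] [Field L₂] [Field L₃] [Algebra k L₁]
    [Algebra k L₂] [Algebra k L₃] {ι₁ : L₁ →ₐ[k] L₃} {ι₂ : L₂ →ₐ[k] L₃} (hι : LD ι₁ ι₂)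
    {d e : ℕ} {H : MvPolynomial (Fin n ⊕ Fin n') k} (hH : BiH d e H) (y : Fin n → L₁)
    (y' : Fin n' → L₂)
    (h : aeval (Sum.elim (fun i => ι₁ (y i)) fun i => ι₂ (y' i)) H = 0) :
    H ∈ prodI (loc k y) (loc k y') := by
  classical
  let β : (Fin n ⊕ Fin n' →₀ ℕ) → L₂ := fun s => aeval y' (monomial (g04b_R s) (1 : k))
  have hdL : ∀ s ∈ H.support, (g04b_L s).degree = d := by
    intro s hs
    rw [Finsupp.degree_eq_sum]
    exact (hH s hs).1
  have hdR : ∀ s ∈ H.support, (g04b_R s).degree = e := by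
    intro s hs
    rw [Finsupp.degree_eq_sum]
    exact (hH s hs).2
  have : Module.Finite k (Submodule.span k
      (β '' (H.support : Set (Fin n ⊕ Fin n' →₀ ℕ)))) :=
    FiniteDimensional.span_of_finite k (H.support.finite_toSet.image β)
  obtain ⟨f, hf1, hf2, hf3⟩ := Submodule.exists_fun_fin_finrank_span_eq k
    (β '' (H.support : Set (Fin n ⊕ Fin n' →₀ ℕ)))
  choose σ hσ1 hσ2 using hf1
  have hc : ∀ s, ∃ c : Fin (Module.finrank k (Submodule.span k
      (β '' (H.support : Set (Fin n ⊕ Fin n' →₀ ℕ))))) → k,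
      s ∈ H.support → ∑ i, c i • f i = β s := by
    intro s
    by_cases hs : s ∈ H.support
    · have h1 : β s ∈ Submodule.span k (Set.range f) := by
        rw [hf2]
        exact Submodule.subset_span ⟨s, hs, rfl⟩
      obtain ⟨c, hc⟩ := (Submodule.mem_span_range_iff_exists_fun k).1 h1
      exact ⟨c, fun _ => hc⟩
    · exact ⟨0, fun h => absurd h hs⟩
  choose c hc using hc
  let P := fun i => (monomial (g04b_R (σ i)) (1 : k) : MvPolynomial (Fin n') k)
  let R := fun s => (monomial (g04b_R s) (1 : k) : MvPolynomial (Fin n') k) - ∑ i, C (c s i) * P i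
  let B := fun i => ∑ s ∈ H.support,
    (monomial (g04b_L s) (coeff s H * c s i) : MvPolynomial (Fin n) k)
  have hP : ∀ i, (P i).IsHomogeneous e := fun i => isHomogeneous_monomial _ (hdR _ (hσ1 i))
  have hPv : ∀ i, aeval y' (P i) = f i := fun i => hσ2 i
  have hR : ∀ s ∈ H.support, R s ∈ loc k y' := by
    intro s hs
    have h1 : (R s).IsHomogeneous e := by
      refine IsHomogeneous.sub (isHomogeneous_monomial _ (hdR s hs)) ?_
      refine IsHomogeneous.sum _ _ _ fun i _ => ?_
      have h2 := (isHomogeneous_C (Fin n') (c s i)).mul (hP i)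
      rwa [zero_add] at h2
    rw [mem_loc_of_homog h1, map_sub, map_sum]
    have h3 : ∑ i, aeval y' (C (c s i) * P i) = ∑ i, c s i • f i := by
      refine Finset.sum_congr rfl fun i _ => ?_
      rw [map_mul, hPv, aeval_C, Algebra.smul_def]
    rw [h3, hc s hs]
    exact sub_self _
  have hB : ∀ i, (B i).IsHomogeneous d := fun i =>
    IsHomogeneous.sum _ _ _ fun s hs => isHomogeneous_monomial _ (hdL s hs)
  have key : H = ∑ s ∈ H.support, rename Sum.inl (monomial (g04b_L s) (coeff s H)) *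
      rename Sum.inr (R s) + ∑ i, rename Sum.inl (B i) * rename Sum.inr (P i) := by
    have h1 : ∀ i, (rename Sum.inl (B i) * rename Sum.inr (P i) :
        MvPolynomial (Fin n ⊕ Fin n') k) =
        ∑ s ∈ H.support, rename Sum.inl (monomial (g04b_L s) (coeff s H)) *
          rename Sum.inr (C (c s i) * P i) := by
      intro i
      rw [map_sum, Finset.sum_mul]
      refine Finset.sum_congr rfl fun s _ => ?_
      have h2 : (monomial (g04b_L s) (coeff s H * c s i) : MvPolynomial (Fin n) k) =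
          C (c s i) * monomial (g04b_L s) (coeff s H) := by
        rw [C_mul_monomial, mul_comm]
      rw [h2, map_mul, map_mul, rename_C, rename_C]
      ring
    rw [Finset.sum_congr rfl fun i _ => h1 i, Finset.sum_comm, ← Finset.sum_add_distrib]
    conv_lhs => rw [H.as_sum]
    refine Finset.sum_congr rfl fun s _ => ?_
    rw [← Finset.mul_sum, ← mul_add, ← map_sum, ← map_add, sub_add_cancel]
    exact g04b_mono s _
  have hin : ∑ s ∈ H.support, rename Sum.inl (monomial (g04b_L s) (coeff s H)) *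
      rename Sum.inr (R s) ∈ prodI (loc k y) (loc k y') := by
    refine Ideal.sum_mem _ fun s hs => Ideal.mul_mem_left _ _ ?_
    exact Ideal.mem_sup_right (Ideal.mem_map_of_mem _ (hR s hs))
  have hev : ∑ i, ι₁ (aeval y (B i)) * ι₂ (f i) = 0 := by
    have h1 := prodI_zero (g04b_Kl ι₁ y) (g04b_Kl ι₂ y') hin
    have h2 := h
    rw [key, map_add, h1, zero_add, map_sum] at h2
    rw [← h2]
    refine Finset.sum_congr rfl fun i _ => ?_
    rw [map_mul, aeval_rename, aeval_rename, Sum.elim_comp_inl, Sum.elim_comp_inr, ← hPv i,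
      ← AlgHom.comp_apply, ← AlgHom.comp_apply, comp_aeval, comp_aeval]
  have hB0 : ∀ i, aeval y (B i) = 0 := hι _ (fun i => aeval y (B i)) f hf3 hev
  rw [key]
  refine Ideal.add_mem _ hin (Ideal.sum_mem _ fun i _ => Ideal.mul_mem_right _ _ ?_)
  exact Ideal.mem_sup_left (Ideal.mem_map_of_mem _ ((mem_loc_of_homog (hB i)).2 (hB0 i)))

end

end Pool.Agent.Lib.MP_17a322_nt.VA.G
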