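import Pool.Agent.Lib.MP_17a322_nt.VA.G02
import Pool.Agent.Lib.MP_17a322_nt.VA.G03b
import Pool.Agent.Lib.MP_17a322_nt.VA.G04

/-!
VA, part G, job G05: differences of generic pairs.

Proofs (complete).
`kl_of_ZP`: for a zero `P` of `𝔟` the vector `A.x P` is a zero: `aeval_of_mem_loc`.
`ZP_sub_of_prodI`: by `le_loc` let `G ∈ 𝔟` be homogeneous of degree `d`. By `aeval_subP`
`aeval (Sum.elim (A.x P) (A.x Q)) (subP G a) = (c * A.x (P+Q) a) ^ d * aeval (A.x (P-Q)) G`, the left side is 0 by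
`prodI_zero`; choose `a` with `A.x (P+Q) a ≠ 0` (`Z_x_ne`).
`pair`: (←) the same argument for `Y₁, Y₂` and `𝔞 = loc k (A.x y)` (they are zeros of it by
`loc_img`). (→) `A.x Y₁ = c₁⁻¹ ι₁ (A.x y)`, `A.x Y₂ = c₂⁻¹ ι₂ (A.x y)`; by `aeval_subP` `subP G a` vanishes at
`(A.x Y₁, A.x Y₂)`; it is bihomogeneous (`BiH_subP`), so it vanishes at `(ι₁ (A.x y), ι₂ (A.x y))`
(`aeval_smul_BiH`), and `mem_prodI` (G04) applies.
`pair_le`: `loc k (A.x (Y₁ - Y₂)) ≤ 𝔟` etc: see the statements; they follow from `pair` and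
`ZP_sub_of_prodI` (with `𝔞 := loc k (A.x y)`, `𝔟 := loc k (A.x (Y₁ - Y₂))`, which contains the homogeneous
components of its elements by `comp_mem_loc`).
`mem_prodI_of_generic`: take a pair `L₃, ι₁, ι₂` for `L, L` (`exists_pair`), the images `Y₁, Y₂` of `y` (they are zeros
of `𝔟` by `loc_img`), so `H` vanishes at `(A.x Y₁, A.x Y₂)`, so at `(ι₁ (A.x y), ι₂ (A.x y))`
(`aeval_smul_BiH`), and `mem_prodI` applies.
-/

universe u

namespace Pool.Agent.Lib.MP_17a322_nt.VA.G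

open MvPolynomial

section

variable {K : Type u} [Field K] {N : ℕ} (A : AV K N) {k : Type u} [Field k] [Algebra K k]

theorem kl_of_ZP {𝔟 : Ideal (MvPolynomial (Fin (N + 1)) k)} {L : Type u} [Field L]
    [Algebra K L] [Algebra k L] {P : A.Pts L} (h : ZP A 𝔟 P) : Kl 𝔟 (A.x P) :=
  fun _ hG => aeval_of_mem_loc (h hG)

theorem ZP_sub_of_prodI {𝔞 𝔟 : Ideal (MvPolynomial (Fin (N + 1)) k)}
    (h𝔟 : ∀ G ∈ 𝔟, ∀ d, homogeneousComponent d G ∈ 𝔟)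
    (h : ∀ G ∈ 𝔟, ∀ d, G.IsHomogeneous d → ∀ a, subP A k G a ∈ prodI 𝔞 𝔞)
    {L : Type u} [Field L] [Algebra K L] [Algebra k L] [IsScalarTower K k L] {P Q : A.Pts L}
    (hP : ZP A 𝔞 P) (hQ : ZP A 𝔞 Q) : ZP A 𝔟 (P - Q) := by
  obtain ⟨c, hc, h1⟩ := aeval_subP (k := k) A P Q
  refine le_loc h𝔟 fun G hG d hGd => ?_
  obtain ⟨a, ha⟩ := Function.ne_iff.1 (Z_x_ne A (P + Q))
  have h2 := h1 G d hGd a
  rw [prodI_zero (kl_of_ZP A hP) (kl_of_ZP A hQ) (h G hG d hGd a)] at h2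
  exact (mul_eq_zero.1 h2.symm).resolve_left (pow_ne_zero d (mul_ne_zero hc ha))

private theorem g05_vanish {L L₃ : Type u} [Field L] [Algebra K L] [Algebra k L]
    [IsScalarTower K k L] [Field L₃] [Algebra K L₃] [Algebra k L₃] [IsScalarTower K k L₃]
    {ι₁ ι₂ : L →ₐ[k] L₃} {y : A.Pts L} {Y₁ Y₂ : A.Pts L₃}
    (h₁ : A.Img (ι₁.restrictScalars K) y Y₁) (h₂ : A.Img (ι₂.restrictScalars K) y Y₂)
    {d e : ℕ} {H : MvPolynomial (Fin (N + 1) ⊕ Fin (N + 1)) k} (hH : BiH d e H)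
    (h : aeval (Sum.elim (A.x Y₁) (A.x Y₂)) H = 0) :
    aeval (Sum.elim (fun i => ι₁ (A.x y i)) fun i => ι₂ (A.x y i)) H = 0 := by
  obtain ⟨c₁, _, e₁⟩ := h₁
  obtain ⟨c₂, _, e₂⟩ := h₂
  have f₁ : (fun i => ι₁ (A.x y i)) = fun i => c₁ * A.x Y₁ i := funext fun i => e₁ i
  have f₂ : (fun i => ι₂ (A.x y i)) = fun i => c₂ * A.x Y₂ i := funext fun i => e₂ i
  rw [f₁, f₂, aeval_smul_BiH hH, h, mul_zero]

section

variable {L L₃ : Type u} [Field L] [Algebra K L] [Algebra k L] [IsScalarTower K k L]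
  [Field L₃] [Algebra K L₃] [Algebra k L₃] [IsScalarTower K k L₃] {ι₁ ι₂ : L →ₐ[k] L₃}
  (hι : LD ι₁ ι₂) {y : A.Pts L} {Y₁ Y₂ : A.Pts L₃} (h₁ : A.Img (ι₁.restrictScalars K) y Y₁)
  (h₂ : A.Img (ι₂.restrictScalars K) y Y₂)

include hι h₁ h₂

/-- The ideal of the difference of a generic pair. -/
theorem pair {G : MvPolynomial (Fin (N + 1)) k} {d : ℕ} (hG : G.IsHomogeneous d) :
    aeval (A.x (Y₁ - Y₂)) G = 0 ↔
      ∀ a, subP A k G a ∈ prodI (loc k (A.x y)) (loc k (A.x y)) := by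
  obtain ⟨c, hc, h3⟩ := aeval_subP (k := k) A Y₁ Y₂
  constructor
  · intro h4 a
    have h5 := h3 G d hG a
    rw [h4, mul_zero] at h5
    exact mem_prodI hι (BiH_subP A hG a) (A.x y) (A.x y)
      (g05_vanish A h₁ h₂ (BiH_subP A hG a) h5)
  · intro h4
    obtain ⟨a, ha⟩ := Function.ne_iff.1 (Z_x_ne A (Y₁ + Y₂))
    have hk1 : Kl (loc k (A.x y)) (A.x Y₁) := by
      intro F hF
      rw [← loc_img A ι₁ h₁] at hF
      exact aeval_of_mem_loc hF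
    have hk2 : Kl (loc k (A.x y)) (A.x Y₂) := by
      intro F hF
      rw [← loc_img A ι₂ h₂] at hF
      exact aeval_of_mem_loc hF
    have h5 := h3 G d hG a
    rw [prodI_zero hk1 hk2 (h4 a)] at h5
    exact (mul_eq_zero.1 h5.symm).resolve_left (pow_ne_zero d (mul_ne_zero hc ha))

/-- Differences of zeros of the ideal of `y` are zeros of the ideal of the difference of the generic
pair. -/
theorem ZP_pair {L' : Type u} [Field L'] [Algebra K L'] [Algebra k L'] [IsScalarTower K k L']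
    {P Q : A.Pts L'} (hP : ZP A (loc k (A.x y)) P) (hQ : ZP A (loc k (A.x y)) Q) :
    ZP A (loc k (A.x (Y₁ - Y₂))) (P - Q) :=
  ZP_sub_of_prodI A (fun _ hG d => comp_mem_loc hG d)
    (fun _ hG _ hGd => (pair A hι h₁ h₂ hGd).1 (aeval_of_mem_loc hG)) hP hQ

end

theorem mem_prodI_of_generic [IsAlgClosed k] {𝔟 : Ideal (MvPolynomial (Fin (N + 1)) k)}
    {L : Type u} [Field L] [Algebra K L] [Algebra k L] [IsScalarTower K k L] (y : A.Pts L)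
    (hy : loc k (A.x y) = 𝔟) {d e : ℕ} {H : MvPolynomial (Fin (N + 1) ⊕ Fin (N + 1)) k}
    (hH : BiH d e H)
    (h : ∀ (L' : Type u) [Field L'] [Algebra K L'] [Algebra k L'] [IsScalarTower K k L']
      (P Q : A.Pts L'), ZP A 𝔟 P → ZP A 𝔟 Q → aeval (Sum.elim (A.x P) (A.x Q)) H = 0) :
    H ∈ prodI 𝔟 𝔟 := by
  obtain ⟨L₃, _, _, _, _, ι₁, ι₂, hι⟩ := exists_pair K k L L
  obtain ⟨Y₁, h₁⟩ := Z_exists_img A (ι₁.restrictScalars K) y
  obtain ⟨Y₂, h₂⟩ := Z_exists_img A (ι₂.restrictScalars K) y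
  have hY₁ : ZP A 𝔟 Y₁ := by
    unfold ZP
    rw [loc_img A ι₁ h₁, hy]
  have hY₂ : ZP A 𝔟 Y₂ := by
    unfold ZP
    rw [loc_img A ι₂ h₂, hy]
  rw [← hy]
  exact mem_prodI hι hH (A.x y) (A.x y)
    (g05_vanish A h₁ h₂ hH (h L₃ Y₁ Y₂ hY₁ hY₂))

end

end Pool.Agent.Lib.MP_17a322_nt.VA.G
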