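import Pool.Agent.Lib.MP_17a322_nt.VA.G13

/-!
VA, part G, job G14: the logarithmic derivative determines the derivation on the coordinates.

`F := FractionRing (PowerSeries L)`, `R := PowerSeries L`.

Proof of `ell_inv` (complete). `exists_expK`: `e, φ, ψ`; `P₁, P₂` the images of `P`, `E := P₁ - P₂`; `tan_exp` (with `x = A.x P`, `c = 1`) gives `E` the representative
`ê : Fin (N+1) → R` with `coeff 0 (ê i) = oL A L i`, `coeff 1 (ê i) = ell A D P i`. `P₂ + E = P₁`. `W a b := aeval (Sum.elim (C ∘ A.x P) ê) (A.S a b) : R`. By `S_pts` for the points `P₂, E` and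
`A.S_smul` `algebraMap R F (W a b) = γ * (A.x P₁ a * A.x (P₂ - E) b)`, and `A.x P₁ a = c₁⁻¹ * φ (A.x P a) = c₁⁻¹ * algebraMap R F (e (A.x P a))`. So for all `a, a', b`:
`W a b * e (A.x P a') = W a' b * e (A.x P a)` in `R` (multiply out in `F`, `IsFractionRing.injective`). Apply `tr L` (G10): with
`w a b := aeval (Sum.elim (inl ∘ A.x P) (inl ∘ oL A L + inr ∘ ell)) (A.S a b) : DualNumber L` (`aeval_tr`; `tr (C c) = inl c`, `tr (ê i) = inl (o i) + inr (ell i)`) and
`tr (e a) = inl a + inr (D a)`: `w a b * (inl x_a' + inr (D x_a')) = w a' b * (inl x_a + inr (D x_a))`. Choose `a'` with `A.x P a' ≠ 0`, so that `inl x_a' + inr (D x_a')` is a unit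
(`isUnit_dual`): `u b := w a' b * (..)⁻¹`. This is `ell_inv`. [`fst (w a b)` = `aeval (Sum.elim (A.x P) (oL A L)) (A.S a b) = γ' * (A.x P a * A.x P b)` with `γ' ≠ 0` (`S_pts` for `P, 0`,
`zero_rep`, `S_smul`; `P + 0 = P`, `P - 0 = P`), and `fst (w a' b) = fst (u b) * A.x P a'`, so `fst (u b) = γ' * A.x P b ≠ 0` if `A.x P b ≠ 0`.]
`ell_eq_zero`: if `ell = 0` then `w a b = inl (fst (w a b))`, so from `ell_inv` with `b = j`, `A.x P j ≠ 0`, for `a` and `j`: `snd`: `0 = u₀ D x_a + u₁ x_a`, `0 = u₀ D x_j + u₁ x_j` with `u₀ = fst (u j) ≠ 0`. So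
`x_j D x_a = x_a D x_j`, i.e. `D (x_a / x_j) = 0`. If `A.x P j = 0` then `x_i / x_j = 0`.
-/

universe u

namespace Pool.Agent.Lib.MP_17a322_nt.VA.G

open MvPolynomial

section

variable {K : Type u} [Field K] {N : ℕ} (A : AV K N) {L : Type u} [Field L] [Algebra K L]
  [CharZero L] {D : Derivation ℤ L L} (hD : ∀ c : K, D (algebraMap K L c) = 0) (P : A.Pts L)

include hD

/-- Translation of the tangent vector `ell D P` to `P`. -/
theorem ell_inv (b : Fin (N + 1)) : ∃ u : DualNumber L, (A.x P b ≠ 0 → u.fst ≠ 0) ∧ ∀ a,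
    aeval (Sum.elim (fun i => TrivSqZeroExt.inl (A.x P i)) fun i =>
      TrivSqZeroExt.inl (oL A L i) + TrivSqZeroExt.inr (ell A D P i)) (A.S a b) =
      u * (TrivSqZeroExt.inl (A.x P a) + TrivSqZeroExt.inr (D (A.x P a)) : DualNumber L) := by
  obtain ⟨e, φ, ψ, h0, h1, h2, hφ, hψ⟩ := exists_expK (K := K) D hD
  obtain ⟨P₁, hP₁⟩ := Z_exists_img A φ P
  obtain ⟨P₂, hP₂⟩ := Z_exists_img A ψ P
  have hT : Tan A (P₁ - P₂) (ell A D P) :=
    tan_exp A h0 h1 hφ hψ hP₁ hP₂ one_ne_zero fun i => (one_mul _).symm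
  obtain ⟨ê, c, hc, hê, hb₀, hê0, hê1⟩ := hT
  obtain ⟨c₁, hc₁, hP₁'⟩ := hP₁
  obtain ⟨c₂, hc₂, hP₂'⟩ := hP₂
  obtain ⟨γ, hγ, hS⟩ := S_pts A P₂ (P₁ - P₂)
  have hadd : P₂ + (P₁ - P₂) = P₁ := add_sub_cancel P₂ P₁
  rw [hadd] at hS
  have hW : ∀ a : Fin (N + 1), algebraMap (PowerSeries L) (FractionRing (PowerSeries L))
      (aeval (Sum.elim (fun i => PowerSeries.C (A.x P i)) ê) (A.S a b)) =
      c₂ ^ 2 * c⁻¹ ^ 2 * (γ * (A.x P₁ a * A.x (P₂ - (P₁ - P₂)) b)) := by
    intro a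
    rw [← hS a b, ← AV.S_smul, ← aeval_algebraMap_apply]
    congr 2
    funext i
    rcases i with i | i
    · show algebraMap (PowerSeries L) (FractionRing (PowerSeries L)) (PowerSeries.C (A.x P i)) =
        c₂ * A.x P₂ i
      rw [← hψ, hP₂']
    · show algebraMap (PowerSeries L) (FractionRing (PowerSeries L)) (ê i) =
        c⁻¹ * A.x (P₁ - P₂) i
      rw [hê, inv_mul_cancel_left₀ hc]
  have hsymm : ∀ a a' : Fin (N + 1),
      aeval (Sum.elim (fun i => PowerSeries.C (A.x P i)) ê) (A.S a b) * e (A.x P a') =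
      aeval (Sum.elim (fun i => PowerSeries.C (A.x P i)) ê) (A.S a' b) * e (A.x P a) := by
    intro a a'
    refine IsFractionRing.injective (PowerSeries L) (FractionRing (PowerSeries L)) ?_
    rw [map_mul, map_mul, hW, hW, ← hφ, ← hφ, hP₁', hP₁']
    ring
  have htr : ∀ a : Fin (N + 1),
      tr L (aeval (Sum.elim (fun i => PowerSeries.C (A.x P i)) ê) (A.S a b)) =
      aeval (Sum.elim (fun i => TrivSqZeroExt.inl (A.x P i)) fun i =>
        (TrivSqZeroExt.inl (oL A L i) + TrivSqZeroExt.inr (ell A D P i) : DualNumber L))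
        (A.S a b) := by
    intro a
    rw [aeval_tr]
    congr 2
    funext i
    rcases i with i | i
    · show tr L (PowerSeries.C (A.x P i)) = TrivSqZeroExt.inl (A.x P i)
      rw [tr_apply]
      simp [PowerSeries.coeff_C]
    · show tr L (ê i) = TrivSqZeroExt.inl (oL A L i) + TrivSqZeroExt.inr (ell A D P i)
      rw [tr_apply, hê0, hê1]
  have htre : ∀ a : Fin (N + 1), tr L (e (A.x P a)) =
      (TrivSqZeroExt.inl (A.x P a) + TrivSqZeroExt.inr (D (A.x P a)) : DualNumber L) := by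
    intro a
    rw [tr_apply, h0, h1]
  have hfst : ∀ a : Fin (N + 1),
      (tr L (aeval (Sum.elim (fun i => PowerSeries.C (A.x P i)) ê) (A.S a b))).fst =
      aeval (Sum.elim (A.x P) (oL A L)) (A.S a b) := by
    intro a
    rw [fst_tr, (coeff_aeval _ _).1]
    congr 2
    funext i
    rcases i with i | i
    · show PowerSeries.coeff 0 (PowerSeries.C (A.x P i)) = A.x P i
      simp [PowerSeries.coeff_C]
    · exact hê0 i
  obtain ⟨a', ha'⟩ := A.exists_x_ne P
  have hunit : IsUnit (TrivSqZeroExt.inl (A.x P a') + TrivSqZeroExt.inr (D (A.x P a')) :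
      DualNumber L) := by
    refine isUnit_dual ?_
    simpa using ha'
  obtain ⟨v, hv⟩ := hunit
  have key : ∀ a : Fin (N + 1),
      tr L (aeval (Sum.elim (fun i => PowerSeries.C (A.x P i)) ê) (A.S a b)) =
      tr L (aeval (Sum.elim (fun i => PowerSeries.C (A.x P i)) ê) (A.S a' b)) * (↑v⁻¹) *
        (TrivSqZeroExt.inl (A.x P a) + TrivSqZeroExt.inr (D (A.x P a)) : DualNumber L) := by
    intro a
    have h3 := congrArg (tr L) (hsymm a a')
    rw [map_mul, map_mul, htre, htre, ← hv] at h3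
    rw [mul_assoc, mul_comm (↑v⁻¹ : DualNumber L), ← mul_assoc, ← h3, mul_assoc, Units.mul_inv,
      mul_one]
  refine ⟨tr L (aeval (Sum.elim (fun i => PowerSeries.C (A.x P i)) ê) (A.S a' b)) * (↑v⁻¹),
    fun hb => ?_, fun a => ?_⟩
  · intro hu
    have h3 := congrArg TrivSqZeroExt.fst (key a')
    rw [TrivSqZeroExt.fst_mul, hu, zero_mul, hfst] at h3
    obtain ⟨c₀, hc₀, h4⟩ := zero_rep A L
    obtain ⟨δ, hδ, h5⟩ := S_pts A P (0 : A.Pts L)
    have h6 := h5 a' b
    have h7 : (Sum.elim (A.x P) (A.x (0 : A.Pts L)) : Fin (N + 1) ⊕ Fin (N + 1) → L) =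
        Sum.elim (fun i => 1 * A.x P i) fun i => c₀ * oL A L i := by
      congr 1
      · funext i
        rw [one_mul]
      · funext i
        exact h4 i
    rw [h7, AV.S_smul, h3, mul_zero, add_zero, sub_zero] at h6
    exact (mul_ne_zero hδ (mul_ne_zero ha' hb)) h6.symm
  · rw [← htr, key]

theorem ell_eq_zero (h : ell A D P = 0) (i j : Fin (N + 1)) : D (A.x P i / A.x P j) = 0 := by
  by_cases hj : A.x P j = 0
  · rw [hj, div_zero, map_zero]
  obtain ⟨u, hu, hw⟩ := ell_inv A hD P j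
  have hu0 := hu hj
  have h1 : ∀ a : Fin (N + 1), u.fst * D (A.x P a) + A.x P a * u.snd = 0 := by
    intro a
    have h2 := hw a
    have h3 : (Sum.elim (fun i => TrivSqZeroExt.inl (A.x P i)) fun i =>
        TrivSqZeroExt.inl (oL A L i) + TrivSqZeroExt.inr (ell A D P i) :
        Fin (N + 1) ⊕ Fin (N + 1) → DualNumber L) = fun i =>
          TrivSqZeroExt.inl (Sum.elim (A.x P) (oL A L) i) +
            TrivSqZeroExt.inr ((0 : Fin (N + 1) ⊕ Fin (N + 1) → L) i) := by
      funext s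
      rcases s with s | s
      · simp
      · simp [h]
    rw [h3, aeval_dual] at h2
    have h4 := congrArg TrivSqZeroExt.snd h2
    simp only [Pi.zero_apply, mul_zero, Finset.sum_const_zero, TrivSqZeroExt.inr_zero, add_zero,
      TrivSqZeroExt.snd_inl, TrivSqZeroExt.snd_mul, TrivSqZeroExt.fst_add, TrivSqZeroExt.snd_add,
      TrivSqZeroExt.fst_inl, TrivSqZeroExt.fst_inr, TrivSqZeroExt.snd_inr, zero_add,
      smul_eq_mul, MulOpposite.smul_eq_mul_unop, MulOpposite.unop_op] at h4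
    rw [h4]
    ring
  have h5 := h1 i
  have h6 := h1 j
  have h7 : A.x P j * D (A.x P i) = A.x P i * D (A.x P j) := by
    refine mul_left_cancel₀ hu0 ?_
    linear_combination A.x P j * h5 - A.x P i * h6
  rw [Derivation.leibniz_div, smul_eq_mul, smul_eq_mul, smul_eq_mul, h7, sub_self, mul_zero]

end

end Pool.Agent.Lib.MP_17a322_nt.VA.G
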