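import Pool.Agent.Lib.MP_17a322_nt.VA.Defs
import Pool.Agent.Lib.MP_17a322_nt.VA.G14
import Pool.Agent.Lib.MP_17a322_nt.VA.G16
import Pool.Agent.Lib.MP_17a322_nt.VA.G24

/-!
VA, part G, job G29: a frame spans the tangent space.

Proofs (complete).
`exists_generic`: for a field `k` over `K`, `𝔟 := A.I.map (map (algebraMap K k))` is prime (`A.prime k`). `M := FractionRing (MvPolynomial (Fin (N+1)) k ⧸ 𝔟)`, `x i` the class of `X i`; `aeval x g = 0 ↔ g ∈ 𝔟`. `x ≠ 0`: otherwise all `X i ∈ 𝔟`; but the point 0 over `k` is a zero of `𝔟` (`Z_x_isPt`, `Ideal.map_le_iff_le_comap`), and its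
coordinates are not all 0. `x` is a zero of `A.I`, so `Z_exists_pt` gives `y` with `A.x y = c • x`; `loc k (A.x y) = loc k x` (`loc_smul`) `= 𝔟`: `≤`: `aeval_of_mem_loc`; `≥`: `𝔟` contains the components of its elements (it is generated by the images of the elements of `A.I`, whose components are in `A.I`; the set of the `g` all of whose components are in `𝔟`
is closed under sums and multiplication by monomials; or: `A.I ≤ loc K x` by `mem_loc` and `A.homog`, and `map_mem_loc`, `Ideal.map_le_iff_le_comap`: `𝔟 ≤ loc k x` directly).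
`grpI_top`: `GrpI A (A.I.map (map (algebraMap K k)))`: every point `P : A.Pts L` satisfies `ZP A (A.I.map ..) P` (`Ideal.map_le_iff_le_comap`, `map_mem_loc`, `mem_loc`, `A.homog`, `Z_x_isPt`).
`alg_of_noe`: let `y : A.Pts M` with `lf (nd.l 0) (A.x y) ≠ 0`, `aeval (nd.s y) nd.δ ≠ 0`. Then `nd.y y a` is algebraic over `E := IntermediateField.adjoin K (Set.range (nd.s y))`: `nd.y y` satisfies `A.IsPt` (`Z_isPt_smul`) and `lf (nd.l 0) (nd.y y) = 1`, `nd.s y k = lf (nd.l k.succ) (nd.y y)` (`lf` is linear); by `nd.Φ_zero` `θ' := aeval (nd.y y) nd.θ` is a zero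
of the monic polynomial `nd.Φ` with coefficients evaluated at `nd.s y` (elements of `E`), so it is algebraic over `E`; by `nd.p_eq` `nd.y y a = p a (s, θ') / δ (s)`.
`frame_span`: `k := AlgebraicClosure L` (over `L`, so over `K`), `M, y` from `exists_generic` for `k`. `lf (nd.l 0) (A.x y) ≠ 0` and `aeval (nd.s y) nd.δ ≠ 0`: otherwise a homogeneous polynomial over `K` (the linear form `nd.l 0`, resp. `δ^h := l 0 ^ D * δ (l 1 / l 0, ..)`) vanishes at `A.x y`, so it is in `loc k (A.x y) ∩ K[X]`, so it vanishes at all points of `A` over all fields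
(`loc K (A.x y)`: an `f` over `K` in `loc k (A.x y) = A.I.map ..` vanishes at all points over all fields over `k`; for a point `P` over a field `L'` over `K` pass to a common extension of `L'` and `k` (`exists_compositum`)); but at the point of `nd.indep` `l 0 ≠ 0` and `δ (s) ≠ 0` (`nd.δ_ne`, algebraic independence). [For the second one: `l 0 * δ^h` with `D` the total degree of `δ`, see
`exists_homogenize` of G16 for the idea: `δ^h = ∑ m, coeff m δ • (∏ k, (l (k+1)) ^ m k) * (l 0) ^ (D - ∑ m)`.]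
Normalise: `τ' := τ - τ_{b₀} / o_{b₀} • o`, `t' a := t a - (t a)_{b₀} / o_{b₀} • o` (here `o` is the vector of the frame, `o = c₀ • o₀ A`, `c₀ ≠ 0`), all divided by `c₀`: they are in `Tsp A (A.I.map ..) M` (over `M`): the dual number vector `o + ε τ` is a zero of `A.I`; so is `(1 - ε α) (o + ε τ) = o + ε (τ - α o)` (`Z_isPt_smul`) and its multiple by `c₀⁻¹`; `aeval_dual` (G10)
gives `∑ i, aeval (oL A L) (pderiv i f) * τ'' i = 0` for `f ∈ A.I`, and for `G` in `A.I.map ..` as in `Tsp_map` (G28; prove what you need). By `exists_der` (G16, for `grpI_top`) there are derivations `D_0, D_a` of `M`, zero on `k`, with `ell A D_0 y = τ''`, `ell A D_a y = t'' a`. The `n + 1` vectors `(D_j (nd.s y l))_l ∈ M^n` are linearly dependent: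
`c_0, c_a ∈ M` not all 0 with `∑ c_j D_j (nd.s y l) = 0` for all `l`. `D := ∑ c_j • D_j` kills `K` and all `nd.s y l`, so it kills `IntermediateField.adjoin K (range (nd.s y))` and everything algebraic over it (`derivation_algebraic`, VN/E5.lean), so all `nd.y y a`, so all ratios of the coordinates, so `ell A D y = 0`: (`ell_eq` for `x := nd.y y`: `ellv A x 0 = 0`). So
`c_0 • τ'' + ∑ c_a • t'' a = 0` (`ell_der_add`, `ell_der_smul`). If `c_0 = 0` then the `t'' a` were linearly dependent over `M`; they are vectors over `K`, linearly independent over `K` together with `o` (`Frame`), so also over `M` (`LinearIndependent` and field extension: e.g. choose `K`-linear functionals dual to `o, t a`). So `c_0 ≠ 0` and `τ'' = ∑ ω_a • t'' a`, `ω_a ∈ M`.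
Choose an `L`-linear map `ρ : M → L` with `ρ (algebraMap L M c) = c` (`LinearMap.exists_leftInverse_of_injective`) and apply it to the coordinates: `τ'' = ∑ ρ (ω_a) • t'' a` over `L`. Undo the normalisation.
-/

universe u

namespace Pool.Agent.Lib.MP_17a322_nt.VA.G

open MvPolynomial

open Pool.Agent.Lib.MP_17a322_nt.VN

/-- The generic point of a prime ideal. -/
private theorem g29a_gen {k : Type u} [Field k] {n : ℕ} (𝔟 : Ideal (MvPolynomial (Fin n) k))
    (h𝔟 : 𝔟.IsPrime) : ∃ (M : Type u) (_ : Field M) (_ : Algebra k M) (x : Fin n → M),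
      ∀ g, aeval x g = 0 ↔ g ∈ 𝔟 := by
  have := h𝔟
  refine ⟨FractionRing (MvPolynomial (Fin n) k ⧸ 𝔟), inferInstance, inferInstance,
    fun i => algebraMap (MvPolynomial (Fin n) k ⧸ 𝔟) _ (Ideal.Quotient.mk 𝔟 (X i)), fun g => ?_⟩
  have h1 : (aeval fun i => algebraMap (MvPolynomial (Fin n) k ⧸ 𝔟)
      (FractionRing (MvPolynomial (Fin n) k ⧸ 𝔟)) (Ideal.Quotient.mk 𝔟 (X i)) :
        MvPolynomial (Fin n) k →ₐ[k] FractionRing (MvPolynomial (Fin n) k ⧸ 𝔟)) =
      (IsScalarTower.toAlgHom k (MvPolynomial (Fin n) k ⧸ 𝔟)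
        (FractionRing (MvPolynomial (Fin n) k ⧸ 𝔟))).comp (Ideal.Quotient.mkₐ k 𝔟) := by
    apply MvPolynomial.algHom_ext
    intro i
    rw [aeval_X]
    rfl
  rw [h1]
  show algebraMap (MvPolynomial (Fin n) k ⧸ 𝔟) (FractionRing (MvPolynomial (Fin n) k ⧸ 𝔟))
    (Ideal.Quotient.mk 𝔟 g) = 0 ↔ g ∈ 𝔟
  rw [map_eq_zero_iff _ (IsFractionRing.injective (MvPolynomial (Fin n) k ⧸ 𝔟)
    (FractionRing (MvPolynomial (Fin n) k ⧸ 𝔟))), Ideal.Quotient.eq_zero_iff_mem]

section

variable {K : Type u} [Field K] {N : ℕ} (A : AV K N) (k : Type u) [Field k] [Algebra K k]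

private theorem g29a_top {L : Type u} [Field L] [Algebra K L] [Algebra k L] [IsScalarTower K k L]
    (P : A.Pts L) : A.I.map (map (σ := Fin (N + 1)) (algebraMap K k)) ≤ loc k (A.x P) := by
  rw [Ideal.map_le_iff_le_comap]
  intro f hf
  rw [Ideal.mem_comap, map_mem_loc, mem_loc]
  intro d
  exact Z_x_isPt A P _ (A.homog f hf d)

/-- Generic points. -/
theorem exists_generic : ∃ (M : Type u) (_ : Field M) (_ : Algebra K M) (_ : Algebra k M)
    (_ : IsScalarTower K k M) (y : A.Pts M),
      loc k (A.x y) = A.I.map (map (σ := Fin (N + 1)) (algebraMap K k)) := by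
  obtain ⟨M, hM, hkM, x, hx⟩ := g29a_gen
    (A.I.map (map (σ := Fin (N + 1)) (algebraMap K k))) (A.prime k)
  let hKM : Algebra K M := ((algebraMap k M).comp (algebraMap K k)).toAlgebra
  have hT : IsScalarTower K k M := IsScalarTower.of_algebraMap_eq fun _ => rfl
  have hx0 : x ≠ 0 := by
    rintro rfl
    apply Z_x_ne A (0 : A.Pts k)
    funext i
    have h1 : (X i : MvPolynomial (Fin (N + 1)) k) ∈
        A.I.map (map (σ := Fin (N + 1)) (algebraMap K k)) := by
      rw [← hx, aeval_X]
      rfl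
    have h2 := aeval_of_mem_loc (g29a_top A k (0 : A.Pts k) h1)
    rw [aeval_X] at h2
    exact h2
  have hpt : A.IsPt x := by
    intro f hf
    rw [← aeval_map_algebraMap k, hx]
    exact Ideal.mem_map_of_mem _ hf
  obtain ⟨y, c, hc, hy⟩ := Z_exists_pt A hx0 hpt
  refine ⟨M, hM, hKM, hkM, hT, y, le_antisymm ?_ (g29a_top A k y)⟩
  intro g hg
  have h1 : A.x y = fun i => c * x i := funext hy
  rw [h1, loc_smul hc] at hg
  exact (hx g).1 (aeval_of_mem_loc hg)

theorem ZP_top {L : Type u} [Field L] [Algebra K L] [Algebra k L] [IsScalarTower K k L]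
    (P : A.Pts L) : ZP A (A.I.map (map (σ := Fin (N + 1)) (algebraMap K k))) P := by
  exact g29a_top A k P

theorem grpI_top : GrpI A (A.I.map (map (σ := Fin (N + 1)) (algebraMap K k))) := by
  refine ⟨g29a_top A k (0 : A.Pts k), ?_⟩
  intro L _ _ _ _ P Q _ _
  exact g29a_top A k (P - Q)

end

private theorem g29b_lf_smul {K : Type u} [Field K] {N : ℕ} (l : Fin (N + 1) → K) {R : Type u}
    [CommRing R] [Algebra K R] (c : R) (y : Fin (N + 1) → R) :
    lf l (fun a => c * y a) = c * lf l y := by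
  unfold lf
  rw [Finset.mul_sum]
  refine Finset.sum_congr rfl fun a _ => ?_
  ring

/-- a linear form as a polynomial. -/
private noncomputable def g29b_L {K : Type u} [Field K] {N : ℕ} (l : Fin (N + 1) → K) :
    MvPolynomial (Fin (N + 1)) K := ∑ a, C (l a) * X a

private theorem g29b_L_hom {K : Type u} [Field K] {N : ℕ} (l : Fin (N + 1) → K) :
    (g29b_L l).IsHomogeneous 1 := by
  unfold g29b_L
  refine IsHomogeneous.sum _ _ _ fun a _ => ?_
  have h := (isHomogeneous_C (Fin (N + 1)) (l a)).mul (isHomogeneous_X K a)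
  rw [zero_add] at h
  exact h

private theorem g29b_L_eval {K : Type u} [Field K] {N : ℕ} (l : Fin (N + 1) → K) {R : Type u}
    [CommRing R] [Algebra K R] (y : Fin (N + 1) → R) : aeval y (g29b_L l) = lf l y := by
  unfold g29b_L lf
  rw [map_sum]
  refine Finset.sum_congr rfl fun a _ => ?_
  rw [map_mul, aeval_C, aeval_X]

private theorem g29b_y {K : Type u} [Field K] {N : ℕ} {A : AV K N} {n e : ℕ} (nd : Noe A n e)
    {M : Type u} [Field M] [Algebra K M] {y : A.Pts M} (hy : lf (nd.l 0) (A.x y) ≠ 0) :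
    A.IsPt (nd.y y) ∧ lf (nd.l 0) (nd.y y) = 1 ∧
      (fun k : Fin n => lf (nd.l k.succ) (nd.y y)) = nd.s y := by
  have h1 : nd.y y = fun a => (lf (nd.l 0) (A.x y))⁻¹ * A.x y a := by
    funext a
    unfold Noe.y
    rw [div_eq_inv_mul]
  refine ⟨?_, ?_, ?_⟩
  · rw [h1]
    exact Z_isPt_smul A (Z_x_isPt A y) _
  · rw [h1, g29b_lf_smul, inv_mul_cancel₀ hy]
  · funext k
    rw [h1, g29b_lf_smul]
    unfold Noe.s
    rw [div_eq_inv_mul]

section

variable {K : Type u} [Field K] {N : ℕ} {A : AV K N} {n e : ℕ} (nd : Noe A n e)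

/-- The affine coordinates are algebraic over the Noether coordinates. -/
theorem alg_of_noe {M : Type u} [Field M] [Algebra K M] {y : A.Pts M}
    (hy : lf (nd.l 0) (A.x y) ≠ 0) (hδ : aeval (nd.s y) nd.δ ≠ 0) (a : Fin (N + 1)) :
    IsAlgebraic (IntermediateField.adjoin K (Set.range (nd.s y))) (nd.y y a) := by
  obtain ⟨h1, h2, h3⟩ := g29b_y nd hy
  let E := IntermediateField.adjoin K (Set.range (nd.s y))
  let g : MvPolynomial (Fin n) K →ₐ[K] E :=
    aeval (fun k => (⟨nd.s y k, IntermediateField.subset_adjoin K _ ⟨k, rfl⟩⟩ : E))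
  have hg : (algebraMap E M).comp g.toRingHom =
      (aeval (R := K) fun k : Fin n => lf (nd.l k.succ) (nd.y y)).toRingHom := by
    rw [h3]
    refine MvPolynomial.ringHom_ext (fun c => ?_) (fun k => ?_)
    · change algebraMap E M (g (C c)) = aeval (nd.s y) (C c)
      rw [aeval_C, aeval_C, ← IsScalarTower.algebraMap_apply]
    · change algebraMap E M (g (X k)) = aeval (nd.s y) (X k)
      rw [aeval_X, aeval_X]
      rfl
  have hev : ∀ q : Polynomial (MvPolynomial (Fin n) K),
      q.eval₂ (aeval (R := K) fun k : Fin n => lf (nd.l k.succ) (nd.y y)).toRingHom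
        (aeval (nd.y y) nd.θ) = Polynomial.aeval (aeval (nd.y y) nd.θ)
          (q.map g.toRingHom) := by
    intro q
    rw [← hg, Polynomial.aeval_def, Polynomial.eval₂_map]
  have hθ : IsAlgebraic E (aeval (nd.y y) nd.θ) := by
    refine ⟨nd.Φ.map g.toRingHom, (nd.Φ_monic.map _).ne_zero, ?_⟩
    rw [← hev]
    exact nd.Φ_zero M (nd.y y) h1 h2
  let S := algebraicClosure E M
  have hθS : aeval (nd.y y) nd.θ ∈ S := mem_algebraicClosure_iff.2 hθ
  have hpS : ∀ q : Polynomial E, Polynomial.aeval (aeval (nd.y y) nd.θ) q ∈ S := by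
    intro q
    have h4 := Subalgebra.aeval_coe S.toSubalgebra
      (⟨aeval (nd.y y) nd.θ, hθS⟩ : S.toSubalgebra) q
    change Polynomial.aeval (aeval (nd.y y) nd.θ) q = _ at h4
    rw [h4]
    exact Subtype.property _
  have hδS : aeval (nd.s y) nd.δ ∈ S := by
    have h4 : aeval (nd.s y) nd.δ = algebraMap E M (g nd.δ) := by
      have h5 := RingHom.congr_fun hg nd.δ
      change algebraMap E M (g nd.δ) = aeval _ nd.δ at h5
      rw [h3] at h5
      exact h5.symm
    rw [h4]
    exact S.algebraMap_mem _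
  have hp := nd.p_eq M (nd.y y) h1 h2 a
  rw [hev] at hp
  have hp2 : aeval (nd.s y) nd.δ * nd.y y a =
      Polynomial.aeval (aeval (nd.y y) nd.θ) ((nd.p a).map g.toRingHom) := by
    rw [← hp, h3]
  have h6 : nd.y y a = Polynomial.aeval (aeval (nd.y y) nd.θ) ((nd.p a).map g.toRingHom) /
      aeval (nd.s y) nd.δ := by
    rw [← hp2, mul_div_cancel_left₀ _ hδ]
  rw [← mem_algebraicClosure_iff, h6]
  exact S.div_mem (hpS _) hδS

/-- The generic point is good. -/
theorem good_of_generic {k M : Type u} [Field k] [Algebra K k] [Field M] [Algebra K M]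
    [Algebra k M] [IsScalarTower K k M] {y : A.Pts M}
    (hy : loc k (A.x y) = A.I.map (map (σ := Fin (N + 1)) (algebraMap K k))) : nd.Good y := by
  have key : ∀ (f : MvPolynomial (Fin (N + 1)) K) (d : ℕ), f.IsHomogeneous d →
      aeval (A.x y) f = 0 → f ∈ A.I := by
    intro f d hf h0
    have h1 : f ∈ loc K (A.x y) := (mem_loc_of_homog hf).2 h0
    have h2 : map (algebraMap K k) f ∈ loc k (A.x y) := map_mem_loc.2 h1
    rw [hy] at h2
    have h3 : f ∈ (A.I.map (map (σ := Fin (N + 1)) (algebraMap K k))).comap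
        (map (σ := Fin (N + 1)) (algebraMap K k)) := h2
    rw [comap_map] at h3
    exact h3
  obtain ⟨L, _, _, P, hP, hind⟩ := nd.indep
  have h0 : lf (nd.l 0) (A.x y) ≠ 0 := by
    intro h0
    rw [← g29b_L_eval] at h0
    have h1 := Z_x_isPt A P _ (key _ 1 (g29b_L_hom _) h0)
    rw [g29b_L_eval] at h1
    exact hP h1
  refine ⟨h0, fun hδ => ?_⟩
  obtain ⟨d, G, hG, hGe⟩ := exists_homogenize (k := K) (0 : Fin (n + 1))
    (rename Fin.succ nd.δ)
  have hev : ∀ (L' : Type u) [Field L'] [Algebra K L'] (z : Fin (N + 1) → L'),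
      lf (nd.l 0) z ≠ 0 → aeval z (aeval (fun j => g29b_L (nd.l j)) G) =
        lf (nd.l 0) z ^ d * aeval (fun j : Fin n => lf (nd.l j.succ) z / lf (nd.l 0) z)
          nd.δ := by
    intro L' _ _ z hz
    have h1 : aeval z (aeval (fun j => g29b_L (nd.l j)) G) =
        aeval (fun j => lf (nd.l j) z) G := by
      have h2 := MvPolynomial.comp_aeval_apply (fun j => g29b_L (nd.l j)) (aeval z) G
      rw [h2]
      simp only [g29b_L_eval]
    rw [h1, hGe L' (fun j => lf (nd.l j) z) (fun j => lf (nd.l j) z / lf (nd.l 0) z)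
      (lf (nd.l 0) z) (by rw [div_self hz, mul_one]) (fun j => by rw [mul_div_cancel₀ _ hz])]
    rw [aeval_rename]
    rfl
  have hhom : (aeval (fun j => g29b_L (nd.l j)) G).IsHomogeneous d := by
    have h1 := hG.aeval (fun j => g29b_L (nd.l j)) (fun j => g29b_L_hom (nd.l j))
    rw [one_mul] at h1
    exact h1
  have h1 := key _ d hhom (by
    rw [hev M (A.x y) h0]
    change _ * aeval (nd.s y) nd.δ = 0
    rw [hδ, mul_zero])
  have h2 := Z_x_isPt A P _ h1
  rw [hev L (A.x P) hP] at h2
  have h3 := (mul_eq_zero.1 h2).resolve_left (pow_ne_zero _ hP)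
  exact nd.δ_ne (hind.eq_zero_of_aeval_eq_zero _ h3)

end

section

variable {K : Type u} [Field K] {N : ℕ} {A : AV K N}

private theorem g29c_split {L : Type u} [Field L] [Algebra K L] {x v : Fin (N + 1) → L}
    (h : A.IsPt (R := DualNumber L) fun i => TrivSqZeroExt.inl (x i) + TrivSqZeroExt.inr (v i)) :
    (∀ f ∈ A.I, aeval x f = 0) ∧ ∀ f ∈ A.I, ∑ i, aeval x (pderiv i f) * v i = 0 := by
  refine ⟨fun f hf => ?_, fun f hf => ?_⟩
  · have h1 := h f hf
    rw [aeval_dual] at h1
    have h2 := congrArg TrivSqZeroExt.fst h1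
    simpa using h2
  · have h1 := h f hf
    rw [aeval_dual] at h1
    have h2 := congrArg TrivSqZeroExt.snd h1
    simpa using h2

private theorem g29c_join {L : Type u} [Field L] [Algebra K L] {x v : Fin (N + 1) → L}
    (h1 : ∀ f ∈ A.I, aeval x f = 0)
    (h2 : ∀ f ∈ A.I, ∑ i, aeval x (pderiv i f) * v i = 0) :
    A.IsPt (R := DualNumber L) fun i => TrivSqZeroExt.inl (x i) + TrivSqZeroExt.inr (v i) := by
  intro f hf
  rw [aeval_dual, h1 f hf, h2 f hf]
  simp

private theorem g29c_map {L M : Type u} [Field L] [Algebra K L] [Field M] [Algebra K M]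
    (φ : L →ₐ[K] M) {x v : Fin (N + 1) → L}
    (h : A.IsPt (R := DualNumber L) fun i => TrivSqZeroExt.inl (x i) + TrivSqZeroExt.inr (v i)) :
    A.IsPt (R := DualNumber M) fun i =>
      TrivSqZeroExt.inl (φ (x i)) + TrivSqZeroExt.inr (φ (v i)) := by
  obtain ⟨h1, h2⟩ := g29c_split h
  have h3 : ∀ g : MvPolynomial (Fin (N + 1)) K, aeval (fun i => φ (x i)) g = φ (aeval x g) := by
    intro g
    have h4 := comp_aeval_apply (f := x) φ g
    exact h4.symm
  refine g29c_join (fun f hf => ?_) fun f hf => ?_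
  · rw [h3, h1 f hf, map_zero]
  · have h4 := congrArg φ (h2 f hf)
    rw [map_zero, map_sum] at h4
    rw [← h4]
    refine Finset.sum_congr rfl fun i _ => ?_
    rw [map_mul, h3]

/-- The normalised tangent vector. -/
private theorem g29c_tsp {k M : Type u} [Field k] [Algebra K k] [Field M] [Algebra K M]
    [Algebra k M] [IsScalarTower K k M] {x v : Fin (N + 1) → M} {β : M} (hβ : β ≠ 0)
    (hx : ∀ i, x i = β * oL A M i)
    (h : A.IsPt (R := DualNumber M) fun i => TrivSqZeroExt.inl (x i) + TrivSqZeroExt.inr (v i)) :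
    (fun i => β⁻¹ * v i - β⁻¹ * v A.b₀ * oL A M i) ∈
      Tsp A (A.I.map (map (σ := Fin (N + 1)) (algebraMap K k))) M := by
  have hb : oL A M A.b₀ = 1 := by
    show algebraMap K M (o₀ A A.b₀) = 1
    rw [o_b₀, map_one]
  refine ⟨?_, ?_⟩
  · show β⁻¹ * v A.b₀ - β⁻¹ * v A.b₀ * oL A M A.b₀ = 0
    rw [hb]
    ring
  · have h1 := Z_isPt_smul A h
      (TrivSqZeroExt.inl β⁻¹ - TrivSqZeroExt.inr (β⁻¹ * β⁻¹ * v A.b₀) : DualNumber M)
    have h2 : (fun i => (TrivSqZeroExt.inl β⁻¹ - TrivSqZeroExt.inr (β⁻¹ * β⁻¹ * v A.b₀) :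
        DualNumber M) * (TrivSqZeroExt.inl (x i) + TrivSqZeroExt.inr (v i))) =
        fun i => TrivSqZeroExt.inl (oL A M i) +
          TrivSqZeroExt.inr (β⁻¹ * v i - β⁻¹ * v A.b₀ * oL A M i) := by
      funext i
      refine TrivSqZeroExt.ext ?_ ?_
      · simp [hx]
        field_simp
      · simp [hx]
        field_simp
        ring
    rw [h2] at h1
    have h3 : A.I.map (map (σ := Fin (N + 1)) (algebraMap K k)) ≤
        RingHom.ker (aeval (R := k) (fun i => (TrivSqZeroExt.inl (oL A M i) +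
          TrivSqZeroExt.inr (β⁻¹ * v i - β⁻¹ * v A.b₀ * oL A M i) : DualNumber M))).toRingHom := by
      rw [Ideal.map_le_iff_le_comap]
      intro g hg
      show aeval _ (map (algebraMap K k) g) = 0
      rw [aeval_map_algebraMap]
      exact h1 g hg
    intro G hG
    have h4 : aeval (fun i => (TrivSqZeroExt.inl (oL A M i) +
          TrivSqZeroExt.inr (β⁻¹ * v i - β⁻¹ * v A.b₀ * oL A M i) : DualNumber M)) G = 0 := h3 hG
    rw [aeval_dual] at h4
    have h5 := congrArg TrivSqZeroExt.snd h4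
    simpa using h5

/-- Linear independence over an extension. -/
private theorem g29c_indep {M : Type u} [Field M] [Algebra K M] {m : ℕ}
    {w : Fin m → Fin (N + 1) → K} (hw : LinearIndependent K w) (g : Fin m → M)
    (h : ∀ i, ∑ j, g j * algebraMap K M (w j i) = 0) : ∀ j, g j = 0 := by
  intro j
  rw [← Module.forall_dual_apply_eq_zero_iff K]
  intro φ
  rw [Fintype.linearIndependent_iff] at hw
  refine hw (fun j => φ (g j)) ?_ j
  funext i
  have h1 := congrArg φ (h i)
  rw [map_zero, map_sum] at h1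
  rw [Finset.sum_apply, Pi.zero_apply, ← h1]
  refine Finset.sum_congr rfl fun j _ => ?_
  rw [mul_comm (g j), ← Algebra.smul_def, map_smul, Pi.smul_apply, smul_eq_mul, smul_eq_mul,
    mul_comm]

private theorem g29c_sum_apply {M ι : Type*} [Field M] (s : Finset ι)
    (E : ι → Derivation ℤ M M) (g : M) : (∑ i ∈ s, E i) g = ∑ i ∈ s, E i g := by
  classical
  induction s using Finset.induction_on with
  | empty => rfl
  | insert a s ha ih =>
    rw [Finset.sum_insert ha, Finset.sum_insert ha, Derivation.add_apply, ih]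

/-- A derivation that kills the Noether coordinates of a good point has logarithmic derivative 0. -/
private theorem g29c_ell_zero {n e : ℕ} (nd : Noe A n e) {M : Type u} [Field M] [Algebra K M]
    [CharZero M] {y : A.Pts M} (hy : lf (nd.l 0) (A.x y) ≠ 0) (hδ : aeval (nd.s y) nd.δ ≠ 0)
    (D : Derivation ℤ M M) (hD : ∀ c : K, D (algebraMap K M c) = 0)
    (hs : ∀ l, D (nd.s y l) = 0) : ell A D y = 0 := by
  have h1 : ∀ z ∈ IntermediateField.adjoin K (Set.range (nd.s y)), D z = 0 := by
    intro z hz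
    induction hz using IntermediateField.adjoin_induction with
    | mem x hx =>
      obtain ⟨l, rfl⟩ := hx
      exact hs l
    | algebraMap x => exact hD x
    | add x y _ _ hx hy => rw [map_add, hx, hy, add_zero]
    | inv x _ hx => rw [Derivation.leibniz_inv, hx, smul_zero]
    | mul x y _ _ hx hy => rw [Derivation.leibniz, hx, hy, smul_zero, smul_zero, add_zero]
  have h2 : ∀ a, D (nd.y y a) = 0 := fun a =>
    derivation_algebraic (k := IntermediateField.adjoin K (Set.range (nd.s y))) D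
      (fun c => h1 c c.2) _ (alg_of_noe nd hy hδ a)
  have h3 : ∀ i, A.x y i = lf (nd.l 0) (A.x y) * nd.y y i := by
    intro i
    show A.x y i = lf (nd.l 0) (A.x y) * (A.x y i / lf (nd.l 0) (A.x y))
    field_simp
  rw [ell_eq A hD hy h3]
  have h4 : (fun i => D (nd.y y i)) = 0 := funext h2
  rw [h4, ellv_zero]

end

section

variable {K : Type u} [Field K] {N : ℕ} {A : AV K N} {n e : ℕ} (nd : Noe A n e)

include nd in
/-- A frame spans the tangent space. -/
theorem frame_span [CharZero K] {o : Fin (N + 1) → K} {t : Fin n → Fin (N + 1) → K}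
    (ht : A.Frame o t) {L : Type u} [Field L] [Algebra K L] (τ : Fin (N + 1) → L)
    (hτ : A.IsPt (R := DualNumber L) fun i =>
      TrivSqZeroExt.inl (algebraMap K L (o i)) + TrivSqZeroExt.inr (τ i)) :
    ∃ (c : L) (ω : Fin n → L), ∀ i,
      τ i = c * algebraMap K L (o i) + ∑ a, ω a * algebraMap K L (t a i) := by
  obtain ⟨⟨c₀, hc₀, ho⟩, htp, hind⟩ := ht
  obtain ⟨M, iM, iKM, ikM, iT, y, hy⟩ := exists_generic A (AlgebraicClosure L)
  letI : Algebra L M := ((algebraMap (AlgebraicClosure L) M).comp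
    (algebraMap L (AlgebraicClosure L))).toAlgebra
  haveI : IsScalarTower L (AlgebraicClosure L) M := IsScalarTower.of_algebraMap_eq fun _ => rfl
  haveI : IsScalarTower K L M := by
    refine IsScalarTower.of_algebraMap_eq fun c => ?_
    rw [IsScalarTower.algebraMap_apply K (AlgebraicClosure L) M,
      IsScalarTower.algebraMap_apply K L (AlgebraicClosure L)]
    rfl
  haveI : CharZero M := charZero_of_injective_algebraMap (algebraMap K M).injective
  obtain ⟨hg1, hg2⟩ := good_of_generic nd hy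
  -- the coordinates of the origin
  have hob : o A.b₀ ≠ 0 := by
    intro h1
    apply A.b₀_spec
    rw [ho, h1, mul_zero]
  have ho' : ∀ i, o i = o A.b₀ * o₀ A i := by
    intro i
    show o i = o A.b₀ * (A.x (0 : A.Pts K) i / A.x (0 : A.Pts K) A.b₀)
    rw [ho i, ho A.b₀]
    field_simp
  have hβ : algebraMap K M (o A.b₀) ≠ 0 := by
    rw [Ne, map_eq_zero]
    exact hob
  have hx : ∀ i, algebraMap K M (o i) = algebraMap K M (o A.b₀) * oL A M i := by
    intro i
    show _ = algebraMap K M (o A.b₀) * algebraMap K M (o₀ A i)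
    rw [← map_mul, ← ho']
  -- the vectors over M
  let V : Fin (n + 1) → Fin (N + 1) → M :=
    Fin.cons (fun i => algebraMap L M (τ i)) fun a i => algebraMap K M (t a i)
  have hV : ∀ j, A.IsPt (R := DualNumber M) fun i =>
      TrivSqZeroExt.inl (algebraMap K M (o i)) + TrivSqZeroExt.inr (V j i) := by
    intro j
    refine Fin.cases ?_ (fun a => ?_) j
    · have h1 := g29c_map (IsScalarTower.toAlgHom K L M) hτ
      simp only [IsScalarTower.coe_toAlgHom', ← IsScalarTower.algebraMap_apply K L M] at h1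
      exact h1
    · exact g29c_map (Algebra.ofId K M) (htp a)
  let w : Fin (n + 1) → Fin (N + 1) → M := fun j i =>
    (algebraMap K M (o A.b₀))⁻¹ * V j i - (algebraMap K M (o A.b₀))⁻¹ * V j A.b₀ * oL A M i
  have hw : ∀ j, w j ∈
      Tsp A (A.I.map (map (σ := Fin (N + 1)) (algebraMap K (AlgebraicClosure L)))) M :=
    fun j => g29c_tsp hβ hx (hV j)
  have hder : ∀ j, ∃ D : Derivation ℤ M M,
      (∀ c : AlgebraicClosure L, D (algebraMap (AlgebraicClosure L) M c) = 0) ∧
        ell A D y = w j := fun j => exists_der A (grpI_top A (AlgebraicClosure L)) hy (hw j)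
  choose Dj hDj hellj using hder
  have hdep : ¬ LinearIndependent M (fun (j : Fin (n + 1)) (l : Fin n) => Dj j (nd.s y l)) := by
    intro h1
    have h2 := h1.fintype_card_le_finrank
    rw [Module.finrank_fin_fun, Fintype.card_fin] at h2
    omega
  rw [Fintype.not_linearIndependent_iff] at hdep
  obtain ⟨g, hg, j₀, hj₀⟩ := hdep
  let D : Derivation ℤ M M := ∑ j, g j • Dj j
  have hDa : ∀ z, D z = ∑ j, g j * Dj j z := by
    intro z
    show (∑ j, g j • Dj j) z = _
    rw [g29c_sum_apply]
    rfl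
  have hDK : ∀ c : K, D (algebraMap K M c) = 0 := by
    intro c
    rw [hDa]
    refine Finset.sum_eq_zero fun j _ => ?_
    rw [IsScalarTower.algebraMap_apply K (AlgebraicClosure L) M, hDj, mul_zero]
  have hDs : ∀ l, D (nd.s y l) = 0 := by
    intro l
    rw [hDa]
    have h1 := congrFun hg l
    rw [Finset.sum_apply] at h1
    exact h1
  have h1 : ell A D y = 0 := g29c_ell_zero nd hg1 hg2 D hDK hDs
  have h2 : ell A D y = ∑ j, g j • w j := by
    show ellv A (A.x y) (fun i => D (A.x y i)) = _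
    have h3 : (fun i => D (A.x y i)) = ∑ j, g j • (fun i => Dj j (A.x y i)) := by
      funext i
      rw [hDa, Finset.sum_apply]
      rfl
    rw [h3, ellv_sum]
    refine Finset.sum_congr rfl fun j _ => ?_
    rw [ellv_smul, ← hellj j]
    rfl
  rw [h1] at h2
  -- back to the vectors V
  have h3 : ∀ i, ∑ j, g j * V j i +
      (-∑ j, g j * V j A.b₀) * (algebraMap K M (o A.b₀))⁻¹ * algebraMap K M (o i) = 0 := by
    intro i
    have h4 := congrFun h2 i
    rw [Finset.sum_apply, Pi.zero_apply] at h4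
    have h5 : ∑ j, (g j • w j) i = (algebraMap K M (o A.b₀))⁻¹ * ∑ j, g j * V j i -
        (algebraMap K M (o A.b₀))⁻¹ * (∑ j, g j * V j A.b₀) * oL A M i := by
      rw [Finset.mul_sum, Finset.mul_sum, Finset.sum_mul, ← Finset.sum_sub_distrib]
      refine Finset.sum_congr rfl fun j _ => ?_
      show g j * ((algebraMap K M (o A.b₀))⁻¹ * V j i -
        (algebraMap K M (o A.b₀))⁻¹ * V j A.b₀ * oL A M i) = _
      ring
    rw [h5] at h4
    rw [hx i]
    have h6 : (algebraMap K M (o A.b₀))⁻¹ * algebraMap K M (o A.b₀) = 1 := inv_mul_cancel₀ hβ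
    linear_combination (-(algebraMap K M (o A.b₀))) * h4 +
      (-(∑ j, g j * V j i) + (∑ j, g j * V j A.b₀) * oL A M i) * h6 -
      (∑ j, g j * V j A.b₀) * oL A M i * h6
  obtain ⟨γ, hγ⟩ : ∃ γ : M, ∀ i, ∑ j, g j * V j i + γ * algebraMap K M (o i) = 0 := ⟨_, h3⟩
  have h4 : ∀ i, g 0 * algebraMap L M (τ i) + ∑ a : Fin n, g a.succ * algebraMap K M (t a i) +
      γ * algebraMap K M (o i) = 0 := by
    intro i
    have h5 := hγ i
    rw [Fin.sum_univ_succ] at h5
    exact h5
  have hg0 : g 0 ≠ 0 := by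
    intro h5
    have h6 := g29c_indep (M := M) hind (Fin.cons (α := fun _ => M) γ fun a => g a.succ) (by
      intro i
      rw [Fin.sum_univ_succ]
      simp only [Fin.cons_zero, Fin.cons_succ]
      have h7 := h4 i
      rw [h5] at h7
      linear_combination h7)
    apply hj₀
    refine Fin.cases h5 (fun a => ?_) j₀
    have h7 := h6 a.succ
    simpa using h7
  obtain ⟨ρ, hρ⟩ := LinearMap.exists_leftInverse_of_injective (Algebra.linearMap L M)
    (LinearMap.ker_eq_bot.2 (algebraMap L M).injective)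
  have hρ1 : ∀ z : L, ρ (algebraMap L M z) = z := fun z => LinearMap.congr_fun hρ z
  have hρ2 : ∀ (c : K) (z : M), ρ (z * algebraMap K M c) = ρ z * algebraMap K L c := by
    intro c z
    rw [IsScalarTower.algebraMap_apply K L M, mul_comm, ← Algebra.smul_def, map_smul, smul_eq_mul,
      mul_comm]
  refine ⟨ρ (-(γ / g 0)), fun a => ρ (-(g a.succ / g 0)), fun i => ?_⟩
  have h5 : algebraMap L M (τ i) = -(γ / g 0) * algebraMap K M (o i) +
      ∑ a : Fin n, -(g a.succ / g 0) * algebraMap K M (t a i) := by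
    have h6 := h4 i
    have h7 : ∑ a : Fin n, -(g a.succ / g 0) * algebraMap K M (t a i) =
        -(g 0)⁻¹ * ∑ a : Fin n, g a.succ * algebraMap K M (t a i) := by
      rw [Finset.mul_sum]
      refine Finset.sum_congr rfl fun a _ => ?_
      ring
    rw [h7]
    field_simp
    linear_combination h6
  have h6 := congrArg ρ h5
  rw [hρ1, map_add, map_sum, hρ2] at h6
  rw [h6]
  congr 1
  exact Finset.sum_congr rfl fun a _ => hρ2 _ _

end

end Pool.Agent.Lib.MP_17a322_nt.VA.G
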