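import Pool.Agent.Lib.MP_17a322_nt.VA.G01
import Pool.Agent.Lib.MP_17a322_nt.VA.G02a

/-!
VA, part G, job G02: points, differences and the forms `S`.

Proofs. `o_b₀`: `b₀_spec`. `zero_rep`: the point 0 over `L` is the image of the point 0 over `K`
(`Z_img_zero A (Algebra.ofId K L)`), and `A.x 0 = A.x 0 A.b₀ * o₀ A` over `K`.
`S_pts` is `A.spec`. `BiH_S`: `A.bihomog` and `support_map_subset`. `BiH_subP`, `BiH_addP`: `BiH_bind`.
`aeval_subP_ring`: `MvPolynomial.aeval_bind₁` (`aeval f (bind₁ g G) = aeval (fun i => aeval f (g i)) G`) and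
`MvPolynomial.aeval_map_algebraMap`.
`aeval_subP`: by `aeval_subP_ring` the left side is `aeval (fun b => c * (A.x (P+Q) a * A.x (P-Q) b)) G
= (c * A.x (P+Q) a) ^ d * aeval (A.x (P-Q)) G` (`aeval_smul_of_homog`, G01).
`loc_img`: `ι (A.x P i) = c * A.x P' i`, `loc_map` and `loc_smul` of G01. `GrpI.zero`: image of the origin over `k`
(`Z_img_zero`); `neg`: `0 - P`; `add`: `P - (0 - Q)`.
-/

universe u w

namespace Pool.Agent.Lib.MP_17a322_nt.VA.G

open MvPolynomial

section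

variable {K : Type u} [Field K] {N : ℕ} (A : AV K N)

theorem o_b₀ : o₀ A A.b₀ = 1 := by
  exact div_self A.b₀_spec

/-- The vector `oL A L` represents the origin. -/
theorem zero_rep (L : Type u) [Field L] [Algebra K L] :
    ∃ c : L, c ≠ 0 ∧ ∀ i, A.x (0 : A.Pts L) i = c * oL A L i := by
  obtain ⟨c, hc, h⟩ := Z_img_zero A (Algebra.ofId K L)
  have h0 : algebraMap K L (A.x (0 : A.Pts K) A.b₀) ≠ 0 := by
    intro h1
    exact A.b₀_spec ((map_eq_zero _).1 h1)
  refine ⟨c⁻¹ * algebraMap K L (A.x (0 : A.Pts K) A.b₀), mul_ne_zero (inv_ne_zero hc) h0,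
    fun i => ?_⟩
  have h1 : algebraMap K L (A.x (0 : A.Pts K) i) = c * A.x (0 : A.Pts L) i := h i
  have h2 : oL A L i = algebraMap K L (A.x (0 : A.Pts K) i) /
      algebraMap K L (A.x (0 : A.Pts K) A.b₀) := by
    show algebraMap K L (A.x (0 : A.Pts K) i / A.x (0 : A.Pts K) A.b₀) = _
    rw [map_div₀]
  rw [h2, h1]
  field_simp

theorem S_pts {L : Type u} [Field L] [Algebra K L] (P Q : A.Pts L) : ∃ c : L, c ≠ 0 ∧ ∀ a b,
    aeval (Sum.elim (A.x P) (A.x Q)) (A.S a b) = c * (A.x (P + Q) a * A.x (P - Q) b) := by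
  exact A.spec L P Q

section

variable {k : Type u} [Field k] [Algebra K k]

theorem BiH_S (a b : Fin (N + 1)) : BiH 2 2 (map (algebraMap K k) (A.S a b)) := by
  intro m hm
  exact A.bihomog a b m (support_map_subset _ _ hm)

theorem BiH_subP {G : MvPolynomial (Fin (N + 1)) k} {d : ℕ} (hG : G.IsHomogeneous d)
    (a : Fin (N + 1)) : BiH (d * 2) (d * 2) (subP A k G a) := by
  exact BiH_bind hG fun b => BiH_S A a b

theorem BiH_addP {G : MvPolynomial (Fin (N + 1)) k} {d : ℕ} (hG : G.IsHomogeneous d)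
    (b : Fin (N + 1)) : BiH (d * 2) (d * 2) (addP A k G b) := by
  exact BiH_bind hG fun a => BiH_S A a b

theorem aeval_subP_ring {R : Type u} [CommRing R] [Algebra K R] [Algebra k R]
    [IsScalarTower K k R] (u v : Fin (N + 1) → R) (G : MvPolynomial (Fin (N + 1)) k)
    (a : Fin (N + 1)) : aeval (Sum.elim u v) (subP A k G a) =
      aeval (fun b => aeval (Sum.elim u v) (A.S a b)) G := by
  rw [subP, aeval_bind₁]
  congr 2
  funext b
  rw [aeval_map_algebraMap]

theorem aeval_addP_ring {R : Type u} [CommRing R] [Algebra K R] [Algebra k R]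
    [IsScalarTower K k R] (u v : Fin (N + 1) → R) (G : MvPolynomial (Fin (N + 1)) k)
    (b : Fin (N + 1)) : aeval (Sum.elim u v) (addP A k G b) =
      aeval (fun a => aeval (Sum.elim u v) (A.S a b)) G := by
  rw [addP, aeval_bind₁]
  congr 2
  funext a
  rw [aeval_map_algebraMap]

theorem aeval_subP {L : Type u} [Field L] [Algebra K L] [Algebra k L] [IsScalarTower K k L]
    (P Q : A.Pts L) : ∃ c : L, c ≠ 0 ∧ ∀ (G : MvPolynomial (Fin (N + 1)) k) (d : ℕ),
      G.IsHomogeneous d → ∀ a, aeval (Sum.elim (A.x P) (A.x Q)) (subP A k G a) =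
        (c * A.x (P + Q) a) ^ d * aeval (A.x (P - Q)) G := by
  obtain ⟨c, hc, h⟩ := S_pts A P Q
  refine ⟨c, hc, fun G d hG a => ?_⟩
  rw [aeval_subP_ring, ← aeval_smul_of_homog hG]
  congr 2
  funext b
  rw [h, mul_assoc]

theorem aeval_addP {L : Type u} [Field L] [Algebra K L] [Algebra k L] [IsScalarTower K k L]
    (P Q : A.Pts L) : ∃ c : L, c ≠ 0 ∧ ∀ (G : MvPolynomial (Fin (N + 1)) k) (d : ℕ),
      G.IsHomogeneous d → ∀ b, aeval (Sum.elim (A.x P) (A.x Q)) (addP A k G b) =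
        (c * A.x (P - Q) b) ^ d * aeval (A.x (P + Q)) G := by
  obtain ⟨c, hc, h⟩ := S_pts A P Q
  refine ⟨c, hc, fun G d hG b => ?_⟩
  rw [aeval_addP_ring, ← aeval_smul_of_homog hG]
  congr 2
  funext a
  rw [h]
  ring

/-- The ideal of the image of a point. -/
theorem loc_img {L L' : Type u} [Field L] [Algebra K L] [Algebra k L] [IsScalarTower K k L]
    [Field L'] [Algebra K L'] [Algebra k L'] [IsScalarTower K k L'] (ι : L →ₐ[k] L')
    {P : A.Pts L} {P' : A.Pts L'} (h : A.Img (ι.restrictScalars K) P P') :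
    loc k (A.x P') = loc k (A.x P) := by
  obtain ⟨c, hc, h1⟩ := h
  rw [← loc_smul (x := A.x P') hc, ← loc_map (x := A.x P) ι]
  congr 1
  funext i
  exact (h1 i).symm

theorem ZP_img {L L' : Type u} [Field L] [Algebra K L] [Algebra k L] [IsScalarTower K k L]
    [Field L'] [Algebra K L'] [Algebra k L'] [IsScalarTower K k L'] (ι : L →ₐ[k] L')
    {P : A.Pts L} {P' : A.Pts L'} (h : A.Img (ι.restrictScalars K) P P')
    {𝔟 : Ideal (MvPolynomial (Fin (N + 1)) k)} (hP : ZP A 𝔟 P) : ZP A 𝔟 P' := by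
  show 𝔟 ≤ loc k (A.x P')
  rw [loc_img A ι h]
  exact hP

/-- The closed set of a `GrpI` contains the origin over all fields. -/
theorem GrpI.zero {𝔟 : Ideal (MvPolynomial (Fin (N + 1)) k)} (h : GrpI A 𝔟) (L : Type u)
    [Field L] [Algebra K L] [Algebra k L] [IsScalarTower K k L] : ZP A 𝔟 (0 : A.Pts L) := by
  exact ZP_img A (Algebra.ofId k L) (Z_img_zero A _) h.1

theorem GrpI.neg {𝔟 : Ideal (MvPolynomial (Fin (N + 1)) k)} (h : GrpI A 𝔟) {L : Type u}
    [Field L] [Algebra K L] [Algebra k L] [IsScalarTower K k L] {P : A.Pts L} (hP : ZP A 𝔟 P) :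
    ZP A 𝔟 (-P) := by
  rw [← zero_sub]
  exact h.2 L 0 P (GrpI.zero A h L) hP

theorem GrpI.add {𝔟 : Ideal (MvPolynomial (Fin (N + 1)) k)} (h : GrpI A 𝔟) {L : Type u}
    [Field L] [Algebra K L] [Algebra k L] [IsScalarTower K k L] {P Q : A.Pts L}
    (hP : ZP A 𝔟 P) (hQ : ZP A 𝔟 Q) : ZP A 𝔟 (P + Q) := by
  have h1 : P + Q = P - -Q := by rw [sub_neg_eq_add]
  rw [h1]
  exact h.2 L P (-Q) hP (GrpI.neg A h hQ)

end

end

end Pool.Agent.Lib.MP_17a322_nt.VA.G
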