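import Pool.Agent.Lib.MP_17a322_nt.VA.C1a
import Pool.Agent.Lib.MP_17a322_nt.VN.C05

/-!
# JOB VA C4a: the reduction by a multiplication table: values and degrees

PROOFS. Models: `rep_mpw` (VN/C04), `GG_eval`, `GG_degree_inl`, `GG_degree_inr`, `GG_map` (VN/C05), `mpw_degree`, `map_mpw`.
`mpw_rel`: as `rep_mpw`: the vector `(w l)_l` is an eigenvector: with `M' j l m := aeval z (M j l m)`: `∑ l, w l * M' j l m = u j * w m` for all `m`; then for powers and for the ordered product (`List.ofFn`, induction on the list). `map_mpw` commutes `aeval z` with `mpw`.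
`GR_eval`: as `GG_eval`. `RR_eval` similarly. `mpw_total`: all entries of `mpw M a` have total degree `≤ (∑ a j) * D` (`totalDegree_mul`, `totalDegree_finset_sum`, induction on powers and on the list; the identity matrix has entries of total degree `0`).
`GR_BD`: every term: `C * ∏ X (inl t) ^ m (inl t)` has bidegree `(∑ m (inl t), 0)`, `rename Sum.inr` of a polynomial of total degree `≤ d` has bidegree `(0, d)` (`support_rename_of_injective`, `Finsupp.mapDomain_apply`, `Finsupp.mapDomain_notMem_range`-type lemma; for a polynomial in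
finitely many variables `∑ t, m t ≤ totalDegree` for `m ∈ support`: `le_totalDegree`, `Finsupp.sum_fintype`), `BD.mul`, `BD.sum`.
-/

universe u

namespace Pool.Agent.Lib.MP_17a322_nt.VA

open MvPolynomial Height
open Pool.Agent.Lib.MP_17a322_nt.RO
open Pool.Agent.Lib.MP_17a322_nt.VJ
open Pool.Agent.Lib.MP_17a322_nt.VN

private theorem C4a_mpw_succ {A : Type*} [CommRing A] {n e : ℕ}
    (N : Fin (n + 1) → Matrix (Fin (e + 1)) (Fin (e + 1)) A) (a : Fin (n + 1) → ℕ) :
    mpw N a = N 0 ^ a 0 * mpw (fun j => N j.succ) (fun j => a j.succ) := by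
  unfold mpw
  rw [List.ofFn_succ, List.prod_cons]

private theorem C4a_mul_deg {k : Type*} [CommRing k] {σ : Type*} {e : ℕ}
    (P N : Matrix (Fin (e + 1)) (Fin (e + 1)) (MvPolynomial σ k)) {p D : ℕ}
    (hP : ∀ l m, (P l m).totalDegree ≤ p) (hN : ∀ l m, (N l m).totalDegree ≤ D)
    (l m : Fin (e + 1)) : ((P * N) l m).totalDegree ≤ p + D := by
  rw [Matrix.mul_apply]
  refine (totalDegree_finsetSum _ _).trans (Finset.sup_le fun i _ => ?_)
  exact (totalDegree_mul _ _).trans (add_le_add (hP l i) (hN i m))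

private theorem C4a_pow_deg {k : Type*} [CommRing k] {σ : Type*} {e : ℕ}
    (P N : Matrix (Fin (e + 1)) (Fin (e + 1)) (MvPolynomial σ k)) {p D : ℕ}
    (hP : ∀ l m, (P l m).totalDegree ≤ p) (hN : ∀ l m, (N l m).totalDegree ≤ D) (a : ℕ)
    (l m : Fin (e + 1)) : ((P * N ^ a) l m).totalDegree ≤ p + a * D := by
  induction a generalizing l m with
  | zero =>
    rw [pow_zero, mul_one, zero_mul, add_zero]
    exact hP l m
  | succ a ih =>
    rw [pow_succ, ← mul_assoc]
    refine (C4a_mul_deg _ N ih hN l m).trans (le_of_eq ?_)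
    ring

private theorem C4a_list_deg {k : Type*} [CommRing k] {σ : Type*} {n e : ℕ}
    (N : Fin n → Matrix (Fin (e + 1)) (Fin (e + 1)) (MvPolynomial σ k)) {D : ℕ}
    (h : ∀ j l m, (N j l m).totalDegree ≤ D) (a : Fin n → ℕ)
    (P : Matrix (Fin (e + 1)) (Fin (e + 1)) (MvPolynomial σ k)) {p : ℕ}
    (hP : ∀ l m, (P l m).totalDegree ≤ p) (l m : Fin (e + 1)) :
    ((P * mpw N a) l m).totalDegree ≤ p + (∑ j, a j) * D := by
  induction n generalizing P p l m with
  | zero =>
    unfold mpw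
    rw [List.ofFn_zero, List.prod_nil, Fin.sum_univ_zero, mul_one, zero_mul, add_zero]
    exact hP l m
  | succ n ih =>
    rw [C4a_mpw_succ, ← mul_assoc, Fin.sum_univ_succ, add_mul, ← add_assoc]
    exact ih (fun j => N j.succ) (fun j => h j.succ) (fun j => a j.succ) (P * N 0 ^ a 0)
      (fun l m => C4a_pow_deg P (N 0) hP (h 0) (a 0) l m) l m

private theorem C4a_BD_rename {k : Type*} [CommRing k] {σ τ : Type*} [Fintype σ] [Fintype τ]
    {P : MvPolynomial τ k} {d : ℕ} (hP : P.totalDegree ≤ d) :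
    BD (rename (Sum.inr : τ → σ ⊕ τ) P) 0 d := by
  classical
  intro m hm
  rw [support_rename_of_injective Sum.inr_injective] at hm
  obtain ⟨m', hm', rfl⟩ := Finset.mem_image.1 hm
  constructor
  · refine le_of_eq (Finset.sum_eq_zero fun t _ => ?_)
    rw [Finsupp.mapDomain_of_notMem_range]
    rintro ⟨y, hy⟩
    exact Sum.inr_ne_inl hy
  · have h1 : ∀ t : τ, Finsupp.mapDomain (Sum.inr : τ → σ ⊕ τ) m' (Sum.inr t) = m' t := fun t =>
      Finsupp.mapDomain_apply Sum.inr_injective _ _
    simp only [h1]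
    refine le_trans ?_ ((le_totalDegree hm').trans hP)
    rw [Finsupp.sum_fintype]
    exact fun _ => rfl

section

variable {K : Type*} [CommRing K] {a n e : ℕ}
  (M : Fin a → Matrix (Fin (e + 1)) (Fin (e + 1)) (MvPolynomial (Fin n) K))

theorem mpw_rel {B : Type*} [CommRing B] [Algebra K B] (w : Fin (e + 1) → B) (z : Fin n → B)
    (u : Fin a → B) (hr : ∀ j m, ∑ l, w l * aeval z (M j l m) = u j * w m) (r : Fin a → ℕ)
    (m : Fin (e + 1)) : ∑ l, w l * aeval z (mpw M r l m) = (∏ j, u j ^ r j) * w m := by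
  have h1 := left_mpw
    (fun j => (M j).map (aeval z : MvPolynomial (Fin n) K →ₐ[K] B).toRingHom) w u ?_ r m
  · rw [← h1]
    refine Finset.sum_congr rfl fun l _ => ?_
    rw [← map_mpw]
    rfl
  · intro j m
    exact hr j m

theorem GR_eval {σ : Type*} [Fintype σ] (P : MvPolynomial (σ ⊕ Fin a) K) {B : Type*} [CommRing B]
    [Algebra K B] (w : Fin (e + 1) → B) (z : Fin n → B) (u : Fin a → B) (hw : w 0 = 1)
    (hr : ∀ j m, ∑ l, w l * aeval z (M j l m) = u j * w m) (x : σ → B) :
    aeval (Sum.elim x u) P = ∑ l, w l * aeval (Sum.elim x z) (GR M P l) := by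
  have h0 : ∀ m : σ ⊕ Fin a →₀ ℕ, (∏ t, u t ^ m (Sum.inr t)) =
      ∑ l, w l * aeval z (mpw M (fun t => m (Sum.inr t)) l 0) := by
    intro m
    rw [mpw_rel M w z u hr (fun t => m (Sum.inr t)) 0, hw, mul_one]
  have h1 : ∀ l, aeval (Sum.elim x z) (GR M P l) =
      ∑ m ∈ P.support, algebraMap K B (coeff m P) * (∏ t, x t ^ m (Sum.inl t)) *
        aeval z (mpw M (fun t => m (Sum.inr t)) l 0) := by
    intro l
    unfold GR
    rw [map_sum]
    refine Finset.sum_congr rfl fun m _ => ?_
    rw [map_mul, map_mul, map_prod, aeval_rename, aeval_C]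
    simp only [map_pow, aeval_X, Sum.elim_inl, Sum.elim_comp_inr]
  rw [aeval_def, eval₂_eq']
  simp only [h1, Fintype.prod_sum_type, Sum.elim_inl, Sum.elim_inr, h0, Finset.mul_sum]
  rw [Finset.sum_comm]
  refine Finset.sum_congr rfl fun l _ => Finset.sum_congr rfl fun m _ => ?_
  ring

theorem RR_eval (P : MvPolynomial (Fin a) K) {B : Type*} [CommRing B]
    [Algebra K B] (w : Fin (e + 1) → B) (z : Fin n → B) (u : Fin a → B) (hw : w 0 = 1)
    (hr : ∀ j m, ∑ l, w l * aeval z (M j l m) = u j * w m) :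
    aeval u P = ∑ l, w l * aeval z (RR M P l) := by
  have h0 : ∀ m : Fin a →₀ ℕ, (∏ t, u t ^ m t) =
      ∑ l, w l * aeval z (mpw M (fun t => m t) l 0) := by
    intro m
    rw [mpw_rel M w z u hr (fun t => m t) 0, hw, mul_one]
  have h1 : ∀ l, aeval z (RR M P l) =
      ∑ m ∈ P.support, algebraMap K B (coeff m P) *
        aeval z (mpw M (fun t => m t) l 0) := by
    intro l
    unfold RR
    rw [map_sum]
    refine Finset.sum_congr rfl fun m _ => ?_
    rw [map_mul, aeval_C]
  rw [aeval_def, eval₂_eq']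
  simp only [h1, h0, Finset.mul_sum]
  rw [Finset.sum_comm]
  refine Finset.sum_congr rfl fun l _ => Finset.sum_congr rfl fun m _ => ?_
  ring

theorem mpw_total {D : ℕ} (hM : ∀ j l m, (M j l m).totalDegree ≤ D) (r : Fin a → ℕ)
    (l m : Fin (e + 1)) : (mpw M r l m).totalDegree ≤ (∑ j, r j) * D := by
  have h1 := C4a_list_deg M hM r 1 (p := 0) (fun l m => ?_) l m
  · rw [one_mul, zero_add] at h1
    exact h1
  · by_cases hlm : l = m
    · rw [hlm, Matrix.one_apply_eq, totalDegree_one]
    · rw [Matrix.one_apply_ne hlm, totalDegree_zero]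

theorem GR_BD {σ : Type*} [Fintype σ] {P : MvPolynomial (σ ⊕ Fin a) K} {p q D : ℕ}
    (hP : BD P p q) (hM : ∀ j l m, (M j l m).totalDegree ≤ D) (l : Fin (e + 1)) :
    BD (GR M P l) p (q * D) := by
  unfold GR
  refine BD.sum _ _ fun m hm => ?_
  have h1 : BD (∏ t, (X (Sum.inl t) : MvPolynomial (σ ⊕ Fin n) K) ^ m (Sum.inl t))
      (∑ t, m (Sum.inl t) * 1) (∑ t : σ, m (Sum.inl t) * 0) :=
    BD.prod Finset.univ _ (fun t => m (Sum.inl t) * 1) (fun t => m (Sum.inl t) * 0)
      fun t _ => BD.pow (BD.X_inl t 0) (m (Sum.inl t))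
  have h2 := BD.mul (BD.mul (BD.C (coeff m P) 0 0) h1)
    (C4a_BD_rename (σ := σ) (mpw_total M hM (fun t => m (Sum.inr t)) l 0))
  refine BD.mono h2 ?_ ?_
  · rw [zero_add, add_zero]
    simp only [mul_one]
    exact (hP m hm).1
  · rw [zero_add]
    simp only [mul_zero, Finset.sum_const_zero, zero_add]
    exact Nat.mul_le_mul_right _ (hP m hm).2

theorem RR_total {P : MvPolynomial (Fin a) K} {d D : ℕ} (hP : ∀ m ∈ P.support, ∑ t, m t ≤ d)
    (hM : ∀ j l m, (M j l m).totalDegree ≤ D) (l : Fin (e + 1)) :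
    (RR M P l).totalDegree ≤ d * D := by
  unfold RR
  refine (totalDegree_finsetSum _ _).trans (Finset.sup_le fun m hm => ?_)
  refine (totalDegree_mul _ _).trans ?_
  rw [totalDegree_C, zero_add]
  exact (mpw_total M hM (fun t => m t) l 0).trans (Nat.mul_le_mul_right _ (hP m hm))

theorem GR_map {K' : Type*} [CommRing K'] (f : K →+* K') (hf : Function.Injective f) {σ : Type*}
    [Fintype σ] (P : MvPolynomial (σ ⊕ Fin a) K) (l : Fin (e + 1)) :
    MvPolynomial.map f (GR M P l) =
      GR (fun j => Matrix.of fun l m => MvPolynomial.map f (M j l m)) (MvPolynomial.map f P) l := by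
  unfold GR
  rw [support_map_of_injective P hf, map_sum]
  refine Finset.sum_congr rfl fun m _ => ?_
  rw [map_mul, map_mul, map_C, map_prod, map_rename, coeff_map]
  have h1 : MvPolynomial.map f (mpw M (fun t => m (Sum.inr t)) l 0) =
      mpw (fun j => Matrix.of fun l m => MvPolynomial.map f (M j l m))
        (fun t => m (Sum.inr t)) l 0 :=
    map_mpw (MvPolynomial.map f) M (fun t => m (Sum.inr t)) l 0
  rw [h1]
  simp only [map_pow, map_X]

end

end Pool.Agent.Lib.MP_17a322_nt.VA
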