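import Pool.Agent.Lib.MP_17a322_nt.VN.E18a
import Pool.Agent.Lib.MP_17a322_nt.VN.E3b
import Pool.Agent.Lib.MP_17a322_nt.VA.Z5

/-!
The ideal of the relations between the coordinates: two relatively prime elements or a common factor;
algebraicity of the coordinates over the Noether coordinates.
-/

universe u

namespace Pool.Agent.Lib.MP_17a322_nt.VA

open MvPolynomial Pool.Agent.Lib.MP_17a322_nt.VN

section

variable {k F : Type*} [Field k] [Field F] [Algebra k F] {σ : Type*} {n : ℕ} {x : σ → F}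
  {t : Fin n → F}

theorem Z_alg_aeval (hx : ∀ i, IsAlgebraic (Algebra.adjoin k (Set.range t)) (x i))
    (f : MvPolynomial (σ ⊕ Fin n) k) :
    IsAlgebraic (Algebra.adjoin k (Set.range t)) (aeval (Sum.elim x t) f) := by
  induction f using MvPolynomial.induction_on with
  | C c =>
    rw [aeval_C]
    exact isAlgebraic_algebraMap (algebraMap k (Algebra.adjoin k (Set.range t)) c)
  | add p q hp hq =>
    rw [map_add]
    exact hp.add hq
  | mul_X p i hp =>
    rw [map_mul, aeval_X]
    refine hp.mul ?_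
    rcases i with i | i
    · exact hx i
    · exact isAlgebraic_algebraMap
        (⟨t i, Algebra.subset_adjoin ⟨i, rfl⟩⟩ : Algebra.adjoin k (Set.range t))

/-- Push-forward of an element of the ideal. -/
theorem Z_push (I : Ideal (MvPolynomial (σ ⊕ Fin n) k))
    (hI : ∀ p, aeval (Sum.elim x t) p = 0 → p ∈ I)
    (hx : ∀ i, IsAlgebraic (Algebra.adjoin k (Set.range t)) (x i))
    {f : MvPolynomial (σ ⊕ Fin n) k} (hfI : f ∈ I) (hf : aeval (Sum.elim x t) f ≠ 0) :
    ∃ e : MvPolynomial (Fin n) k, aeval t e ≠ 0 ∧ rename Sum.inr e ∈ I := by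
  obtain ⟨T, hT, r, hr, h⟩ := (Z_alg_aeval hx f).exists_nonzero_eq_adjoin_mul
    (mem_nonZeroDivisors_of_ne_zero hf)
  have h1 : ∀ y ∈ Algebra.adjoin k (Set.range t), ∃ e : MvPolynomial (Fin n) k,
      aeval t e = y := by
    intro y hy
    rw [Algebra.adjoin_range_eq_range_aeval] at hy
    exact hy
  have h2 : ∀ e : MvPolynomial (Fin n) k, aeval (Sum.elim x t) (rename Sum.inr e) =
      aeval t e := by
    intro e
    rw [aeval_rename]
    rfl
  have h3 : T ∈ (aeval (Sum.elim x t) : MvPolynomial (σ ⊕ Fin n) k →ₐ[k] F).range := by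
    clear h
    induction hT using Algebra.adjoin_induction with
    | mem y hy =>
      rw [Set.mem_singleton_iff] at hy
      exact ⟨f, hy.symm⟩
    | algebraMap y =>
      obtain ⟨e, he⟩ := h1 y y.2
      exact ⟨rename Sum.inr e, (h2 e).trans he⟩
    | add a b _ _ ha hb => exact add_mem ha hb
    | mul a b _ _ ha hb => exact mul_mem ha hb
  obtain ⟨T', hT'⟩ := h3
  obtain ⟨e, he⟩ := h1 r r.2
  refine ⟨e, ?_, ?_⟩
  · rw [he]
    intro h0
    exact hr (Subtype.ext h0)
  · have h4 : rename Sum.inr e - f * T' ∈ I := by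
      refine hI _ ?_
      rw [map_sub, h2, he, map_mul]
      have h5 : (aeval (Sum.elim x t) : MvPolynomial (σ ⊕ Fin n) k →ₐ[k] F) T' = T := hT'
      rw [h5, h]
      exact sub_self _
    have h5 := I.add_mem h4 (I.mul_mem_right T' hfI)
    rwa [sub_add_cancel] at h5

theorem Z_cases (I : Ideal (MvPolynomial (σ ⊕ Fin n) k))
    (hI : ∀ p, aeval (Sum.elim x t) p = 0 → p ∈ I)
    (hx : ∀ i, IsAlgebraic (Algebra.adjoin k (Set.range t)) (x i))
    (hf : ∃ f ∈ I, aeval (Sum.elim x t) f ≠ 0) :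
    (∃ z z' : MvPolynomial (Fin n) k, IsRelPrime z z' ∧ rename Sum.inr z ∈ I ∧
      rename Sum.inr z' ∈ I ∧ (aeval t z ≠ 0 ∨ aeval t z' ≠ 0)) ∨
    (0 < n ∧ ∃ h : MvPolynomial (Fin n) k, Irreducible h ∧ ∀ a, rename Sum.inr a ∈ I → h ∣ a) := by
  obtain ⟨f, hfI, hf0⟩ := hf
  obtain ⟨e, he, heI⟩ := Z_push I hI hx hfI hf0
  have h2 : ∀ e : MvPolynomial (Fin n) k, aeval (Sum.elim x t) (rename Sum.inr e) =
      aeval t e := by
    intro e
    rw [aeval_rename]
    rfl
  have he0 : e ≠ 0 := by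
    rintro rfl
    exact he (map_zero _)
  rcases Nat.eq_zero_or_pos n with rfl | hn
  · left
    have h3 : IsUnit e := by
      have h4 : isEmptyAlgEquiv k (Fin 0) e ≠ 0 := by
        intro h5
        exact he0 ((isEmptyAlgEquiv k (Fin 0)).injective (by rw [h5, map_zero]))
      have h5 := (isUnit_iff_ne_zero.2 h4).map (isEmptyAlgEquiv k (Fin 0)).symm
      rwa [AlgEquiv.symm_apply_apply] at h5
    exact ⟨e, e, fun d hd _ => isUnit_of_dvd_unit hd h3, heI, heI, Or.inl he⟩
  by_cases ht : AlgebraicIndependent k t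
  · have hX : Irreducible (X ⟨0, hn⟩ : MvPolynomial (Fin n) k) := X_prime.irreducible
    rcases avoidance (I.comap (rename Sum.inr : MvPolynomial (Fin n) k →ₐ[k] _)) _ hX with
      ⟨z, hz, z', hz', hzz⟩ | ⟨h, hh, hdvd⟩
    · refine Or.inl ⟨z, z', hzz, hz, hz', ?_⟩
      by_contra hcon
      push Not at hcon
      have h3 := (algebraicIndependent_iff.1 ht) z hcon.1
      have h4 := (algebraicIndependent_iff.1 ht) z' hcon.2
      rw [h3, h4] at hzz
      exact not_isUnit_zero (hzz (dvd_refl 0) (dvd_refl 0))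
    · exact Or.inr ⟨hn, h, hh, fun a ha => hdvd a ha⟩
  · left
    rw [algebraicIndependent_iff] at ht
    push Not at ht
    obtain ⟨q, hq, hq0⟩ := ht
    obtain ⟨q₁, hq₁, -, hq₁t⟩ := E3b_factor t q hq0 hq
    refine ⟨q₁, e, ?_, hI _ (by rw [h2, hq₁t]), heI, Or.inr he⟩
    intro d hd hde
    by_contra hu
    have h3 : q₁ ∣ d := (hq₁.dvd_iff.1 hd).resolve_left hu |>.dvd
    obtain ⟨c, hc⟩ := h3.trans hde
    apply he
    rw [hc, map_mul, hq₁t, zero_mul]

end

/-- Relatively prime polynomials in at most one variable generate the unit ideal. -/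
theorem Z_isCoprime {k : Type*} [Field k] {n : ℕ} (hn : n ≤ 1) {z z' : MvPolynomial (Fin n) k}
    (h : IsRelPrime z z') : IsCoprime z z' := by
  let φ : Polynomial k →+* MvPolynomial (Fin n) k := (Polynomial.aeval
    (if h : n = 1 then X (Fin.cast h.symm 0) else 0 : MvPolynomial (Fin n) k)).toRingHom
  have hφ : Function.Surjective φ := by
    intro p
    induction p using MvPolynomial.induction_on with
    | C a => exact ⟨Polynomial.C a, Polynomial.aeval_C _ _⟩
    | add p q hp hq =>
      obtain ⟨p', hp'⟩ := hp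
      obtain ⟨q', hq'⟩ := hq
      exact ⟨p' + q', by rw [map_add, hp', hq']⟩
    | mul_X p t hp =>
      obtain ⟨p', hp'⟩ := hp
      refine ⟨p' * Polynomial.X, ?_⟩
      have h1 : n = 1 := by
        have := t.2
        omega
      subst h1
      rw [map_mul, hp', Subsingleton.elim t 0]
      congr 1
      exact Polynomial.aeval_X _
  have : IsPrincipalIdealRing (MvPolynomial (Fin n) k) := IsPrincipalIdealRing.of_surjective φ hφ
  exact h.isCoprime

section

variable {K : Type u} [Field K] {N : ℕ}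

theorem Z_lf_map {R R' : Type*} [CommRing R] [Algebra K R] [CommRing R'] [Algebra K R']
    (φ : R →ₐ[K] R') (l : Fin (N + 1) → K) (y : Fin (N + 1) → R) :
    lf l (fun i => φ (y i)) = φ (lf l y) := by
  unfold lf
  rw [map_sum]
  refine Finset.sum_congr rfl fun a _ => ?_
  rw [map_mul, AlgHom.commutes]

theorem Z_lf_smul {R : Type*} [CommRing R] [Algebra K R] (l : Fin (N + 1) → K) (c : R)
    (y : Fin (N + 1) → R) : lf l (fun i => c * y i) = c * lf l y := by
  unfold lf
  rw [Finset.mul_sum]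
  refine Finset.sum_congr rfl fun a _ => ?_
  ring

variable {A : AV K N} {n e : ℕ} (nd : Noe A n e)

theorem Z_lf_y {L : Type u} [Field L] [Algebra K L] {P : A.Pts L} (hl : lf (nd.l 0) (A.x P) ≠ 0) :
    lf (nd.l 0) (nd.y P) = 1 := by
  have h1 : nd.y P = fun i => (lf (nd.l 0) (A.x P))⁻¹ * A.x P i := by
    funext i
    unfold Noe.y
    rw [div_eq_inv_mul]
  rw [h1, Z_lf_smul, inv_mul_cancel₀ hl]

theorem Z_lf_s {L : Type u} [Field L] [Algebra K L] (P : A.Pts L) (k : Fin n) :
    lf (nd.l k.succ) (nd.y P) = nd.s P k := by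
  have h1 : nd.y P = fun i => (lf (nd.l 0) (A.x P))⁻¹ * A.x P i := by
    funext i
    unfold Noe.y
    rw [div_eq_inv_mul]
  rw [h1, Z_lf_smul]
  unfold Noe.s
  rw [div_eq_inv_mul]

theorem Z_y_isPt {L : Type u} [Field L] [Algebra K L] (P : A.Pts L) : A.IsPt (nd.y P) := by
  have h1 : nd.y P = fun i => (lf (nd.l 0) (A.x P))⁻¹ * A.x P i := by
    funext i
    unfold Noe.y
    rw [div_eq_inv_mul]
  rw [h1]
  exact Z_isPt_smul A (Z_x_isPt A P) _

/-- The affine coordinates are integral over the Noether coordinates. -/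
theorem Z_integral {L : Type u} [Field L] [Algebra K L] {P : A.Pts L}
    (hl : lf (nd.l 0) (A.x P) ≠ 0) (j : Fin (N + 1)) :
    IsIntegral (Algebra.adjoin K (Set.range (nd.s P))) (nd.y P j) := by
  obtain ⟨W, hW⟩ : ∃ W : Fin (e + 1) → L, ∀ r, W r = aeval (nd.y P) (nd.w r) := ⟨_, fun _ => rfl⟩
  have hrel : ∀ m, ∑ r, W r * aeval (nd.s P) (nd.Mx j r m) = nd.y P j * W m := by
    intro m
    have h1 := nd.rel L (nd.y P) (Z_y_isPt nd P) (Z_lf_y nd hl) j m
    have h2 : (fun k : Fin n => lf (nd.l k.succ) (nd.y P)) = nd.s P := by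
      funext k
      exact Z_lf_s nd P k
    rw [h2] at h1
    simp only [hW]
    exact h1
  have hmem : ∀ p : MvPolynomial (Fin n) K, aeval (nd.s P) p ∈
      Algebra.adjoin K (Set.range (nd.s P)) := by
    intro p
    rw [Algebra.adjoin_range_eq_range_aeval]
    exact ⟨p, rfl⟩
  have hW0 : W 0 = 1 := by
    rw [hW, nd.w_zero, map_one]
  refine isIntegral_of_smul_mem_submodule (M := L)
    (Submodule.span (Algebra.adjoin K (Set.range (nd.s P))) (Set.range W)) ?_
    (Submodule.fg_span (Set.finite_range W)) (nd.y P j) ?_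
  · intro h0
    have h1 : W 0 ∈ Submodule.span (Algebra.adjoin K (Set.range (nd.s P))) (Set.range W) :=
      Submodule.subset_span ⟨0, rfl⟩
    rw [h0, Submodule.mem_bot, hW0] at h1
    exact one_ne_zero h1
  · intro a ha
    induction ha using Submodule.span_induction with
    | mem a ha =>
      obtain ⟨m, rfl⟩ := ha
      rw [smul_eq_mul, ← hrel]
      refine Submodule.sum_mem _ fun r _ => ?_
      have h1 : W r * aeval (nd.s P) (nd.Mx j r m) =
          (⟨_, hmem (nd.Mx j r m)⟩ : Algebra.adjoin K (Set.range (nd.s P))) • W r := by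
        rw [Algebra.smul_def, mul_comm]
        rfl
      rw [h1]
      exact Submodule.smul_mem _ _ (Submodule.subset_span ⟨r, rfl⟩)
    | zero =>
      rw [smul_zero]
      exact Submodule.zero_mem _
    | add a b _ _ ha hb =>
      rw [smul_add]
      exact Submodule.add_mem _ ha hb
    | smul c a _ ha =>
      rw [smul_comm]
      exact Submodule.smul_mem _ _ ha

end

end Pool.Agent.Lib.MP_17a322_nt.VA
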