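import Pool.Agent.Lib.MP_17a322_nt.VA.Z4
import Pool.Agent.Lib.MP_17a322_nt.VA.Z10

/-!
The centre: specialisation along the valuation ring and the dimension count.
-/

universe u

namespace Pool.Agent.Lib.MP_17a322_nt.VA

open MvPolynomial Pool.Agent.Lib.MP_17a322_nt.VN

section

variable {K : Type u} [Field K] {N : ℕ} (A : AV K N)
  {R F Ω : Type u} [CommRing R] [IsDomain R] [ValuationRing R] [Field F] [Field Ω]
  [Algebra K R] [Algebra K F] [Algebra K Ω] [Algebra R F] [IsFractionRing R F]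
  [IsScalarTower K R F] (π : R →ₐ[K] Ω)

omit [ValuationRing R] in
/-- Specialisation with given coordinates. -/
theorem Z_sp {P : A.Pts F} {y : Fin (N + 1) → R} {c : F} (hc : c ≠ 0)
    (hy : ∀ i, A.x P i = c * algebraMap R F (y i)) (h0 : (fun i => π (y i)) ≠ 0) :
    ∃ (p : A.Pts Ω) (d : Ω), d ≠ 0 ∧ (∀ i, π (y i) = d * A.x p i) ∧ IsSp A π P p := by
  have h1 : A.IsPt y := Z_isPt_of_map A hc hy
  have h2 : A.IsPt fun i => π (y i) := by
    intro f hf
    have h3 : aeval (fun i => π (y i)) f = π (aeval y f) := by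
      rw [← AlgHom.comp_apply]
      congr 1
      refine MvPolynomial.algHom_ext fun i => ?_
      simp
    rw [h3, h1 f hf, map_zero]
  obtain ⟨p, d, hd, hp⟩ := Z_exists_pt A h0 h2
  have h3 : ∀ i, π (y i) = d⁻¹ * A.x p i := fun i => by rw [hp, inv_mul_cancel_left₀ hd]
  exact ⟨p, d⁻¹, inv_ne_zero hd, h3, y, c, d⁻¹, hc, inv_ne_zero hd, hy, h3⟩

end

section

variable {K : Type u} [Field K] {N : ℕ} {A : AV K N}

theorem Z_s_mem {n e : ℕ} (nd : Noe A n e) {L : Type u} [Field L] [Algebra K L]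
    (E : IntermediateField K L) (q : A.Pts L) (h : ∀ i, rt (A.x q) i ∈ E) (j : Fin n) :
    nd.s q j ∈ E := by
  obtain ⟨c, hc⟩ : ∃ c, A.x q c ≠ 0 := by
    by_contra hcon
    push Not at hcon
    exact Z_x_ne A q (funext hcon)
  have h1 : ∀ l : Fin (N + 1) → K, lf l (A.x q) / A.x q c ∈ E := by
    intro l
    unfold lf
    rw [Finset.sum_div]
    refine sum_mem fun a _ => ?_
    rw [mul_div_assoc]
    exact mul_mem (E.algebraMap_mem _) (h (a, c))
  have h2 : nd.s q j = lf (nd.l j.succ) (A.x q) / A.x q c / (lf (nd.l 0) (A.x q) / A.x q c) := by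
    unfold Noe.s
    rw [div_div_div_cancel_right₀ hc]
  rw [h2]
  exact div_mem (h1 _) (h1 _)

end

/-- The Noether coordinates of a specialisation which satisfies only the relations divisible by `h`. -/
theorem Z_indep_of_dvd {k Ω : Type*} [Field k] [Field Ω] [Algebra k Ω] {n : ℕ} (t : Fin n → Ω)
    (h : MvPolynomial (Fin n) k) (hh : Irreducible h) (hdvd : ∀ a, aeval t a = 0 → h ∣ a) :
    ∃ r₀ : Fin n, AlgebraicIndependent k fun j : {j : Fin n // j ≠ r₀} => t j := by
  obtain ⟨r₀, hr₀⟩ : ∃ r₀, h.degreeOf r₀ ≠ 0 := by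
    by_contra hcon
    push Not at hcon
    have h1 : h.vars = ∅ := by
      refine Finset.eq_empty_of_forall_notMem fun j hj => ?_
      rw [mem_vars_iff_degreeOf_ne_zero] at hj
      exact absurd (hcon j) hj
    obtain ⟨c, hc⟩ : ∃ c : k, h = C c := ⟨_, vars_eq_empty_iff_eq_C.1 h1⟩
    have hc0 : c ≠ 0 := by
      rintro rfl
      exact hh.ne_zero (by rw [hc, C_0])
    exact hh.not_isUnit (by
      rw [hc]
      exact (isUnit_iff_ne_zero.2 hc0).map C)
  refine ⟨r₀, ?_⟩
  rw [algebraicIndependent_iff]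
  intro f hf
  have h1 : aeval t (rename (Subtype.val : {j : Fin n // j ≠ r₀} → Fin n) f) = 0 := by
    rw [aeval_rename]
    exact hf
  obtain ⟨c, hc⟩ := hdvd _ h1
  by_contra hf0
  have h2 : rename (Subtype.val : {j : Fin n // j ≠ r₀} → Fin n) f ≠ 0 := by
    intro h3
    exact hf0 (rename_injective _ Subtype.val_injective (by rw [h3, map_zero]))
  have hc0 : c ≠ 0 := by
    rintro rfl
    exact h2 (by rw [hc, mul_zero])
  have h3 : (rename (Subtype.val : {j : Fin n // j ≠ r₀} → Fin n) f).degreeOf r₀ = 0 := by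
    by_contra h4
    have h5 : r₀ ∈ (rename (Subtype.val : {j : Fin n // j ≠ r₀} → Fin n) f).vars :=
      (mem_vars_iff_degreeOf_ne_zero).2 h4
    obtain ⟨j, -, hj⟩ := Finset.mem_image.1 (vars_rename _ _ h5)
    exact j.2 hj
  rw [hc, degreeOf_mul_eq hh.ne_zero hc0] at h3
  exact hr₀ (by omega)

/-- The dimension count at the centre. -/
theorem Z_centre {K : Type u} [Field K] {N : ℕ} {A B : AV K N} (hB : IsSubAV B A)
    {k F : Type u} [Field k] [Field F] [Algebra K k] [Algebra K F] [Algebra k F]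
    [IsScalarTower K k F] {δ : ℕ} (hδ : 0 < δ) {w : A.Pts k} {w' : A.Pts F}
    (hw : A.Img (IsScalarTower.toAlgHom K k F) w w') {P : A.Pts F} {b : B.Pts F}
    (hP : δ • P = w' + hB.inc F b) {n e : ℕ}
    (hn : ∀ (L : Type u) [Field L] [Algebra K L] (P : B.Pts L), tdeg K (B.x P) ≤ n)
    (nd : Noe B n e) (hl : lf (nd.l 0) (B.x b) ≠ 0) (hn0 : 0 < n) (a : Fin (N + 1))
    (ha : A.x P a ≠ 0) {r d : ℕ} (g : Fin r → MvPolynomial (Fin (N + 1)) K)
    (hg : ∀ j, (g j).IsHomogeneous d)
    (I : Ideal (MvPolynomial ((Fin (N + 1) ⊕ Fin (N + 1)) ⊕ Fin n) k))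
    (hI : ∀ p, aeval (Sum.elim (Sum.elim (fun i => A.x P i / A.x P a) (nd.y b)) (nd.s b)) p = 0 →
      p ∈ I)
    (hgI : ∀ j, rename (Sum.inl ∘ Sum.inl) (MvPolynomial.map (algebraMap K k) (g j)) ∈ I)
    (h : MvPolynomial (Fin n) k) (hh : Irreducible h) (hdvd : ∀ a, rename Sum.inr a ∈ I → h ∣ a) :
    ∃ (Ω : Type u) (_ : Field Ω) (_ : Algebra K Ω) (p : A.Pts Ω),
      (∀ j, aeval (A.x p) (g j) = 0) ∧ tdeg K (A.x P) ≤ tdeg K (A.x p) + 1 := by
  obtain ⟨R, i1, i2, i3, i4, i5, i6, i7, Ω, i8, i9, π, i10, x', t', hx', ht', hIπ, hdvd'⟩ :=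
    Z_elim _ _ I hI h hh hdvd
  let _ : Algebra K R := ((algebraMap k R).comp (algebraMap K k)).toAlgebra
  let _ : Algebra K Ω := ((algebraMap k Ω).comp (algebraMap K k)).toAlgebra
  have i11 : IsScalarTower K k R := IsScalarTower.of_algebraMap_eq fun _ => rfl
  have i12 : IsScalarTower K k Ω := IsScalarTower.of_algebraMap_eq fun _ => rfl
  have i13 : IsScalarTower K R F := IsScalarTower.of_algebraMap_eq fun c => by
    rw [IsScalarTower.algebraMap_apply K k F, IsScalarTower.algebraMap_apply K k R,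
      ← IsScalarTower.algebraMap_apply k R F]
  obtain ⟨πK, hπK⟩ : ∃ πK : R →ₐ[K] Ω, ∀ y, πK y = π y := ⟨π.restrictScalars K, fun _ => rfl⟩
  have i14 : IsLocalHom πK.toRingHom := ⟨fun y hy => i10.map_nonunit y (by
    have h1 : π.toRingHom y = πK.toRingHom y := (hπK y).symm
    rw [h1]
    exact hy)⟩
  -- the point `p`
  obtain ⟨p, dp, hdp, hp, hPp⟩ := Z_sp A πK (P := P) (y := fun i => x' (Sum.inl i)) ha
    (fun i => by
      rw [hx' (Sum.inl i)]
      exact (mul_div_cancel₀ _ ha).symm) (by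
      intro h0
      have h1 := congrFun h0 a
      have h2 : x' (Sum.inl a) = 1 := by
        refine IsFractionRing.injective R F ?_
        rw [hx' (Sum.inl a), map_one]
        exact div_self ha
      rw [h2, map_one] at h1
      exact one_ne_zero h1)
  -- the point `q`
  have hly : lf (nd.l 0) (fun i => x' (Sum.inr i)) = 1 := by
    refine IsFractionRing.injective R F ?_
    have h1 := Z_lf_map (IsScalarTower.toAlgHom K R F) (nd.l 0) fun i => x' (Sum.inr i)
    have h2 : (fun i => (IsScalarTower.toAlgHom K R F) (x' (Sum.inr i))) = nd.y b := by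
      funext i
      exact hx' (Sum.inr i)
    rw [h2, Z_lf_y nd hl] at h1
    rw [map_one]
    exact h1.symm
  have hlπ : lf (nd.l 0) (fun i => πK (x' (Sum.inr i))) = 1 := by
    rw [Z_lf_map, hly, map_one]
  obtain ⟨q, dq, hdq, hq, hbq⟩ := Z_sp B πK (P := b) (y := fun i => x' (Sum.inr i)) hl
    (fun i => by
      rw [hx' (Sum.inr i)]
      show _ = lf (nd.l 0) (B.x b) * (B.x b i / lf (nd.l 0) (B.x b))
      rw [mul_div_cancel₀ _ hl]) (by
      intro h0
      rw [h0] at hlπ
      unfold lf at hlπ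
      simp at hlπ)
  -- the Noether coordinates of `q`
  have hsq : ∀ j, nd.s q j = π (t' j) := by
    intro j
    have h1 : lf (nd.l j.succ) (fun i => x' (Sum.inr i)) = t' j := by
      refine IsFractionRing.injective R F ?_
      have h1 := Z_lf_map (IsScalarTower.toAlgHom K R F) (nd.l j.succ) fun i => x' (Sum.inr i)
      have h2 : (fun i => (IsScalarTower.toAlgHom K R F) (x' (Sum.inr i))) = nd.y b := by
        funext i
        exact hx' (Sum.inr i)
      rw [h2, Z_lf_s] at h1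
      rw [ht']
      exact h1.symm
    have h2 : (fun i => πK (x' (Sum.inr i))) = fun i => dq * B.x q i := by
      funext i
      exact hq i
    rw [h2, Z_lf_smul] at hlπ
    have h3 := Z_lf_map πK (nd.l j.succ) fun i => x' (Sum.inr i)
    rw [h2, Z_lf_smul, h1, hπK] at h3
    rw [← h3]
    unfold Noe.s
    have h4 : lf (nd.l 0) (B.x q) ≠ 0 := fun h5 => by
      rw [h5, mul_zero] at hlπ
      exact zero_ne_one hlπ
    rw [div_eq_iff h4, mul_right_comm, hlπ, one_mul]
  -- the relation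
  obtain ⟨wΩ, hwΩ⟩ := Z_exists_img A (IsScalarTower.toAlgHom K k Ω) w
  have hsw : IsSp A πK w' wΩ := by
    refine IsSp.of_img A πK (L := k) (IsScalarTower.toAlgHom K k R) (P₀ := w) ?_ ?_
    · have h1 : (IsScalarTower.toAlgHom K R F).comp (IsScalarTower.toAlgHom K k R) =
          IsScalarTower.toAlgHom K k F := by
        refine AlgHom.ext fun c => ?_
        exact (IsScalarTower.algebraMap_apply k R F c).symm
      rw [h1]
      exact hw
    · have h1 : πK.comp (IsScalarTower.toAlgHom K k R) = IsScalarTower.toAlgHom K k Ω := by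
        refine AlgHom.ext fun c => ?_
        rw [AlgHom.comp_apply, hπK]
        exact π.commutes c
      rw [h1]
      exact hwΩ
  have hδp : δ • p = wΩ + hB.inc Ω q := by
    have h1 := IsSp.nsmul A πK hPp δ
    rw [hP] at h1
    have h2 : IsSp A πK (hB.inc F b) (hB.inc Ω q) := hbq
    exact IsSp.unique A πK h1 (hsw.add_sub A πK h2).1
  have hcount := Z_count hB hδ hw hwΩ hP hδp n hn
  -- the transcendence degree over `k`
  obtain ⟨r₀, hind⟩ := Z_indep_of_dvd (fun j => π (t' j)) h hh hdvd'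
  obtain ⟨E, hE⟩ : ∃ E : IntermediateField K Ω, ∀ y, y ∈ E ↔
      y ∈ IntermediateField.adjoin k (Set.range (rt (A.x p))) :=
    ⟨(IntermediateField.adjoin k (Set.range (rt (A.x p)))).restrictScalars K, fun _ => Iff.rfl⟩
  obtain ⟨p₀, hp₀⟩ := Z_descend A E p fun i => (hE _).2
    (IntermediateField.subset_adjoin k _ ⟨i, rfl⟩)
  obtain ⟨w₀, hw₀⟩ := Z_descend A E wΩ fun i => (hE _).2 (by
    rw [Z_img_rt A hwΩ]
    exact (IntermediateField.adjoin k (Set.range (rt (A.x p)))).algebraMap_mem _)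
  have hq₀ : A.Img E.val (δ • p₀ - w₀) (hB.inc Ω q) := by
    have h1 := Z_img_sub A (Z_img_nsmul A hp₀ δ) hw₀
    rwa [hδp, add_sub_cancel_left] at h1
  have hsE : ∀ j, nd.s q j ∈ E := Z_s_mem nd E q fun i => Z_rt_mem A hq₀ i
  have htr := (Z_card_le_tdeg (K := k) (A.x p) (fun j : {j : Fin n // j ≠ r₀} => π (t' j)) hind
    fun j => by
      rw [← hsq]
      exact isAlgebraic_algebraMap (⟨_, (hE _).1 (hsE j)⟩ :
        IntermediateField.adjoin k (Set.range (rt (A.x p))))).2
  refine ⟨Ω, i8, inferInstance, p, ?_, ?_⟩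
  · intro j
    have h1 := hIπ _ (hgI j)
    rw [aeval_rename, aeval_map_algebraMap] at h1
    have h2 : ((Sum.elim (fun i => π (x' i)) fun j => π (t' j)) ∘ Sum.inl ∘ Sum.inl :
        Fin (N + 1) → Ω) = fun i => dp * A.x p i := by
      funext i
      rw [← hp]
      exact (hπK _).symm
    rw [h2] at h1
    have h3 : aeval (fun i => dp * A.x p i) (g j) = dp ^ d * aeval (A.x p) (g j) := by
      have hgj := hg j
      rw [aeval_def, aeval_def, eval₂_eq', eval₂_eq', Finset.mul_sum]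
      refine Finset.sum_congr rfl fun m hm => ?_
      have h4 : ∑ i, m i = d := by
        have h5 := hgj (mem_support_iff.1 hm)
        rw [← h5, Finsupp.weight_apply, Finsupp.sum_fintype]
        · simp
        · intro i
          simp
      simp_rw [mul_pow]
      rw [Finset.prod_mul_distrib, Finset.prod_pow_eq_pow_sum, h4]
      ring
    rw [h3] at h1
    exact (mul_eq_zero.1 h1).resolve_left (pow_ne_zero _ hdp)
  · obtain ⟨T₁, -, -, hc₁⟩ := Z_exists_basis (K := K) (A.x P)
    obtain ⟨T₂, -, -, hc₂⟩ := Z_exists_basis (K := k) (A.x p)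
    obtain ⟨T₃, -, -, hc₃⟩ := Z_exists_basis (K := K) (A.x p)
    rw [hc₁, hc₂, hc₃] at hcount
    rw [hc₂] at htr
    rw [hc₁, hc₃]
    have h1 : Nat.card {j : Fin n // j ≠ r₀} = n - 1 := by
      rw [Nat.card_eq_fintype_card, Fintype.card_subtype_compl, Fintype.card_fin,
        Fintype.card_subtype_eq]
    rw [h1] at htr
    have h2 : n - 1 ≤ Nat.card T₂ := by exact_mod_cast htr
    have h3 : Nat.card T₁ + Nat.card T₂ ≤ Nat.card T₃ + n := by exact_mod_cast hcount
    exact_mod_cast (by omega : Nat.card T₁ ≤ Nat.card T₃ + 1)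

end Pool.Agent.Lib.MP_17a322_nt.VA
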