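import Pool.Agent.Lib.MP_17a322_nt.VA.C1a
import Pool.Agent.Lib.MP_17a322_nt.VN.C07

/-!
# JOB VA C5b: specialisation of the first group of variables

PROOFS. Models: `C07_spx_eq`, `aeval_spx`, `spx_degree`, `spx_NV` in VN/C07.lean (there both groups have `n` variables). `spA_degree`: `degreeOf_le_iff`, an exponent `β` in the support comes from some `m ∈ P.support` with `m (inr t) = β t`, `β t ≤ ∑ t, m (inr t) ≤ q` (`Finset.single_le_sum`).
`spA_NV`: every term `monomial _ (algebraMap (coeff m P) * ∏ x0 t ^ m (inl t))` has size `≤ v (algebraMap (coeff m P)) * (max 1 (vm v x0)) ^ p` since `v (x0 t) ≤ vm v x0` (`le_ciSup`, `Set.finite_range`) and `∑ m (inl t) ≤ p` (`Finset.prod_pow_eq_pow_sum`).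
-/

universe u

namespace Pool.Agent.Lib.MP_17a322_nt.VA

open MvPolynomial Height
open Pool.Agent.Lib.MP_17a322_nt.RO
open Pool.Agent.Lib.MP_17a322_nt.VJ
open Pool.Agent.Lib.MP_17a322_nt.VN

theorem v_le_vm {L : Type*} [Field L] (v : AbsoluteValue L ℝ) {ι : Type*} [Finite ι]
    (y : ι → L) (i : ι) : v (y i) ≤ vm v y :=
  le_ciSup (Set.finite_range fun i => v (y i)).bddAbove i

/-- `spA` as a sum of monomials. -/
theorem C5b_spA_eq {K L : Type*} [Field K] [Field L] [Algebra K L] {a n : ℕ} (x0 : Fin a → L)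
    (P : MvPolynomial (Fin a ⊕ Fin n) K) :
    spA x0 P = ∑ m ∈ P.support,
      monomial (Finsupp.equivFunOnFinite.symm fun t => m (Sum.inr t))
        (algebraMap K L (coeff m P) * ∏ t, x0 t ^ m (Sum.inl t)) := by
  unfold spA
  rw [aeval_def, eval₂_eq']
  refine Finset.sum_congr rfl fun m _ => ?_
  rw [Fintype.prod_sum_type, monomial_eq, Finsupp.prod_fintype _ _ (fun i => pow_zero _),
    MvPolynomial.algebraMap_apply, map_mul, map_prod, mul_assoc]
  simp only [Sum.elim_inl, Sum.elim_inr, Finsupp.equivFunOnFinite_symm_apply_apply, map_pow]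

theorem aeval_spA {K L : Type*} [Field K] [Field L] [Algebra K L] {R : Type*} [CommRing R]
    [Algebra L R] [Algebra K R] [IsScalarTower K L R] {a n : ℕ} (x0 : Fin a → L) (z : Fin n → R)
    (P : MvPolynomial (Fin a ⊕ Fin n) K) :
    aeval z (spA x0 P) = aeval (Sum.elim (fun t => algebraMap L R (x0 t)) z) P := by
  unfold spA
  have h := MvPolynomial.comp_aeval_apply
    (Sum.elim (fun t => (C (x0 t) : MvPolynomial (Fin n) L)) X)
    ((aeval z : MvPolynomial (Fin n) L →ₐ[L] R).restrictScalars K) P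
  rw [AlgHom.restrictScalars_apply] at h
  rw [h]
  congr 2
  funext i
  rcases i with t | t
  · rw [AlgHom.restrictScalars_apply, Sum.elim_inl, Sum.elim_inl, ← MvPolynomial.algebraMap_eq,
      AlgHom.commutes]
  · rw [AlgHom.restrictScalars_apply, Sum.elim_inr, Sum.elim_inr, aeval_X]

theorem spA_degree {K L : Type*} [Field K] [Field L] [Algebra K L] {a n : ℕ} (x0 : Fin a → L)
    {P : MvPolynomial (Fin a ⊕ Fin n) K} {p q : ℕ} (hP : BD P p q) (t : Fin n) :
    degreeOf t (spA x0 P) ≤ q := by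
  classical
  rw [degreeOf_le_iff]
  intro β hβ
  rw [mem_support_iff, C5b_spA_eq, coeff_sum] at hβ
  obtain ⟨m, hm, hm0⟩ := Finset.exists_ne_zero_of_sum_ne_zero hβ
  rw [coeff_monomial] at hm0
  split_ifs at hm0 with h
  · rw [← h]
    exact (Finset.single_le_sum (f := fun t => m (Sum.inr t)) (fun _ _ => Nat.zero_le _)
      (Finset.mem_univ t)).trans (hP m hm).2
  · exact absurd rfl hm0

theorem spA_NV {K L : Type*} [Field K] [Field L] [Algebra K L] (v : AbsoluteValue L ℝ) {a n : ℕ}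
    (x0 : Fin a → L) {P : MvPolynomial (Fin a ⊕ Fin n) K} {p q : ℕ} (hP : BD P p q) :
    NV v (spA x0 P) ≤ NV v (MvPolynomial.map (algebraMap K L) P) * max 1 (vm v x0) ^ p := by
  have hP1 : 1 ≤ max 1 (vm v x0) := le_max_left _ _
  have hP0 : 0 ≤ max 1 (vm v x0) ^ p := pow_nonneg (zero_le_one.trans hP1) _
  have hterm : ∀ m ∈ P.support,
      NV v (monomial (Finsupp.equivFunOnFinite.symm fun t => m (Sum.inr t))
        (algebraMap K L (coeff m P) * ∏ t, x0 t ^ m (Sum.inl t)) : MvPolynomial (Fin n) L) ≤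
      v (coeff m (MvPolynomial.map (algebraMap K L) P)) * max 1 (vm v x0) ^ p := by
    intro m hm
    rw [A2_monomial, map_mul, coeff_map]
    refine mul_le_mul_of_nonneg_left ?_ (v.nonneg _)
    rw [map_prod]
    have h1 : ∏ t, v (x0 t ^ m (Sum.inl t)) ≤ ∏ t, max 1 (vm v x0) ^ m (Sum.inl t) := by
      refine Finset.prod_le_prod (fun t _ => v.nonneg _) fun t _ => ?_
      rw [map_pow]
      exact pow_le_pow_left₀ (v.nonneg _) ((v_le_vm v x0 t).trans (le_max_right 1 _)) _
    refine h1.trans ?_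
    rw [Finset.prod_pow_eq_pow_sum]
    exact pow_le_pow_right₀ hP1 (hP m hm).1
  rw [C5b_spA_eq]
  by_cases hv : IsNonarchimedean v
  · refine SN.sum_le_max hv (SN_NV v) _ _ (mul_nonneg (A2_nonneg v _) hP0) fun m hm => ?_
    exact (hterm m hm).trans (mul_le_mul_of_nonneg_right (A2_coeff_le v _ m) hP0)
  · refine (A2_sum v _ _).trans ?_
    refine (Finset.sum_le_sum hterm).trans (le_of_eq ?_)
    rw [← Finset.sum_mul]
    congr 1
    exact (A2_ars hv _ _ (support_map_subset _ _)).symm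

end Pool.Agent.Lib.MP_17a322_nt.VA
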