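import Pool.Agent.Lib.MP_17a322_nt.VA.C0
import Pool.Agent.Lib.MP_17a322_nt.VJ.G3a

/-!
# JOB VA C2: values of the block polynomials

PROOFS. `map_EA`: `lf` is a sum of products (`map_sum`, `map_mul`, `φ.commutes`), `MvPolynomial.comp_aeval` (or `MvPolynomial.map_aeval`-type lemma, see `AV.map_dup` in VA/Mu.lean), `A.map_mu`. `map_UVA`: `map_prod`, `map_pow`. `aeval_UUA`: `map_UVA` for the homomorphism `aeval (Sum.elim x y)`, `aeval_X`.
`block_sumA`: for every `ν` in the box: `ξ t ^ ν t = (E t * d) ^ ν t`, and `d ^ ν t = d ^ b * E0 ^ (b - ν t)` because `d ^ b = d ^ ν t * d ^ (b - ν t)` and `(E0 * d) ^ (b - ν t) = 1`; product over `t`: `∏ t, ξ t ^ ν t = d ^ (n * b) * UVA .. ν` (`Finset.prod_mul_distrib`, `Finset.prod_const`).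
-/

universe u

namespace Pool.Agent.Lib.MP_17a322_nt.VA

open MvPolynomial Height
open Pool.Agent.Lib.MP_17a322_nt.RO
open Pool.Agent.Lib.MP_17a322_nt.VJ
open Pool.Agent.Lib.MP_17a322_nt.VN

/-- one factor of the product over `t` -/
private theorem C2_fac {R : Type*} [CommRing R] {c0 c1 d ξ : R} (h1 : c1 * d = 1)
    (h0 : c0 * d = ξ) {ν b : ℕ} (hν : ν ≤ b) :
    ξ ^ ν = d ^ b * (c0 ^ ν * c1 ^ (b - ν)) := by
  obtain ⟨a, rfl⟩ := Nat.exists_eq_add_of_le hν
  rw [Nat.add_sub_cancel_left, pow_add, ← h0, mul_pow]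
  have h2 : c1 ^ a * d ^ a = 1 := by rw [← mul_pow, h1, one_pow]
  linear_combination (- (c0 ^ ν * d ^ ν)) * h2

section

variable {K : Type u} [Field K] {N : ℕ} (A : AV K N) {n : ℕ} (l : Fin (n + 1) → Fin (N + 1) → K)

theorem map_EA {R : Type*} [CommRing R] [Algebra K R] {R' : Type*} [CommRing R'] [Algebra K R']
    (φ : R →ₐ[K] R') (j : ℕ) (c : Fin (N + 1)) (x y : Fin (N + 1) → R) (k : Fin (n + 1)) :
    φ (EA A l j c x y k) = EA A l j c (fun i => φ (x i)) (fun i => φ (y i)) k := by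
  unfold EA lf
  rw [map_sum]
  refine Finset.sum_congr rfl fun a _ => ?_
  rw [map_mul, φ.commutes]
  congr 1
  rw [← AlgHom.comp_apply, MvPolynomial.comp_aeval]
  congr 2
  funext s
  cases s with
  | inl i => rfl
  | inr i => exact A.map_mu φ j x i

theorem map_UVA {R : Type*} [CommRing R] [Algebra K R] {R' : Type*} [CommRing R'] [Algebra K R']
    (φ : R →ₐ[K] R') (j b : ℕ) (c : Fin (N + 1)) (x y : Fin (N + 1) → R) (ν : Fin n → ℕ) :
    φ (UVA A l j b c x y ν) = UVA A l j b c (fun i => φ (x i)) (fun i => φ (y i)) ν := by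
  unfold UVA
  rw [map_prod]
  refine Finset.prod_congr rfl fun t _ => ?_
  rw [map_mul, map_pow, map_pow, map_EA, map_EA]

theorem aeval_UUA {R : Type*} [CommRing R] [Algebra K R] (j b : ℕ) (c : Fin (N + 1))
    (x y : Fin (N + 1) → R) (ν : Fin n → ℕ) :
    aeval (Sum.elim x y) (UUA A l j b c ν) = UVA A l j b c x y ν := by
  unfold UUA
  rw [map_UVA]
  congr 1
  · funext i
    rw [aeval_X, Sum.elim_inl]
  · funext i
    rw [aeval_X, Sum.elim_inr]

theorem block_sumA {R : Type*} [CommRing R] [Algebra K R] (j b : ℕ) (c : Fin (N + 1))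
    (Φ : (Fin n → ℕ) → R) (x y : Fin (N + 1) → R) (ξ : Fin n → R) (d : R)
    (hd : EA A l j c x y 0 * d = 1) (hξ : ∀ t : Fin n, EA A l j c x y t.succ * d = ξ t) :
    ∑ ν ∈ box (fun _ : Fin n => b + 1), Φ ν * ∏ t, ξ t ^ ν t =
      d ^ (n * b) * ∑ ν ∈ box (fun _ : Fin n => b + 1), Φ ν * UVA A l j b c x y ν := by
  rw [Finset.mul_sum]
  refine Finset.sum_congr rfl fun ν hν => ?_
  have h1 : ∏ t, ξ t ^ ν t = d ^ (n * b) * UVA A l j b c x y ν := by
    have h2 : (d : R) ^ (n * b) = ∏ _t : Fin n, d ^ b := by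
      rw [Finset.prod_const, Finset.card_univ, Fintype.card_fin, ← pow_mul, mul_comm]
    unfold UVA
    rw [h2, ← Finset.prod_mul_distrib]
    refine Finset.prod_congr rfl fun t _ => ?_
    exact C2_fac hd (hξ t) (Nat.lt_succ_iff.1 ((mem_box _ _).1 hν t))
  rw [h1, mul_left_comm]

end

end Pool.Agent.Lib.MP_17a322_nt.VA
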