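import Pool.Agent.Lib.MP_17a322_nt.VA.C0
import Pool.Agent.Lib.MP_17a322_nt.VA.A1
import Pool.Agent.Lib.MP_17a322_nt.VA.C2
import Pool.Agent.Lib.MP_17a322_nt.VN.C06

/-!
# JOB VA C3: the sizes of the block polynomials

PROOFS. `SN_aeval_pow`: `SN_aeval_mon` (VN/C06) with the bound `M ^ D`: `μ (∏ ξ t ^ m t) ≤ ∏ μ (ξ t) ^ m t ≤ ∏ M ^ m t = M ^ (∑ m t) ≤ M ^ D` (`SN.prod_le`, `SN.pow_le`, `Finset.prod_le_prod`, `Finset.prod_pow_eq_pow_sum`, `pow_le_pow_right₀`).
`mu_NV`: `κ1` a size constant with `NV v (map (S a b)) ≤ κ1.k v` for all `a b` (`Adm_NV`, `Adm.family` and `le_scOf` of VA/A1.lean). Induction on `j`: `map (algebraMap K L) (A.mu (j+1) X a) = aeval (..) (map .. (S a b₀))` (`map` as the `K`-algebra homomorphism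
`MvPolynomial K → MvPolynomial L`, e.g. `MvPolynomial.mapAlgHom` or write `aeval (fun i => C-algebra ..)`; `A.map_mu`, `A.map_dup`: the polynomial `map (algebraMap K L) (A.mu j X a)` equals `A.mu j (fun a => X a) a` computed in the `K`-algebra `MvPolynomial σ L`), and
`SN_aeval_pow` for `SN_NV v` with `D = 4` (`A.bihomog`: `∑ m = 2 + 2`), after `aeval_map_algebraMap`. With `B j = κ ^ (4 ^ j - 1)`: `κ * (κ ^ (4 ^ j - 1)) ^ 4 = κ ^ (4 ^ (j+1) - 3) ≤ κ ^ (4 ^ (j + 1) - 1)`; it is enough to prove the bound `κ ^ (4 ^ j)` in the form stated, e.g. first prove `≤ κ ^ (4 ^ j - 1)`.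
`EA_NV`: `lf`: a sum of `N + 1` terms `algebraMap (l k b) * aeval (..) (S c b)`: `cst v (N + 1) * |l| * NV (S) * (κ ^ (4 ^ j)) ^ 4` with `SN_aeval_pow`, `D = 4`, `M = κ ^ (4 ^ j)` (the variables have size `1`); everything is `≤ E.k v ^ (4 ^ j)` for a suitable `E` (`SC.mul`, `SC.pw`, `Adm_abv`, `Adm_cst`).
`UUA_NV`: product of `n` factors `EA t.succ ^ ν t * EA 0 ^ (b - ν t)` of size `≤ (κ ^ (4 ^ j)) ^ b` (`SN.prod_le`, `SN.pow_le`, `SN.mul`): `(κ ^ n) ^ (b * 4 ^ j)`, `SC.pw`.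
-/

universe u

namespace Pool.Agent.Lib.MP_17a322_nt.VA

open MvPolynomial Height
open Pool.Agent.Lib.MP_17a322_nt.RO
open Pool.Agent.Lib.MP_17a322_nt.VJ
open Pool.Agent.Lib.MP_17a322_nt.VN

theorem SN_aeval_pow {K L : Type*} [Field K] [Field L] [Algebra K L] {v : AbsoluteValue L ℝ}
    {R : Type*} [CommRing R] [Algebra L R] [Algebra K R] [IsScalarTower K L R] {μ : R → ℝ}
    (h : SN v μ) {σ : Type*} [Fintype σ] (F : MvPolynomial σ K) {D : ℕ}
    (hD : ∀ m ∈ F.support, ∑ t, m t ≤ D) (ξ : σ → R) {M : ℝ} (hM : 1 ≤ M)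
    (hξ : ∀ t, μ (ξ t) ≤ M) :
    μ (aeval ξ F) ≤ NV v (MvPolynomial.map (algebraMap K L) F) * M ^ D := by
  have h1 : aeval ξ F = aeval ξ (MvPolynomial.map (algebraMap K L) F) :=
    (aeval_map_algebraMap L ξ F).symm
  rw [h1]
  refine SN_aeval_mon h _ ξ (pow_nonneg (zero_le_one.trans hM) D) fun m hm => ?_
  rw [A7_support] at hm
  refine (h.prod_le _ _).trans ?_
  refine (Finset.prod_le_prod (fun t _ => h.nonneg _) fun t _ => (h.pow_le (ξ t) (m t)).trans
    (pow_le_pow_left₀ (h.nonneg _) (hξ t) (m t))).trans ?_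
  rw [Finset.prod_pow_eq_pow_sum]
  exact pow_le_pow_right₀ hM (hD m hm)

/-- The base change of polynomials as a homomorphism of `K`-algebras. -/
private noncomputable def C3_phi (K L : Type*) [Field K] [Field L] [Algebra K L] (σ : Type*) :
    MvPolynomial σ K →ₐ[K] MvPolynomial σ L :=
  { MvPolynomial.map (algebraMap K L) with
    commutes' := fun r => by
      show MvPolynomial.map (algebraMap K L) (C r) = algebraMap K (MvPolynomial σ L) r
      rw [map_C, IsScalarTower.algebraMap_apply K L (MvPolynomial σ L) r]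
      rfl }

private theorem C3_phi_apply (K L : Type*) [Field K] [Field L] [Algebra K L] (σ : Type*)
    (F : MvPolynomial σ K) : C3_phi K L σ F = MvPolynomial.map (algebraMap K L) F := rfl

section

variable {K : Type u} [Field K] {N : ℕ} (A : AV K N)

private theorem C3_exists_kappa : ∃ E : SC K, ∀ {L : Type u} [Field L] [Algebra K L]
    (v : AbsoluteValue L ℝ) (a b : Fin (N + 1)),
    NV v (MvPolynomial.map (algebraMap K L) (A.S a b)) ≤ E.k v := by
  obtain ⟨n, S, k, hn, h⟩ := Adm.family (K := K) (fun (p : Fin (N + 1) × Fin (N + 1)) (L : Type u)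
    (_ : Field L) (_ : Algebra K L) (v : AbsoluteValue L ℝ) =>
      Max.max 1 (NV v (MvPolynomial.map (algebraMap K L) (A.S p.1 p.2))))
    (fun p => Adm_NV (A.S p.1 p.2))
  refine ⟨scOf n S k, fun {L} _ _ v a b => ?_⟩
  exact (le_max_right _ _).trans ((h (a, b) L v).trans (le_scOf hn S k v))

private theorem C3_S_deg (a b : Fin (N + 1)) (m : Fin (N + 1) ⊕ Fin (N + 1) →₀ ℕ)
    (hm : m ∈ (A.S a b).support) : ∑ t, m t ≤ 4 := by
  have h := A.bihomog a b m hm
  rw [Fintype.sum_sum_type, h.1, h.2]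

private theorem C3_mu_NV (E : SC K) {L : Type u} [Field L] [Algebra K L]
    (v : AbsoluteValue L ℝ)
    (hE : ∀ (a b : Fin (N + 1)), NV v (MvPolynomial.map (algebraMap K L) (A.S a b)) ≤ E.k v)
    (j : ℕ) (a : Fin (N + 1)) :
    NV v (MvPolynomial.map (algebraMap K L) (A.mu j
      (fun a => (X (Sum.inl a) : MvPolynomial (Fin (N + 1) ⊕ Fin (N + 1)) K)) a)) ≤
      E.k v ^ (4 ^ j - 1) := by
  induction j generalizing a with
  | zero =>
    rw [A.mu_zero, map_X, NV_X, pow_zero, Nat.sub_self, pow_zero]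
  | succ j ih =>
    rw [← C3_phi_apply, A.mu_succ, A.map_dup]
    unfold AV.dup
    have h4 : 1 ≤ 4 ^ j := Nat.one_le_pow _ _ (by norm_num)
    refine (SN_aeval_pow (SN_NV v) (A.S a A.b₀) (D := 4) (C3_S_deg A a A.b₀) _
      (one_le_pow₀ (E.one_le v) : 1 ≤ E.k v ^ (4 ^ j - 1)) ?_).trans ?_
    · rintro (t | t)
      · exact ih t
      · exact ih t
    · refine (mul_le_mul_of_nonneg_right (hE a A.b₀)
        (pow_nonneg (pow_nonneg (E.pos v).le _) _)).trans ?_
      rw [← pow_mul, ← pow_succ']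
      refine pow_le_pow_right₀ (E.one_le v) ?_
      rw [pow_succ]
      omega

theorem exists_mu_NV : ∃ E : SC K, ∀ {L : Type u} [Field L] [Algebra K L]
    (v : AbsoluteValue L ℝ) (j : ℕ) (a : Fin (N + 1)),
    NV v (MvPolynomial.map (algebraMap K L) (A.mu j
      (fun a => (X (Sum.inl a) : MvPolynomial (Fin (N + 1) ⊕ Fin (N + 1)) K)) a)) ≤
      E.k v ^ 4 ^ j := by
  obtain ⟨E, hE⟩ := C3_exists_kappa A
  refine ⟨E, fun {L} _ _ v j a => ?_⟩
  exact (C3_mu_NV A E v (hE v) j a).trans (pow_le_pow_right₀ (E.one_le v) (Nat.sub_le _ _))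

theorem exists_EA_NV {n : ℕ} (l : Fin (n + 1) → Fin (N + 1) → K) :
    ∃ E : SC K, ∀ {L : Type u} [Field L] [Algebra K L] (v : AbsoluteValue L ℝ) (j : ℕ)
      (c : Fin (N + 1)) (k : Fin (n + 1)),
      NV v (MvPolynomial.map (algebraMap K L) (EA A l j c
        (fun a => (X (Sum.inl a) : MvPolynomial (Fin (N + 1) ⊕ Fin (N + 1)) K))
        (fun a => X (Sum.inr a)) k)) ≤ E.k v ^ 4 ^ j := by
  obtain ⟨E1, h1⟩ := C3_exists_kappa A
  obtain ⟨E2, h2⟩ := exists_mu_NV A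
  obtain ⟨n3, S3, k3, hn3, h3⟩ := Adm.family (K := K) (fun (p : Fin (n + 1) × Fin (N + 1))
    (L : Type u) (_ : Field L) (_ : Algebra K L) (v : AbsoluteValue L ℝ) =>
      Max.max 1 (v (algebraMap K L (l p.1 p.2)))) (fun p => Adm_abv (l p.1 p.2))
  obtain ⟨E4, h4⟩ := (Adm_cst (K := K) (N + 1)).exists_SC
  refine ⟨((E4.mul (scOf n3 S3 k3)).mul E1).mul (E2.pw 4), fun {L} _ _ v j c k => ?_⟩
  set E3 := scOf n3 S3 k3 with hE3
  have h3' : ∀ k b, v (algebraMap K L (l k b)) ≤ E3.k v := fun k b =>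
    (le_max_right _ _).trans ((h3 (k, b) L v).trans (le_scOf hn3 S3 k3 v))
  have hM : 1 ≤ E2.k v ^ 4 ^ j := one_le_pow₀ (E2.one_le v)
  have hB : NV v (MvPolynomial.map (algebraMap K L) (EA A l j c
      (fun a => (X (Sum.inl a) : MvPolynomial (Fin (N + 1) ⊕ Fin (N + 1)) K))
      (fun a => X (Sum.inr a)) k)) ≤
      cst v (N + 1) * (E3.k v * (E1.k v * (E2.k v ^ 4 ^ j) ^ 4)) := by
    unfold EA lf
    rw [← C3_phi_apply, map_sum]
    have h5 := (SN_NV v).sum_le Finset.univ (fun b : Fin (N + 1) =>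
      C3_phi K L _ (algebraMap K (MvPolynomial (Fin (N + 1) ⊕ Fin (N + 1)) K) (l k b) *
        aeval (Sum.elim (fun a => X (Sum.inr a)) (A.mu j fun a => X (Sum.inl a))) (A.S c b)))
      (B := E3.k v * (E1.k v * (E2.k v ^ 4 ^ j) ^ 4))
      (mul_nonneg (E3.pos v).le (mul_nonneg (E1.pos v).le (pow_nonneg
        (zero_le_one.trans hM) 4))) ?_
    · rw [Finset.card_univ, Fintype.card_fin] at h5
      exact h5
    · intro b _
      beta_reduce
      rw [map_mul]
      refine ((SN_NV v).mul _ _).trans ?_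
      refine mul_le_mul ?_ ?_ ((SN_NV v).nonneg _) (E3.pos v).le
      · rw [C3_phi_apply, MvPolynomial.algebraMap_eq, map_C, NV_C]
        exact h3' k b
      · have e1 : C3_phi K L _ (aeval (Sum.elim (fun a => X (Sum.inr a))
            (A.mu j fun a => X (Sum.inl a)) :
              Fin (N + 1) ⊕ Fin (N + 1) → MvPolynomial (Fin (N + 1) ⊕ Fin (N + 1)) K)
              (A.S c b)) =
            aeval (fun s => C3_phi K L _ ((Sum.elim (fun a => X (Sum.inr a))
              (A.mu j fun a => X (Sum.inl a)) :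
              Fin (N + 1) ⊕ Fin (N + 1) → MvPolynomial (Fin (N + 1) ⊕ Fin (N + 1)) K) s))
              (A.S c b) := by
          rw [← AlgHom.comp_apply, MvPolynomial.comp_aeval]
        rw [e1]
        refine (SN_aeval_pow (SN_NV v) (A.S c b) (D := 4) (C3_S_deg A c b) _ hM ?_).trans ?_
        · rintro (t | t)
          · show NV v (MvPolynomial.map (algebraMap K L) (X (Sum.inr t))) ≤ _
            rw [map_X, NV_X]
            exact hM
          · exact h2 v j t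
        · exact mul_le_mul_of_nonneg_right (h1 v c b) (pow_nonneg (zero_le_one.trans hM) 4)
  refine hB.trans ?_
  have h6 : cst v (N + 1) * (E3.k v * (E1.k v * (E2.k v ^ 4 ^ j) ^ 4)) ≤
      (E4.k v * E3.k v * E1.k v) ^ 4 ^ j * (E2.k v ^ 4) ^ 4 ^ j := by
    have e2 : cst v (N + 1) * (E3.k v * (E1.k v * (E2.k v ^ 4 ^ j) ^ 4)) =
        (cst v (N + 1) * E3.k v * E1.k v) * (E2.k v ^ 4) ^ 4 ^ j := by
      rw [← pow_mul, ← pow_mul, mul_comm (4 ^ j) 4]
      ring
    rw [e2]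
    refine mul_le_mul_of_nonneg_right ?_ (pow_nonneg (pow_nonneg (E2.pos v).le 4) _)
    have h7 : cst v (N + 1) * E3.k v * E1.k v ≤ E4.k v * E3.k v * E1.k v :=
      mul_le_mul_of_nonneg_right (mul_le_mul_of_nonneg_right (h4 L v) (E3.pos v).le) (E1.pos v).le
    refine h7.trans (le_self_pow₀ ?_ ?_)
    · exact one_le_mul_of_one_le_of_one_le (one_le_mul_of_one_le_of_one_le (E4.one_le v)
        (E3.one_le v)) (E1.one_le v)
    · exact (pow_pos (by norm_num) j).ne'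
  refine h6.trans ?_
  rw [← mul_pow]
  refine pow_le_pow_left₀ (mul_nonneg (mul_nonneg (mul_nonneg (E4.pos v).le (E3.pos v).le)
    (E1.pos v).le) (pow_nonneg (E2.pos v).le 4)) ?_ _
  have h8 : E4.k v * E3.k v * E1.k v ≤ ((E4.mul E3).mul E1).k v :=
    (mul_le_mul_of_nonneg_right (E4.mul_le E3 v) (E1.pos v).le).trans ((E4.mul E3).mul_le E1 v)
  refine (mul_le_mul h8 (E2.pow_le 4 v) (pow_nonneg (E2.pos v).le 4) (SC.pos _ v).le).trans ?_
  exact SC.mul_le _ _ v

theorem exists_UUA_NV {n : ℕ} (l : Fin (n + 1) → Fin (N + 1) → K) :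
    ∃ E : SC K, ∀ {L : Type u} [Field L] [Algebra K L] (v : AbsoluteValue L ℝ) (j b : ℕ)
      (c : Fin (N + 1)) (ν : Fin n → ℕ), (∀ t, ν t ≤ b) →
      NV v (MvPolynomial.map (algebraMap K L) (UUA A l j b c ν)) ≤ E.k v ^ (b * 4 ^ j) := by
  obtain ⟨E, hE⟩ := exists_EA_NV A l
  refine ⟨E.pw n, fun {L} _ _ v j b c ν hν => ?_⟩
  unfold UUA UVA
  rw [← C3_phi_apply, map_prod]
  refine ((SN_NV v).prod_le _ _).trans ?_
  have hM : 0 ≤ E.k v ^ 4 ^ j := pow_nonneg (E.pos v).le _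
  have h1 : ∀ t : Fin n, NV v (C3_phi K L _ (EA A l j c
      (fun a => (X (Sum.inl a) : MvPolynomial (Fin (N + 1) ⊕ Fin (N + 1)) K))
      (fun a => X (Sum.inr a)) t.succ ^ ν t * EA A l j c (fun a => X (Sum.inl a))
      (fun a => X (Sum.inr a)) 0 ^ (b - ν t))) ≤ (E.k v ^ 4 ^ j) ^ b := by
    intro t
    rw [map_mul, map_pow, map_pow]
    refine ((SN_NV v).mul _ _).trans ?_
    have h2 := ((SN_NV v).pow_le (C3_phi K L _ (EA A l j c
      (fun a => (X (Sum.inl a) : MvPolynomial (Fin (N + 1) ⊕ Fin (N + 1)) K))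
      (fun a => X (Sum.inr a)) t.succ)) (ν t)).trans
        (pow_le_pow_left₀ ((SN_NV v).nonneg _) (hE v j c t.succ) (ν t))
    have h3 := ((SN_NV v).pow_le (C3_phi K L _ (EA A l j c
      (fun a => (X (Sum.inl a) : MvPolynomial (Fin (N + 1) ⊕ Fin (N + 1)) K))
      (fun a => X (Sum.inr a)) 0)) (b - ν t)).trans
        (pow_le_pow_left₀ ((SN_NV v).nonneg _) (hE v j c 0) (b - ν t))
    refine (mul_le_mul h2 h3 ((SN_NV v).nonneg _) (pow_nonneg hM _)).trans (le_of_eq ?_)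
    rw [← pow_add, Nat.add_sub_cancel' (hν t)]
  refine (Finset.prod_le_prod (fun t _ => (SN_NV v).nonneg _) fun t _ => h1 t).trans ?_
  rw [Finset.prod_const, Finset.card_univ, Fintype.card_fin]
  have e1 : ((E.k v ^ 4 ^ j) ^ b) ^ n = (E.k v ^ n) ^ (b * 4 ^ j) := by
    rw [← pow_mul, ← pow_mul, ← pow_mul]
    congr 1
    ring
  rw [e1]
  exact pow_le_pow_left₀ (pow_nonneg (E.pos v).le n) (E.pow_le n v) _

end

end Pool.Agent.Lib.MP_17a322_nt.VA
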