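import Pool.Agent.Lib.MP_17a322_nt.VA.C1a
import Pool.Agent.Lib.MP_17a322_nt.VN.C05

/-!
# JOB VA C4b: the reduction by a multiplication table: sizes

PROOF. Model: `GG_NV` (VN/C05): every term `C (coeff m P) * (∏ t, X (Sum.inl t) ^ m (Sum.inl t)) * rename Sum.inr (mpw M .. l 0)` has size at most `v (coeff m P) * (cst v (e + 1) * B) ^ q` (`C05_term` for general variables: copy its proof; `mpw_NV` of VN/C04 bounds the entries of `mpw` by
`(cst v (e + 1) * B) ^ (∑ a j)`; `∑ m (Sum.inr t) ≤ q` is `hP`). `RR_NV` is the same without the variables `Sum.inl` (`NV_C_mul`).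
-/

universe u

namespace Pool.Agent.Lib.MP_17a322_nt.VA

open MvPolynomial Height
open Pool.Agent.Lib.MP_17a322_nt.RO
open Pool.Agent.Lib.MP_17a322_nt.VJ
open Pool.Agent.Lib.MP_17a322_nt.VN

section

variable {L : Type*} [Field L] (v : AbsoluteValue L ℝ) {a n e : ℕ}
  (M : Fin a → Matrix (Fin (e + 1)) (Fin (e + 1)) (MvPolynomial (Fin n) L))

theorem C4b_term {σ : Type*} [Fintype σ] (m : σ ⊕ Fin a →₀ ℕ) (c : L)
    (p : MvPolynomial (Fin n) L) :
    NV v (C c * (∏ t : σ, X (Sum.inl t) ^ m (Sum.inl t)) *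
      rename (Sum.inr : Fin n → σ ⊕ Fin n) p) ≤ v c * NV v p := by
  have hS := SN_NV (L := L) v (σ := σ ⊕ Fin n)
  have h1 : NV v (∏ t : σ, (X (Sum.inl t) : MvPolynomial (σ ⊕ Fin n) L) ^
      m (Sum.inl t)) ≤ 1 := by
    refine (hS.prod_le Finset.univ _).trans ?_
    refine Finset.prod_le_one (fun t _ => hS.nonneg _) fun t _ => ?_
    refine (hS.pow_le _ _).trans ?_
    show NV v (X (Sum.inl t) : MvPolynomial (σ ⊕ Fin n) L) ^ _ ≤ 1
    rw [NV_X, one_pow]
  rw [mul_assoc, NV_C_mul]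
  refine mul_le_mul_of_nonneg_left ?_ (v.nonneg c)
  refine (hS.mul _ _).trans ?_
  show NV v (∏ t : σ, (X (Sum.inl t) : MvPolynomial (σ ⊕ Fin n) L) ^ m (Sum.inl t)) *
    NV v (rename Sum.inr p) ≤ NV v p
  rw [NV_rename v p Sum.inr Sum.inr_injective]
  exact mul_le_of_le_one_left (A2_nonneg v p) h1

theorem GR_NV {σ : Type*} [Fintype σ] {P : MvPolynomial (σ ⊕ Fin a) L} {p q : ℕ}
    (hP : BD P p q) {B : ℝ} (hB : 1 ≤ B) (h : ∀ j l m, NV v (M j l m) ≤ B) (l : Fin (e + 1)) :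
    NV v (GR M P l) ≤ NV v P * (cst v (e + 1) * B) ^ q := by
  have hS := SN_NV (L := L) v (σ := σ ⊕ Fin n)
  have hc1 : 1 ≤ cst v (e + 1) := by
    rw [← cst_one v]
    exact cst_mono v (Nat.le_add_left 1 e)
  have hcB : 1 ≤ cst v (e + 1) * B := one_le_mul_of_one_le_of_one_le hc1 hB
  have hQ : 0 ≤ (cst v (e + 1) * B) ^ q := pow_nonneg (zero_le_one.trans hcB) _
  have hterm : ∀ m ∈ P.support,
      NV v (C (coeff m P) * (∏ t, X (Sum.inl t) ^ m (Sum.inl t)) *
        rename Sum.inr (mpw M (fun t => m (Sum.inr t)) l 0)) ≤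
        v (coeff m P) * (cst v (e + 1) * B) ^ q := by
    intro m hm
    refine (C4b_term v m _ _).trans (mul_le_mul_of_nonneg_left ?_ (v.nonneg _))
    refine (mpw_NV v M hB h _ l 0).trans ?_
    exact pow_le_pow_right₀ hcB (hP m hm).2
  unfold GR
  by_cases hv : IsNonarchimedean v
  · refine hS.sum_le_max hv _ _ (mul_nonneg (A2_nonneg v P) hQ) fun m hm => ?_
    exact (hterm m hm).trans (mul_le_mul_of_nonneg_right (A2_coeff_le v P m) hQ)
  · refine (hS.sum_le_sum _ _).trans ?_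
    refine (Finset.sum_le_sum hterm).trans (le_of_eq ?_)
    rw [← Finset.sum_mul, ← A2_ar hv P]

theorem RR_NV {P : MvPolynomial (Fin a) L} {d : ℕ} (hP : ∀ m ∈ P.support, ∑ t, m t ≤ d) {B : ℝ}
    (hB : 1 ≤ B) (h : ∀ j l m, NV v (M j l m) ≤ B) (l : Fin (e + 1)) :
    NV v (RR M P l) ≤ NV v P * (cst v (e + 1) * B) ^ d := by
  have hS := SN_NV (L := L) v (σ := Fin n)
  have hc1 : 1 ≤ cst v (e + 1) := by
    rw [← cst_one v]
    exact cst_mono v (Nat.le_add_left 1 e)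
  have hcB : 1 ≤ cst v (e + 1) * B := one_le_mul_of_one_le_of_one_le hc1 hB
  have hQ : 0 ≤ (cst v (e + 1) * B) ^ d := pow_nonneg (zero_le_one.trans hcB) _
  have hterm : ∀ m ∈ P.support,
      NV v (C (coeff m P) * mpw M (fun t => m t) l 0) ≤
        v (coeff m P) * (cst v (e + 1) * B) ^ d := by
    intro m hm
    rw [NV_C_mul]
    refine mul_le_mul_of_nonneg_left ?_ (v.nonneg _)
    refine (mpw_NV v M hB h _ l 0).trans ?_
    exact pow_le_pow_right₀ hcB (hP m hm)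
  unfold RR
  by_cases hv : IsNonarchimedean v
  · refine hS.sum_le_max hv _ _ (mul_nonneg (A2_nonneg v P) hQ) fun m hm => ?_
    exact (hterm m hm).trans (mul_le_mul_of_nonneg_right (A2_coeff_le v P m) hQ)
  · refine (hS.sum_le_sum _ _).trans ?_
    refine (Finset.sum_le_sum hterm).trans (le_of_eq ?_)
    rw [← Finset.sum_mul, ← A2_ar hv P]

end

end Pool.Agent.Lib.MP_17a322_nt.VA
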