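import Pool.Agent.Lib.MP_17a322_nt.VA.C1b
import Pool.Agent.Lib.MP_17a322_nt.VA.C3
import Pool.Agent.Lib.MP_17a322_nt.VA.C4a
import Pool.Agent.Lib.MP_17a322_nt.VA.C4b
import Pool.Agent.Lib.MP_17a322_nt.VN.C07

/-!
# JOB VA C6: degrees and sizes of the components of the block polynomials

PROOFS. `le_DM`: one term of the sum. `HA_BD`: `UUA_BD`, `GR_BD` for `nd.Mx` (`le_DM`) and for `ρ.M` (`hD.2.2`).
`exists_HA_NV`: `GR_map` twice (the table of `ρ.map (algebraMap K L)` is `Matrix.of fun l m => map (ρ.M j l m)` by `rfl` up to `Matrix.of`), `GR_NV` for `ρ.map ..` with `B = (ρ.map ..).RB v` (`M_le_RB`, `one_le_RB`) and `q = 2 * (n * b) * nd.DM`; `GR_NV` for the table of `nd` with `B = E1.k v`,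
`E1` a common size constant of all `NV v (map (nd.Mx a r m))` (`Adm_NV`, `Adm.family`, `le_scOf`), `q = 2 * (n * b)`: factor `(cst v (e₀ + 1) * E1.k v) ^ (2 * (n * b)) ≤ (E2.k v) ^ (b * 4 ^ j)` for a suitable `E2` (`SC.pw`, `SC.mul`, `b ≤ b * 4 ^ j`); `exists_UUA_NV`. BD of the mapped polynomial:
`support_map_subset`. Multiply the size constants (`SC.mul_le`, `mul_pow`).
-/

universe u

namespace Pool.Agent.Lib.MP_17a322_nt.VA

open MvPolynomial Height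
open Pool.Agent.Lib.MP_17a322_nt.RO
open Pool.Agent.Lib.MP_17a322_nt.VJ
open Pool.Agent.Lib.MP_17a322_nt.VN

section

variable {K : Type u} [Field K] {N : ℕ} {A : AV K N} {n e₀ : ℕ} (nd : Noe A n e₀)

theorem le_DM (a : Fin (N + 1)) (r m : Fin (e₀ + 1)) : (nd.Mx a r m).totalDegree ≤ nd.DM := by
  unfold Noe.DM
  have h1 : (nd.Mx a r m).totalDegree ≤ ∑ m', (nd.Mx a r m').totalDegree :=
    Finset.single_le_sum (f := fun m' => (nd.Mx a r m').totalDegree)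
      (fun _ _ => Nat.zero_le _) (Finset.mem_univ m)
  have h2 : ∑ m', (nd.Mx a r m').totalDegree ≤ ∑ r', ∑ m', (nd.Mx a r' m').totalDegree :=
    Finset.single_le_sum (f := fun r' => ∑ m', (nd.Mx a r' m').totalDegree)
      (fun _ _ => Nat.zero_le _) (Finset.mem_univ r)
  have h3 : ∑ r', ∑ m', (nd.Mx a r' m').totalDegree ≤
      ∑ a', ∑ r', ∑ m', (nd.Mx a' r' m').totalDegree :=
    Finset.single_le_sum (f := fun a' => ∑ r', ∑ m', (nd.Mx a' r' m').totalDegree)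
      (fun _ _ => Nat.zero_le _) (Finset.mem_univ a)
  exact h1.trans (h2.trans h3)

theorem HA_BD {e : ℕ} (ρ : REP K n e) {D : ℕ} (hD : ρ.Deg D) (j b : ℕ) (c : Fin (N + 1))
    (r : Fin (e₀ + 1)) (l : Fin (e + 1)) (ν : Fin n → ℕ) (hν : ∀ t, ν t ≤ b) :
    BD (HA nd ρ j b c r l ν) (2 * (n * (b * 4 ^ j))) (2 * (n * b) * nd.DM * D) := by
  unfold HA
  exact GR_BD ρ.M (GR_BD nd.Mx (UUA_BD A nd.l j b c ν hν) (le_DM nd) r) hD.2.2 l

theorem C6_BD_map {K' L' σ τ : Type*} [CommRing K'] [CommRing L'] [Fintype σ] [Fintype τ]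
    (f : K' →+* L') {P : MvPolynomial (σ ⊕ τ) K'} {p q : ℕ} (h : BD P p q) :
    BD (MvPolynomial.map f P) p q :=
  fun m hm => h m (support_map_subset _ _ hm)

theorem exists_HA_NV : ∃ E : SC K, ∀ {L : Type u} [Field L] [Algebra K L]
    (v : AbsoluteValue L ℝ) {e : ℕ} (ρ : REP K n e) (j b : ℕ) (c : Fin (N + 1))
    (r : Fin (e₀ + 1)) (l : Fin (e + 1)) (ν : Fin n → ℕ), (∀ t, ν t ≤ b) →
    NV v (MvPolynomial.map (algebraMap K L) (HA nd ρ j b c r l ν)) ≤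
      E.k v ^ (b * 4 ^ j) *
        (cst v (e + 1) * (ρ.map (algebraMap K L)).RB v) ^ (2 * (n * b) * nd.DM) := by
  obtain ⟨E0, hE0⟩ := exists_UUA_NV A nd.l
  obtain ⟨n1, S1, k1, hn1, h1⟩ := Adm.family.{u, u}
    (fun (i : Fin (N + 1) × Fin (e₀ + 1) × Fin (e₀ + 1)) (L : Type u) [Field L] [Algebra K L]
      (v : AbsoluteValue L ℝ) =>
      Max.max 1 (NV v (MvPolynomial.map (algebraMap K L) (nd.Mx i.1 i.2.1 i.2.2))))
    (fun i => Adm_NV (nd.Mx i.1 i.2.1 i.2.2))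
  obtain ⟨E2, hE2⟩ := (Adm_cst.{u, u} (K := K) (e₀ + 1)).exists_SC
  refine ⟨E0.mul ((E2.mul (scOf n1 S1 k1)).pw (2 * n)), ?_⟩
  intro L _ _ v e ρ j b c r l ν hν
  have hinj : Function.Injective (algebraMap K L) := (algebraMap K L).injective
  have hU : BD (UUA A nd.l j b c ν) (2 * (n * (b * 4 ^ j))) (2 * (n * b)) :=
    UUA_BD A nd.l j b c ν hν
  have hG : BD (GR nd.Mx (UUA A nd.l j b c ν) r) (2 * (n * (b * 4 ^ j)))
      (2 * (n * b) * nd.DM) := GR_BD nd.Mx hU (le_DM nd) r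
  have hU' : BD (MvPolynomial.map (algebraMap K L) (UUA A nd.l j b c ν))
      (2 * (n * (b * 4 ^ j))) (2 * (n * b)) := C6_BD_map _ hU
  have hG' : BD (MvPolynomial.map (algebraMap K L) (GR nd.Mx (UUA A nd.l j b c ν) r))
      (2 * (n * (b * 4 ^ j))) (2 * (n * b) * nd.DM) := C6_BD_map _ hG
  have e1 : MvPolynomial.map (algebraMap K L) (HA nd ρ j b c r l ν) =
      GR (ρ.map (algebraMap K L)).M
        (MvPolynomial.map (algebraMap K L) (GR nd.Mx (UUA A nd.l j b c ν) r)) l := by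
    unfold HA
    rw [GR_map ρ.M (algebraMap K L) hinj]
    rfl
  have e2 : MvPolynomial.map (algebraMap K L) (GR nd.Mx (UUA A nd.l j b c ν) r) =
      GR (fun a => Matrix.of fun r' m => MvPolynomial.map (algebraMap K L) (nd.Mx a r' m))
        (MvPolynomial.map (algebraMap K L) (UUA A nd.l j b c ν)) r :=
    GR_map nd.Mx (algebraMap K L) hinj _ r
  have hR1 : 1 ≤ (ρ.map (algebraMap K L)).RB v := one_le_RB _ v
  have b1 : NV v (MvPolynomial.map (algebraMap K L) (HA nd ρ j b c r l ν)) ≤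
      NV v (MvPolynomial.map (algebraMap K L) (GR nd.Mx (UUA A nd.l j b c ν) r)) *
        (cst v (e + 1) * (ρ.map (algebraMap K L)).RB v) ^ (2 * (n * b) * nd.DM) := by
    rw [e1]
    exact GR_NV v (ρ.map (algebraMap K L)).M hG' hR1
      (fun j' l' m' => M_le_RB (ρ.map (algebraMap K L)) v j' l' m') l
  have hk1 : 1 ≤ (scOf n1 S1 k1).k v := SC.one_le _ v
  have b2 : NV v (MvPolynomial.map (algebraMap K L) (GR nd.Mx (UUA A nd.l j b c ν) r)) ≤
      NV v (MvPolynomial.map (algebraMap K L) (UUA A nd.l j b c ν)) *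
        (cst v (e₀ + 1) * (scOf n1 S1 k1).k v) ^ (2 * (n * b)) := by
    rw [e2]
    refine GR_NV v _ hU' hk1 (fun a r' m => ?_) r
    have h2 : Max.max 1 (NV v (MvPolynomial.map (algebraMap K L) (nd.Mx a r' m))) ≤
        cc n1 S1 v ^ k1 := h1 (a, r', m) L v
    exact ((le_max_right 1 _).trans h2).trans (le_scOf hn1 S1 k1 v)
  have hc0 : 0 ≤ cst v (e₀ + 1) * (scOf n1 S1 k1).k v :=
    mul_nonneg (cst_nonneg v _) (zero_le_one.trans hk1)
  have b3 : (cst v (e₀ + 1) * (scOf n1 S1 k1).k v) ^ (2 * (n * b)) ≤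
      ((E2.mul (scOf n1 S1 k1)).pw (2 * n)).k v ^ (b * 4 ^ j) := by
    have c1 : cst v (e₀ + 1) * (scOf n1 S1 k1).k v ≤ (E2.mul (scOf n1 S1 k1)).k v :=
      (mul_le_mul_of_nonneg_right (hE2 L v) (zero_le_one.trans hk1)).trans
        (E2.mul_le (scOf n1 S1 k1) v)
    have c2 : (cst v (e₀ + 1) * (scOf n1 S1 k1).k v) ^ (2 * n) ≤
        ((E2.mul (scOf n1 S1 k1)).pw (2 * n)).k v :=
      (pow_le_pow_left₀ hc0 c1 _).trans ((E2.mul (scOf n1 S1 k1)).pow_le (2 * n) v)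
    have c3 : (2 : ℕ) * (n * b) = (2 * n) * b := by ring
    rw [c3, pow_mul]
    refine (pow_le_pow_left₀ (pow_nonneg hc0 _) c2 b).trans ?_
    exact pow_le_pow_right₀ (SC.one_le _ v) (Nat.le_mul_of_pos_right b (by positivity))
  have b4 := hE0 v j b c ν hν
  have b5 : NV v (MvPolynomial.map (algebraMap K L) (GR nd.Mx (UUA A nd.l j b c ν) r)) ≤
      (E0.mul ((E2.mul (scOf n1 S1 k1)).pw (2 * n))).k v ^ (b * 4 ^ j) := by
    refine b2.trans ((mul_le_mul b4 b3 (pow_nonneg hc0 _)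
      (pow_nonneg (E0.pos v).le _)).trans ?_)
    rw [← mul_pow]
    exact pow_le_pow_left₀ (mul_nonneg (E0.pos v).le (SC.pos _ v).le) (E0.mul_le _ v) _
  exact b1.trans (mul_le_mul_of_nonneg_right b5
    (pow_nonneg (mul_nonneg (cst_nonneg v _) (zero_le_one.trans hR1)) _))

end

end Pool.Agent.Lib.MP_17a322_nt.VA
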