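import Pool.Agent.Lib.MP_17a322_nt.VA.C2
import Pool.Agent.Lib.MP_17a322_nt.VA.C5b
import Pool.Agent.Lib.MP_17a322_nt.VA.C6
import Pool.Agent.Lib.MP_17a322_nt.VN.C08
import Pool.Agent.Lib.MP_17a322_nt.VA.A1

/-!
# JOB VA C7: the estimate under the vanishing conditions

PROOF. Model: `ORD_estimate` (VN/C08). Put `s t = lf (nd.l t.succ) y`, `n = k + 2`. For every `ν` in the box: `UVA .. ν = aeval (Sum.elim x y) (UUA ..)` (`aeval_UUA`) `= ∑ r, aeval y (nd.w r) * aeval (Sum.elim x s) (GR nd.Mx (UUA ..) r)` (`GR_eval`, `nd.w_zero`, `nd.rel R y hy hy0`)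
`= ∑ r, aeval y (nd.w r) * ∑ l, aeval s (ρ.w l) * aeval (Sum.elim x z) (HA .. r l ν)`, `z t = aeval s (ρ.z t)` (`GR_eval` with `ρ.w_zero` and `ρ.rel` evaluated at `s`: apply `aeval s` to `ρ.rel j m`, `map_sum`, `map_mul`, `aeval_X`, `MvPolynomial.aeval` of a composite: see `rep_mpw`/`GG_eval` in VN/C04, C05), and
`aeval (Sum.elim x z) (HA ..) = aeval z (spA x0 (HA ..))` (`aeval_spA`). Exchange the sums: `∑ r, aeval y (nd.w r) * ∑ l, aeval s (ρ.w l) * ∑ ν, Φ ν * aeval z (spA x0 (HA ..))`.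
Inner sum: `core_estimate` (VN/C06) with `hT = hO c r l`, `E = 2 * (n * b) * nd.DM * D` (`spA_degree`, `HA_BD`), `G = (E1.k v ^ (b * 4 ^ j) * (cst v (e+1) * RB) ^ (2 * (n * b) * nd.DM)) * max 1 (vm v x0) ^ (2 * (n * (b * 4 ^ j)))` (`spA_NV`, `exists_HA_NV`), `Ω` a common bound of `μ (z t)`.
Sizes: `μ (s t) ≤ σ := E2.k v * ω` (`lf` is a sum of `N + 1` terms, `Adm_abv`, `Adm_cst`), `σ ≥ 1`; `μ (aeval s (ρ.z t)), μ (aeval s (ρ.w l)) ≤ RB * σ ^ D` (`SN_aeval_pow` of C3 with `D`: `∑ m t ≤ totalDegree ≤ D` by `le_totalDegree`; `z_le_RB`, `w_le_RB`);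
`μ (aeval y (nd.w r)) ≤ E3.k v * ω ^ D3`, `D3` a common bound for the total degrees of the `nd.w r`, `E3` a common size constant of the `NV v (map (nd.w r))`. The numbers of terms: `cst v (e₀ + 1)`, `cst v (e + 1)`, `cst v ((b + 1) ^ n) ≤ cst v 2 ^ (n * b)` (`C08_cst_card`, `C08_card`).
All constants depending only on `A`, `nd` go into `E` (power `≥ 1` of `b * 4 ^ j`, which is possible because `1 ≤ b`: `x ≤ x ^ (b * 4 ^ j)` and `x ^ (a' * b) ≤ (x ^ a') ^ (b * 4 ^ j)` for `x ≥ 1`), everything in `cst v 2`, `cst v (e + 1)`, `RB`, `κ`, `ω` into the power `a * b` (`a` a natural number depending on `k`, `D`, `nd.DM`, `D3`, e.g.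
`a = (100 * (k + 2) * (nd.DM + 1) * (D + 1) * (D3 + 1)) ^ 3`, or choose `a` as a sum of the exponents at `b = 1`). It is convenient to prove first a lemma: products of powers of numbers `≥ 1` with exponents `≤ a * b` are at most the power `a * b` of the product.
-/

universe u

namespace Pool.Agent.Lib.MP_17a322_nt.VA

open MvPolynomial Height
open Pool.Agent.Lib.MP_17a322_nt.RO
open Pool.Agent.Lib.MP_17a322_nt.VJ
open Pool.Agent.Lib.MP_17a322_nt.VN

/-- A common size constant of a finite family of polynomials. -/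
theorem C7_fam {K : Type u} [Field K] {ι : Type*} [Finite ι] {σ : Type*}
    (F : ι → MvPolynomial σ K) : ∃ E : SC K, ∀ (i : ι) (L : Type u) [Field L] [Algebra K L]
      (v : AbsoluteValue L ℝ), NV v (MvPolynomial.map (algebraMap K L) (F i)) ≤ E.k v := by
  obtain ⟨n, S, k, hn, h2⟩ := Adm.family
    (fun (i : ι) (L : Type u) _ _ v => max 1 (NV v (MvPolynomial.map (algebraMap K L) (F i))))
    fun i => Adm_NV (F i)
  refine ⟨scOf n S k, fun i L _ _ v => ?_⟩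
  exact (le_max_right _ _).trans ((h2 i L v).trans (le_scOf hn S k v))

theorem C7_total {K : Type*} [CommRing K] {σ : Type*} [Fintype σ] (F : MvPolynomial σ K) {D : ℕ}
    (hD : F.totalDegree ≤ D) : ∀ m ∈ F.support, ∑ t, m t ≤ D := by
  intro m hm
  refine le_trans ?_ ((le_totalDegree hm).trans hD)
  rw [Finsupp.sum_fintype _ _ fun _ => rfl]

/-- The linear form as a polynomial. -/
noncomputable def C7_lf {K : Type*} [Field K] {N : ℕ} (l : Fin (N + 1) → K) :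
    MvPolynomial (Fin (N + 1)) K := ∑ a, C (l a) * X a

theorem C7_lf_eval {K : Type*} [Field K] {N : ℕ} (l : Fin (N + 1) → K) {R : Type*} [CommRing R]
    [Algebra K R] (y : Fin (N + 1) → R) : aeval y (C7_lf l) = lf l y := by
  unfold C7_lf lf
  rw [map_sum]
  refine Finset.sum_congr rfl fun a _ => ?_
  rw [map_mul, aeval_C, aeval_X]

theorem C7_lf_total {K : Type*} [Field K] {N : ℕ} (l : Fin (N + 1) → K) :
    (C7_lf l).totalDegree ≤ 1 := by
  unfold C7_lf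
  refine totalDegree_finsetSum_le fun a _ => ?_
  refine (totalDegree_mul _ _).trans ?_
  rw [totalDegree_C, totalDegree_X]

/-- The sum in terms of the components. -/
theorem C7_sum {K : Type u} [Field K] {N : ℕ} {A : AV K N} {k e₀ : ℕ} (nd : Noe A (k + 2) e₀)
    {L : Type u} [Field L] [Algebra K L] {R : Type u} [CommRing R] [Algebra L R] [Algebra K R]
    [IsScalarTower K L R] {e : ℕ} (ρ : REP K (k + 2) e) (j b : ℕ)
    (Φ : (Fin (k + 2) → ℕ) → R) (x0 : Fin (N + 1) → L) (y : Fin (N + 1) → R) (hy : A.IsPt y)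
    (hy0 : lf (nd.l 0) y = 1) (c : Fin (N + 1)) (S : Finset (Fin (k + 2) → ℕ)) :
    ∑ ν ∈ S, Φ ν * UVA A nd.l j b c (fun i => algebraMap L R (x0 i)) y ν =
      ∑ r, aeval y (nd.w r) * ∑ l, aeval (fun t : Fin (k + 2) => lf (nd.l t.succ) y) (ρ.w l) *
        ∑ ν ∈ S, Φ ν * aeval (fun t => aeval (fun t : Fin (k + 2) => lf (nd.l t.succ) y) (ρ.z t))
          (spA x0 (HA nd ρ j b c r l ν)) := by
  obtain ⟨s, hs⟩ : ∃ s : Fin (k + 2) → R, s = fun t : Fin (k + 2) => lf (nd.l t.succ) y :=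
    ⟨_, rfl⟩
  rw [← hs]
  have hrel := nd.rel R y hy hy0
  have hrel1 : ∀ (a : Fin (N + 1)) (m : Fin (e₀ + 1)),
      ∑ r, aeval y (nd.w r) * aeval s (nd.Mx a r m) = y a * aeval y (nd.w m) := by
    intro a m
    rw [hs]
    exact hrel a m
  have hw : (fun r => aeval y (nd.w r)) 0 = (1 : R) := by
    show aeval y (nd.w 0) = 1
    rw [nd.w_zero, map_one]
  have hw' : (fun l => aeval s (ρ.w l)) 0 = (1 : R) := by
    show aeval s (ρ.w 0) = 1
    rw [ρ.w_zero, map_one]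
  have hrel2 : ∀ (a : Fin (k + 2)) (m : Fin (e + 1)),
      ∑ l, aeval s (ρ.w l) * aeval (fun t => aeval s (ρ.z t)) (ρ.M a l m) =
        s a * aeval s (ρ.w m) := by
    intro a m
    have h1 := congrArg (aeval s) (ρ.rel a m)
    rw [map_sum, map_mul, aeval_X] at h1
    rw [← h1]
    refine Finset.sum_congr rfl fun l _ => ?_
    rw [map_mul]
    congr 1
    exact (MvPolynomial.comp_aeval_apply ρ.z (aeval s) (ρ.M a l m)).symm
  have h1 : ∀ ν, UVA A nd.l j b c (fun i => algebraMap L R (x0 i)) y ν =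
      ∑ r, aeval y (nd.w r) * ∑ l, aeval s (ρ.w l) *
        aeval (fun t => aeval s (ρ.z t)) (spA x0 (HA nd ρ j b c r l ν)) := by
    intro ν
    rw [← aeval_UUA, GR_eval nd.Mx _ (fun r => aeval y (nd.w r)) s y hw hrel1]
    refine Finset.sum_congr rfl fun r _ => ?_
    rw [GR_eval ρ.M _ (fun l => aeval s (ρ.w l)) (fun t => aeval s (ρ.z t)) s hw' hrel2]
    congr 1
    refine Finset.sum_congr rfl fun l _ => ?_
    rw [aeval_spA]
    rfl
  have h2 : ∀ ν ∈ S, Φ ν * UVA A nd.l j b c (fun i => algebraMap L R (x0 i)) y ν =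
      ∑ r, aeval y (nd.w r) * ∑ l, aeval s (ρ.w l) * (Φ ν *
        aeval (fun t => aeval s (ρ.z t)) (spA x0 (HA nd ρ j b c r l ν))) := by
    intro ν _
    rw [h1, Finset.mul_sum]
    refine Finset.sum_congr rfl fun r _ => ?_
    rw [mul_left_comm, Finset.mul_sum]
    congr 1
    exact Finset.sum_congr rfl fun l _ => mul_left_comm _ _ _
  rw [Finset.sum_congr rfl h2, Finset.sum_comm]
  refine Finset.sum_congr rfl fun r _ => ?_
  rw [← Finset.mul_sum, Finset.sum_comm]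
  congr 1
  refine Finset.sum_congr rfl fun l _ => ?_
  rw [Finset.mul_sum]

/-- The real inequality. -/
theorem C7_real {n k D D3 M b f : ℕ} {B Y dT c0 E1 E2 E3 c2 cb ce R κ ω : ℝ} (hb : 1 ≤ b)
    (hf : 1 ≤ f) (hB : 0 ≤ B) (hY : 0 ≤ Y) (hdT : 0 ≤ dT) (hc0 : 1 ≤ c0) (hE1 : 1 ≤ E1)
    (hE2 : 1 ≤ E2) (hE3 : 1 ≤ E3) (hc2 : 1 ≤ c2) (hce : 1 ≤ ce) (hR : 1 ≤ R) (hκ : 1 ≤ κ)
    (hω : 1 ≤ ω) (hcb0 : 0 ≤ cb) (hcb : cb ≤ c2 ^ (n * b)) :
    c0 * (E3 * ω ^ D3 * (ce * (R * (E2 * ω) ^ D * (cb * (B * (E1 ^ (b * f) *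
      (ce * R) ^ (2 * (n * b) * M) * Y)) * κ ^ (2 * (2 * (n * b) * M * D)) *
        (R * (E2 * ω) ^ D) ^ (k * (2 * (n * b) * M * D)) * dT)))) ≤
    B * (c0 * E3 * E1 * E2 ^ (D + D * (k * (2 * n * M * D)))) ^ (b * f) * Y *
      (c2 * ce * R * κ * ω) ^ ((D3 + 1 + D + n + 2 * n * M + 2 * (2 * n * M * D) +
        k * (2 * n * M * D) + D * (k * (2 * n * M * D))) * b) * dT := by
  have p0 : 0 ≤ c0 := zero_le_one.trans hc0
  have p1 : 0 ≤ E1 := zero_le_one.trans hE1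
  have p2 : 0 ≤ E2 := zero_le_one.trans hE2
  have p3 : 0 ≤ E3 := zero_le_one.trans hE3
  have p4 : 0 ≤ c2 := zero_le_one.trans hc2
  have p5 : 0 ≤ ce := zero_le_one.trans hce
  have p6 : 0 ≤ R := zero_le_one.trans hR
  have p7 : 0 ≤ κ := zero_le_one.trans hκ
  have p8 : 0 ≤ ω := zero_le_one.trans hω
  obtain ⟨Z, hZ⟩ : ∃ Z : ℝ, Z = c2 * ce * R * κ * ω := ⟨_, rfl⟩
  have q1 : 1 ≤ c2 * ce := one_le_mul_of_one_le_of_one_le hc2 hce
  have q2 : 1 ≤ c2 * ce * R := one_le_mul_of_one_le_of_one_le q1 hR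
  have q3 : 1 ≤ c2 * ce * R * κ := one_le_mul_of_one_le_of_one_le q2 hκ
  have hZ1 : 1 ≤ Z := by
    rw [hZ]
    exact one_le_mul_of_one_le_of_one_le q3 hω
  have hZ0 : 0 ≤ Z := zero_le_one.trans hZ1
  have z1 : ω ≤ Z := by
    rw [hZ]
    exact le_mul_of_one_le_left p8 q3
  have z2 : κ ≤ Z := by
    rw [hZ]
    exact (le_mul_of_one_le_left p7 q2).trans (le_mul_of_one_le_right (by positivity) hω)
  have z3 : ce * R ≤ Z := by
    rw [hZ]
    have h1 : ce * R ≤ c2 * ce * R := by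
      rw [mul_assoc]
      exact le_mul_of_one_le_left (by positivity) hc2
    refine h1.trans ((le_mul_of_one_le_right (by positivity) hκ).trans ?_)
    exact le_mul_of_one_le_right (by positivity) hω
  have z4 : R ≤ Z := (le_mul_of_one_le_left p6 hce).trans z3
  have z5 : c2 ≤ Z := by
    rw [hZ]
    refine (le_mul_of_one_le_right p4 hce).trans ((le_mul_of_one_le_right (by positivity) hR).trans
      ((le_mul_of_one_le_right (by positivity) hκ).trans ?_))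
    exact le_mul_of_one_le_right (by positivity) hω
  rw [← hZ]
  obtain ⟨U, hU⟩ : ∃ U : ℕ, U = 2 * n * M * D := ⟨_, rfl⟩
  have hUb : 2 * (n * b) * M * D = U * b := by rw [hU]; ring
  have hMb : 2 * (n * b) * M = 2 * n * M * b := by ring
  rw [← hU, hUb, hMb]
  have w1 : ω ^ D3 ≤ Z ^ D3 := pow_le_pow_left₀ p8 z1 _
  have w2 : (E2 * ω) ^ D ≤ E2 ^ D * Z ^ D := by
    rw [mul_pow]
    exact mul_le_mul_of_nonneg_left (pow_le_pow_left₀ p8 z1 _) (pow_nonneg p2 _)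
  have w3 : cb ≤ Z ^ (n * b) := hcb.trans (pow_le_pow_left₀ p4 z5 _)
  have w4 : (ce * R) ^ (2 * n * M * b) ≤ Z ^ (2 * n * M * b) :=
    pow_le_pow_left₀ (by positivity) z3 _
  have w5 : κ ^ (2 * (U * b)) ≤ Z ^ (2 * (U * b)) := pow_le_pow_left₀ p7 z2 _
  have w6 : (R * (E2 * ω) ^ D) ^ (k * (U * b)) ≤
      Z ^ (k * (U * b)) * (E2 ^ (D * (k * (U * b))) * Z ^ (D * (k * (U * b)))) := by
    rw [mul_pow]
    refine mul_le_mul (pow_le_pow_left₀ p6 z4 _) ?_ (by positivity) (by positivity)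
    rw [← pow_mul, mul_pow]
    exact mul_le_mul_of_nonneg_left (pow_le_pow_left₀ p8 z1 _) (pow_nonneg p2 _)
  have hbf : b ≤ b * f := Nat.le_mul_of_pos_right b hf
  have hbf1 : 1 ≤ b * f := hb.trans hbf
  have s1 : c0 * E3 ≤ (c0 * E3) ^ (b * f) :=
    le_self_pow₀ (one_le_mul_of_one_le_of_one_le hc0 hE3) (by omega)
  have s2 : E2 ^ D * E2 ^ (D * (k * (U * b))) ≤ (E2 ^ (D + D * (k * U))) ^ (b * f) := by
    rw [← pow_add, ← pow_mul]
    refine pow_le_pow_right₀ hE2 ?_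
    calc D + D * (k * (U * b)) ≤ D * b + D * (k * (U * b)) :=
          Nat.add_le_add_right (Nat.le_mul_of_pos_right D hb) _
      _ = (D + D * (k * U)) * b := by ring
      _ ≤ (D + D * (k * U)) * (b * f) := Nat.mul_le_mul_left _ hbf
  have s3 : Z ^ D3 * Z * Z ^ D * Z ^ (n * b) * Z ^ (2 * n * M * b) * Z ^ (2 * (U * b)) *
      Z ^ (k * (U * b)) * Z ^ (D * (k * (U * b))) ≤
      Z ^ ((D3 + 1 + D + n + 2 * n * M + 2 * U + k * U + D * (k * U)) * b) := by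
    rw [← pow_succ, ← pow_add, ← pow_add, ← pow_add, ← pow_add, ← pow_add, ← pow_add]
    refine pow_le_pow_right₀ hZ1 ?_
    have h1 : D3 ≤ D3 * b := Nat.le_mul_of_pos_right D3 hb
    have h2 : D ≤ D * b := Nat.le_mul_of_pos_right D hb
    calc D3 + 1 + D + n * b + 2 * n * M * b + 2 * (U * b) + k * (U * b) + D * (k * (U * b)) ≤
          D3 * b + b + D * b + n * b + 2 * n * M * b + 2 * (U * b) + k * (U * b) +
            D * (k * (U * b)) := by omega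
      _ = (D3 + 1 + D + n + 2 * n * M + 2 * U + k * U + D * (k * U)) * b := by ring
  have hcore : E3 * ω ^ D3 * (ce * (R * (E2 * ω) ^ D * (cb * (B * (E1 ^ (b * f) *
      (ce * R) ^ (2 * n * M * b) * Y)) * κ ^ (2 * (U * b)) *
        (R * (E2 * ω) ^ D) ^ (k * (U * b)) * dT))) ≤
      E3 * Z ^ D3 * (Z * (E2 ^ D * Z ^ D) * (Z ^ (n * b) * (B * (E1 ^ (b * f) *
      Z ^ (2 * n * M * b) * Y)) * Z ^ (2 * (U * b)) *
        (Z ^ (k * (U * b)) * (E2 ^ (D * (k * (U * b))) * Z ^ (D * (k * (U * b))))) * dT)) := by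
    refine mul_le_mul (mul_le_mul_of_nonneg_left w1 p3) ?_ (by positivity) (by positivity)
    rw [← mul_assoc ce, ← mul_assoc ce]
    refine mul_le_mul (mul_le_mul z3 w2 (by positivity) hZ0) ?_ (by positivity) (by positivity)
    refine mul_le_mul_of_nonneg_right ?_ hdT
    refine mul_le_mul (mul_le_mul (mul_le_mul w3 ?_ (by positivity) (by positivity)) w5
      (by positivity) (by positivity)) w6 (by positivity) (by positivity)
    refine mul_le_mul_of_nonneg_left ?_ hB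
    refine mul_le_mul_of_nonneg_right ?_ hY
    exact mul_le_mul_of_nonneg_left w4 (by positivity)
  calc c0 * (E3 * ω ^ D3 * (ce * (R * (E2 * ω) ^ D * (cb * (B * (E1 ^ (b * f) *
      (ce * R) ^ (2 * n * M * b) * Y)) * κ ^ (2 * (U * b)) *
        (R * (E2 * ω) ^ D) ^ (k * (U * b)) * dT)))) ≤
      c0 * (E3 * Z ^ D3 * (Z * (E2 ^ D * Z ^ D) * (Z ^ (n * b) * (B * (E1 ^ (b * f) *
      Z ^ (2 * n * M * b) * Y)) * Z ^ (2 * (U * b)) *
        (Z ^ (k * (U * b)) * (E2 ^ (D * (k * (U * b))) * Z ^ (D * (k * (U * b))))) * dT))) :=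
        mul_le_mul_of_nonneg_left hcore p0
    _ = (c0 * E3) * (E2 ^ D * E2 ^ (D * (k * (U * b)))) * (Z ^ D3 * Z * Z ^ D * Z ^ (n * b) *
        Z ^ (2 * n * M * b) * Z ^ (2 * (U * b)) * Z ^ (k * (U * b)) * Z ^ (D * (k * (U * b)))) *
        (E1 ^ (b * f) * (B * Y * dT)) := by ring
    _ ≤ ((c0 * E3) ^ (b * f)) * ((E2 ^ (D + D * (k * U))) ^ (b * f)) *
        Z ^ ((D3 + 1 + D + n + 2 * n * M + 2 * U + k * U + D * (k * U)) * b) *
        (E1 ^ (b * f) * (B * Y * dT)) := by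
        refine mul_le_mul_of_nonneg_right ?_ (by positivity)
        exact mul_le_mul (mul_le_mul s1 s2 (by positivity) (by positivity)) s3 (by positivity)
          (by positivity)
    _ = _ := by
        rw [mul_pow (c0 * E3 * E1), mul_pow (c0 * E3)]
        ring

theorem exists_ORDA_estimate {K : Type u} [Field K] {N : ℕ} {A : AV K N} {k e₀ : ℕ}
    (nd : Noe A (k + 2) e₀) (D : ℕ) :
    ∃ (E : SC K) (a : ℕ), ∀ {L : Type u} [Field L] [Algebra K L] {v : AbsoluteValue L ℝ}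
      {R : Type u} [CommRing R] [Algebra L R] [Algebra K R] [IsScalarTower K L R] {μ : R → ℝ},
      SN v μ → ∀ {e : ℕ} (ρ : REP K (k + 2) e), ρ.Deg D → ∀ {j b T : ℕ}, 1 ≤ b →
      ∀ (Φ : (Fin (k + 2) → ℕ) → R) (x0 : Fin (N + 1) → L), ORDA nd ρ j b T Φ x0 →
      ∀ {B ω κ δ : ℝ}, (∀ ν ∈ box (fun _ : Fin (k + 2) => b + 1), μ (Φ ν) ≤ B) → 1 ≤ ω →
      1 ≤ κ → 0 < δ → δ ≤ 1 → ∀ (y : Fin (N + 1) → R), A.IsPt y → lf (nd.l 0) y = 1 →
      (∀ i, μ (y i) ≤ ω) →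
      μ (aeval (fun t : Fin (k + 2) => lf (nd.l t.succ) y) (ρ.z 0)) ≤ κ * δ →
      μ (aeval (fun t : Fin (k + 2) => lf (nd.l t.succ) y) (ρ.z 1)) ≤ κ * δ →
      ∀ c : Fin (N + 1),
      μ (∑ ν ∈ box (fun _ : Fin (k + 2) => b + 1),
          Φ ν * UVA A nd.l j b c (fun i => algebraMap L R (x0 i)) y ν) ≤
        B * E.k v ^ (b * 4 ^ j) * max 1 (vm v x0) ^ (2 * ((k + 2) * (b * 4 ^ j))) *
          (cst v 2 * cst v (e + 1) * (ρ.map (algebraMap K L)).RB v * κ * ω) ^ (a * b) *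
            δ ^ T := by
  classical
  obtain ⟨E1, hE1⟩ := exists_HA_NV nd
  obtain ⟨E2, hE2⟩ := C7_fam (fun k : Fin (k + 2 + 1) => C7_lf (nd.l k))
  obtain ⟨E3, hE3⟩ := C7_fam nd.w
  obtain ⟨E4, hE4⟩ := (Adm_cst.{u, u} (K := K) (e₀ + 1)).exists_SC
  obtain ⟨D3, hD3⟩ : ∃ D3 : ℕ, D3 = ∑ r, (nd.w r).totalDegree := ⟨_, rfl⟩
  have hD3' : ∀ r, (nd.w r).totalDegree ≤ D3 := by
    intro r
    rw [hD3]
    exact Finset.single_le_sum (f := fun r => (nd.w r).totalDegree) (fun _ _ => Nat.zero_le _)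
      (Finset.mem_univ r)
  obtain ⟨d, hd⟩ : ∃ d : ℕ, d = D + D * (k * (2 * (k + 2) * nd.DM * D)) := ⟨_, rfl⟩
  refine ⟨((E4.mul E3).mul E1).mul (E2.pw d), D3 + 1 + D + (k + 2) + 2 * (k + 2) * nd.DM +
    2 * (2 * (k + 2) * nd.DM * D) + k * (2 * (k + 2) * nd.DM * D) +
    D * (k * (2 * (k + 2) * nd.DM * D)), ?_⟩
  intro L _ _ v R _ _ _ _ μ h e ρ hD j b T hb Φ x0 hO B ω κ δ hB hω hκ hδ hδ1 y hy hy0 hyω h0 h1 c
  have hB0 : 0 ≤ B := C08_B_nonneg h.nonneg Φ hB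
  have hR1 : 1 ≤ (ρ.map (algebraMap K L)).RB v := one_le_RB _ v
  have hR0 : 0 ≤ (ρ.map (algebraMap K L)).RB v := zero_le_one.trans hR1
  have e1 : 1 ≤ E1.k v := E1.one_le v
  have e2 : 1 ≤ E2.k v := E2.one_le v
  have e3 : 1 ≤ E3.k v := E3.one_le v
  have e4 : 1 ≤ E4.k v := E4.one_le v
  obtain ⟨s, hs⟩ : ∃ s : Fin (k + 2) → R, s = fun t : Fin (k + 2) => lf (nd.l t.succ) y :=
    ⟨_, rfl⟩
  have hω0 : 0 ≤ ω := zero_le_one.trans hω
  have hσ1 : 1 ≤ E2.k v * ω := one_le_mul_of_one_le_of_one_le e2 hω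
  have hsb : ∀ t, μ (s t) ≤ E2.k v * ω := by
    intro t
    have h2 := SN_aeval_pow (K := K) h (C7_lf (nd.l t.succ))
      (C7_total _ (C7_lf_total (nd.l t.succ))) y hω hyω
    rw [C7_lf_eval, pow_one] at h2
    rw [hs]
    exact h2.trans (mul_le_mul_of_nonneg_right (hE2 t.succ L v) hω0)
  have hσD : 0 ≤ (E2.k v * ω) ^ D := pow_nonneg (zero_le_one.trans hσ1) _
  have hzb : ∀ t, μ (aeval s (ρ.z t)) ≤
      (ρ.map (algebraMap K L)).RB v * (E2.k v * ω) ^ D := by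
    intro t
    refine (SN_aeval_pow (K := K) h (ρ.z t) (C7_total _ (hD.1 t)) s hσ1 hsb).trans ?_
    exact mul_le_mul_of_nonneg_right (z_le_RB (ρ.map (algebraMap K L)) v t) hσD
  have hwb : ∀ l, μ (aeval s (ρ.w l)) ≤
      (ρ.map (algebraMap K L)).RB v * (E2.k v * ω) ^ D := by
    intro l
    refine (SN_aeval_pow (K := K) h (ρ.w l) (C7_total _ (hD.2.1 l)) s hσ1 hsb).trans ?_
    exact mul_le_mul_of_nonneg_right (w_le_RB (ρ.map (algebraMap K L)) v l) hσD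
  have hnw : ∀ r, μ (aeval y (nd.w r)) ≤ E3.k v * ω ^ D3 := by
    intro r
    refine (SN_aeval_pow (K := K) h (nd.w r) (C7_total _ (hD3' r)) y hω hyω).trans ?_
    exact mul_le_mul_of_nonneg_right (hE3 r L v) (pow_nonneg hω0 _)
  have hΩ1 : 1 ≤ (ρ.map (algebraMap K L)).RB v * (E2.k v * ω) ^ D :=
    one_le_mul_of_one_le_of_one_le hR1 (one_le_pow₀ hσ1)
  have hY0 : 0 ≤ max 1 (vm v x0) ^ (2 * ((k + 2) * (b * 4 ^ j))) :=
    pow_nonneg (zero_le_one.trans (le_max_left _ _)) _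
  have hce0 : 0 ≤ cst v (e + 1) := cst_nonneg _ _
  have hce1 : 1 ≤ cst v (e + 1) := one_le_cst v (Nat.succ_pos e)
  have hc21 : 1 ≤ cst v 2 := one_le_cst v (by norm_num)
  have hG0 : 0 ≤ E1.k v ^ (b * 4 ^ j) *
      (cst v (e + 1) * (ρ.map (algebraMap K L)).RB v) ^ (2 * ((k + 2) * b) * nd.DM) *
      max 1 (vm v x0) ^ (2 * ((k + 2) * (b * 4 ^ j))) := by positivity
  have hbox : ∀ ν ∈ box (fun _ : Fin (k + 2) => b + 1), ∀ t, ν t ≤ b := by
    intro ν hν t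
    rw [mem_box] at hν
    exact Nat.lt_succ_iff.1 (hν t)
  have hcore : ∀ (r : Fin (e₀ + 1)) (l : Fin (e + 1)),
      μ (∑ ν ∈ box (fun _ : Fin (k + 2) => b + 1),
        Φ ν * aeval (fun t => aeval s (ρ.z t)) (spA x0 (HA nd ρ j b c r l ν))) ≤
      cst v ((b + 1) ^ (k + 2)) * (B * (E1.k v ^ (b * 4 ^ j) *
        (cst v (e + 1) * (ρ.map (algebraMap K L)).RB v) ^ (2 * ((k + 2) * b) * nd.DM) *
        max 1 (vm v x0) ^ (2 * ((k + 2) * (b * 4 ^ j))))) *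
        κ ^ (2 * (2 * ((k + 2) * b) * nd.DM * D)) *
        ((ρ.map (algebraMap K L)).RB v * (E2.k v * ω) ^ D) ^
          (k * (2 * ((k + 2) * b) * nd.DM * D)) * δ ^ T := by
    intro r l
    have h2 := core_estimate h (fun t => aeval s (ρ.z t)) (box (fun _ : Fin (k + 2) => b + 1)) Φ
      (fun ν => spA x0 (HA nd ρ j b c r l ν)) (T := T) (E := 2 * ((k + 2) * b) * nd.DM * D)
      (fun β hβ => hO c r l β hβ)
      (fun ν hν t => spA_degree x0 (HA_BD nd ρ hD j b c r l ν (hbox ν hν)) t)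
      hB0 hG0 hΩ1 hκ hδ hδ1 hzb (by rw [hs]; exact h0) (by rw [hs]; exact h1) hB
      (fun ν hν => (spA_NV v x0 (HA_BD nd ρ hD j b c r l ν (hbox ν hν))).trans
        (mul_le_mul_of_nonneg_right (hE1 v ρ j b c r l ν (hbox ν hν)) hY0))
    rw [C08_card] at h2
    exact h2
  rw [C7_sum nd ρ j b Φ x0 y hy hy0 c, ← hs]
  have hκ0 : 0 ≤ κ := zero_le_one.trans hκ
  have hcard0 : 0 ≤ cst v ((b + 1) ^ (k + 2)) := cst_nonneg _ _
  have hin : ∀ r, μ (∑ l, aeval s (ρ.w l) * ∑ ν ∈ box (fun _ : Fin (k + 2) => b + 1),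
      Φ ν * aeval (fun t => aeval s (ρ.z t)) (spA x0 (HA nd ρ j b c r l ν))) ≤
      cst v (e + 1) * ((ρ.map (algebraMap K L)).RB v * (E2.k v * ω) ^ D *
      (cst v ((b + 1) ^ (k + 2)) * (B * (E1.k v ^ (b * 4 ^ j) *
        (cst v (e + 1) * (ρ.map (algebraMap K L)).RB v) ^ (2 * ((k + 2) * b) * nd.DM) *
        max 1 (vm v x0) ^ (2 * ((k + 2) * (b * 4 ^ j))))) *
        κ ^ (2 * (2 * ((k + 2) * b) * nd.DM * D)) *
        ((ρ.map (algebraMap K L)).RB v * (E2.k v * ω) ^ D) ^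
          (k * (2 * ((k + 2) * b) * nd.DM * D)) * δ ^ T)) := by
    intro r
    have h2 := h.sum_le Finset.univ (fun l => aeval s (ρ.w l) *
      ∑ ν ∈ box (fun _ : Fin (k + 2) => b + 1),
        Φ ν * aeval (fun t => aeval s (ρ.z t)) (spA x0 (HA nd ρ j b c r l ν)))
      (mul_nonneg (zero_le_one.trans hΩ1) ((h.nonneg _).trans (hcore r 0)))
      (fun l _ => (h.mul _ _).trans (mul_le_mul (hwb l) (hcore r l) (h.nonneg _)
        (zero_le_one.trans hΩ1)))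
    rw [Finset.card_univ, Fintype.card_fin] at h2
    exact h2
  have hfin := h.sum_le Finset.univ (fun r => aeval y (nd.w r) *
      ∑ l, aeval s (ρ.w l) * ∑ ν ∈ box (fun _ : Fin (k + 2) => b + 1),
        Φ ν * aeval (fun t => aeval s (ρ.z t)) (spA x0 (HA nd ρ j b c r l ν)))
      (mul_nonneg ((h.nonneg _).trans (hnw 0)) ((h.nonneg _).trans (hin 0)))
      (fun r _ => (h.mul _ _).trans (mul_le_mul (hnw r) (hin r) (h.nonneg _)
        ((h.nonneg _).trans (hnw 0))))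
  rw [Finset.card_univ, Fintype.card_fin] at hfin
  refine hfin.trans ?_
  have hq := (h.nonneg _).trans (hin 0)
  have hq' := mul_nonneg ((h.nonneg _).trans (hnw 0)) hq
  refine (mul_le_mul_of_nonneg_right (hE4 L v) hq').trans ?_
  have hreal := C7_real (n := k + 2) (k := k) (D := D) (D3 := D3) (M := nd.DM) (b := b)
    (f := 4 ^ j) (B := B) (Y := max 1 (vm v x0) ^ (2 * ((k + 2) * (b * 4 ^ j)))) (dT := δ ^ T)
    (c0 := E4.k v) (E1 := E1.k v) (E2 := E2.k v) (E3 := E3.k v) (c2 := cst v 2)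
    (cb := cst v ((b + 1) ^ (k + 2))) (ce := cst v (e + 1))
    (R := (ρ.map (algebraMap K L)).RB v) (κ := κ) (ω := ω) hb
    (Nat.one_le_pow _ _ (by norm_num)) hB0 hY0 (pow_nonneg hδ.le _) e4 e1 e2 e3 hc21 hce1 hR1 hκ
    hω hcard0 (C08_cst_card v (k + 2) b)
  refine hreal.trans ?_
  rw [← hd]
  have hEk : E4.k v * E3.k v * E1.k v * E2.k v ^ d ≤
      (((E4.mul E3).mul E1).mul (E2.pw d)).k v := by
    refine le_trans ?_ (SC.mul_le _ _ v)
    refine mul_le_mul ?_ (E2.pow_le d v) (by positivity) (SC.pos _ v).le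
    refine le_trans ?_ (SC.mul_le _ _ v)
    exact mul_le_mul_of_nonneg_right (SC.mul_le _ _ v) (by positivity)
  have hZ0 : 0 ≤ cst v 2 * cst v (e + 1) * (ρ.map (algebraMap K L)).RB v * κ * ω := by positivity
  refine mul_le_mul_of_nonneg_right ?_ (pow_nonneg hδ.le _)
  refine mul_le_mul_of_nonneg_right ?_ (pow_nonneg hZ0 _)
  refine mul_le_mul_of_nonneg_right ?_ hY0
  exact mul_le_mul_of_nonneg_left (pow_le_pow_left₀ (by positivity) hEk _) hB0

end Pool.Agent.Lib.MP_17a322_nt.VA
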