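import Pool.Agent.Lib.MP_17a322_nt.VA.C1a
import Pool.Agent.Lib.MP_17a322_nt.VN.C07

/-!
# JOB VA C5a: coefficients with respect to the second group of variables

PROOFS. The terms of `cz P β` are the monomials with exponents `m ∘ Sum.inl` for the `m ∈ P.support` with `m (Sum.inr t) = β t`; different `m` give different monomials. Model: the lemmas `coeff_cx`, `NV_cx`, `degreeOf_cx`, `cx_ne_zero`, `aeval_cx` in `CJ1.lean` (store: MP_17a322_nt_VD_CJ1.lean, also in the directory VDL of the
skeleton), where `cx` is literally `cz` with `a = n`: copy them.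
`coeff_cz`: `coeff s (cz P β) = coeff (Finsupp.equivFunOnFinite.symm (Sum.elim s β)) P`.
`coeff_spA`: `spA x0 P = ∑ m ∈ P.support, monomial (m ∘ inr) (algebraMap (coeff m P) * ∏ t, x0 t ^ m (inl t))` (as `C07_spx_eq`), `coeff_sum`, `coeff_monomial`, and the same expansion of `aeval x0 (cz P β)` (`map_sum`, `aeval_monomial`, `Finsupp.prod_fintype`).
-/

universe u

namespace Pool.Agent.Lib.MP_17a322_nt.VA

open MvPolynomial Height
open Pool.Agent.Lib.MP_17a322_nt.RO
open Pool.Agent.Lib.MP_17a322_nt.VJ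
open Pool.Agent.Lib.MP_17a322_nt.VN

section

variable {K : Type*} [CommRing K] {a n : ℕ}

/-- the exponents `s`, `β` together -/
private noncomputable def C5a_sf {a n : ℕ} (s : Fin a →₀ ℕ) (β : Fin n → ℕ) :
    Fin a ⊕ Fin n →₀ ℕ := Finsupp.equivFunOnFinite.symm (Sum.elim (fun t => s t) β)

theorem coeff_cz (P : MvPolynomial (Fin a ⊕ Fin n) K) (β : Fin n → ℕ) (s : Fin a →₀ ℕ) :
    coeff s (cz P β) = coeff (Finsupp.equivFunOnFinite.symm (Sum.elim (fun t => s t) β)) P := by
  classical
  unfold cz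
  rw [coeff_sum]
  have h1 : ∀ m ∈ P.support, coeff s (if (∀ t, m (Sum.inr t) = β t) then
      monomial (Finsupp.equivFunOnFinite.symm fun t => m (Sum.inl t)) (coeff m P) else 0) =
      if m = C5a_sf s β then coeff m P else 0 := by
    intro m _
    by_cases h2 : ∀ t, m (Sum.inr t) = β t
    · rw [if_pos h2, coeff_monomial]
      refine if_congr ⟨fun h3 => ?_, fun h3 => ?_⟩ rfl rfl
      · refine Finsupp.ext fun y => ?_
        rcases y with t | t
        · have h4 := DFunLike.congr_fun h3 t
          exact h4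
        · exact h2 t
      · refine Finsupp.ext fun t => ?_
        rw [h3]
        rfl
    · rw [if_neg h2, coeff_zero, if_neg]
      intro h3
      apply h2
      intro t
      rw [h3]
      rfl
  have h3 : ∑ m ∈ P.support, coeff s (if (∀ t, m (Sum.inr t) = β t) then
      monomial (Finsupp.equivFunOnFinite.symm fun t => m (Sum.inl t)) (coeff m P) else 0) =
      coeff (C5a_sf s β) P := by
    rw [Finset.sum_congr rfl h1, Finset.sum_ite_eq' P.support (C5a_sf s β)]
    split_ifs with h2
    · rfl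
    · exact (notMem_support_iff.1 h2).symm
  refine Eq.trans ?_ h3
  exact Finset.sum_congr rfl fun m _ => congrArg (coeff s) (if_congr Iff.rfl rfl rfl)

theorem cz_support {P : MvPolynomial (Fin a ⊕ Fin n) K} {p q : ℕ} (hP : BD P p q)
    (β : Fin n → ℕ) : ∀ m ∈ (cz P β).support, ∑ t, m t ≤ p := by
  intro m hm
  have h1 : coeff (C5a_sf m β) P ≠ 0 := by
    have h2 := mem_support_iff.1 hm
    rw [coeff_cz] at h2
    exact h2
  exact (hP _ (mem_support_iff.2 h1)).1

theorem cz_ne_zero {P : MvPolynomial (Fin a ⊕ Fin n) K} {p q : ℕ} (hP : BD P p q)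
    {β : Fin n → ℕ} (h : cz P β ≠ 0) : ∑ t, β t ≤ q := by
  obtain ⟨s, hs⟩ := MvPolynomial.ne_zero_iff.1 h
  rw [coeff_cz] at hs
  exact (hP _ (mem_support_iff.2 hs)).2

theorem coeff_spA {L : Type*} [CommRing L] [Algebra K L] (x0 : Fin a → L)
    (P : MvPolynomial (Fin a ⊕ Fin n) K) (β : Fin n →₀ ℕ) :
    coeff β (spA x0 P) = aeval x0 (cz P β) := by
  classical
  have hsp : spA x0 P = ∑ m ∈ P.support,
      monomial (Finsupp.equivFunOnFinite.symm fun t => m (Sum.inr t))
        (algebraMap K L (coeff m P) * ∏ t, x0 t ^ m (Sum.inl t)) := by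
    unfold spA
    rw [aeval_def, eval₂_eq']
    refine Finset.sum_congr rfl fun m _ => ?_
    rw [Fintype.prod_sum_type, monomial_eq, Finsupp.prod_fintype _ _ (fun i => pow_zero _),
      MvPolynomial.algebraMap_apply, map_mul, map_prod, mul_assoc]
    simp only [Sum.elim_inl, Sum.elim_inr, Finsupp.equivFunOnFinite_symm_apply_apply, map_pow]
  rw [hsp, coeff_sum]
  unfold cz
  rw [map_sum]
  refine Finset.sum_congr rfl fun m _ => ?_
  rw [coeff_monomial]
  by_cases h : ∀ t, m (Sum.inr t) = β t
  · have h1 : (Finsupp.equivFunOnFinite.symm fun t => m (Sum.inr t)) = β :=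
      Finsupp.ext fun t => h t
    rw [if_pos h, if_pos h1, aeval_monomial, Finsupp.prod_fintype _ _ (fun i => pow_zero _)]
    rfl
  · have h1 : (Finsupp.equivFunOnFinite.symm fun t => m (Sum.inr t)) ≠ β := by
      intro h2
      apply h
      intro t
      rw [← h2]
      rfl
    rw [if_neg h, if_neg h1, map_zero]

theorem cz_NV {L : Type*} [Field L] (v : AbsoluteValue L ℝ) (P : MvPolynomial (Fin a ⊕ Fin n) L)
    (β : Fin n → ℕ) : NV v (cz P β) ≤ NV v P := by
  refine NV_le_of_injOn v P (cz P β) (fun s => C5a_sf s β) (fun q _ q' _ h => ?_)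
    fun q _ => coeff_cz P β q
  refine Finsupp.ext fun t => ?_
  exact DFunLike.congr_fun h (Sum.inl t)

end

end Pool.Agent.Lib.MP_17a322_nt.VA
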