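import Pool.Agent.Lib.MP_17a322_nt.VA.E00

/-!
Part E of VA: independence and nonvanishing of eliminants.

JOB E01a (`card_indep`, `aeval_ne_zero_of_indep`).
* `card_indep`: `F := algebraicClosure` of `K(y)` in `Ω`, i.e. `F := algebraicClosure (IntermediateField.adjoin K (range y)) Ω`
  restricted to `K`, or work with the subalgebra `A := integral/algebraic elements over Algebra.adjoin K (range y)`.
  The `s k` lie in `F`, independent, so `card ι ≤ trdeg K F` (`AlgebraicIndependent.lift_cardinalMk_le_trdeg`);
  the family `y` in `F`, `F` algebraic over `Algebra.adjoin K (range y)`; Mathlib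
  `isTranscendenceBasis_of_lift_le_trdeg_of_finite` (or without `lift`; all index types have universe `0`,
  `Ω` universe `u`) gives: `y` (in `F`) is a transcendence basis, so independent, also in `Ω`
  (`AlgebraicIndependent.map'` or `.of_aeval`, injectivity of `F → Ω`).
* `aeval_ne_zero_of_indep`: `N = rename Subtype.val N'`, `N' : MvPolynomial T K` (`exists_rename_eq_of_vars_subset_range`,
  `t ∉ T → degreeOf t N = 0` gives `N.vars ⊆ T`: `degreeOf_eq_zero_iff`/`mem_vars`), `N' ≠ 0`, `aeval s N = aeval (s ∘ val) N'`.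

JOB E01b (`ELL_ne_zero_at`, `El_zero_right`, `ELL_zero`, `ELL_degreeOf_eq_zero`).
* `ELL_ne_zero_at`: induction on `l` generalizing `F`. `ELL_cons`: apply the induction hypothesis to
  `F' = El y (α y) F`; the last hypothesis is `El_ne_zero_at` (VJ/C3) with `hstep y l s'` (suffix: `List.suffix_refl`;
  suffixes of `l` are suffixes of `y :: l`).
* `El_zero_right`: the Sylvester matrix of `vw y f` and `vw y 0 = 0` (`degreeOf y 0 = 0`); Mathlib has
  `Polynomial.resultant_zero_right` or similar (`resultant f 0 m 0 = 0 ^ m`-like); or: `El_mem`-free argument: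
  choose the generic point? The simplest: unfold `El`, `vw_zero`, look at Mathlib's `Polynomial.resultant` API.
* `ELL_zero`: induction.
* `ELL_degreeOf_eq_zero`: induction on `l` generalizing `F` (`List.pairwise_cons`). For `y :: l` and `F' = El y (α y) F`: if `t = y`: `degreeOf_El_self` (VJ/C2) and
  `(α y').degreeOf y = 0` for `y' ∈ l`; if `t ∈ l`: clear; otherwise `degreeOf_El_le'` (VJ/C2).
-/

universe u

namespace Pool.Agent.Lib.MP_17a322_nt.VA

open MvPolynomial Height
open Pool.Agent.Lib.MP_17a322_nt.VJ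
open Pool.Agent.Lib.MP_17a322_nt.VN

private theorem e01a_alg {K Ω : Type*} [Field K] [Field Ω] [Algebra K Ω] (S : Set Ω) (x : Ω)
    (h : IsAlgebraic (IntermediateField.adjoin K S) x) : IsAlgebraic (Algebra.adjoin K S) x := by
  open IntermediateField.algebraAdjoinAdjoin in
  exact (IsFractionRing.isAlgebraic_iff (Algebra.adjoin K S) (IntermediateField.adjoin K S) Ω).2 h

theorem card_indep {K : Type u} [Field K] {Ω : Type u} [Field Ω] [Algebra K Ω] {ι κ : Type}
    [Finite ι] [Finite κ] (hc : Nat.card κ ≤ Nat.card ι) (s : ι → Ω) (y : κ → Ω)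
    (hs : AlgebraicIndependent K s)
    (h : ∀ k, IsAlgebraic (IntermediateField.adjoin K (Set.range y)) (s k)) :
    AlgebraicIndependent K y := by
  have hsub : Set.range s ⊆ (AlgebraicIndependent.matroid K Ω).closure (Set.range y) := by
    rintro _ ⟨k, rfl⟩
    rw [AlgebraicIndependent.matroid_closure_eq]
    exact e01a_alg _ _ (h k)
  have hI : (AlgebraicIndependent.matroid K Ω).Indep (Set.range s) :=
    AlgebraicIndependent.matroid_indep_iff.2 hs.to_subtype_range
  have h1 : (Set.range s).encard ≤ (AlgebraicIndependent.matroid K Ω).eRk (Set.range y) := by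
    rw [← Matroid.eRk_closure_eq]
    exact hI.encard_le_eRk_of_subset hsub
  have h2 : (Set.range s).encard = (Nat.card ι : ℕ∞) := by
    rw [← ENat.card_coe_set_eq, ENat.card_eq_coe_natCard, Nat.card_range_of_injective hs.injective]
  have h3 : (Set.range y).encard = (Nat.card (Set.range y) : ℕ∞) := by
    rw [← ENat.card_coe_set_eq, ENat.card_eq_coe_natCard]
  have h4 : Nat.card (Set.range y) ≤ Nat.card κ := Finite.card_range_le y
  have h5 := (AlgebraicIndependent.matroid K Ω).eRk_le_encard (Set.range y)
  have h6 : Nat.card ι ≤ Nat.card (Set.range y) := by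
    have h7 := h1.trans h5
    rw [h2, h3] at h7
    exact_mod_cast h7
  have h7 : (AlgebraicIndependent.matroid K Ω).Indep (Set.range y) := by
    rw [Matroid.indep_iff_eRk_eq_encard_of_finite (Set.finite_range y)]
    refine le_antisymm h5 ?_
    refine le_trans ?_ h1
    rw [h2, h3]
    exact_mod_cast h4.trans hc
  have h8 := (Set.rangeFactorization_surjective (f := y)).bijective_of_nat_card_le
    (hc.trans h6)
  have h9 : Function.Injective y := fun a b e => h8.1 (Subtype.ext e)
  exact AlgebraicIndependent.of_subtype_range h9 (AlgebraicIndependent.matroid_indep_iff.1 h7)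

theorem aeval_ne_zero_of_indep {K Ω σ : Type*} [Field K] [Field Ω] [Algebra K Ω] (T : Set σ)
    (s : σ → Ω) (h : AlgebraicIndependent K fun y : T => s y) (N : MvPolynomial σ K) (hN : N ≠ 0)
    (hT : ∀ y ∉ T, N.degreeOf y = 0) : aeval s N ≠ 0 := by
  classical
  have hv : (N.vars : Set σ) ⊆ Set.range (Subtype.val : T → σ) := by
    intro y hy
    rw [Subtype.range_coe]
    by_contra hyT
    have h1 := hT y hyT
    rw [Finset.mem_coe, mem_vars_iff_mem_support] at hy
    obtain ⟨d, hd, hyd⟩ := hy
    rw [Finsupp.mem_support_iff] at hyd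
    have h2 := monomial_le_degreeOf y hd
    rw [h1] at h2
    exact hyd (Nat.le_zero.1 h2)
  obtain ⟨N', hN'⟩ := exists_rename_eq_of_vars_subset_range N (Subtype.val : T → σ)
    Subtype.val_injective hv
  intro h0
  rw [← hN', aeval_rename] at h0
  have h1 : N' = 0 := h.eq_zero_of_aeval_eq_zero N' h0
  apply hN
  rw [← hN', h1, map_zero]

theorem ELL_ne_zero_at {R σ : Type*} [CommRing R] [DecidableEq σ] {Ω : Type*} [Field Ω]
    [IsAlgClosed Ω] [Algebra R Ω] (α : σ → MvPolynomial σ R) (l : List σ) (F : MvPolynomial σ R)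
    (s : σ → Ω) (Q : List σ → (σ → Ω) → Prop) (hs : Q [] s)
    (hstep : ∀ y l' s', (y :: l') <:+ l → Q l' s' → aeval s' (lcv y (α y)) ≠ 0 ∧
      ∀ r, aeval (Function.update s' y r) (α y) = 0 → Q (y :: l') (Function.update s' y r))
    (hF : ∀ s', Q l s' → aeval s' F ≠ 0) : aeval s (ELL α l F) ≠ 0 := by
  induction l generalizing F with
  | nil =>
    rw [ELL_nil]
    exact hF s hs
  | cons y l ih =>
    rw [ELL_cons]
    refine ih (El y (α y) F) (fun y' l' s' hsuf hQ => hstep y' l' s'
      (hsuf.trans (List.suffix_cons y l)) hQ) (fun s' hs' => ?_)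
    obtain ⟨h1, h2⟩ := hstep y l s' (List.suffix_refl _) hs'
    exact El_ne_zero_at y (α y) F s' h1 (fun r hr => hF _ (h2 r hr))

theorem El_zero_right {R σ : Type*} [CommRing R] [DecidableEq σ] (y : σ) (f : MvPolynomial σ R)
    (hf : f.degreeOf y ≠ 0) : El y f 0 = 0 := by
  unfold El
  rw [vw_zero, Polynomial.resultant_zero_right, zero_pow hf, zero_mul]

theorem ELL_zero {R σ : Type*} [CommRing R] [DecidableEq σ] (α : σ → MvPolynomial σ R)
    (l : List σ) (hα : ∀ y ∈ l, (α y).degreeOf y ≠ 0) : ELL α l 0 = 0 := by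
  induction l with
  | nil => rw [ELL_nil]
  | cons y l ih =>
    rw [ELL_cons, El_zero_right y (α y) (hα y List.mem_cons_self)]
    exact ih fun y' hy' => hα y' (List.mem_cons_of_mem _ hy')

theorem ELL_degreeOf_eq_zero {R σ : Type*} [CommRing R] [DecidableEq σ]
    (α : σ → MvPolynomial σ R) (l : List σ)
    (hl : l.Pairwise fun y y' => (α y').degreeOf y = 0) (F : MvPolynomial σ R) (t : σ)
    (ht : t ∈ l ∨ F.degreeOf t = 0 ∧ ∀ y ∈ l, (α y).degreeOf t = 0) :
    (ELL α l F).degreeOf t = 0 := by
  induction l generalizing F with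
  | nil =>
    rw [ELL_nil]
    rcases ht with ht | ht
    · exact absurd ht List.not_mem_nil
    · exact ht.1
  | cons y l ih =>
    rw [ELL_cons]
    rw [List.pairwise_cons] at hl
    refine ih hl.2 (El y (α y) F) ?_
    rcases ht with ht | ⟨hF, hα⟩
    · rcases List.mem_cons.1 ht with h | h
      · right
        rw [h]
        exact ⟨degreeOf_El_self y (α y) F, hl.1⟩
      · exact Or.inl h
    · right
      refine ⟨?_, fun y' hy' => hα y' (List.mem_cons_of_mem _ hy')⟩
      have h1 := degreeOf_El_le' y (α y) F t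
      rw [hF, hα y List.mem_cons_self, mul_zero, mul_zero, add_zero] at h1
      exact Nat.le_zero.1 h1

end Pool.Agent.Lib.MP_17a322_nt.VA
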