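import Pool.Agent.Lib.MP_17a322_nt.VA.Defs
import Pool.Agent.Lib.MP_17a322_nt.VA.A3b
import Pool.Agent.Lib.MP_17a322_nt.VA.Z2

/-!
Part E of VA: the coordinates of a point are algebraic over the Noether coordinates; points over
algebraically closed subfields.
-/

universe u

namespace Pool.Agent.Lib.MP_17a322_nt.VA

open MvPolynomial

section

variable {K : Type u} [Field K] {N : ℕ} {A : AV K N} {n e : ℕ} (nd : Noe A n e)

theorem lf_smulE (l : Fin (N + 1) → K) {R : Type*} [CommRing R] [Algebra K R] (c : R)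
    (y : Fin (N + 1) → R) : lf l (fun i => c * y i) = c * lf l y := by
  unfold lf
  rw [Finset.mul_sum]
  refine Finset.sum_congr rfl fun i _ => ?_
  ring

theorem lf_mapE (l : Fin (N + 1) → K) {R R' : Type*} [CommRing R] [Algebra K R] [CommRing R']
    [Algebra K R'] (φ : R →ₐ[K] R') (y : Fin (N + 1) → R) :
    lf l (fun i => φ (y i)) = φ (lf l y) := by
  unfold lf
  rw [map_sum]
  refine Finset.sum_congr rfl fun i _ => ?_
  rw [map_mul, AlgHom.commutes]

/-- The coordinates are algebraic over the Noether coordinates. -/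
theorem alg_of_nz {L : Type u} [Field L] [Algebra K L] (P : A.Pts L) (k : Fin (n + 1))
    (a : Fin (N + 1)) :
    IsAlgebraic (IntermediateField.adjoin K
      (Set.range fun i : Fin (n + 1) => lf (nd.l i) (A.x P) / lf (nd.l k) (A.x P)))
      (A.x P a / lf (nd.l k) (A.x P)) := by
  rw [Z_alg_iff]
  intro O hO'
  have hO : ∀ c : K, algebraMap K L c ∈ O := by
    intro c
    have h1 := hO' (algebraMap K _ c)
    rwa [← IsScalarTower.algebraMap_apply] at h1
  let _ : Algebra K O := ((algebraMap K L).codRestrict O.toSubring hO).toAlgebra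
  have : IsScalarTower K O L := IsScalarTower.of_algebraMap_eq fun _ => rfl
  let π : O →ₐ[K] IsLocalRing.ResidueField O := IsScalarTower.toAlgHom K O _
  obtain ⟨y, c, i₀, hc, hy, hyy⟩ := Z_normalise (R := O) (Z_x_ne A P)
  have hyp : A.IsPt y := Z_isPt_of_map A hc hyy
  have hmap : A.IsPt fun i => π (y i) := hyp.map π
  obtain ⟨p, hp⟩ := AV.exists_rep (A := A) (y := fun i => π (y i)) (fun h => by
    have h1 := congrFun h i₀
    simp only [hy, map_one, Pi.zero_apply] at h1
    exact one_ne_zero h1) hmap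
  obtain ⟨i, hi⟩ := nd.nz _ p
  obtain ⟨e', he', hpe⟩ := hp
  have h1 : lf (nd.l i) (A.x p) ≠ 0 := hi
  have h2 : π (lf (nd.l i) y) ≠ 0 := by
    have h3 : (fun i => π (y i)) = fun i => e' * A.x p i := funext hpe
    rw [← lf_mapE, h3, lf_smulE]
    exact mul_ne_zero he' h1
  have h5 : IsUnit (lf (nd.l i) y) := by
    by_contra h6
    exact h2 ((IsLocalRing.residue_eq_zero_iff _).2 ((IsLocalRing.mem_maximalIdeal _).2 h6))
  have h6 : O.valuation (algebraMap O L (lf (nd.l i) y)) = 1 := (O.valuation_eq_one_iff _).1 h5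
  have hl : ∀ k', lf (nd.l k') (A.x P) = c * algebraMap O L (lf (nd.l k') y) := by
    intro k'
    have h7 : A.x P = fun i => c * algebraMap O L (y i) := funext hyy
    rw [h7, lf_smulE]
    congr 1
    exact lf_mapE _ (IsScalarTower.toAlgHom K O L) y
  have h8 : lf (nd.l i) (A.x P) / lf (nd.l k) (A.x P) ∈ O := by
    have h9 := hO' ⟨_, IntermediateField.subset_adjoin K _ ⟨i, rfl⟩⟩
    exact h9
  rw [← O.valuation_le_one_iff] at h8 ⊢
  refine le_trans ?_ h8
  rw [map_div₀, map_div₀]
  refine div_le_div_of_nonneg_right ?_ zero_le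
  rw [hl i, hyy a, map_mul, map_mul, h6, mul_one]
  exact mul_le_of_le_one_right' (O.valuation_le_one _)

end

section

variable {K : Type u} [Field K] {N : ℕ} {A : AV K N} {n e : ℕ} (nd : Noe A n e)
  {Ω : Type u} [Field Ω] [Algebra K Ω]

/-- A point with representative in a subfield is the image of a point over the subfield. -/
theorem exists_subE (E : IntermediateField K Ω) {P : A.Pts Ω} {y : Fin (N + 1) → Ω}
    (hP : A.Rep P y) (hy : ∀ i, y i ∈ E) : ∃ P' : A.Pts E, A.img E.val P' = P := by
  have h1 : A.IsPt (fun i => (⟨y i, hy i⟩ : E)) :=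
    AV.IsPt.of_injective E.val E.val.injective hP.isPt
  obtain ⟨P', hP'⟩ := AV.exists_rep (A := A) (y := fun i => (⟨y i, hy i⟩ : E)) (fun h => by
    refine hP.ne_zero (funext fun i => ?_)
    have h2 := congrFun h i
    exact congrArg Subtype.val h2) h1
  refine ⟨P', ?_⟩
  have h3 := hP'.img E.val
  exact h3.unique hP

theorem mem_sub (E : IntermediateField K Ω) (P' : A.Pts E) {l : Fin (N + 1) → K}
    {y : Fin (N + 1) → Ω} (hP : A.Rep (A.img E.val P') y) (hl : lf l y = 1) (i : Fin (N + 1)) :
    y i ∈ E := by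
  obtain ⟨c, hc, h1⟩ := hP
  obtain ⟨c', hc', h2⟩ := A.img_rep E.val P'
  have h3 : ∀ i, y i = (c / c') * E.val (A.x P' i) := by
    intro i
    have h2' : E.val (A.x P' i) = c' * A.x (A.img E.val P') i := h2 i
    rw [h1, h2']
    field_simp
  have h4 : lf l y = (c / c') * E.val (lf l (A.x P')) := by
    rw [← lf_mapE, ← lf_smulE]
    congr 1
    funext i
    exact h3 i
  have h5 : c / c' = (E.val (lf l (A.x P')))⁻¹ := by
    refine eq_inv_of_mul_eq_one_left ?_
    rw [← h4, hl]
  rw [h3, h5, ← map_inv₀, ← map_mul]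
  exact ((lf l (A.x P'))⁻¹ * A.x P' i).2

/-- The algebraic closure of `K(S)` in `Ω`. -/
noncomputable def acl (K : Type u) [Field K] {Ω : Type u} [Field Ω] [Algebra K Ω] (S : Set Ω) :
    IntermediateField K Ω :=
  (algebraicClosure (IntermediateField.adjoin K S) Ω).restrictScalars K

theorem mem_acl {S : Set Ω} {z : Ω} :
    z ∈ acl K S ↔ IsAlgebraic (IntermediateField.adjoin K S) z := by
  unfold acl
  rw [IntermediateField.mem_restrictScalars]
  exact mem_algebraicClosure_iff

theorem subset_acl {S : Set Ω} {z : Ω} (h : z ∈ S) : z ∈ acl K S := by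
  rw [mem_acl]
  exact isAlgebraic_algebraMap (⟨z, IntermediateField.subset_adjoin K S h⟩ :
    IntermediateField.adjoin K S)

theorem acl_mono {S S' : Set Ω} (h : S ⊆ S') : acl K S ≤ acl K S' := by
  intro z hz
  rw [mem_acl] at hz ⊢
  have h1 : IntermediateField.adjoin K S ≤ IntermediateField.adjoin K S' :=
    IntermediateField.adjoin.mono K S S' h
  obtain ⟨p, hp, hp0⟩ := hz
  refine ⟨p.map (IntermediateField.inclusion h1).toRingHom, ?_, ?_⟩
  · rw [Ne, Polynomial.map_eq_zero_iff]
    · exact hp
    · exact (IntermediateField.inclusion h1).injective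
  · rw [Polynomial.aeval_def, Polynomial.eval₂_map]
    exact hp0

/-- Elements algebraic over `acl K S` are in `acl K S`. -/
theorem acl_acl {S S' : Set Ω} (h : S' ⊆ acl K S) {z : Ω} (hz : z ∈ acl K S') : z ∈ acl K S := by
  rw [mem_acl] at hz ⊢
  have h1 : ∀ x ∈ IntermediateField.adjoin K S',
      x ∈ algebraicClosure (IntermediateField.adjoin K S) Ω := by
    have h2 : IntermediateField.adjoin K S' ≤ acl K S := IntermediateField.adjoin_le_iff.2 h
    exact fun x hx => h2 hx
  have h3 : IsAlgebraic (algebraicClosure (IntermediateField.adjoin K S) Ω) z := by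
    obtain ⟨p, hp, hp0⟩ := hz
    let ι : IntermediateField.adjoin K S' →+* algebraicClosure (IntermediateField.adjoin K S) Ω :=
      { toFun := fun x => ⟨x.1, h1 x.1 x.2⟩
        map_one' := rfl
        map_mul' := fun _ _ => rfl
        map_zero' := rfl
        map_add' := fun _ _ => rfl }
    refine ⟨p.map ι, ?_, ?_⟩
    · rw [Ne, Polynomial.map_eq_zero_iff]
      · exact hp
      · exact ι.injective
    · rw [Polynomial.aeval_def, Polynomial.eval₂_map]
      exact hp0
  exact IsAlgebraic.restrictScalars _ h3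

end

end Pool.Agent.Lib.MP_17a322_nt.VA
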