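import Pool.Agent.Lib.MP_17a322_nt.VA.Defs
import Pool.Agent.Lib.MP_17a322_nt.VA.Mu
import Pool.Agent.Lib.MP_17a322_nt.VN.L1c

/-!
Definitions for part L of VA.

`D1 L τ`: series in `T` over the polynomials in the directions `u` (variables `τ`), `D2 L τ`: series in
`z` over `D1 L τ`; `n1`, `n2` their sizes. `A.col a y y'`: the vector `X a (P + P') * X _ (P - P')`.
-/

universe u

namespace Pool.Agent.Lib.MP_17a322_nt.VA

open MvPolynomial Height
open Pool.Agent.Lib.MP_17a322_nt.RO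
open Pool.Agent.Lib.MP_17a322_nt.VJ
open Pool.Agent.Lib.MP_17a322_nt.VN

/-- Series in `T` over the polynomials in the directions. -/
abbrev D1 (L : Type*) [Field L] (τ : Type*) := PowerSeries (MvPolynomial τ L)

/-- Series in `z` over `D1`. -/
abbrev D2 (L : Type*) [Field L] (τ : Type*) := PowerSeries (D1 L τ)

/-- The size of a series in `T` (radius `r`). -/
noncomputable def n1 {L : Type*} [Field L] {τ : Type*} (v : AbsoluteValue L ℝ) (r : ℝ) (s : ℕ)
    (f : D1 L τ) : ℝ :=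
  PA v (fun g : MvPolynomial τ L => NV v g) r s f

/-- The size of a series in `T` (radius `r`) and `z` (radius `κ`). -/
noncomputable def n2 {L : Type*} [Field L] {τ : Type*} (v : AbsoluteValue L ℝ) (r κ : ℝ)
    (s s' : ℕ) (f : D2 L τ) : ℝ :=
  PA v (fun g : D1 L τ => n1 v r s g) κ s' f

/-- The column `a` of the forms for the sum and the difference. -/
noncomputable def AV.col {K : Type u} [Field K] {N : ℕ} (A : AV K N) (a : Fin (N + 1))
    {R : Type*} [CommRing R] [Algebra K R] (y y' : Fin (N + 1) → R) : Fin (N + 1) → R :=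
  fun b => aeval (Sum.elim y y') (A.S a b)

/-- The row `b` of the forms for the sum and the difference. -/
noncomputable def AV.row {K : Type u} [Field K] {N : ℕ} (A : AV K N) (b : Fin (N + 1))
    {R : Type*} [CommRing R] [Algebra K R] (y y' : Fin (N + 1) → R) : Fin (N + 1) → R :=
  fun a => aeval (Sum.elim y y') (A.S a b)

/-- `max 1 |q t|`. -/
noncomputable def mq {L : Type*} [Field L] (v : AbsoluteValue L ℝ) {ι : Type*} [Fintype ι]
    (q : ι → L) : ℝ :=
  max 1 (⨆ t, v (q t))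

/-- Constants in `D2`. -/
noncomputable def c2 (L : Type*) [Field L] (τ : Type*) {ι : Type*} (M : ι → L) : ι → D2 L τ :=
  fun i => algebraMap L (D2 L τ) (M i)

/-- The coefficient of `z ^ k` is homogeneous of degree `k` in the directions of the block `i` (and
does not contain the other directions). -/
def HS {L : Type*} [Field L] {m n : ℕ} (i : Fin m) (f : D2 L (Fin m × Fin n)) : Prop :=
  ∀ (k l : ℕ) (w : Fin m × Fin n →₀ ℕ),
    MvPolynomial.coeff w (PowerSeries.coeff l (PowerSeries.coeff k f)) ≠ 0 →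
      (∀ p, p.1 ≠ i → w p = 0) ∧ ∑ a, w (i, a) = k

/-- The package for one point at one place. `y₀` are the affine coordinates of the point, `M` is a
vector of coordinates of `2 ^ j Q`, `q` are the Noether coordinates of the difference; `y` are the
affine coordinates of the translate of the path, `ξ` the Noether coordinates of its difference with
`2 ^ j Q`. `E`: size constant, `rho`: the radius of the path in the variable `T ^ w`. -/
def PKG {K : Type u} [Field K] {N : ℕ} {A : AV K N} {n e : ℕ} (nd : Noe A n e) (κ E : SC K)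
    {L : Type u} [Field L] [Algebra K L] {τ : Type*} (w : ℕ) (v : AbsoluteValue L ℝ)
    (y₀ M : Fin (N + 1) → L) (q : Fin n → L) (y : Fin (N + 1) → D2 L τ) (ξ : Fin n → D2 L τ)
    (rho : ℝ) : Prop :=
  ((∀ b, v (y₀ b) ≤ κ.k v) → ∀ r s : ℝ, 0 ≤ r → r ^ w * E.k v ≤ rho → 0 ≤ s → s * E.k v ≤ 1 →
    ∀ (b : Fin (N + 1)) (N₁ N₂ : ℕ), n2 v r s N₁ N₂ (y b) ≤ E.k v) ∧
  ∀ lam : ℝ, 0 ≤ lam → lam * (E.k v * mq v q) ≤ 1 → ∀ r : ℝ, 0 ≤ r → r ^ w ≤ lam * rho →
    (∀ (t : Fin n) (N₁ N₂ : ℕ), n2 v r lam N₁ N₂ (ξ t) ≤ E.k v * mq v q) ∧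
    ((∀ b, v (y₀ b) ≤ κ.k v) → ∃ (a : Fin (N + 1)) (d : D2 L τ),
      lf (nd.l 0) (A.col a y (c2 L τ M)) * d = 1 ∧
      (∀ t : Fin n, lf (nd.l t.succ) (A.col a y (c2 L τ M)) * d = ξ t) ∧
      ∀ N₁ N₂ : ℕ, n2 v r lam N₁ N₂ d ≤ E.k v * mq v q / vm v M ^ 2)

/-- The equations `q b` for the dependent coordinates `rr b` at the point `P`. -/
def IsEq {K : Type u} [Field K] {N : ℕ} {A : AV K N} {n e : ℕ} (nd : Noe A n e) {c : ℕ}
    (rr : Fin c → Fin n) (D : ℕ) (P : A.Pts K) (q : Fin c → MvPolynomial (Fin n) K) : Prop :=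
  ∀ b, (∀ b', b' ≠ b → (q b).degreeOf (rr b') = 0) ∧ (∀ a, (q b).degreeOf a ≤ D) ∧
    eval (nd.s P) (q b) = 0 ∧ eval (nd.s P) (pderiv (rr b) (q b)) ≠ 0

/-- The radius of the path. -/
noncomputable def rad {K : Type u} [Field K] {N : ℕ} {A : AV K N} {n e : ℕ} (nd : Noe A n e)
    {c : ℕ} (rr : Fin c → Fin n) (E : SC K) (c₀ : ℕ) (P : A.Pts K)
    (q : Fin c → MvPolynomial (Fin n) K) {L : Type u} [Field L] [Algebra K L]
    (v : AbsoluteValue L ℝ) : ℝ :=
  (v (algebraMap K L (eval (nd.s P) nd.δ)) /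
      (E.k v * mq v (fun b => algebraMap K L (nd.y P b)) ^ c₀)) ^ c₀ *
    ∏ b, (v (algebraMap K L (eval (nd.s P) (pderiv (rr b) (q b)))) /
      (NV v (MvPolynomial.map (algebraMap K L) (q b)) *
        (E.k v * mq v (fun b => algebraMap K L (nd.y P b)) ^ c₀))) ^ 2

end Pool.Agent.Lib.MP_17a322_nt.VA
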