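import Pool.Agent.Lib.MP_17a322_nt.VA.E00
import Pool.Agent.Lib.MP_17a322_nt.VA.E20
import Pool.Agent.Lib.MP_17a322_nt.VA.L0

/-!
Part E of VA: the elimination data of an abelian variety with a Noether normalisation.
-/

universe u

namespace Pool.Agent.Lib.MP_17a322_nt.VA

open MvPolynomial

/-- A polynomial over polynomials as a polynomial. -/
noncomputable def unp {K : Type*} [CommRing K] {n : ℕ}
    (P : Polynomial (MvPolynomial (Fin n) K)) : MvPolynomial (Option (Fin n)) K :=
  (optionEquivLeft K (Fin n)).symm P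

theorem aeval_unp {K : Type*} [CommRing K] {n : ℕ} (P : Polynomial (MvPolynomial (Fin n) K))
    {R : Type*} [CommRing R] [Algebra K R] (s : Option (Fin n) → R) :
    aeval s (unp P) = P.eval₂ (aeval (R := K) fun t : Fin n => s (some t)).toRingHom (s none) := by
  unfold unp
  obtain ⟨Q, rfl⟩ := (optionEquivLeft K (Fin n)).surjective P
  rw [AlgEquiv.symm_apply_apply]
  induction Q using MvPolynomial.induction_on with
  | C a =>
    rw [optionEquivLeft_C, Polynomial.eval₂_C, aeval_C]
    simp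
  | add p q hp hq => rw [map_add, map_add, Polynomial.eval₂_add, hp, hq]
  | mul_X p i hp =>
    rw [map_mul, map_mul, Polynomial.eval₂_mul, hp, aeval_X]
    congr 1
    cases i with
    | none => rw [optionEquivLeft_X_none, Polynomial.eval₂_X]
    | some t =>
      rw [optionEquivLeft_X_some, Polynomial.eval₂_C]
      simp

theorem degreeOf_none_unp {K : Type*} [CommRing K] {n : ℕ}
    (P : Polynomial (MvPolynomial (Fin n) K)) : (unp P).degreeOf none = P.natDegree := by
  unfold unp
  obtain ⟨Q, rfl⟩ := (optionEquivLeft K (Fin n)).surjective P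
  rw [AlgEquiv.symm_apply_apply, natDegree_optionEquivLeft]

section

variable {K : Type u} [Field K] {N : ℕ} {A : AV K N} {n e : ℕ} (nd : Noe A n e)

/-- The linear forms. -/
def Noe.lo : Option (Fin n) → Fin (N + 1) → K
  | none => nd.l 0
  | some t => nd.l t.succ

/-- The affine coordinates times `δ`. -/
noncomputable def Noe.pv (i : Fin (N + 1)) : MvPolynomial (Option (Fin n)) K :=
  unp (nd.p i)

/-- The Noether coordinates and the primitive element. -/
noncomputable def Noe.pO {R : Type u} [CommRing R] [Algebra K R] (y : Fin (N + 1) → R) :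
    Option (Fin n) → R
  | none => aeval y nd.θ
  | some t => lf (nd.l t.succ) y

/-- The elimination data. -/
noncomputable def Noe.ed : ED K n where
  f := unp nd.Φ
  b j o := ∑ a, C (nd.l 0 a) * lf (nd.lo o) (A.col a
    (fun i => rename (Sum.inr : Option (Fin n) → Option (Fin n) ⊕ Option (Fin n)) (nd.pv i))
    (A.mu j fun i =>
      rename (Sum.inl : Option (Fin n) → Option (Fin n) ⊕ Option (Fin n)) (nd.pv i)))

theorem AV.map_colE (a b : Fin (N + 1)) {R R' : Type*} [CommRing R] [Algebra K R] [CommRing R']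
    [Algebra K R'] (φ : R →ₐ[K] R') (y y' : Fin (N + 1) → R) :
    φ (A.col a y y' b) = A.col a (fun i => φ (y i)) (fun i => φ (y' i)) b := by
  unfold AV.col
  rw [← AlgHom.comp_apply, MvPolynomial.comp_aeval]
  congr 2
  funext s
  cases s <;> rfl

/-- The value of the forms `b`. -/
theorem Noe.aeval_b {R : Type*} [CommRing R] [Algebra K R] (a b : Option (Fin n) → R) (j : ℕ)
    (o : Option (Fin n)) :
    aeval (Sum.elim a b) (nd.ed.b j o) = ∑ a', algebraMap K R (nd.l 0 a') * lf (nd.lo o)
      (A.col a' (fun i => aeval b (nd.pv i)) (A.mu j fun i => aeval a (nd.pv i))) := by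
  show aeval (Sum.elim a b) (∑ a, C (nd.l 0 a) * lf (nd.lo o) (A.col a
    (fun i => rename (Sum.inr : Option (Fin n) → Option (Fin n) ⊕ Option (Fin n)) (nd.pv i))
    (A.mu j fun i =>
      rename (Sum.inl : Option (Fin n) → Option (Fin n) ⊕ Option (Fin n)) (nd.pv i)))) = _
  rw [map_sum]
  refine Finset.sum_congr rfl fun a' _ => ?_
  rw [map_mul, aeval_C, ← lf_mapE]
  congr 2
  funext c
  rw [AV.map_colE]
  have h1 : (fun i => aeval (Sum.elim a b)
      (rename (Sum.inr : Option (Fin n) → Option (Fin n) ⊕ Option (Fin n)) (nd.pv i))) =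
      fun i => aeval b (nd.pv i) := by
    funext i
    rw [aeval_rename]
    rfl
  have h2 : (fun i => aeval (Sum.elim a b) (A.mu j (fun i =>
      rename (Sum.inl : Option (Fin n) → Option (Fin n) ⊕ Option (Fin n)) (nd.pv i)) i)) =
      A.mu j fun i => aeval a (nd.pv i) := by
    funext i
    rw [AV.map_mu]
    congr 1
    funext i'
    rw [aeval_rename]
    rfl
  rw [h1, h2]

theorem Noe.aeval_f {R : Type u} [CommRing R] [Algebra K R] {y : Fin (N + 1) → R}
    (hy : A.IsPt y) (h1 : lf (nd.l 0) y = 1) : aeval (nd.pO y) nd.ed.f = 0 := by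
  show aeval (nd.pO y) (unp nd.Φ) = 0
  rw [aeval_unp]
  exact nd.Φ_zero R y hy h1

theorem Noe.aeval_pv {R : Type u} [CommRing R] [Algebra K R] {y : Fin (N + 1) → R}
    (hy : A.IsPt y) (h1 : lf (nd.l 0) y = 1) (i : Fin (N + 1)) :
    aeval (nd.pO y) (nd.pv i) = aeval (fun k : Fin n => lf (nd.l k.succ) y) nd.δ * y i := by
  rw [nd.p_eq R y hy h1 i]
  exact aeval_unp _ _

theorem AV.col_smulE (a b : Fin (N + 1)) {R : Type*} [CommRing R] [Algebra K R] (c c' : R)
    (y y' : Fin (N + 1) → R) :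
    A.col a (fun i => c * y i) (fun i => c' * y' i) b = c ^ 2 * c' ^ 2 * A.col a y y' b := by
  unfold AV.col
  exact A.S_smul a b c c' y y'

/-- The value of the forms `b` at two points. -/
theorem Noe.aeval_b_pO {R : Type u} [CommRing R] [Algebra K R] {y Y : Fin (N + 1) → R}
    (hy : A.IsPt y) (h1 : lf (nd.l 0) y = 1) (hY : A.IsPt Y) (h2 : lf (nd.l 0) Y = 1) (j : ℕ)
    (o : Option (Fin n)) :
    aeval (Sum.elim (nd.pO Y) (nd.pO y)) (nd.ed.b j o) =
      (aeval (fun k : Fin n => lf (nd.l k.succ) y) nd.δ) ^ 2 *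
        ((aeval (fun k : Fin n => lf (nd.l k.succ) Y) nd.δ) ^ 4 ^ j) ^ 2 *
        ∑ a', algebraMap K R (nd.l 0 a') * lf (nd.lo o) (A.col a' y (A.mu j Y)) := by
  rw [nd.aeval_b]
  have h3 : (fun i => aeval (nd.pO y) (nd.pv i)) =
      fun i => aeval (fun k : Fin n => lf (nd.l k.succ) y) nd.δ * y i :=
    funext fun i => nd.aeval_pv hy h1 i
  have h4 : (A.mu j fun i => aeval (nd.pO Y) (nd.pv i)) =
      fun i => (aeval (fun k : Fin n => lf (nd.l k.succ) Y) nd.δ) ^ 4 ^ j * A.mu j Y i := by
    have h5 : (fun i => aeval (nd.pO Y) (nd.pv i)) =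
        fun i => aeval (fun k : Fin n => lf (nd.l k.succ) Y) nd.δ * Y i :=
      funext fun i => nd.aeval_pv hY h2 i
    rw [h5]
    funext i
    exact A.mu_smul j _ Y i
  rw [h3, h4, Finset.mul_sum]
  refine Finset.sum_congr rfl fun a' _ => ?_
  have h6 : (A.col a' (fun i => aeval (fun k : Fin n => lf (nd.l k.succ) y) nd.δ * y i)
      fun i => (aeval (fun k : Fin n => lf (nd.l k.succ) Y) nd.δ) ^ 4 ^ j * A.mu j Y i) =
      fun b => ((aeval (fun k : Fin n => lf (nd.l k.succ) y) nd.δ) ^ 2 *
        ((aeval (fun k : Fin n => lf (nd.l k.succ) Y) nd.δ) ^ 4 ^ j) ^ 2) *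
          A.col a' y (A.mu j Y) b :=
    funext fun b => AV.col_smulE a' b _ _ _ _
  rw [h6, lf_smulE]
  ring

end

end Pool.Agent.Lib.MP_17a322_nt.VA
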