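import Pool.Agent.Lib.MP_17a322_nt.VA.E07
import Pool.Agent.Lib.MP_17a322_nt.VJ.J6
import Pool.Agent.Lib.MP_17a322_nt.VN.L2D4

/-!
Part E of VA: branches and one step of the chain.

JOB E11a: `hensel_unit`, `branch`, `lead_dvd`.
* `hensel_unit`: copy of `J6_hensel` (VJ/J6) for a commutative ring `D` instead of a field: `a = constantCoeff (f.coeff 1)` is a unit, use its inverse `b`, `a * b = 1`, in place of `a⁻¹`.
* `branch`: `G(Y) = h(S with S r replaced by C (constantCoeff (S r)) + Y)` as a polynomial in `Y` over `PowerSeries D`: `G = aeval (fun t => if t = r then Polynomial.C (C (constantCoeff (S r))) + Polynomial.X else Polynomial.C (S t)) h`. `G.coeff 0 = G.eval 0` has constant coefficient `aeval (constantCoeff ∘ S) h = 0`;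
  `G.coeff 1 = G.derivative.eval 0` has constant coefficient `aeval (constantCoeff ∘ S) (pderiv r h)` (chain rule for polynomials, compare `implicit_path` in VN/L1j or `coeff_one_aeval` in VN/L2D4: the coefficient of `Y` in `aeval f h`), a unit. `hensel_unit`: `U`, `σ = C (constantCoeff (S r)) + U`.
  Last statement: coefficient `1` of `aeval (Function.update S r σ) h = 0`: `coeff_one_aeval` (VN/L2D4): `0 = ∑ t, aeval (coeff 0 ∘ update S r σ) (pderiv t h) * coeff 1 (update S r σ t)`, `coeff 0` of `update S r σ` is `coeff 0 ∘ S`.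
* `lead_dvd`: `Q = P * P'`, `P ≠ 0`, `P' ≠ 0`. `ρ` = order of `P` (`L2D1_order` in VN/L2D1, or `Nat.find`), `ρ'` = order of `P'`: the coefficients of `Q` below `ρ + ρ'` vanish and `coeff (ρ + ρ') Q = coeff ρ P * coeff ρ' P' ≠ 0`; so `ρ + ρ' = R`.

JOB E11b: `step_W`.
PROOF. Let `B' = MvPolynomial (Fin m × Fin n) B`, `P = PowerSeries B'`, `ι = PowerSeries.map C : PowerSeries B → P`. For `r ∉ J` let `σ r` be the branch of `branch` for `h i r`, `fun t => S t` (constants as in `h0`, `h1`). Let `pt : VE m n → P`: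
 `x t ↦ C (C (x t))`, `q ↦ C (C θ)`, `w i' ↦ ι w` for `i' = i` (else `0`), `S (i', t) ↦` for `i' = i`: `ι (S t)` if `t ∈ J`, `ι (σ t)` if `t ∉ J`; for `i' ≠ i`: `C (C (s (i', t)))`, `v (i', t) ↦` for `i' = i`, `t ∉ J`: `ι (S t - σ t)`, otherwise `C (C (τ (i', t)))`, `z (i', t) ↦ ι (ξ t)` for `i' = i`, `C (X (i', t))` otherwise.
 (1) `Sh J i pt` has `S (i, t) ↦ ι (S t)` for all `t`. So the relations of `dvd_ME` (E07) hold: `fQ`: image of `hQ`; `fP`, `al`: images of `hP`, `hξ` under `ι` (`aeval_fP`, `aeval_al`, `aeval_bb` in E03; `map_aeval`); `h i r` at `fun t => pt (S (i, t))`: it contains only `S (i, t)`, `t ∈ J`, and `S (i, r)`, so its value is the image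
     of `aeval (Function.update S r (σ r)) (h i r) = 0` (`aeval_congr_of_degreeOf`, VN/L2D0, or reprove).
 (2) `aeval pt N = PsS ξ i (aeval (np x s τ) N)`: `N` (in which only the variables with `Oc J i` occur) contains no `q`, `w`, and no `S (i, _)`, `v (i, _)`; on the variables `x`, `z`, `S (i', _)`, `v (i', _)`, `i' ≠ i`, the values are equal (compare `aeval_dp_eq_Psi`, VN/L2D3).
 (3) `M = ME E j h J i N`: `coeff_aeval_lw` (E06) for `M`, `R` and `pt` (`constantCoeff (pt (v (i, t))) = 0` for `t ∉ J`; for `t ∈ J` the value `pt (v (i, t))` plays no role, change it to `0`: `M` does not contain it if `N` does not (`degreeOf_ME_eq_zero`); so better define `pt (v (i, t)) = 0` for `t ∈ J`):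
     `coeff k (aeval pt M) = 0` for `k < R`, `coeff R (aeval pt M) = aeval s₀ (lw i R M)` with `s₀ = constantCoeff ∘ pt` except `s₀ (v (i, t)) = coeff 1 (pt (v (i, t))) = C (coeff 1 (S t - σ t)) = C (τ (i, t))`: `aeval s (pderiv r (h i r)) * (coeff 1 (S r) - coeff 1 (σ r)) = ∑ .. = aeval s (pderiv r (h i r)) * τ (i, r)`, cancel the unit.
     `N' = lw i R M` contains only variables with `Oc J (i + 1)`; there `s₀ = np x s τ`. So `coeff R (aeval pt M) = aeval (np x s τ) N' = n'`.
 (4) `F ∣ n := aeval (np x s τ) N`: `PsS ξ i F ∣ PsS ξ i n = aeval pt N ∣ aeval pt M` (`dvd_ME`), `lead_dvd`. (`P` is a domain.) And `n ≠ 0`: otherwise `aeval pt M` is divisible by `0`, but `coeff R ≠ 0`.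
-/

universe u

namespace Pool.Agent.Lib.MP_17a322_nt.VA

open MvPolynomial Height
open Pool.Agent.Lib.MP_17a322_nt.VJ
open Pool.Agent.Lib.MP_17a322_nt.VN

private theorem e11a_sub {D : Type*} [CommRing D] (f : Polynomial (PowerSeries D))
    (U V : PowerSeries D)
    (hU : PowerSeries.constantCoeff U = 0) (hV : PowerSeries.constantCoeff V = 0) :
    ∃ w : PowerSeries D, f.eval U - f.eval V = (U - V) * w ∧
      PowerSeries.constantCoeff w = PowerSeries.constantCoeff (f.coeff 1) := by
  have h1 : ∀ Z : PowerSeries D, f.eval Z = f.coeff 0 + Z * (f.coeff 1 + Z * f.divX.divX.eval Z) := by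
    intro Z
    have e1 := congrArg (Polynomial.eval Z) (Polynomial.divX_mul_X_add f)
    have e2 := congrArg (Polynomial.eval Z) (Polynomial.divX_mul_X_add f.divX)
    simp only [Polynomial.eval_add, Polynomial.eval_mul, Polynomial.eval_X, Polynomial.eval_C,
      Polynomial.coeff_divX] at e1 e2
    rw [← e1, ← e2]
    ring
  obtain ⟨z, hz⟩ := Polynomial.sub_dvd_eval_sub U V f.divX.divX
  refine ⟨f.coeff 1 + (U + V) * f.divX.divX.eval U + V ^ 2 * z, ?_, ?_⟩
  · rw [h1 U, h1 V]
    have : f.divX.divX.eval U = f.divX.divX.eval V + (U - V) * z := by rw [← hz]; ring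
    rw [this]
    ring
  · simp [hU, hV]

private theorem e11a_eq_zero {D : Type*} [CommRing D] (f : PowerSeries D)
    (h : ∀ n : ℕ, (PowerSeries.X : PowerSeries D) ^ (n + 1) ∣ f) : f = 0 := by
  ext k
  rw [map_zero]
  exact PowerSeries.X_pow_dvd_iff.mp (h k) k (Nat.lt_succ_self k)

theorem hensel_unit {D : Type*} [CommRing D] (f : Polynomial (PowerSeries D))
    (h0 : PowerSeries.constantCoeff (f.coeff 0) = 0)
    (h1 : IsUnit (PowerSeries.constantCoeff (f.coeff 1))) :
    ∃ U : PowerSeries D, PowerSeries.constantCoeff U = 0 ∧ f.eval U = 0 := by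
  obtain ⟨b, hb⟩ := h1.exists_right_inv
  set a : D := PowerSeries.constantCoeff (f.coeff 1) with ha
  have hb' : b * a = 1 := by rw [mul_comm]; exact hb
  have hc : ∀ Z : PowerSeries D, PowerSeries.constantCoeff Z = 0 →
      PowerSeries.constantCoeff (f.eval Z) = 0 := by
    intro Z hZ
    have e1 := congrArg (Polynomial.eval Z) (Polynomial.divX_mul_X_add f)
    simp only [Polynomial.eval_add, Polynomial.eval_mul, Polynomial.eval_X, Polynomial.eval_C] at e1
    rw [← e1]
    simp [hZ, h0]
  let Φ : PowerSeries D → PowerSeries D := fun Z => Z - PowerSeries.C b * f.eval Z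
  have hΦ0 : ∀ Z : PowerSeries D, PowerSeries.constantCoeff Z = 0 →
      PowerSeries.constantCoeff (Φ Z) = 0 := by
    intro Z hZ
    simp [Φ, hZ, hc Z hZ]
  have hΦ : ∀ U V : PowerSeries D, PowerSeries.constantCoeff U = 0 →
      PowerSeries.constantCoeff V = 0 → ∀ n : ℕ, (PowerSeries.X : PowerSeries D) ^ n ∣ U - V →
      (PowerSeries.X : PowerSeries D) ^ (n + 1) ∣ Φ U - Φ V := by
    intro U V hU hV n hn
    obtain ⟨w, hw, hw1⟩ := e11a_sub f U V hU hV
    have e : Φ U - Φ V = (U - V) * (1 - PowerSeries.C b * w) := by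
      simp only [Φ]
      linear_combination (-PowerSeries.C b) * hw
    rw [e, pow_succ]
    apply mul_dvd_mul hn
    rw [PowerSeries.X_dvd_iff]
    simp [hw1, ← ha, hb']
  let u : ℕ → PowerSeries D := fun n => Φ^[n] 0
  have hu1 : ∀ n, u (n + 1) = Φ (u n) := fun n => Function.iterate_succ_apply' _ _ _
  have hu0 : ∀ n, PowerSeries.constantCoeff (u n) = 0 := by
    intro n
    induction n with
    | zero => simp [u]
    | succ n ih => rw [hu1]; exact hΦ0 _ ih
  have hd : ∀ n, (PowerSeries.X : PowerSeries D) ^ (n + 1) ∣ u (n + 1) - u n := by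
    intro n
    induction n with
    | zero =>
      rw [zero_add, pow_one, PowerSeries.X_dvd_iff]
      simp [hu0]
    | succ n ih =>
      rw [hu1 (n + 1), hu1 n]
      rw [hu1 n] at ih
      exact hΦ _ _ (hΦ0 _ (hu0 n)) (hu0 n) (n + 1) ih
  have hst : ∀ k n, k ≤ n → PowerSeries.coeff k (u n) = PowerSeries.coeff k (u k) := by
    intro k n hkn
    induction n, hkn using Nat.le_induction with
    | base => rfl
    | succ n hn ih =>
      have := PowerSeries.X_pow_dvd_iff.mp (hd n) k (by omega)
      rw [map_sub, sub_eq_zero] at this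
      rw [this, ih]
  let U : PowerSeries D := PowerSeries.mk fun k => PowerSeries.coeff k (u k)
  have hUu : ∀ n, (PowerSeries.X : PowerSeries D) ^ (n + 1) ∣ U - u n := by
    intro n
    rw [PowerSeries.X_pow_dvd_iff]
    intro k hk
    rw [map_sub, PowerSeries.coeff_mk, hst k n (by omega), sub_self]
  have hU0 : PowerSeries.constantCoeff U = 0 := by
    rw [← PowerSeries.coeff_zero_eq_constantCoeff_apply, PowerSeries.coeff_mk,
      PowerSeries.coeff_zero_eq_constantCoeff_apply]
    exact hu0 0
  refine ⟨U, hU0, e11a_eq_zero _ fun n => ?_⟩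
  obtain ⟨w, hw, -⟩ := e11a_sub f U (u n) hU0 (hu0 n)
  have h2 : f.eval (u n) = PowerSeries.C a * (u n - u (n + 1)) := by
    rw [hu1]
    simp only [Φ]
    have : PowerSeries.C a * PowerSeries.C b = (1 : PowerSeries D) := by
      rw [← map_mul, hb, map_one]
    linear_combination (-(f.eval (u n))) * this
  have h3 : f.eval U = (U - u n) * w + PowerSeries.C a * (u n - u (n + 1)) := by
    rw [← h2, ← hw]; ring
  rw [h3]
  apply dvd_add
  · exact Dvd.dvd.mul_right (hUu n) w
  · apply Dvd.dvd.mul_left
    rw [← neg_sub]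
    exact (dvd_neg.mpr (hd n))

private theorem e11a_map {K A B σ : Type*} [CommRing K] [CommRing A] [CommRing B] [Algebra K A]
    [Algebra K B] (Ψ : A →+* B) (hΨ : ∀ a, Ψ (algebraMap K A a) = algebraMap K B a)
    (f : σ → A) (h : MvPolynomial σ K) : Ψ (aeval f h) = aeval (fun t => Ψ (f t)) h := by
  induction h using MvPolynomial.induction_on with
  | C a => rw [aeval_C, aeval_C, hΨ]
  | add p q hp hq => rw [map_add, map_add, map_add, hp, hq]
  | mul_X p i hp => rw [map_mul, map_mul, map_mul, hp, aeval_X, aeval_X]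

theorem branch {K D : Type*} [Field K] [CommRing D] [Algebra K D] {n : ℕ}
    (h : MvPolynomial (Fin n) K) (r : Fin n) (S : Fin n → PowerSeries D)
    (h0 : aeval (fun t => PowerSeries.constantCoeff (S t)) h = 0)
    (h1 : IsUnit (aeval (fun t => PowerSeries.constantCoeff (S t)) (pderiv r h))) :
    ∃ σ : PowerSeries D, PowerSeries.constantCoeff σ = PowerSeries.constantCoeff (S r) ∧
      aeval (Function.update S r σ) h = 0 ∧
      aeval (fun t => PowerSeries.constantCoeff (S t)) (pderiv r h) *
          (PowerSeries.coeff 1 (S r) - PowerSeries.coeff 1 σ) =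
        ∑ t, aeval (fun t => PowerSeries.constantCoeff (S t)) (pderiv t h) *
          PowerSeries.coeff 1 (S t) := by
  classical
  set c : D := PowerSeries.constantCoeff (S r) with hc
  let f : Fin n → Polynomial (PowerSeries D) := fun t =>
    if t = r then Polynomial.C (PowerSeries.C c) + Polynomial.X else Polynomial.C (S t)
  let G : Polynomial (PowerSeries D) := aeval f h
  let Ψ : Polynomial (PowerSeries D) →+* PowerSeries D :=
    Polynomial.coeToPowerSeries.ringHom.comp
      (Polynomial.mapRingHom (PowerSeries.constantCoeff (R := D)))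
  have hΨc : ∀ (g : Polynomial (PowerSeries D)) (k : ℕ),
      PowerSeries.coeff k (Ψ g) = PowerSeries.constantCoeff (g.coeff k) := by
    intro g k
    change PowerSeries.coeff k ((Polynomial.map PowerSeries.constantCoeff g : Polynomial D) :
      PowerSeries D) = _
    rw [Polynomial.coeff_coe, Polynomial.coeff_map]
  have hΨC : ∀ g : PowerSeries D, Ψ (Polynomial.C g) =
      PowerSeries.C (PowerSeries.constantCoeff g) := by
    intro g
    change ((Polynomial.map PowerSeries.constantCoeff (Polynomial.C g) : Polynomial D) :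
      PowerSeries D) = _
    rw [Polynomial.map_C, Polynomial.coe_C]
  have hΨX : Ψ Polynomial.X = PowerSeries.X := by
    change ((Polynomial.map PowerSeries.constantCoeff Polynomial.X : Polynomial D) :
      PowerSeries D) = _
    rw [Polynomial.map_X, Polynomial.coe_X]
  have hΨa : ∀ a : K, Ψ (algebraMap K (Polynomial (PowerSeries D)) a) =
      algebraMap K (PowerSeries D) a := by
    intro a
    rw [IsScalarTower.algebraMap_apply K (PowerSeries D) (Polynomial (PowerSeries D)),
      Polynomial.algebraMap_eq, hΨC, PowerSeries.algebraMap_apply, PowerSeries.constantCoeff_C]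
  have hΨG : Ψ G = aeval (fun t => Ψ (f t)) h := e11a_map Ψ hΨa f h
  have hf0 : ∀ t, PowerSeries.coeff 0 (Ψ (f t)) = PowerSeries.constantCoeff (S t) := by
    intro t
    by_cases ht : t = r
    · simp only [f, if_pos ht]
      rw [map_add, hΨC, hΨX, map_add, PowerSeries.constantCoeff_C, PowerSeries.coeff_zero_C,
        PowerSeries.coeff_zero_X, add_zero, ht]
    · simp only [f, if_neg ht]
      rw [hΨC, PowerSeries.coeff_zero_C]
  have hf1 : ∀ t, PowerSeries.coeff 1 (Ψ (f t)) = if t = r then 1 else 0 := by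
    intro t
    by_cases ht : t = r
    · simp only [f, if_pos ht]
      rw [map_add, hΨC, hΨX, map_add, PowerSeries.coeff_C, if_neg one_ne_zero,
        PowerSeries.coeff_one_X, zero_add]
    · simp only [f, if_neg ht]
      rw [hΨC, PowerSeries.coeff_C, if_neg one_ne_zero]
  have hG0 : PowerSeries.constantCoeff (G.coeff 0) = 0 := by
    rw [← hΨc, hΨG, coeff_zero_aeval]
    simp only [hf0]
    exact h0
  have hG1 : PowerSeries.constantCoeff (G.coeff 1) =
      aeval (fun t => PowerSeries.constantCoeff (S t)) (pderiv r h) := by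
    rw [← hΨc, hΨG, coeff_one_aeval]
    simp only [hf0, hf1]
    rw [Finset.sum_eq_single r]
    · rw [if_pos rfl, mul_one]
    · intro t _ ht
      rw [if_neg ht, mul_zero]
    · intro hr
      exact absurd (Finset.mem_univ r) hr
  obtain ⟨U, hU0, hU⟩ := hensel_unit G hG0 (by rw [hG1]; exact h1)
  have hev : aeval (Function.update S r (PowerSeries.C c + U)) h = 0 := by
    have e1 := e11a_map (Polynomial.evalRingHom U) (fun a : K => by
      rw [IsScalarTower.algebraMap_apply K (PowerSeries D) (Polynomial (PowerSeries D)),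
        Polynomial.algebraMap_eq, Polynomial.coe_evalRingHom, Polynomial.eval_C]) f h
    have e2 : (fun t => Polynomial.evalRingHom U (f t)) =
        Function.update S r (PowerSeries.C c + U) := by
      funext t
      by_cases ht : t = r
      · subst ht
        simp only [f, if_pos, Function.update_self, Polynomial.coe_evalRingHom,
          Polynomial.eval_add, Polynomial.eval_C, Polynomial.eval_X]
      · rw [Function.update_of_ne ht]
        simp only [f, if_neg ht, Polynomial.coe_evalRingHom, Polynomial.eval_C]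
    rw [e2] at e1
    rw [← e1]
    exact hU
  have hσ0 : PowerSeries.constantCoeff (PowerSeries.C c + U) = c := by
    rw [map_add, PowerSeries.constantCoeff_C, hU0, add_zero]
  refine ⟨PowerSeries.C c + U, hσ0, hev, ?_⟩
  have e3 := coeff_one_aeval (Function.update S r (PowerSeries.C c + U)) h
  rw [hev, map_zero] at e3
  have e4 : (fun t => PowerSeries.coeff 0 (Function.update S r (PowerSeries.C c + U) t)) =
      fun t => PowerSeries.constantCoeff (S t) := by
    funext t
    rw [PowerSeries.coeff_zero_eq_constantCoeff_apply]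
    by_cases ht : t = r
    · subst ht
      rw [Function.update_self, hσ0]
    · rw [Function.update_of_ne ht]
  simp only [e4] at e3
  have e5 : ∑ t, aeval (fun t => PowerSeries.constantCoeff (S t)) (pderiv t h) *
        PowerSeries.coeff 1 (Function.update S r (PowerSeries.C c + U) t) =
      ∑ t, aeval (fun t => PowerSeries.constantCoeff (S t)) (pderiv t h) *
          PowerSeries.coeff 1 (S t) -
        aeval (fun t => PowerSeries.constantCoeff (S t)) (pderiv r h) *
          (PowerSeries.coeff 1 (S r) - PowerSeries.coeff 1 (PowerSeries.C c + U)) := by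
    rw [← Finset.add_sum_erase _ _ (Finset.mem_univ r),
      ← Finset.add_sum_erase (a := r) (f := fun t =>
        aeval (fun t => PowerSeries.constantCoeff (S t)) (pderiv t h) *
          PowerSeries.coeff 1 (S t)) _ (Finset.mem_univ r)]
    have e6 : ∑ t ∈ Finset.univ.erase r,
        aeval (fun t => PowerSeries.constantCoeff (S t)) (pderiv t h) *
          PowerSeries.coeff 1 (Function.update S r (PowerSeries.C c + U) t) =
        ∑ t ∈ Finset.univ.erase r,
          aeval (fun t => PowerSeries.constantCoeff (S t)) (pderiv t h) *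
            PowerSeries.coeff 1 (S t) := by
      refine Finset.sum_congr rfl fun t ht => ?_
      rw [Function.update_of_ne (Finset.ne_of_mem_erase ht)]
    rw [e6, Function.update_self]
    ring
  rw [e5] at e3
  linear_combination e3

theorem lead_dvd {B : Type*} [CommRing B] [IsDomain B] (P Q : PowerSeries B) (h : P ∣ Q) (R : ℕ)
    (hR : PowerSeries.coeff R Q ≠ 0) (h0 : ∀ k < R, PowerSeries.coeff k Q = 0) :
    ∃ ρ ≤ R, (∀ k < ρ, PowerSeries.coeff k P = 0) ∧ PowerSeries.coeff ρ P ≠ 0 ∧
      PowerSeries.coeff ρ P ∣ PowerSeries.coeff R Q := by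
  classical
  obtain ⟨P', rfl⟩ := h
  have hP : ∃ k, PowerSeries.coeff k P ≠ 0 := by
    by_contra hcon
    push Not at hcon
    apply hR
    have : P = 0 := PowerSeries.ext fun k => by rw [hcon k, map_zero]
    rw [this, zero_mul, map_zero]
  have hP' : ∃ k, PowerSeries.coeff k P' ≠ 0 := by
    by_contra hcon
    push Not at hcon
    apply hR
    have : P' = 0 := PowerSeries.ext fun k => by rw [hcon k, map_zero]
    rw [this, mul_zero, map_zero]
  have hρ := Nat.find_spec hP
  have hρm : ∀ k < Nat.find hP, PowerSeries.coeff k P = 0 := fun k hk => by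
    by_contra hk'
    exact Nat.find_min hP hk hk'
  have hρ' := Nat.find_spec hP'
  have hρm' : ∀ k < Nat.find hP', PowerSeries.coeff k P' = 0 := fun k hk => by
    by_contra hk'
    exact Nat.find_min hP' hk hk'
  set ρ := Nat.find hP with hρdef
  set ρ' := Nat.find hP' with hρdef'
  have hlow : ∀ k < ρ + ρ', PowerSeries.coeff k (P * P') = 0 := by
    intro k hk
    rw [PowerSeries.coeff_mul]
    refine Finset.sum_eq_zero fun x hx => ?_
    rw [Finset.HasAntidiagonal.mem_antidiagonal] at hx
    by_cases h1 : x.1 < ρ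
    · rw [hρm _ h1, zero_mul]
    · rw [hρm' x.2 (by omega), mul_zero]
  have htop : PowerSeries.coeff (ρ + ρ') (P * P') =
      PowerSeries.coeff ρ P * PowerSeries.coeff ρ' P' := by
    rw [PowerSeries.coeff_mul, Finset.sum_eq_single (ρ, ρ')]
    · intro x hx hne
      rw [Finset.HasAntidiagonal.mem_antidiagonal] at hx
      by_cases h1 : x.1 < ρ
      · rw [hρm _ h1, zero_mul]
      · by_cases h2 : x.2 < ρ'
        · rw [hρm' _ h2, mul_zero]
        · exact absurd (Prod.ext (by dsimp only; omega) (by dsimp only; omega)) hne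
    · intro hx
      exact absurd (Finset.HasAntidiagonal.mem_antidiagonal.2
        (show ρ + ρ' = ρ + ρ' from rfl)) hx
  have hRe : R = ρ + ρ' := by
    rcases lt_trichotomy R (ρ + ρ') with h1 | h1 | h1
    · exact absurd (hlow R h1) hR
    · exact h1
    · exfalso
      have h2 := h0 _ h1
      rw [htop] at h2
      rcases mul_eq_zero.1 h2 with h3 | h3
      · exact hρ h3
      · exact hρ' h3
  exact ⟨ρ, by omega, hρm, hρ, by rw [hRe, htop]; exact Dvd.intro _ rfl⟩

/-- The substitution of the series `ξ (i, t)` for the variables of the block `i`. -/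
noncomputable def PsS {B : Type*} [CommRing B] {m n : ℕ} (ξ : Fin m × Fin n → PowerSeries B)
    (i : Fin m) : MvPolynomial (Fin m × Fin n) B →+*
      PowerSeries (MvPolynomial (Fin m × Fin n) B) :=
  eval₂Hom ((PowerSeries.C (R := MvPolynomial (Fin m × Fin n) B)).comp C) fun p =>
    if p.1 = i then PowerSeries.map C (ξ p) else PowerSeries.C (X p)

/-- The values of the variables in the rings `MvPolynomial (Fin m × Fin n) B`. -/
noncomputable def np {B : Type*} [CommRing B] {m n : ℕ} (x : Fin n → B)
    (s τ : Fin m × Fin n → B) : VE m n → MvPolynomial (Fin m × Fin n) B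
  | VE.x t => C (x t)
  | VE.q => 0
  | VE.S p => C (s p)
  | VE.w _ => 0
  | VE.z p => X p
  | VE.v p => C (τ p)

section

variable {K : Type*} [Field K] {B : Type*} [CommRing B] [Algebra K B] {m n : ℕ}

private theorem e11b_comp {R σ A A' : Type*} [CommRing R] [CommRing A] [CommRing A'] [Algebra R A]
    [Algebra R A'] (φ : A →ₐ[R] A') (f : σ → A) (p : MvPolynomial σ R) :
    φ (aeval f p) = aeval (fun t => φ (f t)) p :=
  comp_aeval_apply (φ := φ) f p

private theorem e11b_alg (a : K) :
    algebraMap K (PowerSeries (MvPolynomial (Fin m × Fin n) B)) a =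
      PowerSeries.C (C (algebraMap K B a)) := by
  rw [PowerSeries.algebraMap_apply, MvPolynomial.algebraMap_apply]

private theorem e11b_PsS_C (ξ : Fin m × Fin n → PowerSeries B) (i : Fin m) (a : B) :
    PsS ξ i (C a) = PowerSeries.C (C a) := by
  unfold PsS
  rw [eval₂Hom_C]
  rfl

private theorem e11b_PsS_X (ξ : Fin m × Fin n → PowerSeries B) (i : Fin m) (p : Fin m × Fin n) :
    PsS ξ i (X p) = if p.1 = i then PowerSeries.map C (ξ p) else PowerSeries.C (X p) := by
  unfold PsS
  rw [eval₂Hom_X']

/-- `PsS` as a homomorphism of algebras -/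
private noncomputable def e11b_PsA (K : Type*) [Field K] [Algebra K B]
    (ξ : Fin m × Fin n → PowerSeries B) (i : Fin m) :
    MvPolynomial (Fin m × Fin n) B →ₐ[K] PowerSeries (MvPolynomial (Fin m × Fin n) B) :=
  { PsS ξ i with
    commutes' := fun a => by
      change PsS ξ i (algebraMap K (MvPolynomial (Fin m × Fin n) B) a) = _
      rw [e11b_alg, MvPolynomial.algebraMap_apply, e11b_PsS_C] }

/-- the inclusion of the constants as a homomorphism of algebras -/
private noncomputable def e11b_CA (K : Type*) [Field K] [Algebra K B] (m n : ℕ) :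
    B →ₐ[K] PowerSeries (MvPolynomial (Fin m × Fin n) B) :=
  { (PowerSeries.C (R := MvPolynomial (Fin m × Fin n) B)).comp
      (C : B →+* MvPolynomial (Fin m × Fin n) B) with
    commutes' := fun a => by
      change PowerSeries.C (C (algebraMap K B a)) = _
      rw [e11b_alg] }

private theorem e11b_CA_apply (K : Type*) [Field K] [Algebra K B] (m n : ℕ) (a : B) :
    e11b_CA K m n a = PowerSeries.C (C a) := rfl

/-- the inclusion of the series as a homomorphism of algebras -/
private noncomputable def e11b_iA (K : Type*) [Field K] [Algebra K B] (m n : ℕ) :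
    PowerSeries B →ₐ[K] PowerSeries (MvPolynomial (Fin m × Fin n) B) :=
  { PowerSeries.map (C : B →+* MvPolynomial (Fin m × Fin n) B) with
    commutes' := fun a => by
      change PowerSeries.map (C : B →+* MvPolynomial (Fin m × Fin n) B)
        (algebraMap K (PowerSeries B) a) = _
      rw [e11b_alg, PowerSeries.algebraMap_apply, PowerSeries.map_C] }

private theorem e11b_iA_apply (K : Type*) [Field K] [Algebra K B] (m n : ℕ) (a : PowerSeries B) :
    e11b_iA K m n a = PowerSeries.map (C : B →+* MvPolynomial (Fin m × Fin n) B) a := rfl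

/-- The point in the proof of `step_W`. -/
private noncomputable def e11b_pt (J : Finset (Fin n)) (i : Fin m) (x : Fin n → B) (θ : B)
    (s τ : Fin m × Fin n → B) (S σ : Fin n → PowerSeries B) (w : PowerSeries B)
    (ξ : Fin m × Fin n → PowerSeries B) :
    VE m n → PowerSeries (MvPolynomial (Fin m × Fin n) B)
  | VE.x t => PowerSeries.C (C (x t))
  | VE.q => PowerSeries.C (C θ)
  | VE.S p => if p.1 = i then (if p.2 ∈ J then PowerSeries.map C (S p.2) else
      PowerSeries.map C (σ p.2)) else PowerSeries.C (C (s p))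
  | VE.w i' => if i' = i then PowerSeries.map C w else 0
  | VE.z p => if p.1 = i then PowerSeries.map C (ξ p) else PowerSeries.C (X p)
  | VE.v p => if p.1 = i then (if p.2 ∈ J then 0 else PowerSeries.map C (S p.2 - σ p.2)) else
      PowerSeries.C (C (τ p))

private theorem e11b_Sh_S (J : Finset (Fin n)) (i : Fin m) (x : Fin n → B) (θ : B)
    (s τ : Fin m × Fin n → B) (S σ : Fin n → PowerSeries B) (w : PowerSeries B)
    (ξ : Fin m × Fin n → PowerSeries B) (t : Fin n) :
    Sh J i (e11b_pt J i x θ s τ S σ w ξ) (VE.S (i, t)) =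
      PowerSeries.map (C : B →+* MvPolynomial (Fin m × Fin n) B) (S t) := by
  show (if i = i ∧ t ∉ J then e11b_pt J i x θ s τ S σ w ξ (VE.S (i, t)) +
    e11b_pt J i x θ s τ S σ w ξ (VE.v (i, t)) else e11b_pt J i x θ s τ S σ w ξ (VE.S (i, t))) = _
  have h1 : e11b_pt J i x θ s τ S σ w ξ (VE.S (i, t)) =
      (if t ∈ J then PowerSeries.map (C : B →+* MvPolynomial (Fin m × Fin n) B) (S t) else
      PowerSeries.map C (σ t)) := by
    show (if i = i then _ else _) = _
    rw [if_pos rfl]
  have h2 : e11b_pt J i x θ s τ S σ w ξ (VE.v (i, t)) =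
      (if t ∈ J then 0 else
        PowerSeries.map (C : B →+* MvPolynomial (Fin m × Fin n) B) (S t - σ t)) := by
    show (if i = i then _ else _) = _
    rw [if_pos rfl]
  rw [h1, h2]
  by_cases ht : t ∈ J
  · rw [if_neg (fun h => h.2 ht), if_pos ht]
  · rw [if_pos ⟨rfl, ht⟩, if_neg ht, if_neg ht, ← map_add]
    congr 1
    ring

/-- the relations at the point -/
private theorem e11b_hq (E : ED K n) (J : Finset (Fin n)) (i : Fin m) (x : Fin n → B) (θ : B)
    (s τ : Fin m × Fin n → B) (S σ : Fin n → PowerSeries B) (w : PowerSeries B)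
    (ξ : Fin m × Fin n → PowerSeries B)
    (hQ : aeval (fun o : Option (Fin n) => o.elim θ x) E.f = 0) :
    aeval (e11b_pt J i x θ s τ S σ w ξ) (E.fQ m) = 0 := by
  rw [aeval_fQ]
  have h1 : e11b_CA K m n (aeval (fun o : Option (Fin n) => o.elim θ x) E.f) =
      aeval (fun o => e11b_CA K m n (o.elim θ x)) E.f :=
    e11b_comp (e11b_CA K m n) (fun o : Option (Fin n) => o.elim θ x) E.f
  rw [hQ, map_zero] at h1
  rw [h1]
  refine congrArg (fun g => aeval g E.f) (funext fun o => ?_)
  rcases o with _ | t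
  · rfl
  · rfl

private theorem e11b_hw (E : ED K n) (J : Finset (Fin n)) (i : Fin m) (x : Fin n → B) (θ : B)
    (s τ : Fin m × Fin n → B) (S σ : Fin n → PowerSeries B) (w : PowerSeries B)
    (ξ : Fin m × Fin n → PowerSeries B)
    (hP : aeval (fun o : Option (Fin n) => o.elim w S) E.f = 0) :
    aeval (Sh J i (e11b_pt J i x θ s τ S σ w ξ)) (E.fP i) = 0 := by
  rw [aeval_fP]
  have h1 : e11b_iA K m n (aeval (fun o : Option (Fin n) => o.elim w S) E.f) =
      aeval (fun o => e11b_iA K m n (o.elim w S)) E.f :=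
    e11b_comp (e11b_iA K m n) (fun o : Option (Fin n) => o.elim w S) E.f
  rw [hP, map_zero] at h1
  rw [h1]
  refine congrArg (fun g => aeval g E.f) (funext fun o => ?_)
  rcases o with _ | t
  · show (if i = i then _ else _) = _
    rw [if_pos rfl]
    rfl
  · exact e11b_Sh_S J i x θ s τ S σ w ξ t

private theorem e11b_bb (E : ED K n) (j : Fin m → ℕ) (J : Finset (Fin n)) (i : Fin m)
    (x : Fin n → B) (θ : B) (s τ : Fin m × Fin n → B) (S σ : Fin n → PowerSeries B)
    (w : PowerSeries B) (ξ : Fin m × Fin n → PowerSeries B) (o : Option (Fin n)) :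
    aeval (Sh J i (e11b_pt J i x θ s τ S σ w ξ)) (E.bb j i o) =
      PowerSeries.map (C : B →+* MvPolynomial (Fin m × Fin n) B)
        (aeval (Sum.elim (fun o : Option (Fin n) => PowerSeries.C (o.elim θ x))
          (fun o : Option (Fin n) => o.elim w S)) (E.b (j i) o)) := by
  rw [aeval_bb]
  have h1 : e11b_iA K m n (aeval (Sum.elim (fun o : Option (Fin n) => PowerSeries.C (o.elim θ x))
      (fun o : Option (Fin n) => o.elim w S)) (E.b (j i) o)) =
      aeval (fun y => e11b_iA K m n (Sum.elim (fun o : Option (Fin n) =>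
        PowerSeries.C (o.elim θ x)) (fun o : Option (Fin n) => o.elim w S) y)) (E.b (j i) o) :=
    e11b_comp (e11b_iA K m n) (Sum.elim (fun o : Option (Fin n) => PowerSeries.C (o.elim θ x))
      (fun o : Option (Fin n) => o.elim w S)) (E.b (j i) o)
  rw [← e11b_iA_apply K, h1]
  refine congrArg (fun g => aeval g (E.b (j i) o)) (funext fun y => ?_)
  rcases y with o | o
  · rcases o with _ | t
    · show PowerSeries.C (C θ) = e11b_iA K m n (PowerSeries.C θ)
      rw [e11b_iA_apply, PowerSeries.map_C]
    · show PowerSeries.C (C (x t)) = e11b_iA K m n (PowerSeries.C (x t))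
      rw [e11b_iA_apply, PowerSeries.map_C]
  · rcases o with _ | t
    · show (if i = i then _ else _) = _
      rw [if_pos rfl]
      rfl
    · exact e11b_Sh_S J i x θ s τ S σ w ξ t

private theorem e11b_hz (E : ED K n) (j : Fin m → ℕ) (J : Finset (Fin n)) (i : Fin m)
    (x : Fin n → B) (θ : B) (s τ : Fin m × Fin n → B) (S σ : Fin n → PowerSeries B)
    (w : PowerSeries B) (ξ : Fin m × Fin n → PowerSeries B)
    (hξ : ∀ t, aeval (Sum.elim (fun o : Option (Fin n) => PowerSeries.C (o.elim θ x))
        (fun o : Option (Fin n) => o.elim w S)) (E.b (j i) none) * ξ (i, t) =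
      aeval (Sum.elim (fun o : Option (Fin n) => PowerSeries.C (o.elim θ x))
        (fun o : Option (Fin n) => o.elim w S)) (E.b (j i) (some t))) (t : Fin n) :
    aeval (Sh J i (e11b_pt J i x θ s τ S σ w ξ)) (E.al j (i, t)) = 0 := by
  rw [aeval_al]
  show aeval (Sh J i (e11b_pt J i x θ s τ S σ w ξ)) (E.bb j i none) *
    (if i = i then PowerSeries.map (C : B →+* MvPolynomial (Fin m × Fin n) B) (ξ (i, t)) else
      PowerSeries.C (X (i, t))) -
    aeval (Sh J i (e11b_pt J i x θ s τ S σ w ξ)) (E.bb j i (some t)) = 0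
  rw [if_pos rfl, e11b_bb, e11b_bb, ← map_mul, hξ t, sub_self]

private theorem e11b_eqN (J : Finset (Fin n)) (i : Fin m) (x : Fin n → B) (θ : B)
    (s τ : Fin m × Fin n → B) (S σ : Fin n → PowerSeries B) (w : PowerSeries B)
    (ξ : Fin m × Fin n → PowerSeries B) (N : MvPolynomial (VE m n) K)
    (hOc : ∀ y, ¬ Oc J (i : ℕ) y → N.degreeOf y = 0) :
    aeval (e11b_pt J i x θ s τ S σ w ξ) N = PsS ξ i (aeval (np x s τ) N) := by
  have h1 : PsS ξ i (aeval (np x s τ) N) = aeval (fun y => PsS ξ i (np x s τ y)) N :=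
    e11b_comp (e11b_PsA K ξ i) (np x s τ) N
  rw [h1]
  refine aeval_congr_of_degreeOf N _ _ fun y hy => ?_
  have hO : Oc J (i : ℕ) y := by
    by_contra h
    exact hy (hOc y h)
  rcases y with t | _ | p | i' | p | p
  · show PowerSeries.C (C (x t)) = PsS ξ i (C (x t))
    rw [e11b_PsS_C]
  · exact hO.elim
  · have hp : p.1 ≠ i := fun h => absurd hO.1 (by rw [h]; exact lt_irrefl _)
    show (if p.1 = i then _ else _) = PsS ξ i (C (s p))
    rw [if_neg hp, e11b_PsS_C]
  · exact hO.elim
  · show (if p.1 = i then _ else _) = PsS ξ i (X p)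
    rw [e11b_PsS_X]
  · have hp : p.1 ≠ i := fun h => absurd hO.1 (by rw [h]; exact lt_irrefl _)
    show (if p.1 = i then _ else _) = PsS ξ i (C (τ p))
    rw [if_neg hp, e11b_PsS_C]

end

private theorem e11b_main {K : Type u} [Field K] [NumberField K] {m n : ℕ} {E : ED K n}
    {J : Finset (Fin n)} {D : ℕ} {j : Fin m → ℕ}
    {h : Fin m → Fin n → MvPolynomial (Fin n) K} (hh : HC J D j h) (i : Fin m)
    (N N' : MvPolynomial (VE m n) K) (R : ℕ)
    (hOc : ∀ y, ¬ Oc J (i : ℕ) y → N.degreeOf y = 0)
    (hN' : N' = lw i R (ME E j h J i N)) (hlow : ∀ k < R, lw i k (ME E j h J i N) = 0)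
    {B : Type u} [CommRing B] [Algebra K B] (x : Fin n → B) (θ : B)
    (s τ : Fin m × Fin n → B) (S σ : Fin n → PowerSeries B) (w : PowerSeries B)
    (ξ : Fin m × Fin n → PowerSeries B) (hs : ∀ t, PowerSeries.constantCoeff (S t) = s (i, t))
    (hσ : ∀ r ∉ J, PowerSeries.constantCoeff (σ r) = PowerSeries.constantCoeff (S r))
    (hσ1 : ∀ r ∉ J, PowerSeries.coeff 1 (S r) - PowerSeries.coeff 1 (σ r) = τ (i, r)) :
    (∀ k < R, PowerSeries.coeff k
        (aeval (e11b_pt J i x θ s τ S σ w ξ) (ME E j h J i N)) = 0) ∧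
      PowerSeries.coeff R (aeval (e11b_pt J i x θ s τ S σ w ξ) (ME E j h J i N)) =
        aeval (np x s τ) N' := by
  classical
  have hv1 : ∀ t, e11b_pt J i x θ s τ S σ w ξ (VE.v (i, t)) =
      (if t ∈ J then 0 else
        PowerSeries.map (C : B →+* MvPolynomial (Fin m × Fin n) B) (S t - σ t)) := by
    intro t
    show (if i = i then _ else _) = _
    rw [if_pos rfl]
  have hv0 : ∀ t, PowerSeries.constantCoeff (e11b_pt J i x θ s τ S σ w ξ (VE.v (i, t))) = 0 := by
    intro t
    rw [hv1]
    by_cases ht : t ∈ J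
    · rw [if_pos ht, map_zero]
    · rw [if_neg ht, ← PowerSeries.coeff_zero_eq_constantCoeff_apply, PowerSeries.coeff_map,
        PowerSeries.coeff_zero_eq_constantCoeff_apply, map_sub, hσ t ht, sub_self, map_zero]
  have hom1 : ∀ t, om i (VE.v (i, t) : VE m n) ≠ 0 := by
    intro t
    show (if i = i then 1 else 0) ≠ 0
    rw [if_pos rfl]
    exact one_ne_zero
  obtain ⟨h1, h2⟩ := coeff_aeval_lw i R (ME E j h J i N) hlow (e11b_pt J i x θ s τ S σ w ξ) hv0
    (fun y => if om i y = 0 then PowerSeries.constantCoeff (e11b_pt J i x θ s τ S σ w ξ y) else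
      PowerSeries.coeff 1 (e11b_pt J i x θ s τ S σ w ξ y))
    (fun y hy => if_pos hy) (fun t => if_neg (hom1 t))
  refine ⟨h1, ?_⟩
  rw [h2, ← hN']
  refine aeval_congr_of_degreeOf N' _ _ fun y hy => ?_
  have hM : (ME E j h J i N).degreeOf y ≠ 0 := by
    intro h0
    apply hy
    have h3 := degreeOf_lw_le i R (ME E j h J i N) y
    rw [← hN', h0] at h3
    exact Nat.le_zero.1 h3
  rcases y with t | _ | p | i' | p | p
  · show (if 0 = 0 then PowerSeries.constantCoeff (PowerSeries.C (C (x t))) else _) = C (x t)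
    rw [if_pos rfl, PowerSeries.constantCoeff_C]
  · exact absurd (degreeOf_ME_eq_zero hh i N VE.q (Or.inl rfl)) hM
  · show (if 0 = 0 then PowerSeries.constantCoeff (if p.1 = i then (if p.2 ∈ J then
      PowerSeries.map C (S p.2) else PowerSeries.map C (σ p.2)) else
        PowerSeries.C (C (s p))) else _) = C (s p)
    rw [if_pos rfl]
    by_cases hp : p.1 = i
    · rw [if_pos hp]
      have hJ : p.2 ∈ J := by
        by_contra hJ
        refine hM (degreeOf_ME_eq_zero hh i N (VE.S p) (Or.inr (Or.inr (Or.inr (Or.inl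
          ⟨p.2, hJ, ?_⟩)))))
        rw [← hp]
      rw [if_pos hJ, ← PowerSeries.coeff_zero_eq_constantCoeff_apply, PowerSeries.coeff_map,
        PowerSeries.coeff_zero_eq_constantCoeff_apply, hs, ← hp]
    · rw [if_neg hp, PowerSeries.constantCoeff_C]
  · show (if 0 = 0 then PowerSeries.constantCoeff (if i' = i then PowerSeries.map C w else 0)
      else _) = 0
    rw [if_pos rfl]
    by_cases hp : i' = i
    · exact absurd (degreeOf_ME_eq_zero hh i N (VE.w i') (Or.inr (Or.inl (by rw [hp])))) hM
    · rw [if_neg hp, map_zero]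
  · show (if 0 = 0 then PowerSeries.constantCoeff (if p.1 = i then PowerSeries.map C (ξ p) else
      PowerSeries.C (X p)) else _) = X p
    rw [if_pos rfl]
    by_cases hp : p.1 = i
    · refine absurd (degreeOf_ME_eq_zero hh i N (VE.z p) (Or.inr (Or.inr (Or.inl ⟨p.2, ?_⟩)))) hM
      rw [← hp]
    · rw [if_neg hp, PowerSeries.constantCoeff_C]
  · have homp : om i (VE.v p : VE m n) = if p.1 = i then 1 else 0 := rfl
    by_cases hp : p.1 = i
    · have hJ : p.2 ∉ J := by
        intro hJ
        refine hM (degreeOf_ME_eq_zero hh i N (VE.v p) (Or.inr (Or.inr (Or.inr (Or.inr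
          ⟨hOc _ fun hO => absurd hO.1 (by rw [hp]; exact lt_irrefl _), ?_, ?_, ?_⟩)))))
        · intro t ht
          cases ht
        · intro t ht
          cases ht
        · intro r hr ht
          apply hr
          have h4 : p = (i, r) := by
            injection ht
          rw [h4] at hJ
          exact hJ
      have h6 : om i (VE.v p : VE m n) ≠ 0 := by
        rw [homp, if_pos hp]
        exact one_ne_zero
      refine (if_neg h6).trans ?_
      have h5 : p = (i, p.2) := by
        rw [← hp]
      rw [h5, hv1, if_neg hJ, PowerSeries.coeff_map, map_sub, hσ1 p.2 hJ]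
      rfl
    · have h6 : om i (VE.v p : VE m n) = 0 := by
        rw [homp, if_neg hp]
      refine (if_pos h6).trans ?_
      show PowerSeries.constantCoeff (if p.1 = i then _ else PowerSeries.C (C (τ p))) = C (τ p)
      rw [if_neg hp, PowerSeries.constantCoeff_C]

theorem step_W {K : Type u} [Field K] [NumberField K] {m n : ℕ} {E : ED K n} {C₀ : ℝ}
    (hE : E.Ok C₀) {J : Finset (Fin n)} {D : ℕ} {j : Fin m → ℕ}
    {h : Fin m → Fin n → MvPolynomial (Fin n) K} (hh : HC J D j h) (i : Fin m)
    (N N' : MvPolynomial (VE m n) K) (R : ℕ)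
    (hOc : ∀ y, ¬ Oc J (i : ℕ) y → N.degreeOf y = 0)
    (hN' : N' = lw i R (ME E j h J i N)) (hlow : ∀ k < R, lw i k (ME E j h J i N) = 0)
    {B : Type u} [CommRing B] [IsDomain B] [Algebra K B] (x : Fin n → B) (θ : B)
    (s τ : Fin m × Fin n → B) (S : Fin n → PowerSeries B) (w : PowerSeries B)
    (ξ : Fin m × Fin n → PowerSeries B) (hs : ∀ t, PowerSeries.constantCoeff (S t) = s (i, t))
    (hQ : aeval (fun o : Option (Fin n) => o.elim θ x) E.f = 0)
    (hP : aeval (fun o : Option (Fin n) => o.elim w S) E.f = 0)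
    (hξ : ∀ t, aeval (Sum.elim (fun o : Option (Fin n) => PowerSeries.C (o.elim θ x))
        (fun o : Option (Fin n) => o.elim w S)) (E.b (j i) none) * ξ (i, t) =
      aeval (Sum.elim (fun o : Option (Fin n) => PowerSeries.C (o.elim θ x))
        (fun o : Option (Fin n) => o.elim w S)) (E.b (j i) (some t)))
    (h0 : ∀ r ∉ J, aeval (fun t => s (i, t)) (h i r) = 0)
    (h1 : ∀ r ∉ J, IsUnit (aeval (fun t => s (i, t)) (pderiv r (h i r))))
    (hτ : ∀ r ∉ J, aeval (fun t => s (i, t)) (pderiv r (h i r)) * τ (i, r) =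
      ∑ t, aeval (fun t => s (i, t)) (pderiv t (h i r)) * PowerSeries.coeff 1 (S t))
    (hne : aeval (np x s τ) N' ≠ 0) :
    aeval (np x s τ) N ≠ 0 ∧ ∀ F : MvPolynomial (Fin m × Fin n) B, F ∣ aeval (np x s τ) N →
      ∃ ρ ≤ R, (∀ k < ρ, PowerSeries.coeff k (PsS ξ i F) = 0) ∧
        PowerSeries.coeff ρ (PsS ξ i F) ≠ 0 ∧
        PowerSeries.coeff ρ (PsS ξ i F) ∣ aeval (np x s τ) N' := by
  classical
  have hsc : (fun t => PowerSeries.constantCoeff (S t)) = fun t => s (i, t) := funext hs
  have hb : ∀ r, ∃ σ : PowerSeries B, r ∉ J →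
      (PowerSeries.constantCoeff σ = PowerSeries.constantCoeff (S r) ∧
      aeval (Function.update S r σ) (h i r) = 0 ∧
      PowerSeries.coeff 1 (S r) - PowerSeries.coeff 1 σ = τ (i, r)) := by
    intro r
    by_cases hr : r ∈ J
    · exact ⟨0, fun h => absurd hr h⟩
    · obtain ⟨σ, h2, h3, h4⟩ := branch (h i r) r S (by rw [hsc]; exact h0 r hr)
        (by rw [hsc]; exact h1 r hr)
      refine ⟨σ, fun _ => ⟨h2, h3, ?_⟩⟩
      rw [hsc, ← hτ r hr] at h4
      exact (h1 r hr).mul_left_cancel h4
  choose σ hσ using hb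
  obtain ⟨hc1, hc2⟩ := e11b_main hh i N N' R hOc hN' hlow x θ s τ S σ w ξ hs
    (fun r hr => (hσ r hr).1) (fun r hr => (hσ r hr).2.2)
  have hdvd : aeval (e11b_pt J i x θ s τ S σ w ξ) N ∣
      aeval (e11b_pt J i x θ s τ S σ w ξ) (ME E j h J i N) := by
    refine dvd_ME hE hh i N (fun t => hOc _ fun hO => absurd hO.1 (lt_irrefl _)) _
      (e11b_hq E J i x θ s τ S σ w ξ hQ) (e11b_hw E J i x θ s τ S σ w ξ hP)
      (e11b_hz E j J i x θ s τ S σ w ξ hξ) ?_
    intro r hr
    have h2 : e11b_iA K m n (aeval (Function.update S r (σ r)) (h i r)) =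
        aeval (fun t => e11b_iA K m n (Function.update S r (σ r) t)) (h i r) :=
      e11b_comp (e11b_iA K m n) (Function.update S r (σ r)) (h i r)
    rw [(hσ r hr).2.1, map_zero] at h2
    rw [h2]
    refine aeval_congr_of_degreeOf (h i r) _ _ fun t ht => ?_
    show (if i = i then (if t ∈ J then PowerSeries.map C (S t) else PowerSeries.map C (σ t)) else
      PowerSeries.C (C (s (i, t)))) = e11b_iA K m n (Function.update S r (σ r) t)
    rw [if_pos rfl, e11b_iA_apply]
    by_cases hJ : t ∈ J
    · have htr : t ≠ r := fun h => hr (h ▸ hJ)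
      rw [if_pos hJ, Function.update_of_ne htr]
    · have htr : t = r := by
        by_contra htr
        exact ht ((hh i r hr).2.2.1 t hJ htr)
      rw [if_neg hJ, htr, Function.update_self]
  rw [e11b_eqN J i x θ s τ S σ w ξ N hOc] at hdvd
  have hcR : PowerSeries.coeff R (aeval (e11b_pt J i x θ s τ S σ w ξ) (ME E j h J i N)) ≠ 0 := by
    rw [hc2]
    exact hne
  refine ⟨fun h2 => ?_, fun F hF => ?_⟩
  · rw [h2, map_zero, zero_dvd_iff] at hdvd
    rw [hdvd, map_zero] at hcR
    exact hcR rfl
  · obtain ⟨ρ, hρ, h2, h3, h4⟩ := lead_dvd (PsS ξ i F) _ ((map_dvd (PsS ξ i) hF).trans hdvd) R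
      hcR hc1
    rw [hc2] at h4
    exact ⟨ρ, hρ, h2, h3, h4⟩

end Pool.Agent.Lib.MP_17a322_nt.VA
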