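import Pool.Agent.Lib.MP_17a322_nt.VA.A5
import Pool.Agent.Lib.MP_17a322_nt.VA.L0
import Pool.Agent.Lib.MP_17a322_nt.VJ.A5

/-!
# JOB LArad: the loss caused by the radius of the path

`rad nd rr E c₀ P q v` (VA/L0.lean) is
`(|δ| / (E_v m ^ c₀)) ^ c₀ * ∏ b, (|∂_b| / (NV_v (q b) * (E_v m ^ c₀))) ^ 2`, where `|δ| = v (algebraMap (eval (nd.s P) nd.δ))`, `∂_b =
eval (nd.s P) (pderiv (rr b) (q b))`, `m = mq v y = max 1 (max_b |y b|_v)`, `y b = algebraMap (nd.y P b)`.

Complete proof. All factors are positive (`nd.Good P` : `lf (nd.l 0) (A.x P) ≠ 0 ∧ aeval (nd.s P) nd.δ ≠ 0`, `aeval = eval` for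
`K` over `K`: `MvPolynomial.aeval_eq_eval`; `IsEq` gives `∂_b ≠ 0`, so `q b ≠ 0` and `NV_pos` (VJ/A2), `SC.pos` (VA/A1)). So
`log (rad ..) = c₀ * (log |δ| - log E_v - c₀ log m) + ∑ b, 2 * (log |∂_b| - log NV_v (q b) - log E_v - c₀ log m)`.
* `gs (log |x|_v) = 0`, `FS` : `gs_log_abv`, `FS_log_abv` (VJ/A4), for `x = algebraMap K L _ ≠ 0`;
* `gs (log NV_v (map (q b))) = nh (map (q b)) = [L : K] nh (q b)`: `nh_map` (VJ/A7), `FS_log_NV` (VJ/A5);
* `SC.FS_log`, `SC.gs_log_le` (VA/A1): `gs (log E_v) ≤ C_E * [L : ℚ]`;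
* `log m`: (i) `FS` and `gs`: `m = ⨆ o : Option (Fin (N + 1)), v (o.elim 1 fun b => y b)`, or simpler: `1 = lf (nd.l 0) y`
 (a linear form with coefficients in `K`; `y = x / l₀(x)`), so `1 ≤ |l₀(y)|_v ≤ F_v * vm v y` with a size constant `F`
 (`Adm`: the product of `cst v (N + 1)` and of the `max 1 |l 0 a|_v`; API in VA/A1: `Adm_cst`, `Adm_abv`, `Adm.prod`, `Adm.mul`,
 `Adm.exists_SC`), hence `m ≤ F_v * vm v y` and `log m ≤ log F_v + log (vm v y)`; `vm v y = ⨆ i, v (y i)` (VA/Defs).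
 For `FS (log m)` use the first description and `FS_log_iSup` (VJ/A4) for the nonzero vector `o ↦ o.elim 1 y` on
 `Option (Fin (N + 1))` (`max 1 (⨆ b, v (y b)) = ⨆ o, ..`; compare `A7_max_NV_nonarch` in VJ/A7).
 (ii) `gs (log (vm v y)) = logHeight (fun b => algebraMap K L (nd.y P b)) = [L : K] * logHeight (nd.y P)` (`gs_log_iSup` VJ/A4; the
 base change of `logHeight`: `logHeight_algebraMap` in RV/U1, used in VJ/A7: grep), and `logHeight (nd.y P) = logHeight (A.x P) = A.h P`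
 (`nd.y P = (l₀(x))⁻¹ • A.x P`, invariance of the height under scaling: `Height.logHeight_smul_eq_logHeight` or similar: grep
 Mathlib NumberTheory/Height and the RO directory; `A.h P = logHeight (A.x P)` by definition).
Put everything together with `gs_add`, `gs_sub`, `gs_const_mul`, `gs_sum`, `gs_le` (VJ/A4). `A.h P ≥ 0` (`logHeight_nonneg` or similar), `nh ≥ 0`.
-/

universe u

namespace Pool.Agent.Lib.MP_17a322_nt.VA

open MvPolynomial Height
open Pool.Agent.Lib.MP_17a322_nt.RO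
open Pool.Agent.Lib.MP_17a322_nt.VJ
open Pool.Agent.Lib.MP_17a322_nt.VN

/-- A linear form is bounded by a size constant. -/
private theorem LArad_lf {K : Type u} [Field K] {N : ℕ} (l : Fin (N + 1) → K) :
    ∃ F : SC K, ∀ (L : Type u) [Field L] [Algebra K L] (v : AbsoluteValue L ℝ)
      (y : Fin (N + 1) → L), v (lf l y) ≤ F.k v * vm v y := by
  have h1 : Adm.{u, u} K fun L _ _ v =>
      cst v (N + 1) * ∏ a, max 1 (v (algebraMap K L (l a))) :=
    (Adm_cst (N + 1)).mul (Adm.prod Finset.univ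
      (fun (a : Fin (N + 1)) (L : Type u) _ _ v => max 1 (v (algebraMap K L (l a))))
      (fun a _ => Adm_abv (l a)) fun a _ L _ _ v => zero_le_one.trans (le_max_left _ _))
      fun L _ _ v => Finset.prod_nonneg fun a _ => zero_le_one.trans (le_max_left _ _)
  obtain ⟨F, hF⟩ := h1.exists_SC
  refine ⟨F, fun L _ _ v y => ?_⟩
  have h2 : v (lf l y) ≤ cst v (Finset.univ : Finset (Fin (N + 1))).card *
      ((∏ a, max 1 (v (algebraMap K L (l a)))) * vm v y) := by
    unfold lf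
    refine (SN_self v).sum_le Finset.univ (fun a => algebraMap K L (l a) * y a)
      (mul_nonneg (Finset.prod_nonneg fun a _ => zero_le_one.trans (le_max_left _ _))
        (vm_nonneg v y)) fun a _ => ?_
    show v (algebraMap K L (l a) * y a) ≤ _
    rw [map_mul]
    refine mul_le_mul ?_ (le_vm v y a) (v.nonneg _)
      (Finset.prod_nonneg fun a _ => zero_le_one.trans (le_max_left _ _))
    exact (le_max_right 1 _).trans (le_prod_max Finset.univ
      (fun a => max 1 (v (algebraMap K L (l a)))) (fun _ _ => le_max_left _ _)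
      (Finset.mem_univ a))
  rw [Finset.card_univ, Fintype.card_fin, ← mul_assoc] at h2
  exact h2.trans (mul_le_mul_of_nonneg_right (hF L v) (vm_nonneg v y))

private theorem LArad_FS_mq {L : Type u} [Field L] [AdmissibleAbsValues L] {N : ℕ}
    {y : Fin (N + 1) → L} (hy : y ≠ 0) :
    FS fun v : AbsoluteValue L ℝ => Real.log (mq v y) := by
  refine (FS_log_iSup hy).subset fun v hv => ?_
  intro h1
  apply hv
  have h2 : vm v.val y = 1 := Real.eq_one_of_pos_of_log_eq_zero (vm_pos v.val hy) h1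
  show Real.log (mq v.val y) = 0
  have h3 : mq v.val y = 1 := by
    show max 1 (vm v.val y) = 1
    rw [h2, max_self]
  rw [h3, Real.log_one]

/-- The loss. -/
theorem gs_rad {K : Type u} [Field K] [NumberField K] {N : ℕ} {A : AV K N} {n e c : ℕ}
    (nd : Noe A n e) (rr : Fin c → Fin n) (E : SC K) (c₀ D : ℕ) :
    ∃ C : ℝ, 0 ≤ C ∧ ∀ (P : A.Pts K) (q' : Fin c → MvPolynomial (Fin n) K), nd.Good P →
      IsEq nd rr D P q' → ∀ (L : Type u) [Field L] [NumberField L] [Algebra K L],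
      FS (fun v : AbsoluteValue L ℝ => Real.log (rad nd rr E c₀ P q' v)) ∧
      - gs (fun v : AbsoluteValue L ℝ => Real.log (rad nd rr E c₀ P q' v)) ≤
        Module.finrank K L * (C * (A.h P + ∑ b, nh (q' b))) + Module.finrank ℚ L * C := by
  obtain ⟨F, hF⟩ := LArad_lf (nd.l 0)
  obtain ⟨CE, hCE0, hCE⟩ := E.gs_log_le
  obtain ⟨CF, hCF0, hCF⟩ := F.gs_log_le
  refine ⟨(c₀ + 2 * c) * (CE + c₀ * CF) + (c₀ + 2 * c) * c₀ + 2, by positivity, ?_⟩
  intro P q' hP hq L _ _ _
  -- the nonzero quantities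
  have hδ : algebraMap K L (eval (nd.s P) nd.δ) ≠ 0 := by
    have h1 := hP.2
    rw [MvPolynomial.aeval_eq_eval] at h1
    exact (map_ne_zero _).2 h1
  have hd : ∀ b, algebraMap K L (eval (nd.s P) (pderiv (rr b) (q' b))) ≠ 0 := fun b =>
    (map_ne_zero _).2 (hq b).2.2.2
  have hq0 : ∀ b, q' b ≠ 0 := by
    intro b h0
    apply (hq b).2.2.2
    rw [h0, map_zero, map_zero]
  have hqm : ∀ b, MvPolynomial.map (algebraMap K L) (q' b) ≠ 0 := by
    intro b h0
    exact hq0 b (MvPolynomial.map_injective _ (algebraMap K L).injective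
      (h0.trans (map_zero _).symm))
  obtain ⟨y, hy⟩ : ∃ y : Fin (N + 1) → L, y = fun b => algebraMap K L (nd.y P b) := ⟨_, rfl⟩
  have hlf1 : lf (nd.l 0) (nd.y P) = 1 := by
    have h1 : lf (nd.l 0) (nd.y P) = lf (nd.l 0) (A.x P) / lf (nd.l 0) (A.x P) := by
      conv_rhs => rw [lf, Finset.sum_div]
      unfold lf
      refine Finset.sum_congr rfl fun a _ => ?_
      unfold Noe.y
      rw [mul_div_assoc]
      rfl
    rw [h1, div_self hP.1]
  have hlf : lf (nd.l 0) y = 1 := by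
    have h1 : lf (nd.l 0) y = algebraMap K L (lf (nd.l 0) (nd.y P)) := by
      unfold lf
      rw [map_sum, hy]
      refine Finset.sum_congr rfl fun a _ => ?_
      rw [map_mul, Algebra.algebraMap_self_apply]
    rw [h1, hlf1, map_one]
  have hy0 : y ≠ 0 := by
    intro h0
    rw [h0] at hlf
    unfold lf at hlf
    simp at hlf
  -- the size of y
  have hm1 : ∀ v : AbsoluteValue L ℝ, 1 ≤ mq v y := fun v => le_max_left _ _
  have hm : ∀ v : AbsoluteValue L ℝ, mq v y ≤ F.k v * vm v y := by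
    intro v
    have h1 := hF L v y
    rw [hlf, map_one] at h1
    refine max_le h1 ?_
    exact le_mul_of_one_le_left (vm_nonneg v y) (F.one_le v)
  have hFSm : FS fun v : AbsoluteValue L ℝ => Real.log (mq v y) := LArad_FS_mq hy0
  have hFSv : FS fun v : AbsoluteValue L ℝ => Real.log (vm v y) := FS_log_iSup hy0
  have hht : gs (fun v : AbsoluteValue L ℝ => Real.log (vm v y)) =
      Module.finrank K L * A.h P := by
    have h1 : gs (fun v : AbsoluteValue L ℝ => Real.log (vm v y)) = logHeight y :=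
      gs_log_iSup hy0
    have h2 : logHeight (nd.y P) = A.h P := by
      have h3 : nd.y P = (lf (nd.l 0) (A.x P))⁻¹ • A.x P := by
        funext a
        rw [Pi.smul_apply, smul_eq_mul]
        unfold Noe.y
        rw [div_eq_inv_mul]
      rw [h3, logHeight_smul_eq_logHeight _ (inv_ne_zero hP.1)]
      rfl
    rw [h1, hy, Pool.Agent.Lib.MP_17a322_nt.RV.logHeight_algebraMap, h2]
  have hgm : gs (fun v : AbsoluteValue L ℝ => Real.log (mq v y)) ≤
      CF * Module.finrank ℚ L + Module.finrank K L * A.h P := by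
    have h1 : gs (fun v : AbsoluteValue L ℝ => Real.log (mq v y)) ≤
        gs (fun v : AbsoluteValue L ℝ => Real.log (F.k v) + Real.log (vm v y)) := by
      refine gs_le hFSm (FS_add (F.FS_log L) hFSv) fun v _ => ?_
      rw [← Real.log_mul (F.pos v).ne' (vm_pos v hy0).ne']
      exact Real.log_le_log (zero_lt_one.trans_le (hm1 v)) (hm v)
    rw [gs_add (F.FS_log L) hFSv, hht] at h1
    exact h1.trans (add_le_add (hCF L) le_rfl)
  -- the loss of one factor
  have hFSW : FS fun v : AbsoluteValue L ℝ => Real.log (E.k v) + c₀ * Real.log (mq v y) :=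
    FS_add (E.FS_log L) (FS_const_mul _ hFSm)
  have hgW : gs (fun v : AbsoluteValue L ℝ => Real.log (E.k v) + c₀ * Real.log (mq v y)) ≤
      (CE + c₀ * CF) * Module.finrank ℚ L + c₀ * (Module.finrank K L * A.h P) := by
    rw [gs_add (E.FS_log L) (FS_const_mul _ hFSm), gs_const_mul]
    have h1 := hCE L
    have h2 := mul_le_mul_of_nonneg_left hgm (Nat.cast_nonneg (α := ℝ) c₀)
    linarith
  -- the logarithm
  have hEm : ∀ v : AbsoluteValue L ℝ, 0 < E.k v * mq v y ^ c₀ := fun v =>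
    mul_pos (E.pos v) (pow_pos (zero_lt_one.trans_le (hm1 v)) _)
  have hlogW : ∀ v : AbsoluteValue L ℝ, Real.log (E.k v * mq v y ^ c₀) =
      Real.log (E.k v) + c₀ * Real.log (mq v y) := by
    intro v
    rw [Real.log_mul (E.pos v).ne' (pow_pos (zero_lt_one.trans_le (hm1 v)) _).ne', Real.log_pow]
  have hlog : ∀ v : AbsoluteValue L ℝ, Real.log (rad nd rr E c₀ P q' v) =
      c₀ * (Real.log (v (algebraMap K L (eval (nd.s P) nd.δ))) -
        (Real.log (E.k v) + c₀ * Real.log (mq v y))) +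
      ∑ b, (2 : ℝ) * (Real.log (v (algebraMap K L (eval (nd.s P) (pderiv (rr b) (q' b))))) -
        (Real.log (NV v (MvPolynomial.map (algebraMap K L) (q' b))) +
          (Real.log (E.k v) + c₀ * Real.log (mq v y)))) := by
    intro v
    unfold rad
    rw [← hy]
    have h1 : ∀ b, 0 < (v (algebraMap K L (eval (nd.s P) (pderiv (rr b) (q' b)))) /
        (NV v (MvPolynomial.map (algebraMap K L) (q' b)) * (E.k v * mq v y ^ c₀))) ^ 2 :=
      fun b => pow_pos (div_pos (v.pos (hd b)) (mul_pos (NV_pos v (hqm b)) (hEm v))) 2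
    rw [Real.log_mul (pow_pos (div_pos (v.pos hδ) (hEm v)) _).ne'
      (Finset.prod_pos fun b _ => h1 b).ne', Real.log_pow,
      Real.log_div (v.pos hδ).ne' (hEm v).ne', hlogW, Real.log_prod fun b _ => (h1 b).ne']
    congr 1
    refine Finset.sum_congr rfl fun b _ => ?_
    rw [Real.log_pow, Real.log_div (v.pos (hd b)).ne' (mul_pos (NV_pos v (hqm b)) (hEm v)).ne',
      Real.log_mul (NV_pos v (hqm b)).ne' (hEm v).ne', hlogW]
    push_cast
    ring
  have hFS1 : FS fun v : AbsoluteValue L ℝ =>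
      (c₀ : ℝ) * (Real.log (v (algebraMap K L (eval (nd.s P) nd.δ))) -
        (Real.log (E.k v) + c₀ * Real.log (mq v y))) :=
    FS_const_mul _ (FS_sub (FS_log_abv hδ) hFSW)
  have hFSN : ∀ b, FS fun v : AbsoluteValue L ℝ =>
      Real.log (NV v (MvPolynomial.map (algebraMap K L) (q' b))) +
        (Real.log (E.k v) + c₀ * Real.log (mq v y)) := fun b =>
    FS_add (FS_log_NV (hqm b)) hFSW
  have hFS2 : ∀ b ∈ (Finset.univ : Finset (Fin c)), FS fun v : AbsoluteValue L ℝ =>
      (2 : ℝ) * (Real.log (v (algebraMap K L (eval (nd.s P) (pderiv (rr b) (q' b))))) -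
        (Real.log (NV v (MvPolynomial.map (algebraMap K L) (q' b))) +
          (Real.log (E.k v) + c₀ * Real.log (mq v y)))) := fun b _ =>
    FS_const_mul _ (FS_sub (FS_log_abv (hd b)) (hFSN b))
  simp only [hlog]
  refine ⟨FS_add hFS1 (FS_sum Finset.univ hFS2), ?_⟩
  rw [gs_add hFS1 (FS_sum Finset.univ hFS2), gs_sum Finset.univ hFS2, gs_const_mul,
    gs_sub (FS_log_abv hδ) hFSW, gs_log_abv hδ]
  have h2 : ∀ b, gs (fun v : AbsoluteValue L ℝ =>
      (2 : ℝ) * (Real.log (v (algebraMap K L (eval (nd.s P) (pderiv (rr b) (q' b))))) -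
        (Real.log (NV v (MvPolynomial.map (algebraMap K L) (q' b))) +
          (Real.log (E.k v) + c₀ * Real.log (mq v y))))) =
      2 * (0 - (Module.finrank K L * nh (q' b) +
        gs (fun v : AbsoluteValue L ℝ => Real.log (E.k v) + c₀ * Real.log (mq v y)))) := by
    intro b
    rw [gs_const_mul, gs_sub (FS_log_abv (hd b)) (hFSN b), gs_log_abv (hd b),
      gs_add (FS_log_NV (hqm b)) hFSW]
    have h3 := nh_map (L := L) (q' b)
    unfold nh at h3
    rw [h3]
    rfl
  rw [Finset.sum_congr rfl fun b _ => h2 b]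
  obtain ⟨W, hW⟩ : ∃ W : ℝ, W =
      gs (fun v : AbsoluteValue L ℝ => Real.log (E.k v) + c₀ * Real.log (mq v y)) := ⟨_, rfl⟩
  rw [← hW] at hgW ⊢
  obtain ⟨S, hS⟩ : ∃ S : ℝ, S = ∑ b, nh (q' b) := ⟨_, rfl⟩
  have hS0 : 0 ≤ S := by
    rw [hS]
    exact Finset.sum_nonneg fun b _ => nh_nonneg (hq0 b)
  have h3 : ∑ b : Fin c, 2 * (0 - ((Module.finrank K L : ℝ) * nh (q' b) + W)) =
      - (2 * (Module.finrank K L * S)) - 2 * c * W := by
    rw [hS]
    simp only [zero_sub, mul_neg, mul_add, Finset.sum_neg_distrib, Finset.sum_add_distrib,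
      Finset.sum_const, Finset.card_univ, Fintype.card_fin, nsmul_eq_mul, Finset.mul_sum]
    ring
  rw [h3, ← hS]
  have hh0 : 0 ≤ A.h P := logHeight_nonneg _
  have hK0 : (0 : ℝ) ≤ Module.finrank K L := Nat.cast_nonneg _
  have hQ0 : (0 : ℝ) ≤ Module.finrank ℚ L := Nat.cast_nonneg _
  have hc0 : (0 : ℝ) ≤ c₀ := Nat.cast_nonneg _
  have hc1 : (0 : ℝ) ≤ c := Nat.cast_nonneg _
  have h4 : ((c₀ : ℝ) + 2 * c) * W ≤ (c₀ + 2 * c) *
      ((CE + c₀ * CF) * Module.finrank ℚ L + c₀ * (Module.finrank K L * A.h P)) :=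
    mul_le_mul_of_nonneg_left hgW (by positivity)
  have h5 : 0 ≤ (Module.finrank K L : ℝ) * (((c₀ + 2 * c) * (CE + c₀ * CF) + 2) * A.h P) := by
    positivity
  have h6 : 0 ≤ (Module.finrank K L : ℝ) *
      (((c₀ + 2 * c) * (CE + c₀ * CF) + (c₀ + 2 * c) * c₀) * S) := by positivity
  have h7 : 0 ≤ (Module.finrank ℚ L : ℝ) * ((c₀ + 2 * c) * c₀ + 2) := by positivity
  have h8 : -((c₀ : ℝ) * (0 - W) + (-(2 * (Module.finrank K L * S)) - 2 * c * W)) =
      (c₀ + 2 * c) * W + 2 * (Module.finrank K L * S) := by ring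
  rw [h8]
  calc ((c₀ : ℝ) + 2 * c) * W + 2 * (Module.finrank K L * S) ≤
      (c₀ + 2 * c) * ((CE + c₀ * CF) * Module.finrank ℚ L + c₀ * (Module.finrank K L * A.h P)) +
        2 * (Module.finrank K L * S) := by linarith
    _ ≤ (c₀ + 2 * c) * ((CE + c₀ * CF) * Module.finrank ℚ L +
        c₀ * (Module.finrank K L * A.h P)) + 2 * (Module.finrank K L * S) +
        ((Module.finrank K L : ℝ) * (((c₀ + 2 * c) * (CE + c₀ * CF) + 2) * A.h P) +
        (Module.finrank K L : ℝ) *
          (((c₀ + 2 * c) * (CE + c₀ * CF) + (c₀ + 2 * c) * c₀) * S) +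
        (Module.finrank ℚ L : ℝ) * ((c₀ + 2 * c) * c₀ + 2)) := by linarith
    _ = _ := by ring

end Pool.Agent.Lib.MP_17a322_nt.VA
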