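import Pool.Agent.Lib.MP_17a322_nt.VA.A1
import Pool.Agent.Lib.MP_17a322_nt.VA.L0
import Pool.Agent.Lib.MP_17a322_nt.VN.C18

/-!
The product formula for the lowest coefficient of the last series of the chain.
-/

universe u

namespace Pool.Agent.Lib.MP_17a322_nt.VA

open MvPolynomial Height
open Pool.Agent.Lib.MP_17a322_nt.RO
open Pool.Agent.Lib.MP_17a322_nt.VJ
open Pool.Agent.Lib.MP_17a322_nt.VN

theorem n1_alg {L : Type*} [Field L] {τ : Type*} (v : AbsoluteValue L ℝ) (r : ℝ) (s : ℕ)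
    (a : L) : n1 v r s (algebraMap L (D1 L τ) a) = v a := by
  have h1 : algebraMap L (D1 L τ) a = PowerSeries.C (C a) := by
    rw [PowerSeries.algebraMap_apply]
    rfl
  rw [h1]
  unfold n1
  rw [PA_C (SN_NV v)]
  have h2 := NV_monomial v (0 : τ →₀ ℕ) a
  exact h2

/-! ### `mq` -/

section

variable {L : Type*} [Field L]

theorem one_le_mqB (v : AbsoluteValue L ℝ) {ι : Type*} [Fintype ι] (q : ι → L) : 1 ≤ mq v q :=
  le_max_left _ _

theorem mq_posB (v : AbsoluteValue L ℝ) {ι : Type*} [Fintype ι] (q : ι → L) : 0 < mq v q :=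
  one_pos.trans_le (one_le_mqB v q)

theorem le_mqB (v : AbsoluteValue L ℝ) {ι : Type*} [Fintype ι] (q : ι → L) (i : ι) :
    v (q i) ≤ mq v q :=
  (Finite.le_ciSup_of_le (f := fun t => v (q t)) i le_rfl).trans (le_max_right _ _)

/-- The vector `(1, q)`. -/
def qv {ι : Type*} (q : ι → L) : Option ι → L := fun i => i.elim 1 q

theorem qv_ne {ι : Type*} (q : ι → L) : qv q ≠ 0 := by
  intro h
  have h1 : qv q none = 0 := congrFun h none
  exact one_ne_zero h1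

theorem mq_eq (v : AbsoluteValue L ℝ) {ι : Type*} [Fintype ι] [Nonempty ι] (q : ι → L) :
    mq v q = ⨆ i, v (qv q i) := by
  refine le_antisymm (max_le ?_ (ciSup_le fun i => ?_)) (ciSup_le fun i => ?_)
  · refine Finite.le_ciSup_of_le (f := fun i => v (qv q i)) none ?_
    show 1 ≤ v 1
    rw [map_one]
  · exact Finite.le_ciSup_of_le (f := fun i => v (qv q i)) (some i) le_rfl
  · rcases i with _ | i
    · show v 1 ≤ _
      rw [map_one]
      exact one_le_mqB v q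
    · exact le_mqB v q i

theorem FS_log_mq [AdmissibleAbsValues L] {ι : Type*} [Fintype ι] [Nonempty ι] (q : ι → L) :
    FS fun v : AbsoluteValue L ℝ => Real.log (mq v q) := by
  simp only [mq_eq]
  exact FS_log_iSup (qv_ne q)

theorem gs_log_mq [AdmissibleAbsValues L] {ι : Type*} [Fintype ι] [Nonempty ι] (q : ι → L) :
    gs (fun v : AbsoluteValue L ℝ => Real.log (mq v q)) = logHeight (qv q) := by
  simp only [mq_eq]
  exact gs_log_iSup (qv_ne q)

end

/-- The factor of one block in the estimates. -/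
noncomputable def KFA {K : Type*} [Field K] (E : SC K) {L : Type*} [Field L] [Algebra K L]
    (v : AbsoluteValue L ℝ) (RB : ℝ) (e a₁ n j b T : ℕ) (mqv dl : ℝ) (s : ℕ) : ℝ :=
  E.k v ^ (a₁ * (b * 4 ^ j)) * (cst v (e + 1) * RB) ^ (a₁ * b) * mqv ^ (n * b) *
    (E.k v * mqv) ^ s * dl ^ (T - s)

private theorem LB4_log {A B C D E : ℝ} (hA : 0 < A) (hB : 0 < B) (hC : 0 < C) (hD : 0 < D)
    (hE : 0 < E) (a b c s t : ℕ) :
    Real.log (A ^ a * (B * C) ^ b * D ^ c * (A * D) ^ s * E ^ t) =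
      (a : ℝ) * Real.log A + (b : ℝ) * (Real.log B + Real.log C) + (c : ℝ) * Real.log D +
        (s : ℝ) * (Real.log A + Real.log D) + (t : ℝ) * Real.log E := by
  have h1 := (pow_pos hA a).ne'
  have h2 := (pow_pos (mul_pos hB hC) b).ne'
  have h3 := (pow_pos hD c).ne'
  have h4 := (pow_pos (mul_pos hA hD) s).ne'
  have h5 := (pow_pos hE t).ne'
  rw [Real.log_mul (mul_ne_zero (mul_ne_zero (mul_ne_zero h1 h2) h3) h4) h5,
    Real.log_mul (mul_ne_zero (mul_ne_zero h1 h2) h3) h4,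
    Real.log_mul (mul_ne_zero h1 h2) h3, Real.log_mul h1 h2, Real.log_pow, Real.log_pow,
    Real.log_pow, Real.log_pow, Real.log_pow, Real.log_mul hB.ne' hC.ne',
    Real.log_mul hA.ne' hD.ne']

theorem KFA_pos {K : Type*} [Field K] (E : SC K) {L : Type*} [Field L] [Algebra K L]
    (v : AbsoluteValue L ℝ) {RB : ℝ} (hRB : 0 < RB) (e a₁ n j b T : ℕ) {mqv dl : ℝ}
    (hm : 0 < mqv) (hd : 0 < dl) (s : ℕ) : 0 < KFA E v RB e a₁ n j b T mqv dl s := by
  have h1 := E.pos v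
  have h2 : 0 < cst v (e + 1) := zero_lt_one.trans_le (one_le_cst v (by omega))
  unfold KFA
  positivity

private theorem LB4_FS_congr {L : Type*} [Field L] [AdmissibleAbsValues L]
    {f g : AbsoluteValue L ℝ → ℝ} (h : ∀ v, Pl v → f v = g v) (hf : FS f) : FS g := by
  refine hf.subset fun v hv => ?_
  intro h0
  apply hv
  rw [← h v.val (Or.inr v.property)]
  exact h0

/-- Finite support and upper bound of the sum. -/
def GLA {L : Type*} [Field L] [AdmissibleAbsValues L] (f : AbsoluteValue L ℝ → ℝ) (c : ℝ) :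
    Prop := FS f ∧ gs f ≤ c

theorem GLA_add {L : Type*} [Field L] [AdmissibleAbsValues L]
    {f g : AbsoluteValue L ℝ → ℝ} {c d : ℝ} (hf : GLA f c) (hg : GLA g d) :
    GLA (fun v => f v + g v) (c + d) :=
  ⟨FS_add hf.1 hg.1, by
    rw [gs_add hf.1 hg.1]
    exact add_le_add hf.2 hg.2⟩

theorem GLA_mul {L : Type*} [Field L] [AdmissibleAbsValues L]
    {f : AbsoluteValue L ℝ → ℝ} {c : ℝ} (n : ℕ) (hf : GLA f c) :
    GLA (fun v => (n : ℝ) * f v) (n * c) :=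
  ⟨FS_const_mul _ hf.1, by
    rw [gs_const_mul]
    exact mul_le_mul_of_nonneg_left hf.2 (Nat.cast_nonneg n)⟩

theorem GLA_sum {L : Type*} [Field L] [AdmissibleAbsValues L] {ι : Type*} (s : Finset ι)
    {f : ι → AbsoluteValue L ℝ → ℝ} {c : ι → ℝ} (hf : ∀ i ∈ s, GLA (f i) (c i)) :
    GLA (fun v => ∑ i ∈ s, f i v) (∑ i ∈ s, c i) :=
  ⟨FS_sum s fun i hi => (hf i hi).1, by
    rw [gs_sum s fun i hi => (hf i hi).1]
    exact Finset.sum_le_sum fun i hi => (hf i hi).2⟩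

/-- The bound for the coefficients of the auxiliary polynomial at the point. -/
noncomputable def MzA {K : Type*} [Field K] {L : Type*} [Field L] [Algebra K L] {m n : ℕ}
    (N J : ℕ) (j : Fin m → ℕ) (F₀ : (Fin n → ℕ) → (Fin m → Fin n → ℕ) → K) (x : Fin n → L)
    (v : AbsoluteValue L ℝ) : ℝ :=
  cst v ((N * 4 ^ J + 1) ^ n) *
    ((⨆ p : (box (fun _ : Fin n => N * 4 ^ J + 1)) ×
      (BB (fun i : Fin m => N * 4 ^ (J - j i) + 1) : Finset (Fin m → Fin n → ℕ)),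
        v (algebraMap K L (F₀ p.1 p.2))) * (∏ t, max 1 (v (x t))) ^ (N * 4 ^ J))

/-- The product formula. -/
theorem core_ineqA {K L : Type u} [Field K] [NumberField K] [Field L] [NumberField L]
    [Algebra K L] {n e m : ℕ} [NeZero n] (a₁ : ℕ) (E : SC K) (ρ : Fin m → REP K n e)
    (j s : Fin m → ℕ) (N J : ℕ) (hJ : ∀ i, j i ≤ J) (x : Fin n → L) (q : Fin m → Fin n → L)
    (F₀ : (Fin n → ℕ) → (Fin m → Fin n → ℕ) → K) (hne : ∃ a ν, F₀ a ν ≠ 0)
    (hsupp : ∀ a ν, F₀ a ν ≠ 0 → a ∈ box (fun _ : Fin n => N * 4 ^ J + 1) ∧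
      ν ∈ BB (fun i : Fin m => N * 4 ^ (J - j i) + 1))
    (dl rr : Fin m → AbsoluteValue L ℝ → ℝ)
    (hdl : ∀ v, Pl v → ∀ i, 0 < dl i v ∧ dl i v ≤ 1) (hdlF : ∀ i, FS fun v => Real.log (dl i v))
    (hrr : ∀ v, Pl v → ∀ i, 0 < rr i v ∧ rr i v ≤ 1) (hrrF : ∀ i, FS fun v => Real.log (rr i v))
    {τ : Type*} (f : D1 L τ) (a a' : ℕ) (ha : a' ≤ a) (hf : PowerSeries.coeff a' f ≠ 0)
    (hloc : ∀ v, Pl v → ∀ r, 0 ≤ r → (∀ i, r ^ (4 ^ j i) ≤ rr i v) →
      n1 v r a f ≤ MzA N J j F₀ x v *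
        ∏ i, KFA E v (((ρ i).map (algebraMap K L)).RB v) e a₁ n (j i) (N * 4 ^ (J - j i))
          (4 ^ (J - j i)) (mq v (q i)) (dl i v) (s i)) :
    nh (PowerSeries.coeff a' f) ≤
      Module.finrank K L * logHeight (fun p : (box (fun _ : Fin n => N * 4 ^ J + 1)) ×
          (BB (fun i : Fin m => N * 4 ^ (J - j i) + 1) : Finset (Fin m → Fin n → ℕ)) =>
            F₀ p.1 p.2) +
      Module.finrank ℚ L * (n * (N * 4 ^ J)) + N * 4 ^ J * ∑ t, logHeight₁ (x t) +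
      ∑ i, (a₁ * (N * 4 ^ J) * gs (fun v : AbsoluteValue L ℝ => Real.log (E.k v)) +
        a₁ * (N * 4 ^ (J - j i)) *
          (Module.finrank ℚ L * Real.log (e + 1) + Module.finrank K L * (ρ i).ht) +
        n * (N * 4 ^ (J - j i)) * logHeight (qv (q i)) +
        s i * (gs (fun v : AbsoluteValue L ℝ => Real.log (E.k v)) + logHeight (qv (q i))) +
        ((4 ^ (J - j i) - s i : ℕ) : ℝ) * gs (fun v => Real.log (dl i v))) +
      a * ∑ i, (4 ^ j i : ℝ)⁻¹ * (- gs (fun v => Real.log (rr i v))) := by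
  classical
  -- the bound for the coefficients
  obtain ⟨Y, hY⟩ : ∃ Y : (box (fun _ : Fin n => N * 4 ^ J + 1)) ×
      (BB (fun i : Fin m => N * 4 ^ (J - j i) + 1) : Finset (Fin m → Fin n → ℕ)) → L,
      Y = fun p => algebraMap K L (F₀ p.1 p.2) := ⟨_, rfl⟩
  have hYne : Y ≠ 0 := by
    obtain ⟨a', ν, h1⟩ := hne
    obtain ⟨h2, h3⟩ := hsupp a' ν h1
    intro h4
    have h5 := congrFun h4 (⟨a', h2⟩, ⟨ν, h3⟩)
    rw [hY] at h5
    exact h1 ((map_eq_zero (algebraMap K L)).1 h5)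
  have hYpos : ∀ v : AbsoluteValue L ℝ, 0 < ⨆ p, v (Y p) := by
    intro v
    obtain ⟨p, hp⟩ := Function.ne_iff.mp hYne
    exact (v.pos hp).trans_le (Finite.le_ciSup_of_le p le_rfl)
  have hpp : ∀ v : AbsoluteValue L ℝ, 0 < ∏ t, max 1 (v (x t)) := fun v =>
    Finset.prod_pos fun _ _ => lt_max_of_lt_left one_pos
  have hcpos : ∀ v : AbsoluteValue L ℝ, 0 < cst v ((N * 4 ^ J + 1) ^ n) := fun v =>
    zero_lt_one.trans_le (one_le_cst v (Nat.one_le_pow _ _ (Nat.succ_pos _)))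
  have hM₀ : ∀ v : AbsoluteValue L ℝ, MzA N J j F₀ x v = cst v ((N * 4 ^ J + 1) ^ n) *
      ((⨆ p, v (Y p)) * (∏ t, max 1 (v (x t))) ^ (N * 4 ^ J)) := by
    intro v
    rw [hY]
    rfl
  have hM₀pos : ∀ v : AbsoluteValue L ℝ, 0 < MzA N J j F₀ x v := by
    intro v
    rw [hM₀]
    exact mul_pos (hcpos v) (mul_pos (hYpos v) (pow_pos (hpp v) _))
  -- the radius
  obtain ⟨rv, hrv⟩ : ∃ rv : AbsoluteValue L ℝ → ℝ, rv = fun v =>
      ∏ i, (rr i v) ^ (((4 : ℝ) ^ j i)⁻¹) := ⟨_, rfl⟩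
  have hexp : ∀ i, 0 ≤ ((4 : ℝ) ^ j i)⁻¹ := fun i => inv_nonneg.2 (pow_nonneg (by norm_num) _)
  have hrv1 : ∀ v, Pl v → 0 < rv v ∧ rv v ≤ 1 := by
    intro v hv
    rw [hrv]
    refine ⟨Finset.prod_pos fun i _ => Real.rpow_pos_of_pos (hrr v hv i).1 _, ?_⟩
    exact Finset.prod_le_one (fun i _ => (Real.rpow_pos_of_pos (hrr v hv i).1 _).le)
      fun i _ => Real.rpow_le_one (hrr v hv i).1.le (hrr v hv i).2 (hexp i)
  have hrv2 : ∀ v, Pl v → ∀ i, rv v ^ (4 ^ j i) ≤ rr i v := by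
    intro v hv i
    have h1 : rv v ≤ (rr i v) ^ (((4 : ℝ) ^ j i)⁻¹) := by
      rw [hrv]
      show ∏ i, (rr i v) ^ (((4 : ℝ) ^ j i)⁻¹) ≤ _
      rw [← Finset.mul_prod_erase _ _ (Finset.mem_univ i)]
      refine mul_le_of_le_one_right (Real.rpow_pos_of_pos (hrr v hv i).1 _).le ?_
      exact Finset.prod_le_one (fun i _ => (Real.rpow_pos_of_pos (hrr v hv i).1 _).le)
        fun i _ => Real.rpow_le_one (hrr v hv i).1.le (hrr v hv i).2 (hexp i)
    refine (pow_le_pow_left₀ (hrv1 v hv).1.le h1 _).trans (le_of_eq ?_)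
    have h2 := Real.rpow_inv_natCast_pow (hrr v hv i).1.le (pow_ne_zero (j i) (four_ne_zero (α := ℕ)))
    push_cast at h2
    exact h2
  have hrv3 : ∀ v, Pl v → ∑ i, ((4 : ℝ) ^ j i)⁻¹ * Real.log (rr i v) = Real.log (rv v) := by
    intro v hv
    rw [hrv]
    show _ = Real.log (∏ i, (rr i v) ^ (((4 : ℝ) ^ j i)⁻¹))
    rw [Real.log_prod fun i _ => (Real.rpow_pos_of_pos (hrr v hv i).1 _).ne']
    refine Finset.sum_congr rfl fun i _ => ?_
    rw [Real.log_rpow (hrr v hv i).1]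
  have hrvF : FS fun v => Real.log (rv v) :=
    LB4_FS_congr hrv3 (FS_sum _ fun i _ => FS_const_mul _ (hrrF i))
  have hrvg : gs (fun v => Real.log (rv v)) =
      ∑ i, ((4 : ℝ) ^ j i)⁻¹ * gs (fun v => Real.log (rr i v)) := by
    have h1 : gs (fun v => ∑ i, ((4 : ℝ) ^ j i)⁻¹ * Real.log (rr i v)) =
        ∑ i, ((4 : ℝ) ^ j i)⁻¹ * gs (fun v => Real.log (rr i v)) := by
      rw [gs_sum _ fun i _ => FS_const_mul _ (hrrF i)]
      exact Finset.sum_congr rfl fun i _ => gs_const_mul _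
    rw [← h1]
    refine le_antisymm ?_ ?_
    · exact gs_le hrvF (FS_sum _ fun i _ => FS_const_mul _ (hrrF i)) fun v hv => (hrv3 v hv).ge
    · exact gs_le (FS_sum _ fun i _ => FS_const_mul _ (hrrF i)) hrvF fun v hv => (hrv3 v hv).le
  -- the local estimate
  obtain ⟨Bv, hBv⟩ : ∃ Bv : AbsoluteValue L ℝ → ℝ, Bv = fun v => MzA N J j F₀ x v *
      ∏ i, KFA E v (((ρ i).map (algebraMap K L)).RB v) e a₁ n (j i) (N * 4 ^ (J - j i))
          (4 ^ (J - j i)) (mq v (q i)) (dl i v) (s i) := ⟨_, rfl⟩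
  have hRB : ∀ (v : AbsoluteValue L ℝ) i, 0 < ((ρ i).map (algebraMap K L)).RB v := fun v i =>
    zero_lt_one.trans_le (one_le_RB _ v)
  have hKpos : ∀ v, Pl v → ∀ i, 0 < KFA E v (((ρ i).map (algebraMap K L)).RB v) e a₁ n (j i)
      (N * 4 ^ (J - j i)) (4 ^ (J - j i)) (mq v (q i)) (dl i v) (s i) := fun v hv i =>
    KFA_pos E v (hRB v i) _ _ _ _ _ _ (mq_posB v (q i)) (hdl v hv i).1 _
  have hcoef : ∀ v, Pl v → NV v (PowerSeries.coeff a' f) * rv v ^ a ≤ Bv v := by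
    intro v hv
    have h1 : NV v (PowerSeries.coeff a' f) * rv v ^ a' ≤ n1 v (rv v) a f :=
      PA_coeff_le (SN_NV v) (hrv1 v hv).1.le ha f
    have h2 := hloc v hv (rv v) (hrv1 v hv).1.le (hrv2 v hv)
    rw [hBv]
    refine le_trans ?_ (h1.trans h2)
    refine mul_le_mul_of_nonneg_left ?_ (A2_nonneg v _)
    exact pow_le_pow_of_le_one (hrv1 v hv).1.le (hrv1 v hv).2 ha
  -- logarithms
  obtain ⟨G, hG⟩ : ∃ G : AbsoluteValue L ℝ → ℝ, G = fun v =>
      (Real.log (cst v ((N * 4 ^ J + 1) ^ n)) + (Real.log (⨆ p, v (Y p)) +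
        ((N * 4 ^ J : ℕ) : ℝ) * ∑ t, Real.log (max 1 (v (x t))))) +
      ∑ i, (((a₁ * (N * 4 ^ (J - j i) * 4 ^ j i) : ℕ) : ℝ) * Real.log (E.k v) +
      ((a₁ * (N * 4 ^ (J - j i)) : ℕ) : ℝ) * (Real.log (cst v (e + 1)) +
        Real.log (((ρ i).map (algebraMap K L)).RB v)) +
      ((n * (N * 4 ^ (J - j i)) : ℕ) : ℝ) * Real.log (mq v (q i)) +
      (s i : ℝ) * (Real.log (E.k v) + Real.log (mq v (q i))) +
      ((4 ^ (J - j i) - s i : ℕ) : ℝ) * Real.log (dl i v)) :=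
    ⟨_, rfl⟩
  have hGB : ∀ v, Pl v → G v = Real.log (Bv v) := by
    intro v hv
    rw [hBv, hG]
    beta_reduce
    rw [Real.log_mul (hM₀pos v).ne' (Finset.prod_pos fun i _ => hKpos v hv i).ne',
      Real.log_prod fun i _ => (hKpos v hv i).ne']
    congr 1
    · rw [hM₀]
      rw [Real.log_mul (hcpos v).ne' (mul_pos (hYpos v) (pow_pos (hpp v) _)).ne',
        Real.log_mul (hYpos v).ne' (pow_pos (hpp v) _).ne', Real.log_pow,
        Real.log_prod fun t _ => (lt_max_of_lt_left one_pos).ne']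
    · refine Finset.sum_congr rfl fun i _ => ?_
      unfold KFA
      rw [LB4_log (E.pos v) (zero_lt_one.trans_le (one_le_cst v (by omega))) (hRB v i)
        (mq_posB v (q i)) (hdl v hv i).1]
  -- the global estimate
  have gK : GLA (fun v : AbsoluteValue L ℝ => Real.log (E.k v))
      (gs (fun v : AbsoluteValue L ℝ => Real.log (E.k v))) := ⟨E.FS_log L, le_rfl⟩
  have gX : GLA (fun v : AbsoluteValue L ℝ => ∑ t, Real.log (max 1 (v (x t))))
      (∑ t, logHeight₁ (x t)) :=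
    GLA_sum _ fun t _ => ⟨FS_log_max _, (gs_log_max _).le⟩
  have gQ : ∀ i, GLA (fun v : AbsoluteValue L ℝ => Real.log (mq v (q i)))
      (logHeight (qv (q i))) := fun i => by
    have : Nonempty (Fin n) := ⟨⟨0, Nat.pos_of_ne_zero (NeZero.ne n)⟩⟩
    exact ⟨FS_log_mq _, (gs_log_mq _).le⟩
  have gE : GLA (fun v : AbsoluteValue L ℝ => Real.log (cst v (e + 1)))
      (Module.finrank ℚ L * Real.log (e + 1)) := by
    refine ⟨FS_log_cst _, ?_⟩
    have h1 := gs_log_cst (L := L) (n := e + 1) (Nat.succ_le_succ (Nat.zero_le e))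
    rw [NumberField.totalWeight_eq_finrank] at h1
    push_cast at h1
    exact h1
  have gR : ∀ i, GLA (fun v : AbsoluteValue L ℝ =>
      Real.log (((ρ i).map (algebraMap K L)).RB v)) (Module.finrank K L * (ρ i).ht) := fun i =>
    ⟨FS_log_RB _, (ht_map (L := L) (ρ i)).le⟩
  have gD : ∀ i, GLA (fun v : AbsoluteValue L ℝ => Real.log (dl i v))
      (gs (fun v => Real.log (dl i v))) := fun i => ⟨hdlF i, le_rfl⟩
  have gC : GLA (fun v : AbsoluteValue L ℝ => Real.log (cst v ((N * 4 ^ J + 1) ^ n)))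
      (Module.finrank ℚ L * (n * (N * 4 ^ J))) := by
    refine ⟨FS_log_cst _, ?_⟩
    have h1 := gs_log_cst (L := L) (n := (N * 4 ^ J + 1) ^ n)
      (Nat.one_le_pow _ _ (Nat.succ_pos _))
    rw [NumberField.totalWeight_eq_finrank] at h1
    refine h1.trans (mul_le_mul_of_nonneg_left ?_ (Nat.cast_nonneg _))
    push_cast
    rw [Real.log_pow]
    refine mul_le_mul_of_nonneg_left ?_ (by positivity)
    have h2 : (0 : ℝ) < (N : ℝ) * 4 ^ J + 1 := by positivity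
    have h3 := Real.log_le_sub_one_of_pos h2
    linarith
  have gY : GLA (fun v : AbsoluteValue L ℝ => Real.log (⨆ p, v (Y p)))
      (Module.finrank K L * logHeight (fun p : (box (fun _ : Fin n => N * 4 ^ J + 1)) ×
          (BB (fun i : Fin m => N * 4 ^ (J - j i) + 1) : Finset (Fin m → Fin n → ℕ)) =>
            F₀ p.1 p.2)) := by
    refine ⟨FS_log_iSup hYne, ?_⟩
    rw [gs_log_iSup hYne, hY, ← RV.logHeight_algebraMap]
  have gE' := GLA_add (GLA_add gC (GLA_add gY (GLA_mul (N * 4 ^ J) gX)))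
    (GLA_sum Finset.univ fun i _ =>
      GLA_add (GLA_add (GLA_add (GLA_add
        (GLA_mul (a₁ * (N * 4 ^ (J - j i) * 4 ^ j i)) gK)
        (GLA_mul (a₁ * (N * 4 ^ (J - j i))) (GLA_add gE (gR i))))
        (GLA_mul (n * (N * 4 ^ (J - j i))) (gQ i)))
        (GLA_mul (s i) (GLA_add gK (gQ i))))
        (GLA_mul (4 ^ (J - j i) - s i) (gD i)))
  rw [← hG] at gE'
  have hBF : FS fun v => Real.log (Bv v) := LB4_FS_congr hGB gE'.1
  have hBE : gs (fun v => Real.log (Bv v)) ≤ gs G := gs_le hBF gE'.1 fun v hv => (hGB v hv).ge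
  -- the height
  have hnh : nh (PowerSeries.coeff a' f) + a * gs (fun v => Real.log (rv v)) ≤
      gs (fun v => Real.log (Bv v)) := by
    unfold nh
    rw [← gs_const_mul, ← gs_add (FS_log_NV hf) (FS_const_mul _ hrvF)]
    refine gs_le (FS_add (FS_log_NV hf) (FS_const_mul _ hrvF)) hBF fun v hv => ?_
    have h1 := NV_pos v hf
    have h2 := pow_pos (hrv1 v hv).1 a
    have h3 := Real.log_le_log (mul_pos h1 h2) (hcoef v hv)
    rw [Real.log_mul h1.ne' h2.ne', Real.log_pow] at h3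
    exact h3
  have hfin2 := (hnh.trans (hBE.trans gE'.2))
  rw [hrvg] at hfin2
  have h4 : ∀ i, (4 : ℝ) ^ (J - j i) * 4 ^ j i = 4 ^ J := by
    intro i
    rw [← pow_add, Nat.sub_add_cancel (hJ i)]
  have hsum : ∑ i, ((4 : ℝ) ^ j i)⁻¹ * -gs (fun v => Real.log (rr i v)) =
      -∑ i, ((4 : ℝ) ^ j i)⁻¹ * gs (fun v => Real.log (rr i v)) := by
    rw [← Finset.sum_neg_distrib]
    exact Finset.sum_congr rfl fun i _ => by ring
  rw [hsum]
  have hcomb : ∀ i, ((a₁ * (N * 4 ^ (J - j i) * 4 ^ j i) : ℕ) : ℝ) = a₁ * (N * 4 ^ J) := by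
    intro i
    push_cast
    rw [mul_assoc (N : ℝ), h4 i]
  simp only [hcomb] at hfin2
  push_cast at hfin2 ⊢
  linarith

end Pool.Agent.Lib.MP_17a322_nt.VA
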