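import Pool.Agent.Lib.MP_17a322_nt.VA.LAgn
import Pool.Agent.Lib.MP_17a322_nt.VA.LArad
import Pool.Agent.Lib.MP_17a322_nt.VA.A6
import Pool.Agent.Lib.MP_17a322_nt.VA.LB4

/-!
The gains and the radii of the blocks; the heights over the extension.
-/

universe u

namespace Pool.Agent.Lib.MP_17a322_nt.VA

open MvPolynomial Height
open Pool.Agent.Lib.MP_17a322_nt.RO
open Pool.Agent.Lib.MP_17a322_nt.VJ
open Pool.Agent.Lib.MP_17a322_nt.VN

section

variable {K : Type u} [Field K] {N : ℕ} {A : AV K N} {n e : ℕ} (nd : Noe A n e) (κ : SC K)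
  (P : A.Pts K) (a b : K)

/-- The gain at a place of the extension. -/
noncomputable def gvA {L : Type u} [Field L] [Algebra K L] (v : AbsoluteValue L ℝ) : ℝ :=
  open Classical in
  if ∀ i, v (algebraMap K L (nd.y P i)) ≤ κ.k v then
    - Real.log (min 1 (max (v (algebraMap K L a)) (v (algebraMap K L b)))) else 0

/-- The factor by which the radii are diminished. -/
noncomputable def dlA {L : Type u} [Field L] [Algebra K L] (v : AbsoluteValue L ℝ) : ℝ :=
  open Classical in
  if ∀ i, v (algebraMap K L (nd.y P i)) ≤ κ.k v then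
    min 1 (max (v (algebraMap K L a)) (v (algebraMap K L b))) else 1

variable {a b}

theorem dlA_pos (hab : a ≠ 0 ∨ b ≠ 0) {L : Type u} [Field L] [Algebra K L]
    (v : AbsoluteValue L ℝ) : 0 < dlA nd κ P a b v := by
  unfold dlA
  split_ifs
  · refine lt_min one_pos ?_
    rcases hab with h | h
    · exact lt_max_of_lt_left (v.pos ((map_ne_zero _).2 h))
    · exact lt_max_of_lt_right (v.pos ((map_ne_zero _).2 h))
  · exact one_pos

theorem dlA_le {L : Type u} [Field L] [Algebra K L] (v : AbsoluteValue L ℝ) :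
    dlA nd κ P a b v ≤ 1 := by
  unfold dlA
  split_ifs
  · exact min_le_left _ _
  · exact le_rfl

theorem dlA_cases {L : Type u} [Field L] [Algebra K L] (v : AbsoluteValue L ℝ) :
    dlA nd κ P a b v = 1 ∨ ((∀ i, v (algebraMap K L (nd.y P i)) ≤ κ.k v) ∧
      v (algebraMap K L a) ≤ dlA nd κ P a b v ∧ v (algebraMap K L b) ≤ dlA nd κ P a b v) := by
  unfold dlA
  split_ifs with h
  · rcases le_total 1 (max (v (algebraMap K L a)) (v (algebraMap K L b))) with h1 | h1
    · exact Or.inl (min_eq_left h1)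
    · rw [min_eq_right h1]
      exact Or.inr ⟨h, le_max_left _ _, le_max_right _ _⟩
  · exact Or.inl rfl

theorem log_dlA {L : Type u} [Field L] [Algebra K L] (v : AbsoluteValue L ℝ) :
    Real.log (dlA nd κ P a b v) = - gvA nd κ P a b v := by
  unfold dlA gvA
  split_ifs
  · rw [neg_neg]
  · rw [Real.log_one, neg_zero]

variable [NumberField K]

theorem gs_gvA (hP : lf (nd.l 0) (A.x P) ≠ 0) (hab : a ≠ 0 ∨ b ≠ 0) (L : Type u) [Field L]
    [NumberField L] [Algebra K L] :
    FS (fun v : AbsoluteValue L ℝ => gvA nd κ P a b v) ∧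
      Module.finrank K L * nd.gn κ P a b ≤ gs (fun v : AbsoluteValue L ℝ => gvA nd κ P a b v) ∧
      (a ≠ 0 → gs (fun v : AbsoluteValue L ℝ => gvA nd κ P a b v) ≤
        Module.finrank K L * logHeight₁ a) ∧
      (b ≠ 0 → gs (fun v : AbsoluteValue L ℝ => gvA nd κ P a b v) ≤
        Module.finrank K L * logHeight₁ b) := by
  classical
  obtain ⟨h1, h2⟩ := gn_le nd κ P hP a b hab L
  have h1' : FS (fun v : AbsoluteValue L ℝ => gvA nd κ P a b v) := h1
  have key : ∀ c : K, (c = a ∨ c = b) → c ≠ 0 →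
      gs (fun v : AbsoluteValue L ℝ => gvA nd κ P a b v) ≤ Module.finrank K L * logHeight₁ c := by
    intro c hc hc0
    have h3 : logHeight₁ ((algebraMap K L c)⁻¹) = Module.finrank K L * logHeight₁ c := by
      rw [logHeight₁_inv, logHeight₁_eq_logHeight, logHeight₁_eq_logHeight,
        ← RV.logHeight_algebraMap (K := K) (L := L)]
      congr 1
      funext i
      fin_cases i
      · rfl
      · exact (map_one _).symm
    rw [← h3, ← gs_log_max]
    refine gs_le h1' (FS_log_max _) fun v _ => ?_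
    have hv : 0 < v (algebraMap K L c) := v.pos ((map_ne_zero _).2 hc0)
    have h0 : 0 ≤ Real.log (max 1 (v (algebraMap K L c)⁻¹)) := Real.log_nonneg (le_max_left _ _)
    unfold gvA
    split_ifs
    · have h4 : min 1 (v (algebraMap K L c)) ≤
          min 1 (max (v (algebraMap K L a)) (v (algebraMap K L b))) := by
        refine min_le_min le_rfl ?_
        rcases hc with rfl | rfl
        · exact le_max_left _ _
        · exact le_max_right _ _
      have h5 : 0 < min 1 (v (algebraMap K L c)) := lt_min one_pos hv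
      have h6 := Real.log_le_log h5 h4
      refine (neg_le_neg h6).trans (le_of_eq ?_)
      rw [← Real.log_inv, map_inv₀]
      congr 1
      rcases le_total 1 (v (algebraMap K L c)) with h7 | h7
      · rw [min_eq_left h7, inv_one, max_eq_left (inv_le_one_of_one_le₀ h7)]
      · rw [min_eq_right h7, max_eq_right ((one_le_inv₀ hv).2 h7)]
    · exact h0
  exact ⟨h1', h2, fun h => key a (Or.inl rfl) h, fun h => key b (Or.inr rfl) h⟩

/-- The radius of one block. -/
noncomputable def rrA (a b : K) (E : SC K) {L : Type u} [Field L] [Algebra K L]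
    (rd : AbsoluteValue L ℝ → ℝ) (q : Fin n → L) (v : AbsoluteValue L ℝ) : ℝ :=
  dlA nd κ P a b v * rd v / (E.k v * mq v q)

theorem rrA_spec [NeZero n] (hP : lf (nd.l 0) (A.x P) ≠ 0) (hab : a ≠ 0 ∨ b ≠ 0) (E : SC K)
    (L : Type u) [Field L] [NumberField L] [Algebra K L] (rd : AbsoluteValue L ℝ → ℝ)
    (hrd : ∀ v, 0 < rd v ∧ rd v ≤ 1) (hrdF : FS fun v => Real.log (rd v)) (q : Fin n → L) :
    (∀ v, 0 < rrA nd κ P a b E rd q v ∧ rrA nd κ P a b E rd q v ≤ 1 ∧
      rrA nd κ P a b E rd q v * (E.k v * mq v q) = dlA nd κ P a b v * rd v) ∧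
    (FS fun v => Real.log (rrA nd κ P a b E rd q v)) ∧
    - gs (fun v => Real.log (rrA nd κ P a b E rd q v)) =
      gs (fun v : AbsoluteValue L ℝ => gvA nd κ P a b v) + - gs (fun v => Real.log (rd v)) +
        gs (fun v : AbsoluteValue L ℝ => Real.log (E.k v)) + logHeight (qv q) := by
  have : Nonempty (Fin n) := ⟨⟨0, Nat.pos_of_ne_zero (NeZero.ne n)⟩⟩
  have hE : ∀ v : AbsoluteValue L ℝ, 1 ≤ E.k v * mq v q := fun v =>
    one_le_mul_of_one_le_of_one_le (E.one_le v) (one_le_mqB v q)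
  have hlog : (fun v : AbsoluteValue L ℝ => Real.log (rrA nd κ P a b E rd q v)) =
      fun v : AbsoluteValue L ℝ => - gvA nd κ P a b v + Real.log (rd v) -
        (Real.log (E.k v) + Real.log (mq v q)) := by
    funext v
    have h1 := dlA_pos nd κ P hab v
    have h2 := (hrd v).1
    unfold rrA
    rw [Real.log_div (mul_pos h1 h2).ne' (one_pos.trans_le (hE v)).ne',
      Real.log_mul h1.ne' h2.ne', Real.log_mul (E.pos v).ne' (mq_posB v q).ne', log_dlA]
  obtain ⟨h1, -, -, -⟩ := gs_gvA nd κ P hP hab L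
  have h1' : FS fun v : AbsoluteValue L ℝ => - gvA nd κ P a b v := by
    have h2 := FS_const_mul (-1) h1
    simpa only [neg_one_mul] using h2
  have h1g : gs (fun v : AbsoluteValue L ℝ => - gvA nd κ P a b v) =
      - gs (fun v : AbsoluteValue L ℝ => gvA nd κ P a b v) := by
    have h2 := gs_const_mul (-1) (f := fun v : AbsoluteValue L ℝ => gvA nd κ P a b v)
    simpa only [neg_one_mul] using h2
  have F1 := E.FS_log L
  have F2 : FS fun v : AbsoluteValue L ℝ => Real.log (mq v q) := FS_log_mq q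
  refine ⟨fun v => ⟨?_, ?_, ?_⟩, ?_, ?_⟩
  · exact div_pos (mul_pos (dlA_pos nd κ P hab v) (hrd v).1) (one_pos.trans_le (hE v))
  · refine (div_le_self (mul_pos (dlA_pos nd κ P hab v) (hrd v).1).le (hE v)).trans ?_
    exact mul_le_one₀ (dlA_le nd κ P v) (hrd v).1.le (hrd v).2
  · exact div_mul_cancel₀ _ (one_pos.trans_le (hE v)).ne'
  · rw [hlog]
    exact FS_sub (FS_add h1' hrdF) (FS_add F1 F2)
  · rw [hlog, gs_sub (FS_add h1' hrdF) (FS_add F1 F2), gs_add h1' hrdF, gs_add F1 F2, h1g,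
      gs_log_mq]
    ring

end

/-- The height of the value of one of the polynomials of the datum. -/
theorem ht_valA {K : Type*} [Field K] [NumberField K] {n e : ℕ} (ρ : REP K n e) {D : ℕ}
    (hD : ρ.Deg D) (s : Fin n → K) (i : Fin n) :
    logHeight₁ (eval s (ρ.z i)) ≤ ρ.ht + D * ∑ t, logHeight₁ (s t) := by
  have hFS : FS (fun v : AbsoluteValue K ℝ => ∑ t, Real.log (max 1 (v (s t)))) :=
    FS_sum _ fun t _ => FS_log_max (s t)
  have h1 : ρ.ht + D * ∑ t, logHeight₁ (s t) =
      gs (fun v : AbsoluteValue K ℝ => Real.log (ρ.RB v) +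
        D * ∑ t, Real.log (max 1 (v (s t)))) := by
    rw [gs_add (FS_log_RB ρ) (FS_const_mul _ hFS), gs_const_mul,
      gs_sum _ fun t _ => FS_log_max (s t)]
    simp only [gs_log_max]
    rfl
  rw [h1, ← gs_log_max]
  refine gs_le (FS_log_max _) (FS_add (FS_log_RB ρ) (FS_const_mul _ hFS)) fun v _ => ?_
  have hd : ∀ t, (ρ.z i).degreeOf t ≤ D := fun t =>
    (degreeOf_le_totalDegree _ _).trans (hD.1 i)
  have h2 : v (eval s (ρ.z i)) ≤ NV v (ρ.z i) * ∏ t, max 1 (v (s t)) ^ D :=
    (SN_self v).aeval_le (ρ.z i) (fun _ => D) hd s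
  have hP : 1 ≤ ∏ t, max 1 (v (s t)) ^ D := one_le_prod_max _ _ fun _ _ =>
    one_le_pow₀ (le_max_left _ _)
  have hR := one_le_RB ρ v
  have h3 : max 1 (v (eval s (ρ.z i))) ≤ ρ.RB v * ∏ t, max 1 (v (s t)) ^ D := by
    refine max_le (one_le_mul_of_one_le_of_one_le hR hP) (h2.trans ?_)
    exact mul_le_mul_of_nonneg_right (z_le_RB ρ v i) (zero_le_one.trans hP)
  have h4 := Real.log_le_log (lt_max_of_lt_left one_pos) h3
  refine h4.trans (le_of_eq ?_)
  rw [Real.log_mul (zero_lt_one.trans_le hR).ne' (zero_lt_one.trans_le hP).ne',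
    Real.log_prod fun t _ => (pow_pos (lt_max_of_lt_left one_pos) _).ne', Finset.mul_sum]
  congr 1
  refine Finset.sum_congr rfl fun t _ => ?_
  rw [Real.log_pow]

/-- The height of quotients of linear forms. -/
theorem exists_qv_le {K : Type u} [Field K] [NumberField K] {N n : ℕ} [NeZero n]
    (l : Fin (n + 1) → Fin (N + 1) → K) : ∃ C : ℝ, 0 ≤ C ∧ ∀ (L : Type u) [Field L]
      [NumberField L] [Algebra K L] (y : Fin (N + 1) → L), lf (l 0) y ≠ 0 →
      logHeight (qv fun t : Fin n => lf (l t.succ) y / lf (l 0) y) ≤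
        logHeight y + C * Module.finrank ℚ L := by
  obtain ⟨F, hF⟩ := lf_upper.{u, u} l
  obtain ⟨C, hC, hCF⟩ := F.gs_log_le
  have : Nonempty (Fin n) := ⟨⟨0, Nat.pos_of_ne_zero (NeZero.ne n)⟩⟩
  refine ⟨C, hC, fun L _ _ _ y hy => ?_⟩
  have hy0 : y ≠ 0 := by
    intro h
    apply hy
    rw [h]
    unfold lf
    simp only [Pi.zero_apply, mul_zero, Finset.sum_const_zero]
  have h1 : gs (fun v : AbsoluteValue L ℝ =>
      Real.log (mq v fun t : Fin n => lf (l t.succ) y / lf (l 0) y)) ≤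
      gs (fun v : AbsoluteValue L ℝ => (Real.log (F.k v) + Real.log (vm v y)) -
        Real.log (v (lf (l 0) y))) := by
    refine gs_le (FS_log_mq _) (FS_sub (FS_add (F.FS_log L) (FS_log_vm hy0))
      (FS_log_abv hy)) fun v _ => ?_
    have p1 := F.pos v
    have p2 := vm_pos v hy0
    have p3 := v.pos hy
    rw [← Real.log_mul p1.ne' p2.ne', ← Real.log_div (mul_pos p1 p2).ne' p3.ne']
    refine Real.log_le_log (mq_posB v _) ?_
    rw [le_div_iff₀ p3]
    refine (max_mul_of_nonneg _ _ p3.le).le.trans (max_le ?_ ?_)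
    · rw [one_mul]
      exact hF L v y 0
    · have h2 : ⨆ t : Fin n, v (lf (l t.succ) y / lf (l 0) y) ≤
          F.k v * vm v y / v (lf (l 0) y) := by
        refine ciSup_le fun t => ?_
        rw [map_div₀]
        exact div_le_div_of_nonneg_right (hF L v y t.succ) p3.le
      refine (mul_le_mul_of_nonneg_right h2 p3.le).trans (le_of_eq ?_)
      exact div_mul_cancel₀ _ p3.ne'
  rw [gs_log_mq, gs_sub (FS_add (F.FS_log L) (FS_log_vm hy0)) (FS_log_abv hy),
    gs_add (F.FS_log L) (FS_log_vm hy0), gs_log_vm hy0, gs_log_abv hy] at h1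
  have h2 := hCF L
  linarith

theorem logHeight₁_le_qv {L : Type*} [Field L] [AdmissibleAbsValues L] {n : ℕ} (q : Fin n → L)
    (t : Fin n) : logHeight₁ (q t) ≤ logHeight (qv q) := by
  have : Nonempty (Fin n) := ⟨t⟩
  rw [← gs_log_max, ← gs_log_mq]
  refine gs_le (FS_log_max _) (FS_log_mq _) fun v _ => ?_
  exact Real.log_le_log (lt_max_of_lt_left one_pos)
    (max_le (one_le_mqB v q) (le_mqB v q t))

section

variable {K : Type u} [Field K] [NumberField K] {N : ℕ} (A : AV K N)

theorem AV.h_img {L : Type u} [Field L] [NumberField L] [Algebra K L] (P : A.Pts K) :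
    A.h (A.img (Algebra.ofId K L) P) = Module.finrank K L * A.h P := by
  rw [← (A.img_rep (Algebra.ofId K L) P).logHeight]
  exact RV.logHeight_algebraMap (K := K) (L := L) (A.x P)

/-- The heights over the extension. -/
theorem AV.exists_heights : ∃ C : ℝ, 0 ≤ C ∧ ∀ (Cw : ℝ), 0 ≤ Cw → ∀ (L : Type u) [Field L]
    [NumberField L] [Algebra K L] (w : A.Pts L), A.h w ≤ Cw * Module.finrank ℚ L →
    ∀ (P₀ : A.Pts K), A.h (A.img (Algebra.ofId K L) P₀ + w) ≤ Module.finrank K L *
        (2 * A.h P₀ + Module.finrank ℚ K * (2 * Cw + C)) ∧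
      ∀ (P : A.Pts K) (j : ℕ), A.h (A.img (Algebra.ofId K L) P -
          2 ^ j • (A.img (Algebra.ofId K L) P₀ + w)) ≤ Module.finrank K L *
        (2 * A.h (P - 2 ^ j • P₀) + Module.finrank ℚ K * (2 * Cw + 3 * C) * 4 ^ j) := by
  obtain ⟨C, hC, hpar⟩ := A.parallelogram
  refine ⟨C, hC, fun Cw hCw L _ _ _ w hw P₀ => ?_⟩
  have hd : (Module.finrank ℚ L : ℝ) = Module.finrank ℚ K * Module.finrank K L := by
    rw [← Module.finrank_mul_finrank ℚ K L]
    push_cast
    rfl
  have hK0 : (0 : ℝ) ≤ Module.finrank ℚ K := Nat.cast_nonneg _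
  have hL0 : (0 : ℝ) ≤ Module.finrank K L := Nat.cast_nonneg _
  have hd0 : (0 : ℝ) ≤ Module.finrank ℚ L := Nat.cast_nonneg _
  have hadd : ∀ P Q : A.Pts L, A.h (P + Q) ≤ 2 * A.h P + 2 * A.h Q + C * Module.finrank ℚ L := by
    intro P Q
    have h1 := (abs_le.1 (hpar L P Q)).2
    have h2 := AV.h_nonneg (A := A) (P - Q)
    linarith
  have hsub : ∀ P Q : A.Pts L, A.h (P - Q) ≤ 2 * A.h P + 2 * A.h Q + C * Module.finrank ℚ L := by
    intro P Q
    have h1 := (abs_le.1 (hpar L P Q)).2
    have h2 := AV.h_nonneg (A := A) (P + Q)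
    linarith
  have hdbl : ∀ P : A.Pts L, A.h (2 • P) ≤ 4 * A.h P + C * Module.finrank ℚ L := by
    intro P
    have h1 := hadd P P
    rw [← two_nsmul] at h1
    linarith
  have hpow : ∀ j : ℕ, A.h (2 ^ j • w) ≤
      4 ^ j * A.h w + (4 ^ j - 1) * (C * Module.finrank ℚ L) := by
    intro j
    induction j with
    | zero =>
      rw [pow_zero, pow_zero, one_nsmul, one_mul, sub_self, zero_mul, add_zero]
    | succ j ih =>
      have h1 := hdbl (2 ^ j • w)
      rw [← mul_nsmul', ← pow_succ'] at h1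
      have h2 : (1 : ℝ) ≤ 4 ^ j := one_le_pow₀ (by norm_num)
      have h3 : 0 ≤ C * Module.finrank ℚ L := mul_nonneg hC hd0
      rw [pow_succ (4 : ℝ)]
      linarith
  constructor
  · have h1 := hadd (A.img (Algebra.ofId K L) P₀) w
    rw [A.h_img] at h1
    rw [hd] at h1 hw
    nlinarith
  · intro P j
    have h1 := hsub (A.img (Algebra.ofId K L) (P - 2 ^ j • P₀)) (2 ^ j • w)
    have h2 : A.img (Algebra.ofId K L) P - 2 ^ j • (A.img (Algebra.ofId K L) P₀ + w) =
        A.img (Algebra.ofId K L) (P - 2 ^ j • P₀) - 2 ^ j • w := by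
      rw [AV.img_sub, AV.img_nsmul, nsmul_add]
      abel
    rw [h2]
    rw [A.h_img] at h1
    have h3 := hpow j
    have h4 : (1 : ℝ) ≤ 4 ^ j := one_le_pow₀ (by norm_num)
    rw [hd] at h1 h3 hw
    have h5 : 0 ≤ C * (Module.finrank ℚ K * Module.finrank K L) := by positivity
    have h6 : 4 ^ j * A.h w ≤ 4 ^ j * (Cw * (Module.finrank ℚ K * Module.finrank K L)) :=
      mul_le_mul_of_nonneg_left hw (by positivity)
    have h7 : C * (Module.finrank ℚ K * Module.finrank K L) ≤
        4 ^ j * (C * (Module.finrank ℚ K * Module.finrank K L)) :=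
      le_mul_of_one_le_left h5 h4
    calc A.h (A.img (Algebra.ofId K L) (P - 2 ^ j • P₀) - 2 ^ j • w) ≤
        2 * (Module.finrank K L * A.h (P - 2 ^ j • P₀)) + 2 * A.h (2 ^ j • w) +
          C * (Module.finrank ℚ K * Module.finrank K L) := h1
      _ ≤ 2 * (Module.finrank K L * A.h (P - 2 ^ j • P₀)) +
          2 * (4 ^ j * (Cw * (Module.finrank ℚ K * Module.finrank K L)) +
            4 ^ j * (C * (Module.finrank ℚ K * Module.finrank K L))) +
          4 ^ j * (C * (Module.finrank ℚ K * Module.finrank K L)) := by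
        have h8 : (4 ^ j - 1) * (C * (Module.finrank ℚ K * Module.finrank K L)) ≤
            4 ^ j * (C * (Module.finrank ℚ K * Module.finrank K L)) :=
          mul_le_mul_of_nonneg_right (by linarith) h5
        linarith
      _ = _ := by ring

end

end Pool.Agent.Lib.MP_17a322_nt.VA
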