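import Pool.Agent.Lib.MP_17a322_nt.VA.LB9

/-!
Independence of vectors with increments of heights; the hypotheses of the theorem on blocks.
-/

universe u

namespace Pool.Agent.Lib.MP_17a322_nt.VA

open MvPolynomial Height
open Pool.Agent.Lib.MP_17a322_nt.RO
open Pool.Agent.Lib.MP_17a322_nt.VJ
open Pool.Agent.Lib.MP_17a322_nt.VN

/-- Vectors with increments of heights are independent. -/
theorem linInd_of_wh {K : Type*} [Field K] [AdmissibleAbsValues K] {c n : ℕ}
    (E : Fin c → Fin n → K) (δ : ℝ) (hδ : 0 < δ) (h : ∀ b < c, δ + wh E b ≤ wh E (b + 1)) :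
    LinearIndependent K E := by
  classical
  rcases Nat.eq_zero_or_pos c with rfl | hc
  · exact linearIndependent_empty_type
  · have h1 := h (c - 1) (by omega)
    rw [Nat.sub_add_cancel hc] at h1
    have h2 : 0 ≤ wh E (c - 1) := logHeight_nonneg _
    have h4 : ∃ I : Fin c → Fin n, (Matrix.of fun a b : Fin c =>
        if h : (a : ℕ) < c then E ⟨a, h⟩ (I b) else 0).det ≠ 0 := by
      by_contra hcon
      have hcon' : ∀ I : Fin c → Fin n, (Matrix.of fun a b : Fin c =>
        if h : (a : ℕ) < c then E ⟨a, h⟩ (I b) else 0).det = 0 := by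
        intro I
        by_contra h6
        exact hcon ⟨I, h6⟩
      have h5 : wh E c = 0 := by
        unfold wh
        have h7 : (fun I : Fin c → Fin n => (Matrix.of fun a b : Fin c =>
          if h : (a : ℕ) < c then E ⟨a, h⟩ (I b) else 0).det) = 0 := funext hcon'
        rw [h7, logHeight_zero]
      linarith
    obtain ⟨I, hI⟩ := h4
    have h6 := Matrix.linearIndependent_rows_of_det_ne_zero hI
    refine LinearIndependent.of_comp (LinearMap.funLeft K K I) ?_
    have h7 : (LinearMap.funLeft K K I) ∘ E = (Matrix.of fun a b : Fin c =>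
        if h : (a : ℕ) < c then E ⟨a, h⟩ (I b) else 0).row := by
      funext a b
      show E a (I b) = dite _ _ _
      rw [dif_pos a.2]
    rw [h7]
    exact h6

section

variable {K : Type u} [Field K] {N : ℕ} {A : AV K N} {n e : ℕ} (nd : Noe A n e)

/-- The columns at representatives of two points. -/
theorem block_hyp {L : Type u} [Field L] [Algebra K L] (P Q : A.Pts L) {y M : Fin (N + 1) → L}
    (hy : A.Rep P y) (hM : A.Rep Q M) (h0 : lf (nd.l 0) (A.x (P - Q)) ≠ 0) :
    (∃ a, lf (nd.l 0) (A.col a y M) ≠ 0) ∧ ∀ (a : Fin (N + 1)) (k : Fin n),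
      lf (nd.l k.succ) (A.col a y M) = nd.s (P - Q) k * lf (nd.l 0) (A.col a y M) := by
  obtain ⟨c, hc, hs⟩ := hy.spec hM
  have h1 : ∀ (a : Fin (N + 1)) (l : Fin (N + 1) → K),
      lf l (A.col a y M) = c * A.x (P + Q) a * lf l (A.x (P - Q)) := by
    intro a l
    unfold lf AV.col
    rw [Finset.mul_sum]
    refine Finset.sum_congr rfl fun b _ => ?_
    rw [hs]
    ring
  refine ⟨?_, fun a k => ?_⟩
  · obtain ⟨a, ha⟩ := A.exists_x_ne (P + Q)
    refine ⟨a, ?_⟩
    rw [h1]
    exact mul_ne_zero (mul_ne_zero hc ha) h0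
  · rw [h1, h1]
    unfold Noe.s
    field_simp

end

end Pool.Agent.Lib.MP_17a322_nt.VA
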