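import Pool.Agent.Lib.MP_17a322_nt.VA.LB8

/-!
The auxiliary polynomial in the variables `x t` (`Sum.inl`) and `ξ (i, t)` (`Sum.inr`); the height of points
whose Noether coordinates are roots of unity.
-/

universe u

namespace Pool.Agent.Lib.MP_17a322_nt.VA

open MvPolynomial Height
open Pool.Agent.Lib.MP_17a322_nt.RO
open Pool.Agent.Lib.MP_17a322_nt.VJ
open Pool.Agent.Lib.MP_17a322_nt.VN

/-- The auxiliary polynomial. -/
noncomputable def NFS {K : Type*} [Field K] {m n : ℕ} (N J : ℕ) (j : Fin m → ℕ)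
    (F : (Fin n → ℕ) → (Fin m → Fin n → ℕ) → K) : MvPolynomial (Fin n ⊕ Fin m × Fin n) K :=
  ∑ a ∈ box (fun _ : Fin n => N * 4 ^ J + 1), ∑ ν ∈ BB (fun i : Fin m => N * 4 ^ (J - j i) + 1),
    monomial (Finsupp.equivFunOnFinite.symm (Sum.elim a fun p => ν p.1 p.2)) (F a ν)

/-- The inclusion of the variables. -/
def gS2 {m n : ℕ} : Fin n ⊕ Fin m × Fin n → VL m n :=
  Sum.elim Sum.inl fun p => Sum.inr (Sum.inr p)

theorem gS2_inj {m n : ℕ} : Function.Injective (gS2 (m := m) (n := n)) := by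
  rintro (a | a) (b | b) h
  · exact congrArg _ (Sum.inl.inj h)
  · exact absurd h (by unfold gS2; simp)
  · exact absurd h (by unfold gS2; simp)
  · exact congrArg Sum.inr (Sum.inr.inj (Sum.inr.inj h))

private theorem LB9_map {m n : ℕ} (a : Fin n → ℕ) (ν : Fin m → Fin n → ℕ) :
    Finsupp.mapDomain gS2 (Finsupp.equivFunOnFinite.symm (Sum.elim a fun p => ν p.1 p.2)) =
      nx a ν := by
  classical
  refine Finsupp.ext fun z => ?_
  rcases z with t | p | p
  · have h1 := Finsupp.mapDomain_apply gS2_inj (Finsupp.equivFunOnFinite.symm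
      (Sum.elim a fun p : Fin m × Fin n => ν p.1 p.2)) (Sum.inl t)
    exact h1
  · rw [Finsupp.mapDomain_of_notMem_range]
    · rfl
    · rintro ⟨z, hz⟩
      rcases z with z | z
      · exact absurd hz (by unfold gS2; simp)
      · exact absurd hz (by unfold gS2; simp)
  · have h1 := Finsupp.mapDomain_apply gS2_inj (Finsupp.equivFunOnFinite.symm
      (Sum.elim a fun p : Fin m × Fin n => ν p.1 p.2)) (Sum.inr p)
    exact h1

theorem NFS_rename {K : Type*} [Field K] {m n : ℕ} (N J : ℕ) (j : Fin m → ℕ)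
    (F : (Fin n → ℕ) → (Fin m → Fin n → ℕ) → K) :
    rename gS2 (NFS N J j F) = NF (box (fun _ : Fin n => N * 4 ^ J + 1))
      (BB (fun i : Fin m => N * 4 ^ (J - j i) + 1)) F := by
  unfold NFS NF
  rw [map_sum]
  refine Finset.sum_congr rfl fun a _ => ?_
  rw [map_sum]
  refine Finset.sum_congr rfl fun ν _ => ?_
  rw [rename_monomial, LB9_map]

theorem NFS_ne {K : Type*} [Field K] {m n : ℕ} (N J : ℕ) (j : Fin m → ℕ)
    (F : (Fin n → ℕ) → (Fin m → Fin n → ℕ) → K) (hne : ∃ a ν, F a ν ≠ 0)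
    (hsupp : ∀ a ν, F a ν ≠ 0 → a ∈ box (fun _ : Fin n => N * 4 ^ J + 1) ∧
      ν ∈ BB (fun i : Fin m => N * 4 ^ (J - j i) + 1)) : NFS N J j F ≠ 0 := by
  intro h0
  refine NF_ne _ _ F hne hsupp ?_
  rw [← NFS_rename, h0, map_zero]

theorem NFS_deg {K : Type*} [Field K] {m n : ℕ} (N J : ℕ) (j : Fin m → ℕ) (hJ : ∀ i, j i ≤ J)
    (F : (Fin n → ℕ) → (Fin m → Fin n → ℕ) → K) :
    (∀ t, ((NFS N J j F).degreeOf (Sum.inl t) : ℝ) ≤ N * 4 ^ J) ∧
    ∀ p : Fin m × Fin n, (4 : ℝ) ^ j p.1 * (NFS N J j F).degreeOf (Sum.inr p) ≤ N * 4 ^ J := by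
  obtain ⟨-, h2, h3⟩ := NF_degrees (m := m) (n := n) N J j hJ F
  have h1 : ∀ y, (NFS N J j F).degreeOf y = (NF (box (fun _ : Fin n => N * 4 ^ J + 1))
      (BB (fun i : Fin m => N * 4 ^ (J - j i) + 1)) F).degreeOf (gS2 y) := by
    intro y
    rw [← NFS_rename]
    exact (degreeOf_rename_of_injective gS2_inj y).symm
  refine ⟨fun t => ?_, fun p => ?_⟩
  · rw [h1]
    exact h2 t
  · rw [h1]
    exact h3 p

theorem NFS_height {K : Type u} [Field K] [NumberField K] {m n : ℕ} (N J : ℕ) (j : Fin m → ℕ)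
    (F : (Fin n → ℕ) → (Fin m → Fin n → ℕ) → K) (hne : ∃ a ν, F a ν ≠ 0)
    (hsupp : ∀ a ν, F a ν ≠ 0 → a ∈ box (fun _ : Fin n => N * 4 ^ J + 1) ∧
      ν ∈ BB (fun i : Fin m => N * 4 ^ (J - j i) + 1)) :
    nh (NFS N J j F) ≤ logHeight (fun p : (box (fun _ : Fin n => N * 4 ^ J + 1)) ×
          (BB (fun i : Fin m => N * 4 ^ (J - j i) + 1) : Finset (Fin m → Fin n → ℕ)) =>
            F p.1 p.2) + Module.finrank ℚ K * (n * (m + 1) * (N * 4 ^ J)) := by
  have h1 := NF_height N J j F hne hsupp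
  have h2 : nh (NF (box (fun _ : Fin n => N * 4 ^ J + 1))
      (BB (fun i : Fin m => N * 4 ^ (J - j i) + 1)) F) = nh (NFS N J j F) := by
    rw [← NFS_rename]
    unfold nh
    congr 1
    funext v
    rw [NV_rename v _ _ gS2_inj]
  rw [← h2]
  exact h1

private theorem LB9_term {K B : Type*} [Field K] [CommRing B] [Algebra K B] {m n : ℕ}
    (x : Fin n → B) (a : Fin n → ℕ) (ν : Fin m → Fin n → ℕ) (c : K) :
    aeval (Sum.elim (fun t => (C (x t) : MvPolynomial (Fin m × Fin n) B)) X)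
      (monomial (Finsupp.equivFunOnFinite.symm (Sum.elim a fun p => ν p.1 p.2)) c) =
      monomial (Finsupp.equivFunOnFinite.symm fun p : Fin m × Fin n => ν p.1 p.2)
        ((∏ t, x t ^ a t) * algebraMap K B c) := by
  classical
  rw [aeval_monomial, Finsupp.prod_fintype _ _ (fun i => pow_zero _), Fintype.prod_sum_type]
  have h1 : ∏ t : Fin n, (Sum.elim (fun t => (C (x t) : MvPolynomial (Fin m × Fin n) B)) X
      (Sum.inl t)) ^ (Finsupp.equivFunOnFinite.symm (Sum.elim a fun p : Fin m × Fin n =>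
        ν p.1 p.2) (Sum.inl t)) = C (∏ t, x t ^ a t) := by
    rw [map_prod]
    refine Finset.prod_congr rfl fun t _ => ?_
    rw [map_pow]
    rfl
  have h3 : ∏ p : Fin m × Fin n, (Sum.elim (fun t => (C (x t) : MvPolynomial (Fin m × Fin n) B))
      X (Sum.inr p)) ^ (Finsupp.equivFunOnFinite.symm (Sum.elim a fun p : Fin m × Fin n =>
        ν p.1 p.2) (Sum.inr p)) =
      monomial (Finsupp.equivFunOnFinite.symm fun p : Fin m × Fin n => ν p.1 p.2) (1 : B) := by
    rw [monomial_eq, C_1, one_mul, Finsupp.prod_fintype _ _ (fun i => pow_zero _)]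
    rfl
  rw [h1, h3, IsScalarTower.algebraMap_apply K B (MvPolynomial (Fin m × Fin n) B),
    MvPolynomial.algebraMap_eq, ← mul_assoc, ← map_mul, C_mul_monomial, mul_one,
    mul_comm (algebraMap K B c)]

/-- The coefficients of the value. -/
theorem NFS_aeval {K L : Type*} [Field K] [Field L] [Algebra K L] {B : Type*} [CommRing B]
    [Algebra L B] [Algebra K B] [IsScalarTower K L B] {m n : ℕ}
    (N J : ℕ) (j : Fin m → ℕ) (F : (Fin n → ℕ) → (Fin m → Fin n → ℕ) → K)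
    (hsupp : ∀ a ν, F a ν ≠ 0 → a ∈ box (fun _ : Fin n => N * 4 ^ J + 1) ∧
      ν ∈ BB (fun i : Fin m => N * 4 ^ (J - j i) + 1))
    (x : Fin n → L) (e' : Fin m × Fin n →₀ ℕ) :
    coeff e' (aeval (Sum.elim (fun t => (C (algebraMap L B (x t)) :
      MvPolynomial (Fin m × Fin n) B)) X) (NFS N J j F)) =
      algebraMap L B (cfA N J F x fun i t => e' (i, t)) := by
  classical
  have h0 : aeval (Sum.elim (fun t => (C (algebraMap L B (x t)) :
      MvPolynomial (Fin m × Fin n) B)) X) (NFS N J j F) =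
      ∑ a ∈ box (fun _ : Fin n => N * 4 ^ J + 1),
        ∑ ν ∈ BB (fun i : Fin m => N * 4 ^ (J - j i) + 1),
        monomial (Finsupp.equivFunOnFinite.symm fun p : Fin m × Fin n => ν p.1 p.2)
          ((∏ t, algebraMap L B (x t) ^ a t) * algebraMap K B (F a ν)) := by
    unfold NFS
    rw [map_sum]
    refine Finset.sum_congr rfl fun a _ => ?_
    rw [map_sum]
    exact Finset.sum_congr rfl fun ν _ => LB9_term (fun t => algebraMap L B (x t)) a ν _
  rw [h0, coeff_sum]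
  unfold cfA
  rw [map_sum]
  refine Finset.sum_congr rfl fun a _ => ?_
  rw [map_mul, map_prod, ← IsScalarTower.algebraMap_apply K L B]
  simp only [map_pow]
  rw [coeff_sum, Finset.sum_eq_single (fun i t => e' (i, t))]
  · rw [coeff_monomial, if_pos]
    ext p
    rfl
  · intro ν _ hne
    rw [coeff_monomial, if_neg]
    intro h
    apply hne
    funext i t
    rw [← h]
    rfl
  · intro h
    have h1 : F a (fun i t => e' (i, t)) = 0 := by
      by_contra h2
      exact h (hsupp _ _ h2).2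
    rw [h1, map_zero, mul_zero, map_zero, coeff_zero]

/-- Points whose Noether coordinates are roots of unity. -/
theorem exists_hw {K : Type u} [Field K] [NumberField K] {N : ℕ} {A : AV K N} {n e : ℕ}
    (nd : Noe A n e) : ∃ C : ℝ, 0 ≤ C ∧ ∀ (L : Type u) [Field L] [NumberField L] [Algebra K L]
      (w : A.Pts L), lf (nd.l 0) (A.x w) ≠ 0 → (∀ t, ∃ k, 0 < k ∧ nd.s w t ^ k = 1) →
      A.h w ≤ C * Module.finrank ℚ L := by
  obtain ⟨κ, hκ⟩ := A.lf_lower nd.l nd.nz
  obtain ⟨C, hC, hCκ⟩ := κ.gs_log_le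
  refine ⟨C, hC, fun L _ _ _ w hw hs => ?_⟩
  have hrep := nd.rep_y w hw
  rw [← hrep.logHeight]
  refine le_trans ?_ (hCκ L)
  rw [← gs_log_vm hrep.ne_zero]
  refine gs_le (FS_log_vm hrep.ne_zero) (κ.FS_log L) fun v _ => ?_
  refine Real.log_le_log (vm_pos v hrep.ne_zero) ?_
  obtain ⟨i, hi⟩ := hκ L v (nd.y w) (nd.y_isPt w) hrep.ne_zero
  refine hi.trans (le_of_eq ?_)
  have h1 : v (lf (nd.l i) (nd.y w)) = 1 := by
    rcases Fin.eq_zero_or_eq_succ i with rfl | ⟨t, rfl⟩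
    · rw [nd.lf_y_zero w hw, map_one]
    · rw [nd.lf_y_succ]
      obtain ⟨k, hk, hk1⟩ := hs t
      have h2 : v (nd.s w t) ^ k = 1 := by rw [← map_pow, hk1, map_one]
      exact (pow_eq_one_iff_of_nonneg (v.nonneg _) hk.ne').1 h2
  rw [h1, mul_one]

end Pool.Agent.Lib.MP_17a322_nt.VA
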