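import Pool.Agent.Lib.MP_17a322_nt.VA.LA2
import Pool.Agent.Lib.MP_17a322_nt.VA.A5b
import Pool.Agent.Lib.MP_17a322_nt.VA.A3b
import Pool.Agent.Lib.MP_17a322_nt.VJ.A6
import Pool.Agent.Lib.MP_17a322_nt.VJ.J9a

/-!
VA, part LA: sizes bounded by powers of the size of the point; polynomials in one more variable; linear
forms.
-/

universe u

namespace Pool.Agent.Lib.MP_17a322_nt.VA

open MvPolynomial Height
open Pool.Agent.Lib.MP_17a322_nt.RO
open Pool.Agent.Lib.MP_17a322_nt.VJ
open Pool.Agent.Lib.MP_17a322_nt.VN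

section

variable {L : Type*} [Field L] (v : AbsoluteValue L ℝ) {ι : Type*} [Fintype ι]

theorem one_le_mq (q : ι → L) : 1 ≤ mq v q := le_max_left _ _

theorem mq_pos (q : ι → L) : 0 < mq v q := one_pos.trans_le (one_le_mq v q)

theorem le_mq (q : ι → L) (i : ι) : v (q i) ≤ mq v q :=
  (le_vm v q i).trans (le_max_right _ _)

theorem mq_le {q : ι → L} {B : ℝ} (hB : 1 ≤ B) (h : ∀ i, v (q i) ≤ B) : mq v q ≤ B := by
  unfold mq
  refine max_le hB ?_
  rcases isEmpty_or_nonempty ι with hι | hι
  · rw [Real.iSup_of_isEmpty]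
    exact zero_le_one.trans hB
  · exact ciSup_le h

end

section

variable {K : Type u} [Field K] {N : ℕ}

/-- `f` is bounded by a size constant times a power of the size of the point. -/
def Dom (K : Type u) [Field K] (N : ℕ)
    (f : ∀ (L : Type u) [Field L] [Algebra K L], AbsoluteValue L ℝ → (Fin (N + 1) → L) → ℝ) :
    Prop :=
  ∃ (E : SC K) (c : ℕ), ∀ (L : Type u) [Field L] [Algebra K L] (v : AbsoluteValue L ℝ)
    (y : Fin (N + 1) → L), f L v y ≤ E.k v * mq v y ^ c

variable {f g : ∀ (L : Type u) [Field L] [Algebra K L], AbsoluteValue L ℝ → (Fin (N + 1) → L) → ℝ}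

theorem one_le_SCmq (E : SC K) (c : ℕ) {L : Type u} [Field L] [Algebra K L]
    (v : AbsoluteValue L ℝ) (y : Fin (N + 1) → L) : 1 ≤ E.k v * mq v y ^ c :=
  one_le_mul_of_one_le_of_one_le (E.one_le v) (one_le_pow₀ (one_le_mq v y))

theorem Dom.mono (hg : Dom K N g)
    (h : ∀ (L : Type u) [Field L] [Algebra K L] (v : AbsoluteValue L ℝ) (y : Fin (N + 1) → L),
      f L v y ≤ g L v y) : Dom K N f := by
  obtain ⟨E, c, hE⟩ := hg
  exact ⟨E, c, fun L _ _ v y => (h L v y).trans (hE L v y)⟩

theorem Dom.mul (hf : Dom K N f) (hg : Dom K N g)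
    (h : ∀ (L : Type u) [Field L] [Algebra K L] (v : AbsoluteValue L ℝ) (y : Fin (N + 1) → L),
      0 ≤ g L v y) : Dom K N fun L _ _ v y => f L v y * g L v y := by
  obtain ⟨E, c, hE⟩ := hf
  obtain ⟨E', c', hE'⟩ := hg
  refine ⟨E.mul E', c + c', fun L _ _ v y => ?_⟩
  have h0 : 0 ≤ mq v y := (mq_pos v y).le
  calc f L v y * g L v y ≤ (E.k v * mq v y ^ c) * (E'.k v * mq v y ^ c') :=
        mul_le_mul (hE L v y) (hE' L v y) (h L v y)
          (zero_le_one.trans (one_le_SCmq E c v y))
    _ = (E.k v * E'.k v) * mq v y ^ (c + c') := by ring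
    _ ≤ (E.mul E').k v * mq v y ^ (c + c') :=
        mul_le_mul_of_nonneg_right (SC.mul_le E E' v) (pow_nonneg h0 _)

theorem Dom.max (hf : Dom K N f) (hg : Dom K N g) :
    Dom K N fun L _ _ v y => Max.max (f L v y) (g L v y) := by
  obtain ⟨E, c, hE⟩ := hf
  obtain ⟨E', c', hE'⟩ := hg
  refine ⟨E.mul E', c + c', fun L _ _ v y => ?_⟩
  have h0 : 0 ≤ mq v y := (mq_pos v y).le
  have h1 := one_le_SCmq E c v y
  have h2 := one_le_SCmq E' c' v y
  have h3 : (E.k v * mq v y ^ c) * (E'.k v * mq v y ^ c') ≤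
      (E.mul E').k v * mq v y ^ (c + c') := by
    calc (E.k v * mq v y ^ c) * (E'.k v * mq v y ^ c') =
          (E.k v * E'.k v) * mq v y ^ (c + c') := by ring
      _ ≤ (E.mul E').k v * mq v y ^ (c + c') :=
          mul_le_mul_of_nonneg_right (SC.mul_le E E' v) (pow_nonneg h0 _)
  refine max_le ?_ ?_
  · exact (hE L v y).trans ((le_mul_of_one_le_right (zero_le_one.trans h1) h2).trans h3)
  · exact (hE' L v y).trans ((le_mul_of_one_le_left (zero_le_one.trans h2) h1).trans h3)

theorem Dom_one : Dom K N fun _ _ _ _ _ => 1 :=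
  ⟨⟨∅, 0⟩, 0, fun L _ _ v y => one_le_SCmq _ 0 v y⟩

theorem Dom.pow (hf : Dom K N f)
    (h : ∀ (L : Type u) [Field L] [Algebra K L] (v : AbsoluteValue L ℝ) (y : Fin (N + 1) → L),
      0 ≤ f L v y) (k : ℕ) : Dom K N fun L _ _ v y => f L v y ^ k := by
  induction k with
  | zero => exact Dom_one.mono fun L _ _ v y => by rw [pow_zero]
  | succ k ih =>
    exact (ih.mul hf h).mono fun L _ _ v y => by rw [pow_succ]

theorem Dom_adm {F : ∀ (L : Type u) [Field L] [Algebra K L], AbsoluteValue L ℝ → ℝ}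
    (hF : Adm.{u, u} K F) : Dom K N fun L _ _ v _ => F L v := by
  obtain ⟨E, hE⟩ := hF.exists_SC
  exact ⟨E, 0, fun L _ _ v y => by
    rw [pow_zero, mul_one]
    exact hE L v⟩

theorem Dom_mq : Dom K N fun _ _ _ v y => mq v y :=
  ⟨⟨∅, 0⟩, 1, fun L _ _ v y => by
    rw [pow_one]
    exact le_mul_of_one_le_left (mq_pos v y).le (SC.one_le _ v)⟩

theorem Dom.prod {ι : Type*} (s : Finset ι)
    (F : ι → ∀ (L : Type u) [Field L] [Algebra K L], AbsoluteValue L ℝ → (Fin (N + 1) → L) → ℝ)
    (hF : ∀ i ∈ s, Dom K N (F i))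
    (h : ∀ i ∈ s, ∀ (L : Type u) [Field L] [Algebra K L] (v : AbsoluteValue L ℝ)
      (y : Fin (N + 1) → L), 0 ≤ F i L v y) :
    Dom K N fun L _ _ v y => ∏ i ∈ s, F i L v y := by
  classical
  induction s using Finset.induction_on with
  | empty => exact Dom_one.mono fun L _ _ v y => by rw [Finset.prod_empty]
  | insert a s ha ih =>
    have h1 := ih (fun i hi => hF i (Finset.mem_insert_of_mem hi))
      (fun i hi => h i (Finset.mem_insert_of_mem hi))
    refine ((hF a (Finset.mem_insert_self a s)).mul h1 fun L _ _ v y =>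
      Finset.prod_nonneg fun i hi => h i (Finset.mem_insert_of_mem hi) L v y).mono
        fun L _ _ v y => ?_
    rw [Finset.prod_insert ha]

/-- The maximum over a finite family. -/
theorem Dom.family {ι : Type*} [Finite ι]
    (F : ι → ∀ (L : Type u) [Field L] [Algebra K L], AbsoluteValue L ℝ → (Fin (N + 1) → L) → ℝ)
    (hF : ∀ i, Dom K N (F i)) :
    ∃ (E : SC K) (c : ℕ), ∀ i (L : Type u) [Field L] [Algebra K L] (v : AbsoluteValue L ℝ)
      (y : Fin (N + 1) → L), F i L v y ≤ E.k v * mq v y ^ c := by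
  classical
  obtain ⟨n, ⟨en⟩⟩ := Finite.exists_equiv_fin ι
  have h1 : Dom K N fun L _ _ v y => ∏ i : Fin n, Max.max 1 (F (en.symm i) L v y) :=
    Dom.prod Finset.univ (fun i L _ _ v y => Max.max 1 (F (en.symm i) L v y))
      (fun i _ => Dom_one.max (hF _)) fun i _ L _ _ v y => zero_le_one.trans (le_max_left _ _)
  obtain ⟨E, c, hE⟩ := h1
  refine ⟨E, c, fun i L _ _ v y => ?_⟩
  refine le_trans ?_ (hE L v y)
  have h2 := le_prod_max Finset.univ (fun i : Fin n => Max.max 1 (F (en.symm i) L v y))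
    (fun i _ => le_max_left _ _) (Finset.mem_univ (en i))
  refine le_trans ?_ h2
  rw [Equiv.symm_apply_apply]
  exact le_max_right _ _

theorem Dom_aeval (F : MvPolynomial (Fin (N + 1)) K) :
    Dom K N fun _ _ _ v y => v (aeval y F) := by
  have h1 : Dom K N fun L _ _ v y => Max.max 1 (NV v (MvPolynomial.map (algebraMap K L) F)) *
      ∏ t, mq v y ^ (F.degreeOf t) := by
    refine Dom.mul (Dom_adm (Adm_NV F)) (Dom.prod Finset.univ _ (fun i _ =>
      Dom_mq.pow (fun L _ _ v y => (mq_pos v y).le) _) fun i _ L _ _ v y =>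
        pow_nonneg (mq_pos v y).le _) fun L _ _ v y =>
        Finset.prod_nonneg fun i _ => pow_nonneg (mq_pos v y).le _
  refine h1.mono fun L _ _ v y => ?_
  refine ((SN_self v).aeval_le' F (fun t => F.degreeOf t) (fun t => le_rfl) y).trans ?_
  refine mul_le_mul (le_max_right _ _) ?_ (Finset.prod_nonneg fun i _ =>
    pow_nonneg (zero_le_one.trans (le_max_left _ _)) _) (zero_le_one.trans (le_max_left _ _))
  refine Finset.prod_le_prod (fun i _ => pow_nonneg (zero_le_one.trans (le_max_left _ _)) _)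
    fun i _ => ?_
  exact pow_le_pow_left₀ (zero_le_one.trans (le_max_left _ _))
    (max_le (one_le_mq v y) (le_mq v y i)) _

/-- The size of a translated polynomial. -/
theorem Dom_tr {σ : Type} [Fintype σ] (H : MvPolynomial σ K)
    (G : σ → MvPolynomial (Fin (N + 1)) K) :
    Dom K N fun L _ _ v y => NV v (tr (fun o => aeval y (G o))
      (MvPolynomial.map (algebraMap K L) H)) := by
  have h1 : Dom K N fun L _ _ v y => Max.max 1 (NV v (MvPolynomial.map (algebraMap K L) H)) *
      ∏ t, (cst v 2 * Max.max 1 (v (aeval y (G t)))) ^ (H.degreeOf t) := by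
    have h2 : ∀ t, Dom K N fun L _ _ v y => cst v 2 * Max.max 1 (v (aeval y (G t))) := fun t =>
      Dom.mul (Dom_adm (Adm_cst 2)) (Dom_one.max (Dom_aeval (G t))) fun L _ _ v y =>
        zero_le_one.trans (le_max_left _ _)
    have h3 : ∀ t, ∀ (L : Type u) [Field L] [Algebra K L] (v : AbsoluteValue L ℝ)
        (y : Fin (N + 1) → L), 0 ≤ cst v 2 * Max.max 1 (v (aeval y (G t))) := fun t L _ _ v y =>
      mul_nonneg (cst_nonneg v 2) (zero_le_one.trans (le_max_left _ _))
    refine Dom.mul (Dom_adm (Adm_NV H)) (Dom.prod Finset.univ _ (fun i _ =>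
      (h2 i).pow (h3 i) _) fun i _ L _ _ v y => pow_nonneg (h3 i L v y) _) fun L _ _ v y =>
        Finset.prod_nonneg fun i _ => pow_nonneg (h3 i L v y) _
  refine h1.mono fun L _ _ v y => ?_
  have h4 : ∀ t, (MvPolynomial.map (algebraMap K L) H).degreeOf t ≤ H.degreeOf t := fun t =>
    degreeOf_le_iff.2 fun m hm => monomial_le_degreeOf t (support_map_subset _ _ hm)
  refine (NV_tr_le v _ (fun t => H.degreeOf t) h4 _).trans ?_
  refine mul_le_mul_of_nonneg_right (le_max_right _ _) (Finset.prod_nonneg fun i _ =>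
    pow_nonneg (mul_nonneg (cst_nonneg v 2) (zero_le_one.trans (le_max_left _ _))) _)

end

section

variable {K : Type*} [Field K] {n : ℕ}

/-- A polynomial in one more variable. -/
noncomputable def pO (Φ : Polynomial (MvPolynomial (Fin n) K)) :
    MvPolynomial (Option (Fin n)) K :=
  (optionEquivLeft K (Fin n)).symm Φ

theorem aeval_pO {R : Type*} [CommRing R] [Algebra K R] (s : Fin n → R) (t : R)
    (Φ : Polynomial (MvPolynomial (Fin n) K)) :
    aeval (ow t s) (pO Φ) = Φ.eval₂ (aeval (R := K) s).toRingHom t := by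
  have h : ((aeval (R := K) (ow t s)).toRingHom).comp
      ((optionEquivLeft K (Fin n)).symm : Polynomial (MvPolynomial (Fin n) K) →+*
        MvPolynomial (Option (Fin n)) K) =
      Polynomial.eval₂RingHom (aeval (R := K) s).toRingHom t := by
    apply Polynomial.ringHom_ext
    · intro a
      have h1 : (((aeval (R := K) (ow t s)).toRingHom).comp
          ((optionEquivLeft K (Fin n)).symm : Polynomial (MvPolynomial (Fin n) K) →+*
            MvPolynomial (Option (Fin n)) K)).comp Polynomial.C =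
          (Polynomial.eval₂RingHom (aeval (R := K) s).toRingHom t).comp Polynomial.C := by
        apply MvPolynomial.ringHom_ext
        · intro b
          simp
        · intro i
          simp [ow]
      exact DFunLike.congr_fun h1 a
    · simp [ow]
  exact DFunLike.congr_fun h Φ

theorem pO_C (a : MvPolynomial (Fin n) K) : pO (Polynomial.C a) = rename some a := by
  have h1 : (((optionEquivLeft K (Fin n)).symm : Polynomial (MvPolynomial (Fin n) K) →+*
            MvPolynomial (Option (Fin n)) K)).comp Polynomial.C =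
          (rename (R := K) (some : Fin n → Option (Fin n))).toRingHom := by
    apply MvPolynomial.ringHom_ext
    · intro b
      simp
    · intro i
      simp
  exact DFunLike.congr_fun h1 a

theorem pO_X : pO (Polynomial.X : Polynomial (MvPolynomial (Fin n) K)) = X none := by
  unfold pO
  simp

theorem pO_add (Φ Ψ : Polynomial (MvPolynomial (Fin n) K)) : pO (Φ + Ψ) = pO Φ + pO Ψ :=
  map_add _ _ _

theorem pO_mul (Φ Ψ : Polynomial (MvPolynomial (Fin n) K)) : pO (Φ * Ψ) = pO Φ * pO Ψ :=
  map_mul _ _ _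

theorem pO_pow (Φ : Polynomial (MvPolynomial (Fin n) K)) (k : ℕ) : pO (Φ ^ k) = pO Φ ^ k :=
  map_pow _ _ _

theorem pderiv_pO (Φ : Polynomial (MvPolynomial (Fin n) K)) :
    pderiv none (pO Φ) = pO (Polynomial.derivative Φ) := by
  classical
  induction Φ using Polynomial.induction_on' with
  | add p q hp hq => rw [pO_add, map_add, hp, hq, Polynomial.derivative_add, pO_add]
  | monomial k a =>
    have h0 : pderiv (none : Option (Fin n)) (rename (some : Fin n → Option (Fin n)) a) = 0 := by
      refine pderiv_eq_zero_of_notMem_vars ?_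
      intro h
      have h1 := vars_rename (some : Fin n → Option (Fin n)) a h
      rw [Finset.mem_image] at h1
      obtain ⟨b, _, hb⟩ := h1
      exact Option.some_ne_none b hb
    rw [← Polynomial.C_mul_X_pow_eq_monomial, pO_mul, pO_pow, pO_C, pO_X, Derivation.leibniz,
      h0, smul_zero, add_zero, Derivation.leibniz_pow, pderiv_X_self, Polynomial.derivative_mul,
      Polynomial.derivative_C, zero_mul, zero_add, Polynomial.derivative_X_pow, pO_mul, pO_mul,
      pO_pow, pO_X, pO_C]
    have h2 : pO (Polynomial.C ((k : ℕ) : MvPolynomial (Fin n) K)) =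
        ((k : ℕ) : MvPolynomial (Option (Fin n)) K) := by
      rw [pO_C, map_natCast]
    rw [h2]
    simp only [smul_eq_mul, nsmul_eq_mul, mul_one]

end

section

variable {K : Type*} [Field K] {N : ℕ}

/-- A linear form as a polynomial. -/
noncomputable def lfP (l : Fin (N + 1) → K) : MvPolynomial (Fin (N + 1)) K :=
  ∑ a, C (l a) * X a

theorem aeval_lfP (l : Fin (N + 1) → K) {R : Type*} [CommRing R] [Algebra K R]
    (y : Fin (N + 1) → R) : aeval y (lfP l) = lf l y := by
  unfold lfP lf
  rw [map_sum]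
  refine Finset.sum_congr rfl fun a _ => ?_
  rw [map_mul, algHom_C, aeval_X]

theorem map_lf (l : Fin (N + 1) → K) {R R' : Type*} [CommRing R] [Algebra K R] [CommRing R']
    [Algebra K R'] (φ : R →ₐ[K] R') (y : Fin (N + 1) → R) :
    φ (lf l y) = lf l fun a => φ (y a) := by
  unfold lf
  rw [map_sum]
  refine Finset.sum_congr rfl fun a _ => ?_
  rw [map_mul, AlgHom.commutes]

end

end Pool.Agent.Lib.MP_17a322_nt.VA
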