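import Pool.Agent.Lib.MP_17a322_nt.VA.E21
import Pool.Agent.Lib.MP_17a322_nt.VA.E01

/-!
Part E of VA: genericity of the elimination data of an abelian variety.
-/

universe u

namespace Pool.Agent.Lib.MP_17a322_nt.VA

open MvPolynomial

section

variable {K : Type u} [Field K] {N : ℕ} {A : AV K N} {n e : ℕ} (nd : Noe A n e)
  {Ω : Type u} [Field Ω] [Algebra K Ω]

/-- A root of `f` over a point with `δ ≠ 0` is a point. -/
theorem Noe.exists_pO (a : Option (Fin n) → Ω) (hf : aeval a nd.ed.f = 0)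
    (hδ : aeval (fun t : Fin n => a (some t)) nd.δ ≠ 0) :
    ∃ y : Fin (N + 1) → Ω, A.IsPt y ∧ lf (nd.l 0) y = 1 ∧ nd.pO y = a := by
  have h1 : nd.Φ.eval₂ (aeval (R := K) fun t : Fin n => a (some t)).toRingHom (a none) = 0 := by
    rw [← aeval_unp]
    exact hf
  obtain ⟨y, hy, h2, h3, h4⟩ := nd.back Ω _ _ h1 hδ.isUnit
  refine ⟨y, hy, h2, funext fun o => ?_⟩
  cases o with
  | none => exact h4
  | some t => exact h3 t

/-- The affine coordinates are algebraic over the Noether coordinates. -/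
theorem Noe.coord_mem {y : Fin (N + 1) → Ω} (hy : A.IsPt y) (h1 : lf (nd.l 0) y = 1) {S : Set Ω}
    (hS : ∀ k : Fin n, lf (nd.l k.succ) y ∈ acl K S) (a : Fin (N + 1)) : y a ∈ acl K S := by
  have hy0 : y ≠ 0 := by
    rintro rfl
    rw [show lf (nd.l 0) (0 : Fin (N + 1) → Ω) = 0 by simp [lf]] at h1
    exact zero_ne_one h1
  obtain ⟨P, c, hc, hP⟩ := AV.exists_rep hy0 hy
  have h2 : ∀ l : Fin (N + 1) → K, lf l y = c * lf l (A.x P) := by
    intro l
    rw [← lf_smulE]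
    congr 1
    exact funext hP
  have h3 : c * lf (nd.l 0) (A.x P) = 1 := by rw [← h2, h1]
  have h4 := alg_of_nz nd P 0 a
  have h5 : lf (nd.l 0) (A.x P) ≠ 0 := by
    intro h
    rw [h, mul_zero] at h3
    exact zero_ne_one h3
  have h6 : A.x P a / lf (nd.l 0) (A.x P) = y a := by
    rw [hP, eq_comm, eq_div_iff h5]
    linear_combination (A.x P a) * h3
  rw [h6, ← mem_acl] at h4
  refine acl_acl ?_ h4
  rintro _ ⟨i, rfl⟩
  have h7 : lf (nd.l i) (A.x P) / lf (nd.l 0) (A.x P) = lf (nd.l i) y := by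
    rw [h2, eq_comm, eq_div_iff h5]
    linear_combination (lf (nd.l i) (A.x P)) * h3
  simp only [h7]
  refine Fin.cases ?_ (fun k => ?_) i
  · rw [h1]
    exact one_mem _
  · exact hS k

/-- The main step: `P` is determined by `Q` and `P - 2 ^ j • Q`, `P + 2 ^ j • Q`. -/
theorem Noe.gen_aux {y Y : Fin (N + 1) → Ω} (h1 : lf (nd.l 0) y = 1) {P Q R : A.Pts Ω}
    (hP : A.Rep P y) (hQ : A.Rep Q Y) (S : Set Ω) (j : ℕ) (hR : P = R + 2 ^ j • Q ∨ P = R - 2 ^ j • Q)
    (hY : ∀ i, Y i ∈ acl K S) (k : Fin (n + 1)) (hk : lf (nd.l k) (A.x R) ≠ 0)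
    (hS : ∀ i, lf (nd.l i) (A.x R) / lf (nd.l k) (A.x R) ∈ acl K S) (i : Fin (N + 1)) :
    y i ∈ acl K S := by
  obtain ⟨Q', hQ'⟩ := exists_subE (acl K S) hQ hY
  have h2 : A.Rep R fun i => (lf (nd.l k) (A.x R))⁻¹ * A.x R i :=
    ⟨_, inv_ne_zero hk, fun _ => rfl⟩
  obtain ⟨R', hR'⟩ := exists_subE (acl K S) h2 (fun i => by
    have h3 := alg_of_nz nd R k i
    rw [← mem_acl] at h3
    rw [inv_mul_eq_div]
    refine acl_acl ?_ h3
    rintro _ ⟨i, rfl⟩
    exact hS i)
  have h4 : ∃ P' : A.Pts (acl K S), A.img (acl K S).val P' = P := by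
    rcases hR with h | h
    · exact ⟨R' + 2 ^ j • Q', by rw [AV.img_add, AV.img_nsmul, hR', hQ', h]⟩
    · exact ⟨R' - 2 ^ j • Q', by rw [AV.img_sub, AV.img_nsmul, hR', hQ', h]⟩
  obtain ⟨P', hP'⟩ := h4
  exact mem_sub (acl K S) P' (hP'.symm ▸ hP) h1 i

/-- A family of at most `2 n` elements such that the coordinates of `P` are algebraic over it and the
coordinates of `Q` is independent. -/
theorem gen_indep {n : ℕ} (a b : Option (Fin n) → Ω)
    (hab : AlgebraicIndependent K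
      (Sum.elim (fun t : Fin n => a (some t)) (fun t : Fin n => b (some t)) : Fin n ⊕ Fin n → Ω))
    (c : Fin n → Ω)
    (h : ∀ t, b (some t) ∈ acl K (Set.range (fun t : Fin n => a (some t)) ∪ Set.range c)) :
    AlgebraicIndependent K
      (Sum.elim (fun t : Fin n => a (some t)) c : Fin n ⊕ Fin n → Ω) := by
  refine card_indep le_rfl _ _ hab fun k => ?_
  rw [← mem_acl, Set.Sum.elim_range]
  rcases k with t | t
  · exact subset_acl (Or.inl ⟨t, rfl⟩)
  · exact h t

/-- The elimination data are generic. -/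
theorem Noe.ed_gen (j : ℕ) (a b : Option (Fin n) → Ω)
    (hab : AlgebraicIndependent K
      (Sum.elim (fun t : Fin n => a (some t)) (fun t : Fin n => b (some t)) : Fin n ⊕ Fin n → Ω))
    (ha : aeval a nd.ed.f = 0) (hb : aeval b nd.ed.f = 0) :
    aeval (Sum.elim a b) (nd.ed.b j none) ≠ 0 ∧
    ∀ t : Fin n, IsAlgebraic (IntermediateField.adjoin K
      (Set.range (fun t : Fin n => a (some t)) ∪ Set.range fun t : Fin n =>
        aeval (Sum.elim a b) (nd.ed.b j (some t)) / aeval (Sum.elim a b) (nd.ed.b j none)))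
        (b (some t)) := by
  have hδa : aeval (fun t : Fin n => a (some t)) nd.δ ≠ 0 := by
    have h1 : AlgebraicIndependent K (fun t : Fin n => a (some t)) :=
      hab.comp Sum.inl Sum.inl_injective
    intro h2
    exact nd.δ_ne (h1 (by rw [h2, map_zero]))
  have hδb : aeval (fun t : Fin n => b (some t)) nd.δ ≠ 0 := by
    have h1 : AlgebraicIndependent K (fun t : Fin n => b (some t)) :=
      hab.comp Sum.inr Sum.inr_injective
    intro h2
    exact nd.δ_ne (h1 (by rw [h2, map_zero]))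
  obtain ⟨Y, hY, hY1, rfl⟩ := nd.exists_pO a ha hδa
  obtain ⟨y, hy, hy1, rfl⟩ := nd.exists_pO b hb hδb
  have hne : ∀ y : Fin (N + 1) → Ω, lf (nd.l 0) y = 1 → y ≠ 0 := by
    rintro y h rfl
    rw [show lf (nd.l 0) (0 : Fin (N + 1) → Ω) = 0 by simp [lf]] at h
    exact zero_ne_one h
  obtain ⟨Q, hQ⟩ := AV.exists_rep (hne Y hY1) hY
  obtain ⟨P, hP⟩ := AV.exists_rep (hne y hy1) hy
  have hQj := hQ.mu j
  obtain ⟨c, hc, hspec⟩ := hP.spec hQj
  set G : Set Ω := Set.range (fun t : Fin n => nd.pO Y (some t)) with hG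
  -- nonvanishing
  have key : ∀ R : A.Pts Ω, (P = R + 2 ^ j • Q ∨ P = R - 2 ^ j • Q) →
      lf (nd.l 0) (A.x R) ≠ 0 := by
    intro R hR h0
    obtain ⟨k, hk⟩ := nd.nz Ω R
    have hk0 : k ≠ 0 := by
      rintro rfl
      exact hk h0
    obtain ⟨k, rfl⟩ := Fin.exists_succ_eq.2 hk0
    have h1 : ∀ t, nd.pO y (some t) ∈ acl K (G ∪
        Set.range fun i : Fin n => lf (nd.l i.succ) (A.x R) / lf (nd.l k.succ) (A.x R)) := by
      have h2 := nd.gen_aux hy1 hP hQ (G ∪ Set.range fun i : Fin n =>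
        lf (nd.l i.succ) (A.x R) / lf (nd.l k.succ) (A.x R)) j hR
        (fun i => nd.coord_mem hY hY1 (fun k => subset_acl (Or.inl ⟨k, rfl⟩)) i) k.succ hk (by
          refine Fin.cases ?_ (fun i => subset_acl (Or.inr ⟨i, rfl⟩))
          rw [h0, zero_div]
          exact zero_mem _)
      intro t
      show lf (nd.l t.succ) y ∈ _
      unfold lf
      exact sum_mem fun i _ => mul_mem (algebraMap_mem _ _) (h2 i)
    have h3 := gen_indep _ _ hab _ h1
    have h4 : Transcendental K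
        ((Sum.elim (fun t : Fin n => nd.pO Y (some t)) (fun i : Fin n =>
          lf (nd.l i.succ) (A.x R) / lf (nd.l k.succ) (A.x R)) : Fin n ⊕ Fin n → Ω)
            (Sum.inr k)) := h3.transcendental _
    apply h4
    rw [Sum.elim_inr, div_self hk]
    exact isAlgebraic_one
  have hR := key (P - 2 ^ j • Q) (Or.inl (sub_add_cancel _ _).symm)
  have hR' := key (P + 2 ^ j • Q) (Or.inr (add_sub_cancel_right _ _).symm)
  have hval : ∀ o, aeval (Sum.elim (nd.pO Y) (nd.pO y)) (nd.ed.b j o) =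
      ((aeval (fun k : Fin n => lf (nd.l k.succ) y) nd.δ) ^ 2 *
        ((aeval (fun k : Fin n => lf (nd.l k.succ) Y) nd.δ) ^ 4 ^ j) ^ 2 * c *
        lf (nd.l 0) (A.x (P + 2 ^ j • Q))) * lf (nd.lo o) (A.x (P - 2 ^ j • Q)) := by
    intro o
    rw [nd.aeval_b_pO hy hy1 hY hY1]
    have h1 : ∀ a', lf (nd.lo o) (A.col a' y (A.mu j Y)) =
        c * A.x (P + 2 ^ j • Q) a' * lf (nd.lo o) (A.x (P - 2 ^ j • Q)) := by
      intro a'
      rw [← lf_smulE]
      congr 1
      funext b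
      rw [mul_assoc]
      exact hspec a' b
    simp only [h1]
    have h2 : ∑ a', algebraMap K Ω (nd.l 0 a') * (c * A.x (P + 2 ^ j • Q) a' *
        lf (nd.lo o) (A.x (P - 2 ^ j • Q))) =
        c * lf (nd.l 0) (A.x (P + 2 ^ j • Q)) * lf (nd.lo o) (A.x (P - 2 ^ j • Q)) := by
      generalize lf (nd.lo o) (A.x (P - 2 ^ j • Q)) = z
      unfold lf
      rw [Finset.mul_sum, Finset.sum_mul]
      refine Finset.sum_congr rfl fun a' _ => ?_
      ring
    rw [h2]
    ring
  have hC : (aeval (fun k : Fin n => lf (nd.l k.succ) y) nd.δ) ^ 2 *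
        ((aeval (fun k : Fin n => lf (nd.l k.succ) Y) nd.δ) ^ 4 ^ j) ^ 2 * c *
        lf (nd.l 0) (A.x (P + 2 ^ j • Q)) ≠ 0 :=
    mul_ne_zero (mul_ne_zero (mul_ne_zero (pow_ne_zero _ hδb)
      (pow_ne_zero _ (pow_ne_zero _ hδa))) hc) hR'
  refine ⟨?_, fun t => ?_⟩
  · rw [hval]
    exact mul_ne_zero hC hR
  · have hq : ∀ t : Fin n, aeval (Sum.elim (nd.pO Y) (nd.pO y)) (nd.ed.b j (some t)) /
        aeval (Sum.elim (nd.pO Y) (nd.pO y)) (nd.ed.b j none) =
        lf (nd.l t.succ) (A.x (P - 2 ^ j • Q)) / lf (nd.l 0) (A.x (P - 2 ^ j • Q)) := by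
      intro t
      rw [hval, hval]
      exact mul_div_mul_left _ _ hC
    have hq' := funext hq
    rw [hq', ← mem_acl]
    show lf (nd.l t.succ) y ∈ _
    unfold lf
    refine sum_mem fun i _ => mul_mem (algebraMap_mem _ _) ?_
    refine nd.gen_aux hy1 hP hQ _ j (Or.inl (sub_add_cancel _ _).symm)
      (fun i => nd.coord_mem hY hY1 (fun k => subset_acl (Or.inl ⟨k, rfl⟩)) i) 0 hR ?_ i
    refine Fin.cases ?_ (fun i => subset_acl (Or.inr ⟨i, rfl⟩))
    rw [div_self hR]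
    exact one_mem _

end

end Pool.Agent.Lib.MP_17a322_nt.VA
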