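import Pool.Agent.Lib.MP_17a322_nt.VA.E21
import Pool.Agent.Lib.MP_17a322_nt.VA.A1

/-!
Part E of VA: degrees and heights of the elimination data `nd.ed` (VA/E21).

JOB E23a: `degreeOf_aeval_le`, `Noe.ed_degree`.
PROOF. `degreeOf_aeval_le`: `aeval g F = ∑ m ∈ F.support, C (coeff m F) * ∏ s ∈ m.support, g s ^ m s` (`aeval_def`, `eval₂_eq`), `degreeOf_sum_le`, `degreeOf_C_mul_le` (or `degreeOf_mul_le` and `degreeOf_C`), `degreeOf_prod_le`, `degreeOf_pow_le`.
`Noe.ed_degree`: let `d` be a bound for all `degreeOf y (nd.pv i)` and `degreeOf y (unp nd.Φ)` (finitely many), `C = 2 * d + ..` (anything). (1) `degreeOf (inl y) (rename inr (pv i)) = 0`, `degreeOf (inr y) (rename inr (pv i)) = degreeOf y (pv i) ≤ d` (`degreeOf_rename_of_injective`, `Sum.inr_injective`; for a variable outside the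
range: `degreeOf_eq_zero_iff`/`vars_rename`), similarly for `inl`. (2) For `v : Fin (N + 1) → MvPolynomial τ K` with all `degreeOf y (v i) ≤ D`: `degreeOf y (A.dup v a) ≤ 4 * D` (`A.dup v a = aeval (Sum.elim v v) (A.S a A.b₀)`, `A.bihomog`: for `m ∈ support`: `m.sum .. ≤ ∑ i, m (inl i) * D + ∑ i, m (inr i) * D = 4 * D`,
`Finsupp.sum_fintype`, `Fintype.sum_sum_type`). So `degreeOf y (A.mu j v a) ≤ 4 ^ j * D` (induction, `A.mu_succ`). (3) `A.col a u v b = aeval (Sum.elim u v) (A.S a b)` has `degreeOf y ≤ 2 * Du + 2 * Dv` if `degreeOf y (u i) ≤ Du`, `degreeOf y (v i) ≤ Dv`. With `u = rename inr ∘ pv`, `v = A.mu j (rename inl ∘ pv)`: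
`(Du, Dv) = (0, 4 ^ j * d)` for `inl y`, `(d, 0)` for `inr y`. (4) `lf l y = ∑ a, algebraMap (l a) * y a` and the outer sum do not increase degrees (`MvPolynomial.algebraMap_eq`, `degreeOf_C`).

JOB E23b: `Noe.ed_nh`.
PROOF. Everything over `K` itself: for a place `v` of `K` write `ν = NV v` (`SN_NV v`, VJ/A2: submultiplicative). (1) For `u, w : Fin (N + 1) → MvPolynomial τ K`, `ν (u i) ≤ U`, `ν (w i) ≤ W`, `0 ≤ U, W`: `ν (aeval (Sum.elim u w) (A.S a b)) ≤ NV v (A.S a b) * (U ^ 2 * W ^ 2)`: expand as a sum over the support (`aeval_def`, `eval₂_eq'`); every monomial is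
`≤ v (coeff) * U ^ 2 * W ^ 2` by `A.bihomog`, `SN.prod_le`, `SN.pow_le`, `Finset.prod_pow_eq_pow_sum`; for nonarchimedean `v` use `SN.sum_le_max` and `coeff_le_NV`, otherwise `SN.sum_le_sum` and `NV v F = ∑ v (coeff)` (`A2_na`, `A2_ar`; compare the proof of `SN.aeval_le` in VJ/A3).
(2) Let `B v ≥ 1`, `B v ≥ max 1 (NV v (A.S a b))` for all `a, b`, `B v ≥ max 1 (NV v (nd.pv i))`, `B v ≥ max 1 (v (nd.l k a))`, `B v ≥ cst v (N + 1)`: `E : SC K` with `B v = E.k v` exists by `Adm_NV`, `Adm_abv`, `Adm_cst`, `Adm.family`/`Adm.prod` and `Adm.exists_SC` (VA/A1; used with `L = K`, `algebraMap K K = id`,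
`MvPolynomial.map (algebraMap K K) F = F`; universe `w = u`); `cc`/`SC.k` API in VA/A1. Claim `B * ν (A.mu j (rename inl ∘ pv) a) ≤ (B ^ 2) ^ 4 ^ j`: `j = 0`: `NV_rename`; step: `B * ν (dup v a) ≤ B * (B * V ^ 4) ≤ (B * V) ^ 4` for `V ≥ ν (v i)` (take `V` with `B * V = (B ^ 2) ^ 4 ^ j`, i.e. `V = (B ^ 2) ^ 4 ^ j / B`).
(3) `ν (nd.ed.b j o) ≤ B ^ (c * 4 ^ j)` with a fixed `c` (for example `c = 12`: the two linear forms give at most `B ^ 2` each (`cst` and coefficient), `A.S` gives `B`, `u = rename inr ∘ pv` gives `B ^ 2`, `v` gives `B ^ (4 * 4 ^ j)`). The polynomial `G = rename some (b none) * X none - rename some (b (some t))`: `ν G ≤ B ^ (c * 4 ^ j) + B ^ (c * 4 ^ j)` for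
archimedean and `≤ max` for nonarchimedean `v` (`SN.add_max`), in both cases `≤ cst v 2 * B ^ (c * 4 ^ j)`; `NV_rename`, `NV_X`. If `G = 0`: `nh 0 = gs (fun v => log 0) = 0`. Otherwise `nh G = gs (log ν G) ≤ gs (log (cst v 2) + c * 4 ^ j * log (E.k v))` (`gs_le`, `FS_log_NV`, `FS_log_cst`, `SC.FS_log`, `FS_add`, `FS_const_mul`) `≤ totalWeight * log 2 + c * 4 ^ j * (C' * finrank ℚ K)`
(`gs_add`, `gs_const_mul`, `gs_log_cst`, `SC.gs_log_le`), `1 ≤ 4 ^ j`.
-/

universe u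

namespace Pool.Agent.Lib.MP_17a322_nt.VA

open MvPolynomial Height
open Pool.Agent.Lib.MP_17a322_nt.VJ
open Pool.Agent.Lib.MP_17a322_nt.VN

theorem degreeOf_aeval_le {K σ τ : Type*} [CommRing K] (F : MvPolynomial σ K)
    (g : σ → MvPolynomial τ K) (y : τ) (D : ℕ)
    (h : ∀ m ∈ F.support, (m.sum fun s k => k * (g s).degreeOf y) ≤ D) :
    (aeval g F).degreeOf y ≤ D := by
  classical
  rw [aeval_def, eval₂_eq]
  refine (degreeOf_sum_le y _ _).trans (Finset.sup_le fun m hm => ?_)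
  rw [MvPolynomial.algebraMap_eq]
  refine (degreeOf_C_mul_le _ _ _).trans ((degreeOf_prod_le y _ _).trans ?_)
  refine le_trans (Finset.sum_le_sum fun s _ => degreeOf_pow_le y (g s) (m s)) ?_
  exact h m hm

private theorem e23a_S {K : Type u} [Field K] {N : ℕ} (A : AV K N) (a b : Fin (N + 1)) {τ : Type*}
    (u w : Fin (N + 1) → MvPolynomial τ K) (y : τ) {Du Dw : ℕ}
    (hu : ∀ i, (u i).degreeOf y ≤ Du) (hw : ∀ i, (w i).degreeOf y ≤ Dw) :
    (aeval (Sum.elim u w) (A.S a b)).degreeOf y ≤ 2 * Du + 2 * Dw := by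
  refine degreeOf_aeval_le _ _ y _ fun m hm => ?_
  obtain ⟨h1, h2⟩ := A.bihomog a b m hm
  rw [Finsupp.sum_fintype m (fun s k => k * (Sum.elim u w s).degreeOf y)
    (fun s => Nat.zero_mul _), Fintype.sum_sum_type]
  simp only [Sum.elim_inl, Sum.elim_inr]
  refine Nat.add_le_add ?_ ?_
  · refine (Finset.sum_le_sum fun i _ => Nat.mul_le_mul_left (m (Sum.inl i)) (hu i)).trans ?_
    rw [← Finset.sum_mul, h1]
  · refine (Finset.sum_le_sum fun i _ => Nat.mul_le_mul_left (m (Sum.inr i)) (hw i)).trans ?_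
    rw [← Finset.sum_mul, h2]

private theorem e23a_mu {K : Type u} [Field K] {N : ℕ} (A : AV K N) {τ : Type*}
    (w : Fin (N + 1) → MvPolynomial τ K) (y : τ) {D : ℕ} (hw : ∀ i, (w i).degreeOf y ≤ D) (j : ℕ)
    (a : Fin (N + 1)) : (A.mu j w a).degreeOf y ≤ 4 ^ j * D := by
  induction j generalizing a with
  | zero =>
    rw [pow_zero, one_mul]
    exact hw a
  | succ j ih =>
    rw [A.mu_succ]
    refine (e23a_S A a A.b₀ _ _ y ih ih).trans ?_
    rw [pow_succ]
    exact le_of_eq (by ring)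

private theorem e23a_lf {K : Type u} [Field K] {N : ℕ} {τ : Type*} (l : Fin (N + 1) → K)
    (w : Fin (N + 1) → MvPolynomial τ K) (y : τ) {D : ℕ} (hw : ∀ i, (w i).degreeOf y ≤ D) :
    (lf l w).degreeOf y ≤ D := by
  unfold lf
  refine (degreeOf_sum_le y _ _).trans (Finset.sup_le fun a _ => ?_)
  rw [MvPolynomial.algebraMap_eq]
  exact (degreeOf_C_mul_le _ _ _).trans (hw a)

private theorem e23a_rename {K : Type*} [CommRing K] {σ τ : Type*} (f : σ → τ)
    (p : MvPolynomial σ K) (y : τ) (hy : y ∉ Set.range f) : (rename f p).degreeOf y = 0 := by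
  classical
  by_contra h
  have h1 : y ∈ (rename f p).vars := by
    rw [mem_vars_iff_mem_support]
    have h2 : 0 < (rename f p).degreeOf y := Nat.pos_of_ne_zero h
    by_contra h3
    push Not at h3
    have h4 : (rename f p).degreeOf y ≤ 0 := by
      rw [degreeOf_le_iff]
      intro m hm
      rw [Finsupp.notMem_support_iff.1 (h3 m hm)]
    exact absurd h4 (not_le.2 h2)
  have h5 := vars_rename f p h1
  rw [Finset.mem_image] at h5
  obtain ⟨x, _, hx⟩ := h5
  exact hy ⟨x, hx⟩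

theorem Noe.ed_degree {K : Type u} [Field K] {N : ℕ} {A : AV K N} {n e : ℕ} (nd : Noe A n e) :
    ∃ C : ℕ, (∀ y, nd.ed.f.degreeOf y ≤ C) ∧ ∀ j o y,
      (nd.ed.b j o).degreeOf (Sum.inl y) ≤ C * 4 ^ j ∧
      (nd.ed.b j o).degreeOf (Sum.inr y) ≤ C := by
  classical
  obtain ⟨d, hd⟩ : ∃ d : ℕ, d = (∑ y, (unp nd.Φ).degreeOf y) +
      ∑ i, ∑ y, (nd.pv i).degreeOf y := ⟨_, rfl⟩
  have hd1 : ∀ y, (unp nd.Φ).degreeOf y ≤ d := by
    intro y
    rw [hd]
    exact (Finset.single_le_sum (f := fun y => (unp nd.Φ).degreeOf y) (fun _ _ => Nat.zero_le _)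
      (Finset.mem_univ y)).trans (Nat.le_add_right _ _)
  have hd2 : ∀ i y, (nd.pv i).degreeOf y ≤ d := by
    intro i y
    rw [hd]
    exact ((Finset.single_le_sum (f := fun y => (nd.pv i).degreeOf y) (fun _ _ => Nat.zero_le _)
      (Finset.mem_univ y)).trans (Finset.single_le_sum
        (f := fun i => ∑ y, (nd.pv i).degreeOf y) (fun _ _ => Nat.zero_le _)
        (Finset.mem_univ i))).trans (Nat.le_add_left _ _)
  have hinr : ∀ (y : Option (Fin n)), (Sum.inl y : Option (Fin n) ⊕ Option (Fin n)) ∉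
      Set.range (Sum.inr : Option (Fin n) → Option (Fin n) ⊕ Option (Fin n)) := by
    rintro y ⟨x, hx⟩
    exact Sum.inr_ne_inl hx
  have hinl : ∀ (y : Option (Fin n)), (Sum.inr y : Option (Fin n) ⊕ Option (Fin n)) ∉
      Set.range (Sum.inl : Option (Fin n) → Option (Fin n) ⊕ Option (Fin n)) := by
    rintro y ⟨x, hx⟩
    exact Sum.inl_ne_inr hx
  have key : ∀ (j : ℕ) (o : Option (Fin n)) (y : Option (Fin n) ⊕ Option (Fin n)) (Du Dw : ℕ),
      (∀ i, (rename (Sum.inr : Option (Fin n) → Option (Fin n) ⊕ Option (Fin n))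
        (nd.pv i)).degreeOf y ≤ Du) →
      (∀ i, (rename (Sum.inl : Option (Fin n) → Option (Fin n) ⊕ Option (Fin n))
        (nd.pv i)).degreeOf y ≤ Dw) →
      (nd.ed.b j o).degreeOf y ≤ 2 * Du + 2 * (4 ^ j * Dw) := by
    intro j o y Du Dw h1 h2
    show (∑ a, C (nd.l 0 a) * lf (nd.lo o) (A.col a
      (fun i => rename (Sum.inr : Option (Fin n) → Option (Fin n) ⊕ Option (Fin n)) (nd.pv i))
      (A.mu j fun i => rename (Sum.inl : Option (Fin n) → Option (Fin n) ⊕ Option (Fin n))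
        (nd.pv i)))).degreeOf y ≤ _
    refine (degreeOf_sum_le y _ _).trans (Finset.sup_le fun a _ => ?_)
    refine (degreeOf_C_mul_le _ _ _).trans (e23a_lf _ _ y fun b => ?_)
    exact e23a_S A a b _ _ y h1 fun i => e23a_mu A _ y h2 j i
  refine ⟨2 * d, fun y => (hd1 y).trans (by omega), fun j o y => ⟨?_, ?_⟩⟩
  · refine (key j o (Sum.inl y) 0 d (fun i => ?_) fun i => ?_).trans (le_of_eq (by ring))
    · rw [e23a_rename _ _ _ (hinr y)]
    · rw [degreeOf_rename_of_injective Sum.inl_injective]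
      exact hd2 i y
  · refine (key j o (Sum.inr y) d 0 (fun i => ?_) fun i => ?_).trans (le_of_eq (by ring))
    · rw [degreeOf_rename_of_injective Sum.inr_injective]
      exact hd2 i y
    · rw [e23a_rename _ _ _ (hinl y)]

private theorem e23b_S {K : Type u} [Field K] {N : ℕ} (A : AV K N) (a b : Fin (N + 1)) {τ : Type*}
    (v : AbsoluteValue K ℝ) (y w : Fin (N + 1) → MvPolynomial τ K) {U W : ℝ} (hU : 0 ≤ U)
    (hW : 0 ≤ W) (hy : ∀ i, NV v (y i) ≤ U) (hw : ∀ i, NV v (w i) ≤ W) :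
    NV v (aeval (Sum.elim y w) (A.S a b)) ≤ NV v (A.S a b) * (U ^ 2 * W ^ 2) := by
  have h : SN v (fun F : MvPolynomial τ K => NV v F) := SN_NV v
  have hP : 0 ≤ U ^ 2 * W ^ 2 := by positivity
  have hterm : ∀ m ∈ (A.S a b).support,
      NV v (algebraMap K (MvPolynomial τ K) (coeff m (A.S a b)) *
        ∏ t, Sum.elim y w t ^ m t) ≤ v (coeff m (A.S a b)) * (U ^ 2 * W ^ 2) := by
    intro m hm
    obtain ⟨h1, h2⟩ := A.bihomog a b m hm
    refine (h.mul _ _).trans ?_
    refine mul_le_mul (h.map _) ?_ (h.nonneg _) (v.nonneg _)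
    refine (h.prod_le _ _).trans ?_
    rw [Fintype.prod_sum_type]
    simp only [Sum.elim_inl, Sum.elim_inr]
    refine mul_le_mul ?_ ?_ (Finset.prod_nonneg fun t _ => h.nonneg _) (by positivity)
    · rw [← h1, ← Finset.prod_pow_eq_pow_sum]
      exact Finset.prod_le_prod (fun t _ => h.nonneg _) fun t _ =>
        (h.pow_le _ _).trans (pow_le_pow_left₀ (h.nonneg _) (hy t) _)
    · rw [← h2, ← Finset.prod_pow_eq_pow_sum]
      exact Finset.prod_le_prod (fun t _ => h.nonneg _) fun t _ =>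
        (h.pow_le _ _).trans (pow_le_pow_left₀ (h.nonneg _) (hw t) _)
  rw [aeval_def, eval₂_eq']
  by_cases hv : IsNonarchimedean v
  · refine SN.sum_le_max hv h _ _ (mul_nonneg ((v.nonneg _).trans (coeff_le_NV v _ 0)) hP)
      fun m hm => ?_
    exact (hterm m hm).trans (mul_le_mul_of_nonneg_right (coeff_le_NV v _ m) hP)
  · refine (h.sum_le_sum _ _).trans ?_
    refine (Finset.sum_le_sum hterm).trans (le_of_eq ?_)
    rw [← Finset.sum_mul, A2_ar hv (A.S a b)]

private theorem e23b_SC_poly {K : Type u} [Field K] {ι σ : Type*} [Finite ι]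
    (F : ι → MvPolynomial σ K) : ∃ E : SC K, ∀ (v : AbsoluteValue K ℝ) i, NV v (F i) ≤ E.k v := by
  obtain ⟨n, S, k, hn, h⟩ := Adm.family (K := K) (fun (i : ι) (L : Type u) [Field L] [Algebra K L]
    (v : AbsoluteValue L ℝ) => Max.max 1 (NV v (MvPolynomial.map (algebraMap K L) (F i))))
    (fun i => Adm_NV (F i))
  refine ⟨scOf n S k, fun v i => ?_⟩
  have h1 := (le_max_right 1 _).trans ((h i K v).trans (le_scOf hn S k v))
  rw [Algebra.algebraMap_self, MvPolynomial.map_id] at h1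
  exact h1

private theorem e23b_SC_abv {K : Type u} [Field K] {ι : Type*} [Finite ι]
    (c : ι → K) : ∃ E : SC K, ∀ (v : AbsoluteValue K ℝ) i, v (c i) ≤ E.k v := by
  obtain ⟨n, S, k, hn, h⟩ := Adm.family (K := K) (fun (i : ι) (L : Type u) [Field L] [Algebra K L]
    (v : AbsoluteValue L ℝ) => Max.max 1 (v (algebraMap K L (c i)))) (fun i => Adm_abv (c i))
  refine ⟨scOf n S k, fun v i => ?_⟩
  have h1 := (le_max_right 1 _).trans ((h i K v).trans (le_scOf hn S k v))
  rw [Algebra.algebraMap_self_apply] at h1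
  exact h1

private theorem e23b_SC_cst {K : Type u} [Field K] (n : ℕ) :
    ∃ E : SC K, ∀ (v : AbsoluteValue K ℝ), cst v n ≤ E.k v := by
  obtain ⟨E, hE⟩ := Adm.exists_SC (Adm_cst.{u, u} (K := K) n)
  exact ⟨E, fun v => hE K v⟩

private theorem e23b_SC {K : Type u} [Field K] {N : ℕ} {A : AV K N} {n e : ℕ} (nd : Noe A n e) :
    ∃ E : SC K, ∀ v : AbsoluteValue K ℝ, (∀ a b, NV v (A.S a b) ≤ E.k v) ∧
      (∀ i, NV v (nd.pv i) ≤ E.k v) ∧ (∀ k a, v (nd.l k a) ≤ E.k v) ∧
      cst v (N + 1) ≤ E.k v ∧ cst v 2 ≤ E.k v := by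
  obtain ⟨E1, h1⟩ := e23b_SC_poly (K := K) fun p : Fin (N + 1) × Fin (N + 1) => A.S p.1 p.2
  obtain ⟨E2, h2⟩ := e23b_SC_poly (K := K) fun i : Fin (N + 1) => nd.pv i
  obtain ⟨E3, h3⟩ := e23b_SC_abv (K := K) fun p : Fin (n + 1) × Fin (N + 1) => nd.l p.1 p.2
  obtain ⟨E4, h4⟩ := e23b_SC_cst (K := K) (N + 1)
  obtain ⟨E5, h5⟩ := e23b_SC_cst (K := K) 2
  refine ⟨(((E1.mul E2).mul E3).mul E4).mul E5, fun v => ⟨fun a b => ?_, fun i => ?_,
    fun k a => ?_, ?_, ?_⟩⟩
  · exact (h1 v (a, b)).trans ((E1.le_mul_left E2 v).trans (((E1.mul E2).le_mul_left E3 v).trans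
      ((((E1.mul E2).mul E3).le_mul_left E4 v).trans (SC.le_mul_left _ E5 v))))
  · exact (h2 v i).trans ((E1.le_mul_right E2 v).trans (((E1.mul E2).le_mul_left E3 v).trans
      ((((E1.mul E2).mul E3).le_mul_left E4 v).trans (SC.le_mul_left _ E5 v))))
  · exact (h3 v (k, a)).trans (((E1.mul E2).le_mul_right E3 v).trans
      ((((E1.mul E2).mul E3).le_mul_left E4 v).trans (SC.le_mul_left _ E5 v)))
  · exact (h4 v).trans ((((E1.mul E2).mul E3).le_mul_right E4 v).trans (SC.le_mul_left _ E5 v))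
  · exact (h5 v).trans (SC.le_mul_right _ E5 v)

private theorem e23b_mu {K : Type u} [Field K] {N : ℕ} (A : AV K N) {τ : Type*}
    (v : AbsoluteValue K ℝ) {B : ℝ} (hB : 1 ≤ B) (hS : ∀ a b, NV v (A.S a b) ≤ B)
    (w : Fin (N + 1) → MvPolynomial τ K) (hw : ∀ i, NV v (w i) ≤ B) (j : ℕ) (a : Fin (N + 1)) :
    NV v (A.mu j w a) ≤ B ^ (2 * 4 ^ j - 1) := by
  induction j generalizing a with
  | zero =>
    rw [pow_zero, mul_one, pow_one]
    exact hw a
  | succ j ih =>
    have hB0 : 0 ≤ B := zero_le_one.trans hB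
    rw [A.mu_succ]
    refine (e23b_S A a A.b₀ v _ _ (pow_nonneg hB0 _) (pow_nonneg hB0 _) ih ih).trans ?_
    refine (mul_le_mul_of_nonneg_right (hS _ _) (by positivity)).trans ?_
    rw [← pow_mul, ← pow_add, ← pow_succ']
    refine pow_le_pow_right₀ hB ?_
    have h1 : 1 ≤ 4 ^ j := Nat.one_le_pow _ _ (by norm_num)
    rw [pow_succ]
    omega

private theorem e23b_lf {K : Type u} [Field K] {N : ℕ} {τ : Type*} (v : AbsoluteValue K ℝ)
    {B X : ℝ} (hB : 1 ≤ B) (hX : 0 ≤ X) (hc : cst v (N + 1) ≤ B) (l : Fin (N + 1) → K)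
    (hl : ∀ a, v (l a) ≤ B) (w : Fin (N + 1) → MvPolynomial τ K) (hw : ∀ i, NV v (w i) ≤ X) :
    NV v (∑ a, C (l a) * w a) ≤ B ^ 2 * X := by
  have h : SN v (fun F : MvPolynomial τ K => NV v F) := SN_NV v
  have hB0 : 0 ≤ B := zero_le_one.trans hB
  have h1 := h.sum_le Finset.univ (fun a => C (l a) * w a) (B := B * X) (mul_nonneg hB0 hX)
    (fun a _ => by
      show NV v (C (l a) * w a) ≤ B * X
      rw [NV_C_mul]
      exact mul_le_mul (hl a) (hw a) (h.nonneg _) hB0)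
  rw [Finset.card_univ, Fintype.card_fin] at h1
  refine h1.trans ?_
  rw [pow_two, mul_assoc]
  exact mul_le_mul_of_nonneg_right hc (mul_nonneg hB0 hX)

private theorem e23b_sub {K : Type*} [Field K] {τ : Type*} (v : AbsoluteValue K ℝ)
    (F G : MvPolynomial τ K) {X : ℝ} (hF : NV v F ≤ X) (hG : NV v G ≤ X) :
    NV v (F - G) ≤ cst v 2 * X := by
  have h : SN v (fun F : MvPolynomial τ K => NV v F) := SN_NV v
  have h1 : NV v (-G) = NV v G := h.neg G
  rw [sub_eq_add_neg]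
  unfold cst
  by_cases hv : IsNonarchimedean v
  · rw [if_pos hv, one_mul]
    refine (h.add_max hv F (-G)).trans (max_le hF ?_)
    exact h1.le.trans hG
  · rw [if_neg hv]
    refine (h.add F (-G)).trans ?_
    show NV v F + NV v (-G) ≤ _
    rw [h1]
    push_cast
    linarith

private theorem e23b_b {K : Type u} [Field K] {N : ℕ} {A : AV K N} {n e : ℕ} (nd : Noe A n e)
    (v : AbsoluteValue K ℝ) {B : ℝ} (hB : 1 ≤ B) (hS : ∀ a b, NV v (A.S a b) ≤ B)
    (hp : ∀ i, NV v (nd.pv i) ≤ B) (hl : ∀ k a, v (nd.l k a) ≤ B) (hc : cst v (N + 1) ≤ B)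
    (j : ℕ) (o : Option (Fin n)) : NV v (nd.ed.b j o) ≤ B ^ (9 * 4 ^ j) := by
  have hB0 : 0 ≤ B := zero_le_one.trans hB
  show NV v (∑ a, C (nd.l 0 a) * lf (nd.lo o) (A.col a
      (fun i => rename (Sum.inr : Option (Fin n) → Option (Fin n) ⊕ Option (Fin n)) (nd.pv i))
      (A.mu j fun i => rename (Sum.inl : Option (Fin n) → Option (Fin n) ⊕ Option (Fin n))
        (nd.pv i)))) ≤ _
  have hlo : ∀ a, v (nd.lo o a) ≤ B := by
    intro a
    cases o with
    | none => exact hl 0 a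
    | some t => exact hl t.succ a
  have hcol : ∀ a b, NV v (A.col a
      (fun i => rename (Sum.inr : Option (Fin n) → Option (Fin n) ⊕ Option (Fin n)) (nd.pv i))
      (A.mu j fun i => rename (Sum.inl : Option (Fin n) → Option (Fin n) ⊕ Option (Fin n))
        (nd.pv i)) b) ≤ B ^ (4 * 4 ^ j + 1) := by
    intro a b
    refine (e23b_S A a b v _ _ hB0 (pow_nonneg hB0 (2 * 4 ^ j - 1)) (fun i => ?_)
      fun i => ?_).trans ?_
    · rw [NV_rename v _ _ Sum.inr_injective]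
      exact hp i
    · refine e23b_mu A v hB hS _ (fun i => ?_) j i
      rw [NV_rename v _ _ Sum.inl_injective]
      exact hp i
    · refine (mul_le_mul_of_nonneg_right (hS _ _) (by positivity)).trans ?_
      rw [← pow_mul, ← pow_add, ← pow_succ']
      refine pow_le_pow_right₀ hB ?_
      have h1 : 1 ≤ 4 ^ j := Nat.one_le_pow _ _ (by norm_num)
      omega
  have hlf : ∀ a, NV v (lf (nd.lo o) (A.col a
      (fun i => rename (Sum.inr : Option (Fin n) → Option (Fin n) ⊕ Option (Fin n)) (nd.pv i))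
      (A.mu j fun i => rename (Sum.inl : Option (Fin n) → Option (Fin n) ⊕ Option (Fin n))
        (nd.pv i)))) ≤ B ^ 2 * B ^ (4 * 4 ^ j + 1) := by
    intro a
    exact e23b_lf v hB (pow_nonneg hB0 _) hc (nd.lo o) hlo _ (hcol a)
  refine (e23b_lf v hB (by positivity) hc (nd.l 0) (hl 0) _ hlf).trans ?_
  rw [← pow_add, ← pow_add]
  refine pow_le_pow_right₀ hB ?_
  have h1 : 1 ≤ 4 ^ j := Nat.one_le_pow _ _ (by norm_num)
  omega

theorem Noe.ed_nh {K : Type u} [Field K] [NumberField K] {N : ℕ} {A : AV K N} {n e : ℕ}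
    (nd : Noe A n e) :
    ∃ C : ℝ, 0 ≤ C ∧ ∀ (j : ℕ) (t : Fin n),
      nh (rename some (nd.ed.b j none) * X none - rename some (nd.ed.b j (some t))) ≤
        C * 4 ^ j := by
  obtain ⟨E, hE⟩ := e23b_SC nd
  obtain ⟨C', hC', hgs⟩ := E.gs_log_le
  refine ⟨10 * (C' * Module.finrank ℚ K), by positivity, fun j t => ?_⟩
  obtain ⟨G, hG⟩ : ∃ G, G = rename some (nd.ed.b j none) * X none -
      rename some (nd.ed.b j (some t)) := ⟨_, rfl⟩
  rw [← hG]
  have hbd : ∀ v : AbsoluteValue K ℝ, NV v G ≤ E.k v ^ (10 * 4 ^ j) := by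
    intro v
    obtain ⟨h1, h2, h3, h4, h5⟩ := hE v
    have hB := E.one_le v
    have hB0 : 0 ≤ E.k v := zero_le_one.trans hB
    have hs : SN v (fun F : MvPolynomial (Option (Option (Fin n) ⊕ Option (Fin n))) K =>
      NV v F) := SN_NV v
    have h6 : NV v (rename some (nd.ed.b j none) * X none :
        MvPolynomial (Option (Option (Fin n) ⊕ Option (Fin n))) K) ≤ E.k v ^ (9 * 4 ^ j) := by
      refine (hs.mul _ _).trans ?_
      show NV v (rename some (nd.ed.b j none)) * NV v (X none) ≤ _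
      rw [NV_X, mul_one, NV_rename v _ _ (Option.some_injective _)]
      exact e23b_b nd v hB h1 h2 h3 h4 j none
    have h7 : NV v (rename some (nd.ed.b j (some t)) :
        MvPolynomial (Option (Option (Fin n) ⊕ Option (Fin n))) K) ≤ E.k v ^ (9 * 4 ^ j) := by
      rw [NV_rename v _ _ (Option.some_injective _)]
      exact e23b_b nd v hB h1 h2 h3 h4 j (some t)
    rw [hG]
    refine (e23b_sub v _ _ h6 h7).trans ?_
    refine (mul_le_mul_of_nonneg_right h5 (pow_nonneg hB0 _)).trans ?_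
    rw [← pow_succ']
    refine pow_le_pow_right₀ hB ?_
    have h8 : 1 ≤ 4 ^ j := Nat.one_le_pow _ _ (by norm_num)
    omega
  by_cases hG0 : G = 0
  · have h1 : nh G = 0 := by
      rw [hG0]
      unfold nh
      have h2 : (fun v : AbsoluteValue K ℝ => Real.log (NV v
          (0 : MvPolynomial (Option (Option (Fin n) ⊕ Option (Fin n))) K))) = fun _ => 0 * 0 := by
        funext v
        rw [A2_zero, Real.log_zero, mul_zero]
      rw [h2, gs_const_mul, zero_mul]
    rw [h1]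
    positivity
  · have h1 : nh G ≤ gs fun v : AbsoluteValue K ℝ => ((10 * 4 ^ j : ℕ) : ℝ) *
        Real.log (E.k v) := by
      unfold nh
      refine gs_le (FS_log_NV hG0) (FS_const_mul _ (E.FS_log K)) fun v _ => ?_
      rw [← Real.log_pow]
      exact Real.log_le_log (NV_pos v hG0) (hbd v)
    rw [gs_const_mul] at h1
    refine h1.trans ?_
    refine (mul_le_mul_of_nonneg_left (hgs K) (Nat.cast_nonneg _)).trans (le_of_eq ?_)
    push_cast
    ring

end Pool.Agent.Lib.MP_17a322_nt.VA
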