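import Pool.Agent.Lib.MP_17a322_nt.VA.A2
import Pool.Agent.Lib.MP_17a322_nt.VA.A3b

/-!
VA, part A: polynomial identities on `A × A` which hold at all points over fields hold for all vectors
with entries in `K`-algebras satisfying the equations.
-/

universe u w

namespace Pool.Agent.Lib.MP_17a322_nt.VA

open MvPolynomial

section

variable {K : Type u} [Field K]

/-- The extension of scalars of a linear functional on polynomials. -/
noncomputable def exf {σ : Type*} (lam : MvPolynomial σ K →ₗ[K] K) (L : Type u) [Field L]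
    [Algebra K L] : MvPolynomial σ L →ₗ[L] L :=
  (MvPolynomial.basisMonomials σ L).constr L fun m => algebraMap K L (lam (monomial m 1))

theorem exf_monomial {σ : Type*} (lam : MvPolynomial σ K →ₗ[K] K) (L : Type u) [Field L]
    [Algebra K L] (m : σ →₀ ℕ) (c : L) :
    exf lam L (monomial m c) = c * algebraMap K L (lam (monomial m 1)) := by
  have h1 : (monomial m c : MvPolynomial σ L) = c • MvPolynomial.basisMonomials σ L m := by
    rw [coe_basisMonomials, smul_monomial, smul_eq_mul, mul_one]
  rw [h1, map_smul, exf, Module.Basis.constr_basis, smul_eq_mul]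

theorem exf_map {σ : Type*} (lam : MvPolynomial σ K →ₗ[K] K) (L : Type u) [Field L]
    [Algebra K L] (h : MvPolynomial σ K) :
    exf lam L (map (algebraMap K L) h) = algebraMap K L (lam h) := by
  induction h using MvPolynomial.induction_on' with
  | monomial m c =>
    rw [map_monomial, exf_monomial, ← map_mul]
    congr 1
    rw [← smul_eq_mul, ← map_smul, smul_monomial, smul_eq_mul, mul_one]
  | add p q hp hq => rw [map_add, map_add, hp, hq, map_add, map_add]

/-- The extension of a functional which vanishes on the ideal `I` vanishes on the extension of `I`. -/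
theorem exf_ideal {σ : Type*} (lam : MvPolynomial σ K →ₗ[K] K) (L : Type u) [Field L]
    [Algebra K L] (I : Ideal (MvPolynomial σ K)) (hI : ∀ f ∈ I, lam f = 0)
    {g : MvPolynomial σ L} (hg : g ∈ I.map (MvPolynomial.map (σ := σ) (algebraMap K L))) :
    exf lam L g = 0 := by
  have key : ∀ (p : MvPolynomial σ L) (e : MvPolynomial σ K), e ∈ I →
      exf lam L (p * map (algebraMap K L) e) = 0 := by
    intro p e he
    induction p using MvPolynomial.induction_on' with
    | monomial m c =>
      have h1 : (monomial m c : MvPolynomial σ L) * map (algebraMap K L) e =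
          c • map (algebraMap K L) (monomial m 1 * e) := by
        rw [map_mul, map_monomial, map_one, ← smul_mul_assoc, smul_monomial, smul_eq_mul, mul_one]
      rw [h1, map_smul, exf_map, hI _ (I.mul_mem_left _ he), map_zero, smul_zero]
    | add p q hp hq => rw [add_mul, map_add, hp, hq, add_zero]
  have h2 : ∀ p : MvPolynomial σ L, exf lam L (p * g) = 0 := by
    refine Submodule.span_induction (p := fun g _ => ∀ p : MvPolynomial σ L,
      exf lam L (p * g) = 0) ?_ ?_ ?_ ?_ hg
    · rintro _ ⟨e, he, rfl⟩ p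
      exact key p e he
    · intro p
      rw [mul_zero, map_zero]
    · intro x y _ _ hx hy p
      rw [mul_add, map_add, hx, hy, add_zero]
    · intro a x _ hx p
      rw [smul_eq_mul, ← mul_assoc]
      exact hx _
  have h3 := h2 1
  rwa [one_mul] at h3

/-- A polynomial in two groups of variables at a point, the first group being the outer one. -/
theorem aeval_sumAlg {σ τ : Type*} {R : Type*} [CommRing R] [Algebra K R] (f : MvPolynomial (σ ⊕ τ) K)
    (y : σ → R) (y' : τ → R) :
    aeval (Sum.elim y y') f =
      ∑ m ∈ (sumAlgEquiv K σ τ f).support,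
        aeval y' (coeff m (sumAlgEquiv K σ τ f)) * aeval y (monomial m (1 : K)) := by
  have h2 : ((aeval (Sum.elim y y') : MvPolynomial (σ ⊕ τ) K →ₐ[K] R) :
      MvPolynomial (σ ⊕ τ) K →+* R) =
      (eval₂Hom ((aeval y' : MvPolynomial τ K →ₐ[K] R) : MvPolynomial τ K →+* R) y).comp
        ((sumAlgEquiv K σ τ : _ ≃ₐ[K] _) : _ →+* _) := by
    refine MvPolynomial.ringHom_ext (fun r => ?_) fun i => ?_
    · rw [RingHom.comp_apply, RingHom.coe_coe, RingHom.coe_coe, sumAlgEquiv_C_inl]
      simp
    · rcases i with i | i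
      · rw [RingHom.comp_apply, RingHom.coe_coe, RingHom.coe_coe, sumAlgEquiv_X_inl]
        simp
      · rw [RingHom.comp_apply, RingHom.coe_coe, RingHom.coe_coe, sumAlgEquiv_X_inr]
        simp
  have h3 := RingHom.congr_fun h2 f
  rw [RingHom.comp_apply, RingHom.coe_coe, RingHom.coe_coe, coe_eval₂Hom, eval₂_eq] at h3
  rw [h3]
  refine Finset.sum_congr rfl fun m _ => ?_
  rw [aeval_monomial, map_one, one_mul]
  rfl

/-- Geometrically radical ideals. -/
def GRad {K : Type u} [Field K] {σ : Type} (I : Ideal (MvPolynomial σ K)) : Prop :=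
  ∀ (L : Type u) [Field L] [Algebra K L],
    (I.map (MvPolynomial.map (σ := σ) (algebraMap K L))).IsRadical

theorem mem_of_vanish {σ : Type} {I : Ideal (MvPolynomial σ K)} (hI : I.IsRadical)
    {f : MvPolynomial σ K} (h : ∀ (L : Type u) [Field L] [Algebra K L] (x : σ → L),
      (∀ e ∈ I, aeval x e = 0) → aeval x f = 0) : f ∈ I := by
  have h1 := nullst (I : Set (MvPolynomial σ K)) f h
  rw [Ideal.span_eq] at h1
  exact hI h1

theorem map_algebraMap_self {σ : Type*} :
    MvPolynomial.map (σ := σ) (algebraMap K K) = RingHom.id (MvPolynomial σ K) := by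
  refine RingHom.ext fun f => ?_
  rw [Algebra.algebraMap_self, MvPolynomial.map_id]
  rfl

theorem GRad.isRadical {σ : Type} {I : Ideal (MvPolynomial σ K)} (h : GRad I) : I.IsRadical := by
  have h1 := h K
  rwa [map_algebraMap_self, Ideal.map_id] at h1

/-- The vectors satisfying the equations in an extension of `L`. -/
theorem aeval_map_ideal {σ : Type*} {I : Ideal (MvPolynomial σ K)} {L : Type*} [Field L]
    [Algebra K L] {R : Type*} [CommRing R] [Algebra L R] [Algebra K R] [IsScalarTower K L R]
    {x : σ → R} (h : ∀ e ∈ I, aeval x e = 0) {g : MvPolynomial σ L}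
    (hg : g ∈ I.map (MvPolynomial.map (σ := σ) (algebraMap K L))) : aeval x g = 0 := by
  have h1 : I.map (MvPolynomial.map (σ := σ) (algebraMap K L)) ≤
      RingHom.ker (aeval x : MvPolynomial σ L →ₐ[L] R) := by
    rw [Ideal.map_le_iff_le_comap]
    intro e he
    rw [Ideal.mem_comap, RingHom.mem_ker, aeval_map_algebraMap]
    exact h e he
  exact h1 hg

theorem aeval_algMap {σ : Type*} {L R : Type*} [CommRing L] [Algebra K L] [CommRing R]
    [Algebra L R] [Algebra K R] [IsScalarTower K L R] (ξ : σ → L) (e : MvPolynomial σ K) :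
    aeval (fun t => algebraMap L R (ξ t)) e = algebraMap L R (aeval ξ e) :=
  MvPolynomial.aeval_algebraMap_apply R ξ e

/-- Identities on the product of two geometrically reduced closed sets. -/
theorem prod_zero {σ τ : Type} {I : Ideal (MvPolynomial σ K)} (hI : GRad I)
    {J : Ideal (MvPolynomial τ K)} (hJ : J.IsRadical) {f : MvPolynomial (σ ⊕ τ) K}
    (h : ∀ (L : Type u) [Field L] [Algebra K L] (x : σ → L) (x' : τ → L),
      (∀ e ∈ I, aeval x e = 0) → (∀ e ∈ J, aeval x' e = 0) → aeval (Sum.elim x x') f = 0)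
    {R : Type*} [CommRing R] [Algebra K R] {y : σ → R} {y' : τ → R}
    (hy : ∀ e ∈ I, aeval y e = 0) (hy' : ∀ e ∈ J, aeval y' e = 0) :
    aeval (Sum.elim y y') f = 0 := by
  classical
  obtain ⟨F, hF⟩ : ∃ F, F = sumAlgEquiv K σ τ f := ⟨_, rfl⟩
  -- the functionals
  have key : ∀ lam : MvPolynomial σ K →ₗ[K] K, (∀ e ∈ I, lam e = 0) →
      (∑ m ∈ F.support, C (lam (monomial m 1)) * coeff m F) ∈ J := by
    intro lam hlam
    refine mem_of_vanish hJ fun L _ _ ξ hξ => ?_
    obtain ⟨g, hg⟩ : ∃ g : MvPolynomial σ L,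
        g = ∑ m ∈ F.support, monomial m (aeval ξ (coeff m F)) := ⟨_, rfl⟩
    have hgI : g ∈ I.map (MvPolynomial.map (σ := σ) (algebraMap K L)) := by
      refine mem_of_vanish (hI L) fun L' _ _ x hx => ?_
      let _ : Algebra K L' := ((algebraMap L L').comp (algebraMap K L)).toAlgebra
      have : IsScalarTower K L L' := IsScalarTower.of_algebraMap_eq fun _ => rfl
      have h1 := h L' x (fun t => algebraMap L L' (ξ t)) (fun e he => by
        have := hx (map (algebraMap K L) e) (Ideal.mem_map_of_mem _ he)
        rwa [aeval_map_algebraMap] at this) (fun e he => by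
        rw [aeval_algMap, hξ e he, map_zero])
      rw [aeval_sumAlg, ← hF] at h1
      rw [hg, map_sum, ← h1]
      refine Finset.sum_congr rfl fun m _ => ?_
      rw [aeval_monomial, aeval_monomial, map_one, one_mul, aeval_algMap]
    have h3 := exf_ideal lam L I hlam hgI
    rw [hg, map_sum] at h3
    rw [map_sum, ← h3]
    refine Finset.sum_congr rfl fun m _ => ?_
    rw [exf_monomial, map_mul, aeval_C, mul_comm]
  -- a basis of the quotient
  obtain ⟨b⟩ : Nonempty (Module.Basis (Module.Basis.ofVectorSpaceIndex K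
    (MvPolynomial σ K ⧸ I.restrictScalars K)) K (MvPolynomial σ K ⧸ I.restrictScalars K)) :=
    ⟨Module.Basis.ofVectorSpace K _⟩
  obtain ⟨Ψ, hΨ⟩ : ∃ Ψ : (MvPolynomial σ K ⧸ I.restrictScalars K) →ₗ[K] R,
      ∀ p, Ψ (Submodule.Quotient.mk p) = aeval y p :=
    ⟨(I.restrictScalars K).liftQ (aeval y : MvPolynomial σ K →ₐ[K] R).toLinearMap
      (fun e he => hy e he), fun p => rfl⟩
  obtain ⟨T, hT⟩ : ∃ T : Finset (Module.Basis.ofVectorSpaceIndex K
      (MvPolynomial σ K ⧸ I.restrictScalars K)),
      T = F.support.biUnion fun m => (b.repr (Submodule.Quotient.mk (monomial m 1))).support :=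
    ⟨_, rfl⟩
  have h4 : ∀ m ∈ F.support, aeval y (monomial m (1 : K)) =
      ∑ β ∈ T, algebraMap K R (b.repr (Submodule.Quotient.mk (monomial m 1)) β) * Ψ (b β) := by
    intro m hm
    rw [← hΨ]
    conv_lhs => rw [← b.linearCombination_repr (Submodule.Quotient.mk (monomial m 1))]
    rw [Finsupp.linearCombination_apply, Finsupp.sum, map_sum]
    refine (Finset.sum_subset ?_ ?_).trans (Finset.sum_congr rfl fun β _ => ?_)
    · rw [hT]
      exact Finset.subset_biUnion_of_mem
        (fun m => (b.repr (Submodule.Quotient.mk (monomial m 1))).support) hm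
    · intro β _ hβ
      rw [Finsupp.notMem_support_iff.mp hβ, zero_smul, map_zero]
    · rw [map_smul, Algebra.smul_def]
  rw [aeval_sumAlg, ← hF]
  rw [Finset.sum_congr rfl fun m hm => by rw [h4 m hm, Finset.mul_sum], Finset.sum_comm]
  refine Finset.sum_eq_zero fun β _ => ?_
  have h5 := hy' _ (key ((b.coord β).comp (I.restrictScalars K).mkQ) fun e he => by
    rw [LinearMap.comp_apply]
    have h6 : (I.restrictScalars K).mkQ e = 0 := by
      rw [Submodule.mkQ_apply, Submodule.Quotient.mk_eq_zero]
      exact he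
    rw [h6, map_zero])
  rw [map_sum] at h5
  have h7 : ∑ m ∈ F.support, aeval y' (coeff m F) *
      (algebraMap K R (b.repr (Submodule.Quotient.mk (monomial m 1)) β) * Ψ (b β)) =
      (∑ m ∈ F.support, aeval y' (C ((b.coord β).comp (I.restrictScalars K).mkQ
        (monomial m 1)) * coeff m F)) * Ψ (b β) := by
    rw [Finset.sum_mul]
    refine Finset.sum_congr rfl fun m _ => ?_
    rw [map_mul, aeval_C]
    have h8 : (b.coord β).comp (I.restrictScalars K).mkQ (monomial m (1 : K)) =
        b.repr (Submodule.Quotient.mk (monomial m 1)) β := rfl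
    rw [h8]
    ring
  rw [h7, h5, zero_mul]

end

end Pool.Agent.Lib.MP_17a322_nt.VA
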