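import Pool.Agent.Lib.MP_17a322_nt.VA.LA3a
import Pool.Agent.Lib.MP_17a322_nt.VA.A4
import Pool.Agent.Lib.MP_17a322_nt.VN.L1j

/-!
VA, part LA: the path through a good point.
-/

universe u

namespace Pool.Agent.Lib.MP_17a322_nt.VA

open MvPolynomial Height
open Pool.Agent.Lib.MP_17a322_nt.RO
open Pool.Agent.Lib.MP_17a322_nt.VJ
open Pool.Agent.Lib.MP_17a322_nt.VN

section

variable {K : Type u} [Field K] {N : ℕ} {A : AV K N} {n e : ℕ} (nd : Noe A n e)

/-- Affine coordinates over an extension. -/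
theorem Noe.y_facts (P : A.Pts K) (hP : lf (nd.l 0) (A.x P) ≠ 0) (L : Type u) [Field L]
    [Algebra K L] :
    A.IsPt (fun b => algebraMap K L (nd.y P b)) ∧
      lf (nd.l 0) (fun b => algebraMap K L (nd.y P b)) = 1 ∧
      ∀ k : Fin n, lf (nd.l k.succ) (fun b => algebraMap K L (nd.y P b)) =
        algebraMap K L (nd.s P k) := by
  have h1 : ∀ b, nd.y P b = (lf (nd.l 0) (A.x P))⁻¹ * A.x P b := fun b => by
    unfold Noe.y
    rw [div_eq_inv_mul]
  have h2 : A.IsPt (nd.y P) := by
    have h3 := (A.x_isPt P).smul (lf (nd.l 0) (A.x P))⁻¹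
    have h4 : nd.y P = fun b => (lf (nd.l 0) (A.x P))⁻¹ * A.x P b := funext h1
    rw [h4]
    exact h3
  have h5 : ∀ l : Fin (N + 1) → K, lf l (fun b => algebraMap K L (nd.y P b)) =
      algebraMap K L (lf l (A.x P) / lf (nd.l 0) (A.x P)) := by
    intro l
    have h6 := map_lf l (Algebra.ofId K L) (nd.y P)
    have h7 : lf l (nd.y P) = lf l (A.x P) / lf (nd.l 0) (A.x P) := by
      have h4 : nd.y P = fun b => (lf (nd.l 0) (A.x P))⁻¹ * A.x P b := funext h1
      rw [h4, lf_smul, div_eq_inv_mul]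
    rw [h7] at h6
    exact h6.symm
  refine ⟨h2.map (Algebra.ofId K L), ?_, fun k => h5 _⟩
  rw [h5, div_self hP, map_one]

/-- The polynomials giving `θ` and the Noether coordinates. -/
noncomputable def Noe.G (o : Option (Fin n)) : MvPolynomial (Fin (N + 1)) K :=
  o.elim nd.θ fun k => lfP (nd.l k.succ)

theorem Noe.G_eq {R : Type*} [CommRing R] [Algebra K R] (y : Fin (N + 1) → R) :
    (fun o => aeval y (nd.G o)) = ow (aeval y nd.θ) fun k : Fin n => lf (nd.l k.succ) y := by
  funext o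
  cases o with
  | none => rfl
  | some k =>
    show aeval y (lfP (nd.l k.succ)) = lf (nd.l k.succ) y
    exact aeval_lfP _ _

end

/-- The value of a polynomial depends on its variables only. -/
theorem aeval_congr_degreeOf {K : Type*} [Field K] {σ R : Type*} [CommRing R] [Algebra K R]
    (F : MvPolynomial σ K) (x x' : σ → R) (h : ∀ t, F.degreeOf t ≠ 0 → x t = x' t) :
    aeval x F = aeval x' F := by
  have h1 := eval₂Hom_congr' (f₁ := algebraMap K R) (f₂ := algebraMap K R) (g₁ := x) (g₂ := x')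
    (p₁ := F) (p₂ := F) rfl (fun i hi _ => h i (mem_vars_iff_degreeOf_ne_zero.1 hi)) rfl
  exact h1

/-- The formal path. -/
theorem formal_path {K : Type u} [Field K] {N : ℕ} {A : AV K N} {n e c : ℕ}
    (nd : Noe A n e) (rr : Fin c → Fin n) (hrr : Function.Injective rr) (D : ℕ)
    (P : A.Pts K) (q' : Fin c → MvPolynomial (Fin n) K) (hP : nd.Good P)
    (hq : IsEq nd rr D P q') (L : Type u) [Field L] [Algebra K L] (ζ : Fin n → L)
    (hζ : ∀ a, ∃ k, 0 < k ∧ ζ a ^ k = 1) :
    ∃ (W : Fin n → PowerSeries L) (U : PowerSeries L) (Y : Fin (N + 1) → PowerSeries L),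
      (∀ k, PowerSeries.constantCoeff (W k) = 0) ∧ PowerSeries.constantCoeff U = 0 ∧
      (∀ k, k ∉ Set.range rr → W k = PowerSeries.C (ζ k) * PowerSeries.X) ∧
      (∀ b, ∀ (v : AbsoluteValue L ℝ) (r₁ : ℝ), 0 ≤ r₁ →
        r₁ * (NV v (MvPolynomial.map (algebraMap K L) (q' b)) *
          ∏ t, (cst v 2 * max 1 (v (algebraMap K L (nd.s P t)))) ^ D) ^ 2 ≤
            v (algebraMap K L (eval (nd.s P) (pderiv (rr b) (q' b)))) ^ 2 →
        ∀ s, PN v r₁ s (W (rr b)) ≤ 1) ∧
      (aeval (ow U W) (tr (fun o => aeval (fun b => algebraMap K L (nd.y P b)) (nd.G o))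
        (MvPolynomial.map (algebraMap K L) (pO nd.Φ))) = 0) ∧
      A.IsPt Y ∧ lf (nd.l 0) Y = 1 ∧
      (∀ k : Fin n, lf (nd.l k.succ) Y = PowerSeries.C (algebraMap K L (nd.s P k)) + W k) ∧
      (aeval Y nd.θ = PowerSeries.C (aeval (fun b => algebraMap K L (nd.y P b)) nd.θ) + U) ∧
      (∀ b, aeval (fun k : Fin n => lf (nd.l k.succ) Y) (q' b) = 0) := by
  classical
  obtain ⟨hy1, hy2, hy3⟩ := nd.y_facts P hP.1 L
  set y₀ : Fin (N + 1) → L := fun b => algebraMap K L (nd.y P b) with hy₀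
  set σ : Fin n → L := fun k => algebraMap K L (nd.s P k) with hσ
  set t₀ : L := aeval y₀ nd.θ with ht₀
  have hval : ∀ F : MvPolynomial (Fin n) K, aeval σ F = algebraMap K L (eval (nd.s P) F) := by
    intro F
    have h1 := aeval_algMap (K := K) (L := K) (R := L) (nd.s P) F
    rw [hσ]
    rw [h1]
    congr 1
  -- the dependent coordinates
  have hU : ∀ b, ∃ U : PowerSeries L, PowerSeries.constantCoeff U = 0 ∧
      aeval (fun t => if t = rr b then PowerSeries.C (σ (rr b)) + U
        else PowerSeries.C (σ t) + PowerSeries.C (ζ t) * PowerSeries.X) (q' b) = 0 ∧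
      ∀ (v : AbsoluteValue L ℝ) (r₁ : ℝ), 0 ≤ r₁ →
        r₁ * (NV v (MvPolynomial.map (algebraMap K L) (q' b)) *
          ∏ t, (cst v 2 * max 1 (v (σ t))) ^ D) ^ 2 ≤ v (aeval σ (pderiv (rr b) (q' b))) ^ 2 →
        ∀ s, PN v r₁ s U ≤ 1 := by
    intro b
    obtain ⟨h1, h2, h3, h4⟩ := hq b
    refine VN.implicit_path (q' b) D h2 (rr b) σ ζ hζ ?_ ?_
    · rw [hval, h3, map_zero]
    · rw [hval]
      exact fun h => h4 ((map_eq_zero _).1 h)
  choose U₁ hU₁ hU₂ hU₃ using hU
  set W : Fin n → PowerSeries L := fun k =>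
    if h : ∃ b, rr b = k then U₁ h.choose else PowerSeries.C (ζ k) * PowerSeries.X with hW
  have hWr : ∀ b, W (rr b) = U₁ b := by
    intro b
    have h : ∃ b', rr b' = rr b := ⟨b, rfl⟩
    have h1 : h.choose = b := hrr h.choose_spec
    rw [hW]
    simp only []
    rw [dif_pos h, h1]
  have hWn : ∀ k, k ∉ Set.range rr → W k = PowerSeries.C (ζ k) * PowerSeries.X := by
    intro k hk
    rw [hW]
    simp only []
    rw [dif_neg (show ¬ ∃ b, rr b = k from fun h => hk h)]
  have hW0 : ∀ k, PowerSeries.constantCoeff (W k) = 0 := by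
    intro k
    by_cases hk : k ∈ Set.range rr
    · obtain ⟨b, rfl⟩ := hk
      rw [hWr]
      exact hU₁ b
    · rw [hWn k hk, map_mul, PowerSeries.constantCoeff_X, mul_zero]
  set S : Fin n → PowerSeries L := fun k => PowerSeries.C (σ k) + W k with hS
  have hSq : ∀ b, aeval S (q' b) = 0 := by
    intro b
    rw [← hU₂ b]
    refine aeval_congr_degreeOf _ _ _ fun t ht => ?_
    rw [hS]
    simp only []
    split_ifs with h
    · rw [h, hWr]
    · by_cases hk : t ∈ Set.range rr
      · obtain ⟨b', rfl⟩ := hk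
        exfalso
        have hbb : b' ≠ b := fun h1 => h (by rw [h1])
        exact ht ((hq b).1 b' hbb)
      · rw [hWn t hk]
  -- the polynomial for `θ`
  set ξ : Option (Fin n) → L := fun o => aeval y₀ (nd.G o) with hξ
  have hξe : ξ = ow t₀ σ := by
    rw [hξ, nd.G_eq y₀]
    congr 1
    funext k
    exact hy3 k
  set G : MvPolynomial (Option (Fin n)) L := tr ξ (MvPolynomial.map (algebraMap K L) (pO nd.Φ))
    with hG
  have hevO : ∀ Ψ : Polynomial (MvPolynomial (Fin n) K),
      eval ξ (MvPolynomial.map (algebraMap K L) (pO Ψ)) =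
        Ψ.eval₂ (aeval (R := K) σ).toRingHom t₀ := by
    intro Ψ
    rw [eval_map, hξe, ← aeval_pO, aeval_def]
  have h0 : coeff 0 G = 0 := by
    rw [hG, coeff_zero_tr, hevO]
    have h1 := nd.Φ_zero L y₀ hy1 hy2
    have h2 : (fun k : Fin n => lf (nd.l k.succ) y₀) = σ := funext hy3
    rw [h2] at h1
    exact h1
  have hδ : aeval σ nd.δ ≠ 0 := by
    rw [hval]
    intro h
    apply hP.2
    rw [aeval_eq_eval]
    exact (map_eq_zero _).1 h
  have h1c : coeff (Finsupp.single none 1) G =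
      (Polynomial.derivative nd.Φ).eval₂ (aeval (R := K) σ).toRingHom t₀ := by
    rw [hG, J9_coeff_single_tr, pderiv_map, pderiv_pO, hevO]
  have h1 : coeff (Finsupp.single none 1) G ≠ 0 := by
    rw [h1c]
    intro h
    obtain ⟨a, b, hab⟩ := nd.sep
    have h2 := congrArg (fun Ψ : Polynomial (MvPolynomial (Fin n) K) =>
      Ψ.eval₂ (aeval (R := K) σ).toRingHom t₀) hab
    simp only [Polynomial.eval₂_add, Polynomial.eval₂_mul, Polynomial.eval₂_C] at h2
    have h3 : nd.Φ.eval₂ (aeval (R := K) σ).toRingHom t₀ = 0 := by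
      rw [← hevO, ← coeff_zero_tr]
      exact h0
    rw [h, h3, mul_zero, mul_zero, add_zero] at h2
    exact hδ h2.symm
  obtain ⟨U, hU0, hUG⟩ := option_root G h0 h1 W hW0
  -- the point
  have hroot : nd.Φ.eval₂ (aeval (R := K) S).toRingHom (PowerSeries.C t₀ + U) = 0 := by
    have h2 := hUG
    rw [hG, aeval_tr, aeval_map_algebraMap] at h2
    have h3 : (fun o => ow U W o + algebraMap L (PowerSeries L) (ξ o)) =
        ow (PowerSeries.C t₀ + U) S := by
      funext o
      rw [hξe]
      cases o with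
      | none =>
        show U + algebraMap L (PowerSeries L) t₀ = PowerSeries.C t₀ + U
        rw [add_comm]
        rfl
      | some k =>
        show W k + algebraMap L (PowerSeries L) (σ k) = PowerSeries.C (σ k) + W k
        rw [add_comm]
        rfl
    rw [h3, aeval_pO] at h2
    exact h2
  have hunit : IsUnit (aeval S nd.δ) := by
    rw [PowerSeries.isUnit_iff_constantCoeff]
    have h2 : PowerSeries.constantCoeff (aeval S nd.δ) = aeval σ nd.δ := by
      have h3 := MvPolynomial.map_aeval S (PowerSeries.constantCoeff (R := L)) nd.δ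
      rw [h3]
      have h4 : (PowerSeries.constantCoeff (R := L)).comp (algebraMap K (PowerSeries L)) =
          algebraMap K L := by
        ext a
        rw [RingHom.comp_apply, PowerSeries.algebraMap_apply, PowerSeries.constantCoeff_C]
      rw [h4, aeval_def, coe_eval₂Hom]
      congr 1
      funext k
      rw [hS]
      simp only [map_add, PowerSeries.constantCoeff_C]
      rw [hW0, add_zero]
    rw [h2]
    exact isUnit_iff_ne_zero.2 hδ
  obtain ⟨Y, hY1, hY2, hY3, hY4⟩ := nd.back (PowerSeries L) S (PowerSeries.C t₀ + U) hroot hunit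
  refine ⟨W, U, Y, hW0, hU0, hWn, ?_, hUG, hY1, hY2, hY3, hY4, ?_⟩
  · intro b v r₁ hr₁ hle s
    rw [hWr]
    refine hU₃ b v r₁ hr₁ ?_ s
    rw [hval]
    exact hle
  · intro b
    have h2 : (fun k : Fin n => lf (nd.l k.succ) Y) = S := funext hY3
    rw [h2]
    exact hSq b

end Pool.Agent.Lib.MP_17a322_nt.VA
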