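import Pool.Agent.Lib.MP_17a322_nt.VA.Defs
import Pool.Agent.Lib.MP_17a322_nt.VA.A3
import Pool.Agent.Lib.MP_17a322_nt.VA.A5b

/-!
Tangent vectors in the Noether coordinates.
-/

universe u

namespace Pool.Agent.Lib.MP_17a322_nt.VA

open MvPolynomial

section

variable {K : Type u} [Field K]

theorem aeval_dual {R : Type*} [CommRing R] [Algebra K R] {σ : Type*} [Fintype σ] (u v : σ → R)
    (f : MvPolynomial σ K) :
    aeval (fun i => (TrivSqZeroExt.inl (u i) + TrivSqZeroExt.inr (v i) : DualNumber R)) f =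
      TrivSqZeroExt.inl (aeval u f) + TrivSqZeroExt.inr (∑ i, v i * aeval u (pderiv i f)) := by
  classical
  induction f using MvPolynomial.induction_on with
  | C a =>
    rw [aeval_C, aeval_C]
    simp only [pderiv_C, map_zero, mul_zero, Finset.sum_const_zero, TrivSqZeroExt.inr_zero, add_zero]
    rfl
  | add p q hp hq =>
    rw [map_add, hp, hq]
    simp only [map_add, mul_add, Finset.sum_add_distrib, TrivSqZeroExt.inl_add,
      TrivSqZeroExt.inr_add]
    ring
  | mul_X p j hp =>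
    rw [map_mul, hp, aeval_X]
    have h1 : ∑ i, v i * aeval u (pderiv i (p * X j)) =
        u j * (∑ i, v i * aeval u (pderiv i p)) + aeval u p * v j := by
      have h2 : ∀ i, v i * aeval u (pderiv i (p * X j)) =
          u j * (v i * aeval u (pderiv i p)) + if i = j then aeval u p * v j else 0 := by
        intro i
        rw [pderiv_mul, map_add, map_mul, map_mul, aeval_X, pderiv_X]
        by_cases h : i = j
        · rw [if_pos h, h, Pi.single_eq_same, map_one]
          ring
        · rw [if_neg h, Pi.single_eq_of_ne (fun h' => h h'.symm), map_zero]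
          ring
      rw [Finset.sum_congr rfl fun i _ => h2 i, Finset.sum_add_distrib, ← Finset.mul_sum,
        Finset.sum_ite_eq' _ j, if_pos (Finset.mem_univ j)]
    rw [h1]
    ext
    · simp
    · simp
      ring

theorem lf_dual {N : ℕ} {R : Type*} [CommRing R] [Algebra K R] (l : Fin (N + 1) → K)
    (u v : Fin (N + 1) → R) :
    lf l (fun i => (TrivSqZeroExt.inl (u i) + TrivSqZeroExt.inr (v i) : DualNumber R)) =
      TrivSqZeroExt.inl (lf l u) + TrivSqZeroExt.inr (lf l v) := by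
  rw [← aeval_lf l, aeval_dual, aeval_lf]
  congr 2
  rw [lf]
  refine Finset.sum_congr rfl fun i _ => ?_
  have h1 : pderiv i (∑ a, C (l a) * X a : MvPolynomial (Fin (N + 1)) K) = C (l i) := by
    rw [map_sum, Finset.sum_eq_single i]
    · rw [pderiv_C_mul, pderiv_X_self, mul_one]
    · intro b _ hb
      rw [pderiv_C_mul, pderiv_X_of_ne hb, mul_zero]
    · intro h; exact absurd (Finset.mem_univ i) h
  rw [h1, aeval_C, mul_comm]

theorem eval_inr {P R : Type*} [CommRing P] [CommRing R] (Φ : Polynomial P)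
    (G : P →+* DualNumber R) (x : DualNumber R) (τ : R) :
    Φ.eval₂ G (x + TrivSqZeroExt.inr τ) =
      Φ.eval₂ G x + TrivSqZeroExt.inr (τ * (Φ.derivative.eval₂ G x).fst) := by
  rw [Polynomial.eval₂_eq_eval_map, Polynomial.eval_add_of_sq_eq_zero _ _ _ (by
    rw [pow_two, TrivSqZeroExt.inr_mul_inr]), Polynomial.eval₂_eq_eval_map, Polynomial.derivative_map,
    Polynomial.eval₂_eq_eval_map]
  congr 1
  ext
  · simp
  · simp [mul_comm]

end

section

variable {K : Type u} [Field K] {N : ℕ} {A : AV K N} {n e : ℕ} (nd : Noe A n e)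
variable {L : Type u} [Field L] [Algebra K L]

theorem Noe.deriv_ne {y : Fin (N + 1) → L} (hy : A.IsPt y) (h1 : lf (nd.l 0) y = 1)
    (hδ : aeval (fun k : Fin n => lf (nd.l k.succ) y) nd.δ ≠ 0) :
    nd.Φ.derivative.eval₂ (aeval (R := K) fun k : Fin n => lf (nd.l k.succ) y).toRingHom
      (aeval y nd.θ) ≠ 0 := by
  intro h
  obtain ⟨a, b, hab⟩ := nd.sep
  have h2 := congrArg (Polynomial.eval₂
    (aeval (R := K) fun k : Fin n => lf (nd.l k.succ) y).toRingHom (aeval y nd.θ)) hab
  rw [Polynomial.eval₂_add, Polynomial.eval₂_mul, Polynomial.eval₂_mul, nd.Φ_zero L y hy h1, h,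
    mul_zero, mul_zero, add_zero, Polynomial.eval₂_C] at h2
  exact hδ h2.symm

/-- The Noether coordinates of a tangent vector at a good point are arbitrary. -/
theorem Noe.tan_surj {y : Fin (N + 1) → L} (hy : A.IsPt y) (h1 : lf (nd.l 0) y = 1)
    (hδ : aeval (fun k : Fin n => lf (nd.l k.succ) y) nd.δ ≠ 0) (σ : Fin n → L) :
    ∃ τ : Fin (N + 1) → L,
      A.IsPt (R := DualNumber L) (fun i => TrivSqZeroExt.inl (y i) + TrivSqZeroExt.inr (τ i)) ∧
      lf (nd.l 0) τ = 0 ∧ ∀ k : Fin n, lf (nd.l k.succ) τ = σ k := by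
  set s : Fin n → L := fun k => lf (nd.l k.succ) y with hs
  set s' : Fin n → DualNumber L := fun k => TrivSqZeroExt.inl (s k) + TrivSqZeroExt.inr (σ k)
    with hs'
  set φ : DualNumber L →ₐ[K] L := TrivSqZeroExt.fstHom K L L with hφ
  have hφs : ∀ k, φ (s' k) = s k := fun k => by
    rw [hs', hφ]
    simp
  have hcomp : φ.toRingHom.comp (aeval (R := K) s').toRingHom = (aeval (R := K) s).toRingHom := by
    have h2 : φ.comp (aeval s' : MvPolynomial (Fin n) K →ₐ[K] DualNumber L) = aeval s := by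
      apply MvPolynomial.algHom_ext
      intro i
      rw [AlgHom.comp_apply, aeval_X, aeval_X, hφs]
    rw [← h2]
    rfl
  have hfst : ∀ (Ψ : Polynomial (MvPolynomial (Fin n) K)) (x : DualNumber L),
      (Ψ.eval₂ (aeval (R := K) s').toRingHom x).fst =
        Ψ.eval₂ (aeval (R := K) s).toRingHom x.fst := by
    intro Ψ x
    have h := Polynomial.hom_eval₂ Ψ (aeval (R := K) s').toRingHom φ.toRingHom x
    rw [hcomp] at h
    exact h
  set θ := aeval y nd.θ with hθ
  have hΦ : nd.Φ.eval₂ (aeval (R := K) s).toRingHom θ = 0 := nd.Φ_zero L y hy h1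
  have hd : nd.Φ.derivative.eval₂ (aeval (R := K) s).toRingHom θ ≠ 0 := nd.deriv_ne hy h1 hδ
  set d := nd.Φ.derivative.eval₂ (aeval (R := K) s).toRingHom θ with hdd
  set c := nd.Φ.eval₂ (aeval (R := K) s').toRingHom (TrivSqZeroExt.inl θ) with hc
  have hc0 : c.fst = 0 := by
    rw [hc, hfst, TrivSqZeroExt.fst_inl, hΦ]
  have hroot : nd.Φ.eval₂ (aeval (R := K) s').toRingHom
      (TrivSqZeroExt.inl θ + TrivSqZeroExt.inr (-c.snd / d)) = 0 := by
    rw [eval_inr, hfst, TrivSqZeroExt.fst_inl, ← hc, ← hdd, div_mul_cancel₀ _ hd]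
    ext
    · rw [TrivSqZeroExt.fst_add, hc0, TrivSqZeroExt.fst_inr, add_zero]
      rfl
    · rw [TrivSqZeroExt.snd_add, TrivSqZeroExt.snd_inr, add_neg_cancel]
      rfl
  have hunit : IsUnit (aeval s' nd.δ) := by
    rw [TrivSqZeroExt.isUnit_iff_isUnit_fst]
    have h2 := hfst (Polynomial.C nd.δ) 0
    rw [Polynomial.eval₂_C, Polynomial.eval₂_C] at h2
    have h3 : (aeval s' nd.δ).fst = aeval s nd.δ := h2
    rw [h3, isUnit_iff_ne_zero]
    exact hδ
  obtain ⟨y', hy', hl, hk, ht⟩ := nd.back (DualNumber L) s' _ hroot hunit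
  have hyy : ∀ i, (y' i).fst = y i := by
    have g1 : A.IsPt fun i => φ (y' i) := hy'.map φ
    have g2 : lf (nd.l 0) (fun i => φ (y' i)) = 1 := by rw [← lf_map, hl, map_one]
    have g3 : ∀ k : Fin n, lf (nd.l k.succ) (fun i => φ (y' i)) = s k := by
      intro k; rw [← lf_map, hk k, hφs]
    have g4 : aeval (fun i => φ (y' i)) nd.θ = θ := by
      have h2 : φ.comp (aeval y' : MvPolynomial (Fin (N + 1)) K →ₐ[K] DualNumber L) =
          aeval fun i => φ (y' i) := by
        apply MvPolynomial.algHom_ext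
        intro i
        rw [AlgHom.comp_apply, aeval_X, aeval_X]
      rw [← h2, AlgHom.comp_apply, ht]
      rw [hφ]
      simp
    intro i
    have g5 := nd.p_eq L _ g1 g2 i
    have g6 := nd.p_eq L y hy h1 i
    simp only [g3, g4] at g5
    exact mul_left_cancel₀ hδ (g5.trans g6.symm)
  have hform : y' = fun i => TrivSqZeroExt.inl (y i) + TrivSqZeroExt.inr (y' i).snd := by
    funext i
    rw [← hyy i, TrivSqZeroExt.inl_fst_add_inr_snd_eq]
  refine ⟨fun i => (y' i).snd, ?_, ?_, ?_⟩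
  · rw [← hform]
    exact hy'
  · have g1 := congrArg TrivSqZeroExt.snd hl
    rw [hform, lf_dual] at g1
    simpa using g1
  · intro k
    have g1 := congrArg TrivSqZeroExt.snd (hk k)
    rw [hform, lf_dual] at g1
    simpa [hs'] using g1

/-- A tangent vector at a good point is determined by its Noether coordinates. -/
theorem Noe.tan_inj {y : Fin (N + 1) → L} (hy : A.IsPt y) (h1 : lf (nd.l 0) y = 1)
    (hδ : aeval (fun k : Fin n => lf (nd.l k.succ) y) nd.δ ≠ 0) {τ : Fin (N + 1) → L}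
    (hτ : A.IsPt (R := DualNumber L) fun i =>
      TrivSqZeroExt.inl (y i) + TrivSqZeroExt.inr (τ i)) (h0 : lf (nd.l 0) τ = 0)
    (hk : ∀ k : Fin n, lf (nd.l k.succ) τ = 0) : τ = 0 := by
  set s : Fin n → L := fun k => lf (nd.l k.succ) y with hs
  set y' : Fin (N + 1) → DualNumber L := fun i => TrivSqZeroExt.inl (y i) + TrivSqZeroExt.inr (τ i)
    with hy'
  have hl : lf (nd.l 0) y' = 1 := by
    rw [hy', lf_dual, h1, h0, TrivSqZeroExt.inr_zero, add_zero, TrivSqZeroExt.inl_one]
  have hks : ∀ k : Fin n, lf (nd.l k.succ) y' = TrivSqZeroExt.inl (s k) := by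
    intro k
    rw [hy', lf_dual, hk k, TrivSqZeroExt.inr_zero, add_zero]
  set ψ : L →ₐ[K] DualNumber L := TrivSqZeroExt.inlAlgHom K L L with hψ
  have hcomp : ψ.toRingHom.comp (aeval (R := K) s).toRingHom =
      (aeval (R := K) fun k => (TrivSqZeroExt.inl (s k) : DualNumber L)).toRingHom := by
    have h2 : ψ.comp (aeval s : MvPolynomial (Fin n) K →ₐ[K] L) =
        aeval fun k => (TrivSqZeroExt.inl (s k) : DualNumber L) := by
      apply MvPolynomial.algHom_ext
      intro i
      rw [AlgHom.comp_apply, aeval_X, aeval_X]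
      rfl
    rw [← h2]
    rfl
  have hinl : ∀ (Ψ : Polynomial (MvPolynomial (Fin n) K)) (x : L),
      Ψ.eval₂ (aeval (R := K) fun k => (TrivSqZeroExt.inl (s k) : DualNumber L)).toRingHom
        (TrivSqZeroExt.inl x) = TrivSqZeroExt.inl (Ψ.eval₂ (aeval (R := K) s).toRingHom x) := by
    intro Ψ x
    have h := Polynomial.hom_eval₂ Ψ (aeval (R := K) s).toRingHom ψ.toRingHom x
    rw [hcomp] at h
    exact h.symm
  set θ := aeval y nd.θ with hθ
  have hd : nd.Φ.derivative.eval₂ (aeval (R := K) s).toRingHom θ ≠ 0 := nd.deriv_ne hy h1 hδ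
  have hθ' : aeval y' nd.θ = TrivSqZeroExt.inl θ +
      TrivSqZeroExt.inr (∑ i, τ i * aeval y (pderiv i nd.θ)) := by
    rw [hy', aeval_dual]
  set τθ := ∑ i, τ i * aeval y (pderiv i nd.θ) with hτθ
  have h2 := nd.Φ_zero (DualNumber L) y' hτ hl
  simp only [hks] at h2
  rw [hθ', eval_inr, hinl, hinl, nd.Φ_zero L y hy h1, TrivSqZeroExt.inl_zero, zero_add,
    TrivSqZeroExt.fst_inl] at h2
  have h3 := congrArg TrivSqZeroExt.snd h2
  rw [TrivSqZeroExt.snd_inr, TrivSqZeroExt.snd_zero] at h3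
  have h4 : τθ = 0 := (mul_eq_zero.1 h3).resolve_right hd
  funext j
  have h5 := nd.p_eq (DualNumber L) y' hτ hl j
  simp only [hks] at h5
  rw [hθ', h4, TrivSqZeroExt.inr_zero, add_zero, hinl] at h5
  have h6 := hinl (Polynomial.C nd.δ) 0
  rw [Polynomial.eval₂_C, Polynomial.eval₂_C] at h6
  have h7 : (aeval fun k => (TrivSqZeroExt.inl (s k) : DualNumber L)) nd.δ =
      TrivSqZeroExt.inl (aeval s nd.δ) := h6
  rw [h7, hy'] at h5
  have h8 := congrArg TrivSqZeroExt.snd h5
  simp at h8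
  rcases h8 with h8 | h8
  · exact absurd h8 hδ
  · rw [h8]; rfl

end

end Pool.Agent.Lib.MP_17a322_nt.VA
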