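import Pool.Agent.Lib.MP_17a322_nt.VA.E01
import Pool.Agent.Lib.MP_17a322_nt.VJ.A5

/-!
JOB E02. Part E of VA: bounds for eliminations.

* `wt_pos`, `one_le_wt`: cases (`4 ^ _ ≥ 1`).
* `GR_mono`, `QE_mono`, `QE_nonneg` (variable `q`): immediate.
* `QE_El`: (like `QB_El` in VN/L2A3a) `degreeOf_El_le'` (VJ/C2): `deg_t (El y α N) ≤ deg_y N * deg_t α + deg_y α * deg_t N`. Multiply by `wt j t`:
  `deg_y N * (wt t * deg_t α) ≤ deg_y N * (A * wt y) ≤ A * b` and `deg_y α * (wt t * deg_t N) ≤ A * b`. `nh_El_le` (VJ/C5):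
  `nh (El ..) ≤ deg_y N * nh α + deg_y α * nh N ≤ A * (wt y * deg_y N) + A * H ≤ A * b + A * H` (`nh N ≤ H`, `0 ≤ H`).
* `QE_ELL`: induction on `l` generalizing `N b H`. `ELL α (y :: l) N = ELL α l (El y (α y) N)`. `El y (α y) N ≠ 0`: otherwise
  `ELL_zero` (E01; this needs `(α y).degreeOf y ≠ 0`). `QE_El` gives `QE j (2 A b) (A b + A H)`; the induction hypothesis with these;
  `(2A)^len * (2 A b) = (2A)^(len+1) b`, and `(3A)^len * ((A b + A H) + 2 A b) ≤ (3A)^(len+1) * (H + b)` (`b, H ≥ 0`: `b ≥ 0` since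
  `0 ≤ wt * degree ≤ b` for the variable `q`).
-/

universe u

namespace Pool.Agent.Lib.MP_17a322_nt.VA

open MvPolynomial Height
open Pool.Agent.Lib.MP_17a322_nt.VJ
open Pool.Agent.Lib.MP_17a322_nt.VN

theorem one_le_wt {m n : ℕ} (j : Fin m → ℕ) (y : VE m n) : 1 ≤ wt j y := by
  cases y
  · exact le_refl (1 : ℝ)
  · exact le_refl (1 : ℝ)
  · exact one_le_pow₀ (by norm_num : (1 : ℝ) ≤ 4)
  · exact one_le_pow₀ (by norm_num : (1 : ℝ) ≤ 4)
  · exact one_le_pow₀ (by norm_num : (1 : ℝ) ≤ 4)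
  · exact one_le_pow₀ (by norm_num : (1 : ℝ) ≤ 4)

theorem QE_nonneg {K : Type*} [Field K] [AdmissibleAbsValues K] {m n : ℕ} {j : Fin m → ℕ}
    {b H : ℝ} {N : MvPolynomial (VE m n) K} (h : QE j b H N) : 0 ≤ b :=
  (mul_nonneg (zero_le_one.trans (one_le_wt j VE.q)) (Nat.cast_nonneg _)).trans (h.1 VE.q)

theorem QE_mono {K : Type*} [Field K] [AdmissibleAbsValues K] {m n : ℕ} {j : Fin m → ℕ}
    {b H b' H' : ℝ} (hb : b ≤ b') (hH : H ≤ H') {N : MvPolynomial (VE m n) K} (h : QE j b H N) :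
    QE j b' H' N :=
  ⟨fun y => (h.1 y).trans hb, h.2.trans hH⟩

theorem GR_mono {K : Type*} [Field K] [AdmissibleAbsValues K] {m n : ℕ} {j : Fin m → ℕ}
    {A A' : ℝ} (h : A ≤ A') {y : VE m n} {α : MvPolynomial (VE m n) K} (hα : GRE j A y α) :
    GRE j A' y α := by
  have h1 : A * wt j y ≤ A' * wt j y :=
    mul_le_mul_of_nonneg_right h (zero_le_one.trans (one_le_wt j y))
  exact ⟨hα.1.trans h, fun t => (hα.2.1 t).trans h1, hα.2.2.trans h1⟩

theorem QE_El {K : Type*} [Field K] [AdmissibleAbsValues K] {m n : ℕ} (j : Fin m → ℕ)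
    (A b H : ℝ) (hH : 0 ≤ H) (y : VE m n) (α N : MvPolynomial (VE m n) K) (hα : GRE j A y α)
    (h : QE j b H N) (hE : El y α N ≠ 0) :
    QE j (2 * A * b) (A * b + A * H) (El y α N) := by
  have hN0 : (0 : ℝ) ≤ N.degreeOf y := Nat.cast_nonneg _
  have hα0 : (0 : ℝ) ≤ α.degreeOf y := Nat.cast_nonneg _
  have hA : 0 ≤ A := hα0.trans hα.1
  have hb : 0 ≤ b := QE_nonneg h
  have hwy := h.1 y
  have h5 : (N.degreeOf y : ℝ) * (A * wt j y) ≤ A * b := by
    calc (N.degreeOf y : ℝ) * (A * wt j y) = A * (wt j y * N.degreeOf y) := by ring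
      _ ≤ A * b := mul_le_mul_of_nonneg_left hwy hA
  refine ⟨fun t => ?_, ?_⟩
  · have h1 : ((El y α N).degreeOf t : ℝ) ≤
        N.degreeOf y * α.degreeOf t + α.degreeOf y * N.degreeOf t := by
      exact_mod_cast degreeOf_El_le' y α N t
    have hwt : 0 ≤ wt j t := zero_le_one.trans (one_le_wt j t)
    have h2 := mul_le_mul_of_nonneg_left h1 hwt
    have h3 : (N.degreeOf y : ℝ) * (wt j t * α.degreeOf t) ≤ N.degreeOf y * (A * wt j y) :=
      mul_le_mul_of_nonneg_left (hα.2.1 t) hN0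
    have h4 : (α.degreeOf y : ℝ) * (wt j t * N.degreeOf t) ≤ A * b :=
      mul_le_mul hα.1 (h.1 t) (mul_nonneg hwt (Nat.cast_nonneg _)) hA
    calc wt j t * ((El y α N).degreeOf t : ℝ) ≤
        wt j t * (N.degreeOf y * α.degreeOf t + α.degreeOf y * N.degreeOf t) := h2
      _ = (N.degreeOf y : ℝ) * (wt j t * α.degreeOf t) +
          (α.degreeOf y : ℝ) * (wt j t * N.degreeOf t) := by ring
      _ ≤ A * b + A * b := add_le_add (h3.trans h5) h4
      _ = 2 * A * b := by ring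
  · have h1 := nh_El_le y α N hE
    have h3 : (N.degreeOf y : ℝ) * nh α ≤ N.degreeOf y * (A * wt j y) :=
      mul_le_mul_of_nonneg_left hα.2.2 hN0
    have h4 : (α.degreeOf y : ℝ) * nh N ≤ A * H :=
      (mul_le_mul_of_nonneg_left h.2 hα0).trans (mul_le_mul_of_nonneg_right hα.1 hH)
    exact h1.trans (add_le_add (h3.trans h5) h4)

theorem QE_ELL {K : Type*} [Field K] [AdmissibleAbsValues K] {m n : ℕ} (j : Fin m → ℕ)
    (A : ℝ) (hA : 1 ≤ A) (α : VE m n → MvPolynomial (VE m n) K) (l : List (VE m n))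
    (hα : ∀ y ∈ l, GRE j A y (α y)) (h0 : ∀ y ∈ l, (α y).degreeOf y ≠ 0) (b H : ℝ) (hH : 0 ≤ H)
    (N : MvPolynomial (VE m n) K) (h : QE j b H N) (hE : ELL α l N ≠ 0) :
    QE j ((2 * A) ^ l.length * b) ((3 * A) ^ l.length * (H + b)) (ELL α l N) := by
  induction l generalizing N b H with
  | nil =>
    have hb : 0 ≤ b := QE_nonneg h
    refine QE_mono ?_ ?_ h
    · rw [List.length_nil, pow_zero, one_mul]
    · rw [List.length_nil, pow_zero, one_mul]
      linarith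
  | cons y l ih =>
    have hb : 0 ≤ b := QE_nonneg h
    have hA0 : 0 ≤ A := zero_le_one.trans hA
    rw [ELL_cons] at hE ⊢
    have hE' : El y (α y) N ≠ 0 := by
      intro h1
      rw [h1] at hE
      exact hE (ELL_zero α l fun y' hy' => h0 y' (List.mem_cons_of_mem _ hy'))
    have h1 := QE_El j A b H hH y (α y) N (hα y List.mem_cons_self) h hE'
    have h2 := ih (fun y' hy' => hα y' (List.mem_cons_of_mem _ hy'))
      (fun y' hy' => h0 y' (List.mem_cons_of_mem _ hy')) (2 * A * b) (A * b + A * H)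
      (add_nonneg (mul_nonneg hA0 hb) (mul_nonneg hA0 hH)) (El y (α y) N) h1 hE
    refine QE_mono ?_ ?_ h2
    · rw [List.length_cons, pow_succ]
      exact le_of_eq (by ring)
    · have h3 : 0 ≤ A * H := mul_nonneg hA0 hH
      have h4 : (3 * A) ^ (y :: l).length * (H + b) = (3 * A) ^ l.length * (3 * A * (H + b)) := by
        rw [List.length_cons, pow_succ]
        ring
      rw [h4]
      exact mul_le_mul_of_nonneg_left (by linarith) (pow_nonneg (by linarith) _)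

end Pool.Agent.Lib.MP_17a322_nt.VA
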