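import Pool.Agent.Lib.MP_17a322_nt.VA.E22
import Pool.Agent.Lib.MP_17a322_nt.VA.E23

/-!
Part E of VA: the elimination data of an abelian variety are bounded and generic; relations in rings.
-/

universe u

namespace Pool.Agent.Lib.MP_17a322_nt.VA

open MvPolynomial Height
open Pool.Agent.Lib.MP_17a322_nt.VJ
open Pool.Agent.Lib.MP_17a322_nt.VN

section

variable {K : Type u} [Field K] {N : ℕ} {A : AV K N} {n e : ℕ} (nd : Noe A n e)

theorem Noe.ed_f0 : nd.ed.f.degreeOf none ≠ 0 := by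
  show (unp nd.Φ).degreeOf none ≠ 0
  rw [degreeOf_none_unp]
  intro h
  have h1 : nd.Φ = 1 := nd.Φ_monic.natDegree_eq_zero.1 h
  obtain ⟨L, _, _, P, h2, -⟩ := nd.indep
  have h3 : A.IsPt fun i => (lf (nd.l 0) (A.x P))⁻¹ * A.x P i := (A.x_isPt P).smul _
  have h4 : lf (nd.l 0) (fun i => (lf (nd.l 0) (A.x P))⁻¹ * A.x P i) = 1 := by
    rw [lf_smulE, inv_mul_cancel₀ h2]
  have h5 := nd.Φ_zero L _ h3 h4
  rw [h1, Polynomial.eval₂_one] at h5
  exact one_ne_zero h5

theorem Noe.ed_ok [NumberField K] : ∃ C : ℝ, nd.ed.Ok C := by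
  obtain ⟨C₁, h1, h2⟩ := nd.ed_degree
  obtain ⟨C₂, h3, h4⟩ := nd.ed_nh
  refine ⟨max (max 1 (C₁ : ℝ)) (max C₂ (nh nd.ed.f)), ?_⟩
  have e1 : (C₁ : ℝ) ≤ max (max 1 (C₁ : ℝ)) (max C₂ (nh nd.ed.f)) :=
    (le_max_right _ _).trans (le_max_left _ _)
  have e2 : C₂ ≤ max (max 1 (C₁ : ℝ)) (max C₂ (nh nd.ed.f)) :=
    (le_max_left _ _).trans (le_max_right _ _)
  exact
    { one_le := (le_max_left _ _).trans (le_max_left _ _)
      f0 := nd.ed_f0
      fd := fun y => le_trans (by exact_mod_cast h1 y) e1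
      fh := (le_max_right _ _).trans (le_max_right _ _)
      bl := fun j o y => le_trans (by exact_mod_cast (h2 j o y).1)
        (mul_le_mul_of_nonneg_right e1 (by positivity))
      br := fun j o y => le_trans (by exact_mod_cast (h2 j o y).2) e1
      bh := fun j t => (h4 j t).trans (mul_le_mul_of_nonneg_right e2 (by positivity))
      gen := fun Ω _ _ _ j a b hab ha hb => nd.ed_gen j a b hab ha hb }

theorem Noe.pO_map {R R' : Type u} [CommRing R] [Algebra K R] [CommRing R'] [Algebra K R']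
    (φ : R →ₐ[K] R') (y : Fin (N + 1) → R) (o : Option (Fin n)) :
    nd.pO (fun i => φ (y i)) o = φ (nd.pO y o) := by
  cases o with
  | none =>
    show aeval (fun i => φ (y i)) nd.θ = φ (aeval y nd.θ)
    rw [← AlgHom.comp_apply, MvPolynomial.comp_aeval]
  | some t => exact lf_mapE _ φ y

/-- The relation for `ξ`. -/
theorem Noe.rel_b {R : Type u} [CommRing R] [Algebra K R] {y Y : Fin (N + 1) → R}
    (hy : A.IsPt y) (h1 : lf (nd.l 0) y = 1) (hY : A.IsPt Y) (h2 : lf (nd.l 0) Y = 1) (j : ℕ)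
    {κ : R} (hκ : IsUnit κ) {M : Fin (N + 1) → R} (hM : ∀ a, M a = κ * A.mu j Y a)
    {ξ : Fin n → R}
    (h : ∀ (a : Fin (N + 1)) (k : Fin n), ξ k * lf (nd.l 0) (A.col a y M) =
      lf (nd.l k.succ) (A.col a y M)) (k : Fin n) :
    aeval (Sum.elim (nd.pO Y) (nd.pO y)) (nd.ed.b j none) * ξ k =
      aeval (Sum.elim (nd.pO Y) (nd.pO y)) (nd.ed.b j (some k)) := by
  have h3 : ∀ (a : Fin (N + 1)) (l : Fin (N + 1) → K), lf l (A.col a y M) =
      κ ^ 2 * lf l (A.col a y (A.mu j Y)) := by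
    intro a l
    rw [← lf_smulE]
    congr 1
    funext b
    have h4 : M = fun i => κ * A.mu j Y i := funext hM
    have h5 := AV.col_smulE (A := A) a b 1 κ y (A.mu j Y)
    rw [h4]
    simpa using h5
  have h6 : ∀ a, ξ k * lf (nd.l 0) (A.col a y (A.mu j Y)) =
      lf (nd.l k.succ) (A.col a y (A.mu j Y)) := by
    intro a
    have h7 := h a k
    rw [h3, h3] at h7
    refine (hκ.pow 2).mul_left_cancel ?_
    rw [← h7]
    ring
  rw [nd.aeval_b_pO hy h1 hY h2, nd.aeval_b_pO hy h1 hY h2, mul_assoc, Finset.sum_mul]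
  congr 1
  refine Finset.sum_congr rfl fun a _ => ?_
  show algebraMap K R (nd.l 0 a) * lf (nd.l 0) (A.col a y (A.mu j Y)) * ξ k =
    algebraMap K R (nd.l 0 a) * lf (nd.l k.succ) (A.col a y (A.mu j Y))
  rw [← h6]
  ring

end

/-- The independent coordinates. -/
def JJ {n c : ℕ} (rr : Fin c → Fin n) : Finset (Fin n) := (Finset.univ.image rr)ᶜ

theorem mem_JJ {n c : ℕ} {rr : Fin c → Fin n} {t : Fin n} : t ∈ JJ rr ↔ t ∉ Set.range rr := by
  unfold JJ
  simp

theorem notMem_JJ {n c : ℕ} {rr : Fin c → Fin n} {t : Fin n} : t ∉ JJ rr ↔ ∃ b, rr b = t := by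
  rw [mem_JJ, not_not]
  rfl

/-- The equations indexed by the coordinates. -/
noncomputable def hh {K : Type*} [Field K] {m n c : ℕ} (rr : Fin c → Fin n)
    (q : Fin m → Fin c → MvPolynomial (Fin n) K) : Fin m → Fin n → MvPolynomial (Fin n) K :=
  fun i r => open Classical in if h : ∃ b, rr b = r then q i h.choose else 0

theorem hh_rr {K : Type*} [Field K] {m n c : ℕ} {rr : Fin c → Fin n}
    (hrr : Function.Injective rr) (q : Fin m → Fin c → MvPolynomial (Fin n) K) (i : Fin m)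
    (b : Fin c) : hh rr q i (rr b) = q i b := by
  have h : ∃ b', rr b' = rr b := ⟨b, rfl⟩
  unfold hh
  rw [dif_pos h]
  congr 1
  exact hrr h.choose_spec

theorem HC_hh {K : Type*} [Field K] [AdmissibleAbsValues K] {m n c : ℕ} {rr : Fin c → Fin n}
    (hrr : Function.Injective rr) (q : Fin m → Fin c → MvPolynomial (Fin n) K) (D : ℕ)
    (j : Fin m → ℕ) (σ : Fin m → Fin n → K)
    (hq : ∀ i b, (∀ b', b' ≠ b → (q i b).degreeOf (rr b') = 0) ∧ (∀ a, (q i b).degreeOf a ≤ D) ∧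
      nh (q i b) ≤ 4 ^ j i ∧ eval (σ i) (q i b) = 0 ∧ eval (σ i) (pderiv (rr b) (q i b)) ≠ 0) :
    HC (JJ rr) D j (hh rr q) := by
  intro i r hr
  obtain ⟨b, rfl⟩ := notMem_JJ.1 hr
  rw [hh_rr hrr]
  obtain ⟨h1, h2, h3, h4, h5⟩ := hq i b
  refine ⟨fun h => h5 ?_, h2, fun t ht htr => ?_, h3⟩
  · have h6 : rr b ∉ (q i b).vars := by
      classical
      rw [degreeOf_def, Multiset.count_eq_zero] at h
      rw [vars_def]
      exact fun h7 => h (Multiset.mem_toFinset.1 h7)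
    rw [pderiv_eq_zero_of_notMem_vars h6, map_zero]
  · obtain ⟨b', rfl⟩ := notMem_JJ.1 ht
    exact h1 b' fun h => htr (by rw [h])

end Pool.Agent.Lib.MP_17a322_nt.VA
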