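import Pool.Agent.Lib.MP_17a322_nt.VA.A4b
import Pool.Agent.Lib.MP_17a322_nt.VA.A5b
import Pool.Agent.Lib.MP_17a322_nt.VA.Z3

/-!
The generic point of an abelian variety, homogenisation, linear forms without common zero.
-/

universe u

namespace Pool.Agent.Lib.MP_17a322_nt.VA

open MvPolynomial
open Pool.Agent.Lib.MP_17a322_nt.VN

section

variable {K : Type u} [Field K] {N : ℕ}

/-- A linear form, as a polynomial. -/
noncomputable def lp (l : Fin (N + 1) → K) : MvPolynomial (Fin (N + 1)) K := ∑ a, C (l a) * X a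

theorem aeval_lp {R : Type*} [CommRing R] [Algebra K R] (l : Fin (N + 1) → K)
    (y : Fin (N + 1) → R) : aeval y (lp l) = lf l y := aeval_lf l y

variable (A : AV K N)

instance AV.dom : IsDomain (MvPolynomial (Fin (N + 1)) K ⧸ A.I) :=
  (Ideal.Quotient.isDomain_iff_prime A.I).2 A.I_prime

/-- The function field of the cone over `A`. -/
abbrev AV.FF : Type u := FractionRing (MvPolynomial (Fin (N + 1)) K ⧸ A.I)

/-- The coordinates of the generic point. -/
noncomputable def AV.gp : Fin (N + 1) → A.FF := fun a =>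
  algebraMap (MvPolynomial (Fin (N + 1)) K ⧸ A.I) A.FF (Ideal.Quotient.mk A.I (X a))

theorem AV.aeval_gp (f : MvPolynomial (Fin (N + 1)) K) : aeval A.gp f =
    algebraMap (MvPolynomial (Fin (N + 1)) K ⧸ A.I) A.FF (Ideal.Quotient.mk A.I f) := by
  have h : (aeval A.gp : MvPolynomial (Fin (N + 1)) K →ₐ[K] A.FF) =
      (IsScalarTower.toAlgHom K (MvPolynomial (Fin (N + 1)) K ⧸ A.I) A.FF).comp
        (Ideal.Quotient.mkₐ K A.I) := by
    apply MvPolynomial.algHom_ext
    intro i
    rw [aeval_X]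
    rfl
  exact congrArg (fun φ => φ f) h

theorem AV.gp_zero_iff (f : MvPolynomial (Fin (N + 1)) K) : aeval A.gp f = 0 ↔ f ∈ A.I := by
  rw [A.aeval_gp, FaithfulSMul.algebraMap_eq_zero_iff, Ideal.Quotient.eq_zero_iff_mem]

theorem AV.gp_isPt : A.IsPt A.gp := fun f hf => (A.gp_zero_iff f).2 hf

theorem AV.gp_ne : A.gp ≠ 0 := by
  intro h
  have h1 : ∀ a, (X a : MvPolynomial (Fin (N + 1)) K) ∈ A.I := by
    intro a
    rw [← A.gp_zero_iff, aeval_X, h, Pi.zero_apply]
  have h2 : A.x (0 : A.Pts K) = 0 := by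
    funext a
    have := (AV.Rep.self (0 : A.Pts K)).isPt (X a) (h1 a)
    rwa [aeval_X] at this
  exact (AV.Rep.self (0 : A.Pts K)).ne_zero h2

/-- The affine coordinates of the generic point. -/
noncomputable def AV.ga (l : Fin (N + 1) → K) : Fin (N + 1) → A.FF := fun a =>
  A.gp a / lf l A.gp

variable {A}

theorem AV.gp_eq {l : Fin (N + 1) → K} (hl : lf l A.gp ≠ 0) :
    A.gp = fun a => lf l A.gp * A.ga l a := by
  funext a
  rw [AV.ga, mul_div_cancel₀ _ hl]

theorem AV.lf_ga {l : Fin (N + 1) → K} (hl : lf l A.gp ≠ 0) : lf l (A.ga l) = 1 := by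
  have h := congrArg (lf l) (AV.gp_eq hl)
  rw [lf_smul] at h
  exact mul_left_cancel₀ hl (by rw [← h, mul_one])

theorem AV.ga_isPt (l : Fin (N + 1) → K) : A.IsPt (A.ga l) := by
  have : A.ga l = fun a => (lf l A.gp)⁻¹ * A.gp a := by
    funext a
    rw [AV.ga, div_eq_inv_mul]
  rw [this]
  exact A.gp_isPt.smul _

/-- Homogenisation with a linear form. -/
noncomputable def hz (l : Fin (N + 1) → K) (f : MvPolynomial (Fin (N + 1)) K) :
    MvPolynomial (Fin (N + 1)) K :=
  ∑ d ∈ Finset.range (f.totalDegree + 1), lp l ^ (f.totalDegree - d) * homogeneousComponent d f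

theorem hz_smul {l : Fin (N + 1) → K} {R : Type*} [CommRing R] [Algebra K R]
    {y : Fin (N + 1) → R} (hy : lf l y = 1) (c : R) (f : MvPolynomial (Fin (N + 1)) K) :
    aeval (fun i => c * y i) (hz l f) = c ^ f.totalDegree * aeval y f := by
  have h0 : aeval y f = ∑ d ∈ Finset.range (f.totalDegree + 1),
      aeval y (homogeneousComponent d f) := by
    rw [← map_sum, sum_homogeneousComponent]
  rw [hz, map_sum, h0, Finset.mul_sum]
  refine Finset.sum_congr rfl fun d hd => ?_
  rw [map_mul, map_pow, aeval_lp, lf_smul, hy, mul_one,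
    aeval_mul_homog (homogeneousComponent_isHomogeneous d f), ← mul_assoc, ← pow_add,
    Nat.sub_add_cancel (Nat.lt_succ_iff.1 (Finset.mem_range.1 hd))]

/-- A relation between the affine coordinates of the generic point holds at all points. -/
theorem AV.transfer {l : Fin (N + 1) → K} (hl : lf l A.gp ≠ 0)
    {f : MvPolynomial (Fin (N + 1)) K} (hf : aeval (A.ga l) f = 0) {R : Type u} [CommRing R]
    [Algebra K R] {y : Fin (N + 1) → R} (hy : A.IsPt y) (h1 : lf l y = 1) : aeval y f = 0 := by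
  have h2 : hz l f ∈ A.I := by
    rw [← A.gp_zero_iff, AV.gp_eq hl, hz_smul (AV.lf_ga hl), hf, mul_zero]
  have h3 := hz_smul h1 1 f
  simp only [one_mul, one_pow] at h3
  rw [← h3]
  exact hy _ h2

/-- Homogenisation of a polynomial in linear forms. -/
noncomputable def hzl {ι : Type*} (l : Fin (N + 1) → K) (m : ι → Fin (N + 1) → K)
    (g : MvPolynomial ι K) : MvPolynomial (Fin (N + 1)) K :=
  ∑ d ∈ Finset.range (g.totalDegree + 1), lp l ^ (g.totalDegree - d) *
    aeval (fun i => lp (m i)) (homogeneousComponent d g)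

theorem aeval_hzl {ι : Type*} (l : Fin (N + 1) → K) (m : ι → Fin (N + 1) → K)
    (g : MvPolynomial ι K) {R : Type*} [CommRing R] [Algebra K R] (y : Fin (N + 1) → R) :
    aeval y (hzl l m g) = ∑ d ∈ Finset.range (g.totalDegree + 1),
      lf l y ^ (g.totalDegree - d) * aeval (fun i => lf (m i) y) (homogeneousComponent d g) := by
  rw [hzl, map_sum]
  refine Finset.sum_congr rfl fun d _ => ?_
  rw [map_mul, map_pow, aeval_lp]
  have h1 : ((aeval y : MvPolynomial (Fin (N + 1)) K →ₐ[K] R).comp (aeval fun i => lp (m i))) =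
      (aeval fun i => lf (m i) y : MvPolynomial ι K →ₐ[K] R) := by
    apply MvPolynomial.algHom_ext
    intro i
    rw [AlgHom.comp_apply, aeval_X, aeval_X, aeval_lp]
  rw [← h1, AlgHom.comp_apply]

theorem AV.hzl_mem {ι : Type*} {l : Fin (N + 1) → K} (hl : lf l A.gp ≠ 0)
    (m : ι → Fin (N + 1) → K) {g : MvPolynomial ι K}
    (hg : aeval (fun i => lf (m i) (A.ga l)) g = 0) : hzl l m g ∈ A.I := by
  rw [← A.gp_zero_iff, aeval_hzl]
  have h1 : ∀ i, lf (m i) A.gp = lf l A.gp * lf (m i) (A.ga l) := by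
    intro i
    conv_lhs => rw [AV.gp_eq hl]
    rw [lf_smul]
  simp only [h1]
  have h2 : ∀ d ∈ Finset.range (g.totalDegree + 1), lf l A.gp ^ (g.totalDegree - d) *
      aeval (fun i => lf l A.gp * lf (m i) (A.ga l)) (homogeneousComponent d g) =
        lf l A.gp ^ g.totalDegree * aeval (fun i => lf (m i) (A.ga l))
          (homogeneousComponent d g) := by
    intro d hd
    rw [aeval_mul_homog (homogeneousComponent_isHomogeneous d g), ← mul_assoc, ← pow_add,
      Nat.sub_add_cancel (Nat.lt_succ_iff.1 (Finset.mem_range.1 hd))]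
  rw [Finset.sum_congr rfl h2, ← Finset.mul_sum, ← map_sum, sum_homogeneousComponent, hg, mul_zero]

/-- The leading form of a relation at infinity. -/
theorem AV.top_zero {ι : Type*} {l : Fin (N + 1) → K} (hl : lf l A.gp ≠ 0)
    (m : ι → Fin (N + 1) → K) {g : MvPolynomial ι K}
    (hg : aeval (fun i => lf (m i) (A.ga l)) g = 0) {R : Type u} [CommRing R]
    [Algebra K R] {y : Fin (N + 1) → R} (hy : A.IsPt y) (h0 : lf l y = 0) :
    aeval (fun i => lf (m i) y) (homogeneousComponent g.totalDegree g) = 0 := by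
  have h1 := hy _ (AV.hzl_mem hl m hg)
  rw [aeval_hzl, Finset.sum_range_succ, Nat.sub_self, pow_zero, one_mul,
    Finset.sum_eq_zero, zero_add] at h1
  · exact h1
  · intro d hd
    rw [h0, zero_pow (Nat.sub_ne_zero_of_lt (Finset.mem_range.1 hd)), zero_mul]

end

end Pool.Agent.Lib.MP_17a322_nt.VA
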