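import Pool.Agent.Lib.MP_17a322_nt.VA.E02

/-!
Part E of VA: the relations.

JOB E03a: values (`aeval_*`) and degrees of the relations.
* `pQ_injective`, `pP_injective`, `pQP_injective`: cases. `fQ`, `fP`, `bb` are renamings along injective maps
  (`degreeOf_rename_of_injective`; for a variable which is not in the range: the degree is `0`,
  compare `L2A1` in VN; `vars_rename`, `degreeOf_eq_zero_iff`).
* `al p = bb none * X (z p) - bb (some p.2)`: `degreeOf (z p) = 1` needs `E.b j none ≠ 0`: this is a consequence of `E.Ok C` (`gen` at a generic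
  point; see `ED.Ok.b_ne` below). The coefficient of `z p` (`lcv`, VJ/C3: `(vw (z p) (al p)).coeff 1`) is `bb none`, because `bb` does not
  contain `z p` (`vw_of_degreeOf_eq_zero`, `vw_mul`, `vw_X_self`, VJ/C1).
* `ED.Ok.b_ne`: take `Ω` algebraically closed with two generic points (`L2A2_generic` in VN/L2A2 with `σ = Fin n ⊕ Fin n`), roots `a none`, `b none` of
  `f` (`exists_root` in VJ/C3 for the variable `none`, `lcv ≠ 0` at the generic point: `lcv none f ≠ 0` (`(vw none f).leadingCoeff ≠ 0`, `natDegree_vw`) and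
  `degreeOf none (lcv) = 0`, `aeval_ne_zero_of_indep` (E01)).

JOB E03b: the relations are good (`GR_*`).
* `GR_q`: degrees `≤ C`, weights of the occurring variables `1`; `nh (rename ..) = nh f` (`NV_rename` of VJ/A2 and the definition of `nh`).
* `GR_w`: `4 ^ j i * degree ≤ C * 4 ^ j i`, `nh f ≤ C ≤ C * 4 ^ j i`.
* `GR_z`: degree of `al p` in `z p` `≤ 1 ≤ A`; in the other variables at most the maximum of the degrees of `bb none`, `bb (some p.2)` (`degreeOf_sub_le`,
  `degreeOf_mul_le`): `≤ C * 4 ^ j` for the variables of `Q`, `≤ C` for those of `P i`. `nh (al p)`: `al p` is the image of the polynomial in `E.Ok.bh` under the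
  injective renaming `none ↦ z p`, `some y ↦ Sum.elim pQ (pP i) y`.
* `GR_S`: `hv h (S (i, r)) = rename _ (h i r)`.
-/

universe u

namespace Pool.Agent.Lib.MP_17a322_nt.VA

open MvPolynomial Height
open Pool.Agent.Lib.MP_17a322_nt.VJ
open Pool.Agent.Lib.MP_17a322_nt.VN

section

variable {K : Type u} [Field K] {m n : ℕ}

theorem pQ_injective : Function.Injective (pQ : Option (Fin n) → VE m n) := by
  intro a b h
  rcases a with _ | a <;> rcases b with _ | b
  · rfl
  · cases h
  · cases h
  · have h1 : (VE.x a : VE m n) = VE.x b := h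
    injection h1 with h2
    rw [h2]

theorem pP_injective (i : Fin m) : Function.Injective (pP i : Option (Fin n) → VE m n) := by
  intro a b h
  rcases a with _ | a <;> rcases b with _ | b
  · rfl
  · cases h
  · cases h
  · have h1 : (VE.S (i, a) : VE m n) = VE.S (i, b) := h
    injection h1 with h2
    rw [(Prod.mk.inj h2).2]

theorem pQP_injective (i : Fin m) : Function.Injective
    (Sum.elim pQ (pP i) : Option (Fin n) ⊕ Option (Fin n) → VE m n) := by
  intro a b h
  rcases a with a | a <;> rcases b with b | b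
  · exact congrArg Sum.inl (pQ_injective (m := m) h)
  · rcases a with _ | a <;> rcases b with _ | b <;> cases h
  · rcases a with _ | a <;> rcases b with _ | b <;> cases h
  · exact congrArg Sum.inr (pP_injective i h)

theorem aeval_fQ (E : ED K n) {A : Type*} [CommRing A] [Algebra K A] (s : VE m n → A) :
    aeval s (E.fQ m) = aeval (fun o => s (pQ o)) E.f := by
  rw [ED.fQ, aeval_rename]
  rfl

theorem aeval_fP (E : ED K n) (i : Fin m) {A : Type*} [CommRing A] [Algebra K A]
    (s : VE m n → A) : aeval s (E.fP i) = aeval (fun o => s (pP i o)) E.f := by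
  rw [ED.fP, aeval_rename]
  rfl

theorem aeval_bb (E : ED K n) (j : Fin m → ℕ) (i : Fin m) (o : Option (Fin n)) {A : Type*}
    [CommRing A] [Algebra K A] (s : VE m n → A) : aeval s (E.bb j i o) =
      aeval (Sum.elim (fun o => s (pQ o)) fun o => s (pP i o)) (E.b (j i) o) := by
  have h : s ∘ Sum.elim pQ (pP i) = Sum.elim (fun o => s (pQ o)) fun o => s (pP i o) := by
    funext o
    rcases o with o | o <;> rfl
  rw [ED.bb, aeval_rename, h]

theorem aeval_al (E : ED K n) (j : Fin m → ℕ) (p : Fin m × Fin n) {A : Type*}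
    [CommRing A] [Algebra K A] (s : VE m n → A) : aeval s (E.al j p) =
      aeval s (E.bb j p.1 none) * s (VE.z p) - aeval s (E.bb j p.1 (some p.2)) := by
  rw [ED.al, map_sub, map_mul, aeval_X]

theorem degreeOf_fQ_pQ (E : ED K n) (o : Option (Fin n)) :
    (E.fQ m).degreeOf (pQ o) = E.f.degreeOf o := by
  exact degreeOf_rename_of_injective pQ_injective o

private theorem e03a_zero {σ τ R : Type*} [CommRing R] (f : σ → τ) (p : MvPolynomial σ R)
    (y : τ) (h : ∀ o, y ≠ f o) : (rename f p).degreeOf y = 0 := by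
  classical
  rw [← Nat.le_zero, degreeOf_le_iff]
  intro u hu
  by_contra h0'
  have h0 : u y ≠ 0 := fun h => h0' h.le
  have h1 : y ∈ (rename f p).vars := (mem_vars_iff_mem_support y).2 ⟨u, hu, Finsupp.mem_support_iff.2 h0⟩
  obtain ⟨o, -, ho⟩ := Finset.mem_image.1 (vars_rename f p h1)
  exact h o ho.symm

theorem degreeOf_fQ_eq_zero (E : ED K n) (y : VE m n) (h : ∀ o, y ≠ pQ o) :
    (E.fQ m).degreeOf y = 0 := by
  exact e03a_zero pQ E.f y h

theorem degreeOf_fP_pP (E : ED K n) (i : Fin m) (o : Option (Fin n)) :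
    (E.fP i).degreeOf (pP i o) = E.f.degreeOf o := by
  exact degreeOf_rename_of_injective (pP_injective i) o

theorem degreeOf_fP_eq_zero (E : ED K n) (i : Fin m) (y : VE m n) (h : ∀ o, y ≠ pP i o) :
    (E.fP i).degreeOf y = 0 := by
  exact e03a_zero (pP i) E.f y h

theorem degreeOf_bb_pQ (E : ED K n) (j : Fin m → ℕ) (i : Fin m) (o o' : Option (Fin n)) :
    (E.bb j i o).degreeOf (pQ o') = (E.b (j i) o).degreeOf (Sum.inl o') := by
  exact degreeOf_rename_of_injective (pQP_injective i) (Sum.inl o')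

theorem degreeOf_bb_pP (E : ED K n) (j : Fin m → ℕ) (i : Fin m) (o o' : Option (Fin n)) :
    (E.bb j i o).degreeOf (pP i o') = (E.b (j i) o).degreeOf (Sum.inr o') := by
  exact degreeOf_rename_of_injective (pQP_injective i) (Sum.inr o')

theorem degreeOf_bb_eq_zero (E : ED K n) (j : Fin m → ℕ) (i : Fin m) (o : Option (Fin n))
    (y : VE m n) (h : ∀ o, y ≠ pQ o) (h' : ∀ o, y ≠ pP i o) : (E.bb j i o).degreeOf y = 0 := by
  refine e03a_zero (Sum.elim pQ (pP i)) (E.b (j i) o) y fun o' => ?_
  rcases o' with o' | o'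
  · exact h o'
  · exact h' o'

theorem degreeOf_al_eq_zero (E : ED K n) (j : Fin m → ℕ) (p : Fin m × Fin n) (y : VE m n)
    (h : ∀ o, y ≠ pQ o) (h' : ∀ o, y ≠ pP p.1 o) (h'' : y ≠ VE.z p) :
    (E.al j p).degreeOf y = 0 := by
  classical
  have h1 : (E.bb j p.1 none).degreeOf y = 0 := degreeOf_bb_eq_zero E j p.1 none y h h'
  have h2 : (E.bb j p.1 (some p.2)).degreeOf y = 0 := degreeOf_bb_eq_zero E j p.1 _ y h h'
  have h3 : (X (VE.z p) : MvPolynomial (VE m n) K).degreeOf y = 0 := degreeOf_X_of_ne h''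
  refine Nat.le_zero.1 ((degreeOf_sub_le _ _ _).trans (max_le ?_ h2.le))
  refine (degreeOf_mul_le _ _ _).trans ?_
  rw [h1, h3]

private theorem e03a_al (E : ED K n) (j : Fin m → ℕ) (p : Fin m × Fin n)
    (hb : E.b (j p.1) none ≠ 0) :
    vw (VE.z p) (E.al j p) = Polynomial.C (E.bb j p.1 none) * Polynomial.X -
      Polynomial.C (E.bb j p.1 (some p.2)) ∧ (vw (VE.z p) (E.al j p)).natDegree = 1 := by
  have hz : ∀ o, (E.bb j p.1 o).degreeOf (VE.z p) = 0 := by
    intro o
    refine degreeOf_bb_eq_zero E j p.1 o _ ?_ ?_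
    · intro o' h
      rcases o' with _ | o' <;> cases h
    · intro o' h
      rcases o' with _ | o' <;> cases h
  have h1 : vw (VE.z p) (E.al j p) = Polynomial.C (E.bb j p.1 none) * Polynomial.X -
      Polynomial.C (E.bb j p.1 (some p.2)) := by
    rw [ED.al, vw_eq_hom, map_sub, map_mul, ← vw_eq_hom, ← vw_eq_hom, ← vw_eq_hom, vw_X_self,
      vw_of_degreeOf_eq_zero _ (hz none), vw_of_degreeOf_eq_zero _ (hz _)]
  have h2 : E.bb j p.1 none ≠ 0 := by
    intro h
    apply hb
    apply rename_injective _ (pQP_injective p.1)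
    rw [map_zero]
    exact h
  refine ⟨h1, ?_⟩
  rw [h1, sub_eq_add_neg, ← Polynomial.C_neg]
  exact Polynomial.natDegree_linear h2

theorem lcv_al (E : ED K n) (j : Fin m → ℕ) (p : Fin m × Fin n) (hb : E.b (j p.1) none ≠ 0) :
    lcv (VE.z p) (E.al j p) = E.bb j p.1 none := by
  obtain ⟨h1, h2⟩ := e03a_al E j p hb
  rw [lcv, ← natDegree_vw, h2, h1, Polynomial.coeff_sub, Polynomial.coeff_C_mul,
    Polynomial.coeff_X_one, mul_one, Polynomial.coeff_C_succ, sub_zero]

theorem degreeOf_al_z (E : ED K n) (j : Fin m → ℕ) (p : Fin m × Fin n)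
    (hb : E.b (j p.1) none ≠ 0) : (E.al j p).degreeOf (VE.z p) = 1 := by
  rw [← natDegree_vw]
  exact (e03a_al E j p hb).2

end

section

variable {K : Type u} [Field K] [NumberField K] {m n : ℕ}

end

section

variable {K : Type u} [Field K] {m n : ℕ}

end

section

variable {K : Type u} [Field K] [NumberField K] {m n : ℕ}

private theorem e03b_generic (K : Type u) [Field K] (σ : Type) :
    ∃ (Ω : Type u) (_ : Field Ω) (_ : IsAlgClosed Ω) (_ : Algebra K Ω) (s : σ → Ω),
      AlgebraicIndependent K s := by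
  refine ⟨AlgebraicClosure (FractionRing (MvPolynomial σ K)), inferInstance, inferInstance,
    inferInstance, _, (MvPolynomial.algebraicIndependent_X σ K).map'
      (f := IsScalarTower.toAlgHom K (MvPolynomial σ K)
        (AlgebraicClosure (FractionRing (MvPolynomial σ K)))) ?_⟩
  intro a b hab
  have h1 : algebraMap (MvPolynomial σ K) (AlgebraicClosure (FractionRing (MvPolynomial σ K))) a =
      algebraMap (MvPolynomial σ K) (AlgebraicClosure (FractionRing (MvPolynomial σ K))) b := hab
  rw [IsScalarTower.algebraMap_apply (MvPolynomial σ K) (FractionRing (MvPolynomial σ K)),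
    IsScalarTower.algebraMap_apply (MvPolynomial σ K) (FractionRing (MvPolynomial σ K))] at h1
  exact IsFractionRing.injective (MvPolynomial σ K) (FractionRing (MvPolynomial σ K))
    ((algebraMap (FractionRing (MvPolynomial σ K))
      (AlgebraicClosure (FractionRing (MvPolynomial σ K)))).injective h1)

private theorem e03b_root {K : Type u} [Field K] {n : ℕ} {f : MvPolynomial (Option (Fin n)) K}
    (f0 : f.degreeOf none ≠ 0) {Ω : Type u} [Field Ω] [IsAlgClosed Ω] [Algebra K Ω]
    (s : Fin n → Ω) (hs : AlgebraicIndependent K s) :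
    ∃ a : Option (Fin n) → Ω, (∀ t, a (some t) = s t) ∧ aeval a f = 0 := by
  have hf : f ≠ 0 := by
    intro h
    rw [h, degreeOf_zero] at f0
    exact f0 rfl
  have hl0 : lcv none f ≠ 0 := by
    have h : lcv none f = (vw none f).leadingCoeff := by
      rw [lcv, ← natDegree_vw]
      rfl
    rw [h]
    exact Polynomial.leadingCoeff_ne_zero.2 (vw_ne_zero none hf)
  have hl : aeval (fun o : Option (Fin n) => o.elim 0 s) (lcv none f) ≠ 0 := by
    refine aeval_ne_zero_of_indep {y : Option (Fin n) | y ≠ none} _ ?_ _ hl0 ?_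
    · have hc := hs.comp
        (fun y : {y : Option (Fin n) | y ≠ none} => y.1.get (Option.ne_none_iff_isSome.1 y.2))
        (by
          rintro ⟨y, hy⟩ ⟨y', hy'⟩ h
          apply Subtype.ext
          exact Option.get_inj.1 h)
      have he : (fun y : {y : Option (Fin n) | y ≠ none} => (y : Option (Fin n)).elim 0 s) =
          s ∘ (fun y : {y : Option (Fin n) | y ≠ none} =>
            y.1.get (Option.ne_none_iff_isSome.1 y.2)) := by
        funext y
        rcases y with ⟨_ | t, hy⟩
        · exact absurd rfl hy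
        · rfl
      rw [he]
      exact hc
    · intro y hy
      have hy' : y = none := by
        by_contra h
        exact hy h
      rw [hy']
      exact degreeOf_coeff_vw_self none f _
  obtain ⟨r, hr⟩ := exists_root none f f0 _ hl
  refine ⟨_, fun t => ?_, hr⟩
  rw [Function.update_of_ne (Option.some_ne_none t)]
  rfl

theorem ED.Ok.b_ne {E : ED K n} {C : ℝ} (hE : E.Ok C) (j : ℕ) : E.b j none ≠ 0 := by
  obtain ⟨Ω, _, _, _, s, hs⟩ := e03b_generic K (Fin n ⊕ Fin n)
  obtain ⟨a, ha, haf⟩ := e03b_root hE.f0 (fun t => s (Sum.inl t)) (hs.comp _ Sum.inl_injective)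
  obtain ⟨b, hb, hbf⟩ := e03b_root hE.f0 (fun t => s (Sum.inr t)) (hs.comp _ Sum.inr_injective)
  have he : (Sum.elim (fun t : Fin n => a (some t)) (fun t : Fin n => b (some t)) :
      Fin n ⊕ Fin n → Ω) = s := by
    funext t
    rcases t with t | t
    · exact ha t
    · exact hb t
  have h := (hE.gen Ω j a b (by rw [he]; exact hs) haf hbf).1
  intro h0
  rw [h0, map_zero] at h
  exact h rfl

private theorem e03b_nh_rename {σ τ : Type*} (F : MvPolynomial σ K) (f : σ → τ)
    (hf : Function.Injective f) : nh (rename f F) = nh F := by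
  unfold nh
  congr 1
  funext v
  rw [NV_rename v F f hf]

private theorem e03b_four_pow (e : ℕ) : (1 : ℝ) ≤ 4 ^ e := one_le_pow₀ (by norm_num)

theorem GR_q {E : ED K n} {C : ℝ} (hE : E.Ok C) (j : Fin m → ℕ) :
    GRE j C VE.q (E.alv j VE.q) := by
  have hC : 0 ≤ C := zero_le_one.trans hE.one_le
  refine ⟨?_, fun t => ?_, ?_⟩
  · have h : (E.fQ m).degreeOf (pQ none) = _ := degreeOf_fQ_pQ E none
    change ((E.fQ m).degreeOf (pQ none) : ℝ) ≤ C
    rw [h]
    exact hE.fd none
  · change wt j t * ((E.fQ m).degreeOf t : ℝ) ≤ C * 1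
    by_cases ht : ∃ o, t = pQ o
    · obtain ⟨o, rfl⟩ := ht
      rw [degreeOf_fQ_pQ, mul_one]
      have hw : wt j (pQ o : VE m n) = 1 := by
        rcases o with _ | t
        · rfl
        · rfl
      rw [hw, one_mul]
      exact hE.fd o
    · rw [degreeOf_fQ_eq_zero E t fun o ho => ht ⟨o, ho⟩, Nat.cast_zero, mul_zero, mul_one]
      exact hC
  · change nh (E.fQ m) ≤ C * 1
    unfold ED.fQ
    rw [e03b_nh_rename _ _ pQ_injective, mul_one]
    exact hE.fh

theorem GR_w {E : ED K n} {C : ℝ} (hE : E.Ok C) (j : Fin m → ℕ) (i : Fin m) :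
    GRE j C (VE.w i) (E.alv j (VE.w i)) := by
  have hC : 0 ≤ C := zero_le_one.trans hE.one_le
  refine ⟨?_, fun t => ?_, ?_⟩
  · have h : (E.fP i).degreeOf (pP i none) = _ := degreeOf_fP_pP E i none
    change ((E.fP i).degreeOf (pP i none) : ℝ) ≤ C
    rw [h]
    exact hE.fd none
  · change wt j t * ((E.fP i).degreeOf t : ℝ) ≤ C * 4 ^ j i
    by_cases ht : ∃ o, t = pP i o
    · obtain ⟨o, rfl⟩ := ht
      rw [degreeOf_fP_pP]
      have hw : wt j (pP i o : VE m n) = 4 ^ j i := by
        rcases o with _ | t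
        · rfl
        · rfl
      rw [hw, mul_comm]
      exact mul_le_mul_of_nonneg_right (hE.fd o) (by positivity)
    · rw [degreeOf_fP_eq_zero E i t fun o ho => ht ⟨o, ho⟩, Nat.cast_zero, mul_zero]
      exact mul_nonneg hC (by positivity)
  · change nh (E.fP i) ≤ C * 4 ^ j i
    unfold ED.fP
    rw [e03b_nh_rename _ _ (pP_injective i)]
    exact hE.fh.trans (le_mul_of_one_le_right hC (e03b_four_pow _))

omit [NumberField K] in
private theorem e03b_deg_al (E : ED K n) (j : Fin m → ℕ) (p : Fin m × Fin n) (t : VE m n)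
    (ht : t ≠ VE.z p) (B : ℝ) (h : ∀ o, ((E.bb j p.1 o).degreeOf t : ℝ) ≤ B) :
    ((E.al j p).degreeOf t : ℝ) ≤ B := by
  have h1 : (E.al j p).degreeOf t ≤
      max ((E.bb j p.1 none).degreeOf t) ((E.bb j p.1 (some p.2)).degreeOf t) := by
    unfold ED.al
    refine (degreeOf_sub_le t _ _).trans (max_le_max ?_ le_rfl)
    refine (degreeOf_mul_le t _ _).trans ?_
    rw [degreeOf_X_of_ne ht, add_zero]
  rcases le_max_iff.1 h1 with h2 | h2
  · exact (Nat.cast_le.2 h2).trans (h none)
  · exact (Nat.cast_le.2 h2).trans (h (some p.2))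

theorem GR_z {E : ED K n} {C : ℝ} (hE : E.Ok C) (j : Fin m → ℕ) (p : Fin m × Fin n) :
    GRE j C (VE.z p) (E.alv j (VE.z p)) := by
  have hC : 0 ≤ C := zero_le_one.trans hE.one_le
  have hz := degreeOf_al_z E j p (hE.b_ne (j p.1))
  change GRE j C (VE.z p) (E.al j p)
  refine ⟨?_, fun t => ?_, ?_⟩
  · rw [hz, Nat.cast_one]
    exact hE.one_le
  · change wt j t * ((E.al j p).degreeOf t : ℝ) ≤ C * 4 ^ j p.1
    by_cases h1 : t = VE.z p
    · rw [h1, hz, Nat.cast_one, mul_one]
      change (4 : ℝ) ^ j p.1 ≤ C * 4 ^ j p.1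
      exact le_mul_of_one_le_left (by positivity) hE.one_le
    by_cases h2 : ∃ o, t = pQ o
    · obtain ⟨o, rfl⟩ := h2
      have hw : wt j (pQ o : VE m n) = 1 := by
        rcases o with _ | t
        · rfl
        · rfl
      rw [hw, one_mul]
      refine e03b_deg_al E j p _ h1 _ fun o' => ?_
      rw [degreeOf_bb_pQ]
      exact hE.bl _ _ _
    by_cases h3 : ∃ o, t = pP p.1 o
    · obtain ⟨o, rfl⟩ := h3
      have hw : wt j (pP p.1 o : VE m n) = 4 ^ j p.1 := by
        rcases o with _ | t
        · rfl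
        · rfl
      rw [hw, mul_comm]
      refine mul_le_mul_of_nonneg_right ?_ (by positivity)
      refine e03b_deg_al E j p _ h1 _ fun o' => ?_
      rw [degreeOf_bb_pP]
      exact hE.br _ _ _
    · rw [degreeOf_al_eq_zero E j p t (fun o ho => h2 ⟨o, ho⟩) (fun o ho => h3 ⟨o, ho⟩) h1,
        Nat.cast_zero, mul_zero]
      exact mul_nonneg hC (by positivity)
  · change nh (E.al j p) ≤ C * 4 ^ j p.1
    have hg : Function.Injective (fun y : Option (Option (Fin n) ⊕ Option (Fin n)) =>
        y.elim (VE.z p : VE m n) (Sum.elim pQ (pP p.1))) := by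
      have hne : ∀ y : Option (Fin n) ⊕ Option (Fin n),
          (Sum.elim pQ (pP p.1) y : VE m n) ≠ VE.z p := by
        intro y h
        rcases y with (_ | t) | (_ | t)
        · have h' : (VE.q : VE m n) = VE.z p := h
          cases h'
        · have h' : (VE.x t : VE m n) = VE.z p := h
          cases h'
        · have h' : (VE.w p.1 : VE m n) = VE.z p := h
          cases h'
        · have h' : (VE.S (p.1, t) : VE m n) = VE.z p := h
          cases h'
      intro y y' h
      rcases y with _ | y <;> rcases y' with _ | y'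
      · rfl
      · exact absurd h.symm (hne y')
      · exact absurd h (hne y)
      · exact congrArg some (pQP_injective p.1 h)
    have he : E.al j p = rename (fun y : Option (Option (Fin n) ⊕ Option (Fin n)) =>
        y.elim (VE.z p : VE m n) (Sum.elim pQ (pP p.1)))
        (rename some (E.b (j p.1) none) * X none - rename some (E.b (j p.1) (some p.2))) := by
      rw [map_sub, map_mul, rename_X, rename_rename, rename_rename]
      rfl
    rw [he, e03b_nh_rename _ _ hg]
    exact hE.bh _ _

theorem GR_S {J : Finset (Fin n)} {D : ℕ} {j : Fin m → ℕ}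
    {h : Fin m → Fin n → MvPolynomial (Fin n) K} (hh : HC J D j h) (i : Fin m) (r : Fin n)
    (hr : r ∉ J) : GRE j (D + 1) (VE.S (i, r)) (hv h (VE.S (i, r))) := by
  obtain ⟨h1, h2, h3, h4⟩ := hh i r hr
  have hinj : Function.Injective (fun t : Fin n => (VE.S (i, t) : VE m n)) := by
    intro t t' ht
    have h5 : (i, t) = (i, t') := VE.S.inj ht
    exact (Prod.ext_iff.1 h5).2
  have hdeg : ∀ t, ((rename (fun t : Fin n => (VE.S (i, t) : VE m n)) (h i r)).degreeOf
      (VE.S (i, t)) : ℝ) ≤ D + 1 := by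
    intro t
    rw [degreeOf_rename_of_injective hinj]
    have h5 : ((h i r).degreeOf t : ℝ) ≤ D := Nat.cast_le.2 (h2 t)
    linarith
  have hD : (1 : ℝ) ≤ D + 1 := by
    have h5 : (0 : ℝ) ≤ D := Nat.cast_nonneg D
    linarith
  change GRE j (D + 1) (VE.S (i, r)) (rename (fun t : Fin n => (VE.S (i, t) : VE m n)) (h i r))
  refine ⟨hdeg r, fun t => ?_, ?_⟩
  · change wt j t * _ ≤ ((D : ℝ) + 1) * 4 ^ j i
    by_cases ht : ∃ t', t = VE.S (i, t')
    · obtain ⟨t', rfl⟩ := ht
      change 4 ^ j i * _ ≤ ((D : ℝ) + 1) * 4 ^ j i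
      rw [mul_comm]
      exact mul_le_mul_of_nonneg_right (hdeg t') (by positivity)
    · have h0 : (rename (fun t : Fin n => (VE.S (i, t) : VE m n)) (h i r)).degreeOf t = 0 := by
        classical
        rw [degreeOf_def, Multiset.count_eq_zero, degrees_rename_of_injective hinj]
        intro h6
        obtain ⟨t', -, ht'⟩ := Multiset.mem_map.1 h6
        exact ht ⟨t', ht'.symm⟩
      rw [h0, Nat.cast_zero, mul_zero]
      positivity
  · change _ ≤ ((D : ℝ) + 1) * 4 ^ j i
    rw [e03b_nh_rename _ _ hinj]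
    exact h4.trans (le_mul_of_one_le_left (by positivity) hD)

end

end Pool.Agent.Lib.MP_17a322_nt.VA
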