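import Pool.Agent.Lib.MP_17a322_nt.VA.E09
import Pool.Agent.Lib.MP_17a322_nt.VN.L2B2

/-!
JOB E10. Part E of VA: the order in `T`. (Compare VN/L2B4.)

PROOF. `R₀, D', B'` from `T_index` (E09, same statement with `p.2 ∈ J`). Let `ι = {p : Fin m × Fin n // p.2 ∈ J}`, `κ = {o : VE m n // Oc J m o ∧ ∀ p, o ≠ VE.S p}`, `f : κ ⊕ ι → VE m n`, `f = Sum.elim Subtype.val (fun p => VE.S p.1)`, injective.
The variables of `N` are in the range of `f` (`D7_mem_vars`, VJ/D7: `y ∈ N.vars → N.degreeOf y ≠ 0`, so `Oc J m y`; `y = VE.S p` gives `p.2 ∈ J`), so `N = rename f N₁` (`exists_rename_eq_of_vars_subset_range`), `N₁ ≠ 0`. `exists_cb_ne` (VN/L2B1): `β` with `F = cbp β N₁ ≠ 0`;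
`degreeOf p F ≤ degreeOf (inr p) N₁ = degreeOf (S p) N`, `nh F ≤ nh N₁ = nh N`. `T_index`: the first case is the first case here. Second case: `m₀` with weight `< s μ`; `w p = 4 ^ j p.1.1`; `PowerSeries.coeff (weight w m₀) (gen w (fun p => σ p.1) N₁) ≠ 0` (`gen_ne_zero`, VN/L2B2).
Let `a` be the smallest number with `c₁ := PowerSeries.coeff a (gen w _ N₁) ≠ 0` (`Nat.find`), `a ≤ weight w m₀`, `c = rename f c₁ ≠ 0` (`rename_injective`); `c.degreeOf y = 0` for `y` outside the range of `f` (`vars_rename`).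
EVALUATION. Let `Ĝ : Polynomial (MvPolynomial (κ ⊕ ι) K)` be the same substitution in polynomials, `Ĝ = aeval (Sum.elim (fun t => Polynomial.C (X (inl t))) fun p => Polynomial.C (C (σ p.1)) + Polynomial.C (X (inr p)) * Polynomial.X ^ w p) N₁`; its coercion to power series is `gen w _ N₁` (algebra homomorphism
`Polynomial.coeToPowerSeries.ringHom`), so `Ĝ.coeff k = PowerSeries.coeff k (gen ..)`, `0` for `k < a`. For `y, y₀` as in the statement let `φ = aeval (Sum.elim (fun t : κ => y t.1) fun p => PowerSeries.C (y₀ (VE.S p.1))) : MvPolynomial (κ ⊕ ι) K →ₐ[K] PowerSeries A`. Then `aeval y N = aeval (y ∘ f) N₁ = Ĝ.eval₂ φ PowerSeries.X` (two algebra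
homomorphisms in `N₁`, equal on variables: `C (σ p) + C (y₀ (S p)) * X ^ w p`) `= ∑ k ∈ Ĝ.support, φ (Ĝ.coeff k) * X ^ k` (`Polynomial.eval₂_eq_sum`), all `k ≥ a`: the coefficients below `a` vanish and the coefficient of `X ^ a` is `constantCoeff (φ c₁)` (`PowerSeries.coeff_mul_X_pow'`) `= aeval (Sum.elim (constantCoeff (y t)) (y₀ (S p))) c₁ = aeval (y₀ ∘ f) c₁ = aeval y₀ c`.
-/

universe u

namespace Pool.Agent.Lib.MP_17a322_nt.VA

open MvPolynomial Height
open Pool.Agent.Lib.MP_17a322_nt.VJ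
open Pool.Agent.Lib.MP_17a322_nt.VN

private theorem e10_map {K A B σ : Type*} [CommRing K] [CommRing A] [CommRing B] [Algebra K A]
    [Algebra K B] (Ψ : A →+* B) (hΨ : ∀ a, Ψ (algebraMap K A a) = algebraMap K B a)
    (f : σ → A) (h : MvPolynomial σ K) : Ψ (aeval f h) = aeval (fun t => Ψ (f t)) h := by
  induction h using MvPolynomial.induction_on with
  | C a => rw [aeval_C, aeval_C, hΨ]
  | add p q hp hq => rw [map_add, map_add, map_add, hp, hq]
  | mul_X p i hp => rw [map_mul, map_mul, map_mul, hp, aeval_X, aeval_X]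

private theorem e10_eval₂ {R A : Type*} [CommRing R] [CommRing A] (φ : R →+* PowerSeries A)
    (G : Polynomial R) (a : ℕ) (h : ∀ k < a, G.coeff k = 0) :
    (∀ k < a, PowerSeries.coeff k (G.eval₂ φ PowerSeries.X) = 0) ∧
      PowerSeries.coeff a (G.eval₂ φ PowerSeries.X) =
        PowerSeries.constantCoeff (φ (G.coeff a)) := by
  rw [Polynomial.eval₂_eq_sum, Polynomial.sum_def]
  constructor
  · intro k hk
    rw [map_sum]
    refine Finset.sum_eq_zero fun e _ => ?_
    rw [PowerSeries.coeff_mul_X_pow']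
    by_cases he : e ≤ k
    · rw [h e (by omega), map_zero, map_zero, ite_self]
    · rw [if_neg he]
  · rw [map_sum, Finset.sum_eq_single a]
    · rw [PowerSeries.coeff_mul_X_pow', if_pos le_rfl, Nat.sub_self,
        PowerSeries.coeff_zero_eq_constantCoeff_apply]
    · intro e _ he
      rw [PowerSeries.coeff_mul_X_pow']
      by_cases he' : e ≤ a
      · rw [h e (by omega), map_zero, map_zero, ite_self]
      · rw [if_neg he']
    · intro ha
      rw [Polynomial.notMem_support_iff.1 ha, map_zero, zero_mul, map_zero]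

private theorem e10_main {K : Type*} [Field K] {κ ι : Type*} (w : ι → ℕ) (σ : ι → K)
    (M : MvPolynomial (κ ⊕ ι) K) {A : Type*} [CommRing A] [Algebra K A] (y : κ → PowerSeries A)
    (y₀ : ι → A) :
    ∃ G : Polynomial (MvPolynomial (κ ⊕ ι) K),
      (∀ k, G.coeff k = PowerSeries.coeff k (gen w σ M)) ∧
      aeval (Sum.elim y fun p => PowerSeries.C (algebraMap K A (σ p)) +
          PowerSeries.C (y₀ p) * PowerSeries.X ^ w p) M =
        G.eval₂ (aeval (Sum.elim y fun p => PowerSeries.C (y₀ p)) :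
          MvPolynomial (κ ⊕ ι) K →ₐ[K] PowerSeries A).toRingHom PowerSeries.X := by
  let g : κ ⊕ ι → Polynomial (MvPolynomial (κ ⊕ ι) K) :=
    Sum.elim (fun t => Polynomial.C (X (Sum.inl t))) fun p =>
      Polynomial.C (C (σ p)) + Polynomial.C (X (Sum.inr p)) * Polynomial.X ^ w p
  have hK : ∀ b : K, algebraMap K (Polynomial (MvPolynomial (κ ⊕ ι) K)) b =
      Polynomial.C (C b) := fun b => rfl
  refine ⟨aeval g M, fun k => ?_, ?_⟩
  · have e1 := e10_map (K := K)
      (Polynomial.coeToPowerSeries.ringHom (R := MvPolynomial (κ ⊕ ι) K))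
      (fun b => by
        rw [hK, PowerSeries.algebraMap_apply, Polynomial.coeToPowerSeries.ringHom_apply,
          Polynomial.coe_C]
        rfl) g M
    rw [Polynomial.coeToPowerSeries.ringHom_apply] at e1
    have e2 : (fun t => Polynomial.coeToPowerSeries.ringHom (R := MvPolynomial (κ ⊕ ι) K) (g t)) =
        Sum.elim (fun t => PowerSeries.C (X (Sum.inl t))) fun p =>
          PowerSeries.C (C (σ p)) + PowerSeries.C (X (Sum.inr p)) * PowerSeries.X ^ w p := by
      funext t
      rw [Polynomial.coeToPowerSeries.ringHom_apply]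
      rcases t with t | p
      · exact Polynomial.coe_C _
      · change ((Polynomial.C (C (σ p)) + Polynomial.C (X (Sum.inr p)) * Polynomial.X ^ w p :
          Polynomial (MvPolynomial (κ ⊕ ι) K)) : PowerSeries (MvPolynomial (κ ⊕ ι) K)) = _
        rw [Polynomial.coe_add, Polynomial.coe_mul, Polynomial.coe_pow, Polynomial.coe_C,
          Polynomial.coe_C, Polynomial.coe_X, Sum.elim_inr]
    rw [← Polynomial.coeff_coe, e1, e2]
    unfold gen
    rfl
  · set φ : MvPolynomial (κ ⊕ ι) K →ₐ[K] PowerSeries A :=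
      aeval (Sum.elim y fun p => PowerSeries.C (y₀ p)) with hφ
    have e1 := e10_map (K := K) (Polynomial.eval₂RingHom φ.toRingHom PowerSeries.X)
      (fun b => by
        rw [hK, Polynomial.coe_eval₂RingHom, Polynomial.eval₂_C]
        exact φ.commutes b) g M
    rw [Polynomial.coe_eval₂RingHom] at e1
    have e2 : (fun t => Polynomial.eval₂ φ.toRingHom PowerSeries.X (g t)) =
        Sum.elim y fun p => PowerSeries.C (algebraMap K A (σ p)) +
          PowerSeries.C (y₀ p) * PowerSeries.X ^ w p := by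
      funext t
      rcases t with t | p
      · change Polynomial.eval₂ φ.toRingHom PowerSeries.X (Polynomial.C (X (Sum.inl t))) = y t
        rw [Polynomial.eval₂_C]
        change φ (X (Sum.inl t)) = y t
        rw [hφ, aeval_X, Sum.elim_inl]
      · change Polynomial.eval₂ φ.toRingHom PowerSeries.X
          (Polynomial.C (C (σ p)) + Polynomial.C (X (Sum.inr p)) * Polynomial.X ^ w p) = _
        rw [Polynomial.eval₂_add, Polynomial.eval₂_mul, Polynomial.eval₂_pow,
          Polynomial.eval₂_C, Polynomial.eval₂_C, Polynomial.eval₂_X]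
        change φ (C (σ p)) + φ (X (Sum.inr p)) * PowerSeries.X ^ w p = _
        rw [hφ, aeval_X, aeval_C, Sum.elim_inr, Sum.elim_inr, PowerSeries.algebraMap_apply]
    rw [e1, e2]

/-- (E.2) The order in `T`. -/
theorem order_T {K : Type u} [Field K] [NumberField K] (m n : ℕ) (J : Finset (Fin n)) (s B : ℝ)
    (hs : 0 < s) (hB : 0 ≤ B) :
    ∃ (R₀ D' : ℕ) (B' : ℝ), 0 ≤ B' ∧ ∀ (j : Fin m → ℕ) (σ : Fin m × Fin n → K)
      (N : MvPolynomial (VE m n) K) (μ : ℝ),
      (∀ i i', i < i' → R₀ * 4 ^ j i ≤ 4 ^ j i') → N ≠ 0 → 0 < μ →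
      (∀ y, ¬ Oc J m y → N.degreeOf y = 0) →
      (∀ p : Fin m × Fin n, (4 : ℝ) ^ j p.1 * N.degreeOf (VE.S p) ≤ μ) → nh N ≤ B * μ →
      (∃ (i : Fin m) (G : MvPolynomial (Fin n) K), G ≠ 0 ∧ (∀ t ∉ J, G.degreeOf t = 0) ∧
        (∀ t, G.degreeOf t ≤ D') ∧ nh G ≤ B' * 4 ^ j i ∧ eval (fun t => σ (i, t)) G = 0) ∨
      ∃ (a : ℕ) (c : MvPolynomial (VE m n) K), (a : ℝ) < s * μ ∧ c ≠ 0 ∧
        (∀ y, ¬ Oc J m y → c.degreeOf y = 0) ∧
        ∀ (A : Type u) [CommRing A] [Algebra K A] (y : VE m n → PowerSeries A) (y₀ : VE m n → A),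
          (∀ p : Fin m × Fin n, p.2 ∈ J → y (VE.S p) = PowerSeries.C (algebraMap K A (σ p)) +
            PowerSeries.C (y₀ (VE.S p)) * PowerSeries.X ^ (4 ^ j p.1)) →
          (∀ o, Oc J m o → (∀ p, o ≠ VE.S p) → y₀ o = PowerSeries.constantCoeff (y o)) →
          (∀ k < a, PowerSeries.coeff k (aeval y N) = 0) ∧
            PowerSeries.coeff a (aeval y N) = aeval y₀ c := by
  classical
  obtain ⟨R₀, D', B', hB', hT⟩ := T_index (K := K) m n J s B hs hB
  refine ⟨R₀, D', B', hB', ?_⟩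
  intro j σ N μ hj hN hμ hOc hdeg hnh
  let f : {o : VE m n // Oc J m o ∧ ∀ p, o ≠ VE.S p} ⊕ {p : Fin m × Fin n // p.2 ∈ J} → VE m n :=
    Sum.elim Subtype.val (fun p => VE.S p.1)
  have hf : Function.Injective f := by
    rintro (a | a) (b | b) hab
    · exact congrArg _ (Subtype.ext hab)
    · exact absurd hab (a.2.2 b.1)
    · exact absurd hab.symm (b.2.2 a.1)
    · exact congrArg _ (Subtype.ext (VE.S.inj hab))
  have hOcf : ∀ y, ¬ Oc J m y → y ∉ Set.range f := by
    rintro y hy ⟨o | p, rfl⟩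
    · exact hy o.2.1
    · exact hy ⟨p.1.1.2, p.2⟩
  have hrange : (N.vars : Set (VE m n)) ⊆ Set.range f := by
    intro y hy
    have hy1 : Oc J m y := by
      by_contra hcon
      exact (D7_mem_vars N _).1 hy (hOc y hcon)
    by_cases hp : ∃ p, y = VE.S p
    · obtain ⟨p, rfl⟩ := hp
      exact ⟨Sum.inr ⟨p, hy1.2⟩, rfl⟩
    · push Not at hp
      exact ⟨Sum.inl ⟨y, hy1, hp⟩, rfl⟩
  obtain ⟨N₁, hN₁⟩ := exists_rename_eq_of_vars_subset_range N f hf hrange
  subst hN₁
  have hN₁0 : N₁ ≠ 0 := by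
    rintro rfl
    exact hN (map_zero _)
  obtain ⟨β, hβ⟩ := exists_cb_ne N₁ hN₁0
  have hdF : ∀ p, (4 : ℝ) ^ j p.1.1 * (cbp β N₁).degreeOf p ≤ μ := by
    intro p
    refine le_trans ?_ (hdeg p.1)
    refine mul_le_mul_of_nonneg_left ?_ (by positivity)
    have h1 := degreeOf_cb_le β N₁ p
    have h2 : (rename f N₁).degreeOf (f (Sum.inr p)) = N₁.degreeOf (Sum.inr p) :=
      degreeOf_rename_of_injective hf _
    rw [← h2] at h1
    exact Nat.cast_le.2 h1
  have hnF : nh (cbp β N₁) ≤ B * μ := by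
    refine (nh_cb_le β N₁ hβ).trans (le_trans (le_of_eq ?_) hnh)
    unfold nh
    congr 1
    funext v
    rw [NV_rename v N₁ f hf]
  rcases hT j σ (cbp β N₁) μ hj hβ hμ hdF hnF with h | ⟨m₀, hm₀, hc₀⟩
  · exact Or.inl h
  · right
    let w : {p : Fin m × Fin n // p.2 ∈ J} → ℕ := fun p => 4 ^ j p.1.1
    have hc := gen_ne_zero w (fun p => σ p.1) N₁ β m₀ hc₀
    have hex : ∃ a, PowerSeries.coeff a (gen w (fun p => σ p.1) N₁) ≠ 0 := ⟨_, hc⟩
    obtain ⟨a, ha, hale, hmin⟩ : ∃ a, PowerSeries.coeff a (gen w (fun p => σ p.1) N₁) ≠ 0 ∧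
        a ≤ Finsupp.weight w m₀ ∧
        ∀ k < a, PowerSeries.coeff k (gen w (fun p => σ p.1) N₁) = 0 :=
      ⟨Nat.find hex, Nat.find_spec hex, Nat.find_min' hex hc, fun k hk => by
        by_contra hk'
        exact Nat.find_min hex hk hk'⟩
    refine ⟨a, rename f (PowerSeries.coeff a (gen w (fun p => σ p.1) N₁)),
      lt_of_le_of_lt (Nat.cast_le.2 hale) hm₀, ?_, ?_, ?_⟩
    · intro h0
      apply ha
      refine rename_injective f hf ?_
      rw [h0, map_zero]
    · intro y hy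
      by_contra hcon
      have h1 := (D7_mem_vars _ _).2 hcon
      have h2 := vars_rename f (PowerSeries.coeff a (gen w (fun p => σ p.1) N₁)) h1
      rw [Finset.mem_image] at h2
      obtain ⟨x, -, hx⟩ := h2
      exact hOcf y hy ⟨x, hx⟩
    · intro A _ _ y y₀ hyS hy₀
      obtain ⟨G, hG, hev⟩ := e10_main w (fun p => σ p.1) N₁ (A := A) (fun t => y t.1)
        (fun p => y₀ (VE.S p.1))
      have e1 : y ∘ f = Sum.elim (fun t => y t.1) fun p =>
          PowerSeries.C (algebraMap K A (σ p.1)) +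
            PowerSeries.C (y₀ (VE.S p.1)) * PowerSeries.X ^ w p := by
        funext t
        rcases t with t | p
        · rfl
        · exact hyS p.1 p.2
      obtain ⟨h1, h2⟩ := e10_eval₂ (aeval (Sum.elim (fun t => y t.1)
        fun p => PowerSeries.C (y₀ (VE.S p.1)))).toRingHom G a
        (fun k hk => by rw [hG, hmin k hk])
      rw [aeval_rename, e1, hev]
      refine ⟨h1, ?_⟩
      rw [h2, hG, aeval_rename]
      have e2 : (fun t => PowerSeries.constantCoeff ((Sum.elim (fun t => y t.1)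
          fun p => PowerSeries.C (y₀ (VE.S p.1)) :
            {o : VE m n // Oc J m o ∧ ∀ p, o ≠ VE.S p} ⊕ {p : Fin m × Fin n // p.2 ∈ J} →
              PowerSeries A) t)) = y₀ ∘ f := by
        funext t
        rcases t with t | p
        · exact (hy₀ t.1 t.2.1 t.2.2).symm
        · exact PowerSeries.constantCoeff_C _
      rw [← e2]
      exact e10_map (K := K) (PowerSeries.constantCoeff (R := A)) (fun b => by
        rw [PowerSeries.algebraMap_apply, PowerSeries.constantCoeff_C]) _ _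

end Pool.Agent.Lib.MP_17a322_nt.VA
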