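import Pool.Agent.Lib.MP_17a322_nt.VA.L0
import Pool.Agent.Lib.MP_17a322_nt.VN.L1d
import Pool.Agent.Lib.MP_17a322_nt.VJ.A3
import Pool.Agent.Lib.MP_17a322_nt.VJ.A5

/-!
VA, part LA: sizes of series in `T` and `z` over the polynomials in the directions: scaling of the radii,
inverses, the substitution `T ↦ T ^ w`.
-/

universe u

namespace Pool.Agent.Lib.MP_17a322_nt.VA

open MvPolynomial Height
open Pool.Agent.Lib.MP_17a322_nt.RO
open Pool.Agent.Lib.MP_17a322_nt.VJ
open Pool.Agent.Lib.MP_17a322_nt.VN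

section

variable {L : Type*} [Field L] {v : AbsoluteValue L ℝ} {A : Type*} [CommRing A] [Algebra L A]
  {ν : A → ℝ}

theorem PA_low (h : SN v ν) {r s : ℝ} (hr : 0 ≤ r) (hs : 0 < s) (hs1 : s ≤ 1) (n : ℕ)
    (g : PowerSeries A) : PA v ν r n g ≤ (s ^ n)⁻¹ * PA v ν (s * r) n g := by
  refine PA_le_mul (A := A) (inv_nonneg.2 (pow_nonneg hs.le _)) g g fun k hk => ?_
  have h1 : 1 ≤ (s ^ n)⁻¹ * s ^ k := by
    rw [← div_eq_inv_mul, one_le_div (pow_pos hs _)]
    exact pow_le_pow_of_le_one hs.le hs1 hk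
  calc ν (PowerSeries.coeff k g) * r ^ k ≤ ((s ^ n)⁻¹ * s ^ k) * (ν (PowerSeries.coeff k g) * r ^ k) :=
        le_mul_of_one_le_left (mul_nonneg (h.nonneg _) (pow_nonneg hr _)) h1
    _ = (s ^ n)⁻¹ * (ν (PowerSeries.coeff k g) * (s * r) ^ k) := by
        rw [mul_pow]
        ring

theorem PA_scale (h : SN v ν) {r lam : ℝ} (hr : 0 ≤ r) (h0 : 0 ≤ lam) (h1 : lam ≤ 1) (n : ℕ)
    (f : PowerSeries A) (hf : PowerSeries.constantCoeff f = 0) :
    PA v ν (lam * r) n f ≤ lam * PA v ν r n f := by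
  refine PA_le_mul (A := A) h0 f f fun k _ => ?_
  cases k with
  | zero =>
    rw [PowerSeries.coeff_zero_eq_constantCoeff_apply, hf, h.zero, zero_mul, zero_mul, mul_zero]
  | succ k =>
    have h3 : (lam * r) ^ (k + 1) ≤ lam * r ^ (k + 1) := by
      rw [mul_pow]
      refine mul_le_mul_of_nonneg_right ?_ (pow_nonneg hr _)
      rw [pow_succ]
      exact mul_le_of_le_one_left h0 (pow_le_one₀ h0 h1)
    calc ν (PowerSeries.coeff (k + 1) f) * (lam * r) ^ (k + 1)
        ≤ ν (PowerSeries.coeff (k + 1) f) * (lam * r ^ (k + 1)) :=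
          mul_le_mul_of_nonneg_left h3 (h.nonneg _)
      _ = lam * (ν (PowerSeries.coeff (k + 1) f) * r ^ (k + 1)) := by ring

theorem PA_sub_const (h : SN v ν) {r : ℝ} (hr : 0 ≤ r) (n : ℕ) (f : PowerSeries A) :
    PA v ν r n (f - PowerSeries.C (PowerSeries.constantCoeff f)) ≤ PA v ν r n f := by
  have h2 : PA v ν r n (f - PowerSeries.C (PowerSeries.constantCoeff f)) ≤
      1 * PA v ν r n f := by
    refine PA_le_mul (A := A) zero_le_one f _ fun k _ => ?_
    rw [one_mul]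
    refine mul_le_mul_of_nonneg_right ?_ (pow_nonneg hr _)
    cases k with
    | zero =>
      rw [map_sub, PowerSeries.coeff_zero_eq_constantCoeff_apply,
        PowerSeries.coeff_zero_eq_constantCoeff_apply, PowerSeries.constantCoeff_C, sub_self, h.zero]
      exact h.nonneg _
    | succ k =>
      rw [map_sub, PowerSeries.coeff_C, if_neg (Nat.succ_ne_zero k), sub_zero]
  rwa [one_mul] at h2

/-- The general statement on inverses: a family of seminorms `N s`, `s` in `[0, 1]`. -/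
theorem inv_family {L : Type*} [Field L] (v : AbsoluteValue L ℝ) {A : Type*} [CommRing A]
    [Algebra L A] (N : ℝ → A → ℝ)
    (hN : ∀ s, 0 ≤ s → s ≤ 1 → SN v (N s)) (m : ℕ)
    (hm : ∀ s, 0 < s → s ≤ 1 → ∀ g, N 1 g ≤ (s ^ m)⁻¹ * N s g) (f g : A) (h : f * g = 1) (a : L)
    (ha : a ≠ 0)
    (hd : ∀ s, 0 ≤ s → s ≤ 1 → cst v 2 * N s (f - algebraMap L A a) ≤ s * v a) :
    N 1 g ≤ cst v 2 / v a := by
  have hva : 0 < v a := v.pos ha
  have hinv : v a⁻¹ = (v a)⁻¹ := map_inv₀ v a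
  -- the identity for `g`
  have e : g = algebraMap L A a⁻¹ + -(algebraMap L A a⁻¹ * ((f - algebraMap L A a) * g)) := by
    have e1 : algebraMap L A a⁻¹ * algebraMap L A a = 1 := by
      rw [← map_mul, inv_mul_cancel₀ ha, map_one]
    have e2 : algebraMap L A a⁻¹ + -(algebraMap L A a⁻¹ * ((f - algebraMap L A a) * g)) =
        algebraMap L A a⁻¹ * (1 - f * g) + (algebraMap L A a⁻¹ * algebraMap L A a) * g := by ring
    rw [e2, h, e1, sub_self, mul_zero, zero_add, one_mul]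
  have key : ∀ s, 0 ≤ s → s ≤ 1 → N s (-(algebraMap L A a⁻¹ * ((f - algebraMap L A a) * g))) ≤
      (v a)⁻¹ * (N s (f - algebraMap L A a) * N s g) := by
    intro s hs hs1
    have hS := hN s hs hs1
    rw [hS.neg]
    refine (hS.mul _ _).trans ?_
    refine mul_le_mul ?_ (hS.mul _ _) (hS.nonneg _) (inv_nonneg.2 hva.le)
    rw [← hinv]
    exact hS.map _
  by_cases hv : IsNonarchimedean v
  · have hc : cst v 2 = 1 := by
      unfold cst
      rw [if_pos hv]
    rw [hc] at hd ⊢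
    have h1 : ∀ s, 0 < s → s < 1 → N s g ≤ 1 / v a := by
      intro s hs hs1
      have hS := hN s hs.le hs1.le
      have h2 : N s g ≤ max ((v a)⁻¹) ((v a)⁻¹ * (N s (f - algebraMap L A a) * N s g)) := by
        rw [congrArg (N s) e]
        refine (hS.add_max hv _ _).trans (max_le_max ?_ ?_)
        · rw [← hinv]
          exact hS.map _
        · rw [← e]
          exact key s hs.le hs1.le
      have h3 : (v a)⁻¹ * (N s (f - algebraMap L A a) * N s g) ≤ s * N s g := by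
        have h4 := hd s hs.le hs1.le
        rw [one_mul] at h4
        calc (v a)⁻¹ * (N s (f - algebraMap L A a) * N s g) ≤ (v a)⁻¹ * ((s * v a) * N s g) :=
              mul_le_mul_of_nonneg_left (mul_le_mul_of_nonneg_right h4 (hS.nonneg _))
                (inv_nonneg.2 hva.le)
          _ = s * N s g * ((v a)⁻¹ * v a) := by ring
          _ = s * N s g := by rw [inv_mul_cancel₀ hva.ne', mul_one]
      rw [one_div]
      rcases le_max_iff.1 h2 with h5 | h5
      · exact h5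
      · have h6 : N s g ≤ s * N s g := h5.trans h3
        have h7 := hS.nonneg g
        have h8 : N s g = 0 := by nlinarith
        rw [h8]
        exact inv_nonneg.2 hva.le
    have h2 : ∀ s, 0 < s → s < 1 → s ^ m * N 1 g ≤ 1 / v a := by
      intro s hs hs1
      refine le_trans ?_ (h1 s hs hs1)
      have h3 := hm s hs hs1.le g
      rw [inv_mul_eq_div, le_div_iff₀ (pow_pos hs _)] at h3
      rw [mul_comm]
      exact h3
    have h3 : Filter.Tendsto (fun s : ℝ => s ^ m * N 1 g) (nhdsWithin 1 (Set.Iio 1))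
        (nhds (1 ^ m * N 1 g)) := by
      refine Filter.Tendsto.mono_left ?_ nhdsWithin_le_nhds
      exact ((continuous_id.pow m).mul continuous_const).tendsto 1
    rw [one_pow, one_mul] at h3
    refine le_of_tendsto h3 ?_
    have h4 : Set.Ioo (0 : ℝ) 1 ∈ nhdsWithin (1 : ℝ) (Set.Iio 1) := Ioo_mem_nhdsLT zero_lt_one
    filter_upwards [h4] with s hs
    exact h2 s hs.1 hs.2
  · have hc : cst v 2 = 2 := by
      unfold cst
      rw [if_neg hv]
      norm_num
    rw [hc] at hd ⊢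
    have hS := hN 1 zero_le_one le_rfl
    have h4 := hd 1 zero_le_one le_rfl
    rw [one_mul] at h4
    have h5 := hS.nonneg g
    have h2 : N 1 g ≤ (v a)⁻¹ + (v a)⁻¹ * (N 1 (f - algebraMap L A a) * N 1 g) := by
      calc N 1 g = N 1 (algebraMap L A a⁻¹ +
            -(algebraMap L A a⁻¹ * ((f - algebraMap L A a) * g))) := by
            rw [← e]
        _ ≤ _ := (hS.add _ _).trans (add_le_add (by
            rw [← hinv]
            exact hS.map _) (key 1 zero_le_one le_rfl))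
    have h3 : (v a)⁻¹ * (N 1 (f - algebraMap L A a) * N 1 g) ≤ (1 / 2) * N 1 g := by
      have h6 : N 1 (f - algebraMap L A a) ≤ v a / 2 := by linarith
      calc (v a)⁻¹ * (N 1 (f - algebraMap L A a) * N 1 g) ≤ (v a)⁻¹ * ((v a / 2) * N 1 g) :=
            mul_le_mul_of_nonneg_left (mul_le_mul_of_nonneg_right h6 h5) (inv_nonneg.2 hva.le)
        _ = (1 / 2) * N 1 g * ((v a)⁻¹ * v a) := by ring
        _ = (1 / 2) * N 1 g := by rw [inv_mul_cancel₀ hva.ne', mul_one]
    rw [div_eq_mul_inv]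
    linarith

/-- The substitution `T ↦ T ^ w`. -/
theorem PA_expand (h : SN v ν) {r : ℝ} (hr : 0 ≤ r) {w : ℕ} (hw : w ≠ 0) (n : ℕ)
    (f : PowerSeries A) : PA v ν r n (PowerSeries.expand w hw f) ≤ PA v ν (r ^ w) n f := by
  classical
  have hw0 : 0 < w := Nat.pos_of_ne_zero hw
  have hrw : 0 ≤ r ^ w := pow_nonneg hr w
  have hco : ∀ k : ℕ, ν (PowerSeries.coeff k (PowerSeries.expand w hw f)) * r ^ k =
      if w ∣ k then ν (PowerSeries.coeff (k / w) f) * (r ^ w) ^ (k / w) else 0 := by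
    intro k
    rw [PowerSeries.coeff_expand]
    split_ifs with h0
    · rw [← pow_mul, Nat.mul_div_cancel' h0]
    · rw [h.zero, zero_mul]
  by_cases hv : IsNonarchimedean v
  · unfold PA
    rw [if_pos hv]
    refine ciSup_le fun k => ?_
    have h1 := hco k
    show ν (PowerSeries.coeff (k : ℕ) (PowerSeries.expand w hw f)) * r ^ (k : ℕ) ≤ _
    rw [h1]
    have h2 : ∀ k, k ≤ n → ν (PowerSeries.coeff k f) * (r ^ w) ^ k ≤ PA v ν (r ^ w) n f :=
      fun k hk => PA_coeff_le h hrw hk f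
    have h3 : PA v ν (r ^ w) n f =
        ⨆ k : Fin (n + 1), ν (PowerSeries.coeff (k : ℕ) f) * (r ^ w) ^ (k : ℕ) := by
      unfold PA
      rw [if_pos hv]
    rw [if_pos hv, ← h3]
    split_ifs
    · exact h2 _ ((Nat.div_le_self _ _).trans (Nat.le_of_lt_succ k.2))
    · exact (mul_nonneg (h.nonneg _) (pow_nonneg hrw 0)).trans (h2 0 (Nat.zero_le n))
  · unfold PA
    rw [if_neg hv, if_neg hv,
      ← Finset.sum_range fun k => ν (PowerSeries.coeff k (PowerSeries.expand w hw f)) * r ^ k,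
      ← Finset.sum_range fun k => ν (PowerSeries.coeff k f) * (r ^ w) ^ k]
    simp only [hco]
    rw [← Finset.sum_filter, ← Finset.sum_image
      (f := fun j => ν (PowerSeries.coeff j f) * (r ^ w) ^ j)
      (s := (Finset.range (n + 1)).filter fun k => w ∣ k) (g := fun k => k / w)]
    · refine Finset.sum_le_sum_of_subset_of_nonneg ?_ ?_
      · intro j hj
        rw [Finset.mem_image] at hj
        obtain ⟨k, hk, rfl⟩ := hj
        rw [Finset.mem_filter, Finset.mem_range] at hk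
        rw [Finset.mem_range]
        exact lt_of_le_of_lt (Nat.div_le_self _ _) hk.1
      · intro j _ _
        exact mul_nonneg (h.nonneg _) (pow_nonneg hrw _)
    · intro a ha b hb hab
      rw [Finset.mem_coe, Finset.mem_filter] at ha hb
      have h1 : a / w = b / w := hab
      rw [← Nat.mul_div_cancel' ha.2, ← Nat.mul_div_cancel' hb.2, h1]

end

section

variable {L : Type*} [Field L] (v : AbsoluteValue L ℝ) {τ : Type*}

theorem SN_n1 {r : ℝ} (hr : 0 ≤ r) (s : ℕ) : SN v (fun f : D1 L τ => n1 v r s f) :=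
  SN_PA (SN_NV v) hr s

theorem SN_n2 {r κ : ℝ} (hr : 0 ≤ r) (hκ : 0 ≤ κ) (s s' : ℕ) :
    SN v (fun f : D2 L τ => n2 v r κ s s' f) :=
  SN_PA (SN_n1 v hr s) hκ s'

theorem n1_C (r : ℝ) (s : ℕ) (a : MvPolynomial τ L) :
    n1 v r s (PowerSeries.C a) = NV v a :=
  PA_C (SN_NV v) r s a

theorem n2_C {r : ℝ} (hr : 0 ≤ r) (κ : ℝ) (s s' : ℕ) (f : D1 L τ) :
    n2 v r κ s s' (PowerSeries.C f) = n1 v r s f :=
  PA_C (SN_n1 v hr s) κ s' f

theorem n1_map_C {r : ℝ} (s : ℕ) (f : PowerSeries L) :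
    n1 v r s (PowerSeries.map (C : L →+* MvPolynomial τ L) f) = PN v r s f := by
  have hco : ∀ k : ℕ, NV v (PowerSeries.coeff k (PowerSeries.map (C : L →+* MvPolynomial τ L) f)) =
      v (PowerSeries.coeff k f) := by
    intro k
    rw [PowerSeries.coeff_map, NV_C]
  unfold n1 PA
  rw [PN]
  simp only [hco]

theorem algebraMap_D2 (a : L) :
    algebraMap L (D2 L τ) a = PowerSeries.C (PowerSeries.C (C a)) := by
  rw [PowerSeries.algebraMap_apply, PowerSeries.algebraMap_apply]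
  rfl

theorem n2_algebraMap {r κ : ℝ} (hr : 0 ≤ r) (s s' : ℕ) (a : L) :
    n2 v r κ s s' (algebraMap L (D2 L τ) a) = v a := by
  rw [algebraMap_D2, n2_C v hr, n1_C, NV_C]

theorem n2_mono {r r' κ κ' : ℝ} (hr : 0 ≤ r) (hr' : r ≤ r') (hκ : 0 ≤ κ) (hκ' : κ ≤ κ')
    (s s' : ℕ) (f : D2 L τ) : n2 v r κ s s' f ≤ n2 v r' κ' s s' f := by
  have h1 : n2 v r κ s s' f ≤ n2 v r κ' s s' f := PA_mono (SN_n1 v hr s) hκ hκ' s' f
  have h2 : n2 v r κ' s s' f ≤ n2 v r' κ' s s' f :=
    PA_mono_nu (hκ.trans hκ') (fun a => PA_mono (SN_NV v) hr hr' s a) s' f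
  exact h1.trans h2

theorem n2_mono_n {r κ : ℝ} (hr : 0 ≤ r) (hκ : 0 ≤ κ) {s t s' t' : ℕ} (h : s ≤ t) (h' : s' ≤ t')
    (f : D2 L τ) : n2 v r κ s s' f ≤ n2 v r κ t t' f := by
  have h1 : n2 v r κ s s' f ≤ n2 v r κ s t' f := PA_mono_n (SN_n1 v hr s) hκ h' f
  have h2 : n2 v r κ s t' f ≤ n2 v r κ t t' f :=
    PA_mono_nu hκ (fun a => PA_mono_n (SN_NV v) hr h a) t' f
  exact h1.trans h2

/-- The constant coefficient. -/
noncomputable def c00 {L : Type*} [Field L] {τ : Type*} (f : D2 L τ) : MvPolynomial τ L :=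
  PowerSeries.constantCoeff (PowerSeries.constantCoeff f)

theorem n2_scale {r κ lam : ℝ} (hr : 0 ≤ r) (hκ : 0 ≤ κ) (h0 : 0 ≤ lam) (h1 : lam ≤ 1)
    (s s' : ℕ) (f : D2 L τ) (hf : c00 f = 0) :
    n2 v (lam * r) (lam * κ) s s' f ≤ lam * n2 v r κ s s' f := by
  unfold n2
  refine PA_le_mul (A := D1 L τ) h0 f f fun k _ => ?_
  cases k with
  | zero =>
    rw [pow_zero, pow_zero, mul_one, mul_one]
    exact PA_scale (SN_NV v) hr h0 h1 s _ (by
      rw [PowerSeries.coeff_zero_eq_constantCoeff_apply]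
      exact hf)
  | succ k =>
    have h2 : n1 v (lam * r) s (PowerSeries.coeff (k + 1) f) ≤
        n1 v r s (PowerSeries.coeff (k + 1) f) :=
      PA_mono (SN_NV v) (mul_nonneg h0 hr) (mul_le_of_le_one_left hr h1) s _
    have h3 : (lam * κ) ^ (k + 1) ≤ lam * κ ^ (k + 1) := by
      rw [mul_pow]
      refine mul_le_mul_of_nonneg_right ?_ (pow_nonneg hκ _)
      rw [pow_succ]
      exact mul_le_of_le_one_left h0 (pow_le_one₀ h0 h1)
    have h4 : 0 ≤ n1 v r s (PowerSeries.coeff (k + 1) f) := (SN_n1 v hr s).nonneg _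
    calc n1 v (lam * r) s (PowerSeries.coeff (k + 1) f) * (lam * κ) ^ (k + 1)
        ≤ n1 v r s (PowerSeries.coeff (k + 1) f) * (lam * κ ^ (k + 1)) :=
          mul_le_mul h2 h3 (pow_nonneg (mul_nonneg h0 hκ) _) h4
      _ = lam * (n1 v r s (PowerSeries.coeff (k + 1) f) * κ ^ (k + 1)) := by ring

theorem n2_sub_const {r κ : ℝ} (hr : 0 ≤ r) (hκ : 0 ≤ κ) (s s' : ℕ) (f : D2 L τ) :
    n2 v r κ s s' (f - PowerSeries.C (PowerSeries.C (c00 f))) ≤ n2 v r κ s s' f := by
  have h : n2 v r κ s s' (f - PowerSeries.C (PowerSeries.C (c00 f))) ≤ 1 * n2 v r κ s s' f := by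
    unfold n2
    refine PA_le_mul (A := D1 L τ) zero_le_one f _ fun k _ => ?_
    rw [one_mul]
    refine mul_le_mul_of_nonneg_right ?_ (pow_nonneg hκ _)
    cases k with
    | zero =>
      rw [map_sub, PowerSeries.coeff_zero_eq_constantCoeff_apply,
        PowerSeries.coeff_zero_eq_constantCoeff_apply, PowerSeries.constantCoeff_C]
      exact PA_sub_const (SN_NV v) hr s _
    | succ k =>
      rw [map_sub, PowerSeries.coeff_C, if_neg (Nat.succ_ne_zero k), sub_zero]
  rwa [one_mul] at h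

private theorem n2_low {r κ s : ℝ} (hr : 0 ≤ r) (hκ : 0 ≤ κ) (hs : 0 < s) (hs1 : s ≤ 1)
    (n n' : ℕ) (g : D2 L τ) :
    n2 v r κ n n' g ≤ (s ^ (n + n'))⁻¹ * n2 v (s * r) (s * κ) n n' g := by
  unfold n2
  refine PA_le_mul (A := D1 L τ) (inv_nonneg.2 (pow_nonneg hs.le _)) g g fun k hk => ?_
  have h1 : 1 ≤ (s ^ n')⁻¹ * s ^ k := by
    rw [← div_eq_inv_mul, one_le_div (pow_pos hs _)]
    exact pow_le_pow_of_le_one hs.le hs1 hk
  have h2 : n1 v r n (PowerSeries.coeff k g) ≤ (s ^ n)⁻¹ * n1 v (s * r) n (PowerSeries.coeff k g) :=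
    PA_low (SN_NV v) hr hs hs1 n _
  have h3 : 0 ≤ n1 v (s * r) n (PowerSeries.coeff k g) :=
    (SN_n1 v (mul_nonneg hs.le hr) n).nonneg _
  have h4 : 0 ≤ (s ^ n)⁻¹ := inv_nonneg.2 (pow_nonneg hs.le _)
  calc n1 v r n (PowerSeries.coeff k g) * κ ^ k
      ≤ ((s ^ n)⁻¹ * n1 v (s * r) n (PowerSeries.coeff k g)) * κ ^ k :=
        mul_le_mul_of_nonneg_right h2 (pow_nonneg hκ _)
    _ ≤ ((s ^ n')⁻¹ * s ^ k) * (((s ^ n)⁻¹ * n1 v (s * r) n (PowerSeries.coeff k g)) * κ ^ k) :=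
        le_mul_of_one_le_left (mul_nonneg (mul_nonneg h4 h3) (pow_nonneg hκ _)) h1
    _ = (s ^ (n + n'))⁻¹ * (n1 v (s * r) n (PowerSeries.coeff k g) * (s * κ) ^ k) := by
        rw [mul_pow, pow_add, mul_inv]
        ring

/-- The size of the inverse. -/
theorem n2_inv {r κ lam B : ℝ} (hr : 0 ≤ r) (hκ : 0 ≤ κ) (h0 : 0 ≤ lam) (h1 : lam ≤ 1)
    (f g : D2 L τ) (h : f * g = 1) (a : L) (hfa : c00 f = C a)
    (hB : ∀ n n', n2 v r κ n n' f ≤ B) (hlam : lam * (cst v 2 * B) ≤ v a) (n n' : ℕ) :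
    n2 v (lam * r) (lam * κ) n n' g ≤ cst v 2 / v a := by
  have ha : a ≠ 0 := by
    intro h2
    have h3 := congrArg (fun x => PowerSeries.constantCoeff (PowerSeries.constantCoeff x)) h
    simp only [map_mul, map_one] at h3
    unfold c00 at hfa
    rw [hfa, h2, map_zero, zero_mul] at h3
    exact zero_ne_one h3
  have key := inv_family v (A := D2 L τ)
    (fun s x => n2 v (s * (lam * r)) (s * (lam * κ)) n n' x)
    (fun s hs _ => SN_n2 v (mul_nonneg hs (mul_nonneg h0 hr))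
      (mul_nonneg hs (mul_nonneg h0 hκ)) n n') (n + n') (by
        intro s hs hs1 g
        simp only [one_mul]
        exact n2_low v (mul_nonneg h0 hr) (mul_nonneg h0 hκ) hs hs1 n n' g) f g h a ha (by
      intro s hs hs1
      have h2 := n2_scale v hr hκ (mul_nonneg hs h0) (mul_le_one₀ hs1 h0 h1) n n'
        (f - PowerSeries.C (PowerSeries.C (c00 f)))
        (by
          unfold c00
          rw [map_sub, map_sub, PowerSeries.constantCoeff_C, PowerSeries.constantCoeff_C, sub_self])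
      have h3 := (n2_sub_const v hr hκ n n' f).trans (hB n n')
      have h4 := mul_le_mul_of_nonneg_left h3 (mul_nonneg hs h0)
      have h5 := h2.trans h4
      rw [mul_assoc s lam r, mul_assoc s lam κ, hfa] at h5
      simp only [algebraMap_D2]
      calc _ ≤ cst v 2 * (s * lam * B) := mul_le_mul_of_nonneg_left h5 (cst_nonneg v 2)
        _ = s * (lam * (cst v 2 * B)) := by ring
        _ ≤ _ := mul_le_mul_of_nonneg_left hlam hs)
  simp only [one_mul] at key
  exact key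

/-- The substitution `T ↦ T ^ w`. -/
noncomputable def Exp (L : Type*) [Field L] (τ : Type*) (w : ℕ) (hw : w ≠ 0) :
    D2 L τ →+* D2 L τ :=
  PowerSeries.map (PowerSeries.expand w hw : D1 L τ →ₐ[MvPolynomial τ L] D1 L τ).toRingHom

theorem n2_Exp {r κ : ℝ} (hr : 0 ≤ r) (hκ : 0 ≤ κ) {w : ℕ} (hw : w ≠ 0) (n n' : ℕ)
    (f : D2 L τ) : n2 v r κ n n' (Exp L τ w hw f) ≤ n2 v (r ^ w) κ n n' f :=
  PA_map hκ _ (fun a => PA_expand (SN_NV v) hr hw n a) n' f

end

end Pool.Agent.Lib.MP_17a322_nt.VA
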