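import Pool.Agent.Lib.MP_17a322_nt.VA.Z12

/-!
The gain in one chart: elements of the ideal.
-/

universe u

namespace Pool.Agent.Lib.MP_17a322_nt.VA

open MvPolynomial Height Filter
open Pool.Agent.Lib.MP_17a322_nt.RO
open Pool.Agent.Lib.MP_17a322_nt.VJ
open Pool.Agent.Lib.MP_17a322_nt.VN

section

variable {K : Type u} [Field K] {N : ℕ} {A : AV K N}

theorem Z_gm_lf {P : ℕ → A.Pts K} {p : A.Pts (GK K)} {c : GK K}
    (h : ∀ i, gm (fun ν => A.x (P ν) i) = c * A.x p i) (l : Fin (N + 1) → K) :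
    gm (fun ν => lf l (A.x (P ν))) = c * lf l (A.x p) := by
  unfold lf
  rw [gm_sum, Finset.mul_sum]
  refine Finset.sum_congr rfl fun i _ => ?_
  rw [mul_left_comm, ← h, gm_mul]
  rfl

variable {n e : ℕ} (nd : Noe A n e)

theorem Z_gm_y {P : ℕ → A.Pts K} {p : A.Pts (GK K)} (h : IsGerm A P p) (i : Fin (N + 1)) :
    gm (fun ν => nd.y (P ν) i) = nd.y p i := by
  obtain ⟨c, hc, h1⟩ := h
  unfold Noe.y
  rw [gm_div, h1, Z_gm_lf h1, mul_div_mul_left _ _ hc]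

theorem Z_gm_s {P : ℕ → A.Pts K} {p : A.Pts (GK K)} (h : IsGerm A P p) (j : Fin n) :
    gm (fun ν => nd.s (P ν) j) = nd.s p j := by
  obtain ⟨c, hc, h1⟩ := h
  unfold Noe.s
  rw [gm_div, Z_gm_lf h1, Z_gm_lf h1, mul_div_mul_left _ _ hc]

end

section

variable {K : Type u} [Field K] [NumberField K] {N : ℕ} {A B : AV K N}
  {H : ℕ → ℝ} (hH : Tendsto H (hyperfilter ℕ : Filter ℕ) atTop)

/-- The places of the chart. -/
def ChP {n e : ℕ} (nd : Noe B n e) (κ : SC K) (P : ℕ → A.Pts K) (Q : ℕ → B.Pts K)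
    (a : Fin (N + 1)) (i : ℕ) : AbsoluteValue K ℝ → Prop :=
  ChC (A.x (P i)) a fun v => nd.In κ v (Q i)

/-- The ideal of the centre. -/
noncomputable def Zideal {n e r : ℕ} (nd : Noe B n e) (g : Fin r → MvPolynomial (Fin (N + 1)) K)
    (p : A.Pts (GK K)) (b : B.Pts (GK K)) (a : Fin (N + 1)) :
    Ideal (MvPolynomial ((Fin (N + 1) ⊕ Fin (N + 1)) ⊕ Fin n) (k0 K H hH)) :=
  RingHom.ker (aeval (Sum.elim (Sum.elim (fun i => A.x p i / A.x p a) (nd.y b)) (nd.s b)) :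
      MvPolynomial _ (k0 K H hH) →ₐ[k0 K H hH] GK K) ⊔
    Ideal.span (Set.range fun j : Fin r =>
      rename (Sum.inl ∘ Sum.inl) (MvPolynomial.map (algebraMap K (k0 K H hH)) (g j)))

theorem Z_aeval_g {n r : ℕ} (g : Fin r → MvPolynomial (Fin (N + 1)) K)
    (x y : Fin (N + 1) → GK K) (t : Fin n → GK K) (j : Fin r) :
    aeval (Sum.elim (Sum.elim x y) t) (rename (Sum.inl ∘ Sum.inl)
      (MvPolynomial.map (algebraMap K (k0 K H hH)) (g j)) :
        MvPolynomial ((Fin (N + 1) ⊕ Fin (N + 1)) ⊕ Fin n) (k0 K H hH)) = aeval x (g j) := by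
  rw [aeval_rename]
  induction g j using MvPolynomial.induction_on with
  | C c =>
    rw [map_C, aeval_C, aeval_C]
    rfl
  | add p q hp hq => rw [map_add, map_add, map_add, hp, hq]
  | mul_X p i hp =>
    rw [map_mul, map_mul, map_mul, map_X, aeval_X, aeval_X, hp]
    rfl

theorem Z_mem_ideal {n e r : ℕ} {nd : Noe B n e} {g : Fin r → MvPolynomial (Fin (N + 1)) K}
    {p : A.Pts (GK K)} {b : B.Pts (GK K)} {a : Fin (N + 1)}
    {f : MvPolynomial ((Fin (N + 1) ⊕ Fin (N + 1)) ⊕ Fin n) (k0 K H hH)}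
    (hf : f ∈ Zideal hH nd g p b a) :
    ∃ E : Fin r → MvPolynomial ((Fin (N + 1) ⊕ Fin (N + 1)) ⊕ Fin n) (k0 K H hH),
      aeval (Sum.elim (Sum.elim (fun i => A.x p i / A.x p a) (nd.y b)) (nd.s b)) f =
        ∑ j, aeval (Sum.elim (Sum.elim (fun i => A.x p i / A.x p a) (nd.y b)) (nd.s b)) (E j) *
          aeval (fun i => A.x p i / A.x p a) (g j) := by
  obtain ⟨f₁, hf₁, f₂, hf₂, rfl⟩ := Submodule.mem_sup.1 hf
  obtain ⟨E, hE⟩ := Ideal.mem_span_range_iff_exists_fun.1 hf₂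
  refine ⟨E, ?_⟩
  have h1 : aeval (Sum.elim (Sum.elim (fun i => A.x p i / A.x p a) (nd.y b)) (nd.s b)) f₁ = 0 := hf₁
  rw [map_add, h1, zero_add, ← hE, map_sum]
  refine Finset.sum_congr rfl fun j _ => ?_
  rw [map_mul, Z_aeval_g]

/-- The coordinates of the chart. -/
noncomputable def Zu {n e : ℕ} (nd : Noe B n e) (P : ℕ → A.Pts K) (Q : ℕ → B.Pts K)
    (a : Fin (N + 1)) : (Fin (N + 1) ⊕ Fin (N + 1)) ⊕ Fin n → ℕ → K :=
  Sum.elim (Sum.elim (fun i ν => A.x (P ν) i / A.x (P ν) a) fun i ν => nd.y (Q ν) i)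
    fun j ν => nd.s (Q ν) j

theorem Z_gm_u {n e : ℕ} (nd : Noe B n e) {P : ℕ → A.Pts K} {Q : ℕ → B.Pts K}
    {p : A.Pts (GK K)} {b : B.Pts (GK K)} (hPp : IsGerm A P p) (hQb : IsGerm B Q b)
    (a : Fin (N + 1)) (s : (Fin (N + 1) ⊕ Fin (N + 1)) ⊕ Fin n) :
    gm (Zu nd P Q a s) =
      Sum.elim (Sum.elim (fun i => A.x p i / A.x p a) (nd.y b)) (nd.s b) s := by
  rcases s with (s | s) | s
  · exact (hPp.rt (s, a)).symm
  · exact Z_gm_y nd hQb s
  · exact Z_gm_s nd hQb s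

include hH in
theorem Z_cbo_y {n e : ℕ} (nd : Noe B n e) (κ : SC K) (P : ℕ → A.Pts K) (Q : ℕ → B.Pts K)
    (a i : Fin (N + 1)) : cbo H (ChP nd κ P Q a) fun ν => nd.y (Q ν) i := by
  refine cbo_of_bound hH _ (κ := fun v => κ.k v) (fun v => κ.one_le v) (κ.FS_log K) ?_
  intro ν v hv
  have h1 := hv.2 i
  unfold Noe.y
  rw [map_div₀]
  rcases eq_or_ne (lf (nd.l 0) (B.x (Q ν))) 0 with h0 | h0
  · rw [h0, map_zero, div_zero]
    exact (κ.pos v).le
  · rw [div_le_iff₀ (v.pos h0)]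
    exact h1

include hH in
/-- The coordinates are bounded at the places of the chart. -/
theorem Z_cbo_u {n e : ℕ} (nd : Noe B n e) (κ : SC K) (P : ℕ → A.Pts K) {Q : ℕ → B.Pts K}
    {b : B.Pts (GK K)} (hQb : IsGerm B Q b) (hl : lf (nd.l 0) (B.x b) ≠ 0) (a : Fin (N + 1))
    (s : (Fin (N + 1) ⊕ Fin (N + 1)) ⊕ Fin n) : cbo H (ChP nd κ P Q a) (Zu nd P Q a s) := by
  rcases s with (s | s) | s
  · refine cbo_of_bound hH _ (κ := fun _ => 1) (fun _ => le_rfl) (by simp [FS]) ?_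
    intro ν v hv
    show v (A.x (P ν) s / A.x (P ν) a) ≤ 1
    rw [map_div₀]
    exact div_le_one_of_le₀ (hv.1 s) (v.nonneg _)
  · exact Z_cbo_y hH nd κ P Q a s
  · -- a linear form in the affine coordinates
    obtain ⟨β, hβ, hβ'⟩ := cbo_rep hH (ChP nd κ P Q a) (fun i ν => nd.y (Q ν) i)
      (Z_cbo_y hH nd κ P Q a)
      (∑ i, MvPolynomial.C (algebraMap K (k0 K H hH) (nd.l s.succ i)) * X i)
    have h1 : gm β = gm fun ν => nd.s (Q ν) s := by
      rw [hβ, Z_gm_s nd hQb, ← Z_lf_s, map_sum]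
      unfold lf
      refine Finset.sum_congr rfl fun i _ => ?_
      rw [map_mul, aeval_C, aeval_X, Z_gm_y nd hQb]
      rfl
    intro δ hδ
    filter_upwards [hβ' δ hδ, gm_eq_iff.1 h1] with ν h2 h3
    show cbC (ChP nd κ P Q a ν) (nd.s (Q ν) s) ≤ δ * H ν
    rw [← h3]
    exact h2

theorem jg2_eq_gn {n e : ℕ} (nd : Noe B n e) (κ : SC K) (Q : B.Pts K) (a b : K) :
    jg2 (fun v => nd.In κ v Q) a b = nd.gn κ Q a b := rfl

/-- The gain is at most the gain of a pair of elements of the ideal. -/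
theorem Z_pair {n e r : ℕ} (nd : Noe B n e) (κ : SC K) {P : ℕ → A.Pts K} {Q : ℕ → B.Pts K}
    {p : A.Pts (GK K)} {b : B.Pts (GK K)} (hPp : IsGerm A P p) (hQb : IsGerm B Q b)
    (hl : lf (nd.l 0) (B.x b) ≠ 0) (a : Fin (N + 1)) (g : Fin r → MvPolynomial (Fin (N + 1)) K)
    {z z' : MvPolynomial (Fin n) (k0 K H hH)} (hz : rename Sum.inr z ∈ Zideal hH nd g p b a)
    (hz' : rename Sum.inr z' ∈ Zideal hH nd g p b a)
    (h0 : aeval (nd.s b) z ≠ 0 ∨ aeval (nd.s b) z' ≠ 0) {ζ ζ' : ℕ → K}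
    (hζ : gm ζ = aeval (nd.s b) z) (hζ' : gm ζ' = aeval (nd.s b) z') (δ : ℝ) (hδ : 0 < δ) :
    ∀ᶠ i in (hyperfilter ℕ : Filter ℕ),
      jg (ChP nd κ P Q a i) (fun j => aeval (fun c => A.x (P i) c / A.x (P i) a) (g j)) ≤
        nd.gn κ (Q i) (ζ i) (ζ' i) + δ * H i := by
  obtain ⟨E, hE⟩ := Z_mem_ideal hH hz
  obtain ⟨E', hE'⟩ := Z_mem_ideal hH hz'
  choose β hβ hβo using fun j => cbo_rep hH (ChP nd κ P Q a) (Zu nd P Q a)
    (Z_cbo_u hH nd κ P hQb hl a) (E j)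
  choose β' hβ' hβo' using fun j => cbo_rep hH (ChP nd κ P Q a) (Zu nd P Q a)
    (Z_cbo_u hH nd κ P hQb hl a) (E' j)
  have hu : (fun s => gm (Zu nd P Q a s)) =
      Sum.elim (Sum.elim (fun i => A.x p i / A.x p a) (nd.y b)) (nd.s b) :=
    funext fun s => Z_gm_u nd hPp hQb a s
  have hgj : ∀ j, gm (fun i => aeval (fun c => A.x (P i) c / A.x (P i) a) (g j)) =
      aeval (fun i => A.x p i / A.x p a) (g j) := by
    intro j
    rw [← Z_aeval_gm fun c i => A.x (P i) c / A.x (P i) a]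
    congr 2
    funext c
    exact (hPp.rt (c, a)).symm
  have hren : ∀ q : MvPolynomial (Fin n) (k0 K H hH),
      aeval (Sum.elim (Sum.elim (fun i => A.x p i / A.x p a) (nd.y b)) (nd.s b))
        (rename Sum.inr q) = aeval (nd.s b) q := by
    intro q
    rw [aeval_rename]
    rfl
  refine jg_comb_germ hH (ChP nd κ P Q a) (fun i v => nd.In κ v (Q i)) (fun i v hv => hv.2)
    (fun j i => aeval (fun c => A.x (P i) c / A.x (P i) a) (g j)) β β' ζ ζ' hβo hβo' ?_ ?_ ?_ δ hδ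
  · rw [hζ, ← hren, hE]
    refine Finset.sum_congr rfl fun j _ => ?_
    rw [hβ, hu, hgj]
  · rw [hζ', ← hren, hE']
    refine Finset.sum_congr rfl fun j _ => ?_
    rw [hβ', hu, hgj]
  · rwa [hζ, hζ']

theorem Z_gn_one {n e : ℕ} (nd : Noe B n e) (κ : SC K) (Q : B.Pts K) :
    nd.gn κ Q (1 : K) 0 = 0 := by
  have h : nd.gn κ Q (1 : K) 0 = gs (fun _ : AbsoluteValue K ℝ => 0) := by
    unfold Noe.gn
    congr 1
    funext v
    split_ifs
    · rw [map_one, map_zero]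
      simp
    · rfl
  rw [h]
  simp [gs]

end

end Pool.Agent.Lib.MP_17a322_nt.VA
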