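import Pool.Agent.Lib.MP_17a322_nt.VA.E00
import Pool.Agent.Lib.MP_17a322_nt.VJ.D7
import Pool.Agent.Lib.MP_17a322_nt.VJ.A2

/-!
Part E of VA: the index of a polynomial in the `S_p`, `p.2 ∈ J` (`zero_lemma`, VJ/D7). Port of VN/L2B3a and VN/L2B3b.
-/

universe u

namespace Pool.Agent.Lib.MP_17a322_nt.VA

open MvPolynomial Height
open Pool.Agent.Lib.MP_17a322_nt.VJ
open Pool.Agent.Lib.MP_17a322_nt.VN

theorem block_J {K : Type*} [Field K] [AdmissibleAbsValues K] {m n : ℕ} (J : Finset (Fin n))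
    (i : Fin m) (G : MvPolynomial {p : Fin m × Fin n // p.2 ∈ J} K) (hG : G ≠ 0)
    (hv : ∀ p ∈ G.vars, p.1.1 = i) (D : ℕ) (hD : ∀ p, G.degreeOf p ≤ D)
    (σ : Fin m × Fin n → K) :
    ∃ G' : MvPolynomial (Fin n) K, G' ≠ 0 ∧ (∀ t ∉ J, G'.degreeOf t = 0) ∧
      (∀ t, G'.degreeOf t ≤ D) ∧ nh G' = nh G ∧
      eval (fun t => σ (i, t)) G' = eval (fun p => σ p.1) G := by
  classical
  obtain ⟨f, hf⟩ : ∃ f : {t : Fin n // t ∈ J} → {p : Fin m × Fin n // p.2 ∈ J},
      f = fun t => ⟨(i, t.1), t.2⟩ := ⟨_, rfl⟩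
  have hfv : ∀ t, (f t).1 = (i, t.1) := fun t => by rw [hf]
  have hinj : Function.Injective f := by
    intro a b h
    have h1 := congrArg (fun x => x.1.2) h
    simp only [hfv] at h1
    exact Subtype.ext h1
  obtain ⟨G₀, hG₀⟩ := MvPolynomial.exists_rename_eq_of_vars_subset_range G f hinj (by
    intro a ha
    have h1 := hv a ha
    refine ⟨⟨a.1.2, a.2⟩, ?_⟩
    refine Subtype.ext ?_
    rw [hfv, ← h1])
  subst hG₀
  have hdeg : ∀ s, G₀.degreeOf s ≤ D := by
    intro s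
    rw [← MvPolynomial.degreeOf_rename_of_injective hinj s]
    exact hD _
  have hz : ∀ t ∉ J, (rename Subtype.val G₀ : MvPolynomial (Fin n) K).degreeOf t = 0 := by
    intro t ht
    by_contra h1
    have h2 : t ∈ (rename Subtype.val G₀ : MvPolynomial (Fin n) K).vars := by
      rw [MvPolynomial.vars_def, Multiset.mem_toFinset]
      rw [MvPolynomial.degreeOf_def] at h1
      exact Multiset.count_ne_zero.1 h1
    have h3 := MvPolynomial.vars_rename Subtype.val G₀ h2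
    obtain ⟨s, -, hs⟩ := Finset.mem_image.1 h3
    exact ht (by rw [← hs]; exact s.2)
  refine ⟨rename Subtype.val G₀, ?_, hz, ?_, ?_, ?_⟩
  · intro h1
    have h2 : G₀ = 0 := rename_injective _ Subtype.val_injective (by rw [h1, map_zero])
    exact hG (by rw [h2, map_zero])
  · intro t
    by_cases ht : t ∉ J
    · rw [hz t ht]
      exact Nat.zero_le _
    · have h1 := MvPolynomial.degreeOf_rename_of_injective (p := G₀) Subtype.val_injective
        (⟨t, not_not.1 ht⟩ : {t : Fin n // t ∈ J})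
      rw [h1]
      exact hdeg _
  · unfold nh
    congr 1
    funext v
    rw [NV_rename v G₀ _ hinj, NV_rename v G₀ _ Subtype.val_injective]
  · rw [eval_rename, eval_rename]
    congr 1
    congr 1
    funext s
    rw [Function.comp_apply, Function.comp_apply, hfv]

theorem T_index {K : Type u} [Field K] [NumberField K] (m n : ℕ) (J : Finset (Fin n)) (s B : ℝ)
    (hs : 0 < s) (hB : 0 ≤ B) :
    ∃ (R₀ D' : ℕ) (B' : ℝ), 0 ≤ B' ∧ ∀ (j : Fin m → ℕ) (σ : Fin m × Fin n → K)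
      (F : MvPolynomial {p : Fin m × Fin n // p.2 ∈ J} K) (μ : ℝ),
      (∀ i i', i < i' → R₀ * 4 ^ j i ≤ 4 ^ j i') → F ≠ 0 → 0 < μ →
      (∀ p, (4 : ℝ) ^ j p.1.1 * F.degreeOf p ≤ μ) → nh F ≤ B * μ →
      (∃ (i : Fin m) (G : MvPolynomial (Fin n) K), G ≠ 0 ∧ (∀ t ∉ J, G.degreeOf t = 0) ∧
        (∀ t, G.degreeOf t ≤ D') ∧ nh G ≤ B' * 4 ^ j i ∧ eval (fun t => σ (i, t)) G = 0) ∨
      ∃ m₀ : {p : Fin m × Fin n // p.2 ∈ J} →₀ ℕ,
        ((Finsupp.weight (fun p : {p : Fin m × Fin n // p.2 ∈ J} => 4 ^ j p.1.1) m₀ : ℕ) : ℝ) <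
          s * μ ∧ coeff m₀ (tr (fun p => σ p.1) F) ≠ 0 := by
  classical
  obtain ⟨R, D, B₁, hB₁, H⟩ := zero_lemma.{u} (m * n) s B hs hB
  have hfin : (1 : ℝ) ≤ Module.finrank ℚ K := by
    exact_mod_cast Nat.succ_le_of_lt (Module.finrank_pos (R := ℚ) (M := K))
  refine ⟨max R 2, D, B₁ * Module.finrank ℚ K, mul_nonneg hB₁ (by linarith), ?_⟩
  intro j σ F μ hj hF hμ hdeg hnh
  have hcast : ∀ i : Fin m, ((4 ^ j i : ℕ) : ℝ) = (4 : ℝ) ^ j i := fun i => by push_cast; rfl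
  by_cases hI : IG (fun p : {p : Fin m × Fin n // p.2 ∈ J} => 4 ^ j p.1.1) (s * μ)
      (fun p => σ p.1) F
  · have hlt : ∀ i i' : Fin m, i < i' → R * 4 ^ j i ≤ 4 ^ j i' := fun i i' h =>
      (Nat.mul_le_mul_right _ (le_max_left R 2)).trans (hj i i' h)
    have hlt2 : ∀ i i' : Fin m, i < i' → 4 ^ j i < 4 ^ j i' := fun i i' h => by
      have h1 := (Nat.mul_le_mul_right (4 ^ j i) (le_max_right R 2)).trans (hj i i' h)
      have h2 : 0 < 4 ^ j i := Nat.pow_pos (by norm_num)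
      omega
    have hcard : F.vars.card ≤ m * n := by
      refine (Finset.card_le_univ _).trans ((Fintype.card_subtype_le _).trans (le_of_eq ?_))
      rw [Fintype.card_prod, Fintype.card_fin, Fintype.card_fin]
    obtain ⟨t₀, G, hG, hGv, hGd, hGn, hGe⟩ := H K {p : Fin m × Fin n // p.2 ∈ J}
      (fun p => 4 ^ j p.1.1) (fun p => σ p.1) F μ (fun t => Nat.one_le_pow _ _ (by norm_num))
      (fun t t' => by
        rcases lt_trichotomy t.1.1 t'.1.1 with h | h | h
        · exact Or.inr (Or.inl (hlt _ _ h))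
        · left
          rw [h]
        · exact Or.inr (Or.inr (hlt _ _ h))) hF hcard hμ
      (fun t => by
        rw [hcast]
        exact hdeg t)
      (hnh.trans (le_mul_of_one_le_right (mul_nonneg hB hμ.le) hfin)) hI
    obtain ⟨G', hG', hG'r, hG'd, hG'n, hG'e⟩ := block_J J t₀.1.1 G hG (fun p hp => by
      have h1 : 4 ^ j p.1.1 = 4 ^ j t₀.1.1 := hGv p hp
      rcases lt_trichotomy p.1.1 t₀.1.1 with h | h | h
      · exact absurd h1 (hlt2 _ _ h).ne
      · exact h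
      · exact absurd h1 (hlt2 _ _ h).ne') D hGd σ
    left
    refine ⟨t₀.1.1, G', hG', hG'r, hG'd, ?_, ?_⟩
    · rw [hG'n]
      refine hGn.trans (le_of_eq ?_)
      rw [hcast]
      ring
    · rw [hG'e]
      exact hGe
  · right
    unfold IG at hI
    push Not at hI
    exact hI

end Pool.Agent.Lib.MP_17a322_nt.VA
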