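import Pool.Agent.Lib.MP_17a322_nt.VA.A4

/-!
VA, part A: identities for vectors with entries in `K`-algebras satisfying the equations of `A`.
-/

universe u w

namespace Pool.Agent.Lib.MP_17a322_nt.VA

open MvPolynomial

section

variable {K : Type u} [Field K] {N : ℕ} (A : AV K N)

theorem AV.gr : GRad A.I := fun L _ _ => (A.prime L).isRadical

theorem AV.I_prime : A.I.IsPrime := by
  have h1 := A.prime K
  rwa [map_algebraMap_self, Ideal.map_id] at h1

/-- `S a b (y, y')`. -/
noncomputable def AV.s2 {R : Type w} [CommRing R] [Algebra K R] (y y' : Fin (N + 1) → R)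
    (a b : Fin (N + 1)) : R :=
  aeval (Sum.elim y y') (A.S a b)

variable {A}

theorem AV.s2_zero_left {R : Type w} [CommRing R] [Algebra K R] (y' : Fin (N + 1) → R)
    (a b : Fin (N + 1)) : A.s2 (fun _ => 0) y' a b = 0 := by
  have h := A.S_smul a b (0 : R) 1 (fun _ => 0) y'
  simp only [mul_zero, one_mul, one_pow, mul_one] at h
  unfold AV.s2
  rw [h]
  ring

theorem AV.s2_zero_right {R : Type w} [CommRing R] [Algebra K R] (y : Fin (N + 1) → R)
    (a b : Fin (N + 1)) : A.s2 y (fun _ => 0) a b = 0 := by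
  have h := A.S_smul a b (1 : R) 0 y (fun _ => 0)
  simp only [mul_zero, one_mul, one_pow] at h
  unfold AV.s2
  rw [h]
  ring

theorem AV.map_s2 {R : Type w} [CommRing R] [Algebra K R] {R' : Type*} [CommRing R'] [Algebra K R']
    (φ : R →ₐ[K] R') (y y' : Fin (N + 1) → R) (a b : Fin (N + 1)) :
    φ (A.s2 y y' a b) = A.s2 (fun i => φ (y i)) (fun i => φ (y' i)) a b := by
  unfold AV.s2
  rw [← AlgHom.comp_apply, MvPolynomial.comp_aeval]
  congr 2
  funext s
  cases s <;> rfl

/-- The values of the forms `S` at two representatives. -/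
theorem AV.Rep.s2 {L : Type u} [Field L] [Algebra K L] {P Q : A.Pts L} {y y' : Fin (N + 1) → L}
    (h : A.Rep P y) (h' : A.Rep Q y') :
    ∃ c : L, c ≠ 0 ∧ ∀ a b, A.s2 y y' a b = c * (A.x (P + Q) a * A.x (P - Q) b) :=
  h.spec h'

/-- Identities in two points: it is enough to check them over fields, at representatives. -/
theorem AV.ident2 {f : MvPolynomial (Fin (N + 1) ⊕ Fin (N + 1)) K}
    (h0 : ∀ (L : Type u) [Field L] [Algebra K L] (x : Fin (N + 1) → L),
      aeval (Sum.elim x fun _ => 0) f = 0 ∧ aeval (Sum.elim (fun _ => 0) x) f = 0)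
    (h : ∀ (L : Type u) [Field L] [Algebra K L] (P Q : A.Pts L) (x x' : Fin (N + 1) → L),
      A.Rep P x → A.Rep Q x' → aeval (Sum.elim x x') f = 0)
    {R : Type u} [CommRing R] [Algebra K R] {y y' : Fin (N + 1) → R}
    (hy : A.IsPt y) (hy' : A.IsPt y') : aeval (Sum.elim y y') f = 0 := by
  refine prod_zero A.gr A.gr.isRadical ?_ hy hy'
  intro L _ _ x x' hx hx'
  by_cases h1 : x = 0
  · rw [h1]
    exact (h0 L x').2
  by_cases h2 : x' = 0
  · rw [h2]
    exact (h0 L x).1
  obtain ⟨P, hP⟩ := AV.exists_rep (A := A) h1 hx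
  obtain ⟨Q, hQ⟩ := AV.exists_rep (A := A) h2 hx'
  exact h L P Q x x' hP hQ

/-- The polynomial `S a b` composed with other forms. -/
theorem AV.aeval_s2 {σ : Type*} {R : Type w} [CommRing R] [Algebra K R] (z : σ → R)
    (p q : Fin (N + 1) → MvPolynomial σ K) (a b : Fin (N + 1)) :
    aeval z (A.s2 p q a b) = A.s2 (fun i => aeval z (p i)) (fun i => aeval z (q i)) a b :=
  AV.map_s2 (aeval z) p q a b

section

variable {R : Type u} [CommRing R] [Algebra K R] {y y' : Fin (N + 1) → R}

theorem AV.rank_one (hy : A.IsPt y) (hy' : A.IsPt y') (a b c d : Fin (N + 1)) :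
    A.s2 y y' a b * A.s2 y y' c d = A.s2 y y' a d * A.s2 y y' c b := by
  have h := AV.ident2 (A := A) (f := A.S a b * A.S c d - A.S a d * A.S c b) ?_ ?_ hy hy'
  · rw [map_sub, map_mul, map_mul] at h
    exact sub_eq_zero.mp h
  · intro L _ _ x
    have e1 : ∀ a b, aeval (Sum.elim x fun _ => 0) (A.S a b) = 0 := AV.s2_zero_right x
    have e2 : ∀ a b, aeval (Sum.elim (fun _ => 0) x) (A.S a b) = 0 := AV.s2_zero_left x
    constructor
    · simp only [map_sub, map_mul, e1, mul_zero, sub_zero]
    · simp only [map_sub, map_mul, e2, mul_zero, sub_zero]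
  · intro L _ _ P Q x x' hP hQ
    obtain ⟨c', hc', h1⟩ := hP.spec hQ
    rw [map_sub, map_mul, map_mul, h1, h1, h1, h1]
    ring

theorem AV.col_isPt (hy : A.IsPt y) (hy' : A.IsPt y') (b : Fin (N + 1)) :
    A.IsPt fun a => A.s2 y y' a b := by
  intro e he
  have hI : A.IsPt (R := R) fun _ => 0 := by
    have := hy.smul 0
    simpa only [zero_mul] using this
  have h := AV.ident2 (A := A) (f := aeval (fun a => A.S a b) e) ?_ ?_ hy hy'
  · rw [← AlgHom.comp_apply, MvPolynomial.comp_aeval] at h
    exact h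
  · intro L _ _ x
    have hI' : A.IsPt (R := L) fun _ => 0 := by
      have := (A.x_isPt (0 : A.Pts L)).smul 0
      simpa only [zero_mul] using this
    have e1 : ∀ a b, aeval (Sum.elim x fun _ => 0) (A.S a b) = 0 := AV.s2_zero_right x
    have e2 : ∀ a b, aeval (Sum.elim (fun _ => 0) x) (A.S a b) = 0 := AV.s2_zero_left x
    constructor
    · rw [← AlgHom.comp_apply, MvPolynomial.comp_aeval]
      simp only [e1]
      exact hI' e he
    · rw [← AlgHom.comp_apply, MvPolynomial.comp_aeval]
      simp only [e2]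
      exact hI' e he
  · intro L _ _ P Q x x' hP hQ
    obtain ⟨c', hc', h1⟩ := hP.spec hQ
    rw [← AlgHom.comp_apply, MvPolynomial.comp_aeval]
    have h2 : (fun a => aeval (Sum.elim x x') (A.S a b)) =
        fun a => (c' * A.x (P - Q) b) * A.x (P + Q) a := by
      funext a
      rw [h1]
      ring
    rw [h2]
    exact ((A.x_isPt (P + Q)).smul _) e he

theorem AV.row_isPt (hy : A.IsPt y) (hy' : A.IsPt y') (a : Fin (N + 1)) :
    A.IsPt fun b => A.s2 y y' a b := by
  intro e he
  have h := AV.ident2 (A := A) (f := aeval (fun b => A.S a b) e) ?_ ?_ hy hy'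
  · rw [← AlgHom.comp_apply, MvPolynomial.comp_aeval] at h
    exact h
  · intro L _ _ x
    have hI' : A.IsPt (R := L) fun _ => 0 := by
      have := (A.x_isPt (0 : A.Pts L)).smul 0
      simpa only [zero_mul] using this
    have e1 : ∀ a b, aeval (Sum.elim x fun _ => 0) (A.S a b) = 0 := AV.s2_zero_right x
    have e2 : ∀ a b, aeval (Sum.elim (fun _ => 0) x) (A.S a b) = 0 := AV.s2_zero_left x
    constructor
    · rw [← AlgHom.comp_apply, MvPolynomial.comp_aeval]
      simp only [e1]
      exact hI' e he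
    · rw [← AlgHom.comp_apply, MvPolynomial.comp_aeval]
      simp only [e2]
      exact hI' e he
  · intro L _ _ P Q x x' hP hQ
    obtain ⟨c', hc', h1⟩ := hP.spec hQ
    rw [← AlgHom.comp_apply, MvPolynomial.comp_aeval]
    have h2 : (fun b => aeval (Sum.elim x x') (A.S a b)) =
        fun b => (c' * A.x (P + Q) a) * A.x (P - Q) b := by
      funext b
      rw [h1]
      ring
    rw [h2]
    exact ((A.x_isPt (P - Q)).smul _) e he

end

end

end Pool.Agent.Lib.MP_17a322_nt.VA
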