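import Pool.Agent.Lib.MP_17a322_nt.VA.Defs
import Pool.Agent.Lib.MP_17a322_nt.VA.Mu
import Pool.Agent.Lib.MP_17a322_nt.VN.DefsC

/-!
VA, part C: definitions. Block polynomials, reductions by multiplication tables, vanishing conditions.
-/

universe u

namespace Pool.Agent.Lib.MP_17a322_nt.VA

open MvPolynomial Height
open Pool.Agent.Lib.MP_17a322_nt.RO
open Pool.Agent.Lib.MP_17a322_nt.VJ
open Pool.Agent.Lib.MP_17a322_nt.VN

/-- For coordinates `y` of `P` and `x` of `Q`: `X c (P + 2 ^ j Q) * l k (P - 2 ^ j Q)` up to a common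
factor. -/
noncomputable def EA {K : Type u} [Field K] {N : ℕ} (A : AV K N) {n : ℕ}
    (l : Fin (n + 1) → Fin (N + 1) → K) (j : ℕ) (c : Fin (N + 1)) {R : Type*} [CommRing R]
    [Algebra K R] (x y : Fin (N + 1) → R) (k : Fin (n + 1)) : R :=
  lf (l k) fun b => aeval (Sum.elim y (A.mu j x)) (A.S c b)

/-- The value of the block polynomial at `x`, `y`. -/
noncomputable def UVA {K : Type u} [Field K] {N : ℕ} (A : AV K N) {n : ℕ}
    (l : Fin (n + 1) → Fin (N + 1) → K) (j b : ℕ) (c : Fin (N + 1)) {R : Type*} [CommRing R]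
    [Algebra K R] (x y : Fin (N + 1) → R) (ν : Fin n → ℕ) : R :=
  ∏ t : Fin n, EA A l j c x y t.succ ^ ν t * EA A l j c x y 0 ^ (b - ν t)

/-- The block polynomial in the coordinates `x` of `Q` (`Sum.inl`) and `y` of `P` (`Sum.inr`). -/
noncomputable def UUA {K : Type u} [Field K] {N : ℕ} (A : AV K N) {n : ℕ}
    (l : Fin (n + 1) → Fin (N + 1) → K) (j b : ℕ) (c : Fin (N + 1)) (ν : Fin n → ℕ) :
    MvPolynomial (Fin (N + 1) ⊕ Fin (N + 1)) K :=
  UVA A l j b c (fun a => X (Sum.inl a)) (fun a => X (Sum.inr a)) ν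

/-- The total degrees in the two groups of variables are at most `p` and `q`. -/
def BD {K σ τ : Type*} [CommRing K] [Fintype σ] [Fintype τ] (P : MvPolynomial (σ ⊕ τ) K)
    (p q : ℕ) : Prop :=
  ∀ m ∈ P.support, ∑ t, m (Sum.inl t) ≤ p ∧ ∑ t, m (Sum.inr t) ≤ q

/-- The coefficients of a polynomial in the variables `σ` and `Fin a` with respect to a
multiplication table `M` over the polynomial ring in `n` variables: if
`∑ l, w l * M j l m (z) = u j * w m` and `w 0 = 1` then `P (x, u) = ∑ l, w l * GR M P l (x, z)`. -/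
noncomputable def GR {K σ : Type*} [CommRing K] [Fintype σ] {a n e : ℕ}
    (M : Fin a → Matrix (Fin (e + 1)) (Fin (e + 1)) (MvPolynomial (Fin n) K))
    (P : MvPolynomial (σ ⊕ Fin a) K) (l : Fin (e + 1)) : MvPolynomial (σ ⊕ Fin n) K :=
  ∑ m ∈ P.support, C (coeff m P) * (∏ t, X (Sum.inl t) ^ m (Sum.inl t)) *
    rename Sum.inr (mpw M (fun t => m (Sum.inr t)) l 0)

/-- As `GR`, without further variables. -/
noncomputable def RR {K : Type*} [CommRing K] {a n e : ℕ}
    (M : Fin a → Matrix (Fin (e + 1)) (Fin (e + 1)) (MvPolynomial (Fin n) K))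
    (P : MvPolynomial (Fin a) K) (l : Fin (e + 1)) : MvPolynomial (Fin n) K :=
  ∑ m ∈ P.support, C (coeff m P) * mpw M (fun t => m t) l 0

/-- The coefficient of the monomial with exponents `β` in the variables `Sum.inr`. -/
noncomputable def cz {K : Type*} [CommRing K] {a n : ℕ} (P : MvPolynomial (Fin a ⊕ Fin n) K)
    (β : Fin n → ℕ) : MvPolynomial (Fin a) K :=
  open Classical in
  ∑ m ∈ P.support, if (∀ t, m (Sum.inr t) = β t) then
    monomial (Finsupp.equivFunOnFinite.symm fun t => m (Sum.inl t)) (coeff m P) else 0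

/-- Specialisation `x = x0`. -/
noncomputable def spA {K L : Type*} [CommRing K] [CommRing L] [Algebra K L] {a n : ℕ}
    (x0 : Fin a → L) (P : MvPolynomial (Fin a ⊕ Fin n) K) : MvPolynomial (Fin n) L :=
  aeval (Sum.elim (fun t => (C (x0 t) : MvPolynomial (Fin n) L)) X) P

section

variable {K : Type u} [Field K] {N : ℕ} {A : AV K N} {n e₀ : ℕ} (nd : Noe A n e₀)

/-- A bound for the degrees of the multiplication table of a Noether normalisation. -/
noncomputable def Noe.DM : ℕ := ∑ a, ∑ r, ∑ m, (nd.Mx a r m).totalDegree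

/-- The component `(r, l)` of the block polynomial: `r` a generator of the affine coordinate ring (for
the point `P`), `l` a generator of the centre datum. A polynomial in the coordinates `x` of `Q`
and in `Z`. -/
noncomputable def HA {e : ℕ} (ρ : REP K n e) (j b : ℕ) (c : Fin (N + 1)) (r : Fin (e₀ + 1))
    (l : Fin (e + 1)) (ν : Fin n → ℕ) : MvPolynomial (Fin (N + 1) ⊕ Fin n) K :=
  GR ρ.M (GR nd.Mx (UUA A nd.l j b c ν) r) l

end

section

variable {K : Type u} [Field K] {N : ℕ} {A : AV K N} {k e₀ : ℕ} (nd : Noe A (k + 2) e₀)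

/-- The vanishing condition of order `T` (along `z 0 = z 1 = 0`) for the family `Φ` with values in the
`L`-algebra `R`, at the vector `x0`. -/
def ORDA {e : ℕ} (ρ : REP K (k + 2) e) (j b T : ℕ) {L : Type*} [Field L] [Algebra K L]
    {R : Type*} [CommRing R] [Algebra L R] (Φ : (Fin (k + 2) → ℕ) → R) (x0 : Fin (N + 1) → L) :
    Prop :=
  ∀ (c : Fin (N + 1)) (r : Fin (e₀ + 1)) (l : Fin (e + 1)) (β : Fin (k + 2) →₀ ℕ),
    β 0 + β 1 < T →
    ∑ ν ∈ box (fun _ : Fin (k + 2) => b + 1),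
      Φ ν * algebraMap L R (coeff β (spA x0 (HA nd ρ j b c r l ν))) = 0

/-- The coefficient of the unknown `F a μ` in the linear equation for the exponents `q` (of the
Noether coordinates of `Q`) and `β`. -/
noncomputable def MCA {e : ℕ} (ρ : REP K (k + 2) e) (j b : ℕ) (c : Fin (N + 1))
    (r' r : Fin (e₀ + 1)) (l : Fin (e + 1)) (q β a μ : Fin (k + 2) → ℕ) : K :=
  coeff (Finsupp.equivFunOnFinite.symm q)
    ((∏ t, X t ^ a t) * RR nd.Mx (cz (HA nd ρ j b c r l μ) β) r')

/-- The linear equations for the auxiliary polynomial: `m` blocks, `b = N' * 4 ^ J`,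
`b_i = N' * 4 ^ (J - j i)`, `T_i = 4 ^ (J - j i)`. -/
def CCA {e m : ℕ} (ρ : Fin m → REP K (k + 2) e) (N' J : ℕ) (j : Fin m → ℕ)
    (F : (Fin (k + 2) → ℕ) → (Fin m → Fin (k + 2) → ℕ) → K) : Prop :=
  ∀ (i : Fin m) (c : Fin (N + 1)) (r' r : Fin (e₀ + 1)) (l : Fin (e + 1))
    (q β : Fin (k + 2) → ℕ) (ν : Fin m → Fin (k + 2) → ℕ), β 0 + β 1 < 4 ^ (J - j i) →
    ∑ a ∈ box (fun _ : Fin (k + 2) => N' * 4 ^ J + 1),
      ∑ μ ∈ box (fun _ : Fin (k + 2) => N' * 4 ^ (J - j i) + 1),
        F a (Function.update ν i μ) *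
          MCA nd (ρ i) (j i) (N' * 4 ^ (J - j i)) c r' r l q β a μ = 0

end

end Pool.Agent.Lib.MP_17a322_nt.VA
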