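import Pool.Agent.Lib.MP_17a322_nt.VA.C0
import Pool.Agent.Lib.MP_17a322_nt.VN.C10

/-!
# JOB VA C10: counting the equations

PROOF. Model: `count_rows` (VN/C10.lean) with general constants: `G` instead of `2 ^ (k+2) * (2 ^ (k+2) * (e+1))`, `c₁` instead of `3`, `c₂` instead of `2 * (k+2) * D` (and `c₂ * (N * T)` in place of `2 * (k + 2) * (N * T) * D`). Copy `C10_row` and `count_rows`.
-/

universe u

namespace Pool.Agent.Lib.MP_17a322_nt.VA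

open MvPolynomial Height
open Pool.Agent.Lib.MP_17a322_nt.RO
open Pool.Agent.Lib.MP_17a322_nt.VJ
open Pool.Agent.Lib.MP_17a322_nt.VN

/-- one block of equations -/
private theorem C10_rowA (G c₁ c₂ k m N J : ℕ) (j : Fin m → ℕ) (hN : 1 ≤ N) (hc₁ : 1 ≤ c₁)
    (i : Fin m) :
    N ^ 2 * (G * ((c₁ * (N * 4 ^ J) + 1) ^ (k + 2) *
      ((4 ^ (J - j i) * 4 ^ (J - j i) * (c₂ * (N * 4 ^ (J - j i)) + 1) ^ k) *
        ∏ i', (if i' = i then 1 else N * 4 ^ (J - j i') + 1) ^ (k + 2)))) ≤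
      (G * c₁ ^ (k + 2) * (c₂ + 1) ^ k) *
        ((N * 4 ^ J + 1) ^ (k + 2) * ∏ i, (N * 4 ^ (J - j i) + 1) ^ (k + 2)) := by
  have hT : 1 ≤ 4 ^ (J - j i) := Nat.one_le_pow _ _ (by norm_num)
  have hprod : (∏ i', (N * 4 ^ (J - j i') + 1) ^ (k + 2)) =
      (N * 4 ^ (J - j i) + 1) ^ (k + 2) *
        ∏ i', (if i' = i then 1 else N * 4 ^ (J - j i') + 1) ^ (k + 2) := by
    rw [← Finset.mul_prod_erase Finset.univ (fun i' => (N * 4 ^ (J - j i') + 1) ^ (k + 2))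
      (Finset.mem_univ i), ← Finset.mul_prod_erase Finset.univ
      (fun i' => (if i' = i then 1 else N * 4 ^ (J - j i') + 1) ^ (k + 2)) (Finset.mem_univ i)]
    rw [if_pos rfl, one_pow, one_mul]
    refine congrArg _ (Finset.prod_congr rfl fun i' hi' => ?_)
    rw [if_neg (Finset.ne_of_mem_erase hi')]
  rw [hprod]
  generalize (∏ i', (if i' = i then 1 else N * 4 ^ (J - j i') + 1) ^ (k + 2)) = Q
  generalize 4 ^ (J - j i) = T at hT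
  generalize N * 4 ^ J = B
  have hb : 1 ≤ N * T := Nat.one_le_iff_ne_zero.2 (Nat.mul_ne_zero (by omega) (by omega))
  have h1 : (c₁ * B + 1) ^ (k + 2) ≤ c₁ ^ (k + 2) * (B + 1) ^ (k + 2) := by
    rw [← mul_pow]
    refine Nat.pow_le_pow_left ?_ _
    rw [mul_add, mul_one]
    omega
  have h2 : (c₂ * (N * T) + 1) ^ k ≤ (c₂ + 1) ^ k * (N * T) ^ k := by
    rw [← mul_pow]
    refine Nat.pow_le_pow_left ?_ _
    rw [add_mul, one_mul]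
    omega
  have h3 : N ^ 2 * (T * T) * (N * T) ^ k ≤ (N * T + 1) ^ (k + 2) := by
    calc N ^ 2 * (T * T) * (N * T) ^ k = (N * T) ^ (k + 2) := by rw [pow_add]; ring
      _ ≤ (N * T + 1) ^ (k + 2) := Nat.pow_le_pow_left (by omega) _
  have h4 : N ^ 2 * (T * T) * (c₂ * (N * T) + 1) ^ k ≤ (c₂ + 1) ^ k * (N * T + 1) ^ (k + 2) := by
    calc N ^ 2 * (T * T) * (c₂ * (N * T) + 1) ^ k
        ≤ N ^ 2 * (T * T) * ((c₂ + 1) ^ k * (N * T) ^ k) := Nat.mul_le_mul_left _ h2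
      _ = (c₂ + 1) ^ k * (N ^ 2 * (T * T) * (N * T) ^ k) := by ring
      _ ≤ _ := Nat.mul_le_mul_left _ h3
  calc N ^ 2 * (G * ((c₁ * B + 1) ^ (k + 2) * ((T * T * (c₂ * (N * T) + 1) ^ k) * Q)))
      = (G * Q) * ((c₁ * B + 1) ^ (k + 2) * (N ^ 2 * (T * T) * (c₂ * (N * T) + 1) ^ k)) := by ring
    _ ≤ (G * Q) * ((c₁ ^ (k + 2) * (B + 1) ^ (k + 2)) * ((c₂ + 1) ^ k * (N * T + 1) ^ (k + 2))) :=
        Nat.mul_le_mul_left _ (Nat.mul_le_mul h1 h4)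
    _ = _ := by ring

theorem count_rowsA (G c₁ c₂ k m N J : ℕ) (j : Fin m → ℕ) (hN : 1 ≤ N) (hc₁ : 1 ≤ c₁)
    (h : 2 * m * (G * c₁ ^ (k + 2) * (c₂ + 1) ^ k) ≤ N ^ 2) :
    2 * ∑ i, (G * ((c₁ * (N * 4 ^ J) + 1) ^ (k + 2) *
      ((4 ^ (J - j i) * 4 ^ (J - j i) * (c₂ * (N * 4 ^ (J - j i)) + 1) ^ k) *
        ∏ i', (if i' = i then 1 else N * 4 ^ (J - j i') + 1) ^ (k + 2)))) ≤
      (N * 4 ^ J + 1) ^ (k + 2) * ∏ i, (N * 4 ^ (J - j i) + 1) ^ (k + 2) := by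
  have h1 := Finset.sum_le_sum fun (i : Fin m) (_ : i ∈ Finset.univ) =>
    C10_rowA G c₁ c₂ k m N J j hN hc₁ i
  rw [← Finset.mul_sum, Finset.sum_const, Finset.card_univ, Fintype.card_fin, smul_eq_mul] at h1
  have hN2 : 0 < N ^ 2 := by positivity
  refine Nat.le_of_mul_le_mul_left ?_ hN2
  generalize (∑ i, (G * ((c₁ * (N * 4 ^ J) + 1) ^ (k + 2) *
      ((4 ^ (J - j i) * 4 ^ (J - j i) * (c₂ * (N * 4 ^ (J - j i)) + 1) ^ k) *
        ∏ i', (if i' = i then 1 else N * 4 ^ (J - j i') + 1) ^ (k + 2))))) = S at h1 ⊢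
  generalize (N * 4 ^ J + 1) ^ (k + 2) * ∏ i, (N * 4 ^ (J - j i) + 1) ^ (k + 2) = U at h1 ⊢
  calc N ^ 2 * (2 * S) = 2 * (N ^ 2 * S) := by ring
    _ ≤ 2 * (m * ((G * c₁ ^ (k + 2) * (c₂ + 1) ^ k) * U)) := Nat.mul_le_mul_left _ h1
    _ = (2 * m * (G * c₁ ^ (k + 2) * (c₂ + 1) ^ k)) * U := by ring
    _ ≤ N ^ 2 * U := Nat.mul_le_mul_right _ h

end Pool.Agent.Lib.MP_17a322_nt.VA
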