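import Pool.Agent.Lib.MP_17a322_nt.VA.C5a
import Pool.Agent.Lib.MP_17a322_nt.VA.C6

/-!
# JOB VA C11a: the entries of the matrix

PROOFS. Write `b = N' * 4 ^ (J - j)`, so `b * 4 ^ j = N' * 4 ^ J`. `P = HA nd ρ j b c r l μ`, `BD P (2 * (n * (b * 4 ^ j))) (2 * (n * b) * nd.DM * D)` (`HA_BD`). `MCA_zero`: if the coefficient is not zero then `RR nd.Mx (cz P β) r' ≠ 0`, so `cz P β ≠ 0` (`RR` of `0` is `0`), so `∑ β t ≤ 2 * (n * b) * nd.DM * D` (`cz_ne_zero`);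
and `q` is the sum of `a` and an exponent of `RR ..` (`coeff` of a product with a monomial, or: `q t ≤ degreeOf t (∏ X ^ a * RR) ≤ a t + totalDegree (RR ..)`; `degreeOf_mul_le`, `degreeOf_le_totalDegree`, model `MC_zero` in VN/C11), `totalDegree (RR ..) ≤ 2 * (n * (b * 4 ^ j)) * nd.DM` (`RR_total`, `cz_support`, `le_DM`).
`exists_MCA_le`: `v (coeff _ Q) ≤ NV v Q` (`coeff_le_NV`), the monomial has size `1` (`SN_NV v`, `prod_le`, `pow_le`, `NV_X`, as `MC_le` in VN/C11), `RR_NV` with `d = 2 * (n * (b * 4 ^ j))` and `B` a common size constant of the `NV v (nd.Mx ..)`: factor `(cst v (e₀ + 1) * B) ^ (2 * n * (b * 4 ^ j))`, `cz_NV`, `exists_HA_NV` for `L = K`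
(`Algebra.algebraMap_self`, `MvPolynomial.map_id`; `ρ.map (algebraMap K K)` has the same `RB` as `ρ`: unfold `REP.RB`, `REP.map`, `MvPolynomial.map_id`).
-/

universe u

namespace Pool.Agent.Lib.MP_17a322_nt.VA

open MvPolynomial Height
open Pool.Agent.Lib.MP_17a322_nt.RO
open Pool.Agent.Lib.MP_17a322_nt.VJ
open Pool.Agent.Lib.MP_17a322_nt.VN

theorem C11a_degree_prod {K : Type*} [Field K] {n : ℕ} (a : Fin n → ℕ) (y : Fin n) :
    degreeOf y (∏ t, (X t : MvPolynomial (Fin n) K) ^ a t) ≤ a y := by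
  classical
  refine (degreeOf_prod_le _ _ _).trans ?_
  have h1 : ∀ t ∈ (Finset.univ : Finset (Fin n)),
      degreeOf y ((X t : MvPolynomial (Fin n) K) ^ a t) ≤ if y = t then a t else 0 := by
    intro t _
    refine (degreeOf_pow_le _ _ _).trans ?_
    rw [degreeOf_X]
    split_ifs
    · rw [mul_one]
    · rw [mul_zero]
  refine (Finset.sum_le_sum h1).trans ?_
  rw [Finset.sum_ite_eq Finset.univ y a, if_pos (Finset.mem_univ _)]

theorem C11a_prod_NV {K : Type*} [Field K] (v : AbsoluteValue K ℝ) {n : ℕ} (a : Fin n → ℕ) :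
    NV v (∏ t, (X t : MvPolynomial (Fin n) K) ^ a t) ≤ 1 := by
  classical
  have h6 : ∏ t, (X t : MvPolynomial (Fin n) K) ^ a t =
      monomial (Finsupp.equivFunOnFinite.symm a) 1 := by
    rw [monomial_eq, Finsupp.prod_fintype _ _ (fun i => pow_zero _), C_1, one_mul]
    rfl
  rw [h6, NV_monomial, map_one]

theorem C11a_exists_Deg {K : Type*} [Field K] {n e : ℕ} (ρ : REP K n e) : ∃ D, ρ.Deg D := by
  classical
  refine ⟨∑ j, (ρ.z j).totalDegree + ∑ l, (ρ.w l).totalDegree +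
    ∑ j, ∑ l, ∑ m, (ρ.M j l m).totalDegree, fun j => ?_, fun l => ?_, fun j l m => ?_⟩
  · have h1 : (ρ.z j).totalDegree ≤ ∑ j, (ρ.z j).totalDegree :=
      Finset.single_le_sum (f := fun j => (ρ.z j).totalDegree) (fun _ _ => Nat.zero_le _)
        (Finset.mem_univ j)
    omega
  · have h1 : (ρ.w l).totalDegree ≤ ∑ l, (ρ.w l).totalDegree :=
      Finset.single_le_sum (f := fun l => (ρ.w l).totalDegree) (fun _ _ => Nat.zero_le _)
        (Finset.mem_univ l)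
    omega
  · have h1 : (ρ.M j l m).totalDegree ≤ ∑ m, (ρ.M j l m).totalDegree :=
      Finset.single_le_sum (f := fun m => (ρ.M j l m).totalDegree) (fun _ _ => Nat.zero_le _)
        (Finset.mem_univ m)
    have h2 : ∑ m, (ρ.M j l m).totalDegree ≤ ∑ l, ∑ m, (ρ.M j l m).totalDegree :=
      Finset.single_le_sum (f := fun l => ∑ m, (ρ.M j l m).totalDegree)
        (fun _ _ => Nat.zero_le _) (Finset.mem_univ l)
    have h3 : ∑ l, ∑ m, (ρ.M j l m).totalDegree ≤ ∑ j, ∑ l, ∑ m, (ρ.M j l m).totalDegree :=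
      Finset.single_le_sum (f := fun j => ∑ l, ∑ m, (ρ.M j l m).totalDegree)
        (fun _ _ => Nat.zero_le _) (Finset.mem_univ j)
    omega

theorem C11a_RR_zero {K : Type*} [CommRing K] {a n e : ℕ}
    (M : Fin a → Matrix (Fin (e + 1)) (Fin (e + 1)) (MvPolynomial (Fin n) K))
    (l : Fin (e + 1)) : RR M (0 : MvPolynomial (Fin a) K) l = 0 := by
  unfold RR
  rw [support_zero, Finset.sum_empty]

section

variable {K : Type u} [Field K] {N : ℕ} {A : AV K N} {k e₀ : ℕ} (nd : Noe A (k + 2) e₀)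

theorem MCA_zero {e : ℕ} (ρ : REP K (k + 2) e) {D : ℕ} (hD : ρ.Deg D) {N' J j : ℕ} (hj : j ≤ J)
    (c : Fin (N + 1)) (r' r : Fin (e₀ + 1)) (l : Fin (e + 1)) (q β a μ : Fin (k + 2) → ℕ)
    (ha : a ∈ box (fun _ : Fin (k + 2) => N' * 4 ^ J + 1))
    (hμ : μ ∈ box (fun _ : Fin (k + 2) => N' * 4 ^ (J - j) + 1))
    (h : MCA nd ρ j (N' * 4 ^ (J - j)) c r' r l q β a μ ≠ 0) :
    q ∈ box (fun _ : Fin (k + 2) => (2 * (k + 2) * nd.DM + 1) * (N' * 4 ^ J) + 1) ∧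
      ∀ t, β t < 2 * (k + 2) * nd.DM * D * (N' * 4 ^ (J - j)) + 1 := by
  classical
  have hμ' : ∀ t, μ t ≤ N' * 4 ^ (J - j) := fun t => Nat.lt_succ_iff.1 ((mem_box _ _).1 hμ t)
  have ha' : ∀ t, a t ≤ N' * 4 ^ J := fun t => Nat.lt_succ_iff.1 ((mem_box _ _).1 ha t)
  have hbj : N' * 4 ^ (J - j) * 4 ^ j = N' * 4 ^ J := by
    rw [mul_assoc, ← pow_add, Nat.sub_add_cancel hj]
  have hBD := HA_BD nd ρ hD j (N' * 4 ^ (J - j)) c r l μ hμ'
  rw [hbj] at hBD
  unfold MCA at h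
  set P := HA nd ρ j (N' * 4 ^ (J - j)) c r l μ with hP
  set b := N' * 4 ^ (J - j) with hb
  set B := N' * 4 ^ J with hB
  have hcz : cz P β ≠ 0 := by
    intro h0
    rw [h0, C11a_RR_zero, mul_zero, coeff_zero] at h
    exact h rfl
  have hβ := cz_ne_zero hBD hcz
  have hRR : (RR nd.Mx (cz P β) r').totalDegree ≤ 2 * ((k + 2) * B) * nd.DM :=
    RR_total nd.Mx (cz_support hBD β) (fun a r m => le_DM nd a r m) r'
  refine ⟨(mem_box _ _).2 fun t => ?_, fun t => ?_⟩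
  · have h1 := monomial_le_degreeOf t (mem_support_iff.2 h)
    have h2 : (Finsupp.equivFunOnFinite.symm q) t = q t := rfl
    rw [h2] at h1
    have h3 : q t ≤ a t + degreeOf t (RR nd.Mx (cz P β) r') :=
      h1.trans ((degreeOf_mul_le _ _ _).trans (Nat.add_le_add_right (C11a_degree_prod a t) _))
    have h4 := (degreeOf_le_totalDegree (RR nd.Mx (cz P β) r') t).trans hRR
    have h5 := ha' t
    have h6 : (2 * (k + 2) * nd.DM + 1) * B = B + 2 * ((k + 2) * B) * nd.DM := by ring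
    rw [h6]
    omega
  · have h1 : β t ≤ ∑ t, β t :=
      Finset.single_le_sum (f := β) (fun _ _ => Nat.zero_le _) (Finset.mem_univ t)
    have h2 : 2 * (k + 2) * nd.DM * D * b = 2 * ((k + 2) * b) * nd.DM * D := by ring
    rw [h2]
    omega

theorem exists_MCA_le : ∃ E : SC K, ∀ (v : AbsoluteValue K ℝ) {e : ℕ} (ρ : REP K (k + 2) e)
    (j b : ℕ) (c : Fin (N + 1)) (r' r : Fin (e₀ + 1)) (l : Fin (e + 1))
    (q β a μ : Fin (k + 2) → ℕ), (∀ t, μ t ≤ b) →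
    v (MCA nd ρ j b c r' r l q β a μ) ≤
      E.k v ^ (b * 4 ^ j) * (cst v (e + 1) * ρ.RB v) ^ (2 * (k + 2) * nd.DM * b) := by
  classical
  obtain ⟨E3, hE3⟩ := exists_HA_NV nd
  obtain ⟨n1, S1, k1, hn1, hfam⟩ := Adm.family.{u, u} (K := K)
    (ι := Fin (N + 1) × Fin (e₀ + 1) × Fin (e₀ + 1))
    (fun i L _ _ v => Max.max 1 (NV v (MvPolynomial.map (algebraMap K L)
      (nd.Mx i.1 i.2.1 i.2.2)))) (fun i => Adm_NV (nd.Mx i.1 i.2.1 i.2.2))
  obtain ⟨Ec, hEc⟩ := (Adm_cst.{u, u} (K := K) (e₀ + 1)).exists_SC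
  set E0 : SC K := scOf n1 S1 k1 with hE0
  set E1 : SC K := Ec.mul E0 with hE1
  refine ⟨E3.mul (E1.pw (2 * (k + 2))), ?_⟩
  intro v e ρ j b c r' r l q β a μ hμ
  have hS := SN_NV v (σ := Fin (k + 2))
  obtain ⟨D, hD⟩ := C11a_exists_Deg ρ
  have hBD := HA_BD nd ρ hD j b c r l μ hμ
  have hM : ∀ i r m, NV v (nd.Mx i r m) ≤ E0.k v := by
    intro i r m
    have h1 := hfam (i, r, m) K v
    have h2 : NV v (nd.Mx i r m) ≤ cc n1 S1 v ^ k1 := by
      refine (le_max_right 1 _).trans ?_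
      simpa only [Algebra.algebraMap_self, MvPolynomial.map_id] using h1
    exact h2.trans (le_scOf hn1 S1 k1 v)
  have hMC : v (MCA nd ρ j b c r' r l q β a μ) ≤ NV v (RR nd.Mx
      (cz (HA nd ρ j b c r l μ) β) r') := by
    unfold MCA
    refine (coeff_le_NV v _ _).trans ((hS.mul _ _).trans ?_)
    refine (mul_le_mul_of_nonneg_right (C11a_prod_NV v a) (hS.nonneg _)).trans ?_
    rw [one_mul]
  have hRR := RR_NV v nd.Mx (cz_support hBD β) (E0.one_le v) hM r'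
  have hcz := cz_NV v (HA nd ρ j b c r l μ) β
  have hHA := hE3 (L := K) v ρ j b c r l μ hμ
  have hid : MvPolynomial.map (algebraMap K K) (HA nd ρ j b c r l μ) = HA nd ρ j b c r l μ := by
    rw [Algebra.algebraMap_self, MvPolynomial.map_id]
  rw [hid] at hHA
  have hRB : (ρ.map (algebraMap K K)).RB v = ρ.RB v := by
    unfold REP.RB REP.map
    simp only [Algebra.algebraMap_self, MvPolynomial.map_id]
  rw [hRB] at hHA
  have hc1 : 0 ≤ cst v (e + 1) * ρ.RB v :=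
    mul_nonneg (cst_nonneg v _) (zero_le_one.trans (one_le_RB ρ v))
  have hc2 : 0 ≤ cst v (e₀ + 1) * E0.k v := mul_nonneg (cst_nonneg v _) (E0.pos v).le
  have hc3 : cst v (e₀ + 1) * E0.k v ≤ E1.k v :=
    (mul_le_mul_of_nonneg_right (hEc K v) (E0.pos v).le).trans (Ec.mul_le E0 v)
  have hc4 : (cst v (e₀ + 1) * E0.k v) ^ (2 * ((k + 2) * (b * 4 ^ j))) ≤
      (E1.pw (2 * (k + 2))).k v ^ (b * 4 ^ j) := by
    have h1 : 2 * ((k + 2) * (b * 4 ^ j)) = 2 * (k + 2) * (b * 4 ^ j) := by ring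
    rw [h1, pow_mul]
    exact pow_le_pow_left₀ (pow_nonneg hc2 _)
      ((pow_le_pow_left₀ hc2 hc3 _).trans (E1.pow_le _ v)) _
  have hc5 : 2 * ((k + 2) * b) * nd.DM = 2 * (k + 2) * nd.DM * b := by ring
  rw [hc5] at hHA
  calc v (MCA nd ρ j b c r' r l q β a μ)
      ≤ NV v (RR nd.Mx (cz (HA nd ρ j b c r l μ) β) r') := hMC
    _ ≤ NV v (cz (HA nd ρ j b c r l μ) β) *
        (cst v (e₀ + 1) * E0.k v) ^ (2 * ((k + 2) * (b * 4 ^ j))) := hRR
    _ ≤ NV v (HA nd ρ j b c r l μ) *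
        (cst v (e₀ + 1) * E0.k v) ^ (2 * ((k + 2) * (b * 4 ^ j))) :=
          mul_le_mul_of_nonneg_right hcz (pow_nonneg hc2 _)
    _ ≤ (E3.k v ^ (b * 4 ^ j) * (cst v (e + 1) * ρ.RB v) ^ (2 * (k + 2) * nd.DM * b)) *
        (E1.pw (2 * (k + 2))).k v ^ (b * 4 ^ j) :=
          mul_le_mul hHA hc4 (pow_nonneg hc2 _)
            (mul_nonneg (pow_nonneg (E3.pos v).le _) (pow_nonneg hc1 _))
    _ = (E3.k v * (E1.pw (2 * (k + 2))).k v) ^ (b * 4 ^ j) *
        (cst v (e + 1) * ρ.RB v) ^ (2 * (k + 2) * nd.DM * b) := by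
          rw [mul_pow]
          ring
    _ ≤ _ := mul_le_mul_of_nonneg_right (pow_le_pow_left₀ (mul_pos (E3.pos v)
          ((E1.pw (2 * (k + 2))).pos v)).le (E3.mul_le _ v) _) (pow_nonneg hc1 _)

end

end Pool.Agent.Lib.MP_17a322_nt.VA
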