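import Pool.Agent.Lib.MP_17a322_nt.VA.C0

/-!
# JOB VA C1a: total degrees in two groups of variables

PROOFS. `BD.mono`, `BD.C`, `BD.X_inl`, `BD.X_inr`: supports (`support_C`, `support_X`, `Finsupp.single_apply`, `Finset.sum_ite_eq`). `BD.add`, `BD.sum`: `support_add`, `support_sum`. `BD.mul`: `support_mul` (a member of `P.support + Q.support`, `Finset.mem_add`), `Finset.sum_add_distrib`.
`BD.pow`, `BD.prod`: induction. `BD.aeval`: `aeval g P = ∑ m ∈ P.support, C (coeff m P) * ∏ i, g i ^ m i` (`aeval_def`, `eval₂_eq'`, `algebraMap_eq`); `Fintype.prod_sum_type`, `BD.mul`, `BD.prod`, `BD.pow`: the bidegree of the term `m` is at most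
`(∑ m (inl i) * p1 + ∑ m (inr i) * p2, ..)` (`Finset.sum_mul`).
-/

universe u

namespace Pool.Agent.Lib.MP_17a322_nt.VA

open MvPolynomial Height
open Pool.Agent.Lib.MP_17a322_nt.RO
open Pool.Agent.Lib.MP_17a322_nt.VJ
open Pool.Agent.Lib.MP_17a322_nt.VN

section

variable {K σ τ : Type*} [CommRing K] [Fintype σ] [Fintype τ] {P Q : MvPolynomial (σ ⊕ τ) K}
  {p q p' q' : ℕ}

theorem BD.mono (h : BD P p q) (hp : p ≤ p') (hq : q ≤ q') : BD P p' q' := by
  intro m hm
  exact ⟨(h m hm).1.trans hp, (h m hm).2.trans hq⟩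

theorem BD.C (a : K) (p q : ℕ) : BD (MvPolynomial.C a : MvPolynomial (σ ⊕ τ) K) p q := by
  intro m hm
  classical
  have hm' := hm
  rw [MvPolynomial.mem_support_iff, MvPolynomial.coeff_C] at hm'
  have h0 : m = 0 := by
    by_contra hne
    exact hm' (if_neg fun h => hne h.symm)
  subst h0
  simp

theorem BD.X_inl (t : σ) (q : ℕ) : BD (X (Sum.inl t) : MvPolynomial (σ ⊕ τ) K) 1 q := by
  intro m hm
  classical
  rw [MvPolynomial.mem_support_iff, MvPolynomial.coeff_X] at hm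
  have h0 : Finsupp.single (Sum.inl t) 1 = m := by
    by_contra hne
    exact hm (if_neg hne)
  subst h0
  simp [Finsupp.single_apply]

theorem BD.X_inr (t : τ) (p : ℕ) : BD (X (Sum.inr t) : MvPolynomial (σ ⊕ τ) K) p 1 := by
  intro m hm
  classical
  rw [MvPolynomial.mem_support_iff, MvPolynomial.coeff_X] at hm
  have h0 : Finsupp.single (Sum.inr t) 1 = m := by
    by_contra hne
    exact hm (if_neg hne)
  subst h0
  simp [Finsupp.single_apply]

theorem BD.add (hP : BD P p q) (hQ : BD Q p q) : BD (P + Q) p q := by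
  intro m hm
  classical
  rcases Finset.mem_union.mp (MvPolynomial.support_add hm) with h | h
  · exact hP m h
  · exact hQ m h

theorem BD.sum {ι : Type*} (s : Finset ι) (f : ι → MvPolynomial (σ ⊕ τ) K)
    (h : ∀ i ∈ s, BD (f i) p q) : BD (∑ i ∈ s, f i) p q := by
  intro m hm
  rw [MvPolynomial.mem_support_iff, MvPolynomial.coeff_sum] at hm
  obtain ⟨i, hi, hne⟩ := Finset.exists_ne_zero_of_sum_ne_zero hm
  exact h i hi m (MvPolynomial.mem_support_iff.mpr hne)

theorem BD.mul (hP : BD P p q) (hQ : BD Q p' q') : BD (P * Q) (p + p') (q + q') := by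
  intro m hm
  classical
  obtain ⟨a, ha, b, hb, rfl⟩ := Finset.mem_add.mp (MvPolynomial.support_mul P Q hm)
  have h1 := hP a ha
  have h2 := hQ b hb
  simp only [Finsupp.add_apply, Finset.sum_add_distrib]
  exact ⟨Nat.add_le_add h1.1 h2.1, Nat.add_le_add h1.2 h2.2⟩

theorem BD.pow (hP : BD P p q) (k : ℕ) : BD (P ^ k) (k * p) (k * q) := by
  induction k with
  | zero =>
    rw [pow_zero, ← MvPolynomial.C_1]
    exact BD.C 1 _ _
  | succ k ih =>
    rw [pow_succ, Nat.succ_mul, Nat.succ_mul]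
    exact ih.mul hP

theorem BD.prod {ι : Type*} (s : Finset ι) (f : ι → MvPolynomial (σ ⊕ τ) K) (p q : ι → ℕ)
    (h : ∀ i ∈ s, BD (f i) (p i) (q i)) :
    BD (∏ i ∈ s, f i) (∑ i ∈ s, p i) (∑ i ∈ s, q i) := by
  classical
  induction s using Finset.induction_on with
  | empty =>
    rw [Finset.prod_empty, ← MvPolynomial.C_1]
    exact BD.C 1 _ _
  | insert a s ha ih =>
    rw [Finset.prod_insert ha, Finset.sum_insert ha, Finset.sum_insert ha]
    exact (h a (Finset.mem_insert_self a s)).mul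
      (ih fun i hi => h i (Finset.mem_insert_of_mem hi))

theorem BD.aeval {σ' τ' : Type*} [Fintype σ'] [Fintype τ'] {F : MvPolynomial (σ' ⊕ τ') K}
    {d1 d2 : ℕ} (hF : BD F d1 d2) (g : σ' ⊕ τ' → MvPolynomial (σ ⊕ τ) K) {p1 q1 p2 q2 : ℕ}
    (h1 : ∀ i, BD (g (Sum.inl i)) p1 q1) (h2 : ∀ i, BD (g (Sum.inr i)) p2 q2) :
    BD (MvPolynomial.aeval g F) (d1 * p1 + d2 * p2) (d1 * q1 + d2 * q2) := by
  classical
  rw [MvPolynomial.aeval_def, MvPolynomial.eval₂_eq', MvPolynomial.algebraMap_eq]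
  refine BD.sum _ _ fun m hm => ?_
  rw [Fintype.prod_sum_type]
  have hm' := hF m hm
  have e1 : BD (∏ i, g (Sum.inl i) ^ m (Sum.inl i)) (∑ i, m (Sum.inl i) * p1)
      (∑ i, m (Sum.inl i) * q1) :=
    BD.prod Finset.univ _ _ _ fun i _ => (h1 i).pow _
  have e2 : BD (∏ i, g (Sum.inr i) ^ m (Sum.inr i)) (∑ i, m (Sum.inr i) * p2)
      (∑ i, m (Sum.inr i) * q2) :=
    BD.prod Finset.univ _ _ _ fun i _ => (h2 i).pow _
  have e3 := (BD.C (σ := σ) (τ := τ) (coeff m F) 0 0).mul (e1.mul e2)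
  refine e3.mono ?_ ?_
  · rw [zero_add, ← Finset.sum_mul, ← Finset.sum_mul]
    exact Nat.add_le_add (Nat.mul_le_mul_right _ hm'.1) (Nat.mul_le_mul_right _ hm'.2)
  · rw [zero_add, ← Finset.sum_mul, ← Finset.sum_mul]
    exact Nat.add_le_add (Nat.mul_le_mul_right _ hm'.1) (Nat.mul_le_mul_right _ hm'.2)

end

end Pool.Agent.Lib.MP_17a322_nt.VA
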