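import Pool.Agent.Lib.MP_17a322_nt.VA.C1a

/-!
# JOB VA C1b: the degrees of the block polynomials

PROOFS. `S_BD`: `A.bihomog`. `mu_BD`: induction on `j` with `A.mu_succ`, `AV.dup`: `BD.aeval` for `S a b₀` (`S_BD`): `2 * p + 2 * p = 4 * p`. `EA_BD`: `lf` is a sum of constants times values; `algebraMap K (MvPolynomial ..) = C`; `BD.aeval` with
`inl ↦ y` (bidegree `(0, 1)`), `inr ↦ mu` (bidegree `(4 ^ j, 0)`): `(2 * 0 + 2 * 4 ^ j, 2 * 1 + 2 * 0)`. `UUA_BD`: product over `t` of `EA t.succ ^ ν t * EA 0 ^ (b - ν t)`, of bidegree at most `(b * (2 * 4 ^ j), b * 2)` (`BD.pow`, `BD.mul`, `ν t + (b - ν t) = b`), `BD.prod`,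
`Finset.sum_const`, `BD.mono`.
-/

universe u

namespace Pool.Agent.Lib.MP_17a322_nt.VA

open MvPolynomial Height
open Pool.Agent.Lib.MP_17a322_nt.RO
open Pool.Agent.Lib.MP_17a322_nt.VJ
open Pool.Agent.Lib.MP_17a322_nt.VN

section

variable {K : Type u} [Field K] {N : ℕ} (A : AV K N)

theorem S_BD (a b : Fin (N + 1)) : BD (A.S a b) 2 2 := by
  intro m hm
  have h := A.bihomog a b m hm
  exact ⟨h.1.le, h.2.le⟩

theorem mu_BD (j : ℕ) (a : Fin (N + 1)) :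
    BD (A.mu j (fun a => (X (Sum.inl a) : MvPolynomial (Fin (N + 1) ⊕ Fin (N + 1)) K)) a)
      (4 ^ j) 0 := by
  induction j generalizing a with
  | zero =>
    rw [pow_zero]
    exact BD.X_inl a 0
  | succ j ih =>
    rw [A.mu_succ]
    refine (BD.aeval (S_BD A a A.b₀) _ (p1 := 4 ^ j) (q1 := 0) (p2 := 4 ^ j) (q2 := 0) ih ih).mono
      ?_ ?_
    · rw [pow_succ]
      omega
    · omega

theorem EA_BD {n : ℕ} (l : Fin (n + 1) → Fin (N + 1) → K) (j : ℕ) (c : Fin (N + 1))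
    (k : Fin (n + 1)) :
    BD (EA A l j c (fun a => (X (Sum.inl a) : MvPolynomial (Fin (N + 1) ⊕ Fin (N + 1)) K))
      (fun a => X (Sum.inr a)) k) (2 * 4 ^ j) 2 := by
  unfold EA lf
  refine BD.sum _ _ fun b _ => ?_
  rw [MvPolynomial.algebraMap_eq]
  refine ((BD.C (l k b) 0 0).mul (BD.aeval (S_BD A c b) _ (p1 := 0) (q1 := 1) (p2 := 4 ^ j)
    (q2 := 0) (fun i => BD.X_inr i 0) (fun i => mu_BD A j i))).mono ?_ ?_
  · omega
  · omega

theorem UUA_BD {n : ℕ} (l : Fin (n + 1) → Fin (N + 1) → K) (j b : ℕ) (c : Fin (N + 1))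
    (ν : Fin n → ℕ) (hν : ∀ t, ν t ≤ b) :
    BD (UUA A l j b c ν) (2 * (n * (b * 4 ^ j))) (2 * (n * b)) := by
  unfold UUA UVA
  refine (BD.prod Finset.univ _ (fun _ => b * (2 * 4 ^ j)) (fun _ => b * 2) fun t _ => ?_).mono ?_ ?_
  · refine (((EA_BD A l j c t.succ).pow (ν t)).mul ((EA_BD A l j c 0).pow (b - ν t))).mono ?_ ?_
    · rw [← add_mul, Nat.add_sub_cancel' (hν t)]
    · rw [← add_mul, Nat.add_sub_cancel' (hν t)]
  · rw [Finset.sum_const, Finset.card_univ, Fintype.card_fin, smul_eq_mul]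
    apply le_of_eq
    ring
  · rw [Finset.sum_const, Finset.card_univ, Fintype.card_fin, smul_eq_mul]
    apply le_of_eq
    ring

end

end Pool.Agent.Lib.MP_17a322_nt.VA
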