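import Pool.Agent.Lib.MP_17a322_nt.VA.C2
import Pool.Agent.Lib.MP_17a322_nt.VA.C7

/-!
# JOB VA C8: the estimate of a block with gain

PROOF. Model: `block_gain` (VN/L1k), here much simpler (no square roots, one factor `d`). `block_sumA` (C2): the left side is `μ (d ^ ((k+2) * b) * ∑ Φ ν * UVA ν) ≤ μ d ^ ((k+2) b) * (bound of exists_ORDA_estimate with ω = kk)`. `(kk * X / M ^ 2) ^ (n b) * y ^ (2 n b 4 ^ j)` with `y = max 1 (vm v x0)`,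
`y ^ (4 ^ j) ≤ kk ^ (4 ^ j) * M`: `y ^ (2 n b 4 ^ j) ≤ (kk ^ (4 ^ j) * M) ^ (2 n b)`, so the product is `≤ (kk * X) ^ (n b) * kk ^ (2 n (b 4 ^ j))`. `cst v 2 ≤ kk` (`hc2`), so `(cst v 2 * cst v (e+1) * RB * κ * kk) ^ (a b) ≤ kk ^ (2 a b) * (cst v (e+1) * RB * κ) ^ (a b)`; all powers of `kk` together:
exponent `≤ a' * (b * 4 ^ j)` with `a' = n + 2 n + 2 a` (`b ≤ b * 4 ^ j`). Take `E` from C7 and `a'' = max`/sum.
-/

universe u

namespace Pool.Agent.Lib.MP_17a322_nt.VA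

open MvPolynomial Height
open Pool.Agent.Lib.MP_17a322_nt.RO
open Pool.Agent.Lib.MP_17a322_nt.VJ
open Pool.Agent.Lib.MP_17a322_nt.VN

private theorem C8_num {B Ek y0 kk X M c2 ce RB κ dT PD MS : ℝ} {n b f a : ℕ} (hf : 1 ≤ f)
    (hB : 0 ≤ B) (hE : 1 ≤ Ek) (hy : 1 ≤ y0) (hkk : 1 ≤ kk) (hX : 1 ≤ X) (hM : 0 < M)
    (hc2 : 0 ≤ c2) (hc2k : c2 ≤ kk) (hce : 1 ≤ ce) (hRB : 1 ≤ RB) (hκ : 1 ≤ κ) (hdT : 0 ≤ dT)
    (hyM : y0 ^ f ≤ kk ^ f * M) (hPD0 : 0 ≤ PD) (hPD : PD ≤ (kk * X / M ^ 2) ^ (n * b))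
    (hMS : MS ≤ B * Ek ^ (b * f) * y0 ^ (2 * (n * (b * f))) *
      (c2 * ce * RB * κ * kk) ^ (a * b) * dT) :
    PD * MS ≤ B * (Ek * kk) ^ ((3 * n + 2 * a + 1) * (b * f)) *
      (ce * RB * κ) ^ ((3 * n + 2 * a + 1) * b) * X ^ (n * b) * dT := by
  have hkk0 : 0 ≤ kk := zero_le_one.trans hkk
  have hy0 : 0 ≤ y0 := zero_le_one.trans hy
  have hE0 : 0 ≤ Ek := zero_le_one.trans hE
  have hX0 : 0 ≤ X := zero_le_one.trans hX
  have hce0 : 0 ≤ ce := zero_le_one.trans hce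
  have hRB0 : 0 ≤ RB := zero_le_one.trans hRB
  have hκ0 : 0 ≤ κ := zero_le_one.trans hκ
  have hW1 : 1 ≤ ce * RB * κ :=
    one_le_mul_of_one_le_of_one_le (one_le_mul_of_one_le_of_one_le hce hRB) hκ
  have hW0 : 0 ≤ ce * RB * κ := zero_le_one.trans hW1
  have hbf : b ≤ b * f := Nat.le_mul_of_pos_right b hf
  -- the power of `y0`
  have e1 : y0 ^ (2 * (n * (b * f))) ≤ kk ^ (2 * (n * (b * f))) * (M ^ 2) ^ (n * b) := by
    have h1 : 2 * (n * (b * f)) = f * (2 * (n * b)) := by ring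
    have h2 : (kk ^ f * M) ^ (2 * (n * b)) = kk ^ (f * (2 * (n * b))) * (M ^ 2) ^ (n * b) := by
      rw [mul_pow, ← pow_mul, pow_mul M 2]
    rw [h1, pow_mul y0 f, ← h2]
    exact pow_le_pow_left₀ (pow_nonneg hy0 _) hyM _
  have e2 : (kk * X / M ^ 2) ^ (n * b) * y0 ^ (2 * (n * (b * f))) ≤
      kk ^ (n * b + 2 * (n * (b * f))) * X ^ (n * b) := by
    have hM2 : (M ^ 2) ^ (n * b) ≠ 0 := pow_ne_zero _ (pow_ne_zero _ hM.ne')
    calc (kk * X / M ^ 2) ^ (n * b) * y0 ^ (2 * (n * (b * f))) ≤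
        (kk * X / M ^ 2) ^ (n * b) * (kk ^ (2 * (n * (b * f))) * (M ^ 2) ^ (n * b)) :=
          mul_le_mul_of_nonneg_left e1 (by positivity)
      _ = kk ^ (n * b + 2 * (n * (b * f))) * X ^ (n * b) := by
          rw [div_pow, mul_pow, pow_add]
          field_simp
  have e3 : (c2 * ce * RB * κ * kk) ^ (a * b) ≤ kk ^ (2 * (a * b)) * (ce * RB * κ) ^ (a * b) := by
    have h1 : c2 * ce * RB * κ * kk ≤ kk ^ 2 * (ce * RB * κ) := by
      calc c2 * ce * RB * κ * kk = c2 * (ce * RB * κ * kk) := by ring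
        _ ≤ kk * (ce * RB * κ * kk) := mul_le_mul_of_nonneg_right hc2k (by positivity)
        _ = kk ^ 2 * (ce * RB * κ) := by ring
    calc (c2 * ce * RB * κ * kk) ^ (a * b) ≤ (kk ^ 2 * (ce * RB * κ)) ^ (a * b) :=
          pow_le_pow_left₀ (by positivity) h1 _
      _ = kk ^ (2 * (a * b)) * (ce * RB * κ) ^ (a * b) := by rw [mul_pow, ← pow_mul]
  have e4 : (ce * RB * κ) ^ (a * b) ≤ (ce * RB * κ) ^ ((3 * n + 2 * a + 1) * b) :=
    pow_le_pow_right₀ hW1 (Nat.mul_le_mul_right b (by omega))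
  have e5 : Ek ^ (b * f) ≤ Ek ^ ((3 * n + 2 * a + 1) * (b * f)) :=
    pow_le_pow_right₀ hE (Nat.le_mul_of_pos_left _ (by omega))
  have e6 : kk ^ (n * b + 2 * (n * (b * f)) + 2 * (a * b)) ≤
      kk ^ ((3 * n + 2 * a + 1) * (b * f)) := by
    apply pow_le_pow_right₀ hkk
    have a1 : n * b ≤ n * (b * f) := Nat.mul_le_mul_left n hbf
    have a2 : a * b ≤ a * (b * f) := Nat.mul_le_mul_left a hbf
    have a3 : (3 * n + 2 * a + 1) * (b * f) = 3 * (n * (b * f)) + 2 * (a * (b * f)) + b * f := by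
      ring
    rw [a3]
    omega
  have hR0 : 0 ≤ B * Ek ^ (b * f) * y0 ^ (2 * (n * (b * f))) *
      (c2 * ce * RB * κ * kk) ^ (a * b) * dT := by positivity
  calc PD * MS ≤ PD * (B * Ek ^ (b * f) * y0 ^ (2 * (n * (b * f))) *
        (c2 * ce * RB * κ * kk) ^ (a * b) * dT) := mul_le_mul_of_nonneg_left hMS hPD0
    _ ≤ (kk * X / M ^ 2) ^ (n * b) * (B * Ek ^ (b * f) * y0 ^ (2 * (n * (b * f))) *
        (c2 * ce * RB * κ * kk) ^ (a * b) * dT) := mul_le_mul_of_nonneg_right hPD hR0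
    _ = ((kk * X / M ^ 2) ^ (n * b) * y0 ^ (2 * (n * (b * f)))) * (B * Ek ^ (b * f) * dT) *
        (c2 * ce * RB * κ * kk) ^ (a * b) := by ring
    _ ≤ (kk ^ (n * b + 2 * (n * (b * f))) * X ^ (n * b)) * (B * Ek ^ (b * f) * dT) *
        (kk ^ (2 * (a * b)) * (ce * RB * κ) ^ (a * b)) := by
        refine mul_le_mul ?_ e3 (by positivity) (by positivity)
        exact mul_le_mul_of_nonneg_right e2 (by positivity)
    _ = B * Ek ^ (b * f) * kk ^ (n * b + 2 * (n * (b * f)) + 2 * (a * b)) *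
        (ce * RB * κ) ^ (a * b) * (X ^ (n * b) * dT) := by
        rw [pow_add kk (n * b + 2 * (n * (b * f)))]
        ring
    _ ≤ B * Ek ^ ((3 * n + 2 * a + 1) * (b * f)) * kk ^ ((3 * n + 2 * a + 1) * (b * f)) *
        (ce * RB * κ) ^ ((3 * n + 2 * a + 1) * b) * (X ^ (n * b) * dT) := by
        refine mul_le_mul_of_nonneg_right ?_ (by positivity)
        refine mul_le_mul ?_ e4 (by positivity) (by positivity)
        refine mul_le_mul ?_ e6 (by positivity) (by positivity)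
        exact mul_le_mul_of_nonneg_left e5 hB
    _ = B * (Ek * kk) ^ ((3 * n + 2 * a + 1) * (b * f)) *
      (ce * RB * κ) ^ ((3 * n + 2 * a + 1) * b) * X ^ (n * b) * dT := by
        rw [mul_pow Ek kk]
        ring

theorem exists_block_gainA {K : Type u} [Field K] {N : ℕ} {A : AV K N} {k e₀ : ℕ}
    (nd : Noe A (k + 2) e₀) (D : ℕ) :
    ∃ (E : SC K) (a : ℕ), ∀ {L : Type u} [Field L] [Algebra K L] {v : AbsoluteValue L ℝ}
      {R : Type u} [CommRing R] [Algebra L R] [Algebra K R] [IsScalarTower K L R] {μ : R → ℝ},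
      SN v μ → ∀ {e : ℕ} (ρ : REP K (k + 2) e), ρ.Deg D → ∀ {j b T : ℕ}, 1 ≤ b →
      ∀ (Φ : (Fin (k + 2) → ℕ) → R) (x0 : Fin (N + 1) → L), ORDA nd ρ j b T Φ x0 →
      ∀ {B κ δ kk X M : ℝ}, (∀ ν ∈ box (fun _ : Fin (k + 2) => b + 1), μ (Φ ν) ≤ B) →
      1 ≤ κ → 0 < δ → δ ≤ 1 → cst v 2 ≤ kk → 1 ≤ kk → 1 ≤ X → 0 < M →
      max 1 (vm v x0) ^ 4 ^ j ≤ kk ^ 4 ^ j * M →
      ∀ (y : Fin (N + 1) → R), A.IsPt y → lf (nd.l 0) y = 1 → (∀ i, μ (y i) ≤ kk) →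
      μ (aeval (fun t : Fin (k + 2) => lf (nd.l t.succ) y) (ρ.z 0)) ≤ κ * δ →
      μ (aeval (fun t : Fin (k + 2) => lf (nd.l t.succ) y) (ρ.z 1)) ≤ κ * δ →
      ∀ (c : Fin (N + 1)) (ξ : Fin (k + 2) → R) (d : R),
      EA A nd.l j c (fun i => algebraMap L R (x0 i)) y 0 * d = 1 →
      (∀ t : Fin (k + 2), EA A nd.l j c (fun i => algebraMap L R (x0 i)) y t.succ * d = ξ t) →
      μ d ≤ kk * X / M ^ 2 →
      μ (∑ ν ∈ box (fun _ : Fin (k + 2) => b + 1), Φ ν * ∏ t, ξ t ^ ν t) ≤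
        B * (E.k v * kk) ^ (a * (b * 4 ^ j)) *
          (cst v (e + 1) * (ρ.map (algebraMap K L)).RB v * κ) ^ (a * b) *
            X ^ ((k + 2) * b) * δ ^ T := by
  obtain ⟨E, a, H⟩ := exists_ORDA_estimate nd D
  refine ⟨E, 3 * (k + 2) + 2 * a + 1, ?_⟩
  intro L _ _ v R _ _ _ _ μ h e ρ hD j b T hb Φ x0 hO B κ δ kk X M hBd hκ hδ hδ1 hc2 hkk hX hM
    hyM y hy hy0 hyk h0 h1 c ξ d hd hξ hds
  have hB0 : 0 ≤ B := C08_B_nonneg h.nonneg Φ hBd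
  rw [block_sumA A nd.l j b c Φ (fun i => algebraMap L R (x0 i)) y ξ d hd hξ]
  have hS := H h ρ hD hb Φ x0 hO hBd hkk hκ hδ hδ1 y hy hy0 hyk h0 h1 c
  refine (h.mul _ _).trans ?_
  exact C8_num (Nat.one_le_pow _ _ (by norm_num)) hB0 (SC.one_le E v) (le_max_left _ _) hkk hX hM
    (cst_nonneg v 2) hc2 (one_le_cst v (Nat.succ_le_succ (Nat.zero_le e)))
    (one_le_RB _ v) hκ (pow_nonneg hδ.le T) hyM (h.nonneg _)
    ((h.pow_le d _).trans (pow_le_pow_left₀ (h.nonneg d) hds _)) hS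


end Pool.Agent.Lib.MP_17a322_nt.VA
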