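import Pool.Agent.Lib.MP_17a322_nt.VA.C4a
import Pool.Agent.Lib.MP_17a322_nt.VA.C5a

/-!
# JOB VA C9: the vanishing conditions at a point

PROOF. Model: `ORD_of_CC` (VN/C09). Write `s t = lf (nd.l t.succ) x0`, `P μ = HA nd (ρ i) .. c r l μ`. The main point (for every `ν`): `∑ μ, (∑ a, (∏ t, s t ^ a t) * algebraMap K L (F a (update ν i μ))) * aeval x0 (cz (P μ) β) = 0` (and `coeff β (spA x0 (P μ)) = aeval x0 (cz (P μ) β)`, `coeff_spA` of C5a).
`RR_eval` (C4a) for `nd.Mx`, `u = x0`, `z = s`, `w r' = aeval x0 (nd.w r')` (`nd.w_zero`, `nd.rel L x0 hx hx0`): `aeval x0 (cz (P μ) β) = ∑ r', aeval x0 (nd.w r') * aeval s (RR nd.Mx (cz (P μ) β) r')`. So it is enough that for every `r'` the polynomial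
`Q := ∑ a, ∑ μ, C (F a (update ν i μ)) * ((∏ t, X t ^ a t) * RR nd.Mx (cz (P μ) β) r')` is `0` (then evaluate at `s`): its coefficient at `q` is the left side of the equation `hF i c r' r l q β ν hβ` (`MvPolynomial.ext`, `coeff_sum`, `coeff_C_mul`, `Finsupp.equivFunOnFinite`: every `s : Fin n →₀ ℕ` is `equivFunOnFinite.symm` of a function). Exchange of the sums
over `p`, `μ`, `a` as in `ORD_of_CC`.
-/

universe u

namespace Pool.Agent.Lib.MP_17a322_nt.VA

open MvPolynomial Height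
open Pool.Agent.Lib.MP_17a322_nt.RO
open Pool.Agent.Lib.MP_17a322_nt.VJ
open Pool.Agent.Lib.MP_17a322_nt.VN

theorem ORDA_of_CCA {K : Type u} [Field K] {N : ℕ} {A : AV K N} {k e₀ : ℕ}
    (nd : Noe A (k + 2) e₀) {L : Type u} [Field L] [Algebra K L] {R : Type*} [CommRing R]
    [Algebra L R] {m e : ℕ} (ρ : Fin m → REP K (k + 2) e) (N' J : ℕ) (j : Fin m → ℕ)
    (F : (Fin (k + 2) → ℕ) → (Fin m → Fin (k + 2) → ℕ) → K) (hF : CCA nd ρ N' J j F)
    (x0 : Fin (N + 1) → L) (hx : A.IsPt x0) (hx0 : lf (nd.l 0) x0 = 1) (i : Fin m) {ι : Type*}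
    (s : Finset ι) (g : ι → R) (ν' : ι → Fin m → Fin (k + 2) → ℕ) :
    ORDA nd (ρ i) (j i) (N' * 4 ^ (J - j i)) (4 ^ (J - j i))
      (fun μ => ∑ p ∈ s, g p * algebraMap L R (∑ a ∈ box (fun _ : Fin (k + 2) => N' * 4 ^ J + 1),
        (∏ t : Fin (k + 2), lf (nd.l t.succ) x0 ^ a t) *
          algebraMap K L (F a (Function.update (ν' p) i μ)))) x0 := by
  classical
  intro c r l β hβ
  obtain ⟨b, hb⟩ : ∃ b : ℕ, b = N' * 4 ^ (J - j i) := ⟨_, rfl⟩
  obtain ⟨z, hz⟩ : ∃ z : Fin (k + 2) → L, z = fun t => lf (nd.l t.succ) x0 := ⟨_, rfl⟩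
  obtain ⟨P, hP⟩ : ∃ P : (Fin (k + 2) → ℕ) → MvPolynomial (Fin (N + 1) ⊕ Fin (k + 2)) K,
    P = fun μ => HA nd (ρ i) (j i) b c r l μ := ⟨_, rfl⟩
  -- the reduced polynomials vanish
  have hQ : ∀ (ν : Fin m → Fin (k + 2) → ℕ) (r' : Fin (e₀ + 1)),
      ∑ a ∈ box (fun _ : Fin (k + 2) => N' * 4 ^ J + 1),
        ∑ μ ∈ box (fun _ : Fin (k + 2) => b + 1),
          (MvPolynomial.C (F a (Function.update ν i μ)) : MvPolynomial (Fin (k + 2)) K) *
            ((∏ t, X t ^ a t) * RR nd.Mx (cz (P μ) β) r') = 0 := by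
    intro ν r'
    refine MvPolynomial.ext _ _ fun q => ?_
    have h1 := hF i c r' r l (fun t => q t) β ν hβ
    have hq : Finsupp.equivFunOnFinite.symm (fun t => q t) = q := by
      ext t
      rfl
    rw [coeff_zero, coeff_sum, ← h1, ← hb]
    refine Finset.sum_congr rfl fun a _ => ?_
    rw [coeff_sum]
    refine Finset.sum_congr rfl fun μ _ => ?_
    rw [coeff_C_mul, MCA, hq, hP]
  have hw : aeval x0 (nd.w 0) = (1 : L) := by rw [nd.w_zero, map_one]
  have hr := nd.rel L x0 hx hx0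
  -- the values of the components
  have hev : ∀ μ, coeff β (spA x0 (P μ)) =
      ∑ r', aeval x0 (nd.w r') * aeval z (RR nd.Mx (cz (P μ) β) r') := by
    intro μ
    rw [coeff_spA, hz]
    exact RR_eval nd.Mx (cz (P μ) β) (fun r' => aeval x0 (nd.w r'))
      (fun t => lf (nd.l t.succ) x0) x0 hw hr
  have key : ∀ ν : Fin m → Fin (k + 2) → ℕ, ∑ μ ∈ box (fun _ : Fin (k + 2) => b + 1),
      (∑ a ∈ box (fun _ : Fin (k + 2) => N' * 4 ^ J + 1),
        (∏ t, z t ^ a t) * algebraMap K L (F a (Function.update ν i μ))) *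
        coeff β (spA x0 (P μ)) = 0 := by
    intro ν
    have h1 : ∀ μ ∈ box (fun _ : Fin (k + 2) => b + 1),
        (∑ a ∈ box (fun _ : Fin (k + 2) => N' * 4 ^ J + 1),
          (∏ t, z t ^ a t) * algebraMap K L (F a (Function.update ν i μ))) *
          coeff β (spA x0 (P μ)) =
        ∑ r', aeval x0 (nd.w r') *
          aeval z (∑ a ∈ box (fun _ : Fin (k + 2) => N' * 4 ^ J + 1),
            (MvPolynomial.C (F a (Function.update ν i μ)) : MvPolynomial (Fin (k + 2)) K) *
              ((∏ t, X t ^ a t) * RR nd.Mx (cz (P μ) β) r')) := by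
      intro μ _
      rw [hev μ, Finset.mul_sum]
      refine Finset.sum_congr rfl fun r' _ => ?_
      rw [map_sum, Finset.sum_mul, Finset.mul_sum]
      refine Finset.sum_congr rfl fun a _ => ?_
      rw [map_mul, map_mul, map_prod, aeval_C]
      have h2 : ∏ t, aeval z (X t ^ a t : MvPolynomial (Fin (k + 2)) K) = ∏ t, z t ^ a t := by
        refine Finset.prod_congr rfl fun t _ => ?_
        rw [map_pow, aeval_X]
      rw [h2]
      ring
    rw [Finset.sum_congr rfl h1, Finset.sum_comm]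
    refine Finset.sum_eq_zero fun r' _ => ?_
    rw [← Finset.mul_sum, ← map_sum, Finset.sum_comm, hQ ν r', map_zero, mul_zero]
  rw [← hb]
  calc ∑ μ ∈ box (fun _ : Fin (k + 2) => b + 1),
        (∑ p ∈ s, g p * algebraMap L R (∑ a ∈ box (fun _ : Fin (k + 2) => N' * 4 ^ J + 1),
          (∏ t : Fin (k + 2), lf (nd.l t.succ) x0 ^ a t) *
            algebraMap K L (F a (Function.update (ν' p) i μ)))) *
          algebraMap L R (coeff β (spA x0 (HA nd (ρ i) (j i) b c r l μ))) =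
      ∑ p ∈ s, g p * algebraMap L R (∑ μ ∈ box (fun _ : Fin (k + 2) => b + 1),
        (∑ a ∈ box (fun _ : Fin (k + 2) => N' * 4 ^ J + 1),
          (∏ t, z t ^ a t) * algebraMap K L (F a (Function.update (ν' p) i μ))) *
          coeff β (spA x0 (P μ))) := by
        have h6 : ∀ μ ∈ box (fun _ : Fin (k + 2) => b + 1),
            (∑ p ∈ s, g p * algebraMap L R (∑ a ∈ box (fun _ : Fin (k + 2) => N' * 4 ^ J + 1),
              (∏ t : Fin (k + 2), lf (nd.l t.succ) x0 ^ a t) *
                algebraMap K L (F a (Function.update (ν' p) i μ)))) *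
              algebraMap L R (coeff β (spA x0 (HA nd (ρ i) (j i) b c r l μ))) =
            ∑ p ∈ s, g p * algebraMap L R ((∑ a ∈ box (fun _ : Fin (k + 2) => N' * 4 ^ J + 1),
              (∏ t, z t ^ a t) * algebraMap K L (F a (Function.update (ν' p) i μ))) *
              coeff β (spA x0 (P μ))) := by
          intro μ _
          rw [Finset.sum_mul, hP, hz]
          refine Finset.sum_congr rfl fun p _ => ?_
          rw [map_mul, mul_assoc]
        rw [Finset.sum_congr rfl h6, Finset.sum_comm]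
        refine Finset.sum_congr rfl fun p _ => ?_
        rw [map_sum, Finset.mul_sum]
    _ = 0 := Finset.sum_eq_zero fun p _ => by rw [key, map_zero, mul_zero]

end Pool.Agent.Lib.MP_17a322_nt.VA
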