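import Pool.Agent.Lib.MP_17a322_nt.VA.E21
import Pool.Agent.Lib.MP_17a322_nt.VA.A5b

/-!
The choice of the auxiliary field, part 0: the polynomial which describes the conditions.
-/

universe u

namespace Pool.Agent.Lib.MP_17a322_nt.VA

open MvPolynomial

/-- Homogenisation. -/
theorem exists_homog {K : Type u} [Field K] {n : ℕ} {τ : Type} (g : MvPolynomial (Fin n ⊕ τ) K) :
    ∃ (d : ℕ) (G : MvPolynomial (Option (Fin n) ⊕ τ) K), ∀ (L : Type u) [Field L] [Algebra K L]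
      (v : Option (Fin n) → L) (ζ : τ → L), v none ≠ 0 →
      aeval (Sum.elim v ζ) G =
        v none ^ d * aeval (Sum.elim (fun t => v (some t) / v none) ζ) g := by
  induction g using MvPolynomial.induction_on with
  | C a =>
    refine ⟨0, C a, fun L _ _ v ζ hv => ?_⟩
    rw [aeval_C, aeval_C, pow_zero, one_mul]
  | add p q hp hq =>
    obtain ⟨d1, G1, h1⟩ := hp
    obtain ⟨d2, G2, h2⟩ := hq
    refine ⟨d1 + d2, X (Sum.inl none) ^ d2 * G1 + X (Sum.inl none) ^ d1 * G2,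
      fun L _ _ v ζ hv => ?_⟩
    rw [map_add, map_mul, map_mul, map_pow, map_pow, aeval_X, h1 L v ζ hv, h2 L v ζ hv, map_add]
    simp only [Sum.elim_inl]
    ring
  | mul_X p i hp =>
    obtain ⟨d, G, h⟩ := hp
    rcases i with t | p'
    · refine ⟨d + 1, G * X (Sum.inl (some t)), fun L _ _ v ζ hv => ?_⟩
      rw [map_mul, map_mul, aeval_X, aeval_X, h L v ζ hv]
      simp only [Sum.elim_inl]
      field_simp
      ring
    · refine ⟨d, G * X (Sum.inr p'), fun L _ _ v ζ hv => ?_⟩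
      rw [map_mul, map_mul, aeval_X, aeval_X, h L v ζ hv]
      simp only [Sum.elim_inr]
      ring

section

variable {K : Type u} [Field K] {N : ℕ} {A : AV K N} {n e : ℕ} (nd : Noe A n e)

/-- The columns of two points. -/
theorem AV.Rep.lf_col {L : Type u} [Field L] [Algebra K L] {P Q : A.Pts L}
    {y y' : Fin (N + 1) → L} (h : A.Rep P y) (h' : A.Rep Q y') : ∃ c : L, c ≠ 0 ∧
      ∀ (a : Fin (N + 1)) (l : Fin (N + 1) → K), lf l (A.col a y y') =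
        c * A.x (P + Q) a * lf l (A.x (P - Q)) := by
  obtain ⟨c, hc, hs⟩ := h.spec h'
  refine ⟨c, hc, fun a l => ?_⟩
  unfold lf AV.col
  rw [Finset.mul_sum]
  refine Finset.sum_congr rfl fun b _ => ?_
  rw [hs]
  ring

/-- The vector of the sum with a rational point. -/
noncomputable def Noe.Vv (P₀ : A.Pts K) {R : Type*} [CommRing R] [Algebra K R]
    (y : Fin (N + 1) → R) : Fin (N + 1) → R :=
  fun a => lf (nd.l 0) (A.col a (fun i => algebraMap K R (A.x P₀ i)) y)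

/-- The condition for the sum and the difference with a rational point. -/
noncomputable def Noe.bt (P : A.Pts K) (j : ℕ) {R : Type*} [CommRing R] [Algebra K R]
    (V : Fin (N + 1) → R) : R :=
  lf (nd.l 0) fun a => lf (nd.l 0) (A.col a (fun i => algebraMap K R (A.x P i)) (A.mu j V))

theorem Noe.map_Vv (P₀ : A.Pts K) {R R' : Type*} [CommRing R] [Algebra K R] [CommRing R']
    [Algebra K R'] (φ : R →ₐ[K] R') (y : Fin (N + 1) → R) (a : Fin (N + 1)) :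
    φ (nd.Vv P₀ y a) = nd.Vv P₀ (fun i => φ (y i)) a := by
  unfold Noe.Vv
  rw [lf_map]
  congr 1
  funext b
  rw [AV.map_colE]
  congr 1
  funext i
  exact φ.commutes _

theorem Noe.map_bt (P : A.Pts K) (j : ℕ) {R R' : Type*} [CommRing R] [Algebra K R] [CommRing R']
    [Algebra K R'] (φ : R →ₐ[K] R') (V : Fin (N + 1) → R) :
    φ (nd.bt P j V) = nd.bt P j fun i => φ (V i) := by
  unfold Noe.bt
  rw [lf_map]
  congr 1
  funext a
  rw [lf_map]
  congr 1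
  funext b
  rw [AV.map_colE]
  congr 1
  · funext i
    exact φ.commutes _
  · funext i
    exact A.map_mu φ j V i

/-- The polynomial of the conditions. -/
noncomputable def Noe.Hp {m : ℕ} {τ : Type} (P₀ : A.Pts K) (P : Fin m → A.Pts K) (j : Fin m → ℕ)
    (G : MvPolynomial (Option (Fin n) ⊕ τ) K) : MvPolynomial (Option (Fin n) ⊕ τ) K :=
  lf (nd.l 0) (nd.Vv P₀ fun i => rename Sum.inl (nd.pv i)) *
    aeval (Sum.elim (fun o => lf (nd.lo o) (nd.Vv P₀ fun i => rename Sum.inl (nd.pv i)))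
      fun p => X (Sum.inr p)) G *
    ∏ i, nd.bt (P i) (j i) (nd.Vv P₀ fun i => rename Sum.inl (nd.pv i))

theorem Noe.aeval_Hp {m : ℕ} {τ : Type} (P₀ : A.Pts K) (P : Fin m → A.Pts K) (j : Fin m → ℕ)
    (G : MvPolynomial (Option (Fin n) ⊕ τ) K) {R : Type*} [CommRing R] [Algebra K R]
    (z : Option (Fin n) → R) (ζ : τ → R) (y : Fin (N + 1) → R)
    (hy : ∀ i, aeval z (nd.pv i) = y i) :
    aeval (Sum.elim z ζ) (nd.Hp P₀ P j G) = lf (nd.l 0) (nd.Vv P₀ y) *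
      aeval (Sum.elim (fun o => lf (nd.lo o) (nd.Vv P₀ y)) ζ) G *
      ∏ i, nd.bt (P i) (j i) (nd.Vv P₀ y) := by
  have h0 : ∀ i, aeval (Sum.elim z ζ) (rename (Sum.inl : Option (Fin n) → Option (Fin n) ⊕ τ)
      (nd.pv i)) = y i := by
    intro i
    rw [aeval_rename, ← hy i]
    rfl
  have h1 : ∀ a, aeval (Sum.elim z ζ) (nd.Vv P₀ (fun i =>
      rename (Sum.inl : Option (Fin n) → Option (Fin n) ⊕ τ) (nd.pv i)) a) = nd.Vv P₀ y a := by
    intro a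
    rw [nd.map_Vv]
    congr 1
    exact funext h0
  have h2 : ∀ l : Fin (N + 1) → K, aeval (Sum.elim z ζ) (lf l (nd.Vv P₀ fun i =>
      rename (Sum.inl : Option (Fin n) → Option (Fin n) ⊕ τ) (nd.pv i))) =
      lf l (nd.Vv P₀ y) := by
    intro l
    rw [lf_map]
    congr 1
    exact funext h1
  have h3 : ∀ i, aeval (Sum.elim z ζ) (nd.bt (P i) (j i) (nd.Vv P₀ fun i =>
      rename (Sum.inl : Option (Fin n) → Option (Fin n) ⊕ τ) (nd.pv i))) =
      nd.bt (P i) (j i) (nd.Vv P₀ y) := by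
    intro i
    rw [nd.map_bt]
    congr 1
    exact funext h1
  unfold Noe.Hp
  rw [map_mul, map_mul, h2, map_prod]
  congr 1
  · congr 1
    rw [← AlgHom.comp_apply, MvPolynomial.comp_aeval]
    congr 2
    funext s
    rcases s with o | p
    · exact h2 (nd.lo o)
    · exact aeval_X _ _
  · exact Finset.prod_congr rfl fun i _ => h3 i

section

variable {L : Type u} [Field L] [Algebra K L]

theorem Noe.lf_Vv (P₀ : A.Pts K) {w : A.Pts L} {y : Fin (N + 1) → L} (hw : A.Rep w y) :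
    ∃ c : L, c ≠ 0 ∧ ∀ a, nd.Vv P₀ y a =
      c * lf (nd.l 0) (A.x (A.img (Algebra.ofId K L) P₀ - w)) *
        A.x (A.img (Algebra.ofId K L) P₀ + w) a := by
  have h1 : A.Rep (A.img (Algebra.ofId K L) P₀) fun i => algebraMap K L (A.x P₀ i) :=
    A.img_rep (Algebra.ofId K L) P₀
  obtain ⟨c, hc, h2⟩ := h1.lf_col hw
  refine ⟨c, hc, fun a => ?_⟩
  unfold Noe.Vv
  rw [h2]
  ring

theorem Noe.bt_eq (P : A.Pts K) (j : ℕ) {Q : A.Pts L} {V : Fin (N + 1) → L} (hV : A.Rep Q V) :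
    ∃ c : L, c ≠ 0 ∧ nd.bt P j V =
      c * lf (nd.l 0) (A.x (A.img (Algebra.ofId K L) P + 2 ^ j • Q)) *
        lf (nd.l 0) (A.x (A.img (Algebra.ofId K L) P - 2 ^ j • Q)) := by
  have h1 : A.Rep (A.img (Algebra.ofId K L) P) fun i => algebraMap K L (A.x P i) :=
    A.img_rep (Algebra.ofId K L) P
  obtain ⟨c, hc, h2⟩ := h1.lf_col (hV.mu j)
  refine ⟨c, hc, ?_⟩
  unfold Noe.bt
  simp only [h2]
  have h3 : (fun a => c * A.x (A.img (Algebra.ofId K L) P + 2 ^ j • Q) a *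
      lf (nd.l 0) (A.x (A.img (Algebra.ofId K L) P - 2 ^ j • Q))) =
      fun a => (c * lf (nd.l 0) (A.x (A.img (Algebra.ofId K L) P - 2 ^ j • Q))) *
        A.x (A.img (Algebra.ofId K L) P + 2 ^ j • Q) a := by
    funext a
    ring
  rw [h3, lf_smul]
  ring

/-- The meaning of the polynomial of the conditions. -/
theorem Noe.Hp_ne_iff {m : ℕ} {τ : Type} (P₀ : A.Pts K) (P : Fin m → A.Pts K) (j : Fin m → ℕ)
    (g : MvPolynomial (Fin n ⊕ τ) K) (d : ℕ) (G : MvPolynomial (Option (Fin n) ⊕ τ) K)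
    (hG : ∀ (v : Option (Fin n) → L) (ζ : τ → L), v none ≠ 0 →
      aeval (Sum.elim v ζ) G =
        v none ^ d * aeval (Sum.elim (fun t => v (some t) / v none) ζ) g)
    (z : Option (Fin n) → L) (ζ : τ → L) (y : Fin (N + 1) → L) (w : A.Pts L)
    (hy : ∀ i, aeval z (nd.pv i) = y i) (hw : A.Rep w y) :
    aeval (Sum.elim z ζ) (nd.Hp P₀ P j G) ≠ 0 ↔
      lf (nd.l 0) (A.x (A.img (Algebra.ofId K L) P₀ - w)) ≠ 0 ∧
      lf (nd.l 0) (A.x (A.img (Algebra.ofId K L) P₀ + w)) ≠ 0 ∧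
      aeval (Sum.elim (nd.s (A.img (Algebra.ofId K L) P₀ + w)) ζ) g ≠ 0 ∧
      ∀ i, lf (nd.l 0) (A.x (A.img (Algebra.ofId K L) (P i) +
          2 ^ j i • (A.img (Algebra.ofId K L) P₀ + w))) ≠ 0 ∧
        lf (nd.l 0) (A.x (A.img (Algebra.ofId K L) (P i) -
          2 ^ j i • (A.img (Algebra.ofId K L) P₀ + w))) ≠ 0 := by
  obtain ⟨c, hc, hV⟩ := nd.lf_Vv P₀ hw
  obtain ⟨Q, hQ⟩ : ∃ Q : A.Pts L, Q = A.img (Algebra.ofId K L) P₀ + w := ⟨_, rfl⟩
  obtain ⟨Q', hQ'⟩ : ∃ Q' : A.Pts L, Q' = A.img (Algebra.ofId K L) P₀ - w := ⟨_, rfl⟩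
  rw [← hQ, ← hQ'] at hV ⊢
  have hlf : ∀ l : Fin (N + 1) → K, lf l (nd.Vv P₀ y) =
      c * lf (nd.l 0) (A.x Q') * lf l (A.x Q) := by
    intro l
    rw [show nd.Vv P₀ y = _ from funext hV, lf_smul]
  rw [nd.aeval_Hp P₀ P j G z ζ y hy]
  by_cases h0 : lf (nd.l 0) (A.x Q') = 0
  · have h1 : lf (nd.l 0) (nd.Vv P₀ y) = 0 := by rw [hlf, h0]; ring
    rw [h1]
    simp [h0]
  by_cases h0' : lf (nd.l 0) (A.x Q) = 0
  · have h1 : lf (nd.l 0) (nd.Vv P₀ y) = 0 := by rw [hlf, h0']; ring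
    rw [h1]
    simp [h0']
  have hc' : c * lf (nd.l 0) (A.x Q') ≠ 0 := mul_ne_zero hc h0
  have hVrep : A.Rep Q (nd.Vv P₀ y) := ⟨_, hc', hV⟩
  have hV0 : lf (nd.l 0) (nd.Vv P₀ y) ≠ 0 := by
    rw [hlf]
    exact mul_ne_zero hc' h0'
  have hGv : aeval (Sum.elim (fun o => lf (nd.lo o) (nd.Vv P₀ y)) ζ) G ≠ 0 ↔
      aeval (Sum.elim (nd.s Q) ζ) g ≠ 0 := by
    rw [hG (fun o => lf (nd.lo o) (nd.Vv P₀ y)) ζ hV0]
    have h2 : (fun t => lf (nd.lo (some t)) (nd.Vv P₀ y) / lf (nd.lo none) (nd.Vv P₀ y)) =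
        nd.s Q := by
      funext t
      show lf (nd.l t.succ) (nd.Vv P₀ y) / lf (nd.l 0) (nd.Vv P₀ y) = _
      rw [hlf, hlf, mul_div_mul_left _ _ hc']
      rfl
    rw [h2, mul_ne_zero_iff]
    constructor
    · exact fun h => h.2
    · exact fun h => ⟨pow_ne_zero _ hV0, h⟩
  have hb : ∀ i, nd.bt (P i) (j i) (nd.Vv P₀ y) ≠ 0 ↔
      (lf (nd.l 0) (A.x (A.img (Algebra.ofId K L) (P i) + 2 ^ j i • Q)) ≠ 0 ∧
        lf (nd.l 0) (A.x (A.img (Algebra.ofId K L) (P i) - 2 ^ j i • Q)) ≠ 0) := by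
    intro i
    obtain ⟨c', hc'', h3⟩ := nd.bt_eq (P i) (j i) hVrep
    rw [h3, mul_ne_zero_iff, mul_ne_zero_iff]
    constructor
    · exact fun h => ⟨h.1.2, h.2⟩
    · exact fun h => ⟨⟨hc'', h.1⟩, h.2⟩
  rw [mul_ne_zero_iff, mul_ne_zero_iff, hGv, Finset.prod_ne_zero_iff]
  constructor
  · rintro ⟨⟨-, h4⟩, h5⟩
    exact ⟨h0, h0', h4, fun i => (hb i).1 (h5 i (Finset.mem_univ i))⟩
  · rintro ⟨-, -, h4, h5⟩
    exact ⟨⟨hV0, h4⟩, fun i _ => (hb i).2 (h5 i)⟩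

end

end

end Pool.Agent.Lib.MP_17a322_nt.VA
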