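import Pool.Agent.Lib.MP_17a322_nt.VA.CL0
import Pool.Agent.Lib.MP_17a322_nt.VA.E01

/-!
The choice of the auxiliary field, part 1: the generic point satisfies the conditions.
-/

universe u

namespace Pool.Agent.Lib.MP_17a322_nt.VA

open MvPolynomial

section

variable {K : Type u} [Field K] {N : ℕ} {A : AV K N} {n e : ℕ} (nd : Noe A n e)
  {Ω : Type u} [Field Ω] [Algebra K Ω]

/-- The point is defined over `acl K S`. -/
def IsOv (A : AV K N) (S : Set Ω) (T : A.Pts Ω) : Prop :=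
  ∃ T' : A.Pts (acl K S), A.img (acl K S).val T' = T

theorem IsOv.add {S : Set Ω} {T T' : A.Pts Ω} (h : IsOv A S T) (h' : IsOv A S T') :
    IsOv A S (T + T') := by
  obtain ⟨R, rfl⟩ := h
  obtain ⟨R', rfl⟩ := h'
  exact ⟨R + R', AV.img_add _ _ _⟩

theorem IsOv.sub {S : Set Ω} {T T' : A.Pts Ω} (h : IsOv A S T) (h' : IsOv A S T') :
    IsOv A S (T - T') := by
  obtain ⟨R, rfl⟩ := h
  obtain ⟨R', rfl⟩ := h'
  exact ⟨R - R', AV.img_sub _ _ _⟩

theorem IsOv.rat (S : Set Ω) (P : A.Pts K) : IsOv A S (A.img (Algebra.ofId K Ω) P) := by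
  refine ⟨A.img (Algebra.ofId K (acl K S)) P, ?_⟩
  rw [← AV.img_comp]
  congr 1

theorem mem_acl_of_alg {S : Set Ω} {z : Ω} (h : IsAlgebraic (acl K S) z) : z ∈ acl K S := by
  refine acl_acl (S' := (acl K S : Set Ω)) le_rfl ?_
  rw [mem_acl]
  obtain ⟨p, hp, hp0⟩ := h
  have h1 : acl K S ≤ IntermediateField.adjoin K (acl K S : Set Ω) := fun x hx =>
    IntermediateField.subset_adjoin K _ hx
  refine ⟨p.map (IntermediateField.inclusion h1).toRingHom, ?_, ?_⟩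
  · rw [Ne, Polynomial.map_eq_zero_iff]
    · exact hp
    · exact (IntermediateField.inclusion h1).injective
  · rw [Polynomial.aeval_def, Polynomial.eval₂_map]
    exact hp0

/-- Division points. -/
theorem IsOv.of_nsmul {S : Set Ω} {T : A.Pts Ω} {m : ℕ} (hm : m ≠ 0) (h : IsOv A S (m • T)) :
    IsOv A S T := by
  obtain ⟨Q, hQ⟩ := h
  obtain ⟨j, hj⟩ := A.exists_x_ne T
  have h1 : ∀ i, A.x T i / A.x T j ∈ acl K S := by
    intro i
    refine mem_acl_of_alg ?_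
    have h2 := Z_alg (L := acl K S) (F := Ω) A T m hm Q (by
      obtain ⟨c, hc, h3⟩ := A.img_rep (acl K S).val Q
      rw [hQ] at h3
      exact ⟨c, hc, h3⟩) i j
    exact h2
  refine exists_subE (acl K S) (y := fun i => A.x T i / A.x T j)
    ⟨(A.x T j)⁻¹, inv_ne_zero hj, fun i => ?_⟩ h1
  show A.x T i / A.x T j = _
  rw [div_eq_mul_inv, mul_comm]

theorem ov_of_nz (T : A.Pts Ω) (k : Fin (n + 1)) (hk : lf (nd.l k) (A.x T) ≠ 0) (S : Set Ω)
    (hS : ∀ i, lf (nd.l i) (A.x T) / lf (nd.l k) (A.x T) ∈ acl K S) : IsOv A S T := by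
  have h1 : ∀ a, A.x T a / lf (nd.l k) (A.x T) ∈ acl K S := by
    intro a
    have h2 := alg_of_nz nd T k a
    rw [← mem_acl] at h2
    refine acl_acl ?_ h2
    rintro _ ⟨i, rfl⟩
    exact hS i
  refine exists_subE (acl K S) (y := fun i => A.x T i / lf (nd.l k) (A.x T))
    ⟨(lf (nd.l k) (A.x T))⁻¹, inv_ne_zero hk, fun i => ?_⟩ h1
  show A.x T i / lf (nd.l k) (A.x T) = _
  rw [div_eq_mul_inv, mul_comm]

theorem coord_of_ov {S : Set Ω} {w : A.Pts Ω} {y : Fin (N + 1) → Ω} (hw : A.Rep w y)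
    (h1 : lf (nd.l 0) y = 1) (h : IsOv A S w) (t : Fin n) : lf (nd.l t.succ) y ∈ acl K S := by
  obtain ⟨w', rfl⟩ := h
  have h2 : ∀ i, y i ∈ acl K S := fun i => mem_sub (acl K S) w' hw h1 i
  unfold lf
  exact sum_mem fun i _ => mul_mem ((acl K S).algebraMap_mem _) (h2 i)

/-- Points with large transcendence degree are in the chart. -/
theorem lf_ne_of_dep {w : A.Pts Ω} {y : Fin (N + 1) → Ω} (hw : A.Rep w y)
    (h1 : lf (nd.l 0) y = 1) (hind : AlgebraicIndependent K fun t : Fin n => lf (nd.l t.succ) y)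
    (T : A.Pts Ω) (hT : ∀ S : Set Ω, IsOv A S T → IsOv A S w) : lf (nd.l 0) (A.x T) ≠ 0 := by
  intro h0
  obtain ⟨k, hk⟩ := nd.nz Ω T
  obtain ⟨k', rfl⟩ : ∃ k' : Fin n, k = k'.succ := by
    rcases Fin.eq_zero_or_eq_succ k with rfl | ⟨k', h⟩
    · exact absurd h0 hk
    · exact ⟨k', h⟩
  obtain ⟨z, hz⟩ : ∃ z : Fin n → Ω, z = fun t => lf (nd.l t.succ) (A.x T) /
      lf (nd.l k'.succ) (A.x T) := ⟨_, rfl⟩
  have h2 : IsOv A (Set.range z) T := by
    refine ov_of_nz nd T k'.succ hk _ fun i => ?_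
    rcases Fin.eq_zero_or_eq_succ i with rfl | ⟨t, rfl⟩
    · rw [h0, zero_div]
      exact zero_mem _
    · refine subset_acl ⟨t, ?_⟩
      rw [hz]
  have h3 := coord_of_ov nd hw h1 (hT _ h2)
  have h4 : AlgebraicIndependent K z := card_indep le_rfl _ z hind fun t => mem_acl.1 (h3 t)
  have h5 : Transcendental K (z k') := h4.transcendental k'
  apply h5
  rw [hz]
  simp only
  rw [div_self hk]
  exact isAlgebraic_one

/-- Independence of the Noether coordinates. -/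
theorem indep_of_dep {τ : Type} [Finite τ] {w : A.Pts Ω} {y : Fin (N + 1) → Ω}
    (hw : A.Rep w y) (h1 : lf (nd.l 0) y = 1) (ζ : τ → Ω)
    (hind : AlgebraicIndependent K (Sum.elim (fun t : Fin n => lf (nd.l t.succ) y) ζ))
    (T : A.Pts Ω) (hT : ∀ S : Set Ω, IsOv A S T → IsOv A S w) (h0 : lf (nd.l 0) (A.x T) ≠ 0) :
    AlgebraicIndependent K (Sum.elim (nd.s T) ζ) := by
  have h2 : IsOv A (Set.range (Sum.elim (nd.s T) ζ)) T := by
    refine ov_of_nz nd T 0 h0 _ fun i => ?_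
    rcases Fin.eq_zero_or_eq_succ i with rfl | ⟨t, rfl⟩
    · rw [div_self h0]
      exact one_mem _
    · exact subset_acl ⟨Sum.inl t, rfl⟩
  have h3 := coord_of_ov nd hw h1 (hT _ h2)
  refine card_indep le_rfl _ _ hind fun x => ?_
  rcases x with t | p
  · exact mem_acl.1 (h3 t)
  · exact mem_acl.1 (subset_acl ⟨Sum.inr p, rfl⟩)

/-- The generic point satisfies the conditions. -/
theorem generic_ne {m : ℕ} {τ : Type} [Finite τ] (P₀ : A.Pts K) (P : Fin m → A.Pts K)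
    (j : Fin m → ℕ) (g : MvPolynomial (Fin n ⊕ τ) K) (hg : g ≠ 0) {w : A.Pts Ω}
    {y : Fin (N + 1) → Ω} (hw : A.Rep w y) (h1 : lf (nd.l 0) y = 1) (ζ : τ → Ω)
    (hind : AlgebraicIndependent K (Sum.elim (fun t : Fin n => lf (nd.l t.succ) y) ζ)) :
    lf (nd.l 0) (A.x (A.img (Algebra.ofId K Ω) P₀ - w)) ≠ 0 ∧
      lf (nd.l 0) (A.x (A.img (Algebra.ofId K Ω) P₀ + w)) ≠ 0 ∧
      aeval (Sum.elim (nd.s (A.img (Algebra.ofId K Ω) P₀ + w)) ζ) g ≠ 0 ∧
      ∀ i, lf (nd.l 0) (A.x (A.img (Algebra.ofId K Ω) (P i) +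
          2 ^ j i • (A.img (Algebra.ofId K Ω) P₀ + w))) ≠ 0 ∧
        lf (nd.l 0) (A.x (A.img (Algebra.ofId K Ω) (P i) -
          2 ^ j i • (A.img (Algebra.ofId K Ω) P₀ + w))) ≠ 0 := by
  have hind1 : AlgebraicIndependent K fun t : Fin n => lf (nd.l t.succ) y :=
    hind.comp Sum.inl Sum.inl_injective
  have hQ : ∀ S : Set Ω, IsOv A S (A.img (Algebra.ofId K Ω) P₀ + w) → IsOv A S w := by
    intro S h
    have h2 := h.sub (IsOv.rat S P₀)
    rwa [add_sub_cancel_left] at h2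
  have hQ' : ∀ S : Set Ω, IsOv A S (A.img (Algebra.ofId K Ω) P₀ - w) → IsOv A S w := by
    intro S h
    have h2 := (IsOv.rat S P₀).sub h
    rwa [sub_sub_cancel] at h2
  have h0 := lf_ne_of_dep nd hw h1 hind1 _ hQ
  refine ⟨lf_ne_of_dep nd hw h1 hind1 _ hQ', h0, ?_, fun i => ⟨?_, ?_⟩⟩
  · have h3 := indep_of_dep nd hw h1 ζ hind _ hQ h0
    intro h4
    exact hg (h3 (by rw [h4, map_zero]))
  · refine lf_ne_of_dep nd hw h1 hind1 _ fun S h => hQ S ?_
    have h2 := h.sub (IsOv.rat S (P i))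
    rw [add_sub_cancel_left] at h2
    exact h2.of_nsmul (pow_ne_zero _ two_ne_zero)
  · refine lf_ne_of_dep nd hw h1 hind1 _ fun S h => hQ S ?_
    have h2 := (IsOv.rat S (P i)).sub h
    rw [sub_sub_cancel] at h2
    exact h2.of_nsmul (pow_ne_zero _ two_ne_zero)

end

end Pool.Agent.Lib.MP_17a322_nt.VA
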