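import Pool.Agent.Lib.MP_17a322_nt.VN.L2E1
import Pool.Agent.Lib.MP_17a322_nt.VN.L2R
import Pool.Agent.Lib.MP_17a322_nt.VJ.A7
import Pool.Agent.Lib.MP_17a322_nt.VJ.J0

/-!
Part E of VA (elimination, order in `T`, chain of leading forms): definitions.

Variables `VE m n`: `x t` Noether coordinates of `Q`, `q` the primitive element of `Q`, `S (i, t)`
Noether coordinates of `P i`, `w i` the primitive element of `P i`, `z (i, t)` Noether coordinates of
`P i - 2 ^ j i Q` (the variables `ξ`), `v (i, t)` displacement of the coordinate `t` of `P i`.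

`ED K n` elimination data: `f` equation of the primitive element (`some t` coordinates, `none` primitive
element), `b j none`, `b j (some t)` the forms `b₀`, `b_t` (`Sum.inl` for `Q`, `Sum.inr` for `P`): the
Noether coordinates of `P - 2 ^ j Q` are `b_t / b₀`.

`J` is the set of the independent coordinates.
-/

universe u

namespace Pool.Agent.Lib.MP_17a322_nt.VA

open MvPolynomial Height
open Pool.Agent.Lib.MP_17a322_nt.VJ
open Pool.Agent.Lib.MP_17a322_nt.VN

/-- The variables. -/
inductive VE (m n : ℕ) : Type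
  | x : Fin n → VE m n
  | q : VE m n
  | S : Fin m × Fin n → VE m n
  | w : Fin m → VE m n
  | z : Fin m × Fin n → VE m n
  | v : Fin m × Fin n → VE m n
  deriving DecidableEq, Fintype

/-- The variables of the point `Q`. -/
def pQ {m n : ℕ} : Option (Fin n) → VE m n
  | none => VE.q
  | some t => VE.x t

/-- The variables of the point `P i`. -/
def pP {m n : ℕ} (i : Fin m) : Option (Fin n) → VE m n
  | none => VE.w i
  | some t => VE.S (i, t)

/-- Elimination data. -/
structure ED (K : Type*) [Field K] (n : ℕ) where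
  f : MvPolynomial (Option (Fin n)) K
  b : ℕ → Option (Fin n) → MvPolynomial (Option (Fin n) ⊕ Option (Fin n)) K

/-- The elimination data are bounded by `C` and generic. -/
structure ED.Ok {K : Type u} [Field K] [NumberField K] {n : ℕ} (E : ED K n) (C : ℝ) : Prop where
  one_le : 1 ≤ C
  f0 : E.f.degreeOf none ≠ 0
  fd : ∀ y, (E.f.degreeOf y : ℝ) ≤ C
  fh : nh E.f ≤ C
  bl : ∀ j o y, ((E.b j o).degreeOf (Sum.inl y) : ℝ) ≤ C * 4 ^ j
  br : ∀ j o y, ((E.b j o).degreeOf (Sum.inr y) : ℝ) ≤ C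
  bh : ∀ (j : ℕ) (t : Fin n), nh (rename some (E.b j none) * X none - rename some (E.b j (some t))) ≤
    C * 4 ^ j
  gen : ∀ (Ω : Type u) [Field Ω] [IsAlgClosed Ω] [Algebra K Ω] (j : ℕ) (a b : Option (Fin n) → Ω),
    AlgebraicIndependent K
      (Sum.elim (fun t : Fin n => a (some t)) (fun t : Fin n => b (some t)) : Fin n ⊕ Fin n → Ω) →
    aeval a E.f = 0 → aeval b E.f = 0 →
    aeval (Sum.elim a b) (E.b j none) ≠ 0 ∧
    ∀ t : Fin n, IsAlgebraic (IntermediateField.adjoin K
      (Set.range (fun t : Fin n => a (some t)) ∪ Set.range fun t : Fin n =>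
        aeval (Sum.elim a b) (E.b j (some t)) / aeval (Sum.elim a b) (E.b j none))) (b (some t))

/-- The equation of the primitive element of `Q`. -/
noncomputable def ED.fQ {K : Type*} [Field K] {n : ℕ} (E : ED K n) (m : ℕ) :
    MvPolynomial (VE m n) K :=
  rename pQ E.f

/-- The equation of the primitive element of `P i`. -/
noncomputable def ED.fP {K : Type*} [Field K] {n : ℕ} (E : ED K n) {m : ℕ} (i : Fin m) :
    MvPolynomial (VE m n) K :=
  rename (pP i) E.f

/-- The forms `b` in the variables of `Q` and `P i`. -/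
noncomputable def ED.bb {K : Type*} [Field K] {n : ℕ} (E : ED K n) {m : ℕ} (j : Fin m → ℕ)
    (i : Fin m) (o : Option (Fin n)) : MvPolynomial (VE m n) K :=
  rename (Sum.elim pQ (pP i)) (E.b (j i) o)

/-- The relation for `ξ_p`. -/
noncomputable def ED.al {K : Type*} [Field K] {n : ℕ} (E : ED K n) {m : ℕ} (j : Fin m → ℕ)
    (p : Fin m × Fin n) : MvPolynomial (VE m n) K :=
  E.bb j p.1 none * X (VE.z p) - E.bb j p.1 (some p.2)

/-- The relations for the variables to be eliminated. -/
noncomputable def ED.alv {K : Type*} [Field K] {n : ℕ} (E : ED K n) {m : ℕ} (j : Fin m → ℕ) :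
    VE m n → MvPolynomial (VE m n) K
  | VE.q => E.fQ m
  | VE.w i => E.fP i
  | VE.z p => E.al j p
  | _ => 0

/-- The list of the variables to be eliminated in the block `i` (first step). -/
def lE (m n : ℕ) (i : Fin m) : List (VE m n) :=
  ((List.finRange n).map fun t => VE.z (i, t)) ++ [VE.w i, VE.q]

/-- The list of the dependent coordinates of `P i`. -/
def lJ {m n : ℕ} (J : Finset (Fin n)) (i : Fin m) : List (VE m n) :=
  ((List.finRange n).filter fun r => r ∉ J).map fun r => VE.S (i, r)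

/-- The relations for the dependent coordinates. -/
noncomputable def hv {K : Type*} [Field K] {m n : ℕ} (h : Fin m → Fin n → MvPolynomial (Fin n) K) :
    VE m n → MvPolynomial (VE m n) K
  | VE.S p => rename (fun t => VE.S (p.1, t)) (h p.1 p.2)
  | _ => 0

/-- The substitution `S (i, r) ↦ S (i, r) + v (i, r)`, `r ∉ J`, for points. -/
def Sh {m n : ℕ} (J : Finset (Fin n)) (i : Fin m) {A : Type*} [Add A] (s : VE m n → A) :
    VE m n → A
  | VE.S p => if p.1 = i ∧ p.2 ∉ J then s (VE.S p) + s (VE.v p) else s (VE.S p)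
  | VE.x t => s (VE.x t)
  | VE.q => s VE.q
  | VE.w i' => s (VE.w i')
  | VE.z p => s (VE.z p)
  | VE.v p => s (VE.v p)

/-- The substitution `S (i, r) ↦ S (i, r) + v (i, r)`, `r ∉ J`, for polynomials. -/
noncomputable def sh {K : Type*} [CommRing K] {m n : ℕ} (J : Finset (Fin n)) (i : Fin m) :
    MvPolynomial (VE m n) K →ₐ[K] MvPolynomial (VE m n) K :=
  aeval (Sh J i X)

/-- The elimination in the block `i`. -/
noncomputable def ME {K : Type*} [Field K] {n : ℕ} (E : ED K n) {m : ℕ} (j : Fin m → ℕ)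
    (h : Fin m → Fin n → MvPolynomial (Fin n) K) (J : Finset (Fin n)) (i : Fin m)
    (N : MvPolynomial (VE m n) K) : MvPolynomial (VE m n) K :=
  ELL (hv h) (lJ J i) (sh J i (ELL (E.alv j) (lE m n i) N))

/-- The weights `1` for the variables `v (i, t)`, `0` otherwise. -/
def om {m n : ℕ} (i : Fin m) : VE m n → ℕ
  | VE.v p => if p.1 = i then 1 else 0
  | _ => 0

/-- The weights of the variables in the estimates. -/
noncomputable def wt {m n : ℕ} (j : Fin m → ℕ) : VE m n → ℝ
  | VE.x _ => 1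
  | VE.q => 1
  | VE.S p => 4 ^ j p.1
  | VE.w i => 4 ^ j i
  | VE.z p => 4 ^ j p.1
  | VE.v p => 4 ^ j p.1

/-- Bounds for the degrees and the height. -/
def QE {K : Type*} [Field K] [AdmissibleAbsValues K] {m n : ℕ} (j : Fin m → ℕ) (b H : ℝ)
    (N : MvPolynomial (VE m n) K) : Prop :=
  (∀ y, wt j y * (N.degreeOf y : ℝ) ≤ b) ∧ nh N ≤ H

/-- Bounds for the relation `α` of the variable `y`. -/
def GRE {K : Type*} [Field K] [AdmissibleAbsValues K] {m n : ℕ} (j : Fin m → ℕ) (A : ℝ)
    (y : VE m n) (α : MvPolynomial (VE m n) K) : Prop :=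
  (α.degreeOf y : ℝ) ≤ A ∧ (∀ t, wt j t * (α.degreeOf t : ℝ) ≤ A * wt j y) ∧ nh α ≤ A * wt j y

/-- The conditions on the relations of the dependent coordinates. -/
def HC {K : Type*} [Field K] [AdmissibleAbsValues K] {m n : ℕ} (J : Finset (Fin n)) (D : ℕ)
    (j : Fin m → ℕ) (h : Fin m → Fin n → MvPolynomial (Fin n) K) : Prop :=
  ∀ i, ∀ r ∉ J, (h i r).degreeOf r ≠ 0 ∧ (∀ t, (h i r).degreeOf t ≤ D) ∧
    (∀ t, t ∉ J → t ≠ r → (h i r).degreeOf t = 0) ∧ nh (h i r) ≤ 4 ^ j i

/-- The variables which may occur in `N k`: `x`, `z (i, t)` for `k ≤ i`, `S (i, t)` for `i < k`, `t ∈ J`,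
`v (i, t)` for `i < k`, `t ∉ J`. -/
def Oc {m n : ℕ} (J : Finset (Fin n)) (k : ℕ) : VE m n → Prop
  | VE.x _ => True
  | VE.q => False
  | VE.S p => (p.1 : ℕ) < k ∧ p.2 ∈ J
  | VE.w _ => False
  | VE.z p => k ≤ (p.1 : ℕ)
  | VE.v p => (p.1 : ℕ) < k ∧ p.2 ∉ J

end Pool.Agent.Lib.MP_17a322_nt.VA
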