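import Pool.Agent.Lib.MP_17a322_nt.VA.E03
import Pool.Agent.Lib.MP_17a322_nt.VN.L2A2

/-!
JOB E04. Part E of VA: the first elimination does not give zero.

PROOF. Let `T` be the set of the variables `y` with `y ≠ q`, `y ≠ w i`, `y ≠ z (i, t)` for all `t`. Let `Ω`, `s : VE m n → Ω` be generic (`L2A2_generic K (VE m n)` in VN/L2A2:
all `s y`, `y : VE m n`, are algebraically independent). `ELL_ne_zero_at` (E01) with
`Q l' s' := (∀ y ∉ l', s' y = s y) ∧ ∀ y ∈ l', aeval s' (E.alv j y) = 0`. `Q [] s` is clear. `aeval s (ELL ..) ≠ 0` gives the claim (`map_zero`).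
`hstep`: the suffixes `y :: l'` of `lE m n i = [z (i, t), ..] ++ [w i, q]` (no repetitions): (a) `y = q`, `l' = []`; (b) `y = w i`, `l' = [q]`; (c) `y = z (i, t)`, `l'` contains `w i`, `q` and some `z (i, t')`, `t' ≠ t`.
 LEADING COEFFICIENTS. (a) `lcv q (fQ)` is a nonzero polynomial (`vw_ne_zero`, `natDegree_vw`, `leadingCoeff_ne_zero`) with degree `0` in all variables except `x t` (`degreeOf_coeff_vw`, `degreeOf_coeff_vw_self`, VJ/C1, `degreeOf_fQ_eq_zero`, E03), `s' = s`:
 `aeval_ne_zero_of_indep` (E01) with the set of the variables `x t`. (b) in the same way with the variables `S (i, t)`, where `s' = s` (they are not in `l' = [q]`). (c) `lcv = bb none` (`lcv_al`, E03, `ED.Ok.b_ne`), value `aeval (Sum.elim a b) (E.b (j i) none)` (`aeval_bb`),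
 `a o = s' (pQ o)`, `b o = s' (pP i o)`; `a (some t) = s (x t)`, `b (some t) = s (S (i, t))` are independent (restriction of `s` along an injective map), `aeval a f = 0`, `aeval b f = 0` (`aeval_fQ`, `aeval_fP` and `Q l' s'` for `q`, `w i` in `l'`): `≠ 0` by `hE.gen`.
 STEP. `Function.update s' y r`: the values outside `y :: l'` are unchanged; the relations of `y' ∈ l'`: the value does not change since `(E.alv j y').degreeOf y = 0` (`aeval_update_of_degreeOf_eq_zero`, VJ/C1; E03: `fQ` does not contain `w i`, `z`; `fP i` does not contain `q`.. (not needed), `z`;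
 `al (i, t')` does not contain `z (i, t)`, `t ≠ t'`).
`hF`: `s'` with `s' = s` outside `lE`, all relations hold. With `a, b` as in (c): `b₀ := aeval (Sum.elim a b) (E.b (j i) none) ≠ 0` and `s' (z (i, t)) = b_t / b₀` by `aeval_al`. The variables of `N` are in `T' := {y | y ≠ q, y ≠ w i, ∀ t, y ≠ S (i, t)}`; by `aeval_ne_zero_of_indep` it is enough that `s'` is independent on `T'`.
 `card_indep` (E01): `ι = T`, `κ = T'` (equal cardinality: the permutation `S (i, t) ↔ z (i, t)` of `VE m n` (an involution) maps `T` to `T'`); `s` on `T` is independent; for `y ∈ T`: if `y ∈ T'`, `s y = s' y` lies in the field (algebraic: `isAlgebraic_algebraMap`). If `y = S (i, t)`: `s y = b (some t)` is algebraic over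
 `K(a (some _), b_t / b₀)` by `hE.gen`, and this field is contained in `K(s' y, y ∈ T')` (`IntermediateField.adjoin.mono`; `IsAlgebraic` passes to the bigger field: `IsAlgebraic.tower_top`-like, or work with a polynomial).
-/

universe u

namespace Pool.Agent.Lib.MP_17a322_nt.VA

open MvPolynomial Height
open Pool.Agent.Lib.MP_17a322_nt.VJ
open Pool.Agent.Lib.MP_17a322_nt.VN

/-- Algebraic elements over bigger fields. -/
theorem isAlgebraic_adjoin_mono {K : Type u} [Field K] {Ω : Type u} [Field Ω] [Algebra K Ω]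
    {S S' : Set Ω} (h : S ⊆ S') {a : Ω} (ha : IsAlgebraic (IntermediateField.adjoin K S) a) :
    IsAlgebraic (IntermediateField.adjoin K S') a := by
  obtain ⟨p, hp, hpa⟩ := ha
  have hle : IntermediateField.adjoin K S ≤ IntermediateField.adjoin K S' :=
    IntermediateField.adjoin.mono K S S' h
  refine ⟨p.map (IntermediateField.inclusion hle : IntermediateField.adjoin K S →+*
    IntermediateField.adjoin K S'), ?_, ?_⟩
  · exact (Polynomial.map_ne_zero_iff (RingHom.injective _)).2 hp
  · rw [Polynomial.aeval_def, Polynomial.eval₂_map]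
    rw [Polynomial.aeval_def] at hpa
    exact hpa

private theorem e04_suffix {α : Type*} (L : List α) (a b y : α) (l' : List α)
    (h : (y :: l') <:+ L ++ [a, b]) :
    (y ∈ L ∧ a ∈ l' ∧ b ∈ l' ∧ ∀ y' ∈ l', y' ∈ L ∨ y' = a ∨ y' = b) ∨
      (y = a ∧ l' = [b]) ∨ (y = b ∧ l' = []) := by
  induction L with
  | nil =>
    rw [List.nil_append, List.suffix_cons_iff, List.suffix_cons_iff] at h
    rcases h with h | h | h
    · right
      left
      exact ⟨(List.cons.inj h).1, (List.cons.inj h).2⟩
    · right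
      right
      exact ⟨(List.cons.inj h).1, (List.cons.inj h).2⟩
    · rw [List.suffix_nil] at h
      exact absurd h (List.cons_ne_nil _ _)
  | cons c L ih =>
    rw [List.cons_append, List.suffix_cons_iff] at h
    rcases h with h | h
    · left
      obtain ⟨h1, h2⟩ := List.cons.inj h
      rw [h1, h2]
      refine ⟨List.mem_cons_self, ?_, ?_, ?_⟩
      · simp
      · simp
      · intro y' hy'
        rw [List.mem_append, List.mem_cons, List.mem_cons] at hy'
        rcases hy' with h3 | h3 | h3 | h3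
        · exact Or.inl (List.mem_cons_of_mem _ h3)
        · exact Or.inr (Or.inl h3)
        · exact Or.inr (Or.inr h3)
        · exact absurd h3 List.not_mem_nil
    · rcases ih h with ⟨h1, h2, h3, h4⟩ | h1 | h1
      · left
        refine ⟨List.mem_cons_of_mem _ h1, h2, h3, fun y' hy' => ?_⟩
        rcases h4 y' hy' with h5 | h5
        · exact Or.inl (List.mem_cons_of_mem _ h5)
        · exact Or.inr h5
      · exact Or.inr (Or.inl h1)
      · exact Or.inr (Or.inr h1)

private theorem e04_mem {m n : ℕ} (i : Fin m) (y : VE m n) :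
    y ∈ lE m n i ↔ (∃ t, y = VE.z (i, t)) ∨ y = VE.w i ∨ y = VE.q := by
  unfold lE
  rw [List.mem_append, List.mem_map, List.mem_cons, List.mem_cons]
  constructor
  · rintro (⟨t, -, ht⟩ | h | h | h)
    · exact Or.inl ⟨t, ht.symm⟩
    · exact Or.inr (Or.inl h)
    · exact Or.inr (Or.inr h)
    · exact absurd h List.not_mem_nil
  · rintro (⟨t, ht⟩ | h | h)
    · exact Or.inl ⟨t, List.mem_finRange t, ht.symm⟩
    · exact Or.inr (Or.inl h)
    · exact Or.inr (Or.inr (Or.inl h))

/-- The exchange of `S (i, t)` and `z (i, t)`. -/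
private def e04_sw {m n : ℕ} (i : Fin m) : VE m n → VE m n
  | VE.S p => if p.1 = i then VE.z p else VE.S p
  | VE.z p => if p.1 = i then VE.S p else VE.z p
  | VE.x t => VE.x t
  | VE.q => VE.q
  | VE.w i' => VE.w i'
  | VE.v p => VE.v p

private theorem e04_sw_sw {m n : ℕ} (i : Fin m) (y : VE m n) : e04_sw i (e04_sw i y) = y := by
  cases y with
  | x t => rfl
  | q => rfl
  | w i' => rfl
  | v p => rfl
  | S p =>
    by_cases h : p.1 = i
    · simp [e04_sw, h]
    · simp [e04_sw, h]
  | z p =>
    by_cases h : p.1 = i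
    · simp [e04_sw, h]
    · simp [e04_sw, h]

private theorem e04_card {m n : ℕ} (i : Fin m) :
    Nat.card {y : VE m n | y ≠ VE.q ∧ y ≠ VE.w i ∧ ∀ t, y ≠ VE.S (i, t)} ≤
      Nat.card {y : VE m n | y ≠ VE.q ∧ y ≠ VE.w i ∧ ∀ t, y ≠ VE.z (i, t)} := by
  have hmem : ∀ y : VE m n, (y ≠ VE.q ∧ y ≠ VE.w i ∧ ∀ t, y ≠ VE.S (i, t)) →
      (e04_sw i y ≠ VE.q ∧ e04_sw i y ≠ VE.w i ∧ ∀ t, e04_sw i y ≠ VE.z (i, t)) := by
    rintro y ⟨h1, h2, h3⟩
    refine ⟨fun h => h1 ?_, fun h => h2 ?_, fun t h => h3 t ?_⟩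
    · rw [← e04_sw_sw i y, h]
      rfl
    · rw [← e04_sw_sw i y, h]
      rfl
    · rw [← e04_sw_sw i y, h]
      simp [e04_sw]
  refine Nat.card_le_card_of_injective
    (fun y : {y : VE m n | y ≠ VE.q ∧ y ≠ VE.w i ∧ ∀ t, y ≠ VE.S (i, t)} =>
      (⟨e04_sw i y.1, hmem y.1 y.2⟩ :
        {y : VE m n | y ≠ VE.q ∧ y ≠ VE.w i ∧ ∀ t, y ≠ VE.z (i, t)})) ?_
  intro y y' h
  have h1 : e04_sw i y.1 = e04_sw i y'.1 := congrArg Subtype.val h
  have h2 := congrArg (e04_sw i) h1
  rw [e04_sw_sw, e04_sw_sw] at h2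
  exact Subtype.ext h2

theorem ELL_alv_ne_zero {K : Type u} [Field K] [NumberField K] {m n : ℕ} {E : ED K n} {C : ℝ}
    (hE : E.Ok C) (j : Fin m → ℕ) (i : Fin m) (N : MvPolynomial (VE m n) K) (hN : N ≠ 0)
    (hq : N.degreeOf VE.q = 0) (hw : N.degreeOf (VE.w i) = 0)
    (hS : ∀ t, N.degreeOf (VE.S (i, t)) = 0) : ELL (E.alv j) (lE m n i) N ≠ 0 := by
  obtain ⟨Ω, _, _, _, s, hs⟩ := L2A2_generic K (VE m n)
  have hinj : ∀ F : MvPolynomial (VE m n) K, F ≠ 0 → aeval s F ≠ 0 := fun F hF h0 =>
    hF ((injective_iff_map_eq_zero (aeval s : MvPolynomial (VE m n) K →ₐ[K] Ω)).1 hs F h0)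
  have hbne : E.b (j i) none ≠ 0 := hE.b_ne (j i)
  -- a point with the relations of `q` and `w i` and the generic values elsewhere
  have hgen : ∀ s' : VE m n → Ω, (∀ t, s' (VE.x t) = s (VE.x t)) →
      (∀ t, s' (VE.S (i, t)) = s (VE.S (i, t))) → aeval s' (E.fQ m) = 0 →
      aeval s' (E.fP i) = 0 → aeval s' (E.bb j i none) ≠ 0 ∧
      ∀ t : Fin n, IsAlgebraic (IntermediateField.adjoin K
        (Set.range (fun t : Fin n => s' (VE.x t)) ∪ Set.range fun t : Fin n =>
          aeval s' (E.bb j i (some t)) / aeval s' (E.bb j i none))) (s' (VE.S (i, t))) := by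
    intro s' hx hS' hQ hP
    have hi : AlgebraicIndependent K
        (Sum.elim (fun t : Fin n => s' (pQ (some t))) (fun t : Fin n => s' (pP i (some t))) :
          Fin n ⊕ Fin n → Ω) := by
      have hg : Function.Injective
          (Sum.elim (fun t : Fin n => (VE.x t : VE m n)) (fun t : Fin n => VE.S (i, t))) := by
        rintro (t | t) (t' | t') h
        · have h' : (VE.x t : VE m n) = VE.x t' := h
          rw [VE.x.inj h']
        · have h' : (VE.x t : VE m n) = VE.S (i, t') := h
          cases h'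
        · have h' : (VE.S (i, t) : VE m n) = VE.x t' := h
          cases h'
        · have h' : (VE.S (i, t) : VE m n) = VE.S (i, t') := h
          rw [(Prod.mk.inj (VE.S.inj h')).2]
      have h1 := hs.comp _ hg
      have h2 : (s ∘ Sum.elim (fun t : Fin n => (VE.x t : VE m n))
          (fun t : Fin n => VE.S (i, t))) =
          (Sum.elim (fun t : Fin n => s' (pQ (some t))) (fun t : Fin n => s' (pP i (some t))) :
            Fin n ⊕ Fin n → Ω) := by
        funext t
        rcases t with t | t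
        · exact (hx t).symm
        · exact (hS' t).symm
      rw [h2] at h1
      exact h1
    rw [aeval_fQ] at hQ
    rw [aeval_fP] at hP
    have h3 := hE.gen Ω (j i) (fun o => s' (pQ o)) (fun o => s' (pP i o)) hi hQ hP
    have key : ∀ G : Option (Fin n) → Ω,
        (fun o => aeval (Sum.elim (fun o => s' (pQ o)) fun o => s' (pP i o)) (E.b (j i) o)) = G →
        G none ≠ 0 ∧ ∀ t : Fin n, IsAlgebraic (IntermediateField.adjoin K
          (Set.range (fun t : Fin n => s' (VE.x t)) ∪ Set.range fun t : Fin n =>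
            G (some t) / G none)) (s' (VE.S (i, t))) := by
      rintro G rfl
      exact h3
    exact key (fun o => aeval s' (E.bb j i o)) (funext fun o => (aeval_bb E j i o s').symm)
  intro h0
  refine ELL_ne_zero_at (E.alv j) (lE m n i) N s
    (fun l' s' => (∀ y, y ∉ l' → s' y = s y) ∧ ∀ y ∈ l', aeval s' (E.alv j y) = 0)
    ⟨fun _ _ => rfl, fun y hy => absurd hy List.not_mem_nil⟩ ?_ ?_ (by rw [h0, map_zero])
  · -- the steps
    rintro y l' s' hl ⟨hQ1, hQ2⟩
    have hsuf : (y :: l') <:+ ((List.finRange n).map fun t => VE.z (i, t)) ++ [VE.w i, VE.q] := hl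
    have hupd : (∀ y' ∈ l', y' ≠ y → (E.alv j y').degreeOf y = 0) →
        ∀ r, aeval (Function.update s' y r) (E.alv j y) = 0 →
        (∀ y', y' ∉ y :: l' → Function.update s' y r y' = s y') ∧
          ∀ y' ∈ y :: l', aeval (Function.update s' y r) (E.alv j y') = 0 := by
      intro hdeg r hr
      refine ⟨fun y' hy' => ?_, fun y' hy' => ?_⟩
      · rw [List.mem_cons, not_or] at hy'
        rw [Function.update_of_ne hy'.1]
        exact hQ1 y' hy'.2
      · by_cases hyy : y' = y
        · rw [hyy]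
          exact hr
        · have hy2 : y' ∈ l' := (List.mem_cons.1 hy').resolve_left hyy
          rw [aeval_update_of_degreeOf_eq_zero y s' r (hdeg y' hy2 hyy)]
          exact hQ2 y' hy2
    rcases e04_suffix _ _ _ _ _ hsuf with ⟨h1, h2, h3, h4⟩ | ⟨h1, h2⟩ | ⟨h1, h2⟩
    · -- `y = z (i, t)`
      rw [List.mem_map] at h1
      obtain ⟨t, -, rfl⟩ := h1
      have hxl : ∀ t', (VE.x t' : VE m n) ∉ l' := by
        intro t' ht'
        rcases h4 _ ht' with h5 | h5 | h5
        · rw [List.mem_map] at h5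
          obtain ⟨u, -, hu⟩ := h5
          cases hu
        · cases h5
        · cases h5
      have hSl : ∀ t', (VE.S (i, t') : VE m n) ∉ l' := by
        intro t' ht'
        rcases h4 _ ht' with h5 | h5 | h5
        · rw [List.mem_map] at h5
          obtain ⟨u, -, hu⟩ := h5
          cases hu
        · cases h5
        · cases h5
      refine ⟨?_, hupd ?_⟩
      · have h5 : lcv (VE.z (i, t)) (E.alv j (VE.z (i, t))) = E.bb j i none :=
          lcv_al E j (i, t) hbne
        rw [h5]
        exact (hgen s' (fun t' => hQ1 _ (hxl t')) (fun t' => hQ1 _ (hSl t')) (hQ2 _ h3)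
          (hQ2 _ h2)).1
      · intro y' hy' hne
        rcases h4 y' hy' with h5 | h5 | h5
        · rw [List.mem_map] at h5
          obtain ⟨u, -, rfl⟩ := h5
          refine degreeOf_al_eq_zero E j (i, u) _ ?_ ?_ ?_
          · rintro (_ | o) h <;> cases h
          · rintro (_ | o) h <;> cases h
          · exact fun h => hne h.symm
        · rw [h5]
          refine degreeOf_fP_eq_zero E i _ ?_
          rintro (_ | o) h <;> cases h
        · rw [h5]
          refine degreeOf_fQ_eq_zero E _ ?_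
          rintro (_ | o) h <;> cases h
    · -- `y = w i`
      subst h1
      subst h2
      have hs' : s' = Function.update s VE.q (s' VE.q) := by
        funext y'
        by_cases hy' : y' = VE.q
        · rw [hy', Function.update_self]
        · rw [Function.update_of_ne hy']
          exact hQ1 y' (by rw [List.mem_singleton]; exact hy')
      have hne : E.fP i ≠ 0 := by
        intro h
        apply hE.f0
        rw [← degreeOf_fP_pP E i none, h, degreeOf_zero]
      have hd : (lcv (VE.w i) (E.fP i)).degreeOf VE.q = 0 := by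
        have h5 : (E.fP i).degreeOf VE.q = 0 := by
          refine degreeOf_fP_eq_zero E i _ ?_
          rintro (_ | o) h <;> cases h
        exact Nat.le_zero.1 ((degreeOf_coeff_vw _ _ _ _).trans h5.le)
      refine ⟨?_, hupd ?_⟩
      · show aeval s' (lcv (VE.w i) (E.fP i)) ≠ 0
        rw [hs', aeval_update_of_degreeOf_eq_zero _ _ _ hd]
        exact hinj _ (J1c_lcv_ne_zero _ hne)
      · intro y' hy' _
        rw [List.mem_singleton] at hy'
        rw [hy']
        refine degreeOf_fQ_eq_zero E _ ?_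
        rintro (_ | o) h <;> cases h
    · -- `y = q`
      subst h1
      subst h2
      have hs' : s' = s := funext fun y' => hQ1 y' List.not_mem_nil
      have hne : E.fQ m ≠ 0 := by
        intro h
        apply hE.f0
        rw [← degreeOf_fQ_pQ (m := m) E none, h, degreeOf_zero]
      refine ⟨?_, hupd fun y' hy' _ => absurd hy' List.not_mem_nil⟩
      show aeval s' (lcv VE.q (E.fQ m)) ≠ 0
      rw [hs']
      exact hinj _ (J1c_lcv_ne_zero _ hne)
  · -- the final point
    rintro s' ⟨hQ1, hQ2⟩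
    have hout : ∀ y, (∀ t, y ≠ VE.z (i, t)) → y ≠ VE.w i → y ≠ VE.q → s' y = s y := by
      intro y h1 h2 h3
      apply hQ1
      rw [e04_mem]
      rintro (⟨t, ht⟩ | h | h)
      · exact h1 t ht
      · exact h2 h
      · exact h3 h
    have hx : ∀ t, s' (VE.x t) = s (VE.x t) := fun t => hout _ (fun t' h => by cases h)
      (fun h => by cases h) (fun h => by cases h)
    have hSS : ∀ t, s' (VE.S (i, t)) = s (VE.S (i, t)) := fun t => hout _ (fun t' h => by cases h)
      (fun h => by cases h) (fun h => by cases h)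
    have hrq : aeval s' (E.fQ m) = 0 := hQ2 VE.q ((e04_mem i _).2 (Or.inr (Or.inr rfl)))
    have hrw : aeval s' (E.fP i) = 0 := hQ2 (VE.w i) ((e04_mem i _).2 (Or.inr (Or.inl rfl)))
    obtain ⟨hb0, halg⟩ := hgen s' hx hSS hrq hrw
    have hz : ∀ t, s' (VE.z (i, t)) =
        aeval s' (E.bb j i (some t)) / aeval s' (E.bb j i none) := by
      intro t
      have h1 : aeval s' (E.al j (i, t)) = 0 :=
        hQ2 (VE.z (i, t)) ((e04_mem i _).2 (Or.inl ⟨t, rfl⟩))
      rw [aeval_al] at h1
      rw [eq_div_iff hb0, mul_comm]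
      exact sub_eq_zero.1 h1
    refine aeval_ne_zero_of_indep {y : VE m n | y ≠ VE.q ∧ y ≠ VE.w i ∧ ∀ t, y ≠ VE.S (i, t)} s'
      ?_ N hN ?_
    · refine card_indep (e04_card i)
        (fun y : {y : VE m n | y ≠ VE.q ∧ y ≠ VE.w i ∧ ∀ t, y ≠ VE.z (i, t)} => s y.1) _
        (hs.comp _ Subtype.val_injective) ?_
      rintro ⟨y, hy1, hy2, hy3⟩
      have hyout : s' y = s y := hout y hy3 hy2 hy1
      by_cases hy4 : ∀ t, y ≠ VE.S (i, t)
      · show IsAlgebraic _ (s y)
        rw [← hyout]
        exact isAlgebraic_algebraMap (⟨s' y, IntermediateField.subset_adjoin K _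
          ⟨⟨y, hy1, hy2, hy4⟩, rfl⟩⟩ : IntermediateField.adjoin K (Set.range
            fun y : {y : VE m n | y ≠ VE.q ∧ y ≠ VE.w i ∧ ∀ t, y ≠ VE.S (i, t)} => s' y.1))
      · push Not at hy4
        obtain ⟨t, rfl⟩ := hy4
        show IsAlgebraic _ (s (VE.S (i, t)))
        rw [← hyout]
        refine isAlgebraic_adjoin_mono ?_ (halg t)
        have hmx : ∀ t', (VE.x t' : VE m n) ≠ VE.q ∧ (VE.x t' : VE m n) ≠ VE.w i ∧
            ∀ t, (VE.x t' : VE m n) ≠ VE.S (i, t) := fun t' =>
          ⟨(fun h => by cases h), (fun h => by cases h), (fun _ h => by cases h)⟩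
        have hmz : ∀ t', (VE.z (i, t') : VE m n) ≠ VE.q ∧ (VE.z (i, t') : VE m n) ≠ VE.w i ∧
            ∀ t, (VE.z (i, t') : VE m n) ≠ VE.S (i, t) := fun t' =>
          ⟨(fun h => by cases h), (fun h => by cases h), (fun _ h => by cases h)⟩
        rintro u (⟨t', rfl⟩ | ⟨t', rfl⟩)
        · exact ⟨⟨VE.x t', hmx t'⟩, rfl⟩
        · exact ⟨⟨VE.z (i, t'), hmz t'⟩, hz t'⟩
    · intro y hy
      have hy' : ¬(y ≠ VE.q ∧ y ≠ VE.w i ∧ ∀ t, y ≠ VE.S (i, t)) := hy
      by_cases h1 : y = VE.q
      · rw [h1]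
        exact hq
      · by_cases h2 : y = VE.w i
        · rw [h2]
          exact hw
        · by_cases h3 : ∃ t, y = VE.S (i, t)
          · obtain ⟨t, rfl⟩ := h3
            exact hS t
          · exact absurd ⟨h1, h2, fun t ht => h3 ⟨t, ht⟩⟩ hy'

end Pool.Agent.Lib.MP_17a322_nt.VA
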