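import Pool.Agent.Lib.MP_17a322_nt.VA.E03
import Pool.Agent.Lib.MP_17a322_nt.VN.L2A2

/-!
Part E of VA: the shift `S (i, r) ↦ S (i, r) + v (i, r)` and the elimination of the dependent coordinates.

JOB E05a: `aeval_sh`, `degreeOf_sh_*`, `QE_sh`.
* `aeval_sh`: `aeval_aeval`-like: both sides are algebra homomorphisms in `M` (`MvPolynomial.algHom_ext` or induction), on `X y` by cases.
* `degreeOf_sh_le`: for monomials: `sh` of a monomial is the product of the powers of `Sh J i X y`, whose degree in `t` is `≤ 1` if `y = t` or (`y = S p`, `t = v p`), else `0`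
  (`degreeOf_sum_le`, `degreeOf_mul_le`, `degreeOf_prod_le`, `degreeOf_pow_le`; monomials `u` of `M` have `u y ≤ M.degreeOf y`). So
  `degreeOf t (sh M) ≤ degreeOf t M` if `t` is not a variable `v (i, r)`, and `degreeOf (v p) (sh M) ≤ degreeOf (v p) M + degreeOf (S p) M`.
* `QE_sh`: `NV v (sh M) ≤ NV v M * ∏ y, (max 1 (NV v (Sh J i X y))) ^ degreeOf y M` (`SN.aeval_le` in VJ/A3 for `SN_NV v`, VJ/A2), `NV v (Sh J i X y) ≤ cst v 2` for `y = S (i, r)`, `r ∉ J` (`SN.sum_le` or the triangle inequality as in `NV_tr_le`, VJ/A6) and `= 1` (`NV_X`) for the other variables, so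
  `NV v (sh M) ≤ cst v (2 ^ k) * NV v M`, `k = ∑ r, M.degreeOf (S (i, r))` (`cst_pow`), `nh_le_of_NV_le` (VJ/A5): `nh (sh M) ≤ nh M + totalWeight K * log (2 ^ k)`, `k ≤ n * b` (`wt ≥ 1`). `M ≠ 0` and `sh M ≠ 0` (`sh_ne_zero`).
* `sh_ne_zero`: `sh` has the inverse `S (i, r) ↦ S (i, r) - v (i, r)`: write it as `aeval`; or: evaluate `sh M` with `Sh`-inverse point: `aeval s' (sh M) = aeval (Sh J i s') M` where `s' = X` with `S (i, r)` replaced by `X (S (i, r)) - X (v (i, r))`: the result is `aeval X M = M ≠ 0`.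

JOB E05b: `ELL_hv_ne_zero`.
PROOF. `Ω`, `s : VE m n → Ω` generic (`L2A2_generic`). `ELL_ne_zero_at` (E01) with `Q l' s' := (∀ y ∉ l', s' y = s y) ∧ ∀ y ∈ l', aeval s' (hv h y) = 0`. Let `y = S (i, r)`, `r ∉ J`. `hv h y = rename _ (h i r)` contains only `S (i, t)`, `t ∈ J`, and `y`; the degree in `y` is `(h i r).degreeOf r ≠ 0`.
 `lcv y (hv h y)` is a nonzero polynomial in `S (i, t)`, `t ∈ J`, where `s' = s`: `aeval_ne_zero_of_indep` (E01). The other relations `y' = S (i, r')` do not contain `y`. `hF`: `aeval s' (sh M) = aeval (Sh J i s') M`. `M` does not contain `v (i, t)`. By `aeval_ne_zero_of_indep` it is enough that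
 `s'' := Sh J i s'` is independent on `T := {y | ∀ t, y ≠ v (i, t)}`. For `y = S (i, r)`, `r ∉ J`: `s'' y = s' y + s (v (i, r))`, otherwise `s'' y = s y` (`y ∈ T`). `card_indep`: `κ = T`, `ι = {y | (∀ t ∈ J, y ≠ v (i, t)) ∧ ∀ r ∉ J, y ≠ S (i, r)}` (same cardinality: the permutation
 `S (i, r) ↔ v (i, r)` for `r ∉ J` of `VE m n`; or an injection `T → ι`: only `Nat.card κ ≤ Nat.card ι` is needed). `s` is independent on `ι`. The elements `s y`, `y ∈ ι`, are algebraic over `F = K(s'' y, y ∈ T)`: for `y ∈ T` clear (`y` is not `S (i, r)`, so `s'' y = s y`). For `y = v (i, r)`, `r ∉ J`: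
 `s' (S (i, r))` is a root of `h i r` over `K(s (S (i, t)), t ∈ J) ⊆ F`, not the zero polynomial since the leading coefficient is not zero, so it is algebraic over `F`, and `s (v (i, r)) = s'' (S (i, r)) - s' (S (i, r))`.
-/

universe u

namespace Pool.Agent.Lib.MP_17a322_nt.VA

open MvPolynomial Height
open Pool.Agent.Lib.MP_17a322_nt.VJ
open Pool.Agent.Lib.MP_17a322_nt.VN

private theorem e05a_deg {K : Type*} [Field K] {σ τ : Type*} [Fintype σ]
    (φ : σ → MvPolynomial τ K) (F : MvPolynomial σ K) (t : τ) (c : σ → ℕ)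
    (hc : ∀ y, (φ y).degreeOf t ≤ c y) (B : ℕ) (hB : ∀ u ∈ F.support, ∑ y, u y * c y ≤ B) :
    (aeval φ F).degreeOf t ≤ B := by
  classical
  have e : aeval φ F = ∑ m ∈ F.support, C (coeff m F) * ∏ s, φ s ^ (m s) := by
    rw [MvPolynomial.aeval_def, MvPolynomial.eval₂_eq']
    rfl
  rw [e]
  refine (degreeOf_sum_le _ _ _).trans (Finset.sup_le fun u hu => ?_)
  refine (degreeOf_C_mul_le _ _ _).trans ?_
  refine (degreeOf_prod_le _ _ _).trans ?_
  refine (Finset.sum_le_sum fun s _ => ?_).trans (hB u hu)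
  refine (degreeOf_pow_le _ _ _).trans ?_
  exact Nat.mul_le_mul_left _ (hc s)

private theorem e05a_X {K : Type*} [Field K] {m n : ℕ} (t y : VE m n) :
    degreeOf t (X y : MvPolynomial (VE m n) K) = if y = t then 1 else 0 := by
  rw [degreeOf_X]
  by_cases h : t = y
  · rw [if_pos h, if_pos h.symm]
  · rw [if_neg h, if_neg (fun h' => h h'.symm)]

private theorem e05a_wt {m n : ℕ} (j : Fin m → ℕ) (y : VE m n) : 1 ≤ wt j y := by
  cases y with
  | x t => exact le_rfl
  | q => exact le_rfl
  | S p => exact one_le_pow₀ (by norm_num)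
  | w i => exact one_le_pow₀ (by norm_num)
  | z p => exact one_le_pow₀ (by norm_num)
  | v p => exact one_le_pow₀ (by norm_num)

private theorem e05a_NV {K : Type*} [Field K] (v : AbsoluteValue K ℝ) {m n : ℕ}
    (J : Finset (Fin n)) (i : Fin m) (y : VE m n) :
    NV v (Sh J i (X : VE m n → MvPolynomial (VE m n) K) y) ≤ cst v 2 := by
  have h1 : (1 : ℝ) ≤ cst v 2 := one_le_cst v (by norm_num)
  cases y with
  | S p =>
    show NV v (if p.1 = i ∧ p.2 ∉ J then X (VE.S p) + X (VE.v p) else X (VE.S p)) ≤ _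
    split_ifs with h
    · by_cases hv : IsNonarchimedean v
      · refine (A2_add_max hv _ _).trans ?_
        rw [NV_X, NV_X, max_self]
        exact h1
      · refine (A2_add v _ _).trans ?_
        rw [NV_X, NV_X, cst, if_neg hv]
        norm_num
    · rw [NV_X]
      exact h1
  | x t => exact (NV_X v _).le.trans h1
  | q => exact (NV_X v _).le.trans h1
  | w i' => exact (NV_X v _).le.trans h1
  | z p => exact (NV_X v _).le.trans h1
  | v p => exact (NV_X v _).le.trans h1

theorem aeval_sh {K : Type*} [CommRing K] {m n : ℕ} (J : Finset (Fin n)) (i : Fin m)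
    {A : Type*} [CommRing A] [Algebra K A] (s : VE m n → A) (M : MvPolynomial (VE m n) K) :
    aeval s (sh J i M) = aeval (Sh J i s) M := by
  unfold sh
  have h : (aeval s : MvPolynomial (VE m n) K →ₐ[K] A).comp
      (aeval (Sh J i (X : VE m n → MvPolynomial (VE m n) K))) = aeval (Sh J i s) := by
    apply MvPolynomial.algHom_ext
    intro y
    rw [AlgHom.comp_apply, aeval_X, aeval_X]
    cases y with
    | S p =>
      show aeval s (if p.1 = i ∧ p.2 ∉ J then X (VE.S p) + X (VE.v p) else X (VE.S p) :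
        MvPolynomial (VE m n) K) =
        if p.1 = i ∧ p.2 ∉ J then s (VE.S p) + s (VE.v p) else s (VE.S p)
      split_ifs
      · rw [map_add, aeval_X, aeval_X]
      · rw [aeval_X]
    | x t => exact aeval_X _ _
    | q => exact aeval_X _ _
    | w i' => exact aeval_X _ _
    | z p => exact aeval_X _ _
    | v p => exact aeval_X _ _
  exact DFunLike.congr_fun h M

theorem sh_ne_zero {K : Type*} [CommRing K] {m n : ℕ} (J : Finset (Fin n)) (i : Fin m)
    (M : MvPolynomial (VE m n) K) (hM : M ≠ 0) : sh J i M ≠ 0 := by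
  intro h0
  apply hM
  let s' : VE m n → MvPolynomial (VE m n) K := fun y =>
    match y with
    | VE.S p => if p.1 = i ∧ p.2 ∉ J then X (VE.S p) - X (VE.v p) else X (VE.S p)
    | y => X y
  have h1 := aeval_sh J i s' M
  have h2 : Sh J i s' = X := by
    funext y
    cases y with
    | S p =>
      show (if p.1 = i ∧ p.2 ∉ J then
        (if p.1 = i ∧ p.2 ∉ J then X (VE.S p) - X (VE.v p) else X (VE.S p)) + X (VE.v p)
        else (if p.1 = i ∧ p.2 ∉ J then X (VE.S p) - X (VE.v p) else X (VE.S p)) :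
          MvPolynomial (VE m n) K) = X (VE.S p)
      split_ifs
      · rw [sub_add_cancel]
      · rfl
    | x t => rfl
    | q => rfl
    | w i' => rfl
    | z p => rfl
    | v p => rfl
  rw [h0, h2, map_zero, aeval_X_left_apply] at h1
  exact h1.symm

theorem degreeOf_sh_le {K : Type*} [Field K] {m n : ℕ} (J : Finset (Fin n)) (i : Fin m)
    (M : MvPolynomial (VE m n) K) (y : VE m n) (hy : ∀ r ∉ J, y ≠ VE.v (i, r)) :
    (sh J i M).degreeOf y ≤ M.degreeOf y := by
  classical
  unfold sh
  refine e05a_deg _ M y (fun y' => if y' = y then 1 else 0) (fun y' => ?_) _ (fun u hu => ?_)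
  · cases y' with
    | S p =>
      show degreeOf y (if p.1 = i ∧ p.2 ∉ J then X (VE.S p) + X (VE.v p) else X (VE.S p) :
        MvPolynomial (VE m n) K) ≤ _
      split_ifs with h1 h2 h2
      · refine (degreeOf_add_le _ _ _).trans (max_le ?_ ?_)
        · rw [e05a_X, if_pos h2]
        · rw [e05a_X]
          split_ifs
          · exact le_rfl
          · exact Nat.zero_le _
      · refine (degreeOf_add_le _ _ _).trans (max_le ?_ ?_)
        · rw [e05a_X, if_neg h2]
        · rw [e05a_X, if_neg]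
          intro h3
          refine hy p.2 h1.2 ?_
          rw [← h3, ← h1.1]
      · rw [e05a_X, if_pos h2]
      · rw [e05a_X, if_neg h2]
    | x t => exact (e05a_X y _).le
    | q => exact (e05a_X y _).le
    | w i' => exact (e05a_X y _).le
    | z p => exact (e05a_X y _).le
    | v p => exact (e05a_X y _).le
  · simp only [mul_ite, mul_one, mul_zero]
    rw [Finset.sum_ite_eq' Finset.univ y (fun y' => u y'), if_pos (Finset.mem_univ _)]
    exact monomial_le_degreeOf _ hu

theorem degreeOf_sh_v_le {K : Type*} [Field K] {m n : ℕ} (J : Finset (Fin n)) (i : Fin m)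
    (M : MvPolynomial (VE m n) K) (p : Fin m × Fin n) :
    (sh J i M).degreeOf (VE.v p) ≤ M.degreeOf (VE.v p) + M.degreeOf (VE.S p) := by
  classical
  unfold sh
  refine e05a_deg _ M (VE.v p) (fun y' => (if y' = VE.v p then 1 else 0) +
    if y' = VE.S p then 1 else 0) (fun y' => ?_) _ (fun u hu => ?_)
  · cases y' with
    | S p' =>
      have hne : (VE.S p' : VE m n) ≠ VE.v p := by
        intro h
        cases h
      show degreeOf (VE.v p) (if p'.1 = i ∧ p'.2 ∉ J then X (VE.S p') + X (VE.v p')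
        else X (VE.S p') : MvPolynomial (VE m n) K) ≤ _
      rw [if_neg hne, zero_add]
      split_ifs with h1 h2 h2
      · refine (degreeOf_add_le _ _ _).trans (max_le ?_ ?_)
        · rw [e05a_X, if_neg hne]
          exact Nat.zero_le _
        · rw [e05a_X]
          split_ifs
          · exact le_rfl
          · exact Nat.zero_le _
      · refine (degreeOf_add_le _ _ _).trans (max_le ?_ ?_)
        · rw [e05a_X, if_neg hne]
        · rw [e05a_X, if_neg]
          intro h3
          have h4 := VE.v.inj h3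
          rw [h4] at h2
          exact h2 rfl
      · rw [e05a_X, if_neg hne]
        exact Nat.zero_le _
      · rw [e05a_X, if_neg hne]
    | x t => exact (e05a_X _ _).le.trans (Nat.le_add_right _ _)
    | q => exact (e05a_X _ _).le.trans (Nat.le_add_right _ _)
    | w i' => exact (e05a_X _ _).le.trans (Nat.le_add_right _ _)
    | z p => exact (e05a_X _ _).le.trans (Nat.le_add_right _ _)
    | v p => exact (e05a_X _ _).le.trans (Nat.le_add_right _ _)
  · simp only [mul_add, mul_ite, mul_one, mul_zero]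
    rw [Finset.sum_add_distrib, Finset.sum_ite_eq' Finset.univ (VE.v p) (fun y' => u y'),
      Finset.sum_ite_eq' Finset.univ (VE.S p) (fun y' => u y'), if_pos (Finset.mem_univ _),
      if_pos (Finset.mem_univ _)]
    exact Nat.add_le_add (monomial_le_degreeOf _ hu) (monomial_le_degreeOf _ hu)

theorem QE_sh (K : Type u) [Field K] [NumberField K] (m n : ℕ) : ∃ C : ℝ, 0 ≤ C ∧
    ∀ (J : Finset (Fin n)) (i : Fin m) (j : Fin m → ℕ) (b H : ℝ) (M : MvPolynomial (VE m n) K),
      M ≠ 0 → QE j b H M → QE j (2 * b) (H + C * b) (sh J i M) := by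
  classical
  refine ⟨totalWeight K * (Fintype.card (VE m n) * Real.log 2), by positivity, ?_⟩
  intro J i j b H M hM hQ
  obtain ⟨hd, hn⟩ := hQ
  have hb : 0 ≤ b := (mul_nonneg (zero_le_one.trans (e05a_wt j (VE.q : VE m n)))
    (Nat.cast_nonneg _)).trans (hd VE.q)
  refine ⟨fun y => ?_, ?_⟩
  · have hw : 0 ≤ wt j y := zero_le_one.trans (e05a_wt j y)
    by_cases hy : ∀ r ∉ J, y ≠ VE.v (i, r)
    · have h1 : ((sh J i M).degreeOf y : ℝ) ≤ M.degreeOf y := by
        exact_mod_cast degreeOf_sh_le J i M y hy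
      have h2 := mul_le_mul_of_nonneg_left h1 hw
      have h3 := hd y
      linarith
    · push Not at hy
      obtain ⟨r, _, rfl⟩ := hy
      have h1 : ((sh J i M).degreeOf (VE.v (i, r)) : ℝ) ≤
          M.degreeOf (VE.v (i, r)) + M.degreeOf (VE.S (i, r)) := by
        exact_mod_cast degreeOf_sh_v_le J i M (i, r)
      have h2 := mul_le_mul_of_nonneg_left h1 hw
      have h3 := hd (VE.v (i, r))
      have h4 := hd (VE.S (i, r))
      have h5 : wt j (VE.v (i, r) : VE m n) = wt j (VE.S (i, r) : VE m n) := rfl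
      rw [mul_add] at h2
      rw [h5] at h2 h3 ⊢
      linarith
  · have h1 : ∀ v : AbsoluteValue K ℝ, Pl v →
        NV v (sh J i M) ≤ cst v (2 ^ ∑ y, M.degreeOf y) * NV v M := by
      intro v _
      refine ((SN_NV v).aeval_le M (fun y => M.degreeOf y) (fun _ => le_rfl) (Sh J i X)).trans ?_
      rw [mul_comm]
      refine mul_le_mul_of_nonneg_right ?_ (A2_nonneg v M)
      rw [cst_pow, ← Finset.prod_pow_eq_pow_sum]
      refine Finset.prod_le_prod (fun y _ => pow_nonneg (zero_le_one.trans (le_max_left _ _)) _)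
        fun y _ => ?_
      refine pow_le_pow_left₀ (zero_le_one.trans (le_max_left _ _)) (max_le ?_ ?_) _
      · exact one_le_cst v (by norm_num)
      · exact e05a_NV v J i y
    have h2 := nh_le_of_NV_le hM (sh_ne_zero J i M hM) (Nat.one_le_two_pow) h1
    have h3 : ((∑ y, M.degreeOf y : ℕ) : ℝ) ≤ Fintype.card (VE m n) * b := by
      rw [Nat.cast_sum]
      refine (Finset.sum_le_card_nsmul _ _ b (fun y _ => ?_)).trans (le_of_eq ?_)
      · refine le_trans ?_ (hd y)
        exact le_mul_of_one_le_left (Nat.cast_nonneg _) (e05a_wt j y)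
      · rw [nsmul_eq_mul, Finset.card_univ]
    have h4 : Real.log ((2 ^ ∑ y, M.degreeOf y : ℕ) : ℝ) ≤
        Fintype.card (VE m n) * b * Real.log 2 := by
      rw [Nat.cast_pow, Real.log_pow, Nat.cast_ofNat]
      exact mul_le_mul_of_nonneg_right h3 (Real.log_nonneg (by norm_num))
    have h5 := mul_le_mul_of_nonneg_left h4 (Nat.cast_nonneg (α := ℝ) (totalWeight K))
    calc nh (sh J i M) ≤ nh M + totalWeight K * Real.log ((2 ^ ∑ y, M.degreeOf y : ℕ) : ℝ) := h2
      _ ≤ H + totalWeight K * (Fintype.card (VE m n) * b * Real.log 2) := add_le_add hn h5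
      _ = H + totalWeight K * (Fintype.card (VE m n) * Real.log 2) * b := by ring

theorem hv_S {K : Type*} [Field K] {m n : ℕ} (h : Fin m → Fin n → MvPolynomial (Fin n) K)
    (i : Fin m) (r : Fin n) :
    hv h (VE.S (i, r)) = rename (fun t => (VE.S (i, t) : VE m n)) (h i r) := rfl

private theorem e05b_degreeOf_eq_zero {K σ : Type*} [CommRing K] {N : MvPolynomial σ K} {y : σ}
    (h : y ∉ N.vars) : N.degreeOf y = 0 := by
  classical
  by_contra h0
  apply h
  rw [degreeOf_def] at h0
  rw [vars_def, Multiset.mem_toFinset]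
  exact Multiset.count_pos.1 (Nat.pos_of_ne_zero h0)

private theorem e05b_mem_vars {K σ : Type*} [CommRing K] {N : MvPolynomial σ K} {y : σ}
    (h : y ∈ N.vars) : N.degreeOf y ≠ 0 := by
  classical
  rw [degreeOf_def]
  rw [vars_def, Multiset.mem_toFinset] at h
  exact (Multiset.count_pos.2 h).ne'

private theorem e05b_congr {K A σ : Type*} [CommRing K] [CommRing A] [Algebra K A]
    {s t : σ → A} {N : MvPolynomial σ K} (h : ∀ y, N.degreeOf y ≠ 0 → s y = t y) :
    aeval s N = aeval t N :=
  eval₂Hom_congr' rfl (fun y hy _ => h y (e05b_mem_vars hy)) rfl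

private theorem e05b_mem {m n : ℕ} {J : Finset (Fin n)} {i : Fin m} {y : VE m n} :
    y ∈ lJ J i ↔ ∃ r, r ∉ J ∧ y = VE.S (i, r) := by
  unfold lJ
  rw [List.mem_map]
  constructor
  · rintro ⟨r, hr, rfl⟩
    rw [List.mem_filter] at hr
    exact ⟨r, of_decide_eq_true hr.2, rfl⟩
  · rintro ⟨r, hr, rfl⟩
    exact ⟨r, List.mem_filter.2 ⟨List.mem_finRange r, decide_eq_true hr⟩, rfl⟩

private theorem e05b_inj {m n : ℕ} (i : Fin m) :
    Function.Injective (fun t : Fin n => (VE.S (i, t) : VE m n)) := by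
  intro a b h
  injection h with h
  exact (Prod.mk.inj h).2

private theorem e05b_nodup {m n : ℕ} (J : Finset (Fin n)) (i : Fin m) :
    (lJ J i : List (VE m n)).Nodup :=
  ((List.nodup_finRange n).filter _).map (e05b_inj i)

section

variable {K : Type u} [Field K] {m n : ℕ}

private theorem e05b_deg (h : Fin m → Fin n → MvPolynomial (Fin n) K) (i : Fin m) (r t : Fin n) :
    (hv h (VE.S (i, r))).degreeOf (VE.S (i, t)) = (h i r).degreeOf t := by
  rw [hv_S]
  exact degreeOf_rename_of_injective (e05b_inj i) t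

private theorem e05b_deg_zero (h : Fin m → Fin n → MvPolynomial (Fin n) K) (i : Fin m)
    (r : Fin n) (z : VE m n) (hz : ∀ t, z ≠ VE.S (i, t)) : (hv h (VE.S (i, r))).degreeOf z = 0 := by
  classical
  rw [hv_S]
  apply e05b_degreeOf_eq_zero
  intro h0
  obtain ⟨t, _, ht⟩ := Finset.mem_image.1 (vars_rename _ _ h0)
  exact hz t ht.symm

end

section

variable {K : Type u} [Field K] [NumberField K] {m n : ℕ} {J : Finset (Fin n)} {D : ℕ}
  {j : Fin m → ℕ} {h : Fin m → Fin n → MvPolynomial (Fin n) K}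

/-- the coefficients contain only the variables `S (i, t)`, `t ∈ J` -/
private theorem e05b_coeff (hh : HC J D j h) (i : Fin m) (r : Fin n) (hr : r ∉ J) (k : ℕ)
    (z : VE m n) (hz : ((vw (VE.S (i, r)) (hv h (VE.S (i, r)))).coeff k).degreeOf z ≠ 0) :
    ∃ t ∈ J, z = VE.S (i, t) := by
  by_contra hcon
  push Not at hcon
  apply hz
  by_cases h1 : ∃ t, z = VE.S (i, t)
  · obtain ⟨t, rfl⟩ := h1
    by_cases htr : t = r
    · subst htr
      exact degreeOf_coeff_vw_self _ _ _
    · have htJ : t ∉ J := fun h2 => hcon t h2 rfl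
      have h2 := degreeOf_coeff_vw (VE.S (i, r)) (hv h (VE.S (i, r))) k (VE.S (i, t))
      rw [e05b_deg, (hh i r hr).2.2.1 t htJ htr] at h2
      exact Nat.le_zero.1 h2
  · push Not at h1
    have h2 := degreeOf_coeff_vw (VE.S (i, r)) (hv h (VE.S (i, r))) k z
    rw [e05b_deg_zero h i r z h1] at h2
    exact Nat.le_zero.1 h2

private theorem e05b_hv_ne (hh : HC J D j h) (i : Fin m) (r : Fin n) (hr : r ∉ J) :
    hv h (VE.S (i, r)) ≠ 0 := by
  intro h0
  apply (hh i r hr).1
  rw [← e05b_deg h i r r, h0, degreeOf_zero]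

private theorem e05b_lcv {Ω : Type u} [Field Ω] [Algebra K Ω] (hh : HC J D j h) (i : Fin m)
    (r : Fin n) (hr : r ∉ J) (s s' : VE m n → Ω) (hs : AlgebraicIndependent K s)
    (hss : ∀ t ∈ J, s' (VE.S (i, t)) = s (VE.S (i, t))) :
    aeval s' (lcv (VE.S (i, r)) (hv h (VE.S (i, r)))) ≠ 0 := by
  have h1 : aeval s' (lcv (VE.S (i, r)) (hv h (VE.S (i, r)))) =
      aeval s (lcv (VE.S (i, r)) (hv h (VE.S (i, r)))) := by
    apply e05b_congr
    intro z hz
    obtain ⟨t, ht, rfl⟩ := e05b_coeff hh i r hr _ z hz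
    exact hss t ht
  rw [h1]
  intro h0
  exact J1c_lcv_ne_zero _ (e05b_hv_ne hh i r hr) (hs.eq_zero_of_aeval_eq_zero _ h0)

/-- the coordinate `S (i, r)` is algebraic over each field which contains the `S (i, t)`, `t ∈ J` -/
private theorem e05b_alg {Ω : Type u} [Field Ω] [Algebra K Ω] (hh : HC J D j h) (i : Fin m)
    (r : Fin n) (hr : r ∉ J) (s s' : VE m n → Ω) (hs : AlgebraicIndependent K s)
    (hss : ∀ t ∈ J, s' (VE.S (i, t)) = s (VE.S (i, t))) (h0 : aeval s' (hv h (VE.S (i, r))) = 0)
    (F : IntermediateField K Ω) (hF : ∀ t ∈ J, s (VE.S (i, t)) ∈ F) :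
    IsAlgebraic F (s' (VE.S (i, r))) := by
  classical
  let θ : VE m n → F := fun z => if hz : ∃ t ∈ J, z = VE.S (i, t) then
    ⟨s z, by obtain ⟨t, ht, rfl⟩ := hz; exact hF t ht⟩ else 0
  have hθ : ∀ t ∈ J, ((θ (VE.S (i, t)) : F) : Ω) = s (VE.S (i, t)) := by
    intro t ht
    have hz : ∃ t' ∈ J, (VE.S (i, t) : VE m n) = VE.S (i, t') := ⟨t, ht, rfl⟩
    show (((if hz : ∃ t' ∈ J, (VE.S (i, t) : VE m n) = VE.S (i, t') then
      (⟨s (VE.S (i, t)), _⟩ : F) else 0) : F) : Ω) = _
    rw [dif_pos hz]
  have hc : ∀ k, algebraMap F Ω (aeval θ ((vw (VE.S (i, r)) (hv h (VE.S (i, r)))).coeff k)) =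
      aeval s' ((vw (VE.S (i, r)) (hv h (VE.S (i, r)))).coeff k) := by
    intro k
    have h1 : algebraMap F Ω (aeval θ ((vw (VE.S (i, r)) (hv h (VE.S (i, r)))).coeff k)) =
        aeval (fun z => algebraMap F Ω (θ z))
          ((vw (VE.S (i, r)) (hv h (VE.S (i, r)))).coeff k) := by
      rw [← aeval_algebraMap_apply]
      rfl
    rw [h1]
    apply e05b_congr
    intro z hz
    obtain ⟨t, ht, rfl⟩ := e05b_coeff hh i r hr k z hz
    exact (hθ t ht).trans (hss t ht).symm
  refine ⟨(vw (VE.S (i, r)) (hv h (VE.S (i, r)))).map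
    (aeval θ : MvPolynomial (VE m n) K →ₐ[K] F).toRingHom, ?_, ?_⟩
  · intro hp
    have h1 := congrArg (fun q => Polynomial.coeff q
      ((hv h (VE.S (i, r))).degreeOf (VE.S (i, r)))) hp
    simp only [Polynomial.coeff_map, Polynomial.coeff_zero] at h1
    apply e05b_lcv hh i r hr s s' hs hss
    have h2 := hc ((hv h (VE.S (i, r))).degreeOf (VE.S (i, r)))
    unfold lcv
    rw [← h2]
    have h3 : aeval θ ((vw (VE.S (i, r)) (hv h (VE.S (i, r)))).coeff
      ((hv h (VE.S (i, r))).degreeOf (VE.S (i, r)))) = 0 := h1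
    rw [h3, map_zero]
  · rw [Polynomial.aeval_def, Polynomial.eval₂_eq_eval_map, Polynomial.map_map]
    have h1 : (vw (VE.S (i, r)) (hv h (VE.S (i, r)))).map ((algebraMap F Ω).comp
        (aeval θ : MvPolynomial (VE m n) K →ₐ[K] F).toRingHom) =
        (vw (VE.S (i, r)) (hv h (VE.S (i, r)))).map
          (aeval s' : MvPolynomial (VE m n) K →ₐ[K] Ω).toRingHom := by
      apply Polynomial.ext
      intro k
      rw [Polynomial.coeff_map, Polynomial.coeff_map]
      exact hc k
    rw [h1, aeval_vw', h0]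

end

theorem ELL_hv_ne_zero {K : Type u} [Field K] [NumberField K] {m n : ℕ} {J : Finset (Fin n)}
    {D : ℕ} {j : Fin m → ℕ} {h : Fin m → Fin n → MvPolynomial (Fin n) K} (hh : HC J D j h)
    (i : Fin m) (M : MvPolynomial (VE m n) K) (hM : M ≠ 0)
    (hMv : ∀ t, M.degreeOf (VE.v (i, t)) = 0) : ELL (hv h) (lJ J i) (sh J i M) ≠ 0 := by
  classical
  obtain ⟨Ω, _, _, _, s, hs⟩ := L2A2_generic K (VE m n)
  intro h0
  have hsJ : ∀ (l' : List (VE m n)) (s' : VE m n → Ω), l' ⊆ lJ J i →
      (∀ y ∉ l', s' y = s y) → ∀ t ∈ J, s' (VE.S (i, t)) = s (VE.S (i, t)) := by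
    intro l' s' hl' hs' t ht
    apply hs'
    intro hmem
    obtain ⟨r, hr, hrt⟩ := e05b_mem.1 (hl' hmem)
    have h1 : t = r := e05b_inj i hrt
    exact hr (h1 ▸ ht)
  have key : aeval s (ELL (hv h) (lJ J i) (sh J i M)) ≠ 0 := by
    refine ELL_ne_zero_at (hv h) (lJ J i) (sh J i M) s
      (fun l' s' => (∀ y ∉ l', s' y = s y) ∧ ∀ y ∈ l', aeval s' (hv h y) = 0)
      ⟨fun _ _ => rfl, fun y hy => absurd hy List.not_mem_nil⟩ ?_ ?_
    · rintro y l' s' hsuf ⟨hs1, hs2⟩
      have hsub : (y :: l') ⊆ lJ J i := hsuf.subset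
      have hnd : (y :: l').Nodup := (e05b_nodup J i).sublist hsuf.sublist
      obtain ⟨r, hr, rfl⟩ := e05b_mem.1 (hsub List.mem_cons_self)
      have hl' : l' ⊆ lJ J i := fun z hz => hsub (List.mem_cons_of_mem _ hz)
      refine ⟨e05b_lcv hh i r hr s s' hs (hsJ l' s' hl' hs1), ?_⟩
      intro ρ hρ
      refine ⟨?_, ?_⟩
      · intro z hz
        rw [List.mem_cons, not_or] at hz
        rw [Function.update_of_ne hz.1]
        exact hs1 z hz.2
      · intro z hz
        rcases List.mem_cons.1 hz with hz | hz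
        · rw [hz]
          exact hρ
        · obtain ⟨r', hr', rfl⟩ := e05b_mem.1 (hl' hz)
          have hne : r ≠ r' := by
            rintro rfl
            exact (List.nodup_cons.1 hnd).1 hz
          rw [aeval_update_of_degreeOf_eq_zero]
          · exact hs2 _ hz
          · rw [e05b_deg]
            exact (hh i r' hr').2.2.1 r hr hne
    · rintro s' ⟨hs1, hs2⟩
      rw [aeval_sh]
      refine aeval_ne_zero_of_indep {y | ∀ t, y ≠ VE.v (i, t)} (Sh J i s') ?_ M hM ?_
      · let g : VE m n → VE m n := fun y => match y with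
          | VE.S p => if p.1 = i ∧ p.2 ∉ J then VE.v p else VE.S p
          | VE.x t => VE.x t
          | VE.q => VE.q
          | VE.w i' => VE.w i'
          | VE.z p => VE.z p
          | VE.v p => VE.v p
        have hgS : ∀ p : Fin m × Fin n, p.1 = i → p.2 ∉ J → g (VE.S p) = VE.v p :=
          fun p h1 h2 => if_pos ⟨h1, h2⟩
        have hgS' : ∀ p : Fin m × Fin n, ¬(p.1 = i ∧ p.2 ∉ J) → g (VE.S p) = VE.S p :=
          fun p h1 => if_neg h1
        have hgc : ∀ y : VE m n, (∃ r, r ∉ J ∧ y = VE.S (i, r) ∧ g y = VE.v (i, r)) ∨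
            (y ∉ lJ J i ∧ g y = y) := by
          intro y
          by_cases hy : y ∈ lJ J i
          · obtain ⟨r, hr, rfl⟩ := e05b_mem.1 hy
            exact Or.inl ⟨r, hr, rfl, hgS (i, r) rfl hr⟩
          · refine Or.inr ⟨hy, ?_⟩
            cases y with
            | S p =>
              apply hgS'
              rintro ⟨h1, h2⟩
              apply hy
              apply e05b_mem.2
              refine ⟨p.2, h2, ?_⟩
              rw [← h1]
            | x t => rfl
            | q => rfl
            | w i' => rfl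
            | z p => rfl
            | v p => rfl
        have hg : Function.Injective (fun y : {y : VE m n | ∀ t, y ≠ VE.v (i, t)} => g y) := by
          rintro ⟨a, ha⟩ ⟨b, hb⟩ hab
          have hab' : g a = g b := hab
          apply Subtype.ext
          show a = b
          rcases hgc a with ⟨r, _, rfl, hga⟩ | ⟨_, hga⟩ <;>
            rcases hgc b with ⟨r', _, rfl, hgb⟩ | ⟨_, hgb⟩
          · rw [hga, hgb] at hab'
            injection hab' with hab'
            rw [hab']
          · rw [hga, hgb] at hab'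
            exact absurd hab'.symm (hb r)
          · rw [hga, hgb] at hab'
            exact absurd hab' (ha r')
          · rw [hga, hgb] at hab'
            exact hab'
        have hShS : ∀ r, r ∉ J → Sh J i s' (VE.S (i, r)) =
            s' (VE.S (i, r)) + s' (VE.v (i, r)) := fun r hr => if_pos ⟨rfl, hr⟩
        have hSh : ∀ y : VE m n, y ∉ lJ J i → Sh J i s' y = s y := by
          intro y hy
          rw [← hs1 y hy]
          cases y with
          | S p =>
            apply if_neg
            rintro ⟨h1, h2⟩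
            apply hy
            apply e05b_mem.2
            refine ⟨p.2, h2, ?_⟩
            rw [← h1]
          | x t => rfl
          | q => rfl
          | w i' => rfl
          | z p => rfl
          | v p => rfl
        refine Pool.Agent.Lib.MP_17a322_nt.RV.indep_of_algebraic
          (fun y : {y : VE m n | ∀ t, y ≠ VE.v (i, t)} => s (g y)) _ (hs.comp _ hg) ?_
        have hrange : ∀ (F : IntermediateField K Ω), F = IntermediateField.adjoin K
            (Set.range fun y : {y : VE m n | ∀ t, y ≠ VE.v (i, t)} => Sh J i s' y) →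
            ∀ y : VE m n, (∀ t, y ≠ VE.v (i, t)) → Sh J i s' y ∈ F := by
          rintro F rfl y hy
          exact IntermediateField.subset_adjoin _ _ ⟨⟨y, hy⟩, rfl⟩
        rintro ⟨b, hb⟩
        show IsAlgebraic (IntermediateField.adjoin K
          (Set.range fun y : {y : VE m n | ∀ t, y ≠ VE.v (i, t)} => Sh J i s' y)) (s (g b))
        generalize hFdef : IntermediateField.adjoin K
          (Set.range fun y : {y : VE m n | ∀ t, y ≠ VE.v (i, t)} => Sh J i s' y) = F
        have hmemF := hrange F hFdef.symm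
        rcases hgc b with ⟨r, hr, rfl, hgb⟩ | ⟨hbJ, hgb⟩
        · rw [hgb]
          have hmem : (VE.S (i, r) : VE m n) ∈ lJ J i := e05b_mem.2 ⟨r, hr, rfl⟩
          have h1 : IsAlgebraic F (s' (VE.S (i, r))) := by
            refine e05b_alg hh i r hr s s' hs (hsJ (lJ J i) s' (List.Subset.refl _) hs1)
              (hs2 _ hmem) F ?_
            intro t ht
            have h2 : (VE.S (i, t) : VE m n) ∉ lJ J i := by
              intro h3
              obtain ⟨r', hr', hrt⟩ := e05b_mem.1 h3
              have h4 : t = r' := e05b_inj i hrt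
              exact hr' (h4 ▸ ht)
            rw [← hSh _ h2]
            apply hmemF
            intro t' h3
            cases h3
          have h2 : IsAlgebraic F (Sh J i s' (VE.S (i, r))) :=
            isAlgebraic_algebraMap (⟨Sh J i s' (VE.S (i, r)), hmemF _ hb⟩ : F)
          have h3 : s (VE.v (i, r)) = Sh J i s' (VE.S (i, r)) - s' (VE.S (i, r)) := by
            rw [hShS r hr, add_sub_cancel_left]
            refine (hs1 _ ?_).symm
            intro h4
            obtain ⟨r', _, h5⟩ := e05b_mem.1 h4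
            cases h5
          rw [h3]
          exact h2.sub h1
        · rw [hgb, ← hSh b hbJ]
          exact isAlgebraic_algebraMap (⟨Sh J i s' b, hmemF b hb⟩ : F)
      · intro y hy
        have h1 : ∃ t, y = VE.v (i, t) := by
          by_contra hcon
          push Not at hcon
          exact hy hcon
        obtain ⟨t, rfl⟩ := h1
        exact hMv t
  rw [h0, map_zero] at key
  exact key rfl

end Pool.Agent.Lib.MP_17a322_nt.VA
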