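import Pool.Agent.Lib.MP_17a322_nt.VA.E00
import Pool.Agent.Lib.MP_17a322_nt.VJ.A5

/-!
JOB E06. Part E of VA: lowest forms in the variables `v (i, t)`.

`lw i k M` is the component of `M` of weight `k` for the weights `om i` (`1` for `v (i, t)`, `0` otherwise), Mathlib `weightedHomogeneousComponent`, coefficients `coeff_weightedHomogeneousComponent`.
* `exists_lw`: `M = ∑ lw i k M` (`sum_weightedHomogeneousComponent` or via coefficients: take `u ∈ M.support` with minimal weight `R`): the coefficient of `u` in `lw i R M` is that of `M`, so `≠ 0`; for `k < R` all coefficients of `lw i k M` are `0`.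
  `R = weight u = ∑ t, u (v (i, t)) ≤ ∑ t, M.degreeOf (v (i, t))` (`Finsupp.weight_apply`, `Finsupp.sum`; `monomial_le_degreeOf`).
* `degreeOf_lw_le`: the support of `lw` is contained in that of `M` (`degreeOf_eq_sup`/`degreeOf_le_iff`).
* `nh_lw_le`: `NV_le_of_coeff`-like (VJ/A2; compare `nh_cb_le` in VN/L2B1), then `nh_le_of_NV_le` (VJ/A5) with `n = 1`.
* `coeff_aeval_lw`: let `s : VE m n → PowerSeries A` with `constantCoeff (s (v (i, t))) = 0` for all `t`. For a monomial `u` of weight `k` (`om i`): `aeval s (monomial u a) = a • ∏ y, s y ^ u y`; with `s (v (i, t)) = X * s' (v (i, t))` this is `X ^ k * (a • ∏ ...)`; its coefficients below `k` vanish and the coefficient of `X ^ k` is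
  `a • ∏ (constantCoeff (s y)) ^ u y * ∏ (coeff 1 (s (v (i, t)))) ^ u (v (i, t))`. Sum over the monomials: if all `lw i k M`, `k < R`, vanish, then all monomials of `M` have weight `≥ R`, so the coefficients of `aeval s M` below `R` vanish and the coefficient of `X ^ R` is the sum over the monomials of weight `R`, i.e. `aeval s₀ (lw i R M)`.
-/

universe u

namespace Pool.Agent.Lib.MP_17a322_nt.VA

open MvPolynomial Height
open Pool.Agent.Lib.MP_17a322_nt.VJ
open Pool.Agent.Lib.MP_17a322_nt.VN

/-- The component of weight `k` in the variables `v (i, t)`. -/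
noncomputable def lw {K : Type*} [CommRing K] {m n : ℕ} (i : Fin m) (k : ℕ)
    (M : MvPolynomial (VE m n) K) : MvPolynomial (VE m n) K :=
  weightedHomogeneousComponent (om i) k M

private theorem e06_weight {m n : ℕ} (i : Fin m) (u : VE m n →₀ ℕ) :
    Finsupp.weight (om i) u = ∑ t, u (VE.v (i, t)) := by
  classical
  rw [Finsupp.weight_apply, Finsupp.sum_fintype _ _ (fun y => zero_smul ℕ (om i y))]
  have h1 : ∑ t, u (VE.v (i, t)) =
      ∑ y ∈ Finset.univ.image (fun t : Fin n => (VE.v (i, t) : VE m n)), u y • om i y := by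
    rw [Finset.sum_image]
    · refine Finset.sum_congr rfl fun t _ => ?_
      show u (VE.v (i, t)) = u (VE.v (i, t)) • (if i = i then 1 else 0)
      rw [if_pos rfl, smul_eq_mul, mul_one]
    · intro a _ b _ hab
      have h := VE.v.inj hab
      exact (Prod.mk.inj h).2
  rw [h1]
  symm
  refine Finset.sum_subset (Finset.subset_univ _) fun y _ hy => ?_
  have h2 : om i y = 0 := by
    cases y with
    | v p =>
      show (if p.1 = i then 1 else 0) = 0
      rw [if_neg]
      intro hp
      exact hy (Finset.mem_image.2 ⟨p.2, Finset.mem_univ _, by rw [← hp]⟩)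
    | _ => rfl
  rw [h2, smul_zero]

private theorem e06_coeff {K : Type*} [CommRing K] {m n : ℕ} (i : Fin m) (k : ℕ)
    (M : MvPolynomial (VE m n) K) (u : VE m n →₀ ℕ) :
    coeff u (lw i k M) = if Finsupp.weight (om i) u = k then coeff u M else 0 := by
  classical
  unfold lw
  rw [coeff_weightedHomogeneousComponent]

private theorem e06_mem {K : Type*} [CommRing K] {m n : ℕ} (i : Fin m) (k : ℕ)
    (M : MvPolynomial (VE m n) K) (u : VE m n →₀ ℕ) (hu : u ∈ (lw i k M).support) :
    Finsupp.weight (om i) u = k ∧ coeff u (lw i k M) = coeff u M ∧ u ∈ M.support := by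
  have h1 := mem_support_iff.1 hu
  rw [e06_coeff] at h1
  have h2 : Finsupp.weight (om i) u = k := by
    by_contra h
    rw [if_neg h] at h1
    exact h1 rfl
  rw [if_pos h2] at h1
  exact ⟨h2, by rw [e06_coeff, if_pos h2], mem_support_iff.2 h1⟩

theorem exists_lw {K : Type*} [CommRing K] {m n : ℕ} (i : Fin m) (M : MvPolynomial (VE m n) K)
    (hM : M ≠ 0) : ∃ R : ℕ, lw i R M ≠ 0 ∧ (∀ k < R, lw i k M = 0) ∧
      R ≤ ∑ t, M.degreeOf (VE.v (i, t)) := by
  classical
  obtain ⟨u, hu⟩ := MvPolynomial.ne_zero_iff.1 hM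
  have hex : ∃ k, lw i k M ≠ 0 := by
    refine ⟨Finsupp.weight (om i) u, fun h => hu ?_⟩
    have h1 := e06_coeff i (Finsupp.weight (om i) u) M u
    rw [h, if_pos rfl, coeff_zero] at h1
    exact h1.symm
  refine ⟨Nat.find hex, Nat.find_spec hex, fun k hk => not_not.1 (Nat.find_min hex hk), ?_⟩
  obtain ⟨u', hu'⟩ := (support_nonempty (p := lw i (Nat.find hex) M)).2 (Nat.find_spec hex)
  obtain ⟨h1, _, h3⟩ := e06_mem i _ M u' hu'
  rw [← h1, e06_weight]
  exact Finset.sum_le_sum fun t _ => monomial_le_degreeOf _ h3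

theorem degreeOf_lw_le {K : Type*} [CommRing K] {m n : ℕ} (i : Fin m) (k : ℕ)
    (M : MvPolynomial (VE m n) K) (y : VE m n) : (lw i k M).degreeOf y ≤ M.degreeOf y := by
  classical
  rw [degreeOf_le_iff]
  intro u hu
  exact monomial_le_degreeOf _ (e06_mem i k M u hu).2.2

theorem nh_lw_le {K : Type*} [Field K] [AdmissibleAbsValues K] {m n : ℕ} (i : Fin m) (k : ℕ)
    (M : MvPolynomial (VE m n) K) (h : lw i k M ≠ 0) : nh (lw i k M) ≤ nh M := by
  have hM : M ≠ 0 := by
    rintro rfl
    apply h
    unfold lw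
    rw [map_zero]
  have h1 := nh_le_of_NV_le (L := K) hM h (n := 1) le_rfl (fun v _ => by
    rw [cst_one, one_mul]
    exact NV_le_of_injOn v M (lw i k M) id Function.injective_id.injOn
      (fun u hu => (e06_mem i k M u hu).2.1))
  rw [Nat.cast_one, Real.log_one, mul_zero, add_zero] at h1
  exact h1

theorem coeff_aeval_lw {K A : Type*} [CommRing K] [CommRing A] [Algebra K A] {m n : ℕ}
    (i : Fin m) (R : ℕ) (M : MvPolynomial (VE m n) K) (h : ∀ k < R, lw i k M = 0)
    (s : VE m n → PowerSeries A) (hs : ∀ t, PowerSeries.constantCoeff (s (VE.v (i, t))) = 0)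
    (s₀ : VE m n → A) (h₀ : ∀ y, om i y = 0 → s₀ y = PowerSeries.constantCoeff (s y))
    (h₁ : ∀ t, s₀ (VE.v (i, t)) = PowerSeries.coeff 1 (s (VE.v (i, t)))) :
    (∀ k < R, PowerSeries.coeff k (aeval s M) = 0) ∧
      PowerSeries.coeff R (aeval s M) = aeval s₀ (lw i R M) := by
  classical
  have hs' : ∀ y, ∃ c : PowerSeries A, s y = PowerSeries.X ^ (om i y) * c ∧
      PowerSeries.constantCoeff c = s₀ y := by
    intro y
    by_cases h2 : om i y = 0
    · exact ⟨s y, by rw [h2, pow_zero, one_mul], (h₀ y h2).symm⟩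
    · cases y with
      | v p =>
        have h3 : p.1 = i := by
          by_contra h4
          exact h2 (if_neg h4)
        have h4 : (VE.v p : VE m n) = VE.v (i, p.2) := by rw [← h3]
        have h5 : om i (VE.v p : VE m n) = 1 := if_pos h3
        obtain ⟨c, hc⟩ := PowerSeries.X_dvd_iff.2 (hs p.2)
        refine ⟨c, ?_, ?_⟩
        · rw [h5, pow_one, h4, hc]
        · rw [h4, h₁, hc]
          have h6 := PowerSeries.coeff_succ_X_mul 0 c
          rw [zero_add] at h6
          rw [h6, PowerSeries.coeff_zero_eq_constantCoeff_apply]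
      | _ => exact absurd rfl h2
  choose c hc1 hc2 using hs'
  have hw : ∀ u : VE m n →₀ ℕ, Finsupp.weight (om i) u = ∑ y, om i y * u y := by
    intro u
    rw [Finsupp.weight_apply, Finsupp.sum_fintype _ _ (fun y => zero_smul ℕ (om i y))]
    exact Finset.sum_congr rfl fun y _ => by rw [smul_eq_mul, mul_comm]
  have hmon : ∀ u : VE m n →₀ ℕ, aeval s (monomial u (coeff u M)) =
      PowerSeries.X ^ (Finsupp.weight (om i) u) *
        (algebraMap K (PowerSeries A) (coeff u M) * ∏ y, c y ^ u y) := by
    intro u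
    rw [aeval_monomial, Finsupp.prod_fintype _ _ (fun y => pow_zero _)]
    have h2 : ∏ y, s y ^ u y = PowerSeries.X ^ (Finsupp.weight (om i) u) * ∏ y, c y ^ u y := by
      rw [hw u, ← Finset.prod_pow_eq_pow_sum, ← Finset.prod_mul_distrib]
      refine Finset.prod_congr rfl fun y _ => ?_
      rw [hc1 y, mul_pow, ← pow_mul]
    rw [h2]
    ring
  have hge : ∀ u ∈ M.support, R ≤ Finsupp.weight (om i) u := by
    intro u hu
    by_contra hlt
    have h2 := e06_coeff i (Finsupp.weight (om i) u) M u
    rw [h _ (not_le.1 hlt), if_pos rfl, coeff_zero] at h2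
    exact mem_support_iff.1 hu h2.symm
  have hM : aeval s M = ∑ u ∈ M.support, PowerSeries.X ^ (Finsupp.weight (om i) u) *
      (algebraMap K (PowerSeries A) (coeff u M) * ∏ y, c y ^ u y) := by
    conv_lhs => rw [← support_sum_monomial_coeff M]
    rw [map_sum]
    exact Finset.sum_congr rfl fun u _ => hmon u
  constructor
  · intro k hk
    rw [hM, map_sum]
    refine Finset.sum_eq_zero fun u hu => ?_
    rw [PowerSeries.coeff_X_pow_mul', if_neg]
    have := hge u hu
    omega
  · have h2 : lw i R M = ∑ u ∈ M.support,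
        if Finsupp.weight (om i) u = R then monomial u (coeff u M) else 0 := by
      unfold lw
      rw [weightedHomogeneousComponent_apply, Finset.sum_filter]
    rw [hM, h2, map_sum, map_sum]
    refine Finset.sum_congr rfl fun u hu => ?_
    rw [PowerSeries.coeff_X_pow_mul']
    have h3 := hge u hu
    by_cases h4 : Finsupp.weight (om i) u = R
    · rw [if_pos h4, if_pos (le_of_eq h4), h4, Nat.sub_self, aeval_monomial,
        Finsupp.prod_fintype _ _ (fun y => pow_zero _),
        PowerSeries.coeff_zero_eq_constantCoeff_apply, map_mul, map_prod]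
      congr 1
      refine Finset.prod_congr rfl fun y _ => ?_
      rw [map_pow, hc2]
    · rw [if_neg h4, if_neg (by omega), map_zero]

end Pool.Agent.Lib.MP_17a322_nt.VA
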