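import Pool.Agent.Lib.MP_17a322_nt.VA.E04
import Pool.Agent.Lib.MP_17a322_nt.VA.E05
import Pool.Agent.Lib.MP_17a322_nt.VA.E06
import Pool.Agent.Lib.MP_17a322_nt.VN.L2D0

/-!
Part E of VA: the elimination in a block and the chain of all blocks.

JOB E07a: `pairwise_lE`, `pairwise_lJ`, `degreeOf_ME_eq_zero`, `dvd_ME`.
* `pairwise_lE`: `lE m n i = map .. ++ [w i, q]`; `List.pairwise_append`, `List.pairwise_map`; the relations: `al (i, t')` does not contain `z (i, t)`, `t ≠ t'` (`List.nodup_finRange`), `fP i`, `fQ` do not contain the variables before (E03). (The condition is: the relation of a LATER variable does not contain the EARLIER one.)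
* `pairwise_lJ`: `h i r'` does not contain `r ∉ J`, `r ≠ r'` (`degreeOf_rename_of_injective`).
* `degreeOf_ME_eq_zero`: `ELL_degreeOf_eq_zero` (E01) twice and `degreeOf_sh_le`, `degreeOf_sh_v_le` (E05). CASES for `y`: (1) `y = q`, `w i`, `z (i, t)`: first elimination gives degree `0` (`y ∈ lE`), `sh` keeps it, the relations `hv` do not contain `y`; (2) `y = S (i, r)`, `r ∉ J`: `y ∈ lJ`; (3) the other variables `y` with `N.degreeOf y = 0` and
  `y` not among `x t`, `S (i, t)`, `v (i, t)`: the relations do not contain `y`; (4) `y = v (i, t)`, `t ∈ J`, `N.degreeOf y = 0`: `degreeOf_sh_le`. (5) `y = S (i, r)`: see (2).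
* `dvd_ME`: let `s' = Sh J i s`. `aeval s' N = aeval s N` since `N` does not contain `S (i, r)` (`aeval_congr`-like: `VN.aeval_congr_of_degreeOf`, in VN/L2D0, or reprove). `aeval_dvd_ELL` (VN/L2E1) at `s'` for `E.alv j`, `lE`: `aeval s' N ∣ aeval s' (ELL ..) = aeval s (sh J i (ELL ..))` (`aeval_sh`), and `aeval_dvd_ELL` at `s` for `hv h`, `lJ`.
  Degrees `≠ 0`: `E.f.degreeOf none ≠ 0` (for `q`, `w i`), `degreeOf_al_z` with `ED.Ok.b_ne`, `HC`. The relation for `q`: `aeval s' (fQ) = aeval s (fQ)` (contains only `x`, `q`, on which `s' = s`).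

JOB E07b: `ME_ne_zero`, `QE_ME`.
* `ME_ne_zero`: `ELL_alv_ne_zero` (E04), the result does not contain `v (i, t)` (`ELL_degreeOf_eq_zero`, `N` and the relations do not contain it), `ELL_hv_ne_zero` (E05).
* `QE_ME`: constant: `A = C + D + 1`, `C₂` from `QE_sh K m n`. `QE_ELL` (E02) with `GR_q, GR_w, GR_z` (`GR_mono`) and length `n + 2`; `QE_sh`; `QE_ELL` with `GR_S` and length `≤ n` (`List.length_filter_le`; powers of `3 A ≥ 1` are monotone). Collect: `b' ≤ (2A)^n * (2 * ((2A)^(n+2) * b))`,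
  `H' ≤ (3A)^n * (((3A)^(n+2) * (H + b) + C₂ (2A)^(n+2) b) + 2 (2A)^(n+2) b)`. Any constant works. (`H ≥ nh N ≥ 0`.)
-/

universe u

namespace Pool.Agent.Lib.MP_17a322_nt.VA

open MvPolynomial Height
open Pool.Agent.Lib.MP_17a322_nt.VJ
open Pool.Agent.Lib.MP_17a322_nt.VN

section

variable {K : Type u} [Field K] [NumberField K] {m n : ℕ}

omit [NumberField K] in
private theorem e07a_rename {σ τ : Type*} (f : σ → τ) (F : MvPolynomial σ K) (y : τ)
    (hy : ∀ t, y ≠ f t) : (rename f F).degreeOf y = 0 := by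
  classical
  by_contra h0
  rw [degreeOf_def] at h0
  have h1 : y ∈ (rename f F).vars := by
    rw [vars_def, Multiset.mem_toFinset]
    exact Multiset.count_pos.1 (Nat.pos_of_ne_zero h0)
  obtain ⟨t, _, ht⟩ := Finset.mem_image.1 (vars_rename f F h1)
  exact hy t ht.symm

private theorem e07a_z_pQ (p : Fin m × Fin n) (o : Option (Fin n)) :
    (VE.z p : VE m n) ≠ pQ o := by
  cases o <;> simp [pQ]

private theorem e07a_z_pP (p : Fin m × Fin n) (i : Fin m) (o : Option (Fin n)) :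
    (VE.z p : VE m n) ≠ pP i o := by
  cases o <;> simp [pP]

private theorem e07a_w_pQ (i : Fin m) (o : Option (Fin n)) :
    (VE.w i : VE m n) ≠ pQ o := by
  cases o <;> simp [pQ]

private theorem e07a_mem_lE (i : Fin m) (y : VE m n) :
    y ∈ lE m n i ↔ (∃ t, y = VE.z (i, t)) ∨ y = VE.w i ∨ y = VE.q := by
  unfold lE
  rw [List.mem_append, List.mem_map, List.mem_cons, List.mem_singleton]
  refine or_congr ⟨?_, ?_⟩ Iff.rfl
  · rintro ⟨t, _, rfl⟩
    exact ⟨t, rfl⟩
  · rintro ⟨t, rfl⟩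
    exact ⟨t, List.mem_finRange t, rfl⟩

private theorem e07a_mem_lJ (J : Finset (Fin n)) (i : Fin m) (y : VE m n) :
    y ∈ lJ J i ↔ ∃ r, r ∉ J ∧ y = VE.S (i, r) := by
  unfold lJ
  rw [List.mem_map]
  constructor
  · rintro ⟨r, hr, rfl⟩
    exact ⟨r, of_decide_eq_true (List.mem_filter.1 hr).2, rfl⟩
  · rintro ⟨r, hr, rfl⟩
    exact ⟨r, List.mem_filter.2 ⟨List.mem_finRange r, decide_eq_true hr⟩, rfl⟩

theorem pairwise_lE {E : ED K n} (j : Fin m → ℕ) (i : Fin m) :
    (lE m n i).Pairwise fun y y' => (E.alv j y').degreeOf y = 0 := by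
  unfold lE
  rw [List.pairwise_append]
  refine ⟨?_, ?_, ?_⟩
  · rw [List.pairwise_map]
    refine List.Pairwise.imp ?_ (List.nodup_finRange n)
    intro t t' htt
    refine degreeOf_al_eq_zero E j (i, t') _ (e07a_z_pQ _) (e07a_z_pP _ _) fun h => htt ?_
    injection h with h
    exact (Prod.mk.inj h).2
  · rw [List.pairwise_pair]
    exact degreeOf_fQ_eq_zero E _ (e07a_w_pQ i)
  · intro y hy y' hy'
    obtain ⟨t, _, rfl⟩ := List.mem_map.1 hy
    rw [List.mem_cons, List.mem_singleton] at hy'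
    rcases hy' with rfl | rfl
    · exact degreeOf_fP_eq_zero E i _ (e07a_z_pP _ _)
    · exact degreeOf_fQ_eq_zero E _ (e07a_z_pQ _)

theorem pairwise_lJ {J : Finset (Fin n)} {D : ℕ} {j : Fin m → ℕ}
    {h : Fin m → Fin n → MvPolynomial (Fin n) K} (hh : HC J D j h) (i : Fin m) :
    (lJ J i).Pairwise fun y y' => (hv h y').degreeOf y = 0 := by
  unfold lJ
  rw [List.pairwise_map]
  refine List.Pairwise.imp_of_mem ?_ ((List.nodup_finRange n).filter _)
  intro r r' hr hr' hne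
  have h1 : r ∉ J := of_decide_eq_true (List.mem_filter.1 hr).2
  have h2 : r' ∉ J := of_decide_eq_true (List.mem_filter.1 hr').2
  have hinj : Function.Injective fun t : Fin n => (VE.S (i, t) : VE m n) := by
    intro a b hab
    injection hab with hab
    exact (Prod.mk.inj hab).2
  rw [hv_S, degreeOf_rename_of_injective hinj]
  exact (hh i r' h2).2.2.1 r h1 hne

theorem degreeOf_ME_eq_zero {E : ED K n} {J : Finset (Fin n)} {D : ℕ} {j : Fin m → ℕ}
    {h : Fin m → Fin n → MvPolynomial (Fin n) K} (hh : HC J D j h) (i : Fin m)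
    (N : MvPolynomial (VE m n) K) (y : VE m n)
    (hy : y = VE.q ∨ y = VE.w i ∨ (∃ t, y = VE.z (i, t)) ∨ (∃ r, r ∉ J ∧ y = VE.S (i, r)) ∨
      (N.degreeOf y = 0 ∧ (∀ t, y ≠ VE.x t) ∧ (∀ t, y ≠ VE.S (i, t)) ∧
        ∀ r ∉ J, y ≠ VE.v (i, r))) :
    (ME E j h J i N).degreeOf y = 0 := by
  unfold ME
  refine ELL_degreeOf_eq_zero _ _ (pairwise_lJ hh i) _ y ?_
  -- the relations of the second step contain only `S (i, t)`
  have hS : (∀ t, y ≠ VE.S (i, t)) → ∀ y' ∈ lJ J i, (hv h y').degreeOf y = 0 := by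
    intro h1 y' hy'
    obtain ⟨r, _, rfl⟩ := (e07a_mem_lJ J i y').1 hy'
    rw [hv_S]
    exact e07a_rename _ _ _ h1
  -- first step
  have h0 : (y ∈ lE m n i ∨ N.degreeOf y = 0 ∧ ∀ y' ∈ lE m n i, (E.alv j y').degreeOf y = 0) →
      (∀ r ∉ J, y ≠ VE.v (i, r)) →
      (sh J i (ELL (E.alv j) (lE m n i) N)).degreeOf y = 0 := by
    intro h1 h2
    refine Nat.le_zero.1 ((degreeOf_sh_le J i _ y h2).trans (le_of_eq ?_))
    exact ELL_degreeOf_eq_zero _ _ (pairwise_lE j i) _ y h1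
  rcases hy with rfl | rfl | ⟨t, rfl⟩ | ⟨r, hr, rfl⟩ | ⟨h1, h2, h3, h4⟩
  · right
    refine ⟨h0 (Or.inl ((e07a_mem_lE i _).2 (Or.inr (Or.inr rfl)))) ?_, hS ?_⟩
    · intro r _ h
      injection h
    · intro t h
      injection h
  · right
    refine ⟨h0 (Or.inl ((e07a_mem_lE i _).2 (Or.inr (Or.inl rfl)))) ?_, hS ?_⟩
    · intro r _ h
      injection h
    · intro t h
      injection h
  · right
    refine ⟨h0 (Or.inl ((e07a_mem_lE i _).2 (Or.inl ⟨t, rfl⟩))) ?_, hS ?_⟩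
    · intro r _ h
      injection h
    · intro t h
      injection h
  · left
    exact (e07a_mem_lJ J i _).2 ⟨r, hr, rfl⟩
  · right
    refine ⟨h0 ?_ h4, hS h3⟩
    by_cases hl : y ∈ lE m n i
    · exact Or.inl hl
    · refine Or.inr ⟨h1, ?_⟩
      have hl' := fun h => hl ((e07a_mem_lE i y).2 h)
      have k1 : ∀ o, y ≠ pQ o := by
        intro o
        cases o with
        | none => exact fun h => hl' (Or.inr (Or.inr h))
        | some t => exact h2 t
      have k2 : ∀ o, y ≠ pP i o := by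
        intro o
        cases o with
        | none => exact fun h => hl' (Or.inr (Or.inl h))
        | some t => exact h3 t
      intro y' hy'
      rcases (e07a_mem_lE i y').1 hy' with ⟨t, rfl⟩ | rfl | rfl
      · exact degreeOf_al_eq_zero E j (i, t) y k1 k2 fun h => hl' (Or.inl ⟨t, h⟩)
      · exact degreeOf_fP_eq_zero E i y k2
      · exact degreeOf_fQ_eq_zero E y k1

theorem dvd_ME {E : ED K n} {C : ℝ} (hE : E.Ok C) {J : Finset (Fin n)} {D : ℕ} {j : Fin m → ℕ}
    {h : Fin m → Fin n → MvPolynomial (Fin n) K} (hh : HC J D j h) (i : Fin m)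
    (N : MvPolynomial (VE m n) K) (hN : ∀ t, N.degreeOf (VE.S (i, t)) = 0) {A : Type*}
    [CommRing A] [Algebra K A] (s : VE m n → A) (hq : aeval s (E.fQ m) = 0)
    (hw : aeval (Sh J i s) (E.fP i) = 0) (hz : ∀ t, aeval (Sh J i s) (E.al j (i, t)) = 0)
    (hS : ∀ r ∉ J, aeval (fun t => s (VE.S (i, t))) (h i r) = 0) :
    aeval s N ∣ aeval s (ME E j h J i N) := by
  have h1 : aeval s N = aeval (Sh J i s) N := by
    refine aeval_congr_of_degreeOf N s (Sh J i s) fun y hy => ?_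
    cases y with
    | S p =>
      show s (VE.S p) = if p.1 = i ∧ p.2 ∉ J then s (VE.S p) + s (VE.v p) else s (VE.S p)
      rw [if_neg]
      rintro ⟨h1, _⟩
      apply hy
      have h2 := hN p.2
      rw [← h1] at h2
      exact h2
    | _ => rfl
  have h2 : aeval (Sh J i s) N ∣ aeval (Sh J i s) (ELL (E.alv j) (lE m n i) N) := by
    refine aeval_dvd_ELL _ _ _ (fun y hy => ?_) _ fun y hy => ?_
    · rcases (e07a_mem_lE i y).1 hy with ⟨t, rfl⟩ | rfl | rfl
      · show (E.al j (i, t)).degreeOf (VE.z (i, t)) ≠ 0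
        rw [degreeOf_al_z E j (i, t) (hE.b_ne _)]
        exact one_ne_zero
      · show (E.fP i).degreeOf (pP i none) ≠ 0
        rw [degreeOf_fP_pP]
        exact hE.f0
      · show (E.fQ m).degreeOf (pQ none) ≠ 0
        rw [degreeOf_fQ_pQ]
        exact hE.f0
    · rcases (e07a_mem_lE i y).1 hy with ⟨t, rfl⟩ | rfl | rfl
      · exact hz t
      · exact hw
      · show aeval (Sh J i s) (E.fQ m) = 0
        rw [← hq, aeval_fQ, aeval_fQ]
        congr 1
        refine congrArg _ (funext fun o => ?_)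
        cases o <;> rfl
  rw [h1]
  refine h2.trans ?_
  rw [← aeval_sh]
  unfold ME
  refine aeval_dvd_ELL (hv h) (lJ J i) _ (fun y hy => ?_) s fun y hy => ?_
  · obtain ⟨r, hr, rfl⟩ := (e07a_mem_lJ J i y).1 hy
    have hinj : Function.Injective fun t : Fin n => (VE.S (i, t) : VE m n) := by
      intro a b hab
      injection hab with hab
      exact (Prod.mk.inj hab).2
    rw [hv_S]
    have h3 := degreeOf_rename_of_injective (p := h i r) hinj r
    rw [h3]
    exact (hh i r hr).1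
  · obtain ⟨r, hr, rfl⟩ := (e07a_mem_lJ J i y).1 hy
    rw [hv_S, aeval_rename]
    exact hS r hr

end

section

variable {K : Type u} [Field K] [NumberField K] {m n : ℕ}

private theorem e07b_mem_lE {m n : ℕ} {i : Fin m} {y : VE m n} (h : y ∈ lE m n i) :
    (∃ t, y = VE.z (i, t)) ∨ y = VE.w i ∨ y = VE.q := by
  unfold lE at h
  rw [List.mem_append] at h
  rcases h with h | h
  · rw [List.mem_map] at h
    obtain ⟨t, _, ht⟩ := h
    exact Or.inl ⟨t, ht.symm⟩
  · rw [List.mem_cons, List.mem_singleton] at h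
    exact Or.inr h

private theorem e07b_mem_lJ {m n : ℕ} {J : Finset (Fin n)} {i : Fin m} {y : VE m n}
    (h : y ∈ lJ J i) : ∃ r, r ∉ J ∧ y = VE.S (i, r) := by
  unfold lJ at h
  rw [List.mem_map] at h
  obtain ⟨r, hr, hy⟩ := h
  rw [List.mem_filter] at hr
  exact ⟨r, by simpa using hr.2, hy.symm⟩

private theorem e07b_length_lE {m n : ℕ} (i : Fin m) : (lE m n i).length = n + 2 := by
  simp [lE]

private theorem e07b_length_lJ {m n : ℕ} (J : Finset (Fin n)) (i : Fin m) :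
    (lJ J i : List (VE m n)).length ≤ n := by
  unfold lJ
  rw [List.length_map]
  refine (List.length_filter_le _ _).trans ?_
  rw [List.length_finRange]

omit [NumberField K] in
private theorem e07b_alv_v (E : ED K n) (j : Fin m → ℕ) (i : Fin m) (p : Fin m × Fin n)
    (y : VE m n) (hy : y ∈ lE m n i) : (E.alv j y).degreeOf (VE.v p) = 0 := by
  rcases e07b_mem_lE hy with ⟨t, rfl⟩ | rfl | rfl
  · refine degreeOf_al_eq_zero E j (i, t) (VE.v p) (fun o => ?_) (fun o => ?_) (fun h => ?_)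
    · cases o <;> intro h <;> cases h
    · cases o <;> intro h <;> cases h
    · cases h
  · refine degreeOf_fP_eq_zero E i (VE.v p) (fun o => ?_)
    cases o <;> intro h <;> cases h
  · refine degreeOf_fQ_eq_zero E (VE.v p) (fun o => ?_)
    cases o <;> intro h <;> cases h

private theorem e07b_alv_self {E : ED K n} {C : ℝ} (hE : E.Ok C) (j : Fin m → ℕ) (i : Fin m)
    (y : VE m n) (hy : y ∈ lE m n i) : (E.alv j y).degreeOf y ≠ 0 := by
  rcases e07b_mem_lE hy with ⟨t, rfl⟩ | rfl | rfl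
  · have h1 : (E.alv j (VE.z (i, t))).degreeOf (VE.z (i, t)) = 1 :=
      degreeOf_al_z E j (i, t) (ED.Ok.b_ne hE _)
    rw [h1]
    exact one_ne_zero
  · have h1 : (E.alv j (VE.w i)).degreeOf (VE.w i) = E.f.degreeOf none :=
      degreeOf_fP_pP E i none
    rw [h1]
    exact hE.f0
  · have h1 : (E.alv j (VE.q : VE m n)).degreeOf VE.q = E.f.degreeOf none :=
      degreeOf_fQ_pQ E none
    rw [h1]
    exact hE.f0

private theorem e07b_hv_self {J : Finset (Fin n)} {D : ℕ} {j : Fin m → ℕ}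
    {h : Fin m → Fin n → MvPolynomial (Fin n) K} (hh : HC J D j h) (i : Fin m)
    (y : VE m n) (hy : y ∈ lJ J i) : (hv h y).degreeOf y ≠ 0 := by
  obtain ⟨r, hr, rfl⟩ := e07b_mem_lJ hy
  have hinj : Function.Injective (fun t : Fin n => (VE.S (i, t) : VE m n)) := by
    intro a b hab
    have h1 : (i, a) = (i, b) := VE.S.inj hab
    exact (Prod.mk.inj h1).2
  rw [hv_S, degreeOf_rename_of_injective hinj r]
  exact (hh i r hr).1

private theorem e07b_GR_alv {E : ED K n} {C : ℝ} (hE : E.Ok C) (j : Fin m → ℕ) (i : Fin m)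
    (y : VE m n) (hy : y ∈ lE m n i) : GRE j C y (E.alv j y) := by
  rcases e07b_mem_lE hy with ⟨t, rfl⟩ | rfl | rfl
  · exact GR_z hE j (i, t)
  · exact GR_w hE j i
  · exact GR_q hE j

theorem ME_ne_zero {E : ED K n} {C : ℝ} (hE : E.Ok C) {J : Finset (Fin n)} {D : ℕ}
    {j : Fin m → ℕ} {h : Fin m → Fin n → MvPolynomial (Fin n) K} (hh : HC J D j h) (i : Fin m)
    (N : MvPolynomial (VE m n) K) (hN : N ≠ 0) (hq : N.degreeOf VE.q = 0)
    (hw : N.degreeOf (VE.w i) = 0) (hS : ∀ t, N.degreeOf (VE.S (i, t)) = 0)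
    (hv : ∀ t, N.degreeOf (VE.v (i, t)) = 0) : ME E j h J i N ≠ 0 := by
  have h1 := ELL_alv_ne_zero hE j i N hN hq hw hS
  refine ELL_hv_ne_zero hh i _ h1 (fun t => ?_)
  exact ELL_degreeOf_eq_zero (E.alv j) (lE m n i) (pairwise_lE j i) N (VE.v (i, t))
    (Or.inr ⟨hv t, fun y hy => e07b_alv_v E j i (i, t) y hy⟩)

theorem QE_ME (m : ℕ) {E : ED K n} {C : ℝ} (hE : E.Ok C) (J : Finset (Fin n)) (D : ℕ) :
    ∃ c : ℝ, 1 ≤ c ∧ ∀ (j : Fin m → ℕ) (h : Fin m → Fin n → MvPolynomial (Fin n) K) (i : Fin m)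
      (N : MvPolynomial (VE m n) K) (b H : ℝ), HC J D j h → N ≠ 0 → ME E j h J i N ≠ 0 →
      QE j b H N → QE j (c * b) (c * (H + b)) (ME E j h J i N) := by
  obtain ⟨C₂, hC₂, hsh⟩ := QE_sh K m n
  have hC := hE.one_le
  have hD : (0 : ℝ) ≤ (D : ℝ) := Nat.cast_nonneg D
  set A : ℝ := C + D + 1 with hAdef
  have hA : 1 ≤ A := by linarith
  have h2A : 1 ≤ 2 * A := by linarith
  have h3A : 1 ≤ 3 * A := by linarith
  have hle : 2 * A ≤ 3 * A := by linarith
  have hp1 : 1 ≤ (3 * A) ^ n := one_le_pow₀ h3A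
  have hp2 : 1 ≤ (3 * A) ^ (n + 2) := one_le_pow₀ h3A
  have hq1 : (2 * A) ^ n ≤ (3 * A) ^ n := pow_le_pow_left₀ (by linarith) hle n
  have hq2 : (2 * A) ^ (n + 2) ≤ (3 * A) ^ (n + 2) := pow_le_pow_left₀ (by linarith) hle _
  have hpp : 1 ≤ (3 * A) ^ n * (3 * A) ^ (n + 2) := by nlinarith
  refine ⟨(3 * A) ^ n * (3 * A) ^ (n + 2) * (C₂ + 3), by nlinarith, ?_⟩
  intro j h i N b H hh hN hM hQ
  have hb : 0 ≤ b := QE_nonneg hQ
  have hH : 0 ≤ H := (nh_nonneg hN).trans hQ.2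
  have hM3 : ELL (hv h) (lJ J i) (sh J i (ELL (E.alv j) (lE m n i) N)) ≠ 0 := hM
  have hM2 : sh J i (ELL (E.alv j) (lE m n i) N) ≠ 0 := by
    intro h0
    rw [h0] at hM3
    exact hM3 (ELL_zero _ _ (fun y hy => e07b_hv_self hh i y hy))
  have hM1 : ELL (E.alv j) (lE m n i) N ≠ 0 := by
    intro h0
    rw [h0, map_zero] at hM2
    exact hM2 rfl
  have Q1 := QE_ELL j A hA (E.alv j) (lE m n i)
    (fun y hy => GR_mono (by linarith) (e07b_GR_alv hE j i y hy))
    (fun y hy => e07b_alv_self hE j i y hy) b H hH N hQ hM1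
  rw [e07b_length_lE] at Q1
  have Q2 := hsh J i j _ _ _ hM1 Q1
  have hp2' : 0 ≤ (3 * A) ^ (n + 2) := by linarith
  have hb1 : 0 ≤ (2 * A) ^ (n + 2) * b := mul_nonneg (pow_nonneg (by linarith) _) hb
  have hH1 : 0 ≤ (3 * A) ^ (n + 2) * (H + b) := mul_nonneg hp2' (by linarith)
  have hH2 : 0 ≤ (3 * A) ^ (n + 2) * (H + b) + C₂ * ((2 * A) ^ (n + 2) * b) :=
    add_nonneg hH1 (mul_nonneg hC₂ hb1)
  have Q3 := QE_ELL j A hA (hv h) (lJ J i)
    (fun y hy => by
      obtain ⟨r, hr, rfl⟩ := e07b_mem_lJ hy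
      exact GR_mono (by linarith) (GR_S hh i r hr))
    (fun y hy => e07b_hv_self hh i y hy) _ _ hH2 _ Q2 hM3
  have hlen := e07b_length_lJ (m := m) J i
  have hl2 : (2 * A) ^ (lJ J i : List (VE m n)).length ≤ (3 * A) ^ n :=
    (pow_le_pow_right₀ h2A hlen).trans hq1
  have hl3 : (3 * A) ^ (lJ J i : List (VE m n)).length ≤ (3 * A) ^ n :=
    pow_le_pow_right₀ h3A hlen
  have hbb : (2 * A) ^ (n + 2) * b ≤ (3 * A) ^ (n + 2) * b := mul_le_mul_of_nonneg_right hq2 hb
  refine QE_mono ?_ ?_ Q3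
  · calc (2 * A) ^ (lJ J i : List (VE m n)).length * (2 * ((2 * A) ^ (n + 2) * b))
        ≤ (3 * A) ^ n * (2 * ((3 * A) ^ (n + 2) * b)) :=
          mul_le_mul hl2 (by linarith) (by linarith) (by linarith)
      _ = (3 * A) ^ n * (3 * A) ^ (n + 2) * b * 2 := by ring
      _ ≤ (3 * A) ^ n * (3 * A) ^ (n + 2) * b * (C₂ + 3) := by
          refine mul_le_mul_of_nonneg_left (by linarith) ?_
          exact mul_nonneg (by linarith) hb
      _ = (3 * A) ^ n * (3 * A) ^ (n + 2) * (C₂ + 3) * b := by ring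
  · have h5 : (3 * A) ^ (n + 2) * b ≤ (3 * A) ^ (n + 2) * (H + b) :=
      mul_le_mul_of_nonneg_left (by linarith) hp2'
    have h6 : (3 * A) ^ (n + 2) * (H + b) + C₂ * ((2 * A) ^ (n + 2) * b) +
        2 * ((2 * A) ^ (n + 2) * b) ≤ (3 * A) ^ (n + 2) * (H + b) * (C₂ + 3) := by
      have h7 : C₂ * ((2 * A) ^ (n + 2) * b) ≤ C₂ * ((3 * A) ^ (n + 2) * (H + b)) :=
        mul_le_mul_of_nonneg_left (hbb.trans h5) hC₂
      nlinarith [hbb.trans h5]
    have h8 : 0 ≤ (3 * A) ^ (n + 2) * (H + b) + C₂ * ((2 * A) ^ (n + 2) * b) +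
        2 * ((2 * A) ^ (n + 2) * b) := by linarith
    calc (3 * A) ^ (lJ J i : List (VE m n)).length *
          ((3 * A) ^ (n + 2) * (H + b) + C₂ * ((2 * A) ^ (n + 2) * b) +
            2 * ((2 * A) ^ (n + 2) * b))
        ≤ (3 * A) ^ n * ((3 * A) ^ (n + 2) * (H + b) * (C₂ + 3)) :=
          mul_le_mul hl3 h6 h8 (by linarith)
      _ = (3 * A) ^ n * (3 * A) ^ (n + 2) * (C₂ + 3) * (H + b) := by ring

end

end Pool.Agent.Lib.MP_17a322_nt.VA
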