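import Pool.Agent.Lib.MP_17a322_nt.VA.E07

/-!
JOB E08. Part E of VA: the chain of the eliminations of all blocks.

PROOF of `elim_W`. `c` from `QE_ME m hE J D` (E07). `C₁ = n * (2c)^(m+1)`-like (anything; e.g. `C₁ = (n + 1) * (2 * c) ^ (m + 1)`). `exists_chain` (VN/L2R) with
`P k N := N ≠ 0 ∧ (∀ y, ¬ Oc J k y → N.degreeOf y = 0) ∧ QE j (c ^ k * b) ((2 * c) ^ k * (H + b)) N`,
`Q i N N' := ∃ R : ℕ, 4 ^ j i * R ≤ C₁ * b ∧ N' = lw i R (ME E j h J i N) ∧ ∀ k < R, lw i k (ME E j h J i N) = 0`.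
STEP: `N` with `P i N`. It contains no `q`, `w`, `S (i, t)`, `v (i, t)` (`Oc`), so `M := ME E j h J i N ≠ 0` (`ME_ne_zero`), `R` from `exists_lw` (E06), `N' := lw i R M ≠ 0`. Variables: let `¬ Oc J (i + 1) y`. `degreeOf_lw_le`: enough `M.degreeOf y = 0` (`degreeOf_ME_eq_zero`): `y = q`; `y = w i'`: `i' = i` or `N.degreeOf y = 0`;
 `y = z (i', t)`, `i' < i + 1`: `i' = i` or `¬ Oc J i y`; `y = S (i', t)`: `i + 1 ≤ i'` or `t ∉ J`: if `i' = i`: `t ∉ J`: case 4; if `i' ≠ i`: `¬ Oc J i y`; `y = v (i', t)`: `i + 1 ≤ i'` or `t ∈ J`: if `i' = i`, `t ∈ J` and `¬ Oc J i y`; otherwise `¬ Oc J i y`.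
Bounds: `QE_ME` gives `QE j (c * (c ^ i * b)) (c * ((2c)^i (H + b) + c ^ i b)) M`, `≤ c^(i+1) b`, `≤ (2c)^(i+1) (H + b)`; `nh N' ≤ nh M`, degrees smaller. `4 ^ j i * R ≤ ∑ t, 4 ^ j i * M.degreeOf (v (i, t)) ≤ n * (c ^ (i+1) * b)` (`wt j (v (i, t)) = 4 ^ j i`).
Then choose `R` for all `i` (`choose`). `H ≥ 0` (`nh_nonneg`), `b ≥ 0` (`QE_nonneg`).
-/

universe u

namespace Pool.Agent.Lib.MP_17a322_nt.VA

open MvPolynomial Height
open Pool.Agent.Lib.MP_17a322_nt.VJ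
open Pool.Agent.Lib.MP_17a322_nt.VN

/-- The occurring variables after one step. -/
private theorem e08_occ {K : Type u} [Field K] [NumberField K] {m n : ℕ} {E : ED K n}
    {J : Finset (Fin n)} {D : ℕ} {j : Fin m → ℕ}
    {h : Fin m → Fin n → MvPolynomial (Fin n) K} (hh : HC J D j h) (i : Fin m)
    (N : MvPolynomial (VE m n) K) (hocc : ∀ y, ¬ Oc J (i : ℕ) y → N.degreeOf y = 0)
    (y : VE m n) (hy : ¬ Oc J ((i : ℕ) + 1) y) : (ME E j h J i N).degreeOf y = 0 := by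
  refine degreeOf_ME_eq_zero hh i N y ?_
  cases y with
  | x t => exact absurd trivial hy
  | q => exact Or.inl rfl
  | S p =>
    obtain ⟨i', t⟩ := p
    have hy' : ¬ ((i' : ℕ) < (i : ℕ) + 1 ∧ t ∈ J) := hy
    by_cases hi : i' = i
    · subst hi
      refine Or.inr (Or.inr (Or.inr (Or.inl ⟨t, fun ht => ?_, rfl⟩)))
      exact hy' ⟨Nat.lt_succ_self _, ht⟩
    · refine Or.inr (Or.inr (Or.inr (Or.inr ⟨hocc _ (fun ho => ?_), fun t' h => ?_,
        fun t' h => ?_, fun r _ h => ?_⟩)))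
      · have ho' : (i' : ℕ) < (i : ℕ) ∧ t ∈ J := ho
        exact hy' ⟨Nat.lt_succ_of_lt ho'.1, ho'.2⟩
      · cases h
      · exact hi (Prod.mk.inj (VE.S.inj h)).1
      · cases h
  | w i' =>
    by_cases hi : i' = i
    · subst hi
      exact Or.inr (Or.inl rfl)
    · refine Or.inr (Or.inr (Or.inr (Or.inr ⟨hocc _ (fun ho => ho), fun t' h => ?_,
        fun t' h => ?_, fun r _ h => ?_⟩)))
      · cases h
      · cases h
      · cases h
  | z p =>
    obtain ⟨i', t⟩ := p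
    have hy' : ¬ ((i : ℕ) + 1 ≤ (i' : ℕ)) := hy
    by_cases hi : i' = i
    · subst hi
      exact Or.inr (Or.inr (Or.inl ⟨t, rfl⟩))
    · refine Or.inr (Or.inr (Or.inr (Or.inr ⟨hocc _ (fun ho => ?_), fun t' h => ?_,
        fun t' h => ?_, fun r _ h => ?_⟩)))
      · have ho' : (i : ℕ) ≤ (i' : ℕ) := ho
        have h1 : (i' : ℕ) ≠ (i : ℕ) := fun h => hi (Fin.ext h)
        omega
      · cases h
      · cases h
      · cases h
  | v p =>
    obtain ⟨i', t⟩ := p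
    have hy' : ¬ ((i' : ℕ) < (i : ℕ) + 1 ∧ t ∉ J) := hy
    refine Or.inr (Or.inr (Or.inr (Or.inr ⟨hocc _ (fun ho => ?_), fun t' h => ?_,
      fun t' h => ?_, fun r hr h => ?_⟩)))
    · have ho' : (i' : ℕ) < (i : ℕ) ∧ t ∉ J := ho
      exact hy' ⟨Nat.lt_succ_of_lt ho'.1, ho'.2⟩
    · cases h
    · cases h
    · have h1 := Prod.mk.inj (VE.v.inj h)
      refine hy' ⟨?_, ?_⟩
      · rw [h1.1]
        exact Nat.lt_succ_self _
      · rw [h1.2]
        exact hr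

/-- (E.1) The eliminations of all blocks. -/
theorem elim_W {K : Type u} [Field K] [NumberField K] (m : ℕ) {n : ℕ} {E : ED K n} {C : ℝ}
    (hE : E.Ok C) (J : Finset (Fin n)) (D : ℕ) :
    ∃ C₁ : ℝ, 0 ≤ C₁ ∧ ∀ (j : Fin m → ℕ) (h : Fin m → Fin n → MvPolynomial (Fin n) K) (b H : ℝ)
      (N₀ : MvPolynomial (VE m n) K), HC J D j h → N₀ ≠ 0 →
      (∀ y, ¬ Oc J 0 y → N₀.degreeOf y = 0) → QE j b H N₀ →
      ∃ (N : Fin (m + 1) → MvPolynomial (VE m n) K) (R : Fin m → ℕ),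
        N 0 = N₀ ∧ N (Fin.last m) ≠ 0 ∧
        (∀ (k : Fin (m + 1)) y, ¬ Oc J (k : ℕ) y → (N k).degreeOf y = 0) ∧
        QE j (C₁ * b) (C₁ * (H + b)) (N (Fin.last m)) ∧
        ∀ i : Fin m, (4 : ℝ) ^ j i * R i ≤ C₁ * b ∧
          N i.succ = lw i (R i) (ME E j h J i (N i.castSucc)) ∧
          ∀ k < R i, lw i k (ME E j h J i (N i.castSucc)) = 0 := by
  obtain ⟨c, hc, hME⟩ := QE_ME m hE J D
  have hc0 : 0 ≤ c := by linarith
  have h2c : 1 ≤ 2 * c := by linarith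
  have h2c0 : 0 ≤ 2 * c := by linarith
  have hn0 : (0 : ℝ) ≤ (n : ℝ) := Nat.cast_nonneg n
  refine ⟨((n : ℝ) + 1) * (2 * c) ^ (m + 1),
    mul_nonneg (by linarith) (pow_nonneg h2c0 _), ?_⟩
  intro j h b H N₀ hh hN0 hocc hQ
  have hb : 0 ≤ b := QE_nonneg hQ
  have hH : 0 ≤ H := (nh_nonneg hN0).trans hQ.2
  have hHb : 0 ≤ H + b := by linarith
  have hcpow : ∀ k, k ≤ m + 1 → c ^ k ≤ (2 * c) ^ (m + 1) := fun k hk =>
    (pow_le_pow_left₀ hc0 (by linarith) k).trans (pow_le_pow_right₀ h2c hk)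
  have hP0 : 0 ≤ (2 * c) ^ (m + 1) := pow_nonneg h2c0 _
  obtain ⟨N, hNz, hP, hQ'⟩ := exists_chain m
    (fun k (N : MvPolynomial (VE m n) K) => N ≠ 0 ∧ (∀ y, ¬ Oc J k y → N.degreeOf y = 0) ∧
      QE j (c ^ k * b) ((2 * c) ^ k * (H + b)) N)
    (fun i N N' => ∃ R : ℕ, (4 : ℝ) ^ j i * R ≤ ((n : ℝ) + 1) * (2 * c) ^ (m + 1) * b ∧
      N' = lw i R (ME E j h J i N) ∧ ∀ k < R, lw i k (ME E j h J i N) = 0)
    N₀ ⟨hN0, hocc, QE_mono (by simp) (by simp; linarith) hQ⟩ (fun i N hN => by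
      obtain ⟨hN1, hN2, hN3⟩ := hN
      have hM : ME E j h J i N ≠ 0 := by
        refine ME_ne_zero hE hh i N hN1 (hN2 _ (fun ho => ho)) (hN2 _ (fun ho => ho))
          (fun t => hN2 _ (fun ho => ?_)) (fun t => hN2 _ (fun ho => ?_))
        · have ho' : (i : ℕ) < (i : ℕ) ∧ t ∈ J := ho
          exact lt_irrefl _ ho'.1
        · have ho' : (i : ℕ) < (i : ℕ) ∧ t ∉ J := ho
          exact lt_irrefl _ ho'.1
      have hQM := hME j h i N _ _ hh hN1 hM hN3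
      obtain ⟨R, hR0, hRk, hRle⟩ := exists_lw i (ME E j h J i N) hM
      have hci : 0 ≤ c ^ (i : ℕ) := pow_nonneg hc0 _
      refine ⟨lw i R (ME E j h J i N), ⟨hR0, fun y hy => ?_, fun y => ?_, ?_⟩,
        R, ?_, rfl, hRk⟩
      · have h1 := degreeOf_lw_le i R (ME E j h J i N) y
        rw [e08_occ hh i N hN2 y hy] at h1
        exact Nat.le_zero.1 h1
      · have h1 : ((lw i R (ME E j h J i N)).degreeOf y : ℝ) ≤
            ((ME E j h J i N).degreeOf y : ℝ) :=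
          Nat.cast_le.2 (degreeOf_lw_le i R (ME E j h J i N) y)
        have h2 : 0 ≤ wt j y := by linarith [one_le_wt j y]
        refine (mul_le_mul_of_nonneg_left h1 h2).trans ((hQM.1 y).trans ?_)
        rw [pow_succ']
        exact (mul_assoc _ _ _).ge
      · refine (nh_lw_le i R (ME E j h J i N) hR0).trans (hQM.2.trans ?_)
        have h1 : c ^ (i : ℕ) * b ≤ (2 * c) ^ (i : ℕ) * (H + b) :=
          mul_le_mul (pow_le_pow_left₀ hc0 (by linarith) _) (by linarith) hb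
            (pow_nonneg h2c0 _)
        have h2 : c * ((2 * c) ^ (i : ℕ) * (H + b) + c ^ (i : ℕ) * b) ≤
            c * ((2 * c) ^ (i : ℕ) * (H + b) + (2 * c) ^ (i : ℕ) * (H + b)) :=
          mul_le_mul_of_nonneg_left (by linarith) hc0
        refine h2.trans (le_of_eq ?_)
        ring
      · have h1 : ∀ t : Fin n, (4 : ℝ) ^ j i * ((ME E j h J i N).degreeOf (VE.v (i, t)) : ℝ) ≤
            c * (c ^ (i : ℕ) * b) := fun t => hQM.1 (VE.v (i, t))
        have h2 : (R : ℝ) ≤ ∑ t : Fin n, ((ME E j h J i N).degreeOf (VE.v (i, t)) : ℝ) := by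
          have h3 : (R : ℝ) ≤ ((∑ t : Fin n, (ME E j h J i N).degreeOf (VE.v (i, t)) : ℕ) : ℝ) :=
            Nat.cast_le.2 hRle
          rwa [Nat.cast_sum] at h3
        have h4 : (4 : ℝ) ^ j i * R ≤ (n : ℝ) * (c * (c ^ (i : ℕ) * b)) := by
          calc (4 : ℝ) ^ j i * R
              ≤ (4 : ℝ) ^ j i * ∑ t : Fin n, ((ME E j h J i N).degreeOf (VE.v (i, t)) : ℝ) :=
                mul_le_mul_of_nonneg_left h2 (pow_nonneg (by norm_num) _)
            _ = ∑ t : Fin n, (4 : ℝ) ^ j i * ((ME E j h J i N).degreeOf (VE.v (i, t)) : ℝ) :=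
                Finset.mul_sum _ _ _
            _ ≤ ∑ _t : Fin n, c * (c ^ (i : ℕ) * b) := Finset.sum_le_sum (fun t _ => h1 t)
            _ = (n : ℝ) * (c * (c ^ (i : ℕ) * b)) := by
                rw [Finset.sum_const, Finset.card_univ, Fintype.card_fin, nsmul_eq_mul]
        refine h4.trans ?_
        have h5 : c * (c ^ (i : ℕ) * b) ≤ (2 * c) ^ (m + 1) * b := by
          rw [← mul_assoc, ← pow_succ']
          exact mul_le_mul_of_nonneg_right (hcpow _ (by have := i.2; omega)) hb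
        have h6 : 0 ≤ (2 * c) ^ (m + 1) * b := mul_nonneg hP0 hb
        calc (n : ℝ) * (c * (c ^ (i : ℕ) * b)) ≤ (n : ℝ) * ((2 * c) ^ (m + 1) * b) :=
              mul_le_mul_of_nonneg_left h5 hn0
          _ ≤ ((n : ℝ) + 1) * ((2 * c) ^ (m + 1) * b) :=
              mul_le_mul_of_nonneg_right (by linarith) h6
          _ = ((n : ℝ) + 1) * (2 * c) ^ (m + 1) * b := by ring)
  choose R hR using hQ'
  have hPm := hP (Fin.last m)
  have hlast : ((Fin.last m : Fin (m + 1)) : ℕ) = m := Fin.val_last m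
  refine ⟨N, R, hNz, hPm.1, fun k => (hP k).2.1, ?_, hR⟩
  have h1 : (2 * c) ^ (m + 1) ≤ ((n : ℝ) + 1) * (2 * c) ^ (m + 1) := by nlinarith
  refine QE_mono ?_ ?_ hPm.2.2
  · rw [hlast]
    exact mul_le_mul_of_nonneg_right ((hcpow m (Nat.le_succ m)).trans h1) hb
  · rw [hlast]
    exact mul_le_mul_of_nonneg_right
      ((pow_le_pow_right₀ h2c (Nat.le_succ m)).trans h1) hHb

end Pool.Agent.Lib.MP_17a322_nt.VA
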