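import Pool.Agent.Lib.MP_17a322_nt.VA.E11

/-!
JOB E12. Part E of VA: the chain of leading forms.

PROOF of `chain_W`. Write `n k := aeval (np x s τ) (N k)`. `n (last) ≠ 0`; by (descending) induction with the first part of `step_W` (E11) all `n k ≠ 0` (`Fin.reverseInduction` or induction on `m - k`).
Then `exists_chain` (VN/L2R) with `P k F := ∃ hk : k < m + 1, F ∣ n ⟨k, hk⟩` and `Q i F F' := ∃ ρ ≤ R i, (∀ k < ρ, coeff k (PsS ξ i F) = 0) ∧ F' = coeff ρ (PsS ξ i F) ∧ F' ≠ 0`, `a₀ = n 0` and the second part of `step_W` for `N i.castSucc`, `N i.succ` (`hOc i.castSucc`; `(i.castSucc : ℕ) = i`).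
At the end `N (last)` contains only `x`, `S`, `v` (`Oc J m`): `z p` has `m ≤ p.1` impossible, so `aeval (np x s τ) (N last) = C (aeval (nc x s τ) (N last))` (`aeval_congr_of_degreeOf` (VN/L2D0) with `np' = C ∘ nc`, `C` is an algebra homomorphism).
-/

universe u

namespace Pool.Agent.Lib.MP_17a322_nt.VA

open MvPolynomial Height
open Pool.Agent.Lib.MP_17a322_nt.VJ
open Pool.Agent.Lib.MP_17a322_nt.VN

/-- The values of the variables in the ring `B`. -/
noncomputable def nc {B : Type*} [CommRing B] {m n : ℕ} (x : Fin n → B)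
    (s τ : Fin m × Fin n → B) : VE m n → B
  | VE.x t => x t
  | VE.q => 0
  | VE.S p => s p
  | VE.w _ => 0
  | VE.z _ => 0
  | VE.v p => τ p

private theorem e12_np_eq {K : Type*} [Field K] {m n : ℕ} {J : Finset (Fin n)}
    (N : MvPolynomial (VE m n) K) (hOc : ∀ y, ¬ Oc J m y → N.degreeOf y = 0)
    {B : Type*} [CommRing B] [Algebra K B] (x : Fin n → B) (s τ : Fin m × Fin n → B) :
    aeval (np x s τ) N = (C (aeval (nc x s τ) N) : MvPolynomial (Fin m × Fin n) B) := by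
  have h2 : (C (aeval (nc x s τ) N) : MvPolynomial (Fin m × Fin n) B) =
      (Algebra.ofId B (MvPolynomial (Fin m × Fin n) B)).restrictScalars K
        (aeval (nc x s τ) N) := rfl
  rw [h2, ← AlgHom.comp_apply, comp_aeval]
  refine aeval_congr_of_degreeOf N _ _ fun y hy => ?_
  have hO : Oc J m y := by
    by_contra h
    exact hy (hOc y h)
  cases y with
  | x t => rfl
  | q => exact absurd hO (by simp [Oc])
  | S p => rfl
  | w i => exact absurd hO (by simp [Oc])
  | z p => exact absurd p.1.2 (not_lt.2 hO)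
  | v p => rfl

/-- (E.3) The chain of leading forms. -/
theorem chain_W {K : Type u} [Field K] [NumberField K] {m n : ℕ} {E : ED K n} {C₀ : ℝ}
    (hE : E.Ok C₀) {J : Finset (Fin n)} {D : ℕ} {j : Fin m → ℕ}
    {h : Fin m → Fin n → MvPolynomial (Fin n) K} (hh : HC J D j h)
    (N : Fin (m + 1) → MvPolynomial (VE m n) K) (R : Fin m → ℕ)
    (hOc : ∀ (k : Fin (m + 1)) y, ¬ Oc J (k : ℕ) y → (N k).degreeOf y = 0)
    (hN : ∀ i : Fin m, N i.succ = lw i (R i) (ME E j h J i (N i.castSucc)) ∧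
      ∀ k < R i, lw i k (ME E j h J i (N i.castSucc)) = 0)
    {B : Type u} [CommRing B] [IsDomain B] [Algebra K B] (x : Fin n → B) (θ : B)
    (s τ : Fin m × Fin n → B) (S ξ : Fin m × Fin n → PowerSeries B) (w : Fin m → PowerSeries B)
    (hs : ∀ p, PowerSeries.constantCoeff (S p) = s p)
    (hQ : aeval (fun o : Option (Fin n) => o.elim θ x) E.f = 0)
    (hP : ∀ i, aeval (fun o : Option (Fin n) => o.elim (w i) fun t => S (i, t)) E.f = 0)
    (hξ : ∀ i t, aeval (Sum.elim (fun o : Option (Fin n) => PowerSeries.C (o.elim θ x))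
        (fun o : Option (Fin n) => o.elim (w i) fun t => S (i, t))) (E.b (j i) none) * ξ (i, t) =
      aeval (Sum.elim (fun o : Option (Fin n) => PowerSeries.C (o.elim θ x))
        (fun o : Option (Fin n) => o.elim (w i) fun t => S (i, t))) (E.b (j i) (some t)))
    (h0 : ∀ i, ∀ r ∉ J, aeval (fun t => s (i, t)) (h i r) = 0)
    (h1 : ∀ i, ∀ r ∉ J, IsUnit (aeval (fun t => s (i, t)) (pderiv r (h i r))))
    (hτ : ∀ i, ∀ r ∉ J, aeval (fun t => s (i, t)) (pderiv r (h i r)) * τ (i, r) =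
      ∑ t, aeval (fun t => s (i, t)) (pderiv t (h i r)) * PowerSeries.coeff 1 (S (i, t)))
    (hne : aeval (nc x s τ) (N (Fin.last m)) ≠ 0) :
    ∃ (F : Fin (m + 1) → MvPolynomial (Fin m × Fin n) B) (ρ : Fin m → ℕ),
      F 0 = aeval (np x s τ) (N 0) ∧ F (Fin.last m) ≠ 0 ∧
      F (Fin.last m) ∣ C (aeval (nc x s τ) (N (Fin.last m))) ∧
      ∀ i : Fin m, ρ i ≤ R i ∧ F i.succ = PowerSeries.coeff (ρ i) (PsS ξ i (F i.castSucc)) ∧
        ∀ k < ρ i, PowerSeries.coeff k (PsS ξ i (F i.castSucc)) = 0 := by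
  classical
  have step : ∀ i : Fin m, aeval (np x s τ) (N i.succ) ≠ 0 →
      aeval (np x s τ) (N i.castSucc) ≠ 0 ∧
        ∀ F : MvPolynomial (Fin m × Fin n) B, F ∣ aeval (np x s τ) (N i.castSucc) →
          ∃ ρ ≤ R i, (∀ k < ρ, PowerSeries.coeff k (PsS ξ i F) = 0) ∧
            PowerSeries.coeff ρ (PsS ξ i F) ≠ 0 ∧
            PowerSeries.coeff ρ (PsS ξ i F) ∣ aeval (np x s τ) (N i.succ) := by
    intro i hi
    exact step_W hE hh i (N i.castSucc) (N i.succ) (R i) (fun y hy => hOc i.castSucc y hy)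
      (hN i).1 (hN i).2 x θ s τ (fun t => S (i, t)) (w i) ξ (fun t => hs (i, t)) hQ (hP i)
      (hξ i) (h0 i) (h1 i) (hτ i) hi
  have heq : aeval (np x s τ) (N (Fin.last m)) =
      (C (aeval (nc x s τ) (N (Fin.last m))) : MvPolynomial (Fin m × Fin n) B) :=
    e12_np_eq (J := J) (N (Fin.last m)) (fun y hy => hOc (Fin.last m) y (by
      rw [Fin.val_last]
      exact hy)) x s τ
  have hlast : aeval (np x s τ) (N (Fin.last m)) ≠ 0 := by
    rw [heq]
    intro h
    exact hne (C_injective (Fin m × Fin n) B (by rw [h, C_0]))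
  have nz : ∀ k : Fin (m + 1), aeval (np x s τ) (N k) ≠ 0 := by
    intro k
    induction k using Fin.reverseInduction with
    | last => exact hlast
    | cast i ih => exact (step i ih).1
  obtain ⟨F, hF0, hF, hQ'⟩ := exists_chain m
    (fun k F => ∀ h : k < m + 1, F ∣ aeval (np x s τ) (N ⟨k, h⟩))
    (fun i F F' => ∃ ρ : ℕ, ρ ≤ R i ∧ F' = PowerSeries.coeff ρ (PsS ξ i F) ∧
      ∀ k < ρ, PowerSeries.coeff k (PsS ξ i F) = 0)
    (aeval (np x s τ) (N 0)) (fun _ => dvd_rfl) (by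
      intro i F hF
      have hF' : F ∣ aeval (np x s τ) (N i.castSucc) := hF _
      obtain ⟨ρ, hρ, hk, _, hd⟩ := (step i (nz i.succ)).2 F hF'
      exact ⟨PowerSeries.coeff ρ (PsS ξ i F), fun _ => hd, ρ, hρ, rfl, hk⟩)
  choose ρ hρ hρ1 hρ2 using hQ'
  have hl : F (Fin.last m) ∣ aeval (np x s τ) (N (Fin.last m)) :=
    hF (Fin.last m) (Nat.lt_succ_self m)
  refine ⟨F, ρ, hF0, ne_zero_of_dvd_ne_zero hlast hl, ?_, fun i => ⟨hρ i, hρ1 i, hρ2 i⟩⟩
  rw [← heq]
  exact hl

end Pool.Agent.Lib.MP_17a322_nt.VA
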