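import Pool.Agent.Lib.MP_17a322_nt.VA.E11

/-!
Part E of VA: divisors of polynomials in linear forms; homogeneity of the leading forms.

JOB E13a: `dvd_forms`.
PROOF. (1) Linear algebra: for every `i` there are `G i : Matrix (Fin n) (Fin n) L` invertible, with inverse `H i`, and an injective map `κ i : Fin c → Fin n` such that `E i b a = G i (κ i b) a`: extend the linearly independent family `E i` to a basis of `Fin n → L` indexed by `Fin n`
 (`LinearIndependent.extend`/`Basis.extend` or `exists_linearIndependent_extension`, reindex; or induction; `Module.finrank_fin_fun`). (2) `Φ = aeval (fun p => ∑ a, C (G p.1 p.2 a) * X (p.1, a)) : MvPolynomial (Fin m × Fin n) L →ₐ itself` is bijective with inverse `Φ' = aeval (fun p => ∑ a, C (H p.1 p.2 a) * X (p.1, a))`.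
 `aeval (forms) Q = Φ (rename (fun p => (p.1, κ p.1 p.2)) Q)`. Let `T` be the range of `p ↦ (p.1, κ p.1 p.2)` (injective). `Φ' f ∣ rename _ Q =: Q₁ ≠ 0`, which contains only variables of `T`. So `Φ' f` contains only variables of `T` (degrees are additive in a domain: `degreeOf_mul_eq`, or `D7`-lemmas in VJ; `Φ' f * g = Q₁`, both factors `≠ 0`,
 `degreeOf y (Φ' f) + degreeOf y g = degreeOf y Q₁ = 0` for `y ∉ T`). `exists_rename_eq_of_vars_subset_range`: `Φ' f = rename _ Q'`, apply `Φ`.

JOB E13b: `coeff_PsS_mem`.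
PROOF. Both statements at once: let `G : ℕ → AddSubgroup B` with `1 ∈ G 0`, `G k * G l ⊆ G (k + l)` and `ξ p` (`p.1 = i`) a series with `coeff l (ξ p) ∈ G (e * l)` (`e = 1` or `e = 0`). Let `𝒢 k` be the set of the series `P` over `MvPolynomial (Fin m × Fin n) B` such that all coefficients of `coeff l P` lie in `G (k + e * l)`; it is an additive
 subgroup, `𝒢 k * 𝒢 k' ⊆ 𝒢 (k + k')` (`PowerSeries.coeff_mul`, `MvPolynomial.coeff_mul`), `1 ∈ 𝒢 0`, `PowerSeries.map C (ξ p) ∈ 𝒢 0`, `PowerSeries.C (X p) ∈ 𝒢 0`, `PowerSeries.C (C b) ∈ 𝒢 k` for `b ∈ G k`. `F = ∑ u, monomial u (coeff u F)`, `PsS ξ i (monomial u b) = PowerSeries.C (C b) * ∏ ..` in `𝒢 k` for `b ∈ G k`.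
-/

universe u

namespace Pool.Agent.Lib.MP_17a322_nt.VA

open MvPolynomial Height
open Pool.Agent.Lib.MP_17a322_nt.VJ
open Pool.Agent.Lib.MP_17a322_nt.VN

private theorem e13a_ext {L : Type*} [Field L] {n c : ℕ} (E : Fin c → Fin n → L)
    (hE : LinearIndependent L E) :
    ∃ (G H : Matrix (Fin n) (Fin n) L) (κ : Fin c → Fin n), G * H = 1 ∧ H * G = 1 ∧
      Function.Injective κ ∧ ∀ b a, E b a = G (κ b) a := by
  classical
  have hs : LinearIndepOn L id (Set.range E) := hE.linearIndepOn_id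
  have hfin : Finite ↑(hs.extend (Set.subset_univ _)) :=
    (Module.Basis.extend hs).linearIndependent.finite
  have := Fintype.ofFinite ↑(hs.extend (Set.subset_univ _))
  have hcard : Fintype.card ↑(hs.extend (Set.subset_univ _)) = Fintype.card (Fin n) := by
    rw [← Module.finrank_eq_card_basis (Module.Basis.extend hs)]
    rw [← Module.finrank_eq_card_basis (Pi.basisFun L (Fin n))]
  let e := Fintype.equivOfCardEq hcard
  let B : Module.Basis (Fin n) L (Fin n → L) := (Module.Basis.extend hs).reindex e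
  have hmem : ∀ b, E b ∈ hs.extend (Set.subset_univ _) := fun b =>
    hs.subset_extend _ ⟨b, rfl⟩
  refine ⟨((Pi.basisFun L (Fin n)).toMatrix B).transpose,
    (B.toMatrix (Pi.basisFun L (Fin n))).transpose, fun b => e ⟨E b, hmem b⟩, ?_, ?_, ?_, ?_⟩
  · rw [← Matrix.transpose_mul, Module.Basis.toMatrix_mul_toMatrix_flip, Matrix.transpose_one]
  · rw [← Matrix.transpose_mul, Module.Basis.toMatrix_mul_toMatrix_flip, Matrix.transpose_one]
  · intro b b' h
    have := e.injective h
    exact hE.injective (congrArg Subtype.val this)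
  · intro b a
    have hB : B (e ⟨E b, hmem b⟩) = E b := by
      simp only [B, Module.Basis.reindex_apply, Equiv.symm_apply_apply,
        Module.Basis.extend_apply_self]
    simp only [Matrix.transpose_apply, Module.Basis.toMatrix_apply, Pi.basisFun_repr, hB]

private noncomputable def e13a_Phi {L : Type*} [Field L] {m n : ℕ}
    (G : Fin m → Matrix (Fin n) (Fin n) L) :
    MvPolynomial (Fin m × Fin n) L →ₐ[L] MvPolynomial (Fin m × Fin n) L :=
  aeval (fun p : Fin m × Fin n =>
    ∑ a, (C (G p.1 p.2 a) * X (p.1, a) : MvPolynomial (Fin m × Fin n) L))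

private theorem e13a_comp {L : Type*} [Field L] {m n : ℕ}
    (G H : Fin m → Matrix (Fin n) (Fin n) L) (h : ∀ i, H i * G i = 1)
    (f : MvPolynomial (Fin m × Fin n) L) : e13a_Phi G (e13a_Phi H f) = f := by
  have : (e13a_Phi G).comp (e13a_Phi H) = AlgHom.id L _ := by
    apply MvPolynomial.algHom_ext
    rintro ⟨i, j⟩
    simp only [AlgHom.comp_apply, AlgHom.id_apply, e13a_Phi, aeval_X, map_sum, map_mul]
    have h1 : ∀ a, (aeval (fun p : Fin m × Fin n =>
        ∑ a, (C (G p.1 p.2 a) * X (p.1, a) : MvPolynomial (Fin m × Fin n) L)))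
        (C (H i j a)) = C (H i j a) := fun a => by
      rw [algHom_C]; rfl
    simp only [h1]
    simp only [Finset.mul_sum]
    rw [Finset.sum_comm]
    have h2 : ∀ b, ∑ a, (C (H i j a) * (C (G i a b) * X (i, b)) :
        MvPolynomial (Fin m × Fin n) L) = C ((H i * G i) j b) * X (i, b) := by
      intro b
      rw [Matrix.mul_apply, map_sum, Finset.sum_mul]
      refine Finset.sum_congr rfl fun a _ => ?_
      rw [map_mul, mul_assoc]
    simp only [h2, h i, Matrix.one_apply]
    rw [Finset.sum_eq_single j]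
    · simp
    · intro b _ hb
      rw [if_neg (Ne.symm hb), C_0, zero_mul]
    · intro hj; exact absurd (Finset.mem_univ j) hj
  exact DFunLike.congr_fun this f

theorem dvd_forms {L : Type*} [Field L] {m n c : ℕ} (E : Fin m → Fin c → Fin n → L)
    (hE : ∀ i, LinearIndependent L (E i)) (f : MvPolynomial (Fin m × Fin n) L)
    (Q : MvPolynomial (Fin m × Fin c) L)
    (hQ : aeval (fun p : Fin m × Fin c =>
      ∑ a, (C (E p.1 p.2 a) * X (p.1, a) : MvPolynomial (Fin m × Fin n) L)) Q ≠ 0)
    (h : f ∣ aeval (fun p : Fin m × Fin c =>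
      ∑ a, (C (E p.1 p.2 a) * X (p.1, a) : MvPolynomial (Fin m × Fin n) L)) Q) :
    ∃ Q' : MvPolynomial (Fin m × Fin c) L, f = aeval (fun p : Fin m × Fin c =>
      ∑ a, (C (E p.1 p.2 a) * X (p.1, a) : MvPolynomial (Fin m × Fin n) L)) Q' := by
  classical
  choose G H κ hGH hHG hκ hEG using fun i => e13a_ext (E i) (hE i)
  have hform : ∀ R : MvPolynomial (Fin m × Fin c) L, aeval (fun p : Fin m × Fin c =>
      ∑ a, (C (E p.1 p.2 a) * X (p.1, a) : MvPolynomial (Fin m × Fin n) L)) R =
      e13a_Phi G (rename (fun p : Fin m × Fin c => (p.1, κ p.1 p.2)) R) := by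
    intro R
    rw [e13a_Phi, aeval_rename]
    congr 1
    congr 1
    funext p
    simp only [Function.comp]
    refine Finset.sum_congr rfl fun a _ => ?_
    rw [hEG]
  set τ : Fin m × Fin c → Fin m × Fin n := fun p => (p.1, κ p.1 p.2) with hτ
  have hτi : Function.Injective τ := by
    rintro ⟨i, b⟩ ⟨i', b'⟩ h
    simp only [hτ, Prod.mk.injEq] at h
    obtain ⟨rfl, h2⟩ := h
    rw [hκ i h2]
  rw [hform] at h hQ
  have hne : rename τ Q ≠ 0 := by
    intro h0
    rw [h0, map_zero] at hQ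
    exact hQ rfl
  obtain ⟨g, hg⟩ := h
  have hg2 : rename τ Q = e13a_Phi H f * e13a_Phi H g := by
    rw [← map_mul, ← hg, e13a_comp H G hGH]
  have hf0 : e13a_Phi H f ≠ 0 := by
    intro h0; rw [h0, zero_mul] at hg2; exact hne hg2
  have hg0 : e13a_Phi H g ≠ 0 := by
    intro h0; rw [h0, mul_zero] at hg2; exact hne hg2
  have hvars : ((e13a_Phi H f).vars : Set (Fin m × Fin n)) ⊆ Set.range τ := by
    intro y hy
    by_contra hyr
    have h1 : degreeOf y (rename τ Q) = 0 := by
      rw [degreeOf_def, Multiset.count_eq_zero]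
      intro hmem
      have h2 : y ∈ (rename τ Q).vars := by
        rw [vars_def]; exact Multiset.mem_toFinset.2 hmem
      have h3 := vars_rename τ Q h2
      obtain ⟨z, _, hz⟩ := Finset.mem_image.1 h3
      exact hyr ⟨z, hz⟩
    rw [hg2, degreeOf_mul_eq hf0 hg0] at h1
    have h4 : degreeOf y (e13a_Phi H f) = 0 := by omega
    rw [degreeOf_def, Multiset.count_eq_zero] at h4
    apply h4
    have h5 : y ∈ (e13a_Phi H f).vars := hy
    rw [vars_def] at h5
    exact Multiset.mem_toFinset.1 h5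
  obtain ⟨Q', hQ'⟩ := exists_rename_eq_of_vars_subset_range _ τ hτi hvars
  refine ⟨Q', ?_⟩
  rw [hform, hQ', e13a_comp G H hHG]

theorem forms_injective {L : Type*} [Field L] {m n c : ℕ} (E : Fin m → Fin c → Fin n → L)
    (hE : ∀ i, LinearIndependent L (E i)) (R : MvPolynomial (Fin m × Fin c) L)
    (hR : aeval (fun p : Fin m × Fin c =>
      ∑ a, (C (E p.1 p.2 a) * X (p.1, a) : MvPolynomial (Fin m × Fin n) L)) R = 0) : R = 0 := by
  classical
  choose G H κ hGH hHG hκ hEG using fun i => e13a_ext (E i) (hE i)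
  set τ : Fin m × Fin c → Fin m × Fin n := fun p => (p.1, κ p.1 p.2) with hτ
  have hτi : Function.Injective τ := by
    rintro ⟨i, b⟩ ⟨i', b'⟩ h
    simp only [hτ, Prod.mk.injEq] at h
    obtain ⟨rfl, h2⟩ := h
    rw [hκ i h2]
  have hform : aeval (fun p : Fin m × Fin c =>
      ∑ a, (C (E p.1 p.2 a) * X (p.1, a) : MvPolynomial (Fin m × Fin n) L)) R =
      e13a_Phi G (rename τ R) := by
    rw [e13a_Phi, aeval_rename]
    congr 1
    congr 1
    funext p
    simp only [Function.comp]
    refine Finset.sum_congr rfl fun a _ => ?_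
    rw [hEG]
  rw [hform] at hR
  have h1 := e13a_comp H G hGH (rename τ R)
  rw [hR, map_zero] at h1
  exact rename_injective τ hτi (by rw [← h1, map_zero])

private def e13Pd {B : Type*} [CommRing B] {σ : Type*} (G : ℕ → AddSubgroup B) (e k : ℕ)
    (P : PowerSeries (MvPolynomial σ B)) : Prop :=
  ∀ (l : ℕ) (u : σ →₀ ℕ), coeff u (PowerSeries.coeff l P) ∈ G (k + e * l)

private theorem e13Pd_mul {B : Type*} [CommRing B] {σ : Type*} {G : ℕ → AddSubgroup B}
    (hm : ∀ k l, ∀ a ∈ G k, ∀ b ∈ G l, a * b ∈ G (k + l)) {e k k' : ℕ}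
    {P Q : PowerSeries (MvPolynomial σ B)} (hP : e13Pd G e k P) (hQ : e13Pd G e k' Q) :
    e13Pd G e (k + k') (P * Q) := by
  classical
  intro l u
  rw [PowerSeries.coeff_mul, coeff_sum]
  refine AddSubgroup.sum_mem _ fun a ha => ?_
  rw [coeff_mul]
  refine AddSubgroup.sum_mem _ fun b _ => ?_
  have h1 := hm _ _ _ (hP a.1 b.1) _ (hQ a.2 b.2)
  have h2 : k + e * a.1 + (k' + e * a.2) = k + k' + e * l := by
    rw [← Finset.HasAntidiagonal.mem_antidiagonal.1 ha]
    ring
  rwa [h2] at h1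

private theorem e13Pd_C {B : Type*} [CommRing B] {σ : Type*} {G : ℕ → AddSubgroup B} {e k : ℕ}
    {f : MvPolynomial σ B} (hf : ∀ u, coeff u f ∈ G k) : e13Pd G e k (PowerSeries.C f) := by
  intro l u
  rw [PowerSeries.coeff_C]
  split_ifs with h
  · subst h
    rw [mul_zero, add_zero]
    exact hf u
  · rw [coeff_zero]
    exact AddSubgroup.zero_mem _

private theorem e13Pd_prod {B : Type*} [CommRing B] {σ : Type*} {G : ℕ → AddSubgroup B}
    (h1 : (1 : B) ∈ G 0) (hm : ∀ k l, ∀ a ∈ G k, ∀ b ∈ G l, a * b ∈ G (k + l)) {e : ℕ}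
    (g : σ → PowerSeries (MvPolynomial σ B)) (hg : ∀ p, e13Pd G e 0 (g p)) (s : Finset σ)
    (w : σ → ℕ) : e13Pd G e 0 (∏ p ∈ s, g p ^ w p) := by
  classical
  have hone : e13Pd G e 0 (1 : PowerSeries (MvPolynomial σ B)) := by
    have h2 := e13Pd_C (e := e) (f := (1 : MvPolynomial σ B)) (G := G) (k := 0) (fun u => by
      rw [coeff_one]
      split_ifs
      · exact h1
      · exact AddSubgroup.zero_mem _)
    rwa [map_one] at h2
  have hmul : ∀ P Q : PowerSeries (MvPolynomial σ B), e13Pd G e 0 P → e13Pd G e 0 Q →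
      e13Pd G e 0 (P * Q) := fun P Q hP hQ => e13Pd_mul (k := 0) (k' := 0) hm hP hQ
  have hpow : ∀ (P : PowerSeries (MvPolynomial σ B)) (n : ℕ), e13Pd G e 0 P →
      e13Pd G e 0 (P ^ n) := by
    intro P n hP
    induction n with
    | zero =>
      rw [pow_zero]
      exact hone
    | succ n ih =>
      rw [pow_succ]
      exact hmul _ _ ih hP
  exact Finset.prod_induction _ (e13Pd G e 0) hmul hone fun p _ => hpow _ _ (hg p)

theorem coeff_PsS_mem {B : Type*} [CommRing B] {m n : ℕ} (G : ℕ → AddSubgroup B)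
    (h1 : (1 : B) ∈ G 0) (hm : ∀ k l, ∀ a ∈ G k, ∀ b ∈ G l, a * b ∈ G (k + l))
    (ξ : Fin m × Fin n → PowerSeries B) (i : Fin m) (e : ℕ)
    (hξ : ∀ t l, PowerSeries.coeff l (ξ (i, t)) ∈ G (e * l))
    (F : MvPolynomial (Fin m × Fin n) B) (k : ℕ) (hF : ∀ u, coeff u F ∈ G k) (l : ℕ)
    (u : Fin m × Fin n →₀ ℕ) : coeff u (PowerSeries.coeff l (PsS ξ i F)) ∈ G (k + e * l) := by
  classical
  have hg : ∀ p : Fin m × Fin n, e13Pd G e 0 (if p.1 = i then PowerSeries.map C (ξ p) else
      PowerSeries.C (X p : MvPolynomial (Fin m × Fin n) B)) := by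
    intro p
    split_ifs with hp
    · intro l u
      rw [PowerSeries.coeff_map, coeff_C, zero_add]
      split_ifs
      · have h2 := hξ p.2 l
        rw [← hp] at h2
        exact h2
      · exact AddSubgroup.zero_mem _
    · refine e13Pd_C fun u => ?_
      rw [coeff_X]
      split_ifs
      · exact h1
      · exact AddSubgroup.zero_mem _
  have hF1 : PsS ξ i F = ∑ d ∈ F.support, PowerSeries.C (C (coeff d F)) *
      ∏ p ∈ d.support, (if p.1 = i then PowerSeries.map C (ξ p) else
        PowerSeries.C (X p : MvPolynomial (Fin m × Fin n) B)) ^ d p := by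
    rw [PsS, coe_eval₂Hom, eval₂_eq]
    rfl
  rw [hF1, map_sum, coeff_sum]
  refine AddSubgroup.sum_mem _ fun d _ => ?_
  have h3 : e13Pd G e k (PowerSeries.C (C (coeff d F) : MvPolynomial (Fin m × Fin n) B)) := by
    refine e13Pd_C fun u => ?_
    rw [coeff_C]
    split_ifs
    · exact hF d
    · exact AddSubgroup.zero_mem _
  have h4 := e13Pd_mul (k := k) (k' := 0) hm h3 (e13Pd_prod h1 hm _ hg d.support d)
  exact h4 l u

end Pool.Agent.Lib.MP_17a322_nt.VA
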