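import Pool.Agent.Lib.MP_17a322_nt.VA.E13
import Pool.Agent.Lib.MP_17a322_nt.VA.L0

/-!
Part E of VA: tools for the gluing with part L.
-/

universe u

namespace Pool.Agent.Lib.MP_17a322_nt.VA

open MvPolynomial Height
open Pool.Agent.Lib.MP_17a322_nt.VJ
open Pool.Agent.Lib.MP_17a322_nt.VN

/-- Values of the variables `x` and `S` in `L`, the variables `v` stay. -/
noncomputable def czE {L : Type*} [CommRing L] {m n : ℕ} (x : Fin n → L) (ζ : Fin m × Fin n → L) :
    VE m n → MvPolynomial (Fin m × Fin n) L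
  | VE.x t => C (x t)
  | VE.q => 0
  | VE.S p => C (ζ p)
  | VE.w _ => 0
  | VE.z _ => 0
  | VE.v p => X p

/-- A condition on `x`, `ζ` under which the polynomial `c` does not vanish identically. -/
theorem exists_g {K : Type u} [Field K] {m n : ℕ} (c : MvPolynomial (VE m n) K) (hc : c ≠ 0)
    (hq : c.degreeOf VE.q = 0) (hw : ∀ i, c.degreeOf (VE.w i) = 0)
    (hz : ∀ p, c.degreeOf (VE.z p) = 0) :
    ∃ g : MvPolynomial (Fin n ⊕ Fin m × Fin n) K, g ≠ 0 ∧ ∀ (L : Type u) [Field L] [Algebra K L]
      (x : Fin n → L) (ζ : Fin m × Fin n → L), aeval (Sum.elim x ζ) g ≠ 0 →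
        aeval (czE x ζ) c ≠ 0 := by
  let φ : MvPolynomial (VE m n) K →+*
      MvPolynomial (Fin m × Fin n) (MvPolynomial (Fin n ⊕ Fin m × Fin n) K) :=
    eval₂Hom (C.comp C) (czE (fun t => X (Sum.inl t)) (fun p => X (Sum.inr p)))
  let ψ : MvPolynomial (Fin m × Fin n) (MvPolynomial (Fin n ⊕ Fin m × Fin n) K) →+*
      MvPolynomial (VE m n) K :=
    eval₂Hom (rename (Sum.elim VE.x VE.S)).toRingHom (fun p => X (VE.v p))
  have h1 : ψ (φ c) = c := by
    have h2 : ψ (φ c) = aeval (fun y => ψ (φ (X y))) c := by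
      have h3 : ψ.comp φ = (aeval (R := K) fun y => ψ (φ (X y))).toRingHom := by
        refine MvPolynomial.ringHom_ext (fun a => ?_) (fun y => ?_)
        · show ψ (φ (C a)) = aeval _ (C a)
          have h4 : φ (C a) = C (C a) := eval₂Hom_C _ _ a
          rw [h4, aeval_C]
          show eval₂Hom _ _ (C (C a)) = _
          rw [eval₂Hom_C]
          exact rename_C _ a
        · show ψ (φ (X y)) = aeval _ (X y)
          rw [aeval_X]
      exact DFunLike.congr_fun h3 c
    rw [h2]
    have h4 : aeval (fun y => ψ (φ (X y))) c = aeval X c := by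
      refine aeval_congr_of_degreeOf c _ _ fun y hy => ?_
      cases y with
      | x t =>
        have h5 : φ (X (VE.x t)) = C (X (Sum.inl t)) := eval₂Hom_X' _ _ _
        show ψ (φ (X (VE.x t))) = X (VE.x t)
        rw [h5]
        show eval₂Hom _ _ (C (X (Sum.inl t))) = _
        rw [eval₂Hom_C]
        exact rename_X _ _
      | q => exact absurd hq hy
      | S p =>
        have h5 : φ (X (VE.S p)) = C (X (Sum.inr p)) := eval₂Hom_X' _ _ _
        show ψ (φ (X (VE.S p))) = X (VE.S p)
        rw [h5]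
        show eval₂Hom _ _ (C (X (Sum.inr p))) = _
        rw [eval₂Hom_C]
        exact rename_X _ _
      | w i => exact absurd (hw i) hy
      | z p => exact absurd (hz p) hy
      | v p =>
        have h5 : φ (X (VE.v p)) = X p := eval₂Hom_X' _ _ _
        show ψ (φ (X (VE.v p))) = X (VE.v p)
        rw [h5]
        exact eval₂Hom_X' _ _ _
    rw [h4, aeval_X_left_apply]
  have h5 : φ c ≠ 0 := by
    intro h
    rw [h, map_zero] at h1
    exact hc h1.symm
  obtain ⟨β, hβ⟩ := MvPolynomial.ne_zero_iff.1 h5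
  refine ⟨coeff β (φ c), hβ, fun L _ _ x ζ hg h0 => hg ?_⟩
  have h6 : MvPolynomial.map (aeval (R := K) (Sum.elim x ζ)).toRingHom (φ c) =
      aeval (czE x ζ) c := by
    have h7 : (MvPolynomial.map (aeval (R := K) (Sum.elim x ζ)).toRingHom).comp φ =
        (aeval (R := K) (czE x ζ)).toRingHom := by
      refine MvPolynomial.ringHom_ext (fun a => ?_) (fun y => ?_)
      · show MvPolynomial.map _ (φ (C a)) = aeval _ (C a)
        have h8 : φ (C a) = C (C a) := eval₂Hom_C _ _ a
        rw [h8, aeval_C, map_C]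
        show C (aeval (Sum.elim x ζ) (C a)) = _
        rw [aeval_C]
        rfl
      · show MvPolynomial.map _ (φ (X y)) = aeval _ (X y)
        have h8 : φ (X y) = czE (fun t => X (Sum.inl t)) (fun p => X (Sum.inr p)) y :=
          eval₂Hom_X' _ _ _
        rw [h8, aeval_X]
        cases y with
        | x t =>
          show MvPolynomial.map _ (C (X (Sum.inl t))) = C (x t)
          rw [map_C]
          show C (aeval (Sum.elim x ζ) (X (Sum.inl t))) = _
          rw [aeval_X]
          rfl
        | q => exact map_zero _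
        | S p =>
          show MvPolynomial.map _ (C (X (Sum.inr p))) = C (ζ p)
          rw [map_C]
          show C (aeval (Sum.elim x ζ) (X (Sum.inr p))) = _
          rw [aeval_X]
          rfl
        | w i => exact map_zero _
        | z p => exact map_zero _
        | v p => exact map_X _ _
    exact DFunLike.congr_fun h7 c
  have h8 := congrArg (coeff β) h6
  rw [coeff_map, h0, coeff_zero] at h8
  exact h8

/-- Change of the forms. -/
theorem forms_change {L : Type*} [Field L] {m n c : ℕ} (E γ : Fin m → Fin c → Fin n → L)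
    (V : Fin m → Matrix (Fin c) (Fin c) L) (h : ∀ i r a, γ i r a = ∑ b, V i r b * E i b a)
    (Q : MvPolynomial (Fin m × Fin c) L) :
    aeval (fun p : Fin m × Fin c =>
      ∑ a, (C (γ p.1 p.2 a) * X (p.1, a) : MvPolynomial (Fin m × Fin n) L)) Q =
    aeval (fun p : Fin m × Fin c =>
      ∑ a, (C (E p.1 p.2 a) * X (p.1, a) : MvPolynomial (Fin m × Fin n) L))
      (aeval (fun p : Fin m × Fin c =>
        ∑ b, (C (V p.1 p.2 b) * X (p.1, b) : MvPolynomial (Fin m × Fin c) L)) Q) := by
  rw [← AlgHom.comp_apply, MvPolynomial.comp_aeval]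
  congr 2
  funext p
  rw [map_sum]
  simp only [map_mul, aeval_X, algHom_C, algebraMap_eq, h, map_sum, Finset.sum_mul,
    Finset.mul_sum]
  rw [Finset.sum_comm]
  refine Finset.sum_congr rfl fun b _ => Finset.sum_congr rfl fun a _ => ?_
  ring

/-- Divisors of constants. -/
theorem eq_C_of_dvd_C {B σ : Type*} [CommRing B] [IsDomain B] (F : MvPolynomial σ B) (n : B)
    (hn : n ≠ 0) (h : F ∣ C n) : ∃ f, F = C f ∧ f ∣ n := by
  obtain ⟨G, hG⟩ := h
  have hF0 : F ≠ 0 := by
    rintro rfl
    rw [zero_mul, C_eq_zero] at hG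
    exact hn hG
  have hG0 : G ≠ 0 := by
    rintro rfl
    rw [mul_zero, C_eq_zero] at hG
    exact hn hG
  have h1 := totalDegree_mul_of_isDomain hF0 hG0
  rw [← hG, totalDegree_C] at h1
  have h2 : F.totalDegree = 0 := by omega
  have h3 : G.totalDegree = 0 := by omega
  rw [totalDegree_eq_zero_iff_eq_C] at h2 h3
  refine ⟨coeff 0 F, h2, coeff 0 G, ?_⟩
  rw [h2, h3, ← C_mul] at hG
  simpa using C_injective _ _ hG

/-- The series whose coefficients are homogeneous of degree `k` in the block `i`. -/
def GD (L : Type*) [Field L] {m n : ℕ} (i : Fin m) (k : ℕ) :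
    AddSubgroup (D1 L (Fin m × Fin n)) where
  carrier := {f | ∀ (l : ℕ) (w : Fin m × Fin n →₀ ℕ),
    MvPolynomial.coeff w (PowerSeries.coeff l f) ≠ 0 → ∑ a, w (i, a) = k}
  zero_mem' := by
    intro l w h
    simp at h
  add_mem' := by
    intro f g hf hg l w h
    rw [map_add, coeff_add] at h
    by_cases h1 : MvPolynomial.coeff w (PowerSeries.coeff l f) = 0
    · rw [h1, zero_add] at h
      exact hg l w h
    · exact hf l w h1
  neg_mem' := by
    intro f hf l w h
    rw [map_neg, coeff_neg, neg_ne_zero] at h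
    exact hf l w h

theorem mem_GD {L : Type*} [Field L] {m n : ℕ} {i : Fin m} {k : ℕ}
    {f : D1 L (Fin m × Fin n)} : f ∈ GD L i k ↔ ∀ (l : ℕ) (w : Fin m × Fin n →₀ ℕ),
    MvPolynomial.coeff w (PowerSeries.coeff l f) ≠ 0 → ∑ a, w (i, a) = k := Iff.rfl

theorem one_mem_GD {L : Type*} [Field L] {m n : ℕ} {i : Fin m} (c : MvPolynomial (Fin m × Fin n) L)
    (hc : ∀ w, coeff w c ≠ 0 → ∑ a, w (i, a) = 0) :
    (PowerSeries.C c : D1 L (Fin m × Fin n)) ∈ GD L i 0 := by
  intro l w h
  rw [PowerSeries.coeff_C] at h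
  split_ifs at h with h1
  · exact hc w h
  · simp at h

theorem mul_mem_GD {L : Type*} [Field L] {m n : ℕ} {i : Fin m} (k k' : ℕ)
    (f g : D1 L (Fin m × Fin n)) (hf : f ∈ GD L i k) (hg : g ∈ GD L i k') :
    f * g ∈ GD L i (k + k') := by
  classical
  intro l w h
  rw [PowerSeries.coeff_mul, coeff_sum] at h
  obtain ⟨p, hp, hp0⟩ := Finset.exists_ne_zero_of_sum_ne_zero h
  rw [coeff_mul] at hp0
  obtain ⟨q, hq, hq0⟩ := Finset.exists_ne_zero_of_sum_ne_zero hp0
  have h1 := hf _ _ (left_ne_zero_of_mul hq0)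
  have h2 := hg _ _ (right_ne_zero_of_mul hq0)
  rw [Finset.HasAntidiagonal.mem_antidiagonal] at hq hp
  rw [← hq, ← h1, ← h2, ← Finset.sum_add_distrib]
  rfl

/-- Homogeneity of the leading forms. -/
theorem chain_hom {L : Type*} [Field L] {m n : ℕ} (ξ : Fin m × Fin n → D2 L (Fin m × Fin n))
    (hξ : ∀ i t, HS i (ξ (i, t)))
    (F : Fin (m + 1) → MvPolynomial (Fin m × Fin n) (D1 L (Fin m × Fin n))) (ρ : Fin m → ℕ)
    (h0 : ∀ u, ∃ c : L, coeff u (F 0) = PowerSeries.C (C c))
    (hF : ∀ i : Fin m, F i.succ = PowerSeries.coeff (ρ i) (PsS ξ i (F i.castSucc)))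
    (i : Fin m) (u : Fin m × Fin n →₀ ℕ) : coeff u (F (Fin.last m)) ∈ GD L i (ρ i) := by
  have key : ∀ k : Fin (m + 1), ∀ u, coeff u (F k) ∈ GD L i (if (i : ℕ) < k then ρ i else 0) := by
    intro k
    induction k using Fin.induction with
    | zero =>
      intro u
      obtain ⟨c, hc⟩ := h0 u
      rw [hc]
      refine one_mem_GD _ fun w hw => ?_
      rw [coeff_C] at hw
      split_ifs at hw with h1
      · subst h1
        simp
      · exact absurd rfl hw
    | succ k ih =>
      intro u
      rw [hF k]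
      have h1 := coeff_PsS_mem (fun k => GD L i k) (by
        have h2 : (1 : D1 L (Fin m × Fin n)) = PowerSeries.C (C 1) := by simp
        rw [h2]
        refine one_mem_GD _ fun w hw => ?_
        rw [coeff_C] at hw
        split_ifs at hw with h1
        · subst h1
          simp
        · exact absurd rfl hw) (fun k l a ha b hb => mul_mem_GD k l a b ha hb) ξ k
        (if k = i then 1 else 0) (by
          intro t l l' w hw
          obtain ⟨h2, h3⟩ := hξ k t l l' w hw
          split_ifs with h4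
          · subst h4
            rw [one_mul]
            exact h3
          · rw [zero_mul]
            refine Finset.sum_eq_zero fun a _ => h2 (i, a) (Ne.symm h4)) (F k.castSucc)
        (if (i : ℕ) < k then ρ i else 0) (by simpa using ih) (ρ k) u
      have h5 : (if (i : ℕ) < k then ρ i else 0) + (if k = i then 1 else 0) * ρ k =
          if (i : ℕ) < (k.succ : Fin (m + 1)) then ρ i else 0 := by
        rw [Fin.val_succ]
        by_cases h6 : k = i
        · subst h6
          simp
        · have h7 : (i : ℕ) ≠ k := fun h => h6 (Fin.ext h.symm)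
          rw [if_neg h6, zero_mul, add_zero]
          by_cases h8 : (i : ℕ) < k
          · rw [if_pos h8, if_pos (by omega)]
          · rw [if_neg h8, if_neg (by omega)]
      rw [← h5]
      exact h1
  have h1 := key (Fin.last m) u
  rwa [Fin.val_last, if_pos i.2] at h1

end Pool.Agent.Lib.MP_17a322_nt.VA
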