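import Pool.Agent.Lib.MP_17a322_nt.VA.E08
import Pool.Agent.Lib.MP_17a322_nt.VA.E10
import Pool.Agent.Lib.MP_17a322_nt.VA.E12
import Pool.Agent.Lib.MP_17a322_nt.VA.E14
import Pool.Agent.Lib.MP_17a322_nt.VA.E24

/-!
Part E of VA: the gluing with part L.
-/

universe u

namespace Pool.Agent.Lib.MP_17a322_nt.VA

open MvPolynomial Height
open Pool.Agent.Lib.MP_17a322_nt.VJ
open Pool.Agent.Lib.MP_17a322_nt.VN

theorem algebraMap_D1 {L : Type*} [Field L] {τ : Type*} (z : L) :
    algebraMap L (D1 L τ) z = PowerSeries.C (C z) :=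
  PowerSeries.algebraMap_apply

theorem algebraMap_D2E {L : Type*} [Field L] {τ : Type*} (z : L) :
    algebraMap L (D2 L τ) z = PowerSeries.C (PowerSeries.C (C z)) := by
  rw [PowerSeries.algebraMap_apply]
  congr 1
  exact PowerSeries.algebraMap_apply

/-- Rows of products. -/
theorem rows_indep {F : Type*} [Field F] {n c : ℕ} (rr : Fin c → Fin n)
    (G : Matrix (Fin c) (Fin n) F) (U : Matrix (Fin c) (Fin c) F) (M : Matrix (Fin n) (Fin n) F)
    (hG : ∀ b b', b' ≠ b → G b (rr b') = 0) (hG' : ∀ b, G b (rr b) ≠ 0) (hU : U.det ≠ 0)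
    (hM : M.det ≠ 0) : LinearIndependent F (fun b => (U * G * M) b) := by
  have h1 : ∀ x : Fin c → F, Matrix.vecMul x (U * G * M) = 0 → x = 0 := by
    intro x hx
    rw [← Matrix.vecMul_vecMul] at hx
    have h2 : Matrix.vecMul x (U * G) = 0 := by
      by_contra h
      have h3 := (Matrix.exists_vecMul_eq_zero_iff (M := M)).1 ⟨_, h, hx⟩
      exact hM h3
    rw [← Matrix.vecMul_vecMul] at h2
    have h3 : Matrix.vecMul x U = 0 := by
      funext b
      have h4 := congrFun h2 (rr b)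
      rw [Matrix.vecMul, dotProduct, Finset.sum_eq_single b] at h4
      · simp only [Pi.zero_apply] at h4 ⊢
        exact (mul_eq_zero.1 h4).resolve_right (hG' b)
      · intro b' _ hb'
        rw [hG b' b (Ne.symm hb'), mul_zero]
      · intro h
        exact absurd (Finset.mem_univ b) h
    by_contra h
    exact hU ((Matrix.exists_vecMul_eq_zero_iff (M := U)).1 ⟨_, h, h3⟩)
  rw [Fintype.linearIndependent_iff]
  intro g hg b
  have h2 : Matrix.vecMul g (U * G * M) = 0 := by
    rw [← hg]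
    funext a
    simp [Matrix.vecMul, dotProduct]
  rw [h1 g h2]
  rfl

/-- The data of the blocks (output of part L). -/
structure Blk {K : Type u} [Field K] {N : ℕ} {A : AV K N} {n e c : ℕ} (nd : Noe A n e)
    (rr : Fin c → Fin n) {m : ℕ} (j : Fin m → ℕ) (P : Fin m → A.Pts K)
    (q : Fin m → Fin c → MvPolynomial (Fin n) K) (Mx : Fin m → Matrix (Fin n) (Fin n) K)
    {L : Type u} [Field L] [Algebra K L] (Y : Fin (N + 1) → L) (ζ : Fin m × Fin n → L)
    (M : Fin m → Fin (N + 1) → L) (y : Fin m → Fin (N + 1) → D2 L (Fin m × Fin n))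
    (ξ : Fin m × Fin n → D2 L (Fin m × Fin n)) : Prop where
  isPt : ∀ i, A.IsPt (y i)
  l0 : ∀ i, lf (nd.l 0) (y i) = 1
  hs : ∀ i t, HS i (ξ (i, t))
  mu : ∀ i, ∃ κ : L, κ ≠ 0 ∧ ∀ a, M i a = κ * A.mu (j i) Y a
  at0 : ∀ i b, PowerSeries.constantCoeff (PowerSeries.constantCoeff (y i b)) =
    C (algebraMap K L (nd.y (P i) b))
  path : ∀ i k, k ∉ Set.range rr → PowerSeries.constantCoeff (lf (nd.l k.succ) (y i)) =
    PowerSeries.C (C (algebraMap K L (nd.s (P i) k))) +
      PowerSeries.C (C (ζ (i, k))) * PowerSeries.X ^ (4 ^ j i)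
  eq : ∀ i b, aeval (fun k : Fin n => PowerSeries.constantCoeff (lf (nd.l k.succ) (y i)))
    (q i b) = 0
  unit : ∀ i b, IsUnit (aeval (fun k : Fin n =>
    PowerSeries.constantCoeff (lf (nd.l k.succ) (y i))) (pderiv (rr b) (q i b)))
  der : ∀ i k, PowerSeries.constantCoeff (PowerSeries.coeff 1 (lf (nd.l k.succ) (y i))) =
    ∑ a, C (algebraMap K L (Mx i k a)) * X (i, a)
  col : ∀ i (a : Fin (N + 1)) (k : Fin n),
    ξ (i, k) * lf (nd.l 0) (A.col a (y i) (c2 L _ (M i))) =
      lf (nd.l k.succ) (A.col a (y i) (c2 L _ (M i)))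

/-- The forms of the conormal space. -/
noncomputable def gam {K : Type u} [Field K] {N : ℕ} {A : AV K N} {n e c : ℕ} (nd : Noe A n e)
    (rr : Fin c → Fin n) {m : ℕ} (P : Fin m → A.Pts K)
    (q : Fin m → Fin c → MvPolynomial (Fin n) K) (Mx : Fin m → Matrix (Fin n) (Fin n) K)
    (i : Fin m) (b : Fin c) (a : Fin n) : K :=
  (eval (nd.s (P i)) (pderiv (rr b) (q i b)))⁻¹ *
    ∑ l, eval (nd.s (P i)) (pderiv l (q i b)) * Mx i l a

section

variable {K : Type u} [Field K] {N : ℕ} {A : AV K N} {n e c : ℕ} {nd : Noe A n e}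
  {rr : Fin c → Fin n} {m : ℕ} {j : Fin m → ℕ} {P : Fin m → A.Pts K}
  {q : Fin m → Fin c → MvPolynomial (Fin n) K} {Mx : Fin m → Matrix (Fin n) (Fin n) K}
  {L : Type u} [Field L] [Algebra K L] {Y : Fin (N + 1) → L} {ζ : Fin m × Fin n → L}
  {M : Fin m → Fin (N + 1) → L} {y : Fin m → Fin (N + 1) → D2 L (Fin m × Fin n)}
  {ξ : Fin m × Fin n → D2 L (Fin m × Fin n)}

/-- The constant coefficient as a homomorphism of algebras. -/
noncomputable def ccA (K : Type*) [CommRing K] (R : Type*) [CommRing R] [Algebra K R] :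
    PowerSeries R →ₐ[K] R :=
  { PowerSeries.constantCoeff with
    commutes' := fun a => by
      show PowerSeries.constantCoeff (algebraMap K (PowerSeries R) a) = _
      rw [IsScalarTower.algebraMap_apply K R (PowerSeries R)]
      exact PowerSeries.constantCoeff_C _ }

theorem ccA_apply (K : Type*) [CommRing K] (R : Type*) [CommRing R] [Algebra K R]
    (f : PowerSeries R) : ccA K R f = PowerSeries.constantCoeff f := rfl

/-- Constants as a homomorphism of algebras. -/
noncomputable def CAE (K : Type*) [CommRing K] (R : Type*) [CommRing R] [Algebra K R] :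
    R →ₐ[K] PowerSeries R :=
  { (PowerSeries.C : R →+* PowerSeries R) with
    commutes' := fun a => by
      show PowerSeries.C (algebraMap K R a) = _
      rw [IsScalarTower.algebraMap_apply K R (PowerSeries R)]
      rfl }

theorem CA_apply (K : Type*) [CommRing K] (R : Type*) [CommRing R] [Algebra K R]
    (f : R) : CAE K R f = PowerSeries.C f := rfl

/-- The value of the coordinates at `z = 0`. -/
noncomputable def sB (nd : Noe A n e) (y : Fin m → Fin (N + 1) → D2 L (Fin m × Fin n))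
    (p : Fin m × Fin n) : D1 L (Fin m × Fin n) :=
  PowerSeries.constantCoeff (lf (nd.l p.2.succ) (y p.1))

/-- The linear forms of the displacements. -/
noncomputable def tauB (nd : Noe A n e) (rr : Fin c → Fin n)
    (q : Fin m → Fin c → MvPolynomial (Fin n) K)
    (y : Fin m → Fin (N + 1) → D2 L (Fin m × Fin n)) (p : Fin m × Fin n) :
    D1 L (Fin m × Fin n) :=
  Ring.inverse (aeval (fun t => sB nd y (p.1, t)) (pderiv p.2 (hh rr q p.1 p.2))) *
    ∑ t, aeval (fun t => sB nd y (p.1, t)) (pderiv t (hh rr q p.1 p.2)) *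
      PowerSeries.coeff 1 (lf (nd.l t.succ) (y p.1))

theorem lf_y (P : A.Pts K) (t : Fin n) : lf (nd.l t.succ) (nd.y P) = nd.s P t := by
  show lf (nd.l t.succ) (fun a => A.x P a / lf (nd.l 0) (A.x P)) =
    lf (nd.l t.succ) (A.x P) / lf (nd.l 0) (A.x P)
  have h1 : (fun a => A.x P a / lf (nd.l 0) (A.x P)) =
      fun a => (lf (nd.l 0) (A.x P))⁻¹ * A.x P a := by
    funext a
    rw [inv_mul_eq_div]
  rw [h1, lf_smulE, inv_mul_eq_div]

theorem Blk.s0 (h : Blk nd rr j P q Mx Y ζ M y ξ) (p : Fin m × Fin n) :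
    PowerSeries.constantCoeff (sB nd y p) = C (algebraMap K L (nd.s (P p.1) p.2)) := by
  let φ : D2 L (Fin m × Fin n) →ₐ[K] MvPolynomial (Fin m × Fin n) L :=
    (ccA K (MvPolynomial (Fin m × Fin n) L)).comp (ccA K (D1 L (Fin m × Fin n)))
  have h1 : PowerSeries.constantCoeff (sB nd y p) = φ (lf (nd.l p.2.succ) (y p.1)) := rfl
  have h2 : (fun b => φ (y p.1 b)) =
      fun b => (Algebra.ofId K (MvPolynomial (Fin m × Fin n) L)) (nd.y (P p.1) b) := by
    funext b
    show PowerSeries.constantCoeff (PowerSeries.constantCoeff (y p.1 b)) = _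
    rw [h.at0]
    rfl
  rw [h1, ← lf_mapE, h2, lf_mapE, lf_y]
  rfl

theorem Blk.aeval_s0 (h : Blk nd rr j P q Mx Y ζ M y ξ) (i : Fin m)
    (F : MvPolynomial (Fin n) K) :
    PowerSeries.constantCoeff (aeval (fun t => sB nd y (i, t)) F) =
      C (algebraMap K L (eval (nd.s (P i)) F)) := by
  rw [← ccA_apply K, ← AlgHom.comp_apply, MvPolynomial.comp_aeval]
  have h1 : (fun t => ccA K (MvPolynomial (Fin m × Fin n) L) (sB nd y (i, t))) =
      fun t => (Algebra.ofId K (MvPolynomial (Fin m × Fin n) L)) (nd.s (P i) t) := by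
    funext t
    rw [ccA_apply, h.s0]
    rfl
  rw [h1, ← MvPolynomial.comp_aeval, AlgHom.comp_apply]
  show algebraMap K (MvPolynomial (Fin m × Fin n) L) (aeval (nd.s (P i)) F) = _
  rw [aeval_eq_eval]
  rfl

theorem Blk.tau_eq (h : Blk nd rr j P q Mx Y ζ M y ξ) (hrr : Function.Injective rr) (i : Fin m)
    (r : Fin n) (hr : r ∉ JJ rr) :
    aeval (fun t => sB nd y (i, t)) (pderiv r (hh rr q i r)) * tauB nd rr q y (i, r) =
      ∑ t, aeval (fun t => sB nd y (i, t)) (pderiv t (hh rr q i r)) *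
        PowerSeries.coeff 1 (lf (nd.l t.succ) (y i)) := by
  obtain ⟨b, rfl⟩ := notMem_JJ.1 hr
  unfold tauB
  rw [← mul_assoc, Ring.mul_inverse_cancel, one_mul]
  have h1 := h.unit i b
  rw [← hh_rr hrr q i b] at h1
  exact h1

theorem Blk.tau0 (h : Blk nd rr j P q Mx Y ζ M y ξ) (hrr : Function.Injective rr) (i : Fin m)
    (b : Fin c) (hd : eval (nd.s (P i)) (pderiv (rr b) (q i b)) ≠ 0) :
    PowerSeries.constantCoeff (tauB nd rr q y (i, rr b)) =
      ∑ a, C (algebraMap K L (gam nd rr P q Mx i b a)) * X (i, a) := by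
  have h1 := congrArg PowerSeries.constantCoeff
    (h.tau_eq hrr i (rr b) (notMem_JJ.2 ⟨b, rfl⟩))
  rw [map_mul, map_sum] at h1
  simp only [map_mul, h.aeval_s0, h.der, hh_rr hrr] at h1
  have h2 : (C (algebraMap K L (eval (nd.s (P i)) (pderiv (rr b) (q i b)))) :
      MvPolynomial (Fin m × Fin n) L) ≠ 0 := by
    rw [Ne, C_eq_zero, map_eq_zero]
    exact hd
  apply mul_left_cancel₀ h2
  rw [h1, Finset.mul_sum]
  have h3 : ∀ a, C (algebraMap K L (eval (nd.s (P i)) (pderiv (rr b) (q i b)))) *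
      (C (algebraMap K L (gam nd rr P q Mx i b a)) * X (i, a)) =
      ∑ t, C (algebraMap K L (eval (nd.s (P i)) (pderiv t (q i b)))) *
        ((C (algebraMap K L (Mx i t a)) * X (i, a) : MvPolynomial (Fin m × Fin n) L)) := by
    intro a
    rw [← mul_assoc, ← C_mul, ← map_mul]
    unfold gam
    rw [mul_inv_cancel_left₀ hd, map_sum, map_sum, Finset.sum_mul]
    refine Finset.sum_congr rfl fun t _ => ?_
    rw [map_mul, C_mul, mul_assoc]
  simp only [h3]
  rw [Finset.sum_comm]
  refine Finset.sum_congr rfl fun t _ => ?_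
  rw [Finset.mul_sum]

end

end Pool.Agent.Lib.MP_17a322_nt.VA
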