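import Pool.Agent.Lib.MP_17a322_nt.VA.E15

/-!
Part E of VA: the main statement (elimination, order in `T`, chain of leading forms) for the points
of an abelian variety.
-/

universe u

namespace Pool.Agent.Lib.MP_17a322_nt.VA

open MvPolynomial Height
open Pool.Agent.Lib.MP_17a322_nt.VJ
open Pool.Agent.Lib.MP_17a322_nt.VN

/-- The polynomial `F` in the variables `x`, `z` (`z` for `ξ`). -/
noncomputable def N0 {K : Type*} [Field K] {m n : ℕ}
    (F : MvPolynomial (Fin n ⊕ Fin m × Fin n) K) : MvPolynomial (VE m n) K :=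
  rename (Sum.elim VE.x VE.z) F

theorem N0_inj {m n : ℕ} :
    Function.Injective (Sum.elim VE.x VE.z : Fin n ⊕ Fin m × Fin n → VE m n) := by
  rintro (a | a) (b | b) h
  · have h1 : (VE.x a : VE m n) = VE.x b := h
    injection h1 with h2
    rw [h2]
  · cases h
  · cases h
  · have h1 : (VE.z a : VE m n) = VE.z b := h
    injection h1 with h2
    rw [h2]

theorem N0_deg {K : Type*} [Field K] {m n : ℕ} (F : MvPolynomial (Fin n ⊕ Fin m × Fin n) K)
    (y : VE m n) (hy : ∀ a, Sum.elim VE.x VE.z a ≠ y) : (N0 F).degreeOf y = 0 := by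
  classical
  rw [degreeOf_def, Multiset.count_eq_zero]
  intro h
  have h1 : y ∈ (N0 F).vars := by
    rw [vars_def]
    exact Multiset.mem_toFinset.2 h
  have h2 := vars_rename _ F h1
  obtain ⟨a, -, ha⟩ := Finset.mem_image.1 h2
  exact hy a ha

/-- Values of the variables of the block of the forms. -/
noncomputable def czc {L : Type*} [CommRing L] {m n c : ℕ} (rr : Fin c → Fin n) (x : Fin n → L)
    (ζ : Fin m × Fin n → L) : VE m n → MvPolynomial (Fin m × Fin c) L
  | VE.x t => C (x t)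
  | VE.q => 0
  | VE.S p => C (ζ p)
  | VE.w _ => 0
  | VE.z _ => 0
  | VE.v p => open Classical in if h : ∃ b, rr b = p.2 then X (p.1, h.choose) else 0

theorem czc_v {L : Type*} [CommRing L] {m n c : ℕ} {rr : Fin c → Fin n}
    (hrr : Function.Injective rr) (x : Fin n → L) (ζ : Fin m × Fin n → L) (i : Fin m)
    (b : Fin c) : czc rr x ζ (VE.v (i, rr b)) = X (i, b) := by
  have h : ∃ b', rr b' = rr b := ⟨b, rfl⟩
  show (if h : ∃ b', rr b' = rr b then (X (i, h.choose) : MvPolynomial (Fin m × Fin c) L)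
    else 0) = X (i, b)
  rw [dif_pos h]
  congr 2
  exact hrr h.choose_spec

/-- `c` in the remaining variables. -/
theorem czc_cz {K L : Type*} [Field K] [Field L] [Algebra K L] {m n c : ℕ} {rr : Fin c → Fin n}
    (hrr : Function.Injective rr) (x : Fin n → L) (ζ : Fin m × Fin n → L)
    (F : MvPolynomial (VE m n) K) (hF : ∀ y, ¬ Oc (JJ rr) m y → F.degreeOf y = 0) :
    rename (fun p : Fin m × Fin c => (p.1, rr p.2)) (aeval (czc rr x ζ) F) =
      aeval (czE x ζ) F := by
  let φ : MvPolynomial (Fin m × Fin c) L →ₐ[K] MvPolynomial (Fin m × Fin n) L :=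
    (rename (fun p : Fin m × Fin c => (p.1, rr p.2))).restrictScalars K
  show φ (aeval (czc rr x ζ) F) = _
  rw [← AlgHom.comp_apply, MvPolynomial.comp_aeval]
  refine aeval_congr_of_degreeOf F _ _ fun y hy => ?_
  have h1 : Oc (JJ rr) m y := by
    by_contra h
    exact hy (hF y h)
  cases y with
  | x t => exact rename_C _ _
  | q => exact absurd h1 id
  | S p => exact rename_C _ _
  | w i => exact absurd h1 id
  | z p => exact absurd p.1.2 (not_lt.2 h1)
  | v p =>
    obtain ⟨i, r⟩ := p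
    obtain ⟨b, hb⟩ := notMem_JJ.1 h1.2
    simp only at hb
    subst hb
    show rename _ (czc rr x ζ (VE.v (i, rr b))) = X (i, rr b)
    rw [czc_v hrr, rename_X]

/-- The values at `T = 0`. -/
noncomputable def y0 {L : Type*} [CommRing L] {m n : ℕ} (x : Fin n → L) (ζ : Fin m × Fin n → L)
    (τ : Fin m × Fin n → MvPolynomial (Fin m × Fin n) L) : VE m n →
      MvPolynomial (Fin m × Fin n) L
  | VE.x t => C (x t)
  | VE.q => 0
  | VE.S p => C (ζ p)
  | VE.w _ => 0
  | VE.z _ => 0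
  | VE.v p => τ p

theorem y0_czc {K L : Type*} [Field K] [Field L] [Algebra K L] {m n c : ℕ} {rr : Fin c → Fin n}
    (hrr : Function.Injective rr) (x : Fin n → L) (ζ : Fin m × Fin n → L)
    (τ : Fin m × Fin n → MvPolynomial (Fin m × Fin n) L) (γ : Fin m → Fin c → Fin n → L)
    (hτ : ∀ i b, τ (i, rr b) = ∑ a, C (γ i b a) * X (i, a))
    (F : MvPolynomial (VE m n) K) (hF : ∀ y, ¬ Oc (JJ rr) m y → F.degreeOf y = 0) :
    aeval (y0 x ζ τ) F = aeval (fun p : Fin m × Fin c =>
      ∑ a, (C (γ p.1 p.2 a) * X (p.1, a) : MvPolynomial (Fin m × Fin n) L))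
      (aeval (czc rr x ζ) F) := by
  let φ : MvPolynomial (Fin m × Fin c) L →ₐ[K] MvPolynomial (Fin m × Fin n) L :=
    (aeval (fun p : Fin m × Fin c =>
      ∑ a, (C (γ p.1 p.2 a) * X (p.1, a) : MvPolynomial (Fin m × Fin n) L))).restrictScalars K
  show _ = φ (aeval (czc rr x ζ) F)
  rw [← AlgHom.comp_apply, MvPolynomial.comp_aeval]
  refine aeval_congr_of_degreeOf F _ _ fun y hy => ?_
  have h1 : Oc (JJ rr) m y := by
    by_contra h
    exact hy (hF y h)
  cases y with
  | x t =>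
    show C (x t) = aeval (fun p : Fin m × Fin c =>
      ∑ a, (C (γ p.1 p.2 a) * X (p.1, a) : MvPolynomial (Fin m × Fin n) L)) (C (x t))
    rw [aeval_C]
    rfl
  | q => exact absurd h1 id
  | S p =>
    show C (ζ p) = aeval (fun p : Fin m × Fin c =>
      ∑ a, (C (γ p.1 p.2 a) * X (p.1, a) : MvPolynomial (Fin m × Fin n) L)) (C (ζ p))
    rw [aeval_C]
    rfl
  | w i => exact absurd h1 id
  | z p => exact absurd p.1.2 (not_lt.2 h1)
  | v p =>
    obtain ⟨i, r⟩ := p
    obtain ⟨b, hb⟩ := notMem_JJ.1 h1.2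
    simp only at hb
    subst hb
    show τ (i, rr b) = aeval _ (czc rr x ζ (VE.v (i, rr b)))
    rw [czc_v hrr, aeval_X, hτ]

/-- The matrix of the partial derivatives times the matrix of the derivatives. -/
noncomputable def XG {K : Type u} [Field K] {N : ℕ} {A : AV K N} {n e c : ℕ} (nd : Noe A n e)
    {m : ℕ} (P : Fin m → A.Pts K) (q : Fin m → Fin c → MvPolynomial (Fin n) K)
    (i : Fin m) : Matrix (Fin c) (Fin n) K :=
  Matrix.of fun b l => eval (nd.s (P i)) (pderiv l (q i b))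

/-- Linear independence over extensions. -/
theorem indep_map {K L : Type*} [Field K] [Field L] [Algebra K L] {n c : ℕ}
    (E : Fin c → Fin n → K) (h : LinearIndependent K E) :
    LinearIndependent L (fun b a => algebraMap K L (E b a)) := by
  classical
  have h1 : Function.Injective (Matrix.vecMulLinear (Matrix.of E)) := by
    rw [← LinearMap.ker_eq_bot, LinearMap.ker_eq_bot']
    intro x hx
    rw [Fintype.linearIndependent_iff] at h
    funext b
    refine h x ?_ b
    rw [← hx]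
    funext a
    simp [Matrix.vecMul, dotProduct]
  obtain ⟨g, hg⟩ := LinearMap.exists_leftInverse_of_injective _ (LinearMap.ker_eq_bot.2 h1)
  have h2 : ∃ B : Matrix (Fin n) (Fin c) K, Matrix.of E * B = 1 := by
    refine ⟨Matrix.of fun a b => g (Pi.single a 1) b, ?_⟩
    ext b b'
    have h3 := congrFun (LinearMap.congr_fun hg (Pi.single b 1)) b'
    rw [LinearMap.comp_apply, LinearMap.id_apply] at h3
    rw [Matrix.one_apply, Matrix.mul_apply]
    have h4 : Matrix.vecMulLinear (Matrix.of E) (Pi.single b 1) =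
        ∑ a, E b a • (Pi.single a (1 : K) : Fin n → K) := by
      rw [Matrix.vecMulLinear_apply, Matrix.single_one_vecMul]
      rw [← pi_eq_sum_univ' (E b)]
      rfl
    rw [h4, map_sum] at h3
    simp only [map_smul, Finset.sum_apply, Pi.smul_apply, smul_eq_mul] at h3
    simp only [Matrix.of_apply]
    rw [h3, Pi.single_apply]
    by_cases hb : b = b'
    · subst hb
      simp
    · rw [if_neg hb, if_neg (Ne.symm hb)]
  obtain ⟨B, hB⟩ := h2
  have h5 : (Matrix.of E).map (algebraMap K L) * B.map (algebraMap K L) = 1 := by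
    rw [← Matrix.map_mul, hB, Matrix.map_one _ (map_zero _) (map_one _)]
  rw [Fintype.linearIndependent_iff]
  intro x hx b
  have h6 : Matrix.vecMul x ((Matrix.of E).map (algebraMap K L)) = 0 := by
    rw [← hx]
    funext a
    simp [Matrix.vecMul, dotProduct]
  have h7 : Matrix.vecMul (Matrix.vecMul x ((Matrix.of E).map (algebraMap K L)))
      (B.map (algebraMap K L)) = x := by
    rw [Matrix.vecMul_vecMul, h5, Matrix.vecMul_one]
  rw [h6, Matrix.zero_vecMul] at h7
  rw [← h7]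
  rfl

theorem rows_mul {F : Type*} [Field F] {n c : ℕ} (V : Matrix (Fin c) (Fin c) F)
    (hV : V.det ≠ 0) (E : Fin c → Fin n → F) (hE : LinearIndependent F E) :
    LinearIndependent F (fun b => (V * Matrix.of E) b) := by
  rw [Fintype.linearIndependent_iff]
  intro x hx b
  have h1 : Matrix.vecMul (Matrix.vecMul x V) (Matrix.of E) = 0 := by
    rw [Matrix.vecMul_vecMul, ← hx]
    funext a
    simp [Matrix.vecMul, dotProduct]
  have h2 : Matrix.vecMul x V = 0 := by
    rw [Fintype.linearIndependent_iff] at hE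
    funext b
    refine hE _ ?_ b
    rw [← h1]
    funext a
    simp [Matrix.vecMul, dotProduct]
  have h3 : x = 0 := by
    by_contra h
    exact hV ((Matrix.exists_vecMul_eq_zero_iff (M := V)).1 ⟨_, h, h2⟩)
  rw [h3]
  rfl

/-- The conclusion for a number field `L`. -/
theorem glue_L {K : Type u} [Field K] [NumberField K] {N : ℕ} {A : AV K N} {n e c : ℕ}
    {nd : Noe A n e} {rr : Fin c → Fin n} (hrr : Function.Injective rr) {m : ℕ} {C₀ : ℝ}
    (hE : nd.ed.Ok C₀) {D : ℕ} {j : Fin m → ℕ} {P : Fin m → A.Pts K}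
    {q : Fin m → Fin c → MvPolynomial (Fin n) K}
    (hh' : HC (JJ rr) D j (hh rr q))
    (hd : ∀ i b, eval (nd.s (P i)) (pderiv (rr b) (q i b)) ≠ 0)
    (F : MvPolynomial (Fin n ⊕ Fin m × Fin n) K)
    (NN : Fin (m + 1) → MvPolynomial (VE m n) K) (R : Fin m → ℕ) (hN0 : NN 0 = N0 F)
    (hOc : ∀ (k : Fin (m + 1)) y, ¬ Oc (JJ rr) (k : ℕ) y → (NN k).degreeOf y = 0)
    (hN : ∀ i : Fin m, NN i.succ = lw i (R i) (ME nd.ed j (hh rr q) (JJ rr) i (NN i.castSucc)) ∧
      ∀ k < R i, lw i k (ME nd.ed j (hh rr q) (JJ rr) i (NN i.castSucc)) = 0)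
    (a : ℕ) (c' : MvPolynomial (VE m n) K)
    (hc' : ∀ y, ¬ Oc (JJ rr) m y → c'.degreeOf y = 0)
    (hT : ∀ (A' : Type u) [CommRing A'] [Algebra K A'] (y : VE m n → PowerSeries A')
      (y₀ : VE m n → A'),
      (∀ p : Fin m × Fin n, p.2 ∈ JJ rr → y (VE.S p) =
        PowerSeries.C (algebraMap K A' (nd.s (P p.1) p.2)) +
          PowerSeries.C (y₀ (VE.S p)) * PowerSeries.X ^ (4 ^ j p.1)) →
      (∀ o, Oc (JJ rr) m o → (∀ p, o ≠ VE.S p) → y₀ o = PowerSeries.constantCoeff (y o)) →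
      (∀ k < a, PowerSeries.coeff k (aeval y (NN (Fin.last m))) = 0) ∧
        PowerSeries.coeff a (aeval y (NN (Fin.last m))) = aeval y₀ c')
    {L : Type u} [Field L] [Algebra K L] {Y : Fin (N + 1) → L}
    {ζ : Fin m × Fin n → L} {M : Fin m → Fin (N + 1) → L}
    {y : Fin m → Fin (N + 1) → D2 L (Fin m × Fin n)}
    {ξ : Fin m × Fin n → D2 L (Fin m × Fin n)} {Mx : Fin m → Matrix (Fin n) (Fin n) K}
    (E : Fin m → Fin c → Fin n → K) (U : Fin m → Matrix (Fin c) (Fin c) K)
    (hY : A.IsPt Y) (hY1 : lf (nd.l 0) Y = 1)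
    (hg : aeval (czE (fun t => lf (nd.l t.succ) Y) ζ) c' ≠ 0)
    (hB : Blk nd rr j P q Mx Y ζ M y ξ) (hEi : ∀ i, LinearIndependent K (E i))
    (hU : ∀ i, (U i).det ≠ 0)
    (hEU : ∀ i b a, E i b a = ∑ r, U i b r * ∑ l,
      eval (nd.s (P i)) (pderiv l (q i r)) * Mx i l a) :
    ∃ (ρ : Fin m → ℕ) (F' : Fin (m + 1) → MvPolynomial (Fin m × Fin n) (D1 L (Fin m × Fin n)))
      (a' : ℕ) (f : D1 L (Fin m × Fin n)) (Q : MvPolynomial (Fin m × Fin c) L),
      (∀ i, ρ i ≤ R i) ∧
      F' 0 = aeval (Sum.elim (fun t => C (algebraMap L (D1 L (Fin m × Fin n))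
        (lf (nd.l t.succ) Y))) X) F ∧
      (∀ i : Fin m, F' i.succ = PowerSeries.coeff (ρ i) (PsS ξ i (F' i.castSucc)) ∧
        ∀ k < ρ i, PowerSeries.coeff k (PsS ξ i (F' i.castSucc)) = 0) ∧
      F' (Fin.last m) = C f ∧ a' ≤ a ∧ (∀ k < a', PowerSeries.coeff k f = 0) ∧
      PowerSeries.coeff a' f ≠ 0 ∧
      PowerSeries.coeff a' f = aeval (fun p : Fin m × Fin c =>
        ∑ b, (C (algebraMap K L (E p.1 p.2 b)) * X (p.1, b) :
          MvPolynomial (Fin m × Fin n) L)) Q ∧
      ∀ u ∈ (PowerSeries.coeff a' f).support, ∀ i, ∑ b, u (i, b) = ρ i := by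
  classical
  let φ1 : L →ₐ[K] D1 L (Fin m × Fin n) := IsScalarTower.toAlgHom K L _
  let φ2 : L →ₐ[K] D2 L (Fin m × Fin n) := IsScalarTower.toAlgHom K L _
  have hφ1 : ∀ z, φ1 z = PowerSeries.C (C z) := fun z => algebraMap_D1 z
  have hφ2 : ∀ z, φ2 z = PowerSeries.C (PowerSeries.C (C z)) := fun z => algebraMap_D2E z
  let YB : Fin (N + 1) → D1 L (Fin m × Fin n) := fun i => φ1 (Y i)
  let Y2 : Fin (N + 1) → D2 L (Fin m × Fin n) := fun i => φ2 (Y i)
  let xB : Fin n → D1 L (Fin m × Fin n) := fun t => algebraMap L _ (lf (nd.l t.succ) Y)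
  have hYB : A.IsPt YB := hY.map φ1
  have hYB1 : lf (nd.l 0) YB = 1 := by
    show lf (nd.l 0) (fun i => φ1 (Y i)) = 1
    rw [lf_mapE, hY1, map_one]
  have hY2 : A.IsPt Y2 := hY.map φ2
  have hY21 : lf (nd.l 0) Y2 = 1 := by
    show lf (nd.l 0) (fun i => φ2 (Y i)) = 1
    rw [lf_mapE, hY1, map_one]
  have hpB : (fun o : Option (Fin n) => o.elim (aeval YB nd.θ) xB) = nd.pO YB := by
    funext o
    cases o with
    | none => rfl
    | some t => exact (lf_mapE (nd.l t.succ) φ1 Y).symm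
  have hpy : ∀ i, (fun o : Option (Fin n) => o.elim (aeval (y i) nd.θ)
      fun t => lf (nd.l t.succ) (y i)) = nd.pO (y i) := by
    intro i
    funext o
    cases o <;> rfl
  have hp2 : (fun o : Option (Fin n) => (PowerSeries.C (o.elim (aeval YB nd.θ) xB) :
      D2 L (Fin m × Fin n))) = nd.pO Y2 := by
    funext o
    have h1 : o.elim (aeval YB nd.θ) xB = nd.pO YB o := congrFun hpB o
    rw [h1, ← CA_apply K, ← nd.pO_map]
    congr 1
    funext i
    show PowerSeries.C (φ1 (Y i)) = φ2 (Y i)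
    rw [hφ1, hφ2]
  -- the value of the last polynomial
  have hval := hT (MvPolynomial (Fin m × Fin n) L) (nc xB (sB nd y) (tauB nd rr q y))
    (y0 (fun t => lf (nd.l t.succ) Y) ζ fun p => PowerSeries.constantCoeff (tauB nd rr q y p))
    (fun p hp => hB.path p.1 p.2 (mem_JJ.1 hp)) (by
      intro o ho hoS
      cases o with
      | x t =>
        show C (lf (nd.l t.succ) Y) = PowerSeries.constantCoeff (φ1 (lf (nd.l t.succ) Y))
        rw [hφ1, PowerSeries.constantCoeff_C]
      | q => exact (map_zero _).symm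
      | S p => exact absurd rfl (hoS p)
      | w i => exact (map_zero _).symm
      | z p => exact (map_zero _).symm
      | v p => rfl)
  have hQ1 : aeval (czc rr (fun t => lf (nd.l t.succ) Y) ζ) c' ≠ 0 := by
    intro h
    rw [← czc_cz hrr _ _ c' hc', h, map_zero] at hg
    exact hg rfl
  have hXM : ∀ i r a, ∑ l, eval (nd.s (P i)) (pderiv l (q i r)) * Mx i l a =
      (XG nd P q i * Mx i) r a := by
    intro i r a
    rw [Matrix.mul_apply]
    rfl
  have hEm : ∀ i, Matrix.of (E i) = U i * (XG nd P q i * Mx i) := by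
    intro i
    ext b a
    rw [Matrix.mul_apply, Matrix.of_apply, hEU]
    refine Finset.sum_congr rfl fun r _ => ?_
    rw [hXM]
  have hEind : ∀ i, LinearIndependent L (fun b a => algebraMap K L (E i b a)) :=
    fun i => indep_map (E i) (hEi i)
  have hX : ∀ i, XG nd P q i * Mx i = (U i)⁻¹ * Matrix.of (E i) := by
    intro i
    rw [hEm i, ← Matrix.mul_assoc, Matrix.nonsing_inv_mul _ (hU i).isUnit, Matrix.one_mul]
  have hγind : ∀ i, LinearIndependent L
      (fun b a => algebraMap K L (gam nd rr P q Mx i b a)) := by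
    intro i
    have h1 := rows_mul (Matrix.diagonal (fun b =>
      (eval (nd.s (P i)) (pderiv (rr b) (q i b)))⁻¹) * (U i)⁻¹) (by
        rw [Matrix.det_mul, Matrix.det_diagonal, Matrix.det_nonsing_inv]
        refine mul_ne_zero (Finset.prod_ne_zero_iff.2 fun b _ => inv_ne_zero (hd i b)) ?_
        rw [Ring.inverse_eq_inv']
        exact inv_ne_zero (hU i)) (E i) (hEi i)
    rw [Matrix.mul_assoc, ← hX] at h1
    have h2 : gam nd rr P q Mx i =
        fun b => ((Matrix.diagonal fun b =>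
          (eval (nd.s (P i)) (pderiv (rr b) (q i b)))⁻¹) * (XG nd P q i * Mx i)) b := by
      funext b a
      rw [Matrix.diagonal_mul, ← hXM]
      rfl
    refine indep_map _ ?_
    rw [h2]
    exact h1
  have hcv : PowerSeries.coeff a (aeval (nc xB (sB nd y) (tauB nd rr q y)) (NN (Fin.last m))) =
      aeval (fun p : Fin m × Fin c =>
        ∑ a, (C (algebraMap K L (gam nd rr P q Mx p.1 p.2 a)) * X (p.1, a) :
          MvPolynomial (Fin m × Fin n) L))
        (aeval (czc rr (fun t => lf (nd.l t.succ) Y) ζ) c') := by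
    rw [hval.2]
    exact y0_czc hrr _ ζ _ (fun i b a => algebraMap K L (gam nd rr P q Mx i b a))
      (fun i b => hB.tau0 hrr i b (hd i b)) c' hc'
  have hcne : PowerSeries.coeff a
      (aeval (nc xB (sB nd y) (tauB nd rr q y)) (NN (Fin.last m))) ≠ 0 := by
    rw [hcv]
    intro h
    exact hQ1 (forms_injective _ hγind _ h)
  have hnne : aeval (nc xB (sB nd y) (tauB nd rr q y)) (NN (Fin.last m)) ≠ 0 := by
    intro h
    rw [h, map_zero] at hcne
    exact hcne rfl
  obtain ⟨F', ρ, h1, h2, h3, h4⟩ := chain_W hE hh' NN R hOc hN xB (aeval YB nd.θ) (sB nd y)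
    (tauB nd rr q y) (fun p => lf (nd.l p.2.succ) (y p.1)) ξ (fun i => aeval (y i) nd.θ)
    (fun p => rfl) (by rw [hpB]; exact nd.aeval_f hYB hYB1)
    (fun i => by rw [hpy i]; exact nd.aeval_f (hB.isPt i) (hB.l0 i))
    (fun i t => by
      rw [hp2, hpy i]
      obtain ⟨κ, hκ, hMκ⟩ := hB.mu i
      refine nd.rel_b (hB.isPt i) (hB.l0 i) hY2 hY21 (j i) (κ := φ2 κ)
        ((IsUnit.mk0 κ hκ).map φ2) (M := c2 L _ (M i)) (fun a => ?_)
        (ξ := fun t => ξ (i, t)) (hB.col i) t
      show φ2 (M i a) = φ2 κ * A.mu (j i) (fun i => φ2 (Y i)) a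
      rw [hMκ, map_mul, A.map_mu])
    (fun i r hr => by
      obtain ⟨b, rfl⟩ := notMem_JJ.1 hr
      rw [hh_rr hrr]
      exact hB.eq i b)
    (fun i r hr => by
      obtain ⟨b, rfl⟩ := notMem_JJ.1 hr
      rw [hh_rr hrr]
      exact hB.unit i b)
    (fun i r hr => hB.tau_eq hrr i r hr) hnne
  obtain ⟨f, hf1, hf2⟩ := eq_C_of_dvd_C _ _ hnne h3
  obtain ⟨a', ha', hf3, hf4, hf5⟩ := lead_dvd f _ hf2 a hcne hval.1
  -- the first polynomial
  have hF0 : F' 0 = aeval (Sum.elim (fun t => C (algebraMap L (D1 L (Fin m × Fin n))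
      (lf (nd.l t.succ) Y))) X) F := by
    rw [h1, hN0]
    unfold N0
    rw [aeval_rename]
    congr 2
    funext o
    rcases o with o | o
    · rfl
    · rfl
  -- forms
  have hV := forms_change (L := L) (fun i b a => algebraMap K L (E i b a))
    (fun i b a => algebraMap K L (gam nd rr P q Mx i b a))
    (fun i => Matrix.of fun r b => algebraMap K L
      ((eval (nd.s (P i)) (pderiv (rr r) (q i r)))⁻¹ * (U i)⁻¹ r b)) (by
      intro i r a
      simp only [Matrix.of_apply, ← map_mul, ← map_sum]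
      congr 1
      unfold gam
      rw [hXM, hX, Matrix.mul_apply, Finset.mul_sum]
      refine Finset.sum_congr rfl fun b _ => ?_
      rw [Matrix.of_apply, mul_assoc])
  rw [hcv, hV] at hf5
  obtain ⟨Q, hQ⟩ := dvd_forms (fun i b a => algebraMap K L (E i b a)) hEind _ _ (by
    rw [← hV, ← hcv]
    exact hcne) hf5
  refine ⟨ρ, F', a', f, Q, fun i => (h4 i).1, hF0, fun i => (h4 i).2, hf1, ha', hf3, hf4, hQ, ?_⟩
  intro u hu i
  have h6 := chain_hom ξ (fun i t => hB.hs i t) F' ρ (by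
    intro u
    refine ⟨coeff u (aeval (R := K) (Sum.elim (fun t => C (lf (nd.l t.succ) Y)) X :
      Fin n ⊕ Fin m × Fin n → MvPolynomial (Fin m × Fin n) L) F), ?_⟩
    have h7 : F' 0 = MvPolynomial.map φ1.toRingHom (aeval (R := K)
      (Sum.elim (fun t => C (lf (nd.l t.succ) Y)) X :
      Fin n ⊕ Fin m × Fin n → MvPolynomial (Fin m × Fin n) L) F) := by
      rw [hF0]
      let ψ : MvPolynomial (Fin m × Fin n) L →ₐ[K] MvPolynomial (Fin m × Fin n)
        (D1 L (Fin m × Fin n)) := MvPolynomial.mapAlgHom φ1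
      show _ = ψ _
      rw [← AlgHom.comp_apply, MvPolynomial.comp_aeval]
      congr 2
      funext o
      rcases o with o | o
      · exact (map_C _ _).symm
      · exact (map_X _ _).symm
    rw [h7, coeff_map]
    exact hφ1 _) (fun i => (h4 i).2.1) i 0
  rw [hf1, coeff_C, if_pos rfl] at h6
  exact h6 a' u (mem_support_iff.1 hu)

/-- Part E: elimination, order in `T` and the chain of leading forms for an abelian variety. -/
theorem glue {K : Type u} [Field K] [NumberField K] {N : ℕ} (A : AV K N) {n e c : ℕ}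
    (nd : Noe A n e) (rr : Fin c → Fin n) (hrr : Function.Injective rr) (m D : ℕ) (s B : ℝ)
    (hs : 0 < s) (hB : 0 ≤ B) :
    ∃ (R₀ D' : ℕ) (C₁ : ℝ), 0 ≤ C₁ ∧ ∀ (j : Fin m → ℕ) (P : Fin m → A.Pts K)
      (q : Fin m → Fin c → MvPolynomial (Fin n) K)
      (F : MvPolynomial (Fin n ⊕ Fin m × Fin n) K) (b : ℝ),
      (∀ i i', i < i' → R₀ * 4 ^ j i ≤ 4 ^ j i') →
      (∀ i b, (∀ b', b' ≠ b → (q i b).degreeOf (rr b') = 0) ∧ (∀ a, (q i b).degreeOf a ≤ D) ∧
        nh (q i b) ≤ 4 ^ j i ∧ eval (nd.s (P i)) (q i b) = 0 ∧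
        eval (nd.s (P i)) (pderiv (rr b) (q i b)) ≠ 0) →
      F ≠ 0 → 1 ≤ b → (∀ t, (F.degreeOf (Sum.inl t) : ℝ) ≤ b) →
      (∀ p : Fin m × Fin n, 4 ^ j p.1 * (F.degreeOf (Sum.inr p) : ℝ) ≤ b) → nh F ≤ B * b →
      (∃ (i : Fin m) (G : MvPolynomial (Fin n) K), G ≠ 0 ∧ (∀ b, G.degreeOf (rr b) = 0) ∧
        (∀ a, G.degreeOf a ≤ D') ∧ nh G ≤ C₁ * 4 ^ j i ∧ eval (nd.s (P i)) G = 0) ∨
      ∃ g : MvPolynomial (Fin n ⊕ Fin m × Fin n) K, g ≠ 0 ∧
        ∀ (L : Type u) [Field L] [NumberField L] [Algebra K L] (Y : Fin (N + 1) → L)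
          (ζ : Fin m × Fin n → L) (M : Fin m → Fin (N + 1) → L)
          (y : Fin m → Fin (N + 1) → D2 L (Fin m × Fin n))
          (ξ : Fin m × Fin n → D2 L (Fin m × Fin n)) (Mx : Fin m → Matrix (Fin n) (Fin n) K)
          (E : Fin m → Fin c → Fin n → K) (U : Fin m → Matrix (Fin c) (Fin c) K),
          A.IsPt Y → lf (nd.l 0) Y = 1 →
          aeval (Sum.elim (fun t => lf (nd.l t.succ) Y) ζ) g ≠ 0 →
          Blk nd rr j P q Mx Y ζ M y ξ → (∀ i, LinearIndependent K (E i)) →
          (∀ i, (U i).det ≠ 0) →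
          (∀ i b a, E i b a = ∑ r, U i b r * ∑ l,
            eval (nd.s (P i)) (pderiv l (q i r)) * Mx i l a) →
          ∃ (ρ : Fin m → ℕ)
            (F' : Fin (m + 1) → MvPolynomial (Fin m × Fin n) (D1 L (Fin m × Fin n)))
            (a : ℕ) (f : D1 L (Fin m × Fin n)) (Q : MvPolynomial (Fin m × Fin c) L),
            (∀ i, 4 ^ j i * (ρ i : ℝ) ≤ C₁ * b) ∧
            F' 0 = aeval (Sum.elim (fun t => C (algebraMap L (D1 L (Fin m × Fin n))
              (lf (nd.l t.succ) Y))) X) F ∧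
            (∀ i : Fin m, F' i.succ = PowerSeries.coeff (ρ i) (PsS ξ i (F' i.castSucc)) ∧
              ∀ k < ρ i, PowerSeries.coeff k (PsS ξ i (F' i.castSucc)) = 0) ∧
            F' (Fin.last m) = C f ∧ (a : ℝ) < s * b ∧ (∀ k < a, PowerSeries.coeff k f = 0) ∧
            PowerSeries.coeff a f ≠ 0 ∧
            PowerSeries.coeff a f = aeval (fun p : Fin m × Fin c =>
              ∑ b, (C (algebraMap K L (E p.1 p.2 b)) * X (p.1, b) :
                MvPolynomial (Fin m × Fin n) L)) Q ∧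
            ∀ u ∈ (PowerSeries.coeff a f).support, ∀ i, ∑ b, u (i, b) = ρ i := by
  obtain ⟨C₀, hE⟩ := Noe.ed_ok nd
  obtain ⟨Ce, hCe, helim⟩ := elim_W m hE (JJ rr) D
  have hCf : (0 : ℝ) < max Ce 1 := lt_max_of_lt_right one_pos
  obtain ⟨R₀, D', B', hB', hord⟩ := order_T (K := K) m n (JJ rr) (s / max Ce 1) (B + 1)
    (div_pos hs hCf) (by linarith)
  refine ⟨R₀, D', max (max Ce 1) B', le_max_of_le_right hB', ?_⟩
  intro j P q F b hj hq hF hb hFx hFz hFh
  have hb0 : 0 < b := one_pos.trans_le hb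
  have hh' : HC (JJ rr) D j (hh rr q) := HC_hh hrr q D j (fun i => nd.s (P i)) hq
  have hN0 : N0 F ≠ 0 := fun h => hF (rename_injective _ N0_inj (by
    rw [map_zero]
    exact h))
  obtain ⟨NN, R, h1, h2, h3, h4, h5⟩ := helim j (hh rr q) b (B * b) (N0 F) hh' hN0 (by
    intro y hy
    cases y with
    | x t => exact absurd trivial hy
    | q => exact N0_deg F _ (by rintro (a | a) h <;> cases h)
    | S p => exact N0_deg F _ (by rintro (a | a) h <;> cases h)
    | w i => exact N0_deg F _ (by rintro (a | a) h <;> cases h)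
    | z p => exact absurd (Nat.zero_le _) hy
    | v p => exact N0_deg F _ (by rintro (a | a) h <;> cases h)) (by
    refine ⟨fun y => ?_, ?_⟩
    · have hz : ∀ y : VE m n, (∀ a, Sum.elim VE.x VE.z a ≠ y) →
          wt j y * ((N0 F).degreeOf y : ℝ) ≤ b := by
        intro y hy
        rw [N0_deg F y hy]
        simpa using hb0.le
      cases y with
      | x t =>
        have h6 : (N0 F).degreeOf (VE.x t) = F.degreeOf (Sum.inl t) :=
          degreeOf_rename_of_injective N0_inj (Sum.inl t)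
        rw [h6]
        show (1 : ℝ) * _ ≤ b
        rw [one_mul]
        exact hFx t
      | q => exact hz _ (by rintro (a | a) h <;> cases h)
      | S p => exact hz _ (by rintro (a | a) h <;> cases h)
      | w i => exact hz _ (by rintro (a | a) h <;> cases h)
      | z p =>
        have h6 : (N0 F).degreeOf (VE.z p) = F.degreeOf (Sum.inr p) :=
          degreeOf_rename_of_injective N0_inj (Sum.inr p)
        rw [h6]
        exact hFz p
      | v p => exact hz _ (by rintro (a | a) h <;> cases h)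
    · refine le_of_eq_of_le ?_ hFh
      unfold nh
      congr 1
      funext v
      rw [N0, NV_rename _ _ _ N0_inj])
  have h6 := hord j (fun p => nd.s (P p.1) p.2) (NN (Fin.last m)) (max Ce 1 * b) hj h2
    (mul_pos hCf hb0) (fun y hy => h3 (Fin.last m) y (by rwa [Fin.val_last])) (fun p => by
      refine (h4.1 (VE.S p)).trans ?_
      exact mul_le_mul_of_nonneg_right (le_max_left _ _) hb0.le) (by
      refine h4.2.trans ?_
      have h7 : Ce * (B * b + b) = Ce * ((B + 1) * b) := by ring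
      have h8 : (B + 1) * (max Ce 1 * b) = max Ce 1 * ((B + 1) * b) := by ring
      rw [h7, h8]
      exact mul_le_mul_of_nonneg_right (le_max_left _ _) (by positivity))
  rcases h6 with ⟨i, G, hG, hG1, hG2, hG3, hG4⟩ | ⟨a, c', ha, hc', hc1, hc2⟩
  · left
    refine ⟨i, G, hG, fun b => hG1 _ (notMem_JJ.2 ⟨b, rfl⟩), hG2, hG3.trans ?_, hG4⟩
    exact mul_le_mul_of_nonneg_right (le_max_right _ _) (by positivity)
  · right
    obtain ⟨g, hg, hg'⟩ := exists_g c' hc' (hc1 _ id) (fun i => hc1 _ id)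
      (fun p => hc1 _ (not_le.2 p.1.2))
    refine ⟨g, hg, ?_⟩
    intro L _ _ _ Y ζ M y ξ Mx E U hY hY1 hgY hBlk hMx hU hEU
    obtain ⟨ρ, F', a', f, Q, k1, k2, k3, k4, k5, k6, k7, k8, k9⟩ :=
      glue_L hrr hE hh' (fun i b => (hq i b).2.2.2.2) F NN R h1 h3
        (fun i => (h5 i).2) a c' hc1 hc2 E U hY hY1 (hg' L _ ζ hgY) hBlk hMx hU hEU
    refine ⟨ρ, F', a', f, Q, fun i => ?_, k2, k3, k4, ?_, k6, k7, k8, k9⟩
    · have h7 : (4 : ℝ) ^ j i * (ρ i : ℝ) ≤ 4 ^ j i * (R i : ℝ) :=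
        mul_le_mul_of_nonneg_left (by exact_mod_cast k1 i) (by positivity)
      refine (h7.trans (h5 i).1).trans ?_
      exact mul_le_mul_of_nonneg_right ((le_max_left _ _).trans (le_max_left _ _)) hb0.le
    · have h7 : (a' : ℝ) ≤ a := by exact_mod_cast k5
      refine h7.trans_lt (ha.trans_le (le_of_eq ?_))
      field_simp

end Pool.Agent.Lib.MP_17a322_nt.VA
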