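import Pool.Agent.Lib.MP_17a322_nt.VN.F1
import Pool.Agent.Lib.MP_17a322_nt.VJ.K3
import Pool.Agent.Lib.MP_17a322_nt.RO.A2

/-!
VA, part F: the choice of the points `P₀, P₁, ..., P_m` of the main argument in a sequence
`δ s_i - w_i` with `s_i` in a finitely generated group and `w_i` of small height.
-/

universe u

namespace Pool.Agent.Lib.MP_17a322_nt.VA

open Filter Topology Height
open Pool.Agent.Lib.MP_17a322_nt.RO
open Pool.Agent.Lib.MP_17a322_nt.VJ
open Pool.Agent.Lib.MP_17a322_nt.VN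

/-- The sequence `Q` of points with heights `O(H)` contains the configurations of points needed in the
main argument: `a` is the index of `P₀`, `b i` that of `P_i`. -/
def FRM {G : Type*} [AddCommGroup G] (h : G → ℝ) (H : ℕ → ℝ) (Q : ℕ → G) : Prop :=
  ∀ hh : ℕ → ℝ, oH H hh → ∀ S : ℕ → Prop, (∀ᶠ i in (hyperfilter ℕ : Filter ℕ), S i) →
    ∀ (m R₀ : ℕ) (C₀ η : ℝ), 0 < η →
    ∃ (a : ℕ) (b : Fin m → ℕ) (j : Fin m → ℕ), S a ∧ (∀ i, S (b i)) ∧ C₀ ≤ h (Q a) ∧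
      0 < h (Q a) ∧ (∀ i, R₀ ≤ 4 ^ j i) ∧ (∀ i i', i < i' → R₀ * 4 ^ j i ≤ 4 ^ j i') ∧
      (∀ i, hh (b i) ≤ 4 ^ j i) ∧ (∀ i, 4 ^ j i * h (Q a) ≤ 2 * h (Q (b i))) ∧
      (∀ i, h (Q (b i) - 2 ^ j i • Q a) ≤ η * (4 ^ j i * h (Q a))) ∧
      (∀ i, |h (Q (b i)) - 4 ^ j i * h (Q a)| ≤ η * (4 ^ j i * h (Q a)))

section

variable {G : Type*} [AddCommGroup G] {q : G → ℝ}

theorem quad_nsmul (hpar : ∀ x y, q (x + y) + q (x - y) = 2 * q x + 2 * q y) (x : G) (n : ℕ) :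
    q (n • x) = (n : ℝ) ^ 2 * q x := by
  have h := quadratic_zsmul q hpar x (n : ℤ)
  rw [natCast_zsmul] at h
  rw [h]
  norm_num

theorem quad_neg (hpar : ∀ x y, q (x + y) + q (x - y) = 2 * q x + 2 * q y) (x : G) :
    q (-x) = q x := by
  have h := quadratic_zsmul q hpar x (-1)
  rw [neg_one_zsmul] at h
  rw [h]
  norm_num

theorem quad_sub_le (hq0 : ∀ x, 0 ≤ q x)
    (hpar : ∀ x y, q (x + y) + q (x - y) = 2 * q x + 2 * q y) (x y : G) :
    q (x - y) ≤ 2 * q x + 2 * q y := by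
  have h1 := hpar x y
  have h2 := hq0 (x + y)
  linarith

/-- Subtracting a small element changes the quadratic function little. -/
theorem quad_close (hq0 : ∀ x, 0 ≤ q x)
    (hpar : ∀ x y, q (x + y) + q (x - y) = 2 * q x + 2 * q y) (x w : G) {n : ℕ} (hn : 0 < n) :
    |q (x - w) - q x| ≤ q x / n + (n + 1) * q w := by
  obtain ⟨B, hB⟩ : ∃ B : G →+ G →+ ℝ, B = K1_bil q hpar := ⟨_, rfl⟩
  have e1 : ∀ x y, q (x + y) = q x + q y + 2 * B x y := by
    intro x y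
    have := K1_bil_apply q hpar x y
    rw [hB, this]
    ring
  have hn' : (0 : ℝ) < n := by exact_mod_cast hn
  have e2 := e1 x (n • w)
  have e3 := e1 x (-(n • w))
  rw [quad_neg hpar, map_neg] at e3
  rw [quad_nsmul hpar, map_nsmul, nsmul_eq_mul] at e2 e3
  have e4 := e1 x (-w)
  rw [quad_neg hpar, map_neg, ← sub_eq_add_neg] at e4
  have p1 := hq0 (x + n • w)
  have p2 := hq0 (x + -(n • w))
  rw [e2] at p1
  rw [e3] at p2
  have hw := hq0 w
  have h5 : |2 * B x w| ≤ q x / n + n * q w := by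
    rw [abs_le]
    constructor
    · rw [← sub_nonneg]
      have : 0 ≤ (q x + (n : ℝ) ^ 2 * q w + 2 * ((n : ℝ) * B x w)) / n := by positivity
      calc (0 : ℝ) ≤ _ := this
        _ = _ := by field_simp; ring
    · rw [← sub_nonneg]
      have h6 : 0 ≤ q x + (n : ℝ) ^ 2 * q w + 2 * (-((n : ℝ) * B x w)) := p2
      have : 0 ≤ (q x + (n : ℝ) ^ 2 * q w + 2 * (-((n : ℝ) * B x w))) / n := by positivity
      calc (0 : ℝ) ≤ _ := this
        _ = _ := by field_simp; ring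
  rw [e4]
  have h7 : q x + q w + 2 * -B x w - q x = q w - 2 * B x w := by ring
  rw [h7]
  have h8 := abs_sub (q w) (2 * B x w)
  rw [abs_of_nonneg hw] at h8
  linarith

/-- The core estimate. -/
theorem frm_core (hq0 : ∀ x, 0 ≤ q x)
    (hpar : ∀ x y, q (x + y) + q (x - y) = 2 * q x + 2 * q y) {h : G → ℝ} {D : ℝ}
    (hqh : ∀ x, |q x - h x| ≤ D) {δ : ℕ} (hδ : 0 < δ) {θ η' τ : ℝ} (hθ0 : 0 < θ) (hθ1 : θ ≤ 1)
    {n : ℕ} (hn : 0 < n)
    (hn1 : 16 ≤ θ * n) (hτ0 : 0 < τ) (hτ : 64 * ((n + 1) * τ) ≤ θ) (hη' : 16 * η' ≤ θ)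
    (hη0 : 0 < η')
    (s s' w w' : G) (j : ℕ) (hD : D ≤ τ * q s) (hD' : D ≤ τ * q s') (hw : q w ≤ τ * q s)
    (hw' : q w' ≤ τ * q s') (h1 : |q s' - 4 ^ j * q s| ≤ η' * q s')
    (h2 : q (s' - 2 ^ j • s) ≤ η' * q s') :
    |h (δ • s' - w') - δ ^ 2 * (4 ^ j * q s)| ≤ θ * (δ ^ 2 * (4 ^ j * q s)) ∧
    |4 ^ j * h (δ • s - w) - δ ^ 2 * (4 ^ j * q s)| ≤ θ * (δ ^ 2 * (4 ^ j * q s)) ∧
    h ((δ • s' - w') - 2 ^ j • (δ • s - w)) ≤ θ * (δ ^ 2 * (4 ^ j * q s)) := by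
  have hδ' : (1 : ℝ) ≤ δ ^ 2 := by
    have : (1 : ℝ) ≤ δ := by exact_mod_cast hδ
    exact one_le_pow₀ this
  have hn' : (0 : ℝ) < n := by exact_mod_cast hn
  have hn2 : (1 : ℝ) ≤ n := by exact_mod_cast hn
  have hJ : (0 : ℝ) < 4 ^ j := by positivity
  obtain ⟨u, hu⟩ : ∃ u, u = q s := ⟨_, rfl⟩
  obtain ⟨u', hu'⟩ : ∃ u', u' = q s' := ⟨_, rfl⟩
  obtain ⟨d, hd⟩ : ∃ d : ℝ, d = (δ : ℝ) ^ 2 := ⟨_, rfl⟩
  obtain ⟨J, hJe⟩ : ∃ J : ℝ, J = (4 : ℝ) ^ j := ⟨_, rfl⟩
  have hu0 : 0 ≤ u := hu ▸ hq0 s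
  have hu0' : 0 ≤ u' := hu' ▸ hq0 s'
  have hτ1 : 64 * τ ≤ θ := by
    have : 0 ≤ (n : ℝ) * τ := by positivity
    linarith
  have hnτ : (n + 1) * τ ≤ θ / 64 := by linarith
  have hn3 : 1 / (n : ℝ) ≤ θ / 16 := by
    rw [div_le_iff₀ hn']
    linarith
  rw [← hu, ← hu', ← hJe] at h1
  rw [← hu'] at h2 hD' hw'
  rw [← hu] at hD hw
  rw [← hd, ← hJe, ← hu]
  rw [← hd] at hδ'
  rw [← hJe] at hJ
  have h3 := abs_le.mp h1
  have hη1 : η' * u' ≤ 1 / 16 * u' := mul_le_mul_of_nonneg_right (by linarith) hu0'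
  have h4 : u' ≤ 2 * (J * u) := by linarith [h3.2]
  have hV : 0 ≤ J * u := by positivity
  have hd0 : 0 < d := by linarith
  -- q at the two points
  have k1 : |q (δ • s' - w') - d * u'| ≤ d * u' * (θ / 8) := by
    have := quad_close hq0 hpar (δ • s') w' hn
    rw [quad_nsmul hpar, ← hd, ← hu'] at this
    refine this.trans ?_
    have e1 : d * u' / n ≤ d * u' * (θ / 16) := by
      rw [div_eq_mul_one_div]
      exact mul_le_mul_of_nonneg_left hn3 (by positivity)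
    have e2 : ((n : ℝ) + 1) * q w' ≤ (n + 1) * (τ * u') :=
      mul_le_mul_of_nonneg_left hw' (by positivity)
    have e3 : ((n : ℝ) + 1) * (τ * u') ≤ θ / 64 * u' := by
      rw [← mul_assoc]
      exact mul_le_mul_of_nonneg_right hnτ hu0'
    have e4 : θ / 64 * u' ≤ d * u' * (θ / 16) := by
      have h8 : u' ≤ d * u' := le_mul_of_one_le_left hu0' hδ'
      have h9 := mul_le_mul_of_nonneg_left h8 hθ0.le
      have h10 := mul_nonneg hθ0.le hu0'
      linarith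
    linarith
  have k2 : |q (δ • s - w) - d * u| ≤ d * u * (θ / 8) := by
    have := quad_close hq0 hpar (δ • s) w hn
    rw [quad_nsmul hpar, ← hd, ← hu] at this
    refine this.trans ?_
    have e1 : d * u / n ≤ d * u * (θ / 16) := by
      rw [div_eq_mul_one_div]
      exact mul_le_mul_of_nonneg_left hn3 (by positivity)
    have e2 : ((n : ℝ) + 1) * q w ≤ (n + 1) * (τ * u) :=
      mul_le_mul_of_nonneg_left hw (by positivity)
    have e3 : ((n : ℝ) + 1) * (τ * u) ≤ θ / 64 * u := by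
      rw [← mul_assoc]
      exact mul_le_mul_of_nonneg_right hnτ hu0
    have e4 : θ / 64 * u ≤ d * u * (θ / 16) := by
      have h8 : u ≤ d * u := le_mul_of_one_le_left hu0 hδ'
      have h9 := mul_le_mul_of_nonneg_left h8 hθ0.le
      have h10 := mul_nonneg hθ0.le hu0
      linarith
    linarith
  have du' : u' ≤ d * u' := le_mul_of_one_le_left hu0' hδ'
  have du : u ≤ d * u := le_mul_of_one_le_left hu0 hδ'
  have hdu' : 0 ≤ d * u' := by positivity
  have hdu : 0 ≤ d * u := by positivity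
  have dV : d * u' ≤ 2 * (d * (J * u)) := by
    have := mul_le_mul_of_nonneg_left h4 hd0.le
    linarith
  have t1 := mul_le_mul_of_nonneg_left du' hθ0.le
  have t2 := mul_le_mul_of_nonneg_left du hθ0.le
  have t3 := mul_nonneg hθ0.le hdu'
  have t4 := mul_nonneg hθ0.le hdu
  have t5 : 64 * τ * u' ≤ θ * u' := mul_le_mul_of_nonneg_right hτ1 hu0'
  have t6 : 64 * τ * u ≤ θ * u := mul_le_mul_of_nonneg_right hτ1 hu0
  have t7 : 16 * η' * (d * u') ≤ θ * (d * u') := mul_le_mul_of_nonneg_right hη' hdu'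
  have t8 := mul_le_mul_of_nonneg_left dV hθ0.le
  have hdV : 0 ≤ d * (J * u) := by positivity
  refine ⟨?_, ?_, ?_⟩
  · have a1 := abs_le.mp (hqh (δ • s' - w'))
    have a2 := abs_le.mp k1
    have a3 : |d * u' - d * (J * u)| ≤ d * (η' * u') := by
      rw [← mul_sub, abs_mul, abs_of_pos hd0]
      exact mul_le_mul_of_nonneg_left h1 hd0.le
    have a4 := abs_le.mp a3
    have a5 : D ≤ d * u' * (θ / 64) := by linarith
    have a6 : d * (η' * u') ≤ d * u' * (θ / 16) := by linarith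
    have t9 := mul_nonneg hθ0.le hdV
    have a7 : d * u' * (θ / 64) + d * u' * (θ / 8) + d * u' * (θ / 16) ≤
        θ * (d * (J * u)) := by linarith
    rw [abs_le]
    constructor <;> linarith [a1.1, a1.2, a2.1, a2.2, a4.1, a4.2]
  · have a1 := abs_le.mp (hqh (δ • s - w))
    have a2 := abs_le.mp k2
    have a5 : D ≤ d * u * (θ / 64) := by linarith
    have a6 : |h (δ • s - w) - d * u| ≤ d * u * θ := by
      rw [abs_le]
      constructor <;> linarith [a1.1, a1.2, a2.1, a2.2]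
    have a7 : J * h (δ • s - w) - d * (J * u) = J * (h (δ • s - w) - d * u) := by ring
    rw [a7, abs_mul, abs_of_pos hJ]
    calc J * |h (δ • s - w) - d * u| ≤ J * (d * u * θ) := mul_le_mul_of_nonneg_left a6 hJ.le
      _ = _ := by ring
  · have a1 := abs_le.mp (hqh ((δ • s' - w') - 2 ^ j • (δ • s - w)))
    have e1 : (δ • s' - w') - 2 ^ j • (δ • s - w) = δ • (s' - 2 ^ j • s) - (w' - 2 ^ j • w) := by
      rw [smul_sub, smul_sub, smul_comm (2 ^ j) δ s]
      abel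
    have a2 := quad_sub_le hq0 hpar (δ • (s' - 2 ^ j • s)) (w' - 2 ^ j • w)
    have a3 := quad_sub_le hq0 hpar w' (2 ^ j • w)
    rw [quad_nsmul hpar, ← hd] at a2
    rw [quad_nsmul hpar] at a3
    have e2 : (((2 ^ j : ℕ) : ℝ)) ^ 2 = J := by
      rw [hJe]
      push_cast
      rw [← pow_mul, mul_comm j 2, pow_mul]
      norm_num
    rw [e2] at a3
    rw [← e1] at a2
    have a4 : d * q (s' - 2 ^ j • s) ≤ d * (η' * u') := mul_le_mul_of_nonneg_left h2 hd0.le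
    have a5 : J * q w ≤ J * (τ * u) := mul_le_mul_of_nonneg_left hw hJ.le
    have a6 : d * (η' * u') ≤ θ / 16 * (d * u') := by linarith
    have a7 : τ * u' ≤ θ / 64 * (d * u') := by linarith
    have a8 : J * (τ * u) ≤ θ / 64 * (d * (J * u)) := by
      have h8 : J * u ≤ d * (J * u) := le_mul_of_one_le_left hV hδ'
      have h9 := mul_le_mul_of_nonneg_left h8 hθ0.le
      have h10 : 64 * τ * (J * u) ≤ θ * (J * u) := mul_le_mul_of_nonneg_right hτ1 hV
      linarith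
    have b1 : θ / 16 * (d * u') ≤ θ / 16 * (2 * (d * (J * u))) :=
      mul_le_mul_of_nonneg_left dV (by positivity)
    have b2 : θ / 64 * (d * u') ≤ θ / 64 * (2 * (d * (J * u))) :=
      mul_le_mul_of_nonneg_left dV (by positivity)
    have t9 := mul_nonneg hθ0.le hdV
    linarith [a1.1]

end

end Pool.Agent.Lib.MP_17a322_nt.VA
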