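import Pool.Agent.Lib.MP_17a322_nt.VN.C17

/-!
Centre data whose first polynomial does not vanish at a given point.
-/

namespace Pool.Agent.Lib.MP_17a322_nt.VA

open MvPolynomial
open Pool.Agent.Lib.MP_17a322_nt.VN

/-- Translation of the variables. -/
noncomputable def shiftV {k : Type*} [Field k] {n : ℕ} (c : Fin n → k) :
    MvPolynomial (Fin n) k ≃ₐ[k] MvPolynomial (Fin n) k :=
  AlgEquiv.ofAlgHom (aeval fun t => X t - C (c t)) (aeval fun t => X t + C (c t))
    (by
      apply MvPolynomial.algHom_ext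
      intro t
      simp [algebraMap_eq])
    (by
      apply MvPolynomial.algHom_ext
      intro t
      simp [algebraMap_eq])

theorem shiftV_X {k : Type*} [Field k] {n : ℕ} (c : Fin n → k) (t : Fin n) :
    shiftV c (X t) = X t - C (c t) := by
  show aeval (fun t => X t - C (c t)) (X t) = _
  rw [aeval_X]

theorem REPEX_left {k : Type*} [Field k] [CharZero k] {n : ℕ} (f g : MvPolynomial (Fin (n + 2)) k)
    (hfg : IsRelPrime f g) {F : Type*} [Field F] [Algebra k F] (s : Fin (n + 2) → F)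
    (hs : aeval s f ≠ 0) :
    ∃ (e : ℕ) (ρ : REP k (n + 2) e), ρ.z 0 ∈ Ideal.span {f, g} ∧ ρ.z 1 ∈ Ideal.span {f, g} ∧
      aeval s (ρ.z 0) ≠ 0 := by
  classical
  by_cases htop : Ideal.span {f, g} = (⊤ : Ideal (MvPolynomial (Fin (n + 2)) k))
  · obtain ⟨c, hc⟩ : ∃ c : k, s 0 - algebraMap k F c ≠ 0 := by
      by_cases h : s 0 = 0
      · exact ⟨1, by rw [h, map_one, zero_sub]; exact neg_ne_zero.2 one_ne_zero⟩
      · exact ⟨0, by rw [map_zero, sub_zero]; exact h⟩
    obtain ⟨e, ρ, hρ⟩ := exists_REP_of_finite _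
      (finite_equiv (shiftV fun _ : Fin (n + 2) => c) (fun t => X t) (finite_X (k := k) (n + 2)))
    refine ⟨e, ρ, ?_, ?_, ?_⟩
    · rw [htop]
      exact Submodule.mem_top
    · rw [htop]
      exact Submodule.mem_top
    · rw [hρ]
      dsimp only
      rw [shiftV_X, map_sub, aeval_X, aeval_C]
      exact hc
  · have hf0 : f ≠ 0 := by
      intro h
      rw [h, map_zero] at hs
      exact hs rfl
    have hfu : ¬ IsUnit f := by
      intro h
      exact htop (Ideal.eq_top_of_isUnit_mem _ (Ideal.subset_span (Set.mem_insert _ _)) h)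
    obtain ⟨τ, hτ⟩ := exists_aut f hf0
    have hfu' : ¬ IsUnit (τ f) := fun h => hfu ((MulEquiv.isUnit_map τ).mp h)
    have hfg' : IsRelPrime (τ f) (τ g) := by
      refine C17_prime τ.symm.toRingEquiv ?_
      show IsRelPrime (τ.symm (τ f)) (τ.symm (τ g))
      rw [AlgEquiv.symm_apply_apply, AlgEquiv.symm_apply_apply]
      exact hfg
    obtain ⟨r, hr0, hr⟩ := exists_elim (τ f) (τ g) hfg'
    have hmem : τ.symm (rename Fin.succ r) ∈ Ideal.span {f, g} :=
      C17_span τ.toRingEquiv hr
    have hru : ¬ IsUnit r := by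
      intro h
      apply htop
      refine Ideal.eq_top_of_isUnit_mem _ hmem ?_
      exact (MulEquiv.isUnit_map τ.symm).mpr (h.map (rename Fin.succ))
    obtain ⟨τ', hτ'⟩ := exists_aut r hr0
    have hru' : ¬ IsUnit (τ' r) := fun h => hru ((MulEquiv.isUnit_map τ').mp h)
    have h1 := finite_cons (τ' r) hτ' hru' (fun t => X t) (finite_X n)
    have h2 := finite_equiv τ'.symm _ h1
    have h3 := finite_cons (τ f) hτ hfu' _ h2
    have h4 := finite_equiv τ.symm _ h3
    obtain ⟨e, ρ, hρ⟩ := exists_REP_of_finite _ h4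
    have z0 : ρ.z 0 = f := by
      rw [hρ]
      show τ.symm (τ f) = f
      exact τ.symm_apply_apply f
    have z1 : ρ.z 1 = τ.symm (rename Fin.succ r) := by
      rw [hρ]
      show τ.symm (rename Fin.succ (τ'.symm (τ' r))) = τ.symm (rename Fin.succ r)
      rw [τ'.symm_apply_apply]
    refine ⟨e, ρ, ?_, ?_, ?_⟩
    · rw [z0]
      exact Ideal.subset_span (Set.mem_insert _ _)
    · rw [z1]
      exact hmem
    · rw [z0]
      exact hs

/-- Existence of a centre datum inside the ideal of two coprime polynomials which do not both vanish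
at a point: the first polynomial of the datum does not vanish there. -/
theorem REPEX2 {k : Type*} [Field k] [CharZero k] {n : ℕ} (f g : MvPolynomial (Fin (n + 2)) k)
    (hfg : IsRelPrime f g) {F : Type*} [Field F] [Algebra k F] (s : Fin (n + 2) → F)
    (hs : aeval s f ≠ 0 ∨ aeval s g ≠ 0) :
    ∃ (e : ℕ) (ρ : REP k (n + 2) e), ρ.z 0 ∈ Ideal.span {f, g} ∧ ρ.z 1 ∈ Ideal.span {f, g} ∧
      aeval s (ρ.z 0) ≠ 0 := by
  rcases hs with h | h
  · exact REPEX_left f g hfg s h
  · obtain ⟨e, ρ, h1, h2, h3⟩ := REPEX_left g f hfg.symm s h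
    rw [Set.pair_comm] at h1 h2
    exact ⟨e, ρ, h1, h2, h3⟩

end Pool.Agent.Lib.MP_17a322_nt.VA
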