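import Pool.Agent.Lib.MP_17a322_nt.Mb

/-!
A transcendence basis among finitely many elements, and equations for the others.
-/

namespace Pool.Agent.Lib.MP_17a322_nt.VA

open MvPolynomial

private theorem FA3a_mem {k σ : Type*} [Field k] {r : σ} {q : MvPolynomial σ k} {m : σ →₀ ℕ}
    (hm : m ∈ (pderiv r q).support) : m + Finsupp.single r 1 ∈ q.support := by
  rw [mem_support_iff, coeff_pderiv] at hm
  rw [mem_support_iff]
  exact left_ne_zero_of_mul hm

private theorem FA3a_le {k σ : Type*} [Field k] {r : σ} {q : MvPolynomial σ k} (t : σ) :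
    (pderiv r q).degreeOf t ≤ q.degreeOf t := by
  rw [degreeOf_le_iff]
  intro m hm
  have h1 := monomial_le_degreeOf t (FA3a_mem hm)
  rw [Finsupp.add_apply] at h1
  omega

private theorem FA3a_lt {k σ : Type*} [Field k] {r : σ} {q : MvPolynomial σ k}
    (h : q.degreeOf r ≠ 0) : (pderiv r q).degreeOf r < q.degreeOf r := by
  rw [degreeOf_lt_iff (Nat.pos_of_ne_zero h)]
  intro m hm
  have h1 := monomial_le_degreeOf r (FA3a_mem hm)
  rw [Finsupp.add_apply, Finsupp.single_eq_same] at h1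
  omega

private theorem FA3a_ne {k σ : Type*} [Field k] [CharZero k] {r : σ} {q : MvPolynomial σ k}
    (h : q.degreeOf r ≠ 0) : pderiv r q ≠ 0 := by
  rw [← mem_vars_iff_degreeOf_ne_zero, mem_vars_iff_mem_support] at h
  obtain ⟨m, hm, hr⟩ := h
  intro h0
  have h1 : m r ≠ 0 := Finsupp.mem_support_iff.1 hr
  obtain ⟨m', hm'⟩ : ∃ m' : σ →₀ ℕ, m = m' + Finsupp.single r 1 := by
    refine ⟨m - Finsupp.single r 1, (tsub_add_cancel_of_le ?_).symm⟩
    rw [Finsupp.single_le_iff]
    omega
  have h2 := coeff_pderiv (i := r) q m'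
  rw [h0, coeff_zero, ← hm'] at h2
  rcases mul_eq_zero.1 h2.symm with h3 | h3
  · exact mem_support_iff.1 hm h3
  · have h4 : (((m' r + 1 : ℕ)) : k) = 0 := by
      push_cast
      exact h3
    exact absurd (Nat.cast_eq_zero.1 h4) (Nat.succ_ne_zero _)

/-- The equation for an element which is not in a maximal independent family. -/
private theorem FA3a_eq {k F : Type*} [Field k] [CharZero k] [Field F] [Algebra k F] {n : ℕ}
    (s : Fin n → F) (J : Finset (Fin n)) (hJ : AlgebraicIndependent k fun t : {t // t ∈ J} => s t)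
    (r : Fin n) (hr : ¬ AlgebraicIndependent k fun t : {t // t ∈ insert r J} => s t) :
    ∃ q : MvPolynomial (Fin n) k, (∀ t, t ∉ J → t ≠ r → q.degreeOf t = 0) ∧
      aeval s q = 0 ∧ aeval s (pderiv r q) ≠ 0 := by
  classical
  have hex : ∃ m : ℕ, ∃ q : MvPolynomial (Fin n) k, q ≠ 0 ∧ aeval s q = 0 ∧
      (∀ t, t ∉ J → t ≠ r → q.degreeOf t = 0) ∧ q.degreeOf r = m := by
    rw [algebraicIndependent_iff] at hr
    push Not at hr
    obtain ⟨p, hp0, hp⟩ := hr
    refine ⟨_, rename Subtype.val p, ?_, ?_, ?_, rfl⟩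
    · intro h
      exact hp (rename_injective _ Subtype.val_injective (h.trans (map_zero _).symm))
    · rw [aeval_rename]
      exact hp0
    · intro t ht htr
      by_contra hne
      rw [← Ne, ← mem_vars_iff_degreeOf_ne_zero] at hne
      obtain ⟨⟨i, hi⟩, -, rfl⟩ := mem_vars_rename _ _ hne
      rcases Finset.mem_insert.1 hi with h | h
      · exact htr h
      · exact ht h
  obtain ⟨q, hq0, hqs, hqt, hqm⟩ := Nat.find_spec hex
  refine ⟨q, hqt, hqs, ?_⟩
  have hqr : q.degreeOf r ≠ 0 := by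
    intro h0
    have hv : (q.vars : Set (Fin n)) ⊆ Set.range (Subtype.val : {t // t ∈ J} → Fin n) := by
      intro t ht
      rw [Finset.mem_coe, mem_vars_iff_degreeOf_ne_zero] at ht
      have htJ : t ∈ J := by
        by_contra h1
        by_cases h2 : t = r
        · exact ht (h2 ▸ h0)
        · exact ht (hqt t h1 h2)
      exact ⟨⟨t, htJ⟩, rfl⟩
    obtain ⟨p, hp⟩ := exists_rename_eq_of_vars_subset_range q Subtype.val Subtype.val_injective hv
    have h3 : aeval (fun t : {t // t ∈ J} => s t) p = 0 := by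
      rw [← hqs, ← hp, aeval_rename]
      rfl
    have h4 : p = 0 := algebraicIndependent_iff.1 hJ p h3
    rw [h4, map_zero] at hp
    exact hq0 hp.symm
  intro h0
  have hlt := FA3a_lt hqr
  rw [hqm] at hlt
  refine Nat.find_min hex hlt ⟨pderiv r q, FA3a_ne hqr, h0, fun t ht htr => ?_, rfl⟩
  exact Nat.le_zero.1 ((FA3a_le t).trans (hqt t ht htr).le)

theorem exists_eqs {k F : Type*} [Field k] [CharZero k] [Field F] [Algebra k F] {n : ℕ}
    (s : Fin n → F) :
    ∃ (c : ℕ) (rr : Fin c → Fin n), Function.Injective rr ∧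
      (AlgebraicIndependent k fun t : {t : Fin n // t ∉ Set.range rr} => s t) ∧
      ∀ b : Fin c, ∃ q : MvPolynomial (Fin n) k, (∀ b', b' ≠ b → q.degreeOf (rr b') = 0) ∧
        aeval s q = 0 ∧ aeval s (pderiv (rr b) q) ≠ 0 := by
  classical
  obtain ⟨J, hJ, hmax⟩ := Finset.exists_max_image
    ((Finset.univ : Finset (Finset (Fin n))).filter fun J =>
      AlgebraicIndependent k fun t : {t // t ∈ J} => s t) Finset.card
    ⟨∅, Finset.mem_filter.2 ⟨Finset.mem_univ _, by
      have he : IsEmpty {t : Fin n // t ∈ (∅ : Finset (Fin n))} :=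
        ⟨fun t => absurd t.2 (Finset.notMem_empty _)⟩
      exact algebraicIndependent_empty_type_iff.2 (algebraMap k F).injective⟩⟩
  rw [Finset.mem_filter] at hJ
  have hr : ∀ r, r ∉ J → ¬ AlgebraicIndependent k fun t : {t // t ∈ insert r J} => s t := by
    intro r hr h
    have h1 := hmax (insert r J) (Finset.mem_filter.2 ⟨Finset.mem_univ _, h⟩)
    rw [Finset.card_insert_of_notMem hr] at h1
    omega
  have hrange : Set.range (Jᶜ.orderEmbOfFin rfl) = ((Jᶜ : Finset (Fin n)) : Set (Fin n)) :=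
    Finset.range_orderEmbOfFin _ _
  have hmem : ∀ b, Jᶜ.orderEmbOfFin rfl b ∉ J := fun b =>
    Finset.mem_compl.1 (Finset.orderEmbOfFin_mem _ rfl b)
  refine ⟨Jᶜ.card, Jᶜ.orderEmbOfFin rfl, (Jᶜ.orderEmbOfFin rfl).injective, ?_, ?_⟩
  · have hin : ∀ t : {t : Fin n // t ∉ Set.range (Jᶜ.orderEmbOfFin rfl)}, (t : Fin n) ∈ J := by
      rintro ⟨t, ht⟩
      rw [hrange, Finset.mem_coe, Finset.mem_compl, not_not] at ht
      exact ht
    exact hJ.2.comp (fun t : {t : Fin n // t ∉ Set.range (Jᶜ.orderEmbOfFin rfl)} =>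
      (⟨t, hin t⟩ : {t // t ∈ J})) fun t t' h => Subtype.ext (congrArg (fun x : {t // t ∈ J} => (x : Fin n)) h)
  · intro b
    obtain ⟨q, h1, h2, h3⟩ := FA3a_eq s J hJ.2 _ (hr _ (hmem b))
    exact ⟨q, fun b' hb' => h1 _ (hmem b') fun h =>
      hb' ((Jᶜ.orderEmbOfFin rfl).injective h), h2, h3⟩

private theorem FA3_notMem_vars {k : Type*} [CommSemiring k] {σ : Type*} {t : σ}
    {q : MvPolynomial σ k} (h : q.degreeOf t = 0) : t ∉ q.vars := by
  classical
  rw [degreeOf_def, Multiset.count_eq_zero] at h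
  rw [vars_def, Multiset.mem_toFinset]
  exact h

/-- If `c = n` all elements are algebraic. -/
theorem eqs_algebraic {k F : Type*} [Field k] [Field F] [Algebra k F] {n : ℕ} (s : Fin n → F)
    (rr : Fin n → Fin n) (hrr : Function.Injective rr)
    (hq : ∀ b : Fin n, ∃ q : MvPolynomial (Fin n) k, (∀ b', b' ≠ b → q.degreeOf (rr b') = 0) ∧
        aeval s q = 0 ∧ aeval s (pderiv (rr b) q) ≠ 0) (t : Fin n) : IsAlgebraic k (s t) := by
  obtain ⟨b, rfl⟩ := (Finite.injective_iff_surjective.1 hrr) t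
  obtain ⟨q, h1, h2, h3⟩ := hq b
  have h4 : (q.vars : Set (Fin n)) ⊆ Set.range (fun _ : Unit => rr b) := by
    intro v hv
    obtain ⟨b', rfl⟩ := (Finite.injective_iff_surjective.1 hrr) v
    by_cases hb : b' = b
    · exact ⟨(), by rw [hb]⟩
    · exact absurd hv (FA3_notMem_vars (h1 b' hb))
  obtain ⟨q', rfl⟩ := exists_rename_eq_of_vars_subset_range q (fun _ : Unit => rr b)
    (fun _ _ _ => rfl) h4
  by_contra h
  have h5 : AlgebraicIndependent k (fun _ : Unit => s (rr b)) :=
    algebraicIndependent_unique_type_iff.2 h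
  rw [aeval_rename] at h2
  have h6 : q' = 0 := algebraicIndependent_iff.1 h5 q' h2
  rw [h6, map_zero, map_zero, map_zero] at h3
  exact h3 rfl

/-- `pderiv` of a polynomial that does not involve the variable. -/
theorem pderiv_eq_zero_of_degreeOf {k : Type*} [CommRing k] {σ : Type*} {t : σ}
    {q : MvPolynomial σ k} (h : q.degreeOf t = 0) : pderiv t q = 0 := by
  exact pderiv_eq_zero_of_notMem_vars (FA3_notMem_vars h)

end Pool.Agent.Lib.MP_17a322_nt.VA
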