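import Pool.Agent.Lib.MP_17a322_nt.VA.M19

/-!
Existence of flags with large increments.
-/

universe u

namespace Pool.Agent.Lib.MP_17a322_nt.VA

open MvPolynomial Height Filter
open Pool.Agent.Lib.MP_17a322_nt.RO
open Pool.Agent.Lib.MP_17a322_nt.VJ
open Pool.Agent.Lib.MP_17a322_nt.VN

theorem CA {K : Type u} [Field K] [NumberField K] {H : ℕ → ℝ}
    (hH : Tendsto H (hyperfilter ℕ : Filter ℕ) atTop) {k : ℕ} (n : ℕ) :
    ∀ E : ℕ → Fin (k + 1) → Fin n → K,
    (∀ᶠ i in (hyperfilter ℕ : Filter ℕ), ∃ I, mn (E i) I ≠ 0) →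
    (∀ v ∈ Submodule.span (GK K) (Set.range (GE E)), (∀ a, sml H (v a)) → v = 0) →
    ∃ (E' : ℕ → Fin k → Fin n → K) (ε : ℝ), 0 < ε ∧
      (∀ᶠ i in (hyperfilter ℕ : Filter ℕ), ∃ I, mn (E' i) I ≠ 0) ∧
      (∀ j, GE E' j ∈ Submodule.span (GK K) (Set.range (GE E))) ∧
      ∀ᶠ i in (hyperfilter ℕ : Filter ℕ),
        ε * H i + logHeight (mn (E' i)) ≤ logHeight (mn (E i)) := by
  induction n with
  | zero =>
    intro E hE _
    obtain ⟨i, I, _⟩ := hE.exists
    exact (I 0).elim0
  | succ n IH =>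
    intro E hE h0
    by_cases h : ∃ x : Fin (n + 1) → GK K, x ≠ 0 ∧ (∀ a, sml H (x a)) ∧
        ∀ j, ∑ a, GE E j a * x a = 0
    · obtain ⟨x, hx0, hxs, hx⟩ := h
      exact CA_one hH IH E hE h0 x hx0 hxs hx
    · refine CA_two hH E hE h0 fun x hxs hx => ?_
      by_contra hx0
      exact h ⟨x, hx0, hxs, hx⟩

/-- Two bases of the same space have the same height. -/
theorem wh_basis {K : Type u} [Field K] [NumberField K] {c n : ℕ} (E E' : ℕ → Fin c → Fin n → K)
    (hE : LinearIndependent (GK K) (GE E)) (hE' : LinearIndependent (GK K) (GE E'))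
    (h : ∀ b, GE E' b ∈ Submodule.span (GK K) (Set.range (GE E))) :
    ∀ᶠ i in (hyperfilter ℕ : Filter ℕ), logHeight (mn (E' i)) = logHeight (mn (E i)) := by
  have h1 : ∀ b, ∃ A : Fin c → GK K, ∑ l, A l • GE E l = GE E' b := fun b =>
    (Submodule.mem_span_range_iff_exists_fun (GK K)).1 (h b)
  choose A hA using h1
  obtain ⟨α, hα⟩ := exists_GE A
  have h2 : ∀ b : Fin c, ∀ a : Fin n, ∀ᶠ i in (hyperfilter ℕ : Filter ℕ),
      E' i b a = ∑ l, α i b l * E i l a := by
    intro b a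
    rw [← gm_eq_iff, gm_sum]
    have h3 := congrFun (hA b) a
    rw [Finset.sum_apply] at h3
    have h4 : gm (fun i => E' i b a) = GE E' b a := rfl
    rw [h4, ← h3]
    refine Finset.sum_congr rfl fun l _ => ?_
    rw [Pi.smul_apply, smul_eq_mul, gm_mul, ← hα]
    rfl
  have h5 : ∀ᶠ i in (hyperfilter ℕ : Filter ℕ), ∀ b a, E' i b a = ∑ l, α i b l * E i l a :=
    eventually_all.2 fun b => eventually_all.2 fun a => h2 b a
  filter_upwards [h5, (ind_GE E').1 hE'] with i h6 h7
  have h8 : ∀ I, mn (E' i) I = (Matrix.of (α i)).det * mn (E i) I := by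
    intro I
    unfold mn
    rw [← Matrix.det_mul]
    congr 1
    ext a b
    rw [Matrix.mul_apply]
    exact h6 a (I b)
  obtain ⟨I, hI⟩ := h7
  have h9 : (Matrix.of (α i)).det ≠ 0 := by
    intro h10
    rw [h8, h10, zero_mul] at hI
    exact hI rfl
  have h11 : mn (E' i) = (Matrix.of (α i)).det • mn (E i) := by
    funext J
    rw [h8, Pi.smul_apply, smul_eq_mul]
  rw [h11, Height.logHeight_smul_eq_logHeight _ h9]

theorem wh_snoc {K : Type u} [Field K] [NumberField K] {c n : ℕ} (E : Fin c → Fin n → K)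
    (e : Fin n → K) {b : ℕ} (hb : b ≤ c) :
    wh (Fin.snoc E e : Fin (c + 1) → Fin n → K) b = wh E b := by
  rw [wh_eq, wh_eq]
  have h1 : tk (ez (Fin.snoc E e : Fin (c + 1) → Fin n → K)) b = tk (ez E) b := by
    funext a x
    have h2 : (a : ℕ) < c := lt_of_lt_of_le a.2 hb
    have h3 : (a : ℕ) < c + 1 := Nat.lt_succ_of_lt h2
    simp only [tk, ez]
    rw [dif_pos h3, dif_pos h2]
    have h4 : (⟨(a : ℕ), h3⟩ : Fin (c + 1)) = Fin.castSucc ⟨(a : ℕ), h2⟩ := rfl
    rw [h4, Fin.snoc_castSucc]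
  rw [h1]

theorem exists_flag' {K : Type u} [Field K] [NumberField K] {H : ℕ → ℝ}
    (hH : Tendsto H (hyperfilter ℕ : Filter ℕ) atTop) {n : ℕ} (c : ℕ) :
    ∀ E : ℕ → Fin c → Fin n → K, LinearIndependent (GK K) (GE E) →
    (∀ v ∈ Submodule.span (GK K) (Set.range (GE E)), (∀ a, sml H (v a)) → v = 0) →
    ∃ (E' : ℕ → Fin c → Fin n → K) (ε : ℝ), 0 < ε ∧ LinearIndependent (GK K) (GE E') ∧
      (∀ b, GE E' b ∈ Submodule.span (GK K) (Set.range (GE E))) ∧
      (∀ᶠ i in (hyperfilter ℕ : Filter ℕ), wh (E' i) c = logHeight (mn (E i))) ∧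
      ∀ᶠ i in (hyperfilter ℕ : Filter ℕ), ∀ b < c, ε * H i + wh (E' i) b ≤ wh (E' i) (b + 1) := by
  induction c with
  | zero =>
    intro E hE _
    refine ⟨E, 1, one_pos, hE, fun b => b.elim0, Eventually.of_forall fun i => ?_,
      Eventually.of_forall fun i b hb => absurd hb (Nat.not_lt_zero b)⟩
    rw [wh_eq, tk_ez]
  | succ c ih =>
    intro E hE h0
    obtain ⟨E₁, ε₁, hε₁, hE₁, hm₁, hinc₁⟩ := CA hH n E ((ind_GE E).1 hE) h0
    have hle₁ : Submodule.span (GK K) (Set.range (GE E₁)) ≤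
        Submodule.span (GK K) (Set.range (GE E)) := by
      rw [Submodule.span_le]
      rintro _ ⟨j, rfl⟩
      exact hm₁ j
    obtain ⟨E₂, ε₂, hε₂, hE₂, hm₂, hw₂, hinc₂⟩ := ih E₁ ((ind_GE E₁).2 hE₁)
      fun v hv hs => h0 v (hle₁ hv) hs
    have hle₂ : Submodule.span (GK K) (Set.range (GE E₂)) ≤
        Submodule.span (GK K) (Set.range (GE E)) := by
      rw [Submodule.span_le]
      rintro _ ⟨j, rfl⟩
      exact hle₁ (hm₂ j)
    obtain ⟨j₀, hj₀⟩ : ∃ j₀, GE E j₀ ∉ Submodule.span (GK K) (Set.range (GE E₂)) := by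
      by_contra hcon
      push Not at hcon
      have h1 : Submodule.span (GK K) (Set.range (GE E)) ≤
          Submodule.span (GK K) (Set.range (GE E₂)) := by
        rw [Submodule.span_le]
        rintro _ ⟨j, rfl⟩
        exact hcon j
      have h2 := Submodule.finrank_mono h1
      rw [finrank_span_eq_card hE, finrank_span_eq_card hE₂, Fintype.card_fin,
        Fintype.card_fin] at h2
      omega
    obtain ⟨E', hE'def⟩ : ∃ E' : ℕ → Fin (c + 1) → Fin n → K,
        E' = fun i => Fin.snoc (E₂ i) (E i j₀) := ⟨_, rfl⟩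
    have hG : GE E' = Fin.snoc (α := fun _ => Fin n → GK K) (GE E₂) (GE E j₀) := by
      funext b
      induction b using Fin.lastCases with
      | last =>
        rw [Fin.snoc_last]
        funext a
        change gm (fun i => E' i (Fin.last c) a) = gm fun i => E i j₀ a
        rw [hE'def]
        refine congrArg gm ?_
        funext i
        change (Fin.snoc (α := fun _ => Fin n → K) (E₂ i) (E i j₀) (Fin.last c)) a = _
        rw [Fin.snoc_last]
      | cast b =>
        rw [Fin.snoc_castSucc]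
        funext a
        change gm (fun i => E' i b.castSucc a) = gm fun i => E₂ i b a
        rw [hE'def]
        refine congrArg gm ?_
        funext i
        change (Fin.snoc (α := fun _ => Fin n → K) (E₂ i) (E i j₀) b.castSucc) a = _
        rw [Fin.snoc_castSucc]
    have hLI : LinearIndependent (GK K) (GE E') := by
      rw [hG, linearIndependent_finSnoc]
      exact ⟨hE₂, hj₀⟩
    have hmem : ∀ b, GE E' b ∈ Submodule.span (GK K) (Set.range (GE E)) := by
      intro b
      rw [hG]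
      induction b using Fin.lastCases with
      | last =>
        rw [Fin.snoc_last]
        exact Submodule.subset_span ⟨j₀, rfl⟩
      | cast b =>
        rw [Fin.snoc_castSucc]
        exact hle₂ (Submodule.subset_span ⟨b, rfl⟩)
    have hwE' : ∀ i b, b ≤ c → wh (E' i) b = wh (E₂ i) b := by
      intro i b hb
      rw [hE'def]
      exact wh_snoc (E₂ i) (E i j₀) hb
    have hwtop : ∀ᶠ i in (hyperfilter ℕ : Filter ℕ), wh (E' i) (c + 1) = logHeight (mn (E i)) := by
      filter_upwards [wh_basis E E' hE hLI hmem] with i hi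
      rw [wh_eq, tk_ez]
      exact hi
    refine ⟨E', min ε₁ ε₂, lt_min hε₁ hε₂, hLI, hmem, hwtop, ?_⟩
    have hH0 : ∀ᶠ i in (hyperfilter ℕ : Filter ℕ), 0 ≤ H i := hH.eventually_ge_atTop 0
    filter_upwards [hwtop, hinc₁, hw₂, hinc₂, hH0] with i h1 h2 h3 h4 h5 b hb
    rcases Nat.lt_succ_iff_lt_or_eq.1 hb with hb | hb
    · rw [hwE' i b hb.le, hwE' i (b + 1) hb]
      have h6 := h4 b hb
      have h7 : min ε₁ ε₂ * H i ≤ ε₂ * H i := mul_le_mul_of_nonneg_right (min_le_right _ _) h5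
      linarith
    · rw [hb, h1, hwE' i c le_rfl, h3]
      have h7 : min ε₁ ε₂ * H i ≤ ε₁ * H i := mul_le_mul_of_nonneg_right (min_le_left _ _) h5
      linarith

/-- Existence of flags with large increments in a space without vectors of small height. -/
theorem exists_flag {K : Type u} [Field K] [NumberField K] (H : ℕ → ℝ)
    (hH : Tendsto H (hyperfilter ℕ : Filter ℕ) atTop) {n c : ℕ}
    (V : Submodule (GK K) (Fin n → GK K)) (hV : Module.finrank (GK K) V = c)
    (h0 : ∀ v ∈ V, (∀ a, sml H (v a)) → v = 0) :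
    ∃ (E : ℕ → Fin c → Fin n → K) (ε : ℝ), 0 < ε ∧
      (LinearIndependent (GK K) fun (b : Fin c) (a : Fin n) => gm fun i => E i b a) ∧
      (∀ b : Fin c, (fun a : Fin n => gm fun i => E i b a) ∈ V) ∧
      ∀ᶠ i in (hyperfilter ℕ : Filter ℕ), ∀ b < c, ε * H i + wh (E i) b ≤ wh (E i) (b + 1) := by
  obtain ⟨v, hv⟩ : ∃ v : Fin c → Fin n → GK K,
      v = fun b => ((Module.finBasisOfFinrankEq (GK K) V hV b : V) : Fin n → GK K) := ⟨_, rfl⟩
  have hvV : ∀ b, v b ∈ V := by
    intro b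
    rw [hv]
    exact (Module.finBasisOfFinrankEq (GK K) V hV b).2
  have hvLI : LinearIndependent (GK K) v := by
    rw [hv]
    exact (Module.finBasisOfFinrankEq (GK K) V hV).linearIndependent.map' V.subtype
      (Submodule.ker_subtype V)
  obtain ⟨E, hE⟩ := exists_GE v
  have hle : Submodule.span (GK K) (Set.range (GE E)) ≤ V := by
    rw [hE, Submodule.span_le]
    rintro _ ⟨b, rfl⟩
    exact hvV b
  obtain ⟨E', ε, hε, hLI, hm, -, hinc⟩ := exists_flag' hH c E (by rw [hE]; exact hvLI)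
    fun w hw hs => h0 w (hle hw) hs
  exact ⟨E', ε, hε, hLI, fun b => hle (hm b), hinc⟩

end Pool.Agent.Lib.MP_17a322_nt.VA
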