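import Pool.Agent.Lib.MP_17a322_nt.VA.FA3
import Pool.Agent.Lib.MP_17a322_nt.VA.FA5
import Pool.Agent.Lib.MP_17a322_nt.VA.M20

/-!
The covectors of the equations of the Zariski closure of a germ are linearly independent, and a basis of
their span adapted to the sizes.
-/

universe u

namespace Pool.Agent.Lib.MP_17a322_nt.VA

open MvPolynomial Height Filter
open Pool.Agent.Lib.MP_17a322_nt.RO
open Pool.Agent.Lib.MP_17a322_nt.VJ
open Pool.Agent.Lib.MP_17a322_nt.VN hiding lf

/-- Linear independence of the covectors. -/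
theorem lin_w {F : Type*} [Field F] {k : Type*} [Field k] [Algebra k F] {n c : ℕ}
    (S : Fin n → F) (rr : Fin c → Fin n) (q : Fin c → MvPolynomial (Fin n) k)
    (hq1 : ∀ r r', r' ≠ r → (q r).degreeOf (rr r') = 0)
    (hq3 : ∀ r, aeval S (pderiv (rr r) (q r)) ≠ 0) (M : Matrix (Fin n) (Fin n) F)
    (hM : M.det ≠ 0) :
    LinearIndependent F fun (r : Fin c) (a : Fin n) => ∑ l, aeval S (pderiv l (q r)) * M l a := by
  rw [Fintype.linearIndependent_iff]
  intro g hg r₀
  have hx : Matrix.vecMul (fun l => ∑ r, g r * aeval S (pderiv l (q r))) M = 0 := by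
    funext a
    have h := congrFun hg a
    simp only [Finset.sum_apply, Pi.smul_apply, smul_eq_mul, Pi.zero_apply] at h
    simp only [Matrix.vecMul, dotProduct, Pi.zero_apply]
    rw [← h]
    simp only [Finset.sum_mul, Finset.mul_sum]
    rw [Finset.sum_comm]
    refine Finset.sum_congr rfl fun r _ => Finset.sum_congr rfl fun l _ => ?_
    ring
  have hx0 := Matrix.eq_zero_of_vecMul_eq_zero hM hx
  have h1 := congrFun hx0 (rr r₀)
  simp only [Pi.zero_apply] at h1
  rw [Finset.sum_eq_single r₀] at h1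
  · exact (mul_eq_zero.1 h1).resolve_right (hq3 r₀)
  · intro r _ hr
    rw [pderiv_eq_zero_of_degreeOf (hq1 r r₀ (Ne.symm hr)), map_zero, mul_zero]
  · intro h
    exact absurd (Finset.mem_univ r₀) h

theorem FA6_det {K : Type*} [Field K] {c : ℕ} (U : ℕ → Matrix (Fin c) (Fin c) K) :
    (Matrix.of fun r s => gm fun i => U i r s).det = gm fun i => (U i).det := by
  have h1 : (Matrix.of fun r s => (fun i => U i r s : ℕ → K)).det = fun i => (U i).det := by
    funext i
    have h := (Pi.evalRingHom (fun _ : ℕ => K) i).map_det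
      (Matrix.of fun r s => (fun i => U i r s : ℕ → K))
    rw [Pi.evalRingHom_apply] at h
    rw [h]
    rfl
  have h2 := (gR K).map_det (Matrix.of fun r s => (fun i => U i r s : ℕ → K))
  rw [h1, gR_apply] at h2
  rw [h2]
  rfl

theorem exists_E {K : Type u} [Field K] [NumberField K] {N : ℕ} {A : AV K N} {H : ℕ → ℝ}
    (hH : Tendsto H (hyperfilter ℕ : Filter ℕ) atTop) {n e : ℕ} (nd : Noe A n e)
    {Q : ℕ → A.Pts K} {b : A.Pts (GK K)} (hb : IsGerm A Q b) (h0 : lf (nd.l 0) (A.x b) ≠ 0)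
    (hnr : NoRat A hH b) (o : Fin (N + 1) → K) (t : Fin n → Fin (N + 1) → K) (ht : A.Frame o t)
    (Mb : Matrix (Fin n) (Fin n) (GK K)) (hMb : nd.IsDS o t b Mb) (hdet : Mb.det ≠ 0) {c : ℕ}
    (rr : Fin c → Fin n) (q : Fin c → MvPolynomial (Fin n) (k0 K H hH))
    (hq1 : ∀ r r', r' ≠ r → (q r).degreeOf (rr r') = 0) (hq2 : ∀ r, aeval (nd.s b) (q r) = 0)
    (hq3 : ∀ r, aeval (nd.s b) (pderiv (rr r) (q r)) ≠ 0) :
    ∃ (M : ℕ → Matrix (Fin n) (Fin n) K) (E : ℕ → Fin c → Fin n → K)
      (U : ℕ → Matrix (Fin c) (Fin c) K) (ε : ℝ), 0 < ε ∧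
      ∀ᶠ i in (hyperfilter ℕ : Filter ℕ), nd.IsDS o t (Q i) (M i) ∧ (U i).det ≠ 0 ∧
        (∀ b' a, E i b' a = ∑ r, U i b' r * ∑ l,
          eval (nd.s (Q i)) (pderiv l (pr (q r) i)) * M i l a) ∧
        ∀ b' < c, ε * H i + wh (E i) b' ≤ wh (E i) (b' + 1) := by
  have hlin := lin_w (nd.s b) rr q hq1 hq3 Mb hdet
  obtain ⟨w, hw⟩ : ∃ w : Fin c → Fin n → GK K,
      w = fun r a => ∑ l, aeval (nd.s b) (pderiv l (q r)) * Mb l a := ⟨_, rfl⟩
  rw [← hw] at hlin
  have hV : Module.finrank (GK K) (Submodule.span (GK K) (Set.range w)) = c := by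
    rw [finrank_span_eq_card hlin, Fintype.card_fin]
  have hsmall : ∀ v ∈ Submodule.span (GK K) (Set.range w), (∀ a, sml H (v a)) → v = 0 := by
    intro v hv hs
    have hle : Submodule.span (GK K) (Set.range w) ≤ Submodule.span (GK K)
        {x : Fin n → GK K | ∃ q : MvPolynomial (Fin n) (k0 K H hH),
            aeval (nd.s b) q = 0 ∧ x = fun a => ∑ l, aeval (nd.s b) (pderiv l q) * Mb l a} := by
      refine Submodule.span_mono ?_
      rintro _ ⟨r, rfl⟩
      exact ⟨q r, hq2 r, by rw [hw]⟩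
    have h2 := hnr n e nd h0 o t ht Mb hMb (fun a => ⟨v a, hs a⟩) (hle hv)
    funext a
    exact congrArg Subtype.val (congrFun h2 a)
  obtain ⟨E, ε, hε, hEli, hEV, hinc⟩ := exists_flag H hH _ hV hsmall
  choose u hu using fun b' => (Submodule.mem_span_range_iff_exists_fun (GK K)).1 (hEV b')
  choose U' hU' using fun b' r => exists_gm (u b' r)
  choose M' hM' using fun k a => exists_gm (Mb k a)
  have hs : (fun k => gm fun i => nd.s (Q i) k) = nd.s b := funext fun k => (s_germ nd hb k).symm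
  -- the matrices of the invariant derivations
  have hDS : ∀ᶠ i in (hyperfilter ℕ : Filter ℕ),
      nd.IsDS o t (Q i) (Matrix.of fun k a => M' k a i) := by
    obtain ⟨cc, hcc, hcb⟩ := hb
    have h2 := ((nd.isDS_iff o t b Mb).1 hMb).smul nd cc
    have e1 : (fun b' => gm fun i => A.x (Q i) b') = fun b' => cc * A.x b b' := funext hcb
    have e3 : (Matrix.of fun k a => gm fun i => (Matrix.of fun k a => M' k a i) k a) = Mb := by
      ext k a
      exact hM' k a
    have h1 : nd.DSv o t (fun b' => gm fun i => A.x (Q i) b') (fun k => gm fun i => nd.s (Q i) k)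
        (Matrix.of fun k a => gm fun i => (Matrix.of fun k a => M' k a i) k a) := by
      rw [e1, hs, e3]
      exact h2
    filter_upwards [nd.DSv_germ h1] with i hi
    exact (nd.isDS_iff o t (Q i) _).2 hi
  -- the determinants
  have hdetu : (Matrix.of u).det ≠ 0 := by
    intro h0'
    obtain ⟨g, hg0, hg⟩ := Matrix.exists_vecMul_eq_zero_iff.2 h0'
    apply hg0
    funext b'
    refine Fintype.linearIndependent_iff.1 hEli g ?_ b'
    have h1 : ∀ r, ∑ b'', g b'' * u b'' r = 0 := fun r => congrFun hg r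
    calc ∑ b'', g b'' • (fun a : Fin n => gm fun i => E i b'' a)
        = ∑ b'', g b'' • ∑ r, u b'' r • w r :=
          Finset.sum_congr rfl fun b'' _ => by rw [hu b'']
      _ = ∑ r, (∑ b'', g b'' * u b'' r) • w r := by
          simp only [Finset.smul_sum, Finset.sum_smul, smul_smul]
          rw [Finset.sum_comm]
      _ = 0 := by
          simp only [h1, zero_smul, Finset.sum_const_zero]
  have hdetU : ∀ᶠ i in (hyperfilter ℕ : Filter ℕ), (Matrix.of fun b' r => U' b' r i).det ≠ 0 := by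
    rw [← gm_ne_zero_iff, ← FA6_det]
    have e3 : (Matrix.of fun r s => gm fun i => (Matrix.of fun b' r => U' b' r i) r s) =
        Matrix.of u := by
      ext k a
      exact hU' k a
    rw [e3]
    exact hdetu
  -- the equalities
  have hpr : ∀ᶠ i in (hyperfilter ℕ : Filter ℕ), ∀ (r : Fin c) (l : Fin n),
      pr (pderiv l (q r)) i = pderiv l (pr (q r) i) :=
    eventually_all.2 fun r => eventually_all.2 fun l => pr_pderiv (q r) l
  have heq : ∀ᶠ i in (hyperfilter ℕ : Filter ℕ), ∀ (b' : Fin c) (a : Fin n),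
      E i b' a = ∑ r, U' b' r i * ∑ l, eval (nd.s (Q i)) (pr (pderiv l (q r)) i) * M' l a i := by
    refine eventually_all.2 fun b' => eventually_all.2 fun a => ?_
    rw [← gm_eq_iff]
    have h1 := congrFun (hu b') a
    rw [← h1, Finset.sum_apply, gm_sum]
    refine Finset.sum_congr rfl fun r _ => ?_
    rw [Pi.smul_apply, smul_eq_mul, gm_mul, hU', gm_sum, hw]
    congr 1
    refine Finset.sum_congr rfl fun l _ => ?_
    rw [gm_mul, gm_eval_pr, hM', hs]
  refine ⟨fun i => Matrix.of fun k a => M' k a i, E, fun i => Matrix.of fun b' r => U' b' r i, ε,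
    hε, ?_⟩
  filter_upwards [hDS, hdetU, hpr, heq, hinc] with i h1 h2 h3 h4 h5
  refine ⟨h1, h2, fun b' a => ?_, h5⟩
  rw [h4 b' a]
  refine Finset.sum_congr rfl fun r _ => ?_
  congr 1
  refine Finset.sum_congr rfl fun l _ => ?_
  rw [h3 r l]
  rfl

end Pool.Agent.Lib.MP_17a322_nt.VA
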