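import Pool.Agent.Lib.MP_17a322_nt.Mb

/-!
VA, part A (formal point): fixed points of systems `V = ℓ + G(V)` over power series, all `G b` of order
at least two.
-/

namespace Pool.Agent.Lib.MP_17a322_nt.VA

open MvPolynomial

section

variable {K ι A : Type*} [CommRing K] [CommRing A] [Algebra K A]

theorem fp_sub (P : MvPolynomial ι K) {V V' : ι → PowerSeries A} {k : ℕ}
    (h : ∀ i, (PowerSeries.X : PowerSeries A) ^ k ∣ V i - V' i) :
    (PowerSeries.X : PowerSeries A) ^ k ∣ aeval V P - aeval V' P := by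
  induction P using MvPolynomial.induction_on with
  | C a => simp
  | add p q hp hq =>
    rw [map_add, map_add, add_sub_add_comm]
    exact dvd_add hp hq
  | mul_X p i hp =>
    rw [map_mul, map_mul, aeval_X, aeval_X]
    have h1 : aeval V p * V i - aeval V' p * V' i =
        (aeval V p - aeval V' p) * V i + aeval V' p * (V i - V' i) := by ring
    rw [h1]
    exact dvd_add (hp.mul_right _) ((h i).mul_left _)

theorem fp_dvd {P : MvPolynomial ι K} (hP : P ∈ idealOfVars ι K) {V : ι → PowerSeries A}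
    (hV : ∀ i, (PowerSeries.X : PowerSeries A) ∣ V i) :
    (PowerSeries.X : PowerSeries A) ∣ aeval V P := by
  unfold idealOfVars at hP
  refine Submodule.span_induction (p := fun P _ => (PowerSeries.X : PowerSeries A) ∣ aeval V P)
    ?_ ?_ ?_ ?_ hP
  · rintro _ ⟨i, rfl⟩
    rw [aeval_X]
    exact hV i
  · rw [map_zero]
    exact dvd_zero _
  · intro p q _ _ hp hq
    rw [map_add]
    exact dvd_add hp hq
  · intro a p _ hp
    rw [smul_eq_mul, map_mul]
    exact hp.mul_left _

theorem fp_step {P : MvPolynomial ι K} (hP : P ∈ idealOfVars ι K ^ 2) {V V' : ι → PowerSeries A}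
    (hV : ∀ i, (PowerSeries.X : PowerSeries A) ∣ V i)
    (hV' : ∀ i, (PowerSeries.X : PowerSeries A) ∣ V' i) {k : ℕ}
    (h : ∀ i, (PowerSeries.X : PowerSeries A) ^ k ∣ V i - V' i) :
    (PowerSeries.X : PowerSeries A) ^ (k + 1) ∣ aeval V P - aeval V' P := by
  rw [pow_two] at hP
  refine Submodule.mul_induction_on (C := fun P => (PowerSeries.X : PowerSeries A) ^ (k + 1) ∣
    aeval V P - aeval V' P) hP ?_ ?_
  · intro p hp q hq
    rw [map_mul, map_mul]
    have h1 : aeval V p * aeval V q - aeval V' p * aeval V' q =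
        (aeval V p - aeval V' p) * aeval V q + (aeval V q - aeval V' q) * aeval V' p := by ring
    rw [h1, pow_succ]
    exact dvd_add (mul_dvd_mul (fp_sub p h) (fp_dvd hq hV))
      (mul_dvd_mul (fp_sub q h) (fp_dvd hp hV'))
  · intro p q hp hq
    rw [map_add, map_add, add_sub_add_comm]
    exact dvd_add hp hq

theorem fp_eq_of_forall {f g : PowerSeries A}
    (h : ∀ n : ℕ, (PowerSeries.X : PowerSeries A) ^ n ∣ f - g) : f = g := by
  ext k
  have := PowerSeries.X_pow_dvd_iff.mp (h (k + 1)) k (Nat.lt_succ_self k)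
  rwa [map_sub, sub_eq_zero] at this

/-- The iterates. -/
noncomputable def fpIter (ℓ : ι → PowerSeries A) (G : ι → MvPolynomial ι K) :
    ℕ → ι → PowerSeries A
  | 0 => fun _ => 0
  | k + 1 => fun b => ℓ b + aeval (fpIter ℓ G k) (G b)

variable {ℓ : ι → PowerSeries A} {G : ι → MvPolynomial ι K}

theorem fp_pow_le {P : MvPolynomial ι K} (hP : P ∈ idealOfVars ι K ^ 2) :
    P ∈ idealOfVars ι K := by
  have := Ideal.pow_le_pow_right (I := idealOfVars ι K) (show 1 ≤ 2 by norm_num) hP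
  rwa [pow_one] at this

theorem fpIter_dvd (hℓ : ∀ b, (PowerSeries.X : PowerSeries A) ∣ ℓ b)
    (hG : ∀ b, G b ∈ idealOfVars ι K ^ 2) (k : ℕ) :
    ∀ b, (PowerSeries.X : PowerSeries A) ∣ fpIter ℓ G k b := by
  induction k with
  | zero => intro b; exact dvd_zero _
  | succ k ih =>
    intro b
    exact dvd_add (hℓ b) (fp_dvd (fp_pow_le (hG b)) ih)

theorem fpIter_sub (hℓ : ∀ b, (PowerSeries.X : PowerSeries A) ∣ ℓ b)
    (hG : ∀ b, G b ∈ idealOfVars ι K ^ 2) {V : ι → PowerSeries A}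
    (hV : ∀ b, (PowerSeries.X : PowerSeries A) ∣ V b) (e : ∀ b, V b = ℓ b + aeval V (G b))
    (k : ℕ) : ∀ b, (PowerSeries.X : PowerSeries A) ^ (k + 1) ∣ V b - fpIter ℓ G k b := by
  induction k with
  | zero =>
    intro b
    rw [zero_add, pow_one]
    show _ ∣ V b - 0
    rw [sub_zero]
    exact hV b
  | succ k ih =>
    intro b
    have h1 : V b - fpIter ℓ G (k + 1) b = aeval V (G b) - aeval (fpIter ℓ G k) (G b) := by
      rw [e b]
      show ℓ b + aeval V (G b) - (ℓ b + aeval (fpIter ℓ G k) (G b)) = _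
      ring
    rw [h1]
    exact fp_step (hG b) hV (fpIter_dvd hℓ hG k) ih

/-- Uniqueness. -/
theorem fp_unique (hℓ : ∀ b, (PowerSeries.X : PowerSeries A) ∣ ℓ b)
    (hG : ∀ b, G b ∈ idealOfVars ι K ^ 2) {V V' : ι → PowerSeries A}
    (hV : ∀ b, (PowerSeries.X : PowerSeries A) ∣ V b) (e : ∀ b, V b = ℓ b + aeval V (G b))
    (hV' : ∀ b, (PowerSeries.X : PowerSeries A) ∣ V' b) (e' : ∀ b, V' b = ℓ b + aeval V' (G b)) :
    V = V' := by
  funext b
  refine fp_eq_of_forall fun n => ?_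
  have h1 := fpIter_sub hℓ hG hV e n b
  have h2 := fpIter_sub hℓ hG hV' e' n b
  have h3 : V b - V' b = (V b - fpIter ℓ G n b) - (V' b - fpIter ℓ G n b) := by ring
  rw [h3]
  exact (pow_dvd_pow _ (Nat.le_succ n)).trans (dvd_sub h1 h2)

/-- Existence. -/
theorem fp_exists (hℓ : ∀ b, (PowerSeries.X : PowerSeries A) ∣ ℓ b)
    (hG : ∀ b, G b ∈ idealOfVars ι K ^ 2) : ∃ V : ι → PowerSeries A,
      (∀ b, (PowerSeries.X : PowerSeries A) ∣ V b) ∧ ∀ b, V b = ℓ b + aeval V (G b) := by
  have hd : ∀ k b, (PowerSeries.X : PowerSeries A) ^ (k + 1) ∣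
      fpIter ℓ G (k + 1) b - fpIter ℓ G k b := by
    intro k
    induction k with
    | zero =>
      intro b
      rw [zero_add, pow_one]
      exact dvd_sub (fpIter_dvd hℓ hG _ b) (fpIter_dvd hℓ hG _ b)
    | succ k ih =>
      intro b
      have h1 : fpIter ℓ G (k + 1 + 1) b - fpIter ℓ G (k + 1) b =
          aeval (fpIter ℓ G (k + 1)) (G b) - aeval (fpIter ℓ G k) (G b) := by
        show ℓ b + aeval (fpIter ℓ G (k + 1)) (G b) - (ℓ b + aeval (fpIter ℓ G k) (G b)) = _
        ring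
      rw [h1]
      exact fp_step (hG b) (fpIter_dvd hℓ hG _) (fpIter_dvd hℓ hG _) ih
  have hst : ∀ b k n, k ≤ n → PowerSeries.coeff k (fpIter ℓ G n b) =
      PowerSeries.coeff k (fpIter ℓ G k b) := by
    intro b k n hkn
    induction n, hkn using Nat.le_induction with
    | base => rfl
    | succ n hn ih =>
      have := PowerSeries.X_pow_dvd_iff.mp (hd n b) k (by omega)
      rw [map_sub, sub_eq_zero] at this
      rw [this, ih]
  obtain ⟨V, hV⟩ : ∃ V : ι → PowerSeries A, ∀ b,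
      V b = PowerSeries.mk fun k => PowerSeries.coeff k (fpIter ℓ G k b) := ⟨_, fun _ => rfl⟩
  have hVu : ∀ n b, (PowerSeries.X : PowerSeries A) ^ (n + 1) ∣ V b - fpIter ℓ G n b := by
    intro n b
    rw [PowerSeries.X_pow_dvd_iff]
    intro k hk
    rw [map_sub, hV, PowerSeries.coeff_mk, hst b k n (by omega), sub_self]
  have hV0 : ∀ b, (PowerSeries.X : PowerSeries A) ∣ V b := by
    intro b
    have h1 := hVu 0 b
    rw [zero_add, pow_one] at h1
    have h2 : V b = V b - fpIter ℓ G 0 b + fpIter ℓ G 0 b := by ring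
    rw [h2]
    exact dvd_add h1 (fpIter_dvd hℓ hG _ b)
  refine ⟨V, hV0, fun b => fp_eq_of_forall fun n => ?_⟩
  have h1 := fp_step (hG b) hV0 (fpIter_dvd hℓ hG n) (hVu n)
  have h2 := hVu (n + 1) b
  have h3 : V b - (ℓ b + aeval V (G b)) = (V b - fpIter ℓ G (n + 1) b) -
      (aeval V (G b) - aeval (fpIter ℓ G n) (G b)) := by
    show _ = (V b - (ℓ b + aeval (fpIter ℓ G n) (G b))) -
      (aeval V (G b) - aeval (fpIter ℓ G n) (G b))
    ring
  rw [h3]
  exact (pow_dvd_pow _ (by omega)).trans (dvd_sub h2 h1)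

end

end Pool.Agent.Lib.MP_17a322_nt.VA
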