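import Pool.Agent.Lib.MP_17a322_nt.VA.FP1
import Pool.Agent.Lib.MP_17a322_nt.VN.L1c
import Pool.Agent.Lib.MP_17a322_nt.VJ.A3

/-!
VA, part A (formal point): sizes of the fixed points.
-/

namespace Pool.Agent.Lib.MP_17a322_nt.VA

open MvPolynomial
open Pool.Agent.Lib.MP_17a322_nt.VJ
open Pool.Agent.Lib.MP_17a322_nt.VN

section

variable {K L : Type*} [Field K] [Field L] [Algebra K L] {v : AbsoluteValue L ℝ}

theorem fp_aeval_le {R : Type*} [CommRing R] [Algebra L R] [Algebra K R] [IsScalarTower K L R]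
    {μ : R → ℝ} (h : SN v μ) {ι : Type*} [Fintype ι] {P : MvPolynomial ι K}
    (hP : P ∈ idealOfVars ι K ^ 2) {ξ : ι → R} {ρ : ℝ} (h0 : 0 ≤ ρ) (h1 : ρ ≤ 1)
    (hξ : ∀ i, μ (ξ i) ≤ ρ) :
    μ (aeval ξ P) ≤ NV v (MvPolynomial.map (algebraMap K L) P) * ρ ^ 2 := by
  have hP' : ∀ m ∈ (MvPolynomial.map (algebraMap K L) P).support, 2 ≤ m.degree := fun m hm =>
    (mem_pow_idealOfVars_iff 2 P).mp hP m (support_map_subset _ _ hm)
  rw [← aeval_map_algebraMap L ξ P]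
  obtain ⟨F, hF⟩ : ∃ F, F = MvPolynomial.map (algebraMap K L) P := ⟨_, rfl⟩
  rw [← hF] at hP' ⊢
  have hρ : 0 ≤ ρ ^ 2 := pow_nonneg h0 2
  have hterm : ∀ m ∈ F.support,
      μ (algebraMap L R (coeff m F) * ∏ t, ξ t ^ m t) ≤ v (coeff m F) * ρ ^ 2 := by
    intro m hm
    refine (h.mul _ _).trans ?_
    refine mul_le_mul (h.map _) ?_ (h.nonneg _) (v.nonneg _)
    refine (h.prod_le _ _).trans ?_
    have h2 : ∏ t, μ (ξ t ^ m t) ≤ ∏ t, ρ ^ m t := by
      refine Finset.prod_le_prod (fun t _ => h.nonneg _) fun t _ => ?_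
      exact (h.pow_le _ _).trans (pow_le_pow_left₀ (h.nonneg _) (hξ t) _)
    refine h2.trans ?_
    rw [Finset.prod_pow_eq_pow_sum]
    have h3 : ∑ t, m t = m.degree := by
      rw [Finsupp.degree_eq_sum]
    rw [h3]
    exact pow_le_pow_of_le_one h0 h1 (hP' m hm)
  rw [aeval_def, eval₂_eq']
  by_cases hv : IsNonarchimedean v
  · refine SN.sum_le_max hv h _ _ (mul_nonneg ((v.nonneg _).trans (coeff_le_NV v F 0)) hρ)
      fun m hm => ?_
    exact (hterm m hm).trans (mul_le_mul_of_nonneg_right (coeff_le_NV v F m) hρ)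
  · refine (h.sum_le_sum _ _).trans ?_
    refine (Finset.sum_le_sum hterm).trans (le_of_eq ?_)
    rw [← Finset.sum_mul]
    congr 1
    unfold NV
    rw [if_neg hv]

theorem fp_add_le {R : Type*} [CommRing R] [Algebra L R] {μ : R → ℝ} (h : SN v μ) {a b : R}
    {B : ℝ} (ha : μ a ≤ B) (hb : μ b ≤ B) : μ (a + b) ≤ cst v 2 * B := by
  by_cases hv : IsNonarchimedean v
  · rw [cst, if_pos hv, one_mul]
    exact (h.add_max hv a b).trans (max_le ha hb)
  · rw [cst, if_neg hv]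
    refine (h.add a b).trans ?_
    push_cast
    linarith

theorem PA_congr {A : Type*} [CommRing A] (ν : A → ℝ) (r : ℝ) {n : ℕ} {f g : PowerSeries A}
    (h : ∀ k ≤ n, PowerSeries.coeff k f = PowerSeries.coeff k g) : PA v ν r n f = PA v ν r n g := by
  have h1 : (fun k : Fin (n + 1) => ν (PowerSeries.coeff (k : ℕ) f) * r ^ (k : ℕ)) =
      fun k : Fin (n + 1) => ν (PowerSeries.coeff (k : ℕ) g) * r ^ (k : ℕ) := by
    funext k
    rw [h k (Nat.lt_succ_iff.mp k.2)]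
  unfold PA
  rw [h1]

theorem fp_size {A : Type*} [CommRing A] [Algebra L A] [Algebra K A] [IsScalarTower K L A]
    {ν : A → ℝ} (h : SN v ν) {ι : Type*} [Fintype ι] {G : ι → MvPolynomial ι K}
    (hG : ∀ b, G b ∈ idealOfVars ι K ^ 2) {c : ℝ} (hc : 1 ≤ c) (h2 : cst v 2 ≤ c)
    (hcG : ∀ b, NV v (MvPolynomial.map (algebraMap K L) (G b)) ≤ c) {g : ι → A}
    (hg : ∀ b, ν (g b) ≤ c) {V : ι → PowerSeries A}
    (hV : ∀ b, (PowerSeries.X : PowerSeries A) ∣ V b)
    (e : ∀ b, V b = PowerSeries.X * PowerSeries.C (g b) + aeval V (G b)) (b : ι) (k : ℕ) :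
    ν (PowerSeries.coeff k (V b)) ≤ (c ^ 4) ^ k := by
  have hc0 : 0 < c := one_pos.trans_le hc
  obtain ⟨r, hr⟩ : ∃ r : ℝ, r = (c ^ 4)⁻¹ := ⟨_, rfl⟩
  obtain ⟨ρ, hρ⟩ : ∃ ρ : ℝ, ρ = (c ^ 2)⁻¹ := ⟨_, rfl⟩
  have hr0 : 0 ≤ r := by rw [hr]; positivity
  have hρ0 : 0 ≤ ρ := by rw [hρ]; positivity
  have hρ1 : ρ ≤ 1 := by rw [hρ]; exact inv_le_one_of_one_le₀ (one_le_pow₀ hc)
  have hμ : SN v (fun f : PowerSeries A => PA v ν r k f) := SN_PA h hr0 k
  have hℓ : ∀ b, (PowerSeries.X : PowerSeries A) ∣ PowerSeries.X * PowerSeries.C (g b) :=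
    fun b => dvd_mul_right _ _
  have hit : ∀ q b, PA v ν r k (fpIter (fun b => PowerSeries.X * PowerSeries.C (g b)) G q b) ≤
      ρ := by
    intro q
    induction q with
    | zero =>
      intro b
      have h3 : PA v ν r k (0 : PowerSeries A) = 0 := hμ.zero
      show PA v ν r k (0 : PowerSeries A) ≤ ρ
      rw [h3]
      exact hρ0
    | succ q ih =>
      intro b
      have h3 : PA v ν r k (PowerSeries.X * PowerSeries.C (g b)) ≤ (c ^ 3)⁻¹ := by
        refine (hμ.mul _ _).trans ?_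
        show PA v ν r k PowerSeries.X * PA v ν r k (PowerSeries.C (g b)) ≤ _
        rw [PA_C h]
        refine (mul_le_mul (PA_X_le h hr0 k) (hg b) (h.nonneg _) hr0).trans (le_of_eq ?_)
        rw [hr]
        field_simp
      have h4 : PA v ν r k (aeval (fpIter (fun b => PowerSeries.X * PowerSeries.C (g b)) G q)
          (G b)) ≤ (c ^ 3)⁻¹ := by
        refine (fp_aeval_le hμ (hG b) hρ0 hρ1 ih).trans ?_
        refine (mul_le_mul_of_nonneg_right (hcG b) (pow_nonneg hρ0 2)).trans (le_of_eq ?_)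
        rw [hρ]
        field_simp
      refine (fp_add_le hμ h3 h4).trans ?_
      refine (mul_le_mul_of_nonneg_right h2 (by positivity)).trans (le_of_eq ?_)
      rw [hρ]
      field_simp
  have h5 : PA v ν r k (V b) ≤ ρ := by
    rw [PA_congr ν r (g := fpIter (fun b => PowerSeries.X * PowerSeries.C (g b)) G k b)
      fun j hj => ?_]
    · exact hit k b
    · have h6 := PowerSeries.X_pow_dvd_iff.mp (fpIter_sub hℓ hG hV e k b) j (by omega)
      rwa [map_sub, sub_eq_zero] at h6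
  have h7 := PA_coeff_le h hr0 (le_refl k) (V b)
  have h8 : ν (PowerSeries.coeff k (V b)) * r ^ k ≤ 1 := h7.trans (h5.trans hρ1)
  have h9 : (0 : ℝ) < (c ^ 4) ^ k := by positivity
  have h10 : r ^ k = ((c ^ 4) ^ k)⁻¹ := by rw [hr, inv_pow]
  rw [h10, ← div_eq_mul_inv, div_le_one h9] at h8
  exact h8

end

end Pool.Agent.Lib.MP_17a322_nt.VA
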