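import Pool.Agent.Lib.MP_17a322_nt.VA.FP2

/-!
VA, part A (formal point): from power series over polynomials to power series in several variables.
-/

namespace Pool.Agent.Lib.MP_17a322_nt.VA

open MvPolynomial
open Pool.Agent.Lib.MP_17a322_nt.VJ
open Pool.Agent.Lib.MP_17a322_nt.VN

section

variable {K B : Type*} [CommRing K] [CommRing B] [Algebra K B] {n : ℕ}

theorem fp_hasSubst {φ : Fin n → PowerSeries B} (hφ : ∀ a, (PowerSeries.X : PowerSeries B) ∣ φ a) :
    MvPowerSeries.HasSubst (fun a => (φ a : MvPowerSeries Unit B)) :=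
  MvPowerSeries.hasSubst_of_constantCoeff_zero fun a => PowerSeries.X_dvd_iff.mp (hφ a)

/-- The substitution of `φ`. -/
noncomputable def fpS {φ : Fin n → PowerSeries B}
    (hφ : ∀ a, (PowerSeries.X : PowerSeries B) ∣ φ a) :
    MvPowerSeries (Fin n) K →ₐ[K] PowerSeries B :=
  MvPowerSeries.substAlgHom (fp_hasSubst hφ)

theorem fpS_X {φ : Fin n → PowerSeries B} (hφ : ∀ a, (PowerSeries.X : PowerSeries B) ∣ φ a)
    (a : Fin n) : fpS (K := K) hφ (MvPowerSeries.X a) = φ a :=
  MvPowerSeries.substAlgHom_X (fp_hasSubst hφ) a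

theorem fp_prod {φ : Fin n → PowerSeries B} (hφ : ∀ a, (PowerSeries.X : PowerSeries B) ∣ φ a)
    (d : Fin n →₀ ℕ) : ∃ W : PowerSeries B, (d.prod fun s e => φ s ^ e) =
      PowerSeries.X ^ d.degree * W ∧
      PowerSeries.constantCoeff W = d.prod fun s e => PowerSeries.coeff 1 (φ s) ^ e := by
  choose ψ hψ using hφ
  refine ⟨d.prod fun s e => ψ s ^ e, ?_, ?_⟩
  · have h1 : (d.prod fun s e => φ s ^ e) = ∏ s ∈ d.support, (PowerSeries.X ^ d s * ψ s ^ d s) := by
      refine Finset.prod_congr rfl fun s _ => ?_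
      show φ s ^ d s = _
      rw [hψ s, mul_pow]
    rw [h1, Finset.prod_mul_distrib, Finset.prod_pow_eq_pow_sum]
    rfl
  · rw [Finsupp.prod, Finsupp.prod, map_prod]
    refine Finset.prod_congr rfl fun s _ => ?_
    rw [map_pow]
    congr 1
    rw [hψ s, ← PowerSeries.coeff_zero_eq_constantCoeff_apply, ← PowerSeries.coeff_succ_X_mul]

theorem coeff_fpS_eq {φ : Fin n → PowerSeries B}
    (hφ : ∀ a, (PowerSeries.X : PowerSeries B) ∣ φ a) (f : MvPowerSeries (Fin n) K) (k : ℕ) :
    PowerSeries.coeff k (fpS hφ f) = ∑ᶠ d : Fin n →₀ ℕ,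
      MvPowerSeries.coeff d f • PowerSeries.coeff k (d.prod fun s e => φ s ^ e) := by
  have h1 := MvPowerSeries.coeff_subst (fp_hasSubst hφ) f (Finsupp.single () k)
  have h2 : fpS hφ f = MvPowerSeries.subst (fun a => (φ a : MvPowerSeries Unit B)) f := by
    unfold fpS
    rw [MvPowerSeries.coe_substAlgHom]
  rw [h2]
  exact h1

/-- The polynomial part of degree `k`. -/
noncomputable def fpD (f : MvPowerSeries (Fin n) K) (k : ℕ) : MvPolynomial (Fin n) K :=
  ∑ d ∈ Finset.univ.finsuppAntidiag k, MvPolynomial.monomial d (MvPowerSeries.coeff d f)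

theorem fp_mem_antidiag {k : ℕ} {d : Fin n →₀ ℕ} :
    d ∈ (Finset.univ : Finset (Fin n)).finsuppAntidiag k ↔ d.degree = k := by
  rw [Finset.mem_finsuppAntidiag, Finsupp.degree_eq_sum]
  simp

theorem coeff_fpD (f : MvPowerSeries (Fin n) K) (k : ℕ) (d : Fin n →₀ ℕ) :
    MvPolynomial.coeff d (fpD f k) = if d.degree = k then MvPowerSeries.coeff d f else 0 := by
  classical
  unfold fpD
  rw [MvPolynomial.coeff_sum]
  simp only [MvPolynomial.coeff_monomial]
  rw [Finset.sum_ite_eq' _ d fun d => MvPowerSeries.coeff d f]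
  simp only [fp_mem_antidiag]

theorem coeff_fpS {φ : Fin n → PowerSeries B}
    (hφ : ∀ a, (PowerSeries.X : PowerSeries B) ∣ φ a) (f : MvPowerSeries (Fin n) K) (k : ℕ)
    (hf : ∀ d : Fin n →₀ ℕ, d.degree < k → MvPowerSeries.coeff d f = 0) :
    PowerSeries.coeff k (fpS hφ f) =
      aeval (fun a => PowerSeries.coeff 1 (φ a)) (fpD f k) := by
  have h1 : ∀ d : Fin n →₀ ℕ, MvPowerSeries.coeff d f •
      PowerSeries.coeff k (d.prod fun s e => φ s ^ e) =
      if d.degree = k then MvPowerSeries.coeff d f •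
        (d.prod fun s e => PowerSeries.coeff 1 (φ s) ^ e) else 0 := by
    intro d
    obtain ⟨W, hW, hW'⟩ := fp_prod hφ d
    rw [hW]
    split_ifs with hd
    · rw [← hW', hd, ← PowerSeries.coeff_zero_eq_constantCoeff_apply]
      have := PowerSeries.coeff_X_pow_mul W k 0
      rw [zero_add] at this
      rw [this]
    · rcases lt_or_gt_of_ne hd with h | h
      · rw [hf d h, zero_smul]
      · rw [PowerSeries.coeff_X_pow_mul', if_neg (by omega), smul_zero]
  rw [coeff_fpS_eq, finsum_congr h1, finsum_eq_sum_of_support_subset (s :=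
    (Finset.univ : Finset (Fin n)).finsuppAntidiag k)]
  · unfold fpD
    rw [map_sum]
    refine Finset.sum_congr rfl fun d hd => ?_
    rw [if_pos (fp_mem_antidiag.mp hd), aeval_monomial, Algebra.smul_def]
  · intro d hd
    rw [Function.mem_support] at hd
    rw [Finset.mem_coe, fp_mem_antidiag]
    by_contra h
    exact hd (if_neg h)

theorem fpS_injective {φ : Fin n → PowerSeries B}
    (hφ : ∀ a, (PowerSeries.X : PowerSeries B) ∣ φ a)
    (hinj : Function.Injective (aeval (fun a => PowerSeries.coeff 1 (φ a)) :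
      MvPolynomial (Fin n) K →ₐ[K] B)) {f : MvPowerSeries (Fin n) K} (h : fpS hφ f = 0) : f = 0 := by
  have key : ∀ k : ℕ, ∀ d : Fin n →₀ ℕ, d.degree = k → MvPowerSeries.coeff d f = 0 := by
    intro k
    induction k using Nat.strong_induction_on with
    | _ k ih =>
      intro d hd
      have h1 := coeff_fpS hφ f k fun d' hd' => ih _ hd' d' rfl
      rw [h, map_zero] at h1
      have h2 : fpD f k = 0 := hinj (by rw [map_zero]; exact h1.symm)
      have h3 := coeff_fpD f k d
      rw [h2, if_pos hd, MvPolynomial.coeff_zero] at h3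
      exact h3.symm
  ext d
  rw [map_zero]
  exact key _ d rfl

end

section

variable {K : Type*} [CommRing K] {n : ℕ}

/-- The variables as series. -/
noncomputable def fpX (K : Type*) [CommRing K] (n : ℕ) (a : Fin n) :
    PowerSeries (MvPolynomial (Fin n) K) :=
  PowerSeries.X * PowerSeries.C (X a)

theorem fpX_dvd (a : Fin n) : (PowerSeries.X : PowerSeries (MvPolynomial (Fin n) K)) ∣ fpX K n a :=
  dvd_mul_right _ _

theorem fpX_prod (d : Fin n →₀ ℕ) : (d.prod fun s e => fpX K n s ^ e) =
    PowerSeries.X ^ d.degree * PowerSeries.C (monomial d 1) := by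
  have h1 : (d.prod fun s e => fpX K n s ^ e) = ∏ s ∈ d.support,
      (PowerSeries.X ^ d s * PowerSeries.C (X s ^ d s)) := by
    refine Finset.prod_congr rfl fun s _ => ?_
    show (PowerSeries.X * PowerSeries.C (X s)) ^ d s = _
    rw [mul_pow, map_pow]
  rw [h1, Finset.prod_mul_distrib, Finset.prod_pow_eq_pow_sum, ← map_prod]
  congr 2
  rw [monomial_eq, map_one, one_mul]
  rfl

theorem coeff_fpS_fpX (f : MvPowerSeries (Fin n) K) (k : ℕ) :
    PowerSeries.coeff k (fpS (K := K) (fpX_dvd (K := K) (n := n)) f) = fpD f k := by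
  have h1 : ∀ d : Fin n →₀ ℕ, MvPowerSeries.coeff d f •
      PowerSeries.coeff k (d.prod fun s e => fpX K n s ^ e) =
      if d.degree = k then monomial d (MvPowerSeries.coeff d f) else 0 := by
    intro d
    rw [fpX_prod]
    split_ifs with hd
    · rw [hd]
      have := PowerSeries.coeff_X_pow_mul (PowerSeries.C (monomial d (1 : K))) k 0
      rw [zero_add] at this
      rw [this, PowerSeries.coeff_zero_C, smul_monomial, smul_eq_mul, mul_one]
    · rw [PowerSeries.coeff_X_pow_mul', PowerSeries.coeff_C]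
      split_ifs with h2 h3
      · omega
      · rw [smul_zero]
      · rw [smul_zero]
  rw [coeff_fpS_eq, finsum_congr h1, finsum_eq_sum_of_support_subset (s :=
    (Finset.univ : Finset (Fin n)).finsuppAntidiag k)]
  · unfold fpD
    refine Finset.sum_congr rfl fun d hd => ?_
    rw [if_pos (fp_mem_antidiag.mp hd)]
  · intro d hd
    rw [Function.mem_support] at hd
    rw [Finset.mem_coe, fp_mem_antidiag]
    by_contra h
    exact hd (if_neg h)

theorem fpS_fpX_injective {f g : MvPowerSeries (Fin n) K}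
    (h : fpS (K := K) (fpX_dvd (K := K) (n := n)) f = fpS (fpX_dvd (K := K) (n := n)) g) : f = g := by
  ext d
  have h1 := congrArg (PowerSeries.coeff d.degree) h
  rw [coeff_fpS_fpX, coeff_fpS_fpX] at h1
  have h2 := congrArg (MvPolynomial.coeff d) h1
  rwa [coeff_fpD, coeff_fpD, if_pos rfl, if_pos rfl] at h2

/-- The series whose coefficient of degree `k` is homogeneous of degree `k`. -/
def fpH (K : Type*) [CommRing K] (n : ℕ) : Subalgebra K (PowerSeries (MvPolynomial (Fin n) K)) where
  carrier := {f | ∀ k, (PowerSeries.coeff k f).IsHomogeneous k}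
  mul_mem' := by
    intro f g hf hg k
    rw [PowerSeries.coeff_mul]
    refine IsHomogeneous.sum _ _ _ fun p hp => ?_
    have := (hf p.1).mul (hg p.2)
    rwa [Finset.HasAntidiagonal.mem_antidiagonal.mp hp] at this
  add_mem' := by
    intro f g hf hg k
    rw [map_add]
    exact (hf k).add (hg k)
  algebraMap_mem' := by
    intro c k
    rw [PowerSeries.algebraMap_apply, MvPolynomial.algebraMap_eq, PowerSeries.coeff_C]
    split_ifs with h
    · rw [h]
      exact isHomogeneous_C _ _
    · exact isHomogeneous_zero _ _ _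

theorem fpX_mem (a : Fin n) : fpX K n a ∈ fpH K n := by
  intro k
  unfold fpX
  rw [PowerSeries.coeff_mul_C, PowerSeries.coeff_X]
  split_ifs with h
  · rw [h, one_mul]
    exact isHomogeneous_X _ _
  · rw [zero_mul]
    exact isHomogeneous_zero _ _ _

theorem fp_aeval_mem {ι : Type*} (P : MvPolynomial ι K)
    {V : ι → PowerSeries (MvPolynomial (Fin n) K)} (hV : ∀ i, V i ∈ fpH K n) :
    aeval V P ∈ fpH K n := by
  induction P using MvPolynomial.induction_on with
  | C a => rw [aeval_C]; exact (fpH K n).algebraMap_mem a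
  | add p q hp hq => rw [map_add]; exact (fpH K n).add_mem hp hq
  | mul_X p i hp => rw [map_mul, aeval_X]; exact (fpH K n).mul_mem hp (hV i)

/-- The series in several variables. -/
noncomputable def fpMv (f : PowerSeries (MvPolynomial (Fin n) K)) : MvPowerSeries (Fin n) K :=
  fun d => MvPolynomial.coeff d (PowerSeries.coeff d.degree f)

theorem fpS_fpMv {f : PowerSeries (MvPolynomial (Fin n) K)} (hf : f ∈ fpH K n) :
    fpS (K := K) (fpX_dvd (K := K) (n := n)) (fpMv f) = f := by
  ext k d
  rw [coeff_fpS_fpX, coeff_fpD]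
  split_ifs with h
  · rw [← h]
    rfl
  · exact ((hf k).coeff_eq_zero h).symm

end

end Pool.Agent.Lib.MP_17a322_nt.VA
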