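import Pool.Agent.Lib.MP_17a322_nt.VA.T1

/-!
VA, part A (formal point): the formal neighbourhood of a good point.
-/

universe u

namespace Pool.Agent.Lib.MP_17a322_nt.VA

open MvPolynomial

section

private theorem fp5_sub {D : Type*} [CommRing D] (f : Polynomial (PowerSeries D))
    (U V : PowerSeries D) (hU : PowerSeries.constantCoeff U = 0)
    (hV : PowerSeries.constantCoeff V = 0) :
    ∃ w : PowerSeries D, f.eval U - f.eval V = (U - V) * w ∧
      PowerSeries.constantCoeff w = PowerSeries.constantCoeff (f.coeff 1) := by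
  have h1 : ∀ Z : PowerSeries D, f.eval Z = f.coeff 0 + Z * (f.coeff 1 + Z * f.divX.divX.eval Z) := by
    intro Z
    have e1 := congrArg (Polynomial.eval Z) (Polynomial.divX_mul_X_add f)
    have e2 := congrArg (Polynomial.eval Z) (Polynomial.divX_mul_X_add f.divX)
    simp only [Polynomial.eval_add, Polynomial.eval_mul, Polynomial.eval_X, Polynomial.eval_C,
      Polynomial.coeff_divX] at e1 e2
    rw [← e1, ← e2]
    ring
  obtain ⟨z, hz⟩ := Polynomial.sub_dvd_eval_sub U V f.divX.divX
  refine ⟨f.coeff 1 + (U + V) * f.divX.divX.eval U + V ^ 2 * z, ?_, ?_⟩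
  · rw [h1 U, h1 V]
    have : f.divX.divX.eval U = f.divX.divX.eval V + (U - V) * z := by rw [← hz]; ring
    rw [this]
    ring
  · simp [hU, hV]

/-- Hensel's lemma for power series over a ring. -/
theorem fp_hensel {D : Type*} [CommRing D] (f : Polynomial (PowerSeries D))
    (h0 : PowerSeries.constantCoeff (f.coeff 0) = 0)
    (h1 : IsUnit (PowerSeries.constantCoeff (f.coeff 1))) :
    ∃ U : PowerSeries D, PowerSeries.constantCoeff U = 0 ∧ f.eval U = 0 := by
  obtain ⟨b, hb⟩ := h1.exists_right_inv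
  set a : D := PowerSeries.constantCoeff (f.coeff 1) with ha
  have hb' : b * a = 1 := by rw [mul_comm]; exact hb
  have hc : ∀ Z : PowerSeries D, PowerSeries.constantCoeff Z = 0 →
      PowerSeries.constantCoeff (f.eval Z) = 0 := by
    intro Z hZ
    have e1 := congrArg (Polynomial.eval Z) (Polynomial.divX_mul_X_add f)
    simp only [Polynomial.eval_add, Polynomial.eval_mul, Polynomial.eval_X, Polynomial.eval_C] at e1
    rw [← e1]
    simp [hZ, h0]
  let Φ : PowerSeries D → PowerSeries D := fun Z => Z - PowerSeries.C b * f.eval Z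
  have hΦ0 : ∀ Z : PowerSeries D, PowerSeries.constantCoeff Z = 0 →
      PowerSeries.constantCoeff (Φ Z) = 0 := by
    intro Z hZ
    simp [Φ, hZ, hc Z hZ]
  have hΦ : ∀ U V : PowerSeries D, PowerSeries.constantCoeff U = 0 →
      PowerSeries.constantCoeff V = 0 → ∀ n : ℕ, (PowerSeries.X : PowerSeries D) ^ n ∣ U - V →
      (PowerSeries.X : PowerSeries D) ^ (n + 1) ∣ Φ U - Φ V := by
    intro U V hU hV n hn
    obtain ⟨w, hw, hw1⟩ := fp5_sub f U V hU hV
    have e : Φ U - Φ V = (U - V) * (1 - PowerSeries.C b * w) := by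
      simp only [Φ]
      linear_combination (-PowerSeries.C b) * hw
    rw [e, pow_succ]
    apply mul_dvd_mul hn
    rw [PowerSeries.X_dvd_iff]
    simp [hw1, ← ha, hb']
  let u : ℕ → PowerSeries D := fun n => Φ^[n] 0
  have hu1 : ∀ n, u (n + 1) = Φ (u n) := fun n => Function.iterate_succ_apply' _ _ _
  have hu0 : ∀ n, PowerSeries.constantCoeff (u n) = 0 := by
    intro n
    induction n with
    | zero => simp [u]
    | succ n ih => rw [hu1]; exact hΦ0 _ ih
  have hd : ∀ n, (PowerSeries.X : PowerSeries D) ^ (n + 1) ∣ u (n + 1) - u n := by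
    intro n
    induction n with
    | zero =>
      rw [zero_add, pow_one, PowerSeries.X_dvd_iff]
      simp [hu0]
    | succ n ih =>
      rw [hu1 (n + 1), hu1 n]
      rw [hu1 n] at ih
      exact hΦ _ _ (hΦ0 _ (hu0 n)) (hu0 n) (n + 1) ih
  have hst : ∀ k n, k ≤ n → PowerSeries.coeff k (u n) = PowerSeries.coeff k (u k) := by
    intro k n hkn
    induction n, hkn using Nat.le_induction with
    | base => rfl
    | succ n hn ih =>
      have := PowerSeries.X_pow_dvd_iff.mp (hd n) k (by omega)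
      rw [map_sub, sub_eq_zero] at this
      rw [this, ih]
  let U : PowerSeries D := PowerSeries.mk fun k => PowerSeries.coeff k (u k)
  have hUu : ∀ n, (PowerSeries.X : PowerSeries D) ^ (n + 1) ∣ U - u n := by
    intro n
    rw [PowerSeries.X_pow_dvd_iff]
    intro k hk
    rw [map_sub, PowerSeries.coeff_mk, hst k n (by omega), sub_self]
  have hU0 : PowerSeries.constantCoeff U = 0 := by
    rw [← PowerSeries.coeff_zero_eq_constantCoeff_apply, PowerSeries.coeff_mk,
      PowerSeries.coeff_zero_eq_constantCoeff_apply]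
    exact hu0 0
  have hfin : ∀ n : ℕ, (PowerSeries.X : PowerSeries D) ^ (n + 1) ∣ f.eval U := by
    intro n
    obtain ⟨w, hw, -⟩ := fp5_sub f U (u n) hU0 (hu0 n)
    have h2 : f.eval (u n) = PowerSeries.C a * (u n - u (n + 1)) := by
      rw [hu1]
      simp only [Φ]
      have : PowerSeries.C a * PowerSeries.C b = (1 : PowerSeries D) := by
        rw [← map_mul, hb, map_one]
      linear_combination (-(f.eval (u n))) * this
    have h3 : f.eval U = (U - u n) * w + PowerSeries.C a * (u n - u (n + 1)) := by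
      rw [← h2, ← hw]; ring
    rw [h3]
    apply dvd_add
    · exact Dvd.dvd.mul_right (hUu n) w
    · apply Dvd.dvd.mul_left
      rw [← neg_sub]
      exact (dvd_neg.mpr (hd n))
  refine ⟨U, hU0, ?_⟩
  ext k
  rw [map_zero]
  exact PowerSeries.X_pow_dvd_iff.mp (hfin k) k (Nat.lt_succ_self k)

end

section

variable {K : Type u} [Field K] {N : ℕ} {A : AV K N}

/-- The formal neighbourhood of a good point. -/
theorem fp_lift {n e : ℕ} (nd : Noe A n e) {M : Type u} [Field M] [Algebra K M]
    {y0 : Fin (N + 1) → M} (hy0 : A.IsPt y0) (h1 : lf (nd.l 0) y0 = 1)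
    (hδ : aeval (fun k : Fin n => lf (nd.l k.succ) y0) nd.δ ≠ 0) :
    ∃ y : Fin (N + 1) → PowerSeries (MvPolynomial (Fin n) M), A.IsPt y ∧ lf (nd.l 0) y = 1 ∧
      (∀ k : Fin n, lf (nd.l k.succ) y = PowerSeries.C (C (lf (nd.l k.succ) y0)) +
        PowerSeries.X * PowerSeries.C (X k)) ∧
      ∀ b, PowerSeries.constantCoeff (y b) = C (y0 b) := by
  obtain ⟨s0, hs0⟩ : ∃ s0 : Fin n → M, s0 = fun k => lf (nd.l k.succ) y0 := ⟨_, rfl⟩
  obtain ⟨S, hS⟩ : ∃ S : Fin n → PowerSeries (MvPolynomial (Fin n) M), S = fun k =>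
      PowerSeries.C (C (s0 k)) + PowerSeries.X * PowerSeries.C (X k) := ⟨_, rfl⟩
  obtain ⟨θ0, hθ0⟩ : ∃ θ0 : M, θ0 = aeval y0 nd.θ := ⟨_, rfl⟩
  -- constant coefficients
  let cc : PowerSeries (MvPolynomial (Fin n) M) →ₐ[K] MvPolynomial (Fin n) M :=
    { PowerSeries.constantCoeff (R := MvPolynomial (Fin n) M) with
      commutes' := fun r => by
        show PowerSeries.constantCoeff (algebraMap K (PowerSeries (MvPolynomial (Fin n) M)) r) = _
        rw [PowerSeries.algebraMap_apply, PowerSeries.constantCoeff_C] }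
  have hcc : ∀ f, cc f = PowerSeries.constantCoeff f := fun _ => rfl
  let ι : M →ₐ[K] MvPolynomial (Fin n) M := IsScalarTower.toAlgHom K M (MvPolynomial (Fin n) M)
  have hι : ∀ x, ι x = C x := fun _ => rfl
  have hcS : ∀ k, cc (S k) = ι (s0 k) := by
    intro k
    rw [hcc, hS, hι]
    simp
  have hcomp : cc.toRingHom.comp (aeval (R := K) S).toRingHom =
      ι.toRingHom.comp (aeval (R := K) s0).toRingHom := by
    have h2 : cc.comp (aeval S : MvPolynomial (Fin n) K →ₐ[K] _) = ι.comp (aeval s0) := by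
      apply MvPolynomial.algHom_ext
      intro i
      rw [AlgHom.comp_apply, AlgHom.comp_apply, aeval_X, aeval_X, hcS]
    exact congrArg AlgHom.toRingHom h2
  have hev : ∀ (Ψ : Polynomial (MvPolynomial (Fin n) K)) (x : PowerSeries (MvPolynomial (Fin n) M))
      (x0 : M), PowerSeries.constantCoeff x = C x0 →
      PowerSeries.constantCoeff (Ψ.eval₂ (aeval (R := K) S).toRingHom x) =
        C (Ψ.eval₂ (aeval (R := K) s0).toRingHom x0) := by
    intro Ψ x x0 hx
    have h2 := Polynomial.hom_eval₂ Ψ (aeval (R := K) S).toRingHom cc.toRingHom x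
    have h3 := Polynomial.hom_eval₂ Ψ (aeval (R := K) s0).toRingHom ι.toRingHom x0
    rw [hcomp] at h2
    have h4 : cc.toRingHom x = ι.toRingHom x0 := hx
    rw [h4] at h2
    exact h2.trans h3.symm
  have haev : ∀ q : MvPolynomial (Fin n) K,
      PowerSeries.constantCoeff (aeval S q) = C (aeval s0 q) := fun q =>
    RingHom.congr_fun hcomp q
  -- Hensel
  obtain ⟨θc, hθc⟩ : ∃ θc : PowerSeries (MvPolynomial (Fin n) M), θc = PowerSeries.C (C θ0) :=
    ⟨_, rfl⟩
  have hθcc : PowerSeries.constantCoeff θc = C θ0 := by rw [hθc, PowerSeries.constantCoeff_C]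
  obtain ⟨f, hf⟩ : ∃ f : Polynomial (PowerSeries (MvPolynomial (Fin n) M)),
      f = (nd.Φ.map (aeval (R := K) S).toRingHom).comp (Polynomial.X + Polynomial.C θc) :=
    ⟨_, rfl⟩
  have hfe : ∀ U, f.eval U = nd.Φ.eval₂ (aeval (R := K) S).toRingHom (U + θc) := by
    intro U
    rw [hf, Polynomial.eval_comp, Polynomial.eval_add, Polynomial.eval_X, Polynomial.eval_C,
      Polynomial.eval_map]
  have hf0 : PowerSeries.constantCoeff (f.coeff 0) = 0 := by
    rw [Polynomial.coeff_zero_eq_eval_zero, hfe, zero_add, hev _ _ _ hθcc, hs0, hθ0,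
      nd.Φ_zero M y0 hy0 h1, map_zero]
  have hf1 : IsUnit (PowerSeries.constantCoeff (f.coeff 1)) := by
    have h2 : f.coeff 1 = nd.Φ.derivative.eval₂ (aeval (R := K) S).toRingHom θc := by
      have h3 : f.coeff 1 = f.derivative.eval 0 := by
        rw [← Polynomial.coeff_zero_eq_eval_zero, Polynomial.coeff_derivative]
        simp
      rw [h3, hf, Polynomial.derivative_comp, Polynomial.eval_mul, Polynomial.eval_comp]
      simp only [Polynomial.derivative_add, Polynomial.derivative_X, Polynomial.derivative_C,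
        add_zero, Polynomial.eval_one, one_mul, Polynomial.eval_add, Polynomial.eval_X,
        Polynomial.eval_C, zero_add, Polynomial.derivative_map, Polynomial.eval_map]
    rw [h2, hev _ _ _ hθcc]
    have h3 := nd.deriv_ne hy0 h1 hδ
    rw [hs0, hθ0]
    exact (isUnit_iff_ne_zero.mpr h3).map C
  obtain ⟨U, hU0, hU⟩ := fp_hensel f hf0 hf1
  rw [hfe] at hU
  have hδ' : IsUnit (aeval S nd.δ) := by
    rw [PowerSeries.isUnit_iff_constantCoeff, haev, hs0]
    exact (isUnit_iff_ne_zero.mpr hδ).map C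
  obtain ⟨y, hy, hy1, hyk, hyθ⟩ := nd.back _ S (U + θc) hU hδ'
  refine ⟨y, hy, hy1, fun k => by rw [hyk, hS, hs0], fun b => ?_⟩
  have h5 := nd.p_eq _ y hy hy1 b
  have h6 := nd.p_eq _ y0 hy0 h1 b
  have hyS : (fun k : Fin n => lf (nd.l k.succ) y) = S := funext hyk
  rw [hyS, hyθ] at h5
  have h7 := congrArg PowerSeries.constantCoeff h5
  rw [map_mul, haev, hev (nd.p b) (U + θc) θ0 (by rw [map_add, hU0, zero_add, hθcc]), hs0, hθ0,
    ← h6, map_mul] at h7
  refine mul_left_cancel₀ ?_ h7
  rw [Ne, C_eq_zero]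
  exact hδ

end

end Pool.Agent.Lib.MP_17a322_nt.VA
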