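import Pool.Agent.Lib.MP_17a322_nt.VA.GD

/-!
VA, part G, job G01: the ideal `loc k x`.

Proofs. `loc k x` is the kernel of `Φ : MvPolynomial (Fin n) k →ₐ[k] L[T]`, `X i ↦ x i T`. For `G`
homogeneous of degree `d`: `Φ G = C (aeval x G) * T ^ d` (check on monomials, or write
`aeval_def, eval₂_eq'` as in `Z_isPt_smul` of VA/Z0.lean: `∏ i, (C (x i) * T) ^ m i =
C (∏ i, x i ^ m i) * T ^ (∑ i, m i)`). So for every `G`: `G = ∑ d ∈ range (totalDegree + 1),
homogeneousComponent d G` (`sum_homogeneousComponent`) and `coeff d (Φ G) =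
aeval x (homogeneousComponent d G)` (for `d > totalDegree` the component is 0,
`homogeneousComponent_eq_zero`). This gives `mem_loc`. All the rest follows from `mem_loc`
(`homogeneousComponent_of_mem`, `homogeneousComponent_isHomogeneous`; for scaling:
`aeval (c x) G = c ^ d * aeval x G` for `G` homogeneous of degree `d`, proved as in `Z_isPt_smul`), and
`loc_isPrime` is `RingHom.ker_isPrime`.
-/

universe u w

namespace Pool.Agent.Lib.MP_17a322_nt.VA.G

open MvPolynomial

/-- Homogeneous polynomials at multiples of vectors. -/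
theorem aeval_smul_of_homog {k : Type*} [CommSemiring k] {R : Type*} [CommRing R] [Algebra k R]
    {n : ℕ} {G : MvPolynomial (Fin n) k} {d : ℕ} (hG : G.IsHomogeneous d) (x : Fin n → R) (c : R) :
    aeval (fun i => c * x i) G = c ^ d * aeval x G := by
  rw [aeval_def, aeval_def, eval₂_eq', eval₂_eq', Finset.mul_sum]
  refine Finset.sum_congr rfl fun m hm => ?_
  have h4 : ∑ i, m i = d := by
    have h5 := hG (mem_support_iff.1 hm)
    rw [← h5, Finsupp.weight_apply, Finsupp.sum_fintype]
    · simp
    · intro i
      simp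
  simp_rw [mul_pow]
  rw [Finset.prod_mul_distrib, Finset.prod_pow_eq_pow_sum, h4]
  ring

section

variable {k L L' : Type u} [Field k] [Field L] [Field L'] [Algebra k L] [Algebra k L'] {n : ℕ}
  {x : Fin n → L} {G : MvPolynomial (Fin n) k}

private theorem g01_coeff_hom {e : ℕ} (hG : G.IsHomogeneous e) (x : Fin n → L) (d : ℕ) :
    (aeval (fun i => Polynomial.C (x i) * Polynomial.X) G : Polynomial L).coeff d =
      if d = e then aeval x G else 0 := by
  have h1 : (fun i => Polynomial.C (x i) * Polynomial.X : Fin n → Polynomial L) =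
      fun i => Polynomial.X * (algebraMap L (Polynomial L) ∘ x) i := by
    funext i
    rw [mul_comm]
    rfl
  rw [h1, aeval_smul_of_homog hG, aeval_algebraMap_apply, mul_comm, ← Polynomial.C_eq_algebraMap,
    Polynomial.coeff_C_mul_X_pow]

private theorem g01_coeff (G : MvPolynomial (Fin n) k) (x : Fin n → L) (d : ℕ) :
    (aeval (fun i => Polynomial.C (x i) * Polynomial.X) G : Polynomial L).coeff d =
      aeval x (homogeneousComponent d G) := by
  have h1 : (aeval (fun i => Polynomial.C (x i) * Polynomial.X) G : Polynomial L) =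
      ∑ e ∈ Finset.range (G.totalDegree + 1),
        (aeval (fun i => Polynomial.C (x i) * Polynomial.X) (homogeneousComponent e G) :
          Polynomial L) := by
    rw [← map_sum, sum_homogeneousComponent]
  rw [h1, Polynomial.finsetSum_coeff,
    Finset.sum_congr rfl fun e _ => g01_coeff_hom (homogeneousComponent_isHomogeneous e G) x d]
  rw [Finset.sum_ite_eq]
  split_ifs with hd
  · rfl
  · rw [homogeneousComponent_eq_zero, map_zero]
    rw [Finset.mem_range] at hd
    omega

theorem mem_loc : G ∈ loc k x ↔ ∀ d, aeval x (homogeneousComponent d G) = 0 := by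
  unfold loc
  rw [RingHom.mem_ker, Polynomial.ext_iff]
  refine forall_congr' fun d => ?_
  rw [g01_coeff, Polynomial.coeff_zero]

theorem mem_loc_of_homog {d : ℕ} (hG : G.IsHomogeneous d) : G ∈ loc k x ↔ aeval x G = 0 := by
  have h1 : ∀ e, homogeneousComponent e G = if e = d then G else 0 := fun e =>
    homogeneousComponent_of_mem ((mem_homogeneousSubmodule d G).2 hG)
  rw [mem_loc]
  constructor
  · intro h
    have h2 := h d
    rwa [h1, if_pos rfl] at h2
  · intro h e
    rw [h1]
    split_ifs
    · exact h
    · exact map_zero _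

theorem aeval_of_mem_loc (h : G ∈ loc k x) : aeval x G = 0 := by
  rw [← sum_homogeneousComponent G, map_sum]
  exact Finset.sum_eq_zero fun d _ => mem_loc.1 h d

theorem comp_mem_loc (h : G ∈ loc k x) (d : ℕ) : homogeneousComponent d G ∈ loc k x :=
  (mem_loc_of_homog (homogeneousComponent_isHomogeneous d G)).2 (mem_loc.1 h d)

theorem mem_loc_of_comp (h : ∀ d, homogeneousComponent d G ∈ loc k x) : G ∈ loc k x :=
  mem_loc.2 fun d => (mem_loc_of_homog (homogeneousComponent_isHomogeneous d G)).1 (h d)

instance loc_isPrime : (loc k x).IsPrime := by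
  unfold loc
  exact RingHom.ker_isPrime _

theorem loc_smul {c : L} (hc : c ≠ 0) : loc k (fun i => c * x i) = loc k x := by
  refine Ideal.ext fun G => ?_
  rw [mem_loc, mem_loc]
  refine forall_congr' fun d => ?_
  rw [aeval_smul_of_homog (homogeneousComponent_isHomogeneous d G)]
  constructor
  · intro h
    exact (mul_eq_zero.1 h).resolve_left (pow_ne_zero _ hc)
  · intro h
    rw [h, mul_zero]

theorem loc_map (ι : L →ₐ[k] L') : loc k (fun i => ι (x i)) = loc k x := by
  refine Ideal.ext fun G => ?_
  rw [mem_loc, mem_loc]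
  refine forall_congr' fun d => ?_
  have h1 : aeval (fun i => ι (x i)) (homogeneousComponent d G) =
      ι (aeval x (homogeneousComponent d G)) := (comp_aeval_apply x ι _).symm
  rw [h1]
  exact map_eq_zero_iff ι ι.injective

/-- Change of the base field. -/
theorem map_mem_loc {K : Type u} [Field K] [Algebra K k] [Algebra K L] [IsScalarTower K k L]
    {G : MvPolynomial (Fin n) K} : map (algebraMap K k) G ∈ loc k x ↔ G ∈ loc K x := by
  rw [mem_loc, mem_loc]
  refine forall_congr' fun d => ?_
  have h1 : homogeneousComponent d (map (algebraMap K k) G) =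
      map (algebraMap K k) (homogeneousComponent d G) := by
    ext m
    rw [coeff_homogeneousComponent, coeff_map, coeff_map, coeff_homogeneousComponent]
    split_ifs
    · rfl
    · exact (map_zero _).symm
  rw [h1, aeval_map_algebraMap]

/-- A homogeneous ideal is in `loc k x` if its homogeneous elements vanish at `x`. -/
theorem le_loc {𝔟 : Ideal (MvPolynomial (Fin n) k)}
    (h𝔟 : ∀ G ∈ 𝔟, ∀ d, homogeneousComponent d G ∈ 𝔟)
    (h : ∀ G ∈ 𝔟, ∀ d, G.IsHomogeneous d → aeval x G = 0) : 𝔟 ≤ loc k x :=
  fun G hG => mem_loc.2 fun d =>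
    h _ (h𝔟 G hG d) d (homogeneousComponent_isHomogeneous d G)

end

end Pool.Agent.Lib.MP_17a322_nt.VA.G
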