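import Pool.Agent.Lib.MP_17a322_nt.VA.GD

/-!
VA, part G, job G03: the tensor product of two fields over an algebraically closed field is a domain.

Proof (complete). Nontrivial: `L₁ ⊗ L₂` is a nonzero vector space (free module instance / `1 ⊗ 1 ≠ 0`;
Mathlib: `Nontrivial` instance for tensor products of algebras over a field exists, or
`Algebra.TensorProduct.nontrivial_of_algebraMap_injective..`). Let `z w = 0`, `z ≠ 0`, `w ≠ 0`.
Let `e : Basis _ k L₂` (`Module.Basis.ofVectorSpace`). `L₁ ⊗ L₂` has the `L₁`-basis `1 ⊗ e l`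
(`Algebra.TensorProduct.basis L₁ e`). Write `z = ∑ i, a i ⊗ e i`, `w = ∑ j, c j ⊗ e j` (finite sums;
coordinates `a = repr z`, `c = repr w`), some `a i₀ ≠ 0`, some `c j₀ ≠ 0`.
Let `R := Algebra.adjoin k ({a i} ∪ {c j} ∪ {(a i₀ * c j₀)⁻¹}) ⊆ L₁` (finite sets: the supports), a finitely
generated `k`-algebra, nontrivial. There is a `k`-algebra homomorphism `π : R → k`: take a maximal ideal
`M` of `R`; `R ⧸ M` is a field of finite type over `k`, so finite over `k` (Zariski's lemma, Mathlib:
`finite_of_finite_type_of_isJacobsonRing`), so `= k` since `k` is algebraically closed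
(`IsAlgClosed.algebraMap_bijective_of_isIntegral`). Lift `z` and `w` to `R ⊗ L₂` (which injects into
`L₁ ⊗ L₂`), and apply `π ⊗ id : R ⊗ L₂ → L₂`:
`(∑ i, π (a i) • e i) * (∑ j, π (c j) • e j) = 0` in the field `L₂`. So one factor is 0,
and since `e` is a basis `π (a i) = 0` for all `i` or `π (c j) = 0` for all `j`. But
`π (a i₀) π (c j₀) π ((a i₀ c j₀)⁻¹) = 1`. Contradiction.
-/

universe u

namespace Pool.Agent.Lib.MP_17a322_nt.VA.G

open TensorProduct

private theorem g03_hom {k L : Type u} [Field k] [IsAlgClosed k] [Field L] [Algebra k L]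
    (s : Finset L) : Nonempty (Algebra.adjoin k (s : Set L) →ₐ[k] k) := by
  classical
  have hR : Algebra.FiniteType k (Algebra.adjoin k (s : Set L)) :=
    (Subalgebra.fg_iff_finiteType _).1 (Subalgebra.fg_adjoin_finset s)
  obtain ⟨M, hM⟩ := Ideal.exists_maximal (Algebra.adjoin k (s : Set L))
  let : Field (Algebra.adjoin k (s : Set L) ⧸ M) := Ideal.Quotient.field M
  have : Algebra.FiniteType k (Algebra.adjoin k (s : Set L) ⧸ M) :=
    hR.of_surjective (Ideal.Quotient.mkₐ k M) (Ideal.Quotient.mkₐ_surjective k M)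
  have : Module.Finite k (Algebra.adjoin k (s : Set L) ⧸ M) :=
    finite_of_finite_type_of_isJacobsonRing k (Algebra.adjoin k (s : Set L) ⧸ M)
  have : Algebra.IsIntegral k (Algebra.adjoin k (s : Set L) ⧸ M) := inferInstance
  have hb := IsAlgClosed.algebraMap_bijective_of_isIntegral
    (k := k) (K := Algebra.adjoin k (s : Set L) ⧸ M)
  let e : k ≃ₐ[k] (Algebra.adjoin k (s : Set L) ⧸ M) :=
    AlgEquiv.ofBijective (Algebra.ofId k _) hb
  exact ⟨(e.symm : _ →ₐ[k] k).comp (Ideal.Quotient.mkₐ k M)⟩

theorem tensor_isDomain (k L₁ L₂ : Type u) [Field k] [IsAlgClosed k] [Field L₁] [Field L₂]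
    [Algebra k L₁] [Algebra k L₂] : IsDomain (L₁ ⊗[k] L₂) := by
  classical
  have : NoZeroDivisors (L₁ ⊗[k] L₂) := by
    refine ⟨fun {z w} hzw => ?_⟩
    by_contra hcon
    rw [not_or] at hcon
    obtain ⟨hz, hw⟩ := hcon
    let e := Module.Basis.ofVectorSpace k L₂
    let B := Algebra.TensorProduct.basis L₁ e
    have hB : ∀ i, B i = (1 : L₁) ⊗ₜ[k] e i := fun i => Algebra.TensorProduct.basis_apply e i
    have hrep : ∀ x : L₁ ⊗[k] L₂, x = ∑ i ∈ (B.repr x).support, (B.repr x i) ⊗ₜ[k] e i := by
      intro x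
      have h := B.linearCombination_repr x
      rw [Finsupp.linearCombination_apply, Finsupp.sum] at h
      conv_lhs => rw [← h]
      refine Finset.sum_congr rfl fun i _ => ?_
      rw [hB, TensorProduct.smul_tmul', smul_eq_mul, mul_one]
    have hz' : ∃ i, B.repr z i ≠ 0 := by
      by_contra h
      push Not at h
      exact hz (B.repr.injective (by ext i; simpa using h i))
    have hw' : ∃ i, B.repr w i ≠ 0 := by
      by_contra h
      push Not at h
      exact hw (B.repr.injective (by ext i; simpa using h i))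
    obtain ⟨i₀, hi₀⟩ := hz'
    obtain ⟨j₀, hj₀⟩ := hw'
    let s : Finset L₁ := insert ((B.repr z i₀ * B.repr w j₀)⁻¹)
      ((B.repr z).support.image (B.repr z) ∪ (B.repr w).support.image (B.repr w))
    obtain ⟨π⟩ := g03_hom (k := k) s
    let A := Algebra.adjoin k (s : Set L₁)
    have hAz : ∀ i, B.repr z i ∈ A := by
      intro i
      by_cases h : B.repr z i = 0
      · rw [h]; exact zero_mem _
      · refine Algebra.subset_adjoin ?_
        simp only [s, Finset.coe_insert, Finset.coe_union, Finset.coe_image]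
        exact Set.mem_insert_of_mem _ (Or.inl ⟨i, by simpa using h, rfl⟩)
    have hAw : ∀ i, B.repr w i ∈ A := by
      intro i
      by_cases h : B.repr w i = 0
      · rw [h]; exact zero_mem _
      · refine Algebra.subset_adjoin ?_
        simp only [s, Finset.coe_insert, Finset.coe_union, Finset.coe_image]
        exact Set.mem_insert_of_mem _ (Or.inr ⟨i, by simpa using h, rfl⟩)
    have hAi : (B.repr z i₀ * B.repr w j₀)⁻¹ ∈ A := by
      refine Algebra.subset_adjoin ?_
      simp only [s, Finset.coe_insert]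
      exact Set.mem_insert _ _
    let z' : A ⊗[k] L₂ := ∑ i ∈ (B.repr z).support, (⟨B.repr z i, hAz i⟩ : A) ⊗ₜ[k] e i
    let w' : A ⊗[k] L₂ := ∑ i ∈ (B.repr w).support, (⟨B.repr w i, hAw i⟩ : A) ⊗ₜ[k] e i
    let φ : A ⊗[k] L₂ →ₐ[k] L₁ ⊗[k] L₂ := Algebra.TensorProduct.map A.val (AlgHom.id k L₂)
    have hφ : Function.Injective φ := by
      have h := Module.Flat.rTensor_preserves_injective_linearMap (M := L₂) A.val.toLinearMap
        (Subtype.val_injective)
      intro x y hxy
      exact h hxy
    have hφz : φ z' = z := by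
      refine Eq.trans ?_ (hrep z).symm
      simp only [z', φ, map_sum, Algebra.TensorProduct.map_tmul, AlgHom.id_apply]
      rfl
    have hφw : φ w' = w := by
      refine Eq.trans ?_ (hrep w).symm
      simp only [w', φ, map_sum, Algebra.TensorProduct.map_tmul, AlgHom.id_apply]
      rfl
    have hzw' : z' * w' = 0 := hφ (by rw [map_mul, hφz, hφw, hzw, map_zero])
    let ψ : A ⊗[k] L₂ →ₐ[k] L₂ := Algebra.TensorProduct.lift
      ((Algebra.ofId k L₂).comp π) (AlgHom.id k L₂) (fun _ _ => Commute.all _ _)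
    have hψ : ψ z' * ψ w' = 0 := by rw [← map_mul, hzw', map_zero]
    have hψz : ψ z' = ∑ i ∈ (B.repr z).support, π ⟨B.repr z i, hAz i⟩ • e i := by
      simp only [z', ψ, map_sum, Algebra.TensorProduct.lift_tmul, AlgHom.id_apply,
        AlgHom.comp_apply, Algebra.ofId_apply, Algebra.smul_def]
    have hψw : ψ w' = ∑ i ∈ (B.repr w).support, π ⟨B.repr w i, hAw i⟩ • e i := by
      simp only [w', ψ, map_sum, Algebra.TensorProduct.lift_tmul, AlgHom.id_apply,
        AlgHom.comp_apply, Algebra.ofId_apply, Algebra.smul_def]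
    have hone : π ⟨B.repr z i₀, hAz i₀⟩ * π ⟨B.repr w j₀, hAw j₀⟩ *
        π ⟨(B.repr z i₀ * B.repr w j₀)⁻¹, hAi⟩ = 1 := by
      rw [← map_mul, ← map_mul, ← map_one π]
      refine congrArg π (Subtype.ext ?_)
      change B.repr z i₀ * B.repr w j₀ * (B.repr z i₀ * B.repr w j₀)⁻¹ = 1
      exact mul_inv_cancel₀ (mul_ne_zero hi₀ hj₀)
    have hli := e.linearIndependent
    rcases mul_eq_zero.1 hψ with h | h
    · rw [hψz] at h
      have := linearIndependent_iff'.1 hli _ _ h i₀ (by simpa using hi₀)
      rw [this, zero_mul, zero_mul] at hone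
      exact zero_ne_one hone
    · rw [hψw] at h
      have := linearIndependent_iff'.1 hli _ _ h j₀ (by simpa using hj₀)
      rw [this, mul_zero, zero_mul] at hone
      exact zero_ne_one hone
  have : Nontrivial (L₁ ⊗[k] L₂) := inferInstance
  exact NoZeroDivisors.to_isDomain _

end Pool.Agent.Lib.MP_17a322_nt.VA.G
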