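import Pool.Agent.Lib.MP_17a322_nt.VA.G05

/-!
VA, part G, job G05b: generic points of subgroups; the identities for sums and differences.

Proofs (complete).
`loc_sub_pair`: `≥`: `Y₁`, `Y₂` are zeros of `𝔟` (`loc_img`), so `Y₁ - Y₂` is (`GrpI`), i.e. `𝔟 ≤ loc ..`. `≤`: `ZP_pair` for
`P = y`, `Q = 0` (`GrpI.zero`): `loc k (A.x (Y₁ - Y₂)) ≤ loc k (A.x (y - 0)) = 𝔟`.
`loc_add_const`: `≥`: `GrpI.add` (`b'` is a zero of `𝔟` by `ZP_img`). `≤`: let `G` be in `loc k (A.x (y + b'))`; by `le_loc`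
(components by `comp_mem_loc`) let `G` be homogeneous of degree `d`. For every index `c` let
`H c := aeval (Sum.elim X (fun i => C (A.x b i))) (addP A k G c) : MvPolynomial (Fin (N+1)) k`, homogeneous of degree `2 d`
[or avoid homogeneity: `H c` vanishes at all multiples of `A.x y`, hence its homogeneous components vanish; simplest: show that `H c`
is homogeneous of degree `d * 2` with `BiH_addP`: monomials of bidegree `(2d, 2d)`]. For every point `P` over a field `L'`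
`H c` at `A.x P` is `aeval (Sum.elim (A.x P) (b over L')) (addP G c)`, by `aeval_addP` and
`aeval_smul_BiH` a nonzero multiple of `(A.x (P - b') c) ^ d * aeval (A.x (P + b')) G`. For `P = y` this is
0, so `H c ∈ loc k (A.x y) = 𝔟`. For `P = y - b'` (a zero of `𝔟` by GrpI) it is 0 too, and choosing `c` with
`A.x (P - b') c ≠ 0`: `aeval (A.x (y - b' + b')) G = 0`. So `G` vanishes at `A.x y`.
`sum_mem`: `mem_prodI_of_generic` for `H = addP G b`, `BiH_addP`; `aeval_addP` and `GrpI.add`.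
`dif_mem`: `mem_prodI_of_generic`; at a pair `P, Q`: `aeval .. (A.S a b) = c * (A.x (P+Q) a * A.x (P-Q) b)`, so the inner
substitution is `e • A.x (P + Q)`, `e = c * A.x (P-Q) b`, and `aeval (Sum.elim (e • A.x (P+Q)) (A.x P)) (A.S a' b') =
e ^ 2 * c' * A.x (P+Q+P) a' * A.x (Q) b'` (`A.S_smul`, `S_pts`, `P + Q - P = Q`); the difference is
`e ^ 2 * c' * A.x (P+Q+P) a' * (A.x Q b' * A.x Q d - A.x Q d * A.x Q b') = 0`. `BiH` by `BiH_bind_sum`,
`BiH_mul`, `BiH_sub`, `BiH_X_inr`, `BiH_S`: the bidegree is `(6, 5)`.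
-/

universe u

namespace Pool.Agent.Lib.MP_17a322_nt.VA.G

open MvPolynomial

private theorem g05c_homog {k : Type u} [Field k] {n n' : ℕ} {d e : ℕ}
    {H : MvPolynomial (Fin n ⊕ Fin n') k} (hH : BiH d e H) (v : Fin n' → k) :
    (aeval (Sum.elim (X : Fin n → MvPolynomial (Fin n) k) fun i => C (v i)) H).IsHomogeneous d := by
  rw [aeval_def, eval₂_eq']
  refine IsHomogeneous.sum _ _ _ fun m hm => ?_
  obtain ⟨h1, h2⟩ := hH m hm
  rw [Fintype.prod_sum_type]
  simp only [Sum.elim_inl, Sum.elim_inr]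
  have h3 : (∏ i : Fin n, (X i : MvPolynomial (Fin n) k) ^ m (Sum.inl i)).IsHomogeneous d := by
    rw [← h1]
    refine IsHomogeneous.prod _ _ _ fun i _ => ?_
    exact isHomogeneous_X_pow _ _
  have h4 : (∏ i : Fin n', (C (v i) : MvPolynomial (Fin n) k) ^ m (Sum.inr i)) =
      C (∏ i, v i ^ m (Sum.inr i)) := by
    simp only [map_prod, map_pow]
  rw [h4, algebraMap_eq, mul_comm (∏ i : Fin n, _), ← mul_assoc, ← C_mul]
  exact h3.C_mul _

section

variable {K : Type u} [Field K] {N : ℕ} (A : AV K N) {k : Type u} [Field k] [Algebra K k]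
  {𝔟 : Ideal (MvPolynomial (Fin (N + 1)) k)} (h𝔟 : GrpI A 𝔟) {L : Type u} [Field L] [Algebra K L]
  [Algebra k L] [IsScalarTower K k L] {y : A.Pts L} (hy : loc k (A.x y) = 𝔟)

include h𝔟 hy

theorem loc_sub_pair {L₃ : Type u} [Field L₃] [Algebra K L₃] [Algebra k L₃]
    [IsScalarTower K k L₃] {ι₁ ι₂ : L →ₐ[k] L₃} (hι : LD ι₁ ι₂) {Y₁ Y₂ : A.Pts L₃}
    (h₁ : A.Img (ι₁.restrictScalars K) y Y₁) (h₂ : A.Img (ι₂.restrictScalars K) y Y₂) :
    loc k (A.x (Y₁ - Y₂)) = 𝔟 := by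
  have hZ1 : ZP A 𝔟 Y₁ := (hy.symm.trans (loc_img A ι₁ h₁).symm).le
  have hZ2 : ZP A 𝔟 Y₂ := (hy.symm.trans (loc_img A ι₂ h₂).symm).le
  refine le_antisymm ?_ (h𝔟.2 L₃ Y₁ Y₂ hZ1 hZ2)
  have hP : ZP A (loc k (A.x y)) y := le_refl _
  have hQ : ZP A (loc k (A.x y)) (0 : A.Pts L) := by
    rw [hy]
    exact GrpI.zero A h𝔟 L
  have h3 := ZP_pair A hι h₁ h₂ hP hQ
  rw [sub_zero] at h3
  exact le_trans h3 hy.le

theorem loc_add_const {b : A.Pts k} (hb : ZP A 𝔟 b) {b' : A.Pts L}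
    (hb' : A.Img (IsScalarTower.toAlgHom K k L) b b') : loc k (A.x (y + b')) = 𝔟 := by
  have hZy : ZP A 𝔟 y := hy.symm.le
  have hb1 : A.Img ((Algebra.ofId k L).restrictScalars K) b b' := hb'
  have hZb : ZP A 𝔟 b' := ZP_img A (Algebra.ofId k L) hb1 hb
  refine le_antisymm ?_ (GrpI.add A h𝔟 hZy hZb)
  rw [← hy]
  refine le_loc (fun G hG d => comp_mem_loc hG d) fun G hG d hd => ?_
  obtain ⟨c', hc', hcb⟩ := hb'
  have hG0 : aeval (A.x (y + b')) G = 0 := aeval_of_mem_loc hG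
  -- evaluation of the polynomials `H c`
  have key : ∀ P : A.Pts L, ∃ e : L, e ≠ 0 ∧ ∀ c : Fin (N + 1),
      aeval (A.x P) (aeval (Sum.elim (X : Fin (N + 1) → MvPolynomial (Fin (N + 1)) k)
        fun i => C (A.x b i)) (addP A k G c)) =
      c' ^ (d * 2) * ((e * A.x (P - b') c) ^ d * aeval (A.x (P + b')) G) := by
    intro P
    obtain ⟨e, he, hE⟩ := aeval_addP (k := k) A P b'
    refine ⟨e, he, fun c => ?_⟩
    have h1 : aeval (A.x P) (aeval (Sum.elim (X : Fin (N + 1) → MvPolynomial (Fin (N + 1)) k)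
        fun i => C (A.x b i)) (addP A k G c)) =
        aeval (Sum.elim (fun i => 1 * A.x P i) fun i => c' * A.x b' i) (addP A k G c) := by
      rw [← AlgHom.comp_apply]
      refine congrArg (fun f : MvPolynomial (Fin (N + 1) ⊕ Fin (N + 1)) k →ₐ[k] L =>
        f (addP A k G c)) ?_
      refine algHom_ext fun i => ?_
      rcases i with i | i
      · simp
      · have h2 := hcb i
        simp only [AlgHom.comp_apply, aeval_X, Sum.elim_inr]
        rw [← h2]
        simp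
    rw [h1, aeval_smul_BiH (BiH_addP A hd c), hE G d hd c, one_pow, one_mul]
  have hH : ∀ c : Fin (N + 1), aeval (Sum.elim (X : Fin (N + 1) → MvPolynomial (Fin (N + 1)) k)
      fun i => C (A.x b i)) (addP A k G c) ∈ 𝔟 := by
    intro c
    obtain ⟨e, -, hE⟩ := key y
    rw [← hy, mem_loc_of_homog (g05c_homog (BiH_addP A hd c) _), hE c, hG0]
    simp
  have hZ3 : ZP A 𝔟 (y - b') := h𝔟.2 L y b' hZy hZb
  obtain ⟨e, he, hE⟩ := key (y - b')
  obtain ⟨c, hc⟩ : ∃ c, A.x (y - b' - b') c ≠ 0 := by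
    by_contra hcon
    push Not at hcon
    exact Z_x_ne A (y - b' - b') (funext hcon)
  have h5 := hE c
  rw [aeval_of_mem_loc (hZ3 (hH c)), sub_add_cancel] at h5
  have h6 := (mul_eq_zero.1 h5.symm).resolve_left (pow_ne_zero _ hc')
  exact (mul_eq_zero.1 h6).resolve_left (pow_ne_zero _ (mul_ne_zero he hc))

theorem sum_mem [IsAlgClosed k] {G : MvPolynomial (Fin (N + 1)) k} (hG : G ∈ 𝔟) {d : ℕ}
    (hd : G.IsHomogeneous d) (b : Fin (N + 1)) : addP A k G b ∈ prodI 𝔟 𝔟 := by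
  refine mem_prodI_of_generic A y hy (BiH_addP A hd b) fun L' _ _ _ _ P Q hP hQ => ?_
  obtain ⟨c, hc, h⟩ := aeval_addP A (k := k) P Q
  have h1 : ZP A 𝔟 (P + Q) := GrpI.add A h𝔟 hP hQ
  rw [h G d hd b, aeval_of_mem_loc (h1 hG), mul_zero]

omit h𝔟 in
theorem dif_mem [IsAlgClosed k] (a' b' b d : Fin (N + 1)) :
    bind₁ (Sum.elim (fun a => map (algebraMap K k) (A.S a b)) fun i => X (Sum.inl i))
        (map (algebraMap K k) (A.S a' b')) * X (Sum.inr d) -
      bind₁ (Sum.elim (fun a => map (algebraMap K k) (A.S a b)) fun i => X (Sum.inl i))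
        (map (algebraMap K k) (A.S a' d)) * X (Sum.inr b') ∈ prodI 𝔟 𝔟 := by
  have hB : ∀ j l : Fin (N + 1), BiH (2 * 2 + 2 * 1 + 0) (2 * 2 + 2 * 0 + 1)
      (bind₁ (Sum.elim (fun a => map (algebraMap K k) (A.S a b)) fun i => X (Sum.inl i))
        (map (algebraMap K k) (A.S a' j)) * X (Sum.inr l)) := fun j l =>
    BiH_mul (BiH_bind_sum (BiH_S A a' j) (fun a => BiH_S A a b) fun i => BiH_X_inl i) (BiH_X_inr l)
  refine mem_prodI_of_generic A y hy (BiH_sub (hB b' d) (hB d b')) fun L' _ _ _ _ P Q hP hQ => ?_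
  obtain ⟨e, e', he⟩ : ∃ e e' : L', ∀ j : Fin (N + 1),
      aeval (Sum.elim (A.x P) (A.x Q))
        (bind₁ (Sum.elim (fun a => map (algebraMap K k) (A.S a b)) fun i => X (Sum.inl i))
          (map (algebraMap K k) (A.S a' j))) = e ^ 2 * (e' * (A.x (P + Q + P) a' * A.x Q j)) := by
    obtain ⟨c, hc, h⟩ := S_pts A P Q
    obtain ⟨c', hc', h'⟩ := S_pts A (P + Q) P
    refine ⟨c * A.x (P - Q) b, c', fun j => ?_⟩
    have h1 : (fun i : Fin (N + 1) ⊕ Fin (N + 1) => aeval (Sum.elim (A.x P) (A.x Q))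
        ((Sum.elim (fun a => map (algebraMap K k) (A.S a b)) fun i => X (Sum.inl i) :
          Fin (N + 1) ⊕ Fin (N + 1) → MvPolynomial (Fin (N + 1) ⊕ Fin (N + 1)) k) i)) =
        Sum.elim (fun a => (c * A.x (P - Q) b) * A.x (P + Q) a) (fun i => 1 * A.x P i) := by
      funext i
      rcases i with i | i
      · rw [Sum.elim_inl, Sum.elim_inl, aeval_map_algebraMap, h]
        ring
      · rw [Sum.elim_inr, Sum.elim_inr, aeval_X, Sum.elim_inl, one_mul]
    rw [aeval_bind₁, h1, aeval_map_algebraMap, A.S_smul, h', add_sub_cancel_left, one_pow, mul_one]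
  rw [map_sub, map_mul, map_mul, he, he, aeval_X, aeval_X, Sum.elim_inr, Sum.elim_inr]
  ring

end

end Pool.Agent.Lib.MP_17a322_nt.VA.G
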