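import Pool.Agent.Lib.MP_17a322_nt.VN.E0
import Pool.Agent.Lib.MP_17a322_nt.VN.E5

/-!
VA, part G, job G07: derivations: chain rule, extension.

Proofs. `der_aeval_dc`: `D (g (z)) = (dc δ g) (z) + ∑ i, (∂ g / ∂ X i)(z) D (z i)` for a derivation `D` of `L` that extends the
derivation `δ` of `k` (`dc`: VN/E0.lean, `coeff_dc`, `dc_C`, `dc_X`): `MvPolynomial.induction_on` (constants, sums,
product with `X j`; `dc` is a derivation). `der_aeval`: `der_aeval_dc` for `δ = 0` (`dc (Fin n) 0 g = 0` by `coeff_dc`).
`exists_ext`: let `X` be a transcendence basis of `L` over `k` (it gives `Algebra.IsAlgebraic (IntermediateField.adjoin k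
(Set.range X)) L`: see the proof of `isAlgebraic_of_derivation` in VN/E5.lean), apply `exists_derivation` (VN/E4.lean) to
`(Algebra.linearMap k L).compDer δ : Derivation ℤ k L` and `v = 0`.
-/

universe u

namespace Pool.Agent.Lib.MP_17a322_nt.VA.G

open MvPolynomial
open Pool.Agent.Lib.MP_17a322_nt.VN

section

variable {k L : Type u} [Field k] [Field L] [Algebra k L]

/-- Chain rule. -/
theorem der_aeval_dc (δ : Derivation ℤ k k) (D : Derivation ℤ L L)
    (hD : ∀ c : k, D (algebraMap k L c) = algebraMap k L (δ c)) {n : ℕ} (z : Fin n → L)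
    (g : MvPolynomial (Fin n) k) : D (aeval z g) =
      aeval z (dc (Fin n) δ g) + ∑ i, aeval z (pderiv i g) * D (z i) := by
  classical
  induction g using MvPolynomial.induction_on with
  | C a =>
    rw [algHom_C, hD, dc_C, algHom_C]
    have h : ∀ i : Fin n, aeval z (pderiv i (C a : MvPolynomial (Fin n) k)) * D (z i) = 0 := by
      intro i
      rw [pderiv_C, map_zero, zero_mul]
    rw [Finset.sum_eq_zero fun i _ => h i, add_zero]
  | add p q hp hq =>
    rw [map_add, map_add, hp, hq, map_add, map_add]
    have h : ∀ i : Fin n, aeval z (pderiv i (p + q)) * D (z i) =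
        aeval z (pderiv i p) * D (z i) + aeval z (pderiv i q) * D (z i) := by
      intro i
      rw [map_add, map_add, add_mul]
    rw [Finset.sum_congr rfl fun i _ => h i, Finset.sum_add_distrib]
    ring
  | mul_X p j hp =>
    rw [map_mul, aeval_X, Derivation.leibniz, hp, Derivation.leibniz (dc (Fin n) δ), dc_X,
      smul_zero, zero_add, smul_eq_mul, smul_eq_mul, smul_eq_mul, map_mul, aeval_X]
    have h : ∀ i : Fin n, aeval z (pderiv i (p * X j)) * D (z i) =
        (if i = j then aeval z p * D (z j) else 0) + z j * (aeval z (pderiv i p) * D (z i)) := by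
      intro i
      rw [Derivation.leibniz, smul_eq_mul, smul_eq_mul, map_add, map_mul, map_mul, aeval_X,
        pderiv_X, Pi.single_apply]
      by_cases hij : i = j
      · subst hij
        simp
        ring
      · rw [if_neg hij, if_neg (Ne.symm hij)]
        simp
        ring
    rw [Finset.sum_congr rfl fun i _ => h i, Finset.sum_add_distrib, Finset.sum_ite_eq',
      if_pos (Finset.mem_univ _), ← Finset.mul_sum]
    ring

theorem der_aeval (D : Derivation ℤ L L) (hD : ∀ c : k, D (algebraMap k L c) = 0) {n : ℕ}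
    (z : Fin n → L) (g : MvPolynomial (Fin n) k) :
    D (aeval z g) = ∑ i, aeval z (pderiv i g) * D (z i) := by
  have h0 : dc (Fin n) (0 : Derivation ℤ k k) g = 0 := by
    ext m
    rw [coeff_dc, coeff_zero]
    rfl
  have h := der_aeval_dc (k := k) 0 D (fun c => by
    rw [hD]
    exact (map_zero (algebraMap k L)).symm) z g
  rw [h, h0, map_zero, zero_add]

/-- Extension of derivations. -/
theorem exists_ext [CharZero k] (L : Type u) [Field L] [Algebra k L] (δ : Derivation ℤ k k) :
    ∃ D : Derivation ℤ L L, ∀ c : k, D (algebraMap k L c) = algebraMap k L (δ c) := by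
  classical
  obtain ⟨t, ht⟩ := exists_isTranscendenceBasis k L
  obtain ⟨D, hD, -⟩ := exists_derivation ((↑) : t → L) ht.1 ht.isAlgebraic_field
    ((Algebra.linearMap k L).compDer δ : Derivation ℤ k L) (fun _ => 0)
  exact ⟨D, fun c => by rw [hD]; rfl⟩

end

end Pool.Agent.Lib.MP_17a322_nt.VA.G
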