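import Pool.Agent.Lib.MP_17a322_nt.VA.G07
import Pool.Agent.Lib.MP_17a322_nt.VN.E19a

/-!
VA, part G, job G07b: existence of derivations with given values.

Proof (complete). `exists_basis_subset z` (VN/E19a.lean) gives `T ⊆ Fin n` with `(z t)_(t ∈ T)` algebraically independent and every
`z i` algebraic over `k(z_T)`. Extend `(z t)_(t ∈ T)` to a transcendence basis of `L` (as in VN/E5.lean) and let `D` be
the derivation with `D = 0` on `k`, `D (z t) = v t` for `t ∈ T` and 0 on the other elements of the basis (`exists_derivation`,
VN/E4.lean). Let `i ∉ T`. There is a polynomial `g : MvPolynomial (Fin n) k` in the variables of `T` and `X i` with `g (z) = 0` and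
`(∂ g / ∂ X i) (z) ≠ 0`: among the nonzero polynomials in the variables `T ∪ {i}` that vanish at `z` (they exist: `z i` is
algebraic over `k(z_T)`, i.e. `(z_t, z_i)` is algebraically dependent) take one of minimal degree in `X i`; the
degree in `X i` is positive since `z_T` is independent; `∂ g / ∂ X i` is nonzero (characteristic 0) of smaller
degree in `X i`, so it does not vanish at `z`. Then `0 = D (g (z)) = ∑ j, (∂ g / ∂ X j)(z) D (z j)` (`der_aeval`; only `j ∈ T ∪ {i}`
occur) and by hypothesis `0 = ∑ j, (∂ g / ∂ X j)(z) v j`; subtract: `(∂ g / ∂ X i)(z) (D (z i) - v i) = 0`.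

Another way: let `B := Algebra.adjoin k (Set.range z)`, the image of `aeval z`. By hypothesis the `k`-linear map
`g ↦ ∑ i, aeval z (pderiv i g) * v i` factors through `B` and is a derivation `D₀ : B → L`. It extends to the field of fractions
(quotient rule) and then to `L` by `exists_derivation` over that field (a transcendence basis of `L` over it, `v = 0`); see how VN/E4.lean
extends `D0` from `Algebra.adjoin` to `L` by formal étaleness: the same argument, with a transcendence basis of `L` over
`IntermediateField.adjoin k (Set.range z)`.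
-/

universe u

namespace Pool.Agent.Lib.MP_17a322_nt.VA.G

open MvPolynomial
open Pool.Agent.Lib.MP_17a322_nt.VN

open scoped IntermediateField.algebraAdjoinAdjoin in
/-- A derivation of `k[z]` with values in `L` extends to the field `k(z)`. -/
private theorem g07b_frac {k L : Type u} [Field k] [Field L] [Algebra k L] {n : ℕ}
    (z : Fin n → L) (d : Derivation ℤ (Algebra.adjoin k (Set.range z)) L) :
    ∃ δ : Derivation ℤ (IntermediateField.adjoin k (Set.range z)) L,
      ∀ (b : Algebra.adjoin k (Set.range z)) (b' : IntermediateField.adjoin k (Set.range z)),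
        (b' : L) = b → δ b' = d b := by
  have h1 : Algebra.FormallyEtale (Algebra.adjoin k (Set.range z))
      (IntermediateField.adjoin k (Set.range z)) :=
    Algebra.FormallyEtale.of_isLocalization
      (nonZeroDivisors (Algebra.adjoin k (Set.range z)))
  have hbc : IsBaseChange (IntermediateField.adjoin k (Set.range z))
      (KaehlerDifferential.map ℤ ℤ (Algebra.adjoin k (Set.range z))
        (IntermediateField.adjoin k (Set.range z))) :=
    KaehlerDifferential.isBaseChange_of_formallyEtale ℤ (Algebra.adjoin k (Set.range z))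
      (IntermediateField.adjoin k (Set.range z))
  let δ : Derivation ℤ (IntermediateField.adjoin k (Set.range z)) L :=
    (hbc.lift d.liftKaehlerDifferential).compDer
      (KaehlerDifferential.D ℤ (IntermediateField.adjoin k (Set.range z)))
  refine ⟨δ, fun b b' hb => ?_⟩
  have hb' : b' = algebraMap (Algebra.adjoin k (Set.range z))
      (IntermediateField.adjoin k (Set.range z)) b := Subtype.ext hb
  subst hb'
  have h4 : KaehlerDifferential.D ℤ (IntermediateField.adjoin k (Set.range z))
      (algebraMap (Algebra.adjoin k (Set.range z)) _ b)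
      = KaehlerDifferential.map ℤ ℤ (Algebra.adjoin k (Set.range z))
        (IntermediateField.adjoin k (Set.range z))
        (KaehlerDifferential.D ℤ (Algebra.adjoin k (Set.range z)) b) := by
    rw [KaehlerDifferential.map_D]
  change hbc.lift d.liftKaehlerDifferential
    (KaehlerDifferential.D ℤ (IntermediateField.adjoin k (Set.range z))
      (algebraMap (Algebra.adjoin k (Set.range z)) _ b)) = _
  rw [h4, hbc.lift_eq, Derivation.liftKaehlerDifferential_comp_D]

/-- A derivation with given values at the elements `z i` exists if the values satisfy the derivatives of all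
relations between the `z i`. -/
theorem der_rel {k L : Type u} [Field k] [Field L] [Algebra k L] [CharZero k] {n : ℕ}
    (z v : Fin n → L)
    (h : ∀ g : MvPolynomial (Fin n) k, aeval z g = 0 → ∑ i, aeval z (pderiv i g) * v i = 0) :
    ∃ D : Derivation ℤ L L, (∀ c : k, D (algebraMap k L c) = 0) ∧ ∀ i, D (z i) = v i := by
  classical
  -- the map `g ↦ ∑ i, (∂ g / ∂ X i)(z) v i`
  let Φ : MvPolynomial (Fin n) k → L := fun g => ∑ i, aeval z (pderiv i g) * v i
  have hΦ : ∀ g, Φ g = ∑ i, aeval z (pderiv i g) * v i := fun _ => rfl
  have hadd : ∀ g g', Φ (g + g') = Φ g + Φ g' := fun g g' => by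
    rw [hΦ, hΦ, hΦ, ← Finset.sum_add_distrib]
    exact Finset.sum_congr rfl fun i _ => by rw [map_add, map_add, add_mul]
  have hsub : ∀ g g', Φ (g - g') = Φ g - Φ g' := fun g g' => by
    rw [hΦ, hΦ, hΦ, ← Finset.sum_sub_distrib]
    exact Finset.sum_congr rfl fun i _ => by rw [map_sub, map_sub, sub_mul]
  have hmul : ∀ g g', Φ (g * g') = aeval z g * Φ g' + aeval z g' * Φ g := fun g g' => by
    rw [hΦ, hΦ, hΦ, Finset.mul_sum, Finset.mul_sum, ← Finset.sum_add_distrib]
    refine Finset.sum_congr rfl fun i _ => ?_
    rw [Derivation.leibniz, map_add, smul_eq_mul, smul_eq_mul, map_mul, map_mul]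
    ring
  have hX : ∀ i, Φ (X i) = v i := fun i => by
    rw [hΦ, Finset.sum_eq_single i]
    · rw [pderiv_X_self, map_one, one_mul]
    · intro j _ hj
      rw [pderiv_X_of_ne hj.symm, map_zero, zero_mul]
    · intro hi
      exact absurd (Finset.mem_univ i) hi
  have hC : ∀ c, Φ (C c) = 0 := fun c => by
    rw [hΦ]
    refine Finset.sum_eq_zero fun i _ => ?_
    rw [pderiv_C, map_zero, zero_mul]
  have hs : ∀ b : Algebra.adjoin k (Set.range z), ∃ g : MvPolynomial (Fin n) k,
      aeval z g = (b : L) := fun b =>
    (AlgHom.mem_range _).1 ((Algebra.adjoin_range_eq_range_aeval k z).le b.2)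
  choose s hs using hs
  have key : ∀ (g : MvPolynomial (Fin n) k) (b : Algebra.adjoin k (Set.range z)),
      aeval z g = (b : L) → Φ (s b) = Φ g := fun g b hg => by
    have h1 : aeval z (s b - g) = 0 := by rw [map_sub, hs, hg, sub_self]
    have h2 : Φ (s b - g) = 0 := h _ h1
    rw [hsub] at h2
    exact sub_eq_zero.1 h2
  let D1 : Algebra.adjoin k (Set.range z) →+ L :=
    { toFun := fun b => Φ (s b)
      map_zero' := by
        rw [key 0 0 (by rw [map_zero]; rfl)]
        have h3 := hC 0
        rw [map_zero] at h3
        exact h3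
      map_add' := fun a b => by
        rw [key (s a + s b) (a + b) (by rw [map_add, hs, hs]; rfl), hadd] }
  have hD1 : ∀ b, D1 b = Φ (s b) := fun _ => rfl
  let d : Derivation ℤ (Algebra.adjoin k (Set.range z)) L :=
    Derivation.mk' D1.toIntLinearMap (by
      intro a b
      change D1 (a * b) = (a : L) * D1 b + (b : L) * D1 a
      rw [hD1, hD1, hD1, key (s a * s b) (a * b) (by rw [map_mul, hs, hs]; rfl), hmul, hs, hs])
  have hd : ∀ (b : Algebra.adjoin k (Set.range z)) (g : MvPolynomial (Fin n) k),
      aeval z g = (b : L) → d b = Φ g := fun b g hg => key g b hg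
  obtain ⟨δ, hδ⟩ := g07b_frac z d
  have : CharZero (IntermediateField.adjoin k (Set.range z)) :=
    charZero_of_injective_algebraMap
      (algebraMap k (IntermediateField.adjoin k (Set.range z))).injective
  obtain ⟨t, ht⟩ := exists_isTranscendenceBasis (IntermediateField.adjoin k (Set.range z)) L
  obtain ⟨D, hD, -⟩ := exists_derivation ((↑) : t → L) ht.1 ht.isAlgebraic_field δ fun _ => 0
  refine ⟨D, fun c => ?_, fun i => ?_⟩
  · have h5 := hD (algebraMap k (IntermediateField.adjoin k (Set.range z)) c)
    have h6 := hδ (algebraMap k (Algebra.adjoin k (Set.range z)) c) (algebraMap k _ c) rfl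
    have h7 : d (algebraMap k (Algebra.adjoin k (Set.range z)) c) = 0 := by
      rw [hd _ (C c) (aeval_C z c), hC]
    exact h5.trans (h6.trans h7)
  · have hm : z i ∈ Algebra.adjoin k (Set.range z) := Algebra.subset_adjoin ⟨i, rfl⟩
    have hm' : z i ∈ IntermediateField.adjoin k (Set.range z) :=
      IntermediateField.subset_adjoin k _ ⟨i, rfl⟩
    have h5 := hD ⟨z i, hm'⟩
    have h6 := hδ ⟨z i, hm⟩ ⟨z i, hm'⟩ rfl
    have h7 : d ⟨z i, hm⟩ = v i := by
      rw [hd _ (X i) (aeval_X z i), hX]
    exact h5.trans (h6.trans h7)

end Pool.Agent.Lib.MP_17a322_nt.VA.G
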