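import Pool.Agent.Lib.MP_17a322_nt.Mb

/-!
VA, part G, job G08: expansion of derivations into an extension field.

Proof (complete). Regard `L'` as a vector space over `L` by `ι` (`letI := ι.toRingHom.toAlgebra`), let `β` be a basis
(`Module.Basis.ofVectorSpace L L'`), `J` the (finite) union of the supports of `β.repr (D (x i))`, `i : Fin n`. For
`j ∈ J` let `E j a := β.repr (D a) j`, a derivation of `L`: it is additive, and `E j (a b) = β.repr (ι a * D b + ι b * D a) j =
a * E j b + b * E j a` since `ι a * w = a • w` and `β.repr` is `L`-linear. (`Derivation.mk'` with the `ℤ`-linear map of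
the additive map.) It kills `k` by `hk`. And `D (x i) = ∑ j ∈ J, E j (x i) • β j = ∑ j, β j * ι (E j (x i))`
(`Basis.sum_repr`-like: `Module.Basis.linearCombination_repr`, `Finsupp.linearCombination_apply`, `Finsupp.sum_of_support_subset`). Number the finite set `J` by
`Fin m` (`Finset.equivFin`).
-/

universe u

namespace Pool.Agent.Lib.MP_17a322_nt.VA.G

theorem der_expand {k L L' : Type u} [Field k] [Field L] [Field L'] [Algebra k L] [Algebra k L']
    (ι : L →ₐ[k] L') (D : L → L') (hadd : ∀ a b, D (a + b) = D a + D b)
    (hmul : ∀ a b, D (a * b) = ι a * D b + ι b * D a) (hk : ∀ c : k, D (algebraMap k L c) = 0)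
    {n : ℕ} (x : Fin n → L) :
    ∃ (m : ℕ) (e : Fin m → L') (E : Fin m → Derivation ℤ L L),
      (∀ j, ∀ c : k, E j (algebraMap k L c) = 0) ∧ ∀ i, D (x i) = ∑ j, e j * ι (E j (x i)) := by
  classical
  let _ : Algebra L L' := ι.toRingHom.toAlgebra
  have hsmul : ∀ (a : L) (w : L'), a • w = ι a * w := fun a w => Algebra.smul_def a w
  let β := Module.Basis.ofVectorSpace L L'
  let E : Module.Basis.ofVectorSpaceIndex L L' → Derivation ℤ L L := fun j =>
    Derivation.mk' (AddMonoidHom.toIntLinearMap
      (AddMonoidHom.mk' (fun a => β.repr (D a) j) fun a b => by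
        rw [hadd, map_add, Finsupp.add_apply])) (by
      intro a b
      change β.repr (D (a * b)) j = a * β.repr (D b) j + b * β.repr (D a) j
      rw [hmul, ← hsmul, ← hsmul, map_add, map_smul, map_smul, Finsupp.add_apply,
        Finsupp.smul_apply, Finsupp.smul_apply, smul_eq_mul, smul_eq_mul])
  have hE : ∀ j a, E j a = β.repr (D a) j := fun _ _ => rfl
  let J : Finset (Module.Basis.ofVectorSpaceIndex L L') :=
    Finset.univ.biUnion fun i => (β.repr (D (x i))).support
  refine ⟨J.card, fun j => β (J.equivFin.symm j), fun j => E (J.equivFin.symm j),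
    fun j c => ?_, fun i => ?_⟩
  · rw [hE, hk, map_zero, Finsupp.zero_apply]
  · have h1 : D (x i) = ∑ j ∈ J, β j * ι (E j (x i)) := by
      have h2 := β.linearCombination_repr (D (x i))
      rw [Finsupp.linearCombination_apply, Finsupp.sum_of_support_subset (s := J) _
        (Finset.subset_biUnion_of_mem (fun i => (β.repr (D (x i))).support)
          (Finset.mem_univ i)) _ (fun j _ => zero_smul L (β j))] at h2
      refine h2.symm.trans (Finset.sum_congr rfl fun j _ => ?_)
      rw [hsmul, hE, mul_comm]
    refine h1.trans ?_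
    rw [← Finset.sum_coe_sort J]
    exact (J.equivFin.symm.sum_comp fun j : J => β j * ι (E j (x i))).symm

end Pool.Agent.Lib.MP_17a322_nt.VA.G
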