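import Pool.Agent.Lib.MP_17a322_nt.VA.G02
import Pool.Agent.Lib.MP_17a322_nt.VA.G10

/-!
VA, part G, job G11: tangent vectors of formal points are additive.

`F := FractionRing (PowerSeries L)`, `R := PowerSeries L`.

Proofs (complete).
`unique`: if `c • e = c' • e'` with `e b₀ = 1 = e' b₀` then `c = c'`, so `e = e'` (`IsFractionRing.injective`).
`zero`: `e i := algebraMap K R (o₀ A i)`, `zero_rep` (the vector `oL A F` is `algebraMap R F (algebraMap K R (o₀ A i))`); `coeff 1` of a constant is 0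
(`PowerSeries.coeff_C`; `algebraMap K R c = PowerSeries.C (algebraMap K L c)`).
`tan_aux` (two statements, for `P + Q` and `P - Q`): let `e, c`, `e', c'` be as in the definition for `P`, `Q`; `W a b := aeval (Sum.elim e e') (A.S a b) : R`.
By `S_pts` and `A.S_smul` `algebraMap (W a b) = γ * (A.x (P+Q) a * A.x (P-Q) b)` in `F`, `γ ≠ 0`.
`coeff 0 (W a b) = aeval (Sum.elim (oL A L) (oL A L)) (A.S a b) =: w a b` (`coeff_aeval` of G10). At the point `0, 0` over `L`: (`S_pts` for `0, 0`, `zero_rep`, `S_smul`)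
`w a b = γ₀ * (oL A L a * oL A L b)`, `γ₀ ≠ 0`, so `w b₀ b₀ = γ₀ ≠ 0` and `W b₀ b₀` is a unit of `R` (`PowerSeries.isUnit_iff_constantCoeff`).
So `A.x (P-Q) b₀ ≠ 0`, and `A.x (P+Q) a = (..) * algebraMap (W a b₀ * (W b₀ b₀)⁻¹)`: `e'' a := W a b₀ * u⁻¹` (`u` the unit) has
`e'' b₀ = 1`, `coeff 0 (e'' a) = w a b₀ / w b₀ b₀ = oL A L a`. So `Tan (P + Q) τ''` with `τ'' a = coeff 1 (e'' a)`; from `e'' a * W b₀ b₀ = W a b₀`:
`τ'' a * γ₀ + oL A L a * coeff 1 (W b₀ b₀) = coeff 1 (W a b₀)`, and `coeff 1 (W a b) = ∑ i, ∂₁ i (S a b) * τ i + ∑ i, ∂₂ i (S a b) * τ' i` with derivatives at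
`(o, o)` (`coeff_aeval`, `Fintype.sum_sum_type`). So `τ'' a = Λ a (τ, τ')` where `Λ` is additive in the pair: there are matrices `M₁, M₂` over `L` (not depending on `P, Q`)
with `τ'' = M₁ τ + M₂ τ'`: this is `tan_aux`. The same for `P - Q` with rows: `W b₀ b`, `M₁', M₂'`.
`add_sub`: `P + Q` has the tangent vector `M₁ τ + M₂ τ'`. With `Q = 0`: `P + 0 = P`, so `M₁ τ = τ` (uniqueness); with `P = 0`: `M₂ τ' = τ'`. So
`Tan (P + Q) (τ + τ')`. For the difference: `tan_aux` gives some `τ''` with `Tan (P - Q) τ''`; `(P - Q) + Q = P` gives `τ'' + τ' = τ`.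
-/

universe u

namespace Pool.Agent.Lib.MP_17a322_nt.VA.G

open MvPolynomial

section

variable {K : Type u} [Field K] {N : ℕ} (A : AV K N) {L : Type u} [Field L] [Algebra K L]

theorem Tan.unique {P : A.Pts (FractionRing (PowerSeries L))} {τ τ' : Fin (N + 1) → L}
    (h : Tan A P τ) (h' : Tan A P τ') : τ = τ' := by
  obtain ⟨e, c, hc, hx, hb, h0, h1⟩ := h
  obtain ⟨e', c', hc', hx', hb', h0', h1'⟩ := h'
  have hcc : c = c' := by
    have h2 := (hx A.b₀).symm.trans (hx' A.b₀)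
    rw [hb, hb', map_one, mul_one, mul_one] at h2
    exact h2
  funext i
  have h3 : e i = e' i := by
    have h2 := (hx i).symm.trans (hx' i)
    rw [← hcc] at h2
    exact IsFractionRing.injective (PowerSeries L) (FractionRing (PowerSeries L))
      (mul_left_cancel₀ hc h2)
  rw [← h1 i, ← h1' i, h3]

theorem Tan.zero : Tan A (0 : A.Pts (FractionRing (PowerSeries L))) 0 := by
  obtain ⟨c, hc, h⟩ := zero_rep A (FractionRing (PowerSeries L))
  have hC : ∀ i, algebraMap K (PowerSeries L) (o₀ A i) =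
      PowerSeries.C (algebraMap K L (o₀ A i)) := fun i => PowerSeries.algebraMap_apply
  refine ⟨fun i => algebraMap K (PowerSeries L) (o₀ A i), c, hc, fun i => ?_, ?_, fun i => ?_,
    fun i => ?_⟩
  · rw [h i, ← IsScalarTower.algebraMap_apply K (PowerSeries L)
      (FractionRing (PowerSeries L))]
    rfl
  · change algebraMap K (PowerSeries L) (o₀ A A.b₀) = 1
    rw [o_b₀, map_one]
  · change PowerSeries.coeff 0 (algebraMap K (PowerSeries L) (o₀ A i)) = _
    rw [hC, PowerSeries.coeff_C, if_pos rfl]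
    rfl
  · change PowerSeries.coeff 1 (algebraMap K (PowerSeries L) (o₀ A i)) = 0
    rw [hC, PowerSeries.coeff_C, if_neg one_ne_zero]

private theorem g11b_gamma (L : Type u) [Field L] [Algebra K L] :
    ∃ γ₀ : L, γ₀ ≠ 0 ∧ ∀ a b, aeval (Sum.elim (oL A L) (oL A L)) (A.S a b) =
      γ₀ * (oL A L a * oL A L b) := by
  obtain ⟨c, hc, h⟩ := zero_rep A L
  obtain ⟨d, hd, h'⟩ := S_pts A (0 : A.Pts L) 0
  refine ⟨d * c ^ 2 / (c ^ 2 * c ^ 2), div_ne_zero (mul_ne_zero hd (pow_ne_zero 2 hc))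
    (mul_ne_zero (pow_ne_zero 2 hc) (pow_ne_zero 2 hc)), fun a b => ?_⟩
  have h1 := h' a b
  have h2 : A.x (0 : A.Pts L) = fun i => c * oL A L i := funext h
  rw [add_zero, sub_zero, h2, Z_S_smul] at h1
  have h3 : c ^ 2 * c ^ 2 ≠ 0 := mul_ne_zero (pow_ne_zero 2 hc) (pow_ne_zero 2 hc)
  rw [div_mul_eq_mul_div, eq_div_iff h3]
  linear_combination h1

private theorem g11b_W (P Q : A.Pts (FractionRing (PowerSeries L))) {e e' : Fin (N + 1) → PowerSeries L}
    {c c' : FractionRing (PowerSeries L)} (hc : c ≠ 0) (hc' : c' ≠ 0)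
    (hP : ∀ i, A.x P i = c * algebraMap (PowerSeries L) _ (e i))
    (hQ : ∀ i, A.x Q i = c' * algebraMap (PowerSeries L) _ (e' i)) :
    ∃ γ : FractionRing (PowerSeries L), γ ≠ 0 ∧ ∀ a b,
      algebraMap (PowerSeries L) (FractionRing (PowerSeries L)) (aeval (Sum.elim e e') (A.S a b)) =
        γ * (A.x (P + Q) a * A.x (P - Q) b) := by
  obtain ⟨d, hd, h⟩ := S_pts A P Q
  have h0 : c ^ 2 * c' ^ 2 ≠ 0 := mul_ne_zero (pow_ne_zero 2 hc) (pow_ne_zero 2 hc')
  refine ⟨d / (c ^ 2 * c' ^ 2), div_ne_zero hd h0, fun a b => ?_⟩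
  have h1 := h a b
  have h2 : A.x P = fun i => c * algebraMap (PowerSeries L) (FractionRing (PowerSeries L)) (e i) :=
    funext hP
  have h3 : A.x Q = fun i => c' * algebraMap (PowerSeries L) (FractionRing (PowerSeries L)) (e' i) :=
    funext hQ
  have h5 : (Sum.elim (fun i => algebraMap (PowerSeries L) (FractionRing (PowerSeries L)) (e i))
      fun i => algebraMap (PowerSeries L) (FractionRing (PowerSeries L)) (e' i)) =
      fun t => algebraMap (PowerSeries L) (FractionRing (PowerSeries L)) (Sum.elim e e' t) := by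
    funext t
    rcases t with t | t <;> rfl
  have h6 : aeval (Sum.elim (A.x P) (A.x Q)) (A.S a b) = c ^ 2 * c' ^ 2 *
      algebraMap (PowerSeries L) (FractionRing (PowerSeries L)) (aeval (Sum.elim e e') (A.S a b)) := by
    rw [h2, h3, Z_S_smul, h5, ← aeval_algebraMap_apply]
    rfl
  rw [h6] at h1
  rw [div_mul_eq_mul_div, eq_div_iff h0]
  linear_combination h1

private theorem g11b_tan {Z : A.Pts (FractionRing (PowerSeries L))} {V : Fin (N + 1) → PowerSeries L}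
    {G : FractionRing (PowerSeries L)} {γ₀ : L} (hγ : γ₀ ≠ 0)
    (hV : ∀ i, algebraMap (PowerSeries L) (FractionRing (PowerSeries L)) (V i) = G * A.x Z i)
    (h0 : ∀ i, PowerSeries.coeff 0 (V i) = γ₀ * oL A L i) :
    Tan A Z fun i => γ₀⁻¹ * (PowerSeries.coeff 1 (V i) - oL A L i * PowerSeries.coeff 1 (V A.b₀)) := by
  have ho : oL A L A.b₀ = 1 := by
    unfold oL
    rw [o_b₀, map_one]
  have h1 : PowerSeries.coeff 0 (V A.b₀) = γ₀ := by rw [h0, ho, mul_one]
  have h2 : PowerSeries.constantCoeff (V A.b₀) ≠ 0 := by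
    rw [← PowerSeries.coeff_zero_eq_constantCoeff_apply, h1]
    exact hγ
  have h3 : V A.b₀ * (V A.b₀)⁻¹ = 1 := PowerSeries.mul_inv_cancel _ h2
  have h4 : V A.b₀ ≠ 0 := by
    intro h
    rw [h, map_zero] at h2
    exact h2 rfl
  have h5 : algebraMap (PowerSeries L) (FractionRing (PowerSeries L)) (V A.b₀) ≠ 0 := by
    intro h
    exact h4 ((map_eq_zero_iff _ (IsFractionRing.injective _ _)).1 h)
  have hG : G ≠ 0 := by
    rintro rfl
    exact h5 (by rw [hV, zero_mul])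
  have he : ∀ i, V i * (V A.b₀)⁻¹ * V A.b₀ = V i := by
    intro i
    rw [mul_assoc, mul_comm (V A.b₀)⁻¹, h3, mul_one]
  have he0 : ∀ i, PowerSeries.coeff 0 (V i * (V A.b₀)⁻¹) = oL A L i := by
    intro i
    have h6 := congrArg (PowerSeries.coeff 0) (he i)
    rw [PowerSeries.coeff_zero_eq_constantCoeff_apply, map_mul,
      ← PowerSeries.coeff_zero_eq_constantCoeff_apply,
      ← PowerSeries.coeff_zero_eq_constantCoeff_apply, h1, h0] at h6
    exact mul_right_cancel₀ hγ (h6.trans (mul_comm _ _))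
  refine ⟨fun i => V i * (V A.b₀)⁻¹,
    algebraMap (PowerSeries L) (FractionRing (PowerSeries L)) (V A.b₀) * G⁻¹,
    mul_ne_zero h5 (inv_ne_zero hG), fun i => ?_, h3, he0, fun i => ?_⟩
  · have h6 : algebraMap (PowerSeries L) (FractionRing (PowerSeries L)) (V i * (V A.b₀)⁻¹) *
        algebraMap (PowerSeries L) (FractionRing (PowerSeries L)) (V A.b₀) = G * A.x Z i := by
      rw [← map_mul, he, hV]
    calc A.x Z i = G⁻¹ * (G * A.x Z i) := (inv_mul_cancel_left₀ hG _).symm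
      _ = _ := by rw [← h6]; ring
  · have h6 := congrArg (PowerSeries.coeff 1) (he i)
    rw [PowerSeries.coeff_mul, Finset.Nat.antidiagonal_succ, Finset.sum_cons,
      Finset.sum_map, Finset.Nat.antidiagonal_zero, Finset.sum_singleton] at h6
    have h7 : oL A L i * PowerSeries.coeff 1 (V A.b₀) +
        PowerSeries.coeff 1 (V i * (V A.b₀)⁻¹) * γ₀ = PowerSeries.coeff 1 (V i) := by
      rw [← h6, ← he0 i, ← h1]
      rfl
    change PowerSeries.coeff 1 (V i * (V A.b₀)⁻¹) =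
      γ₀⁻¹ * (PowerSeries.coeff 1 (V i) - oL A L i * PowerSeries.coeff 1 (V A.b₀))
    rw [← h7, add_sub_cancel_left, mul_left_comm, inv_mul_cancel₀ hγ, mul_one]

private theorem g11b_coeff {e e' : Fin (N + 1) → PowerSeries L} {τ τ' : Fin (N + 1) → L}
    (he0 : ∀ i, PowerSeries.coeff 0 (e i) = oL A L i) (he0' : ∀ i, PowerSeries.coeff 0 (e' i) = oL A L i)
    (he1 : ∀ i, PowerSeries.coeff 1 (e i) = τ i) (he1' : ∀ i, PowerSeries.coeff 1 (e' i) = τ' i)
    (a b : Fin (N + 1)) :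
    PowerSeries.coeff 0 (aeval (Sum.elim e e') (A.S a b)) =
        aeval (Sum.elim (oL A L) (oL A L)) (A.S a b) ∧
      PowerSeries.coeff 1 (aeval (Sum.elim e e') (A.S a b)) =
        ∑ i, aeval (Sum.elim (oL A L) (oL A L)) (pderiv (Sum.inl i) (A.S a b)) * τ i +
        ∑ i, aeval (Sum.elim (oL A L) (oL A L)) (pderiv (Sum.inr i) (A.S a b)) * τ' i := by
  obtain ⟨h1, h2⟩ := coeff_aeval (A.S a b) (Sum.elim e e')
  have h3 : (fun i => PowerSeries.coeff 0 (Sum.elim e e' i)) = Sum.elim (oL A L) (oL A L) := by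
    funext i
    rcases i with i | i
    · exact he0 i
    · exact he0' i
  rw [h3] at h1 h2
  refine ⟨h1, h2.trans ?_⟩
  rw [Fintype.sum_sum_type]
  refine congrArg₂ (· + ·) (Finset.sum_congr rfl fun i _ => ?_) (Finset.sum_congr rfl fun i _ => ?_)
  · rw [Sum.elim_inl, he1]
  · rw [Sum.elim_inr, he1']

theorem tan_aux : ∃ M₁ M₂ : Matrix (Fin (N + 1)) (Fin (N + 1)) L,
    ∀ (P Q : A.Pts (FractionRing (PowerSeries L))) (τ τ' : Fin (N + 1) → L),
      Tan A P τ → Tan A Q τ' → Tan A (P + Q) (M₁.mulVec τ + M₂.mulVec τ') := by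
  obtain ⟨γ₀, hγ₀, hγ⟩ := g11b_gamma A L
  have ho : oL A L A.b₀ = 1 := by
    unfold oL
    rw [o_b₀, map_one]
  refine ⟨Matrix.of fun a i => γ₀⁻¹ *
      (aeval (Sum.elim (oL A L) (oL A L)) (pderiv (Sum.inl i) (A.S a A.b₀)) -
        oL A L a * aeval (Sum.elim (oL A L) (oL A L)) (pderiv (Sum.inl i) (A.S A.b₀ A.b₀))),
    Matrix.of fun a i => γ₀⁻¹ *
      (aeval (Sum.elim (oL A L) (oL A L)) (pderiv (Sum.inr i) (A.S a A.b₀)) -
        oL A L a * aeval (Sum.elim (oL A L) (oL A L)) (pderiv (Sum.inr i) (A.S A.b₀ A.b₀))), ?_⟩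
  rintro P Q τ τ' ⟨e, c, hc, hP, heb, he0, he1⟩ ⟨e', c', hc', hQ, heb', he0', he1'⟩
  obtain ⟨γ, -, hW⟩ := g11b_W A P Q hc hc' hP hQ
  have hco := g11b_coeff A he0 he0' he1 he1'
  have h1 := g11b_tan A (Z := P + Q) (V := fun a => aeval (Sum.elim e e') (A.S a A.b₀))
    (G := γ * A.x (P - Q) A.b₀) hγ₀ (fun a => by rw [hW]; ring)
    (fun a => by rw [(hco a A.b₀).1, hγ, ho, mul_one])
  have h2 : (fun i => γ₀⁻¹ * (PowerSeries.coeff 1 (aeval (Sum.elim e e') (A.S i A.b₀)) -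
      oL A L i * PowerSeries.coeff 1 (aeval (Sum.elim e e') (A.S A.b₀ A.b₀)))) =
      (Matrix.of fun a i => γ₀⁻¹ *
      (aeval (Sum.elim (oL A L) (oL A L)) (pderiv (Sum.inl i) (A.S a A.b₀)) -
        oL A L a * aeval (Sum.elim (oL A L) (oL A L)) (pderiv (Sum.inl i) (A.S A.b₀ A.b₀)))).mulVec τ +
      (Matrix.of fun a i => γ₀⁻¹ *
      (aeval (Sum.elim (oL A L) (oL A L)) (pderiv (Sum.inr i) (A.S a A.b₀)) -
        oL A L a * aeval (Sum.elim (oL A L) (oL A L)) (pderiv (Sum.inr i) (A.S A.b₀ A.b₀)))).mulVec τ' := by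
    funext a
    rw [(hco a A.b₀).2, (hco A.b₀ A.b₀).2, Pi.add_apply]
    unfold Matrix.mulVec dotProduct
    simp only [Matrix.of_apply]
    simp only [mul_add, mul_sub, sub_mul, Finset.mul_sum, Finset.sum_sub_distrib]
    simp only [mul_assoc]
    ring
  rw [← h2]
  exact h1

theorem tan_aux' (P Q : A.Pts (FractionRing (PowerSeries L))) (τ τ' : Fin (N + 1) → L)
    (hP : Tan A P τ) (hQ : Tan A Q τ') : ∃ τ'', Tan A (P - Q) τ'' := by
  obtain ⟨γ₀, hγ₀, hγ⟩ := g11b_gamma A L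
  have ho : oL A L A.b₀ = 1 := by
    unfold oL
    rw [o_b₀, map_one]
  obtain ⟨e, c, hc, hP, heb, he0, he1⟩ := hP
  obtain ⟨e', c', hc', hQ, heb', he0', he1'⟩ := hQ
  obtain ⟨γ, -, hW⟩ := g11b_W A P Q hc hc' hP hQ
  have hco := g11b_coeff A he0 he0' he1 he1'
  exact ⟨_, g11b_tan A (Z := P - Q) (V := fun b => aeval (Sum.elim e e') (A.S A.b₀ b))
    (G := γ * A.x (P + Q) A.b₀) hγ₀ (fun b => by rw [hW]; ring)
    (fun b => by rw [(hco A.b₀ b).1, hγ, ho, one_mul])⟩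

theorem Tan.add {P Q : A.Pts (FractionRing (PowerSeries L))} {τ τ' : Fin (N + 1) → L}
    (hP : Tan A P τ) (hQ : Tan A Q τ') : Tan A (P + Q) (τ + τ') := by
  obtain ⟨M₁, M₂, h⟩ := tan_aux (L := L) A
  have h1 := h P 0 τ 0 hP (Tan.zero A)
  rw [add_zero, Matrix.mulVec_zero, add_zero] at h1
  have h2 := h 0 Q 0 τ' (Tan.zero A) hQ
  rw [zero_add, Matrix.mulVec_zero, zero_add] at h2
  have h3 := h P Q τ τ' hP hQ
  rwa [Tan.unique A h1 hP, Tan.unique A h2 hQ] at h3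

theorem Tan.sub {P Q : A.Pts (FractionRing (PowerSeries L))} {τ τ' : Fin (N + 1) → L}
    (hP : Tan A P τ) (hQ : Tan A Q τ') : Tan A (P - Q) (τ - τ') := by
  obtain ⟨τ'', h⟩ := tan_aux' A P Q τ τ' hP hQ
  have h1 := Tan.add A h hQ
  rw [sub_add_cancel] at h1
  rw [Tan.unique A hP h1, add_sub_cancel_right]
  exact h

end

end Pool.Agent.Lib.MP_17a322_nt.VA.G
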