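import Pool.Agent.Lib.MP_17a322_nt.VA.G02
import Pool.Agent.Lib.MP_17a322_nt.VA.G16

/-!
VA, part G, job G18: fields generated by the ratios of the coordinates.

`RatGen A k y`: the field `L` is generated over `k` by the ratios of the coordinates of `y`.

Proofs (complete).
`exists_pt_sub` (a point whose ratios are in the image of a field homomorphism `φ`): let `A.x P j ≠ 0`; choose `z i` with `φ (z i) = A.x P i / A.x P j`; `z j = 1`, `z` is a zero of `A.I` (`φ` is injective and `A.x P / A.x P j` is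
a zero: `Z_isPt_smul`), so `Z_exists_pt` gives `P₀` with `A.x P₀ = c • z`, and `φ (A.x P₀ i) = φ c * (A.x P j)⁻¹ * A.x P i`.
`exists_ratGen`: `L₀ := IntermediateField.adjoin k (Set.range fun p : Fin (N+1) × Fin (N+1) => A.x y p.1 / A.x y p.2)`, `φ := L₀.val` (as a `K`-algebra homomorphism), `y₀` from `exists_pt_sub`; `loc` is the same by `loc_img`. `RatGen`: the ratios of `y₀` are the
ratios of `y` (as elements of `L₀`), and `adjoin k` of the set of the generators inside `L₀` is `⊤` (`IntermediateField.adjoin_val_.. `/`IntermediateField.lift_adjoin`, `IntermediateField.lift_top`, or: every element of `L₀` is in it by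
`IntermediateField.adjoin_induction`). `L₀` has the instances `Algebra K L₀`, `IsScalarTower K k L₀` (define `Algebra K L₀` by composition if needed: `((algebraMap k L₀).comp (algebraMap K k)).toAlgebra`).
`frac_of_ratGen`: the set of the `f ∈ L` of the form `g (x) / h (x)`, `g, h` homogeneous of the same degree, `h (x) ≠ 0`, is a subfield which contains `k` and the ratios (for `x p.2 = 0` the ratio is 0; otherwise `X p.1 / X p.2`): `IntermediateField.adjoin_induction`
(sum: `(g h' + g' h) / (h h')`; inverse: `h / g` or 0).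
`lift_generic`: let `x := A.x y`, `z := A.x t`, `loc k x = loc k z`; choose `j` with `x j ≠ 0`; then `z j ≠ 0` (`X j ∉ loc k x`, `mem_loc_of_homog`). Let `x' i := x i / x j`, `z' i := z i / z j`. For every `g : MvPolynomial (Fin (N+1)) k`:
`aeval x' g = 0 ↔ aeval z' g = 0`: `exists_homogenize` (G16) with `w = x`, `w' = x'`, `c = x j`: `aeval x G = x j ^ d * aeval x' g`, and the same for `z`; `aeval x G = 0 ↔ G ∈ loc k x ↔ G ∈ loc k z ↔ aeval z G = 0`. So
there is a `k`-algebra homomorphism from `Algebra.adjoin k (range x')` (the range of `aeval x'`) to `L'` with `x' i ↦ z' i`, injective; it extends to the field of fractions `IntermediateField.adjoin k (range x')` [`IsFractionRing (Algebra.adjoin k s) (IntermediateField.adjoin k s)` is an instance of Mathlib,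
`IsFractionRing.liftAlgHom`], which is `⊤` by `RatGen` (the ratios `x a / x b = x' a / x' b` are in it). So `σ : L →ₐ[k] L'` with `σ (x' i) = z' i`. Then `σ (x i) = σ (x j) * σ (x' i) = (σ (x j) / z j) * z i`.
-/

universe u

namespace Pool.Agent.Lib.MP_17a322_nt.VA.G

open MvPolynomial

section

variable {K : Type u} [Field K] {N : ℕ} (A : AV K N)

/-- A point with rational ratios. -/
theorem exists_pt_sub {L₀ L : Type u} [Field L₀] [Algebra K L₀] [Field L] [Algebra K L]
    (φ : L₀ →ₐ[K] L) (P : A.Pts L) (h : ∀ i j, A.x P i / A.x P j ∈ φ.range) :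
    ∃ P₀ : A.Pts L₀, A.Img φ P₀ P := by
  have hinj : Function.Injective (fun a : L₀ => φ a) := φ.toRingHom.injective
  obtain ⟨j, hj⟩ := A.exists_x_ne P
  choose z hz using fun i => h i j
  have hz' : ∀ i, φ (z i) = A.x P i / A.x P j := hz
  have hzj : z j ≠ 0 := by
    intro h0
    have h1 := hz' j
    rw [h0, map_zero, div_self hj] at h1
    exact zero_ne_one h1
  have hz0 : z ≠ 0 := fun h0 => hzj (congrFun h0 j)
  have hpt : A.IsPt z := by
    intro f hf
    apply hinj
    beta_reduce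
    rw [map_zero, ← AlgHom.comp_apply, MvPolynomial.comp_aeval]
    have h2 : (fun i => φ (z i)) = fun i => (A.x P j)⁻¹ * A.x P i := by
      funext i
      rw [hz' i, div_eq_inv_mul]
    rw [h2]
    exact Z_isPt_smul A (Z_x_isPt A P) _ f hf
  obtain ⟨P₀, c, hc, hx⟩ := Z_exists_pt A hz0 hpt
  refine ⟨P₀, φ c * (A.x P j)⁻¹, mul_ne_zero (fun h0 => hc ?_) (inv_ne_zero hj), fun i => ?_⟩
  · exact hinj (h0.trans (map_zero φ).symm)
  · rw [hx i, map_mul, hz' i, div_eq_inv_mul, mul_assoc]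

/-- The field `L` is generated over `k` by the ratios of the coordinates of `y`. -/
def RatGen (k : Type u) [Field k] {L : Type u} [Field L] [Algebra K L] [Algebra k L]
    (y : A.Pts L) : Prop :=
  IntermediateField.adjoin k (Set.range fun p : Fin (N + 1) × Fin (N + 1) =>
    A.x y p.1 / A.x y p.2) = ⊤

variable {k : Type u} [Field k] [Algebra K k]

theorem exists_ratGen {L : Type u} [Field L] [Algebra K L] [Algebra k L] [IsScalarTower K k L]
    (y : A.Pts L) : ∃ (L₀ : Type u) (_ : Field L₀) (_ : Algebra K L₀) (_ : Algebra k L₀)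
      (_ : IsScalarTower K k L₀) (y₀ : A.Pts L₀), loc k (A.x y₀) = loc k (A.x y) ∧
        RatGen A k y₀ := by
  let L₀ : IntermediateField k L := IntermediateField.adjoin k
    (Set.range fun p : Fin (N + 1) × Fin (N + 1) => A.x y p.1 / A.x y p.2)
  obtain ⟨y₀, hy₀⟩ := exists_pt_sub A (L₀.val.restrictScalars K) y (fun i j =>
    ⟨⟨A.x y i / A.x y j, IntermediateField.subset_adjoin k _ ⟨(i, j), rfl⟩⟩, rfl⟩)
  refine ⟨L₀, inferInstance, inferInstance, inferInstance, inferInstance, y₀,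
    (loc_img A L₀.val hy₀).symm, ?_⟩
  obtain ⟨c, hc, hx⟩ := hy₀
  have hx' : ∀ i, L₀.val (A.x y₀ i) = c * A.x y i := hx
  have h1 : (IntermediateField.adjoin k (Set.range fun p : Fin (N + 1) × Fin (N + 1) =>
      A.x y₀ p.1 / A.x y₀ p.2)).map L₀.val = L₀ := by
    rw [IntermediateField.adjoin_map, ← Set.range_comp]
    have h2 : (L₀.val ∘ fun p : Fin (N + 1) × Fin (N + 1) => A.x y₀ p.1 / A.x y₀ p.2) =
        fun p : Fin (N + 1) × Fin (N + 1) => A.x y p.1 / A.x y p.2 := by
      funext p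
      show L₀.val (A.x y₀ p.1 / A.x y₀ p.2) = A.x y p.1 / A.x y p.2
      rw [map_div₀, hx', hx', mul_div_mul_left _ _ hc]
    rw [h2]
  unfold RatGen
  rw [eq_top_iff]
  intro z _
  have h3 : (z : L) ∈ (IntermediateField.adjoin k (Set.range fun p : Fin (N + 1) × Fin (N + 1) =>
      A.x y₀ p.1 / A.x y₀ p.2)).map L₀.val := by
    rw [h1]
    exact z.2
  obtain ⟨w, hw, hwz⟩ := h3
  have h4 : w = z := Subtype.ext hwz
  rw [← h4]
  exact hw

variable {L : Type u} [Field L] [Algebra K L] [Algebra k L] [IsScalarTower K k L] {y : A.Pts L}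
  (hy : RatGen A k y)

include hy

theorem frac_of_ratGen (f : L) : ∃ (d : ℕ) (g h : MvPolynomial (Fin (N + 1)) k),
    g.IsHomogeneous d ∧ h.IsHomogeneous d ∧ aeval (A.x y) h ≠ 0 ∧
      f = aeval (A.x y) g / aeval (A.x y) h := by
  have hf : f ∈ IntermediateField.adjoin k (Set.range fun p : Fin (N + 1) × Fin (N + 1) =>
      A.x y p.1 / A.x y p.2) := by
    rw [hy]
    exact IntermediateField.mem_top
  have h00 : ∃ (d : ℕ) (g h : MvPolynomial (Fin (N + 1)) k),
      g.IsHomogeneous d ∧ h.IsHomogeneous d ∧ aeval (A.x y) h ≠ 0 ∧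
        (0 : L) = aeval (A.x y) g / aeval (A.x y) h := by
    refine ⟨0, 0, 1, isHomogeneous_zero _ _ _, isHomogeneous_one _ _, ?_, ?_⟩
    · rw [map_one]
      exact one_ne_zero
    · rw [map_zero, zero_div]
  refine IntermediateField.adjoin_induction (p := fun f _ => ∃ (d : ℕ)
    (g h : MvPolynomial (Fin (N + 1)) k), g.IsHomogeneous d ∧ h.IsHomogeneous d ∧
      aeval (A.x y) h ≠ 0 ∧ f = aeval (A.x y) g / aeval (A.x y) h) k ?_ ?_ ?_ ?_ ?_ hf
  · rintro _ ⟨p, rfl⟩
    beta_reduce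
    by_cases hp : A.x y p.2 = 0
    · rw [hp, div_zero]
      exact h00
    · refine ⟨1, X p.1, X p.2, isHomogeneous_X _ _, isHomogeneous_X _ _, ?_, ?_⟩
      · rw [aeval_X]
        exact hp
      · rw [aeval_X, aeval_X]
  · intro c
    refine ⟨0, C c, 1, isHomogeneous_C _ _, isHomogeneous_one _ _, ?_, ?_⟩
    · rw [map_one]
      exact one_ne_zero
    · rw [map_one, div_one, aeval_C]
  · rintro _ _ _ _ ⟨d₁, g₁, h₁, hg₁, hh₁, hn₁, rfl⟩ ⟨d₂, g₂, h₂, hg₂, hh₂, hn₂, rfl⟩
    refine ⟨d₁ + d₂, g₁ * h₂ + h₁ * g₂, h₁ * h₂, (hg₁.mul hh₂).add (hh₁.mul hg₂), hh₁.mul hh₂,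
      ?_, ?_⟩
    · rw [map_mul]
      exact mul_ne_zero hn₁ hn₂
    · rw [map_add, map_mul, map_mul, map_mul, div_add_div _ _ hn₁ hn₂]
  · rintro _ _ ⟨d₁, g₁, h₁, hg₁, hh₁, hn₁, rfl⟩
    by_cases h0 : aeval (A.x y) g₁ = 0
    · rw [h0, zero_div, inv_zero]
      exact h00
    · exact ⟨d₁, h₁, g₁, hh₁, hg₁, h0, inv_div _ _⟩
  · rintro _ _ _ _ ⟨d₁, g₁, h₁, hg₁, hh₁, hn₁, rfl⟩ ⟨d₂, g₂, h₂, hg₂, hh₂, hn₂, rfl⟩
    refine ⟨d₁ + d₂, g₁ * g₂, h₁ * h₂, hg₁.mul hg₂, hh₁.mul hh₂, ?_, ?_⟩
    · rw [map_mul]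
      exact mul_ne_zero hn₁ hn₂
    · rw [map_mul, map_mul, div_mul_div_comm]

theorem lift_generic {L' : Type u} [Field L'] [Algebra K L'] [Algebra k L'] [IsScalarTower K k L']
    (t : A.Pts L') (h : loc k (A.x y) = loc k (A.x t)) :
    ∃ σ : L →ₐ[k] L', A.Img (σ.restrictScalars K) y t := by
  obtain ⟨j, hj⟩ := Function.ne_iff.1 (Z_x_ne A y)
  have hj0 : A.x y j ≠ 0 := hj
  have hzj : A.x t j ≠ 0 := by
    intro h0
    apply hj0
    have h1 : (X j : MvPolynomial (Fin (N + 1)) k) ∈ loc k (A.x t) := by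
      rw [mem_loc_of_homog (isHomogeneous_X k j), aeval_X]
      exact h0
    rw [← h, mem_loc_of_homog (isHomogeneous_X k j), aeval_X] at h1
    exact h1
  obtain ⟨x', hx'⟩ : ∃ x' : Fin (N + 1) → L, x' = fun i => A.x y i / A.x y j := ⟨_, rfl⟩
  obtain ⟨z', hz'⟩ : ∃ z' : Fin (N + 1) → L', z' = fun i => A.x t i / A.x t j := ⟨_, rfl⟩
  have hxx' : ∀ i, A.x y i = A.x y j * x' i := by
    intro i
    rw [hx']
    exact (mul_div_cancel₀ _ hj0).symm
  have hzz' : ∀ i, A.x t i = A.x t j * z' i := by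
    intro i
    rw [hz']
    exact (mul_div_cancel₀ _ hzj).symm
  have hker : ∀ p : MvPolynomial (Fin (N + 1)) k, aeval x' p = 0 ↔ aeval z' p = 0 := by
    intro p
    obtain ⟨d, G, hG, hh⟩ := exists_homogenize j p
    have e1 := hh L (A.x y) x' (A.x y j) (hxx' j).symm hxx'
    have e2 := hh L' (A.x t) z' (A.x t j) (hzz' j).symm hzz'
    have e3 : aeval (A.x y) G = 0 ↔ aeval (A.x t) G = 0 := by
      rw [← mem_loc_of_homog hG, ← mem_loc_of_homog hG, h]
    rw [e1, e2, mul_eq_zero, mul_eq_zero] at e3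
    have n1 := pow_ne_zero d hj0
    have n2 := pow_ne_zero d hzj
    constructor
    · intro h0
      exact (e3.1 (Or.inr h0)).resolve_left n2
    · intro h0
      exact (e3.2 (Or.inr h0)).resolve_left n1
  have htop : IntermediateField.adjoin k (Set.range x') = ⊤ := by
    refine top_unique ?_
    have h1 : IntermediateField.adjoin k (Set.range fun p : Fin (N + 1) × Fin (N + 1) =>
        A.x y p.1 / A.x y p.2) = ⊤ := hy
    rw [← h1, IntermediateField.adjoin_le_iff]
    rintro _ ⟨p, rfl⟩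
    have h2 : A.x y p.1 / A.x y p.2 = x' p.1 / x' p.2 := by
      rw [hxx' p.1, hxx' p.2, mul_div_mul_left _ _ hj0]
    change A.x y p.1 / A.x y p.2 ∈ IntermediateField.adjoin k (Set.range x')
    rw [h2]
    exact div_mem (IntermediateField.subset_adjoin k _ ⟨p.1, rfl⟩)
      (IntermediateField.subset_adjoin k _ ⟨p.2, rfl⟩)
  obtain ⟨F, hF⟩ : ∃ F : MvPolynomial (Fin (N + 1)) k →ₐ[k] L, F = aeval x' := ⟨_, rfl⟩
  have : IsFractionRing F.range L := by
    refine IsFractionRing.of_field F.range L fun a => ?_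
    have ha : a ∈ IntermediateField.adjoin k (Set.range x') := by
      rw [htop]
      exact IntermediateField.mem_top
    obtain ⟨r, s, hrs⟩ := (IntermediateField.mem_adjoin_range_iff k x' a).1 ha
    refine ⟨⟨F r, r, rfl⟩, ⟨F s, s, rfl⟩, ?_⟩
    rw [hrs, hF]
    rfl
  have hsurj : Function.Surjective F.rangeRestrict := F.rangeRestrict_surjective
  obtain ⟨h0, hh0⟩ : ∃ h0 : F.range →ₐ[k] L', ∀ p, h0 (F.rangeRestrict p) = aeval z' p := by
    refine ⟨AlgHom.liftOfSurjective F.rangeRestrict hsurj (aeval z') ?_,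
      fun p => AlgHom.liftOfSurjective_apply _ _ _ _ p⟩
    intro p hp
    have h1 : F.rangeRestrict p = 0 := hp
    have h2 : F p = 0 := congrArg Subtype.val h1
    rw [hF] at h2
    exact (hker p).1 h2
  have hinj : Function.Injective h0 := by
    rw [injective_iff_map_eq_zero]
    intro a ha
    obtain ⟨p, rfl⟩ := hsurj a
    rw [hh0] at ha
    have h1 : F p = 0 := by
      rw [hF]
      exact (hker p).2 ha
    exact Subtype.ext h1
  obtain ⟨σ, hσ⟩ : ∃ σ : L →ₐ[k] L', ∀ a : F.range, σ (algebraMap F.range L a) = h0 a :=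
    ⟨IsFractionRing.liftAlgHom hinj, fun a => IsFractionRing.lift_algebraMap hinj a⟩
  have hσx : ∀ i, σ (x' i) = z' i := by
    intro i
    have h1 := hσ (F.rangeRestrict (X i))
    rw [hh0, aeval_X] at h1
    have h2 : algebraMap F.range L (F.rangeRestrict (X i)) = x' i := by
      change F (X i) = x' i
      rw [hF, aeval_X]
    rw [h2] at h1
    exact h1
  refine ⟨σ, σ (A.x y j) / A.x t j, ?_, fun i => ?_⟩
  · exact div_ne_zero ((map_ne_zero σ).2 hj0) hzj
  · change σ (A.x y i) = _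
    rw [hxx' i, map_mul, hσx i, hzz' i, ← mul_assoc, div_mul_cancel₀ _ hzj]

end

end Pool.Agent.Lib.MP_17a322_nt.VA.G
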