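import Pool.Agent.Lib.MP_17a322_nt.VA.G05b

/-!
VA, part G, job G19: constant translates avoid a hypersurface.

Proof (complete). Let `I := 𝔟 = loc k (A.x y)`, a prime ideal (`loc_isPrime`), `H c := addP A k h c` (`c : Fin (N+1)`), bihomogeneous of bidegree `(d * 2, d * 2)` (`BiH_addP`).
Suppose that `aeval (A.x (p + b')) h = 0` for all `b, b'` as in the statement. Claim:
(1) for every field `κ'` (with `Algebra K κ'`, `Algebra k κ'`, tower), every `j : κ →ₐ[k] κ'`, the image `p'` of `p` under `j`, every zero `Q : A.Pts κ'` of `𝔟`: `aeval (A.x (p' + Q)) h = 0`.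
Contradiction from (1): `exists_pair K k κ L` (G03b) gives `κ'`, `j : κ →ₐ[k] κ'`, `i : L →ₐ[k] κ'`; `y'` the image of `y` under `i`, `Q := y' - p'` is a zero of `𝔟` (`GrpI`, `ZP_img`), `p' + Q = y'`, so `aeval (A.x y') h = 0`, `h ∈ loc k (A.x y') = loc k (A.x y) = 𝔟`
(`mem_loc_of_homog`, `loc_img`): contradiction.
Proof of (1). Fix `c`. Let `β` be a basis of `κ` over `k` (`Module.Basis.ofVectorSpace`). Write `H c = ∑ (m, n), C (a m n) * X^m * Y^n`. Then for a vector `v` with entries in a commutative `k`-algebra... : `aeval (Sum.elim (A.x p) v) (H c) = ∑ (m, n), a m n * (A.x p)^m * v^n`. Expand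
`(A.x p)^m = ∑ l, γ m l • β l` (finite sums), and let `H' l := ∑ (m, n), C (a m n * γ m l) * Y^n : MvPolynomial (Fin (N+1)) k`, homogeneous of degree `d * 2`, so that
(2) for every field `κ'`, `j : κ →ₐ[k] κ'` and `v : Fin (N+1) → κ'`: `aeval (Sum.elim (j ∘ A.x p) v) (H c) = ∑ l, j (β l) * aeval v (H' l)`.
For a zero `b : A.Pts k` of `𝔟` with image `b'` in `A.Pts κ` the value of `H c` at `(A.x p, algebraMap k κ ∘ A.x b)` is 0 by assumption, `aeval_addP` and `aeval_smul_BiH`. By (2) with `j = id`, `v = algebraMap k κ ∘ A.x b` and the independence of the `β l` over `k`: `aeval (A.x b) (H' l) = 0` for all `l`.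
So `H' l` vanishes at all `v ∈ k^(N+1)` which are zeros of `𝔟`: if `v ≠ 0`, `v` is a representative of a point `b` which is a zero of `𝔟` (`Z_exists_pt`; `v` is a zero of `A.I`: the elements of `A.I` mapped to `k[X]` are in `loc k (A.x y) = 𝔟` (`map_mem_loc`, `Z_x_isPt`)); if `v = 0`: `H' l` is homogeneous of degree `d * 2`; for `d ≥ 1` it vanishes at 0; for
`d = 0` `h` is a constant `C h₀`, the assumption (for `b = 0`) gives `h₀ = 0`, so `h = 0 ∈ 𝔟`, contradiction at once. By the Nullstellensatz (`MvPolynomial.IsPrime.vanishingIdeal_zeroLocus` with `K := k`, file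
Mathlib/RingTheory/Nullstellensatz.lean) `H' l ∈ 𝔟`. So for a zero `Q : A.Pts κ'` of `𝔟` (1) follows: by (2) with `v = A.x Q` `H c` vanishes at `(j ∘ A.x p, A.x Q)`, so by `aeval_addP` (`A.x p' = c' • j ∘ A.x p`, `aeval_smul_BiH`) `(γ * A.x (p' - Q) c) ^ d * aeval (A.x (p' + Q)) h = 0` for all `c`; choose `c` with
`A.x (p' - Q) c ≠ 0`.
[Existence of the `H' l`: it may be easier to prove (2) as a separate private lemma for an arbitrary `H : MvPolynomial (Fin n ⊕ Fin n') k` and vector `x : Fin n → κ` : there are `m`, `β : Fin m → κ` linearly independent over `k` and `H' : Fin m → MvPolynomial (Fin n') k` with (2), and `H'` is homogeneous of degree `e` if `BiH d e H`: take for `β` a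
basis of the span of the finitely many elements `∏ i, x i ^ m i`.]
-/

universe u

namespace Pool.Agent.Lib.MP_17a322_nt.VA.G

open MvPolynomial

section

/-- Specialisation of the first group of variables. -/
theorem exists_slices {k κ : Type u} [Field k] [Field κ] [Algebra k κ] {n n' d e : ℕ}
    {H : MvPolynomial (Fin n ⊕ Fin n') k} (hH : BiH d e H) (x : Fin n → κ) :
    ∃ (m : ℕ) (β : Fin m → κ) (H' : Fin m → MvPolynomial (Fin n') k), LinearIndependent k β ∧
      (∀ l, (H' l).IsHomogeneous e) ∧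
      ∀ (R : Type u) [CommRing R] [Algebra k R] (j : κ →ₐ[k] R) (v : Fin n' → R),
        aeval (Sum.elim (fun i => j (x i)) v) H = ∑ l, j (β l) * aeval v (H' l) := by
  classical
  obtain ⟨y, hy⟩ : ∃ y : (Fin n ⊕ Fin n' →₀ ℕ) → κ, y = fun mm => ∏ i, x i ^ mm (Sum.inl i) :=
    ⟨_, rfl⟩
  obtain ⟨W, hW⟩ : ∃ W : Submodule k κ,
      W = Submodule.span k (y '' (H.support : Set (Fin n ⊕ Fin n' →₀ ℕ))) := ⟨_, rfl⟩
  have : FiniteDimensional k W := by
    rw [hW]
    exact FiniteDimensional.span_of_finite k ((H.support.finite_toSet).image y)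
  have hyW : ∀ mm ∈ H.support, y mm ∈ W := by
    intro mm hmm
    rw [hW]
    exact Submodule.subset_span ⟨mm, hmm, rfl⟩
  obtain ⟨b, -⟩ : ∃ b : Module.Basis (Fin (Module.finrank k W)) k W, True :=
    ⟨Module.finBasis k W, trivial⟩
  obtain ⟨γ, hγ⟩ : ∃ γ : (Fin n ⊕ Fin n' →₀ ℕ) → Fin (Module.finrank k W) → k,
      ∀ mm ∈ H.support, y mm = ∑ l, γ mm l • ((b l : W) : κ) := by
    refine ⟨fun mm l => if h : y mm ∈ W then b.repr ⟨y mm, h⟩ l else 0, fun mm hmm => ?_⟩
    have h2 := congrArg (W.subtype) (b.sum_repr ⟨y mm, hyW mm hmm⟩)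
    rw [map_sum] at h2
    refine h2.symm.trans (Finset.sum_congr rfl fun l _ => ?_)
    rw [map_smul]
    beta_reduce
    rw [dif_pos (hyW mm hmm)]
    rfl
  obtain ⟨r, hr⟩ : ∃ r : (Fin n ⊕ Fin n' →₀ ℕ) → (Fin n' →₀ ℕ),
      r = fun mm => Finsupp.equivFunOnFinite.symm fun i => mm (Sum.inr i) := ⟨_, rfl⟩
  have hri : ∀ mm i, r mm i = mm (Sum.inr i) := by
    intro mm i
    rw [hr]
    rfl
  refine ⟨Module.finrank k W, fun l => ((b l : W) : κ),
    fun l => ∑ mm ∈ H.support, monomial (r mm) (coeff mm H * γ mm l),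
    b.linearIndependent.map' W.subtype (Submodule.ker_subtype W), fun l => ?_, ?_⟩
  · refine IsHomogeneous.sum _ _ _ fun mm hmm => isHomogeneous_monomial _ ?_
    rw [Finsupp.degree_eq_sum]
    simp only [hri]
    exact (hH mm hmm).2
  · intro R _ _ j v
    have h1 : ∀ mm, aeval v (monomial (r mm) (1 : k)) = ∏ i, v i ^ mm (Sum.inr i) := by
      intro mm
      rw [aeval_monomial, map_one, one_mul, Finsupp.prod_fintype _ _ fun i => pow_zero _]
      simp only [hri]
    have h2 : ∀ mm (a : k), aeval v (monomial (r mm) a) =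
        algebraMap k R a * ∏ i, v i ^ mm (Sum.inr i) := by
      intro mm a
      rw [aeval_monomial, Finsupp.prod_fintype _ _ fun i => pow_zero _]
      simp only [hri]
    have h3 : aeval (Sum.elim (fun i => j (x i)) v) H =
        ∑ mm ∈ H.support, algebraMap k R (coeff mm H) * (j (y mm) *
          ∏ i, v i ^ mm (Sum.inr i)) := by
      rw [aeval_def, eval₂_eq']
      refine Finset.sum_congr rfl fun mm _ => ?_
      rw [Fintype.prod_sum_type, hy]
      simp only [Sum.elim_inl, Sum.elim_inr, map_prod, map_pow]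
    rw [h3]
    simp only [map_sum, h2, Finset.mul_sum]
    rw [Finset.sum_comm]
    refine Finset.sum_congr rfl fun mm hmm => ?_
    rw [hγ mm hmm, map_sum, Finset.sum_mul, Finset.mul_sum]
    refine Finset.sum_congr rfl fun l _ => ?_
    rw [map_smul, map_mul, Algebra.smul_def]
    ring

variable {K : Type u} [Field K] {N : ℕ} (A : AV K N) {k : Type u} [Field k] [Algebra K k]
  [IsAlgClosed k] {𝔟 : Ideal (MvPolynomial (Fin (N + 1)) k)} {L : Type u} [Field L] [Algebra K L]
  [Algebra k L] [IsScalarTower K k L] (h𝔟 : GrpI A 𝔟)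

include h𝔟

theorem exists_translate {y : A.Pts L} (hy : loc k (A.x y) = 𝔟) {κ : Type u} [Field κ]
    [Algebra K κ] [Algebra k κ] [IsScalarTower K k κ] (p : A.Pts κ) (hp : ZP A 𝔟 p)
    {h : MvPolynomial (Fin (N + 1)) k} {d : ℕ} (hd : h.IsHomogeneous d) (hh : h ∉ 𝔟) :
    ∃ (b : A.Pts k) (b' : A.Pts κ), ZP A 𝔟 b ∧ A.Img (IsScalarTower.toAlgHom K k κ) b b' ∧
      aeval (A.x (p + b')) h ≠ 0 := by
  by_contra hcon
  have hcon' : ∀ (b : A.Pts k) (b' : A.Pts κ), ZP A 𝔟 b →
      A.Img (IsScalarTower.toAlgHom K k κ) b b' → aeval (A.x (p + b')) h = 0 := by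
    intro b b' h1 h2
    by_contra h3
    exact hcon ⟨b, b', h1, h2, h3⟩
  -- the degree is positive
  have hd0 : d ≠ 0 := by
    rintro rfl
    have h1 := hcon' 0 0 h𝔟.1 (Z_img_zero A _)
    have h2 : h.totalDegree = 0 := Nat.le_zero.1 hd.totalDegree_le
    rw [totalDegree_eq_zero_iff_eq_C] at h2
    rw [h2, aeval_C] at h1
    have h3 : coeff 0 h = 0 := (map_eq_zero _).1 h1
    rw [h3, C_0] at h2
    exact hh (h2 ▸ 𝔟.zero_mem)
  have hprime : 𝔟.IsPrime := hy ▸ loc_isPrime
  have hhom : ∀ G ∈ 𝔟, ∀ d, homogeneousComponent d G ∈ 𝔟 := by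
    intro G hG d
    rw [← hy] at hG ⊢
    exact comp_mem_loc hG d
  -- the slices are in the ideal
  have hslice : ∀ c : Fin (N + 1), ∀ (m : ℕ) (β : Fin m → κ)
      (H' : Fin m → MvPolynomial (Fin (N + 1)) k), LinearIndependent k β →
      (∀ l, (H' l).IsHomogeneous (d * 2)) →
      (∀ (R : Type u) [CommRing R] [Algebra k R] (j : κ →ₐ[k] R) (v : Fin (N + 1) → R),
        aeval (Sum.elim (fun i => j (A.x p i)) v) (addP A k h c) =
          ∑ l, j (β l) * aeval v (H' l)) → ∀ l, H' l ∈ 𝔟 := by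
    intro c m β H' hβ hH' hsum l
    have hV := IsPrime.vanishingIdeal_zeroLocus (K := k) 𝔟
    rw [← hV, mem_vanishingIdeal_iff]
    intro v hv
    rw [mem_zeroLocus_iff] at hv
    by_cases hv0 : v = 0
    · have h1 := aeval_smul_of_homog (hH' l) (0 : Fin (N + 1) → k) 0
      have h2 : (fun i => (0 : k) * (0 : Fin (N + 1) → k) i) = v := by
        rw [hv0]
        funext i
        simp
      rw [h2] at h1
      rw [h1, zero_pow (by omega), zero_mul]
    have hvpt : A.IsPt v := by
      intro f hf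
      have h1 : f ∈ loc K (A.x y) := by
        rw [mem_loc]
        intro d
        exact Z_x_isPt A y _ (A.homog f hf d)
      have h2 : map (algebraMap K k) f ∈ 𝔟 := by
        rw [← hy]
        exact map_mem_loc.2 h1
      have h3 := hv _ h2
      rw [aeval_map_algebraMap] at h3
      exact h3
    obtain ⟨b, c₀, hc₀, hb⟩ := Z_exists_pt A hv0 hvpt
    have hbx : A.x b = fun i => c₀ * v i := funext hb
    have hZb : ZP A 𝔟 b := by
      refine le_loc hhom fun G hG d' hG' => ?_
      rw [hbx, aeval_smul_of_homog hG', hv G hG, mul_zero]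
    obtain ⟨b', hb'⟩ := Z_exists_img A (IsScalarTower.toAlgHom K k κ) b
    have h0 := hcon' b b' hZb hb'
    obtain ⟨c₁, hc₁, hb1⟩ := hb'
    obtain ⟨e, he, hE⟩ := aeval_addP (k := k) A p b'
    have h4 := hsum κ (AlgHom.id k κ) (fun i => algebraMap k κ (A.x b i))
    have h5 : aeval (Sum.elim (fun i => (AlgHom.id k κ) (A.x p i))
        fun i => algebraMap k κ (A.x b i)) (addP A k h c) = 0 := by
      have h6 : (Sum.elim (fun i => (AlgHom.id k κ) (A.x p i))
          fun i => algebraMap k κ (A.x b i) : Fin (N + 1) ⊕ Fin (N + 1) → κ) =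
          Sum.elim (fun i => 1 * A.x p i) fun i => c₁ * A.x b' i := by
        funext i
        rcases i with i | i
        · simp
        · exact hb1 i
      rw [h6, aeval_smul_BiH (BiH_addP A hd c), hE h d hd c, h0]
      simp
    rw [h5] at h4
    have h7 : ∑ l, aeval (A.x b) (H' l) • β l = 0 := by
      rw [h4]
      refine Finset.sum_congr rfl fun l _ => ?_
      have h8 : aeval (fun i => algebraMap k κ (A.x b i)) (H' l) =
          algebraMap k κ (aeval (A.x b) (H' l)) := by
        have h9 := aeval_algebraMap_apply κ (A.x b) (H' l)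
        exact h9
      rw [h8, Algebra.smul_def, mul_comm]
      rfl
    have h10 := Fintype.linearIndependent_iff.1 hβ _ h7 l
    rw [hbx, aeval_smul_of_homog (hH' l)] at h10
    exact (mul_eq_zero.1 h10).resolve_left (pow_ne_zero _ hc₀)
  -- translates of all zeros
  have key : ∀ (κ' : Type u) [Field κ'] [Algebra K κ'] [Algebra k κ'] [IsScalarTower K k κ']
      (j : κ →ₐ[k] κ') (p' Q : A.Pts κ'), A.Img (j.restrictScalars K) p p' → ZP A 𝔟 Q →
      aeval (A.x (p' + Q)) h = 0 := by
    intro κ' _ _ _ _ j p' Q hp' hQ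
    obtain ⟨c, hc⟩ : ∃ c, A.x (p' - Q) c ≠ 0 := by
      by_contra hcon
      push Not at hcon
      exact Z_x_ne A (p' - Q) (funext hcon)
    obtain ⟨m, β, H', hβ, hH', hsum⟩ := exists_slices (BiH_addP A hd c) (A.x p)
    have hmem := hslice c m β H' hβ hH' hsum
    obtain ⟨c₂, hc₂, hp2⟩ := hp'
    obtain ⟨e, he, hE⟩ := aeval_addP (k := k) A p' Q
    have h1 := hsum κ' j (A.x Q)
    have h2 : (Sum.elim (fun i => j (A.x p i)) (A.x Q) : Fin (N + 1) ⊕ Fin (N + 1) → κ') =
        Sum.elim (fun i => c₂ * A.x p' i) fun i => 1 * A.x Q i := by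
      funext i
      rcases i with i | i
      · exact hp2 i
      · simp
    rw [h2, aeval_smul_BiH (BiH_addP A hd c), hE h d hd c, Finset.sum_eq_zero, one_pow,
      mul_one] at h1
    · have h3 := (mul_eq_zero.1 h1).resolve_left (pow_ne_zero _ hc₂)
      exact (mul_eq_zero.1 h3).resolve_left (pow_ne_zero _ (mul_ne_zero he hc))
    · intro l _
      rw [aeval_of_mem_loc (hQ (hmem l)), mul_zero]
  obtain ⟨κ', _, _, _, _, j, i, -⟩ := exists_pair K k κ L
  obtain ⟨p', hp'⟩ := Z_exists_img A (j.restrictScalars K) p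
  obtain ⟨y', hy'⟩ := Z_exists_img A (i.restrictScalars K) y
  have hZp : ZP A 𝔟 p' := ZP_img A j hp' hp
  have hloc := loc_img A i hy'
  have hZy : ZP A 𝔟 y' := (hy.symm.trans hloc.symm).le
  have h1 := key κ' j p' (y' - p') hp' (h𝔟.2 κ' y' p' hZy hZp)
  rw [add_sub_cancel] at h1
  refine hh ?_
  rw [← hy, ← hloc]
  exact (mem_loc_of_homog hd).2 h1

end

end Pool.Agent.Lib.MP_17a322_nt.VA.G
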