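import Pool.Agent.Lib.MP_17a322_nt.VA.G18
import Pool.Agent.Lib.MP_17a322_nt.VA.G19

/-!
VA, part G, job G20: functions with constant differences under translations are constant.

Proof (complete). Suppose that `f ∉ (algebraMap k L).range`. Then `f` is not algebraic over `k` (`k` is algebraically closed: `IsAlgClosed.algebraMap_bijective_of_isIntegral`-like; `IsAlgClosed.exists_aeval_eq_zero`; for a single element: the minimal polynomial has degree 1), so
by `Z_alg_iff` (VA/Z2.lean) there is a valuation subring `O` of `L` with `algebraMap k L c ∈ O` for all `c` and `f ∉ O`. Let `κ := IsLocalRing.ResidueField O`; `O` and `κ` are algebras over `k` and `K` (define them by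
`((algebraMap k L).codRestrict O ..).toAlgebra` and composition with `IsLocalRing.residue O`; all towers by `IsScalarTower.of_algebraMap_eq fun _ => rfl`; compare the second section of VA/Z2.lean, where this is done for `K`).
`π := IsLocalRing.residue O` as a `K`-algebra homomorphism `O →ₐ[K] κ` (and as a `k`-algebra homomorphism); it is local.
Let `p` be a specialisation of `y` (`exists_isSp A π y`): `A.x y i = c * (ŷ i)`, `π (ŷ i) = e * A.x p i`. `p` is a zero of `𝔟`: for `G ∈ 𝔟` homogeneous (`le_loc`; `𝔟 = loc ..` contains the components of its elements) `G` vanishes at `A.x y`, so at `ŷ` (in `L`, so in `O`), so at `π ∘ ŷ`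
(`k`-algebra homomorphism), so at `A.x p` (`aeval_smul_of_homog`).
By `frac_of_ratGen`: `f = g (x) / h (x)`, `x = A.x y`, `g, h` homogeneous of degree `d`, `h (x) ≠ 0`, so `h ∉ 𝔟` (`mem_loc_of_homog`). `exists_translate` (G19): `b : A.Pts k`, `b' : A.Pts κ` its image, `h (A.x (p + b')) ≠ 0`. Let `b₁ : A.Pts L` be the image of `b` in `L`. `IsSp A π b₁ b'` (`IsSp.of_img` with `ι : k →ₐ[K] O`), so
`IsSp A π (y + b₁) (p + b')` (`IsSp.add_sub`): `A.x (y + b₁) i = c₁ * (ẑ i)`, `π (ẑ i) = e₁ * A.x (p + b') i`. `loc k (A.x (y + b₁)) = 𝔟` (`loc_add_const`), so `lift_generic` gives `σ : L →ₐ[k] L` with `A.Img (σ.restrictScalars K) y (y + b₁)`. `σ f = g (σ x) / h (σ x) = g (ẑ) / h (ẑ)` (`σ x i = c₂ * ẑ i`, homogeneity of the same degree).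
`h (ẑ) ∈ O` and `π (h (ẑ)) = e₁ ^ d * h (A.x (p + b')) ≠ 0`, so `h (ẑ)` is a unit of `O`, and `σ f ∈ O`. By hypothesis `σ f = f + algebraMap k L c`, so `f ∈ O`: contradiction.
-/

universe u

namespace Pool.Agent.Lib.MP_17a322_nt.VA.G

open MvPolynomial

private theorem g20_alg {k L : Type u} [Field k] [IsAlgClosed k] [Field L] [Algebra k L] {f : L}
    (h : IsAlgebraic k f) : f ∈ (algebraMap k L).range := by
  have hi : IsIntegral k f := h.isIntegral
  exact minpoly.mem_range_of_degree_eq_one k f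
    (IsAlgClosed.degree_eq_one_of_irreducible k (minpoly.irreducible hi))

/-- values of homogeneous polynomials at multiples of images -/
private theorem g20_val {k R F : Type u} [Field k] [CommRing R] [CommRing F] [Algebra k R] [Algebra k F]
    (φ : R →ₐ[k] F) {n : ℕ} {G : MvPolynomial (Fin n) k} {d : ℕ} (hG : G.IsHomogeneous d)
    {x : Fin n → F} {y : Fin n → R} {c : F} (h : ∀ i, x i = c * φ (y i)) :
    aeval x G = c ^ d * φ (aeval y G) := by
  have h1 : x = fun i => c * φ (y i) := funext h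
  rw [h1, aeval_smul_of_homog hG (fun i => φ (y i)) c]
  congr 1
  have h2 : (aeval (fun i => φ (y i)) : MvPolynomial (Fin n) k →ₐ[k] F) = φ.comp (aeval y) := by
    refine MvPolynomial.algHom_ext fun i => ?_
    rw [AlgHom.comp_apply, aeval_X, aeval_X]
  rw [h2, AlgHom.comp_apply]

section

variable {K : Type u} [Field K] {N : ℕ} (A : AV K N) {k : Type u} [Field k] [Algebra K k]
  [IsAlgClosed k] {𝔟 : Ideal (MvPolynomial (Fin (N + 1)) k)} {L : Type u} [Field L] [Algebra K L]
  [Algebra k L] [IsScalarTower K k L] (h𝔟 : GrpI A 𝔟)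

include h𝔟

theorem mem_range_of_translate {y : A.Pts L} (hy : loc k (A.x y) = 𝔟) (hg : RatGen A k y) (f : L)
    (hf : ∀ (b : A.Pts k) (b' : A.Pts L) (σ : L →ₐ[k] L), ZP A 𝔟 b →
      A.Img (IsScalarTower.toAlgHom K k L) b b' → A.Img (σ.restrictScalars K) y (y + b') →
      ∃ c : k, σ f = f + algebraMap k L c) : f ∈ (algebraMap k L).range := by
  by_contra hne
  have hna : ¬ IsAlgebraic k f := fun h => hne (g20_alg h)
  rw [Z_alg_iff] at hna
  push Not at hna
  obtain ⟨O, hO, hfO⟩ := hna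
  have hOK : ∀ c : K, algebraMap K L c ∈ O := by
    intro c
    rw [IsScalarTower.algebraMap_apply K k L]
    exact hO _
  let _ : Algebra k O := ((algebraMap k L).codRestrict O.toSubring hO).toAlgebra
  let _ : Algebra K O := ((algebraMap K L).codRestrict O.toSubring hOK).toAlgebra
  have t1 : IsScalarTower K O L := IsScalarTower.of_algebraMap_eq fun _ => rfl
  have t2 : IsScalarTower k O L := IsScalarTower.of_algebraMap_eq fun _ => rfl
  have t3 : IsScalarTower K k O := IsScalarTower.of_algebraMap_eq fun c =>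
    Subtype.ext (IsScalarTower.algebraMap_apply K k L c)
  have t4 : IsScalarTower K k (IsLocalRing.ResidueField O) :=
    IsScalarTower.of_algebraMap_eq fun c => by
      rw [IsScalarTower.algebraMap_apply K O (IsLocalRing.ResidueField O),
        IsScalarTower.algebraMap_apply K k O, ← IsScalarTower.algebraMap_apply k O]
  let π : O →ₐ[K] IsLocalRing.ResidueField O := IsScalarTower.toAlgHom K O _
  let π' : O →ₐ[k] IsLocalRing.ResidueField O := IsScalarTower.toAlgHom k O _
  let ι : O →ₐ[k] L := IsScalarTower.toAlgHom k O L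
  have hι : Function.Injective ι := Subtype.val_injective
  obtain ⟨p, hsp⟩ := exists_isSp A π y
  have hsp0 := hsp
  obtain ⟨yh, c, e, hc, he, h1, h2⟩ := hsp
  have hp : ZP A 𝔟 p := by
    refine le_loc (fun G hG d => ?_) fun G hG d hd => ?_
    · rw [← hy] at hG ⊢
      exact comp_mem_loc hG d
    · rw [← hy] at hG
      have h3 := aeval_of_mem_loc hG
      rw [g20_val ι hd (y := yh) (c := c) h1] at h3
      have h4 : ι (aeval yh G) = 0 := (mul_eq_zero.1 h3).resolve_left (pow_ne_zero _ hc)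
      have h5 : aeval yh G = 0 := hι (by rw [h4, map_zero])
      have h6 : ∀ i, A.x p i = e⁻¹ * π' (yh i) := fun i => by
        have h7 : π' (yh i) = e * A.x p i := h2 i
        rw [h7, inv_mul_cancel_left₀ he]
      rw [g20_val π' hd (y := yh) (c := e⁻¹) h6, h5, map_zero, mul_zero]
  obtain ⟨d, g, h, hgd, hhd, hh0, hfg⟩ := frac_of_ratGen A hg f
  have hh : h ∉ 𝔟 := by
    intro h3
    rw [← hy, mem_loc_of_homog hhd] at h3
    exact hh0 h3
  obtain ⟨b, b', hb, hbb', hne'⟩ := exists_translate A h𝔟 hy p hp hhd hh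
  obtain ⟨b₁, hb₁⟩ := Z_exists_img A (IsScalarTower.toAlgHom K k L) b
  have hsb : IsSp A π b₁ b' :=
    IsSp.of_img A π (IsScalarTower.toAlgHom K k O) (P₀ := b) (P := b₁) (p := b') hb₁ hbb'
  obtain ⟨zh, c₁, e₁, hc₁, he₁, k1, k2⟩ := (IsSp.add_sub A π hsp0 hsb).1
  have hloc : loc k (A.x (y + b₁)) = 𝔟 := loc_add_const A h𝔟 hy hb hb₁
  obtain ⟨σ, hσ⟩ := lift_generic A hg (y + b₁) (hy.trans hloc.symm)
  obtain ⟨a, ha⟩ := hf b b₁ σ hb hb₁ hσ
  obtain ⟨c₂, hc₂, hσ2⟩ := hσ
  have h3 : ∀ i, σ (A.x y i) = (c₂ * c₁) * ι (zh i) := by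
    intro i
    have h4 : σ (A.x y i) = c₂ * A.x (y + b₁) i := hσ2 i
    rw [h4, k1, mul_assoc]
    rfl
  have h5 : ∀ G : MvPolynomial (Fin (N + 1)) k, G.IsHomogeneous d →
      σ (aeval (A.x y) G) = (c₂ * c₁) ^ d * ι (aeval zh G) := by
    intro G hG
    have h6 : σ (aeval (A.x y) G) = aeval (fun i => σ (A.x y i)) G := by
      have h7 : (aeval (fun i => σ (A.x y i)) : MvPolynomial (Fin (N + 1)) k →ₐ[k] L) =
          σ.comp (aeval (A.x y)) := by
        refine MvPolynomial.algHom_ext fun i => ?_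
        rw [AlgHom.comp_apply, aeval_X, aeval_X]
      rw [h7, AlgHom.comp_apply]
    rw [h6, g20_val ι hG (y := zh) (c := c₂ * c₁) h3]
  have h8 : π' (aeval zh h) ≠ 0 := by
    have h9 : ∀ i, A.x (p + b') i = e₁⁻¹ * π' (zh i) := fun i => by
      have h7 : π' (zh i) = e₁ * A.x (p + b') i := k2 i
      rw [h7, inv_mul_cancel_left₀ he₁]
    intro h10
    rw [g20_val π' hhd (y := zh) (c := e₁⁻¹) h9, h10, mul_zero] at hne'
    exact hne' rfl
  have h11 : IsUnit (aeval zh h) := by
    by_contra h12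
    exact h8 ((IsLocalRing.residue_eq_zero_iff _).2 ((IsLocalRing.mem_maximalIdeal _).2 h12))
  obtain ⟨u, hu⟩ := h11
  have h13 : σ f = ι (aeval zh g * ((u⁻¹ : Oˣ) : O)) := by
    rw [hfg, map_div₀, h5 g hgd, h5 h hhd, map_mul]
    have h14 : (c₂ * c₁) ^ d ≠ 0 := pow_ne_zero _ (mul_ne_zero hc₂ hc₁)
    have h15 : ι (aeval zh h) * ι ((u⁻¹ : Oˣ) : O) = 1 := by
      rw [← map_mul, ← hu, Units.mul_inv, map_one]
    have h16 : ι (aeval zh h) ≠ 0 := left_ne_zero_of_mul_eq_one h15
    rw [mul_div_mul_left _ _ h14, div_eq_iff h16, mul_assoc, mul_comm (ι ((u⁻¹ : Oˣ) : O)), h15,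
      mul_one]
  have h17 : σ f ∈ O := by
    rw [h13]
    exact (aeval zh g * ((u⁻¹ : Oˣ) : O)).2
  have h18 : f = σ f - algebraMap k L a := by
    rw [ha, add_sub_cancel_right]
  apply hfO
  rw [h18]
  exact sub_mem h17 (hO a)

end

end Pool.Agent.Lib.MP_17a322_nt.VA.G
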