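import Pool.Agent.Lib.MP_17a322_nt.VA.G17
import Pool.Agent.Lib.MP_17a322_nt.VA.G20

/-!
VA, part G, job G21: rigidity, first part: `ell δ₁ y` is a tangent vector of the subgroup.

Proof (complete). `χ_G i := aeval (oL A k) (pderiv i G) : k` for `G ∈ 𝔟`. Let `χ := χ_G`. For every `L'`: `algebraMap k L' (χ i) = aeval (oL A L') (pderiv i G)`. By `ell_mem` (G15) `χ` satisfies the hypothesis `hχ` of `ell_transfer` at `y` (over `L`; `y` is a zero of `𝔟` since `loc k (A.x y) = 𝔟`).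
Let `f := ∑ i, algebraMap k L (χ i) * ell A δ₁ y i`.
`const_of_chi`: `f ∈ range`: `mem_range_of_translate` (G20). Let `b, b', σ` be as there. `ell_transfer` for `ι = σ`, `P = y`, `P' = y + b'`, `δ₁' = δ₁`: `∑ χ i * ell A δ₁ (y + b') i = σ f`. `ell_add`: `ell A δ₁ (y + b') = ell A δ₁ y + ell A δ₁ b'`, and `ell A δ₁ b' = algebraMap k L ∘ ell A δ b` (`ell_img` for
`σ := IsScalarTower.toAlgHom K k L`, `h₁`). So `σ f = f + algebraMap k L (∑ i, χ i * ell A δ b i)`.
`chi_eq_zero`: let `f = algebraMap k L c`. `exists_pair K k L L` (G03b): `L₃, ι₁, ι₂`; `Y₁, Y₂` the images of `y`; `loc k (A.x (Y₁ - Y₂)) = 𝔟` (`loc_sub_pair`), so `lift_generic` (G18) gives `σ₃ : L →ₐ[k] L₃` with `A.Img .. y (Y₁ - Y₂)`. Let `δ₃` be a derivation of `L₃` which extends `δ` (`exists_ext`, G07). `ell_transfer` for `ι₁, ι₂, σ₃`: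
`∑ χ * ell A δ₃ Y₁ = ι₁ f = algebraMap k L₃ c`, the same for `Y₂` and `Y₁ - Y₂`; `ell_sub`: `c = c - c = 0`.
`ell_mem_Tsp`: the component `b₀` is 0 (`ell_b₀`), and the equations are `chi_eq_zero` for all `G ∈ 𝔟`.
(Characteristic 0: `CharZero K` gives `CharZero k`, `CharZero L`, .. : `charZero_of_injective_algebraMap (algebraMap K k).injective`.)
-/

universe u

namespace Pool.Agent.Lib.MP_17a322_nt.VA.G

open MvPolynomial

section

variable {K : Type u} [Field K] {N : ℕ} (A : AV K N) {k : Type u} [Field k]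
  [Algebra K k]

private theorem g21_chi (L : Type u) [Field L] [Algebra K L] [Algebra k L]
    [IsScalarTower K k L] (g : MvPolynomial (Fin (N + 1)) k) :
    algebraMap k L (aeval (oL A k) g) = aeval (oL A L) g := by
  rw [← MvPolynomial.aeval_algebraMap_apply]
  have h : (algebraMap k L ∘ oL A k : Fin (N + 1) → L) = oL A L := by
    funext i
    exact (IsScalarTower.algebraMap_apply K k L (o₀ A i)).symm
  rw [h]

private theorem g21_sum {L : Type u} [Field L] [Algebra K L] [Algebra k L]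
    [IsScalarTower K k L] (G : MvPolynomial (Fin (N + 1)) k) (τ : Fin (N + 1) → L) :
    ∑ i, aeval (oL A L) (pderiv i G) * τ i =
      ∑ i, algebraMap k L (aeval (oL A k) (pderiv i G)) * τ i :=
  Finset.sum_congr rfl fun i _ => by rw [g21_chi A L]

private theorem g21_hyp [CharZero K] {𝔟 : Ideal (MvPolynomial (Fin (N + 1)) k)} {L : Type u}
    [Field L] [Algebra K L] [Algebra k L] [IsScalarTower K k L] (h𝔟 : GrpI A 𝔟) {y : A.Pts L}
    (hy : loc k (A.x y) = 𝔟) {G : MvPolynomial (Fin (N + 1)) k} (hG : G ∈ 𝔟)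
    (D : Derivation ℤ L L) (hD : ∀ c : k, D (algebraMap k L c) = 0) :
    ∑ i, algebraMap k L (aeval (oL A k) (pderiv i G)) * ell A D y i = 0 := by
  have : CharZero L := charZero_of_injective_algebraMap (algebraMap K L).injective
  rw [← g21_sum A]
  exact (ell_mem A h𝔟 hD (P := y) hy.ge).2 G hG

end

section

variable {K : Type u} [Field K] [CharZero K] {N : ℕ} (A : AV K N) {k : Type u} [Field k]
  [Algebra K k] [IsAlgClosed k] {𝔟 : Ideal (MvPolynomial (Fin (N + 1)) k)} {L : Type u} [Field L]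
  [Algebra K L] [Algebra k L] [IsScalarTower K k L] (h𝔟 : GrpI A 𝔟) {y : A.Pts L}
  (hy : loc k (A.x y) = 𝔟) (hg : RatGen A k y) (δ : Derivation ℤ k k)
  (hδ : ∀ c : K, δ (algebraMap K k c) = 0) (δ₁ : Derivation ℤ L L)
  (h₁ : ∀ c : k, δ₁ (algebraMap k L c) = algebraMap k L (δ c))

include h𝔟 hy hg hδ h₁

theorem const_of_chi {G : MvPolynomial (Fin (N + 1)) k} (hG : G ∈ 𝔟) :
    ∑ i, aeval (oL A L) (pderiv i G) * ell A δ₁ y i ∈ (algebraMap k L).range := by
  have : CharZero L := charZero_of_injective_algebraMap (algebraMap K L).injective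
  have h1K : ∀ c : K, δ₁ (algebraMap K L c) = 0 := by
    intro c
    rw [IsScalarTower.algebraMap_apply K k L, h₁, hδ, map_zero]
  refine mem_range_of_translate A h𝔟 hy hg _ fun b b' σ hb hb' hσ => ?_
  refine ⟨∑ i, aeval (oL A k) (pderiv i G) * ell A δ b i, ?_⟩
  have e1 := ell_transfer A σ hσ (fun i => aeval (oL A k) (pderiv i G))
    (g21_hyp A h𝔟 hy hG) δ hδ δ₁ h₁ δ₁ h₁
  have e2 : ell A δ₁ b' = fun i => IsScalarTower.toAlgHom K k L (ell A δ b i) :=
    ell_img A (IsScalarTower.toAlgHom K k L) h1K (fun a => h₁ a) hb'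
  rw [g21_sum A, ← e1, ell_add A h1K, e2]
  simp only [Pi.add_apply, mul_add, Finset.sum_add_distrib, map_sum, map_mul,
    IsScalarTower.coe_toAlgHom']

theorem chi_eq_zero {G : MvPolynomial (Fin (N + 1)) k} (hG : G ∈ 𝔟) :
    ∑ i, aeval (oL A L) (pderiv i G) * ell A δ₁ y i = 0 := by
  have hck : CharZero k := charZero_of_injective_algebraMap (algebraMap K k).injective
  obtain ⟨c, hc⟩ := const_of_chi A h𝔟 hy hg δ hδ δ₁ h₁ hG
  obtain ⟨L₃, i1, i2, i3, i4, ι₁, ι₂, hLD⟩ := exists_pair K k L L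
  have hc3 : CharZero L₃ := charZero_of_injective_algebraMap (algebraMap K L₃).injective
  have hcL : CharZero L := charZero_of_injective_algebraMap (algebraMap K L).injective
  obtain ⟨Y₁, hY₁⟩ := Z_exists_img A (ι₁.restrictScalars K) y
  obtain ⟨Y₂, hY₂⟩ := Z_exists_img A (ι₂.restrictScalars K) y
  have hloc := loc_sub_pair A h𝔟 hy hLD hY₁ hY₂
  obtain ⟨σ₃, hσ₃⟩ := lift_generic A hg (Y₁ - Y₂) (hy.trans hloc.symm)
  obtain ⟨δ₃, hδ₃⟩ := exists_ext L₃ δ
  have h3K : ∀ c : K, δ₃ (algebraMap K L₃ c) = 0 := by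
    intro c
    rw [IsScalarTower.algebraMap_apply K k L₃, hδ₃, hδ, map_zero]
  have key : ∀ (ι : L →ₐ[k] L₃) (P' : A.Pts L₃), A.Img (ι.restrictScalars K) y P' →
      ∑ i, algebraMap k L₃ (aeval (oL A k) (pderiv i G)) * ell A δ₃ P' i =
        algebraMap k L₃ c := by
    intro ι P' hP'
    have e1 := ell_transfer A ι hP' (fun i => aeval (oL A k) (pderiv i G))
      (g21_hyp A h𝔟 hy hG) δ hδ δ₁ h₁ δ₃ hδ₃
    rw [e1, ← g21_sum A, ← hc, AlgHom.commutes]
  have e3 := key σ₃ _ hσ₃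
  rw [ell_sub A h3K] at e3
  simp only [Pi.sub_apply, mul_sub, Finset.sum_sub_distrib] at e3
  rw [key ι₁ Y₁ hY₁, key ι₂ Y₂ hY₂, sub_self] at e3
  have hc0 : c = 0 := (algebraMap k L₃).injective (by rw [← e3, map_zero])
  rw [← hc, hc0, map_zero]

theorem ell_mem_Tsp : ell A δ₁ y ∈ Tsp A 𝔟 L := by
  exact ⟨ell_b₀ A δ₁ y, fun G hG => chi_eq_zero A h𝔟 hy hg δ hδ δ₁ h₁ hG⟩

end

end Pool.Agent.Lib.MP_17a322_nt.VA.G
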