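import Pool.Agent.Lib.MP_17a322_nt.VA.G14
import Pool.Agent.Lib.MP_17a322_nt.VA.G21

/-!
VA, part G, job G22: rigidity: the ideal of a subgroup is stable under the derivations of `k` over `K`.

Proof (complete). `exists_ratGen` (G18): replace `L, y` by `L₀, y₀` with `loc k (A.x y₀) = 𝔟` and `RatGen A k y₀`. Let `δ₁` be a derivation of `L₀` that extends `δ` (`exists_ext`). By `ell_mem_Tsp` (G21) and `exists_der` (G16) there is a derivation `D` of `L₀`, zero on `k`, with
`ell A D y₀ = ell A δ₁ y₀`. `δ₂ := δ₁ - D` extends `δ` and `ell A δ₂ y₀ = 0` (`ell_der_sub`), so by `ell_eq_zero` (G14) `δ₂ (x i / x j) = 0` for `x := A.x y₀` and all `i, j`.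
Let `G ∈ 𝔟`. It suffices that `dc (Fin (N+1)) δ (homogeneousComponent d G) ∈ 𝔟` for all `d` (`G` is the sum of its components, `sum_homogeneousComponent`, which are in `𝔟 = loc ..`, `comp_mem_loc`; `dc` is additive). So let `G` be homogeneous of degree `d`; then `dc .. δ G` is
homogeneous of degree `d` (`coeff_dc`: its support is contained in the one of `G`). Choose `j` with `x j ≠ 0`, `x' i := x i / x j`. `aeval x' G = 0` (`aeval_smul_of_homog`, `aeval x G = 0`). By `der_aeval_dc` (G07): `0 = δ₂ (aeval x' G) = aeval x' (dc δ G) + ∑ i, .. * δ₂ (x' i) = aeval x' (dc δ G)`. So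
`aeval x (dc δ G) = x j ^ d * 0 = 0` and `dc δ G ∈ loc k x = 𝔟` (`mem_loc_of_homog`).
-/

universe u

namespace Pool.Agent.Lib.MP_17a322_nt.VA.G

open MvPolynomial
open Pool.Agent.Lib.MP_17a322_nt.VN

private theorem g22_main {K : Type u} [Field K] [CharZero K] {N : ℕ} (A : AV K N) {k : Type u}
    [Field k] [Algebra K k] [IsAlgClosed k] {𝔟 : Ideal (MvPolynomial (Fin (N + 1)) k)}
    {L : Type u} [Field L] [Algebra K L] [Algebra k L] [IsScalarTower K k L] (h𝔟 : GrpI A 𝔟)
    {y : A.Pts L} (hy : loc k (A.x y) = 𝔟) (hg : RatGen A k y) (δ : Derivation ℤ k k)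
    (hδ : ∀ c : K, δ (algebraMap K k c) = 0) {G : MvPolynomial (Fin (N + 1)) k} (hG : G ∈ 𝔟) :
    dc (Fin (N + 1)) δ G ∈ 𝔟 := by
  have : CharZero k := charZero_of_injective_algebraMap (algebraMap K k).injective
  have : CharZero L := charZero_of_injective_algebraMap (algebraMap K L).injective
  obtain ⟨δ₁, h₁⟩ := exists_ext (k := k) L δ
  have hT := ell_mem_Tsp A h𝔟 hy hg δ hδ δ₁ h₁
  obtain ⟨D, hD, hDe⟩ := exists_der A h𝔟 hy hT
  have h₂ : ∀ c : k, (δ₁ - D) (algebraMap k L c) = algebraMap k L (δ c) := by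
    intro c
    rw [Derivation.sub_apply, h₁, hD, sub_zero]
  have hK : ∀ c : K, (δ₁ - D) (algebraMap K L c) = 0 := by
    intro c
    rw [IsScalarTower.algebraMap_apply K k L, h₂, hδ, map_zero]
  have he : ell A (δ₁ - D) y = 0 := by
    rw [ell_der_sub, hDe, sub_self]
  have hq := ell_eq_zero A hK y he
  obtain ⟨j, hj⟩ : ∃ j, A.x y j ≠ 0 := Function.ne_iff.1 (Projectivization.rep_nonzero y.1)
  have key : ∀ (d : ℕ) (G : MvPolynomial (Fin (N + 1)) k), G.IsHomogeneous d → G ∈ 𝔟 →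
      dc (Fin (N + 1)) δ G ∈ 𝔟 := by
    intro d G hGd hG
    have hdc : (dc (Fin (N + 1)) δ G).IsHomogeneous d := by
      intro m hm
      rw [coeff_dc] at hm
      apply hGd
      intro h0
      rw [h0, map_zero] at hm
      exact hm rfl
    have hG0 : aeval (A.x y) G = 0 := by
      rw [← hy] at hG
      exact (mem_loc_of_homog hGd).1 hG
    have e1 : aeval (fun i => (A.x y j)⁻¹ * A.x y i) G = 0 := by
      rw [aeval_smul_of_homog hGd, hG0, mul_zero]
    have e2 := der_aeval_dc δ (δ₁ - D) h₂ (fun i => (A.x y j)⁻¹ * A.x y i) G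
    have e3 : ∑ i, aeval (fun i => (A.x y j)⁻¹ * A.x y i) (pderiv i G) *
        (δ₁ - D) ((A.x y j)⁻¹ * A.x y i) = 0 := by
      refine Finset.sum_eq_zero fun i _ => ?_
      have e4 : (A.x y j)⁻¹ * A.x y i = A.x y i / A.x y j := by
        rw [div_eq_mul_inv, mul_comm]
      rw [e4, hq i j, mul_zero]
    rw [e1, map_zero, e3, add_zero, aeval_smul_of_homog hdc] at e2
    rw [← hy, mem_loc_of_homog hdc]
    rcases mul_eq_zero.1 e2.symm with h | h
    · exact absurd h (pow_ne_zero _ (inv_ne_zero hj))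
    · exact h
  have hs : dc (Fin (N + 1)) δ G = ∑ i ∈ Finset.range (G.totalDegree + 1),
      dc (Fin (N + 1)) δ (homogeneousComponent i G) := by
    rw [← map_sum, sum_homogeneousComponent]
  rw [hs]
  refine Ideal.sum_mem _ fun d _ => key d _ (homogeneousComponent_isHomogeneous d G) ?_
  rw [← hy] at hG ⊢
  exact comp_mem_loc hG d

section

variable {K : Type u} [Field K] [CharZero K] {N : ℕ} (A : AV K N) {k : Type u} [Field k]
  [Algebra K k] [IsAlgClosed k] {𝔟 : Ideal (MvPolynomial (Fin (N + 1)) k)} {L : Type u} [Field L]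
  [Algebra K L] [Algebra k L] [IsScalarTower K k L] (h𝔟 : GrpI A 𝔟) {y : A.Pts L}
  (hy : loc k (A.x y) = 𝔟)

include h𝔟 hy

theorem dc_mem (δ : Derivation ℤ k k) (hδ : ∀ c : K, δ (algebraMap K k c) = 0)
    {G : MvPolynomial (Fin (N + 1)) k} (hG : G ∈ 𝔟) : dc (Fin (N + 1)) δ G ∈ 𝔟 := by
  obtain ⟨L₀, i1, i2, i3, i4, y₀, hl, hg⟩ := exists_ratGen A (k := k) y
  rw [hy] at hl
  exact g22_main A h𝔟 hl hg δ hδ hG

end

end Pool.Agent.Lib.MP_17a322_nt.VA.G
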