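import Pool.Agent.Lib.MP_17a322_nt.VA.Z2
import Pool.Agent.Lib.MP_17a322_nt.VA.Mu
import Pool.Agent.Lib.MP_17a322_nt.VN.E0

/-!
VA, part G (the closed subgroup generated by a point): definitions.

`loc k x`: the homogeneous prime ideal over `k` of the point with coordinates `x`.
`ZP A 𝔟 P`: the point `P` is in the closed set with the ideal `𝔟` over `k`.
`GrpI A 𝔟`: the closed set with the ideal `𝔟` is a subgroup (over all fields).
`ell A D P`: the tangent vector at the origin of `exp (D) P - P`.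
`Tsp A 𝔟 L`: the tangent space at the origin of the closed set with the ideal `𝔟`.
-/

universe u

namespace Pool.Agent.Lib.MP_17a322_nt.VA.G

open MvPolynomial

/-- The homogeneous ideal of the polynomials over `k` all of whose components vanish at `x`. -/
noncomputable def loc (k : Type u) [Field k] {L : Type u} [Field L] [Algebra k L] {n : ℕ}
    (x : Fin n → L) : Ideal (MvPolynomial (Fin n) k) :=
  RingHom.ker (aeval fun i => Polynomial.C (x i) * Polynomial.X :
    MvPolynomial (Fin n) k →ₐ[k] Polynomial L)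

/-- The ideal `𝔞(X) + 𝔟(Y)`. -/
noncomputable def prodI {k : Type u} [Field k] {n n' : ℕ} (𝔞 : Ideal (MvPolynomial (Fin n) k))
    (𝔟 : Ideal (MvPolynomial (Fin n') k)) : Ideal (MvPolynomial (Fin n ⊕ Fin n') k) :=
  𝔞.map (rename Sum.inl : MvPolynomial (Fin n) k →ₐ[k] _) ⊔
    𝔟.map (rename Sum.inr : MvPolynomial (Fin n') k →ₐ[k] _)

/-- Bihomogeneous polynomials. -/
def BiH {k : Type u} [Field k] {n n' : ℕ} (d e : ℕ) (H : MvPolynomial (Fin n ⊕ Fin n') k) : Prop :=
  ∀ m ∈ H.support, ∑ i, m (Sum.inl i) = d ∧ ∑ i, m (Sum.inr i) = e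

/-- The images of `L₁` and `L₂` are linearly disjoint over `k`. -/
def LD {k L₁ L₂ L₃ : Type u} [Field k] [Field L₁] [Field L₂] [Field L₃] [Algebra k L₁]
    [Algebra k L₂] [Algebra k L₃] (ι₁ : L₁ →ₐ[k] L₃) (ι₂ : L₂ →ₐ[k] L₃) : Prop :=
  ∀ (n : ℕ) (a : Fin n → L₁) (b : Fin n → L₂), LinearIndependent k b →
    ∑ i, ι₁ (a i) * ι₂ (b i) = 0 → ∀ i, a i = 0

/-- The vector `x`, with entries in a ring, is a zero of the ideal `𝔟`. -/
def Kl {k : Type u} [Field k] {n : ℕ} (𝔟 : Ideal (MvPolynomial (Fin n) k)) {R : Type u}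
    [CommRing R] [Algebra k R] (x : Fin n → R) : Prop :=
  ∀ G ∈ 𝔟, aeval x G = 0

section

variable {K : Type u} [Field K] {N : ℕ} (A : AV K N)

/-- The coordinates of the origin. -/
noncomputable def o₀ : Fin (N + 1) → K :=
  fun i => A.x (0 : A.Pts K) i / A.x (0 : A.Pts K) A.b₀

/-- The coordinates of the origin, over an extension. -/
noncomputable def oL (R : Type u) [CommRing R] [Algebra K R] : Fin (N + 1) → R :=
  fun i => algebraMap K R (o₀ A i)

section

variable (k : Type u) [Field k] [Algebra K k]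

/-- The polynomials `G (S (a, ·) (X, Y))`. -/
noncomputable def subP (G : MvPolynomial (Fin (N + 1)) k) (a : Fin (N + 1)) :
    MvPolynomial (Fin (N + 1) ⊕ Fin (N + 1)) k :=
  bind₁ (fun b => map (algebraMap K k) (A.S a b)) G

/-- The polynomials `G (S (·, b) (X, Y))`. -/
noncomputable def addP (G : MvPolynomial (Fin (N + 1)) k) (b : Fin (N + 1)) :
    MvPolynomial (Fin (N + 1) ⊕ Fin (N + 1)) k :=
  bind₁ (fun a => map (algebraMap K k) (A.S a b)) G

variable {k}

/-- The point `P` is in the closed set of the ideal `𝔟`. -/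
def ZP (𝔟 : Ideal (MvPolynomial (Fin (N + 1)) k)) {L : Type u} [Field L] [Algebra K L]
    [Algebra k L] (P : A.Pts L) : Prop :=
  𝔟 ≤ loc k (A.x P)

/-- The closed set of the ideal `𝔟` is a subgroup. -/
def GrpI (𝔟 : Ideal (MvPolynomial (Fin (N + 1)) k)) : Prop :=
  ZP A 𝔟 (0 : A.Pts k) ∧
    ∀ (L : Type u) [Field L] [Algebra K L] [Algebra k L] [IsScalarTower K k L] (P Q : A.Pts L),
      ZP A 𝔟 P → ZP A 𝔟 Q → ZP A 𝔟 (P - Q)

end

section

variable {L : Type u} [Field L] [Algebra K L]

/-- The derivative of `S a b (·, x)` at `x` in the direction `v`. -/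
noncomputable def dS (a b : Fin (N + 1)) (x v : Fin (N + 1) → L) : L :=
  ∑ i, aeval (Sum.elim x x) (pderiv (Sum.inl i) (A.S a b)) * v i

/-- The index of a nonzero coordinate of the double of a point. -/
noncomputable def ix (x : Fin (N + 1) → L) : Fin (N + 1) :=
  Classical.epsilon fun a => A.dup x a ≠ 0

/-- The tangent vector at the origin of `(x + ε v) - x`. -/
noncomputable def ellv (x v : Fin (N + 1) → L) : Fin (N + 1) → L :=
  fun b => (dS A (ix A x) b x v - oL A L b * dS A (ix A x) A.b₀ x v) / A.dup x (ix A x)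

/-- The logarithmic derivative of a point. -/
noncomputable def ell (D : Derivation ℤ L L) (P : A.Pts L) : Fin (N + 1) → L :=
  ellv A (A.x P) fun i => D (A.x P i)

/-- The formal point `P` is the origin at `T = 0` and has the tangent vector `τ` there. -/
def Tan (P : A.Pts (FractionRing (PowerSeries L))) (τ : Fin (N + 1) → L) : Prop :=
  ∃ (e : Fin (N + 1) → PowerSeries L) (c : FractionRing (PowerSeries L)), c ≠ 0 ∧
    (∀ i, A.x P i = c * algebraMap (PowerSeries L) _ (e i)) ∧ e A.b₀ = 1 ∧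
    (∀ i, PowerSeries.coeff 0 (e i) = oL A L i) ∧ ∀ i, PowerSeries.coeff 1 (e i) = τ i

/-- The tangent space at the origin of the closed set of the ideal `𝔟`. -/
def Tsp {k : Type u} [Field k] [Algebra K k] (𝔟 : Ideal (MvPolynomial (Fin (N + 1)) k))
    (L : Type u) [Field L] [Algebra K L] [Algebra k L] : Set (Fin (N + 1) → L) :=
  {τ | τ A.b₀ = 0 ∧ ∀ G ∈ 𝔟, ∑ i, aeval (oL A L) (pderiv i G) * τ i = 0}

end

end

/-- No rational linear form on the tangent space at the origin vanishes at the logarithmic derivatives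
of the point `b` (intrinsic version). -/
def NoRatD {K : Type u} [Field K] {N : ℕ} (B : AV K N) {F : Type u} [Field F] [Algebra K F]
    (k₀ : IntermediateField K F) (b : B.Pts F) : Prop :=
  ∀ χ : Fin (N + 1) → k₀, (∀ D : Derivation ℤ F F, (∀ c : k₀, D c = 0) →
    ∑ i, (χ i : F) * ell B D b i = 0) → ∀ τ ∈ Tsp B B.I K, ∑ i, χ i * algebraMap K k₀ (τ i) = 0

end Pool.Agent.Lib.MP_17a322_nt.VA.G
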