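import Pool.Agent.Lib.MP_17a322_nt.VA.LA1
import Pool.Agent.Lib.MP_17a322_nt.VJ.J7

/-!
VA, part LA: the root of a polynomial in several series (existence and size).
-/

universe u

namespace Pool.Agent.Lib.MP_17a322_nt.VA

open MvPolynomial Height
open Pool.Agent.Lib.MP_17a322_nt.RO
open Pool.Agent.Lib.MP_17a322_nt.VJ
open Pool.Agent.Lib.MP_17a322_nt.VN

section

variable {L : Type*} [Field L] (v : AbsoluteValue L ℝ)

theorem PN_congr {r : ℝ} {n : ℕ} {f g : PowerSeries L}
    (h : ∀ k ≤ n, PowerSeries.coeff k f = PowerSeries.coeff k g) : PN v r n f = PN v r n g := by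
  have h1 : ∀ k : Fin (n + 1), PowerSeries.coeff (k : ℕ) f = PowerSeries.coeff (k : ℕ) g :=
    fun k => h k (Nat.le_of_lt_succ k.2)
  unfold PN
  simp only [h1]

theorem PN_trunc {r : ℝ} (hr : 0 ≤ r) (n : ℕ) (g : PowerSeries L) :
    PN v r (n + 1) ((PowerSeries.trunc (n + 1) g : Polynomial L) : PowerSeries L) ≤
      PN v r n g := by
  have hc : ∀ k : ℕ, PowerSeries.coeff k
      ((PowerSeries.trunc (n + 1) g : Polynomial L) : PowerSeries L) =
        if k < n + 1 then PowerSeries.coeff k g else 0 := by
    intro k
    rw [Polynomial.coeff_coe, PowerSeries.coeff_trunc]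
  by_cases hv : IsNonarchimedean v
  · have e : PN v r (n + 1) ((PowerSeries.trunc (n + 1) g : Polynomial L) : PowerSeries L) =
        ⨆ k : Fin (n + 1 + 1), v (PowerSeries.coeff (k : ℕ)
          ((PowerSeries.trunc (n + 1) g : Polynomial L) : PowerSeries L)) * r ^ (k : ℕ) := by
      unfold PN
      rw [if_pos hv]
    rw [e]
    refine ciSup_le fun k => ?_
    rw [hc]
    split_ifs with hk
    · exact PN_coeff_le v hr (by omega) g
    · rw [map_zero, zero_mul]
      exact (SN_PN v hr n).nonneg g
  · unfold PN
    rw [if_neg hv, if_neg hv, Fin.sum_univ_castSucc]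
    simp only [hc, Fin.val_castSucc, Fin.val_last, lt_irrefl, if_false, map_zero, zero_mul,
      add_zero]
    refine le_of_eq (Finset.sum_congr rfl fun k _ => ?_)
    rw [if_pos k.2]

/-- If `f` has no constant coefficient then only the coefficients of `g` of degree at most `n`
matter. -/
theorem PN_mul_low {r : ℝ} (hr : 0 ≤ r) (n : ℕ) (f g : PowerSeries L)
    (hf : PowerSeries.constantCoeff f = 0) :
    PN v r (n + 1) (f * g) ≤ PN v r (n + 1) f * PN v r n g := by
  set g' : PowerSeries L := ((PowerSeries.trunc (n + 1) g : Polynomial L) : PowerSeries L)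
    with hg'
  have h1 : (PowerSeries.X : PowerSeries L) ^ (n + 1) ∣ g - g' := by
    rw [PowerSeries.X_pow_dvd_iff]
    intro k hk
    rw [map_sub, hg', Polynomial.coeff_coe, PowerSeries.coeff_trunc, if_pos hk, sub_self]
  have h2 : (PowerSeries.X : PowerSeries L) ∣ f := PowerSeries.X_dvd_iff.2 hf
  have h3 : (PowerSeries.X : PowerSeries L) ^ (n + 2) ∣ f * g - f * g' := by
    rw [← mul_sub, pow_succ']
    exact mul_dvd_mul h2 h1
  have h4 : PN v r (n + 1) (f * g) = PN v r (n + 1) (f * g') := by
    refine PN_congr v fun k hk => ?_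
    have h5 := PowerSeries.X_pow_dvd_iff.1 h3 k (by omega)
    rw [map_sub, sub_eq_zero] at h5
    exact h5
  rw [h4]
  refine ((SN_PN v hr (n + 1)).mul f g').trans ?_
  exact mul_le_mul_of_nonneg_left (PN_trunc v hr n g) ((SN_PN v hr (n + 1)).nonneg f)

end

/-- The size of a sum with the coefficients of a polynomial. -/
theorem NV_sum {L : Type*} [Field L] (v : AbsoluteValue L ℝ) {A : Type*} [CommRing A] [Algebra L A]
    {ν : A → ℝ} (h : SN v ν) {σ : Type*}
    (G : MvPolynomial σ L) (s : Finset (σ →₀ ℕ)) (hs : s ⊆ G.support)
    (t : (σ →₀ ℕ) → A) {B : ℝ} (hB : 0 ≤ B) (ht : ∀ m ∈ s, ν (t m) ≤ B) :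
    ν (∑ m ∈ s, algebraMap L A (coeff m G) * t m) ≤ NV v G * B := by
  have hterm : ∀ m ∈ s, ν (algebraMap L A (coeff m G) * t m) ≤ v (coeff m G) * B := fun m hm =>
    (h.mul _ _).trans (mul_le_mul (h.map _) (ht m hm) (h.nonneg _) (v.nonneg _))
  by_cases hv : IsNonarchimedean v
  · have hN : 0 ≤ NV v G := (v.nonneg _).trans (coeff_le_NV v G 0)
    apply SN.sum_le_max hv h s _ (mul_nonneg hN hB)
    intro m hm
    exact (hterm m hm).trans (mul_le_mul_of_nonneg_right (coeff_le_NV v G m) hB)
  · refine (SN.sum_le_sum h s _).trans ?_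
    have hN : NV v G = ∑ m ∈ G.support, v (coeff m G) := by
      unfold NV
      rw [if_neg hv]
    rw [hN, Finset.sum_mul]
    refine (Finset.sum_le_sum hterm).trans ?_
    exact Finset.sum_le_sum_of_subset_of_nonneg hs
      (fun m _ _ => mul_nonneg (v.nonneg _) hB)

section

variable {L : Type*} [Field L] {σ : Type*} [Fintype σ]

/-- The values of the variables: `U` for `none`, `W a` for `some a`. -/
def ow {A : Type*} (U : A) (W : σ → A) : Option σ → A := fun o => o.elim U W

/-- Existence of the root. -/
theorem option_root (G : MvPolynomial (Option σ) L) (h0 : coeff 0 G = 0)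
    (h1 : coeff (Finsupp.single none 1) G ≠ 0) (W : σ → PowerSeries L)
    (hW : ∀ a, PowerSeries.constantCoeff (W a) = 0) :
    ∃ U : PowerSeries L, PowerSeries.constantCoeff U = 0 ∧ aeval (ow U W) G = 0 := by
  classical
  -- the polynomial in `U`
  set f : Polynomial (PowerSeries L) :=
    aeval (ow (Polynomial.X : Polynomial (PowerSeries L)) fun a => Polynomial.C (W a)) G with hf
  have hev : ∀ U : PowerSeries L, f.eval U = aeval (ow U W) G := by
    intro U
    have h2 : (Polynomial.aeval U : Polynomial (PowerSeries L) →ₐ[PowerSeries L] PowerSeries L)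
        f = aeval (ow U W) G := by
      rw [hf]
      have h3 := MvPolynomial.comp_aeval_apply (R := L)
        (fun o => ow (Polynomial.X : Polynomial (PowerSeries L)) (fun a => Polynomial.C (W a)) o)
        ((Polynomial.aeval U : Polynomial (PowerSeries L) →ₐ[PowerSeries L]
          PowerSeries L).restrictScalars L) G
      rw [AlgHom.restrictScalars_apply] at h3
      rw [h3]
      congr 1
      congr 1
      funext o
      cases o with
      | none =>
        show Polynomial.aeval U (Polynomial.X : Polynomial (PowerSeries L)) = U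
        rw [Polynomial.aeval_X]
      | some a =>
        show Polynomial.aeval U (Polynomial.C (W a)) = W a
        rw [Polynomial.aeval_C]
        rfl
    rw [← h2, Polynomial.coe_aeval_eq_eval]
  -- its coefficients at `T = 0`
  have hco : ∀ j : ℕ, PowerSeries.constantCoeff (f.coeff j) = coeff (Finsupp.single none j) G := by
    intro j
    have h2 : (f.map (PowerSeries.constantCoeff : PowerSeries L →+* L)) =
        aeval (ow (Polynomial.X : Polynomial L) fun _ => 0) G := by
      rw [hf]
      have h3 : ((Polynomial.mapRingHom (PowerSeries.constantCoeff : PowerSeries L →+* L)).comp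
          (aeval (R := L) (ow (Polynomial.X : Polynomial (PowerSeries L))
            fun a => Polynomial.C (W a))).toRingHom) =
          (aeval (R := L) (ow (Polynomial.X : Polynomial L) fun _ => (0 : Polynomial L))
            : MvPolynomial (Option σ) L →ₐ[L] Polynomial L).toRingHom := by
        apply MvPolynomial.ringHom_ext
        · intro a
          simp only [AlgHom.toRingHom_eq_coe, RingHom.coe_comp, RingHom.coe_coe,
            Function.comp_apply, MvPolynomial.algHom_C, Polynomial.coe_mapRingHom]
          rw [Polynomial.algebraMap_apply, Polynomial.map_C, Polynomial.algebraMap_apply]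
          congr 1
        · intro o
          simp only [AlgHom.toRingHom_eq_coe, RingHom.coe_comp, RingHom.coe_coe,
            Function.comp_apply, aeval_X, Polynomial.coe_mapRingHom]
          cases o with
          | none =>
            show Polynomial.map _ Polynomial.X = Polynomial.X
            rw [Polynomial.map_X]
          | some a =>
            show Polynomial.map _ (Polynomial.C (W a)) = 0
            rw [Polynomial.map_C, hW, Polynomial.C_0]
      exact DFunLike.congr_fun h3 G
    rw [← Polynomial.coeff_map, h2, aeval_def, eval₂_eq, Polynomial.finsetSum_coeff]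
    have hterm : ∀ m : Option σ →₀ ℕ, (algebraMap L (Polynomial L) (coeff m G) *
        ∏ o ∈ m.support, ow (Polynomial.X : Polynomial L) (fun _ => (0 : Polynomial L)) o ^
          m o).coeff j = if m = Finsupp.single none j then coeff m G else 0 := by
      intro m
      rw [Polynomial.algebraMap_apply, Polynomial.coeff_C_mul]
      by_cases hm : ∃ a : σ, m (some a) ≠ 0
      · obtain ⟨a, ha⟩ := hm
        have h3 : ∏ o ∈ m.support, ow (Polynomial.X : Polynomial L)
            (fun _ => (0 : Polynomial L)) o ^ m o = 0 := by
          refine Finset.prod_eq_zero (i := some a) (Finsupp.mem_support_iff.2 ha) ?_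
          show (0 : Polynomial L) ^ m (some a) = 0
          exact zero_pow ha
        have h4 : m ≠ Finsupp.single none j := by
          intro h
          apply ha
          rw [h, Finsupp.single_apply, if_neg (by simp)]
        rw [h3, if_neg h4, Polynomial.coeff_zero, mul_zero]
      · push Not at hm
        have h3 : m = Finsupp.single none (m none) := by
          ext o
          cases o with
          | none => simp
          | some a => rw [hm a, Finsupp.single_apply, if_neg (by simp)]
        have h4 : ∏ o ∈ m.support, ow (Polynomial.X : Polynomial L)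
            (fun _ => (0 : Polynomial L)) o ^ m o = Polynomial.X ^ (m none) := by
          have h5 : ∏ o ∈ m.support, ow (Polynomial.X : Polynomial L)
              (fun _ => (0 : Polynomial L)) o ^ m o =
              ∏ o, ow (Polynomial.X : Polynomial L) (fun _ => (0 : Polynomial L)) o ^ m o := by
            refine Finset.prod_subset (Finset.subset_univ _) fun o _ ho => ?_
            rw [Finsupp.notMem_support_iff.1 ho, pow_zero]
          rw [h5, Fintype.prod_option]
          have h6 : ∏ a : σ, ow (Polynomial.X : Polynomial L)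
              (fun _ => (0 : Polynomial L)) (some a) ^ m (some a) = 1 := by
            refine Finset.prod_eq_one fun a _ => ?_
            rw [hm a, pow_zero]
          rw [h6, mul_one]
          rfl
        rw [h4, Polynomial.coeff_X_pow]
        by_cases hj : j = m none
        · rw [if_pos hj, if_pos (by rw [hj]; exact h3), Algebra.algebraMap_self_apply, mul_one]
        · rw [if_neg hj, if_neg (fun h => hj (by rw [h]; simp)), mul_zero]
    rw [Finset.sum_congr rfl fun m _ => hterm m, Finset.sum_ite_eq']
    split_ifs with hs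
    · rfl
    · exact (notMem_support_iff.1 hs).symm
  obtain ⟨U, hU, hU1⟩ := J6_hensel f (by rw [hco, Finsupp.single_zero]; exact h0)
    (by rw [hco]; exact h1)
  exact ⟨U, hU, by rw [← hev]; exact hU1⟩

/-- The size of the root. -/
theorem option_size (v : AbsoluteValue L ℝ) (G : MvPolynomial (Option σ) L) (h0 : coeff 0 G = 0)
    (h1 : coeff (Finsupp.single none 1) G ≠ 0) (W : σ → PowerSeries L)
    (hW : ∀ a, PowerSeries.constantCoeff (W a) = 0) (U : PowerSeries L)
    (hU : PowerSeries.constantCoeff U = 0) (hGU : aeval (ow U W) G = 0) {r : ℝ} (hr : 0 ≤ r)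
    (hWs : ∀ a n, PN v r n (W a) ≤ (v (coeff (Finsupp.single none 1) G) / NV v G) ^ 2) (n : ℕ) :
    PN v r n U ≤ v (coeff (Finsupp.single none 1) G) / NV v G := by
  classical
  set δ : L := coeff (Finsupp.single none 1) G with hδ
  set ρ : ℝ := v δ / NV v G with hρ
  have hG : G ≠ 0 := by
    rintro rfl
    exact h1 (coeff_zero _)
  have hN : 0 < NV v G := NV_pos v hG
  have hρ0 : 0 < ρ := div_pos (v.pos h1) hN
  have hρ1 : ρ ≤ 1 := by
    rw [hρ, div_le_one hN]
    exact coeff_le_NV v G _
  induction n with
  | zero =>
    rw [PN_zero, hU, map_zero]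
    exact hρ0.le
  | succ n ih =>
    have hS := SN_PN v hr (n + 1)
    have hS' := SN_PN v hr n
    -- the equation
    have hsum : PowerSeries.C δ * U = -∑ m ∈ G.support.erase (Finsupp.single none 1),
        algebraMap L (PowerSeries L) (coeff m G) *
          (U ^ (m none) * ∏ a, W a ^ (m (some a))) := by
      have e := hGU
      rw [aeval_def, eval₂_eq'] at e
      rw [← Finset.add_sum_erase G.support _ (mem_support_iff.mpr h1)] at e
      simp only [Fintype.prod_option] at e
      rw [eq_neg_iff_add_eq_zero, ← e]
      congr 1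
      simp [← hδ, ow]
    have hWn : ∀ a, PN v r n (W a) ≤ 1 := fun a => (hWs a n).trans (pow_le_one₀ hρ0.le hρ1)
    have hUk : ∀ k, PN v r n (U ^ k) ≤ ρ ^ k := fun k =>
      (SN.pow_le hS' U k).trans (pow_le_pow_left₀ ((SN_PN v hr n).nonneg U) ih k)
    have hterms : ∀ m ∈ G.support.erase (Finsupp.single none 1),
        PN v r (n + 1) (U ^ (m none) * ∏ a, W a ^ (m (some a))) ≤ ρ ^ 2 := by
      intro m hm
      obtain ⟨hm1, hm2⟩ := Finset.mem_erase.mp hm
      have hm0 : m ≠ 0 := by
        rintro rfl
        exact (mem_support_iff.mp hm2) h0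
      by_cases hex : ∃ a : σ, m (some a) ≠ 0
      · obtain ⟨a, ha⟩ := hex
        obtain ⟨k, hk⟩ : ∃ k, m (some a) = k + 1 := ⟨m (some a) - 1, by omega⟩
        have e1 : U ^ (m none) * ∏ a, W a ^ (m (some a)) =
            W a * (U ^ (m none) * (W a ^ k * ∏ b ∈ Finset.univ.erase a, W b ^ (m (some b)))) := by
          rw [← Finset.mul_prod_erase Finset.univ _ (Finset.mem_univ a), hk, pow_succ]
          ring
        rw [e1]
        refine (PN_mul_low v hr n _ _ (hW a)).trans ?_
        have h3 : PN v r n (U ^ (m none) *
            (W a ^ k * ∏ b ∈ Finset.univ.erase a, W b ^ (m (some b)))) ≤ 1 := by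
          refine (hS'.mul _ _).trans ?_
          have h4 : PN v r n (U ^ (m none)) ≤ 1 := (hUk _).trans (pow_le_one₀ hρ0.le hρ1)
          have h5 : PN v r n (W a ^ k * ∏ b ∈ Finset.univ.erase a, W b ^ (m (some b))) ≤ 1 := by
            refine (hS'.mul _ _).trans ?_
            have h6 : PN v r n (W a ^ k) ≤ 1 :=
              (SN.pow_le hS' _ k).trans (pow_le_one₀ (hS'.nonneg _) (hWn a))
            have h7 : PN v r n (∏ b ∈ Finset.univ.erase a, W b ^ (m (some b))) ≤ 1 := by
              refine (SN.prod_le hS' _ _).trans ?_
              refine Finset.prod_le_one (fun b _ => hS'.nonneg _) fun b _ => ?_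
              exact (SN.pow_le hS' _ _).trans (pow_le_one₀ (hS'.nonneg _) (hWn b))
            calc _ ≤ (1 : ℝ) * 1 := mul_le_mul h6 h7 (hS'.nonneg _) zero_le_one
              _ = 1 := one_mul 1
          calc _ ≤ (1 : ℝ) * 1 := mul_le_mul h4 h5 (hS'.nonneg _) zero_le_one
            _ = 1 := one_mul 1
        calc PN v r (n + 1) (W a) * PN v r n (U ^ (m none) *
            (W a ^ k * ∏ b ∈ Finset.univ.erase a, W b ^ (m (some b)))) ≤ ρ ^ 2 * 1 :=
              mul_le_mul (hWs a (n + 1)) h3 (hS'.nonneg _) (by positivity)
          _ = ρ ^ 2 := mul_one _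
      · push Not at hex
        have h2 : 2 ≤ m none := by
          by_contra hlt
          have : m none = 0 ∨ m none = 1 := by omega
          rcases this with h3 | h3
          · apply hm0
            ext o
            cases o with
            | none => simpa using h3
            | some a => simpa using hex a
          · apply hm1
            ext o
            cases o with
            | none => simpa using h3
            | some a => rw [hex a, Finsupp.single_apply, if_neg (by simp)]
        obtain ⟨k, hk⟩ : ∃ k, m none = (k + 1) + 1 := ⟨m none - 2, by omega⟩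
        have h8 : ∏ a, W a ^ (m (some a)) = 1 := Finset.prod_eq_one fun a _ => by
          rw [hex a, pow_zero]
        rw [h8, mul_one, hk, pow_succ' U (k + 1)]
        refine (PN_mul_le_of_constantCoeff v hr n U (U ^ (k + 1)) hU (by simp [hU])).trans ?_
        calc PN v r n U * PN v r n (U ^ (k + 1)) ≤ ρ * ρ ^ (k + 1) :=
              mul_le_mul ih (hUk _) ((SN_PN v hr n).nonneg _) hρ0.le
          _ = ρ ^ k * ρ ^ 2 := by ring
          _ ≤ 1 * ρ ^ 2 := mul_le_mul_of_nonneg_right (pow_le_one₀ hρ0.le hρ1) (by positivity)
          _ = ρ ^ 2 := one_mul _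
    have hbound : PN v r (n + 1) (PowerSeries.C δ * U) ≤ NV v G * ρ ^ 2 := by
      rw [hsum]
      rw [show PN v r (n + 1) (-∑ m ∈ G.support.erase (Finsupp.single none 1),
        algebraMap L (PowerSeries L) (coeff m G) *
          (U ^ (m none) * ∏ a, W a ^ (m (some a)))) =
          PN v r (n + 1) (∑ m ∈ G.support.erase (Finsupp.single none 1),
        algebraMap L (PowerSeries L) (coeff m G) *
          (U ^ (m none) * ∏ a, W a ^ (m (some a)))) from
          hS.neg _]
      exact NV_sum v hS G _ (Finset.erase_subset _ _) _ (by positivity) hterms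
    rw [PN_C_mul v hr] at hbound
    have hvδ : 0 < v δ := v.pos h1
    have : NV v G * ρ ^ 2 = v δ * ρ := by
      rw [hρ]
      field_simp
    rw [this] at hbound
    exact le_of_mul_le_mul_left hbound hvδ

end

end Pool.Agent.Lib.MP_17a322_nt.VA
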