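import Pool.Agent.Lib.MP_17a322_nt.VA.LA3

/-!
VA, part LA: the size of the path through a good point.
-/

universe u

namespace Pool.Agent.Lib.MP_17a322_nt.VA

open MvPolynomial Height
open Pool.Agent.Lib.MP_17a322_nt.RO
open Pool.Agent.Lib.MP_17a322_nt.VJ
open Pool.Agent.Lib.MP_17a322_nt.VN

/-- Common bounds. -/
theorem path_bounds {K : Type u} [Field K] {N : ℕ} {A : AV K N} {n e : ℕ} (nd : Noe A n e)
    (D : ℕ) (b : Polynomial (MvPolynomial (Fin n) K)) :
    ∃ (E : SC K) (c₀ : ℕ), 3 ≤ c₀ ∧ ∀ (L : Type u) [Field L] [Algebra K L]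
      (v : AbsoluteValue L ℝ) (y : Fin (N + 1) → L),
      (∏ t : Fin n, (cst v 2 * max 1 (v (lf (nd.l t.succ) y))) ^ D ≤ E.k v * mq v y ^ c₀) ∧
      (max 1 (NV v (tr (fun o => aeval y (nd.G o)) (MvPolynomial.map (algebraMap K L)
        (pO nd.Φ)))) * max 1 (v (aeval (fun o => aeval y (nd.G o)) (pO b))) ≤
          E.k v * mq v y ^ c₀) ∧
      (∀ j, cst v 2 ^ 2 * mq v y * (max 1 (NV v (tr (fun o => aeval y (nd.G o))
        (MvPolynomial.map (algebraMap K L) (pO (nd.p j))))) *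
        max 1 (NV v (tr (fun o => aeval y (nd.G o))
        (MvPolynomial.map (algebraMap K L) (pO (Polynomial.C nd.δ)))))) ≤
          E.k v * mq v y ^ c₀) ∧
      v (aeval (fun k : Fin n => lf (nd.l k.succ) y) nd.δ) ≤ E.k v * mq v y ^ c₀ := by
  have m1 : ∀ (x : ℝ), 0 ≤ max 1 x := fun x => zero_le_one.trans (le_max_left _ _)
  have d1 : Dom K N fun L _ _ v y =>
      ∏ t : Fin n, (cst v 2 * max 1 (v (aeval y (lfP (nd.l t.succ))))) ^ D :=
    Dom.prod Finset.univ _ (fun t _ => (Dom.mul (Dom_adm (Adm_cst 2))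
      (Dom_one.max (Dom_aeval (lfP (nd.l t.succ)))) fun L _ _ v y => m1 _).pow
        (fun L _ _ v y => mul_nonneg (cst_nonneg v 2) (m1 _)) D) fun t _ L _ _ v y =>
          pow_nonneg (mul_nonneg (cst_nonneg v 2) (m1 _)) _
  have d2 : Dom K N fun L _ _ v y =>
      max 1 (NV v (tr (fun o => aeval y (nd.G o)) (MvPolynomial.map (algebraMap K L)
        (pO nd.Φ)))) * max 1 (v (aeval y (bind₁ nd.G (pO b)))) :=
    Dom.mul (Dom_one.max (Dom_tr (pO nd.Φ) nd.G)) (Dom_one.max (Dom_aeval _))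
      fun L _ _ v y => m1 _
  have d3 : ∀ j, Dom K N fun L _ _ v y =>
      cst v 2 ^ 2 * mq v y * (max 1 (NV v (tr (fun o => aeval y (nd.G o))
        (MvPolynomial.map (algebraMap K L) (pO (nd.p j))))) *
        max 1 (NV v (tr (fun o => aeval y (nd.G o))
        (MvPolynomial.map (algebraMap K L) (pO (Polynomial.C nd.δ)))))) := fun j =>
    Dom.mul (Dom.mul ((Dom_adm (Adm_cst 2)).pow (fun L _ _ v y => cst_nonneg v 2) 2) Dom_mq
      fun L _ _ v y => (mq_pos v y).le) (Dom.mul (Dom_one.max (Dom_tr _ nd.G))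
        (Dom_one.max (Dom_tr _ nd.G)) fun L _ _ v y => m1 _) fun L _ _ v y =>
          mul_nonneg (m1 _) (m1 _)
  have d4 : Dom K N fun L _ _ v y =>
      v (aeval y (bind₁ (fun k : Fin n => lfP (nd.l k.succ)) nd.δ)) := Dom_aeval _
  obtain ⟨E₃, c₃, h₃⟩ := Dom.family _ d3
  obtain ⟨E₁, c₁, h₁⟩ := d1
  obtain ⟨E₂, c₂, h₂⟩ := d2
  obtain ⟨E₄, c₄, h₄⟩ := d4
  refine ⟨(E₁.mul E₂).mul (E₃.mul E₄), c₁ + c₂ + c₃ + c₄ + 3, by omega, ?_⟩
  intro L _ _ v y
  have hmono : ∀ (E' : SC K) (c' : ℕ), E'.k v ≤ ((E₁.mul E₂).mul (E₃.mul E₄)).k v →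
      c' ≤ c₁ + c₂ + c₃ + c₄ + 3 → E'.k v * mq v y ^ c' ≤
        ((E₁.mul E₂).mul (E₃.mul E₄)).k v * mq v y ^ (c₁ + c₂ + c₃ + c₄ + 3) := by
    intro E' c' hE hc
    exact mul_le_mul hE (pow_le_pow_right₀ (one_le_mq v y) hc) (pow_nonneg (mq_pos v y).le _)
      (SC.pos _ v).le
  have hm1 := SC.le_mul_left (E₁.mul E₂) (E₃.mul E₄) v
  have hm2 := SC.le_mul_right (E₁.mul E₂) (E₃.mul E₄) v
  refine ⟨?_, ?_, fun j => ?_, ?_⟩
  · have := (h₁ L v y).trans (hmono E₁ c₁ ((SC.le_mul_left E₁ E₂ v).trans hm1) (by omega))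
    simp only [aeval_lfP] at this
    exact this
  · have := (h₂ L v y).trans (hmono E₂ c₂ ((SC.le_mul_right E₁ E₂ v).trans hm1) (by omega))
    simp only [aeval_bind₁] at this
    exact this
  · exact (h₃ j L v y).trans (hmono E₃ c₃ ((SC.le_mul_left E₃ E₄ v).trans hm2) (by omega))
  · have := (h₄ L v y).trans (hmono E₄ c₄ ((SC.le_mul_right E₃ E₄ v).trans hm2) (by omega))
    simp only [aeval_bind₁, aeval_lfP] at this
    exact this

/-- Values of a translated polynomial at small series. -/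
theorem tr_value_size {L : Type*} [Field L] (v : AbsoluteValue L ℝ) {n : ℕ}
    (H : MvPolynomial (Option (Fin n)) L) (W : Fin n → PowerSeries L) (U : PowerSeries L)
    {r : ℝ} (hr : 0 ≤ r) (hW : ∀ k s, PN v r s (W k) ≤ 1) (hU : ∀ s, PN v r s U ≤ 1) (s : ℕ) :
    PN v r s (aeval (ow U W) H) ≤ NV v H := by
  have h := (SN_PN v hr s).aeval_le H (fun t => H.degreeOf t) (fun t => le_rfl) (ow U W)
  refine h.trans (le_of_eq ?_)
  have h1 : ∀ o, max 1 (PN v r s (ow U W o)) = 1 := by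
    intro o
    refine max_eq_left ?_
    cases o with
    | none => exact hU s
    | some k => exact hW k s
  simp only [h1, one_pow, Finset.prod_const_one, mul_one]

theorem constantCoeff_value {L : Type*} [Field L] {n : ℕ}
    (H : MvPolynomial (Option (Fin n)) L) (W : Fin n → PowerSeries L) (U : PowerSeries L)
    (hW : ∀ k, PowerSeries.constantCoeff (W k) = 0) (hU : PowerSeries.constantCoeff U = 0) :
    PowerSeries.constantCoeff (aeval (ow U W) H) = coeff 0 H := by
  have h3 := MvPolynomial.map_aeval (ow U W) (PowerSeries.constantCoeff (R := L)) H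
  rw [h3]
  have h4 : (PowerSeries.constantCoeff (R := L)).comp (algebraMap L (PowerSeries L)) =
      RingHom.id L := by
    ext a
    rw [RingHom.comp_apply, PowerSeries.algebraMap_apply, PowerSeries.constantCoeff_C]
    rfl
  have h5 : (fun i => PowerSeries.constantCoeff (ow U W i)) = (0 : Option (Fin n) → L) := by
    funext o
    cases o with
    | none => exact hU
    | some k => exact hW k
  rw [h4, h5]
  exact eval₂Hom_zero_apply _ _ |>.trans (by rw [RingHom.id_apply]; rfl)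

/-- The constant coefficient as a homomorphism of algebras. -/
noncomputable def cA (K : Type*) [Field K] (L : Type*) [Field L] [Algebra K L] :
    PowerSeries L →ₐ[K] L :=
  { PowerSeries.constantCoeff (R := L) with
    commutes' := fun a => by
      show PowerSeries.constantCoeff (algebraMap K (PowerSeries L) a) = algebraMap K L a
      rw [PowerSeries.algebraMap_apply, PowerSeries.constantCoeff_C] }

/-- The path. -/
theorem exists_path {K : Type u} [Field K] {N : ℕ} {A : AV K N} {n e c : ℕ}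
    (nd : Noe A n e) (rr : Fin c → Fin n) (hrr : Function.Injective rr) (D : ℕ) :
    ∃ (E : SC K) (c₀ : ℕ), ∀ (P : A.Pts K) (q' : Fin c → MvPolynomial (Fin n) K),
      nd.Good P → IsEq nd rr D P q' → ∀ (L : Type u) [Field L] [Algebra K L] (ζ : Fin n → L),
      (∀ a, ∃ k, 0 < k ∧ ζ a ^ k = 1) →
      (∀ v : AbsoluteValue L ℝ, 0 < rad nd rr E c₀ P q' v ∧ rad nd rr E c₀ P q' v ≤ 1) ∧
      ∃ Y : Fin (N + 1) → PowerSeries L, A.IsPt Y ∧ lf (nd.l 0) Y = 1 ∧
        (∀ b, PowerSeries.constantCoeff (Y b) = algebraMap K L (nd.y P b)) ∧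
        (∀ k, k ∉ Set.range rr → lf (nd.l k.succ) Y =
          PowerSeries.C (algebraMap K L (nd.s P k)) + PowerSeries.C (ζ k) * PowerSeries.X) ∧
        (∀ b, aeval (fun k : Fin n => lf (nd.l k.succ) Y) (q' b) = 0) ∧
        ∀ (v : AbsoluteValue L ℝ) (r : ℝ), 0 ≤ r → r ≤ rad nd rr E c₀ P q' v → ∀ b s,
          PN v r s (Y b - PowerSeries.C (algebraMap K L (nd.y P b))) ≤ 1 := by
  obtain ⟨pa, pb, hab⟩ := nd.sep
  obtain ⟨E, c₀, hc₀, hE⟩ := path_bounds nd D pb
  refine ⟨E, c₀, ?_⟩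
  intro P q' hP hq L _ _ ζ hζ
  obtain ⟨W, U, Y, hW0, hU0, hWn, hWr, hUG, hY1, hY2, hY3, hY4, hY5⟩ :=
    formal_path nd rr hrr D P q' hP hq L ζ hζ
  obtain ⟨hy1, hy2, hy3⟩ := nd.y_facts P hP.1 L
  set y₀ : Fin (N + 1) → L := fun b => algebraMap K L (nd.y P b) with hy₀
  set σ : Fin n → L := fun k => algebraMap K L (nd.s P k) with hσ
  set t₀ : L := aeval y₀ nd.θ with ht₀
  set ξ : Option (Fin n) → L := fun o => aeval y₀ (nd.G o) with hξ
  have hξe : ξ = ow t₀ σ := by
    rw [hξ, nd.G_eq y₀]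
    congr 1
    funext k
    exact hy3 k
  have hval : ∀ F : MvPolynomial (Fin n) K, aeval σ F = algebraMap K L (eval (nd.s P) F) := by
    intro F
    have h1 := aeval_algMap (K := K) (L := K) (R := L) (nd.s P) F
    rw [hσ]
    rw [h1]
    congr 1
  set δ₀ : L := algebraMap K L (eval (nd.s P) nd.δ) with hδ₀
  have hδ : δ₀ ≠ 0 := by
    intro h
    apply hP.2
    rw [aeval_eq_eval]
    exact (map_eq_zero _).1 h
  have hdq : ∀ b, algebraMap K L (eval (nd.s P) (pderiv (rr b) (q' b))) ≠ 0 := fun b h =>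
    (hq b).2.2.2 ((map_eq_zero _).1 h)
  have hq0 : ∀ b, MvPolynomial.map (algebraMap K L) (q' b) ≠ 0 := by
    intro b h
    have h1 : q' b = 0 := by
      exact MvPolynomial.map_injective (σ := Fin n) (algebraMap K L) (algebraMap K L).injective
        (by rw [h, map_zero])
    apply (hq b).2.2.2
    rw [h1, map_zero, map_zero]
  have hevO : ∀ Ψ : Polynomial (MvPolynomial (Fin n) K),
      eval ξ (MvPolynomial.map (algebraMap K L) (pO Ψ)) =
        Ψ.eval₂ (aeval (R := K) σ).toRingHom t₀ := by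
    intro Ψ
    rw [eval_map, hξe, ← aeval_pO, aeval_def]
  -- the bounds
  have hX : ∀ v : AbsoluteValue L ℝ,
      (∏ t : Fin n, (cst v 2 * max 1 (v (σ t))) ^ D ≤ E.k v * mq v y₀ ^ c₀) ∧
      (max 1 (NV v (tr ξ (MvPolynomial.map (algebraMap K L) (pO nd.Φ)))) *
        max 1 (v (aeval ξ (pO pb))) ≤ E.k v * mq v y₀ ^ c₀) ∧
      (∀ j, cst v 2 ^ 2 * mq v y₀ * (max 1 (NV v (tr ξ (MvPolynomial.map (algebraMap K L)
        (pO (nd.p j))))) * max 1 (NV v (tr ξ (MvPolynomial.map (algebraMap K L)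
          (pO (Polynomial.C nd.δ)))))) ≤ E.k v * mq v y₀ ^ c₀) ∧
      v δ₀ ≤ E.k v * mq v y₀ ^ c₀ := by
    intro v
    obtain ⟨h1, h2, h3, h4⟩ := hE L v y₀
    refine ⟨?_, h2, h3, ?_⟩
    · have h5 : (fun t : Fin n => lf (nd.l t.succ) y₀) = σ := funext hy3
      have h6 : ∏ t : Fin n, (cst v 2 * max 1 (v (lf (nd.l t.succ) y₀))) ^ D =
          ∏ t : Fin n, (cst v 2 * max 1 (v (σ t))) ^ D :=
        Finset.prod_congr rfl fun t _ => by rw [hy3 t]
      rw [← h6]
      exact h1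
    · have h5 : (fun k : Fin n => lf (nd.l k.succ) y₀) = σ := funext hy3
      rw [h5, hval] at h4
      exact h4
  have hX0 : ∀ v : AbsoluteValue L ℝ, 0 < E.k v * mq v y₀ ^ c₀ := fun v =>
    one_pos.trans_le (one_le_SCmq E c₀ v y₀)
  have hNVq : ∀ v : AbsoluteValue L ℝ, ∀ b, 0 < NV v (MvPolynomial.map (algebraMap K L) (q' b)) :=
    fun v b => NV_pos v (hq0 b)
  -- the derivatives of the equations
  have hdb : ∀ (v : AbsoluteValue L ℝ) b,
      v (algebraMap K L (eval (nd.s P) (pderiv (rr b) (q' b)))) ≤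
        NV v (MvPolynomial.map (algebraMap K L) (q' b)) * (E.k v * mq v y₀ ^ c₀) := by
    intro v b
    have h1 : algebraMap K L (eval (nd.s P) (pderiv (rr b) (q' b))) =
        coeff (Finsupp.single (rr b) 1) (tr σ (MvPolynomial.map (algebraMap K L) (q' b))) := by
      rw [J9_coeff_single_tr, pderiv_map, eval_map, ← hval, aeval_def]
    rw [h1]
    refine (coeff_le_NV v _ _).trans ?_
    have h2 : ∀ t, (MvPolynomial.map (algebraMap K L) (q' b)).degreeOf t ≤ D := fun t =>
      degreeOf_le_iff.2 fun m hm =>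
        (monomial_le_degreeOf t (support_map_subset _ _ hm)).trans ((hq b).2.1 t)
    refine (NV_tr_le v _ (fun _ => D) h2 σ).trans ?_
    exact mul_le_mul_of_nonneg_left (hX v).1 (hNVq v b).le
  -- the factors of the radius
  set x : AbsoluteValue L ℝ → ℝ := fun v => v δ₀ / (E.k v * mq v y₀ ^ c₀) with hx
  set z : AbsoluteValue L ℝ → Fin c → ℝ := fun v b =>
    v (algebraMap K L (eval (nd.s P) (pderiv (rr b) (q' b)))) /
      (NV v (MvPolynomial.map (algebraMap K L) (q' b)) * (E.k v * mq v y₀ ^ c₀)) with hz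
  have hx0 : ∀ v, 0 < x v := fun v => div_pos (v.pos hδ) (hX0 v)
  have hx1 : ∀ v, x v ≤ 1 := fun v => (div_le_one (hX0 v)).2 (hX v).2.2.2
  have hz0 : ∀ v b, 0 < z v b := fun v b =>
    div_pos (v.pos (hdq b)) (mul_pos (hNVq v b) (hX0 v))
  have hz1 : ∀ v b, z v b ≤ 1 := fun v b =>
    (div_le_one (mul_pos (hNVq v b) (hX0 v))).2 (hdb v b)
  have hrad : ∀ v, rad nd rr E c₀ P q' v = x v ^ c₀ * ∏ b, z v b ^ 2 := fun v => rfl
  have hr1 : ∀ v, ∏ b, z v b ^ 2 ≤ 1 := fun v =>
    Finset.prod_le_one (fun b _ => pow_nonneg (hz0 v b).le _) fun b _ =>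
      pow_le_one₀ (hz0 v b).le (hz1 v b)
  have hr0 : ∀ v, 0 < ∏ b, z v b ^ 2 := fun v => Finset.prod_pos fun b _ => pow_pos (hz0 v b) _
  have hcc : ∀ b, PowerSeries.constantCoeff (Y b) = y₀ b := by
    intro b
    have h1 := nd.p_eq L y₀ hy1 hy2 b
    have h2 := nd.p_eq L (fun b => cA K L (Y b)) (hY1.map (cA K L))
      (by rw [← map_lf, hY2, map_one]) b
    have h3 : (fun k : Fin n => lf (nd.l k.succ) fun b => cA K L (Y b)) = σ := by
      funext k
      rw [← map_lf, hY3]
      show PowerSeries.constantCoeff (PowerSeries.C (σ k) + W k) = σ k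
      rw [map_add, hW0, PowerSeries.constantCoeff_C, add_zero]
    have h4 : aeval (fun b => cA K L (Y b)) nd.θ = t₀ := by
      have h5 := MvPolynomial.comp_aeval_apply (R := K) Y (cA K L) nd.θ
      rw [← h5, hY4]
      show PowerSeries.constantCoeff (PowerSeries.C t₀ + U) = t₀
      rw [map_add, hU0, PowerSeries.constantCoeff_C, add_zero]
    have h6 : (fun k : Fin n => lf (nd.l k.succ) y₀) = σ := funext hy3
    rw [h3, h4] at h2
    rw [h6, ← ht₀, ← h2, hval] at h1
    exact (mul_left_cancel₀ hδ h1).symm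
  refine ⟨fun v => ?_, Y, hY1, hY2, ?_, ?_, hY5, ?_⟩
  · rw [hrad]
    exact ⟨mul_pos (pow_pos (hx0 v) _) (hr0 v),
      mul_le_one₀ (pow_le_one₀ (hx0 v).le (hx1 v)) (hr0 v).le (hr1 v)⟩
  · -- the constant coefficients
    exact hcc
  · intro k hk
    rw [hY3, hWn k hk]
  · -- the sizes
    intro v r hr hrr' j s
    obtain ⟨hX1, hX2, hX3, hX4⟩ := hX v
    set X : ℝ := E.k v * mq v y₀ ^ c₀ with hXdef
    have hXp : 0 < X := hX0 v
    set r₁ : ℝ := ∏ b, z v b ^ 2 with hr₁
    have hr₁0 : 0 ≤ r₁ := (hr0 v).le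
    have hW1 : ∀ k s, PN v r₁ s (W k) ≤ 1 := by
      intro k s
      by_cases hk : k ∈ Set.range rr
      · obtain ⟨b, rfl⟩ := hk
        refine hWr b v r₁ hr₁0 ?_ s
        have h1 : r₁ ≤ z v b ^ 2 := by
          rw [hr₁, ← Finset.mul_prod_erase Finset.univ _ (Finset.mem_univ b)]
          exact mul_le_of_le_one_right (sq_nonneg _) (Finset.prod_le_one
            (fun b _ => pow_nonneg (hz0 v b).le _) fun b _ =>
              pow_le_one₀ (hz0 v b).le (hz1 v b))
        have h2 : z v b * (NV v (MvPolynomial.map (algebraMap K L) (q' b)) * X) =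
            v (algebraMap K L (eval (nd.s P) (pderiv (rr b) (q' b)))) :=
          div_mul_cancel₀ _ (mul_pos (hNVq v b) (hX0 v)).ne'
        have h3 : 0 ≤ ∏ t, (cst v 2 * max 1 (v (σ t))) ^ D := Finset.prod_nonneg fun t _ =>
          pow_nonneg (mul_nonneg (cst_nonneg v 2) (zero_le_one.trans (le_max_left _ _))) _
        calc r₁ * (NV v (MvPolynomial.map (algebraMap K L) (q' b)) *
              ∏ t, (cst v 2 * max 1 (v (σ t))) ^ D) ^ 2
            ≤ z v b ^ 2 * (NV v (MvPolynomial.map (algebraMap K L) (q' b)) * X) ^ 2 := by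
              refine mul_le_mul h1 (pow_le_pow_left₀ (mul_nonneg (hNVq v b).le h3)
                (mul_le_mul_of_nonneg_left hX1 (hNVq v b).le) 2) (sq_nonneg _) (sq_nonneg _)
          _ = (z v b * (NV v (MvPolynomial.map (algebraMap K L) (q' b)) * X)) ^ 2 := by ring
          _ = _ := by rw [h2]
      · rw [hWn k hk]
        exact (PN_mono_radius v hr₁0 (hr1 v) s _).trans (VN.explicit_size v (ζ k) (hζ k) s)
    -- the root
    set G : MvPolynomial (Option (Fin n)) L := tr ξ (MvPolynomial.map (algebraMap K L) (pO nd.Φ))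
      with hG
    set c₁ : L := coeff (Finsupp.single none 1) G with hc₁
    have hc₁e : c₁ = (Polynomial.derivative nd.Φ).eval₂ (aeval (R := K) σ).toRingHom t₀ := by
      rw [hc₁, hG, J9_coeff_single_tr, pderiv_map, pderiv_pO, hevO]
    have hG0 : coeff 0 G = 0 := by
      rw [hG, coeff_zero_tr, hevO]
      have h1 := nd.Φ_zero L y₀ hy1 hy2
      have h2 : (fun k : Fin n => lf (nd.l k.succ) y₀) = σ := funext hy3
      rw [h2] at h1
      exact h1
    have hprod : aeval ξ (pO pb) * c₁ = δ₀ := by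
      have h2 := congrArg (fun Ψ : Polynomial (MvPolynomial (Fin n) K) =>
        Ψ.eval₂ (aeval (R := K) σ).toRingHom t₀) hab
      simp only [Polynomial.eval₂_add, Polynomial.eval₂_mul, Polynomial.eval₂_C] at h2
      have h3 : nd.Φ.eval₂ (aeval (R := K) σ).toRingHom t₀ = 0 := by
        rw [← hevO, ← coeff_zero_tr]
        exact hG0
      rw [h3, mul_zero, zero_add] at h2
      rw [hc₁e, hξe, aeval_pO]
      exact h2.trans (hval nd.δ)
    have hc₁0 : c₁ ≠ 0 := by
      intro h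
      rw [h, mul_zero] at hprod
      exact hδ hprod.symm
    have hGne : G ≠ 0 := by
      intro h
      apply hc₁0
      rw [hc₁, h, coeff_zero]
    have hNG : 0 < NV v G := NV_pos v hGne
    have hxρ : x v ≤ v c₁ / NV v G := by
      rw [hx]
      simp only []
      rw [div_le_div_iff₀ hXp hNG, ← hprod, map_mul]
      calc v (aeval ξ (pO pb)) * v c₁ * NV v G
          = v c₁ * (NV v G * v (aeval ξ (pO pb))) := by ring
        _ ≤ v c₁ * (max 1 (NV v G) * max 1 (v (aeval ξ (pO pb)))) := by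
            refine mul_le_mul_of_nonneg_left ?_ (v.nonneg _)
            exact mul_le_mul (le_max_right _ _) (le_max_right _ _) (v.nonneg _)
              (zero_le_one.trans (le_max_left _ _))
        _ ≤ v c₁ * X := mul_le_mul_of_nonneg_left hX2 (v.nonneg _)
    have hρ1 : v c₁ / NV v G ≤ 1 := by
      rw [div_le_one hNG]
      exact coeff_le_NV v G _
    set r₂ : ℝ := x v ^ 2 * r₁ with hr₂
    have hr₂0 : 0 ≤ r₂ := mul_nonneg (sq_nonneg _) hr₁0
    have hx2 : x v ^ 2 ≤ 1 := pow_le_one₀ (hx0 v).le (hx1 v)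
    have hW2 : ∀ k s, PN v r₂ s (W k) ≤ x v ^ 2 := by
      intro k s
      have h1 := PN_scale v hr₁0 (sq_nonneg (x v)) hx2 s (W k) (hW0 k)
      exact h1.trans (mul_le_of_le_one_right (sq_nonneg _) (hW1 k s))
    have hU2 : ∀ s, PN v r₂ s U ≤ 1 := by
      intro s
      refine (option_size v G hG0 hc₁0 W hW0 U hU0 hUG hr₂0 (fun k s => ?_) s).trans hρ1
      exact (hW2 k s).trans (pow_le_pow_left₀ (hx0 v).le hxρ 2)
    have hW3 : ∀ k s, PN v r₂ s (W k) ≤ 1 := fun k s => (hW2 k s).trans hx2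
    -- the values
    have hvalO : ∀ Ψ : Polynomial (MvPolynomial (Fin n) K),
        aeval (ow U W) (tr ξ (MvPolynomial.map (algebraMap K L) (pO Ψ))) =
          Ψ.eval₂ (aeval (R := K) fun k : Fin n => lf (nd.l k.succ) Y).toRingHom
            (aeval Y nd.θ) := by
      intro Ψ
      rw [aeval_tr, aeval_map_algebraMap, ← aeval_pO]
      congr 1
      congr 1
      funext o
      rw [hξe]
      cases o with
      | none =>
        show U + algebraMap L (PowerSeries L) t₀ = aeval Y nd.θ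
        rw [hY4, add_comm]
        rfl
      | some k =>
        show W k + algebraMap L (PowerSeries L) (σ k) = lf (nd.l k.succ) Y
        rw [hY3, add_comm]
        rfl
    set Hj : MvPolynomial (Option (Fin n)) L :=
      tr ξ (MvPolynomial.map (algebraMap K L) (pO (nd.p j))) with hHj
    set Hd : MvPolynomial (Option (Fin n)) L :=
      tr ξ (MvPolynomial.map (algebraMap K L) (pO (Polynomial.C nd.δ))) with hHd
    set Vj : PowerSeries L := aeval (ow U W) Hj with hVj
    set Vd : PowerSeries L := aeval (ow U W) Hd with hVd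
    have hVjs : ∀ s, PN v r₂ s Vj ≤ NV v Hj := tr_value_size v Hj W U hr₂0 hW3 hU2
    have hVds : ∀ s, PN v r₂ s Vd ≤ NV v Hd := tr_value_size v Hd W U hr₂0 hW3 hU2
    have hmul : Vd * Y j = Vj := by
      have h1 := nd.p_eq (PowerSeries L) Y hY1 hY2 j
      rw [hVd, hVj, hHd, hHj, hvalO, hvalO, Polynomial.eval₂_C]
      exact h1
    have hVd0 : PowerSeries.constantCoeff Vd = δ₀ := by
      rw [hVd, constantCoeff_value Hd W U hW0 hU0, hHd, coeff_zero_tr, hevO,
        Polynomial.eval₂_C]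
      exact hval nd.δ
    have hVj0 : PowerSeries.constantCoeff Vj = δ₀ * y₀ j := by
      rw [← hmul, map_mul, hVd0, hcc]
    have hunit : IsUnit Vd := by
      rw [PowerSeries.isUnit_iff_constantCoeff, hVd0]
      exact isUnit_iff_ne_zero.2 hδ
    obtain ⟨g, hg⟩ := hunit.exists_right_inv
    have hvδ : 0 < v δ₀ := v.pos hδ
    have hc2 : 1 ≤ cst v 2 := one_le_cst v (by norm_num)
    have hmq1 : 1 ≤ mq v y₀ := one_le_mq v y₀
    have hNd : NV v Hd ≤ max 1 (NV v Hd) := le_max_right _ _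
    have hN1 : 1 ≤ max 1 (NV v Hd) := le_max_left _ _
    have hN2 : 1 ≤ max 1 (NV v Hj) := le_max_left _ _
    have hxX : x v * X = v δ₀ := div_mul_cancel₀ _ hXp.ne'
    have h3j := hX3 j
    have hMM : 1 ≤ max 1 (NV v Hj) * max 1 (NV v Hd) := one_le_mul_of_one_le_of_one_le hN2 hN1
    have hg3 : ∀ s, PN v (x v * r₂) s g ≤ cst v 2 / v δ₀ := by
      intro s
      have h1 := PN_inv v (r := r₂) (lam := x v) (B := NV v Hd) hr₂0 (hx0 v).le (hx1 v) Vd g hg
        hVds (by
          rw [hVd0, ← hxX]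
          refine mul_le_mul_of_nonneg_left ?_ (hx0 v).le
          refine le_trans ?_ h3j
          have h4 : cst v 2 ≤ cst v 2 ^ 2 * mq v y₀ := by
            have h5 : cst v 2 ≤ cst v 2 ^ 2 := le_self_pow₀ hc2 two_ne_zero
            exact h5.trans (le_mul_of_one_le_right (sq_nonneg _) hmq1)
          have h6 : NV v Hd ≤ max 1 (NV v Hj) * max 1 (NV v Hd) :=
            hNd.trans (le_mul_of_one_le_left (zero_le_one.trans hN1) hN2)
          exact mul_le_mul h4 h6 (SN_NV v |>.nonneg _)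
            (mul_nonneg (sq_nonneg _) (zero_le_one.trans hmq1))) s
      rw [hVd0] at h1
      exact h1
    set r₃ : ℝ := x v * r₂ with hr₃
    have hr₃0 : 0 ≤ r₃ := mul_nonneg (hx0 v).le hr₂0
    have hS3 := SN_PN v hr₃0 s
    have hsub : ∀ (f : PowerSeries L) (B : ℝ), (∀ s, PN v r₂ s f ≤ B) →
        PN v r₃ s (f - PowerSeries.C (PowerSeries.constantCoeff f)) ≤ x v * B := by
      intro f B hB
      have h1 := PN_scale v hr₂0 (hx0 v).le (hx1 v) s
        (f - PowerSeries.C (PowerSeries.constantCoeff f))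
        (by rw [map_sub, PowerSeries.constantCoeff_C, sub_self])
      refine h1.trans (mul_le_mul_of_nonneg_left ?_ (hx0 v).le)
      have h2 := PA_sub_const (SN_self v) hr₂0 s f
      exact h2.trans (hB s)
    have hid : Y j - PowerSeries.C (y₀ j) =
        g * ((Vj - PowerSeries.C (PowerSeries.constantCoeff Vj)) +
          -(PowerSeries.C (y₀ j) * (Vd - PowerSeries.C (PowerSeries.constantCoeff Vd)))) := by
      rw [hVj0, hVd0, ← hmul, map_mul]
      linear_combination (-(Y j) + PowerSeries.C (y₀ j)) * hg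
    have hM1 : PN v r₃ s (Vj - PowerSeries.C (PowerSeries.constantCoeff Vj)) ≤
        x v * (mq v y₀ * (max 1 (NV v Hj) * max 1 (NV v Hd))) := by
      refine (hsub Vj _ hVjs).trans (mul_le_mul_of_nonneg_left ?_ (hx0 v).le)
      calc NV v Hj ≤ max 1 (NV v Hj) := le_max_right _ _
        _ ≤ max 1 (NV v Hj) * max 1 (NV v Hd) :=
            le_mul_of_one_le_right (zero_le_one.trans hN2) hN1
        _ ≤ mq v y₀ * (max 1 (NV v Hj) * max 1 (NV v Hd)) :=
            le_mul_of_one_le_left (zero_le_one.trans hMM) hmq1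
    have hM2 : PN v r₃ s (-(PowerSeries.C (y₀ j) *
        (Vd - PowerSeries.C (PowerSeries.constantCoeff Vd)))) ≤
        x v * (mq v y₀ * (max 1 (NV v Hj) * max 1 (NV v Hd))) := by
      rw [hS3.neg]
      have h1 : PN v r₃ s (PowerSeries.C (y₀ j) *
          (Vd - PowerSeries.C (PowerSeries.constantCoeff Vd))) ≤
          v (y₀ j) * (x v * NV v Hd) := by
        rw [PN_C_mul v hr₃0]
        exact mul_le_mul_of_nonneg_left (hsub Vd _ hVds) (v.nonneg _)
      refine h1.trans ?_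
      have h2 : NV v Hd ≤ max 1 (NV v Hj) * max 1 (NV v Hd) :=
        hNd.trans (le_mul_of_one_le_left (zero_le_one.trans hN1) hN2)
      calc v (y₀ j) * (x v * NV v Hd) = x v * (v (y₀ j) * NV v Hd) := by ring
        _ ≤ x v * (mq v y₀ * (max 1 (NV v Hj) * max 1 (NV v Hd))) := by
            refine mul_le_mul_of_nonneg_left ?_ (hx0 v).le
            exact mul_le_mul (le_mq v y₀ j) h2 (SN_NV v |>.nonneg _) (zero_le_one.trans hmq1)
    have hM3 := hS3.add_le_cst hM1 hM2
    have hfin : PN v r₃ s (Y j - PowerSeries.C (y₀ j)) ≤ 1 := by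
      rw [hid]
      refine (hS3.mul _ _).trans ?_
      calc PN v r₃ s g * PN v r₃ s ((Vj - PowerSeries.C (PowerSeries.constantCoeff Vj)) +
            -(PowerSeries.C (y₀ j) * (Vd - PowerSeries.C (PowerSeries.constantCoeff Vd))))
          ≤ (cst v 2 / v δ₀) * (cst v 2 *
              (x v * (mq v y₀ * (max 1 (NV v Hj) * max 1 (NV v Hd))))) :=
            mul_le_mul (hg3 s) hM3 (hS3.nonneg _) (div_nonneg (cst_nonneg v 2) hvδ.le)
        _ = x v * (cst v 2 ^ 2 * mq v y₀ * (max 1 (NV v Hj) * max 1 (NV v Hd))) / v δ₀ := by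
            ring
        _ ≤ x v * X / v δ₀ := by
            refine div_le_div_of_nonneg_right ?_ hvδ.le
            exact mul_le_mul_of_nonneg_left h3j (hx0 v).le
        _ = 1 := by rw [hxX, div_self hvδ.ne']
    refine (PN_mono_radius v hr ?_ s _).trans hfin
    refine hrr'.trans ?_
    rw [hrad]
    calc x v ^ c₀ * r₁ ≤ x v ^ 3 * r₁ :=
          mul_le_mul_of_nonneg_right (pow_le_pow_of_le_one (hx0 v).le (hx1 v) hc₀) hr₁0
      _ = r₃ := by rw [hr₃, hr₂]; ring

end Pool.Agent.Lib.MP_17a322_nt.VA
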