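import Pool.Agent.Lib.MP_17a322_nt.VA.L0

/-!
# JOB LAhs: homogeneous series

`HS i f` (VA/L0.lean): the coefficient of `z ^ k` (outer variable) is homogeneous of degree `k` in the directions
`X (i, a)` and does not contain the directions `X (i', a)`, `i' ≠ i`.

Complete proofs. Write `B k` for the set of the `g : MvPolynomial (Fin m × Fin n) L` such that every `w` with `coeff w g ≠ 0` has
`w p = 0` for `p.1 ≠ i` and `∑ a, w (i, a) = k`. `B k` is closed under `+`, `-`, `0 ∈ B k`, `B k * B l ⊆ B (k + l)`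
(`MvPolynomial.coeff_mul`: if the coefficient of `w` is not zero, some `w = w₁ + w₂` with both coefficients nonzero:
`Finset.exists_ne_zero_of_sum_ne_zero`), constants `C a` are in `B 0` (`coeff_C`). `HS i f ↔ ∀ k l, coeff l (coeff k f) ∈ B k`.
* `HS.add`, `HS.neg`, `HS.sub`, `HS.zero`: coefficientwise. `HS.C`: `f = PowerSeries.C (PowerSeries.map C g)`: the coefficient of `z ^ k` is `0`
 for `k ≥ 1` and `map C g` for `k = 0`, whose `l`-th coefficient is a constant.
* `HS.mul`: `coeff l (coeff k (f * g)) = ∑ ∑ coeff l₁ (coeff k₁ f) * coeff l₂ (coeff k₂ g)` (`PowerSeries.coeff_mul` twice, `map_sum`), the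
 terms are in `B (k₁ + k₂)`.
* `HS.aeval`: `MvPolynomial.induction_on` (or `HS i` as a subalgebra: `aeval` maps into it).
* `HS.inv`: `f * g = 1`, `HS i f`, so `HS i g`. By strong induction on `k`: for all `l`, `coeff l (coeff k g) ∈ B k`. Let `f_k`, `g_k` be the
 coefficients of `z ^ k` (in `D1`). `f_0 * g_0 = 1`. All coefficients of `f_0` are in `B 0`, that is constants
 (`g ∈ B 0` implies `g = C (coeff 0 g)`: every `w` with nonzero coefficient has `w (i, a) = 0`, as the sum is `0`, and `w p = 0` for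
 the other `p`, so `w = 0`), so `f_0 = PowerSeries.map C f₀'`, `f₀' = PowerSeries.map constantCoeff f_0`; put `g₀' = PowerSeries.map
 constantCoeff g_0`; then `f₀' * g₀' = 1`, hence `f_0 * map C g₀' = 1` and by uniqueness of the inverse `g_0 = map C g₀'` has all its
 coefficients in `B 0`. For `k ≥ 1`: `0 = ∑_{a + b = k} f_a g_b`, so `g_k = - g_0 * ∑_{a + b = k, a ≥ 1} f_a g_b`, and the coefficients of the
 right side are in `B k` (induction: `b < k`; products as in `HS.mul`).
 (Alternative: first prove the statement for a general graded setting; any proof is welcome.)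
-/

universe u

namespace Pool.Agent.Lib.MP_17a322_nt.VA

open MvPolynomial Height
open Pool.Agent.Lib.MP_17a322_nt.RO
open Pool.Agent.Lib.MP_17a322_nt.VJ
open Pool.Agent.Lib.MP_17a322_nt.VN

section

variable {L : Type*} [Field L] {m n : ℕ} {i : Fin m}

/-- The condition on the exponents. -/
private def LAhs_cond (i : Fin m) (k : ℕ) (w : Fin m × Fin n →₀ ℕ) : Prop :=
  (∀ p, p.1 ≠ i → w p = 0) ∧ ∑ a, w (i, a) = k

private theorem LAhs_add {k₁ k₂ : ℕ} {w₁ w₂ : Fin m × Fin n →₀ ℕ} (h₁ : LAhs_cond i k₁ w₁)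
    (h₂ : LAhs_cond i k₂ w₂) : LAhs_cond i (k₁ + k₂) (w₁ + w₂) := by
  refine ⟨fun p hp => ?_, ?_⟩
  · rw [Finsupp.add_apply, h₁.1 p hp, h₂.1 p hp]
  · rw [← h₁.2, ← h₂.2, ← Finset.sum_add_distrib]
    exact Finset.sum_congr rfl fun a _ => Finsupp.add_apply _ _ _

private theorem LAhs_sub {k₁ k₂ : ℕ} {w₁ w₂ : Fin m × Fin n →₀ ℕ} (h₁ : LAhs_cond i k₁ w₁)
    (h₂ : LAhs_cond i (k₁ + k₂) (w₁ + w₂)) : LAhs_cond i k₂ w₂ := by
  refine ⟨fun p hp => ?_, ?_⟩
  · have h3 := h₂.1 p hp
    rw [Finsupp.add_apply] at h3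
    omega
  · have h3 := h₂.2
    rw [Finset.sum_congr rfl (fun a _ => Finsupp.add_apply w₁ w₂ (i, a)),
      Finset.sum_add_distrib, h₁.2] at h3
    omega

/-- The coefficients of a product. -/
private theorem LAhs_coeff (f g : D2 L (Fin m × Fin n)) (k l : ℕ) (w : Fin m × Fin n →₀ ℕ) :
    MvPolynomial.coeff w (PowerSeries.coeff l (PowerSeries.coeff k (f * g))) =
      ∑ p ∈ Finset.HasAntidiagonal.antidiagonal k, ∑ q ∈ Finset.HasAntidiagonal.antidiagonal l, ∑ r ∈ Finset.HasAntidiagonal.antidiagonal w,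
        MvPolynomial.coeff r.1 (PowerSeries.coeff q.1 (PowerSeries.coeff p.1 f)) *
          MvPolynomial.coeff r.2 (PowerSeries.coeff q.2 (PowerSeries.coeff p.2 g)) := by
  rw [PowerSeries.coeff_mul, map_sum, MvPolynomial.coeff_sum]
  refine Finset.sum_congr rfl fun p _ => ?_
  rw [PowerSeries.coeff_mul, MvPolynomial.coeff_sum]
  refine Finset.sum_congr rfl fun q _ => ?_
  rw [MvPolynomial.coeff_mul]

/-- The projection to the part of degree `k` in the directions of the block `i`. -/
private noncomputable def LAhs_fl (i : Fin m) (k : ℕ) (g : MvPolynomial (Fin m × Fin n) L) :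
    MvPolynomial (Fin m × Fin n) L :=
  open Classical in
  ∑ w ∈ g.support, if LAhs_cond i k w then MvPolynomial.monomial w (MvPolynomial.coeff w g) else 0

private theorem LAhs_coeff_fl (k : ℕ) (g : MvPolynomial (Fin m × Fin n) L)
    (w : Fin m × Fin n →₀ ℕ) : (open Classical in MvPolynomial.coeff w (LAhs_fl i k g) =
      if LAhs_cond i k w then MvPolynomial.coeff w g else 0) := by
  classical
  unfold LAhs_fl
  rw [MvPolynomial.coeff_sum]
  by_cases h1 : w ∈ g.support
  · rw [Finset.sum_eq_single_of_mem w h1]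
    · split_ifs with h2
      · rw [MvPolynomial.coeff_monomial, if_pos rfl]
      · rw [MvPolynomial.coeff_zero]
    · intro w' _ hw'
      split_ifs with h2
      · rw [MvPolynomial.coeff_monomial, if_neg hw']
      · rw [MvPolynomial.coeff_zero]
  · have h3 : MvPolynomial.coeff w g = 0 := MvPolynomial.notMem_support_iff.1 h1
    rw [h3, ite_self]
    refine Finset.sum_eq_zero fun w' hw' => ?_
    split_ifs with h2
    · rw [MvPolynomial.coeff_monomial, if_neg]
      intro h4
      exact h1 (h4 ▸ hw')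
    · rw [MvPolynomial.coeff_zero]

private noncomputable def LAhs_pr (i : Fin m) (f : D2 L (Fin m × Fin n)) :
    D2 L (Fin m × Fin n) :=
  PowerSeries.mk fun k => PowerSeries.mk fun l =>
    LAhs_fl i k (PowerSeries.coeff l (PowerSeries.coeff k f))

private theorem LAhs_coeff_pr (f : D2 L (Fin m × Fin n)) (k l : ℕ) (w : Fin m × Fin n →₀ ℕ) :
    (open Classical in
      MvPolynomial.coeff w (PowerSeries.coeff l (PowerSeries.coeff k (LAhs_pr i f))) =
      if LAhs_cond i k w then
        MvPolynomial.coeff w (PowerSeries.coeff l (PowerSeries.coeff k f)) else 0) := by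
  unfold LAhs_pr
  rw [PowerSeries.coeff_mk, PowerSeries.coeff_mk, LAhs_coeff_fl]

private theorem LAhs_ext {f g : D2 L (Fin m × Fin n)}
    (h : ∀ (k l : ℕ) (w : Fin m × Fin n →₀ ℕ),
      MvPolynomial.coeff w (PowerSeries.coeff l (PowerSeries.coeff k f)) =
        MvPolynomial.coeff w (PowerSeries.coeff l (PowerSeries.coeff k g))) : f = g := by
  refine PowerSeries.ext fun k => PowerSeries.ext fun l => MvPolynomial.ext _ _ fun w => h k l w

private theorem LAhs_pr_mul {f : D2 L (Fin m × Fin n)} (hf : HS i f)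
    (g : D2 L (Fin m × Fin n)) : LAhs_pr i (f * g) = f * LAhs_pr i g := by
  classical
  refine LAhs_ext fun k l w => ?_
  rw [LAhs_coeff_pr, LAhs_coeff, LAhs_coeff]
  have h1 : ∀ p ∈ Finset.HasAntidiagonal.antidiagonal k, ∀ q ∈ Finset.HasAntidiagonal.antidiagonal l,
      ∀ r ∈ Finset.HasAntidiagonal.antidiagonal w,
      (if LAhs_cond i k w then
        MvPolynomial.coeff r.1 (PowerSeries.coeff q.1 (PowerSeries.coeff p.1 f)) *
          MvPolynomial.coeff r.2 (PowerSeries.coeff q.2 (PowerSeries.coeff p.2 g)) else 0) =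
        MvPolynomial.coeff r.1 (PowerSeries.coeff q.1 (PowerSeries.coeff p.1 f)) *
          MvPolynomial.coeff r.2 (PowerSeries.coeff q.2 (PowerSeries.coeff p.2 (LAhs_pr i g))) := by
    intro p hp q _ r hr
    rw [LAhs_coeff_pr]
    by_cases h2 : MvPolynomial.coeff r.1 (PowerSeries.coeff q.1 (PowerSeries.coeff p.1 f)) = 0
    · rw [h2, zero_mul, zero_mul, ite_self]
    · have h3 : LAhs_cond i p.1 r.1 := hf _ _ _ h2
      rw [← Finset.HasAntidiagonal.mem_antidiagonal.1 hp, ← Finset.HasAntidiagonal.mem_antidiagonal.1 hr]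
      by_cases h4 : LAhs_cond i p.2 r.2
      · rw [if_pos (LAhs_add h3 h4), if_pos h4]
      · rw [if_neg (fun h5 => h4 (LAhs_sub h3 h5)), if_neg h4, mul_zero]
  split_ifs with h5
  · refine Finset.sum_congr rfl fun p hp => Finset.sum_congr rfl fun q hq =>
      Finset.sum_congr rfl fun r hr => ?_
    have h6 := h1 p hp q hq r hr
    rw [if_pos h5] at h6
    exact h6
  · symm
    refine Finset.sum_eq_zero fun p hp => Finset.sum_eq_zero fun q hq =>
      Finset.sum_eq_zero fun r hr => ?_
    have h6 := h1 p hp q hq r hr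
    rw [if_neg h5] at h6
    exact h6.symm

private theorem LAhs_pr_self {f : D2 L (Fin m × Fin n)} (hf : HS i f) : LAhs_pr i f = f := by
  classical
  refine LAhs_ext fun k l w => ?_
  rw [LAhs_coeff_pr]
  split_ifs with h1
  · rfl
  · by_contra h2
    exact h1 (hf k l w (fun h3 => h2 h3.symm))

private theorem LAhs_pr_HS (f : D2 L (Fin m × Fin n)) : HS i (LAhs_pr i f) := by
  classical
  intro k l w h
  rw [LAhs_coeff_pr] at h
  by_contra h1
  exact h (if_neg h1)

theorem HS.zero : HS i (0 : D2 L (Fin m × Fin n)) := by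
  intro k l w h
  exact absurd (by rw [map_zero, map_zero, MvPolynomial.coeff_zero]) h

theorem HS.add {f g : D2 L (Fin m × Fin n)} (hf : HS i f) (hg : HS i g) : HS i (f + g) := by
  intro k l w h
  rw [map_add, map_add, MvPolynomial.coeff_add] at h
  by_cases h1 : MvPolynomial.coeff w (PowerSeries.coeff l (PowerSeries.coeff k f)) = 0
  · rw [h1, zero_add] at h
    exact hg k l w h
  · exact hf k l w h1

theorem HS.neg {f : D2 L (Fin m × Fin n)} (hf : HS i f) : HS i (-f) := by
  intro k l w h
  rw [map_neg, map_neg, MvPolynomial.coeff_neg] at h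
  exact hf k l w (neg_ne_zero.1 h)

theorem HS.sub {f g : D2 L (Fin m × Fin n)} (hf : HS i f) (hg : HS i g) : HS i (f - g) := by
  rw [sub_eq_add_neg]
  exact hf.add hg.neg

theorem HS.mul {f g : D2 L (Fin m × Fin n)} (hf : HS i f) (hg : HS i g) : HS i (f * g) := by
  intro k l w h
  rw [LAhs_coeff] at h
  obtain ⟨p, hp, h⟩ := Finset.exists_ne_zero_of_sum_ne_zero h
  obtain ⟨q, -, h⟩ := Finset.exists_ne_zero_of_sum_ne_zero h
  obtain ⟨r, hr, h⟩ := Finset.exists_ne_zero_of_sum_ne_zero h
  have h1 : LAhs_cond i p.1 r.1 := hf _ _ _ (left_ne_zero_of_mul h)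
  have h2 : LAhs_cond i p.2 r.2 := hg _ _ _ (right_ne_zero_of_mul h)
  have h3 := LAhs_add h1 h2
  rw [Finset.HasAntidiagonal.mem_antidiagonal.1 hp, Finset.HasAntidiagonal.mem_antidiagonal.1 hr] at h3
  exact h3

/-- Series in `T` with constant coefficients. -/
theorem HS.C (g : PowerSeries L) :
    HS i (PowerSeries.C (PowerSeries.map (MvPolynomial.C : L →+* MvPolynomial (Fin m × Fin n) L) g) :
      D2 L (Fin m × Fin n)) := by
  classical
  intro k l w h
  rw [PowerSeries.coeff_C] at h
  split_ifs at h with h1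
  · rw [PowerSeries.coeff_map, MvPolynomial.coeff_C] at h
    split_ifs at h with h2
    · rw [← h2, h1]
      refine ⟨fun p _ => rfl, ?_⟩
      exact Finset.sum_eq_zero fun a _ => rfl
    · exact absurd rfl h
  · exact absurd (by rw [map_zero, MvPolynomial.coeff_zero]) h

theorem HS.algebraMap {K : Type*} [Field K] [Algebra K L] (a : K) :
    HS i (algebraMap K (D2 L (Fin m × Fin n)) a) := by
  have h1 : Algebra.algebraMap K (D2 L (Fin m × Fin n)) a = PowerSeries.C (PowerSeries.map
      (MvPolynomial.C : L →+* MvPolynomial (Fin m × Fin n) L)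
      (PowerSeries.C (Algebra.algebraMap K L a))) := by
    rw [PowerSeries.map_C, PowerSeries.algebraMap_apply, PowerSeries.algebraMap_apply,
      MvPolynomial.algebraMap_apply]
  rw [h1]
  exact HS.C _

theorem HS.sum {ι : Type*} (s : Finset ι) (f : ι → D2 L (Fin m × Fin n))
    (hf : ∀ j ∈ s, HS i (f j)) : HS i (∑ j ∈ s, f j) := by
  classical
  revert hf
  refine Finset.induction_on s ?_ ?_
  · intro _
    rw [Finset.sum_empty]
    exact HS.zero
  · intro j s hj ih hf
    rw [Finset.sum_insert hj]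
    exact (hf j (Finset.mem_insert_self j s)).add
      (ih fun j' hj' => hf j' (Finset.mem_insert_of_mem hj'))

/-- Values of polynomials. -/
theorem HS.aeval {K : Type*} [Field K] [Algebra K L] {σ : Type*} (F : MvPolynomial σ K)
    (x : σ → D2 L (Fin m × Fin n)) (hx : ∀ t, HS i (x t)) : HS i (MvPolynomial.aeval x F) := by
  refine MvPolynomial.induction_on (motive := fun F => HS i (MvPolynomial.aeval x F)) F ?_ ?_ ?_
  · intro a
    rw [MvPolynomial.aeval_C]
    exact HS.algebraMap a
  · intro p q hp hq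
    rw [map_add]
    exact hp.add hq
  · intro p t hp
    rw [map_mul, MvPolynomial.aeval_X]
    exact hp.mul (hx t)

/-- The inverse. -/
theorem HS.inv {f g : D2 L (Fin m × Fin n)} (hf : HS i f) (h : f * g = 1) : HS i g := by
  have h1 : HS i (1 : D2 L (Fin m × Fin n)) := by
    have h2 := HS.algebraMap (i := i) (n := n) (K := L) (L := L) 1
    rw [map_one] at h2
    exact h2
  have h3 : f * LAhs_pr i g = 1 := by
    rw [← LAhs_pr_mul hf g, h, LAhs_pr_self h1]
  have h4 : g = LAhs_pr i g := by
    calc g = g * (f * LAhs_pr i g) := by rw [h3, mul_one]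
      _ = (f * g) * LAhs_pr i g := by ring
      _ = LAhs_pr i g := by rw [h, one_mul]
  rw [h4]
  exact LAhs_pr_HS g

end

end Pool.Agent.Lib.MP_17a322_nt.VA
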