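import Pool.Agent.Lib.MP_17a322_nt.VA.LA1
import Pool.Agent.Lib.MP_17a322_nt.VA.LAhs
import Pool.Agent.Lib.MP_17a322_nt.VA.A1

/-!
VA, part LA: the substitution `z_a ↦ z * u_(i, a)` in a power series.
-/

universe u

namespace Pool.Agent.Lib.MP_17a322_nt.VA

open MvPolynomial Height
open Pool.Agent.Lib.MP_17a322_nt.RO
open Pool.Agent.Lib.MP_17a322_nt.VJ
open Pool.Agent.Lib.MP_17a322_nt.VN

section

variable {L : Type*} [Field L] {m n : ℕ}

/-- The direction `z * u_(i, a)`. -/
noncomputable def dirZ (L : Type*) [Field L] {m n : ℕ} (i : Fin m) (a : Fin n) :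
    D2 L (Fin m × Fin n) :=
  PowerSeries.C (PowerSeries.C (X (i, a))) * PowerSeries.X

theorem hasSubst_dirZ (i : Fin m) :
    MvPowerSeries.HasSubst (fun a : Fin n => (dirZ L i a : MvPowerSeries Unit
      (D1 L (Fin m × Fin n)))) := by
  refine MvPowerSeries.hasSubst_of_constantCoeff_zero fun a => ?_
  show PowerSeries.constantCoeff (dirZ L i a) = 0
  unfold dirZ
  rw [map_mul, PowerSeries.constantCoeff_X, mul_zero]

/-- The substitution `z_a ↦ z * u_(i, a)`. -/
noncomputable def subZ (K : Type*) [Field K] (L : Type*) [Field L] [Algebra K L] {m n : ℕ}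
    (i : Fin m) : MvPowerSeries (Fin n) K →ₐ[K] D2 L (Fin m × Fin n) :=
  MvPowerSeries.substAlgHom (hasSubst_dirZ (L := L) (n := n) i)

/-- The monomial `u ^ α`. -/
noncomputable def um (L : Type*) [Field L] {m n : ℕ} (i : Fin m) (α : Fin n →₀ ℕ) :
    MvPolynomial (Fin m × Fin n) L :=
  ∏ a, X (i, a) ^ α a

theorem prod_dirZ (i : Fin m) (α : Fin n →₀ ℕ) :
    (α.prod fun a k => dirZ L i a ^ k) =
      PowerSeries.C (PowerSeries.C (um L i α)) * PowerSeries.X ^ α.degree := by
  have h1 : (α.prod fun a k => dirZ L i a ^ k) = ∏ a, dirZ L i a ^ α a :=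
    Finsupp.prod_fintype _ _ fun a => pow_zero _
  rw [h1]
  unfold dirZ um
  simp only [mul_pow, Finset.prod_mul_distrib, Finset.prod_pow_eq_pow_sum, map_prod, map_pow]
  congr 1
  rw [Finsupp.degree_eq_sum]

theorem coeff_subZ {K : Type*} [Field K] [Algebra K L] (i : Fin m) (f : MvPowerSeries (Fin n) K)
    (k : ℕ) :
    PowerSeries.coeff k (subZ K L i f) =
      PowerSeries.C (∑ α ∈ Finset.univ.finsuppAntidiag k,
        C (algebraMap K L (MvPowerSeries.coeff α f)) * um L i α) := by
  classical
  unfold subZ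
  have h1 := MvPowerSeries.coeff_subst (hasSubst_dirZ (L := L) (n := n) i) f
    (Finsupp.single () k)
  have h2 : PowerSeries.coeff k (MvPowerSeries.substAlgHom (hasSubst_dirZ (L := L) (n := n) i) f) =
      MvPowerSeries.coeff (Finsupp.single () k) (MvPowerSeries.subst (fun a : Fin n =>
        (dirZ L i a : MvPowerSeries Unit (D1 L (Fin m × Fin n)))) f) := by
    rw [MvPowerSeries.coe_substAlgHom]
    rfl
  rw [h2, h1]
  have h3 : ∀ d : Fin n →₀ ℕ, MvPowerSeries.coeff d f • MvPowerSeries.coeff (Finsupp.single () k)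
      (d.prod fun a e => (dirZ L i a : MvPowerSeries Unit (D1 L (Fin m × Fin n))) ^ e) =
        if d.degree = k then (PowerSeries.C (C (algebraMap K L (MvPowerSeries.coeff d f)) *
          um L i d) : D1 L (Fin m × Fin n)) else 0 := by
    intro d
    have h4 : MvPowerSeries.coeff (Finsupp.single () k)
        (d.prod fun a e => (dirZ L i a : MvPowerSeries Unit (D1 L (Fin m × Fin n))) ^ e) =
        PowerSeries.coeff k (PowerSeries.C (PowerSeries.C (um L i d)) *
          PowerSeries.X ^ d.degree : D2 L (Fin m × Fin n)) := by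
      rw [← prod_dirZ i d]
      rfl
    rw [h4, PowerSeries.coeff_C_mul, PowerSeries.coeff_X_pow]
    by_cases h5 : d.degree = k
    · rw [if_pos h5.symm, if_pos h5, mul_one, Algebra.smul_def, map_mul]
      congr 1
      rw [PowerSeries.algebraMap_apply]
      rfl
    · rw [if_neg (fun h => h5 h.symm), if_neg h5, mul_zero, smul_zero]
  rw [finsum_congr h3]
  rw [finsum_eq_sum_of_support_subset (s := Finset.univ.finsuppAntidiag k)]
  · rw [map_sum]
    refine Finset.sum_congr rfl fun d hd => ?_
    rw [Finset.mem_finsuppAntidiag] at hd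
    rw [if_pos]
    rw [Finsupp.degree_eq_sum]
    exact hd.1
  · intro d hd
    rw [Function.mem_support] at hd
    rw [Finset.mem_coe, Finset.mem_finsuppAntidiag]
    refine ⟨?_, Finset.subset_univ _⟩
    by_contra h5
    apply hd
    rw [if_neg]
    intro h6
    apply h5
    rw [Finsupp.degree_eq_sum] at h6
    exact h6

theorem constantCoeff_subZ {K : Type*} [Field K] [Algebra K L] (i : Fin m)
    (f : MvPowerSeries (Fin n) K) :
    PowerSeries.constantCoeff (subZ K L i f) =
      PowerSeries.C (C (algebraMap K L (MvPowerSeries.constantCoeff f))) := by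
  rw [← PowerSeries.coeff_zero_eq_constantCoeff_apply, coeff_subZ]
  congr 1
  have h1 : (Finset.univ : Finset (Fin n)).finsuppAntidiag 0 = {0} := by
    ext d
    rw [Finset.mem_finsuppAntidiag, Finset.mem_singleton]
    constructor
    · rintro ⟨h, _⟩
      rw [Finset.sum_eq_zero_iff] at h
      ext a
      exact h a (Finset.mem_univ a)
    · rintro rfl
      simp
  rw [h1, Finset.sum_singleton]
  unfold um
  simp

theorem coeff_one_subZ {K : Type*} [Field K] [Algebra K L] (i : Fin m)
    (f : MvPowerSeries (Fin n) K) :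
    PowerSeries.coeff 1 (subZ K L i f) =
      PowerSeries.C (∑ a, C (algebraMap K L (MvPowerSeries.coeff (Finsupp.single a 1) f)) *
        X (i, a)) := by
  classical
  rw [coeff_subZ]
  congr 1
  symm
  refine Finset.sum_bij' (fun a _ => Finsupp.single a 1) (fun d hd =>
    if h : ∃ a, d = Finsupp.single a 1 then h.choose else
      (if h' : Nonempty (Fin n) then h'.some else False.elim (by
        rw [Finset.mem_finsuppAntidiag] at hd
        apply h'
        by_contra h''
        rw [not_nonempty_iff] at h''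
        have := hd.1
        rw [Finset.univ_eq_empty, Finset.sum_empty] at this
        exact zero_ne_one this))) ?_ ?_ ?_ ?_ ?_
  · intro a _
    rw [Finset.mem_finsuppAntidiag]
    refine ⟨?_, Finset.subset_univ _⟩
    rw [Finset.sum_eq_single a]
    · exact Finsupp.single_eq_same
    · intro b _ hb
      exact Finsupp.single_eq_of_ne hb
    · intro h
      exact absurd (Finset.mem_univ a) h
  · intro d _
    exact Finset.mem_univ _
  · intro a _
    have h : ∃ a', Finsupp.single a 1 = Finsupp.single a' (1 : ℕ) := ⟨a, rfl⟩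
    rw [dif_pos h]
    have h1 := h.choose_spec
    exact (Finsupp.single_left_injective one_ne_zero h1).symm
  · intro d hd
    have h : ∃ a, d = Finsupp.single a (1 : ℕ) := by
      rw [Finset.mem_finsuppAntidiag] at hd
      have h1 : d.sum (fun _ k => k) = 1 := by
        rw [Finsupp.sum_fintype _ _ (fun _ => rfl)]
        exact hd.1
      exact (Finsupp.sum_eq_one_iff d).1 h1
    rw [dif_pos h]
    exact h.choose_spec.symm
  · intro a _
    congr 1
    unfold um
    rw [Finset.prod_eq_single a]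
    · rw [Finsupp.single_eq_same, pow_one]
    · intro b _ hb
      rw [Finsupp.single_eq_of_ne hb, pow_zero]
    · intro h
      exact absurd (Finset.mem_univ a) h

theorem um_eq (i : Fin m) (α : Fin n →₀ ℕ) :
    um L i α = monomial (α.mapDomain fun a => (i, a)) 1 := by
  classical
  unfold um
  rw [monomial_eq, C_1, one_mul, Finsupp.prod_mapDomain_index (by simp) (by
    intro b e e'
    exact pow_add _ _ _)]
  exact (Finsupp.prod_fintype _ _ fun a => pow_zero _).symm

theorem HS.subZ {K : Type*} [Field K] [Algebra K L] (i : Fin m) (f : MvPowerSeries (Fin n) K) :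
    HS i (subZ K L i f) := by
  classical
  intro k l w hw
  rw [coeff_subZ, PowerSeries.coeff_C] at hw
  by_cases hl : l = 0
  · rw [if_pos hl, coeff_sum] at hw
    obtain ⟨α, hα, hα1⟩ := Finset.exists_ne_zero_of_sum_ne_zero hw
    rw [um_eq, C_mul_monomial, coeff_monomial] at hα1
    have hw2 : α.mapDomain (fun a => (i, a)) = w := by
      by_contra h
      rw [if_neg h] at hα1
      exact hα1 rfl
    rw [Finset.mem_finsuppAntidiag] at hα
    have hinj : Function.Injective (fun a : Fin n => ((i, a) : Fin m × Fin n)) := by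
      intro a b hab
      exact (Prod.ext_iff.1 hab).2
    refine ⟨?_, ?_⟩
    · intro p hp
      rw [← hw2]
      refine Finsupp.mapDomain_of_notMem_range _ _ ?_
      rintro ⟨a, rfl⟩
      exact hp rfl
    · rw [← hα.1, ← hw2]
      refine Finset.sum_congr rfl fun a _ => ?_
      exact Finsupp.mapDomain_apply hinj α a
  · rw [if_neg hl, coeff_zero] at hw
    exact absurd rfl hw

end

section

variable {L : Type*} [Field L] {v : AbsoluteValue L ℝ} {A : Type*} [CommRing A] [Algebra L A]
  {ν : A → ℝ}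

/-- The size of a geometric series. -/
theorem PA_geom (h : SN v ν) {s b B : ℝ} (hs : 0 ≤ s) (hb : 0 ≤ b) (hB : 0 ≤ B)
    (hsb : s * (b * cst v 2) ≤ 1) (f : PowerSeries A)
    (hf : ∀ k, ν (PowerSeries.coeff k f) ≤ B * b ^ k) (n : ℕ) :
    PA v ν s n f ≤ cst v 2 * B := by
  have hk : ∀ k : ℕ, ν (PowerSeries.coeff k f) * s ^ k ≤ B * (b * s) ^ k := by
    intro k
    rw [mul_pow, ← mul_assoc]
    exact mul_le_mul_of_nonneg_right (hf k) (pow_nonneg hs k)
  by_cases hv : IsNonarchimedean v
  · have hc : cst v 2 = 1 := by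
      unfold cst
      rw [if_pos hv]
    rw [hc, mul_one] at hsb
    unfold PA
    rw [if_pos hv, hc, one_mul]
    refine ciSup_le fun k => (hk k).trans ?_
    exact mul_le_of_le_one_right hB (pow_le_one₀ (mul_nonneg hb hs) (by rwa [mul_comm] at hsb))
  · have hc : cst v 2 = 2 := by
      unfold cst
      rw [if_neg hv]
      norm_num
    rw [hc] at hsb
    have hx : b * s ≤ 1 / 2 := by linarith
    have hx0 : 0 ≤ b * s := mul_nonneg hb hs
    unfold PA
    rw [if_neg hv, hc, ← Finset.sum_range fun k => ν (PowerSeries.coeff k f) * s ^ k]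
    have h1 : ∀ n : ℕ, ∑ k ∈ Finset.range n, ((1 : ℝ) / 2) ^ k ≤ 2 := by
      intro n
      have h2 := geom_sum_eq (x := (1 : ℝ) / 2) (by norm_num) n
      rw [h2]
      have h3 : (0 : ℝ) ≤ (1 / 2) ^ n := by positivity
      have h4 : (((1 : ℝ) / 2) ^ n - 1) / ((1 : ℝ) / 2 - 1) = 2 - 2 * (1 / 2) ^ n := by ring
      rw [h4]
      linarith
    calc ∑ k ∈ Finset.range (n + 1), ν (PowerSeries.coeff k f) * s ^ k
        ≤ ∑ k ∈ Finset.range (n + 1), B * (1 / 2) ^ k := by
          refine Finset.sum_le_sum fun k _ => (hk k).trans ?_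
          exact mul_le_mul_of_nonneg_left (pow_le_pow_left₀ hx0 hx k) hB
      _ = B * ∑ k ∈ Finset.range (n + 1), ((1 : ℝ) / 2) ^ k := by rw [Finset.mul_sum]
      _ ≤ B * 2 := mul_le_mul_of_nonneg_left (h1 _) hB
      _ = 2 * B := mul_comm _ _

end

theorem card_antidiag (n k : ℕ) :
    ((Finset.univ : Finset (Fin n)).finsuppAntidiag k).card ≤ (2 ^ n) ^ k := by
  classical
  have h1 : ((Finset.univ : Finset (Fin n)).finsuppAntidiag k).card ≤
      (Fintype.piFinset fun _ : Fin n => Finset.range (k + 1)).card := by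
    refine Finset.card_le_card_of_injOn (fun d : Fin n →₀ ℕ => (d : Fin n → ℕ)) ?_ ?_
    · intro d hd
      rw [Finset.mem_coe, Finset.mem_finsuppAntidiag] at hd
      rw [Finset.mem_coe, Fintype.mem_piFinset]
      intro a
      rw [Finset.mem_range, Nat.lt_succ_iff, ← hd.1]
      exact Finset.single_le_sum (fun b _ => Nat.zero_le _) (Finset.mem_univ a)
    · intro d _ d' _ h
      exact DFunLike.coe_injective h
  rw [Fintype.card_piFinset] at h1
  simp only [Finset.card_range, Finset.prod_const, Finset.card_univ, Fintype.card_fin] at h1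
  refine h1.trans ?_
  have h2 : k + 1 ≤ 2 ^ k := Nat.lt_two_pow_self
  calc (k + 1) ^ n ≤ (2 ^ k) ^ n := Nat.pow_le_pow_left h2 n
    _ = (2 ^ n) ^ k := by rw [← pow_mul, ← pow_mul, mul_comm]

/-- The size of the substituted series. -/
theorem subZ_size {K : Type u} [Field K] {m n : ℕ} (f : MvPowerSeries (Fin n) K) (κ : SC K)
    {L : Type u} [Field L] [Algebra K L] (v : AbsoluteValue L ℝ)
    (hf : ∀ α, v (algebraMap K L (MvPowerSeries.coeff α f)) ≤ κ.k v ^ (α.degree + 1))
    (i : Fin m) {r s : ℝ} (hr : 0 ≤ r) (hs : 0 ≤ s)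
    (hsb : s * (cst v (2 ^ n) * κ.k v * cst v 2) ≤ 1) (N₁ N₂ : ℕ) :
    n2 v r s N₁ N₂ (subZ K L i f) ≤ cst v 2 * κ.k v := by
  have hk : 0 ≤ κ.k v := (κ.pos v).le
  refine PA_geom (SN_n1 v hr N₁) hs (mul_nonneg (cst_nonneg v _) hk) hk hsb _ (fun k => ?_) N₂
  rw [coeff_subZ, n1_C]
  have h1 : ∀ α ∈ (Finset.univ : Finset (Fin n)).finsuppAntidiag k,
      NV v (C (algebraMap K L (MvPowerSeries.coeff α f)) * um L i α) ≤ κ.k v ^ (k + 1) := by
    intro α hα
    rw [NV_C_mul, um_eq, NV_monomial, map_one, mul_one]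
    have h2 := hf α
    have h3 : α.degree = k := by
      rw [Finset.mem_finsuppAntidiag] at hα
      rw [Finsupp.degree_eq_sum]
      exact hα.1
    rwa [h3] at h2
  refine ((SN_NV v).sum_le _ _ (pow_nonneg hk _) h1).trans ?_
  have h4 : cst v ((Finset.univ : Finset (Fin n)).finsuppAntidiag k).card ≤ cst v (2 ^ n) ^ k := by
    rw [← cst_pow]
    exact cst_mono v (card_antidiag n k)
  calc cst v ((Finset.univ : Finset (Fin n)).finsuppAntidiag k).card * κ.k v ^ (k + 1)
      ≤ cst v (2 ^ n) ^ k * κ.k v ^ (k + 1) := mul_le_mul_of_nonneg_right h4 (pow_nonneg hk _)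
    _ = κ.k v * (cst v (2 ^ n) * κ.k v) ^ k := by ring

end Pool.Agent.Lib.MP_17a322_nt.VA
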