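import Pool.Agent.Lib.MP_17a322_nt.VA.LA4a
import Pool.Agent.Lib.MP_17a322_nt.VA.LA3
import Pool.Agent.Lib.MP_17a322_nt.VA.A4b

/-!
VA, part LA: the translate of a path by the formal point at the origin.
-/

universe u

namespace Pool.Agent.Lib.MP_17a322_nt.VA

open MvPolynomial Height
open Pool.Agent.Lib.MP_17a322_nt.RO
open Pool.Agent.Lib.MP_17a322_nt.VJ
open Pool.Agent.Lib.MP_17a322_nt.VN

section

variable (K : Type*) [Field K] (L : Type*) [Field L] [Algebra K L] (τ : Type*)

/-- Series in `T`. -/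
noncomputable def tA : PowerSeries L →ₐ[K] D2 L τ :=
  { (PowerSeries.C (R := D1 L τ)).comp (PowerSeries.map (C : L →+* MvPolynomial τ L)) with
    commutes' := fun a => by
      show PowerSeries.C (PowerSeries.map (C : L →+* MvPolynomial τ L)
        (algebraMap K (PowerSeries L) a)) = algebraMap K (D2 L τ) a
      rw [PowerSeries.algebraMap_apply, PowerSeries.algebraMap_apply,
        PowerSeries.algebraMap_apply, PowerSeries.map_C]
      rfl }

theorem tA_apply (f : PowerSeries L) :
    tA K L τ f = PowerSeries.C (PowerSeries.map (C : L →+* MvPolynomial τ L) f) := rfl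

/-- The value at `z = 0`. -/
noncomputable def zA : D2 L τ →ₐ[K] D1 L τ :=
  { PowerSeries.constantCoeff (R := D1 L τ) with
    commutes' := fun a => by
      show PowerSeries.constantCoeff (algebraMap K (D2 L τ) a) = algebraMap K (D1 L τ) a
      rw [PowerSeries.algebraMap_apply, PowerSeries.constantCoeff_C] }

theorem zA_apply (f : D2 L τ) : zA K L τ f = PowerSeries.constantCoeff f := rfl

/-- Series in `T` as elements of `D1`. -/
noncomputable def t1A : PowerSeries L →ₐ[K] D1 L τ :=
  { PowerSeries.map (C : L →+* MvPolynomial τ L) with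
    commutes' := fun a => by
      show PowerSeries.map (C : L →+* MvPolynomial τ L)
        (algebraMap K (PowerSeries L) a) = algebraMap K (D1 L τ) a
      rw [PowerSeries.algebraMap_apply, PowerSeries.algebraMap_apply, PowerSeries.map_C]
      rfl }

theorem t1A_apply (f : PowerSeries L) :
    t1A K L τ f = PowerSeries.map (C : L →+* MvPolynomial τ L) f := rfl

/-- The constant coefficient. -/
noncomputable def cA2 : D2 L τ →ₐ[K] MvPolynomial τ L :=
  { (PowerSeries.constantCoeff (R := MvPolynomial τ L)).comp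
      (PowerSeries.constantCoeff (R := D1 L τ)) with
    commutes' := fun a => by
      show PowerSeries.constantCoeff (PowerSeries.constantCoeff (algebraMap K (D2 L τ) a)) =
        algebraMap K (MvPolynomial τ L) a
      rw [PowerSeries.algebraMap_apply, PowerSeries.constantCoeff_C,
        PowerSeries.algebraMap_apply, PowerSeries.constantCoeff_C] }

theorem cA2_apply (f : D2 L τ) :
    cA2 K L τ f = PowerSeries.constantCoeff (PowerSeries.constantCoeff f) := rfl

theorem cA2_eq_c00 (f : D2 L τ) : cA2 K L τ f = c00 f := rfl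

end

/-- A series whose constant coefficient is a nonzero constant is a unit. -/
theorem isUnit_D2 {L : Type*} [Field L] {τ : Type*} (f : D2 L τ) {a : L} (ha : a ≠ 0)
    (h : c00 f = C a) : IsUnit f := by
  rw [PowerSeries.isUnit_iff_constantCoeff, PowerSeries.isUnit_iff_constantCoeff]
  have h1 : PowerSeries.constantCoeff (PowerSeries.constantCoeff f) = C a := h
  rw [h1]
  exact (isUnit_iff_ne_zero.2 ha).map C

section

variable {K : Type u} [Field K] {N : ℕ} {A : AV K N} {n : ℕ} {o : Fin (N + 1) → K}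
  {t : Fin n → Fin (N + 1) → K}

/-- The origin over an extension. -/
theorem AV.Frame.rep_zero (ht : A.Frame o t) (L : Type u) [Field L] [Algebra K L] :
    A.Rep (0 : A.Pts L) fun i => algebraMap K L (o i) := by
  obtain ⟨c, hc, hco⟩ := ht.1
  have h1 := (A.zero_rep (L := L)).smul (c := algebraMap K L c⁻¹)
    (fun h => inv_ne_zero hc ((map_eq_zero _).1 h))
  have h2 : (fun i => algebraMap K L c⁻¹ * algebraMap K L (A.x (0 : A.Pts K) i)) =
      fun i => algebraMap K L (o i) := by
    funext i
    rw [← map_mul, hco, inv_mul_cancel_left₀ hc]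
  rw [h2] at h1
  exact h1

theorem AV.Frame.s2_zero (ht : A.Frame o t) {L : Type u} [Field L] [Algebra K L]
    {y : Fin (N + 1) → L} (hy : A.IsPt y) (hy0 : y ≠ 0) :
    ∃ γ : L, γ ≠ 0 ∧ ∀ a b, A.s2 y (fun i => algebraMap K L (o i)) a b = γ * (y a * y b) := by
  obtain ⟨P, hP⟩ := A.exists_rep hy0 hy
  obtain ⟨c, hc, hcs⟩ := hP.s2 (ht.rep_zero L)
  obtain ⟨d, hd, hdy⟩ := hP
  refine ⟨c / d ^ 2, div_ne_zero hc (pow_ne_zero 2 hd), fun a b => ?_⟩
  rw [hcs, add_zero, sub_zero, hdy a, hdy b]
  field_simp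

/-- The origin identity over any algebra. -/
theorem AV.Frame.s2_ident (ht : A.Frame o t) {R : Type u} [CommRing R] [Algebra K R]
    {y : Fin (N + 1) → R} (hy : A.IsPt y) (a b c : Fin (N + 1)) :
    A.s2 y (fun i => algebraMap K R (o i)) b c * y a =
      A.s2 y (fun i => algebraMap K R (o i)) a c * y b := by
  set F : MvPolynomial (Fin (N + 1)) K :=
    A.s2 (R := MvPolynomial (Fin (N + 1)) K) X (fun i => C (o i)) b c * X a -
      A.s2 (R := MvPolynomial (Fin (N + 1)) K) X (fun i => C (o i)) a c * X b with hF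
  have hval : ∀ (R : Type u) [CommRing R] [Algebra K R] (y : Fin (N + 1) → R), aeval y F =
      A.s2 y (fun i => algebraMap K R (o i)) b c * y a -
        A.s2 y (fun i => algebraMap K R (o i)) a c * y b := by
    intro R _ _ y
    rw [hF, map_sub, map_mul, map_mul, AV.map_s2, AV.map_s2, aeval_X, aeval_X]
    simp only [aeval_X, algHom_C]
  have hmem : F ∈ A.I := by
    refine mem_of_vanish A.I_prime.isRadical fun L _ _ x hx => ?_
    rw [hval]
    by_cases hx0 : x = 0
    · rw [hx0]
      simp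
    · obtain ⟨γ, _, hγ⟩ := ht.s2_zero (L := L) (y := x) hx hx0
      rw [hγ, hγ]
      ring
  have h1 := hy F hmem
  rw [hval, sub_eq_zero] at h1
  exact h1

/-- The translate of the path. -/
theorem formal_translate (ht : A.Frame o t) {e : ℕ} (nd : Noe A n e)
    (Z : Fin (N + 1) → MvPowerSeries (Fin n) K) (hZ : A.IsPt Z)
    (hZ0 : ∀ b, MvPowerSeries.constantCoeff (Z b) = o b) (L : Type u) [Field L] [Algebra K L]
    {m : ℕ} (i : Fin m) (y₀ : Fin (N + 1) → L) (hy₀ : A.IsPt y₀) (hl₀ : lf (nd.l 0) y₀ = 1)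
    (Y : Fin (N + 1) → PowerSeries L) (hY : A.IsPt Y) (hYl : lf (nd.l 0) Y = 1)
    (hY0 : ∀ b, PowerSeries.constantCoeff (Y b) = y₀ b) :
    ∃ y : Fin (N + 1) → D2 L (Fin m × Fin n), A.IsPt y ∧ lf (nd.l 0) y = 1 ∧
      (∀ b, HS i (y b)) ∧ (∀ b, PowerSeries.constantCoeff (y b) = PowerSeries.map C (Y b)) ∧
      (∀ b, c00 (y b) = C (y₀ b)) ∧
      (∀ c b, y b * lf (nd.l 0) (fun a => A.s2 (fun b => tA K L (Fin m × Fin n) (Y b))
        (fun b => subZ K L i (Z b)) a c) =
          A.s2 (fun b => tA K L (Fin m × Fin n) (Y b)) (fun b => subZ K L i (Z b)) b c) ∧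
      ∀ γ : L, (∀ a b, A.s2 y₀ (fun i => algebraMap K L (o i)) a b = γ * (y₀ a * y₀ b)) →
        ∀ b c, c00 (A.s2 (fun b => tA K L (Fin m × Fin n) (Y b)) (fun b => subZ K L i (Z b))
          b c) = C (γ * (y₀ b * y₀ c)) := by
  classical
  set Y2 : Fin (N + 1) → D2 L (Fin m × Fin n) := fun b => tA K L (Fin m × Fin n) (Y b) with hY2
  set Zu : Fin (N + 1) → D2 L (Fin m × Fin n) := fun b => subZ K L i (Z b) with hZu
  have hY2p : A.IsPt Y2 := hY.map _
  have hZup : A.IsPt Zu := hZ.map _
  have hy00 : y₀ ≠ 0 := by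
    intro h
    rw [h] at hl₀
    unfold lf at hl₀
    simp at hl₀
  obtain ⟨c', hc'⟩ := Function.ne_iff.1 hy00
  obtain ⟨γ, hγ, hγs⟩ := ht.s2_zero (L := L) hy₀ hy00
  -- the values at the origin
  have hcY : ∀ b, cA2 K L (Fin m × Fin n) (Y2 b) = C (y₀ b) := by
    intro b
    rw [hY2, cA2_apply]
    simp only []
    rw [tA_apply, PowerSeries.constantCoeff_C, ← PowerSeries.coeff_zero_eq_constantCoeff_apply,
      PowerSeries.coeff_map, PowerSeries.coeff_zero_eq_constantCoeff_apply, hY0]
  have hzZ : ∀ b, zA K L (Fin m × Fin n) (Zu b) = algebraMap K (D1 L (Fin m × Fin n)) (o b) := by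
    intro b
    rw [hZu, zA_apply]
    simp only []
    rw [constantCoeff_subZ, hZ0, PowerSeries.algebraMap_apply]
    rfl
  have hcZ : ∀ b, cA2 K L (Fin m × Fin n) (Zu b) =
      algebraMap L (MvPolynomial (Fin m × Fin n) L) (algebraMap K L (o b)) := by
    intro b
    have h1 := hzZ b
    rw [zA_apply] at h1
    rw [cA2_apply, h1, PowerSeries.algebraMap_apply, PowerSeries.constantCoeff_C]
    rfl
  have hcS : ∀ γ : L, (∀ a b, A.s2 y₀ (fun i => algebraMap K L (o i)) a b = γ * (y₀ a * y₀ b)) →
      ∀ b c, c00 (A.s2 Y2 Zu b c) = C (γ * (y₀ b * y₀ c)) := by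
    intro γ hγs b c
    rw [← cA2_eq_c00 K, AV.map_s2]
    have h1 : (fun b => cA2 K L (Fin m × Fin n) (Y2 b)) = fun b =>
        IsScalarTower.toAlgHom K L (MvPolynomial (Fin m × Fin n) L) (y₀ b) := funext hcY
    have h2 : (fun b => cA2 K L (Fin m × Fin n) (Zu b)) = fun b =>
        IsScalarTower.toAlgHom K L (MvPolynomial (Fin m × Fin n) L) (algebraMap K L (o b)) :=
      funext hcZ
    rw [h1, h2, ← AV.map_s2, hγs]
    rfl
  set T : Fin (N + 1) → Fin (N + 1) → D2 L (Fin m × Fin n) := fun c b => A.s2 Y2 Zu b c with hT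
  have hTp : ∀ c, A.IsPt (T c) := fun c => AV.col_isPt hY2p hZup c
  set Dd : D2 L (Fin m × Fin n) := lf (nd.l 0) (T c') with hDd
  have hDc : c00 Dd = C (γ * y₀ c') := by
    rw [← cA2_eq_c00 K, hDd, map_lf]
    have h1 : (fun a => cA2 K L (Fin m × Fin n) (T c' a)) =
        fun a => C (γ * y₀ c') * C (y₀ a) := by
      funext a
      have h2 := hcS γ hγs a c'
      rw [← cA2_eq_c00 K] at h2
      rw [hT]
      simp only []
      rw [h2, ← C_mul]
      congr 1
      ring
    rw [h1, lf_smul]
    have h3 : lf (nd.l 0) (fun a => (C (y₀ a) : MvPolynomial (Fin m × Fin n) L)) = 1 := by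
      have h4 := map_lf (nd.l 0) (IsScalarTower.toAlgHom K L (MvPolynomial (Fin m × Fin n) L)) y₀
      rw [hl₀, map_one] at h4
      exact h4.symm
    rw [h3, mul_one]
  have hγc : γ * y₀ c' ≠ 0 := mul_ne_zero hγ hc'
  obtain ⟨g, hg⟩ := (isUnit_D2 Dd hγc hDc).exists_right_inv
  have hY2H : ∀ b, HS i (Y2 b) := fun b => HS.C (Y b)
  have hZuH : ∀ b, HS i (Zu b) := fun b => HS.subZ i (Z b)
  have hTH : ∀ c b, HS i (T c b) := by
    intro c b
    refine HS.aeval (A.S b c) _ fun s => ?_
    cases s with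
    | inl a => exact hY2H a
    | inr a => exact hZuH a
  have hDH : HS i Dd := HS.sum _ _ fun a _ => (HS.algebraMap _).mul (hTH c' a)
  have hgH : HS i g := hDH.inv hg
  refine ⟨fun b => g * T c' b, (hTp c').smul g, ?_, fun b => hgH.mul (hTH c' b), ?_, ?_, ?_, hcS⟩
  · rw [lf_smul, ← hDd, mul_comm, hg]
  · -- `z = 0`
    intro b
    have h1 : zA K L (Fin m × Fin n) (g * T c' b) = PowerSeries.map C (Y b) := by
      have hYp : A.IsPt (fun b => t1A K L (Fin m × Fin n) (Y b)) := hY.map _
      have hzT : ∀ a, zA K L (Fin m × Fin n) (T c' a) =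
          A.s2 (fun b => t1A K L (Fin m × Fin n) (Y b))
            (fun b => algebraMap K (D1 L (Fin m × Fin n)) (o b)) a c' := by
        intro a
        rw [hT]
        simp only []
        rw [AV.map_s2]
        have h2 : (fun b => zA K L (Fin m × Fin n) (Y2 b)) =
            fun b => t1A K L (Fin m × Fin n) (Y b) := by
          funext b
          rw [hY2, zA_apply]
          simp only []
          rw [tA_apply, PowerSeries.constantCoeff_C, t1A_apply]
        rw [h2, funext hzZ]
      have hlY : lf (nd.l 0) (fun b => t1A K L (Fin m × Fin n) (Y b)) = 1 := by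
        rw [← map_lf, hYl, map_one]
      have h3 : zA K L (Fin m × Fin n) (T c' b) =
          zA K L (Fin m × Fin n) Dd * t1A K L (Fin m × Fin n) (Y b) := by
        rw [hDd, map_lf]
        unfold lf
        rw [Finset.sum_mul]
        have h4 : ∀ a, algebraMap K (D1 L (Fin m × Fin n)) (nd.l 0 a) *
            zA K L (Fin m × Fin n) (T c' a) * t1A K L (Fin m × Fin n) (Y b) =
            zA K L (Fin m × Fin n) (T c' b) * (algebraMap K (D1 L (Fin m × Fin n)) (nd.l 0 a) *
              t1A K L (Fin m × Fin n) (Y a)) := by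
          intro a
          rw [hzT, hzT]
          have h5 := ht.s2_ident hYp a b c'
          linear_combination (-(algebraMap K (D1 L (Fin m × Fin n)) (nd.l 0 a))) * h5
        rw [Finset.sum_congr rfl fun a _ => h4 a, ← Finset.mul_sum]
        have h6 : ∑ a, algebraMap K (D1 L (Fin m × Fin n)) (nd.l 0 a) *
            t1A K L (Fin m × Fin n) (Y a) = 1 := hlY
        rw [h6, mul_one]
      rw [map_mul, h3, ← mul_assoc, ← map_mul, mul_comm g, hg, map_one, one_mul]
      rfl
    exact h1
  · intro b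
    have h1 : c00 (g * T c' b) = cA2 K L (Fin m × Fin n) g * C (γ * y₀ c') * C (y₀ b) := by
      rw [← cA2_eq_c00 K, map_mul, mul_assoc]
      congr 1
      have h2 := hcS γ hγs b c'
      rw [← cA2_eq_c00 K] at h2
      rw [hT]
      simp only []
      rw [h2, ← C_mul]
      congr 1
      ring
    rw [h1, ← hDc, ← cA2_eq_c00 K, ← map_mul, mul_comm g, hg, map_one, one_mul]
  · intro c b
    show g * T c' b * lf (nd.l 0) (T c) = T c b
    have h1 : T c' b * lf (nd.l 0) (T c) = T c b * Dd := by
      rw [hDd]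
      unfold lf
      rw [Finset.mul_sum, Finset.mul_sum]
      refine Finset.sum_congr rfl fun a _ => ?_
      have h2 := AV.rank_one hY2p hZup b c' a c
      rw [hT]
      simp only []
      linear_combination (algebraMap K (D2 L (Fin m × Fin n)) (nd.l 0 a)) * h2
    rw [mul_assoc, h1, mul_comm (T c b), ← mul_assoc, mul_comm g, hg, one_mul]

end

end Pool.Agent.Lib.MP_17a322_nt.VA
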