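import Pool.Agent.Lib.MP_17a322_nt.VA.LA4b

/-!
VA, part LA: the first order coefficient of the translate.
-/

universe u

namespace Pool.Agent.Lib.MP_17a322_nt.VA

open MvPolynomial Height
open Pool.Agent.Lib.MP_17a322_nt.RO
open Pool.Agent.Lib.MP_17a322_nt.VJ
open Pool.Agent.Lib.MP_17a322_nt.VN

section

variable (K : Type*) [Field K] (L : Type*) [Field L] [Algebra K L]

/-- `z ↦ ε` in series over `L`. -/
noncomputable def duS : PowerSeries L →ₐ[K] DualNumber L where
  toFun f := TrivSqZeroExt.inl (PowerSeries.coeff 0 f) + TrivSqZeroExt.inr (PowerSeries.coeff 1 f)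
  map_one' := by
    ext
    · simp
    · simp [PowerSeries.coeff_one]
  map_mul' f g := by
    ext
    · simp [PowerSeries.coeff_mul]
    · simp only [TrivSqZeroExt.snd_add, TrivSqZeroExt.snd_inl, TrivSqZeroExt.snd_inr, zero_add,
        TrivSqZeroExt.snd_mul, TrivSqZeroExt.fst_add, TrivSqZeroExt.fst_inl,
        TrivSqZeroExt.fst_inr, add_zero, smul_eq_mul, MulOpposite.smul_eq_mul_unop,
        MulOpposite.unop_op]
      rw [PowerSeries.coeff_mul]
      have h1 : Finset.HasAntidiagonal.antidiagonal 1 = {((0 : ℕ), (1 : ℕ)), (1, 0)} := by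
        decide
      rw [h1, Finset.sum_pair (by decide)]
  map_zero' := by simp
  map_add' f g := by
    ext
    · simp
    · simp
  commutes' a := by
    ext
    · simp [PowerSeries.algebraMap_apply, TrivSqZeroExt.algebraMap_eq_inl']
    · simp [PowerSeries.algebraMap_apply, TrivSqZeroExt.algebraMap_eq_inl',
        PowerSeries.coeff_C]

/-- The value at `T = 0` and at the direction `p`. -/
noncomputable def evd {τ : Type*} [DecidableEq τ] (p : τ) : D1 L τ →+* L :=
  (eval fun p' => if p' = p then 1 else 0).comp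
    (PowerSeries.constantCoeff (R := MvPolynomial τ L))

/-- `T ↦ 0`, `z ↦ ε`, `u_p ↦ 1`, `u_p' ↦ 0`. -/
noncomputable def duA {τ : Type*} [DecidableEq τ] (p : τ) : D2 L τ →ₐ[K] DualNumber L :=
  (duS K L).comp
    { PowerSeries.map (evd L p) with
      commutes' := fun a => by
        show PowerSeries.map (evd L p) (algebraMap K (D2 L τ) a) = algebraMap K (PowerSeries L) a
        rw [PowerSeries.algebraMap_apply, PowerSeries.map_C, PowerSeries.algebraMap_apply]
        unfold evd
        rw [PowerSeries.algebraMap_apply, RingHom.comp_apply, PowerSeries.constantCoeff_C]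
        show PowerSeries.C (eval (fun p' => if p' = p then 1 else 0) (C (algebraMap K L a))) = _
        rw [eval_C] }

theorem duA_apply {τ : Type*} [DecidableEq τ] (p : τ) (f : D2 L τ) :
    duA K L p f = TrivSqZeroExt.inl (evd L p (PowerSeries.coeff 0 f)) +
      TrivSqZeroExt.inr (evd L p (PowerSeries.coeff 1 f)) := by
  show duS K L (PowerSeries.map (evd L p) f) = _
  show TrivSqZeroExt.inl (PowerSeries.coeff 0 (PowerSeries.map (evd L p) f)) +
    TrivSqZeroExt.inr (PowerSeries.coeff 1 (PowerSeries.map (evd L p) f)) = _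
  rw [PowerSeries.coeff_map, PowerSeries.coeff_map]

/-- Base change of dual numbers. -/
noncomputable def dmA : DualNumber K →ₐ[K] DualNumber L where
  toFun x := TrivSqZeroExt.inl (algebraMap K L x.fst) + TrivSqZeroExt.inr (algebraMap K L x.snd)
  map_one' := by
    ext
    · simp
    · simp
  map_mul' x y := by
    ext
    · simp
    · simp only [TrivSqZeroExt.snd_add, TrivSqZeroExt.snd_inl, TrivSqZeroExt.snd_inr, zero_add,
        TrivSqZeroExt.snd_mul, TrivSqZeroExt.fst_add, TrivSqZeroExt.fst_inl,
        TrivSqZeroExt.fst_inr, add_zero, smul_eq_mul, MulOpposite.smul_eq_mul_unop,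
        MulOpposite.unop_op, map_add, map_mul]
  map_zero' := by simp
  map_add' x y := by
    ext
    · simp
    · simp [Algebra.smul_def]
  commutes' a := by
    ext
    · simp [TrivSqZeroExt.algebraMap_eq_inl']
    · simp [TrivSqZeroExt.algebraMap_eq_inl']

end

/-- A homogeneous series has a linear form as the coefficient of `z`. -/
theorem HS.linear {L : Type*} [Field L] {m n : ℕ} {i : Fin m} {f : D2 L (Fin m × Fin n)}
    (hf : HS i f) :
    PowerSeries.constantCoeff (PowerSeries.coeff 1 f) =
      ∑ a, MvPolynomial.C (evd L (i, a) (PowerSeries.coeff 1 f)) * MvPolynomial.X (i, a) := by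
  classical
  set g : MvPolynomial (Fin m × Fin n) L := PowerSeries.constantCoeff (PowerSeries.coeff 1 f)
    with hg
  have hs : ∀ w, coeff w g ≠ 0 → ∃ a, w = Finsupp.single (i, a) 1 := by
    intro w hw
    have h1 := hf 1 0 w (by
      rw [PowerSeries.coeff_zero_eq_constantCoeff_apply]
      exact hw)
    have h2 : ∃ a, w (i, a) ≠ 0 := by
      by_contra h
      push Not at h
      have h3 := h1.2
      rw [Finset.sum_eq_zero fun a _ => h a] at h3
      exact zero_ne_one h3
    obtain ⟨a, ha⟩ := h2
    refine ⟨a, ?_⟩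
    have h4 : ∀ b, w (i, b) = if b = a then 1 else 0 := by
      intro b
      have h5 : w (i, a) + ∑ b ∈ Finset.univ.erase a, w (i, b) = 1 := by
        rw [Finset.add_sum_erase Finset.univ (fun b => w (i, b)) (Finset.mem_univ a)]
        exact h1.2
      split_ifs with hb
      · rw [hb]
        omega
      · have h6 : w (i, b) ≤ ∑ b ∈ Finset.univ.erase a, w (i, b) :=
          Finset.single_le_sum (f := fun b => w (i, b)) (fun _ _ => Nat.zero_le _)
            (Finset.mem_erase.2 ⟨hb, Finset.mem_univ b⟩)
        omega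
    ext p
    rw [Finsupp.single_apply]
    by_cases hp : p.1 = i
    · obtain ⟨p1, p2⟩ := p
      simp only at hp
      subst hp
      rw [h4]
      by_cases h5 : p2 = a
      · rw [if_pos h5, if_pos (by rw [h5])]
      · rw [if_neg h5, if_neg (fun h => h5 (Prod.ext_iff.1 h).2.symm)]
    · rw [h1.1 p hp, if_neg]
      intro h
      apply hp
      rw [← h]
  have hexp : g = ∑ a, MvPolynomial.C (coeff (Finsupp.single (i, a) 1) g) *
      MvPolynomial.X (i, a) := by
    ext w
    rw [coeff_sum]
    simp only [coeff_C_mul, coeff_X]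
    by_cases hw : coeff w g = 0
    · rw [hw]
      symm
      refine Finset.sum_eq_zero fun a _ => ?_
      split_ifs with h
      · rw [h, hw, zero_mul]
      · rw [mul_zero]
    · obtain ⟨a, ha⟩ := hs w hw
      rw [Finset.sum_eq_single a]
      · rw [if_pos ha.symm, ha, mul_one]
      · intro b _ hb
        rw [if_neg, mul_zero]
        intro h
        rw [ha] at h
        have h5 := Finsupp.single_left_injective (one_ne_zero (α := ℕ)) h
        exact hb (Prod.ext_iff.1 h5).2
      · intro h
        exact absurd (Finset.mem_univ a) h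
  have hev : ∀ a, evd L (i, a) (PowerSeries.coeff 1 f) = coeff (Finsupp.single (i, a) 1) g := by
    intro a
    unfold evd
    rw [RingHom.comp_apply, ← hg, hexp, map_sum]
    rw [Finset.sum_eq_single a]
    · rw [map_mul, eval_C, eval_X, if_pos rfl, mul_one, ← hexp]
    · intro b _ hb
      rw [map_mul, eval_X, if_neg, mul_zero]
      intro h
      exact hb (Prod.ext_iff.1 h).2
    · intro h
      exact absurd (Finset.mem_univ a) h
  rw [Finset.sum_congr rfl fun a _ => by rw [hev a]]
  exact hexp

/-- The first order coefficients of the Noether coordinates. -/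
theorem first_order {K : Type u} [Field K] {N : ℕ} {A : AV K N} {n : ℕ} {o : Fin (N + 1) → K}
    {t : Fin n → Fin (N + 1) → K} (ht : A.Frame o t) {e : ℕ} (nd : Noe A n e)
    (Z : Fin (N + 1) → MvPowerSeries (Fin n) K)
    (hZ0 : ∀ b, MvPowerSeries.constantCoeff (Z b) = o b)
    (hZ1 : ∀ b a, MvPowerSeries.coeff (Finsupp.single a 1) (Z b) = t a b)
    (P : A.Pts K) (hP : lf (nd.l 0) (A.x P) ≠ 0) (Mx : Matrix (Fin n) (Fin n) K)
    (hMx : nd.IsDS o t P Mx) (L : Type u) [Field L] [Algebra K L] {m : ℕ} (i : Fin m)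
    (Y : Fin (N + 1) → PowerSeries L)
    (hY0 : ∀ b, PowerSeries.constantCoeff (Y b) = algebraMap K L (nd.y P b))
    (y : Fin (N + 1) → D2 L (Fin m × Fin n)) (hyH : ∀ b, HS i (y b))
    (hy : ∀ c b, y b * lf (nd.l 0) (fun a => A.s2 (fun b => tA K L (Fin m × Fin n) (Y b))
        (fun b => subZ K L i (Z b)) a c) =
          A.s2 (fun b => tA K L (Fin m × Fin n) (Y b)) (fun b => subZ K L i (Z b)) b c)
    (k : Fin n) :
    PowerSeries.constantCoeff (PowerSeries.coeff 1 (lf (nd.l k.succ) y)) =
      ∑ a, C (algebraMap K L (Mx k a)) * X (i, a) := by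
  classical
  obtain ⟨hy1, hy2, hy3⟩ := nd.y_facts P hP L
  set y₀ : Fin (N + 1) → L := fun b => algebraMap K L (nd.y P b) with hy₀
  have hFH : HS i (lf (nd.l k.succ) y) := HS.sum _ _ fun a _ => (HS.algebraMap _).mul (hyH a)
  rw [HS.linear hFH]
  refine Finset.sum_congr rfl fun a _ => ?_
  congr 2
  -- the images in the dual numbers
  set φ := duA K L ((i, a) : Fin m × Fin n) with hφ
  set Y2 : Fin (N + 1) → D2 L (Fin m × Fin n) := fun b => tA K L (Fin m × Fin n) (Y b) with hY2
  set Zu : Fin (N + 1) → D2 L (Fin m × Fin n) := fun b => subZ K L i (Z b) with hZu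
  have hφY : ∀ b, φ (Y2 b) = TrivSqZeroExt.inl (y₀ b) := by
    intro b
    rw [hφ, duA_apply, hY2]
    simp only []
    rw [tA_apply, PowerSeries.coeff_zero_eq_constantCoeff_apply, PowerSeries.constantCoeff_C,
      PowerSeries.coeff_C, if_neg one_ne_zero, map_zero, TrivSqZeroExt.inr_zero, add_zero]
    congr 1
    unfold evd
    rw [RingHom.comp_apply, ← PowerSeries.coeff_zero_eq_constantCoeff_apply,
      PowerSeries.coeff_map, PowerSeries.coeff_zero_eq_constantCoeff_apply, hY0, eval_C]
  have hφZ : ∀ b, φ (Zu b) = TrivSqZeroExt.inl (algebraMap K L (o b)) +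
      TrivSqZeroExt.inr (algebraMap K L (t a b)) := by
    intro b
    rw [hφ, duA_apply, hZu]
    simp only []
    rw [PowerSeries.coeff_zero_eq_constantCoeff_apply, constantCoeff_subZ, coeff_one_subZ, hZ0]
    congr 2
    · unfold evd
      rw [RingHom.comp_apply, PowerSeries.constantCoeff_C, eval_C]
    · unfold evd
      rw [RingHom.comp_apply, PowerSeries.constantCoeff_C, map_sum]
      rw [Finset.sum_eq_single a]
      · rw [map_mul, eval_C, eval_X, if_pos rfl, mul_one, hZ1]
      · intro b' _ hb'
        rw [map_mul, eval_X, if_neg, mul_zero]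
        intro h
        exact hb' (Prod.ext_iff.1 h).2
      · intro h
        exact absurd (Finset.mem_univ a) h
  set Zd : Fin (N + 1) → DualNumber L := fun b => TrivSqZeroExt.inl (algebraMap K L (o b)) +
      TrivSqZeroExt.inr (algebraMap K L (t a b)) with hZd
  -- the column
  have hy00 : y₀ ≠ 0 := by
    intro h
    rw [h] at hy2
    unfold lf at hy2
    simp at hy2
  obtain ⟨c, hc⟩ := Function.ne_iff.1 hy00
  set lam : K := (lf (nd.l 0) (A.x P))⁻¹ with hlam
  have hyl : ∀ b, (TrivSqZeroExt.inl (y₀ b) : DualNumber L) =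
      TrivSqZeroExt.inl (algebraMap K L lam) *
        TrivSqZeroExt.inl (algebraMap K L (A.x P b)) := by
    intro b
    rw [← TrivSqZeroExt.inl_mul, ← map_mul]
    congr 2
    rw [hlam, ← div_eq_inv_mul]
    rfl
  set T' : Fin (N + 1) → DualNumber L := fun b =>
    A.s2 (fun b => TrivSqZeroExt.inl (y₀ b)) Zd b c with hT'
  set T'' : Fin (N + 1) → DualNumber L := fun b =>
    A.s2 (fun b => TrivSqZeroExt.inl (algebraMap K L (A.x P b))) Zd b c with hT''
  have hTT : ∀ b, T' b = TrivSqZeroExt.inl (algebraMap K L lam) ^ 2 * T'' b := by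
    intro b
    have h1 := A.S_smul b c (TrivSqZeroExt.inl (algebraMap K L lam) : DualNumber L) 1
      (fun b => TrivSqZeroExt.inl (algebraMap K L (A.x P b))) Zd
    rw [one_pow, mul_one] at h1
    simp only [one_mul] at h1
    rw [hT', hT'']
    simp only [AV.s2]
    rw [← h1]
    congr 2
    congr 1
    funext b
    exact hyl b
  -- the definition of `Mx`
  have hDS : lf (nd.l k.succ) T'' = (TrivSqZeroExt.inl (algebraMap K L (nd.s P k)) +
      TrivSqZeroExt.inr (algebraMap K L (Mx k a))) * lf (nd.l 0) T'' := by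
    have h1 := hMx a c k
    simp only at h1
    have h2 := congrArg (dmA K L) h1
    rw [map_mul, map_lf, map_lf] at h2
    have h3 : (fun b => dmA K L (aeval (Sum.elim (fun i => TrivSqZeroExt.inl (A.x P i)) fun i =>
        TrivSqZeroExt.inl (algebraMap K K (o i)) + TrivSqZeroExt.inr (algebraMap K K (t a i)))
        (A.S b c))) = T'' := by
      funext b
      have h4 := AV.map_s2 (A := A) (dmA K L) (fun i => TrivSqZeroExt.inl (A.x P i))
        (fun i => TrivSqZeroExt.inl (algebraMap K K (o i)) +
          TrivSqZeroExt.inr (algebraMap K K (t a i))) b c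
      rw [hT'']
      simp only []
      have h5 : ∀ x z : K, dmA K L (TrivSqZeroExt.inl x + TrivSqZeroExt.inr z) =
          TrivSqZeroExt.inl (algebraMap K L x) + TrivSqZeroExt.inr (algebraMap K L z) := by
        intro x z
        show TrivSqZeroExt.inl (algebraMap K L (TrivSqZeroExt.inl x + TrivSqZeroExt.inr z :
          DualNumber K).fst) + TrivSqZeroExt.inr (algebraMap K L (TrivSqZeroExt.inl x +
            TrivSqZeroExt.inr z : DualNumber K).snd) = _
        simp
      have h6 : ∀ x : K, dmA K L (TrivSqZeroExt.inl x) =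
          TrivSqZeroExt.inl (algebraMap K L x) := by
        intro x
        have := h5 x 0
        simpa using this
      have h7 : (fun i => dmA K L (TrivSqZeroExt.inl (A.x P i))) =
          fun i => TrivSqZeroExt.inl (algebraMap K L (A.x P i)) := funext fun i => h6 _
      have h8 : (fun i => dmA K L (TrivSqZeroExt.inl (algebraMap K K (o i)) +
          TrivSqZeroExt.inr (algebraMap K K (t a i)))) = Zd := funext fun i => h5 _ _
      rw [h7, h8] at h4
      exact h4
    rw [h3] at h2
    rw [h2]
    congr 1
    show TrivSqZeroExt.inl (algebraMap K L (TrivSqZeroExt.inl _ + TrivSqZeroExt.inr _ :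
          DualNumber K).fst) + TrivSqZeroExt.inr (algebraMap K L (TrivSqZeroExt.inl _ +
            TrivSqZeroExt.inr _ : DualNumber K).snd) = _
    simp
  have hDS' : lf (nd.l k.succ) T' = (TrivSqZeroExt.inl (algebraMap K L (nd.s P k)) +
      TrivSqZeroExt.inr (algebraMap K L (Mx k a))) * lf (nd.l 0) T' := by
    have h1 : T' = fun b => TrivSqZeroExt.inl (algebraMap K L lam) ^ 2 * T'' b := funext hTT
    rw [h1, lf_smul, lf_smul, hDS]
    ring
  -- the image of the relation
  have hrel : φ (lf (nd.l k.succ) y) * lf (nd.l 0) T' = lf (nd.l k.succ) T' := by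
    have hφT : ∀ b, φ (A.s2 Y2 Zu b c) = T' b := by
      intro b
      rw [AV.map_s2, funext hφY, funext hφZ]
    have h1 : ∀ b, φ (y b) * lf (nd.l 0) T' = T' b := by
      intro b
      have h2 := congrArg φ (hy c b)
      rw [map_mul, map_lf, hφT] at h2
      simp only [hφT] at h2
      exact h2
    rw [map_lf]
    unfold lf at h1 ⊢
    rw [Finset.sum_mul]
    refine Finset.sum_congr rfl fun b _ => ?_
    rw [mul_assoc, h1]
  have hunit : IsUnit (lf (nd.l 0) T') := by
    rw [TrivSqZeroExt.isUnit_iff_isUnit_fst]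
    obtain ⟨γ, hγ, hγs⟩ := ht.s2_zero (L := L) hy1 hy00
    have h1 : (lf (nd.l 0) T').fst = γ * y₀ c := by
      have h2 := map_lf (nd.l 0) (TrivSqZeroExt.fstHom K L L) T'
      have h3 : (fun b => TrivSqZeroExt.fstHom K L L (T' b)) = fun b => γ * y₀ c * y₀ b := by
        funext b
        rw [hT']
        simp only []
        rw [AV.map_s2]
        have h4 : (fun b => TrivSqZeroExt.fstHom K L L (TrivSqZeroExt.inl (y₀ b))) = y₀ := by
          funext b
          rfl
        have h5 : (fun b => TrivSqZeroExt.fstHom K L L (Zd b)) =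
            fun b => algebraMap K L (o b) := by
          funext b
          rw [hZd]
          show (TrivSqZeroExt.inl (algebraMap K L (o b)) +
            TrivSqZeroExt.inr (algebraMap K L (t a b)) : DualNumber L).fst = _
          simp
        rw [h4, h5, hγs]
        ring
      rw [h3, lf_smul, hy2, mul_one] at h2
      exact h2
    rw [h1]
    exact isUnit_iff_ne_zero.2 (mul_ne_zero hγ hc)
  rw [hDS'] at hrel
  have hfin := hunit.mul_right_cancel hrel
  have h1 := congrArg TrivSqZeroExt.snd hfin
  rw [hφ, duA_apply] at h1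
  simp only [TrivSqZeroExt.snd_add, TrivSqZeroExt.snd_inl, TrivSqZeroExt.snd_inr, zero_add] at h1
  exact h1

end Pool.Agent.Lib.MP_17a322_nt.VA
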