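import Pool.Agent.Lib.MP_17a322_nt.VA.LA4b

/-!
VA, part LA: the Noether coordinates of the difference of the translate and a fixed point.
-/

universe u

namespace Pool.Agent.Lib.MP_17a322_nt.VA

open MvPolynomial Height
open Pool.Agent.Lib.MP_17a322_nt.RO
open Pool.Agent.Lib.MP_17a322_nt.VJ
open Pool.Agent.Lib.MP_17a322_nt.VN

section

variable {K : Type u} [Field K] {N : ℕ} {A : AV K N}

theorem AV.col_eq {R : Type*} [CommRing R] [Algebra K R] (a : Fin (N + 1))
    (y y' : Fin (N + 1) → R) : A.col a y y' = fun b => A.s2 y y' a b := rfl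

/-- The columns are proportional. -/
theorem AV.col_cross {R : Type u} [CommRing R] [Algebra K R] {y y' : Fin (N + 1) → R}
    (hy : A.IsPt y) (hy' : A.IsPt y') (l l' : Fin (N + 1) → K) (a a' : Fin (N + 1)) :
    lf l (A.col a y y') * lf l' (A.col a' y y') = lf l (A.col a' y y') * lf l' (A.col a y y') := by
  rw [AV.col_eq, AV.col_eq]
  unfold lf
  rw [Finset.sum_mul_sum, Finset.sum_mul_sum]
  refine Finset.sum_congr rfl fun b _ => Finset.sum_congr rfl fun c _ => ?_
  have h1 := AV.rank_one hy hy' a b a' c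
  linear_combination (algebraMap K R (l b)) * (algebraMap K R (l' c)) * h1

theorem AV.map_col {R : Type*} [CommRing R] [Algebra K R] {R' : Type*} [CommRing R'] [Algebra K R']
    (φ : R →ₐ[K] R') (a : Fin (N + 1)) (y y' : Fin (N + 1) → R) (b : Fin (N + 1)) :
    φ (A.col a y y' b) = A.col a (fun i => φ (y i)) (fun i => φ (y' i)) b := by
  rw [AV.col_eq, AV.col_eq]
  exact AV.map_s2 φ y y' a b

theorem AV.col_smul {R : Type*} [CommRing R] [Algebra K R] (a : Fin (N + 1)) (c : R)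
    (y y' : Fin (N + 1) → R) :
    A.col a (fun i => c * y i) y' = fun b => c ^ 2 * A.col a y y' b := by
  funext b
  unfold AV.col
  have h1 := A.S_smul a b c 1 y y'
  simp only [one_mul, one_pow, mul_one] at h1
  exact h1

end

section

variable {K : Type u} [Field K] {N : ℕ} {A : AV K N} {L : Type u} [Field L] [Algebra K L]

theorem c2_isPt {τ : Type} {M : Fin (N + 1) → L} (hM : A.IsPt M) : A.IsPt (c2 L τ M) := by
  intro f hf
  unfold c2
  rw [aeval_algMap, hM f hf, map_zero]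

theorem c00_lf_col {τ : Type} (l : Fin (N + 1) → K) (a : Fin (N + 1))
    (y : Fin (N + 1) → D2 L τ) (y₀ M : Fin (N + 1) → L) (hy : ∀ b, c00 (y b) = C (y₀ b)) :
    c00 (lf l (A.col a y (c2 L τ M))) = C (lf l (A.col a y₀ M)) := by
  rw [← cA2_eq_c00 K, map_lf]
  have h1 : (fun b => cA2 K L τ (A.col a y (c2 L τ M) b)) = fun b =>
      IsScalarTower.toAlgHom K L (MvPolynomial τ L) (A.col a y₀ M b) := by
    funext b
    rw [AV.map_col, AV.map_col]
    have h2 : (fun i => cA2 K L τ (y i)) = fun i =>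
        IsScalarTower.toAlgHom K L (MvPolynomial τ L) (y₀ i) := by
      funext i
      rw [cA2_eq_c00, hy]
      rfl
    have h3 : (fun i => cA2 K L τ (c2 L τ M i)) = fun i =>
        IsScalarTower.toAlgHom K L (MvPolynomial τ L) (M i) := by
      funext i
      unfold c2
      rw [cA2_apply, algebraMap_D2, PowerSeries.constantCoeff_C, PowerSeries.constantCoeff_C]
      rfl
    rw [h2, h3]
  rw [h1, ← map_lf]
  rfl

theorem HS_lf_col {m n : ℕ} {i : Fin m} (l : Fin (N + 1) → K) (a : Fin (N + 1))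
    (y : Fin (N + 1) → D2 L (Fin m × Fin n)) (hy : ∀ b, HS i (y b)) (M : Fin (N + 1) → L) :
    HS i (lf l (A.col a y (c2 L (Fin m × Fin n) M))) := by
  refine HS.sum _ _ fun b _ => (HS.algebraMap _).mul ?_
  refine HS.aeval (A.S a b) _ fun s => ?_
  cases s with
  | inl a => exact hy a
  | inr a => exact HS.algebraMap (K := L) (M a)

theorem exists_xi {n e : ℕ} (nd : Noe A n e) {m : ℕ} (i : Fin m)
    (y : Fin (N + 1) → D2 L (Fin m × Fin n)) (hy : A.IsPt y) (hyH : ∀ b, HS i (y b))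
    (y₀ : Fin (N + 1) → L) (hy0 : ∀ b, c00 (y b) = C (y₀ b)) (M : Fin (N + 1) → L)
    (hM : A.IsPt M) (q : Fin n → L) (hq0 : ∃ a, lf (nd.l 0) (A.col a y₀ M) ≠ 0)
    (hq : ∀ (a : Fin (N + 1)) (k : Fin n), lf (nd.l k.succ) (A.col a y₀ M) =
      q k * lf (nd.l 0) (A.col a y₀ M)) :
    ∃ ξ : Fin n → D2 L (Fin m × Fin n), (∀ k, HS i (ξ k)) ∧
      (∀ (a : Fin (N + 1)) (k : Fin n), ξ k * lf (nd.l 0) (A.col a y (c2 L _ M)) =
        lf (nd.l k.succ) (A.col a y (c2 L _ M))) ∧ (∀ k, c00 (ξ k) = C (q k)) := by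
  obtain ⟨a', ha'⟩ := hq0
  have hMp : A.IsPt (c2 L (Fin m × Fin n) M) := c2_isPt hM
  have hD0 : c00 (lf (nd.l 0) (A.col a' y (c2 L (Fin m × Fin n) M))) =
      C (lf (nd.l 0) (A.col a' y₀ M)) := c00_lf_col _ _ _ _ _ hy0
  obtain ⟨g, hg⟩ := (isUnit_D2 _ ha' hD0).exists_right_inv
  have hgH : HS i g := (HS_lf_col (nd.l 0) a' y hyH M).inv hg
  refine ⟨fun k => lf (nd.l k.succ) (A.col a' y (c2 L _ M)) * g,
    fun k => (HS_lf_col (nd.l k.succ) a' y hyH M).mul hgH, fun a k => ?_, fun k => ?_⟩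
  · show lf (nd.l k.succ) (A.col a' y (c2 L _ M)) * g * lf (nd.l 0) (A.col a y (c2 L _ M)) = _
    have h1 := AV.col_cross hy hMp (nd.l k.succ) (nd.l 0) a' a
    linear_combination g * h1 + lf (nd.l k.succ) (A.col a y (c2 L _ M)) * hg
  · have h1 : c00 (lf (nd.l k.succ) (A.col a' y (c2 L (Fin m × Fin n) M)) * g) *
        C (lf (nd.l 0) (A.col a' y₀ M)) = C (q k) * C (lf (nd.l 0) (A.col a' y₀ M)) := by
      rw [← hD0, ← cA2_eq_c00 K, ← cA2_eq_c00 K, ← map_mul, mul_assoc, mul_comm g, hg, mul_one,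
        cA2_eq_c00, cA2_eq_c00, hD0, c00_lf_col _ _ _ _ _ hy0, hq, C_mul]
    have h2 : (C (lf (nd.l 0) (A.col a' y₀ M)) : MvPolynomial (Fin m × Fin n) L) ≠ 0 := by
      intro h
      exact ha' (C_injective _ _ (h.trans C_0.symm))
    exact mul_right_cancel₀ h2 h1

end

end Pool.Agent.Lib.MP_17a322_nt.VA
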