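import Pool.Agent.Lib.MP_17a322_nt.VA.LA4d

/-!
VA, part LA: bounds used for the sizes of the translate and of the difference.
-/

universe u

namespace Pool.Agent.Lib.MP_17a322_nt.VA

open MvPolynomial Height
open Pool.Agent.Lib.MP_17a322_nt.RO
open Pool.Agent.Lib.MP_17a322_nt.VJ
open Pool.Agent.Lib.MP_17a322_nt.VN

theorem SN_add_cst {L : Type*} [Field L] {v : AbsoluteValue L ℝ} {A : Type*} [CommRing A]
    [Algebra L A] {ν : A → ℝ} (h : SN v ν) {a b : A} {B : ℝ} (hB : 0 ≤ B) (ha : ν a ≤ B)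
    (hb : ν b ≤ B) : ν (a + b) ≤ cst v 2 * B := by
  have h1 := h.sum_le (Finset.univ : Finset (Fin 2)) ![a, b] hB (by
    intro i _
    fin_cases i
    · exact ha
    · exact hb)
  rw [Fin.sum_univ_two, Finset.card_univ, Fintype.card_fin] at h1
  exact h1

/-- Sizes of linear forms. -/
theorem lf_size {K : Type u} [Field K] {N : ℕ} {ι : Type*} [Finite ι]
    (l : ι → Fin (N + 1) → K) :
    ∃ κ : SC K, ∀ (L : Type u) [Field L] [Algebra K L] (v : AbsoluteValue L ℝ) (R : Type u)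
      [CommRing R] [Algebra L R] [Algebra K R] [IsScalarTower K L R] (ν : R → ℝ), SN v ν →
      ∀ (y : Fin (N + 1) → R) (B : ℝ), (∀ b, ν (y b) ≤ B) → ∀ k, ν (lf (l k) y) ≤ κ.k v * B := by
  obtain ⟨κ1, h1⟩ := (Adm_cst.{u, u} (K := K) (N + 1)).exists_SC
  have h2 : ∀ p : ι × Fin (N + 1), ∃ E : SC K, ∀ (L : Type u) [Field L] [Algebra K L]
      (v : AbsoluteValue L ℝ), Max.max 1 (v (algebraMap K L (l p.1 p.2))) ≤ E.k v :=
    fun p => (Adm_abv.{u, u} (l p.1 p.2)).exists_SC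
  choose κ2 h2 using h2
  obtain ⟨κ3, h3⟩ := exists_sup.{u, u} κ2
  refine ⟨κ1.mul κ3, fun L _ _ v R _ _ _ _ ν hν y B hB k => ?_⟩
  have hB0 : 0 ≤ B := (hν.nonneg _).trans (hB 0)
  unfold lf
  have h4 : ν (∑ a, algebraMap K R (l k a) * y a) ≤ cst v (N + 1) * (κ3.k v * B) := by
    have h5 := hν.sum_le (Finset.univ : Finset (Fin (N + 1)))
      (fun a => algebraMap K R (l k a) * y a) (B := κ3.k v * B)
      (mul_nonneg (κ3.pos v).le hB0) (fun a _ => ?_)
    · rw [Finset.card_univ, Fintype.card_fin] at h5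
      exact h5
    · refine (hν.mul _ _).trans (mul_le_mul ?_ (hB a) (hν.nonneg _) (κ3.pos v).le)
      rw [IsScalarTower.algebraMap_apply K L R]
      exact (hν.map _).trans ((le_max_right _ _).trans ((h2 (k, a) L v).trans (h3 (k, a) L v)))
  refine h4.trans ?_
  rw [← mul_assoc]
  refine mul_le_mul_of_nonneg_right ?_ hB0
  exact (mul_le_mul_of_nonneg_right (h1 L v) (κ3.pos v).le).trans (SC.mul_le κ1 κ3 v)

/-- Sizes of the forms for the sum and the difference. -/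
theorem s2_size {K : Type u} [Field K] {N : ℕ} (A : AV K N) :
    ∃ κ : SC K, ∀ (L : Type u) [Field L] [Algebra K L] (v : AbsoluteValue L ℝ) (R : Type u)
      [CommRing R] [Algebra L R] [Algebra K R] [IsScalarTower K L R] (ν : R → ℝ), SN v ν →
      ∀ (y y' : Fin (N + 1) → R) (B B' : ℝ), (∀ b, ν (y b) ≤ B) → (∀ b, ν (y' b) ≤ B') →
        ∀ a b, ν (A.s2 y y' a b) ≤ κ.k v * (B ^ 2 * B' ^ 2) := by
  classical
  have h2 : ∀ p : Fin (N + 1) × Fin (N + 1), ∃ E : SC K, ∀ (L : Type u) [Field L] [Algebra K L]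
      (v : AbsoluteValue L ℝ), Max.max 1 (NV v (MvPolynomial.map (algebraMap K L)
        (A.S p.1 p.2))) ≤ E.k v :=
    fun p => (Adm_NV.{u, u} (A.S p.1 p.2)).exists_SC
  choose κ2 h2 using h2
  obtain ⟨κ3, h3⟩ := exists_sup.{u, u} κ2
  refine ⟨κ3, fun L _ _ v R _ _ _ _ ν hν y y' B B' hB hB' a b => ?_⟩
  have hB0 : 0 ≤ B := (hν.nonneg _).trans (hB 0)
  have hB0' : 0 ≤ B' := (hν.nonneg _).trans (hB' 0)
  set F : MvPolynomial (Fin (N + 1) ⊕ Fin (N + 1)) L :=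
    MvPolynomial.map (algebraMap K L) (A.S a b) with hF
  have h4 : A.s2 y y' a b = ∑ m ∈ F.support, algebraMap L R (coeff m F) *
      ∏ s, Sum.elim y y' s ^ m s := by
    show aeval (Sum.elim y y') (A.S a b) = _
    have h5 : aeval (Sum.elim y y') (A.S a b) = aeval (R := L) (Sum.elim y y') F := by
      rw [hF, aeval_map_algebraMap]
    rw [h5, aeval_def, eval₂_eq']
  rw [h4]
  refine (NV_sum v hν F F.support (le_refl _) _ (mul_nonneg (pow_nonneg hB0 2)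
    (pow_nonneg hB0' 2)) fun m hm => ?_).trans ?_
  · have hm' : m ∈ (A.S a b).support := by
      rw [mem_support_iff] at hm ⊢
      intro h
      apply hm
      rw [hF, coeff_map, h, map_zero]
    obtain ⟨h5, h6⟩ := A.bihomog a b m hm'
    refine (hν.prod_le _ _).trans ?_
    rw [Fintype.prod_sum_type]
    simp only [Sum.elim_inl, Sum.elim_inr]
    refine mul_le_mul ?_ ?_ (Finset.prod_nonneg fun _ _ => hν.nonneg _) (pow_nonneg hB0 2)
    · rw [← h5, ← Finset.prod_pow_eq_pow_sum]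
      exact Finset.prod_le_prod (fun _ _ => hν.nonneg _) fun c _ =>
        (hν.pow_le _ _).trans (pow_le_pow_left₀ (hν.nonneg _) (hB c) _)
    · rw [← h6, ← Finset.prod_pow_eq_pow_sum]
      exact Finset.prod_le_prod (fun _ _ => hν.nonneg _) fun c _ =>
        (hν.pow_le _ _).trans (pow_le_pow_left₀ (hν.nonneg _) (hB' c) _)
  · exact mul_le_mul_of_nonneg_right ((le_max_right _ _).trans ((h2 (a, b) L v).trans
      (h3 (a, b) L v))) (mul_nonneg (pow_nonneg hB0 2) (pow_nonneg hB0' 2))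

/-- Lower bounds. -/
theorem num_bounds {K : Type u} [Field K] {N : ℕ} {A : AV K N} {n e : ℕ} (nd : Noe A n e)
    {o : Fin (N + 1) → K} {t : Fin n → Fin (N + 1) → K} (ht : A.Frame o t) :
    ∃ E : SC K, ∀ (L : Type u) [Field L] [Algebra K L] (v : AbsoluteValue L ℝ)
      (y₀ M : Fin (N + 1) → L) (q : Fin n → L), A.IsPt y₀ → lf (nd.l 0) y₀ = 1 → A.IsPt M →
      M ≠ 0 → (∀ (a : Fin (N + 1)) (k : Fin n), lf (nd.l k.succ) (A.col a y₀ M) =
        q k * lf (nd.l 0) (A.col a y₀ M)) →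
      1 ≤ E.k v * vm v y₀ ∧
      (∀ γ : L, (∀ a b, A.s2 y₀ (fun i => algebraMap K L (o i)) a b = γ * (y₀ a * y₀ b)) →
        1 ≤ E.k v * v γ) ∧
      ∃ a, vm v y₀ ^ 2 * vm v M ^ 2 ≤ E.k v * mq v q * v (lf (nd.l 0) (A.col a y₀ M)) := by
  obtain ⟨κ1, h1⟩ := lf_upper.{u, u} nd.l
  obtain ⟨κ2, h2⟩ := AV.S_lower (A := A)
  obtain ⟨κ3, h3⟩ := AV.lf_lower (A := A) nd.l nd.nz
  obtain ⟨c, hc, hco⟩ := ht.1
  obtain ⟨b₁, hb₁⟩ := A.exists_x_ne (0 : A.Pts K)
  have hob : o b₁ ≠ 0 := by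
    intro h
    apply hb₁
    rw [hco, h, mul_zero]
  obtain ⟨κ4, h4⟩ := (Adm_abv.{u, u} ((o b₁)⁻¹)).exists_SC
  obtain ⟨E1, hE1⟩ := exists_sup.{u, u} ![κ1, κ2, κ3, κ4]
  refine ⟨E1.pw 3, fun L _ _ v y₀ M q hy₀ hl₀ hM hM0 hq => ?_⟩
  have e1 : κ1.k v ≤ E1.k v := hE1 0 L v
  have e2 : κ2.k v ≤ E1.k v := hE1 1 L v
  have e3 : κ3.k v ≤ E1.k v := hE1 2 L v
  have e4 : κ4.k v ≤ E1.k v := hE1 3 L v
  have hE : (1 : ℝ) ≤ E1.k v := E1.one_le v
  have hEp : E1.k v ^ 3 ≤ (E1.pw 3).k v := E1.pow_le 3 v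
  set e := E1.k v with he
  have he0 : 0 < e := one_pos.trans_le hE
  have hy00 : y₀ ≠ 0 := by
    intro h
    rw [h] at hl₀
    unfold lf at hl₀
    simp at hl₀
  have hV : 0 < vm v y₀ := vm_pos v hy00
  have hMp : 0 < vm v M := vm_pos v hM0
  have hp1 : e ≤ (E1.pw 3).k v := by
    refine le_trans ?_ hEp
    calc e = e ^ 1 := (pow_one e).symm
      _ ≤ e ^ 3 := pow_le_pow_right₀ hE (by norm_num)
  have hp2 : e ^ 2 ≤ (E1.pw 3).k v :=
    (pow_le_pow_right₀ hE (by norm_num)).trans hEp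
  refine ⟨?_, ?_, ?_⟩
  · have h5 := h1 L v y₀ 0
    rw [hl₀, map_one] at h5
    exact h5.trans (mul_le_mul_of_nonneg_right (e1.trans hp1) hV.le)
  · intro γ hγ
    obtain ⟨a, b, hab⟩ := h2 L v y₀ (fun i => algebraMap K L (o i)) hy₀
      (ht.rep_zero L).isPt
    have h5 : A.s2 y₀ (fun i => algebraMap K L (o i)) a b = γ * (y₀ a * y₀ b) := hγ a b
    have h6 : aeval (Sum.elim y₀ fun i => algebraMap K L (o i)) (A.S a b) =
        γ * (y₀ a * y₀ b) := h5
    rw [h6, map_mul, map_mul] at hab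
    have h7 : v (y₀ a) * v (y₀ b) ≤ vm v y₀ ^ 2 := by
      rw [pow_two]
      exact mul_le_mul (le_vm v y₀ a) (le_vm v y₀ b) (v.nonneg _) hV.le
    have h8 : vm v y₀ ^ 2 * vm v (fun i => algebraMap K L (o i)) ^ 2 ≤
        vm v y₀ ^ 2 * (e * v γ) := by
      refine hab.trans ?_
      calc κ2.k v * (v γ * (v (y₀ a) * v (y₀ b))) ≤ e * (v γ * vm v y₀ ^ 2) :=
            mul_le_mul e2 (mul_le_mul_of_nonneg_left h7 (v.nonneg _))
              (mul_nonneg (v.nonneg _) (mul_nonneg (v.nonneg _) (v.nonneg _))) he0.le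
        _ = vm v y₀ ^ 2 * (e * v γ) := by ring
    have h9 : vm v (fun i => algebraMap K L (o i)) ^ 2 ≤ e * v γ :=
      le_of_mul_le_mul_left h8 (pow_pos hV 2)
    have h10 : 1 ≤ e * vm v (fun i => algebraMap K L (o i)) := by
      have h11 : v (algebraMap K L ((o b₁)⁻¹)) * v (algebraMap K L (o b₁)) = 1 := by
        rw [← map_mul, ← map_mul, inv_mul_cancel₀ hob, map_one, map_one]
      rw [← h11]
      exact mul_le_mul ((le_max_right _ _).trans ((h4 L v).trans e4))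
        (le_vm v (fun i => algebraMap K L (o i)) b₁) (v.nonneg _) he0.le
    have h12 : 1 ≤ (e * vm v (fun i => algebraMap K L (o i))) ^ 2 := one_le_pow₀ h10
    calc (1 : ℝ) ≤ (e * vm v (fun i => algebraMap K L (o i))) ^ 2 := h12
      _ = e ^ 2 * vm v (fun i => algebraMap K L (o i)) ^ 2 := by ring
      _ ≤ e ^ 2 * (e * v γ) := mul_le_mul_of_nonneg_left h9 (pow_pos he0 2).le
      _ = e ^ 3 * v γ := by ring
      _ ≤ (E1.pw 3).k v * v γ := mul_le_mul_of_nonneg_right hEp (v.nonneg _)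
  · obtain ⟨a, b, hab⟩ := h2 L v y₀ M hy₀ hM
    refine ⟨a, ?_⟩
    have h5 : v (aeval (Sum.elim y₀ M) (A.S a b)) ≤ vm v (A.col a y₀ M) :=
      le_vm v (A.col a y₀ M) b
    have hpos : 0 < vm v y₀ ^ 2 * vm v M ^ 2 := mul_pos (pow_pos hV 2) (pow_pos hMp 2)
    have hcol : A.col a y₀ M ≠ 0 := by
      intro h
      have h6 : vm v (A.col a y₀ M) = 0 := by
        rw [h]
        exact vm_zero v
      rw [h6] at h5
      have h7 : v (aeval (Sum.elim y₀ M) (A.S a b)) = 0 := le_antisymm h5 (v.nonneg _)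
      rw [h7, mul_zero] at hab
      exact absurd hab (not_le.2 hpos)
    obtain ⟨k, hk⟩ := h3 L v (A.col a y₀ M) (AV.row_isPt hy₀ hM a) hcol
    have h6 : v (lf (nd.l k) (A.col a y₀ M)) ≤ mq v q * v (lf (nd.l 0) (A.col a y₀ M)) := by
      rcases Fin.eq_zero_or_eq_succ k with hk0 | ⟨k', hk'⟩
      · rw [hk0]
        exact le_mul_of_one_le_left (v.nonneg _) (one_le_mq v q)
      · rw [hk', hq, map_mul]
        exact mul_le_mul_of_nonneg_right (le_mq v q k') (v.nonneg _)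
    calc vm v y₀ ^ 2 * vm v M ^ 2 ≤ κ2.k v * v (aeval (Sum.elim y₀ M) (A.S a b)) := hab
      _ ≤ e * vm v (A.col a y₀ M) := mul_le_mul e2 h5 (v.nonneg _) he0.le
      _ ≤ e * (e * (mq v q * v (lf (nd.l 0) (A.col a y₀ M)))) := by
          refine mul_le_mul_of_nonneg_left (hk.trans ?_) he0.le
          exact mul_le_mul e3 h6 (v.nonneg _) he0.le
      _ = e ^ 2 * mq v q * v (lf (nd.l 0) (A.col a y₀ M)) := by ring
      _ ≤ (E1.pw 3).k v * mq v q * v (lf (nd.l 0) (A.col a y₀ M)) := by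
          refine mul_le_mul_of_nonneg_right ?_ (v.nonneg _)
          exact mul_le_mul_of_nonneg_right hp2 (mq_pos v q).le

end Pool.Agent.Lib.MP_17a322_nt.VA
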