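import Pool.Agent.Lib.MP_17a322_nt.VA.LA5a

/-!
VA, part LA: sizes of the translate and of the difference.
-/

universe u

namespace Pool.Agent.Lib.MP_17a322_nt.VA

open MvPolynomial Height
open Pool.Agent.Lib.MP_17a322_nt.RO
open Pool.Agent.Lib.MP_17a322_nt.VJ
open Pool.Agent.Lib.MP_17a322_nt.VN

/-- The real arithmetic of the bounds. -/
theorem la_arith {e V W g f q : ℝ} (he : 1 ≤ e) (hV : 0 < V) (hW : 0 < W) (hf : 0 ≤ f)
    (hg : 0 ≤ g) (hq : 1 ≤ q) (h2 : 1 ≤ e * g) (h3 : V ^ 2 * W ^ 2 ≤ e * q * f) :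
    0 < g ^ 2 * V ^ 2 * f ∧ V ^ 4 * W ^ 2 ≤ e ^ 3 * q * (g ^ 2 * V ^ 2 * f) := by
  have he0 : 0 < e := one_pos.trans_le he
  have hg0 : 0 < g := by
    rcases hg.eq_or_lt with h | h
    · rw [← h, mul_zero] at h2
      linarith
    · exact h
  have hf0 : 0 < f := by
    rcases hf.eq_or_lt with h | h
    · rw [← h, mul_zero] at h3
      have : 0 < V ^ 2 * W ^ 2 := by positivity
      linarith
    · exact h
  refine ⟨by positivity, ?_⟩
  have h4 : 1 ≤ (e * g) ^ 2 := one_le_pow₀ h2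
  calc V ^ 4 * W ^ 2 = V ^ 2 * (V ^ 2 * W ^ 2) := by ring
    _ ≤ V ^ 2 * (e * q * f) := mul_le_mul_of_nonneg_left h3 (by positivity)
    _ = 1 * (V ^ 2 * (e * q * f)) := by ring
    _ ≤ (e * g) ^ 2 * (V ^ 2 * (e * q * f)) :=
        mul_le_mul_of_nonneg_right h4 (by positivity)
    _ = e ^ 3 * q * (g ^ 2 * V ^ 2 * f) := by ring

theorem block_sizes {K : Type u} [Field K] {N : ℕ} {A : AV K N} {n e : ℕ} (nd : Noe A n e)
    {o : Fin (N + 1) → K} {t : Fin n → Fin (N + 1) → K} (ht : A.Frame o t) (κ κZ : SC K)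
    (Z : Fin (N + 1) → MvPowerSeries (Fin n) K)
    (hZs : ∀ (L : Type u) [Field L] [Algebra K L] (v : AbsoluteValue L ℝ) (α : Fin n →₀ ℕ)
        (b : Fin (N + 1)),
        v (algebraMap K L (MvPowerSeries.coeff α (Z b))) ≤ κZ.k v ^ (α.degree + 1)) :
    ∃ E : SC K, ∀ (L : Type u) [Field L] [Algebra K L] {m : ℕ} (i : Fin m)
      (v : AbsoluteValue L ℝ) (y₀ M : Fin (N + 1) → L) (q : Fin n → L)
      (Y : Fin (N + 1) → PowerSeries L) (rho : ℝ) (y : Fin (N + 1) → D2 L (Fin m × Fin n))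
      (ξ : Fin n → D2 L (Fin m × Fin n)), A.IsPt y₀ → lf (nd.l 0) y₀ = 1 → A.IsPt M → M ≠ 0 →
      (∀ (a : Fin (N + 1)) (k : Fin n), lf (nd.l k.succ) (A.col a y₀ M) =
        q k * lf (nd.l 0) (A.col a y₀ M)) → 0 ≤ rho →
      (∀ b s, PN v rho s (Y b - PowerSeries.C (y₀ b)) ≤ 1) →
      (∀ c b, y b * lf (nd.l 0) (fun a => A.s2 (fun b => tA K L (Fin m × Fin n) (Y b))
        (fun b => subZ K L i (Z b)) a c) =
          A.s2 (fun b => tA K L (Fin m × Fin n) (Y b)) (fun b => subZ K L i (Z b)) b c) →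
      (∀ γ : L, (∀ a b, A.s2 y₀ (fun i => algebraMap K L (o i)) a b = γ * (y₀ a * y₀ b)) →
        ∀ b c, c00 (A.s2 (fun b => tA K L (Fin m × Fin n) (Y b)) (fun b => subZ K L i (Z b))
          b c) = C (γ * (y₀ b * y₀ c))) →
      (∀ (a : Fin (N + 1)) (k : Fin n), ξ k * lf (nd.l 0) (A.col a y (c2 L _ M)) =
        lf (nd.l k.succ) (A.col a y (c2 L _ M))) →
      ((∀ b, v (y₀ b) ≤ κ.k v) → ∀ r s : ℝ, 0 ≤ r → r * E.k v ≤ rho → 0 ≤ s → s * E.k v ≤ 1 →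
        ∀ (b : Fin (N + 1)) (N₁ N₂ : ℕ), n2 v r s N₁ N₂ (y b) ≤ E.k v) ∧
      ∀ lam : ℝ, 0 ≤ lam → lam * (E.k v * mq v q) ≤ 1 → ∀ r : ℝ, 0 ≤ r → r ≤ lam * rho →
        (∀ (t : Fin n) (N₁ N₂ : ℕ), n2 v r lam N₁ N₂ (ξ t) ≤ E.k v * mq v q) ∧
        ∃ (a : Fin (N + 1)) (d : D2 L (Fin m × Fin n)),
          lf (nd.l 0) (A.col a y (c2 L _ M)) * d = 1 ∧
          (∀ t : Fin n, lf (nd.l t.succ) (A.col a y (c2 L _ M)) * d = ξ t) ∧
          ∀ N₁ N₂ : ℕ, n2 v r lam N₁ N₂ d ≤ E.k v * mq v q / vm v M ^ 2 := by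
  classical
  obtain ⟨κ1, h1⟩ := lf_size nd.l
  obtain ⟨κ2, h2⟩ := s2_size A
  obtain ⟨κ3, h3⟩ := num_bounds nd ht
  obtain ⟨κ4, h4⟩ := (Adm_cst.{u, u} (K := K) 2).exists_SC
  obtain ⟨κ5, h5⟩ := (Adm_cst.{u, u} (K := K) (2 ^ n)).exists_SC
  set κ6 : SC K := (κ5.mul κZ).mul κ4 with hκ6
  set κ7 : SC K := κ4.mul κZ with hκ7
  obtain ⟨E1, hE1⟩ := exists_sup.{u, u} ![κ, κ1, κ2, κ3, κ4, κ6, κ7]
  refine ⟨E1.pw 21, fun L _ _ m i v y₀ M q Y rho y ξ hy₀ hl₀ hM hM0 hq hrho hYs hy hc hξ => ?_⟩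
  have e0 : κ.k v ≤ E1.k v := hE1 0 L v
  have e1 : κ1.k v ≤ E1.k v := hE1 1 L v
  have e2 : κ2.k v ≤ E1.k v := hE1 2 L v
  have e3 : κ3.k v ≤ E1.k v := hE1 3 L v
  have e4 : κ4.k v ≤ E1.k v := hE1 4 L v
  have e6 : κ6.k v ≤ E1.k v := hE1 5 L v
  have e7 : κ7.k v ≤ E1.k v := hE1 6 L v
  have hE : (1 : ℝ) ≤ E1.k v := E1.one_le v
  have hEp : E1.k v ^ 21 ≤ (E1.pw 21).k v := E1.pow_le 21 v
  set ee := E1.k v with hee
  set E := (E1.pw 21).k v with hEE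
  have he0 : 0 < ee := one_pos.trans_le hE
  have hpw : ∀ k, k ≤ 21 → ee ^ k ≤ E := fun k hk => (pow_le_pow_right₀ hE hk).trans hEp
  have hE0 : 0 < E := (pow_pos he0 21).trans_le hEp
  have hcst : cst v 2 ≤ ee := (h4 L v).trans e4
  have hcst1 : 1 ≤ cst v 2 := one_le_cst v (by norm_num)
  obtain ⟨hV1, hγ1, a, ha⟩ := h3 L v y₀ M q hy₀ hl₀ hM hM0 hq
  have hy00 : y₀ ≠ 0 := by
    intro h
    rw [h] at hl₀
    unfold lf at hl₀
    simp at hl₀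
  have hV : 0 < vm v y₀ := vm_pos v hy00
  have hW : 0 < vm v M := vm_pos v hM0
  obtain ⟨γ, hγ, hγs⟩ := ht.s2_zero (L := L) hy₀ hy00
  obtain ⟨c', hc'⟩ := exists_vm v y₀
  set V := vm v y₀ with hVdef
  set W := vm v M with hWdef
  set f₀ := v (lf (nd.l 0) (A.col a y₀ M)) with hf₀
  set mqv := mq v q with hmqv
  have hmq1 : 1 ≤ mqv := one_le_mq v q
  have hmq0 : 0 < mqv := one_pos.trans_le hmq1
  have hV1' : 1 ≤ ee * V := hV1.trans (mul_le_mul_of_nonneg_right e3 hV.le)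
  have hγ1' : 1 ≤ ee * v γ := (hγ1 γ hγs).trans (mul_le_mul_of_nonneg_right e3 (v.nonneg _))
  have ha' : V ^ 2 * W ^ 2 ≤ ee * mqv * f₀ :=
    ha.trans (mul_le_mul_of_nonneg_right (mul_le_mul_of_nonneg_right e3 hmq0.le) (v.nonneg _))
  obtain ⟨hρ0, hρ⟩ := la_arith hE hV hW (v.nonneg _) (v.nonneg γ) hmq1 hγ1' ha'
  set ρ := v γ ^ 2 * V ^ 2 * f₀ with hρdef
  set Y2 : Fin (N + 1) → D2 L (Fin m × Fin n) := fun b => tA K L (Fin m × Fin n) (Y b) with hY2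
  set Zu : Fin (N + 1) → D2 L (Fin m × Fin n) := fun b => subZ K L i (Z b) with hZu
  set T : Fin (N + 1) → D2 L (Fin m × Fin n) := fun b => A.s2 Y2 Zu b c' with hT
  set κ₀ : ℝ := ee⁻¹ with hκ₀
  have hκ₀0 : 0 < κ₀ := inv_pos.2 he0
  -- sizes of the series
  have hSN : ∀ N₁ N₂ : ℕ, SN v (fun f : D2 L (Fin m × Fin n) => n2 v rho κ₀ N₁ N₂ f) :=
    fun N₁ N₂ => SN_n2 v hrho hκ₀0.le N₁ N₂
  have sY : ∀ b N₁ N₂, n2 v rho κ₀ N₁ N₂ (Y2 b) ≤ ee ^ 2 * V := by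
    intro b N₁ N₂
    rw [hY2]
    simp only []
    rw [tA_apply, n2_C v hrho, n1_map_C]
    have hdec : Y b = PowerSeries.C (y₀ b) + (Y b - PowerSeries.C (y₀ b)) := by ring
    have hSNP : SN v (fun f : PowerSeries L => PN v rho N₁ f) := SN_PN v hrho N₁
    have hB : 0 ≤ ee * V := (mul_pos he0 hV).le
    have h6 : PN v rho N₁ (PowerSeries.C (y₀ b)) ≤ ee * V := by
      have h7 := hSNP.map (y₀ b)
      refine h7.trans ((le_vm v y₀ b).trans ?_)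
      exact le_mul_of_one_le_left hV.le hE
    have h7 : PN v rho N₁ (Y b - PowerSeries.C (y₀ b)) ≤ ee * V := (hYs b N₁).trans hV1'
    rw [hdec]
    refine (SN_add_cst hSNP hB h6 h7).trans ?_
    calc cst v 2 * (ee * V) ≤ ee * (ee * V) := mul_le_mul_of_nonneg_right hcst hB
      _ = ee ^ 2 * V := by ring
  have hK0 : κ₀ * (cst v (2 ^ n) * κZ.k v * cst v 2) ≤ 1 := by
    have h6 : cst v (2 ^ n) * κZ.k v * cst v 2 ≤ ee := by
      refine le_trans ?_ e6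
      refine le_trans ?_ (SC.mul_le (κ5.mul κZ) κ4 v)
      refine mul_le_mul ?_ (h4 L v) (cst_nonneg v 2) (SC.pos _ v).le
      exact (mul_le_mul_of_nonneg_right (h5 L v) (κZ.pos v).le).trans (SC.mul_le κ5 κZ v)
    rw [hκ₀, inv_mul_le_iff₀ he0, mul_one]
    exact h6
  have sZ : ∀ b N₁ N₂, n2 v rho κ₀ N₁ N₂ (Zu b) ≤ ee := by
    intro b N₁ N₂
    refine (subZ_size (Z b) κZ v (fun α => hZs L v α b) i hrho hκ₀0.le hK0 N₁ N₂).trans ?_
    refine le_trans ?_ e7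
    exact (mul_le_mul_of_nonneg_right (h4 L v) (κZ.pos v).le).trans (SC.mul_le κ4 κZ v)
  have sT : ∀ b N₁ N₂, n2 v rho κ₀ N₁ N₂ (T b) ≤ ee ^ 7 * V ^ 2 := by
    intro b N₁ N₂
    refine (h2 L v _ _ (hSN N₁ N₂) Y2 Zu _ _ (fun b => sY b N₁ N₂) (fun b => sZ b N₁ N₂)
      b c').trans ?_
    calc κ2.k v * ((ee ^ 2 * V) ^ 2 * ee ^ 2) ≤ ee * ((ee ^ 2 * V) ^ 2 * ee ^ 2) :=
          mul_le_mul_of_nonneg_right e2 (by positivity)
      _ = ee ^ 7 * V ^ 2 := by ring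
  set M2 : Fin (N + 1) → D2 L (Fin m × Fin n) := c2 L (Fin m × Fin n) M with hM2
  have sM : ∀ b N₁ N₂, n2 v rho κ₀ N₁ N₂ (M2 b) ≤ W := by
    intro b N₁ N₂
    rw [hM2]
    unfold c2
    rw [n2_algebraMap v hrho]
    exact le_vm v M b
  have sC : ∀ b N₁ N₂, n2 v rho κ₀ N₁ N₂ (A.col a T M2 b) ≤ ee ^ 15 * (V ^ 4 * W ^ 2) := by
    intro b N₁ N₂
    refine (h2 L v _ _ (hSN N₁ N₂) T M2 _ _ (fun b => sT b N₁ N₂) (fun b => sM b N₁ N₂)
      a b).trans ?_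
    calc κ2.k v * ((ee ^ 7 * V ^ 2) ^ 2 * W ^ 2) ≤ ee * ((ee ^ 7 * V ^ 2) ^ 2 * W ^ 2) :=
          mul_le_mul_of_nonneg_right e2 (by positivity)
      _ = ee ^ 15 * (V ^ 4 * W ^ 2) := by ring
  have sR : ∀ k N₁ N₂, n2 v rho κ₀ N₁ N₂ (lf (nd.l k) (A.col a T M2)) ≤
      ee ^ 16 * (V ^ 4 * W ^ 2) := by
    intro k N₁ N₂
    refine (h1 L v _ _ (hSN N₁ N₂) _ _ (fun b => sC b N₁ N₂) k).trans ?_
    calc κ1.k v * (ee ^ 15 * (V ^ 4 * W ^ 2)) ≤ ee * (ee ^ 15 * (V ^ 4 * W ^ 2)) :=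
          mul_le_mul_of_nonneg_right e1 (by positivity)
      _ = ee ^ 16 * (V ^ 4 * W ^ 2) := by ring
  have sD : ∀ N₁ N₂, n2 v rho κ₀ N₁ N₂ (lf (nd.l 0) T) ≤ ee ^ 8 * V ^ 2 := by
    intro N₁ N₂
    refine (h1 L v _ _ (hSN N₁ N₂) _ _ (fun b => sT b N₁ N₂) 0).trans ?_
    calc κ1.k v * (ee ^ 7 * V ^ 2) ≤ ee * (ee ^ 7 * V ^ 2) :=
          mul_le_mul_of_nonneg_right e1 (by positivity)
      _ = ee ^ 8 * V ^ 2 := by ring
  -- constant terms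
  have cT : ∀ b, c00 (T b) = C (γ * y₀ c' * y₀ b) := by
    intro b
    rw [hT]
    simp only []
    rw [hc γ hγs]
    congr 1
    ring
  have cD : c00 (lf (nd.l 0) T) = C (γ * y₀ c') := by
    rw [← cA2_eq_c00 K, map_lf]
    have h6 : (fun a => cA2 K L (Fin m × Fin n) (T a)) = fun a =>
        IsScalarTower.toAlgHom K L (MvPolynomial (Fin m × Fin n) L) (γ * y₀ c' * y₀ a) := by
      funext b
      rw [cA2_eq_c00, cT]
      rfl
    rw [h6, ← map_lf, lf_smul, hl₀, mul_one]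
    rfl
  have cR : c00 (lf (nd.l 0) (A.col a T M2)) =
      C ((γ * y₀ c') ^ 2 * lf (nd.l 0) (A.col a y₀ M)) := by
    rw [c00_lf_col (nd.l 0) a T (fun b => γ * y₀ c' * y₀ b) M cT, AV.col_smul, lf_smul]
  have vD : v (γ * y₀ c') = v γ * V := by
    rw [map_mul, hc']
  have vR : v ((γ * y₀ c') ^ 2 * lf (nd.l 0) (A.col a y₀ M)) = ρ := by
    rw [map_mul, map_pow, vD, hρdef]
    ring
  have hγ0 : 0 < v γ := (v.pos_iff).2 hγ
  -- units
  have hR0 : (γ * y₀ c') ^ 2 * lf (nd.l 0) (A.col a y₀ M) ≠ 0 := by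
    rw [← v.pos_iff, vR]
    exact hρ0
  obtain ⟨g, hg⟩ := (isUnit_D2 _ hR0 cR).exists_right_inv
  have hD0 : γ * y₀ c' ≠ 0 := by
    rw [← v.pos_iff, vD]
    exact mul_pos hγ0 hV
  obtain ⟨h, hh⟩ := (isUnit_D2 _ hD0 cD).exists_right_inv
  have hyT : ∀ b, y b * lf (nd.l 0) T = T b := fun b => hy c' b
  have hcolT : ∀ k, lf (nd.l k) (A.col a T M2) =
      lf (nd.l 0) T ^ 2 * lf (nd.l k) (A.col a y M2) := by
    intro k
    have h6 : T = fun b => lf (nd.l 0) T * y b := by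
      funext b
      rw [mul_comm, hyT]
    have h7 : A.col a T M2 = fun b => lf (nd.l 0) T ^ 2 * A.col a y M2 b := by
      conv_lhs => rw [h6]
      exact AV.col_smul a (lf (nd.l 0) T) y M2
    rw [h7, lf_smul]
  refine ⟨?_, ?_⟩
  · -- the chart
    intro hch r s hr hrE hs hsE b N₁ N₂
    have hVe : V ≤ ee := (vm_le v hch).trans e0
    have hyb : y b = T b * h := by
      rw [← hyT b, mul_assoc, hh, mul_one]
    set lam₁ : ℝ := (ee ^ 11)⁻¹ with hlam₁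
    have hlam0 : 0 < lam₁ := inv_pos.2 (pow_pos he0 11)
    have hlam1 : lam₁ ≤ 1 := inv_le_one_of_one_le₀ (one_le_pow₀ hE)
    have hr' : r ≤ lam₁ * rho := by
      rw [hlam₁, ← div_eq_inv_mul, le_div_iff₀ (pow_pos he0 11)]
      exact (mul_le_mul_of_nonneg_left (hpw 11 (by norm_num)) hr).trans hrE
    have hs' : s ≤ lam₁ * κ₀ := by
      rw [hlam₁, hκ₀, ← mul_inv, ← pow_succ, ← one_div, le_div_iff₀ (pow_pos he0 12)]
      exact (mul_le_mul_of_nonneg_left (hpw 12 (by norm_num)) hs).trans hsE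
    have hinv : n2 v (lam₁ * rho) (lam₁ * κ₀) N₁ N₂ h ≤ cst v 2 / v (γ * y₀ c') := by
      refine n2_inv v hrho hκ₀0.le hlam0.le hlam1 _ h hh _ cD sD ?_ N₁ N₂
      rw [vD]
      calc lam₁ * (cst v 2 * (ee ^ 8 * V ^ 2)) ≤ lam₁ * (ee * (ee ^ 8 * V ^ 2)) := by
            refine mul_le_mul_of_nonneg_left ?_ hlam0.le
            exact mul_le_mul_of_nonneg_right hcst (by positivity)
        _ = lam₁ * ee ^ 9 * V * V := by ring
        _ ≤ lam₁ * ee ^ 9 * V * ee := mul_le_mul_of_nonneg_left hVe (by positivity)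
        _ = lam₁ * ee ^ 10 * V * 1 := by ring
        _ ≤ lam₁ * ee ^ 10 * V * (ee * v γ) := mul_le_mul_of_nonneg_left hγ1' (by positivity)
        _ = (lam₁ * ee ^ 11) * (v γ * V) := by ring
        _ = v γ * V := by
            rw [hlam₁, inv_mul_cancel₀ (pow_pos he0 11).ne', one_mul]
    have hlr : lam₁ * rho ≤ rho := mul_le_of_le_one_left hrho hlam1
    have hlk : lam₁ * κ₀ ≤ κ₀ := mul_le_of_le_one_left hκ₀0.le hlam1
    have hT' : n2 v (lam₁ * rho) (lam₁ * κ₀) N₁ N₂ (T b) ≤ ee ^ 7 * V ^ 2 :=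
      (n2_mono v (mul_nonneg hlam0.le hrho) hlr (mul_nonneg hlam0.le hκ₀0.le) hlk N₁ N₂ _).trans
        (sT b N₁ N₂)
    have hSN' : SN v (fun f : D2 L (Fin m × Fin n) => n2 v (lam₁ * rho) (lam₁ * κ₀) N₁ N₂ f) :=
      SN_n2 v (mul_nonneg hlam0.le hrho) (mul_nonneg hlam0.le hκ₀0.le) N₁ N₂
    rw [hyb]
    refine (n2_mono v hr hr' hs hs' N₁ N₂ _).trans ?_
    refine (hSN'.mul _ _).trans ?_
    refine (mul_le_mul hT' hinv (hSN'.nonneg _) (by positivity)).trans ?_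
    rw [vD]
    have h8 : ee ^ 7 * V ^ 2 * (cst v 2 / (v γ * V)) ≤ ee ^ 10 := by
      rw [mul_div_assoc', div_le_iff₀ (mul_pos hγ0 hV)]
      calc ee ^ 7 * V ^ 2 * cst v 2 ≤ ee ^ 7 * V ^ 2 * ee :=
            mul_le_mul_of_nonneg_left hcst (by positivity)
        _ = ee ^ 8 * V * V := by ring
        _ ≤ ee ^ 8 * V * ee := mul_le_mul_of_nonneg_left hVe (by positivity)
        _ = ee ^ 9 * V * 1 := by ring
        _ ≤ ee ^ 9 * V * (ee * v γ) := mul_le_mul_of_nonneg_left hγ1' (by positivity)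
        _ = ee ^ 10 * (v γ * V) := by ring
    exact h8.trans (hpw 10 (by norm_num))
  · -- the difference
    intro lam hlam hlamE r hr hrl
    set lam' : ℝ := lam * ee with hlam'
    have hlam'0 : 0 ≤ lam' := mul_nonneg hlam he0.le
    have hl20 : lam' * (ee ^ 20 * mqv) ≤ 1 := by
      calc lam' * (ee ^ 20 * mqv) = lam * (ee ^ 21 * mqv) := by
            rw [hlam']
            ring
        _ ≤ lam * (E * mqv) := by
            refine mul_le_mul_of_nonneg_left ?_ hlam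
            exact mul_le_mul_of_nonneg_right hEp hmq0.le
        _ ≤ 1 := hlamE
    have hlam'1 : lam' ≤ 1 := by
      refine le_trans ?_ hl20
      refine le_mul_of_one_le_right hlam'0 ?_
      exact one_le_mul_of_one_le_of_one_le (one_le_pow₀ hE) hmq1
    have hr' : r ≤ lam' * rho := by
      refine hrl.trans (mul_le_mul_of_nonneg_right ?_ hrho)
      exact le_mul_of_one_le_right hlam hE
    have hk' : lam = lam' * κ₀ := by
      rw [hlam', hκ₀, mul_assoc, mul_inv_cancel₀ he0.ne', mul_one]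
    have hlr : lam' * rho ≤ rho := mul_le_of_le_one_left hrho hlam'1
    have hlk : lam' * κ₀ ≤ κ₀ := mul_le_of_le_one_left hκ₀0.le hlam'1
    have hmono : ∀ (N₁ N₂ : ℕ) (f : D2 L (Fin m × Fin n)),
        n2 v r lam N₁ N₂ f ≤ n2 v rho κ₀ N₁ N₂ f := by
      intro N₁ N₂ f
      exact n2_mono v hr (hr'.trans hlr) hlam (hk'.le.trans hlk) N₁ N₂ f
    have hginv : ∀ N₁ N₂, n2 v r lam N₁ N₂ g ≤ ee / ρ := by
      intro N₁ N₂
      have h6 : n2 v (lam' * rho) (lam' * κ₀) N₁ N₂ g ≤ cst v 2 /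
          v ((γ * y₀ c') ^ 2 * lf (nd.l 0) (A.col a y₀ M)) := by
        refine n2_inv v hrho hκ₀0.le hlam'0 hlam'1 _ g hg _ cR (sR 0) ?_ N₁ N₂
        rw [vR]
        calc lam' * (cst v 2 * (ee ^ 16 * (V ^ 4 * W ^ 2)))
            ≤ lam' * (ee * (ee ^ 16 * (V ^ 4 * W ^ 2))) := by
              refine mul_le_mul_of_nonneg_left ?_ hlam'0
              exact mul_le_mul_of_nonneg_right hcst (by positivity)
          _ = lam' * ee ^ 17 * (V ^ 4 * W ^ 2) := by ring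
          _ ≤ lam' * ee ^ 17 * (ee ^ 3 * mqv * ρ) :=
              mul_le_mul_of_nonneg_left hρ (by positivity)
          _ = lam' * (ee ^ 20 * mqv) * ρ := by ring
          _ ≤ 1 * ρ := mul_le_mul_of_nonneg_right hl20 hρ0.le
          _ = ρ := one_mul _
      rw [vR] at h6
      refine (n2_mono v hr hr' hlam hk'.le N₁ N₂ g).trans (h6.trans ?_)
      exact div_le_div_of_nonneg_right hcst hρ0.le
    have hSN' : ∀ N₁ N₂, SN v (fun f : D2 L (Fin m × Fin n) => n2 v r lam N₁ N₂ f) :=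
      fun N₁ N₂ => SN_n2 v hr hlam N₁ N₂
    -- the inverse of `l 0` of the column
    have hd1 : lf (nd.l 0) (A.col a y M2) * (lf (nd.l 0) T ^ 2 * g) = 1 := by
      rw [← hg, hcolT 0]
      ring
    have hdξ : ∀ k : Fin n, lf (nd.l k.succ) (A.col a y M2) * (lf (nd.l 0) T ^ 2 * g) = ξ k := by
      intro k
      rw [← hξ a k, mul_assoc, hd1, mul_one]
    refine ⟨fun k N₁ N₂ => ?_, a, lf (nd.l 0) T ^ 2 * g, hd1, hdξ, fun N₁ N₂ => ?_⟩
    · have h6 : ξ k = lf (nd.l k.succ) (A.col a T M2) * g := by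
        rw [← hdξ k, hcolT]
        ring
      rw [h6]
      refine ((hSN' N₁ N₂).mul _ _).trans ?_
      refine (mul_le_mul ((hmono N₁ N₂ _).trans (sR k.succ N₁ N₂)) (hginv N₁ N₂)
        ((hSN' N₁ N₂).nonneg _) (by positivity)).trans ?_
      rw [mul_div_assoc', div_le_iff₀ hρ0]
      calc ee ^ 16 * (V ^ 4 * W ^ 2) * ee = ee ^ 17 * (V ^ 4 * W ^ 2) := by ring
        _ ≤ ee ^ 17 * (ee ^ 3 * mqv * ρ) := mul_le_mul_of_nonneg_left hρ (by positivity)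
        _ = ee ^ 20 * (mqv * ρ) := by ring
        _ ≤ E * (mqv * ρ) := mul_le_mul_of_nonneg_right (hpw 20 (by norm_num)) (by positivity)
        _ = E * mqv * ρ := by ring
    · refine ((hSN' N₁ N₂).mul _ _).trans ?_
      have h6 : n2 v r lam N₁ N₂ (lf (nd.l 0) T ^ 2) ≤ (ee ^ 8 * V ^ 2) ^ 2 := by
        refine ((hSN' N₁ N₂).pow_le _ 2).trans ?_
        exact pow_le_pow_left₀ ((hSN' N₁ N₂).nonneg _) ((hmono N₁ N₂ _).trans (sD N₁ N₂)) 2
      refine (mul_le_mul h6 (hginv N₁ N₂) ((hSN' N₁ N₂).nonneg _) (by positivity)).trans ?_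
      rw [mul_div_assoc', div_le_div_iff₀ hρ0 (pow_pos hW 2)]
      calc (ee ^ 8 * V ^ 2) ^ 2 * ee * W ^ 2 = ee ^ 17 * (V ^ 4 * W ^ 2) := by ring
        _ ≤ ee ^ 17 * (ee ^ 3 * mqv * ρ) := mul_le_mul_of_nonneg_left hρ (by positivity)
        _ = ee ^ 20 * (mqv * ρ) := by ring
        _ ≤ E * (mqv * ρ) := mul_le_mul_of_nonneg_right (hpw 20 (by norm_num)) (by positivity)
        _ = E * mqv * ρ := by ring

end Pool.Agent.Lib.MP_17a322_nt.VA
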