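import Pool.Agent.Lib.MP_17a322_nt.VA.LA6a
import Pool.Agent.Lib.MP_17a322_nt.VA.LA4c
import Pool.Agent.Lib.MP_17a322_nt.VA.LA3b

/-!
VA, part LA: the path, its translate and the difference, for one block (given the formal point at the
origin).
-/

universe u

namespace Pool.Agent.Lib.MP_17a322_nt.VA

open MvPolynomial Height
open Pool.Agent.Lib.MP_17a322_nt.RO
open Pool.Agent.Lib.MP_17a322_nt.VJ
open Pool.Agent.Lib.MP_17a322_nt.VN

theorem exists_block_of {K : Type u} [Field K] {N : ℕ} (A : AV K N) {n e c : ℕ}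
    (nd : Noe A n e) (rr : Fin c → Fin n) (hrr : Function.Injective rr) (o : Fin (N + 1) → K)
    (t : Fin n → Fin (N + 1) → K) (ht : A.Frame o t) (κ : SC K) (D : ℕ)
    (Z : Fin (N + 1) → MvPowerSeries (Fin n) K) (κZ : SC K) (hZ : A.IsPt Z)
    (hZ0 : ∀ b, MvPowerSeries.constantCoeff (Z b) = o b)
    (hZ1 : ∀ b a, MvPowerSeries.coeff (Finsupp.single a 1) (Z b) = t a b)
    (hZs : ∀ (L : Type u) [Field L] [Algebra K L] (v : AbsoluteValue L ℝ) (α : Fin n →₀ ℕ)
        (b : Fin (N + 1)),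
        v (algebraMap K L (MvPowerSeries.coeff α (Z b))) ≤ κZ.k v ^ (α.degree + 1)) :
    ∃ (E : SC K) (c₀ : ℕ), ∀ (P : A.Pts K) (q' : Fin c → MvPolynomial (Fin n) K)
      (Mx : Matrix (Fin n) (Fin n) K), nd.Good P → IsEq nd rr D P q' → nd.IsDS o t P Mx →
      ∀ (L : Type u) [Field L] [Algebra K L] {m : ℕ} (i : Fin m) (w : ℕ) (ζ : Fin n → L)
        (M : Fin (N + 1) → L) (q : Fin n → L) (hw : 0 < w),
        (∀ a, ∃ k, 0 < k ∧ ζ a ^ k = 1) → A.IsPt M → M ≠ 0 →
        (∃ a, lf (nd.l 0) (A.col a (fun b => algebraMap K L (nd.y P b)) M) ≠ 0) →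
        (∀ (a : Fin (N + 1)) (k : Fin n),
          lf (nd.l k.succ) (A.col a (fun b => algebraMap K L (nd.y P b)) M) =
            q k * lf (nd.l 0) (A.col a (fun b => algebraMap K L (nd.y P b)) M)) →
        ∃ (y : Fin (N + 1) → D2 L (Fin m × Fin n)) (ξ : Fin n → D2 L (Fin m × Fin n)),
          A.IsPt y ∧ lf (nd.l 0) y = 1 ∧ (∀ b, HS i (y b)) ∧ (∀ k, HS i (ξ k)) ∧
          (∀ b, PowerSeries.constantCoeff (PowerSeries.constantCoeff (y b)) =
            C (algebraMap K L (nd.y P b))) ∧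
          (∀ k, k ∉ Set.range rr → PowerSeries.constantCoeff (lf (nd.l k.succ) y) =
            PowerSeries.C (C (algebraMap K L (nd.s P k))) +
              PowerSeries.C (C (ζ k)) * PowerSeries.X ^ w) ∧
          (∀ b, aeval (fun k : Fin n => PowerSeries.constantCoeff (lf (nd.l k.succ) y))
            (q' b) = 0) ∧
          (∀ b, IsUnit (aeval (fun k : Fin n => PowerSeries.constantCoeff (lf (nd.l k.succ) y))
            (pderiv (rr b) (q' b)))) ∧
          (∀ k, PowerSeries.constantCoeff (PowerSeries.coeff 1 (lf (nd.l k.succ) y)) =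
            ∑ a, C (algebraMap K L (Mx k a)) * X (i, a)) ∧
          (∀ (a : Fin (N + 1)) (k : Fin n), ξ k * lf (nd.l 0) (A.col a y (c2 L _ M)) =
            lf (nd.l k.succ) (A.col a y (c2 L _ M))) ∧
          (∀ k, PowerSeries.constantCoeff (PowerSeries.constantCoeff (ξ k)) = C (q k)) ∧
          (∀ b, y b ∈ Set.range (Exp L (Fin m × Fin n) w hw.ne')) ∧
          ∀ v : AbsoluteValue L ℝ, (0 < rad nd rr E c₀ P q' v ∧ rad nd rr E c₀ P q' v ≤ 1) ∧
            PKG nd κ E w v (fun b => algebraMap K L (nd.y P b)) M q y ξ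
              (rad nd rr E c₀ P q' v) := by
  classical
  obtain ⟨E1, c₀, hpath⟩ := exists_path nd rr hrr D
  obtain ⟨E2, hsize⟩ := block_sizes nd ht κ κZ Z hZs
  refine ⟨E1.mul E2, c₀, fun P q' Mx hP hq hMx L _ _ m i w ζ M q hw hζ hM hM0 hq0 hqr => ?_⟩
  obtain ⟨hrad, Y, hY1, hY2, hY3, hY4, hY5, hY6⟩ := hpath P q' hP hq L ζ hζ
  obtain ⟨hy1, hy2, hy3⟩ := nd.y_facts P hP.1 L
  set y₀ : Fin (N + 1) → L := fun b => algebraMap K L (nd.y P b) with hy₀
  obtain ⟨y, hyp, hyl, hyH, hyz, hyc, hyrel, hcS⟩ :=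
    formal_translate ht nd Z hZ hZ0 L i y₀ hy1 hy2 Y hY1 hY2 hY3
  obtain ⟨ξ, hξH, hξ, hξc⟩ := exists_xi nd i y hyp hyH y₀ hyc M hM q hq0 hqr
  set φ : D2 L (Fin m × Fin n) →ₐ[K] D2 L (Fin m × Fin n) :=
    expA K L (Fin m × Fin n) w hw.ne' with hφ
  have hφE : ∀ f, φ f = Exp L (Fin m × Fin n) w hw.ne' f := fun f => rfl
  -- the value at `z = 0`
  have hlz : ∀ l : Fin (N + 1) → K, PowerSeries.constantCoeff (lf l fun b => φ (y b)) =
      PowerSeries.expand w hw.ne' (PowerSeries.map (C : L →+* MvPolynomial (Fin m × Fin n) L)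
        (lf l Y)) := by
    intro l
    rw [← map_lf, hφE, la_Exp_cc]
    congr 1
    have h1 := map_lf l (zA K L (Fin m × Fin n)) y
    have h2 := map_lf l (t1A K L (Fin m × Fin n)) Y
    rw [zA_apply] at h1
    rw [t1A_apply] at h2
    rw [h1, h2]
    congr 1
    funext b
    rw [zA_apply, hyz, t1A_apply]
  -- the homomorphism `series in T over L` to `series in T ^ w over L[u]`
  set ψ : PowerSeries L →ₐ[K] D1 L (Fin m × Fin n) :=
    ((zA K L (Fin m × Fin n)).comp φ).comp (tA K L (Fin m × Fin n)) with hψ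
  have hψa : ∀ f : PowerSeries L, ψ f = PowerSeries.expand w hw.ne'
      (PowerSeries.map (C : L →+* MvPolynomial (Fin m × Fin n) L) f) := by
    intro f
    rw [hψ, AlgHom.comp_apply, AlgHom.comp_apply, zA_apply, hφE, tA_apply, la_Exp_C,
      PowerSeries.constantCoeff_C]
  have hlz' : (fun k : Fin n => PowerSeries.constantCoeff (lf (nd.l k.succ) fun b => φ (y b))) =
      fun k : Fin n => ψ (lf (nd.l k.succ) Y) := by
    funext k
    rw [hlz, hψa]
  have haev : ∀ F : MvPolynomial (Fin n) K,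
      aeval (fun k : Fin n => PowerSeries.constantCoeff (lf (nd.l k.succ) fun b => φ (y b))) F =
        ψ (aeval (fun k : Fin n => lf (nd.l k.succ) Y) F) := by
    intro F
    rw [hlz']
    exact (MvPolynomial.comp_aeval_apply (R := K) (fun k : Fin n => lf (nd.l k.succ) Y) ψ F).symm
  have hcol : ∀ (l : Fin (N + 1) → K) (a : Fin (N + 1)),
      lf l (A.col a (fun b => φ (y b)) (c2 L (Fin m × Fin n) M)) =
        φ (lf l (A.col a y (c2 L (Fin m × Fin n) M))) := by
    intro l a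
    rw [map_lf]
    congr 1
    funext b
    rw [AV.map_col]
    have h1 : (fun i => φ (c2 L (Fin m × Fin n) M i)) = c2 L (Fin m × Fin n) M := by
      funext i
      unfold c2
      rw [hφE, la_Exp_const]
    rw [h1]
  refine ⟨fun b => φ (y b), fun k => φ (ξ k), hyp.map φ, ?_, fun b => (hyH b).Exp hw.ne',
    fun k => (hξH k).Exp hw.ne', ?_, ?_, ?_, ?_, ?_, ?_, ?_, fun b => ⟨y b, rfl⟩, ?_⟩
  · rw [← map_lf, hyl, map_one]
  · intro b
    have h1 := la_c00_Exp hw.ne' (y b)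
    rw [hyc] at h1
    exact h1
  · intro k hk
    rw [hlz, hY4 k hk, map_add, map_mul, PowerSeries.map_C, PowerSeries.map_C, PowerSeries.map_X,
      map_add, map_mul, PowerSeries.expand_C, PowerSeries.expand_C, PowerSeries.expand_X]
  · intro b
    rw [haev, hY5, map_zero]
  · intro b
    rw [haev]
    refine IsUnit.map ψ ?_
    rw [PowerSeries.isUnit_iff_constantCoeff]
    have h1 : PowerSeries.constantCoeff (aeval (fun k : Fin n => lf (nd.l k.succ) Y)
        (pderiv (rr b) (q' b))) = algebraMap K L (eval (nd.s P) (pderiv (rr b) (q' b))) := by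
      have h2 := MvPolynomial.comp_aeval_apply (R := K) (fun k : Fin n => lf (nd.l k.succ) Y)
        (cA K L) (pderiv (rr b) (q' b))
      have h3 : (fun k : Fin n => cA K L (lf (nd.l k.succ) Y)) =
          fun k : Fin n => algebraMap K L (nd.s P k) := by
        funext k
        rw [map_lf]
        have h4 : (fun a => cA K L (Y a)) = y₀ := funext hY3
        rw [h4, hy3]
      rw [h3] at h2
      have h5 := aeval_algMap (K := K) (L := K) (R := L) (nd.s P) (pderiv (rr b) (q' b))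
      rw [h5] at h2
      exact h2
    rw [h1]
    exact (isUnit_iff_ne_zero.2 fun h => (hq b).2.2.2 ((map_eq_zero _).1 h))
  · intro k
    rw [← map_lf, hφE, la_Exp_coeff, la_expand_cc]
    exact first_order ht nd Z hZ0 hZ1 P hP.1 Mx hMx L i Y hY3 y hyH hyrel k
  · intro a k
    rw [hcol, hcol, ← map_mul, hξ]
  · intro k
    have h1 := la_c00_Exp hw.ne' (ξ k)
    rw [hξc] at h1
    exact h1
  · intro v
    have hE1 : E1.k v ≤ (E1.mul E2).k v := SC.le_mul_left E1 E2 v
    have hE2 : E2.k v ≤ (E1.mul E2).k v := SC.le_mul_right E1 E2 v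
    obtain ⟨hr0, hr1⟩ := rad_mono nd rr (E := E1) (E' := E1.mul E2) c₀ D P q' hP hq v hE1
    set rho := rad nd rr (E1.mul E2) c₀ P q' v with hrho
    set EE := (E1.mul E2).k v with hEE
    have hYs : ∀ b s, PN v rho s (Y b - PowerSeries.C (y₀ b)) ≤ 1 := fun b s =>
      hY6 v rho hr0.le hr1 b s
    obtain ⟨hA, hB⟩ := hsize L i v y₀ M q Y rho y ξ hy1 hy2 hM hM0 hqr hr0.le hYs hyrel hcS hξ
    refine ⟨⟨hr0, hr1.trans (hrad v).2⟩, ?_, ?_⟩
    · intro hch r s hr hrE hs hsE b N₁ N₂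
      have hrw : 0 ≤ r ^ w := pow_nonneg hr w
      refine (n2_Exp v hr hs hw.ne' N₁ N₂ (y b)).trans ?_
      refine (hA hch (r ^ w) s hrw ?_ hs ?_ b N₁ N₂).trans hE2
      · exact (mul_le_mul_of_nonneg_left hE2 hrw).trans hrE
      · exact (mul_le_mul_of_nonneg_left hE2 hs).trans hsE
    · intro lam hlam hlamE r hr hrl
      have hrw : 0 ≤ r ^ w := pow_nonneg hr w
      have hmq : 0 < mq v q := mq_pos v q
      obtain ⟨hB1, a, d, hd1, hd2, hd3⟩ := hB lam hlam ((mul_le_mul_of_nonneg_left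
        (mul_le_mul_of_nonneg_right hE2 hmq.le) hlam).trans hlamE) (r ^ w) hrw hrl
      refine ⟨fun k N₁ N₂ => ?_, fun _ => ⟨a, φ d, ?_, fun k => ?_, fun N₁ N₂ => ?_⟩⟩
      · refine (n2_Exp v hr hlam hw.ne' N₁ N₂ (ξ k)).trans ((hB1 k N₁ N₂).trans ?_)
        exact mul_le_mul_of_nonneg_right hE2 hmq.le
      · rw [hcol, ← map_mul, hd1, map_one]
      · rw [hcol, ← map_mul, hd2]
      · refine (n2_Exp v hr hlam hw.ne' N₁ N₂ d).trans ((hd3 N₁ N₂).trans ?_)
        exact div_le_div_of_nonneg_right (mul_le_mul_of_nonneg_right hE2 hmq.le)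
          (pow_nonneg (vm_nonneg v M) 2)

end Pool.Agent.Lib.MP_17a322_nt.VA
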