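import Pool.Agent.Lib.MP_17a322_nt.VA.LA5b

/-!
VA, part LA: the substitution `T ↦ T ^ w` and the radius.
-/

universe u

namespace Pool.Agent.Lib.MP_17a322_nt.VA

open MvPolynomial Height
open Pool.Agent.Lib.MP_17a322_nt.RO
open Pool.Agent.Lib.MP_17a322_nt.VJ
open Pool.Agent.Lib.MP_17a322_nt.VN

section

variable {L : Type*} [Field L] {τ : Type*} {w : ℕ} (hw : w ≠ 0)

theorem la_Exp_coeff (f : D2 L τ) (k : ℕ) :
    PowerSeries.coeff k (Exp L τ w hw f) = PowerSeries.expand w hw (PowerSeries.coeff k f) := by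
  unfold Exp
  rw [PowerSeries.coeff_map]
  rfl

theorem la_Exp_cc (f : D2 L τ) :
    PowerSeries.constantCoeff (Exp L τ w hw f) =
      PowerSeries.expand w hw (PowerSeries.constantCoeff f) := by
  rw [← PowerSeries.coeff_zero_eq_constantCoeff_apply, la_Exp_coeff,
    PowerSeries.coeff_zero_eq_constantCoeff_apply]

theorem la_Exp_C (f : D1 L τ) :
    Exp L τ w hw (PowerSeries.C f) = PowerSeries.C (PowerSeries.expand w hw f) := by
  unfold Exp
  rw [PowerSeries.map_C]
  rfl

theorem la_expand_cc (f : D1 L τ) :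
    PowerSeries.constantCoeff (PowerSeries.expand w hw f) = PowerSeries.constantCoeff f := by
  rw [← PowerSeries.coeff_zero_eq_constantCoeff_apply, PowerSeries.coeff_expand]
  simp

theorem la_c00_Exp (f : D2 L τ) : c00 (Exp L τ w hw f) = c00 f := by
  show PowerSeries.constantCoeff (PowerSeries.constantCoeff (Exp L τ w hw f)) =
    PowerSeries.constantCoeff (PowerSeries.constantCoeff f)
  rw [la_Exp_cc, la_expand_cc]

theorem la_Exp_const (a : L) : Exp L τ w hw (algebraMap L (D2 L τ) a) = algebraMap L (D2 L τ) a := by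
  rw [algebraMap_D2, la_Exp_C, PowerSeries.expand_C]

theorem HS.Exp {m n : ℕ} {i : Fin m} {f : D2 L (Fin m × Fin n)} (hf : HS i f) :
    HS i (Exp L (Fin m × Fin n) w hw f) := by
  intro k l u hu
  rw [la_Exp_coeff, PowerSeries.coeff_expand] at hu
  split_ifs at hu with h
  · exact hf k (l / w) u hu
  · rw [coeff_zero] at hu
    exact absurd rfl hu

variable (K : Type*) [Field K] [Algebra K L]

/-- The substitution `T ↦ T ^ w` as a homomorphism of `K`-algebras. -/
noncomputable def expA (L : Type*) [Field L] [Algebra K L] (τ : Type*) (w : ℕ) (hw : w ≠ 0) :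
    D2 L τ →ₐ[K] D2 L τ :=
  { Exp L τ w hw with
    commutes' := fun a => by
      show Exp L τ w hw (algebraMap K (D2 L τ) a) = algebraMap K (D2 L τ) a
      rw [IsScalarTower.algebraMap_apply K L (D2 L τ), la_Exp_const] }

theorem expA_apply (f : D2 L τ) : expA K L τ w hw f = Exp L τ w hw f := rfl

end

section

variable {K : Type u} [Field K] {N : ℕ} {A : AV K N} {n e c : ℕ}

/-- The radius is positive and decreasing in the size constant. -/
theorem rad_mono (nd : Noe A n e) (rr : Fin c → Fin n) {E E' : SC K} (c₀ D : ℕ) (P : A.Pts K)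
    (q' : Fin c → MvPolynomial (Fin n) K) (hP : nd.Good P) (hq : IsEq nd rr D P q') {L : Type u}
    [Field L] [Algebra K L] (v : AbsoluteValue L ℝ) (hE : E.k v ≤ E'.k v) :
    0 < rad nd rr E' c₀ P q' v ∧ rad nd rr E' c₀ P q' v ≤ rad nd rr E c₀ P q' v := by
  have hδ : algebraMap K L (eval (nd.s P) nd.δ) ≠ 0 := by
    intro h
    apply hP.2
    rw [map_eq_zero] at h
    rw [aeval_def, Algebra.algebraMap_self, eval₂_id]
    exact h
  have hδ' : 0 < v (algebraMap K L (eval (nd.s P) nd.δ)) := v.pos hδ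
  have hd : ∀ b, 0 < v (algebraMap K L (eval (nd.s P) (pderiv (rr b) (q' b)))) := by
    intro b
    refine v.pos ?_
    intro h
    rw [map_eq_zero] at h
    exact (hq b).2.2.2 h
  have hq0 : ∀ b, q' b ≠ 0 := by
    intro b h
    apply (hq b).2.2.2
    rw [h, map_zero, map_zero]
  have hN : ∀ b, 0 < NV v (MvPolynomial.map (algebraMap K L) (q' b)) := by
    intro b
    refine NV_pos v fun h => hq0 b ?_
    exact MvPolynomial.map_injective _ (algebraMap K L).injective (h.trans (map_zero _).symm)
  set μ : ℝ := mq v (fun b => algebraMap K L (nd.y P b)) ^ c₀ with hμ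
  have hμ0 : 0 < μ := pow_pos (mq_pos v _) _
  have hX : 0 < E.k v * μ := mul_pos (E.pos v) hμ0
  have hX' : 0 < E'.k v * μ := mul_pos (E'.pos v) hμ0
  have hXX : E.k v * μ ≤ E'.k v * μ := mul_le_mul_of_nonneg_right hE hμ0.le
  unfold rad
  constructor
  · refine mul_pos (pow_pos (div_pos hδ' hX') _) (Finset.prod_pos fun b _ => pow_pos ?_ _)
    exact div_pos (hd b) (mul_pos (hN b) hX')
  · refine mul_le_mul ?_ ?_ (Finset.prod_nonneg fun b _ => pow_nonneg ?_ _) ?_
    · exact pow_le_pow_left₀ (div_pos hδ' hX').le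
        (div_le_div_of_nonneg_left hδ'.le hX hXX) _
    · refine Finset.prod_le_prod (fun b _ => pow_nonneg ?_ _) fun b _ => ?_
      · exact (div_pos (hd b) (mul_pos (hN b) hX')).le
      · refine pow_le_pow_left₀ (div_pos (hd b) (mul_pos (hN b) hX')).le ?_ _
        exact div_le_div_of_nonneg_left (hd b).le (mul_pos (hN b) hX)
          (mul_le_mul_of_nonneg_left hXX (hN b).le)
    · exact (div_pos (hd b) (mul_pos (hN b) hX')).le
    · exact pow_nonneg (div_pos hδ' hX).le _

end

end Pool.Agent.Lib.MP_17a322_nt.VA
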