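import Pool.Agent.Lib.MP_17a322_nt.VA.L0
import Pool.Agent.Lib.MP_17a322_nt.VA.A5
import Pool.Agent.Lib.MP_17a322_nt.VN.BC

/-!
# JOB LAgn: the gain over an extension field

Complete proof.
(1) `gs_bc_fin`: the proof of `gs_bc` in VN/BC.lean VERBATIM, with the hypothesis `hn` only for the absolute values of
finite places (there it is used only for them: `BC_finsum`, `BC_FS`, `BC_gs`, `ldg_pos`, `BC_mk`, `BC_adic`; the
theorems `BC_*` are public in VN/BC.lean; copy the proof of `gs_bc`, lines 184-192 of that file). The additional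
information `IsNonarchimedean` for both: the absolute value of a finite place is nonarchimedean (find the lemma: it
is a part of the instance `AdmissibleAbsValues` of a number field: `AdmissibleAbsValues.isNonarchimedean`, or
`NumberField.FinitePlace.add_le`, or `IsDedekindDomain.HeightOneSpectrum` adic valuations).
(2) `gn_le`: apply `gs_bc_fin` to `φ v = if nd.In κ v P then - log (min 1 (max |a|_v |b|_v)) else 0` (this is
`nd.gn κ P a b = gs φ` by definition) and `φ' w` = the function in the conclusion.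
* `nd.In κ v P ↔ ∀ i, v (nd.y P i) ≤ κ.k v`: `nd.y P i = A.x P i / lf (nd.l 0) (A.x P)`, `map_div₀`, `div_le_iff₀`.
* Archimedean places: `(InfinitePlace.mk ψ).val (algebraMap K L x) = (InfinitePlace.mk (ψ.comp _)).val x` (`A7_apply`,
 VJ/A7), and `κ.k` (VA/Defs: `(cst v (M + 1) * ∏ a ∈ T, max 1 (v (algebraMap K L a))) ^ (M + 1)`) is the same for both:
 both are archimedean (`A7_not_nonarch`, VJ/A7), `unfold SC.k cst`, `Algebra.algebraMap_self_apply` for `K` over `K`.
* Finite places: `w (algebraMap K L x) = v x ^ n`, `0 < n`, both nonarchimedean, so `κ.k w = κ.k v ^ n`: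
 `cst = 1`, `max 1 (t ^ n) = (max 1 t) ^ n` for `0 ≤ t`, `Finset.prod_pow`. Then `w (y i) ≤ κ.k w ↔ v (y i) ≤ κ.k v`
 (`pow_le_pow_iff_left₀`), and `- log (min 1 (max (x ^ n) (y ^ n))) = n * (- log (min 1 (max x y)))` exactly as in
 VG/L1g.lean (theorem `gB_map`) or VN/BC.lean (`gn_map`).
* `FS φ`: as `BC_FS_gn` in VN/BC.lean: `φ v = 0` if `a ≠ 0` and `v a = 1` (then `1 ≤ max`, so `min 1 .. = 1`), `FS_log_abv`
 (VJ/A4); the same with `b`. (The hypothesis `hab` may be used.)
The result is even an equality.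
-/

universe u

namespace Pool.Agent.Lib.MP_17a322_nt.VA

open MvPolynomial Height NumberField
open Pool.Agent.Lib.MP_17a322_nt.RO
open Pool.Agent.Lib.MP_17a322_nt.VJ
open Pool.Agent.Lib.MP_17a322_nt.VN

/-- Base change of a sum over all places. -/
theorem gs_bc_fin {K L : Type*} [Field K] [NumberField K] [Field L] [NumberField L] [Algebra K L]
    (φ : AbsoluteValue K ℝ → ℝ) (φ' : AbsoluteValue L ℝ → ℝ) (hφ : FS φ)
    (ha : ∀ ψ : L →+* ℂ, φ' (InfinitePlace.mk ψ).val =
      φ (InfinitePlace.mk (ψ.comp (algebraMap K L))).val)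
    (hn : ∀ (v : AbsoluteValue K ℝ) (w : AbsoluteValue L ℝ) (n : ℕ), 0 < n →
      IsNonarchimedean v → IsNonarchimedean w →
      (∀ x, w (algebraMap K L x) = v x ^ n) → φ' w = n * φ v) :
    FS φ' ∧ gs φ' = Module.finrank K L * gs φ := by
  have hna : ∀ {F : Type _} [Field F] [NumberField F] (v : IsDedekindDomain.HeightOneSpectrum (𝓞 F)),
      IsNonarchimedean (FinitePlace.mk v).val := by
    intro F _ _ v
    exact AdmissibleAbsValues.isNonarchimedean _ (FinitePlace.mk v).isFinitePlace
  have hna' : ∀ (v : IsDedekindDomain.HeightOneSpectrum (𝓞 L)),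
      IsNonarchimedean (FinitePlace.mk v).val := fun v =>
    AdmissibleAbsValues.isNonarchimedean _ (FinitePlace.mk v).isFinitePlace
  have h1 := BC_finsum (K := K) (L := L) (fun v => φ (FinitePlace.mk v).val)
    (fun w => φ' (FinitePlace.mk w).val) ((BC_FS φ).1 hφ) (fun w => by
      have hl : w.asIdeal.LiesOver (w.under (𝓞 K)).asIdeal := ⟨rfl⟩
      refine hn _ _ _ (ldg_pos (w.under (𝓞 K)) w) (hna _) (hna' _) fun x => ?_
      rw [BC_mk, BC_mk, BC_adic (w.under (𝓞 K)) w])
  refine ⟨(BC_FS φ').2 h1.1, ?_⟩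
  rw [BC_gs, BC_gs, A7_arch φ φ' ha, h1.2]
  ring

private theorem lagn_core_pow (x y : ℝ) (hx : 0 ≤ x) (hy : 0 ≤ y) (n : ℕ) :
    - Real.log (min 1 (max (x ^ n) (y ^ n))) = n * (- Real.log (min 1 (max x y))) := by
  have h2 : min 1 (max (x ^ n) (y ^ n)) = (min 1 (max x y)) ^ n := by
    have h3 : max (x ^ n) (y ^ n) = (max x y) ^ n := by
      rcases le_total x y with h | h
      · rw [max_eq_right h, max_eq_right (pow_le_pow_left₀ hx h n)]
      · rw [max_eq_left h, max_eq_left (pow_le_pow_left₀ hy h n)]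
    have h4 : 0 ≤ max x y := le_max_of_le_left hx
    rw [h3]
    rcases le_total 1 (max x y) with h | h
    · rw [min_eq_left h, min_eq_left (one_le_pow₀ h), one_pow]
    · rw [min_eq_right h, min_eq_right (pow_le_one₀ h4 h)]
  rw [h2, Real.log_pow]
  ring

private theorem lagn_k_arch {K : Type*} [Field K] (κ : SC K) {L : Type*} [Field L] [Algebra K L]
    (ψ : L →+* ℂ) :
    κ.k (InfinitePlace.mk ψ).val = κ.k (InfinitePlace.mk (ψ.comp (algebraMap K L))).val := by
  unfold SC.k cst
  rw [if_neg (A7_not_nonarch _), if_neg (A7_not_nonarch _)]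
  simp only [A7_apply, Algebra.algebraMap_self_apply]

private theorem lagn_k_fin {K : Type*} [Field K] (κ : SC K) {L : Type*} [Field L] [Algebra K L]
    (v : AbsoluteValue K ℝ) (w : AbsoluteValue L ℝ) (n : ℕ) (hv : IsNonarchimedean v)
    (hw : IsNonarchimedean w) (h : ∀ x, w (algebraMap K L x) = v x ^ n) :
    κ.k w = κ.k v ^ n := by
  unfold SC.k cst
  have hp : ∏ a ∈ κ.T, max 1 (w (algebraMap K L a)) =
      (∏ a ∈ κ.T, max 1 (v (algebraMap K K a))) ^ n := by
    rw [← Finset.prod_pow κ.T n (fun a => max 1 (v (algebraMap K K a)))]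
    refine Finset.prod_congr rfl fun a _ => ?_
    rw [h, Algebra.algebraMap_self_apply]
    rcases le_total 1 (v a) with h1 | h1
    · rw [max_eq_right h1, max_eq_right (one_le_pow₀ h1)]
    · rw [max_eq_left h1, max_eq_left (pow_le_one₀ (v.nonneg _) h1), one_pow]
  rw [if_pos hv, if_pos hw, one_mul, one_mul, hp, ← pow_mul, ← pow_mul, mul_comm n]

private theorem lagn_k_nonneg {K : Type*} [Field K] (κ : SC K) {L : Type*} [Field L] [Algebra K L]
    (v : AbsoluteValue L ℝ) : 0 ≤ κ.k v := by
  unfold SC.k cst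
  refine pow_nonneg (mul_nonneg ?_ (Finset.prod_nonneg fun a _ =>
    le_max_of_le_left zero_le_one)) _
  split_ifs
  · exact zero_le_one
  · exact Nat.cast_nonneg _

private theorem lagn_FS {K : Type*} [Field K] [NumberField K] (p : AbsoluteValue K ℝ → Prop)
    [DecidablePred p] {a b : K} (hab : a ≠ 0 ∨ b ≠ 0) :
    FS fun v : AbsoluteValue K ℝ =>
      if p v then - Real.log (min 1 (max (v a) (v b))) else 0 := by
  have key : ∀ c : K, c ≠ 0 → (c = a ∨ c = b) → FS fun v : AbsoluteValue K ℝ =>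
      if p v then - Real.log (min 1 (max (v a) (v b))) else 0 := by
    intro c hc hc'
    have h1 := FS_log_abv hc
    unfold FS at h1 ⊢
    refine h1.subset fun v hv => ?_
    intro h2
    apply hv
    have h3 : v.val c = 1 := by
      have h4 : 0 < v.val c := v.val.pos hc
      exact Real.eq_one_of_pos_of_log_eq_zero h4 h2
    have h5 : 1 ≤ max (v.val a) (v.val b) := by
      rcases hc' with rfl | rfl
      · rw [h3]
        exact le_max_left _ _
      · rw [h3]
        exact le_max_right _ _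
    show (if p v.val then - Real.log (min 1 (max (v.val a) (v.val b))) else 0) = 0
    rw [min_eq_left h5, Real.log_one, neg_zero, ite_self]
  rcases hab with ha | hb
  · exact key a ha (Or.inl rfl)
  · exact key b hb (Or.inr rfl)

/-- The gain over an extension. -/
theorem gn_le {K : Type u} [Field K] [NumberField K] {N : ℕ} {A : AV K N} {n e : ℕ}
    (nd : Noe A n e) (κ : SC K) (P : A.Pts K) (hP : lf (nd.l 0) (A.x P) ≠ 0) (a b : K)
    (hab : a ≠ 0 ∨ b ≠ 0) (L : Type u) [Field L] [NumberField L] [Algebra K L] :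
    (open Classical in FS fun v : AbsoluteValue L ℝ =>
      if ∀ i, v (algebraMap K L (nd.y P i)) ≤ κ.k v then
        - Real.log (min 1 (max (v (algebraMap K L a)) (v (algebraMap K L b)))) else 0) ∧
    Module.finrank K L * nd.gn κ P a b ≤ gs fun v : AbsoluteValue L ℝ =>
      open Classical in
      if ∀ i, v (algebraMap K L (nd.y P i)) ≤ κ.k v then
        - Real.log (min 1 (max (v (algebraMap K L a)) (v (algebraMap K L b)))) else 0 := by
  classical
  have hIn : ∀ v : AbsoluteValue K ℝ, nd.In κ v P ↔ ∀ i, v (nd.y P i) ≤ κ.k v := by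
    intro v
    unfold Noe.In Noe.y
    refine forall_congr' fun i => ?_
    rw [map_div₀, div_le_iff₀ (v.pos hP)]
  have hφ : FS fun v : AbsoluteValue K ℝ =>
      if ∀ i, v (nd.y P i) ≤ κ.k v then - Real.log (min 1 (max (v a) (v b))) else 0 :=
    lagn_FS (fun v => ∀ i, v (nd.y P i) ≤ κ.k v) hab
  have key := gs_bc_fin (L := L) (fun v : AbsoluteValue K ℝ =>
      if ∀ i, v (nd.y P i) ≤ κ.k v then - Real.log (min 1 (max (v a) (v b))) else 0)
    (fun v : AbsoluteValue L ℝ =>
      if ∀ i, v (algebraMap K L (nd.y P i)) ≤ κ.k v then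
        - Real.log (min 1 (max (v (algebraMap K L a)) (v (algebraMap K L b)))) else 0) hφ
    (fun ψ => by
      show (if ∀ i, (InfinitePlace.mk ψ).val (algebraMap K L (nd.y P i)) ≤
          κ.k (InfinitePlace.mk ψ).val then _ else _) = _
      simp only [A7_apply, lagn_k_arch κ ψ])
    (fun v w n hn0 hv hw hvw => by
      simp only [hvw, lagn_k_fin κ v w n hv hw hvw]
      have h1 : (∀ i, v (nd.y P i) ^ n ≤ κ.k v ^ n) ↔ ∀ i, v (nd.y P i) ≤ κ.k v :=
        forall_congr' fun t =>
          pow_le_pow_iff_left₀ (v.nonneg _) (lagn_k_nonneg κ v) hn0.ne'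
      by_cases h5 : ∀ i, v (nd.y P i) ≤ κ.k v
      · rw [if_pos h5, if_pos (h1.2 h5), lagn_core_pow _ _ (v.nonneg _) (v.nonneg _)]
      · rw [if_neg h5, if_neg (fun h6 => h5 (h1.1 h6)), mul_zero])
  refine ⟨key.1, ?_⟩
  rw [key.2]
  refine le_of_eq ?_
  congr 1
  unfold Noe.gn
  congr 1
  funext v
  by_cases h : nd.In κ v P
  · rw [if_pos h, if_pos ((hIn v).1 h)]
  · rw [if_neg h, if_neg (fun h6 => h ((hIn v).2 h6))]

end Pool.Agent.Lib.MP_17a322_nt.VA
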