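import Pool.Agent.Lib.MP_17a322_nt.VN.L1m
import Pool.Agent.Lib.MP_17a322_nt.VA.E11

/-!
The chain of substitutions and of local estimates, abstract form.

`PsS ξ i`: the substitution of the series `ξ (i, t)` for the variables of the block `i`.
-/

namespace Pool.Agent.Lib.MP_17a322_nt.VA

open MvPolynomial Height
open Pool.Agent.Lib.MP_17a322_nt.RO
open Pool.Agent.Lib.MP_17a322_nt.VJ
open Pool.Agent.Lib.MP_17a322_nt.VN

private theorem ub_apply {m n : ℕ} (e : Fin m × Fin n →₀ ℕ) (i : Fin m) (μ : Fin n → ℕ)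
    (p : Fin m × Fin n) : ub e i μ p = if p.1 = i then μ p.2 else e p := rfl

private theorem ub_same {m n : ℕ} (e : Fin m × Fin n →₀ ℕ) (i : Fin m) (μ : Fin n → ℕ)
    (t : Fin n) : ub e i μ (i, t) = μ t := by
  rw [ub_apply, if_pos rfl]

private theorem ub_other {m n : ℕ} (e : Fin m × Fin n →₀ ℕ) {i i' : Fin m} (h : i' ≠ i)
    (μ : Fin n → ℕ) (t : Fin n) : ub e i μ (i', t) = e (i', t) := by
  rw [ub_apply, if_neg h]

private theorem ub_comm {m n : ℕ} (e : Fin m × Fin n →₀ ℕ) {i i' : Fin m} (h : i' ≠ i)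
    (μ μ' : Fin n → ℕ) : ub (ub e i' μ) i μ' = ub (ub e i μ') i' μ := by
  refine Finsupp.ext fun p => ?_
  rw [ub_apply, ub_apply, ub_apply, ub_apply]
  by_cases h1 : p.1 = i
  · have h2 : p.1 ≠ i' := fun h3 => h (h3.symm.trans h1)
    rw [if_pos h1, if_neg h2, if_pos h1]
  · rw [if_neg h1, if_neg h1]

private theorem PsS_monomial {A : Type*} [CommRing A] {m n : ℕ}
    (ξ : Fin m × Fin n → PowerSeries A) (i : Fin m)
    (e' : Fin m × Fin n →₀ ℕ) (a : A) (s : ℕ) :
    PowerSeries.coeff s (PsS ξ i (monomial e' a)) =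
      monomial (ub e' i (fun _ => 0))
        (a * PowerSeries.coeff s (∏ t, ξ (i, t) ^ e' (i, t))) := by
  classical
  have h1 : PsS ξ i (monomial e' a) = PowerSeries.C (C a) *
      ∏ p : Fin m × Fin n, (if p.1 = i then PowerSeries.map C (ξ p)
        else PowerSeries.C (X p) : PowerSeries (MvPolynomial (Fin m × Fin n) A)) ^ e' p := by
    unfold PsS
    rw [coe_eval₂Hom, eval₂_monomial, Finsupp.prod_fintype _ _ (fun p => pow_zero _)]
    rfl
  have h2 : ∏ p : Fin m × Fin n, (if p.1 = i then PowerSeries.map C (ξ p)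
        else PowerSeries.C (X p) : PowerSeries (MvPolynomial (Fin m × Fin n) A)) ^ e' p =
      PowerSeries.map C (∏ t, ξ (i, t) ^ e' (i, t)) *
        PowerSeries.C (monomial (ub e' i (fun _ => 0)) 1) := by
    have h3 : (monomial (ub e' i (fun _ => 0)) 1 : MvPolynomial (Fin m × Fin n) A) =
        ∏ i' : Fin m, ∏ t : Fin n, (if i' = i then 1 else X (i', t) ^ e' (i', t)) := by
      rw [monomial_eq, C_1, one_mul, Finsupp.prod_fintype _ _ (fun p => pow_zero _),
        Fintype.prod_prod_type]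
      refine Finset.prod_congr rfl fun i' _ => Finset.prod_congr rfl fun t _ => ?_
      by_cases h4 : i' = i
      · rw [if_pos h4, h4, ub_same, pow_zero]
      · rw [if_neg h4, ub_other _ h4]
    have h5 : (∏ t, ξ (i, t) ^ e' (i, t)) =
        ∏ i' : Fin m, ∏ t : Fin n, (if i' = i then ξ (i, t) ^ e' (i, t) else 1) := by
      rw [Finset.prod_eq_single i]
      · exact Finset.prod_congr rfl fun t _ => by rw [if_pos rfl]
      · intro i' _ hi'
        exact Finset.prod_eq_one fun t _ => if_neg hi'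
      · intro h
        exact absurd (Finset.mem_univ i) h
    rw [h3, h5, Fintype.prod_prod_type, map_prod, map_prod, ← Finset.prod_mul_distrib]
    refine Finset.prod_congr rfl fun i' _ => ?_
    rw [map_prod, map_prod, ← Finset.prod_mul_distrib]
    refine Finset.prod_congr rfl fun t _ => ?_
    by_cases h4 : i' = i
    · subst h4
      rw [if_pos rfl, if_pos rfl, if_pos rfl, map_one, mul_one, map_pow]
    · rw [if_neg h4, if_neg h4, if_neg h4, map_one, one_mul, map_pow]
  rw [h1, h2, PowerSeries.coeff_C_mul, PowerSeries.coeff_mul_C, PowerSeries.coeff_map,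
    ← mul_assoc, ← C_mul, C_mul_monomial, mul_one]

theorem PsS_coeff {A : Type*} [CommRing A] {m n : ℕ} (ξ : Fin m × Fin n → PowerSeries A)
    (i : Fin m) (G : MvPolynomial (Fin m × Fin n) A) {b : ℕ}
    (hb : ∀ t, G.degreeOf (i, t) ≤ b) (e : Fin m × Fin n →₀ ℕ) (s : ℕ) :
    coeff e (PowerSeries.coeff s (PsS ξ i G)) =
      open Classical in
      if ∀ t, e (i, t) = 0 then
        ∑ μ ∈ box (fun _ : Fin n => b + 1), coeff (ub e i μ) G *
          PowerSeries.coeff s (∏ t, ξ (i, t) ^ μ t)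
      else 0 := by
  classical
  set L : MvPolynomial (Fin m × Fin n) A → A :=
    fun G => coeff e (PowerSeries.coeff s (PsS ξ i G)) with hL
  set R : MvPolynomial (Fin m × Fin n) A → A := fun G => if ∀ t, e (i, t) = 0 then
        ∑ μ ∈ box (fun _ : Fin n => b + 1), coeff (ub e i μ) G *
          PowerSeries.coeff s (∏ t, ξ (i, t) ^ μ t)
      else 0 with hR
  have hLs : ∀ (S : Finset (Fin m × Fin n →₀ ℕ)) (f : (Fin m × Fin n →₀ ℕ) →
      MvPolynomial (Fin m × Fin n) A), L (∑ a ∈ S, f a) = ∑ a ∈ S, L (f a) := by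
    intro S f
    show coeff e (PowerSeries.coeff s (PsS ξ i (∑ a ∈ S, f a))) = _
    rw [map_sum, map_sum, coeff_sum]
  have hRs : ∀ (S : Finset (Fin m × Fin n →₀ ℕ)) (f : (Fin m × Fin n →₀ ℕ) →
      MvPolynomial (Fin m × Fin n) A), R (∑ a ∈ S, f a) = ∑ a ∈ S, R (f a) := by
    intro S f
    by_cases h0 : ∀ t, e (i, t) = 0
    · simp only [hR, if_pos h0]
      rw [Finset.sum_comm]
      refine Finset.sum_congr rfl fun μ _ => ?_
      rw [coeff_sum, Finset.sum_mul]
    · simp only [hR, if_neg h0, Finset.sum_const_zero]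
  have key : ∀ e' ∈ G.support, L (monomial e' (coeff e' G)) = R (monomial e' (coeff e' G)) := by
    intro e' he'
    have hbe : ∀ t, e' (i, t) ≤ b := fun t =>
      (degreeOf_le_iff.1 (hb t)) e' he'
    show coeff e (PowerSeries.coeff s (PsS ξ i (monomial e' (coeff e' G)))) = _
    rw [PsS_monomial, coeff_monomial]
    by_cases h0 : ∀ t, e (i, t) = 0
    · simp only [hR, if_pos h0, coeff_monomial]
      by_cases h1 : ub e' i (fun _ => 0) = e
      · rw [if_pos h1]
        have h2 : ub e i (fun t => e' (i, t)) = e' := by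
          refine Finsupp.ext fun p => ?_
          rw [ub_apply]
          by_cases h3 : p.1 = i
          · rw [if_pos h3, ← h3]
          · rw [if_neg h3, ← h1, ub_apply, if_neg h3]
        rw [Finset.sum_eq_single (fun t => e' (i, t))]
        · rw [if_pos h2.symm]
        · intro μ _ hμ
          rw [if_neg, zero_mul]
          intro h4
          apply hμ
          funext t
          rw [h4, ub_same]
        · intro h4
          exact absurd ((mem_box _ _).2 fun t => Nat.lt_succ_of_le (hbe t)) h4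
      · rw [if_neg h1]
        symm
        refine Finset.sum_eq_zero fun μ _ => ?_
        rw [if_neg, zero_mul]
        intro h4
        apply h1
        refine Finsupp.ext fun p => ?_
        rw [ub_apply]
        by_cases h3 : p.1 = i
        · rw [if_pos h3]
          have h5 := h0 p.2
          rw [← h3] at h5
          exact h5.symm
        · rw [if_neg h3, h4, ub_apply, if_neg h3]
    · simp only [hR, if_neg h0]
      rw [if_neg]
      intro h1
      apply h0
      intro t
      rw [← h1, ub_same]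
  have hfin : L G = R G := by
    conv_lhs => rw [← support_sum_monomial_coeff G]
    conv_rhs => rw [← support_sum_monomial_coeff G]
    rw [hLs, hRs]
    exact Finset.sum_congr rfl key
  exact hfin

theorem stepA_deg {A : Type*} [CommRing A] {m n : ℕ} (ξ : Fin m × Fin n → PowerSeries A)
    (i : Fin m) (F F' : MvPolynomial (Fin m × Fin n) A) (s : ℕ)
    (hF : F' = PowerSeries.coeff s (PsS ξ i F))
    (b : Fin m → ℕ) (hi : ∀ t, F.degreeOf (i, t) ≤ b i) (i' : Fin m)
    (h : ∀ t, F.degreeOf (i', t) ≤ b i') (t : Fin n) : F'.degreeOf (i', t) ≤ b i' := by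
  classical
  rw [degreeOf_le_iff]
  intro e he
  have h1 : coeff e F' ≠ 0 := mem_support_iff.1 he
  rw [hF, PsS_coeff ξ i F hi e s] at h1
  by_cases h0 : ∀ t, e (i, t) = 0
  · rw [if_pos h0] at h1
    obtain ⟨μ, _, hμ⟩ := Finset.exists_ne_zero_of_sum_ne_zero h1
    have h3 : ub e i μ ∈ F.support := mem_support_iff.2 (left_ne_zero_of_mul hμ)
    by_cases h4 : i' = i
    · rw [h4, h0 t]
      exact Nat.zero_le _
    · have h5 := degreeOf_le_iff.1 (h t) _ h3
      rwa [ub_other _ h4] at h5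
  · rw [if_neg h0] at h1
    exact absurd rfl h1

theorem stepA_O {A : Type*} [CommRing A] {m n : ℕ} (ξ : Fin m × Fin n → PowerSeries A)
    (i : Fin m) (F F' : MvPolynomial (Fin m × Fin n) A) (s : ℕ)
    (hF : F' = PowerSeries.coeff s (PsS ξ i F)) {b : ℕ} (hi : ∀ t, F.degreeOf (i, t) ≤ b)
    (i' : Fin m) (hii : i' ≠ i) (O : ((Fin n → ℕ) → A) → Prop)
    (hO : ∀ (s : Finset (Fin n → ℕ)) (c : (Fin n → ℕ) → A) (Φ : (Fin n → ℕ) → (Fin n → ℕ) → A),
      (∀ p ∈ s, O (Φ p)) → O fun μ => ∑ p ∈ s, c p * Φ p μ)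
    (h : ∀ e', O fun μ => coeff (ub e' i' μ) F) (e' : Fin m × Fin n →₀ ℕ) :
    O fun μ => coeff (ub e' i' μ) F' := by
  classical
  by_cases h0 : ∀ t, e' (i, t) = 0
  · have h2 : (fun μ => coeff (ub e' i' μ) F') = fun ν => ∑ μ ∈ box (fun _ : Fin n => b + 1),
        PowerSeries.coeff s (∏ t, ξ (i, t) ^ μ t) * coeff (ub (ub e' i μ) i' ν) F := by
      funext ν
      rw [hF, PsS_coeff ξ i F hi, if_pos]
      · refine Finset.sum_congr rfl fun μ _ => ?_
        rw [ub_comm e' hii, mul_comm]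
      · intro t
        rw [ub_other _ (Ne.symm hii)]
        exact h0 t
    rw [h2]
    exact hO _ _ _ fun μ _ => h (ub e' i μ)
  · have h2 : (fun μ => coeff (ub e' i' μ) F') = fun ν => ∑ μ ∈ (∅ : Finset (Fin n → ℕ)),
        (0 : A) * (fun _ _ => (0 : A)) μ ν := by
      funext ν
      rw [hF, PsS_coeff ξ i F hi, if_neg, Finset.sum_empty]
      intro h3
      apply h0
      intro t
      have h4 := h3 t
      rwa [ub_other _ (Ne.symm hii)] at h4
    rw [h2]
    exact hO ∅ (fun _ => 0) (fun _ _ => 0) fun p hp => absurd hp (Finset.notMem_empty p)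

/-- The chain of estimates, abstract form. -/
theorem chainA {L : Type*} [Field L] {v : AbsoluteValue L ℝ} {A : Type*} [CommRing A]
    [Algebra L A] {ν : A → ℝ} (hν : SN v ν) {m n : ℕ} (ξ : Fin m × Fin n → PowerSeries A)
    (b s : Fin m → ℕ) (O : Fin m → ((Fin n → ℕ) → A) → Prop)
    (hO : ∀ i (s : Finset (Fin n → ℕ)) (c : (Fin n → ℕ) → A)
      (Φ : (Fin n → ℕ) → (Fin n → ℕ) → A), (∀ p ∈ s, O i (Φ p)) →
        O i fun μ => ∑ p ∈ s, c p * Φ p μ)
    (Kf : Fin m → ℝ) (hKf : ∀ i, 0 ≤ Kf i)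
    (hest : ∀ (i : Fin m) (Φ : (Fin n → ℕ) → A) (Bd : ℝ), O i Φ →
      (∀ μ ∈ box (fun _ : Fin n => b i + 1), ν (Φ μ) ≤ Bd) →
      ν (PowerSeries.coeff (s i) (∑ μ ∈ box (fun _ : Fin n => b i + 1),
        PowerSeries.C (Φ μ) * ∏ t, ξ (i, t) ^ μ t)) ≤ Bd * Kf i)
    (F : Fin (m + 1) → MvPolynomial (Fin m × Fin n) A)
    (hF : ∀ i : Fin m, F i.succ = PowerSeries.coeff (s i) (PsS ξ i (F i.castSucc)))
    (hdeg : ∀ i t, (F 0).degreeOf (i, t) ≤ b i)
    (hO0 : ∀ i e', O i fun μ => coeff (ub e' i μ) (F 0)) {M : ℝ} (hM0 : 0 ≤ M)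
    (hM : ∀ e', ν (coeff e' (F 0)) ≤ M) (e' : Fin m × Fin n →₀ ℕ) :
    ν (coeff e' (F (Fin.last m))) ≤ M * ∏ i, Kf i := by
  classical
  have main : ∀ (l : ℕ) (hl : l < m + 1),
      (∀ i : Fin m, l ≤ (i : ℕ) → ∀ t, (F ⟨l, hl⟩).degreeOf (i, t) ≤ b i) ∧
      (∀ i : Fin m, l ≤ (i : ℕ) → ∀ e', O i fun μ => coeff (ub e' i μ) (F ⟨l, hl⟩)) ∧
      ∀ e', ν (coeff e' (F ⟨l, hl⟩)) ≤
        M * ∏ i : Fin m, (if (i : ℕ) < l then Kf i else 1) := by
    intro l
    induction l with
    | zero =>
      intro hl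
      refine ⟨fun i _ t => hdeg i t, fun i _ e' => hO0 i e', fun e' => ?_⟩
      have h1 : ∏ i : Fin m, (if (i : ℕ) < 0 then Kf i else 1) = 1 :=
        Finset.prod_eq_one fun i _ => if_neg (Nat.not_lt_zero _)
      rw [h1, mul_one]
      exact hM e'
    | succ l ih =>
      intro hl
      have hlm : l < m := Nat.lt_of_succ_lt_succ hl
      obtain ⟨ih1, ih2, ih3⟩ := ih (Nat.lt_of_succ_lt hl)
      set i0 : Fin m := ⟨l, hlm⟩ with hi0
      have hstep : F ⟨l + 1, hl⟩ = PowerSeries.coeff (s i0)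
          (PsS ξ i0 (F ⟨l, Nat.lt_of_succ_lt hl⟩)) := hF i0
      refine ⟨fun i hi t => ?_, fun i hi e' => ?_, fun e' => ?_⟩
      · exact stepA_deg ξ i0 _ _ (s i0) hstep b (fun t => ih1 i0 le_rfl t) i
          (fun t => ih1 i (Nat.le_of_succ_le hi) t) t
      · have hne : i ≠ i0 := by
          intro h1
          rw [h1] at hi
          exact Nat.not_succ_le_self l hi
        exact stepA_O ξ i0 _ _ (s i0) hstep (fun t => ih1 i0 le_rfl t) i hne (O i) (hO i)
          (fun e'' => ih2 i (Nat.le_of_succ_le hi) e'') e'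
      · have h2 : ∏ i : Fin m, (if (i : ℕ) < l + 1 then Kf i else 1) =
            (∏ i : Fin m, (if (i : ℕ) < l then Kf i else 1)) * Kf i0 := by
          have h3 : ∀ i : Fin m, (if (i : ℕ) < l + 1 then Kf i else 1) =
              (if (i : ℕ) < l then Kf i else 1) * (if i = i0 then Kf i else 1) := by
            intro i
            by_cases h4 : (i : ℕ) < l
            · rw [if_pos (Nat.lt_succ_of_lt h4), if_pos h4, if_neg, mul_one]
              intro h5
              rw [h5] at h4
              exact lt_irrefl _ h4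
            · by_cases h5 : i = i0
              · rw [if_neg h4, if_pos h5, one_mul, if_pos]
                rw [h5]
                exact Nat.lt_succ_self l
              · rw [if_neg h4, if_neg h5, one_mul, if_neg]
                intro h6
                exact h5 (Fin.ext (le_antisymm (Nat.le_of_lt_succ h6) (not_lt.1 h4)))
          rw [Finset.prod_congr rfl fun i _ => h3 i, Finset.prod_mul_distrib]
          congr 1
          rw [Finset.prod_ite_eq' Finset.univ i0 Kf, if_pos (Finset.mem_univ i0)]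
        have hM' : 0 ≤ M * ∏ i : Fin m, (if (i : ℕ) < l then Kf i else 1) := by
          refine mul_nonneg hM0 (Finset.prod_nonneg fun i _ => ?_)
          split_ifs
          · exact hKf i
          · exact zero_le_one
        rw [h2, ← mul_assoc, hstep, PsS_coeff ξ i0 _ (fun t => ih1 i0 le_rfl t) e' (s i0)]
        by_cases h0 : ∀ t, e' (i0, t) = 0
        · rw [if_pos h0]
          have h1 := hest i0 (fun μ => coeff (ub e' i0 μ) (F ⟨l, Nat.lt_of_succ_lt hl⟩)) _
            (ih2 i0 le_rfl e') (fun μ _ => ih3 _)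
          rw [map_sum] at h1
          have h4 : ∑ μ ∈ box (fun _ : Fin n => b i0 + 1),
              PowerSeries.coeff (s i0) (PowerSeries.C
                (coeff (ub e' i0 μ) (F ⟨l, Nat.lt_of_succ_lt hl⟩)) * ∏ t, ξ (i0, t) ^ μ t) =
              ∑ μ ∈ box (fun _ : Fin n => b i0 + 1),
                coeff (ub e' i0 μ) (F ⟨l, Nat.lt_of_succ_lt hl⟩) *
                  PowerSeries.coeff (s i0) (∏ t, ξ (i0, t) ^ μ t) :=
            Finset.sum_congr rfl fun μ _ => PowerSeries.coeff_C_mul _ _ _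
          rw [h4] at h1
          exact h1
        · rw [if_neg h0]
          exact hν.zero.le.trans (mul_nonneg hM' (hKf i0))
  have hend := (main m (Nat.lt_succ_self m)).2.2 e'
  have h3 : ∏ i : Fin m, (if (i : ℕ) < m then Kf i else 1) = ∏ i, Kf i :=
    Finset.prod_congr rfl fun i _ => if_pos i.2
  rw [h3] at hend
  exact hend

end Pool.Agent.Lib.MP_17a322_nt.VA
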