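import Pool.Agent.Lib.MP_17a322_nt.VA.LA1

/-!
Series in `T ^ w`: closure under values of polynomials, scaling of the radii.
-/

universe u

namespace Pool.Agent.Lib.MP_17a322_nt.VA

open MvPolynomial Height
open Pool.Agent.Lib.MP_17a322_nt.RO
open Pool.Agent.Lib.MP_17a322_nt.VJ
open Pool.Agent.Lib.MP_17a322_nt.VN

section

variable {L : Type*} [Field L] {τ : Type*}

theorem Exp_alg (w : ℕ) (hw : w ≠ 0) (a : L) :
    Exp L τ w hw (algebraMap L (D2 L τ) a) = algebraMap L (D2 L τ) a := by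
  rw [algebraMap_D2]
  unfold Exp
  rw [PowerSeries.map_C]
  congr 1
  exact (PowerSeries.expand w hw :
    D1 L τ →ₐ[MvPolynomial τ L] D1 L τ).commutes (C a)

/-- `Exp` as a homomorphism of algebras. -/
noncomputable def ExpA (K : Type*) [Field K] (L : Type*) [Field L] [Algebra K L] (τ : Type*)
    (w : ℕ) (hw : w ≠ 0) : D2 L τ →ₐ[K] D2 L τ :=
  { Exp L τ w hw with
    commutes' := by
      intro a
      show Exp L τ w hw (algebraMap K (D2 L τ) a) = _
      rw [IsScalarTower.algebraMap_apply K L (D2 L τ), Exp_alg] }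

theorem ExpA_apply {K : Type*} [Field K] [Algebra K L] (w : ℕ) (hw : w ≠ 0) (f : D2 L τ) :
    ExpA K L τ w hw f = Exp L τ w hw f := rfl

theorem Exp_aeval {K : Type*} [Field K] [Algebra K L] (w : ℕ) (hw : w ≠ 0) {σ : Type*}
    (F : MvPolynomial σ K) (x : σ → D2 L τ) (hx : ∀ t, x t ∈ Set.range (Exp L τ w hw)) :
    aeval x F ∈ Set.range (Exp L τ w hw) := by
  choose x' hx' using hx
  refine ⟨aeval x' F, ?_⟩
  have h1 := MvPolynomial.comp_aeval_apply x' (ExpA K L τ w hw) F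
  rw [← ExpA_apply (K := K), h1]
  congr 2
  funext t
  exact hx' t

theorem Exp_lf {K : Type*} [Field K] [Algebra K L] (w : ℕ) (hw : w ≠ 0) {N : ℕ}
    (l : Fin (N + 1) → K) (x : Fin (N + 1) → D2 L τ) (hx : ∀ t, x t ∈ Set.range (Exp L τ w hw)) :
    lf l x ∈ Set.range (Exp L τ w hw) := by
  choose x' hx' using hx
  refine ⟨lf l x', ?_⟩
  rw [← ExpA_apply (K := K)]
  unfold lf
  rw [map_sum]
  refine Finset.sum_congr rfl fun a _ => ?_
  rw [map_mul, AlgHom.commutes, ExpA_apply, hx']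

/-- `c00` as a homomorphism of algebras. -/
noncomputable def c00A (K : Type*) [Field K] (L : Type*) [Field L] [Algebra K L] (τ : Type*) :
    D2 L τ →ₐ[K] MvPolynomial τ L :=
  { (PowerSeries.constantCoeff (R := MvPolynomial τ L)).comp
      (PowerSeries.constantCoeff (R := D1 L τ)) with
    commutes' := by
      intro a
      show PowerSeries.constantCoeff (PowerSeries.constantCoeff (algebraMap K (D2 L τ) a)) = _
      rw [IsScalarTower.algebraMap_apply K L (D2 L τ), algebraMap_D2,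
        PowerSeries.constantCoeff_C, PowerSeries.constantCoeff_C,
        IsScalarTower.algebraMap_apply K L (MvPolynomial τ L)]
      rfl }

theorem c00A_apply {K : Type*} [Field K] [Algebra K L] (f : D2 L τ) :
    c00A K L τ f = c00 f := rfl

theorem c00_lf {K : Type*} [Field K] [Algebra K L] {N : ℕ} (l : Fin (N + 1) → K)
    (x : Fin (N + 1) → D2 L τ) (x₀ : Fin (N + 1) → L) (hx : ∀ t, c00 (x t) = C (x₀ t)) :
    c00 (lf l x) = C (lf l x₀) := by
  rw [← c00A_apply (K := K)]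
  unfold lf
  rw [map_sum, map_sum]
  refine Finset.sum_congr rfl fun a _ => ?_
  rw [map_mul, map_mul, AlgHom.commutes, c00A_apply, hx,
    IsScalarTower.algebraMap_apply K L (MvPolynomial τ L)]
  rfl

theorem c00_aeval {K : Type*} [Field K] [Algebra K L] {σ : Type*} (F : MvPolynomial σ K)
    (x : σ → D2 L τ) (x₀ : σ → L) (hx : ∀ t, c00 (x t) = C (x₀ t)) :
    c00 (aeval x F) = C (aeval x₀ F) := by
  have h1 := MvPolynomial.comp_aeval_apply x (c00A K L τ) F
  have h2 := MvPolynomial.comp_aeval_apply x₀ (IsScalarTower.toAlgHom K L (MvPolynomial τ L)) F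
  have h3 : (fun i => (c00A K L τ) (x i)) =
      fun i => (IsScalarTower.toAlgHom K L (MvPolynomial τ L)) (x₀ i) := by
    funext i
    exact hx i
  rw [← c00A_apply (K := K), h1, h3, ← h2]
  rfl

theorem Exp_coeff (w : ℕ) (hw : w ≠ 0) {f : D2 L τ} (hf : f ∈ Set.range (Exp L τ w hw))
    (k l : ℕ) (hl : ¬ w ∣ l) : PowerSeries.coeff l (PowerSeries.coeff k f) = 0 := by
  obtain ⟨g, rfl⟩ := hf
  unfold Exp
  rw [PowerSeries.coeff_map]
  show PowerSeries.coeff l (PowerSeries.expand w hw (PowerSeries.coeff k g)) = 0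
  rw [PowerSeries.coeff_expand, if_neg hl]

variable (v : AbsoluteValue L ℝ)

/-- Scaling of the radii for a series in `T ^ w` without constant term. -/
theorem n2_scale_w {w : ℕ} (hw : w ≠ 0) {r lam r₀ κ₀ dl : ℝ} (hr : 0 ≤ r) (hlam : 0 ≤ lam)
    (hr₀ : 0 ≤ r₀) (h0 : 0 ≤ dl) (h1 : dl ≤ 1) (hrr : r ^ w ≤ dl * r₀ ^ w)
    (hll : lam ≤ dl * κ₀) (hκ₀ : 0 ≤ κ₀) (s s' : ℕ) (f : D2 L τ)
    (hf : f ∈ Set.range (Exp L τ w hw)) (hf0 : c00 f = 0) :
    n2 v r lam s s' f ≤ dl * n2 v r₀ κ₀ s s' f := by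
  have hrw : r ^ w ≤ r₀ ^ w := hrr.trans (mul_le_of_le_one_left (pow_nonneg hr₀ w) h1)
  have hrr₀ : r ≤ r₀ := le_of_pow_le_pow_left₀ hw hr₀ hrw
  have hlκ : lam ≤ κ₀ := hll.trans (mul_le_of_le_one_left hκ₀ h1)
  unfold n2
  refine PA_le_mul (A := D1 L τ) h0 f f fun k _ => ?_
  cases k with
  | zero =>
    rw [pow_zero, pow_zero, mul_one, mul_one]
    unfold n1
    refine PA_le_mul (A := MvPolynomial τ L) h0 _ _ fun l _ => ?_
    by_cases hl : w ∣ l
    · obtain ⟨l', rfl⟩ := hl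
      cases l' with
      | zero =>
        have h2 : PowerSeries.coeff (w * 0) (PowerSeries.coeff 0 f) = 0 := by
          rw [mul_zero, PowerSeries.coeff_zero_eq_constantCoeff_apply,
            PowerSeries.coeff_zero_eq_constantCoeff_apply]
          exact hf0
        rw [h2, (SN_NV v).zero, zero_mul, zero_mul, mul_zero]
      | succ l' =>
        have h3 : r ^ (w * (l' + 1)) ≤ dl * r₀ ^ (w * (l' + 1)) := by
          rw [pow_mul, pow_mul]
          calc (r ^ w) ^ (l' + 1) ≤ (dl * r₀ ^ w) ^ (l' + 1) :=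
                pow_le_pow_left₀ (pow_nonneg hr w) hrr _
            _ = dl ^ (l' + 1) * (r₀ ^ w) ^ (l' + 1) := mul_pow _ _ _
            _ ≤ dl * (r₀ ^ w) ^ (l' + 1) := by
                refine mul_le_mul_of_nonneg_right ?_ (by positivity)
                rw [pow_succ]
                exact mul_le_of_le_one_left h0 (pow_le_one₀ h0 h1)
        calc NV v (PowerSeries.coeff (w * (l' + 1)) (PowerSeries.coeff 0 f)) *
              r ^ (w * (l' + 1)) ≤
            NV v (PowerSeries.coeff (w * (l' + 1)) (PowerSeries.coeff 0 f)) *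
              (dl * r₀ ^ (w * (l' + 1))) :=
              mul_le_mul_of_nonneg_left h3 ((SN_NV v).nonneg _)
          _ = _ := by ring
    · rw [Exp_coeff w hw hf 0 l hl, (SN_NV v).zero, zero_mul, zero_mul, mul_zero]
  | succ k =>
    have h2 : n1 v r s (PowerSeries.coeff (k + 1) f) ≤ n1 v r₀ s (PowerSeries.coeff (k + 1) f) :=
      PA_mono (SN_NV v) hr hrr₀ s _
    have h3 : lam ^ (k + 1) ≤ dl * κ₀ ^ (k + 1) := by
      calc lam ^ (k + 1) ≤ (dl * κ₀) ^ (k + 1) := pow_le_pow_left₀ hlam hll _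
        _ = dl ^ (k + 1) * κ₀ ^ (k + 1) := mul_pow _ _ _
        _ ≤ dl * κ₀ ^ (k + 1) := by
            refine mul_le_mul_of_nonneg_right ?_ (by positivity)
            rw [pow_succ]
            exact mul_le_of_le_one_left h0 (pow_le_one₀ h0 h1)
    have h4 : 0 ≤ n1 v r₀ s (PowerSeries.coeff (k + 1) f) := (SN_n1 v hr₀ s).nonneg _
    calc n1 v r s (PowerSeries.coeff (k + 1) f) * lam ^ (k + 1)
        ≤ n1 v r₀ s (PowerSeries.coeff (k + 1) f) * (dl * κ₀ ^ (k + 1)) :=
          mul_le_mul h2 h3 (pow_nonneg hlam _) h4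
      _ = dl * (n1 v r₀ s (PowerSeries.coeff (k + 1) f) * κ₀ ^ (k + 1)) := by ring

end

end Pool.Agent.Lib.MP_17a322_nt.VA
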