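import Pool.Agent.Lib.MP_17a322_nt.VA.A5b
import Pool.Agent.Lib.MP_17a322_nt.VA.LB1b
import Pool.Agent.Lib.MP_17a322_nt.VA.LB4
import Pool.Agent.Lib.MP_17a322_nt.VA.C3
import Pool.Agent.Lib.MP_17a322_nt.VA.C8
import Pool.Agent.Lib.MP_17a322_nt.VN.L1k

/-!
The local estimate of one block.
-/

universe u

namespace Pool.Agent.Lib.MP_17a322_nt.VA

open MvPolynomial Height
open Pool.Agent.Lib.MP_17a322_nt.RO
open Pool.Agent.Lib.MP_17a322_nt.VJ
open Pool.Agent.Lib.MP_17a322_nt.VN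

/-- The size of values of linear forms. -/
theorem exists_lf_le {K : Type u} [Field K] {N n : ℕ} (l : Fin (n + 1) → Fin (N + 1) → K) :
    ∃ F : SC K, ∀ {L : Type u} [Field L] [Algebra K L] {v : AbsoluteValue L ℝ} {R : Type u}
      [CommRing R] [Algebra L R] [Algebra K R] [IsScalarTower K L R] {μ : R → ℝ}, SN v μ →
      ∀ (t : Fin (n + 1)) (y : Fin (N + 1) → R) (B : ℝ), 0 ≤ B → (∀ i, μ (y i) ≤ B) →
        μ (lf (l t) y) ≤ F.k v * B := by
  obtain ⟨n3, S3, k3, hn3, h3⟩ := Adm.family (K := K) (fun (p : Fin (n + 1) × Fin (N + 1))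
    (L : Type u) (_ : Field L) (_ : Algebra K L) (v : AbsoluteValue L ℝ) =>
      Max.max 1 (v (algebraMap K L (l p.1 p.2)))) (fun p => Adm_abv (l p.1 p.2))
  obtain ⟨E4, h4⟩ := (Adm_cst.{u, u} (K := K) (N + 1)).exists_SC
  refine ⟨E4.mul (scOf n3 S3 k3), ?_⟩
  intro L _ _ v R _ _ _ _ μ hμ t y B hB hy
  have hs := (scOf n3 S3 k3).pos v
  have h5 : ∀ a, μ (algebraMap K R (l t a) * y a) ≤ (scOf n3 S3 k3).k v * B := by
    intro a
    refine (hμ.mul _ _).trans (mul_le_mul ?_ (hy a) (hμ.nonneg _) hs.le)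
    rw [IsScalarTower.algebraMap_apply K L R]
    exact (hμ.map _).trans (((le_max_right _ _).trans (h3 (t, a) L v)).trans
      (le_scOf hn3 S3 k3 v))
  have h6 := hμ.sum_le Finset.univ (fun a => algebraMap K R (l t a) * y a)
    (by positivity : 0 ≤ (scOf n3 S3 k3).k v * B) fun a _ => h5 a
  rw [Finset.card_univ, Fintype.card_fin] at h6
  unfold lf
  refine h6.trans ?_
  rw [← mul_assoc]
  refine mul_le_mul_of_nonneg_right (le_trans ?_ (E4.mul_le (scOf n3 S3 k3) v)) hB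
  exact mul_le_mul_of_nonneg_right (h4 L v) hs.le

private theorem LB1_c2 {K : Type u} [Field K] {N : ℕ} (A : AV K N) {L : Type u} [Field L]
    [Algebra K L] {τ : Type} (j : ℕ) (x0 : Fin (N + 1) → L) :
    c2 L τ (A.mu j x0) = A.mu j fun i => algebraMap L (D2 L τ) (x0 i) := by
  funext i
  have h1 := A.map_mu (IsScalarTower.toAlgHom K L (D2 L τ)) j x0 i
  exact h1

private theorem LB1_EA {K : Type u} [Field K] {N : ℕ} (A : AV K N) {n : ℕ}
    (l : Fin (n + 1) → Fin (N + 1) → K) {L : Type u} [Field L]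
    [Algebra K L] {τ : Type} (j : ℕ) (a : Fin (N + 1)) (x0 : Fin (N + 1) → L)
    (y : Fin (N + 1) → D2 L τ) (t : Fin (n + 1)) :
    EA A l j a (fun i => algebraMap L (D2 L τ) (x0 i)) y t =
      lf (l t) (A.col a y (c2 L τ (A.mu j x0))) := by
  rw [LB1_c2]
  rfl

/-- The local estimate for the coefficient of `z ^ s`. -/
theorem exists_block_localA {K : Type u} [Field K] {N : ℕ} {A : AV K N} {k e₀ : ℕ}
    (nd : Noe A (k + 2) e₀) (κ E₀ : SC K) (D : ℕ) :
    ∃ (E : SC K) (a₁ : ℕ), ∀ {L : Type u} [Field L] [Algebra K L] (v : AbsoluteValue L ℝ)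
      {τ : Type} {e : ℕ} (ρ : REP K (k + 2) e), ρ.Deg D → ∀ {j b T : ℕ}, 1 ≤ b →
      ∀ (x0 : Fin (N + 1) → L), A.IsPt x0 → lf (nd.l 0) x0 = 1 →
      ∀ (y₀ : Fin (N + 1) → L) (q : Fin (k + 2) → L) (y : Fin (N + 1) → D2 L τ)
        (ξ : Fin (k + 2) → D2 L τ) {rho : ℝ}, 0 ≤ rho → A.IsPt y → lf (nd.l 0) y = 1 →
      (∀ b, y b ∈ Set.range (Exp L τ (4 ^ j) (pow_ne_zero j four_ne_zero))) →
      (∀ b, c00 (y b) = C (y₀ b)) →
      PKG nd κ E₀ (4 ^ j) v y₀ (A.mu j x0) q y ξ rho →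
      ∀ (Φ : (Fin (k + 2) → ℕ) → D1 L τ), ORDA nd ρ j b T Φ x0 → ∀ {r : ℝ}, 0 ≤ r →
      ∀ (N' : ℕ) {Bd : ℝ}, (∀ μ ∈ box (fun _ : Fin (k + 2) => b + 1), n1 v r N' (Φ μ) ≤ Bd) →
      ∀ {dl : ℝ}, 0 < dl → dl ≤ 1 → (dl = 1 ∨ ((∀ b, v (y₀ b) ≤ κ.k v) ∧
        v (aeval (fun t : Fin (k + 2) => lf (nd.l t.succ) y₀) (ρ.z 0)) ≤ dl ∧
        v (aeval (fun t : Fin (k + 2) => lf (nd.l t.succ) y₀) (ρ.z 1)) ≤ dl)) →
      r ^ (4 ^ j) * (E.k v * mq v q) ≤ dl * rho → ∀ s : ℕ,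
      n1 v r N' (PowerSeries.coeff s (∑ μ ∈ box (fun _ : Fin (k + 2) => b + 1),
        PowerSeries.C (Φ μ) * ∏ t, ξ t ^ μ t)) ≤
        Bd * KFA E v ((ρ.map (algebraMap K L)).RB v) e a₁ (k + 2) j b T (mq v q) dl s := by
  classical
  obtain ⟨E₁, a, hgain⟩ := exists_block_gainA nd D
  obtain ⟨κm, hκm'⟩ := A.mu_bd
  have hκm : ∀ (L : Type u) [Field L] [Algebra K L] (v : AbsoluteValue L ℝ)
      (y : Fin (N + 1) → L), A.IsPt y → ∀ j : ℕ,
        vm v y ^ 4 ^ j ≤ κm.k v ^ (4 ^ j - 1) * vm v (A.mu j y) :=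
    fun L _ _ v y hy j => (hκm' L v j y).2 hy
  obtain ⟨F, hF⟩ := exists_lf_le nd.l
  obtain ⟨C2, hC2⟩ := (Adm_cst.{u, u} (K := K) 2).exists_SC
  obtain ⟨E₂, hE₂⟩ : ∃ E₂ : SC K, E₂ = ((E₀.mul κm).mul F).mul C2 := ⟨_, rfl⟩
  refine ⟨E₁.mul E₂, (2 * D + 2) * a + 2 * (k + 2), ?_⟩
  intro L _ _ v τ e ρ hD j b T hb x0 hx0 hx01 y₀ q y ξ rho hrho hy hy1 hyE hyc hPKG Φ hO r hr0 N'
    Bd hBd dl hdl0 hdl1 hdl hr s
  -- constants
  obtain ⟨kk, hkk⟩ : ∃ kk : ℝ, kk = E₂.k v := ⟨_, rfl⟩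
  obtain ⟨Ek, hEk⟩ : ∃ Ek : ℝ, Ek = (E₁.mul E₂).k v := ⟨_, rfl⟩
  obtain ⟨X, hX⟩ : ∃ X : ℝ, X = mq v q := ⟨_, rfl⟩
  obtain ⟨RB, hRB⟩ : ∃ RB : ℝ, RB = (ρ.map (algebraMap K L)).RB v := ⟨_, rfl⟩
  obtain ⟨Z, hZ⟩ : ∃ Z : ℝ, Z = cst v (e + 1) := ⟨_, rfl⟩
  have hkk1 : 1 ≤ kk := by rw [hkk]; exact E₂.one_le v
  have hkk0 : 0 < kk := one_pos.trans_le hkk1
  have hEk1 : 1 ≤ Ek := by rw [hEk]; exact SC.one_le _ v
  have hEk0 : 0 < Ek := one_pos.trans_le hEk1
  have hEE : E₁.k v * kk ≤ Ek := by rw [hEk, hkk]; exact E₁.mul_le E₂ v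
  have hkE : kk ≤ Ek := by rw [hEk, hkk]; exact E₁.le_mul_right E₂ v
  have hX1 : 1 ≤ X := by rw [hX]; exact one_le_mqB v q
  have hX0 : 0 < X := one_pos.trans_le hX1
  have hRB1 : 1 ≤ RB := by rw [hRB]; exact one_le_RB _ v
  have hZ1 : 1 ≤ Z := by rw [hZ]; exact one_le_cst v (Nat.le_add_left _ _)
  have h3a : (E₀.mul κm).k v ≤ ((E₀.mul κm).mul F).k v := SC.le_mul_left _ _ v
  have h3b : ((E₀.mul κm).mul F).k v ≤ E₂.k v := by rw [hE₂]; exact SC.le_mul_left _ _ v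
  have hE₀k : E₀.k v ≤ kk := by
    rw [hkk]
    exact ((E₀.le_mul_left κm v).trans h3a).trans h3b
  have hFk : F.k v ≤ kk := by
    rw [hkk]
    exact ((E₀.mul κm).le_mul_right F v).trans h3b
  have hκF : κm.k v * F.k v ≤ kk := by
    rw [hkk]
    refine le_trans ?_ (((E₀.mul κm).mul_le F v).trans h3b)
    exact mul_le_mul_of_nonneg_right (E₀.le_mul_right κm v) (F.pos v).le
  have hc2 : cst v 2 ≤ kk := by
    rw [hkk, hE₂]
    exact (hC2 L v).trans (SC.le_mul_right _ C2 v)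
  have hc20 : 0 ≤ cst v 2 := cst_nonneg v 2
  have hc21 : 1 ≤ cst v 2 := one_le_cst v (by norm_num)
  have hkkX : 0 < Ek * X := mul_pos hEk0 hX0
  unfold KFA
  rw [← hEk, ← hX] at hr ⊢
  rw [← hRB, ← hZ]
  have hBd0 : 0 ≤ Bd := by
    refine ((SN_n1 v hr0 N').nonneg _).trans (hBd (fun _ => 0) ?_)
    exact (mem_box _ _).2 fun _ => Nat.succ_pos b
  obtain ⟨SM, hSM⟩ : ∃ SM : D2 L τ, SM = ∑ μ ∈ box (fun _ : Fin (k + 2) => b + 1),
      PowerSeries.C (Φ μ) * ∏ t, ξ t ^ μ t := ⟨_, rfl⟩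
  rw [← hSM]
  have h4j : 1 ≤ 4 ^ j := Nat.one_le_pow _ _ (by norm_num)
  have hb4 : b ≤ b * 4 ^ j := Nat.le_mul_of_pos_right b (by positivity)
  obtain ⟨a₁, ha₁⟩ : ∃ a₁ : ℕ, a₁ = (2 * D + 2) * a + 2 * (k + 2) := ⟨_, rfl⟩
  rw [← ha₁]
  by_cases hcase : dl = 1 ∨ T ≤ s
  · -- case 1
    have hdlT : dl ^ (T - s) = 1 := by
      rcases hcase with h | h
      · rw [h, one_pow]
      · rw [Nat.sub_eq_zero_of_le h, pow_zero]
    obtain ⟨lam, hlam⟩ : ∃ lam : ℝ, lam = 1 / (Ek * X) := ⟨_, rfl⟩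
    have hlam0 : 0 < lam := by rw [hlam]; positivity
    have hlamk : lam * (Ek * X) = 1 := by rw [hlam]; field_simp
    have hlamt : lam * (E₀.k v * mq v q) ≤ 1 := by
      refine le_of_le_of_eq ?_ hlamk
      rw [← hX]
      apply mul_le_mul_of_nonneg_left _ hlam0.le
      exact mul_le_mul_of_nonneg_right (hE₀k.trans hkE) hX0.le
    have hrl : r ^ (4 ^ j) ≤ lam * rho := by
      have h1 : r ^ (4 ^ j) * (Ek * X) ≤ rho := by
        refine hr.trans ?_
        exact mul_le_of_le_one_left hrho hdl1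
      have h2 := mul_le_mul_of_nonneg_left h1 hlam0.le
      calc r ^ (4 ^ j) = lam * (r ^ (4 ^ j) * (Ek * X)) := by
            rw [mul_left_comm, hlamk, mul_one]
        _ ≤ _ := h2
    have hSN : SN v (fun f : D2 L τ => n2 v r lam N' s f) := SN_n2 v hr0 hlam0.le N' s
    have hxi : ∀ t, n2 v r lam N' s (ξ t) ≤ Ek * X := fun t => by
      refine (((hPKG.2 lam hlam0.le hlamt r hr0 hrl).1) t N' s).trans ?_
      rw [← hX]
      exact mul_le_mul_of_nonneg_right (hE₀k.trans hkE) hX0.le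
    have h1 := block_none hSN b (fun μ => (PowerSeries.C (Φ μ) : D2 L τ))
      ξ (Bd := Bd) (fun μ hμ => by
        rw [n2_C v hr0]
        exact hBd μ hμ)
    rw [← hSM] at h1
    have h2 : ∏ t, max 1 (n2 v r lam N' s (ξ t)) ^ b ≤ (Ek * X) ^ ((k + 2) * b) := by
      have h3 : ∏ t, max 1 (n2 v r lam N' s (ξ t)) ^ b ≤ ∏ _t : Fin (k + 2), (Ek * X) ^ b := by
        refine Finset.prod_le_prod (fun t _ => by positivity) fun t _ => ?_
        refine pow_le_pow_left₀ (by positivity) (max_le ?_ (hxi t)) b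
        exact one_le_mul_of_one_le_of_one_le hEk1 hX1
      refine h3.trans (le_of_eq ?_)
      rw [Finset.prod_const, Finset.card_univ, Fintype.card_fin, ← pow_mul, mul_comm b]
    have h4 : n1 v r N' (PowerSeries.coeff s SM) * lam ^ s ≤ n2 v r lam N' s SM :=
      PA_coeff_le (SN_n1 v hr0 N') hlam0.le (le_refl s) SM
    have h5 : n1 v r N' (PowerSeries.coeff s SM) * lam ^ s ≤
        Bd * Ek ^ (a₁ * (b * 4 ^ j)) * X ^ ((k + 2) * b) := by
      refine h4.trans (h1.trans ?_)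
      have h6 : cst v 2 ^ ((k + 2) * b) ≤ Ek ^ ((k + 2) * b) :=
        pow_le_pow_left₀ hc20 (hc2.trans hkE) _
      have h7 : Bd * cst v 2 ^ ((k + 2) * b) * ∏ t, max 1 (n2 v r lam N' s (ξ t)) ^ b ≤
          Bd * Ek ^ ((k + 2) * b) * (Ek * X) ^ ((k + 2) * b) := by
        refine mul_le_mul (mul_le_mul_of_nonneg_left h6 hBd0) h2
          (Finset.prod_nonneg fun t _ => by positivity) (by positivity)
      refine h7.trans ?_
      have h8 : Ek ^ ((k + 2) * b) * Ek ^ ((k + 2) * b) ≤ Ek ^ (a₁ * (b * 4 ^ j)) := by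
        rw [← pow_add]
        refine pow_le_pow_right₀ hEk1 ?_
        have h9 : 2 * (k + 2) ≤ a₁ := by
          rw [ha₁]
          exact Nat.le_add_left _ _
        calc (k + 2) * b + (k + 2) * b = (2 * (k + 2)) * b := by ring
          _ ≤ a₁ * (b * 4 ^ j) := Nat.mul_le_mul h9 hb4
      calc Bd * Ek ^ ((k + 2) * b) * (Ek * X) ^ ((k + 2) * b) =
          Bd * (Ek ^ ((k + 2) * b) * Ek ^ ((k + 2) * b)) * X ^ ((k + 2) * b) := by
            rw [mul_pow]
            ring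
        _ ≤ Bd * Ek ^ (a₁ * (b * 4 ^ j)) * X ^ ((k + 2) * b) := by
          apply mul_le_mul_of_nonneg_right _ (by positivity)
          exact mul_le_mul_of_nonneg_left h8 hBd0
    have h6 : n1 v r N' (PowerSeries.coeff s SM) ≤
        Bd * Ek ^ (a₁ * (b * 4 ^ j)) * X ^ ((k + 2) * b) * (Ek * X) ^ s := by
      have h7 : lam ^ s * (Ek * X) ^ s = 1 := by rw [← mul_pow, hlamk, one_pow]
      calc n1 v r N' (PowerSeries.coeff s SM) =
          n1 v r N' (PowerSeries.coeff s SM) * lam ^ s * (Ek * X) ^ s := by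
            rw [mul_assoc, h7, mul_one]
        _ ≤ _ := mul_le_mul_of_nonneg_right h5 (by positivity)
    rw [hdlT, mul_one]
    refine h6.trans ?_
    have h8 : 1 ≤ (Z * RB) ^ (a₁ * b) :=
      one_le_pow₀ (one_le_mul_of_one_le_of_one_le hZ1 hRB1)
    have h10 : 0 ≤ Bd * Ek ^ (a₁ * (b * 4 ^ j)) := by positivity
    calc Bd * Ek ^ (a₁ * (b * 4 ^ j)) * X ^ ((k + 2) * b) * (Ek * X) ^ s =
        Bd * Ek ^ (a₁ * (b * 4 ^ j)) * 1 * (X ^ ((k + 2) * b) * (Ek * X) ^ s) := by ring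
      _ ≤ Bd * Ek ^ (a₁ * (b * 4 ^ j)) * (Z * RB) ^ (a₁ * b) *
          (X ^ ((k + 2) * b) * (Ek * X) ^ s) := by
        apply mul_le_mul_of_nonneg_right _ (by positivity)
        exact mul_le_mul_of_nonneg_left h8 h10
      _ = _ := by ring
  · -- case 2
    push Not at hcase
    obtain ⟨hdlne, hsT⟩ := hcase
    obtain ⟨hch, hz0, hz1⟩ := hdl.resolve_left hdlne
    obtain ⟨lam, hlam⟩ : ∃ lam : ℝ, lam = dl / (Ek * X) := ⟨_, rfl⟩
    have hlam0 : 0 < lam := by rw [hlam]; positivity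
    have hlamk : lam * (Ek * X) = dl := by rw [hlam]; field_simp
    have hlamt : lam * (E₀.k v * mq v q) ≤ 1 := by
      refine le_trans ?_ hdl1
      refine le_of_le_of_eq ?_ hlamk
      rw [← hX]
      apply mul_le_mul_of_nonneg_left _ hlam0.le
      exact mul_le_mul_of_nonneg_right (hE₀k.trans hkE) hX0.le
    have hlamd : lam ≤ dl * (1 / kk) := by
      rw [hlam, div_eq_mul_one_div]
      refine mul_le_mul_of_nonneg_left ?_ hdl0.le
      refine one_div_le_one_div_of_le hkk0 (hkE.trans ?_)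
      exact le_mul_of_one_le_right hEk0.le hX1
    have hlamt' : lam * E₀.k v ≤ 1 := by
      refine le_trans ?_ hlamt
      apply mul_le_mul_of_nonneg_left _ hlam0.le
      exact le_mul_of_one_le_right (E₀.pos v).le (one_le_mqB v q)
    have hrl : r ^ (4 ^ j) ≤ lam * rho := by
      rw [hlam, div_mul_eq_mul_div, le_div_iff₀ hkkX]
      exact hr
    obtain ⟨ν, hν⟩ : ∃ ν : D2 L τ → ℝ, ν = fun f : D2 L τ => n2 v r lam N' s f := ⟨_, rfl⟩
    have hSN' : SN v ν := by rw [hν]; exact SN_n2 v hr0 hlam0.le N' s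
    have hchart : ∀ b, v (y₀ b) ≤ κ.k v := hch
    obtain ⟨hξ1, hd1⟩ := hPKG.2 lam hlam0.le hlamt r hr0 hrl
    obtain ⟨c, d, hd0, hdξ, hdn⟩ := hd1 hchart
    have hx0ne : x0 ≠ 0 := by
      intro h
      rw [h] at hx01
      unfold lf at hx01
      simp only [Pi.zero_apply, mul_zero, Finset.sum_const_zero] at hx01
      exact zero_ne_one hx01
    have hMpos : 0 < vm v (A.mu j x0) := by
      obtain ⟨Q, hQ⟩ := AV.exists_rep hx0ne hx0
      exact vm_pos v (hQ.mu j).ne_zero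
    -- the size of `x0`
    have hx0vm : max 1 (vm v x0) ^ 4 ^ j ≤ kk ^ 4 ^ j * vm v (A.mu j x0) := by
      have h1 : 1 ≤ F.k v * vm v x0 := by
        have h2 := hF (SN_self v) 0 x0 (vm v x0) (vm_nonneg v x0) fun i => le_vm v x0 i
        have h2' : v (lf (nd.l 0) x0) ≤ F.k v * vm v x0 := h2
        rw [hx01, map_one] at h2'
        exact h2'
      have h3 : max 1 (vm v x0) ≤ F.k v * vm v x0 :=
        max_le h1 (le_mul_of_one_le_left (vm_nonneg v x0) (F.one_le v))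
      calc max 1 (vm v x0) ^ 4 ^ j ≤ (F.k v * vm v x0) ^ 4 ^ j :=
            pow_le_pow_left₀ (by positivity) h3 _
        _ = F.k v ^ 4 ^ j * vm v x0 ^ 4 ^ j := mul_pow _ _ _
        _ ≤ F.k v ^ 4 ^ j * (κm.k v ^ 4 ^ j * vm v (A.mu j x0)) := by
            refine mul_le_mul_of_nonneg_left ?_ (pow_nonneg (F.pos v).le _)
            refine (hκm L v x0 hx0 j).trans (mul_le_mul_of_nonneg_right ?_ hMpos.le)
            exact pow_le_pow_right₀ (κm.one_le v) (Nat.sub_le _ _)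
        _ = (κm.k v * F.k v) ^ 4 ^ j * vm v (A.mu j x0) := by
            rw [mul_pow]
            ring
        _ ≤ kk ^ 4 ^ j * vm v (A.mu j x0) := by
            refine mul_le_mul_of_nonneg_right ?_ hMpos.le
            exact pow_le_pow_left₀ (mul_nonneg (κm.pos v).le (F.pos v).le) hκF _
    have hrk : r ^ 4 ^ j * E₀.k v ≤ rho := by
      calc r ^ 4 ^ j * E₀.k v ≤ lam * rho * E₀.k v :=
            mul_le_mul_of_nonneg_right hrl (E₀.pos v).le
        _ = lam * E₀.k v * rho := by ring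
        _ ≤ 1 * rho := mul_le_mul_of_nonneg_right hlamt' hrho
        _ = rho := one_mul _
    have hy' : ∀ i, ν (y i) ≤ kk := by
      intro i
      rw [hν]
      exact (hPKG.1 hchart r lam hr0 hrk hlam0.le hlamt' i N' s).trans hE₀k
    -- the values of the centre
    obtain ⟨r₀, hr₀d⟩ : ∃ r₀ : ℝ, r₀ = (rho / kk) ^ (((4 ^ j : ℕ) : ℝ)⁻¹) := ⟨_, rfl⟩
    have hrk0 : 0 ≤ rho / kk := div_nonneg hrho hkk0.le
    have hr₀0 : 0 ≤ r₀ := by rw [hr₀d]; exact Real.rpow_nonneg hrk0 _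
    have hr₀w : r₀ ^ 4 ^ j = rho / kk := by
      rw [hr₀d]
      exact Real.rpow_inv_natCast_pow hrk0 (pow_ne_zero j four_ne_zero)
    have hκ0 : 0 ≤ 1 / kk := div_nonneg zero_le_one hkk0.le
    have hz : ∀ z : MvPolynomial (Fin (k + 2)) K, z.totalDegree ≤ D →
        NV v (MvPolynomial.map (algebraMap K L) z) ≤ RB →
        v (aeval (fun t : Fin (k + 2) => lf (nd.l t.succ) y₀) z) ≤ dl →
        ν (aeval (fun t : Fin (k + 2) => lf (nd.l t.succ) y) z) ≤
          (cst v 2 * RB * (kk * kk) ^ D) * dl := by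
      intro z hzD hzR hzv
      obtain ⟨f, hf⟩ : ∃ f : D2 L τ, f = aeval (fun t : Fin (k + 2) => lf (nd.l t.succ) y) z :=
        ⟨_, rfl⟩
      rw [← hf]
      have hfE : f ∈ Set.range (Exp L τ (4 ^ j) (pow_ne_zero j four_ne_zero)) := by
        rw [hf]
        exact Exp_aeval _ _ z _ fun t => Exp_lf _ _ _ _ hyE
      have hfc : c00 f = C (aeval (fun t : Fin (k + 2) => lf (nd.l t.succ) y₀) z) := by
        rw [hf]
        exact c00_aeval z _ _ fun t => c00_lf _ _ _ hyc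
      have h3 : n2 v r₀ (1 / kk) N' s f ≤ RB * (kk * kk) ^ D := by
        have hSN2 : SN v (fun f : D2 L τ => n2 v r₀ (1 / kk) N' s f) := SN_n2 v hr₀0 hκ0 N' s
        have h4 : ∀ t : Fin (k + 2), n2 v r₀ (1 / kk) N' s (lf (nd.l t.succ) y) ≤ kk * kk := by
          intro t
          refine (hF hSN2 t.succ y kk hkk0.le fun i => ?_).trans
            (mul_le_mul_of_nonneg_right hFk hkk0.le)
          refine le_trans (hPKG.1 hchart r₀ (1 / kk) hr₀0 ?_ hκ0 ?_ i N' s) hE₀k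
          · rw [hr₀w, div_mul_eq_mul_div, div_le_iff₀ hkk0]
            exact mul_le_mul_of_nonneg_left hE₀k hrho
          · rw [div_mul_eq_mul_div, one_mul, div_le_iff₀ hkk0, one_mul]
            exact hE₀k
        have h5 := SN_aeval_pow hSN2 z (D := D) (fun m hm => by
          refine le_trans ?_ ((le_totalDegree hm).trans hzD)
          rw [Finsupp.sum_fintype _ _ (fun _ => rfl)]) (fun t : Fin (k + 2) => lf (nd.l t.succ) y)
          (one_le_mul_of_one_le_of_one_le hkk1 hkk1) h4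
        rw [hf]
        exact h5.trans (mul_le_mul_of_nonneg_right hzR (by positivity))
      obtain ⟨g, hg⟩ : ∃ g : D2 L τ, g = f - PowerSeries.C (PowerSeries.C (c00 f)) := ⟨_, rfl⟩
      have hgE : g ∈ Set.range (Exp L τ (4 ^ j) (pow_ne_zero j four_ne_zero)) := by
        obtain ⟨f', hf'⟩ := hfE
        refine ⟨f' - algebraMap L (D2 L τ)
          (aeval (fun t : Fin (k + 2) => lf (nd.l t.succ) y₀) z), ?_⟩
        rw [map_sub, hf', Exp_alg, hg, hfc, algebraMap_D2]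
      have hg0 : c00 g = 0 := by
        rw [hg]
        unfold c00
        rw [map_sub, map_sub, PowerSeries.constantCoeff_C, PowerSeries.constantCoeff_C,
          sub_self]
      have h5 : ν g ≤ dl * (RB * (kk * kk) ^ D) := by
        rw [hν]
        refine (n2_scale_w v (pow_ne_zero j four_ne_zero) hr0 hlam0.le hr₀0 hdl0.le hdl1 ?_ hlamd
          hκ0 N' s g hgE hg0).trans (mul_le_mul_of_nonneg_left ?_ hdl0.le)
        · rw [hr₀w]
          refine hrl.trans ((mul_le_mul_of_nonneg_right hlamd hrho).trans (le_of_eq ?_))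
          ring
        · rw [hg]
          exact (n2_sub_const v hr₀0 hκ0 N' s f).trans h3
      have h6 : ν (PowerSeries.C (PowerSeries.C (c00 f))) ≤ dl * (RB * (kk * kk) ^ D) := by
        rw [hν]
        show n2 v r lam N' s _ ≤ _
        rw [n2_C v hr0, n1_C, hfc, NV_C]
        refine hzv.trans ?_
        exact le_mul_of_one_le_right hdl0.le
          (one_le_mul_of_one_le_of_one_le hRB1
            (one_le_pow₀ (one_le_mul_of_one_le_of_one_le hkk1 hkk1)))
      have h7 := hSN'.add_le_cst h5 h6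
      rw [hg, sub_add_cancel] at h7
      refine h7.trans (le_of_eq ?_)
      ring
    have hκ1 : 1 ≤ cst v 2 * RB * (kk * kk) ^ D :=
      one_le_mul_of_one_le_of_one_le (one_le_mul_of_one_le_of_one_le hc21 hRB1)
        (one_le_pow₀ (one_le_mul_of_one_le_of_one_le hkk1 hkk1))
    have hO' : ORDA nd ρ j b T (fun μ => (PowerSeries.C (Φ μ) : D2 L τ)) x0 := by
      intro c' r' l' β hβ
      have h := congrArg (PowerSeries.C (R := D1 L τ)) (hO c' r' l' β hβ)
      rw [map_sum, map_zero] at h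
      rw [← h]
      refine Finset.sum_congr rfl fun μ _ => ?_
      rw [map_mul]
      show PowerSeries.C (Φ μ) * _ = _
      rw [PowerSeries.algebraMap_apply (A := D1 L τ)]
    have hBd' : ∀ μ ∈ box (fun _ : Fin (k + 2) => b + 1), ν (PowerSeries.C (Φ μ)) ≤ Bd := by
      intro μ hμ
      rw [hν]
      show n2 v r lam N' s _ ≤ Bd
      rw [n2_C v hr0]
      exact hBd μ hμ
    have hmain := hgain hSN' ρ hD hb (fun μ => (PowerSeries.C (Φ μ) : D2 L τ)) x0 hO' hBd' hκ1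
      hdl0 hdl1 hc2 hkk1 hX1 hMpos hx0vm y hy hy1 hy'
      (hz _ (hD.1 0) (by rw [hRB]; exact z_le_RB (ρ.map (algebraMap K L)) v 0) hz0)
      (hz _ (hD.1 1) (by rw [hRB]; exact z_le_RB (ρ.map (algebraMap K L)) v 1) hz1)
      c ξ d (by rw [LB1_EA]; exact hd0) (fun t => by rw [LB1_EA]; exact hdξ t) (by
        rw [hν]
        refine (hdn N' s).trans ?_
        rw [← hX]
        exact div_le_div_of_nonneg_right (mul_le_mul_of_nonneg_right hE₀k hX0.le)
          (by positivity))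
    rw [← hSM, ← hRB, ← hZ] at hmain
    have h4 : n1 v r N' (PowerSeries.coeff s SM) * lam ^ s ≤ n2 v r lam N' s SM :=
      PA_coeff_le (SN_n1 v hr0 N') hlam0.le (le_refl s) SM
    have h5 : n1 v r N' (PowerSeries.coeff s SM) * lam ^ s ≤
        Bd * Ek ^ (a₁ * (b * 4 ^ j)) * (Z * RB) ^ (a₁ * b) * X ^ ((k + 2) * b) * dl ^ T := by
      refine h4.trans ?_
      have h6 : n2 v r lam N' s SM = ν SM := by rw [hν]
      rw [h6]
      refine hmain.trans ?_
      have hZR : 1 ≤ Z * RB := one_le_mul_of_one_le_of_one_le hZ1 hRB1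
      have h7 : (Z * RB * (cst v 2 * RB * (kk * kk) ^ D)) ^ (a * b) ≤
          (Z * RB) ^ (2 * (a * b)) * kk ^ ((2 * D + 1) * (a * b)) := by
        have h8 : Z * RB * (cst v 2 * RB * (kk * kk) ^ D) ≤ (Z * RB) ^ 2 * kk ^ (2 * D + 1) := by
          have h9 : cst v 2 * RB * (kk * kk) ^ D ≤ Z * RB * kk ^ (2 * D + 1) := by
            have h10 : cst v 2 ≤ Z * kk := by
              calc cst v 2 ≤ kk := hc2
                _ = 1 * kk := (one_mul _).symm
                _ ≤ Z * kk := mul_le_mul_of_nonneg_right hZ1 hkk0.le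
            have h11 : (kk * kk) ^ D = kk ^ (2 * D) := by
              rw [← pow_two, ← pow_mul]
            calc cst v 2 * RB * (kk * kk) ^ D = cst v 2 * (RB * kk ^ (2 * D)) := by
                  rw [h11]
                  ring
              _ ≤ Z * kk * (RB * kk ^ (2 * D)) := mul_le_mul_of_nonneg_right h10 (by positivity)
              _ = Z * RB * kk ^ (2 * D + 1) := by
                rw [pow_succ]
                ring
          calc Z * RB * (cst v 2 * RB * (kk * kk) ^ D) ≤ Z * RB * (Z * RB * kk ^ (2 * D + 1)) :=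
                mul_le_mul_of_nonneg_left h9 (by positivity)
            _ = _ := by ring
        have h9 : 0 ≤ Z * RB * (cst v 2 * RB * (kk * kk) ^ D) := by positivity
        refine (pow_le_pow_left₀ h9 h8 _).trans (le_of_eq ?_)
        rw [mul_pow, ← pow_mul, ← pow_mul]
      have h8 : (E₁.k v * kk) ^ (a * (b * 4 ^ j)) * kk ^ ((2 * D + 1) * (a * b)) ≤
          Ek ^ (a₁ * (b * 4 ^ j)) := by
        have h9 : (E₁.k v * kk) ^ (a * (b * 4 ^ j)) ≤ Ek ^ (a * (b * 4 ^ j)) :=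
          pow_le_pow_left₀ (mul_nonneg (E₁.pos v).le hkk0.le) hEE _
        have h10 : kk ^ ((2 * D + 1) * (a * b)) ≤ Ek ^ ((2 * D + 1) * (a * (b * 4 ^ j))) := by
          refine (pow_le_pow_left₀ hkk0.le hkE _).trans (pow_le_pow_right₀ hEk1 ?_)
          exact Nat.mul_le_mul_left _ (Nat.mul_le_mul_left _ hb4)
        refine (mul_le_mul h9 h10 (by positivity) (by positivity)).trans ?_
        rw [← pow_add]
        refine pow_le_pow_right₀ hEk1 ?_
        rw [ha₁]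
        calc a * (b * 4 ^ j) + (2 * D + 1) * (a * (b * 4 ^ j)) =
            ((2 * D + 2) * a) * (b * 4 ^ j) := by ring
          _ ≤ ((2 * D + 2) * a + 2 * (k + 2)) * (b * 4 ^ j) :=
            Nat.mul_le_mul_right _ (Nat.le_add_right _ _)
      have h9 : (Z * RB) ^ (2 * (a * b)) ≤ (Z * RB) ^ (a₁ * b) := by
        refine pow_le_pow_right₀ hZR ?_
        rw [ha₁]
        calc 2 * (a * b) = (2 * a) * b := by ring
          _ ≤ ((2 * D + 2) * a + 2 * (k + 2)) * b := by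
            refine Nat.mul_le_mul_right _ ((Nat.mul_le_mul_right _ ?_).trans
              (Nat.le_add_right _ _))
            omega
      have hp1 : 0 ≤ (E₁.k v * kk) ^ (a * (b * 4 ^ j)) :=
        pow_nonneg (mul_nonneg (E₁.pos v).le hkk0.le) _
      calc Bd * (E₁.k v * kk) ^ (a * (b * 4 ^ j)) *
            (Z * RB * (cst v 2 * RB * (kk * kk) ^ D)) ^ (a * b) * X ^ ((k + 2) * b) * dl ^ T ≤
          Bd * (E₁.k v * kk) ^ (a * (b * 4 ^ j)) *
            ((Z * RB) ^ (2 * (a * b)) * kk ^ ((2 * D + 1) * (a * b))) *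
              X ^ ((k + 2) * b) * dl ^ T := by
            gcongr
        _ = Bd * ((E₁.k v * kk) ^ (a * (b * 4 ^ j)) * kk ^ ((2 * D + 1) * (a * b))) *
              (Z * RB) ^ (2 * (a * b)) * X ^ ((k + 2) * b) * dl ^ T := by ring
        _ ≤ _ := by gcongr
    have h6 : lam ^ s * (Ek * X) ^ s = dl ^ s := by rw [← mul_pow, hlamk]
    have hdls : 0 < dl ^ s := by positivity
    have h7 : n1 v r N' (PowerSeries.coeff s SM) * dl ^ s ≤
        Bd * (Ek ^ (a₁ * (b * 4 ^ j)) * (Z * RB) ^ (a₁ * b) * X ^ ((k + 2) * b) * (Ek * X) ^ s *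
          dl ^ (T - s)) * dl ^ s := by
      calc n1 v r N' (PowerSeries.coeff s SM) * dl ^ s =
          n1 v r N' (PowerSeries.coeff s SM) * lam ^ s * (Ek * X) ^ s := by
            rw [← h6]
            ring
        _ ≤ Bd * Ek ^ (a₁ * (b * 4 ^ j)) * (Z * RB) ^ (a₁ * b) * X ^ ((k + 2) * b) * dl ^ T *
            (Ek * X) ^ s :=
            mul_le_mul_of_nonneg_right h5 (by positivity)
        _ = _ := by
            rw [show dl ^ T = dl ^ (T - s) * dl ^ s by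
              rw [← pow_add, Nat.sub_add_cancel hsT.le]]
            ring
    exact le_of_mul_le_mul_right h7 hdls

end Pool.Agent.Lib.MP_17a322_nt.VA
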