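import Pool.Agent.Lib.MP_17a322_nt.VN.L1t

/-!
Real arithmetic: the conversion of the inequality over `L` to the inequality over `K`.
-/

namespace Pool.Agent.Lib.MP_17a322_nt.VA

open Pool.Agent.Lib.MP_17a322_nt.VN

private theorem LB2_term (n N a₁ : ℕ) (dK le Ck Ch Cf : ℝ) (hdK : 0 ≤ dK) (hle : 0 ≤ le)
    (hCk : 0 ≤ Ck) (hCh : 0 ≤ Ch) (hCf : 0 ≤ Cf) (C : ℝ) (hC1 : Ck + Ch + Cf ≤ C)
    (d H kk : ℝ) (J j : ℕ) (s : ℕ) (E g sl ht hq gL gG : ℝ) (hd : 0 < d) (hH : 0 ≤ H)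
    (hjJ : j ≤ J) (hht : ht ≤ 4 ^ j)
    (hkk : kk ≤ d * Ck) (hhq : hq ≤ d * (2 * E + Ch * 4 ^ j)) (hgL : d * g ≤ gL)
    (hgG : gG ≤ d * Cf - d * sl) :
    a₁ * (N * 4 ^ J) * kk + a₁ * (N * 4 ^ (J - j)) * ((d * dK) * le + d * ht) +
          n * (N * 4 ^ (J - j)) * hq + s * (kk + hq) -
          ((4 ^ (J - j) - s : ℕ) : ℝ) * gL + s * gG ≤
      d * (4 * 4 ^ j * H + 2 * ((n * N : ℕ) : ℝ) * 4 ^ (J - j) * E + s * (C * 4 ^ j + 2 * E) -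
      ((4 ^ (J - j) - s : ℕ) : ℝ) * g - s * sl +
      (a₁ * N * Ck + a₁ * N * (dK * le + 1) + n * N * Ch) * 4 ^ J) := by
  have hw : (4 : ℝ) ^ J = 4 ^ (J - j) * 4 ^ j := by
    rw [← pow_add, Nat.sub_add_cancel hjJ]
  rw [hw]
  push_cast
  have hy : (1 : ℝ) ≤ 4 ^ j := one_le_pow₀ (by norm_num)
  have hz : (1 : ℝ) ≤ 4 ^ (J - j) := one_le_pow₀ (by norm_num)
  have hwn : (0 : ℝ) ≤ ((4 ^ (J - j) - s : ℕ) : ℝ) := Nat.cast_nonneg _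
  generalize (4 : ℝ) ^ j = y at hy hht hhq ⊢
  generalize (4 : ℝ) ^ (J - j) = z at hz ⊢
  generalize ((4 ^ (J - j) - s : ℕ) : ℝ) = w at hwn ⊢
  have hy0 : 0 ≤ y := zero_le_one.trans hy
  have hz0 : 0 ≤ z := zero_le_one.trans hz
  have hs : (0 : ℝ) ≤ s := Nat.cast_nonneg s
  have hN : (0 : ℝ) ≤ N := Nat.cast_nonneg N
  have hn : (0 : ℝ) ≤ n := Nat.cast_nonneg n
  have hF : (0 : ℝ) ≤ a₁ := Nat.cast_nonneg a₁
  have hd0 := hd.le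
  have t1 : a₁ * (N * (z * y)) * kk ≤ a₁ * (N * (z * y)) * (d * Ck) :=
    mul_le_mul_of_nonneg_left hkk (by positivity)
  have hle' : dK * le ≤ dK * le * y := le_mul_of_one_le_right (mul_nonneg hdK hle) hy
  have t2a : d * dK * le + d * ht ≤ d * ((dK * le + 1) * y) := by
    have e1 : d * dK * le + d * ht = d * (dK * le + ht) := by ring
    rw [e1]
    refine mul_le_mul_of_nonneg_left ?_ hd0
    linarith
  have t2 : a₁ * (N * z) * (d * dK * le + d * ht) ≤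
      a₁ * (N * z) * (d * ((dK * le + 1) * y)) :=
    mul_le_mul_of_nonneg_left t2a (by positivity)
  have t3 : 0 ≤ d * (4 * y * H) := by positivity
  have t4 : n * (N * z) * hq ≤ n * (N * z) * (d * (2 * E + Ch * y)) :=
    mul_le_mul_of_nonneg_left hhq (by positivity)
  have t5 : s * (kk + hq) ≤ s * ((d * Ck) + d * (2 * E + Ch * y)) :=
    mul_le_mul_of_nonneg_left (by linarith) hs
  have t6 : w * (d * g) ≤ w * gL := mul_le_mul_of_nonneg_left hgL hwn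
  have t7 : s * gG ≤ s * (d * Cf - d * sl) := mul_le_mul_of_nonneg_left hgG hs
  have t8 : s * (d * ((Ck + Cf) * 1)) ≤ s * (d * ((Ck + Cf) * y)) := by
    refine mul_le_mul_of_nonneg_left (mul_le_mul_of_nonneg_left
      (mul_le_mul_of_nonneg_left hy (by positivity)) hd0) hs
  have t9 : s * (d * ((Ck + Ch + Cf) * y)) ≤ s * (d * (C * y)) := by
    refine mul_le_mul_of_nonneg_left (mul_le_mul_of_nonneg_left
      (mul_le_mul_of_nonneg_right hC1 hy0) hd0) hs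
  linarith

/-- The conversion to `K`. -/
theorem conv_ineqA (m n N a₁ : ℕ) (dK le Ck Ch Cr Cf : ℝ) (hdK : 0 ≤ dK) (hle : 0 ≤ le)
    (hCk : 0 ≤ Ck) (hCh : 0 ≤ Ch) (hCr : 0 ≤ Cr) (hCf : 0 ≤ Cf) :
    ∃ C : ℝ, 0 ≤ C ∧ ∀ (d lF H hx kk : ℝ) (J : ℕ) (j s : Fin m → ℕ)
      (E g sl hP ht hq gL gG rr : Fin m → ℝ) (a : ℕ), 0 < d → 0 ≤ lF → 0 ≤ H → (∀ i, 0 ≤ E i) →
      (∀ i, 0 ≤ hP i) → (∀ i, j i ≤ J) → (∀ i, ht i ≤ 4 ^ j i) → hx ≤ d * (2 * n * H + Ch) →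
      kk ≤ d * Ck → (∀ i, hq i ≤ d * (2 * E i + Ch * 4 ^ j i)) → (∀ i, d * g i ≤ gL i) →
      (∀ i, gG i ≤ d * Cf - d * sl i) → (∀ i, rr i ≤ d * (Cr * (4 ^ j i + hP i) + 2 * E i)) →
      0 ≤ d * lF + (d * dK) * (n * (N * 4 ^ J)) + N * 4 ^ J * hx +
        ∑ i, (a₁ * (N * 4 ^ J) * kk +
          a₁ * (N * 4 ^ (J - j i)) * ((d * dK) * le + d * ht i) +
          n * (N * 4 ^ (J - j i)) * hq i + s i * (kk + hq i) -
          ((4 ^ (J - j i) - s i : ℕ) : ℝ) * gL i + s i * gG i) +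
        a * ∑ i, (4 ^ j i : ℝ)⁻¹ * rr i →
      INEQ C lF H (n * N) J j s E g sl hP a := by
  obtain ⟨C0, hC0⟩ : ∃ C0 : ℝ, C0 = a₁ * N * Ck + a₁ * N * (dK * le + 1) + n * N * Ch :=
    ⟨_, rfl⟩
  have hC00 : 0 ≤ C0 := by rw [hC0]; positivity
  obtain ⟨C, hCd⟩ : ∃ C : ℝ, C = n * N * dK + N * Ch + m * C0 + (Ck + Ch + Cf) + Cr := ⟨_, rfl⟩
  have hp1 : (0 : ℝ) ≤ n * N * dK := by positivity
  have hp2 : (0 : ℝ) ≤ N * Ch := by positivity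
  have hp3 : (0 : ℝ) ≤ m * C0 := by positivity
  have hC : 0 ≤ C := by rw [hCd]; positivity
  have hC1 : Ck + Ch + Cf ≤ C := by rw [hCd]; linarith
  have hC2 : Cr ≤ C := by rw [hCd]; linarith
  have hC3 : n * N * dK + N * Ch + m * C0 ≤ C := by rw [hCd]; linarith
  refine ⟨C, hC, ?_⟩
  intro d lF H hx kk J j s E g sl hP ht hq gL gG rr a hd hlF hH hE hhP hjJ hht hhx hkk hhq hgL hgG
    hrr h
  unfold INEQ
  have hd0 := hd.le
  have hJ : (0 : ℝ) ≤ 4 ^ J := by positivity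
  have h1 := Finset.sum_le_sum (s := Finset.univ) fun i (_ : i ∈ Finset.univ) =>
    LB2_term n N a₁ dK le Ck Ch Cf hdK hle hCk hCh hCf C hC1 d H kk J (j i) (s i) (E i) (g i)
      (sl i) (ht i) (hq i) (gL i) (gG i) hd hH (hjJ i) (hht i) hkk (hhq i) (hgL i) (hgG i)
  rw [← hC0] at h1
  rw [← Finset.mul_sum] at h1
  have h1c : ∑ i, (4 * 4 ^ j i * H + 2 * ((n * N : ℕ) : ℝ) * 4 ^ (J - j i) * E i +
      s i * (C * 4 ^ j i + 2 * E i) -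
      ((4 ^ (J - j i) - s i : ℕ) : ℝ) * g i - s i * sl i + C0 * 4 ^ J) =
      (∑ i, (4 * 4 ^ j i * H + 2 * ((n * N : ℕ) : ℝ) * 4 ^ (J - j i) * E i +
      s i * (C * 4 ^ j i + 2 * E i) -
      ((4 ^ (J - j i) - s i : ℕ) : ℝ) * g i - s i * sl i)) + m * (C0 * 4 ^ J) := by
    rw [Finset.sum_add_distrib, Finset.sum_const, Finset.card_univ, Fintype.card_fin,
      nsmul_eq_mul]
  rw [h1c] at h1
  have h2 : ∑ i, (4 ^ j i : ℝ)⁻¹ * rr i ≤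
      d * ∑ i, (4 ^ j i : ℝ)⁻¹ * (C * (4 ^ j i + hP i) + 2 * E i) := by
    rw [Finset.mul_sum]
    refine Finset.sum_le_sum fun i _ => ?_
    have h3 : (0 : ℝ) ≤ (4 ^ j i : ℝ)⁻¹ := by positivity
    have h4 : (0 : ℝ) ≤ 4 ^ j i + hP i := add_nonneg (by positivity) (hhP i)
    have h5 : rr i ≤ d * (C * (4 ^ j i + hP i) + 2 * E i) := by
      refine (hrr i).trans (mul_le_mul_of_nonneg_left ?_ hd0)
      have h6 := mul_le_mul_of_nonneg_right hC2 h4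
      linarith
    refine (mul_le_mul_of_nonneg_left h5 h3).trans (le_of_eq ?_)
    ring
  have h3 : (a : ℝ) * ∑ i, (4 ^ j i : ℝ)⁻¹ * rr i ≤
      a * (d * ∑ i, (4 ^ j i : ℝ)⁻¹ * (C * (4 ^ j i + hP i) + 2 * E i)) :=
    mul_le_mul_of_nonneg_left h2 (Nat.cast_nonneg a)
  have h4 : N * 4 ^ J * hx ≤ N * 4 ^ J * (d * (2 * n * H + Ch)) :=
    mul_le_mul_of_nonneg_left hhx (by positivity)
  have h5 : d * ((n * N * dK + N * Ch + m * C0) * 4 ^ J) ≤ d * (C * 4 ^ J) :=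
    mul_le_mul_of_nonneg_left (mul_le_mul_of_nonneg_right hC3 hJ) hd0
  refine (mul_nonneg_iff_of_pos_left hd).1 ?_
  have h6 : (((n * N : ℕ) : ℝ)) = n * N := by push_cast; ring
  rw [h6] at h1 ⊢
  generalize (∑ i, (a₁ * (N * 4 ^ J) * kk +
          a₁ * (N * 4 ^ (J - j i)) * ((d * dK) * le + d * ht i) +
          n * (N * 4 ^ (J - j i)) * hq i + s i * (kk + hq i) -
          ((4 ^ (J - j i) - s i : ℕ) : ℝ) * gL i + s i * gG i) : ℝ) = S1 at h h1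
  generalize (∑ i, (4 ^ j i : ℝ)⁻¹ * rr i : ℝ) = S2 at h h3
  generalize (∑ i, (4 ^ j i : ℝ)⁻¹ * (C * (4 ^ j i + hP i) + 2 * E i) : ℝ) = S3 at h3 ⊢
  generalize (∑ i, (4 * 4 ^ j i * H + 2 * (n * N : ℝ) * 4 ^ (J - j i) * E i +
      s i * (C * 4 ^ j i + 2 * E i) -
      ((4 ^ (J - j i) - s i : ℕ) : ℝ) * g i - s i * sl i) : ℝ) = S4 at h1 ⊢
  generalize (4 : ℝ) ^ J = w at *
  linarith

end Pool.Agent.Lib.MP_17a322_nt.VA
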