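import Pool.Agent.Lib.MP_17a322_nt.VA.LB0
import Pool.Agent.Lib.MP_17a322_nt.VA.LB1
import Pool.Agent.Lib.MP_17a322_nt.VA.C9

/-!
The chain of the local estimates of all blocks.
-/

universe u

namespace Pool.Agent.Lib.MP_17a322_nt.VA

open MvPolynomial Height
open Pool.Agent.Lib.MP_17a322_nt.RO
open Pool.Agent.Lib.MP_17a322_nt.VJ
open Pool.Agent.Lib.MP_17a322_nt.VN

/-- The vanishing conditions are linear. -/
theorem ORDA_lin {K : Type u} [Field K] {N : ℕ} {A : AV K N} {k e₀ : ℕ}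
    (nd : Noe A (k + 2) e₀) {e : ℕ} (ρ : REP K (k + 2) e) (j b T : ℕ) {L : Type*} [Field L]
    [Algebra K L] {R : Type*} [CommRing R] [Algebra L R] (x0 : Fin (N + 1) → L)
    (s : Finset (Fin (k + 2) → ℕ)) (c : (Fin (k + 2) → ℕ) → R)
    (Φ : (Fin (k + 2) → ℕ) → (Fin (k + 2) → ℕ) → R)
    (h : ∀ p ∈ s, ORDA nd ρ j b T (Φ p) x0) :
    ORDA nd ρ j b T (fun μ => ∑ p ∈ s, c p * Φ p μ) x0 := by
  intro c' r l β hβ
  have h1 : ∀ ν ∈ box (fun _ : Fin (k + 2) => b + 1), (∑ p ∈ s, c p * Φ p ν) *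
      algebraMap L R (coeff β (spA x0 (HA nd ρ j b c' r l ν))) =
      ∑ p ∈ s, c p * (Φ p ν * algebraMap L R (coeff β (spA x0 (HA nd ρ j b c' r l ν)))) := by
    intro ν _
    rw [Finset.sum_mul]
    exact Finset.sum_congr rfl fun p _ => mul_assoc _ _ _
  rw [Finset.sum_congr rfl h1, Finset.sum_comm]
  refine Finset.sum_eq_zero fun p hp => ?_
  rw [← Finset.mul_sum, h p hp c' r l β hβ, mul_zero]

/-- The value of the coefficient `(a, e)` summed over `a`. -/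
noncomputable def cfA {K : Type*} [Field K] {L : Type*} [Field L] [Algebra K L] {m n : ℕ}
    (N J : ℕ) (F₀ : (Fin n → ℕ) → (Fin m → Fin n → ℕ) → K) (x : Fin n → L)
    (ν : Fin m → Fin n → ℕ) : L :=
  ∑ a ∈ box (fun _ : Fin n => N * 4 ^ J + 1), (∏ t, x t ^ a t) * algebraMap K L (F₀ a ν)

private theorem LB5_cfA_zero {K : Type*} [Field K] {L : Type*} [Field L] [Algebra K L] {m n : ℕ}
    (N J : ℕ) (j : Fin m → ℕ) (F₀ : (Fin n → ℕ) → (Fin m → Fin n → ℕ) → K)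
    (hsupp : ∀ a ν, F₀ a ν ≠ 0 → a ∈ box (fun _ : Fin n => N * 4 ^ J + 1) ∧
      ν ∈ BB (fun i : Fin m => N * 4 ^ (J - j i) + 1)) (x : Fin n → L)
    (ν : Fin m → Fin n → ℕ) (h : cfA N J F₀ x ν ≠ 0) :
    ν ∈ BB (fun i : Fin m => N * 4 ^ (J - j i) + 1) := by
  obtain ⟨a, _, ha⟩ := Finset.exists_ne_zero_of_sum_ne_zero h
  have h1 : F₀ a ν ≠ 0 := by
    intro h0
    apply ha
    rw [h0, map_zero, mul_zero]
  exact (hsupp a ν h1).2

/-- The size of the coefficients. -/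
theorem cfA_le {K : Type*} [Field K] {L : Type*} [Field L] [Algebra K L] {m n : ℕ}
    (N J : ℕ) (j : Fin m → ℕ) (F₀ : (Fin n → ℕ) → (Fin m → Fin n → ℕ) → K)
    (hsupp : ∀ a ν, F₀ a ν ≠ 0 → a ∈ box (fun _ : Fin n => N * 4 ^ J + 1) ∧
      ν ∈ BB (fun i : Fin m => N * 4 ^ (J - j i) + 1)) (x : Fin n → L) (v : AbsoluteValue L ℝ)
    (ν : Fin m → Fin n → ℕ) : v (cfA N J F₀ x ν) ≤ MzA N J j F₀ x v := by
  classical
  have hS : 0 ≤ ⨆ p : (box (fun _ : Fin n => N * 4 ^ J + 1)) ×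
      (BB (fun i : Fin m => N * 4 ^ (J - j i) + 1) : Finset (Fin m → Fin n → ℕ)),
        v (algebraMap K L (F₀ p.1 p.2)) := Real.iSup_nonneg fun _ => v.nonneg _
  have hP : 1 ≤ ∏ t, max 1 (v (x t)) := one_le_prod_max _ _ fun _ _ => le_max_left _ _
  have h0 : 0 ≤ (⨆ p : (box (fun _ : Fin n => N * 4 ^ J + 1)) ×
      (BB (fun i : Fin m => N * 4 ^ (J - j i) + 1) : Finset (Fin m → Fin n → ℕ)),
        v (algebraMap K L (F₀ p.1 p.2))) * (∏ t, max 1 (v (x t))) ^ (N * 4 ^ J) :=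
    mul_nonneg hS (pow_nonneg (zero_le_one.trans hP) _)
  have hself : SN v (fun x : L => v x) :=
    { nonneg := v.nonneg
      zero := map_zero v
      neg := fun a => v.map_neg a
      add := v.add_le
      add_max := fun h a b => h a b
      mul := fun a b => (map_mul v a b).le
      map := fun c => le_rfl }
  have h1 := hself.sum_le (box (fun _ : Fin n => N * 4 ^ J + 1))
    (fun a => (∏ t, x t ^ a t) * algebraMap K L (F₀ a ν)) h0 (by
      intro a ha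
      show v _ ≤ _
      rw [map_mul, mul_comm, map_prod]
      by_cases hz : F₀ a ν = 0
      · rw [hz, map_zero, map_zero, zero_mul]
        exact h0
      · obtain ⟨h2, h3⟩ := hsupp a ν hz
        refine mul_le_mul ?_ ?_ (Finset.prod_nonneg fun _ _ => v.nonneg _) hS
        · exact Finite.le_ciSup_of_le (f := fun p : (box (fun _ : Fin n => N * 4 ^ J + 1)) ×
            (BB (fun i : Fin m => N * 4 ^ (J - j i) + 1) : Finset (Fin m → Fin n → ℕ)) =>
              v (algebraMap K L (F₀ p.1 p.2))) (⟨a, h2⟩, ⟨ν, h3⟩) le_rfl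
        · rw [← Finset.prod_pow]
          refine Finset.prod_le_prod (fun _ _ => v.nonneg _) fun t _ => ?_
          rw [map_pow]
          refine (pow_le_pow_left₀ (v.nonneg _) (le_max_right 1 _) _).trans ?_
          exact pow_le_pow_right₀ (le_max_left _ _) (Nat.lt_succ_iff.1 ((mem_box _ _).1 h2 t)))
  have h4 : (box (fun _ : Fin n => N * 4 ^ J + 1)).card = (N * 4 ^ J + 1) ^ n := C08_card n _
  rw [h4] at h1
  exact h1

/-- The chain of the local estimates. -/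
theorem exists_loc_chainA {K : Type u} [Field K] {N : ℕ} {A : AV K N} {k e₀ : ℕ}
    (nd : Noe A (k + 2) e₀) (κ E₀ : SC K) (D : ℕ) :
    ∃ (E : SC K) (a₁ : ℕ), ∀ {L : Type u} [Field L] [Algebra K L] (v : AbsoluteValue L ℝ)
      {m e : ℕ} (ρ : Fin m → REP K (k + 2) e), (∀ i, (ρ i).Deg D) →
      ∀ (N' J : ℕ) (j : Fin m → ℕ), 1 ≤ N' →
      ∀ (F₀ : (Fin (k + 2) → ℕ) → (Fin m → Fin (k + 2) → ℕ) → K),
      (∀ a ν, F₀ a ν ≠ 0 → a ∈ box (fun _ : Fin (k + 2) => N' * 4 ^ J + 1) ∧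
        ν ∈ BB (fun i : Fin m => N' * 4 ^ (J - j i) + 1)) → CCA nd ρ N' J j F₀ →
      ∀ (x0 : Fin (N + 1) → L), A.IsPt x0 → lf (nd.l 0) x0 = 1 →
      ∀ (y₀ : Fin m → Fin (N + 1) → L) (q : Fin m → Fin (k + 2) → L)
        (y : Fin m → Fin (N + 1) → D2 L (Fin m × Fin (k + 2)))
        (ξ : Fin m → Fin (k + 2) → D2 L (Fin m × Fin (k + 2))) (rho : Fin m → ℝ),
      (∀ i, 0 ≤ rho i) → (∀ i, A.IsPt (y i)) → (∀ i, lf (nd.l 0) (y i) = 1) →
      (∀ i b, y i b ∈ Set.range (Exp L (Fin m × Fin (k + 2)) (4 ^ j i)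
        (pow_ne_zero (j i) four_ne_zero))) →
      (∀ i b, c00 (y i b) = C (y₀ i b)) →
      (∀ i, PKG nd κ E₀ (4 ^ j i) v (y₀ i) (A.mu (j i) x0) (q i) (y i) (ξ i) (rho i)) →
      ∀ (dl : Fin m → ℝ), (∀ i, 0 < dl i) → (∀ i, dl i ≤ 1) →
      (∀ i, dl i = 1 ∨ ((∀ b, v (y₀ i b) ≤ κ.k v) ∧
        v (aeval (fun t : Fin (k + 2) => lf (nd.l t.succ) (y₀ i)) ((ρ i).z 0)) ≤ dl i ∧
        v (aeval (fun t : Fin (k + 2) => lf (nd.l t.succ) (y₀ i)) ((ρ i).z 1)) ≤ dl i)) →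
      ∀ (s : Fin m → ℕ)
        (F : Fin (m + 1) → MvPolynomial (Fin m × Fin (k + 2)) (D1 L (Fin m × Fin (k + 2)))),
      (∀ e', coeff e' (F 0) = algebraMap L (D1 L (Fin m × Fin (k + 2)))
        (cfA N' J F₀ (fun t => lf (nd.l t.succ) x0) fun i t => e' (i, t))) →
      (∀ i : Fin m, F i.succ = PowerSeries.coeff (s i)
        (PsS (fun p => ξ p.1 p.2) i (F i.castSucc))) →
      ∀ {r : ℝ}, 0 ≤ r → (∀ i, r ^ (4 ^ j i) * (E.k v * mq v (q i)) ≤ dl i * rho i) →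
      ∀ (N₁ : ℕ) (e' : Fin m × Fin (k + 2) →₀ ℕ),
      n1 v r N₁ (coeff e' (F (Fin.last m))) ≤
        MzA N' J j F₀ (fun t => lf (nd.l t.succ) x0) v *
          ∏ i, KFA E v (((ρ i).map (algebraMap K L)).RB v) e a₁ (k + 2) (j i)
            (N' * 4 ^ (J - j i)) (4 ^ (J - j i)) (mq v (q i)) (dl i) (s i) := by
  classical
  obtain ⟨E, a₁, hloc⟩ := exists_block_localA nd κ E₀ D
  refine ⟨E, a₁, ?_⟩
  intro L _ _ v m e ρ hD N' J j hN' F₀ hsupp hCC x0 hx0 hx01 y₀ q y ξ rho hrho hy hy1 hyE hyc hP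
    dl hdl0 hdl1 hdl s F hF0 hF r hr hrr N₁ e'
  have hb : ∀ i, 1 ≤ N' * 4 ^ (J - j i) := fun i =>
    Nat.mul_pos hN' (pow_pos (by norm_num) _)
  have hM0 : 0 ≤ MzA N' J j F₀ (fun t => lf (nd.l t.succ) x0) v := by
    have h1 := cfA_le N' J j F₀ hsupp (fun t : Fin (k + 2) => lf (nd.l t.succ) x0) v
      (fun _ _ => 0)
    exact (v.nonneg _).trans h1
  have hRB : ∀ i, 0 < ((ρ i).map (algebraMap K L)).RB v := fun i =>
    zero_lt_one.trans_le (one_le_RB _ v)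
  refine chainA (SN_n1 v hr N₁) (fun p => ξ p.1 p.2) (fun i => N' * 4 ^ (J - j i)) s
    (fun i Φ => ORDA nd (ρ i) (j i) (N' * 4 ^ (J - j i)) (4 ^ (J - j i)) Φ x0) ?_ _ ?_ ?_ F hF
    ?_ ?_ hM0 ?_ e'
  · intro i s' c Φ h
    exact ORDA_lin nd (ρ i) _ _ _ x0 s' c Φ h
  · intro i
    exact (KFA_pos E v (hRB i) _ _ _ _ _ _ (mq_posB v (q i)) (hdl0 i) _).le
  · intro i Φ Bd hΦ hBd
    exact hloc v (ρ i) (hD i) (hb i) x0 hx0 hx01 (y₀ i) (q i) (y i) (ξ i) (hrho i) (hy i) (hy1 i)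
      (hyE i) (hyc i) (hP i) Φ hΦ hr N₁ hBd (hdl0 i) (hdl1 i) (hdl i) (hrr i) (s i)
  · intro i t
    rw [degreeOf_le_iff]
    intro e'' he''
    have h1 := mem_support_iff.1 he''
    rw [hF0] at h1
    have h2 : cfA N' J F₀ (fun t => lf (nd.l t.succ) x0) (fun i t => e'' (i, t)) ≠ 0 := by
      intro h0
      rw [h0, map_zero] at h1
      exact h1 rfl
    have h3 := LB5_cfA_zero N' J j F₀ hsupp _ _ h2
    unfold BB at h3
    rw [Fintype.mem_piFinset] at h3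
    exact Nat.lt_succ_iff.1 ((mem_box _ _).1 (h3 i) t)
  · intro i e''
    have h1 := ORDA_of_CCA nd (R := D1 L (Fin m × Fin (k + 2))) ρ N' J j F₀ hCC x0 hx0 hx01 i
      (s := ({()} : Finset Unit)) (g := fun _ => 1)
      (ν' := fun _ i t => e'' (i, t))
    have h2 : (fun μ => coeff (ub e'' i μ) (F 0)) = fun μ =>
        ∑ p ∈ ({()} : Finset Unit), (fun _ : Unit => (1 : D1 L (Fin m × Fin (k + 2)))) p *
          algebraMap L (D1 L (Fin m × Fin (k + 2)))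
            (∑ a ∈ box (fun _ : Fin (k + 2) => N' * 4 ^ J + 1),
              (∏ t : Fin (k + 2), lf (nd.l t.succ) x0 ^ a t) *
                algebraMap K L (F₀ a (Function.update ((fun _ i t => e'' (i, t) :
                  Unit → Fin m → Fin (k + 2) → ℕ) p) i μ))) := by
      funext μ
      rw [Finset.sum_singleton, one_mul, hF0]
      unfold cfA
      congr 1
      refine Finset.sum_congr rfl fun a _ => ?_
      congr 3
      funext i' t
      by_cases h3 : i' = i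
      · subst h3
        rw [Function.update_self]
        show (if i' = i' then μ t else e'' (i', t)) = μ t
        rw [if_pos rfl]
      · rw [Function.update_of_ne h3]
        show (if i' = i then μ t else e'' (i', t)) = e'' (i', t)
        rw [if_neg h3]
    rw [h2]
    exact h1
  · intro e''
    rw [hF0, n1_alg]
    exact cfA_le N' J j F₀ hsupp _ v _

end Pool.Agent.Lib.MP_17a322_nt.VA
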