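import Pool.Agent.Lib.MP_17a322_nt.VA.LB5
import Pool.Agent.Lib.MP_17a322_nt.VN.L1q

/-!
The auxiliary polynomial as a polynomial in the variables of part E.
-/

universe u

namespace Pool.Agent.Lib.MP_17a322_nt.VA

open MvPolynomial Height
open Pool.Agent.Lib.MP_17a322_nt.RO
open Pool.Agent.Lib.MP_17a322_nt.VJ
open Pool.Agent.Lib.MP_17a322_nt.VN

/-- The variables of the auxiliary polynomial. -/
def gVE {m n : ℕ} : VL m n → VE m n
  | Sum.inl t => VE.x t
  | Sum.inr (Sum.inl p) => VE.S p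
  | Sum.inr (Sum.inr p) => VE.z p

theorem gVE_inj {m n : ℕ} : Function.Injective (gVE (m := m) (n := n)) := by
  rintro (a | a | a) (b | b | b) h
  · exact congrArg _ (VE.x.inj h)
  · exact absurd h (by unfold gVE; simp)
  · exact absurd h (by unfold gVE; simp)
  · exact absurd h (by unfold gVE; simp)
  · exact congrArg (fun p => Sum.inr (Sum.inl p)) (VE.S.inj h)
  · exact absurd h (by unfold gVE; simp)
  · exact absurd h (by unfold gVE; simp)
  · exact absurd h (by unfold gVE; simp)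
  · exact congrArg (fun p => Sum.inr (Sum.inr p)) (VE.z.inj h)

/-- The auxiliary polynomial. -/
noncomputable def NFA {K : Type*} [Field K] {m n : ℕ} (N J : ℕ) (j : Fin m → ℕ)
    (F : (Fin n → ℕ) → (Fin m → Fin n → ℕ) → K) : MvPolynomial (VE m n) K :=
  rename gVE (NF (box (fun _ : Fin n => N * 4 ^ J + 1))
    (BB (fun i : Fin m => N * 4 ^ (J - j i) + 1)) F)

theorem NFA_ne {K : Type*} [Field K] {m n : ℕ} (N J : ℕ) (j : Fin m → ℕ)
    (F : (Fin n → ℕ) → (Fin m → Fin n → ℕ) → K) (hne : ∃ a ν, F a ν ≠ 0)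
    (hsupp : ∀ a ν, F a ν ≠ 0 → a ∈ box (fun _ : Fin n => N * 4 ^ J + 1) ∧
      ν ∈ BB (fun i : Fin m => N * 4 ^ (J - j i) + 1)) : NFA N J j F ≠ 0 := by
  intro h0
  refine NF_ne _ _ F hne hsupp (rename_injective _ gVE_inj ?_)
  rw [map_zero]
  exact h0

theorem NFA_Oc {K : Type*} [Field K] {m n : ℕ} (N J : ℕ) (j : Fin m → ℕ) (hJ : ∀ i, j i ≤ J)
    (F : (Fin n → ℕ) → (Fin m → Fin n → ℕ) → K) (I : Finset (Fin n)) (y : VE m n)
    (hy : ¬ Oc I 0 y) : (NFA N J j F).degreeOf y = 0 := by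
  obtain ⟨h1, -, -⟩ := NF_degrees (m := m) (n := n) N J j hJ F
  have hnr : (∀ z, gVE z ≠ y) → (NFA N J j F).degreeOf y = 0 := by
    intro h
    unfold NFA
    rw [← Nat.le_zero, degreeOf_le_iff]
    intro e he
    rw [support_rename_of_injective gVE_inj, Finset.mem_image] at he
    obtain ⟨e', -, rfl⟩ := he
    rw [Nat.le_zero, Finsupp.mapDomain_notin_range]
    rintro ⟨z, hz⟩
    exact h z hz
  cases y with
  | x t => exact absurd trivial hy
  | q =>
    apply hnr
    rintro (a | a | a) h <;> exact absurd h (by unfold gVE; simp)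
  | S p =>
    unfold NFA
    have h2 := degreeOf_rename_of_injective (p := NF (box (fun _ : Fin n => N * 4 ^ J + 1))
      (BB (fun i : Fin m => N * 4 ^ (J - j i) + 1)) F) gVE_inj (vS p)
    exact h2.trans (h1 p)
  | w i =>
    apply hnr
    rintro (a | a | a) h <;> exact absurd h (by unfold gVE; simp)
  | z p => exact absurd (Nat.zero_le _) hy
  | v p =>
    apply hnr
    rintro (a | a | a) h <;> exact absurd h (by unfold gVE; simp)

theorem NFA_QE {K : Type u} [Field K] [NumberField K] {m n : ℕ} (N J : ℕ) (j : Fin m → ℕ)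
    (hJ : ∀ i, j i ≤ J) (F : (Fin n → ℕ) → (Fin m → Fin n → ℕ) → K) (hne : ∃ a ν, F a ν ≠ 0)
    (hsupp : ∀ a ν, F a ν ≠ 0 → a ∈ box (fun _ : Fin n => N * 4 ^ J + 1) ∧
      ν ∈ BB (fun i : Fin m => N * 4 ^ (J - j i) + 1)) :
    QE j (N * 4 ^ J) (logHeight (fun p : (box (fun _ : Fin n => N * 4 ^ J + 1)) ×
          (BB (fun i : Fin m => N * 4 ^ (J - j i) + 1) : Finset (Fin m → Fin n → ℕ)) =>
            F p.1 p.2) + Module.finrank ℚ K * (n * (m + 1) * (N * 4 ^ J))) (NFA N J j F) := by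
  classical
  obtain ⟨h1, h2, h3⟩ := NF_degrees (m := m) (n := n) N J j hJ F
  have hN0 : (0 : ℝ) ≤ N * 4 ^ J := by positivity
  refine ⟨fun y => ?_, ?_⟩
  · by_cases hy : Oc (∅ : Finset (Fin n)) 0 y
    · cases y with
      | x t =>
        have h4 := degreeOf_rename_of_injective (p := NF (box (fun _ : Fin n => N * 4 ^ J + 1))
          (BB (fun i : Fin m => N * 4 ^ (J - j i) + 1)) F) gVE_inj (vX t)
        have h5 : (NFA N J j F).degreeOf (VE.x t) = (NF (box (fun _ : Fin n => N * 4 ^ J + 1))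
          (BB (fun i : Fin m => N * 4 ^ (J - j i) + 1)) F).degreeOf (vX t) := h4
        rw [h5]
        show (1 : ℝ) * _ ≤ _
        rw [one_mul]
        exact h2 t
      | q => exact absurd hy id
      | S p => exact absurd hy.1 (Nat.not_lt_zero _)
      | w i => exact absurd hy id
      | z p =>
        have h4 := degreeOf_rename_of_injective (p := NF (box (fun _ : Fin n => N * 4 ^ J + 1))
          (BB (fun i : Fin m => N * 4 ^ (J - j i) + 1)) F) gVE_inj (vZ p)
        have h5 : (NFA N J j F).degreeOf (VE.z p) = (NF (box (fun _ : Fin n => N * 4 ^ J + 1))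
          (BB (fun i : Fin m => N * 4 ^ (J - j i) + 1)) F).degreeOf (vZ p) := h4
        rw [h5]
        exact h3 p
      | v p => exact absurd hy.1 (Nat.not_lt_zero _)
    · rw [NFA_Oc N J j hJ F ∅ y hy, Nat.cast_zero, mul_zero]
      exact hN0
  · have h4 : nh (NFA N J j F) = nh (NF (box (fun _ : Fin n => N * 4 ^ J + 1))
        (BB (fun i : Fin m => N * 4 ^ (J - j i) + 1)) F) := by
      unfold nh NFA
      congr 1
      funext v
      rw [NV_rename v _ _ gVE_inj]
    rw [h4]
    exact NF_height N J j F hne hsupp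

private theorem LB6_term {K B : Type*} [Field K] [CommRing B] [Algebra K B] {m n : ℕ}
    (x : Fin n → B) (s τ : Fin m × Fin n → B) (a : Fin n → ℕ) (ν : Fin m → Fin n → ℕ) (c : K) :
    aeval (fun z => np x s τ (gVE z)) (monomial (nx a ν) c) =
      monomial (Finsupp.equivFunOnFinite.symm fun p : Fin m × Fin n => ν p.1 p.2)
        ((∏ t, x t ^ a t) * algebraMap K B c) := by
  classical
  rw [aeval_monomial, Finsupp.prod_fintype _ _ (fun i => pow_zero _), Fintype.prod_sum_type,
    Fintype.prod_sum_type]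
  have h1 : ∏ t : Fin n, (np x s τ (gVE (Sum.inl t) : VE m n)) ^
      (nx a ν (Sum.inl t)) = C (∏ t, x t ^ a t) := by
    rw [map_prod]
    refine Finset.prod_congr rfl fun t _ => ?_
    rw [map_pow]
    rfl
  have h2 : ∏ p : Fin m × Fin n, (np x s τ (gVE (Sum.inr (Sum.inl p)))) ^
      (nx a ν (Sum.inr (Sum.inl p))) = 1 :=
    Finset.prod_eq_one fun p _ => pow_zero _
  have h3 : ∏ p : Fin m × Fin n, (np x s τ (gVE (Sum.inr (Sum.inr p)))) ^
      (nx a ν (Sum.inr (Sum.inr p))) =
      monomial (Finsupp.equivFunOnFinite.symm fun p : Fin m × Fin n => ν p.1 p.2) (1 : B) := by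
    rw [monomial_eq, C_1, one_mul, Finsupp.prod_fintype _ _ (fun i => pow_zero _)]
    rfl
  rw [h1, h2, h3, one_mul, IsScalarTower.algebraMap_apply K B (MvPolynomial (Fin m × Fin n) B),
    MvPolynomial.algebraMap_eq, ← mul_assoc, ← map_mul, C_mul_monomial, mul_one,
    mul_comm (algebraMap K B c)]

/-- The coefficients of the value. -/
theorem NFA_aeval {K B : Type*} [Field K] [CommRing B] [Algebra K B] {m n : ℕ}
    (N J : ℕ) (j : Fin m → ℕ) (F : (Fin n → ℕ) → (Fin m → Fin n → ℕ) → K)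
    (hsupp : ∀ a ν, F a ν ≠ 0 → a ∈ box (fun _ : Fin n => N * 4 ^ J + 1) ∧
      ν ∈ BB (fun i : Fin m => N * 4 ^ (J - j i) + 1))
    (x : Fin n → B) (s τ : Fin m × Fin n → B) (e' : Fin m × Fin n →₀ ℕ) :
    coeff e' (aeval (np x s τ) (NFA N J j F)) =
      ∑ a ∈ box (fun _ : Fin n => N * 4 ^ J + 1),
        (∏ t, x t ^ a t) * algebraMap K B (F a fun i t => e' (i, t)) := by
  classical
  have h0 : aeval (np x s τ) (NFA N J j F) =
      ∑ a ∈ box (fun _ : Fin n => N * 4 ^ J + 1),
        ∑ ν ∈ BB (fun i : Fin m => N * 4 ^ (J - j i) + 1),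
        monomial (Finsupp.equivFunOnFinite.symm fun p : Fin m × Fin n => ν p.1 p.2)
          ((∏ t, x t ^ a t) * algebraMap K B (F a ν)) := by
    unfold NFA
    rw [aeval_rename]
    show aeval (fun z => np x s τ (gVE z)) _ = _
    unfold NF
    rw [map_sum]
    refine Finset.sum_congr rfl fun a _ => ?_
    rw [map_sum]
    exact Finset.sum_congr rfl fun ν _ => LB6_term x s τ a ν _
  rw [h0, coeff_sum]
  refine Finset.sum_congr rfl fun a _ => ?_
  rw [coeff_sum, Finset.sum_eq_single (fun i t => e' (i, t))]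
  · rw [coeff_monomial, if_pos]
    ext p
    rfl
  · intro ν _ hne
    rw [coeff_monomial, if_neg]
    intro h
    apply hne
    funext i t
    rw [← h]
    rfl
  · intro h
    have h1 : F a (fun i t => e' (i, t)) = 0 := by
      by_contra h2
      exact h (hsupp _ _ h2).2
    rw [h1, map_zero, mul_zero, map_zero, coeff_zero]

/-- The coefficients of the value at constants. -/
theorem NFA_aeval_const {K L : Type*} [Field K] [Field L] [Algebra K L] {B : Type*} [CommRing B]
    [Algebra L B] [Algebra K B] [IsScalarTower K L B] {m n : ℕ}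
    (N J : ℕ) (j : Fin m → ℕ) (F : (Fin n → ℕ) → (Fin m → Fin n → ℕ) → K)
    (hsupp : ∀ a ν, F a ν ≠ 0 → a ∈ box (fun _ : Fin n => N * 4 ^ J + 1) ∧
      ν ∈ BB (fun i : Fin m => N * 4 ^ (J - j i) + 1))
    (x : Fin n → L) (s τ : Fin m × Fin n → B) (e' : Fin m × Fin n →₀ ℕ) :
    coeff e' (aeval (np (fun t => algebraMap L B (x t)) s τ) (NFA N J j F)) =
      algebraMap L B (cfA N J F x fun i t => e' (i, t)) := by
  rw [NFA_aeval N J j F hsupp]
  unfold cfA
  rw [map_sum]
  refine Finset.sum_congr rfl fun a _ => ?_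
  rw [map_mul, map_prod, ← IsScalarTower.algebraMap_apply K L B]
  simp only [map_pow]

end Pool.Agent.Lib.MP_17a322_nt.VA
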