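import Pool.Agent.Lib.MP_17a322_nt.VA.M7
import Pool.Agent.Lib.MP_17a322_nt.VJ.A5
import Pool.Agent.Lib.MP_17a322_nt.VJ.A7
import Pool.Agent.Lib.MP_17a322_nt.RV.U1

/-!
Lower bound for the height of a polynomial in the vectors of flags (sum over the places).
-/

universe u

namespace Pool.Agent.Lib.MP_17a322_nt.VA

open MvPolynomial Height
open Pool.Agent.Lib.MP_17a322_nt.RO
open Pool.Agent.Lib.MP_17a322_nt.VJ
open Pool.Agent.Lib.MP_17a322_nt.VN

theorem gs_log_wv {K L : Type u} [Field K] [NumberField K] [Field L] [NumberField L]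
    [Algebra K L] {c n : ℕ} (E : Fin c → Fin n → K) {k : ℕ}
    (h : ∃ I, mn (tk (ez E) k) I ≠ 0) :
    FS (fun v : AbsoluteValue L ℝ =>
      Real.log (wv v (fun a b => algebraMap K L (ez E a b)) k)) ∧
    gs (fun v : AbsoluteValue L ℝ =>
      Real.log (wv v (fun a b => algebraMap K L (ez E a b)) k)) = Module.finrank K L * wh E k := by
  obtain ⟨I₀, hI₀⟩ := h
  have h1 : (fun v : AbsoluteValue L ℝ =>
      Real.log (wv v (fun a b => algebraMap K L (ez E a b)) k)) =
      fun v : AbsoluteValue L ℝ => Real.log (⨆ I, v (algebraMap K L (mn (tk (ez E) k) I))) := by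
    funext v
    unfold wv
    refine congrArg Real.log (iSup_congr fun I => ?_)
    exact congrArg v (mn_map (algebraMap K L) (tk (ez E) k) I)
  have h2 : (fun I => algebraMap K L (mn (tk (ez E) k) I)) ≠ 0 := by
    intro h0
    have h3 := congrFun h0 I₀
    rw [Pi.zero_apply] at h3
    exact hI₀ ((map_eq_zero _).mp h3)
  rw [h1]
  refine ⟨FS_log_iSup h2, ?_⟩
  rw [gs_log_iSup h2, RV.logHeight_algebraMap, wh_eq]

/-- Lower bound for the height of a polynomial in the covectors of flags with large increments. -/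
theorem flag_bound (K : Type u) [Field K] [NumberField K] (m n c : ℕ) :
    ∃ C : ℝ, 0 ≤ C ∧ ∀ (L : Type u) [Field L] [NumberField L] [Algebra K L]
      (E : Fin m → Fin c → Fin n → K) (δ : Fin m → ℝ),
      (∀ i, LinearIndependent K (E i)) → (∀ i, ∀ b < c, δ i + wh (E i) b ≤ wh (E i) (b + 1)) →
      ∀ (ρ : Fin m → ℕ) (f : MvPolynomial (Fin m × Fin n) L) (Q : MvPolynomial (Fin m × Fin c) L),
      f ≠ 0 → f = aeval (fun p : Fin m × Fin c =>
        ∑ b, MvPolynomial.C (algebraMap K L (E p.1 p.2 b)) * X (p.1, b)) Q →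
      (∀ u ∈ f.support, ∀ i, ∑ b, u (i, b) = ρ i) →
      Module.finrank K L * ∑ i, ρ i * δ i ≤ nh f + Module.finrank ℚ L * (C * ∑ i, (ρ i : ℝ)) := by
  classical
  have hM1 := one_le_MB n m c m
  refine ⟨Real.log ((((4 ^ (n + m * n) * n ^ n * c) ^ c) ^ m : ℕ) : ℝ),
    Real.log_nonneg (by exact_mod_cast hM1), ?_⟩
  set M := ((4 ^ (n + m * n) * n ^ n * c) ^ c) ^ m with hM
  intro L _ _ _ E δ hE hδ ρ f Q hf0 hf hρ
  have hEI : ∀ i, ∃ I, mn (tk (ez (E i)) c) I ≠ 0 := by
    intro i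
    rw [tk_ez]
    exact (mn_indep (E i)).mp (hE i)
  set EL : Fin m → ℕ → Fin n → L := fun i a b => algebraMap K L (ez (E i) a b) with hEL
  have hELk : ∀ i, ∀ k ≤ c, ∃ I, mn (tk (ez (E i)) k) I ≠ 0 := fun i k hk => mn_ind _ hk (hEI i)
  have hELI : ∀ i, ∃ I, mn (tk (EL i) c) I ≠ 0 := by
    intro i
    obtain ⟨I, hI⟩ := hEI i
    refine ⟨I, ?_⟩
    have h1 : mn (tk (EL i) c) I = algebraMap K L (mn (tk (ez (E i)) c) I) :=
      mn_map (algebraMap K L) (tk (ez (E i)) c) I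
    rw [h1]
    intro h2
    exact hI ((map_eq_zero _).mp h2)
  have hfs : f = sbm c EL Q := by
    rw [hf]
    unfold sbm
    refine congrArg (fun g : Fin m × Fin c → MvPolynomial (Fin m × Fin n) L => aeval g Q) ?_
    funext p
    refine Finset.sum_congr rfl fun b _ => ?_
    have h1 : ez (E p.1) p.2 b = E p.1 p.2 b := by
      unfold ez
      rw [dif_pos p.2.2]
    rw [hEL]
    simp only [h1]
  obtain ⟨α, hα, hv⟩ := MB n c m m le_rfl EL hELI Q (by rw [← hfs]; exact hf0)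
  have hαρ : ∀ i, ∑ r, α (i, r) = ρ i :=
    Q_hom EL hELI Q ρ (by rw [← hfs]; exact hρ) α (mem_support_iff.mpr hα)
  rw [← hfs] at hv
  have hD : (f.totalDegree : ℝ) ≤ ∑ i, (ρ i : ℝ) := by
    have h1 : f.totalDegree ≤ ∑ i, ρ i := by
      unfold totalDegree
      refine Finset.sup_le fun u hu => ?_
      rw [Finsupp.sum_fintype _ _ (fun _ => rfl), Fintype.sum_prod_type]
      exact (Finset.sum_congr rfl fun i _ => hρ u hu i).le
    exact_mod_cast h1
  have hlog : ∀ v : AbsoluteValue L ℝ, Pl v →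
      Real.log (v (coeff α Q)) + ∑ p : Fin m × Fin c,
        (α p : ℝ) * Real.log (wv v (EL p.1) (p.2 + 1)) ≤
      (f.totalDegree * Real.log (cst v M) + Real.log (NV v f)) + ∑ p : Fin m × Fin c,
        (α p : ℝ) * Real.log (wv v (EL p.1) p.2) := by
    intro v hPl
    have h1 := hv v hPl
    have hp1 : ∀ p : Fin m × Fin c, 0 < wv v (EL p.1) (p.2 + 1) :=
      fun p => wv_pos v _ p.2.2 (hELI p.1)
    have hp2 : ∀ p : Fin m × Fin c, 0 < wv v (EL p.1) p.2 :=
      fun p => wv_pos v _ p.2.2.le (hELI p.1)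
    have hq : 0 < v (coeff α Q) := v.pos hα
    have hN : 0 < NV v f := NV_pos v hf0
    have hc : 0 < cst v M := lt_of_lt_of_le zero_lt_one (one_le_cst v hM1)
    have hP1 : 0 < ∏ p : Fin m × Fin c, wv v (EL p.1) (p.2 + 1) ^ α p :=
      Finset.prod_pos fun p _ => pow_pos (hp1 p) _
    have hP2 : 0 < ∏ p : Fin m × Fin c, wv v (EL p.1) p.2 ^ α p :=
      Finset.prod_pos fun p _ => pow_pos (hp2 p) _
    have h2 := Real.log_le_log (mul_pos hq hP1) h1
    rw [Real.log_mul hq.ne' hP1.ne', Real.log_mul (mul_pos (pow_pos hc _) hN).ne' hP2.ne',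
      Real.log_mul (pow_pos hc _).ne' hN.ne', Real.log_pow,
      Real.log_prod fun p _ => (pow_pos (hp1 p) _).ne',
      Real.log_prod fun p _ => (pow_pos (hp2 p) _).ne'] at h2
    simp only [Real.log_pow] at h2
    exact h2
  have hF1 : ∀ p : Fin m × Fin c, FS (fun v : AbsoluteValue L ℝ =>
      (α p : ℝ) * Real.log (wv v (EL p.1) (p.2 + 1))) :=
    fun p => FS_const_mul _ (gs_log_wv (E p.1) (hELk p.1 _ p.2.2)).1
  have hF2 : ∀ p : Fin m × Fin c, FS (fun v : AbsoluteValue L ℝ =>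
      (α p : ℝ) * Real.log (wv v (EL p.1) p.2)) :=
    fun p => FS_const_mul _ (gs_log_wv (E p.1) (hELk p.1 _ p.2.2.le)).1
  have hFq : FS (fun v : AbsoluteValue L ℝ => Real.log (v (coeff α Q))) := FS_log_abv hα
  have hFc : FS (fun v : AbsoluteValue L ℝ => (f.totalDegree : ℝ) * Real.log (cst v M)) :=
    FS_const_mul _ (FS_log_cst M)
  have hFN : FS (fun v : AbsoluteValue L ℝ => Real.log (NV v f)) := FS_log_NV hf0
  have hgs := gs_le (FS_add hFq (FS_sum Finset.univ fun p _ => hF1 p))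
    (FS_add (FS_add hFc hFN) (FS_sum Finset.univ fun p _ => hF2 p)) hlog
  rw [gs_add hFq (FS_sum Finset.univ fun p _ => hF1 p),
    gs_add (FS_add hFc hFN) (FS_sum Finset.univ fun p _ => hF2 p), gs_add hFc hFN,
    gs_sum Finset.univ fun p _ => hF1 p, gs_sum Finset.univ fun p _ => hF2 p,
    gs_log_abv hα, gs_const_mul, zero_add] at hgs
  have e1 : ∀ p : Fin m × Fin c, gs (fun v : AbsoluteValue L ℝ =>
      (α p : ℝ) * Real.log (wv v (EL p.1) (p.2 + 1))) =
      α p * (Module.finrank K L * wh (E p.1) (p.2 + 1)) := by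
    intro p
    rw [gs_const_mul, (gs_log_wv (E p.1) (hELk p.1 _ p.2.2)).2]
  have e2 : ∀ p : Fin m × Fin c, gs (fun v : AbsoluteValue L ℝ =>
      (α p : ℝ) * Real.log (wv v (EL p.1) p.2)) =
      α p * (Module.finrank K L * wh (E p.1) p.2) := by
    intro p
    rw [gs_const_mul, (gs_log_wv (E p.1) (hELk p.1 _ p.2.2.le)).2]
  simp only [e1, e2] at hgs
  have e3 : gs (fun v : AbsoluteValue L ℝ => Real.log (cst v M)) ≤
      Module.finrank ℚ L * Real.log M := by
    refine (gs_log_cst hM1).trans (le_of_eq ?_)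
    have h1 : ((totalWeight L : ℕ) : ℝ) = Module.finrank ℚ L := by
      rw [NumberField.totalWeight_eq_finrank]
    rw [h1]
  have e4 : ∑ p : Fin m × Fin c, (α p : ℝ) * (Module.finrank K L * (δ p.1)) =
      Module.finrank K L * ∑ i, ρ i * δ i := by
    rw [Fintype.sum_prod_type, Finset.mul_sum]
    refine Finset.sum_congr rfl fun i _ => ?_
    have h1 : ∑ r, ((α (i, r) : ℕ) : ℝ) = ρ i := by
      exact_mod_cast hαρ i
    have h2 : ∑ y, ((α (i, y) : ℕ) : ℝ) * (Module.finrank K L * δ (i, y).1) =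
        (∑ y, ((α (i, y) : ℕ) : ℝ)) * (Module.finrank K L * δ i) := by
      rw [Finset.sum_mul]
    rw [h2, h1]
    ring
  have e5 : ∑ p : Fin m × Fin c, (α p : ℝ) * (Module.finrank K L * (δ p.1)) +
      ∑ p : Fin m × Fin c, (α p : ℝ) * (Module.finrank K L * wh (E p.1) p.2) ≤
      ∑ p : Fin m × Fin c, (α p : ℝ) * (Module.finrank K L * wh (E p.1) (p.2 + 1)) := by
    rw [← Finset.sum_add_distrib]
    refine Finset.sum_le_sum fun p _ => ?_
    rw [← mul_add, ← mul_add]
    exact mul_le_mul_of_nonneg_left (mul_le_mul_of_nonneg_left (hδ p.1 p.2 p.2.2)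
      (Nat.cast_nonneg _)) (Nat.cast_nonneg _)
  have hlogM : 0 ≤ Real.log M := Real.log_nonneg (by exact_mod_cast hM1)
  have e6 : (f.totalDegree : ℝ) * gs (fun v : AbsoluteValue L ℝ => Real.log (cst v M)) ≤
      Module.finrank ℚ L * (Real.log M * ∑ i, (ρ i : ℝ)) := by
    refine (mul_le_mul_of_nonneg_left e3 (Nat.cast_nonneg _)).trans ?_
    have h1 : (0 : ℝ) ≤ Module.finrank ℚ L * Real.log M :=
      mul_nonneg (Nat.cast_nonneg _) hlogM
    calc (f.totalDegree : ℝ) * (Module.finrank ℚ L * Real.log M)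
        ≤ (∑ i, (ρ i : ℝ)) * (Module.finrank ℚ L * Real.log M) :=
          mul_le_mul_of_nonneg_right hD h1
      _ = _ := by ring
  unfold nh
  rw [e4] at e5
  linarith

end Pool.Agent.Lib.MP_17a322_nt.VA
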