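import Pool.Agent.Lib.MP_17a322_nt.VA.LB2
import Pool.Agent.Lib.MP_17a322_nt.VA.LB6
import Pool.Agent.Lib.MP_17a322_nt.VA.LB7
import Pool.Agent.Lib.MP_17a322_nt.VA.M8

/-!
The inequality over the base field, from the chain of leading forms.
-/

universe u

namespace Pool.Agent.Lib.MP_17a322_nt.VA

open MvPolynomial Height
open Pool.Agent.Lib.MP_17a322_nt.RO
open Pool.Agent.Lib.MP_17a322_nt.VJ
open Pool.Agent.Lib.MP_17a322_nt.VN

section

variable {K : Type u} [Field K] {N : ℕ} {A : AV K N} {n e : ℕ} (nd : Noe A n e)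

theorem Noe.lf_y {L : Type u} [Field L] [Algebra K L] (P : A.Pts L) (l : Fin (N + 1) → K) :
    lf l (nd.y P) = lf l (A.x P) / lf (nd.l 0) (A.x P) := by
  have h1 : nd.y P = fun a => (lf (nd.l 0) (A.x P))⁻¹ * A.x P a := by
    funext a
    unfold Noe.y
    rw [div_eq_inv_mul]
  rw [h1, lf_smul, div_eq_inv_mul]

theorem Noe.lf_y_succ {L : Type u} [Field L] [Algebra K L] (P : A.Pts L) (t : Fin n) :
    lf (nd.l t.succ) (nd.y P) = nd.s P t :=
  nd.lf_y P _

theorem Noe.lf_y_zero {L : Type u} [Field L] [Algebra K L] (P : A.Pts L)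
    (hP : lf (nd.l 0) (A.x P) ≠ 0) : lf (nd.l 0) (nd.y P) = 1 := by
  rw [nd.lf_y, div_self hP]

theorem Noe.y_isPt {L : Type u} [Field L] [Algebra K L] (P : A.Pts L) : A.IsPt (nd.y P) := by
  have h1 : nd.y P = fun a => (lf (nd.l 0) (A.x P))⁻¹ * A.x P a := by
    funext a
    unfold Noe.y
    rw [div_eq_inv_mul]
  rw [h1]
  exact (A.x_isPt P).smul _

theorem Noe.rep_y {L : Type u} [Field L] [Algebra K L] (P : A.Pts L)
    (hP : lf (nd.l 0) (A.x P) ≠ 0) : A.Rep P (nd.y P) := by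
  refine ⟨(lf (nd.l 0) (A.x P))⁻¹, inv_ne_zero hP, fun i => ?_⟩
  unfold Noe.y
  rw [div_eq_inv_mul]

theorem Noe.aeval_map {L : Type u} [Field L] [Algebra K L] (P : A.Pts K)
    (z : MvPolynomial (Fin n) K) :
    aeval (fun t : Fin n => lf (nd.l t.succ) fun b => algebraMap K L (nd.y P b)) z =
      algebraMap K L (eval (nd.s P) z) := by
  have h1 : (fun t : Fin n => lf (nd.l t.succ) fun b => algebraMap K L (nd.y P b)) =
      fun t => algebraMap K L (nd.s P t) := by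
    funext t
    have h2 := lf_map (Algebra.ofId K L) (nd.l t.succ) (nd.y P)
    rw [nd.lf_y_succ] at h2
    exact h2.symm
  have h2 := MvPolynomial.aeval_algebraMap_apply L (nd.s P) z
  rw [h1]
  exact h2

end

/-- The inequality over `K`. -/
theorem exists_endA {K : Type u} [Field K] [NumberField K] {N : ℕ} {A : AV K N} {k c e₀ : ℕ}
    (nd : Noe A (k + 2) e₀) (rr : Fin c → Fin (k + 2)) (κ E₀ : SC K) (c₀ D e m N' : ℕ)
    (hN' : 1 ≤ N') (Cw : ℝ) (hCw : 0 ≤ Cw) :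
    ∃ C : ℝ, 0 ≤ C ∧ ∀ (P₀ : A.Pts K) (P : Fin m → A.Pts K) (j : Fin m → ℕ)
      (ρ : Fin m → REP K (k + 2) e) (q' : Fin m → Fin c → MvPolynomial (Fin (k + 2)) K)
      (Ev : Fin m → Fin c → Fin (k + 2) → K) (sl : Fin m → ℝ) (J : ℕ)
      (F₀ : (Fin (k + 2) → ℕ) → (Fin m → Fin (k + 2) → ℕ) → K) (s : Fin m → ℕ) (a a' : ℕ),
      (∀ i, j i ≤ J) → (∀ i, nd.Good (P i)) → (∀ i, (ρ i).Deg D) → (∀ i, (ρ i).ht ≤ 4 ^ j i) →
      (∀ i, eval (nd.s (P i)) ((ρ i).z 0) ≠ 0 ∨ eval (nd.s (P i)) ((ρ i).z 1) ≠ 0) →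
      (∀ i, IsEq nd rr D (P i) (q' i)) → (∀ i b, nh (q' i b) ≤ 4 ^ j i) →
      (∀ i, LinearIndependent K (Ev i)) →
      (∀ i, ∀ b < c, sl i + wh (Ev i) b ≤ wh (Ev i) (b + 1)) →
      (∃ a ν, F₀ a ν ≠ 0) →
      (∀ a ν, F₀ a ν ≠ 0 → a ∈ box (fun _ : Fin (k + 2) => N' * 4 ^ J + 1) ∧
        ν ∈ BB (fun i : Fin m => N' * 4 ^ (J - j i) + 1)) → CCA nd ρ N' J j F₀ →
      ∀ (L : Type u) [Field L] [NumberField L] [Algebra K L] (w : A.Pts L),
      A.h w ≤ Cw * Module.finrank ℚ L →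
      lf (nd.l 0) (A.x (A.img (Algebra.ofId K L) P₀ + w)) ≠ 0 →
      (∀ i, lf (nd.l 0) (A.x (A.img (Algebra.ofId K L) (P i) -
        2 ^ j i • (A.img (Algebra.ofId K L) P₀ + w))) ≠ 0) →
      ∀ (y : Fin m → Fin (N + 1) → D2 L (Fin m × Fin (k + 2)))
        (ξ : Fin m → Fin (k + 2) → D2 L (Fin m × Fin (k + 2))),
      (∀ i, A.IsPt (y i)) → (∀ i, lf (nd.l 0) (y i) = 1) →
      (∀ i b, y i b ∈ Set.range (Exp L (Fin m × Fin (k + 2)) (4 ^ j i)
        (pow_ne_zero (j i) four_ne_zero))) →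
      (∀ i b, PowerSeries.constantCoeff (PowerSeries.constantCoeff (y i b)) =
        MvPolynomial.C (algebraMap K L (nd.y (P i) b))) →
      (∀ i (v : AbsoluteValue L ℝ), (0 < rad nd rr E₀ c₀ (P i) (q' i) v ∧
        rad nd rr E₀ c₀ (P i) (q' i) v ≤ 1) ∧
        PKG nd κ E₀ (4 ^ j i) v (fun b => algebraMap K L (nd.y (P i) b))
          (A.mu (j i) (nd.y (A.img (Algebra.ofId K L) P₀ + w)))
          (nd.s (A.img (Algebra.ofId K L) (P i) - 2 ^ j i • (A.img (Algebra.ofId K L) P₀ + w)))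
          (y i) (ξ i) (rad nd rr E₀ c₀ (P i) (q' i) v)) →
      ∀ (F : Fin (m + 1) → MvPolynomial (Fin m × Fin (k + 2)) (D1 L (Fin m × Fin (k + 2)))),
      (∀ e', coeff e' (F 0) = algebraMap L (D1 L (Fin m × Fin (k + 2)))
        (cfA N' J F₀ (fun t => nd.s (A.img (Algebra.ofId K L) P₀ + w) t)
          fun i t => e' (i, t))) →
      (∀ i : Fin m, F i.succ = PowerSeries.coeff (s i)
        (PsS (fun p => ξ p.1 p.2) i (F i.castSucc))) →
      a' ≤ a → PowerSeries.coeff a' (coeff 0 (F (Fin.last m))) ≠ 0 →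
      (∃ Q : MvPolynomial (Fin m × Fin c) L, PowerSeries.coeff a' (coeff 0 (F (Fin.last m))) =
        aeval (fun p : Fin m × Fin c => ∑ b, (MvPolynomial.C (algebraMap K L (Ev p.1 p.2 b)) * X (p.1, b) :
          MvPolynomial (Fin m × Fin (k + 2)) L)) Q) →
      (∀ u ∈ (PowerSeries.coeff a' (coeff 0 (F (Fin.last m)))).support,
        ∀ i, ∑ b, u (i, b) = s i) →
      INEQ C (logHeight (fun p : (box (fun _ : Fin (k + 2) => N' * 4 ^ J + 1)) ×
          (BB (fun i : Fin m => N' * 4 ^ (J - j i) + 1) : Finset (Fin m → Fin (k + 2) → ℕ)) =>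
            F₀ p.1 p.2)) (A.h P₀) ((k + 2) * N') J j s (fun i => A.h (P i - 2 ^ j i • P₀))
        (fun i => nd.gn κ (P i) (eval (nd.s (P i)) ((ρ i).z 0)) (eval (nd.s (P i)) ((ρ i).z 1)))
        sl (fun i => A.h (P i)) a := by
  classical
  obtain ⟨E, a₁, hchain⟩ := exists_loc_chainA nd κ E₀ D
  obtain ⟨Cr, hCr, hrad⟩ := gs_rad nd rr E₀ c₀ D
  obtain ⟨Cq, hCq, hqv⟩ := exists_qv_le nd.l
  obtain ⟨Ch, hCh, hheights⟩ := A.exists_heights
  obtain ⟨Ck, hCk, hgk⟩ := E.gs_log_le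
  obtain ⟨Cf, hCf, hflag⟩ := flag_bound K m (k + 2) c
  obtain ⟨dK, hdK⟩ : ∃ dK : ℝ, dK = Module.finrank ℚ K := ⟨_, rfl⟩
  have hdK0 : 0 ≤ dK := by rw [hdK]; exact Nat.cast_nonneg _
  obtain ⟨C1, hC1⟩ : ∃ C1 : ℝ, C1 = dK * (2 * Cw + 3 * Ch) + Cq * dK := ⟨_, rfl⟩
  have hC10 : 0 ≤ C1 := by rw [hC1]; positivity
  obtain ⟨Ch', hCh'⟩ : ∃ Ch' : ℝ, Ch' = ((k + 2 : ℕ) : ℝ) * C1 + C1 := ⟨_, rfl⟩
  have hCh'0 : 0 ≤ Ch' := by rw [hCh']; positivity
  have hC1Ch : C1 ≤ Ch' := by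
    rw [hCh']
    exact le_add_of_nonneg_left (by positivity)
  obtain ⟨Cr', hCr'⟩ : ∃ Cr' : ℝ, Cr' = 1 + D * ((k + 2 : ℕ) : ℝ) * (1 + Cq * dK) +
    Cr * (1 + c) + dK * Cr + dK * Ck + C1 := ⟨_, rfl⟩
  have hCr'0 : 0 ≤ Cr' := by rw [hCr']; positivity
  obtain ⟨C, hC, hconv⟩ := conv_ineqA m (k + 2) N' a₁ dK (Real.log (e + 1)) (dK * Ck) Ch' Cr'
    (dK * Cf) hdK0 (Real.log_nonneg (by
      have : (0 : ℝ) ≤ e := Nat.cast_nonneg e
      linarith)) (mul_nonneg hdK0 hCk) hCh'0 hCr'0 (mul_nonneg hdK0 hCf)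
  refine ⟨C, hC, ?_⟩
  intro P₀ P j ρ q' Ev sl J F₀ s a a' hJ hgood hD hht hz hq' hq'h hEv hsl hne hsupp hCC L _ _ _ w
    hw hQ0 hR0 y ξ hy hy1 hyE hyc hP F hF0 hF ha hf hQ hu
  -- notations
  obtain ⟨d, hd⟩ : ∃ d : ℝ, d = Module.finrank K L := ⟨_, rfl⟩
  have hd0 : 0 < d := by
    rw [hd]
    exact_mod_cast Module.finrank_pos
  have hdL : (Module.finrank ℚ L : ℝ) = d * dK := by
    rw [hd, hdK, ← Module.finrank_mul_finrank ℚ K L]
    push_cast
    ring
  obtain ⟨Q', hQ'⟩ : ∃ Q' : A.Pts L, Q' = A.img (Algebra.ofId K L) P₀ + w := ⟨_, rfl⟩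
  obtain ⟨R, hR⟩ : ∃ R : Fin m → A.Pts L,
      R = fun i => A.img (Algebra.ofId K L) (P i) - 2 ^ j i • Q' := ⟨_, rfl⟩
  have hRi : ∀ i, A.img (Algebra.ofId K L) (P i) - 2 ^ j i • Q' = R i := by
    intro i
    rw [hR]
  simp only [← hQ', hRi] at hQ0 hR0 hP hF0
  obtain ⟨z0, hz0⟩ : ∃ z0 : Fin m → K, z0 = fun i => eval (nd.s (P i)) ((ρ i).z 0) := ⟨_, rfl⟩
  obtain ⟨z1, hz1⟩ : ∃ z1 : Fin m → K, z1 = fun i => eval (nd.s (P i)) ((ρ i).z 1) := ⟨_, rfl⟩
  have hzz : ∀ i, z0 i ≠ 0 ∨ z1 i ≠ 0 := by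
    intro i
    rw [hz0, hz1]
    exact hz i
  have hPl0 : ∀ i, lf (nd.l 0) (A.x (P i)) ≠ 0 := fun i => (hgood i).1
  obtain ⟨rd, hrd⟩ : ∃ rd : Fin m → AbsoluteValue L ℝ → ℝ,
      rd = fun i v => rad nd rr E₀ c₀ (P i) (q' i) v := ⟨_, rfl⟩
  have hrd1 : ∀ i v, 0 < rd i v ∧ rd i v ≤ 1 := by
    intro i v
    rw [hrd]
    exact (hP i v).1
  have hrd2 : ∀ i, FS (fun v : AbsoluteValue L ℝ => Real.log (rd i v)) ∧
      - gs (fun v : AbsoluteValue L ℝ => Real.log (rd i v)) ≤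
        d * (Cr * (A.h (P i) + ∑ b, nh (q' i b))) + d * dK * Cr := by
    intro i
    have h1 := hrad (P i) (q' i) (hgood i) (hq' i) L
    rw [hdL, ← hd] at h1
    rw [hrd]
    exact h1
  have hspec := fun i => rrA_spec nd κ (P i) (hPl0 i) (hzz i) E L (rd i) (hrd1 i) (hrd2 i).1
    (nd.s (R i))
  have hgv := fun i => gs_gvA nd κ (P i) (a := z0 i) (b := z1 i) (hPl0 i) (hzz i) L
  -- the product formula
  have hcore := core_ineqA (K := K) (L := L) a₁ E ρ j s N' J hJ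
    (fun t : Fin (k + 2) => nd.s Q' t) (fun i => nd.s (R i)) F₀ hne hsupp
    (fun i v => dlA nd κ (P i) (z0 i) (z1 i) v)
    (fun i v => rrA nd κ (P i) (z0 i) (z1 i) E (rd i) (nd.s (R i)) v)
    (fun v _ i => ⟨dlA_pos nd κ (P i) (hzz i) v, dlA_le nd κ (P i) v⟩)
    (fun i => by
      simp only [log_dlA]
      have h2 := FS_const_mul (-1) (hgv i).1
      simpa only [neg_one_mul] using h2)
    (fun v _ i => ⟨((hspec i).1 v).1, ((hspec i).1 v).2.1⟩)
    (fun i => (hspec i).2.1) (coeff 0 (F (Fin.last m))) a a' ha hf (by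
      intro v _ r hr hrr
      have h1 := hchain v ρ hD N' J j hN' F₀ hsupp hCC (nd.y Q') (nd.y_isPt Q')
        (nd.lf_y_zero Q' hQ0) (fun i b => algebraMap K L (nd.y (P i) b)) (fun i => nd.s (R i))
        y ξ (fun i => rd i v) (fun i => (hrd1 i v).1.le) hy hy1 hyE hyc
        (fun i => by
          rw [hrd]
          exact (hP i v).2)
        (fun i => dlA nd κ (P i) (z0 i) (z1 i) v)
        (fun i => dlA_pos nd κ (P i) (hzz i) v) (fun i => dlA_le nd κ (P i) v)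
        (fun i => by
          rw [nd.aeval_map, nd.aeval_map]
          have h2 := dlA_cases nd κ (P i) (a := z0 i) (b := z1 i) v
          rw [hz0, hz1] at h2 ⊢
          exact h2)
        s F (by
          intro e'
          rw [hF0]
          congr 2
          funext t
          exact (nd.lf_y_succ Q' t).symm) hF hr
        (fun i => by
          rw [← ((hspec i).1 v).2.2]
          exact mul_le_mul_of_nonneg_right (hrr i)
            (mul_nonneg (E.pos v).le (mq_posB v _).le)) a 0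
      have h3 : (fun t : Fin (k + 2) => lf (nd.l t.succ) (nd.y Q')) = fun t => nd.s Q' t := by
        funext t
        exact nd.lf_y_succ Q' t
      rw [h3] at h1
      exact h1)
  -- the flags
  obtain ⟨Qf, hQf⟩ := hQ
  have hfl := hflag L Ev sl hEv hsl s (PowerSeries.coeff a' (coeff 0 (F (Fin.last m)))) Qf hf hQf hu
  rw [hdL, ← hd] at hfl
  -- the bounds
  have hkk : gs (fun v : AbsoluteValue L ℝ => Real.log (E.k v)) ≤ d * (dK * Ck) := by
    refine (hgk L).trans (le_of_eq ?_)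
    rw [hdL]
    ring
  have hhts := hheights Cw hCw L w hw P₀
  rw [← hQ', ← hdK, ← hd] at hhts
  have hqvi : ∀ i, logHeight (qv (nd.s (R i))) ≤
      d * (2 * A.h (P i - 2 ^ j i • P₀) + C1 * 4 ^ j i) := by
    intro i
    have h1 := hqv L (A.x (R i)) (hR0 i)
    have h2 := hhts.2 (P i) (j i)
    have h3 : A.img (Algebra.ofId K L) (P i) - 2 ^ j i • Q' = R i := by rw [hR]
    rw [h3] at h2
    have h4 : (1 : ℝ) ≤ 4 ^ j i := one_le_pow₀ (by norm_num)
    have h5 : Cq * (d * dK) ≤ Cq * (d * dK) * 4 ^ j i :=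
      le_mul_of_one_le_right (by positivity) h4
    rw [hdL] at h1
    have h6 : logHeight (A.x (R i)) = A.h (R i) := rfl
    rw [h6] at h1
    have h7 : logHeight (qv (nd.s (R i))) = logHeight (qv fun t : Fin (k + 2) =>
        lf (nd.l t.succ) (A.x (R i)) / lf (nd.l 0) (A.x (R i))) := rfl
    rw [h7, hC1]
    calc _ ≤ A.h (R i) + Cq * (d * dK) := h1
      _ ≤ d * (2 * A.h (P i - 2 ^ j i • P₀) + dK * (2 * Cw + 3 * Ch) * 4 ^ j i) +
          Cq * (d * dK) * 4 ^ j i := add_le_add h2 h5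
      _ = _ := by ring
  have hhx : ∑ t, logHeight₁ (nd.s Q' t) ≤
      d * (2 * ((k + 2 : ℕ) : ℝ) * A.h P₀ + Ch') := by
    have h1 := hqv L (A.x Q') hQ0
    have h2 := hhts.1
    rw [hdL] at h1
    have h6 : logHeight (A.x Q') = A.h Q' := rfl
    rw [h6] at h1
    have h3 : ∀ t, logHeight₁ (nd.s Q' t) ≤ d * (2 * A.h P₀ + C1) := by
      intro t
      refine (logHeight₁_le_qv (nd.s Q') t).trans (h1.trans ?_)
      rw [hC1]
      have h4 : 0 ≤ d * (dK * (2 * Ch)) := by positivity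
      calc A.h Q' + Cq * (d * dK) ≤ d * (2 * A.h P₀ + dK * (2 * Cw + Ch)) + Cq * (d * dK) +
            d * (dK * (2 * Ch)) := by linarith
        _ = _ := by ring
    refine (Finset.sum_le_sum fun t _ => h3 t).trans ?_
    rw [Finset.sum_const, Finset.card_univ, Fintype.card_fin, nsmul_eq_mul, hCh']
    have h5 : 0 ≤ d * C1 := by positivity
    calc ((k + 2 : ℕ) : ℝ) * (d * (2 * A.h P₀ + C1)) ≤
          ((k + 2 : ℕ) : ℝ) * (d * (2 * A.h P₀ + C1)) + d * C1 := by linarith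
      _ = _ := by ring
  have hrri : ∀ i, - gs (fun v => Real.log
      (rrA nd κ (P i) (z0 i) (z1 i) E (rd i) (nd.s (R i)) v)) ≤
      d * (Cr' * (4 ^ j i + A.h (P i)) + 2 * A.h (P i - 2 ^ j i • P₀)) := by
    intro i
    rw [(hspec i).2.2]
    have h4 : (1 : ℝ) ≤ 4 ^ j i := one_le_pow₀ (by norm_num)
    have hPi0 : 0 ≤ A.h (P i) := AV.h_nonneg (P i)
    have hs : ∀ t, logHeight₁ (nd.s (P i) t) ≤ A.h (P i) + Cq * dK := by
      intro t
      have h1 := hqv K (A.x (P i)) (hPl0 i)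
      rw [← hdK] at h1
      exact (logHeight₁_le_qv (nd.s (P i)) t).trans h1
    have hss : ∑ t, logHeight₁ (nd.s (P i) t) ≤ ((k + 2 : ℕ) : ℝ) * (A.h (P i) + Cq * dK) := by
      refine (Finset.sum_le_sum fun t _ => hs t).trans (le_of_eq ?_)
      rw [Finset.sum_const, Finset.card_univ, Fintype.card_fin, nsmul_eq_mul]
    have hg : gs (fun v : AbsoluteValue L ℝ => gvA nd κ (P i) (z0 i) (z1 i) v) ≤
        d * (4 ^ j i + D * (((k + 2 : ℕ) : ℝ) * (A.h (P i) + Cq * dK))) := by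
      have h5 : ∀ l : Fin (k + 2), logHeight₁ (eval (nd.s (P i)) ((ρ i).z l)) ≤
          4 ^ j i + D * (((k + 2 : ℕ) : ℝ) * (A.h (P i) + Cq * dK)) := by
        intro l
        refine (ht_valA (ρ i) (hD i) (nd.s (P i)) l).trans (add_le_add (hht i) ?_)
        exact mul_le_mul_of_nonneg_left hss (Nat.cast_nonneg D)
      rcases hzz i with h | h
      · refine ((hgv i).2.2.1 h).trans ?_
        rw [← hd]
        refine mul_le_mul_of_nonneg_left ?_ hd0.le
        rw [hz0]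
        exact h5 0
      · refine ((hgv i).2.2.2 h).trans ?_
        rw [← hd]
        refine mul_le_mul_of_nonneg_left ?_ hd0.le
        rw [hz1]
        exact h5 1
    have hr := (hrd2 i).2
    have hqs : ∑ b, nh (q' i b) ≤ c * 4 ^ j i := by
      refine (Finset.sum_le_sum fun b _ => hq'h i b).trans (le_of_eq ?_)
      rw [Finset.sum_const, Finset.card_univ, Fintype.card_fin, nsmul_eq_mul]
    have hr2 : d * (Cr * (A.h (P i) + ∑ b, nh (q' i b))) ≤
        d * (Cr * (A.h (P i) + c * 4 ^ j i)) :=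
      mul_le_mul_of_nonneg_left (mul_le_mul_of_nonneg_left (by linarith) hCr) hd0.le
    have hq := hqvi i
    -- combine
    have b1 : d * (D * (((k + 2 : ℕ) : ℝ) * (A.h (P i) + Cq * dK))) ≤
        d * (D * ((k + 2 : ℕ) : ℝ) * (1 + Cq * dK) * (4 ^ j i + A.h (P i))) := by
      refine mul_le_mul_of_nonneg_left ?_ hd0.le
      rw [mul_assoc (D : ℝ), mul_assoc (D : ℝ)]
      refine mul_le_mul_of_nonneg_left ?_ (Nat.cast_nonneg D)
      rw [mul_assoc]
      refine mul_le_mul_of_nonneg_left ?_ (Nat.cast_nonneg _)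
      have b2 : 0 ≤ Cq * dK := mul_nonneg hCq hdK0
      have b3 : Cq * dK ≤ Cq * dK * 4 ^ j i := le_mul_of_one_le_right b2 h4
      have b4 : 0 ≤ Cq * dK * A.h (P i) := mul_nonneg b2 hPi0
      calc A.h (P i) + Cq * dK ≤ A.h (P i) + Cq * dK * 4 ^ j i + 4 ^ j i +
            Cq * dK * A.h (P i) := by linarith
        _ = _ := by ring
    have b2 : d * (4 ^ j i) ≤ d * (1 * (4 ^ j i + A.h (P i))) := by
      refine mul_le_mul_of_nonneg_left ?_ hd0.le
      linarith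
    have b3 : d * (Cr * (A.h (P i) + c * 4 ^ j i)) ≤
        d * (Cr * (1 + c) * (4 ^ j i + A.h (P i))) := by
      refine mul_le_mul_of_nonneg_left ?_ hd0.le
      rw [mul_assoc]
      refine mul_le_mul_of_nonneg_left ?_ hCr
      have b5 : (0 : ℝ) ≤ c * A.h (P i) := mul_nonneg (Nat.cast_nonneg c) hPi0
      have b6 : (0 : ℝ) ≤ 4 ^ j i := by positivity
      calc A.h (P i) + c * 4 ^ j i ≤ A.h (P i) + c * 4 ^ j i + 4 ^ j i + c * A.h (P i) := by
            linarith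
        _ = _ := by ring
    have b4 : d * dK * Cr ≤ d * (dK * Cr * (4 ^ j i + A.h (P i))) := by
      rw [mul_assoc]
      refine mul_le_mul_of_nonneg_left ?_ hd0.le
      exact le_mul_of_one_le_right (mul_nonneg hdK0 hCr) (by linarith)
    have b5 : d * (dK * Ck) ≤ d * (dK * Ck * (4 ^ j i + A.h (P i))) := by
      refine mul_le_mul_of_nonneg_left ?_ hd0.le
      exact le_mul_of_one_le_right (mul_nonneg hdK0 hCk) (by linarith)
    have b6 : d * (2 * A.h (P i - 2 ^ j i • P₀) + C1 * 4 ^ j i) ≤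
        d * (2 * A.h (P i - 2 ^ j i • P₀)) + d * (C1 * (4 ^ j i + A.h (P i))) := by
      have b7 : 0 ≤ d * (C1 * A.h (P i)) := by positivity
      calc _ ≤ d * (2 * A.h (P i - 2 ^ j i • P₀) + C1 * 4 ^ j i) + d * (C1 * A.h (P i)) := by
            linarith
        _ = _ := by ring
    calc gs (fun v : AbsoluteValue L ℝ => gvA nd κ (P i) (z0 i) (z1 i) v) +
          - gs (fun v => Real.log (rd i v)) +
          gs (fun v : AbsoluteValue L ℝ => Real.log (E.k v)) + logHeight (qv (nd.s (R i))) ≤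
        (d * (1 * (4 ^ j i + A.h (P i))) +
          d * (D * ((k + 2 : ℕ) : ℝ) * (1 + Cq * dK) * (4 ^ j i + A.h (P i)))) +
        (d * (Cr * (1 + c) * (4 ^ j i + A.h (P i))) +
          d * (dK * Cr * (4 ^ j i + A.h (P i)))) +
        d * (dK * Ck * (4 ^ j i + A.h (P i))) +
        (d * (2 * A.h (P i - 2 ^ j i • P₀)) + d * (C1 * (4 ^ j i + A.h (P i)))) := by
          have b8 : gs (fun v : AbsoluteValue L ℝ => gvA nd κ (P i) (z0 i) (z1 i) v) ≤
              d * 4 ^ j i + d * (D * (((k + 2 : ℕ) : ℝ) * (A.h (P i) + Cq * dK))) := by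
            refine hg.trans (le_of_eq ?_)
            ring
          linarith
      _ = _ := by
          rw [hCr']
          ring
  refine hconv d _ (A.h P₀) (∑ t, logHeight₁ (nd.s Q' t))
    (gs (fun v : AbsoluteValue L ℝ => Real.log (E.k v))) J j s
    (fun i => A.h (P i - 2 ^ j i • P₀)) _ sl (fun i => A.h (P i)) (fun i => (ρ i).ht)
    (fun i => logHeight (qv (nd.s (R i))))
    (fun i => gs (fun v : AbsoluteValue L ℝ => gvA nd κ (P i) (z0 i) (z1 i) v))
    (fun i => d * dK * Cf - d * sl i)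
    (fun i => - gs (fun v => Real.log
      (rrA nd κ (P i) (z0 i) (z1 i) E (rd i) (nd.s (R i)) v))) a hd0 ?_
    (AV.h_nonneg P₀) (fun i => AV.h_nonneg _) (fun i => AV.h_nonneg _) hJ hht hhx hkk
    (fun i => ?_) (fun i => ?_) (fun i => ?_) hrri ?_
  · exact logHeight_nonneg _
  · refine (hqvi i).trans (mul_le_mul_of_nonneg_left ?_ hd0.le)
    have h4 : (0 : ℝ) ≤ 4 ^ j i := by positivity
    have h5 := mul_le_mul_of_nonneg_right hC1Ch h4
    linarith
  · have h1 := (hgv i).2.1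
    rw [← hd] at h1
    have h2 : nd.gn κ (P i) (eval (nd.s (P i)) ((ρ i).z 0)) (eval (nd.s (P i)) ((ρ i).z 1)) =
        nd.gn κ (P i) (z0 i) (z1 i) := by rw [hz0, hz1]
    rw [h2]
    exact h1
  · rw [mul_assoc]
  · have h1 : ∀ i, gs (fun v => Real.log (dlA nd κ (P i) (z0 i) (z1 i) (L := L) v)) =
        - gs (fun v : AbsoluteValue L ℝ => gvA nd κ (P i) (z0 i) (z1 i) v) := by
      intro i
      simp only [log_dlA]
      have h2 := gs_const_mul (-1) (f := fun v : AbsoluteValue L ℝ =>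
        gvA nd κ (P i) (z0 i) (z1 i) v)
      simpa only [neg_one_mul] using h2
    simp only [h1] at hcore
    rw [hdL, ← hd] at hcore
    have h2 : ∑ i, (s i : ℝ) * (d * dK * Cf - d * sl i) =
        d * dK * (Cf * ∑ i, (s i : ℝ)) - d * ∑ i, s i * sl i := by
      rw [Finset.mul_sum, Finset.mul_sum, Finset.mul_sum, ← Finset.sum_sub_distrib]
      refine Finset.sum_congr rfl fun i _ => ?_
      ring
    have h3 : ∀ i : Fin m,
        (a₁ * (N' * 4 ^ J) * gs (fun v : AbsoluteValue L ℝ => Real.log (E.k v)) +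
          a₁ * (N' * 4 ^ (J - j i)) * ((d * dK) * Real.log (e + 1) + d * (ρ i).ht) +
          ((k + 2 : ℕ) : ℝ) * (N' * 4 ^ (J - j i)) * logHeight (qv (nd.s (R i))) +
          s i * (gs (fun v : AbsoluteValue L ℝ => Real.log (E.k v)) +
            logHeight (qv (nd.s (R i)))) -
          ((4 ^ (J - j i) - s i : ℕ) : ℝ) *
            gs (fun v : AbsoluteValue L ℝ => gvA nd κ (P i) (z0 i) (z1 i) v) +
          s i * (d * dK * Cf - d * sl i) : ℝ) =
        (a₁ * (N' * 4 ^ J) * gs (fun v : AbsoluteValue L ℝ => Real.log (E.k v)) +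
          a₁ * (N' * 4 ^ (J - j i)) * ((d * dK) * Real.log (e + 1) + d * (ρ i).ht) +
          ((k + 2 : ℕ) : ℝ) * (N' * 4 ^ (J - j i)) * logHeight (qv (nd.s (R i))) +
          s i * (gs (fun v : AbsoluteValue L ℝ => Real.log (E.k v)) +
            logHeight (qv (nd.s (R i)))) +
          ((4 ^ (J - j i) - s i : ℕ) : ℝ) *
            - gs (fun v : AbsoluteValue L ℝ => gvA nd κ (P i) (z0 i) (z1 i) v)) +
          s i * (d * dK * Cf - d * sl i) := by
      intro i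
      ring
    rw [Finset.sum_congr rfl fun i _ => h3 i, Finset.sum_add_distrib, h2]
    linarith

end Pool.Agent.Lib.MP_17a322_nt.VA
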