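import Pool.Agent.Lib.MP_17a322_nt.VA.Defs
import Pool.Agent.Lib.MP_17a322_nt.VJ.A4
import Pool.Agent.Lib.MP_17a322_nt.VJ.B4

/-!
Part M (flags): definitions.
-/

namespace Pool.Agent.Lib.MP_17a322_nt.VA

open MvPolynomial Height
open Pool.Agent.Lib.MP_17a322_nt.RO
open Pool.Agent.Lib.MP_17a322_nt.VJ
open Pool.Agent.Lib.MP_17a322_nt.VN

/-- The minors of a matrix with `k` rows. -/
noncomputable def mn {R : Type*} [CommRing R] {k n : ℕ} (E : Fin k → Fin n → R)
    (I : Fin k → Fin n) : R :=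
  (Matrix.of fun a b : Fin k => E a (I b)).det

/-- The first `k` rows of an infinite sequence of rows. -/
def tk {R : Type*} {n : ℕ} (E : ℕ → Fin n → R) (k : ℕ) : Fin k → Fin n → R :=
  fun a => E a

/-- Extension by zero rows. -/
def ez {R : Type*} [Zero R] {c n : ℕ} (E : Fin c → Fin n → R) : ℕ → Fin n → R :=
  fun a b => if h : a < c then E ⟨a, h⟩ b else 0

theorem wh_eq {K : Type*} [Field K] [AdmissibleAbsValues K] {c n : ℕ}
    (E : Fin c → Fin n → K) (k : ℕ) : wh E k = logHeight (mn (tk (ez E) k)) :=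
  rfl

theorem tk_ez {R : Type*} [Zero R] {c n : ℕ} (E : Fin c → Fin n → R) : tk (ez E) c = E := by
  funext a b
  simp [tk, ez]

/-- The maximum of the minors of the first `k` rows. -/
noncomputable def wv {L : Type*} [Field L] (v : AbsoluteValue L ℝ) {n : ℕ} (E : ℕ → Fin n → L)
    (k : ℕ) : ℝ :=
  ⨆ I : Fin k → Fin n, v (mn (tk E k) I)

/-- Elimination of the coordinate `b` with the row `0`. -/
noncomputable def el {L : Type*} [Field L] {n : ℕ} (b : Fin n) (E : ℕ → Fin n → L) :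
    ℕ → Fin n → L :=
  fun j a => E (j + 1) a - E (j + 1) b / E 0 b * E 0 a

/-- Substitution of the linear forms with coefficients `E r`. -/
noncomputable def sb {L : Type*} [Field L] (τ : Type*) {n : ℕ} (c : ℕ) (E : ℕ → Fin n → L) :
    MvPolynomial (Fin c) (MvPolynomial τ L) →+* MvPolynomial (Fin n ⊕ τ) L :=
  eval₂Hom (rename (R := L) (Sum.inr : τ → Fin n ⊕ τ)).toRingHom
    (fun r : Fin c => ∑ b, C (E r b) * X (Sum.inl b))

/-- Elimination of the variable `b` with the equation `∑ E 0 a * X a = 0`. -/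
noncomputable def ps {L : Type*} [Field L] (τ : Type*) {n : ℕ} (b : Fin n) (E : ℕ → Fin n → L) :
    MvPolynomial (Fin n ⊕ τ) L →ₐ[L] MvPolynomial (Fin n ⊕ τ) L :=
  aeval (Sum.elim
    (fun a => if a = b then - ∑ a' ∈ Finset.univ.erase b, C (E 0 a' / E 0 b) * X (Sum.inl a')
      else X (Sum.inl a)) fun t => X (Sum.inr t))

end Pool.Agent.Lib.MP_17a322_nt.VA
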