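import Pool.Agent.Lib.MP_17a322_nt.VA.M0

/-!
Minors: row operation, Laplace expansion, linear independence.
-/

universe u

namespace Pool.Agent.Lib.MP_17a322_nt.VA

open MvPolynomial Height
open Pool.Agent.Lib.MP_17a322_nt.RO
open Pool.Agent.Lib.MP_17a322_nt.VJ
open Pool.Agent.Lib.MP_17a322_nt.VN

theorem mn_map {R S : Type*} [CommRing R] [CommRing S] (φ : R →+* S) {k n : ℕ}
    (E : Fin k → Fin n → R) (I : Fin k → Fin n) :
    mn (fun a b => φ (E a b)) I = φ (mn E I) := by
  unfold mn
  rw [RingHom.map_det]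
  rfl

theorem mn_elim {L : Type*} [Field L] {n : ℕ} (E : ℕ → Fin n → L) (b : Fin n) (k : ℕ)
    (J : Fin (k + 1) → Fin n) :
    mn (tk E (k + 1)) J =
      (Matrix.of fun (a : Fin (k + 1)) (c : Fin (k + 1)) =>
        (Fin.cons (E 0) (fun j : Fin k => el b E j) : Fin (k + 1) → Fin n → L) a (J c)).det := by
  unfold mn
  refine Matrix.det_eq_of_forall_row_eq_smul_add_const
    (Fin.cons 0 (fun j : Fin k => E ((j : ℕ) + 1) b / E 0 b) : Fin (k + 1) → L) 0 rfl ?_
  intro i j
  refine Fin.cases ?_ (fun i => ?_) i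
  · simp [tk]
  · simp [tk, el]

theorem mn_succ {L : Type*} [Field L] {n : ℕ} (E : ℕ → Fin n → L) (b : Fin n) (k : ℕ)
    (J : Fin (k + 1) → Fin n) :
    mn (tk E (k + 1)) J =
      ∑ c : Fin (k + 1), (-1) ^ (c : ℕ) * E 0 (J c) * mn (tk (el b E) k) (J ∘ c.succAbove) := by
  rw [mn_elim E b k J, Matrix.det_succ_row_zero]
  refine Finset.sum_congr rfl fun c _ => ?_
  rfl

theorem mn_cons {L : Type*} [Field L] {n : ℕ} (E : ℕ → Fin n → L) (b : Fin n) (hb : E 0 b ≠ 0)
    (k : ℕ) (I : Fin k → Fin n) :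
    mn (tk E (k + 1)) (Fin.cons b I : Fin (k + 1) → Fin n) = E 0 b * mn (tk (el b E) k) I := by
  rw [mn_elim E b k, Matrix.det_succ_column_zero, Fin.sum_univ_succ, Finset.sum_eq_zero]
  · simp only [Fin.val_zero, pow_zero, one_mul, Matrix.of_apply, Fin.cons_zero, add_zero]
    congr 1
  · intro i _
    have h0 : el b E i b = 0 := by
      simp only [el]
      rw [div_mul_cancel₀ _ hb, sub_self]
    simp only [Matrix.of_apply, Fin.cons_succ, Fin.cons_zero, h0, mul_zero, zero_mul]

theorem M1_step {L : Type*} [Field L] {n : ℕ} (E : ℕ → Fin n → L) {k : ℕ}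
    (h : ∃ I, mn (tk E (k + 1)) I ≠ 0) : ∃ I, mn (tk E k) I ≠ 0 := by
  obtain ⟨I, hI⟩ := h
  by_contra hcon
  have hcon' : ∀ J, mn (tk E k) J = 0 := fun J => by
    by_contra hJ
    exact hcon ⟨J, hJ⟩
  apply hI
  unfold mn
  rw [Matrix.det_succ_row _ (Fin.last k)]
  apply Finset.sum_eq_zero
  intro j _
  have h2 : ((Matrix.of fun a b : Fin (k + 1) => tk E (k + 1) a (I b)).submatrix
      (Fin.last k).succAbove j.succAbove).det = mn (tk E k) (I ∘ j.succAbove) := by
    unfold mn
    congr 1
    ext a b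
    simp [tk, Matrix.submatrix_apply, Fin.succAbove_last]
  rw [h2, hcon', mul_zero]

theorem mn_ind {L : Type*} [Field L] {n : ℕ} (E : ℕ → Fin n → L) {k c : ℕ} (hk : k ≤ c)
    (h : ∃ I, mn (tk E c) I ≠ 0) : ∃ I, mn (tk E k) I ≠ 0 := by
  induction c, hk using Nat.le_induction with
  | base => exact h
  | succ m _ ih => exact ih (M1_step E h)

theorem M1_forward {L : Type*} [Field L] {n : ℕ} : ∀ {k : ℕ} (E : Fin k → Fin n → L),
    LinearIndependent L E → ∃ I, mn E I ≠ 0
  | 0, E, _ => ⟨Fin.elim0, by simp [mn]⟩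
  | k + 1, E, h => by
    obtain ⟨I, hI⟩ := M1_forward (fun a : Fin k => E a.castSucc)
      (h.comp _ (Fin.castSucc_injective k))
    by_contra hcon
    have hcon' : ∀ J, mn E J = 0 := fun J => by
      by_contra hJ
      exact hcon ⟨J, hJ⟩
    rw [Fintype.linearIndependent_iff] at h
    have key : ∀ a : Fin n, ∑ j : Fin (k + 1),
        ((-1) ^ ((j : ℕ) + ((Fin.last k : Fin (k + 1)) : ℕ)) *
          mn (fun i => E (j.succAbove i)) I) * E j a = 0 := by
      intro a
      have h1 := hcon' (Fin.snoc (α := fun _ => Fin n) I a)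
      unfold mn at h1
      rw [Matrix.det_succ_column _ (Fin.last k)] at h1
      rw [← h1]
      apply Finset.sum_congr rfl
      intro j _
      have h2 : ((Matrix.of fun (a' : Fin (k + 1)) (b : Fin (k + 1)) =>
          E a' ((Fin.snoc (α := fun _ => Fin n) I a : Fin (k + 1) → Fin n) b)).submatrix
          j.succAbove (Fin.last k).succAbove).det = mn (fun i => E (j.succAbove i)) I := by
        unfold mn
        congr 1
        ext c d
        simp [Matrix.submatrix_apply, Fin.succAbove_last, Fin.snoc_castSucc]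
      rw [h2]
      simp only [Matrix.of_apply, Fin.snoc_last]
      ring
    have h3 := h (fun j => (-1) ^ ((j : ℕ) + ((Fin.last k : Fin (k + 1)) : ℕ)) *
          mn (fun i => E (j.succAbove i)) I) (by
        funext a
        simpa [Finset.sum_apply] using key a) (Fin.last k)
    have h4 : (fun i => E ((Fin.last k).succAbove i)) = fun a : Fin k => E a.castSucc := by
      funext i
      rw [Fin.succAbove_last]
    simp only [h4] at h3
    rcases mul_eq_zero.mp h3 with h5 | h5
    · exact (pow_ne_zero _ (neg_ne_zero.mpr one_ne_zero)) h5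
    · exact hI h5

/-- The rows are linearly independent if and only if some minor is not zero. -/
theorem mn_indep {L : Type*} [Field L] {k n : ℕ} (E : Fin k → Fin n → L) :
    LinearIndependent L E ↔ ∃ I, mn E I ≠ 0 := by
  constructor
  · exact M1_forward E
  · rintro ⟨I, hI⟩
    rw [Fintype.linearIndependent_iff]
    intro g hg
    have h1 : Matrix.vecMul g (Matrix.of fun a b : Fin k => E a (I b)) = 0 := by
      funext b
      have h2 := congrFun hg (I b)
      simpa [Matrix.vecMul, dotProduct, Finset.sum_apply] using h2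
    have h3 := Matrix.eq_zero_of_vecMul_eq_zero hI h1
    intro i
    rw [h3]
    rfl

end Pool.Agent.Lib.MP_17a322_nt.VA
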