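import Pool.Agent.Lib.MP_17a322_nt.Mb

/-!
Box principle for real linear forms.
-/

namespace Pool.Agent.Lib.MP_17a322_nt.VA

/-- Two numbers of the same cell. -/
private theorem M11_cell {u v : ℝ} {q : ℕ} (hq : 1 ≤ q) (hu : 0 ≤ u) (huq : u ≤ q)
    (hv : 0 ≤ v) (hvq : v ≤ q) (h : min ⌊u⌋₊ (q - 1) = min ⌊v⌋₊ (q - 1)) : |u - v| ≤ 1 := by
  have h1 : ((q - 1 : ℕ) : ℝ) = (q : ℝ) - 1 := by
    rw [Nat.cast_sub hq, Nat.cast_one]
  have hfu := Nat.floor_le hu
  have hfv := Nat.floor_le hv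
  have hfu' := Nat.lt_floor_add_one u
  have hfv' := Nat.lt_floor_add_one v
  rcases le_total ⌊u⌋₊ (q - 1) with hu1 | hu1 <;> rcases le_total ⌊v⌋₊ (q - 1) with hv1 | hv1
  · rw [min_eq_left hu1, min_eq_left hv1] at h
    rw [h] at hfu hfu'
    rw [abs_le]
    constructor <;> linarith
  · rw [min_eq_left hu1, min_eq_right hv1] at h
    rw [h, h1] at hfu hfu'
    have h2 : ((q : ℝ) - 1) ≤ ⌊v⌋₊ := by
      rw [← h1]
      exact_mod_cast hv1
    rw [abs_le]
    constructor <;> linarith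
  · rw [min_eq_right hu1, min_eq_left hv1] at h
    rw [← h, h1] at hfv hfv'
    have h2 : ((q : ℝ) - 1) ≤ ⌊u⌋₊ := by
      rw [← h1]
      exact_mod_cast hu1
    rw [abs_le]
    constructor <;> linarith
  · have h2 : ((q : ℝ) - 1) ≤ ⌊u⌋₊ := by
      rw [← h1]
      exact_mod_cast hu1
    have h3 : ((q : ℝ) - 1) ≤ ⌊v⌋₊ := by
      rw [← h1]
      exact_mod_cast hv1
    rw [abs_le]
    constructor <;> linarith

theorem dirichlet {R S : Type*} [Fintype R] [Fintype S] [Nonempty R]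
    (hRS : Fintype.card R ≤ Fintype.card S) (A : R → S → ℝ) (B : ℝ) (hA : ∀ r s, |A r s| ≤ B)
    (Y : ℕ) (hY : 1 ≤ Y) :
    ∃ a : S → ℤ, a ≠ 0 ∧ (∀ s, |a s| ≤ Y) ∧
      ∀ r, |∑ s, A r s * a s| ≤ 4 * Fintype.card S * B *
        (Y : ℝ) ^ (1 - (Fintype.card S : ℝ) / Fintype.card R) := by
  classical
  have hR : 0 < Fintype.card R := Fintype.card_pos
  have hS : 0 < Fintype.card S := lt_of_lt_of_le hR hRS
  obtain ⟨s₀⟩ : Nonempty S := Fintype.card_pos_iff.1 hS
  obtain ⟨r₀⟩ : Nonempty R := inferInstance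
  have hB : 0 ≤ B := (abs_nonneg _).trans (hA r₀ s₀)
  have hY0 : (0 : ℝ) < Y := by exact_mod_cast hY
  have hY1 : (1 : ℝ) ≤ Y := by exact_mod_cast hY
  have hRr : (0 : ℝ) < Fintype.card R := by exact_mod_cast hR
  have hSr : (0 : ℝ) < Fintype.card S := by exact_mod_cast hS
  rcases hB.eq_or_lt with hB0 | hB0
  · refine ⟨Pi.single s₀ 1, ?_, ?_, ?_⟩
    · intro h
      have h1 := congrFun h s₀
      rw [Pi.single_eq_same] at h1
      exact one_ne_zero h1
    · intro s
      by_cases hs : s = s₀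
      · subst hs
        rw [Pi.single_eq_same, abs_one]
        exact_mod_cast hY
      · rw [Pi.single_eq_of_ne hs, abs_zero]
        exact Int.natCast_nonneg Y
    · intro r
      have h1 : ∀ s, A r s = 0 := by
        intro s
        have h2 := hA r s
        rw [← hB0] at h2
        exact abs_nonpos_iff.1 h2
      have h2 : ∑ s, A r s * ((Pi.single s₀ (1 : ℤ) : S → ℤ) s : ℝ) = 0 := by
        refine Finset.sum_eq_zero fun s _ => ?_
        rw [h1, zero_mul]
      rw [h2, abs_zero, ← hB0]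
      simp
  · -- the number of cells
    set e : ℝ := (Fintype.card S : ℝ) / Fintype.card R with he
    have he1 : 1 ≤ e := by
      rw [he, one_le_div hRr]
      exact_mod_cast hRS
    set x : ℝ := ((Y : ℝ) + 1) ^ e with hx
    have hY2 : (2 : ℝ) ≤ (Y : ℝ) + 1 := by linarith
    have hx2 : 2 ≤ x := by
      calc (2 : ℝ) ≤ (Y : ℝ) + 1 := hY2
        _ = ((Y : ℝ) + 1) ^ (1 : ℝ) := (Real.rpow_one _).symm
        _ ≤ ((Y : ℝ) + 1) ^ e := Real.rpow_le_rpow_of_exponent_le (by linarith) he1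
    have hxY : (Y : ℝ) ^ e ≤ x := Real.rpow_le_rpow hY0.le (by linarith) (by linarith)
    obtain ⟨q, hq1, hqx, hxq⟩ : ∃ q : ℕ, 1 ≤ q ∧ (q : ℝ) < x ∧ x / 2 ≤ q := by
      refine ⟨⌈x⌉₊ - 1, ?_, ?_, ?_⟩
      · have h1 : 2 ≤ ⌈x⌉₊ := by
          have h2 := Nat.le_ceil x
          have h3 : (2 : ℝ) ≤ (⌈x⌉₊ : ℝ) := hx2.trans h2
          exact_mod_cast h3
        omega
      · apply Nat.lt_ceil.1
        have h1 : 0 < ⌈x⌉₊ := Nat.ceil_pos.2 (by linarith)
        omega
      · have h1 : 1 ≤ ⌈x⌉₊ := Nat.ceil_pos.2 (by linarith)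
        rw [Nat.cast_sub h1, Nat.cast_one]
        have h2 := Nat.le_ceil x
        linarith
    have hqr : (0 : ℝ) < q := by exact_mod_cast hq1
    have hcard : q ^ Fintype.card R < (Y + 1) ^ Fintype.card S := by
      have h1 : (q : ℝ) ^ Fintype.card R < x ^ Fintype.card R :=
        pow_lt_pow_left₀ hqx hqr.le hR.ne'
      have h2 : x ^ Fintype.card R = ((Y : ℝ) + 1) ^ Fintype.card S := by
        rw [hx, ← Real.rpow_natCast, ← Real.rpow_mul (by linarith), he, div_mul_cancel₀ _ hRr.ne',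
          Real.rpow_natCast]
      rw [h2] at h1
      exact_mod_cast h1
    -- the box principle
    let g : (S → Fin (Y + 1)) → R → ℝ := fun a r => ∑ s, A r s * ((a s : ℕ) : ℝ)
    set M : ℝ := Fintype.card S * B * Y with hM
    have hM0 : 0 < M := by positivity
    have hg : ∀ a r, |g a r| ≤ M := by
      intro a r
      refine (Finset.abs_sum_le_sum_abs _ _).trans ?_
      have h1 : ∀ s ∈ (Finset.univ : Finset S), |A r s * ((a s : ℕ) : ℝ)| ≤ B * Y := by
        intro s _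
        rw [abs_mul]
        have h2 : |((a s : ℕ) : ℝ)| ≤ Y := by
          rw [abs_of_nonneg (Nat.cast_nonneg _)]
          exact_mod_cast Nat.lt_succ_iff.1 (a s).2
        exact mul_le_mul (hA r s) h2 (abs_nonneg _) hB
      refine (Finset.sum_le_sum h1).trans ?_
      rw [Finset.sum_const, Finset.card_univ, nsmul_eq_mul, hM, mul_assoc]
    let w : (S → Fin (Y + 1)) → R → ℝ := fun a r => (g a r + M) * q / (2 * M)
    have hw0 : ∀ a r, 0 ≤ w a r := by
      intro a r
      have h1 := (abs_le.1 (hg a r)).1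
      have h2 : 0 ≤ g a r + M := by linarith
      exact div_nonneg (mul_nonneg h2 hqr.le) (by linarith)
    have hwq : ∀ a r, w a r ≤ q := by
      intro a r
      have h1 := (abs_le.1 (hg a r)).2
      have h2 : g a r + M ≤ 2 * M := by linarith
      rw [div_le_iff₀ (by linarith)]
      rw [mul_comm (q : ℝ)]
      exact mul_le_mul_of_nonneg_right h2 hqr.le
    let cell : (S → Fin (Y + 1)) → (R → Fin q) := fun a r =>
      ⟨min ⌊w a r⌋₊ (q - 1), lt_of_le_of_lt (min_le_right _ _) (by omega)⟩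
    obtain ⟨a, a', haa, hcell⟩ := Fintype.exists_ne_map_eq_of_card_lt cell (by
      rw [Fintype.card_fun, Fintype.card_fun, Fintype.card_fin, Fintype.card_fin]
      exact hcard)
    refine ⟨fun s => ((a s : ℕ) : ℤ) - ((a' s : ℕ) : ℤ), ?_, ?_, ?_⟩
    · intro h
      apply haa
      funext s
      have h1 := congrFun h s
      simp only [Pi.zero_apply] at h1
      apply Fin.ext
      omega
    · intro s
      have h1 : (a s : ℕ) ≤ Y := Nat.lt_succ_iff.1 (a s).2
      have h2 : (a' s : ℕ) ≤ Y := Nat.lt_succ_iff.1 (a' s).2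
      show |((a s : ℕ) : ℤ) - ((a' s : ℕ) : ℤ)| ≤ Y
      rw [abs_le]
      constructor <;> omega
    · intro r
      have h1 : ∑ s, A r s * (((((a s : ℕ) : ℤ) - ((a' s : ℕ) : ℤ) : ℤ)) : ℝ) = g a r - g a' r := by
        show _ = (∑ s, A r s * ((a s : ℕ) : ℝ)) - ∑ s, A r s * ((a' s : ℕ) : ℝ)
        rw [← Finset.sum_sub_distrib]
        refine Finset.sum_congr rfl fun s _ => ?_
        rw [← mul_sub, Int.cast_sub, Int.cast_natCast, Int.cast_natCast]
      rw [h1]
      have h2 := congrArg (fun f : R → Fin q => (f r : ℕ)) hcell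
      have h3 := M11_cell hq1 (hw0 a r) (hwq a r) (hw0 a' r) (hwq a' r) h2
      have h4 : w a r - w a' r = (g a r - g a' r) * (q / (2 * M)) := by
        show (g a r + M) * q / (2 * M) - (g a' r + M) * q / (2 * M) = _
        ring
      rw [h4, abs_mul, abs_of_pos (div_pos hqr (by linarith))] at h3
      have h5 : |g a r - g a' r| ≤ 2 * M / q := by
        rw [le_div_iff₀ hqr]
        have h6 := mul_le_mul_of_nonneg_right h3 (by linarith : (0 : ℝ) ≤ 2 * M)
        rw [one_mul, mul_assoc, div_mul_cancel₀ _ (by linarith : (2 * M : ℝ) ≠ 0)] at h6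
        exact h6
      have h7 : 2 * M / q ≤ 4 * M / (Y : ℝ) ^ e := by
        have hYe : 0 < (Y : ℝ) ^ e := Real.rpow_pos_of_pos hY0 _
        rw [div_le_div_iff₀ hqr hYe]
        have h8 : (Y : ℝ) ^ e ≤ 2 * q := by linarith
        nlinarith
      have h9 : 4 * M / (Y : ℝ) ^ e = 4 * Fintype.card S * B * (Y : ℝ) ^ (1 - e) := by
        rw [hM, Real.rpow_sub hY0, Real.rpow_one]
        ring
      rw [← h9]
      exact h5.trans h7

end Pool.Agent.Lib.MP_17a322_nt.VA
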