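import Pool.Agent.Lib.MP_17a322_nt.VA.M11

/-!
Small integral vectors with small values of linear forms at the infinite places.
-/

namespace Pool.Agent.Lib.MP_17a322_nt.VA

open NumberField

theorem M12_abs_le {a b e : ℝ} (h1 : |a + b| ≤ e) (h2 : |a - b| ≤ e) : |a| ≤ e ∧ |b| ≤ e := by
  rw [abs_le] at h1 h2
  constructor <;> rw [abs_le] <;> constructor <;> linarith [h1.1, h1.2, h2.1, h2.2]

theorem M12_card (K : Type*) [Field K] [NumberField K] :
    Fintype.card (K →+* ℂ) = Fintype.card (Module.Free.ChooseBasisIndex ℤ (𝓞 K)) := by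
  rw [NumberField.Embeddings.card, ← NumberField.RingOfIntegers.rank,
    Module.finrank_eq_card_chooseBasisIndex]

theorem M12_sum {K : Type*} [Field K] [NumberField K] (φ : K →+* ℂ)
    (z : Module.Free.ChooseBasisIndex ℤ (𝓞 K) → ℤ) :
    φ ((∑ l, z l • (NumberField.RingOfIntegers.basis K l : 𝓞 K) : 𝓞 K) : K) =
      ∑ l, (z l : ℂ) * φ ((NumberField.RingOfIntegers.basis K l : 𝓞 K) : K) := by
  have h : ((∑ l, z l • (NumberField.RingOfIntegers.basis K l : 𝓞 K) : 𝓞 K) : K) =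
      ∑ l, (z l : K) * ((NumberField.RingOfIntegers.basis K l : 𝓞 K) : K) := by
    have h1 := map_sum (algebraMap (𝓞 K) K)
      (fun l => z l • (NumberField.RingOfIntegers.basis K l : 𝓞 K)) Finset.univ
    refine h1.trans (Finset.sum_congr rfl fun l _ => ?_)
    rw [zsmul_eq_mul, map_mul, map_intCast]
  rw [h, map_sum]
  refine Finset.sum_congr rfl fun l _ => ?_
  rw [map_mul, map_intCast]

/-- the linear form of an embedding -/
theorem M12_form {K : Type*} [Field K] [NumberField K] {n : ℕ} (φ : K →+* ℂ) (F : Fin n → K)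
    (z : Fin n × Module.Free.ChooseBasisIndex ℤ (𝓞 K) → ℤ) :
    φ (∑ a, F a * ((∑ l, z (a, l) • (NumberField.RingOfIntegers.basis K l : 𝓞 K) : 𝓞 K) : K)) =
      ∑ s : Fin n × Module.Free.ChooseBasisIndex ℤ (𝓞 K),
        φ (F s.1 * ((NumberField.RingOfIntegers.basis K s.2 : 𝓞 K) : K)) * (z s : ℂ) := by
  rw [Fintype.sum_prod_type, map_sum]
  refine Finset.sum_congr rfl fun a _ => ?_
  rw [map_mul, M12_sum, Finset.mul_sum]
  refine Finset.sum_congr rfl fun l _ => ?_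
  rw [map_mul]
  ring

theorem dir_nf (K : Type*) [Field K] [NumberField K] (k n : ℕ) (hk : 1 ≤ k) (hkn : k ≤ n) :
    ∃ C : ℝ, 1 ≤ C ∧ ∀ F : InfinitePlace K → Fin k → Fin n → K,
      (∀ (w : InfinitePlace K) (j : Fin k) (a : Fin n), w (F w j a) ≤ 1) →
      ∀ Y : ℕ, 1 ≤ Y → ∃ x : Fin n → 𝓞 K, x ≠ 0 ∧
        (∀ (w : InfinitePlace K) (a : Fin n), w (x a : K) ≤ C * Y) ∧
        ∀ (w : InfinitePlace K) (j : Fin k), w (∑ a, F w j a * (x a : K)) ≤
          C * (Y : ℝ) ^ (1 - (n : ℝ) / k) := by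
  classical
  set ω := NumberField.RingOfIntegers.basis K with hω
  set d : ℕ := Fintype.card (Module.Free.ChooseBasisIndex ℤ (𝓞 K)) with hd
  have hcard : Fintype.card (K →+* ℂ) = d := M12_card K
  have hd1 : 1 ≤ d := by
    rw [← hcard]
    exact Fintype.card_pos
  set B₀ : ℝ := ∑ φ : K →+* ℂ, ∑ l, ‖φ ((ω l : 𝓞 K) : K)‖ with hB₀
  have hB₀0 : 0 ≤ B₀ := Finset.sum_nonneg fun φ _ => Finset.sum_nonneg fun l _ => norm_nonneg _
  have hB₁ : ∀ φ : K →+* ℂ, ∑ l, ‖φ ((ω l : 𝓞 K) : K)‖ ≤ B₀ := fun φ =>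
    Finset.single_le_sum (f := fun φ : K →+* ℂ => ∑ l, ‖φ ((ω l : 𝓞 K) : K)‖)
      (fun φ _ => Finset.sum_nonneg fun l _ => norm_nonneg _) (Finset.mem_univ φ)
  have hB₂ : ∀ (φ : K →+* ℂ) l, ‖φ ((ω l : 𝓞 K) : K)‖ ≤ B₀ := fun φ l =>
    le_trans (Finset.single_le_sum (f := fun l => ‖φ ((ω l : 𝓞 K) : K)‖)
      (fun l _ => norm_nonneg _) (Finset.mem_univ l)) (hB₁ φ)
  refine ⟨max 1 (max B₀ (16 * n * d * B₀)), le_max_left _ _, ?_⟩
  intro F hF Y hY
  have hY0 : (0 : ℝ) ≤ Y := Nat.cast_nonneg Y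
  have hn0 : (0 : ℝ) ≤ n := Nat.cast_nonneg n
  have : Nonempty (Fin k) := ⟨⟨0, hk⟩⟩
  have : Nonempty (K →+* ℂ) := inferInstance
  obtain ⟨z, hz0, hzY, hz⟩ := dirichlet (R := (K →+* ℂ) × Fin k)
    (S := Fin n × Module.Free.ChooseBasisIndex ℤ (𝓞 K))
    (by
      rw [Fintype.card_prod, Fintype.card_prod, hcard, Fintype.card_fin, Fintype.card_fin, mul_comm]
      exact Nat.mul_le_mul_right _ hkn)
    (fun r s => (r.1 (F (InfinitePlace.mk r.1) r.2 s.1 * ((ω s.2 : 𝓞 K) : K))).re +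
      (r.1 (F (InfinitePlace.mk r.1) r.2 s.1 * ((ω s.2 : 𝓞 K) : K))).im) (2 * B₀)
    (by
      rintro ⟨φ, j⟩ ⟨a, l⟩
      have h1 : ‖φ (F (InfinitePlace.mk φ) j a * ((ω l : 𝓞 K) : K))‖ ≤ B₀ := by
        rw [map_mul, norm_mul]
        have h2 : ‖φ (F (InfinitePlace.mk φ) j a)‖ ≤ 1 := by
          have := hF (InfinitePlace.mk φ) j a
          rwa [InfinitePlace.apply] at this
        calc _ ≤ 1 * B₀ := mul_le_mul h2 (hB₂ φ l) (norm_nonneg _) zero_le_one
          _ = B₀ := one_mul _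
      refine le_trans (abs_add_le _ _) ?_
      have h3 := Complex.abs_re_le_norm (φ (F (InfinitePlace.mk φ) j a * ((ω l : 𝓞 K) : K)))
      have h4 := Complex.abs_im_le_norm (φ (F (InfinitePlace.mk φ) j a * ((ω l : 𝓞 K) : K)))
      linarith) Y hY
  set ε : ℝ := 8 * n * d * B₀ * (Y : ℝ) ^ (1 - (n : ℝ) / k) with hε
  have hYp : 0 ≤ (Y : ℝ) ^ (1 - (n : ℝ) / k) := Real.rpow_nonneg hY0 _
  have hz' : ∀ (φ : K →+* ℂ) (j : Fin k),
      |(φ (∑ a, F (InfinitePlace.mk φ) j a * ((∑ l, z (a, l) • ω l : 𝓞 K) : K))).re +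
        (φ (∑ a, F (InfinitePlace.mk φ) j a * ((∑ l, z (a, l) • ω l : 𝓞 K) : K))).im| ≤ ε := by
    intro φ j
    have h1 := hz (φ, j)
    have h2 := M12_form φ (F (InfinitePlace.mk φ) j) z
    rw [← hω] at h2
    rw [h2, Complex.re_sum, Complex.im_sum, ← Finset.sum_add_distrib]
    have h3 : ∀ s : Fin n × Module.Free.ChooseBasisIndex ℤ (𝓞 K),
        (φ (F (InfinitePlace.mk φ) j s.1 * ((ω s.2 : 𝓞 K) : K)) * (z s : ℂ)).re +
        (φ (F (InfinitePlace.mk φ) j s.1 * ((ω s.2 : 𝓞 K) : K)) * (z s : ℂ)).im =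
        ((φ (F (InfinitePlace.mk φ) j s.1 * ((ω s.2 : 𝓞 K) : K))).re +
        (φ (F (InfinitePlace.mk φ) j s.1 * ((ω s.2 : 𝓞 K) : K))).im) * (z s : ℝ) := by
      intro s
      have h4 : ((z s : ℤ) : ℂ) = (((z s : ℤ) : ℝ) : ℂ) := by push_cast; rfl
      rw [h4, Complex.re_mul_ofReal, Complex.im_mul_ofReal]
      ring
    rw [Finset.sum_congr rfl fun s _ => h3 s]
    refine le_trans h1 (le_of_eq ?_)
    rw [hε, Fintype.card_prod, Fintype.card_prod, hcard, Fintype.card_fin, Fintype.card_fin]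
    have hk0 : (k : ℝ) ≠ 0 := by positivity
    have hd0 : (d : ℝ) ≠ 0 := by positivity
    have h5 : (((n * Fintype.card (Module.Free.ChooseBasisIndex ℤ (𝓞 K)) : ℕ)) : ℝ) / ((d * k : ℕ) : ℝ) =
        (n : ℝ) / k := by
      rw [← hd]
      push_cast
      field_simp
    rw [h5, ← hd]
    push_cast
    ring
  have hx : ∀ (φ : K →+* ℂ) (j : Fin k),
      ‖φ (∑ a, F (InfinitePlace.mk φ) j a * ((∑ l, z (a, l) • ω l : 𝓞 K) : K))‖ ≤ 2 * ε := by
    intro φ j
    have h1 := hz' φ j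
    have h2 := hz' (ComplexEmbedding.conjugate φ) j
    rw [InfinitePlace.mk_conjugate_eq, ComplexEmbedding.conjugate_coe_eq, Complex.conj_re,
      Complex.conj_im] at h2
    obtain ⟨h3, h4⟩ := M12_abs_le h1 (by rwa [← sub_eq_add_neg] at h2)
    refine le_trans (Complex.norm_le_abs_re_add_abs_im _) ?_
    linarith
  have hwφ : ∀ (w : InfinitePlace K) (y : K), w y = ‖w.embedding y‖ := fun w y =>
    (InfinitePlace.norm_embedding_eq w y).symm
  refine ⟨fun a => ∑ l, z (a, l) • ω l, ?_, ?_, ?_⟩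
  · intro h0
    apply hz0
    funext s
    obtain ⟨a, l⟩ := s
    have h1 : ∑ l, z (a, l) • ω l = 0 := congrFun h0 a
    exact (Fintype.linearIndependent_iff.1 ω.linearIndependent) _ h1 l
  · intro w a
    rw [hwφ]
    have h1 : ‖w.embedding ((∑ l, z (a, l) • ω l : 𝓞 K) : K)‖ ≤ Y * B₀ := by
      have h0 := M12_sum w.embedding (fun l => z (a, l))
      rw [← hω] at h0
      rw [h0]
      refine le_trans (norm_sum_le _ _) ?_
      calc _ ≤ ∑ l, (Y : ℝ) * ‖w.embedding ((ω l : 𝓞 K) : K)‖ := by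
            refine Finset.sum_le_sum fun l _ => ?_
            rw [norm_mul]
            refine mul_le_mul_of_nonneg_right ?_ (norm_nonneg _)
            rw [Complex.norm_intCast]
            exact_mod_cast hzY (a, l)
        _ = Y * ∑ l, ‖w.embedding ((ω l : 𝓞 K) : K)‖ := by rw [Finset.mul_sum]
        _ ≤ Y * B₀ := mul_le_mul_of_nonneg_left (hB₁ _) hY0
    refine le_trans h1 ?_
    rw [mul_comm]
    refine mul_le_mul_of_nonneg_right ?_ hY0
    exact le_trans (le_max_left _ _) (le_max_right _ _)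
  · intro w j
    rw [hwφ]
    have h1 := hx w.embedding j
    rw [InfinitePlace.mk_embedding] at h1
    refine le_trans h1 ?_
    calc 2 * ε = (16 * n * d * B₀) * (Y : ℝ) ^ (1 - (n : ℝ) / k) := by rw [hε]; ring
      _ ≤ _ := mul_le_mul_of_nonneg_right (le_trans (le_max_right _ _) (le_max_right _ _)) hYp

end Pool.Agent.Lib.MP_17a322_nt.VA
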