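import Pool.Agent.Lib.MP_17a322_nt.VA.M1
import Pool.Agent.Lib.MP_17a322_nt.VJ.A3

/-!
Normalisation of a matrix at one place; size of a contraction.
-/

universe u

namespace Pool.Agent.Lib.MP_17a322_nt.VA

open MvPolynomial Height
open Pool.Agent.Lib.MP_17a322_nt.RO
open Pool.Agent.Lib.MP_17a322_nt.VJ
open Pool.Agent.Lib.MP_17a322_nt.VN

/-- Contraction of the vector of minors with `x`. -/
noncomputable def ctr {R : Type*} [CommRing R] {k n : ℕ} (E : Fin (k + 1) → Fin n → R)
    (x : Fin n → R) (I : Fin k → Fin n) : R :=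
  ∑ a, x a * mn E (Fin.snoc I a : Fin (k + 1) → Fin n)

theorem pivot {K : Type*} [Field K] (v : AbsoluteValue K ℝ) {k n : ℕ} (E : Fin k → Fin n → K)
    (h : ∃ I, mn E I ≠ 0) :
    ∃ (A : Matrix (Fin k) (Fin k) K) (F : Fin k → Fin n → K),
      (∀ j a, E j a = ∑ l, A j l * F l a) ∧ A.det ≠ 0 ∧ v A.det ≤ ⨆ I, v (mn E I) ∧
        ∀ l a, v (F l a) ≤ 1 := by
  classical
  have : Nonempty (Fin k → Fin n) := ⟨h.choose⟩
  obtain ⟨I₀, hI₀⟩ := Finite.exists_max (fun I : Fin k → Fin n => v (mn E I))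
  have hne : mn E I₀ ≠ 0 := by
    obtain ⟨I, hI⟩ := h
    intro h0
    have h1 := hI₀ I
    rw [h0, map_zero] at h1
    exact hI (v.eq_zero.1 (le_antisymm h1 (v.nonneg _)))
  set A : Matrix (Fin k) (Fin k) K := Matrix.of fun j l => E j (I₀ l) with hA
  have hdet : A.det = mn E I₀ := rfl
  have hu : IsUnit A.det := by
    rw [hdet]
    exact isUnit_iff_ne_zero.2 hne
  refine ⟨A, fun l a => (A⁻¹.mulVec fun j => E j a) l, ?_, ?_, ?_, ?_⟩
  · intro j a
    have h1 : A.mulVec (A⁻¹.mulVec fun j => E j a) = fun j => E j a := by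
      rw [Matrix.mulVec_mulVec, Matrix.mul_nonsing_inv _ hu, Matrix.one_mulVec]
    exact (congrFun h1 j).symm
  · rw [hdet]
    exact hne
  · rw [hdet]
    exact le_ciSup (f := fun I => v (mn E I)) (Set.finite_range _).bddAbove I₀
  · intro l a
    have h1 : (A⁻¹.mulVec fun j => E j a) l = (A.det)⁻¹ * mn E (Function.update I₀ l a) := by
      rw [Matrix.inv_def, Matrix.smul_mulVec, Ring.inverse_eq_inv',
        ← Matrix.cramer_eq_adjugate_mulVec, Pi.smul_apply, smul_eq_mul, Matrix.cramer_apply]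
      congr 1
      unfold mn
      congr 1
      ext i j
      rw [Matrix.updateCol_apply, Matrix.of_apply, Function.update_apply]
      split_ifs <;> rfl
    change v ((A⁻¹.mulVec fun j => E j a) l) ≤ 1
    rw [h1, map_mul, map_inv₀, hdet]
    have h2 := hI₀ (Function.update I₀ l a)
    have h3 : 0 < v (mn E I₀) := v.pos hne
    rw [inv_mul_le_iff₀ h3, mul_one]
    exact h2

theorem M13_mn {K : Type*} [Field K] {k n : ℕ} (E : Fin k → Fin n → K)
    (A : Matrix (Fin k) (Fin k) K) (F : Fin k → Fin n → K)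
    (hE : ∀ j a, E j a = ∑ l, A j l * F l a) (J : Fin k → Fin n) :
    mn E J = A.det * mn F J := by
  unfold mn
  rw [← Matrix.det_mul]
  congr 1
  ext i j
  rw [Matrix.mul_apply, Matrix.of_apply, hE]
  rfl

theorem M13_ctr {K : Type*} [Field K] {k n : ℕ} (F : Fin (k + 1) → Fin n → K) (x : Fin n → K)
    (I : Fin k → Fin n) :
    ctr F x I = (Matrix.of fun l b : Fin (k + 1) =>
      (Fin.snoc (fun b' => F l (I b')) (∑ a, F l a * x a) : Fin (k + 1) → K) b).det := by
  have h1 : ∀ a, mn F (Fin.snoc I a : Fin (k + 1) → Fin n) =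
      ∑ i : Fin (k + 1), (-1) ^ ((i : ℕ) + k) * F i a *
        (Matrix.of fun l b : Fin k => F (i.succAbove l) (I b)).det := by
    intro a
    unfold mn
    rw [Matrix.det_succ_column _ (Fin.last k)]
    refine Finset.sum_congr rfl fun i _ => ?_
    rw [Matrix.of_apply, Fin.snoc_last, Fin.val_last]
    congr 2
    ext l b
    rw [Matrix.submatrix_apply, Matrix.of_apply, Matrix.of_apply, Fin.succAbove_last,
      Fin.snoc_castSucc]
  unfold ctr
  rw [Matrix.det_succ_column _ (Fin.last k)]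
  rw [Finset.sum_congr rfl fun a _ => by rw [h1 a, Finset.mul_sum], Finset.sum_comm]
  refine Finset.sum_congr rfl fun i _ => ?_
  rw [Matrix.of_apply, Fin.snoc_last, Fin.val_last]
  have h2 : (Matrix.of fun l b : Fin (k + 1) =>
      (Fin.snoc (fun b' => F l (I b')) (∑ a, F l a * x a) : Fin (k + 1) → K) b).submatrix
        i.succAbove (Fin.last k).succAbove = Matrix.of fun l b : Fin k => F (i.succAbove l) (I b) := by
    ext l b
    rw [Matrix.submatrix_apply, Matrix.of_apply, Matrix.of_apply, Fin.succAbove_last,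
      Fin.snoc_castSucc]
  rw [h2, Finset.mul_sum, Finset.sum_mul]
  refine Finset.sum_congr rfl fun a _ => ?_
  ring

theorem ctr_le {K : Type*} [Field K] (v : AbsoluteValue K ℝ) {k n : ℕ}
    (E : Fin (k + 1) → Fin n → K) (A : Matrix (Fin (k + 1)) (Fin (k + 1)) K)
    (F : Fin (k + 1) → Fin n → K) (hE : ∀ j a, E j a = ∑ l, A j l * F l a)
    (hF : ∀ l a, v (F l a) ≤ 1) (x : Fin n → K) (B : ℝ) (hB : ∀ l, v (∑ a, F l a * x a) ≤ B)
    (I : Fin k → Fin n) :
    v (ctr E x I) ≤ cst v (k + 1) ^ (k + 1) * (v A.det * B) := by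
  classical
  have hB0 : 0 ≤ B := le_trans (v.nonneg _) (hB 0)
  have h1 : ctr E x I = A.det * ctr F x I := by
    unfold ctr
    rw [Finset.mul_sum]
    refine Finset.sum_congr rfl fun a _ => ?_
    rw [M13_mn E A F hE]
    ring
  have hc0 : 0 ≤ cst v (k + 1) := by
    unfold cst
    split_ifs
    · exact zero_le_one
    · exact Nat.cast_nonneg _
  rw [h1, map_mul, M13_ctr]
  set M : Matrix (Fin (k + 1)) (Fin (k + 1)) K := Matrix.of fun l b : Fin (k + 1) =>
      (Fin.snoc (fun b' => F l (I b')) (∑ a, F l a * x a) : Fin (k + 1) → K) b with hM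
  have hM1 : ∀ l (b : Fin k), M l b.castSucc = F l (I b) := by
    intro l b
    rw [hM, Matrix.of_apply, Fin.snoc_castSucc]
  have hM2 : ∀ l, M l (Fin.last k) = ∑ a, F l a * x a := by
    intro l
    rw [hM, Matrix.of_apply, Fin.snoc_last]
  have h2 := (SN_self v).det_le M
    (Fin.snoc (fun _ => cst v (k + 1)) (cst v (k + 1) * B) : Fin (k + 1) → ℝ)
    (by
      intro c
      refine Fin.lastCases ?_ (fun b => ?_) c
      · rw [Fin.snoc_last]
        exact mul_nonneg hc0 hB0
      · rw [Fin.snoc_castSucc]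
        exact hc0)
    (by
      intro hv r c
      have hc1 : cst v (k + 1) = 1 := by
        unfold cst
        rw [if_pos hv]
      refine Fin.lastCases ?_ (fun b => ?_) c
      · rw [Fin.snoc_last, hM2, hc1, one_mul]
        exact hB r
      · rw [Fin.snoc_castSucc, hM1, hc1]
        exact hF r (I b))
    (by
      intro hv c
      have hc1 : cst v (k + 1) = ((k + 1 : ℕ) : ℝ) := by
        unfold cst
        rw [if_neg hv]
      refine Fin.lastCases ?_ (fun b => ?_) c
      · rw [Fin.snoc_last, hc1]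
        refine le_trans (Finset.sum_le_card_nsmul _ _ B fun r _ => ?_) ?_
        · rw [hM2]
          exact hB r
        · rw [Finset.card_univ, Fintype.card_fin, nsmul_eq_mul]
      · rw [Fin.snoc_castSucc, hc1]
        refine le_trans (Finset.sum_le_card_nsmul _ _ 1 fun r _ => ?_) ?_
        · rw [hM1]
          exact hF r (I b)
        · rw [Finset.card_univ, Fintype.card_fin, nsmul_eq_mul, mul_one])
  have h3 : ∏ c, (Fin.snoc (fun _ => cst v (k + 1)) (cst v (k + 1) * B) : Fin (k + 1) → ℝ) c =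
      cst v (k + 1) ^ (k + 1) * B := by
    rw [Fin.prod_univ_castSucc, Fin.snoc_last,
      Finset.prod_congr rfl fun b _ => Fin.snoc_castSucc (α := fun _ => ℝ) _ _ b,
      Finset.prod_const, Finset.card_univ, Fintype.card_fin]
    ring
  rw [h3] at h2
  calc v A.det * v M.det ≤ v A.det * (cst v (k + 1) ^ (k + 1) * B) :=
        mul_le_mul_of_nonneg_left h2 (v.nonneg _)
    _ = _ := by ring

end Pool.Agent.Lib.MP_17a322_nt.VA
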