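import Pool.Agent.Lib.MP_17a322_nt.VA.M13

/-!
The contraction of the minors is a multiple of the minors of a hyperplane section.
-/

universe u

namespace Pool.Agent.Lib.MP_17a322_nt.VA

open MvPolynomial Height
open Pool.Agent.Lib.MP_17a322_nt.RO
open Pool.Agent.Lib.MP_17a322_nt.VJ
open Pool.Agent.Lib.MP_17a322_nt.VN

theorem ctr_eq {K : Type*} [Field K] {k n : ℕ} (E : Fin (k + 1) → Fin n → K)
    (hE : ∃ I, mn E I ≠ 0) (x : Fin n → K) (hx : ∃ j, ∑ a, E j a * x a ≠ 0) :
    ∃ (E' : Fin k → Fin n → K) (c : K), c ≠ 0 ∧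
      (∀ j, E' j ∈ Submodule.span K (Set.range E)) ∧ (∀ j, ∑ a, E' j a * x a = 0) ∧
      (∃ I, mn E' I ≠ 0) ∧ ∀ I, ctr E x I = c * mn E' I := by
  classical
  obtain ⟨j₀, hj₀⟩ := hx
  obtain ⟨t, ht⟩ : ∃ t : Fin (k + 1) → K, ∀ j, t j = ∑ a, E j a * x a := ⟨_, fun _ => rfl⟩
  have ht0 : t j₀ ≠ 0 := by
    rw [ht]
    exact hj₀
  -- the coefficients
  obtain ⟨c, hc⟩ : ∃ c : Fin (k + 1) → K, ∀ j, c j = if j = j₀ then 0 else t j / t j₀ :=
    ⟨_, fun _ => rfl⟩
  have hc0 : c j₀ = 0 := by rw [hc, if_pos rfl]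
  have hcs : ∀ j : Fin k, c (j₀.succAbove j) = t (j₀.succAbove j) / t j₀ := fun j => by
    rw [hc, if_neg (Fin.succAbove_ne j₀ j)]
  -- the new rows
  obtain ⟨E₂, hE₂⟩ : ∃ E₂ : Fin (k + 1) → Fin n → K, ∀ j a, E₂ j a = E j a - c j * E j₀ a :=
    ⟨_, fun _ _ => rfl⟩
  have hE₂0 : ∀ a, E₂ j₀ a = E j₀ a := fun a => by rw [hE₂, hc0, zero_mul, sub_zero]
  have hsum : ∀ j, ∑ a, E₂ j a * x a = t j - c j * t j₀ := by
    intro j
    rw [ht j, ht j₀, Finset.mul_sum, ← Finset.sum_sub_distrib]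
    refine Finset.sum_congr rfl fun a _ => ?_
    rw [hE₂]
    ring
  have hsum0 : ∀ j, j ≠ j₀ → ∑ a, E₂ j a * x a = 0 := by
    intro j hj
    rw [hsum, hc, if_neg hj, div_mul_cancel₀ _ ht0, sub_self]
  refine ⟨fun j => E₂ (j₀.succAbove j), (-1) ^ ((j₀ : ℕ) + k) * t j₀,
    mul_ne_zero (pow_ne_zero _ (neg_ne_zero.2 one_ne_zero)) ht0, ?_, ?_, ?_, ?_⟩
  · intro j
    have h1 : E₂ (j₀.succAbove j) = E (j₀.succAbove j) - c (j₀.succAbove j) • E j₀ := by
      funext a
      rw [hE₂]
      rfl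
    show E₂ (j₀.succAbove j) ∈ Submodule.span K (Set.range E)
    rw [h1]
    exact Submodule.sub_mem _ (Submodule.subset_span ⟨_, rfl⟩)
      (Submodule.smul_mem _ _ (Submodule.subset_span ⟨_, rfl⟩))
  · intro j
    exact hsum0 _ (Fin.succAbove_ne j₀ j)
  · rw [← mn_indep] at hE ⊢
    rw [Fintype.linearIndependent_iff] at hE ⊢
    intro g hg
    have h1 := hE (Fin.insertNth j₀ (-∑ j, g j * c (j₀.succAbove j)) g :
      Fin (k + 1) → K) (by
        rw [Fin.sum_univ_succAbove _ j₀, Fin.insertNth_apply_same]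
        have h2 : ∀ j : Fin k, (Fin.insertNth j₀ (-∑ j, g j * c (j₀.succAbove j)) g :
            Fin (k + 1) → K) (j₀.succAbove j) • E (j₀.succAbove j) =
            g j • E₂ (j₀.succAbove j) + (g j * c (j₀.succAbove j)) • E j₀ := by
          intro j
          rw [Fin.insertNth_apply_succAbove]
          funext a
          show g j * E (j₀.succAbove j) a = g j * E₂ (j₀.succAbove j) a +
            g j * c (j₀.succAbove j) * E j₀ a
          rw [hE₂]
          ring
        rw [Finset.sum_congr rfl fun j _ => h2 j, Finset.sum_add_distrib, hg, ← Finset.sum_smul,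
          zero_add, neg_smul, neg_add_cancel])
    intro j
    have h2 := h1 (j₀.succAbove j)
    rw [Fin.insertNth_apply_succAbove] at h2
    exact h2
  · intro I
    -- the determinants
    have hdet : ∀ a, mn E (Fin.snoc I a : Fin (k + 1) → Fin n) =
        ∑ i : Fin (k + 1), (-1) ^ ((i : ℕ) + k) * E₂ i a *
          (Matrix.of fun p q : Fin k => E₂ (i.succAbove p) (I q)).det := by
      intro a
      have h1 : mn E (Fin.snoc I a : Fin (k + 1) → Fin n) =
          mn E₂ (Fin.snoc I a : Fin (k + 1) → Fin n) := by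
        unfold mn
        refine Matrix.det_eq_of_forall_row_eq_smul_add_const c j₀ hc0 fun i j => ?_
        rw [Matrix.of_apply, Matrix.of_apply, Matrix.of_apply, hE₂, hE₂0]
        ring
      rw [h1, mn, Matrix.det_succ_column _ (Fin.last k)]
      refine Finset.sum_congr rfl fun i _ => ?_
      rw [Matrix.of_apply, Fin.snoc_last, Fin.val_last]
      refine congrArg _ (congrArg Matrix.det ?_)
      ext p q
      rw [Matrix.submatrix_apply, Matrix.of_apply, Matrix.of_apply, Fin.succAbove_last,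
        Fin.snoc_castSucc]
    have h1 : ctr E x I = ∑ i : Fin (k + 1), (-1) ^ ((i : ℕ) + k) * (∑ a, E₂ i a * x a) *
        (Matrix.of fun p q : Fin k => E₂ (i.succAbove p) (I q)).det := by
      unfold ctr
      rw [Finset.sum_congr rfl fun a _ => by rw [hdet a, Finset.mul_sum], Finset.sum_comm]
      refine Finset.sum_congr rfl fun i _ => ?_
      rw [Finset.mul_sum, Finset.sum_mul]
      refine Finset.sum_congr rfl fun a _ => ?_
      ring
    rw [h1, Finset.sum_eq_single j₀]
    · rw [hsum, hc0, zero_mul, sub_zero]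
      rfl
    · intro i _ hi
      rw [hsum0 i hi, mul_zero, zero_mul]
    · intro h
      exact absurd (Finset.mem_univ _) h

/-- Contraction with a basis vector. -/
theorem ctr_single {K : Type*} [Field K] {k n : ℕ} (E : Fin (k + 1) → Fin n → K) (a : Fin n)
    (I : Fin k → Fin n) : ctr E (Pi.single a 1) I = mn E (Fin.snoc I a : Fin (k + 1) → Fin n) := by
  unfold ctr
  rw [Finset.sum_eq_single a]
  · rw [Pi.single_eq_same, one_mul]
  · intro b _ hb
    rw [Pi.single_eq_of_ne hb, zero_mul]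
  · intro h
    exact absurd (Finset.mem_univ _) h

end Pool.Agent.Lib.MP_17a322_nt.VA
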