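import Pool.Agent.Lib.MP_17a322_nt.VA.M12
import Pool.Agent.Lib.MP_17a322_nt.VA.M14
import Pool.Agent.Lib.MP_17a322_nt.VJ.B4

/-!
A hyperplane section of small height.
-/

universe u

namespace Pool.Agent.Lib.MP_17a322_nt.VA

open MvPolynomial Height
open Pool.Agent.Lib.MP_17a322_nt.RO
open Pool.Agent.Lib.MP_17a322_nt.VJ
open Pool.Agent.Lib.MP_17a322_nt.VN

/-- Comparison of heights: if `v (x i) ≤ ⨆ v (y j)` at the finite places and `≤ B * ⨆ v (y j)` at the
infinite ones. -/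
theorem ht_split {K : Type*} [Field K] [NumberField K] {ι κ : Type*} [Finite ι] [Finite κ]
    (x : ι → K) (y : κ → K) (hx : x ≠ 0) (hy : y ≠ 0) (B : ℝ) (hB : 0 < B)
    (h1 : ∀ v : AbsoluteValue K ℝ, v ∈ AdmissibleAbsValues.nonarchAbsVal (K := K) →
      ∀ i, v (x i) ≤ ⨆ j, v (y j))
    (h2 : ∀ w : NumberField.InfinitePlace K, ∀ i, w (x i) ≤ B * ⨆ j, w (y j)) :
    logHeight x ≤ logHeight y + Module.finrank ℚ K * Real.log B := by
  classical
  obtain ⟨i₀, hi₀⟩ := Function.ne_iff.mp hx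
  obtain ⟨j₀, hj₀⟩ := Function.ne_iff.mp hy
  have hneι : Nonempty ι := ⟨i₀⟩
  have hxp : ∀ v : AbsoluteValue K ℝ, 0 < ⨆ i, v (x i) := fun v =>
    (v.pos hi₀).trans_le (Finite.le_ciSup_of_le i₀ le_rfl)
  have hyp : ∀ v : AbsoluteValue K ℝ, 0 < ⨆ j, v (y j) := fun v =>
    (v.pos hj₀).trans_le (Finite.le_ciSup_of_le j₀ le_rfl)
  have hcFS : FS (fun v : AbsoluteValue K ℝ => if IsNonarchimedean v then (0 : ℝ)
      else Real.log B) := by
    have h0 : ∀ v : AdmissibleAbsValues.nonarchAbsVal (K := K),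
        (if IsNonarchimedean v.val then (0 : ℝ) else Real.log B) = 0 := fun v =>
      if_pos (AdmissibleAbsValues.isNonarchimedean v.val v.property)
    simp [FS, h0]
  have hcgs : gs (fun v : AbsoluteValue K ℝ => if IsNonarchimedean v then (0 : ℝ)
      else Real.log B) = Module.finrank ℚ K * Real.log B := by
    unfold gs
    have h0 : ∀ v : AdmissibleAbsValues.nonarchAbsVal (K := K),
        (if IsNonarchimedean v.val then (0 : ℝ) else Real.log B) = 0 := fun v =>
      if_pos (AdmissibleAbsValues.isNonarchimedean v.val v.property)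
    rw [finsum_congr h0, finsum_zero, add_zero]
    have h3 : Multiset.map (fun v : AbsoluteValue K ℝ => if IsNonarchimedean v then (0 : ℝ)
        else Real.log B) AdmissibleAbsValues.archAbsVal =
        Multiset.map (fun _ : AbsoluteValue K ℝ => Real.log B)
          AdmissibleAbsValues.archAbsVal :=
      Multiset.map_congr rfl fun v hv => if_neg (not_nonarch_of_arch hv)
    rw [h3, Multiset.map_const', Multiset.sum_replicate, nsmul_eq_mul,
      ← NumberField.totalWeight_eq_finrank]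
    rfl
  rw [← gs_log_iSup hx, ← gs_log_iSup hy, ← hcgs, ← gs_add (FS_log_iSup hy) hcFS]
  refine gs_le (FS_log_iSup hx) (FS_add (FS_log_iSup hy) hcFS) ?_
  intro v hv
  rcases hv with hv | hv
  · have hinf : NumberField.IsInfinitePlace v := NumberField.mem_multisetInfinitePlace.mp hv
    have h4 : ∀ i, v (x i) ≤ B * ⨆ j, v (y j) := h2 ⟨v, hinf⟩
    have h5 : ⨆ i, v (x i) ≤ B * ⨆ j, v (y j) := ciSup_le h4
    have h6 := Real.log_le_log (hxp v) h5
    rw [Real.log_mul hB.ne' (hyp v).ne'] at h6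
    simp only [if_neg (not_nonarch_of_arch hv)]
    linarith
  · have h5 : ⨆ i, v (x i) ≤ ⨆ j, v (y j) := ciSup_le (h1 v hv)
    have h6 := Real.log_le_log (hxp v) h5
    simp only [if_pos (AdmissibleAbsValues.isNonarchimedean v hv)]
    linarith

theorem PL_trivial {K : Type*} [Field K] [NumberField K] {k n : ℕ} (E : Fin (k + 1) → Fin n → K)
    (hE : ∃ I, mn E I ≠ 0) :
    ∃ E' : Fin k → Fin n → K, (∀ j, E' j ∈ Submodule.span K (Set.range E)) ∧
      (∃ I, mn E' I ≠ 0) ∧ logHeight (mn E') ≤ logHeight (mn E) := by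
  classical
  have hEa : ∃ j a, E j a ≠ 0 := by
    by_contra hcon
    push Not at hcon
    obtain ⟨I, hI⟩ := hE
    apply hI
    unfold mn
    refine Matrix.det_eq_zero_of_row_eq_zero 0 fun b => ?_
    rw [Matrix.of_apply]
    exact hcon _ _
  obtain ⟨j, a, hja⟩ := hEa
  obtain ⟨E', c, hc, hsp, -, hne, hct⟩ := ctr_eq E hE (Pi.single a 1) ⟨j, by
    have : ∑ a', E j a' * (Pi.single a 1 : Fin n → K) a' = E j a := by
      rw [Finset.sum_eq_single a]
      · rw [Pi.single_eq_same, mul_one]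
      · intro b _ hb
        rw [Pi.single_eq_of_ne hb, mul_zero]
      · intro h
        exact absurd (Finset.mem_univ a) h
    rw [this]
    exact hja⟩
  refine ⟨E', hsp, hne, ?_⟩
  have h1 : c • mn E' = fun I => mn E (Fin.snoc I a : Fin (k + 1) → Fin n) := by
    funext I
    rw [Pi.smul_apply, smul_eq_mul, ← hct, ctr_single]
  have h2 : mn E' ≠ 0 := by
    intro h
    obtain ⟨I, hI⟩ := hne
    exact hI (by rw [h]; rfl)
  have h3 : (fun I => mn E (Fin.snoc I a : Fin (k + 1) → Fin n)) ≠ 0 := by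
    rw [← h1]
    exact smul_ne_zero hc h2
  have h4 : mn E ≠ 0 := by
    intro h
    obtain ⟨I, hI⟩ := hE
    exact hI (by rw [h]; rfl)
  have h5 := ht_split (fun I => mn E (Fin.snoc I a : Fin (k + 1) → Fin n)) (mn E) h3 h4 1
    one_pos (fun v _ I => Finite.le_ciSup_of_le (Fin.snoc I a : Fin (k + 1) → Fin n) le_rfl)
    (fun w I => by
      rw [one_mul]
      exact Finite.le_ciSup_of_le (Fin.snoc I a : Fin (k + 1) → Fin n) le_rfl)
  rw [Real.log_one, mul_zero, add_zero, ← h1, logHeight_smul_eq_logHeight _ hc] at h5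
  exact h5

theorem M15_sum_le {K : Type*} [Field K] {v : AbsoluteValue K ℝ} (hv : IsNonarchimedean v)
    {ι : Type*} (s : Finset ι) (f : ι → K) (hf : ∀ i ∈ s, v (f i) ≤ 1) : v (∑ i ∈ s, f i) ≤ 1 := by
  classical
  induction s using Finset.induction_on with
  | empty => rw [Finset.sum_empty, map_zero]; exact zero_le_one
  | insert a s ha ih =>
    rw [Finset.sum_insert ha]
    refine (hv _ _).trans (max_le (hf a (Finset.mem_insert_self a s)) ?_)
    exact ih fun i hi => hf i (Finset.mem_insert_of_mem hi)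

theorem M15_int_le {K : Type*} [Field K] [NumberField K] {v : AbsoluteValue K ℝ}
    (hv : v ∈ AdmissibleAbsValues.nonarchAbsVal (K := K)) (x : NumberField.RingOfIntegers K) :
    v (x : K) ≤ 1 := by
  have hv' : NumberField.IsFinitePlace v := hv
  have h1 := NumberField.FinitePlace.norm_le_one K
    (NumberField.FinitePlace.maximalIdeal (⟨v, hv'⟩ : NumberField.FinitePlace K)) x
  have h2 := NumberField.FinitePlace.norm_embedding_eq (⟨v, hv'⟩ : NumberField.FinitePlace K) (x : K)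
  exact (le_of_eq h2.symm).trans h1

theorem M15_cst_le {K : Type*} [Field K] (v : AbsoluteValue K ℝ) {n : ℕ} (hn : 1 ≤ n) :
    cst v n ≤ n := by
  unfold cst
  split_ifs
  · exact_mod_cast hn
  · exact le_rfl

theorem PL_main {K : Type*} [Field K] [NumberField K] {k n : ℕ} (C₁ : ℝ) (hC₁ : 1 ≤ C₁)
    (hd : ∀ F : NumberField.InfinitePlace K → Fin (k + 1) → Fin n → K,
      (∀ (w : NumberField.InfinitePlace K) (j : Fin (k + 1)) (a : Fin n), w (F w j a) ≤ 1) →
      ∀ Y : ℕ, 1 ≤ Y → ∃ x : Fin n → NumberField.RingOfIntegers K, x ≠ 0 ∧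
        (∀ (w : NumberField.InfinitePlace K) (a : Fin n), w (x a : K) ≤ C₁ * Y) ∧
        ∀ (w : NumberField.InfinitePlace K) (j : Fin (k + 1)), w (∑ a, F w j a * (x a : K)) ≤
          C₁ * (Y : ℝ) ^ (1 - (n : ℝ) / (k + 1 : ℕ)))
    (E : Fin (k + 1) → Fin n → K) (hE : ∃ I, mn E I ≠ 0) (Y : ℕ) (hY : 1 ≤ Y)
    (h : ∀ x : Fin n → K, x ≠ 0 → (∀ j, ∑ a, E j a * x a = 0) →
      Module.finrank ℚ K * Real.log (C₁ * Y) < logHeight x) :
    ∃ E' : Fin k → Fin n → K, (∀ j, E' j ∈ Submodule.span K (Set.range E)) ∧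
      (∃ I, mn E' I ≠ 0) ∧ logHeight (mn E') ≤ logHeight (mn E) +
        Module.finrank ℚ K * Real.log ((k + 1 : ℕ) ^ (k + 1) *
          (C₁ * (Y : ℝ) ^ (1 - (n : ℝ) / (k + 1 : ℕ)))) := by
  classical
  have hY' : (0 : ℝ) < Y := by exact_mod_cast hY
  have hC0 : 0 < C₁ := one_pos.trans_le hC₁
  choose A F hEA hA0 hA hF using fun w : NumberField.InfinitePlace K => pivot w.val E hE
  obtain ⟨x, hx0, hx1, hx2⟩ := hd F (fun w j a => hF w j a) Y hY
  let x' : Fin n → K := fun a => (x a : K)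
  have hx' : x' ≠ 0 := by
    intro h0
    apply hx0
    funext a
    have h1 : (x a : K) = 0 := congrFun h0 a
    exact_mod_cast h1
  have hht : logHeight x' ≤ Module.finrank ℚ K * Real.log (C₁ * Y) := by
    have h1 := ht_split x' (1 : Fin 1 → K) hx' one_ne_zero (C₁ * Y) (by positivity)
      (fun v hv i => by
        have h2 : ⨆ j, v ((1 : Fin 1 → K) j) = 1 := by
          simp only [Pi.one_apply, map_one, ciSup_const]
        rw [h2]
        exact M15_int_le hv (x i))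
      (fun w i => by
        have h2 : ⨆ j, w ((1 : Fin 1 → K) j) = 1 := by
          simp only [Pi.one_apply, map_one, ciSup_const]
        rw [h2, mul_one]
        exact hx1 w i)
    rwa [logHeight_one, zero_add] at h1
  have hj : ∃ j, ∑ a, E j a * x' a ≠ 0 := by
    by_contra hc
    push Not at hc
    exact absurd (h x' hx' hc) (not_lt.2 hht)
  obtain ⟨E', c, hc, hspan, -, hmn, hctr⟩ := ctr_eq E hE x' hj
  refine ⟨E', hspan, hmn, ?_⟩
  have hctr' : ctr E x' = c • mn E' := by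
    funext I
    rw [Pi.smul_apply, smul_eq_mul]
    exact hctr I
  have hctr0 : ctr E x' ≠ 0 := by
    obtain ⟨I, hI⟩ := hmn
    intro h0
    have h1 := hctr I
    rw [h0, Pi.zero_apply] at h1
    exact mul_ne_zero hc hI h1.symm
  have hmn0 : mn E ≠ 0 := by
    obtain ⟨I, hI⟩ := hE
    exact fun h0 => hI (congrFun h0 I)
  rw [← logHeight_smul_eq_logHeight (mn E') hc, ← hctr']
  have hB0 : 0 < C₁ * (Y : ℝ) ^ (1 - (n : ℝ) / (k + 1 : ℕ)) :=
    mul_pos hC0 (Real.rpow_pos_of_pos hY' _)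
  refine ht_split (ctr E x') (mn E) hctr0 hmn0 _ (by positivity) ?_ ?_
  · intro v hv I
    have hna : IsNonarchimedean v := AdmissibleAbsValues.isNonarchimedean v hv
    obtain ⟨A₁, F₁, h1, h2, h3, h4⟩ := pivot v E hE
    have h5 := ctr_le v E A₁ F₁ h1 h4 x' 1 (fun l => M15_sum_le hna _ _ fun a _ => by
      rw [map_mul]
      exact mul_le_one₀ (h4 l a) (v.nonneg _) (M15_int_le hv (x a))) I
    have h6 : cst v (k + 1) = 1 := by
      unfold cst
      rw [if_pos hna]
    rw [h6, one_pow, one_mul, mul_one] at h5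
    exact h5.trans h3
  · intro w I
    have h5 := ctr_le w.val E (A w) (F w) (hEA w) (hF w) x'
      (C₁ * (Y : ℝ) ^ (1 - (n : ℝ) / (k + 1 : ℕ))) (fun l => hx2 w l) I
    have h6 : cst w.val (k + 1) ^ (k + 1) ≤ ((k + 1 : ℕ) : ℝ) ^ (k + 1) :=
      pow_le_pow_left₀ (cst_nonneg _ _) (M15_cst_le _ (Nat.le_add_left _ _)) _
    have h7 : w.val (A w).det * (C₁ * (Y : ℝ) ^ (1 - (n : ℝ) / (k + 1 : ℕ))) ≤
        (⨆ J, w.val (mn E J)) * (C₁ * (Y : ℝ) ^ (1 - (n : ℝ) / (k + 1 : ℕ))) :=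
      mul_le_mul_of_nonneg_right (hA w) hB0.le
    have h8 := mul_le_mul h6 h7 (mul_nonneg (w.val.nonneg _) hB0.le) (by positivity)
    refine (h5.trans h8).trans (le_of_eq ?_)
    change _ = ((k + 1 : ℕ) : ℝ) ^ (k + 1) * (C₁ * (Y : ℝ) ^ (1 - (n : ℝ) / (k + 1 : ℕ))) *
      ⨆ J, w.val (mn E J)
    ring

theorem PL (K : Type*) [Field K] [NumberField K] (k n : ℕ) (hkn : k + 1 ≤ n) :
    ∃ C : ℝ, 0 ≤ C ∧ ∀ E : Fin (k + 1) → Fin n → K, (∃ I, mn E I ≠ 0) → ∀ lam : ℝ,
      (∀ x : Fin n → K, x ≠ 0 → (∀ j, ∑ a, E j a * x a = 0) → lam ≤ logHeight x) →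
      ∃ E' : Fin k → Fin n → K, (∀ j, E' j ∈ Submodule.span K (Set.range E)) ∧
        (∃ I, mn E' I ≠ 0) ∧
        logHeight (mn E') + ((n : ℝ) - (k + 1)) / (k + 1) * lam ≤ logHeight (mn E) + C := by
  obtain ⟨C₁, hC₁, hd⟩ := dir_nf K (k + 1) n (Nat.le_add_left _ _) hkn
  have hC0 : 0 < C₁ := one_pos.trans_le hC₁
  set d : ℝ := (Module.finrank ℚ K : ℝ) with hdd
  have hd0 : 0 < d := Nat.cast_pos.2 Module.finrank_pos
  have hp0 : (0 : ℝ) < (k : ℝ) + 1 := by positivity
  have hnp : 0 ≤ ((n : ℝ) - (k + 1)) / (k + 1) := by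
    refine div_nonneg (sub_nonneg.2 ?_) hp0.le
    exact_mod_cast hkn
  have hl4 : 0 ≤ Real.log (4 * C₁) := Real.log_nonneg (by linarith)
  have hlC : 0 ≤ Real.log C₁ := Real.log_nonneg hC₁
  have hlp : 0 ≤ Real.log ((k : ℝ) + 1) := Real.log_nonneg (by linarith [Nat.cast_nonneg (α := ℝ) k])
  have hC2 : 0 ≤ d * ((k + 1) * Real.log ((k : ℝ) + 1) + Real.log C₁) := by positivity
  have hC3 : 0 ≤ ((n : ℝ) - (k + 1)) / (k + 1) * (d * Real.log (4 * C₁)) := by positivity
  refine ⟨d * ((k + 1) * Real.log ((k : ℝ) + 1) + Real.log C₁) +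
    ((n : ℝ) - (k + 1)) / (k + 1) * (d * Real.log (4 * C₁)), by positivity, ?_⟩
  intro E hE lam hlam
  rcases le_or_gt lam (d * Real.log (4 * C₁)) with hc | hc
  · obtain ⟨E', h1, h2, h3⟩ := PL_trivial E hE
    refine ⟨E', h1, h2, ?_⟩
    have h4 := mul_le_mul_of_nonneg_left hc hnp
    linarith
  · have hy1 : Real.log (4 * C₁) < lam / d := by
      rw [lt_div_iff₀ hd0, mul_comm]
      exact hc
    have hy2 : 4 * C₁ < Real.exp (lam / d) := by
      rw [← Real.log_lt_iff_lt_exp (by positivity)]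
      exact hy1
    set y : ℝ := Real.exp (lam / d) / (2 * C₁) with hy
    have hy3 : 2 < y := by
      rw [hy, lt_div_iff₀ (by positivity)]
      linarith
    have hY1 : 1 ≤ ⌊y⌋₊ := by
      rw [Nat.one_le_floor_iff]
      linarith
    have hY2 : (⌊y⌋₊ : ℝ) ≤ y := Nat.floor_le (by linarith)
    have hY3 : y / 2 ≤ (⌊y⌋₊ : ℝ) := by
      have := Nat.lt_floor_add_one y
      linarith
    have hY0 : (0 : ℝ) < (⌊y⌋₊ : ℝ) := by exact_mod_cast hY1
    have hCy : C₁ * y = Real.exp (lam / d) / 2 := by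
      rw [hy]
      field_simp
    obtain ⟨E', h1, h2, h3⟩ := PL_main C₁ hC₁ hd E hE ⌊y⌋₊ hY1 (by
      intro x hx hxo
      refine lt_of_lt_of_le ?_ (hlam x hx hxo)
      have h4 : Real.log (C₁ * (⌊y⌋₊ : ℝ)) ≤ Real.log (Real.exp (lam / d) / 2) := by
        refine Real.log_le_log (by positivity) ?_
        rw [← hCy]
        exact mul_le_mul_of_nonneg_left hY2 hC0.le
      have h5 : Real.log (Real.exp (lam / d) / 2) < lam / d := by
        rw [Real.log_div (Real.exp_pos _).ne' two_ne_zero, Real.log_exp]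
        have := Real.log_pos one_lt_two
        linarith
      have h6 : d * Real.log (C₁ * (⌊y⌋₊ : ℝ)) < d * (lam / d) :=
        mul_lt_mul_of_pos_left (h4.trans_lt h5) hd0
      rwa [mul_div_cancel₀ _ hd0.ne'] at h6)
    refine ⟨E', h1, h2, ?_⟩
    have h7 : lam / d - Real.log (4 * C₁) ≤ Real.log (⌊y⌋₊ : ℝ) := by
      have h8 : y / 2 = Real.exp (lam / d) / (4 * C₁) := by
        rw [hy]
        field_simp
        norm_num
      have h9 := Real.log_le_log (by linarith) hY3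
      rwa [h8, Real.log_div (Real.exp_pos _).ne' (by positivity), Real.log_exp] at h9
    have h10 : Real.log ((k + 1 : ℕ) ^ (k + 1) *
        (C₁ * (⌊y⌋₊ : ℝ) ^ (1 - (n : ℝ) / (k + 1 : ℕ)))) =
        (k + 1) * Real.log ((k : ℝ) + 1) + Real.log C₁ -
          ((n : ℝ) - (k + 1)) / (k + 1) * Real.log (⌊y⌋₊ : ℝ) := by
      have h11 : (0 : ℝ) < (⌊y⌋₊ : ℝ) ^ (1 - (n : ℝ) / (k + 1 : ℕ)) := Real.rpow_pos_of_pos hY0 _
      rw [Real.log_mul (by positivity) (by positivity), Real.log_pow,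
        Real.log_mul hC0.ne' h11.ne', Real.log_rpow hY0]
      push_cast
      have h12 : 1 - (n : ℝ) / (k + 1) = -(((n : ℝ) - (k + 1)) / (k + 1)) := by
        field_simp
        ring
      rw [h12]
      ring
    rw [h10] at h3
    have h13 := mul_le_mul_of_nonneg_left (mul_le_mul_of_nonneg_left h7 hnp) hd0.le
    have h14 : d * (((n : ℝ) - (k + 1)) / (k + 1) * (lam / d - Real.log (4 * C₁))) =
        ((n : ℝ) - (k + 1)) / (k + 1) * lam -
          ((n : ℝ) - (k + 1)) / (k + 1) * (d * Real.log (4 * C₁)) := by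
      have h15 : d * (lam / d) = lam := mul_div_cancel₀ _ hd0.ne'
      calc d * (((n : ℝ) - (k + 1)) / (k + 1) * (lam / d - Real.log (4 * C₁))) =
            ((n : ℝ) - (k + 1)) / (k + 1) * (d * (lam / d)) -
              ((n : ℝ) - (k + 1)) / (k + 1) * (d * Real.log (4 * C₁)) := by ring
        _ = _ := by rw [h15]
    rw [h14] at h13
    have h16 : d * ((k + 1) * Real.log ((k : ℝ) + 1) + Real.log C₁ -
        ((n : ℝ) - (k + 1)) / (k + 1) * Real.log (⌊y⌋₊ : ℝ)) =
        d * ((k + 1) * Real.log ((k : ℝ) + 1) + Real.log C₁) -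
          d * (((n : ℝ) - (k + 1)) / (k + 1) * Real.log (⌊y⌋₊ : ℝ)) := by ring
    rw [h16] at h3
    linarith

end Pool.Agent.Lib.MP_17a322_nt.VA
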