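import Pool.Agent.Lib.MP_17a322_nt.VA.M14
import Pool.Agent.Lib.MP_17a322_nt.VJ.A4

/-!
Height of a subspace and elimination of a coordinate.
-/

universe u

namespace Pool.Agent.Lib.MP_17a322_nt.VA

open MvPolynomial Height
open Pool.Agent.Lib.MP_17a322_nt.RO
open Pool.Agent.Lib.MP_17a322_nt.VJ
open Pool.Agent.Lib.MP_17a322_nt.VN

theorem M18_update {R : Type*} [CommRing R] {k n : ℕ} (E : Fin k → Fin (n + 1) → R)
    (a₀ : Fin (n + 1)) (l : Fin n → R) (h : ∀ j, E j a₀ = ∑ a, l a * E j (a₀.succAbove a))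
    (J : Fin k → Fin (n + 1)) (c : Fin k) (hc : J c = a₀) :
    mn E J = ∑ a, l a * mn E (Function.update J c (a₀.succAbove a)) := by
  have hdet : ∀ J' : Fin k → Fin (n + 1), mn E J' =
      (Matrix.detRowAlternating (R := R) (n := Fin k)).toMultilinearMap
        (fun b a => E a (J' b)) := by
    intro J'
    exact (Matrix.det_transpose (Matrix.of fun a b : Fin k => E a (J' b))).symm
  have hf : (fun (b : Fin k) (a : Fin k) => E a (J b)) =
      Function.update (fun (b : Fin k) (a : Fin k) => E a (J b)) c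
        (∑ i, l i • fun a : Fin k => E a (a₀.succAbove i)) := by
    funext b a
    by_cases hb : b = c
    · subst hb
      rw [Function.update_self, hc, h a, Finset.sum_apply]
      rfl
    · rw [Function.update_of_ne hb]
  rw [hdet, hf, MultilinearMap.map_update_sum]
  refine Finset.sum_congr rfl fun i _ => ?_
  rw [MultilinearMap.map_update_smul, hdet, smul_eq_mul]
  congr 2
  funext b a
  by_cases hb : b = c
  · subst hb
    rw [Function.update_self, Function.update_self]
  · rw [Function.update_of_ne hb, Function.update_of_ne hb]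

theorem M18_avoid {R : Type*} [CommRing R] {k n : ℕ} (E : Fin k → Fin (n + 1) → R)
    (a₀ : Fin (n + 1)) (J : Fin k → Fin (n + 1)) (hJ : ∀ c, J c ≠ a₀) :
    ∃ I : Fin k → Fin n, mn E J = mn (fun j a => E j (a₀.succAbove a)) I := by
  choose I hI using fun c => Fin.exists_succAbove_eq (hJ c)
  refine ⟨I, ?_⟩
  unfold mn
  congr 1
  funext a b
  change E a (J b) = E a (a₀.succAbove (I b))
  rw [hI]

theorem M18_cases {R : Type*} [CommRing R] {k n : ℕ} (E : Fin k → Fin (n + 1) → R)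
    (a₀ : Fin (n + 1)) (l : Fin n → R) (h : ∀ j, E j a₀ = ∑ a, l a * E j (a₀.succAbove a))
    (J : Fin k → Fin (n + 1)) :
    mn E J = 0 ∨ (∃ I : Fin k → Fin n, mn E J = mn (fun j a => E j (a₀.succAbove a)) I) ∨
      ∃ I : Fin n → Fin k → Fin n,
        mn E J = ∑ a, l a * mn (fun j a => E j (a₀.succAbove a)) (I a) := by
  by_cases h1 : ∃ c, J c = a₀
  · obtain ⟨c, hc⟩ := h1
    by_cases h2 : ∃ c', c' ≠ c ∧ J c' = a₀
    · obtain ⟨c', hcc, hc'⟩ := h2
      left
      refine Matrix.det_zero_of_column_eq hcc fun a => ?_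
      change E a (J c') = E a (J c)
      rw [hc', hc]
    · right
      right
      have h3 : ∀ (a : Fin n) (b : Fin k), Function.update J c (a₀.succAbove a) b ≠ a₀ := by
        intro a b
        by_cases hb : b = c
        · subst hb
          rw [Function.update_self]
          exact Fin.succAbove_ne a₀ a
        · rw [Function.update_of_ne hb]
          exact fun h4 => h2 ⟨b, hb, h4⟩
      choose I hI using fun a => M18_avoid E a₀ _ (h3 a)
      refine ⟨I, ?_⟩
      rw [M18_update E a₀ l h J c hc]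
      exact Finset.sum_congr rfl fun a _ => by rw [hI]
  · right
    left
    exact M18_avoid E a₀ J fun c hc => h1 ⟨c, hc⟩

theorem M18_le {K : Type*} [Field K] (v : AbsoluteValue K ℝ) {k n : ℕ}
    (E : Fin k → Fin (n + 1) → K) (a₀ : Fin (n + 1)) (l : Fin n → K)
    (h : ∀ j, E j a₀ = ∑ a, l a * E j (a₀.succAbove a)) (J : Fin k → Fin (n + 1)) :
    v (mn E J) ≤ cst v (n + 1) * (∏ a, max 1 (v (l a))) *
      ⨆ I : Fin k → Fin n, v (mn (fun j a => E j (a₀.succAbove a)) I) := by
  have hW : ∀ I : Fin k → Fin n, v (mn (fun j a => E j (a₀.succAbove a)) I) ≤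
      ⨆ I : Fin k → Fin n, v (mn (fun j a => E j (a₀.succAbove a)) I) :=
    fun I => le_ciSup (Set.finite_range fun I : Fin k → Fin n =>
      v (mn (fun j a => E j (a₀.succAbove a)) I)).bddAbove I
  have hW0 : 0 ≤ ⨆ I : Fin k → Fin n, v (mn (fun j a => E j (a₀.succAbove a)) I) :=
    Real.iSup_nonneg fun I => v.nonneg _
  generalize (⨆ I : Fin k → Fin n, v (mn (fun j a => E j (a₀.succAbove a)) I)) = W at hW hW0
  have hP1 : ∀ i ∈ (Finset.univ : Finset (Fin n)), 1 ≤ max 1 (v (l i)) :=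
    fun i _ => le_max_left _ _
  have hP : 1 ≤ ∏ a, max 1 (v (l a)) := by
    have h1 := Finset.prod_le_prod (s := (Finset.univ : Finset (Fin n))) (f := fun _ => (1 : ℝ))
      (g := fun i => max 1 (v (l i))) (fun _ _ => zero_le_one) hP1
    rw [Finset.prod_const_one] at h1
    exact h1
  have hPle : ∀ a, v (l a) ≤ ∏ a, max 1 (v (l a)) := by
    intro a
    refine (le_max_right 1 _).trans ?_
    rw [← Finset.mul_prod_erase Finset.univ (fun a => max 1 (v (l a))) (Finset.mem_univ a)]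
    refine le_mul_of_one_le_right (zero_le_one.trans (le_max_left _ _)) ?_
    have h1 := Finset.prod_le_prod (s := (Finset.univ.erase a : Finset (Fin n)))
      (f := fun _ => (1 : ℝ))
      (g := fun i => max 1 (v (l i))) (fun _ _ => zero_le_one) fun i _ => le_max_left _ _
    rw [Finset.prod_const_one] at h1
    exact h1
  have hc : 1 ≤ cst v (n + 1) := one_le_cst v (Nat.succ_le_succ (Nat.zero_le n))
  have hB : W ≤ cst v (n + 1) * (∏ a, max 1 (v (l a))) * W :=
    le_mul_of_one_le_left hW0 (one_le_mul_of_one_le_of_one_le hc hP)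
  rcases M18_cases E a₀ l h J with h1 | ⟨I, h1⟩ | ⟨I, h1⟩
  · rw [h1, map_zero]
    exact hW0.trans hB
  · rw [h1]
    exact (hW I).trans hB
  · rw [h1]
    have hPW : 0 ≤ (∏ a, max 1 (v (l a))) * W := mul_nonneg (zero_le_one.trans hP) hW0
    have h2 := (SN_self v).sum_le Finset.univ
      (fun a => l a * mn (fun j a => E j (a₀.succAbove a)) (I a)) (B := (∏ a, max 1 (v (l a))) * W)
      hPW fun a _ => by
        rw [map_mul]
        exact mul_le_mul (hPle a) (hW _) (v.nonneg _) (zero_le_one.trans hP)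
    refine h2.trans ?_
    rw [Finset.card_univ, Fintype.card_fin, mul_assoc]
    exact mul_le_mul_of_nonneg_right (cst_mono v (Nat.le_succ n)) hPW

theorem wh_elim (K : Type*) [Field K] [NumberField K] (k n : ℕ) :
    ∃ C : ℝ, 0 ≤ C ∧ ∀ (E : Fin k → Fin (n + 1) → K) (a₀ : Fin (n + 1)) (l : Fin n → K),
      (∀ j, E j a₀ = ∑ a, l a * E j (a₀.succAbove a)) → (∃ I, mn E I ≠ 0) →
      (∃ I, mn (fun j a => E j (a₀.succAbove a)) I ≠ 0) ∧
      logHeight (mn fun j a => E j (a₀.succAbove a)) ≤ logHeight (mn E) ∧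
      logHeight (mn E) ≤ logHeight (mn fun j a => E j (a₀.succAbove a)) +
        ∑ a, logHeight₁ (l a) + C := by
  refine ⟨totalWeight K * Real.log ((n + 1 : ℕ) : ℝ), mul_nonneg (Nat.cast_nonneg _)
    (Real.log_nonneg (by exact_mod_cast Nat.succ_le_succ (Nat.zero_le n))),
    fun E a₀ l h hE => ?_⟩
  obtain ⟨J, hJ⟩ := hE
  have hpr : ∃ I, mn (fun j a => E j (a₀.succAbove a)) I ≠ 0 := by
    rcases M18_cases E a₀ l h J with h1 | ⟨I, h1⟩ | ⟨I, h1⟩
    · exact absurd h1 hJ
    · exact ⟨I, by rw [← h1]; exact hJ⟩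
    · rw [h1] at hJ
      obtain ⟨a, -, ha⟩ := Finset.exists_ne_zero_of_sum_ne_zero hJ
      exact ⟨I a, right_ne_zero_of_mul ha⟩
  obtain ⟨I₀, hI₀⟩ := hpr
  have hne : mn E ≠ 0 := fun h0 => hJ (congrFun h0 J)
  have hne' : (mn fun j a => E j (a₀.succAbove a)) ≠ 0 := fun h0 => hI₀ (congrFun h0 I₀)
  have hpos : ∀ v : AbsoluteValue K ℝ, 0 < ⨆ J, v (mn E J) := fun v =>
    (v.pos hJ).trans_le (Finite.le_ciSup_of_le J le_rfl)
  have hpos' : ∀ v : AbsoluteValue K ℝ, 0 < ⨆ I, v (mn (fun j a => E j (a₀.succAbove a)) I) :=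
    fun v => (v.pos hI₀).trans_le (Finite.le_ciSup_of_le I₀ le_rfl)
  have hFS1 := FS_log_iSup hne
  have hFS2 := FS_log_iSup hne'
  refine ⟨⟨I₀, hI₀⟩, ?_, ?_⟩
  · rw [← gs_log_iSup hne, ← gs_log_iSup hne']
    refine gs_le hFS2 hFS1 fun v _ => Real.log_le_log (hpos' v) ?_
    have : Nonempty (Fin k → Fin n) := ⟨I₀⟩
    refine ciSup_le fun I => ?_
    exact Finite.le_ciSup_of_le (f := fun J => v (mn E J)) (fun b => a₀.succAbove (I b)) le_rfl
  · rw [← gs_log_iSup hne, ← gs_log_iSup hne']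
    have hF3 : FS (fun v : AbsoluteValue K ℝ => ∑ a, Real.log (max 1 (v (l a)))) :=
      FS_sum _ fun a _ => FS_log_max (l a)
    have hF4 : FS (fun v : AbsoluteValue K ℝ => Real.log (cst v (n + 1))) := FS_log_cst (n + 1)
    have h1 : gs (fun v : AbsoluteValue K ℝ => Real.log (⨆ J, v (mn E J))) ≤
        gs (fun v : AbsoluteValue K ℝ =>
          (Real.log (⨆ I, v (mn (fun j a => E j (a₀.succAbove a)) I)) +
            ∑ a, Real.log (max 1 (v (l a)))) + Real.log (cst v (n + 1))) := by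
      refine gs_le hFS1 (FS_add (FS_add hFS2 hF3) hF4) fun v _ => ?_
      have hc : 0 < cst v (n + 1) :=
        zero_lt_one.trans_le (one_le_cst v (Nat.succ_le_succ (Nat.zero_le n)))
      have hm : ∀ a, max 1 (v (l a)) ≠ 0 := fun a =>
        (zero_lt_one.trans_le (le_max_left 1 (v (l a)))).ne'
      have hP : (∏ a, max 1 (v (l a))) ≠ 0 := Finset.prod_ne_zero_iff.2 fun a _ => hm a
      have : Nonempty (Fin k → Fin (n + 1)) := ⟨J⟩
      have h2 := Real.log_le_log (hpos v) (ciSup_le (M18_le v E a₀ l h))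
      rw [Real.log_mul (mul_ne_zero hc.ne' hP) (hpos' v).ne', Real.log_mul hc.ne' hP,
        Real.log_prod fun a _ => hm a] at h2
      linarith
    rw [gs_add (FS_add hFS2 hF3) hF4, gs_add hFS2 hF3,
      gs_sum Finset.univ (fun a _ => FS_log_max (l a))] at h1
    have h3 : ∑ a, gs (fun v : AbsoluteValue K ℝ => Real.log (max 1 (v (l a)))) =
        ∑ a, logHeight₁ (l a) := Finset.sum_congr rfl fun a _ => gs_log_max (l a)
    have h4 := gs_log_cst (L := K) (n := n + 1) (Nat.succ_le_succ (Nat.zero_le n))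
    rw [h3] at h1
    linarith

end Pool.Agent.Lib.MP_17a322_nt.VA
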