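import Pool.Agent.Lib.MP_17a322_nt.VA.M15
import Pool.Agent.Lib.MP_17a322_nt.VA.M16
import Pool.Agent.Lib.MP_17a322_nt.VA.M18

/-!
A subspace of codimension one of smaller height (two cases).
-/

universe u

namespace Pool.Agent.Lib.MP_17a322_nt.VA

open MvPolynomial Height Filter
open Pool.Agent.Lib.MP_17a322_nt.RO
open Pool.Agent.Lib.MP_17a322_nt.VJ
open Pool.Agent.Lib.MP_17a322_nt.VN

/-- Pointwise membership in the spans gives membership of the germs. -/
theorem GE_mem_span {K : Type u} [Field K] {k c n : ℕ} (E : ℕ → Fin c → Fin n → K)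
    (E' : ℕ → Fin k → Fin n → K)
    (h : ∀ᶠ i in (hyperfilter ℕ : Filter ℕ), ∀ j, E' i j ∈ Submodule.span K (Set.range (E i)))
    (j : Fin k) : GE E' j ∈ Submodule.span (GK K) (Set.range (GE E)) := by
  have h2 : ∀ᶠ i in (hyperfilter ℕ : Filter ℕ), ∃ A : Fin c → K,
      ∑ l, A l • E i l = E' i j := by
    filter_upwards [h] with i hi
    exact (Submodule.mem_span_range_iff_exists_fun K).1 (hi j)
  obtain ⟨A, hA⟩ := exists_seq h2
  refine (Submodule.mem_span_range_iff_exists_fun (GK K)).2 ⟨fun l => gm fun i => A i l, ?_⟩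
  funext a
  rw [Finset.sum_apply]
  have h3 : ∀ l, ((gm fun i => A i l) • GE E l) a = gm fun i => A i l * E i l a := by
    intro l
    rw [gm_mul]
    rfl
  rw [Finset.sum_congr rfl fun l _ => h3 l, ← gm_sum]
  refine gm_eq_iff.2 ?_
  filter_upwards [hA] with i hi
  rw [← hi, Finset.sum_apply]
  rfl

/-- Case 2. -/
theorem CA_two {K : Type u} [Field K] [NumberField K] {H : ℕ → ℝ}
    (hH : Tendsto H (hyperfilter ℕ : Filter ℕ) atTop) {k n : ℕ}
    (E : ℕ → Fin (k + 1) → Fin n → K)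
    (hE : ∀ᶠ i in (hyperfilter ℕ : Filter ℕ), ∃ I, mn (E i) I ≠ 0)
    (h0 : ∀ v ∈ Submodule.span (GK K) (Set.range (GE E)), (∀ a, sml H (v a)) → v = 0)
    (h1 : ∀ x : Fin n → GK K, (∀ a, sml H (x a)) → (∀ j, ∑ a, GE E j a * x a = 0) → x = 0) :
    ∃ (E' : ℕ → Fin k → Fin n → K) (ε : ℝ), 0 < ε ∧
      (∀ᶠ i in (hyperfilter ℕ : Filter ℕ), ∃ I, mn (E' i) I ≠ 0) ∧
      (∀ j, GE E' j ∈ Submodule.span (GK K) (Set.range (GE E))) ∧
      ∀ᶠ i in (hyperfilter ℕ : Filter ℕ),
        ε * H i + logHeight (mn (E' i)) ≤ logHeight (mn (E i)) := by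
  obtain ⟨ε₁, hε₁, hc⟩ := CLam hH E h1
  have hind := (ind_GE E).2 hE
  have hkn : k + 1 ≤ n := by
    have h2 := hind.fintype_card_le_finrank
    rwa [Fintype.card_fin, Module.finrank_fin_fun] at h2
  have hne : k + 1 ≠ n := by
    intro h2
    have h3 : Submodule.span (GK K) (Set.range (GE E)) = ⊤ :=
      hind.span_eq_top_of_card_eq_finrank (by rw [Fintype.card_fin, Module.finrank_fin_fun, h2])
    have hn : 0 < n := by omega
    have h4 := h0 (Pi.single ⟨0, hn⟩ 1) (by rw [h3]; exact Submodule.mem_top) (fun a => by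
      by_cases ha : a = ⟨0, hn⟩
      · subst ha
        rw [Pi.single_eq_same, ← map_one (algebraMap K (GK K))]
        exact sml_const hH 1
      · rw [Pi.single_eq_of_ne ha, ← map_zero (algebraMap K (GK K))]
        exact sml_const hH 0)
    have h5 := congrFun h4 ⟨0, hn⟩
    rw [Pi.single_eq_same, Pi.zero_apply] at h5
    exact one_ne_zero h5
  obtain ⟨C, hC0, hC⟩ := PL K k n hkn
  obtain ⟨g, hg⟩ : ∃ g : ℝ, g = ((n : ℝ) - (k + 1)) / (k + 1) := ⟨_, rfl⟩
  have hg0 : 0 < g := by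
    have h2 : (k + 1 : ℝ) < n := by exact_mod_cast lt_of_le_of_ne hkn hne
    rw [hg]
    exact div_pos (sub_pos.2 h2) (by positivity)
  rw [← hg] at hC
  have h2 : ∀ᶠ i in (hyperfilter ℕ : Filter ℕ), ∃ F : Fin k → Fin n → K,
      (∀ j, F j ∈ Submodule.span K (Set.range (E i))) ∧ (∃ I, mn F I ≠ 0) ∧
        logHeight (mn F) + g * (ε₁ * H i) ≤ logHeight (mn (E i)) + C := by
    filter_upwards [hE, hc] with i h3 h4
    exact hC (E i) h3 (ε₁ * H i) h4
  obtain ⟨E', hE'⟩ := exists_seq h2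
  have hε : 0 < g * ε₁ / 2 := by positivity
  refine ⟨E', g * ε₁ / 2, hε, hE'.mono fun i hi => hi.2.1,
    GE_mem_span E E' (hE'.mono fun i hi => hi.1), ?_⟩
  filter_upwards [hE', hH.eventually_ge_atTop (C / (g * ε₁ / 2))] with i h3 h4
  rw [div_le_iff₀ hε] at h4
  have h5 := h3.2.2
  have h6 : g * (ε₁ * H i) = 2 * (H i * (g * ε₁ / 2)) := by ring
  rw [h6] at h5
  linarith

/-- Case 1. -/
theorem CA_one {K : Type u} [Field K] [NumberField K] {H : ℕ → ℝ}
    (hH : Tendsto H (hyperfilter ℕ : Filter ℕ) atTop) {k n : ℕ}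
    (IH : ∀ E : ℕ → Fin (k + 1) → Fin n → K,
      (∀ᶠ i in (hyperfilter ℕ : Filter ℕ), ∃ I, mn (E i) I ≠ 0) →
      (∀ v ∈ Submodule.span (GK K) (Set.range (GE E)), (∀ a, sml H (v a)) → v = 0) →
      ∃ (E' : ℕ → Fin k → Fin n → K) (ε : ℝ), 0 < ε ∧
        (∀ᶠ i in (hyperfilter ℕ : Filter ℕ), ∃ I, mn (E' i) I ≠ 0) ∧
        (∀ j, GE E' j ∈ Submodule.span (GK K) (Set.range (GE E))) ∧
        ∀ᶠ i in (hyperfilter ℕ : Filter ℕ),
          ε * H i + logHeight (mn (E' i)) ≤ logHeight (mn (E i)))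
    (E : ℕ → Fin (k + 1) → Fin (n + 1) → K)
    (hE : ∀ᶠ i in (hyperfilter ℕ : Filter ℕ), ∃ I, mn (E i) I ≠ 0)
    (h0 : ∀ v ∈ Submodule.span (GK K) (Set.range (GE E)), (∀ a, sml H (v a)) → v = 0)
    (x : Fin (n + 1) → GK K) (hx0 : x ≠ 0) (hxs : ∀ a, sml H (x a))
    (hx : ∀ j, ∑ a, GE E j a * x a = 0) :
    ∃ (E' : ℕ → Fin k → Fin (n + 1) → K) (ε : ℝ), 0 < ε ∧
      (∀ᶠ i in (hyperfilter ℕ : Filter ℕ), ∃ I, mn (E' i) I ≠ 0) ∧
      (∀ j, GE E' j ∈ Submodule.span (GK K) (Set.range (GE E))) ∧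
      ∀ᶠ i in (hyperfilter ℕ : Filter ℕ),
        ε * H i + logHeight (mn (E' i)) ≤ logHeight (mn (E i)) := by
  obtain ⟨a₀, ha₀⟩ := Function.ne_iff.1 hx0
  rw [Pi.zero_apply] at ha₀
  -- the relation
  let l : Fin n → GK K := fun a =>
    algebraMap K (GK K) (-1) * (x (a₀.succAbove a) * (x a₀)⁻¹)
  have hls : ∀ a, sml H (l a) := fun a =>
    sml_mul (sml_const hH (-1)) (sml_mul (hxs _) (sml_inv (hxs a₀)))
  have hl : ∀ j, GE E j a₀ = ∑ a, l a * GE E j (a₀.succAbove a) := by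
    intro j
    have h1 := hx j
    rw [Fin.sum_univ_succAbove _ a₀] at h1
    have h2 : ∑ a, l a * GE E j (a₀.succAbove a) =
        (∑ a, GE E j (a₀.succAbove a) * x (a₀.succAbove a)) * (-(x a₀)⁻¹) := by
      rw [Finset.sum_mul]
      refine Finset.sum_congr rfl fun a _ => ?_
      change algebraMap K (GK K) (-1) * (x (a₀.succAbove a) * (x a₀)⁻¹) * _ = _
      rw [map_neg, map_one]
      ring
    have h3 : ∑ a, GE E j (a₀.succAbove a) * x (a₀.succAbove a) = -(GE E j a₀ * x a₀) := by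
      linear_combination h1
    rw [h2, h3]
    field_simp
  choose lam hlam using fun a => exists_gm (l a)
  have hlamO : ∀ a, oH H fun i => logHeight₁ (lam a i) := by
    intro a
    rw [← sml_iff, hlam a]
    exact hls a
  have hrel : ∀ᶠ i in (hyperfilter ℕ : Filter ℕ), ∀ j,
      E i j a₀ = ∑ a, lam a i * E i j (a₀.succAbove a) := by
    rw [eventually_all]
    intro j
    rw [← gm_eq_iff, gm_sum Finset.univ fun a i => lam a i * E i j (a₀.succAbove a)]
    have h1 := hl j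
    rw [GE] at h1
    rw [h1]
    refine Finset.sum_congr rfl fun a _ => ?_
    rw [gm_mul, hlam a]
    rfl
  obtain ⟨C1, hC1, hw1⟩ := wh_elim K (k + 1) n
  have hF0 : ∀ᶠ i in (hyperfilter ℕ : Filter ℕ),
      (∃ I, mn (fun j a => E i j (a₀.succAbove a)) I ≠ 0) ∧
      logHeight (mn fun j a => E i j (a₀.succAbove a)) ≤ logHeight (mn (E i)) := by
    filter_upwards [hrel, hE] with i h1 h2
    have h3 := hw1 (E i) a₀ (fun a => lam a i) h1 h2
    exact ⟨h3.1, h3.2.1⟩
  let F : ℕ → Fin (k + 1) → Fin n → K := fun i j a => E i j (a₀.succAbove a)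
  let π : (Fin (n + 1) → GK K) →ₗ[GK K] (Fin n → GK K) :=
    LinearMap.funLeft (GK K) (GK K) a₀.succAbove
  have hrange : Submodule.span (GK K) (Set.range (GE F)) =
      (Submodule.span (GK K) (Set.range (GE E))).map π := by
    rw [Submodule.map_span, ← Set.range_comp]
    rfl
  have hspan : ∀ v ∈ Submodule.span (GK K) (Set.range (GE E)),
      v a₀ = ∑ a, l a * v (a₀.succAbove a) := by
    intro v hv
    induction hv using Submodule.span_induction with
    | mem v hv =>
      obtain ⟨j, rfl⟩ := hv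
      exact hl j
    | zero => simp
    | add u v _ _ hu hv =>
      rw [Pi.add_apply, hu, hv, ← Finset.sum_add_distrib]
      refine Finset.sum_congr rfl fun a _ => ?_
      rw [Pi.add_apply]
      ring
    | smul c v _ hv =>
      rw [Pi.smul_apply, hv, smul_eq_mul, Finset.mul_sum]
      refine Finset.sum_congr rfl fun a _ => ?_
      rw [Pi.smul_apply, smul_eq_mul]
      ring
  have h0F : ∀ v ∈ Submodule.span (GK K) (Set.range (GE F)), (∀ a, sml H (v a)) → v = 0 := by
    intro v hv hvs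
    rw [hrange, Submodule.mem_map] at hv
    obtain ⟨u, hu, rfl⟩ := hv
    have h1 : u = 0 := by
      refine h0 u hu fun c => ?_
      rcases Fin.eq_self_or_eq_succAbove a₀ c with rfl | ⟨a, rfl⟩
      · rw [hspan u hu]
        change (∑ a, l a * u (c.succAbove a)) ∈ k0 K H hH
        refine sum_mem fun a _ => ?_
        have h2 : sml H (l a * u (c.succAbove a)) := sml_mul (hls a) (hvs a)
        exact h2
      · exact hvs a
    rw [h1, map_zero]
  obtain ⟨F', ε, hε, hF', hsp, hb⟩ := IH F (hF0.mono fun i h => h.1) h0F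
  let E' : ℕ → Fin k → Fin (n + 1) → K := fun i j =>
    Fin.insertNth (α := fun _ => K) a₀ (∑ a, lam a i * F' i j a) (F' i j)
  have hE1 : ∀ i j a, E' i j (a₀.succAbove a) = F' i j a := fun i j a =>
    Fin.insertNth_apply_succAbove a₀ _ _ a
  have hE2 : ∀ i j, E' i j a₀ = ∑ a, lam a i * F' i j a := fun i j =>
    Fin.insertNth_apply_same a₀ _ _
  have hE3 : ∀ i, (fun j a => E' i j (a₀.succAbove a)) = F' i := fun i => by
    funext j a
    exact hE1 i j a
  have hmn : ∀ᶠ i in (hyperfilter ℕ : Filter ℕ), ∃ I, mn (E' i) I ≠ 0 := by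
    filter_upwards [hF'] with i hi
    obtain ⟨I, hI⟩ := hi
    refine ⟨fun b => a₀.succAbove (I b), ?_⟩
    have h1 : mn (E' i) (fun b => a₀.succAbove (I b)) = mn (F' i) I := by
      unfold mn
      congr 1
      ext a b
      exact hE1 i a (I b)
    rw [h1]
    exact hI
  refine ⟨E', ε / 2, half_pos hε, hmn, ?_, ?_⟩
  · intro j
    have h1 := hsp j
    rw [hrange, Submodule.mem_map] at h1
    obtain ⟨u, hu, hπ⟩ := h1
    have h2 : ∀ a, u (a₀.succAbove a) = GE F' j a := fun a => congrFun hπ a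
    have h3 : GE E' j = u := by
      funext c
      rcases Fin.eq_self_or_eq_succAbove a₀ c with rfl | ⟨a, rfl⟩
      · rw [hspan u hu]
        have h4 : (fun i => E' i j c) = fun i => ∑ a, lam a i * F' i j a := by
          funext i
          exact hE2 i j
        rw [GE, h4, gm_sum Finset.univ fun a i => lam a i * F' i j a]
        refine Finset.sum_congr rfl fun a _ => ?_
        rw [gm_mul, hlam a, h2 a]
        rfl
      · rw [h2 a]
        have h4 : (fun i => E' i j (a₀.succAbove a)) = fun i => F' i j a := by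
          funext i
          exact hE1 i j a
        rw [GE, h4]
        rfl
    rw [h3]
    exact hu
  · obtain ⟨C2, hC2, hw2⟩ := wh_elim K k n
    have h1 : oH H fun i => ∑ a, logHeight₁ (lam a i) + C2 :=
      (oH.sum hH Finset.univ (fun a i => logHeight₁ (lam a i)) fun a _ => hlamO a).add
        (oH_const hH C2)
    filter_upwards [h1 (ε / 2) (half_pos hε), hF0, hb, hmn] with i h2 h3 h4 h5
    have h6 := (hw2 (E' i) a₀ (fun a => lam a i) (fun j => by
      rw [hE2 i j]
      exact Finset.sum_congr rfl fun a _ => by rw [hE1 i j a]) h5).2.2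
    rw [hE3 i] at h6
    have h7 : logHeight (mn (F i)) ≤ logHeight (mn (E i)) := h3.2
    linarith

end Pool.Agent.Lib.MP_17a322_nt.VA
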