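import Pool.Agent.Lib.MP_17a322_nt.VA.M1
import Pool.Agent.Lib.MP_17a322_nt.VJ.A3

/-!
Sizes of minors at one place under elimination.
-/

universe u

namespace Pool.Agent.Lib.MP_17a322_nt.VA

open MvPolynomial Height
open Pool.Agent.Lib.MP_17a322_nt.RO
open Pool.Agent.Lib.MP_17a322_nt.VJ
open Pool.Agent.Lib.MP_17a322_nt.VN

theorem wv_nonneg {L : Type*} [Field L] (v : AbsoluteValue L ℝ) {n : ℕ} (E : ℕ → Fin n → L)
    (k : ℕ) : 0 ≤ wv v E k := by
  exact Real.iSup_nonneg fun I => v.nonneg _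

theorem le_wv {L : Type*} [Field L] (v : AbsoluteValue L ℝ) {n : ℕ} (E : ℕ → Fin n → L)
    (k : ℕ) (I : Fin k → Fin n) : v (mn (tk E k) I) ≤ wv v E k := by
  exact le_ciSup (f := fun I : Fin k → Fin n => v (mn (tk E k) I)) (Set.finite_range _).bddAbove I

theorem wv_zero {L : Type*} [Field L] (v : AbsoluteValue L ℝ) {n : ℕ} (E : ℕ → Fin n → L) :
    wv v E 0 = 1 := by
  unfold wv mn
  have h : ∀ I : Fin 0 → Fin n, v (Matrix.of fun a b : Fin 0 => tk E 0 a (I b)).det = 1 := by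
    intro I
    rw [Matrix.det_isEmpty, map_one]
  rw [iSup_congr h, ciSup_const]

theorem wv_one_le {L : Type*} [Field L] (v : AbsoluteValue L ℝ) {n : ℕ} (E : ℕ → Fin n → L)
    (τ : Type*) :
    wv v E 1 ≤ NV v (∑ b, C (E 0 b) * X (Sum.inl b) : MvPolynomial (Fin n ⊕ τ) L) := by
  refine Real.iSup_le (fun I => ?_) ((SN_NV v).nonneg _)
  have h1 : mn (tk E 1) I = E 0 (I 0) := by
    unfold mn
    rw [Matrix.det_fin_one]
    rfl
  have h2 : coeff (Finsupp.single (Sum.inl (I 0)) 1)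
      (∑ b, C (E 0 b) * X (Sum.inl b) : MvPolynomial (Fin n ⊕ τ) L) = E 0 (I 0) := by
    classical
    rw [coeff_sum, Finset.sum_eq_single (I 0)]
    · rw [coeff_C_mul, coeff_X', if_pos rfl, mul_one]
    · intro b _ hb
      rw [coeff_C_mul, coeff_X', if_neg, mul_zero]
      intro h3
      exact hb (Sum.inl_injective (Finsupp.single_left_injective one_ne_zero h3))
    · intro h3
      exact absurd (Finset.mem_univ _) h3
  rw [h1, ← h2]
  exact coeff_le_NV v _ _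

theorem wv_pos {L : Type*} [Field L] (v : AbsoluteValue L ℝ) {n : ℕ} (E : ℕ → Fin n → L)
    {k c : ℕ} (hk : k ≤ c) (h : ∃ I, mn (tk E c) I ≠ 0) : 0 < wv v E k := by
  obtain ⟨I, hI⟩ := mn_ind E hk h
  exact (v.pos hI).trans_le (le_wv v E k I)

theorem wv_succ_le {L : Type*} [Field L] (v : AbsoluteValue L ℝ) {n : ℕ} (E : ℕ → Fin n → L)
    (b : Fin n) (hb : ∀ a, v (E 0 a) ≤ v (E 0 b)) (k : ℕ) :
    wv v E (k + 1) ≤ cst v (k + 1) * (v (E 0 b) * wv v (el b E) k) := by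
  have hB : 0 ≤ v (E 0 b) * wv v (el b E) k := mul_nonneg (v.nonneg _) (wv_nonneg _ _ _)
  refine Real.iSup_le (fun J => ?_) (mul_nonneg (cst_nonneg v _) hB)
  rw [mn_succ E b k J]
  have h1 := (SN_self v).sum_le Finset.univ (fun c : Fin (k + 1) =>
    (-1) ^ (c : ℕ) * E 0 (J c) * mn (tk (el b E) k) (J ∘ c.succAbove)) hB (fun c _ => by
      beta_reduce
      rw [map_mul, map_mul, map_pow, v.map_neg, map_one, one_pow, one_mul]
      exact mul_le_mul (hb _) (le_wv v (el b E) k _) (v.nonneg _) (v.nonneg _))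
  rw [Finset.card_univ, Fintype.card_fin] at h1
  exact h1

theorem le_wv_succ {L : Type*} [Field L] (v : AbsoluteValue L ℝ) {n : ℕ} (E : ℕ → Fin n → L)
    (b : Fin n) (hb : E 0 b ≠ 0) (k : ℕ) :
    v (E 0 b) * wv v (el b E) k ≤ wv v E (k + 1) := by
  unfold wv
  rw [Real.mul_iSup_of_nonneg (v.nonneg _)]
  refine Real.iSup_le (fun I => ?_) (wv_nonneg v E (k + 1))
  rw [← map_mul, ← mn_cons E b hb k I]
  exact le_wv v E (k + 1) _

theorem el_ind {L : Type*} [Field L] {n : ℕ} (E : ℕ → Fin n → L) (b : Fin n) (c : ℕ)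
    (h : ∃ I, mn (tk E (c + 1)) I ≠ 0) : ∃ I, mn (tk (el b E) c) I ≠ 0 := by
  by_contra hcon
  push Not at hcon
  obtain ⟨J, hJ⟩ := h
  apply hJ
  rw [mn_succ E b c J]
  refine Finset.sum_eq_zero fun i _ => ?_
  rw [hcon, mul_zero]

end Pool.Agent.Lib.MP_17a322_nt.VA
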