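import Pool.Agent.Lib.MP_17a322_nt.VA.M0

/-!
Splitting off the first variable; identities of the substitutions.
-/

universe u

namespace Pool.Agent.Lib.MP_17a322_nt.VA

open MvPolynomial Height
open Pool.Agent.Lib.MP_17a322_nt.RO
open Pool.Agent.Lib.MP_17a322_nt.VJ
open Pool.Agent.Lib.MP_17a322_nt.VN

private theorem M3_coeff_zero {R : Type*} [CommRing R] (c : ℕ) (F : MvPolynomial (Fin (c + 1)) R) :
    aeval (Fin.cons 0 X : Fin (c + 1) → MvPolynomial (Fin c) R) F =
      (finSuccEquiv R c F).coeff 0 := by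
  induction F using MvPolynomial.induction_on with
  | C a =>
    have h : finSuccEquiv R c (C a) = Polynomial.C (C a) := (finSuccEquiv R c).commutes a
    rw [h, Polynomial.coeff_C_zero, aeval_C]
    rfl
  | add p q hp hq => rw [map_add, map_add, Polynomial.coeff_add, hp, hq]
  | mul_X p i hp =>
    rw [map_mul, map_mul, Polynomial.mul_coeff_zero, hp, aeval_X]
    congr 1
    refine Fin.cases ?_ (fun l => ?_) i
    · rw [finSuccEquiv_X_zero, Polynomial.coeff_X_zero]
      rfl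
    · rw [finSuccEquiv_X_succ, Polynomial.coeff_C_zero]
      rfl

theorem exists_split {R : Type*} [CommRing R] (c : ℕ) (Q : MvPolynomial (Fin (c + 1)) R)
    (hQ : Q ≠ 0) :
    ∃ (α₀ : ℕ) (Q₁ : MvPolynomial (Fin (c + 1)) R) (Q' : MvPolynomial (Fin c) R),
      Q = X 0 ^ α₀ * Q₁ ∧ Q' ≠ 0 ∧
      aeval (Fin.cons 0 X : Fin (c + 1) → MvPolynomial (Fin c) R) Q₁ = Q' ∧
      ∀ m : Fin c →₀ ℕ, coeff m Q' = coeff (m.cons α₀) Q := by
  obtain ⟨P, hP⟩ : ∃ P, P = finSuccEquiv R c Q := ⟨_, rfl⟩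
  have hP0 : P ≠ 0 := by
    intro h
    apply hQ
    apply (finSuccEquiv R c).injective
    rw [← hP, h, map_zero]
  have hdvd : Polynomial.X ^ P.natTrailingDegree ∣ P := by
    rw [Polynomial.X_pow_dvd_iff]
    intro k hk
    exact Polynomial.coeff_eq_zero_of_lt_natTrailingDegree hk
  obtain ⟨P₁, hP₁⟩ := hdvd
  have h0 : P₁.coeff 0 = P.coeff P.natTrailingDegree := by
    have h := Polynomial.coeff_X_pow_mul P₁ P.natTrailingDegree 0
    rw [zero_add, ← hP₁] at h
    exact h.symm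
  refine ⟨P.natTrailingDegree, (finSuccEquiv R c).symm P₁, P₁.coeff 0, ?_, ?_, ?_, ?_⟩
  · apply (finSuccEquiv R c).injective
    rw [map_mul, map_pow, finSuccEquiv_X_zero, AlgEquiv.apply_symm_apply, ← hP]
    exact hP₁
  · rw [h0]
    exact Polynomial.trailingCoeff_nonzero_iff_nonzero.2 hP0
  · rw [M3_coeff_zero, AlgEquiv.apply_symm_apply]
  · intro m
    rw [h0, hP, finSuccEquiv_coeff_coeff]

private theorem M3_ps_lin {L : Type*} [Field L] (τ : Type*) {n : ℕ} (E : ℕ → Fin n → L)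
    (b : Fin n) (w : Fin n → L) :
    ps τ b E (∑ a, C (w a) * X (Sum.inl a)) =
      ∑ a ∈ Finset.univ.erase b, C (w a - w b / E 0 b * E 0 a) * X (Sum.inl a) := by
  have h1 : ∀ a, ps τ b E (C (w a) * X (Sum.inl a)) = C (w a) *
      (if a = b then - ∑ a' ∈ Finset.univ.erase b, C (E 0 a' / E 0 b) * X (Sum.inl a')
        else X (Sum.inl a)) := by
    intro a
    unfold ps
    rw [map_mul, aeval_C, aeval_X, algebraMap_eq, Sum.elim_inl]
  rw [map_sum, Finset.sum_congr rfl fun a _ => h1 a, ← Finset.add_sum_erase _ _ (Finset.mem_univ b),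
    if_pos rfl, mul_neg, Finset.mul_sum, neg_add_eq_sub, ← Finset.sum_sub_distrib]
  refine Finset.sum_congr rfl fun a ha => ?_
  rw [if_neg (Finset.ne_of_mem_erase ha), ← mul_assoc, ← C_mul, ← sub_mul, ← C_sub]
  congr 3
  ring

theorem sb_split {L : Type*} [Field L] (τ : Type*) {n : ℕ} (c : ℕ) (E : ℕ → Fin n → L)
    (b : Fin n) (hb : E 0 b ≠ 0) (Q₁ : MvPolynomial (Fin (c + 1)) (MvPolynomial τ L)) :
    ps τ b E (sb τ (c + 1) E Q₁) =
      sb τ c (el b E) (aeval (Fin.cons 0 X : Fin (c + 1) → MvPolynomial (Fin c) (MvPolynomial τ L))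
        Q₁) := by
  have h0 : (ps τ b E).toRingHom.comp (sb τ (c + 1) E) =
      (sb τ c (el b E)).comp (aeval (R := MvPolynomial τ L)
        (Fin.cons 0 X : Fin (c + 1) → MvPolynomial (Fin c) (MvPolynomial τ L))).toRingHom := by
    refine MvPolynomial.ringHom_ext (fun r => ?_) (fun i => ?_)
    · show ps τ b E (sb τ (c + 1) E (C r)) = sb τ c (el b E) (aeval (Fin.cons 0 X) (C r))
      rw [aeval_C, algebraMap_eq]
      unfold sb
      rw [eval₂Hom_C, eval₂Hom_C]
      show ps τ b E (rename Sum.inr r) = rename Sum.inr r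
      unfold ps
      rw [aeval_rename, Sum.elim_comp_inr]
      have e0 : (aeval fun t => (X (Sum.inr t) : MvPolynomial (Fin n ⊕ τ) L)) =
          rename (R := L) (Sum.inr : τ → Fin n ⊕ τ) :=
        MvPolynomial.algHom_ext fun t => by rw [aeval_X, rename_X]
      rw [e0]
    · show ps τ b E (sb τ (c + 1) E (X i)) = sb τ c (el b E) (aeval (Fin.cons 0 X) (X i))
      rw [aeval_X]
      have e1 : sb τ (c + 1) E (X i) = ∑ a, C (E i a) * X (Sum.inl a) := by
        unfold sb
        rw [eval₂Hom_X']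
      rw [e1, M3_ps_lin]
      refine Fin.cases ?_ (fun j => ?_) i
      · rw [Fin.cons_zero, map_zero]
        refine Finset.sum_eq_zero fun a _ => ?_
        have e2 : E ((0 : Fin (c + 1)) : ℕ) a -
            E ((0 : Fin (c + 1)) : ℕ) b / E 0 b * E 0 a = 0 := by
          rw [Fin.val_zero, div_self hb, one_mul, sub_self]
        rw [e2, C_0, zero_mul]
      · rw [Fin.cons_succ]
        have e2 : sb τ c (el b E) (X j) = ∑ a, C (el b E j a) * X (Sum.inl a) := by
          unfold sb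
          rw [eval₂Hom_X']
        rw [e2, ← Finset.add_sum_erase _ _ (Finset.mem_univ b)]
        have e3 : el b E j b = 0 := by
          unfold el
          rw [div_mul_cancel₀ _ hb, sub_self]
        rw [e3, C_0, zero_mul, zero_add]
        rfl
  exact RingHom.congr_fun h0 Q₁

theorem sb_mul {L : Type*} [Field L] (τ : Type*) {n : ℕ} (c : ℕ) (E : ℕ → Fin n → L)
    (α₀ : ℕ) (Q₁ : MvPolynomial (Fin (c + 1)) (MvPolynomial τ L)) :
    sb τ (c + 1) E (X 0 ^ α₀ * Q₁) =
      (∑ b, C (E 0 b) * X (Sum.inl b)) ^ α₀ * sb τ (c + 1) E Q₁ := by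
  have e1 : sb τ (c + 1) E (X 0) = ∑ b, C (E 0 b) * X (Sum.inl b) := by
    unfold sb
    rw [eval₂Hom_X']
    rfl
  rw [map_mul, map_pow, e1]

theorem sb_zero {L : Type*} [Field L] (τ : Type*) {n : ℕ} (E : ℕ → Fin n → L)
    (Q : MvPolynomial (Fin 0) (MvPolynomial τ L)) :
    sb τ 0 E Q = rename Sum.inr (coeff 0 Q) := by
  conv_lhs => rw [MvPolynomial.eq_C_of_isEmpty Q]
  unfold sb
  rw [eval₂Hom_C]
  rfl

end Pool.Agent.Lib.MP_17a322_nt.VA
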