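import Pool.Agent.Lib.MP_17a322_nt.VA.M0
import Pool.Agent.Lib.MP_17a322_nt.VJ.A3

/-!
Sizes and degrees for one elimination step.
-/

universe u

namespace Pool.Agent.Lib.MP_17a322_nt.VA

open MvPolynomial Height
open Pool.Agent.Lib.MP_17a322_nt.RO
open Pool.Agent.Lib.MP_17a322_nt.VJ
open Pool.Agent.Lib.MP_17a322_nt.VN

private theorem M4_aeval_deg {L : Type*} [Field L] {σ σ' : Type*}
    (ξ : σ → MvPolynomial σ' L) (hξ : ∀ t, (ξ t).totalDegree ≤ 1) (F : MvPolynomial σ L) :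
    (aeval ξ F).totalDegree ≤ F.totalDegree := by
  rw [aeval_def, eval₂_eq]
  refine totalDegree_finsetSum_le fun m hm => ?_
  refine (totalDegree_mul _ _).trans ?_
  have h1 : (algebraMap L (MvPolynomial σ' L) (coeff m F)).totalDegree = 0 := totalDegree_C _
  rw [h1, zero_add]
  refine (totalDegree_finsetProd _ _).trans ?_
  refine le_trans (Finset.sum_le_sum fun t _ =>
    (totalDegree_pow _ _).trans (Nat.mul_le_mul_left _ (hξ t))) ?_
  simp only [mul_one]
  exact le_totalDegree hm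

/-- The images of the variables have degree at most `1`. -/
private theorem M4_xi_deg {L : Type*} [Field L] (τ : Type*) {n : ℕ} (b : Fin n)
    (E : ℕ → Fin n → L) (t : Fin n ⊕ τ) :
    ((Sum.elim (fun a => if a = b then
        - ∑ a' ∈ Finset.univ.erase b, C (E 0 a' / E 0 b) * X (Sum.inl a')
      else X (Sum.inl a)) fun t => X (Sum.inr t) :
        Fin n ⊕ τ → MvPolynomial (Fin n ⊕ τ) L) t).totalDegree ≤ 1 := by
  rcases t with a | t
  · rw [Sum.elim_inl]
    split_ifs
    · rw [totalDegree_neg]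
      refine totalDegree_finsetSum_le fun a' _ => ?_
      refine (totalDegree_mul _ _).trans ?_
      rw [totalDegree_C, totalDegree_X]
    · rw [totalDegree_X]
  · rw [Sum.elim_inr, totalDegree_X]

/-- The sizes of the images of the variables. -/
private theorem M4_xi_NV {L : Type*} [Field L] (v : AbsoluteValue L ℝ) (τ : Type*) {n : ℕ}
    (b : Fin n) (E : ℕ → Fin n → L) (hb : ∀ a, v (E 0 a) ≤ v (E 0 b)) (a : Fin n) :
    NV v (if a = b then - ∑ a' ∈ Finset.univ.erase b, C (E 0 a' / E 0 b) * X (Sum.inl a')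
      else X (Sum.inl a) : MvPolynomial (Fin n ⊕ τ) L) ≤ cst v n := by
  have hn : 1 ≤ n := b.pos
  split_ifs
  · rw [(SN_NV v).neg]
    refine ((SN_NV v).sum_le _ _ zero_le_one fun a' _ => ?_).trans ?_
    · rw [NV_C_mul, NV_X, mul_one, map_div₀]
      exact div_le_one_of_le₀ (hb a') (v.nonneg _)
    · rw [mul_one]
      refine cst_mono v ((Finset.card_le_univ _).trans ?_)
      rw [Fintype.card_fin]
  · rw [NV_X]
    exact one_le_cst v hn

theorem ps_totalDegree {L : Type*} [Field L] (τ : Type*) {n : ℕ} (b : Fin n)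
    (E : ℕ → Fin n → L) (F : MvPolynomial (Fin n ⊕ τ) L) :
    (ps τ b E F).totalDegree ≤ F.totalDegree := by
  exact M4_aeval_deg _ (M4_xi_deg τ b E) F

theorem ps_NV {L : Type*} [Field L] (v : AbsoluteValue L ℝ) (τ : Type*) [Fintype τ] {n : ℕ}
    (b : Fin n) (E : ℕ → Fin n → L) (hb : ∀ a, v (E 0 a) ≤ v (E 0 b))
    (F : MvPolynomial (Fin n ⊕ τ) L) :
    NV v (ps τ b E F) ≤ cst v n ^ (n * F.totalDegree) * NV v F := by
  have hn : 1 ≤ n := b.pos
  have h := (SN_NV v).aeval_le F (fun _ => F.totalDegree) (fun t => degreeOf_le_totalDegree F t)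
    (Sum.elim (fun a => if a = b then
        - ∑ a' ∈ Finset.univ.erase b, C (E 0 a' / E 0 b) * X (Sum.inl a')
      else X (Sum.inl a)) fun t => X (Sum.inr t) :
        Fin n ⊕ τ → MvPolynomial (Fin n ⊕ τ) L)
  refine le_trans h ?_
  have hN : 0 ≤ NV v F := (SN_NV v).nonneg F
  rw [mul_comm]
  refine mul_le_mul_of_nonneg_right ?_ hN
  rw [Fintype.prod_sum_type]
  have h2 : ∏ t : τ, (max 1 (NV v ((Sum.elim (fun a => if a = b then
        - ∑ a' ∈ Finset.univ.erase b, C (E 0 a' / E 0 b) * X (Sum.inl a')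
      else X (Sum.inl a)) fun t => X (Sum.inr t) :
        Fin n ⊕ τ → MvPolynomial (Fin n ⊕ τ) L) (Sum.inr t)))) ^ F.totalDegree = 1 := by
    refine Finset.prod_eq_one fun t _ => ?_
    rw [Sum.elim_inr, NV_X, max_self, one_pow]
  rw [h2, mul_one]
  have h3 : ∀ a ∈ (Finset.univ : Finset (Fin n)), (max 1 (NV v ((Sum.elim (fun a => if a = b then
        - ∑ a' ∈ Finset.univ.erase b, C (E 0 a' / E 0 b) * X (Sum.inl a')
      else X (Sum.inl a)) fun t => X (Sum.inr t) :
        Fin n ⊕ τ → MvPolynomial (Fin n ⊕ τ) L) (Sum.inl a)))) ^ F.totalDegree ≤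
        cst v n ^ F.totalDegree := by
    intro a _
    rw [Sum.elim_inl]
    exact pow_le_pow_left₀ (zero_le_one.trans (le_max_left _ _))
      (max_le (one_le_cst v hn) (M4_xi_NV v τ b E hb a)) _
  refine (Finset.prod_le_prod (fun a _ =>
    pow_nonneg (zero_le_one.trans (le_max_left _ _)) _) h3).trans (le_of_eq ?_)
  rw [Finset.prod_const, Finset.card_univ, Fintype.card_fin, ← pow_mul, mul_comm]

theorem M4_ite {β : Type*} [CommMonoid β] (α₀ : ℕ) (a b : β) :
    ∏ j ∈ Finset.range (α₀ + 1), (if j < α₀ then a else b) = a ^ α₀ * b := by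
  rw [Finset.prod_range_succ, if_neg (lt_irrefl α₀),
    Finset.prod_congr rfl (fun j hj => if_pos (Finset.mem_range.1 hj)), Finset.prod_const,
    Finset.card_range]

theorem gel {L : Type*} [Field L] [NumberField L] {v : AbsoluteValue L ℝ} (hv : Pl v)
    {ι : Type*} [Fintype ι] (l f₁ : MvPolynomial ι L) (hl : l ≠ 0) (hf : f₁ ≠ 0) (α₀ : ℕ) :
    NV v l ^ α₀ * NV v f₁ ≤
      cst v 4 ^ (Fintype.card ι * (l ^ α₀ * f₁).totalDegree) * NV v (l ^ α₀ * f₁) := by
  classical
  have hF0 : ∀ j : ℕ, (if j < α₀ then l else f₁) ≠ 0 := by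
    intro j
    split_ifs
    · exact hl
    · exact hf
  have h := prod_NV_le hv (Finset.range (α₀ + 1)) fun j => if j < α₀ then l else f₁
  have h1 : ∏ j ∈ Finset.range (α₀ + 1), NV v (if j < α₀ then l else f₁) =
      NV v l ^ α₀ * NV v f₁ := by
    rw [← M4_ite α₀ (NV v l) (NV v f₁)]
    exact Finset.prod_congr rfl fun j _ => apply_ite (NV v) _ _ _
  rw [h1, M4_ite α₀ l f₁] at h
  refine h.trans (mul_le_mul_of_nonneg_right
    (pow_le_pow_right₀ (one_le_cst v (by norm_num)) ?_) ((SN_NV v).nonneg _))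
  have h2 : ∀ t : ι, ∑ j ∈ Finset.range (α₀ + 1), (if j < α₀ then l else f₁).degreeOf t =
      (l ^ α₀ * f₁).degreeOf t := by
    intro t
    rw [← M4_ite α₀ l f₁]
    exact (degreeOf_prod_eq _ (fun j => if j < α₀ then l else f₁) (fun j _ => hF0 j) t).symm
  rw [Finset.sum_congr rfl fun t _ => h2 t]
  calc ∑ t : ι, (l ^ α₀ * f₁).degreeOf t ≤ ∑ _t : ι, (l ^ α₀ * f₁).totalDegree :=
        Finset.sum_le_sum fun t _ => degreeOf_le_totalDegree _ _
    _ = Fintype.card ι * (l ^ α₀ * f₁).totalDegree := by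
        rw [Finset.sum_const, Finset.card_univ, smul_eq_mul]

theorem deg_split {L : Type*} [Field L] (τ : Type*) {n : ℕ} (E : Fin n → L) (hE : E ≠ 0)
    (f₁ : MvPolynomial (Fin n ⊕ τ) L) (hf : f₁ ≠ 0) (α₀ : ℕ) :
    (∑ b, C (E b) * X (Sum.inl b) : MvPolynomial (Fin n ⊕ τ) L) ≠ 0 ∧
    ((∑ b, C (E b) * X (Sum.inl b)) ^ α₀ * f₁).totalDegree = α₀ + f₁.totalDegree := by
  classical
  obtain ⟨b₀, hb₀⟩ : ∃ b, E b ≠ 0 := by
    by_contra h
    push Not at h
    exact hE (funext h)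
  have hl : (∑ b, C (E b) * X (Sum.inl b) : MvPolynomial (Fin n ⊕ τ) L) ≠ 0 := by
    intro h
    have h1 := congrArg (coeff (Finsupp.single (Sum.inl b₀ : Fin n ⊕ τ) 1)) h
    rw [coeff_sum, coeff_zero, Finset.sum_eq_single b₀] at h1
    · rw [coeff_C_mul, coeff_X, if_pos rfl, mul_one] at h1
      exact hb₀ h1
    · intro b _ hb
      rw [coeff_C_mul, coeff_X, if_neg, mul_zero]
      intro h2
      have h3 := (Finsupp.single_left_inj one_ne_zero).1 h2
      exact hb (Sum.inl_injective h3)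
    · intro h2
      exact absurd (Finset.mem_univ _) h2
  refine ⟨hl, ?_⟩
  have h1 : (∑ b, C (E b) * X (Sum.inl b) : MvPolynomial (Fin n ⊕ τ) L).totalDegree = 1 :=
    (IsHomogeneous.sum _ _ 1 fun b _ => isHomogeneous_C_mul_X (E b) (Sum.inl b)).totalDegree hl
  induction α₀ with
  | zero => rw [pow_zero, one_mul, zero_add]
  | succ k ih =>
    rw [pow_succ', mul_assoc, totalDegree_mul_of_isDomain hl (mul_ne_zero (pow_ne_zero _ hl) hf),
      ih, h1]
    ring

end Pool.Agent.Lib.MP_17a322_nt.VA
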