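import Pool.Agent.Lib.MP_17a322_nt.VA.M2
import Pool.Agent.Lib.MP_17a322_nt.VA.M3
import Pool.Agent.Lib.MP_17a322_nt.VA.M4

/-!
One block (induction on the number of rows).
-/

universe u

namespace Pool.Agent.Lib.MP_17a322_nt.VA

open MvPolynomial Height
open Pool.Agent.Lib.MP_17a322_nt.RO
open Pool.Agent.Lib.MP_17a322_nt.VJ
open Pool.Agent.Lib.MP_17a322_nt.VN

theorem M5_rename_deg {L : Type*} [Field L] {σ τ : Type*} (f : σ → τ)
    (hf : Function.Injective f) (p : MvPolynomial σ L) :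
    p.totalDegree ≤ (rename f p).totalDegree := by
  classical
  unfold totalDegree
  refine Finset.sup_le fun m hm => ?_
  have h1 : Finsupp.mapDomain f m ∈ (rename f p).support := by
    rw [support_rename_of_injective hf]
    exact Finset.mem_image_of_mem _ hm
  refine le_trans (le_of_eq ?_) (Finset.le_sup (f := fun s : τ →₀ ℕ => s.sum fun _ e => e) h1)
  rw [Finsupp.sum_mapDomain_index (fun _ => rfl) (fun _ _ _ => rfl)]

/-- The row `0` is not zero. -/
theorem M5_row {L : Type*} [Field L] {n : ℕ} (E : ℕ → Fin n → L) (c : ℕ)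
    (h : ∃ I, mn (tk E (c + 1)) I ≠ 0) : E 0 ≠ 0 := by
  obtain ⟨I, hI⟩ := h
  intro h0
  refine hI ?_
  unfold mn
  refine Matrix.det_eq_zero_of_row_eq_zero 0 fun j => ?_
  show E 0 (I j) = 0
  rw [h0, Pi.zero_apply]

/-- The numerical part of the step. -/
theorem M5_num {c : ℕ} (N W1 cc e Nf Nf' D1 D2 : ℝ) (α : Fin c → ℕ) (W W' : ℕ → ℝ) (d : ℕ)
    (hN : 0 ≤ N) (hW1 : 0 ≤ W1) (hcc : 1 ≤ cc) (he : 0 ≤ e) (hW : ∀ k, 0 ≤ W k)
    (hW' : ∀ k, 0 ≤ W' k) (hd : ∑ k, α k ≤ d) (hD1 : 0 ≤ D1)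
    (h1 : ∀ k : Fin c, W (k + 2) ≤ cc * (e * W' (k + 1)))
    (h2 : ∀ k : Fin c, e * W' k ≤ W (k + 1))
    (h3 : N * ∏ k : Fin c, W' (k + 1) ^ α k ≤ D1 * Nf' * ∏ k : Fin c, W' k ^ α k)
    (h4 : Nf' * W1 ≤ D2 * Nf) (hNf' : 0 ≤ Nf') :
    N * (W1 * ∏ k : Fin c, W (k + 2) ^ α k) ≤
      (D1 * D2 * cc ^ d) * Nf * ∏ k : Fin c, W (k + 1) ^ α k := by
  have hcc0 : 0 ≤ cc := zero_le_one.trans hcc
  have a1 : ∏ k : Fin c, W (k + 2) ^ α k ≤
      (∏ k : Fin c, W' (k + 1) ^ α k) * ((∏ k : Fin c, cc ^ α k) * ∏ k : Fin c, e ^ α k) := by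
    rw [← Finset.prod_mul_distrib, ← Finset.prod_mul_distrib]
    refine Finset.prod_le_prod (fun k _ => pow_nonneg (hW _) _) fun k _ => ?_
    refine (pow_le_pow_left₀ (hW _) (h1 k) _).trans (le_of_eq ?_)
    rw [mul_pow, mul_pow]
    ring
  have a2 : (∏ k : Fin c, W' k ^ α k) * ∏ k : Fin c, e ^ α k ≤ ∏ k : Fin c, W (k + 1) ^ α k := by
    rw [← Finset.prod_mul_distrib]
    refine Finset.prod_le_prod (fun k _ => mul_nonneg (pow_nonneg (hW' _) _) (pow_nonneg he _))
      fun k _ => ?_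
    rw [← mul_pow]
    refine pow_le_pow_left₀ (mul_nonneg (hW' _) he) ?_ _
    rw [mul_comm]
    exact h2 k
  have a3 : ∏ k : Fin c, cc ^ α k ≤ cc ^ d := by
    rw [Finset.prod_pow_eq_pow_sum]
    exact pow_le_pow_right₀ hcc hd
  have p1 : 0 ≤ ∏ k : Fin c, cc ^ α k := Finset.prod_nonneg fun k _ => pow_nonneg hcc0 _
  have p2 : 0 ≤ ∏ k : Fin c, e ^ α k := Finset.prod_nonneg fun k _ => pow_nonneg he _
  have p3 : 0 ≤ ∏ k : Fin c, W' k ^ α k := Finset.prod_nonneg fun k _ => pow_nonneg (hW' _) _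
  have p4 : 0 ≤ ∏ k : Fin c, W (k + 1) ^ α k := Finset.prod_nonneg fun k _ => pow_nonneg (hW _) _
  calc N * (W1 * ∏ k : Fin c, W (k + 2) ^ α k)
      ≤ N * (W1 * ((∏ k : Fin c, W' (k + 1) ^ α k) *
          ((∏ k : Fin c, cc ^ α k) * ∏ k : Fin c, e ^ α k))) := by
        exact mul_le_mul_of_nonneg_left (mul_le_mul_of_nonneg_left a1 hW1) hN
    _ = (N * ∏ k : Fin c, W' (k + 1) ^ α k) * (W1 * ((∏ k : Fin c, cc ^ α k) *
          ∏ k : Fin c, e ^ α k)) := by ring
    _ ≤ (D1 * Nf' * ∏ k : Fin c, W' k ^ α k) * (W1 * ((∏ k : Fin c, cc ^ α k) *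
          ∏ k : Fin c, e ^ α k)) := by
        exact mul_le_mul_of_nonneg_right h3 (mul_nonneg hW1 (mul_nonneg p1 p2))
    _ = (D1 * (Nf' * W1)) * (∏ k : Fin c, cc ^ α k) *
          ((∏ k : Fin c, W' k ^ α k) * ∏ k : Fin c, e ^ α k) := by ring
    _ ≤ (D1 * (D2 * Nf)) * cc ^ d * ∏ k : Fin c, W (k + 1) ^ α k := by
        have b1 : D1 * (Nf' * W1) ≤ D1 * (D2 * Nf) := mul_le_mul_of_nonneg_left h4 hD1
        have b0 : 0 ≤ D1 * (Nf' * W1) := mul_nonneg hD1 (mul_nonneg hNf' hW1)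
        exact mul_le_mul (mul_le_mul b1 a3 p1 (b0.trans b1)) a2 (mul_nonneg p3 p2)
          (mul_nonneg (b0.trans b1) (pow_nonneg hcc0 _))
    _ = (D1 * D2 * cc ^ d) * Nf * ∏ k : Fin c, W (k + 1) ^ α k := by ring

theorem SB {L : Type*} [Field L] [NumberField L] (τ : Type*) [Fintype τ] (n c₀ : ℕ) :
    ∀ c ≤ c₀, ∀ Q : MvPolynomial (Fin c) (MvPolynomial τ L), Q ≠ 0 →
      ∃ α : Fin c →₀ ℕ, coeff α Q ≠ 0 ∧
        ∀ E : ℕ → Fin n → L, (∃ I, mn (tk E c) I ≠ 0) →
          sb τ c E Q ≠ 0 ∧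
          (∑ k, α k) + (coeff α Q).totalDegree ≤ (sb τ c E Q).totalDegree ∧
          ∀ v : AbsoluteValue L ℝ, Pl v →
            NV v (coeff α Q) * ∏ k : Fin c, wv v E (k + 1) ^ α k ≤
              cst v ((4 ^ (n + Fintype.card τ) * n ^ n * c₀) ^ c) ^ (sb τ c E Q).totalDegree *
                NV v (sb τ c E Q) * ∏ k : Fin c, wv v E k ^ α k := by
  intro c
  induction c with
  | zero =>
    intro _ Q hQ
    have hQ0 : coeff 0 Q ≠ 0 := by
      intro h0
      refine hQ ?_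
      rw [eq_C_of_isEmpty Q, h0, map_zero]
    refine ⟨0, hQ0, fun E _ => ?_⟩
    have hinj : Function.Injective (Sum.inr : τ → Fin n ⊕ τ) := Sum.inr_injective
    rw [sb_zero]
    refine ⟨?_, ?_, ?_⟩
    · intro h0
      refine hQ0 (rename_injective _ hinj ?_)
      rw [h0, map_zero]
    · simp only [Finset.univ_eq_empty, Finset.sum_empty, zero_add]
      exact M5_rename_deg _ hinj _
    · intro v hv
      simp only [Finset.univ_eq_empty, Finset.prod_empty, mul_one, pow_zero, cst_one, one_pow,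
        one_mul]
      rw [NV_rename v _ _ hinj]
  | succ c ih =>
    intro hc Q hQ
    obtain ⟨α₀, Q₁, Q', hQQ, hQ', hsp, hco⟩ := exists_split c Q hQ
    obtain ⟨α', hα', hE'⟩ := ih (by omega) Q' hQ'
    refine ⟨α'.cons α₀, ?_, fun E hE => ?_⟩
    · rw [← hco]
      exact hα'
    set ℓ : MvPolynomial (Fin n ⊕ τ) L := ∑ b, C (E 0 b) * X (Sum.inl b) with hℓ
    set f₁ := sb τ (c + 1) E Q₁ with hf₁
    have hf : sb τ (c + 1) E Q = ℓ ^ α₀ * f₁ := by
      rw [hQQ, sb_mul]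
    have hE0 : E 0 ≠ 0 := M5_row E c hE
    have hps : ∀ b, E 0 b ≠ 0 → sb τ c (el b E) Q' = ps τ b E f₁ := by
      intro b hb
      rw [hf₁, sb_split τ c E b hb, hsp]
    obtain ⟨b₀, hb₀⟩ : ∃ b, E 0 b ≠ 0 := by
      by_contra hcon
      push Not at hcon
      exact hE0 (funext hcon)
    have hf1 : f₁ ≠ 0 := by
      intro h0
      refine (hE' (el b₀ E) (el_ind E b₀ c hE)).1 ?_
      rw [hps b₀ hb₀, h0, map_zero]
    have hds := deg_split τ (E 0) hE0 f₁ hf1 α₀
    have hℓ0 : ℓ ≠ 0 := hds.1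
    have hsum : ∑ k, (α'.cons α₀) k = α₀ + ∑ k, α' k := by
      rw [Fin.sum_univ_succ, Finsupp.cons_zero]
      refine congrArg (α₀ + ·) (Finset.sum_congr rfl fun k _ => ?_)
      rw [Finsupp.cons_succ]
    have hcoef : coeff (α'.cons α₀) Q = coeff α' Q' := (hco α').symm
    have hdeg : ∀ b, E 0 b ≠ 0 → (sb τ c (el b E) Q').totalDegree ≤ f₁.totalDegree := by
      intro b hb
      rw [hps b hb]
      exact ps_totalDegree τ b E f₁
    have hdf : (sb τ (c + 1) E Q).totalDegree = α₀ + f₁.totalDegree := by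
      rw [hf]
      exact hds.2
    refine ⟨?_, ?_, ?_⟩
    · rw [hf]
      exact mul_ne_zero (pow_ne_zero _ hℓ0) hf1
    · rw [hdf, hsum, hcoef]
      have h1 := (hE' (el b₀ E) (el_ind E b₀ c hE)).2.1
      have h2 := hdeg b₀ hb₀
      omega
    · intro v hv
      obtain ⟨b, hb⟩ : ∃ b, ∀ a, v (E 0 a) ≤ v (E 0 b) := by
        have : Nonempty (Fin n) := ⟨b₀⟩
        exact Finite.exists_max fun a => v (E 0 a)
      have hb0 : E 0 b ≠ 0 := by
        intro h0
        have h1 := hb b₀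
        rw [h0, map_zero] at h1
        exact hb₀ (v.eq_zero.mp (le_antisymm h1 (v.nonneg _)))
      have hn : 1 ≤ n := by
        have := b.2
        omega
      obtain ⟨hs1, hs2, hs3⟩ := hE' (el b E) (el_ind E b c hE)
      have h3 := hs3 v hv
      set d := (sb τ (c + 1) E Q).totalDegree with hd
      set f' := sb τ c (el b E) Q' with hf'
      have hd' : f'.totalDegree ≤ d := by
        rw [hdf]
        exact (hdeg b hb0).trans (Nat.le_add_left _ _)
      have hd1 : f₁.totalDegree ≤ d := by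
        rw [hdf]
        exact Nat.le_add_left _ _
      have hαd : ∑ k, α' k ≤ d := by
        have : ∑ k, α' k ≤ f'.totalDegree := le_trans (Nat.le_add_right _ _) hs2
        exact this.trans hd'
      rw [hcoef, Fin.prod_univ_succ, Fin.prod_univ_succ (fun k : Fin (c + 1) => wv v E k ^ _)]
      simp only [Finsupp.cons_zero, Finsupp.cons_succ, Fin.val_zero, Fin.val_succ, zero_add,
        wv_zero, one_pow, one_mul]
      have hB : cst v ((4 ^ (n + Fintype.card τ) * n ^ n * c₀) ^ (c + 1)) ^ d =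
          cst v ((4 ^ (n + Fintype.card τ) * n ^ n * c₀) ^ c) ^ d *
            (cst v n ^ (n * d) * cst v 4 ^ ((n + Fintype.card τ) * d)) * cst v c₀ ^ d := by
        simp only [cst_pow, cst_mul, pow_succ, mul_pow, pow_mul]
        ring
      rw [hB]
      have hcard : Fintype.card (Fin n ⊕ τ) = n + Fintype.card τ := by
        rw [Fintype.card_sum, Fintype.card_fin]
      have hbase : 1 ≤ cst v ((4 ^ (n + Fintype.card τ) * n ^ n * c₀) ^ c) := by
        refine one_le_cst v (Nat.one_le_pow _ _ ?_)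
        have : 0 < c₀ := by omega
        positivity
      have h4 : NV v f' * wv v E 1 ^ α₀ ≤
          cst v n ^ (n * d) * cst v 4 ^ ((n + Fintype.card τ) * d) *
            NV v (sb τ (c + 1) E Q) := by
        have c1 : NV v f' ≤ cst v n ^ (n * d) * NV v f₁ := by
          rw [hf', hps b hb0]
          refine (ps_NV v τ b E hb f₁).trans ?_
          refine mul_le_mul_of_nonneg_right ?_ (A2_nonneg v _)
          exact pow_le_pow_right₀ (one_le_cst v hn) (Nat.mul_le_mul_left _ hd1)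
        have c2 : wv v E 1 ^ α₀ * NV v f₁ ≤
            cst v 4 ^ ((n + Fintype.card τ) * d) * NV v (sb τ (c + 1) E Q) := by
          refine (mul_le_mul_of_nonneg_right (pow_le_pow_left₀ (wv_nonneg v E 1)
            (wv_one_le v E τ) α₀) (A2_nonneg v f₁)).trans ?_
          refine (gel hv ℓ f₁ hℓ0 hf1 α₀).trans (le_of_eq ?_)
          rw [← hf, hcard]
        calc NV v f' * wv v E 1 ^ α₀ ≤ (cst v n ^ (n * d) * NV v f₁) * wv v E 1 ^ α₀ :=
              mul_le_mul_of_nonneg_right c1 (pow_nonneg (wv_nonneg v E 1) _)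
          _ = cst v n ^ (n * d) * (wv v E 1 ^ α₀ * NV v f₁) := by ring
          _ ≤ cst v n ^ (n * d) * (cst v 4 ^ ((n + Fintype.card τ) * d) *
                NV v (sb τ (c + 1) E Q)) :=
              mul_le_mul_of_nonneg_left c2 (pow_nonneg (cst_nonneg v n) _)
          _ = _ := by ring
      have h3' : NV v (coeff α' Q') * ∏ k : Fin c, wv v (el b E) (k + 1) ^ α' k ≤
          cst v ((4 ^ (n + Fintype.card τ) * n ^ n * c₀) ^ c) ^ d * NV v f' *
            ∏ k : Fin c, wv v (el b E) k ^ α' k := by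
        refine h3.trans ?_
        refine mul_le_mul_of_nonneg_right (mul_le_mul_of_nonneg_right ?_ (A2_nonneg v _))
          (Finset.prod_nonneg fun k _ => pow_nonneg (wv_nonneg v _ _) _)
        exact pow_le_pow_right₀ hbase hd'
      exact M5_num (NV v (coeff α' Q')) (wv v E 1 ^ α₀) (cst v c₀) (v (E 0 b))
        (NV v (sb τ (c + 1) E Q)) (NV v f') _ _ (fun k => α' k) (fun k => wv v E k)
        (fun k => wv v (el b E) k) d (A2_nonneg v _) (pow_nonneg (wv_nonneg v E 1) _)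
        (one_le_cst v (by omega)) (v.nonneg _) (fun k => wv_nonneg v E k)
        (fun k => wv_nonneg v _ k) hαd (pow_nonneg (cst_nonneg v _) _)
        (fun k => (wv_succ_le v E b hb (k + 1)).trans (mul_le_mul_of_nonneg_right
          (cst_mono v (by have := k.2; omega)) (mul_nonneg (v.nonneg _) (wv_nonneg v _ _))))
        (fun k => le_wv_succ v E b hb0 k) h3' h4 (A2_nonneg v _)

end Pool.Agent.Lib.MP_17a322_nt.VA
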