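import Pool.Agent.Lib.MP_17a322_nt.VA.M1

/-!
Blocks: splitting off the block 0, and homogeneity through a right inverse.
-/

universe u

namespace Pool.Agent.Lib.MP_17a322_nt.VA

open MvPolynomial Height
open Pool.Agent.Lib.MP_17a322_nt.RO
open Pool.Agent.Lib.MP_17a322_nt.VJ
open Pool.Agent.Lib.MP_17a322_nt.VN

/-- The block `0` and the other blocks. -/
def sp (m c : ℕ) (p : Fin (m + 1) × Fin c) : Fin c ⊕ (Fin m × Fin c) :=
  Fin.cases (motive := fun _ => Fin c ⊕ (Fin m × Fin c)) (Sum.inl p.2)
    (fun i => Sum.inr (i, p.2)) p.1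

/-- The exponent with the given parts. -/
noncomputable def gl {m c : ℕ} (α : Fin c →₀ ℕ) (β : Fin m × Fin c →₀ ℕ) :
    Fin (m + 1) × Fin c →₀ ℕ :=
  Finsupp.equivFunOnFinite.symm fun p =>
    Fin.cases (motive := fun _ => ℕ) (α p.2) (fun i => β (i, p.2)) p.1

/-- The substitution in all blocks. -/
noncomputable def sbm {L : Type*} [Field L] {m n : ℕ} (c : ℕ) (E : Fin m → ℕ → Fin n → L) :
    MvPolynomial (Fin m × Fin c) L →ₐ[L] MvPolynomial (Fin m × Fin n) L :=
  aeval (fun p : Fin m × Fin c => ∑ b, C (E p.1 p.2 b) * X (p.1, b))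

theorem M6_sp_zero (m c : ℕ) (r : Fin c) : sp m c (0, r) = Sum.inl r := rfl

theorem M6_sp_succ (m c : ℕ) (i : Fin m) (r : Fin c) : sp m c (i.succ, r) = Sum.inr (i, r) := rfl

/-- The polynomial `Q` as a polynomial in the block `0`. -/
noncomputable def M6_q {L : Type*} [Field L] (m c : ℕ) :
    MvPolynomial (Fin (m + 1) × Fin c) L →ₐ[L]
      MvPolynomial (Fin c) (MvPolynomial (Fin m × Fin c) L) :=
  aeval (fun p : Fin (m + 1) × Fin c =>
    Fin.cases (motive := fun _ => MvPolynomial (Fin c) (MvPolynomial (Fin m × Fin c) L))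
      (X p.2) (fun i => C (X (i, p.2))) p.1)

theorem M6_gl {m c : ℕ} (α : Fin c →₀ ℕ) (β : Fin m × Fin c →₀ ℕ)
    (u : Fin (m + 1) × Fin c →₀ ℕ) :
    u = gl α β ↔ Finsupp.equivFunOnFinite.symm (fun r => u (0, r)) = α ∧
      Finsupp.equivFunOnFinite.symm (fun q : Fin m × Fin c => u (q.1.succ, q.2)) = β := by
  constructor
  · rintro rfl
    exact ⟨Finsupp.ext fun r => rfl, Finsupp.ext fun q => rfl⟩
  · rintro ⟨rfl, rfl⟩
    refine Finsupp.ext fun p => ?_
    obtain ⟨i, r⟩ := p
    induction i using Fin.cases with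
    | zero => rfl
    | succ i => rfl

theorem M6_monomial {L : Type*} [Field L] {m : ℕ} (c : ℕ) (u : Fin (m + 1) × Fin c →₀ ℕ) (a : L) :
    M6_q m c (monomial u a) =
      monomial (Finsupp.equivFunOnFinite.symm fun r => u (0, r))
        (monomial (Finsupp.equivFunOnFinite.symm fun q : Fin m × Fin c => u (q.1.succ, q.2)) a) := by
  have h1 : ∀ (σ R : Type _) [Fintype σ] [CommRing R] (w : σ →₀ ℕ) (b : R),
      monomial w b = C b * ∏ r, (X r : MvPolynomial σ R) ^ w r := by
    intro σ R _ _ w b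
    rw [monomial_eq, Finsupp.prod_fintype _ _ fun i => pow_zero _]
  rw [h1 (Fin c) (MvPolynomial (Fin m × Fin c) L), h1 (Fin m × Fin c) L]
  unfold M6_q
  rw [aeval_monomial, Finsupp.prod_fintype _ _ fun i => pow_zero _, Fintype.prod_prod_type,
    Fin.prod_univ_succ, C_mul, map_prod, Fintype.prod_prod_type]
  have e1 : ∀ i r, (C ((X (i, r) : MvPolynomial (Fin m × Fin c) L) ^
      (Finsupp.equivFunOnFinite.symm fun q : Fin m × Fin c => u (q.1.succ, q.2)) (i, r)) :
        MvPolynomial (Fin c) (MvPolynomial (Fin m × Fin c) L)) =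
      C (X (i, r)) ^ u (i.succ, r) := fun i r => C_pow _ _
  simp only [e1]
  rw [mul_assoc]
  refine congrArg₂ (· * ·) rfl ?_
  rw [mul_comm]
  rfl

theorem M6_coeff {L : Type*} [Field L] {m : ℕ} (c : ℕ)
    (Q : MvPolynomial (Fin (m + 1) × Fin c) L) (α : Fin c →₀ ℕ) (β : Fin m × Fin c →₀ ℕ) :
    coeff β (coeff α (M6_q m c Q)) = coeff (gl α β) Q := by
  classical
  induction Q using MvPolynomial.induction_on' with
  | monomial u a =>
    rw [M6_monomial, coeff_monomial, coeff_monomial]
    by_cases h : u = gl α β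
    · obtain ⟨h1, h2⟩ := (M6_gl α β u).1 h
      rw [if_pos h, if_pos h1, coeff_monomial, if_pos h2]
    · rw [if_neg h]
      by_cases h1 : Finsupp.equivFunOnFinite.symm (fun r => u (0, r)) = α
      · rw [if_pos h1, coeff_monomial, if_neg fun h2 => h ((M6_gl α β u).2 ⟨h1, h2⟩)]
      · rw [if_neg h1, coeff_zero]
  | add p q hp hq =>
    rw [map_add, coeff_add, coeff_add, coeff_add, hp, hq]

theorem sp_injective (m c : ℕ) : Function.Injective (sp m c) := by
  rintro ⟨i, r⟩ ⟨j, s⟩ h
  induction i using Fin.cases with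
  | zero =>
    induction j using Fin.cases with
    | zero =>
      rw [M6_sp_zero, M6_sp_zero] at h
      rw [Sum.inl.inj h]
    | succ j =>
      rw [M6_sp_zero, M6_sp_succ] at h
      exact absurd h Sum.inl_ne_inr
  | succ i =>
    induction j using Fin.cases with
    | zero =>
      rw [M6_sp_zero, M6_sp_succ] at h
      exact absurd h Sum.inr_ne_inl
    | succ j =>
      rw [M6_sp_succ, M6_sp_succ] at h
      have h1 : (i, r) = (j, s) := Sum.inr.inj h
      rw [Prod.mk.injEq] at h1
      rw [h1.1, h1.2]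

theorem exists_blockM {L : Type*} [Field L] {m n : ℕ} (c : ℕ)
    (Q : MvPolynomial (Fin (m + 1) × Fin c) L) :
    ∃ Qh : MvPolynomial (Fin c) (MvPolynomial (Fin m × Fin c) L),
      (∀ α β, coeff β (coeff α Qh) = coeff (gl α β) Q) ∧
      ∀ E : Fin (m + 1) → ℕ → Fin n → L,
        sb (Fin m × Fin n) c (E 0) (map (sbm c fun i => E i.succ).toRingHom Qh) =
          rename (sp m n) (sbm c E Q) := by
  refine ⟨M6_q m c Q, M6_coeff c Q, fun E => ?_⟩
  induction Q using MvPolynomial.induction_on with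
  | C a =>
    have e1 : M6_q (L := L) m c (C a) = C (C a) := by
      unfold M6_q
      rw [aeval_C]
      rfl
    have e2 : sbm c (fun i => E (Fin.succ i)) (C a) = C a := by
      unfold sbm
      rw [aeval_C]
      rfl
    have e3 : sbm c E (C a) = C a := by
      unfold sbm
      rw [aeval_C]
      rfl
    have e4 : (sbm c fun i => E (Fin.succ i)).toRingHom (C a) = C a := e2
    rw [e1, e3, map_C, e4, rename_C]
    unfold sb
    rw [eval₂Hom_C]
    exact rename_C _ _
  | add p q hp hq =>
    rw [map_add, map_add, map_add, map_add, map_add, hp, hq]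
  | mul_X p q hp =>
    have hX : sb (Fin m × Fin n) c (E 0) (map (sbm c fun i => E (Fin.succ i)).toRingHom
        (M6_q (L := L) m c (X q))) = rename (sp m n) (sbm c E (X q)) := by
      obtain ⟨i, r⟩ := q
      induction i using Fin.cases with
      | zero =>
        have e1 : M6_q (L := L) m c (X (0, r)) = X r := by
          unfold M6_q
          rw [aeval_X]
          rfl
        rw [e1, map_X]
        unfold sb sbm
        rw [eval₂Hom_X', aeval_X, map_sum]
        refine Finset.sum_congr rfl fun b _ => ?_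
        rw [map_mul, rename_C, rename_X, M6_sp_zero]
      | succ i =>
        have e1 : M6_q (L := L) m c (X (i.succ, r)) = C (X (i, r)) := by
          unfold M6_q
          rw [aeval_X]
          rfl
        have e2 : (sbm c fun i => E (Fin.succ i)).toRingHom (X (i, r)) =
            ∑ b, C (E i.succ r b) * X (i, b) := by
          change sbm c (fun i => E (Fin.succ i)) (X (i, r)) = _
          unfold sbm
          rw [aeval_X]
        rw [e1, map_C, e2]
        unfold sb sbm
        rw [eval₂Hom_C, aeval_X, map_sum, map_sum]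
        refine Finset.sum_congr rfl fun b _ => ?_
        change (rename (R := L) (Sum.inr : Fin m × Fin n → Fin n ⊕ (Fin m × Fin n)))
          (C (E i.succ r b) * X (i, b)) = _
        rw [map_mul, map_mul, rename_C, rename_C, rename_X, rename_X, M6_sp_succ]
    rw [map_mul, map_mul, map_mul, map_mul, map_mul, hp, hX]

theorem M6_inv {L : Type*} [Field L] {m n c : ℕ} (E : Fin m → ℕ → Fin n → L)
    (hE : ∀ i, ∃ I, mn (tk (E i) c) I ≠ 0) :
    ∃ G : Fin m → Fin n → Fin c → L, ∀ i (r r' : Fin c),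
      ∑ b, E i r b * G i b r' = if r = r' then 1 else 0 := by
  classical
  choose I hI using hE
  refine ⟨fun i b r' => ∑ s : Fin c, if I i s = b then
    (Matrix.of fun a b : Fin c => tk (E i) c a (I i b))⁻¹ s r' else 0, fun i r r' => ?_⟩
  have h1 : (Matrix.of fun a b : Fin c => tk (E i) c a (I i b)) *
      (Matrix.of fun a b : Fin c => tk (E i) c a (I i b))⁻¹ = 1 := by
    apply Matrix.mul_nonsing_inv
    exact (isUnit_iff_ne_zero.2 (hI i))
  have h2 := congrFun (congrFun h1 r) r'
  rw [Matrix.mul_apply, Matrix.one_apply] at h2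
  rw [← h2]
  simp only [Finset.mul_sum, mul_ite, mul_zero]
  rw [Finset.sum_comm]
  refine Finset.sum_congr rfl fun s _ => ?_
  rw [Finset.sum_ite_eq Finset.univ (I i s)]
  simp only [Finset.mem_univ, if_true]
  rfl

theorem M6_wt {m c : ℕ} (i : Fin m) (α : Fin m × Fin c →₀ ℕ) :
    Finsupp.weight (fun p : Fin m × Fin c => if p.1 = i then (1 : ℕ) else 0) α =
      ∑ r, α (i, r) := by
  classical
  have h0 : Finsupp.weight (fun p : Fin m × Fin c => if p.1 = i then (1 : ℕ) else 0) α =
      ∑ p : Fin m × Fin c, α p • (if p.1 = i then (1 : ℕ) else 0) := by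
    rw [Finsupp.weight_apply]
    exact Finsupp.sum_fintype _ _ (fun _ => by simp)
  rw [h0, Fintype.sum_prod_type, Finset.sum_eq_single i]
  · refine Finset.sum_congr rfl fun r _ => ?_
    simp only [if_true, smul_eq_mul, mul_one]
  · intro j _ hj
    refine Finset.sum_eq_zero fun r _ => ?_
    simp only [hj, if_false, smul_zero]
  · intro h
    exact absurd (Finset.mem_univ i) h

theorem Q_hom {L : Type*} [Field L] {m n c : ℕ} (E : Fin m → ℕ → Fin n → L)
    (hE : ∀ i, ∃ I, mn (tk (E i) c) I ≠ 0) (Q : MvPolynomial (Fin m × Fin c) L) (ρ : Fin m → ℕ)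
    (hf : ∀ u ∈ (sbm c E Q).support, ∀ i, ∑ b, u (i, b) = ρ i) :
    ∀ α ∈ Q.support, ∀ i, ∑ r, α (i, r) = ρ i := by
  classical
  obtain ⟨G, hG⟩ := M6_inv E hE
  obtain ⟨σ, hσ⟩ : ∃ σ : MvPolynomial (Fin m × Fin n) L →ₐ[L] MvPolynomial (Fin m × Fin c) L,
      σ = aeval (fun p : Fin m × Fin n => ∑ r, C (G p.1 p.2 r) * X (p.1, r)) := ⟨_, rfl⟩
  have hX : ∀ p : Fin m × Fin n, σ (X p) = ∑ r, C (G p.1 p.2 r) * X (p.1, r) := fun p => by
    rw [hσ, aeval_X]
  have hC : ∀ a : L, σ (C a) = C a := fun a => by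
    rw [hσ, aeval_C]
    rfl
  have hid : σ.comp (sbm c E) = AlgHom.id L _ := by
    apply MvPolynomial.algHom_ext
    rintro ⟨i, r⟩
    rw [AlgHom.comp_apply, sbm, aeval_X, AlgHom.id_apply, map_sum]
    have h1 : ∀ b : Fin n, σ (C (E i r b) * X (i, b)) =
        ∑ r', C (E i r b * G i b r') * X (i, r') := by
      intro b
      rw [map_mul, hC, hX, Finset.mul_sum]
      refine Finset.sum_congr rfl fun r' _ => ?_
      rw [C_mul, mul_assoc]
    rw [Finset.sum_congr rfl (fun b _ => h1 b), Finset.sum_comm]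
    have h2 : ∀ r' : Fin c, ∑ b, C (E i r b * G i b r') * X (i, r') =
        if r = r' then (X (i, r') : MvPolynomial (Fin m × Fin c) L) else 0 := by
      intro r'
      rw [← Finset.sum_mul, ← map_sum, hG i r r']
      by_cases h : r = r'
      · rw [if_pos h, if_pos h, C_1, one_mul]
      · rw [if_neg h, if_neg h, C_0, zero_mul]
    rw [Finset.sum_congr rfl (fun r' _ => h2 r'), Finset.sum_ite_eq Finset.univ r]
    simp only [Finset.mem_univ, if_true]
  have hQ : σ (sbm c E Q) = Q := by
    rw [← AlgHom.comp_apply, hid, AlgHom.id_apply]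
  intro α hα i
  have hwt : IsWeightedHomogeneous (fun p : Fin m × Fin c => if p.1 = i then (1 : ℕ) else 0) Q
      (ρ i) := by
    rw [← hQ, (sbm c E Q).as_sum, map_sum]
    refine IsWeightedHomogeneous.sum _ _ _ fun u hu => ?_
    rw [hσ, aeval_monomial, Finsupp.prod_fintype _ _ (fun _ => pow_zero _)]
    have h3 : (algebraMap L (MvPolynomial (Fin m × Fin c) L)) (coeff u (sbm c E Q)) =
        C (coeff u (sbm c E Q)) := rfl
    rw [h3]
    apply IsWeightedHomogeneous.C_mul
    have h4 : ρ i = ∑ p : Fin m × Fin n, u p • (if p.1 = i then (1 : ℕ) else 0) := by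
      rw [← hf u hu i, Fintype.sum_prod_type, Finset.sum_eq_single i]
      · refine Finset.sum_congr rfl fun r _ => ?_
        simp only [if_true, smul_eq_mul, mul_one]
      · intro j _ hj
        refine Finset.sum_eq_zero fun r _ => ?_
        simp only [hj, if_false, smul_zero]
      · intro h
        exact absurd (Finset.mem_univ i) h
    rw [h4]
    refine IsWeightedHomogeneous.prod _ _ _ fun p _ => ?_
    apply IsWeightedHomogeneous.pow
    refine IsWeightedHomogeneous.sum _ _ _ fun r _ => ?_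
    apply IsWeightedHomogeneous.C_mul
    exact isWeightedHomogeneous_X L (fun p : Fin m × Fin c => if p.1 = i then (1 : ℕ) else 0)
      (p.1, r)
  rw [← M6_wt i α]
  exact hwt (mem_support_iff.1 hα)

end Pool.Agent.Lib.MP_17a322_nt.VA
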