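import Pool.Agent.Lib.MP_17a322_nt.VA.M5
import Pool.Agent.Lib.MP_17a322_nt.VA.M6

/-!
Several blocks: induction on the number of blocks.
-/

universe u

namespace Pool.Agent.Lib.MP_17a322_nt.VA

open MvPolynomial Height
open Pool.Agent.Lib.MP_17a322_nt.RO
open Pool.Agent.Lib.MP_17a322_nt.VJ
open Pool.Agent.Lib.MP_17a322_nt.VN

theorem one_le_MB (n m₀ c m : ℕ) :
    1 ≤ ((4 ^ (n + m₀ * n) * n ^ n * c) ^ c) ^ m := by
  rcases Nat.eq_zero_or_pos c with rfl | hc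
  · rw [pow_zero, one_pow]
  · have h1 : 1 ≤ n ^ n := by
      rcases Nat.eq_zero_or_pos n with rfl | hn
      · norm_num
      · exact Nat.one_le_pow _ _ hn
    have h2 : 1 ≤ 4 ^ (n + m₀ * n) := Nat.one_le_pow _ _ (by norm_num)
    have h3 : 1 ≤ 4 ^ (n + m₀ * n) * n ^ n * c := Nat.mul_pos (Nat.mul_pos h2 h1) hc
    exact Nat.one_le_pow _ _ (Nat.one_le_pow _ _ h3)

theorem M7_prod {m c : ℕ} (α₀ : Fin c →₀ ℕ) (β : Fin m × Fin c →₀ ℕ)
    (x : Fin (m + 1) × Fin c → ℝ) :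
    ∏ p : Fin (m + 1) × Fin c, x p ^ gl α₀ β p =
      (∏ k, x (0, k) ^ α₀ k) * ∏ p : Fin m × Fin c, x (p.1.succ, p.2) ^ β p := by
  rw [Fintype.prod_prod_type, Fin.prod_univ_succ, Fintype.prod_prod_type]
  rfl

theorem MB {L : Type*} [Field L] [NumberField L] (n c m₀ : ℕ) :
    ∀ m ≤ m₀, ∀ (E : Fin m → ℕ → Fin n → L), (∀ i, ∃ I, mn (tk (E i) c) I ≠ 0) →
      ∀ Q : MvPolynomial (Fin m × Fin c) L, sbm c E Q ≠ 0 →
        ∃ α : Fin m × Fin c →₀ ℕ, coeff α Q ≠ 0 ∧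
          ∀ v : AbsoluteValue L ℝ, Pl v →
            v (coeff α Q) * ∏ p : Fin m × Fin c, wv v (E p.1) (p.2 + 1) ^ α p ≤
              cst v (((4 ^ (n + m₀ * n) * n ^ n * c) ^ c) ^ m) ^ (sbm c E Q).totalDegree *
                NV v (sbm c E Q) * ∏ p : Fin m × Fin c, wv v (E p.1) p.2 ^ α p := by
  intro m
  induction m with
  | zero =>
    intro _ E hE Q hQ
    have hQC : Q = C (coeff 0 Q) := eq_C_of_isEmpty Q
    refine ⟨0, ?_, ?_⟩
    · intro h0
      rw [h0, map_zero] at hQC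
      exact hQ (by rw [hQC, map_zero])
    · intro v hv
      have h1 : sbm c E Q = C (coeff 0 Q) := by
        conv_lhs => rw [hQC]
        unfold sbm
        rw [aeval_C]
        rfl
      rw [h1, NV_C, pow_zero, cst_one, one_pow, one_mul, Finset.univ_eq_empty,
        Finset.prod_empty, Finset.prod_empty]
  | succ m ih =>
    intro hm E hE Q hQ
    obtain ⟨Qh, hQh1, hQh2⟩ := exists_blockM (n := n) c Q
    have hid := hQh2 E
    obtain ⟨Qt, hQtdef⟩ : ∃ Qt, Qt = map (sbm c fun i => E i.succ).toRingHom Qh := ⟨_, rfl⟩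
    rw [← hQtdef] at hid
    have hQt : Qt ≠ 0 := by
      intro h
      rw [h, map_zero] at hid
      have h1 : rename (sp m n) (sbm c E Q) = rename (sp m n) 0 := by rw [← hid, map_zero]
      exact hQ (rename_injective (sp m n) (sp_injective m n) h1)
    obtain ⟨α₀, hα₀, hSB⟩ := SB (Fin m × Fin n) n c c le_rfl Qt hQt
    obtain ⟨-, hdeg, hest⟩ := hSB (E 0) (hE 0)
    have hφ : coeff α₀ Qt = sbm c (fun i => E i.succ) (coeff α₀ Qh) := by
      rw [hQtdef, coeff_map]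
      rfl
    obtain ⟨β, hβ, hIH⟩ := ih (by omega) (fun i => E i.succ) (fun i => hE i.succ)
      (coeff α₀ Qh) (by rw [← hφ]; exact hα₀)
    refine ⟨gl α₀ β, ?_, ?_⟩
    · rw [← hQh1]
      exact hβ
    · intro v hv
      have h1 := hIH v hv
      have h2 := hest v hv
      rw [hid, NV_rename v _ _ (sp_injective m n)] at h2
      rw [hid] at hdeg
      rw [← hφ] at h1
      rw [← hQh1, M7_prod, M7_prod]
      have hD : (rename (sp m n) (sbm c E Q)).totalDegree ≤ (sbm c E Q).totalDegree :=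
        totalDegree_rename_le _ _
      obtain ⟨D, hDdef⟩ : ∃ D, D = (rename (sp m n) (sbm c E Q)).totalDegree := ⟨_, rfl⟩
      obtain ⟨d, hd⟩ : ∃ d, d = (sbm c E Q).totalDegree := ⟨_, rfl⟩
      obtain ⟨d', hd'⟩ : ∃ d', d' = (coeff α₀ Qt).totalDegree := ⟨_, rfl⟩
      rw [← hDdef] at h2 hdeg hD
      rw [← hd] at hD ⊢
      rw [← hd'] at h1 hdeg
      obtain ⟨A, hA⟩ : ∃ A, A = v (coeff β (coeff α₀ Qh)) := ⟨_, rfl⟩
      obtain ⟨Nf, hNf⟩ : ∃ Nf, Nf = NV v (coeff α₀ Qt) := ⟨_, rfl⟩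
      obtain ⟨N, hN⟩ : ∃ N, N = NV v (sbm c E Q) := ⟨_, rfl⟩
      rw [← hA] at h1 ⊢
      rw [← hNf] at h1 h2
      rw [← hN] at h2 ⊢
      change A * ((∏ k : Fin c, wv v (E 0) (k + 1) ^ α₀ k) *
        ∏ p : Fin m × Fin c, wv v (E p.1.succ) (p.2 + 1) ^ β p) ≤ _ *
        ((∏ k : Fin c, wv v (E 0) k ^ α₀ k) * ∏ p : Fin m × Fin c, wv v (E p.1.succ) p.2 ^ β p)
      obtain ⟨Z1, hZ1⟩ : ∃ Z1, Z1 = ∏ k : Fin c, wv v (E 0) (k + 1) ^ α₀ k := ⟨_, rfl⟩
      obtain ⟨Z0, hZ0⟩ : ∃ Z0, Z0 = ∏ k : Fin c, wv v (E 0) k ^ α₀ k := ⟨_, rfl⟩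
      obtain ⟨W1, hW1⟩ : ∃ W1, W1 = ∏ p : Fin m × Fin c, wv v (E p.1.succ) (p.2 + 1) ^ β p :=
        ⟨_, rfl⟩
      obtain ⟨W0, hW0⟩ : ∃ W0, W0 = ∏ p : Fin m × Fin c, wv v (E p.1.succ) p.2 ^ β p := ⟨_, rfl⟩
      rw [← hZ1] at h2 ⊢
      rw [← hZ0] at h2 ⊢
      rw [← hW1] at h1 ⊢
      rw [← hW0] at h1 ⊢
      have hZ1n : 0 ≤ Z1 := by
        rw [hZ1]
        exact Finset.prod_nonneg fun k _ => pow_nonneg (wv_nonneg v _ _) _
      have hZ0n : 0 ≤ Z0 := by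
        rw [hZ0]
        exact Finset.prod_nonneg fun k _ => pow_nonneg (wv_nonneg v _ _) _
      have hW0n : 0 ≤ W0 := by
        rw [hW0]
        exact Finset.prod_nonneg fun k _ => pow_nonneg (wv_nonneg v _ _) _
      have hNn : 0 ≤ N := by
        rw [hN]
        exact A2_nonneg v _
      have hK1 : 1 ≤ cst v (((4 ^ (n + m₀ * n) * n ^ n * c) ^ c) ^ m) :=
        one_le_cst v (one_le_MB n m₀ c m)
      have hB1 : 1 ≤ cst v ((4 ^ (n + m₀ * n) * n ^ n * c) ^ c) := by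
        have := one_le_MB n m₀ c 1
        rw [pow_one] at this
        exact one_le_cst v this
      have hBB : cst v ((4 ^ (n + Fintype.card (Fin m × Fin n)) * n ^ n * c) ^ c) ≤
          cst v ((4 ^ (n + m₀ * n) * n ^ n * c) ^ c) := by
        refine cst_mono v (Nat.pow_le_pow_left (Nat.mul_le_mul_right _ (Nat.mul_le_mul_right _
          (Nat.pow_le_pow_right (by norm_num) ?_))) _)
        rw [Fintype.card_prod, Fintype.card_fin, Fintype.card_fin]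
        exact Nat.add_le_add_left (Nat.mul_le_mul_right n (by omega)) n
      have hB0 : 0 ≤ cst v ((4 ^ (n + Fintype.card (Fin m × Fin n)) * n ^ n * c) ^ c) := by
        unfold cst
        split_ifs
        · exact zero_le_one
        · exact Nat.cast_nonneg _
      have hd'd : d' ≤ d := by omega
      have hDd : D ≤ d := hD
      obtain ⟨K, hKdef⟩ : ∃ K, K = cst v (((4 ^ (n + m₀ * n) * n ^ n * c) ^ c) ^ m) := ⟨_, rfl⟩
      obtain ⟨B, hBdef⟩ : ∃ B, B = cst v ((4 ^ (n + m₀ * n) * n ^ n * c) ^ c) := ⟨_, rfl⟩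
      obtain ⟨B', hB'def⟩ : ∃ B', B' =
        cst v ((4 ^ (n + Fintype.card (Fin m × Fin n)) * n ^ n * c) ^ c) := ⟨_, rfl⟩
      rw [pow_succ, cst_mul, ← hKdef, ← hBdef]
      rw [← hKdef] at h1 hK1
      rw [← hB'def] at h2 hBB hB0
      rw [← hBdef] at hBB hB1
      have hKd : K ^ d' ≤ K ^ d := pow_le_pow_right₀ hK1 hd'd
      have hBd : B' ^ D ≤ B ^ d :=
        (pow_le_pow_left₀ hB0 hBB D).trans (pow_le_pow_right₀ hB1 hDd)
      calc A * (Z1 * W1) = (A * W1) * Z1 := by ring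
        _ ≤ (K ^ d' * Nf * W0) * Z1 := mul_le_mul_of_nonneg_right h1 hZ1n
        _ = (K ^ d' * W0) * (Nf * Z1) := by ring
        _ ≤ (K ^ d' * W0) * (B' ^ D * N * Z0) :=
            mul_le_mul_of_nonneg_left h2 (mul_nonneg (pow_nonneg (by linarith) _) hW0n)
        _ = (K ^ d' * B' ^ D) * (N * Z0 * W0) := by ring
        _ ≤ (K ^ d * B ^ d) * (N * Z0 * W0) := by
            refine mul_le_mul_of_nonneg_right (mul_le_mul hKd hBd (pow_nonneg hB0 _)
              (pow_nonneg (by linarith) _)) (mul_nonneg (mul_nonneg hNn hZ0n) hW0n)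
        _ = (K * B) ^ d * N * (Z0 * W0) := by rw [mul_pow]; ring

end Pool.Agent.Lib.MP_17a322_nt.VA
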