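import Pool.Agent.Lib.MP_17a322_nt.Mb

/-!
A hypersurface model of a finite extension of an integrally closed domain.
-/

namespace Pool.Agent.Lib.MP_17a322_nt.VA

open Polynomial

theorem clear_denoms {P : Type*} [CommRing P] [IsDomain P] {ι : Type*} [Finite ι]
    (p : ι → (FractionRing P)[X]) : ∃ (d : P) (q : ι → P[X]), d ≠ 0 ∧
      ∀ j, (q j).map (algebraMap P (FractionRing P)) =
        Polynomial.C (algebraMap P (FractionRing P) d) * p j := by
  classical
  have := Fintype.ofFinite ι
  have h1 : ∀ j, ∃ (d : P) (q : P[X]), d ≠ 0 ∧ q.map (algebraMap P (FractionRing P)) =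
      Polynomial.C (algebraMap P (FractionRing P) d) * p j := by
    intro j
    obtain ⟨b, hb, h⟩ := IsLocalization.integerNormalization_spec (nonZeroDivisors P) (p j)
    refine ⟨b, IsLocalization.integerNormalization (nonZeroDivisors P) (p j),
      nonZeroDivisors.ne_zero hb, ?_⟩
    rw [h, ← IsScalarTower.algebraMap_smul (FractionRing P) b (p j), Polynomial.smul_eq_C_mul]
  choose d q hd hq using h1
  refine ⟨∏ j, d j, fun j => Polynomial.C (∏ i ∈ Finset.univ.erase j, d i) * q j,
    Finset.prod_ne_zero_iff.2 fun j _ => hd j, fun j => ?_⟩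
  rw [Polynomial.map_mul, Polynomial.map_C, hq, ← mul_assoc, ← Polynomial.C_mul, ← map_mul,
    Finset.prod_erase_mul _ _ (Finset.mem_univ j)]

/-- A hypersurface model. -/
theorem exists_prim {P F ι : Type*} [CommRing P] [IsDomain P] [IsIntegrallyClosed P] [CharZero P]
    [Field F] [Algebra P F] [FaithfulSMul P F] [Finite ι] (y : ι → F)
    (hy : ∀ i, IsIntegral P (y i)) :
    ∃ (θ : F) (Φ : P[X]) (p : ι → P[X]) (δ : P), θ ∈ Algebra.adjoin P (Set.range y) ∧ Φ.Monic ∧
      δ ≠ 0 ∧ aeval θ Φ = 0 ∧ (∀ j, algebraMap P F δ * y j = aeval θ (p j)) ∧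
      (∀ q : P[X], aeval θ q = 0 → Φ ∣ q) ∧ ∃ a b : P[X], a * Φ + b * derivative Φ = C δ := by
  classical
  let : Algebra (FractionRing P) F := FractionRing.liftAlgebra P F
  have : IsScalarTower P (FractionRing P) F := FractionRing.isScalarTower_liftAlgebra P F
  have : CharZero (FractionRing P) :=
    charZero_of_injective_algebraMap (FaithfulSMul.algebraMap_injective P (FractionRing P))
  have hint : ∀ i, IsIntegral (FractionRing P) (y i) := fun i => (hy i).tower_top
  set E : IntermediateField (FractionRing P) F :=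
    IntermediateField.adjoin (FractionRing P) (Set.range y) with hE
  have : FiniteDimensional (FractionRing P) E := by
    have : Finite (Set.range y) := Set.finite_range y
    refine IntermediateField.finiteDimensional_adjoin ?_
    rintro _ ⟨i, rfl⟩
    exact hint i
  obtain ⟨α, hα⟩ := Field.exists_primitive_element (FractionRing P) E
  have hαint : IsAlgebraic (FractionRing P) α := Algebra.IsAlgebraic.isAlgebraic α
  have hmem : ∀ i, ∃ r : (FractionRing P)[X], aeval (α : F) r = y i := by
    intro i
    have h1 : y i ∈ E := IntermediateField.subset_adjoin _ _ ⟨i, rfl⟩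
    have h2 : (⟨y i, h1⟩ : E) ∈ IntermediateField.adjoin (FractionRing P) {α} := by
      rw [hα]; trivial
    have h3 : (⟨y i, h1⟩ : E) ∈
        (IntermediateField.adjoin (FractionRing P) {α}).toSubalgebra := h2
    rw [IntermediateField.adjoin_simple_toSubalgebra_of_isAlgebraic hαint,
      Algebra.adjoin_singleton_eq_range_aeval] at h3
    obtain ⟨r, hr⟩ := h3
    refine ⟨r, ?_⟩
    have h4 := congrArg E.val hr
    have h5 : E.val (aeval α r) = aeval (α : F) r := by
      rw [← Polynomial.aeval_algHom_apply]
      rfl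
    exact h5.symm.trans h4
  have hden : ∀ x ∈ Algebra.adjoin (FractionRing P) (Set.range y), ∃ d : P, d ≠ 0 ∧
      algebraMap P F d * x ∈ Algebra.adjoin P (Set.range y) := by
    intro x hx
    refine Algebra.adjoin_induction ?_ ?_ ?_ ?_ hx
    · intro z hz
      exact ⟨1, one_ne_zero, by rw [map_one, one_mul]; exact Algebra.subset_adjoin hz⟩
    · intro r
      obtain ⟨a, b, hb, hab⟩ := IsFractionRing.div_surjective (A := P) r
      refine ⟨b, nonZeroDivisors.ne_zero hb, ?_⟩
      have hb' : algebraMap P F b ≠ 0 := by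
        rw [Ne, FaithfulSMul.algebraMap_eq_zero_iff]
        exact nonZeroDivisors.ne_zero hb
      rw [← hab, map_div₀, ← IsScalarTower.algebraMap_apply P (FractionRing P) F,
        ← IsScalarTower.algebraMap_apply P (FractionRing P) F, mul_div_cancel₀ _ hb']
      exact Subalgebra.algebraMap_mem _ a
    · rintro u v _ _ ⟨d, hd, hu⟩ ⟨d', hd', hv⟩
      refine ⟨d * d', mul_ne_zero hd hd', ?_⟩
      have h1 : algebraMap P F (d * d') * (u + v) =
          algebraMap P F d' * (algebraMap P F d * u) +
            algebraMap P F d * (algebraMap P F d' * v) := by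
        rw [map_mul]; ring
      rw [h1]
      exact add_mem (mul_mem (Subalgebra.algebraMap_mem _ _) hu)
        (mul_mem (Subalgebra.algebraMap_mem _ _) hv)
    · rintro u v _ _ ⟨d, hd, hu⟩ ⟨d', hd', hv⟩
      refine ⟨d * d', mul_ne_zero hd hd', ?_⟩
      have h1 : algebraMap P F (d * d') * (u * v) =
          (algebraMap P F d * u) * (algebraMap P F d' * v) := by
        rw [map_mul]; ring
      rw [h1]
      exact mul_mem hu hv
  have hαF : (α : F) ∈ Algebra.adjoin (FractionRing P) (Set.range y) := by
    have h1 : (α : F) ∈ (IntermediateField.adjoin (FractionRing P) (Set.range y)).toSubalgebra :=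
      α.2
    rw [IntermediateField.adjoin_toSubalgebra_of_isAlgebraic (S := Set.range y)] at h1
    · exact h1
    · rintro _ ⟨i, rfl⟩
      exact (hint i).isAlgebraic
  obtain ⟨d, hd, hdα⟩ := hden _ hαF
  set θ : F := algebraMap P F d * (α : F) with hθ
  have hdF : algebraMap P F d ≠ 0 := by rwa [Ne, FaithfulSMul.algebraMap_eq_zero_iff]
  have hθint : IsIntegral P θ := by
    have h1 : Algebra.adjoin P (Set.range y) ≤ integralClosure P F := by
      rw [Algebra.adjoin_le_iff]
      rintro _ ⟨i, rfl⟩
      exact hy i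
    exact h1 hdα
  have hθ' : ∀ i, ∃ r : (FractionRing P)[X], aeval θ r = y i := by
    intro i
    obtain ⟨r, hr⟩ := hmem i
    refine ⟨r.comp (C (algebraMap P (FractionRing P) d)⁻¹ * X), ?_⟩
    rw [aeval_comp, map_mul, aeval_C, aeval_X, map_inv₀,
      ← IsScalarTower.algebraMap_apply P (FractionRing P) F, hθ, inv_mul_cancel_left₀ hdF, hr]
  choose r hr using hθ'
  set Φ : P[X] := minpoly P θ with hΦ
  have hfr : minpoly (FractionRing P) θ = Φ.map (algebraMap P (FractionRing P)) :=
    minpoly.isIntegrallyClosed_eq_field_fractions' (FractionRing P) hθint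
  have hsep : (minpoly (FractionRing P) θ).Separable :=
    (minpoly.irreducible (hθint.tower_top)).separable
  obtain ⟨a, b, hab⟩ := hsep
  obtain ⟨δ₁, p, hδ₁, hp⟩ := clear_denoms r
  obtain ⟨δ₂, q, hδ₂, hq⟩ := clear_denoms ![a, b]
  have hinj : Function.Injective (Polynomial.map (algebraMap P (FractionRing P))) :=
    Polynomial.map_injective _ (FaithfulSMul.algebraMap_injective P (FractionRing P))
  have hae : ∀ s : P[X], aeval θ (s.map (algebraMap P (FractionRing P))) = aeval θ s := by
    intro s
    rw [aeval_map_algebraMap]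
  refine ⟨θ, Φ, fun j => C δ₂ * p j, δ₁ * δ₂, hdα, minpoly.monic hθint, mul_ne_zero hδ₁ hδ₂,
    minpoly.aeval P θ, fun j => ?_, fun s hs => minpoly.isIntegrallyClosed_dvd hθint hs,
    C δ₁ * q 0, C δ₁ * q 1, ?_⟩
  · rw [map_mul (aeval θ), aeval_C, ← hae (p j), hp j, map_mul (aeval θ), aeval_C, hr j,
      ← IsScalarTower.algebraMap_apply P (FractionRing P) F, map_mul]
    ring
  · apply hinj
    have h0 := hq 0
    have h1 := hq 1
    simp only [Matrix.cons_val_zero, Matrix.cons_val_one] at h0 h1
    rw [Polynomial.map_add, Polynomial.map_mul, Polynomial.map_mul, Polynomial.map_mul,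
      Polynomial.map_mul, h0, h1, ← derivative_map, ← hfr, Polynomial.map_C, Polynomial.map_C,
      map_mul, Polynomial.C_mul]
    calc _ = C (algebraMap P (FractionRing P) δ₁) * C (algebraMap P (FractionRing P) δ₂) *
        (a * minpoly (FractionRing P) θ + b * derivative (minpoly (FractionRing P) θ)) := by ring
      _ = _ := by rw [hab, mul_one]

end Pool.Agent.Lib.MP_17a322_nt.VA
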