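import Pool.Agent.Lib.MP_17a322_nt.VA.N1

/-!
Linear forms without common zero.
-/

universe u

namespace Pool.Agent.Lib.MP_17a322_nt.VA

open MvPolynomial
open Pool.Agent.Lib.MP_17a322_nt.VN

section

variable {K : Type u} [Field K] {N : ℕ} {A : AV K N}

theorem hom_top_ne {σ : Type*} {g : MvPolynomial σ K} (hg : g ≠ 0) :
    homogeneousComponent g.totalDegree g ≠ 0 := by
  obtain ⟨m, hm, hm'⟩ := Finset.exists_mem_eq_sup g.support (support_nonempty.2 hg)
    fun s => s.sum fun _ e => e
  intro h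
  have h1 := congrArg (coeff m) h
  rw [coeff_homogeneousComponent, coeff_zero, if_pos] at h1
  · exact (mem_support_iff.1 hm) h1
  · rw [totalDegree, hm']
    rfl

theorem AV.lf_ga_mem {L : Type u} [Field L] [Algebra K L] {x : Fin (N + 1) → L} {a₀ : Fin (N + 1)}
    (ha : x a₀ ≠ 0) (l m : Fin (N + 1) → K) :
    lf m (fun a => x a / lf l x) ∈ IntermediateField.adjoin K (Set.range (rt x)) := by
  have h1 : ∀ a, x a / x a₀ ∈ IntermediateField.adjoin K (Set.range (rt x)) := fun a =>
    IntermediateField.subset_adjoin K _ ⟨(a, a₀), rfl⟩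
  have h2 : ∀ a, x a / lf l x ∈ IntermediateField.adjoin K (Set.range (rt x)) := by
    intro a
    have h3 : lf l x = x a₀ * lf l fun b => x b / x a₀ := by
      rw [← lf_smul]
      congr 1
      funext b
      rw [mul_div_cancel₀ _ ha]
    have h4 : x a / lf l x = (x a / x a₀) / lf l fun b => x b / x a₀ := by
      rw [h3, div_div]
    rw [h4]
    refine div_mem (h1 a) ?_
    refine sum_mem fun b _ => mul_mem ?_ (h1 b)
    exact IntermediateField.algebraMap_mem _ _
  exact sum_mem fun b _ => mul_mem (IntermediateField.algebraMap_mem _ _) (h2 b)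

/-- Upper bound for the number of independent linear forms on the generic point. -/
theorem AV.card_le {n : ℕ} (hn : A.dimIs n) (l : Fin (N + 1) → K) {r : ℕ}
    (m : Fin r → Fin (N + 1) → K)
    (hi : AlgebraicIndependent K fun i => lf (m i) (A.ga l)) : r ≤ n := by
  obtain ⟨P, hP⟩ := AV.exists_rep A.gp_ne A.gp_isPt
  obtain ⟨a₀, ha₀⟩ := Function.ne_iff.1 A.gp_ne
  have h1 := hn.1 A.FF P
  have hx : rt (A.x P) = rt A.gp := by
    obtain ⟨c, hc, hcx⟩ := hP
    funext p
    rw [rt, rt, hcx p.1, hcx p.2, mul_div_mul_left _ _ hc]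
  have h2 : tdeg K (A.x P) = tdeg K A.gp := by
    rw [tdeg, tdeg]
    have h3 : (fun p : Fin (N + 1) × Fin (N + 1) => A.x P p.1 / A.x P p.2) =
        fun p => A.gp p.1 / A.gp p.2 := hx
    rw [h3]
  rw [h2] at h1
  obtain ⟨h3, h4⟩ := Z_card_le_tdeg (K := K) A.gp _ hi fun i => by
    have h5 := AV.lf_ga_mem (K := K) ha₀ l (m i)
    exact isAlgebraic_algebraMap (⟨_, h5⟩ : IntermediateField.adjoin K (Set.range (rt A.gp)))
  have h6 := h4.trans h1
  rw [Nat.card_fin] at h6
  exact_mod_cast h6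

theorem lf_single {R : Type*} [CommRing R] [Algebra K R] (a : Fin (N + 1))
    (x : Fin (N + 1) → R) : lf (Pi.single a (1 : K)) x = x a := by
  rw [lf, Finset.sum_eq_single a]
  · rw [Pi.single_eq_same, map_one, one_mul]
  · intro b _ hb
    rw [Pi.single_eq_of_ne hb, map_zero, zero_mul]
  · intro h; exact absurd (Finset.mem_univ a) h

/-- One step: a linear combination of the forms may be dropped. -/
theorem AV.nz_step [Infinite K] {n : ℕ} (hn : A.dimIs n) {l : Fin (N + 1) → K}
    (hl : lf l A.gp ≠ 0) {r : ℕ} (hr : n ≤ r) (m : Fin (r + 1) → Fin (N + 1) → K)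
    (hm : ∀ (L : Type u) [Field L] [Algebra K L] (x : Fin (N + 1) → L), A.IsPt x → lf l x = 0 →
      (∀ k, lf (m k) x = 0) → x = 0) :
    ∃ m' : Fin r → Fin (N + 1) → K, ∀ (L : Type u) [Field L] [Algebra K L] (x : Fin (N + 1) → L),
      A.IsPt x → lf l x = 0 → (∀ k, lf (m' k) x = 0) → x = 0 := by
  have h1 : ¬ AlgebraicIndependent K fun i => lf (m i) (A.ga l) := fun h => by
    have := AV.card_le hn l m h
    omega
  rw [algebraicIndependent_iff] at h1
  push Not at h1
  obtain ⟨g, hg, hg0⟩ := h1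
  have htop := hom_top_ne hg0
  obtain ⟨c, hc⟩ : ∃ c : Fin (r + 1) → K, eval c (homogeneousComponent g.totalDegree g) ≠ 0 := by
    by_contra hcon
    push Not at hcon
    exact htop (MvPolynomial.funext fun c => by rw [hcon c, map_zero])
  have hD : g.totalDegree ≠ 0 := by
    intro h0
    rw [totalDegree_eq_zero_iff_eq_C] at h0
    rw [h0, aeval_C, FaithfulSMul.algebraMap_eq_zero_iff] at hg
    rw [hg, C_0] at h0
    exact hg0 h0
  obtain ⟨i₀, hi₀⟩ : ∃ i, c i ≠ 0 := by
    by_contra hcon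
    push Not at hcon
    have h2 := aeval_mul_homog (K := K) (homogeneousComponent_isHomogeneous g.totalDegree g)
      (0 : K) c
    rw [zero_pow hD, zero_mul] at h2
    simp only [zero_mul] at h2
    have h3 : (fun _ => 0 : Fin (r + 1) → K) = c := by
      funext i
      exact (hcon i).symm
    rw [h3] at h2
    exact hc (by rw [← coe_aeval_eq_eval]; exact h2)
  refine ⟨fun j a => m (i₀.succAbove j) a - c (i₀.succAbove j) / c i₀ * m i₀ a, ?_⟩
  intro L _ _ x hx hx0 hk
  have h4 : ∀ i, lf (m i) x = lf (m i₀) x / algebraMap K L (c i₀) * algebraMap K L (c i) := by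
    have hci : algebraMap K L (c i₀) ≠ 0 := by
      rwa [Ne, FaithfulSMul.algebraMap_eq_zero_iff]
    intro i
    rcases Fin.eq_self_or_eq_succAbove i₀ i with h | ⟨j, h⟩
    · rw [h, div_mul_cancel₀ _ hci]
    · have h5 := hk j
      have h6 : lf (fun a => m (i₀.succAbove j) a - c (i₀.succAbove j) / c i₀ * m i₀ a) x =
          lf (m (i₀.succAbove j)) x - algebraMap K L (c (i₀.succAbove j) / c i₀) *
            lf (m i₀) x := by
        simp only [lf, map_sub, map_mul, sub_mul, Finset.sum_sub_distrib, Finset.mul_sum, mul_assoc]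
      rw [h6, map_div₀, sub_eq_zero] at h5
      rw [h, h5]
      field_simp
  have h7 := AV.top_zero hl m hg hx hx0
  have h8 : (fun i => lf (m i) x) = fun i => lf (m i₀) x / algebraMap K L (c i₀) *
      algebraMap K L (c i) := funext h4
  rw [h8, aeval_mul_homog (homogeneousComponent_isHomogeneous g.totalDegree g)] at h7
  have h9 : aeval (fun i => algebraMap K L (c i)) (homogeneousComponent g.totalDegree g) ≠ 0 := by
    rw [aeval_algMap, Ne, FaithfulSMul.algebraMap_eq_zero_iff]
    exact hc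
  have h10 : lf (m i₀) x / algebraMap K L (c i₀) = 0 :=
    (pow_eq_zero_iff hD).1 ((mul_eq_zero.1 h7).resolve_right h9)
  refine hm L x hx hx0 fun k => ?_
  rw [h4 k, h10, zero_mul]

/-- Linear forms without common zero. -/
theorem AV.exists_nz [Infinite K] {n : ℕ} (hn : A.dimIs n) {l : Fin (N + 1) → K}
    (hl : lf l A.gp ≠ 0) :
    ∃ m : Fin n → Fin (N + 1) → K, ∀ (L : Type u) [Field L] [Algebra K L] (x : Fin (N + 1) → L),
      A.IsPt x → lf l x = 0 → (∀ k, lf (m k) x = 0) → x = 0 := by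
  have h0 : ∃ m : Fin (N + 1) → Fin (N + 1) → K, ∀ (L : Type u) [Field L] [Algebra K L]
      (x : Fin (N + 1) → L), A.IsPt x → lf l x = 0 → (∀ k, lf (m k) x = 0) → x = 0 := by
    refine ⟨fun k => Pi.single k 1, fun L _ _ x _ _ hk => ?_⟩
    funext a
    have h : lf (Pi.single a (1 : K)) x = 0 := hk a
    rw [lf_single] at h
    exact h
  have h1 : ∀ r : ℕ, ∃ m : Fin (N + 1 + r) → Fin (N + 1) → K, ∀ (L : Type u) [Field L] [Algebra K L]
      (x : Fin (N + 1) → L), A.IsPt x → lf l x = 0 → (∀ k, lf (m k) x = 0) → x = 0 := by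
    intro r
    obtain ⟨m, hm⟩ := h0
    refine ⟨Fin.append m fun _ => 0, fun L _ _ x hx hx0 hk => hm L x hx hx0 fun k => ?_⟩
    have := hk (Fin.castAdd r k)
    rwa [Fin.append_left] at this
  have h2 : ∀ r : ℕ, (∃ m : Fin (n + r) → Fin (N + 1) → K, ∀ (L : Type u) [Field L] [Algebra K L]
      (x : Fin (N + 1) → L), A.IsPt x → lf l x = 0 → (∀ k, lf (m k) x = 0) → x = 0) →
      ∃ m : Fin n → Fin (N + 1) → K, ∀ (L : Type u) [Field L] [Algebra K L]
        (x : Fin (N + 1) → L), A.IsPt x → lf l x = 0 → (∀ k, lf (m k) x = 0) → x = 0 := by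
    intro r
    induction r with
    | zero => exact fun h => h
    | succ r ih =>
      rintro ⟨m, hm⟩
      exact ih (AV.nz_step hn hl (by omega) m hm)
  refine h2 (N + 1) ?_
  have h3 := h1 n
  rwa [add_comm (N + 1) n] at h3

end

end Pool.Agent.Lib.MP_17a322_nt.VA
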