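import Pool.Agent.Lib.MP_17a322_nt.VA.N1

/-!
The affine coordinate ring is a finite module over the ring of polynomials in the linear forms.
-/

universe u

namespace Pool.Agent.Lib.MP_17a322_nt.VA

open MvPolynomial
open Pool.Agent.Lib.MP_17a322_nt.VN

section

variable {K : Type u} [Field K] {N : ℕ} {A : AV K N}

theorem hc_mul {σ : Type*} {p : MvPolynomial σ K} {e : ℕ} (hp : p.IsHomogeneous e)
    (q : MvPolynomial σ K) (d : ℕ) :
    homogeneousComponent (d + e) (q * p) = homogeneousComponent d q * p := by
  classical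
  have h1 : q * p = ∑ i ∈ Finset.range (q.totalDegree + 1), homogeneousComponent i q * p := by
    rw [← Finset.sum_mul, sum_homogeneousComponent]
  rw [h1, map_sum]
  have h2 : ∀ i, homogeneousComponent (d + e) (homogeneousComponent i q * p) =
      if i = d then homogeneousComponent d q * p else 0 := by
    intro i
    have h3 : homogeneousComponent i q * p ∈ homogeneousSubmodule σ K (i + e) :=
      (homogeneousComponent_isHomogeneous i q).mul hp
    rw [homogeneousComponent_of_mem h3]
    by_cases h : i = d
    · rw [if_pos (by rw [h]), if_pos h, h]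
    · rw [if_neg (fun h' => h (Nat.add_right_cancel h').symm), if_neg h]
  rw [Finset.sum_congr rfl fun i _ => h2 i, Finset.sum_ite_eq' _ d]
  split_ifs with h
  · rfl
  · rw [homogeneousComponent_eq_zero, zero_mul]
    rw [Finset.mem_range] at h
    omega

theorem lp_hom (l : Fin (N + 1) → K) : (lp l).IsHomogeneous 1 := by
  rw [lp]
  refine IsHomogeneous.sum _ _ _ fun a _ => ?_
  have := (isHomogeneous_C (Fin (N + 1)) (l a)).mul (isHomogeneous_X K a)
  rwa [zero_add] at this

theorem AV.pow_rel {n : ℕ} {l : Fin (N + 1) → K} {m : Fin n → Fin (N + 1) → K}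
    (hm : ∀ (L : Type u) [Field L] [Algebra K L] (x : Fin (N + 1) → L), A.IsPt x → lf l x = 0 →
      (∀ k, lf (m k) x = 0) → x = 0) (a : Fin (N + 1)) :
    ∃ (M : ℕ) (r₀ : MvPolynomial (Fin (N + 1)) K) (r : Fin n → MvPolynomial (Fin (N + 1)) K),
      r₀.IsHomogeneous M ∧ (∀ k, (r k).IsHomogeneous M) ∧
        ∀ (R : Type u) [CommRing R] [Algebra K R] (y : Fin (N + 1) → R), A.IsPt y →
          y a ^ (M + 1) = aeval y r₀ * lf l y + ∑ k, aeval y (r k) * lf (m k) y := by
  obtain ⟨M, R, hR⟩ := nullst_fun (K := K) (A.I : Set (MvPolynomial (Fin (N + 1)) K))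
    (fun i : Option (Fin n) => i.elim (lp l) fun k => lp (m k)) (X a) (by
      intro L _ _ x hx hF
      have h1 := hm L x hx (by simpa [aeval_lp] using hF none)
        fun k => by simpa [aeval_lp] using hF (some k)
      rw [aeval_X, h1, Pi.zero_apply])
  have h1 := hR A.FF A.gp A.gp_isPt
  rw [finsum_eq_sum_of_fintype, Fintype.sum_option, aeval_X] at h1
  simp only [Option.elim_none, Option.elim_some] at h1
  have h2 : X a ^ M * X a - (R none * X a * lp l + ∑ k, R (some k) * X a * lp (m k)) ∈ A.I := by
    rw [← A.gp_zero_iff]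
    simp only [map_sub, map_mul, map_pow, map_add, map_sum, aeval_X]
    rw [h1]
    rw [sub_eq_zero, add_mul, Finset.sum_mul]
    congr 1
    · ring
    · exact Finset.sum_congr rfl fun k _ => by ring
  have h3 := A.homog _ h2 (M + 1)
  have h4 : homogeneousComponent (M + 1)
      (X a ^ M * X a - (R none * X a * lp l + ∑ k, R (some k) * X a * lp (m k))) =
      X a ^ (M + 1) - (homogeneousComponent M (R none * X a) * lp l +
        ∑ k, homogeneousComponent M (R (some k) * X a) * lp (m k)) := by
    rw [map_sub, map_add, map_sum, hc_mul (isHomogeneous_X K a), hc_mul (lp_hom l)]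
    have h5 : homogeneousComponent M (X a ^ M : MvPolynomial (Fin (N + 1)) K) = X a ^ M :=
      homogeneousComponent_eq_self (isHomogeneous_X_pow a M)
    rw [h5, pow_succ]
    congr 2
    exact Finset.sum_congr rfl fun k _ => hc_mul (lp_hom (m k)) _ _
  rw [h4] at h3
  refine ⟨M, _, fun k => homogeneousComponent M (R (some k) * X a),
    homogeneousComponent_isHomogeneous M (R none * X a),
    fun k => homogeneousComponent_isHomogeneous M _, fun R' _ _ y hy => ?_⟩
  have h6 := hy _ h3
  simp only [map_sub, map_mul, map_pow, map_add, map_sum, aeval_X, aeval_lp] at h6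
  rw [sub_eq_zero] at h6
  rw [h6]

/-- The affine coordinate ring is a finite module. -/
theorem AV.exists_gen {n : ℕ} {l : Fin (N + 1) → K} (hl : lf l A.gp ≠ 0)
    {m : Fin n → Fin (N + 1) → K}
    (hm : ∀ (L : Type u) [Field L] [Algebra K L] (x : Fin (N + 1) → L), A.IsPt x → lf l x = 0 →
      (∀ k, lf (m k) x = 0) → x = 0) :
    ∃ (e : ℕ) (w : Fin (e + 1) → MvPolynomial (Fin (N + 1)) K), w 0 = 1 ∧
      ∀ p : MvPolynomial (Fin (N + 1)) K, ∃ q : Fin (e + 1) → MvPolynomial (Fin n) K,
        aeval (A.ga l) p =
          ∑ r, aeval (A.ga l) (w r) * aeval (fun k => lf (m k) (A.ga l)) (q r) := by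
  classical
  choose M r₀ r hr₀ hr hrel using fun a => AV.pow_rel (A := A) hm a
  set g := A.ga l with hg
  set s : Fin n → A.FF := fun k => lf (m k) g with hs
  have hg1 : lf l g = 1 := AV.lf_ga hl
  have hgp : A.IsPt g := AV.ga_isPt l
  let ι := (a : Fin (N + 1)) → Fin (M a + 1)
  let w : ι → MvPolynomial (Fin (N + 1)) K := fun f => ∏ a, X a ^ (f a : ℕ)
  let Gd : MvPolynomial (Fin (N + 1)) K → Prop := fun p => ∃ q : ι → MvPolynomial (Fin n) K,
    aeval g p = ∑ f, aeval g (w f) * aeval s (q f)
  have hadd : ∀ {p p'}, Gd p → Gd p' → Gd (p + p') := by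
    rintro p p' ⟨q, hq⟩ ⟨q', hq'⟩
    refine ⟨fun f => q f + q' f, ?_⟩
    simp only [map_add, mul_add, Finset.sum_add_distrib]
    rw [hq, hq']
  have hzero : Gd 0 := ⟨fun _ => 0, by simp⟩
  have hsum : ∀ {κ : Type} (T : Finset κ) (p : κ → MvPolynomial (Fin (N + 1)) K),
      (∀ i ∈ T, Gd (p i)) → Gd (∑ i ∈ T, p i) := by
    intro κ T p
    induction T using Finset.induction_on with
    | empty => intro _; simpa using hzero
    | insert i T hi ih =>
      intro h
      rw [Finset.sum_insert hi]
      exact hadd (h i (Finset.mem_insert_self _ _)) (ih fun j hj => h j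
        (Finset.mem_insert_of_mem hj))
  have hcongr : ∀ {p p'}, aeval g p = aeval g p' → Gd p → Gd p' := by
    rintro p p' h ⟨q, hq⟩
    exact ⟨q, by rw [← h, hq]⟩
  have hC : ∀ (c : K) {p}, Gd p → Gd (C c * p) := by
    rintro c p ⟨q, hq⟩
    refine ⟨fun f => C c * q f, ?_⟩
    rw [map_mul, hq, Finset.mul_sum]
    refine Finset.sum_congr rfl fun f _ => ?_
    rw [map_mul, aeval_C, aeval_C]
    ring
  have hlp : ∀ (k : Fin n) {p}, Gd p → Gd (p * lp (m k)) := by
    rintro k p ⟨q, hq⟩
    refine ⟨fun f => X k * q f, ?_⟩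
    rw [map_mul, hq, Finset.sum_mul]
    refine Finset.sum_congr rfl fun f _ => ?_
    rw [map_mul, aeval_X, aeval_lp]
    ring
  have hw : ∀ f : ι, Gd (w f) := by
    intro f
    refine ⟨fun f' => if f' = f then 1 else 0, ?_⟩
    rw [Finset.sum_eq_single f]
    · simp
    · intro f' _ hf'
      simp only [if_neg hf', map_zero, mul_zero]
    · intro h; exact absurd (Finset.mem_univ f) h
  have hmain : ∀ d : ℕ, ∀ p : MvPolynomial (Fin (N + 1)) K, p.IsHomogeneous d → Gd p := by
    intro d
    induction d using Nat.strong_induction_on with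
    | _ d ih =>
      intro p hp
      rw [← support_sum_monomial_coeff p]
      refine hsum _ _ fun β hβ => ?_
      have hdeg : β.degree = d := by
        have := hp (mem_support_iff.1 hβ)
        rw [← this, Finsupp.degree_eq_weight_one]
        rfl
      have h1 : (monomial β (coeff β p) : MvPolynomial (Fin (N + 1)) K) =
          C (coeff β p) * monomial β 1 := by rw [C_mul_monomial, mul_one]
      rw [h1]
      refine hC _ ?_
      by_cases hall : ∀ a, β a < M a + 1
      · have h2 : w (fun a => ⟨β a, hall a⟩) = monomial β 1 := by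
          change ∏ a, X a ^ (β a) = _
          rw [monomial_eq, C_1, one_mul, Finsupp.prod_fintype]
          intro a; rw [pow_zero]
        rw [← h2]
        exact hw _
      · push Not at hall
        obtain ⟨a, ha⟩ := hall
        set β' := β - Finsupp.single a (M a + 1) with hβ'
        have hββ : β = Finsupp.single a (M a + 1) + β' := by
          rw [hβ', add_tsub_cancel_of_le]
          rw [Finsupp.single_le_iff]
          exact ha
        have hd' : β.degree = M a + 1 + β'.degree := by
          rw [hββ]
          simp only [map_add, Finsupp.degree_single]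
        have hmo : (monomial β' (1 : K)).IsHomogeneous β'.degree :=
          isHomogeneous_monomial _ rfl
        have hlt : M a + β'.degree < d := by omega
        have h3 : Gd (r₀ a * monomial β' 1 + ∑ k, (r a k * monomial β' 1) * lp (m k)) := by
          refine hadd (ih _ hlt _ ((hr₀ a).mul hmo)) (hsum _ _ fun k _ => hlp k ?_)
          exact ih _ hlt _ ((hr a k).mul hmo)
        refine hcongr ?_ h3
        have h4 : (monomial β (1 : K)) = X a ^ (M a + 1) * monomial β' 1 := by
          rw [hββ, X_pow_eq_monomial, monomial_mul, mul_one]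
        rw [h4]
        have h5 := hrel a A.FF g hgp
        simp only [map_add, map_sum, map_mul, map_pow, aeval_X, aeval_lp] at h5 ⊢
        rw [h5, hg1, mul_one, add_mul, Finset.sum_mul]
        congr 1
        exact Finset.sum_congr rfl fun k _ => by ring
  have hall : ∀ p, Gd p := by
    intro p
    rw [← sum_homogeneousComponent p]
    exact hsum _ _ fun d _ => hmain d _ (homogeneousComponent_isHomogeneous d p)
  refine ⟨Fintype.card ι, Fin.cons 1 fun r => w ((Fintype.equivFin ι).symm r), Fin.cons_zero _ _,
    fun p => ?_⟩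
  obtain ⟨q, hq⟩ := hall p
  refine ⟨Fin.cons 0 fun r => q ((Fintype.equivFin ι).symm r), ?_⟩
  rw [hq, Fin.sum_univ_succ]
  simp only [Fin.cons_zero, Fin.cons_succ, map_zero, mul_zero, zero_add]
  exact (Equiv.sum_comp (Fintype.equivFin ι).symm fun f => aeval g (w f) * aeval s (q f)).symm

end

end Pool.Agent.Lib.MP_17a322_nt.VA
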