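import Pool.Agent.Lib.MP_17a322_nt.VA.N0
import Pool.Agent.Lib.MP_17a322_nt.VA.N2
import Pool.Agent.Lib.MP_17a322_nt.VA.N3

/-!
The affine coordinates are integral; the Noether coordinates are independent.
-/

universe u

namespace Pool.Agent.Lib.MP_17a322_nt.VA

open MvPolynomial
open Pool.Agent.Lib.MP_17a322_nt.VN

section

variable {K : Type u} [Field K] {N : ℕ} {A : AV K N}

theorem alg_trans {K L : Type*} [Field K] [Field L] [Algebra K L] {S T : Set L}
    (h : ∀ x ∈ S, IsAlgebraic (IntermediateField.adjoin K T) x) {z : L}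
    (hz : IsAlgebraic (IntermediateField.adjoin K S) z) :
    IsAlgebraic (IntermediateField.adjoin K T) z := by
  have h2 : Algebra.IsAlgebraic (IntermediateField.adjoin K T)
      (IntermediateField.adjoin (IntermediateField.adjoin K T) S) := by
    refine IntermediateField.isAlgebraic_adjoin ?_
    intro x hx
    exact (h x hx).isIntegral
  have h3 : IsAlgebraic (IntermediateField.adjoin (IntermediateField.adjoin K T) S) z := by
    have h4 : (IntermediateField.adjoin K S).toSubalgebra ≤
        ((IntermediateField.adjoin (IntermediateField.adjoin K T) S).restrictScalars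
          K).toSubalgebra := by
      show IntermediateField.adjoin K S ≤
        (IntermediateField.adjoin (IntermediateField.adjoin K T) S).restrictScalars K
      rw [IntermediateField.adjoin_le_iff]
      exact IntermediateField.subset_adjoin (IntermediateField.adjoin K T) _
    exact IsAlgebraic.tower_top_of_subalgebra_le h4 hz
  exact h3.restrictScalars _

/-- The elements of a ring that is a finitely generated module are integral. -/
theorem N4_int {R F : Type*} [CommRing R] [Field F] (φ : R →+* F) {e : ℕ} (w : Fin e → F)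
    (B : Set F) (h1 : (1 : F) ∈ B) (hm : ∀ x ∈ B, ∀ y ∈ B, x * y ∈ B)
    (hB : ∀ y, y ∈ B ↔ ∃ q : Fin e → R, y = ∑ r, w r * φ (q r)) {y : F} (hy : y ∈ B) :
    φ.IsIntegralElem y := by
  let : Algebra R F := φ.toAlgebra
  have hsm : ∀ (q : R) (x : F), q • x = x * φ q := fun q x => mul_comm _ _
  have hMd : ∀ x, x ∈ Submodule.span R (Set.range w) ↔ x ∈ B := by
    intro x
    rw [Submodule.mem_span_range_iff_exists_fun, hB]
    constructor
    · rintro ⟨q, hq⟩
      exact ⟨q, by rw [← hq]; exact Finset.sum_congr rfl fun r _ => hsm _ _⟩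
    · rintro ⟨q, hq⟩
      exact ⟨q, by rw [hq]; exact Finset.sum_congr rfl fun r _ => hsm _ _⟩
  have h4 : IsIntegral R y := by
    refine isIntegral_of_smul_mem_submodule (M := F) (Submodule.span R (Set.range w)) ?_ ?_ _ ?_
    · intro h
      have h5 := (hMd 1).2 h1
      rw [h, Submodule.mem_bot] at h5
      exact one_ne_zero h5
    · exact Submodule.fg_span (Set.finite_range _)
    · intro x hx
      rw [smul_eq_mul]
      exact (hMd _).2 (hm _ hy _ ((hMd _).1 hx))
  exact h4

/-- The elements of the affine coordinate ring are integral. -/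
theorem AV.ga_integral {n : ℕ} {l : Fin (N + 1) → K} (hl : lf l A.gp ≠ 0)
    {m : Fin n → Fin (N + 1) → K}
    (hm : ∀ (L : Type u) [Field L] [Algebra K L] (x : Fin (N + 1) → L), A.IsPt x → lf l x = 0 →
      (∀ k, lf (m k) x = 0) → x = 0) (p : MvPolynomial (Fin (N + 1)) K) :
    (aeval (fun k => lf (m k) (A.ga l)) : MvPolynomial (Fin n) K →ₐ[K] A.FF).toRingHom.IsIntegralElem
      (aeval (A.ga l) p) := by
  obtain ⟨e, w, -, hgen⟩ := AV.exists_gen hl hm
  have h3 : ∀ q : MvPolynomial (Fin n) K, aeval (fun k => lf (m k) (A.ga l)) q =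
      aeval (A.ga l) (aeval (fun k => lp (m k)) q) := by
    intro q
    have h4 : (fun k => lf (m k) (A.ga l)) = fun k => aeval (A.ga l) (lp (m k)) :=
      funext fun k => (aeval_lp _ _).symm
    rw [h4]
    exact (MvPolynomial.comp_aeval_apply _ _ _).symm
  refine N4_int (F := A.FF) _ (fun r => aeval (A.ga l) (w r))
    (Set.range fun p : MvPolynomial (Fin (N + 1)) K => aeval (A.ga l) p) ⟨1, map_one _⟩ ?_ ?_
    ⟨p, rfl⟩
  · rintro _ ⟨x, rfl⟩ _ ⟨y, rfl⟩
    exact ⟨x * y, map_mul _ _ _⟩
  · intro y
    constructor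
    · rintro ⟨p, rfl⟩
      exact hgen p
    · rintro ⟨q, rfl⟩
      refine ⟨∑ r, w r * aeval (fun k => lp (m k)) (q r), ?_⟩
      show aeval (A.ga l) _ = _
      rw [map_sum]
      refine Finset.sum_congr rfl fun r _ => ?_
      rw [map_mul, ← h3]
      rfl

/-- The affine coordinates are algebraic over the field generated by the Noether coordinates. -/
theorem AV.ga_algebraic {n : ℕ} {l : Fin (N + 1) → K} (hl : lf l A.gp ≠ 0)
    {m : Fin n → Fin (N + 1) → K}
    (hm : ∀ (L : Type u) [Field L] [Algebra K L] (x : Fin (N + 1) → L), A.IsPt x → lf l x = 0 →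
      (∀ k, lf (m k) x = 0) → x = 0) (p : MvPolynomial (Fin (N + 1)) K) :
    IsAlgebraic (IntermediateField.adjoin K (Set.range fun k => lf (m k) (A.ga l)))
      (aeval (A.ga l) p) := by
  obtain ⟨f, hf, hf0⟩ := AV.ga_integral hl hm p
  set F₀ := IntermediateField.adjoin K (Set.range fun k => lf (m k) (A.ga l)) with hF₀
  have hmem : ∀ k, lf (m k) (A.ga l) ∈ F₀ := fun k =>
    IntermediateField.subset_adjoin K _ ⟨k, rfl⟩
  let φ : MvPolynomial (Fin n) K →ₐ[K] F₀ := aeval fun k => ⟨lf (m k) (A.ga l), hmem k⟩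
  have hφ : (IntermediateField.val F₀).comp φ = aeval fun k => lf (m k) (A.ga l) := by
    apply MvPolynomial.algHom_ext
    intro i
    rw [AlgHom.comp_apply, aeval_X, aeval_X]
    rfl
  have h1 : IsIntegral F₀ (aeval (A.ga l) p) := by
    refine ⟨f.map φ.toRingHom, hf.map _, ?_⟩
    rw [Polynomial.eval₂_map]
    have h2 : (algebraMap F₀ A.FF).comp φ.toRingHom =
        (aeval (fun k => lf (m k) (A.ga l)) : MvPolynomial (Fin n) K →ₐ[K] A.FF).toRingHom := by
      rw [← hφ]
      rfl
    rw [h2]
    exact hf0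
  exact h1.isAlgebraic

/-- The Noether coordinates are independent. -/
theorem AV.indep {n : ℕ} (hn : A.dimIs n) {l : Fin (N + 1) → K} (hl : lf l A.gp ≠ 0)
    {m : Fin n → Fin (N + 1) → K}
    (hm : ∀ (L : Type u) [Field L] [Algebra K L] (x : Fin (N + 1) → L), A.IsPt x → lf l x = 0 →
      (∀ k, lf (m k) x = 0) → x = 0) :
    AlgebraicIndependent K fun k => lf (m k) (A.ga l) := by
  classical
  obtain ⟨L, _, _, P, hP⟩ := hn.2
  set x := A.x P with hx
  have hxr : A.Rep P x := AV.Rep.self P
  obtain ⟨a₀, ha₀⟩ := Function.ne_iff.1 hxr.ne_zero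
  rw [Pi.zero_apply] at ha₀
  set z : Fin (N + 1) → L := fun a => x a / x a₀ with hz
  have hzr : ∀ p, rt x p = z p.1 / z p.2 := by
    intro p
    rw [rt, hz]
    dsimp only
    rw [div_div_div_cancel_right₀ ha₀]
  have hzp : A.IsPt z := by
    have : z = fun a => (x a₀)⁻¹ * x a := by
      funext a; rw [hz]; dsimp only; rw [div_eq_inv_mul]
    rw [this]
    exact hxr.isPt.smul _
  obtain ⟨T, hT, hT'⟩ := exists_basis_subset (K := K) z
  have hcard : (n : Cardinal.{u}) ≤ (Nat.card T : Cardinal.{u}) := by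
    rw [← hP]
    refine Z_tdeg_le_card x (fun t : T => z t) fun p => ?_
    rw [hzr p]
    have h1 := hT' p.1
    have h2 := hT' p.2
    rw [Set.image_eq_range] at h1 h2
    rw [← mem_algebraicClosure_iff] at h1 h2 ⊢
    exact div_mem h1 h2
  have hcard' : n ≤ Nat.card T := by exact_mod_cast hcard
  -- the chart of the coordinate a₀
  set l' : Fin (N + 1) → K := Pi.single a₀ 1 with hl'
  have hgp : lf l' A.gp ≠ 0 := by
    rw [hl', lf_single]
    intro h
    have h1 : (X a₀ : MvPolynomial (Fin (N + 1)) K) ∈ A.I := by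
      rw [← A.gp_zero_iff, aeval_X, h]
    have h2 := hxr.isPt _ h1
    rw [aeval_X] at h2
    exact ha₀ h2
  have hz1 : lf l' z = 1 := by
    rw [hl', lf_single, hz]
    exact div_self ha₀
  have hT2 : AlgebraicIndependent K fun t : T => A.ga l' t := by
    rw [algebraicIndependent_iff] at hT ⊢
    intro p hp
    apply hT
    have h1 : aeval (A.ga l') (rename ((↑) : T → Fin (N + 1)) p) = 0 := by
      rw [aeval_rename]
      exact hp
    have h2 := AV.transfer hgp h1 hzp hz1
    rw [aeval_rename] at h2
    exact h2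
  -- the Noether coordinates
  obtain ⟨T', hT3, hT4⟩ := exists_basis_subset (K := K) fun k => lf (m k) (A.ga l)
  have hal : ∀ t : T, IsAlgebraic (IntermediateField.adjoin K
      (Set.range fun k : T' => lf (m k) (A.ga l))) (A.ga l' t) := by
    intro t
    have h1 : ∀ a, IsAlgebraic (IntermediateField.adjoin K
        (Set.range fun k : T' => lf (m k) (A.ga l))) (A.ga l a) := by
      intro a
      refine alg_trans (S := Set.range fun k => lf (m k) (A.ga l)) ?_ ?_
      · rintro _ ⟨k, rfl⟩
        have := hT4 k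
        rwa [Set.image_eq_range] at this
      · have := AV.ga_algebraic hl hm (X a)
        rwa [aeval_X] at this
    have h2 : A.ga l' t = A.ga l t / A.ga l a₀ := by
      rw [AV.ga, AV.ga, AV.ga, div_div_div_cancel_right₀ hl]
      rw [hl', lf_single]
    have h3 := h1 t
    have h4 := h1 a₀
    rw [h2]
    rw [← mem_algebraicClosure_iff] at h3 h4 ⊢
    exact div_mem h3 h4
  obtain ⟨_, h5⟩ := indep_card_le (K := K) _ hT2 (fun k : T' => lf (m k) (A.ga l)) hal
  have h6 : T' = Set.univ := by
    by_contra hne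
    have h7 : T'.ncard < Nat.card (Fin n) := by
      rw [← Set.ncard_univ]
      exact Set.ncard_lt_ncard (Set.ssubset_univ_iff.2 hne) (Set.toFinite _)
    rw [Nat.card_fin] at h7
    rw [Set.ncard_def, ← Set.ncard_def] at h7
    rw [Nat.card_coe_set_eq T'] at h5
    omega
  have h8 : AlgebraicIndependent K
      ((fun t : T' => lf (m t) (A.ga l)) ∘ fun k => (⟨k, by rw [h6]; trivial⟩ : T')) :=
    hT3.comp _ fun i j h => by simpa using h
  exact h8

end

end Pool.Agent.Lib.MP_17a322_nt.VA
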