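import Pool.Agent.Lib.MP_17a322_nt.VA.T1
import Pool.Agent.Lib.MP_17a322_nt.VA.F4

/-!
Translation of tangent vectors.
-/

universe u

namespace Pool.Agent.Lib.MP_17a322_nt.VA

open MvPolynomial

section

variable {K : Type u} [Field K] {N : ℕ} {A : AV K N}
variable {L : Type u} [Field L] [Algebra K L]

/-- A vector over the dual numbers. -/
noncomputable def dv {ι : Type*} (y τ : ι → L) : ι → DualNumber L := fun i =>
  TrivSqZeroExt.inl (y i) + TrivSqZeroExt.inr (τ i)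

theorem dv_fst {ι : Type*} (y τ : ι → L) (i : ι) : (dv y τ i).fst = y i := by simp [dv]

theorem dv_snd {ι : Type*} (y τ : ι → L) (i : ι) : (dv y τ i).snd = τ i := by simp [dv]

theorem dv_zero {ι : Type*} (y : ι → L) : dv y 0 = fun i => TrivSqZeroExt.inl (y i) := by
  funext i
  simp [dv]

theorem eq_dv {ι : Type*} {y τ : ι → L} {y' : ι → DualNumber L} (h1 : ∀ i, (y' i).fst = y i)
    (h2 : ∀ i, (y' i).snd = τ i) : y' = dv y τ := by
  funext i
  apply TrivSqZeroExt.ext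
  · rw [dv_fst, h1]
  · rw [dv_snd, h2]

variable (A) in
/-- `τ` is a tangent vector at the vector `y`. -/
def AV.IsT (y τ : Fin (N + 1) → L) : Prop :=
  A.IsPt (R := DualNumber L) (dv y τ)

theorem AV.isT_iff {y τ : Fin (N + 1) → L} : A.IsT y τ ↔ ∀ f ∈ A.I, aeval y f = 0 ∧
    ∑ i, τ i * aeval y (pderiv i f) = 0 := by
  constructor
  · intro h f hf
    have h1 := h f hf
    rw [show dv y τ = fun i => TrivSqZeroExt.inl (y i) + TrivSqZeroExt.inr (τ i) from rfl,
      aeval_dual] at h1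
    have h2 := congrArg TrivSqZeroExt.fst h1
    have h3 := congrArg TrivSqZeroExt.snd h1
    simp only [TrivSqZeroExt.fst_add, TrivSqZeroExt.fst_inl, TrivSqZeroExt.fst_inr,
      TrivSqZeroExt.snd_add, TrivSqZeroExt.snd_inl, TrivSqZeroExt.snd_inr, add_zero, zero_add,
      TrivSqZeroExt.fst_zero, TrivSqZeroExt.snd_zero] at h2 h3
    exact ⟨h2, h3⟩
  · intro h f hf
    rw [show dv y τ = fun i => TrivSqZeroExt.inl (y i) + TrivSqZeroExt.inr (τ i) from rfl,
      aeval_dual, (h f hf).1, (h f hf).2]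
    simp

theorem AV.IsT.isPt {y τ : Fin (N + 1) → L} (h : A.IsT y τ) : A.IsPt y := fun f hf =>
  (AV.isT_iff.1 h f hf).1

theorem AV.IsT.sum {y : Fin (N + 1) → L} (hy : A.IsPt y) {ι : Type*} (s : Finset ι) (c : ι → L)
    (τ : ι → Fin (N + 1) → L) (h : ∀ i ∈ s, A.IsT y (τ i)) :
    A.IsT y fun b => ∑ i ∈ s, c i * τ i b := by
  rw [AV.isT_iff]
  intro f hf
  refine ⟨hy f hf, ?_⟩
  have h1 : ∑ b, (∑ i ∈ s, c i * τ i b) * aeval y (pderiv b f) =
      ∑ i ∈ s, c i * ∑ b, τ i b * aeval y (pderiv b f) := by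
    simp only [Finset.sum_mul, Finset.mul_sum]
    rw [Finset.sum_comm]
    refine Finset.sum_congr rfl fun i _ => Finset.sum_congr rfl fun b _ => by ring
  rw [h1]
  exact Finset.sum_eq_zero fun i hi => by rw [(AV.isT_iff.1 (h i hi) f hf).2, mul_zero]

theorem inl_isPt {y : Fin (N + 1) → L} (hy : A.IsPt y) : A.IsPt (R := DualNumber L)
    fun i => TrivSqZeroExt.inl (y i) :=
  hy.map (TrivSqZeroExt.inlAlgHom K L L)

theorem s2_inl (y z : Fin (N + 1) → L) (a b : Fin (N + 1)) :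
    A.s2 (R := DualNumber L) (fun i => TrivSqZeroExt.inl (y i))
      (fun i => TrivSqZeroExt.inl (z i)) a b = TrivSqZeroExt.inl (A.s2 y z a b) :=
  (A.map_s2 (TrivSqZeroExt.inlAlgHom K L L) y z a b).symm

theorem s2_fst (y z : Fin (N + 1) → DualNumber L) (a b : Fin (N + 1)) :
    (A.s2 y z a b).fst = A.s2 (fun i => (y i).fst) (fun i => (z i).fst) a b :=
  A.map_s2 (TrivSqZeroExt.fstHom K L L) y z a b

theorem s2_smul {R : Type u} [CommRing R] [Algebra K R] (c d : R) (y z : Fin (N + 1) → R)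
    (a b : Fin (N + 1)) :
    A.s2 (fun i => c * y i) (fun i => d * z i) a b = c ^ 2 * d ^ 2 * A.s2 y z a b :=
  Z_S_smul A y z c d a b

theorem s2_smul_left {R : Type u} [CommRing R] [Algebra K R] (c : R) (y z : Fin (N + 1) → R)
    (a b : Fin (N + 1)) :
    A.s2 (fun i => c * y i) z a b = c ^ 2 * A.s2 y z a b := by
  have h := s2_smul (A := A) c 1 y z a b
  simp only [one_mul, one_pow, mul_one] at h
  exact h

/-- The values at the pair of a point and the origin. -/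
theorem s2_right {P : A.Pts L} {y o : Fin (N + 1) → L} (hy : A.Rep P y) (ho : A.Rep 0 o) :
    ∃ c : L, c ≠ 0 ∧ ∀ a b, A.s2 y o a b = c * (y a * y b) := by
  obtain ⟨c, hc, h⟩ := hy.s2 ho
  obtain ⟨c', hc', h'⟩ := hy
  refine ⟨c * (c'⁻¹ * c'⁻¹), mul_ne_zero hc (mul_ne_zero (inv_ne_zero hc') (inv_ne_zero hc')),
    fun a b => ?_⟩
  rw [h, add_zero, sub_zero, h' a, h' b]
  field_simp

theorem s2_left {P : A.Pts L} {y o : Fin (N + 1) → L} (hy : A.Rep P y) (ho : A.Rep 0 o) :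
    ∃ c : L, c ≠ 0 ∧ ∀ a b, A.s2 o y a b = c * (y a * A.x (-P) b) := by
  obtain ⟨c, hc, h⟩ := ho.s2 hy
  obtain ⟨c', hc', h'⟩ := hy
  refine ⟨c * c'⁻¹, mul_ne_zero hc (inv_ne_zero hc'), fun a b => ?_⟩
  rw [h, zero_add, zero_sub, h' a]
  field_simp

theorem s2_same {P : A.Pts L} {y o : Fin (N + 1) → L} (hy : A.Rep P y) (ho : A.Rep 0 o) :
    ∃ c : L, c ≠ 0 ∧ ∀ a b, A.s2 y y a b = c * (A.x (P + P) a * o b) := by
  obtain ⟨c, hc, h⟩ := hy.s2 hy
  obtain ⟨c', hc', h'⟩ := ho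
  refine ⟨c * c'⁻¹, mul_ne_zero hc (inv_ne_zero hc'), fun a b => ?_⟩
  rw [h, sub_self, h' b]
  field_simp

/-- The second component of the values is linear in the tangent vector. -/
theorem s2_snd_right (y z τ : Fin (N + 1) → L) (a b : Fin (N + 1)) :
    (A.s2 (R := DualNumber L) (fun i => TrivSqZeroExt.inl (y i)) (dv z τ) a b).snd =
      ∑ i, τ i * aeval (Sum.elim y z) (pderiv (Sum.inr i) (A.S a b)) := by
  have h1 : (Sum.elim (fun i => TrivSqZeroExt.inl (y i)) (dv z τ) :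
      Fin (N + 1) ⊕ Fin (N + 1) → DualNumber L) =
      fun p => TrivSqZeroExt.inl (Sum.elim y z p) + TrivSqZeroExt.inr (Sum.elim 0 τ p) := by
    funext p
    rcases p with i | i
    · simp
    · simp [dv]
  rw [AV.s2, h1, aeval_dual, TrivSqZeroExt.snd_add, TrivSqZeroExt.snd_inl, TrivSqZeroExt.snd_inr,
    zero_add, Fintype.sum_sum_type]
  simp

theorem s2_snd_left (y z τ : Fin (N + 1) → L) (a b : Fin (N + 1)) :
    (A.s2 (R := DualNumber L) (dv y τ) (fun i => TrivSqZeroExt.inl (z i)) a b).snd =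
      ∑ i, τ i * aeval (Sum.elim y z) (pderiv (Sum.inl i) (A.S a b)) := by
  have h1 : (Sum.elim (dv y τ) (fun i => TrivSqZeroExt.inl (z i)) :
      Fin (N + 1) ⊕ Fin (N + 1) → DualNumber L) =
      fun p => TrivSqZeroExt.inl (Sum.elim y z p) + TrivSqZeroExt.inr (Sum.elim τ 0 p) := by
    funext p
    rcases p with i | i
    · simp [dv]
    · simp
  rw [AV.s2, h1, aeval_dual, TrivSqZeroExt.snd_add, TrivSqZeroExt.snd_inl, TrivSqZeroExt.snd_inr,
    zero_add, Fintype.sum_sum_type]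
  simp

end

end Pool.Agent.Lib.MP_17a322_nt.VA
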