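import Pool.Agent.Lib.MP_17a322_nt.VA.T2
import Pool.Agent.Lib.MP_17a322_nt.VA.A4c

/-!
Translation of tangent vectors: the linear maps.
-/

universe u

namespace Pool.Agent.Lib.MP_17a322_nt.VA

open MvPolynomial

section

variable {K : Type u} [Field K] {N : ℕ} {A : AV K N}
variable {L : Type u} [Field L] [Algebra K L]

theorem lf_mul_left {R : Type*} [CommRing R] [Algebra K R] (l : Fin (N + 1) → K) (c : R)
    (y : Fin (N + 1) → R) : lf l (fun i => c * y i) = c * lf l y := lf_smul l c y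

theorem lf_sub {R : Type*} [CommRing R] [Algebra K R] (l : Fin (N + 1) → K)
    (y z : Fin (N + 1) → R) : lf l (fun i => y i - z i) = lf l y - lf l z := by
  simp only [lf, mul_sub, Finset.sum_sub_distrib]

theorem lf_add {R : Type*} [CommRing R] [Algebra K R] (l : Fin (N + 1) → K)
    (y z : Fin (N + 1) → R) : lf l (fun i => y i + z i) = lf l y + lf l z := by
  simp only [lf, mul_add, Finset.sum_add_distrib]

theorem lf_sum {R ι : Type*} [CommRing R] [Algebra K R] (l : Fin (N + 1) → K) (s : Finset ι)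
    (y : ι → Fin (N + 1) → R) : lf l (fun i => ∑ j ∈ s, y j i) = ∑ j ∈ s, lf l (y j) := by
  simp only [lf, Finset.mul_sum]
  rw [Finset.sum_comm]

theorem exists_unit_inv {w : DualNumber L} (h : w.fst ≠ 0) : ∃ w' : DualNumber L, w' * w = 1 := by
  have h1 : IsUnit w := by
    rw [TrivSqZeroExt.isUnit_iff_isUnit_fst, isUnit_iff_ne_zero]
    exact h
  obtain ⟨u, rfl⟩ := h1
  exact ⟨↑u⁻¹, Units.inv_mul u⟩

theorem dn_cancel {w w' : DualNumber L} (hw : w' * w = 1) {g : L} (hg : g ≠ 0)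
    {x z : DualNumber L} {p q : L}
    (h : x * (w ^ 2 * TrivSqZeroExt.inl (g * p)) = z * (w ^ 2 * TrivSqZeroExt.inl (g * q))) :
    x * TrivSqZeroExt.inl p = z * TrivSqZeroExt.inl q := by
  have e2 : (TrivSqZeroExt.inl g⁻¹ : DualNumber L) * TrivSqZeroExt.inl g = 1 := by
    rw [← TrivSqZeroExt.inl_mul, inv_mul_cancel₀ hg, TrivSqZeroExt.inl_one]
  rw [TrivSqZeroExt.inl_mul, TrivSqZeroExt.inl_mul] at h
  calc x * TrivSqZeroExt.inl p = (w' * w) ^ 2 * (TrivSqZeroExt.inl g⁻¹ * TrivSqZeroExt.inl g) *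
        (x * TrivSqZeroExt.inl p) := by rw [hw, e2]; ring
    _ = w' ^ 2 * TrivSqZeroExt.inl g⁻¹ *
        (x * (w ^ 2 * (TrivSqZeroExt.inl g * TrivSqZeroExt.inl p))) := by ring
    _ = w' ^ 2 * TrivSqZeroExt.inl g⁻¹ *
        (z * (w ^ 2 * (TrivSqZeroExt.inl g * TrivSqZeroExt.inl q))) := by rw [h]
    _ = (w' * w) ^ 2 * (TrivSqZeroExt.inl g⁻¹ * TrivSqZeroExt.inl g) *
        (z * TrivSqZeroExt.inl q) := by ring
    _ = _ := by rw [hw, e2]; ring

/-- Translation of the tangent vectors at the origin. -/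
theorem exists_Lam {P : A.Pts L} {y o : Fin (N + 1) → L} (hy : A.Rep P y) (ho : A.Rep 0 o)
    (l : Fin (N + 1) → K) (h1 : lf l y = 1) :
    ∃ Λ : (Fin (N + 1) → L) →ₗ[L] (Fin (N + 1) → L),
      (∀ τ, A.IsT o τ → A.IsT y (Λ τ) ∧ lf l (Λ τ) = 0 ∧ ∀ c' : Fin (N + 1),
        ∃ w : DualNumber L, ∀ b,
          A.s2 (R := DualNumber L) (fun i => TrivSqZeroExt.inl (y i)) (dv o τ) b c' =
            w * dv y (Λ τ) b) ∧
      ∀ τ, A.IsT o τ → Λ τ = 0 → ∀ b d, τ d * o b = τ b * o d := by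
  obtain ⟨c₁, hc₁⟩ := Function.ne_iff.1 hy.ne_zero
  rw [Pi.zero_apply] at hc₁
  obtain ⟨C, hC, hS⟩ := s2_right hy ho
  set W := C * y c₁ with hW
  have hW0 : W ≠ 0 := mul_ne_zero hC hc₁
  let D : (Fin (N + 1) → L) →ₗ[L] (Fin (N + 1) → L) :=
    { toFun := fun τ b => ∑ i, τ i * aeval (Sum.elim y o) (pderiv (Sum.inr i) (A.S b c₁))
      map_add' := fun τ τ' => by
        funext b
        simp only [Pi.add_apply, add_mul, Finset.sum_add_distrib]
      map_smul' := fun c τ => by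
        funext b
        simp only [Pi.smul_apply, smul_eq_mul, Finset.mul_sum, RingHom.id_apply, mul_assoc] }
  have hD : ∀ τ b, D τ b = (A.s2 (R := DualNumber L) (fun i => TrivSqZeroExt.inl (y i))
      (dv o τ) b c₁).snd := fun τ b => (s2_snd_right y o τ b c₁).symm
  let Λ : (Fin (N + 1) → L) →ₗ[L] (Fin (N + 1) → L) :=
    { toFun := fun τ b => (D τ b - lf l (D τ) * y b) / W
      map_add' := fun τ τ' => by
        funext b
        rw [map_add]
        have : lf l (D τ + D τ') = lf l (D τ) + lf l (D τ') := lf_add l _ _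
        rw [this]
        simp only [Pi.add_apply]
        ring
      map_smul' := fun c τ => by
        funext b
        rw [map_smul]
        have : lf l (c • D τ) = c * lf l (D τ) := lf_smul l c _
        rw [this]
        simp only [Pi.smul_apply, smul_eq_mul, RingHom.id_apply]
        ring }
  have hΛ : ∀ τ b, Λ τ b = (D τ b - lf l (D τ) * y b) / W := fun τ b => rfl
  have hu : ∀ τ b, A.s2 (R := DualNumber L) (fun i => TrivSqZeroExt.inl (y i)) (dv o τ) b c₁ =
      (TrivSqZeroExt.inl W + TrivSqZeroExt.inr (lf l (D τ))) * dv y (Λ τ) b := by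
    intro τ b
    apply TrivSqZeroExt.ext
    · rw [s2_fst, TrivSqZeroExt.fst_mul, dv_fst]
      simp only [TrivSqZeroExt.fst_inl, dv_fst, TrivSqZeroExt.fst_add, TrivSqZeroExt.fst_inr,
        add_zero]
      have h2 : (fun i => (dv o τ i).fst) = o := funext fun i => dv_fst _ _ _
      rw [h2] at *
      rw [hS, hW]
      ring
    · rw [← hD, TrivSqZeroExt.snd_mul, dv_fst, dv_snd, hΛ]
      simp only [TrivSqZeroExt.fst_add, TrivSqZeroExt.fst_inl, TrivSqZeroExt.fst_inr, add_zero,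
        TrivSqZeroExt.snd_add, TrivSqZeroExt.snd_inl, TrivSqZeroExt.snd_inr, zero_add, smul_eq_mul,
        MulOpposite.smul_eq_mul_unop, MulOpposite.unop_op]
      field_simp
      ring
  have hwf : ∀ τ, (TrivSqZeroExt.inl W + TrivSqZeroExt.inr (lf l (D τ)) : DualNumber L).fst = W := by
    intro τ; simp
  refine ⟨Λ, ?_, ?_⟩
  · intro τ hτ
    obtain ⟨w', hw'⟩ := exists_unit_inv (w := TrivSqZeroExt.inl W +
      TrivSqZeroExt.inr (lf l (D τ))) (by rw [hwf]; exact hW0)
    have hpt := AV.col_isPt (inl_isPt hy.isPt) hτ c₁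
    refine ⟨?_, ?_, ?_⟩
    · have h2 : dv y (Λ τ) = fun b => w' *
          A.s2 (R := DualNumber L) (fun i => TrivSqZeroExt.inl (y i)) (dv o τ) b c₁ := by
        funext b
        rw [hu, ← mul_assoc, hw', one_mul]
      show A.IsPt (dv y (Λ τ))
      rw [h2]
      exact hpt.smul w'
    · have h2 : Λ τ = fun b => W⁻¹ * (D τ b - lf l (D τ) * y b) := by
        funext b
        rw [hΛ, div_eq_inv_mul]
      rw [h2, lf_smul, lf_sub, lf_smul, h1, mul_one, sub_self, mul_zero]
    · intro c'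
      have hfst : (A.s2 (R := DualNumber L) (fun i => TrivSqZeroExt.inl (y i)) (dv o τ)
          c₁ c₁).fst ≠ 0 := by
        rw [hu, TrivSqZeroExt.fst_mul, hwf, dv_fst]
        exact mul_ne_zero hW0 hc₁
      obtain ⟨w₂, hw₂⟩ := exists_unit_inv hfst
      refine ⟨w₂ * A.s2 (R := DualNumber L) (fun i => TrivSqZeroExt.inl (y i)) (dv o τ) c₁ c' *
        (TrivSqZeroExt.inl W + TrivSqZeroExt.inr (lf l (D τ))), fun b => ?_⟩
      have h3 := AV.rank_one (inl_isPt hy.isPt) hτ b c' c₁ c₁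
      rw [hu τ b] at h3
      calc A.s2 (R := DualNumber L) (fun i => TrivSqZeroExt.inl (y i)) (dv o τ) b c' =
          (w₂ * A.s2 (R := DualNumber L) (fun i => TrivSqZeroExt.inl (y i)) (dv o τ) c₁ c₁) *
            A.s2 (R := DualNumber L) (fun i => TrivSqZeroExt.inl (y i)) (dv o τ) b c' := by
            rw [hw₂, one_mul]
        _ = w₂ * (A.s2 (R := DualNumber L) (fun i => TrivSqZeroExt.inl (y i)) (dv o τ) b c' *
            A.s2 (R := DualNumber L) (fun i => TrivSqZeroExt.inl (y i)) (dv o τ) c₁ c₁) := by ring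
        _ = _ := by rw [h3]; ring
  · intro τ hτ h0 b d
    obtain ⟨w', hw'⟩ := exists_unit_inv (w := TrivSqZeroExt.inl W +
      TrivSqZeroExt.inr (lf l (D τ))) (by rw [hwf]; exact hW0)
    set w := (TrivSqZeroExt.inl W + TrivSqZeroExt.inr (lf l (D τ)) : DualNumber L) with hw
    have hu0 : (fun i => A.s2 (R := DualNumber L) (fun i => TrivSqZeroExt.inl (y i)) (dv o τ) i c₁) =
        fun i => w * TrivSqZeroExt.inl (y i) := by
      funext i
      rw [hu, h0, dv_zero]
    obtain ⟨C', hC', hS'⟩ := s2_same hy ho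
    obtain ⟨a, ha⟩ := Function.ne_iff.1 (AV.Rep.self (P + P)).ne_zero
    rw [Pi.zero_apply] at ha
    have h3 := AV.add_sub_left (inl_isPt hy.isPt) hτ a b c₁ d
    rw [hu0, s2_smul_left, s2_smul_left, s2_inl, s2_inl, hS', hS'] at h3
    have hg : C' * A.x (P + P) a ≠ 0 := mul_ne_zero hC' ha
    rw [← mul_assoc C', ← mul_assoc C'] at h3
    have h4 := dn_cancel hw' hg h3
    have h8 := congrArg TrivSqZeroExt.snd h4
    simpa [dv] using h8

/-- Translation of tangent vectors to the origin. -/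
theorem exists_Gam {P : A.Pts L} {y o : Fin (N + 1) → L} (hy : A.Rep P y) (ho : A.Rep 0 o)
    (l : Fin (N + 1) → K) (h1 : lf l y = 1) {b₀ : Fin (N + 1)} (hb₀ : o b₀ ≠ 0) :
    ∃ Γ : (Fin (N + 1) → L) →ₗ[L] (Fin (N + 1) → L),
      (∀ τ, A.IsT y τ → A.IsT o (Γ τ) ∧ Γ τ b₀ = 0) ∧
      ∀ τ, A.IsT y τ → lf l τ = 0 → Γ τ = 0 → τ = 0 := by
  obtain ⟨C, hC, hS⟩ := s2_same hy ho
  obtain ⟨a₁, ha₁⟩ := Function.ne_iff.1 (AV.Rep.self (P + P)).ne_zero
  rw [Pi.zero_apply] at ha₁
  set W := C * A.x (P + P) a₁ with hW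
  have hW0 : W ≠ 0 := mul_ne_zero hC ha₁
  let D : (Fin (N + 1) → L) →ₗ[L] (Fin (N + 1) → L) :=
    { toFun := fun τ b => ∑ i, τ i * aeval (Sum.elim y y) (pderiv (Sum.inl i) (A.S a₁ b))
      map_add' := fun τ τ' => by
        funext b
        simp only [Pi.add_apply, add_mul, Finset.sum_add_distrib]
      map_smul' := fun c τ => by
        funext b
        simp only [Pi.smul_apply, smul_eq_mul, Finset.mul_sum, RingHom.id_apply, mul_assoc] }
  have hD : ∀ τ b, D τ b = (A.s2 (R := DualNumber L) (dv y τ)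
      (fun i => TrivSqZeroExt.inl (y i)) a₁ b).snd := fun τ b => (s2_snd_left y y τ a₁ b).symm
  let Γ : (Fin (N + 1) → L) →ₗ[L] (Fin (N + 1) → L) :=
    { toFun := fun τ b => (D τ b - D τ b₀ / o b₀ * o b) / W
      map_add' := fun τ τ' => by
        funext b
        rw [map_add]
        simp only [Pi.add_apply]
        ring
      map_smul' := fun c τ => by
        funext b
        rw [map_smul]
        simp only [Pi.smul_apply, smul_eq_mul, RingHom.id_apply]
        ring }
  have hΓ : ∀ τ b, Γ τ b = (D τ b - D τ b₀ / o b₀ * o b) / W := fun τ b => rfl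
  have hu : ∀ τ b, A.s2 (R := DualNumber L) (dv y τ) (fun i => TrivSqZeroExt.inl (y i)) a₁ b =
      (TrivSqZeroExt.inl W + TrivSqZeroExt.inr (D τ b₀ / o b₀)) * dv o (Γ τ) b := by
    intro τ b
    apply TrivSqZeroExt.ext
    · rw [s2_fst, TrivSqZeroExt.fst_mul, dv_fst]
      simp only [TrivSqZeroExt.fst_inl, dv_fst, TrivSqZeroExt.fst_add, TrivSqZeroExt.fst_inr,
        add_zero]
      have h2 : (fun i => (dv y τ i).fst) = y := funext fun i => dv_fst _ _ _
      rw [h2] at *
      rw [hS, hW]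
      ring
    · rw [← hD, TrivSqZeroExt.snd_mul, dv_fst, dv_snd, hΓ]
      simp only [TrivSqZeroExt.fst_add, TrivSqZeroExt.fst_inl, TrivSqZeroExt.fst_inr, add_zero,
        TrivSqZeroExt.snd_add, TrivSqZeroExt.snd_inl, TrivSqZeroExt.snd_inr, zero_add, smul_eq_mul,
        MulOpposite.smul_eq_mul_unop, MulOpposite.unop_op]
      field_simp
      ring
  have hwf : ∀ τ, (TrivSqZeroExt.inl W + TrivSqZeroExt.inr (D τ b₀ / o b₀) :
      DualNumber L).fst = W := by
    intro τ; simp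
  refine ⟨Γ, ?_, ?_⟩
  · intro τ hτ
    obtain ⟨w', hw'⟩ := exists_unit_inv (w := TrivSqZeroExt.inl W +
      TrivSqZeroExt.inr (D τ b₀ / o b₀)) (by rw [hwf]; exact hW0)
    have hpt := AV.row_isPt hτ (inl_isPt hy.isPt) a₁
    refine ⟨?_, ?_⟩
    · have h2 : dv o (Γ τ) = fun b => w' *
          A.s2 (R := DualNumber L) (dv y τ) (fun i => TrivSqZeroExt.inl (y i)) a₁ b := by
        funext b
        rw [hu, ← mul_assoc, hw', one_mul]
      show A.IsPt (dv o (Γ τ))
      rw [h2]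
      exact hpt.smul w'
    · rw [hΓ, div_mul_cancel₀ _ hb₀, sub_self, zero_div]
  · intro τ hτ hl h0
    obtain ⟨w', hw'⟩ := exists_unit_inv (w := TrivSqZeroExt.inl W +
      TrivSqZeroExt.inr (D τ b₀ / o b₀)) (by rw [hwf]; exact hW0)
    set w := (TrivSqZeroExt.inl W + TrivSqZeroExt.inr (D τ b₀ / o b₀) : DualNumber L) with hw
    have hu0 : (fun i => A.s2 (R := DualNumber L) (dv y τ)
        (fun i => TrivSqZeroExt.inl (y i)) a₁ i) = fun i => w * TrivSqZeroExt.inl (o i) := by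
      funext i
      rw [hu, h0, dv_zero]
    obtain ⟨C', hC', hS'⟩ := s2_left hy ho
    obtain ⟨b, hb⟩ := Function.ne_iff.1 (AV.Rep.self (-P)).ne_zero
    rw [Pi.zero_apply] at hb
    have hg : C' * A.x (-P) b ≠ 0 := mul_ne_zero hC' hb
    have key : ∀ a d, τ d * y a = τ a * y d := by
      intro a d
      have h3 := AV.sub_add_right hτ (inl_isPt hy.isPt) a b a₁ d
      rw [hu0, s2_smul_left, s2_smul_left, s2_inl, s2_inl, hS', hS'] at h3
      have e1 : ∀ q, C' * (y q * A.x (-P) b) = C' * A.x (-P) b * y q := fun q => by ring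
      rw [e1, e1] at h3
      have h4 := dn_cancel hw' hg h3
      have h8 := congrArg TrivSqZeroExt.snd h4
      simpa [dv] using h8
    funext d
    have h5 : lf l (fun a => τ d * y a) = lf l fun a => y d * τ a := by
      congr 1
      funext a
      rw [key a d, mul_comm]
    rw [lf_smul, lf_smul, h1, hl, mul_one, mul_zero] at h5
    exact h5

end

end Pool.Agent.Lib.MP_17a322_nt.VA
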