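import Pool.Agent.Lib.MP_17a322_nt.VA.T5

/-!
The tangent vectors at the origin are the combinations of the vectors of a frame.
-/

universe u

namespace Pool.Agent.Lib.MP_17a322_nt.VA

open MvPolynomial

section

variable {K : Type u} [Field K] {N : ℕ} {A : AV K N}

theorem AV.TS_finrank_le {n e : ℕ} (nd : Noe A n e) {o : Fin (N + 1) → K}
    (hor : A.Rep (0 : A.Pts K) o) : Module.finrank K (AV.TS hor.isPt) ≤ n + 1 := by
  classical
  have ho := hor.isPt
  obtain ⟨L, _, _, P, hl, hind⟩ := nd.indep
  set x := A.x P with hx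
  set y : Fin (N + 1) → L := fun i => (lf (nd.l 0) x)⁻¹ * x i with hy
  have hyr : A.Rep P y := (AV.Rep.self P).smul (inv_ne_zero hl)
  have h1 : lf (nd.l 0) y = 1 := by rw [hy, lf_smul, inv_mul_cancel₀ hl]
  have hs : (fun k : Fin n => lf (nd.l k.succ) y) =
      fun k : Fin n => lf (nd.l k.succ) x / lf (nd.l 0) x := by
    funext k
    rw [hy, lf_smul, div_eq_inv_mul]
  have hδ : aeval (fun k : Fin n => lf (nd.l k.succ) y) nd.δ ≠ 0 := by
    rw [hs]
    intro h
    exact nd.δ_ne ((algebraicIndependent_iff.1 hind) nd.δ h)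
  have hoL : A.Rep (0 : A.Pts L) fun i => algebraMap K L (o i) := by
    have h2 := hor.img (Algebra.ofId K L)
    rw [AV.img_zero] at h2
    exact h2
  obtain ⟨b₀, hb₀⟩ := Function.ne_iff.1 hoL.ne_zero
  rw [Pi.zero_apply] at hb₀
  obtain ⟨Λ, hΛ, hΛ'⟩ := exists_Lam hyr hoL (nd.l 0) h1
  let v := Module.finBasis K (AV.TS ho)
  let w : Fin (Module.finrank K (AV.TS ho)) → Fin (N + 1) → L := fun j =>
    algebraMap K L ∘ (v j : Fin (N + 1) → K)
  have hv : LinearIndependent K fun j => (v j : Fin (N + 1) → K) :=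
    v.linearIndependent.map' (Submodule.subtype (AV.TS ho)) (Submodule.ker_subtype _)
  have hw : LinearIndependent L w := linearIndependent_algebraMap_comp_iff.2 hv
  let W : Submodule L (Fin (N + 1) → L) := Submodule.span L (Set.range w)
  have hW : W ≤ AV.TS hoL.isPt := by
    refine Submodule.span_le.2 ?_
    rintro _ ⟨j, rfl⟩
    have h2 : A.IsT o (v j : Fin (N + 1) → K) := (v j).2
    have h3 := AV.isT_iff.1 h2
    show A.IsT _ _
    rw [AV.isT_iff]
    intro f hf
    refine ⟨hoL.isPt f hf, ?_⟩
    simp only [aeval_algebraMap_self]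
    have h4 := congrArg (algebraMap K L) (h3 f hf).2
    rw [map_sum, map_zero] at h4
    rw [← h4]
    exact Finset.sum_congr rfl fun i _ => by rw [map_mul]; rfl
  let Ψ : W →ₗ[L] (Fin n → L) :=
    { toFun := fun τ k => lf (nd.l k.succ) (Λ τ)
      map_add' := fun τ τ' => by
        funext k
        have : Λ ((τ + τ' : W) : Fin (N + 1) → L) = fun i => Λ τ i + Λ τ' i := by
          rw [Submodule.coe_add, map_add]
          rfl
        rw [this, lf_add]
        rfl
      map_smul' := fun c τ => by
        funext k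
        have : Λ ((c • τ : W) : Fin (N + 1) → L) = fun i => c * Λ τ i := by
          rw [Submodule.coe_smul, map_smul]
          rfl
        rw [this, lf_smul]
        rfl }
  have hker : Module.finrank L (LinearMap.ker Ψ) ≤ 1 := by
    have h2 : ∀ τ : LinearMap.ker Ψ, ∃ c : L, ((τ : W) : Fin (N + 1) → L) =
        fun i => c * algebraMap K L (o i) := by
      rintro ⟨τ, hτ⟩
      have h3 : A.IsT _ (τ : Fin (N + 1) → L) := hW τ.2
      have h4 : ∀ k : Fin n, lf (nd.l k.succ) (Λ τ) = 0 := fun k =>
        congrFun (LinearMap.mem_ker.1 hτ) k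
      have h5 := nd.tan_inj hyr.isPt h1 hδ (hΛ τ h3).1 (hΛ τ h3).2.1 h4
      have h6 := hΛ' τ h3 h5
      refine ⟨(τ : Fin (N + 1) → L) b₀ / algebraMap K L (o b₀), ?_⟩
      funext i
      have h7 := h6 b₀ i
      show (τ : Fin (N + 1) → L) i = _
      field_simp
      linear_combination h7
    by_cases hbot : LinearMap.ker Ψ = ⊥
    · rw [hbot, finrank_bot]
      exact Nat.zero_le 1
    · obtain ⟨τ₀, hτ₀, hne⟩ := Submodule.exists_mem_ne_zero_of_ne_bot hbot
      refine finrank_le_one (⟨τ₀, hτ₀⟩ : LinearMap.ker Ψ) fun τ => ?_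
      obtain ⟨c, hc⟩ := h2 ⟨τ₀, hτ₀⟩
      obtain ⟨c', hc'⟩ := h2 τ
      have hc0 : c ≠ 0 := by
        rintro rfl
        apply hne
        apply Subtype.ext
        rw [show (τ₀ : Fin (N + 1) → L) = _ from hc]
        funext i
        simp
      refine ⟨c' / c, ?_⟩
      apply Subtype.ext
      apply Subtype.ext
      funext i
      have e1 : ((⟨τ₀, hτ₀⟩ : LinearMap.ker Ψ) : W).1 i = c * algebraMap K L (o i) := congrFun hc i
      have e2 : ((τ : LinearMap.ker Ψ) : W).1 i = c' * algebraMap K L (o i) := congrFun hc' i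
      rw [e2]
      show c' / c * ((⟨τ₀, hτ₀⟩ : LinearMap.ker Ψ) : W).1 i = _
      rw [e1]
      field_simp
  have hrn := LinearMap.finrank_range_add_finrank_ker Ψ
  have h8 : Module.finrank L (LinearMap.range Ψ) ≤ n := by
    refine (Submodule.finrank_le _).trans ?_
    rw [Module.finrank_fin_fun]
  have h9 : Module.finrank L W = Module.finrank K (AV.TS ho) := by
    have := finrank_span_eq_card hw
    rw [this, Fintype.card_fin]
  omega

theorem AV.frame_span {n e : ℕ} (nd : Noe A n e) {o : Fin (N + 1) → K}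
    {t : Fin n → Fin (N + 1) → K} (ht : A.Frame o t) {L : Type u} [Field L] [Algebra K L]
    {τ : Fin (N + 1) → L} (hτ : A.IsT (fun i => algebraMap K L (o i)) τ) :
    ∃ (c : L) (lam : Fin n → L), ∀ b, τ b = c * algebraMap K L (o b) +
      ∑ a, lam a * algebraMap K L (t a b) := by
  classical
  have hor : A.Rep (0 : A.Pts K) o := by
    have h := ht.rep (L := K)
    exact h
  have hoL := ht.rep (L := L)
  let w : Fin (n + 1) → Fin (N + 1) → L := Fin.cons (α := fun _ => Fin (N + 1) → L)
    (fun i => algebraMap K L (o i)) fun a i => algebraMap K L (t a i)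
  have hw : LinearIndependent L w := by
    rw [Fintype.linearIndependent_iff]
    intro g hg
    rw [Fin.sum_univ_succ] at hg
    simp only [w, Fin.cons_zero, Fin.cons_succ] at hg
    obtain ⟨h0, h1⟩ := ht.indepL (g 0) (fun a => g a.succ) fun b => by
      have := congrFun hg b
      simpa using this
    intro i
    exact Fin.cases h0 h1 i
  have hmem : τ ∈ Submodule.span L (Set.range w) := by
    by_contra hcon
    have h1 : LinearIndependent L (Fin.cons (α := fun _ => Fin (N + 1) → L) τ w) :=
      linearIndependent_finCons.2 ⟨hw, hcon⟩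
    have h2 := AV.TS_descend hor.isPt _ h1 (by
      intro j
      refine Fin.cases ?_ (fun k => ?_) j
      · rw [Fin.cons_zero]
        exact hτ
      · rw [Fin.cons_succ]
        refine Fin.cases ?_ (fun a => ?_) k
        · have h2 := (inl_isPt hoL.isPt).smul (TrivSqZeroExt.inl 1 + TrivSqZeroExt.inr 1)
          have h3 : (fun i => (TrivSqZeroExt.inl 1 + TrivSqZeroExt.inr 1 : DualNumber L) *
              TrivSqZeroExt.inl (algebraMap K L (o i))) =
              dv (fun i => algebraMap K L (o i)) fun i => algebraMap K L (o i) := by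
            apply eq_dv
            · intro i; simp
            · intro i; simp
          show A.IsPt (dv _ _)
          rw [h3] at h2
          exact h2
        · exact ht.isT a)
    have h3 := AV.TS_finrank_le nd hor
    omega
  obtain ⟨g, hg⟩ := (Submodule.mem_span_range_iff_exists_fun L).1 hmem
  refine ⟨g 0, fun a => g a.succ, fun b => ?_⟩
  rw [← hg, Finset.sum_apply, Fin.sum_univ_succ]
  rfl

end

end Pool.Agent.Lib.MP_17a322_nt.VA
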