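import Pool.Agent.Lib.MP_17a322_nt.VA.Z0

/-!
Specialisation of points along a valuation ring.

`R` is a valuation ring that contains `K`, `F` its field of fractions, `π : R → k` a local
homomorphism into a field (for example the residue field).
-/

universe u

namespace Pool.Agent.Lib.MP_17a322_nt.VA

open MvPolynomial

section

variable {K : Type u} [Field K] {N : ℕ} (A : AV K N)
  {R F k : Type u} [CommRing R] [IsDomain R] [ValuationRing R] [Field F] [Field k]
  [Algebra K R] [Algebra K F] [Algebra K k] [Algebra R F] [IsFractionRing R F]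
  [IsScalarTower K R F] (π : R →ₐ[K] k)

/-- The point `p` is the specialisation of the point `P`. -/
def IsSp (P : A.Pts F) (p : A.Pts k) : Prop :=
  ∃ (y : Fin (N + 1) → R) (c : F) (d : k), c ≠ 0 ∧ d ≠ 0 ∧
    (∀ i, A.x P i = c * algebraMap R F (y i)) ∧ ∀ i, π (y i) = d * A.x p i

/-- Normalisation of vectors. -/
theorem Z_normalise {N : ℕ} {R F : Type u} [CommRing R] [IsDomain R] [ValuationRing R] [Field F]
    [Algebra R F] [IsFractionRing R F] {x : Fin (N + 1) → F}
    (hx : x ≠ 0) : ∃ (y : Fin (N + 1) → R) (c : F) (i₀ : Fin (N + 1)), c ≠ 0 ∧ y i₀ = 1 ∧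
      ∀ i, x i = c * algebraMap R F (y i) := by
  obtain ⟨i₀, hi₀⟩ := Finite.exists_max fun i => ValuationRing.valuation R F (x i)
  have h0 : x i₀ ≠ 0 := by
    intro h0
    refine hx (funext fun i => ?_)
    have h1 := hi₀ i
    rw [h0, map_zero, le_zero_iff, map_eq_zero] at h1
    exact h1
  have h1 : ∀ i, ∃ a : R, algebraMap R F a = x i / x i₀ := by
    intro i
    rw [← ValuationRing.mem_integer_iff, Valuation.mem_integer_iff, map_div₀]
    exact div_le_one_of_le₀ (hi₀ i) zero_le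
  choose y hy using h1
  refine ⟨y, x i₀, i₀, h0, ?_, fun i => ?_⟩
  · refine IsFractionRing.injective R F ?_
    rw [hy, div_self h0, map_one]
  · rw [hy, mul_div_cancel₀ _ h0]

omit [ValuationRing R] in
theorem Z_isPt_of_map {P : A.Pts F} {y : Fin (N + 1) → R} {c : F}
    (hc : c ≠ 0) (h : ∀ i, A.x P i = c * algebraMap R F (y i)) : A.IsPt y := by
  intro f hf
  refine IsFractionRing.injective R F ?_
  rw [map_zero, ← aeval_algebraMap_apply]
  have h1 := Z_isPt_smul A (Z_x_isPt A P) c⁻¹ f hf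
  have h2 : (fun i => c⁻¹ * A.x P i) = fun i => algebraMap R F (y i) := by
    funext i
    rw [h, inv_mul_cancel_left₀ hc]
  rw [h2] at h1
  exact h1

theorem exists_isSp (P : A.Pts F) : ∃ p : A.Pts k, IsSp A π P p := by
  obtain ⟨y, c, i₀, hc, hy, h⟩ := Z_normalise (R := R) (Z_x_ne A P)
  have h1 : A.IsPt y := Z_isPt_of_map A hc h
  have h2 : A.IsPt fun i => π (y i) := by
    intro f hf
    have h3 : aeval (fun i => π (y i)) f = π (aeval y f) := by
      rw [← AlgHom.comp_apply]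
      congr 1
      refine MvPolynomial.algHom_ext fun i => ?_
      simp
    rw [h3, h1 f hf, map_zero]
  have h3 : (fun i => π (y i)) ≠ 0 := by
    intro h4
    have h5 := congrFun h4 i₀
    simp only [hy, map_one, Pi.zero_apply] at h5
    exact one_ne_zero h5
  obtain ⟨p, d, hd, hp⟩ := Z_exists_pt A h3 h2
  exact ⟨p, y, c, d⁻¹, hc, inv_ne_zero hd, h, fun i => by rw [hp, inv_mul_cancel_left₀ hd]⟩

omit [IsDomain R] [ValuationRing R] [IsFractionRing R F] in
private theorem Z1_unit [IsLocalHom π.toRingHom] {a : R} (h : π a ≠ 0) : IsUnit a :=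
  IsLocalHom.map_nonunit (f := π.toRingHom) a (isUnit_iff_ne_zero.2 h)

omit [ValuationRing R] [IsScalarTower K R F] in
theorem IsSp.unique [IsLocalHom π.toRingHom] {P : A.Pts F} {p p' : A.Pts k} (h : IsSp A π P p) (h' : IsSp A π P p') :
    p = p' := by
  obtain ⟨y, c, d, hc, hd, h1, h2⟩ := h
  obtain ⟨y', c', d', hc', hd', h1', h2'⟩ := h'
  obtain ⟨i, hi⟩ : ∃ i, π (y i) ≠ 0 := by
    by_contra hcon
    push Not at hcon
    refine Z_x_ne A p (funext fun i => ?_)
    have h3 := h2 i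
    rw [hcon] at h3
    exact (mul_eq_zero.1 h3.symm).resolve_left hd
  obtain ⟨j, hj⟩ : ∃ i, π (y' i) ≠ 0 := by
    by_contra hcon
    push Not at hcon
    refine Z_x_ne A p' (funext fun i => ?_)
    have h3 := h2' i
    rw [hcon] at h3
    exact (mul_eq_zero.1 h3.symm).resolve_left hd'
  obtain ⟨u, hu⟩ := Z1_unit π hj
  -- `y = l y'`
  have hyy : ∀ t, y t * y' j = y j * y' t := by
    intro t
    refine IsFractionRing.injective R F ?_
    rw [map_mul, map_mul]
    have e1 := h1 t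
    have e2 := h1' t
    have e3 := h1 j
    have e4 := h1' j
    rw [e2] at e1
    rw [e4] at e3
    refine mul_left_cancel₀ (mul_ne_zero hc hc') ?_
    linear_combination (-(c' * algebraMap R F (y' j))) * e1 + (c' * algebraMap R F (y' t)) * e3
  have hyj : π (y j) ≠ 0 := by
    intro h3
    have h4 := congrArg π (hyy i)
    rw [map_mul, map_mul, h3, zero_mul] at h4
    exact (mul_ne_zero hi hj) h4
  refine Z_ext A (c := d⁻¹ * (π (y j) / π (y' j)) * d')
    (mul_ne_zero (mul_ne_zero (inv_ne_zero hd) (div_ne_zero hyj hj)) hd') fun t => ?_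
  have h5 := congrArg π (hyy t)
  rw [map_mul, map_mul] at h5
  have h6 : A.x p t = d⁻¹ * π (y t) := by rw [h2, inv_mul_cancel_left₀ hd]
  rw [h6, mul_assoc _ d', ← h2' t]
  field_simp
  linear_combination h5

/-- The specialisation is additive. -/
theorem IsSp.add_sub {P Q : A.Pts F} {p q : A.Pts k} (hP : IsSp A π P p) (hQ : IsSp A π Q q) :
    IsSp A π (P + Q) (p + q) ∧ IsSp A π (P - Q) (p - q) := by
  obtain ⟨y, c₁, d₁, hc₁, hd₁, h1, h1'⟩ := hP
  obtain ⟨z, c₂, d₂, hc₂, hd₂, h2, h2'⟩ := hQ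
  obtain ⟨r, c₃, i₃, hc₃, hr, h3⟩ := Z_normalise (R := R) (Z_x_ne A (P + Q))
  obtain ⟨w, c₄, i₄, hc₄, hw, h4⟩ := Z_normalise (R := R) (Z_x_ne A (P - Q))
  obtain ⟨C, hC, hS⟩ := A.spec F P Q
  obtain ⟨C', hC', hS'⟩ := A.spec k p q
  -- the relation over `F`
  have e1 : ∀ a b, aeval (Sum.elim (fun i => algebraMap R F (y i)) fun i => algebraMap R F (z i))
      (A.S a b) = (C * c₃ * c₄ / (c₁ ^ 2 * c₂ ^ 2)) *
        (algebraMap R F (r a) * algebraMap R F (w b)) := by
    intro a b
    have h5 := hS a b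
    have h6 : (Sum.elim P.1.rep Q.1.rep : Fin (N + 1) ⊕ Fin (N + 1) → F) =
        Sum.elim (fun i => c₁ * algebraMap R F (y i)) fun i => c₂ * algebraMap R F (z i) := by
      congr 1
      · funext i
        exact h1 i
      · funext i
        exact h2 i
    rw [h6, Z_S_smul A] at h5
    have h7 : ((P + Q).1.rep a : F) = c₃ * algebraMap R F (r a) := h3 a
    have h8 : ((P - Q).1.rep b : F) = c₄ * algebraMap R F (w b) := h4 b
    have h9 : c₁ ^ 2 * c₂ ^ 2 * aeval (Sum.elim (fun i => algebraMap R F (y i))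
        fun i => algebraMap R F (z i)) (A.S a b) =
        C * ((c₃ * algebraMap R F (r a)) * (c₄ * algebraMap R F (w b))) := by
      rw [h5, ← h7, ← h8]
      rfl
    field_simp
    linear_combination h9
  have e2 : ∀ a b, aeval (Sum.elim (fun i => algebraMap R F (y i)) fun i => algebraMap R F (z i))
      (A.S a b) = algebraMap R F (aeval (Sum.elim y z) (A.S a b)) := by
    intro a b
    rw [← aeval_algebraMap_apply]
    congr 2
    funext i
    rcases i with i | i
    · rfl
    · rfl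
  -- the relation over `k`
  have e3 : ∀ a b, π (aeval (Sum.elim y z) (A.S a b)) =
      d₁ ^ 2 * d₂ ^ 2 * (C' * (A.x (p + q) a * A.x (p - q) b)) := by
    intro a b
    have h5 : π (aeval (Sum.elim y z) (A.S a b)) =
        aeval (Sum.elim (fun i => d₁ * A.x p i) fun i => d₂ * A.x q i) (A.S a b) := by
      rw [← AlgHom.comp_apply]
      congr 1
      refine MvPolynomial.algHom_ext fun i => ?_
      rcases i with i | i
      · simp [h1' i]
      · simp [h2' i]
    rw [h5, Z_S_smul A]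
    congr 1
    exact hS' a b
  obtain ⟨γ, hγ⟩ : ∃ γ : R, algebraMap R F γ = C * c₃ * c₄ / (c₁ ^ 2 * c₂ ^ 2) := by
    refine ⟨aeval (Sum.elim y z) (A.S i₃ i₄), ?_⟩
    rw [← e2, e1, hr, hw, map_one, mul_one, mul_one]
  have e4 : ∀ a b, aeval (Sum.elim y z) (A.S a b) = γ * (r a * w b) := by
    intro a b
    refine IsFractionRing.injective R F ?_
    rw [← e2, e1, map_mul, map_mul, hγ]
  have e5 : ∀ a b, A.x (p + q) a * A.x (p - q) b =
      (π γ / (d₁ ^ 2 * d₂ ^ 2 * C')) * (π (r a) * π (w b)) := by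
    intro a b
    have h5 := e3 a b
    rw [e4, map_mul, map_mul] at h5
    field_simp
    linear_combination -h5
  obtain ⟨⟨l, hl, hl'⟩, ⟨l₂, hl₂, hl₂'⟩⟩ :=
    Z_rank_one (Z_x_ne A (p + q)) (Z_x_ne A (p - q)) _ e5
  refine ⟨⟨r, c₃, l⁻¹, hc₃, inv_ne_zero hl, h3, fun i => ?_⟩,
    ⟨w, c₄, l₂⁻¹, hc₄, inv_ne_zero hl₂, h4, fun i => ?_⟩⟩
  · rw [hl', inv_mul_cancel_left₀ hl]
  · rw [hl₂', inv_mul_cancel_left₀ hl₂]

theorem IsSp.zero [IsLocalHom π.toRingHom] : IsSp A π (0 : A.Pts F) 0 := by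
  obtain ⟨p, hp⟩ := exists_isSp A π (0 : A.Pts F)
  have h := (hp.add_sub A π hp).2
  rw [sub_self, sub_self] at h
  exact h

theorem IsSp.neg [IsLocalHom π.toRingHom] {P : A.Pts F} {p : A.Pts k} (h : IsSp A π P p) :
    IsSp A π (-P) (-p) := by
  have h1 := ((IsSp.zero A π).add_sub A π h).2
  rw [zero_sub, zero_sub] at h1
  exact h1

theorem IsSp.nsmul [IsLocalHom π.toRingHom] {P : A.Pts F} {p : A.Pts k} (h : IsSp A π P p)
    (n : ℕ) : IsSp A π (n • P) (n • p) := by
  induction n with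
  | zero =>
    rw [zero_smul, zero_smul]
    exact IsSp.zero A π
  | succ n ih =>
    rw [succ_nsmul, succ_nsmul]
    exact (ih.add_sub A π h).1

omit [ValuationRing R] in
/-- The specialisation of a point with coordinates in a subfield of the valuation ring. -/
theorem IsSp.of_img {L : Type u} [Field L] [Algebra K L] (ι : L →ₐ[K] R) {P₀ : A.Pts L}
    {P : A.Pts F} {p : A.Pts k} (hP : A.Img ((IsScalarTower.toAlgHom K R F).comp ι) P₀ P)
    (hp : A.Img (π.comp ι) P₀ p) : IsSp A π P p := by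
  obtain ⟨c, hc, h1⟩ := hP
  obtain ⟨d, hd, h2⟩ := hp
  refine ⟨fun i => ι (A.x P₀ i), c⁻¹, d, inv_ne_zero hc, hd, fun i => ?_, fun i => h2 i⟩
  have h3 : algebraMap R F (ι (A.x P₀ i)) = c * A.x P i := h1 i
  rw [h3, inv_mul_cancel_left₀ hc]

end

end Pool.Agent.Lib.MP_17a322_nt.VA
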