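import Pool.Agent.Lib.MP_17a322_nt.VA.Z9
import Pool.Agent.Lib.MP_17a322_nt.VA.Z11
import Pool.Agent.Lib.MP_17a322_nt.VA.A1

/-!
The gain in one chart.
-/

universe u

namespace Pool.Agent.Lib.MP_17a322_nt.VA

open MvPolynomial Height Filter
open Pool.Agent.Lib.MP_17a322_nt.RO
open Pool.Agent.Lib.MP_17a322_nt.VJ
open Pool.Agent.Lib.MP_17a322_nt.VN

/-- Finite transcendence degrees. -/
theorem Z_tdeg_absurd {K : Type u} [Field K] {N : ℕ} {A : AV K N} {L L' L'' : Type u} [Field L]
    [Algebra K L] [Field L'] [Algebra K L'] [Field L''] [Algebra K L''] {p : A.Pts L}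
    {p' : A.Pts L'} {q : A.Pts L''} (h1 : tdeg K (A.x p) ≤ tdeg K (A.x p') + 1)
    (h2 : tdeg K (A.x p') + 2 ≤ tdeg K (A.x q)) (h3 : tdeg K (A.x q) ≤ tdeg K (A.x p)) : False := by
  obtain ⟨T₁, -, -, hc₁⟩ := Z_exists_basis (K := K) (A.x p)
  obtain ⟨T₂, -, -, hc₂⟩ := Z_exists_basis (K := K) (A.x p')
  obtain ⟨T₃, -, -, hc₃⟩ := Z_exists_basis (K := K) (A.x q)
  rw [hc₁, hc₂] at h1
  rw [hc₂, hc₃] at h2
  rw [hc₁, hc₃] at h3
  have g1 : Nat.card T₁ ≤ Nat.card T₂ + 1 := by exact_mod_cast h1
  have g2 : Nat.card T₂ + 2 ≤ Nat.card T₃ := by exact_mod_cast h2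
  have g3 : Nat.card T₃ ≤ Nat.card T₁ := by exact_mod_cast h3
  omega

section

variable {K : Type u} [Field K] [NumberField K] {N : ℕ} {A B : AV K N} (hB : IsSubAV B A)
  {H : ℕ → ℝ} (hH : Tendsto H (hyperfilter ℕ : Filter ℕ) atTop)

/-- The coordinates are algebraic over the Noether coordinates. -/
theorem Z_algebraic {δ : ℕ} (hδ : 0 < δ) {w : A.Pts (k0 K H hH)} {w' : A.Pts (GK K)}
    (hw : A.Img (k0 K H hH).val w w') {p : A.Pts (GK K)} {b : B.Pts (GK K)}
    (hP : δ • p = w' + hB.inc (GK K) b) {n e : ℕ} (nd : Noe B n e)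
    (hl : lf (nd.l 0) (B.x b) ≠ 0) (a : Fin (N + 1)) (i : Fin (N + 1) ⊕ Fin (N + 1)) :
    IsAlgebraic (Algebra.adjoin (k0 K H hH) (Set.range (nd.s b)))
      (Sum.elim (fun i => A.x p i / A.x p a) (nd.y b) i) := by
  obtain ⟨E, hE⟩ : ∃ E : IntermediateField K (GK K), ∀ c, c ∈ E ↔
      IsAlgebraic (IntermediateField.adjoin (k0 K H hH) (Set.range (nd.s b))) c :=
    ⟨(algebraicClosure (IntermediateField.adjoin (k0 K H hH) (Set.range (nd.s b)))
      (GK K)).toSubfield.toIntermediateField (fun c => mem_algebraicClosure_iff.2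
        (isAlgebraic_algebraMap (algebraMap (k0 K H hH) (IntermediateField.adjoin (k0 K H hH)
          (Set.range (nd.s b))) (algebraMap K (k0 K H hH) c)))),
      fun c => mem_algebraicClosure_iff⟩
  have hk : ∀ c : k0 K H hH, (c : GK K) ∈ E := fun c => by
    rw [hE]
    exact isAlgebraic_algebraMap
      (algebraMap (k0 K H hH) (IntermediateField.adjoin (k0 K H hH) (Set.range (nd.s b))) c)
  have hEalg : ∀ c, IsAlgebraic E c → c ∈ E := by
    intro c hc
    rw [hE]
    have h1 : ∀ x ∈ IntermediateField.adjoin (k0 K H hH) (Set.range (nd.s b)), x ∈ E :=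
      fun x hx => by
        rw [hE]
        exact isAlgebraic_algebraMap
          (⟨x, hx⟩ : IntermediateField.adjoin (k0 K H hH) (Set.range (nd.s b)))
    let _ : Algebra (IntermediateField.adjoin (k0 K H hH) (Set.range (nd.s b))) E :=
      ((algebraMap (IntermediateField.adjoin (k0 K H hH) (Set.range (nd.s b)))
        (GK K)).codRestrict E.toSubring fun x => h1 _ x.2).toAlgebra
    have i7 : IsScalarTower (IntermediateField.adjoin (k0 K H hH) (Set.range (nd.s b))) E (GK K) :=
      IsScalarTower.of_algebraMap_eq fun _ => rfl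
    have i8 : Algebra.IsAlgebraic
        (IntermediateField.adjoin (k0 K H hH) (Set.range (nd.s b))) E := by
      refine ⟨fun e => ?_⟩
      have h2 := (hE e).1 e.2
      exact (isAlgebraic_algebraMap_iff
        (R := IntermediateField.adjoin (k0 K H hH) (Set.range (nd.s b)))
        (algebraMap E (GK K)).injective).1 h2
    exact hc.restrictScalars _
  -- the affine coordinates of `b`
  have hy : ∀ j, nd.y b j ∈ E := by
    intro j
    rw [hE]
    have h1 := (Z_integral nd hl j).isAlgebraic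
    obtain ⟨φ, hφ⟩ : ∃ φ : Algebra.adjoin K (Set.range (nd.s b)) →+*
        IntermediateField.adjoin (k0 K H hH) (Set.range (nd.s b)), ∀ c, (φ c : GK K) = c := by
      have h2 : ∀ c ∈ Algebra.adjoin K (Set.range (nd.s b)),
          c ∈ IntermediateField.adjoin (k0 K H hH) (Set.range (nd.s b)) := by
        intro c hc
        induction hc using Algebra.adjoin_induction with
        | mem x hx => exact IntermediateField.subset_adjoin (k0 K H hH) _ hx
        | algebraMap x =>
          exact (IntermediateField.adjoin (k0 K H hH) (Set.range (nd.s b))).algebraMap_mem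
            (algebraMap K (k0 K H hH) x)
        | add x y _ _ hx hy => exact add_mem hx hy
        | mul x y _ _ hx hy => exact mul_mem hx hy
      exact ⟨(algebraMap (Algebra.adjoin K (Set.range (nd.s b))) (GK K)).codRestrict
        (IntermediateField.adjoin (k0 K H hH) (Set.range (nd.s b))).toSubfield.toSubring
        fun c => h2 c c.2, fun _ => rfl⟩
    have hφi : Function.Injective φ := fun c c' h => Subtype.ext (by rw [← hφ c, ← hφ c', h])
    exact IsAlgebraic.ringHom_of_comp_eq (S := IntermediateField.adjoin (k0 K H hH)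
      (Set.range (nd.s b))) φ (RingHom.id (GK K)) h1 hφi (RingHom.ext fun c => hφ c)
  have hrtb : ∀ i, rt (B.x b) i ∈ E := by
    intro i
    have h1 : rt (B.x b) i = nd.y b i.1 / nd.y b i.2 := by
      unfold rt Noe.y
      rw [div_div_div_cancel_right₀ hl]
    rw [h1]
    exact div_mem (hy _) (hy _)
  obtain ⟨b₀, hb₀⟩ := Z_descend B E b hrtb
  obtain ⟨w₀, hw₀⟩ := Z_descend A E w' fun i => by
    rw [Z_img_rt A hw]
    exact hk _
  have h1 : A.Img E.val (w₀ + hB.inc E b₀) (δ • p) := by
    rw [hP]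
    exact Z_img_add A hw₀ (Z_inc_img hB hb₀)
  have hrtp : ∀ i, rt (A.x p) i ∈ E := fun i =>
    hEalg _ (Z_alg A p δ hδ.ne' (w₀ + hB.inc E b₀) h1 i.1 i.2)
  have h2 : Sum.elim (fun i => A.x p i / A.x p a) (nd.y b) i ∈ E := by
    rcases i with i | i
    · exact hrtp (i, a)
    · exact hy i
  rw [hE, IntermediateField.isAlgebraic_adjoin_iff] at h2
  exact h2

end

end Pool.Agent.Lib.MP_17a322_nt.VA
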