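import Pool.Agent.Lib.MP_17a322_nt.VA.Z13

/-!
No gain in one chart.
-/

universe u

namespace Pool.Agent.Lib.MP_17a322_nt.VA

open MvPolynomial Height Filter
open Pool.Agent.Lib.MP_17a322_nt.RO
open Pool.Agent.Lib.MP_17a322_nt.VJ
open Pool.Agent.Lib.MP_17a322_nt.VN

/-- No gain in one chart. -/
theorem Z_chart {K : Type u} [Field K] [NumberField K] {N : ℕ} {A B : AV K N} (hB : IsSubAV B A)
    {H : ℕ → ℝ} (hH : Tendsto H (hyperfilter ℕ : Filter ℕ) atTop) {δ : ℕ} (hδ : 0 < δ)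
    {w : A.Pts (k0 K H hH)} {w' : A.Pts (GK K)} (hw : A.Img (k0 K H hH).val w w')
    {P : ℕ → A.Pts K} {p : A.Pts (GK K)} (hPp : IsGerm A P p) {Q : ℕ → B.Pts K}
    {b : B.Pts (GK K)} (hQb : IsGerm B Q b) (hP : δ • p = w' + hB.inc (GK K) b)
    (hgen : ∀ (G : MvPolynomial (Fin (N + 1)) K) (D : ℕ), G.IsHomogeneous D → G ∉ A.I →
      aeval (A.x p) G ≠ 0) {r d : ℕ} (g : Fin r → MvPolynomial (Fin (N + 1)) K)
    (hg : ∀ k, (g k).IsHomogeneous d)
    (hY : ∀ (F : Type u) [Field F] [Algebra K F] (P : A.Pts F), (∀ k, aeval (A.x P) (g k) = 0) →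
      ∃ (F' : Type u) (_ : Field F') (_ : Algebra K F') (Q : A.Pts F'),
        tdeg K (A.x P) + 2 ≤ tdeg K (A.x Q))
    {n e : ℕ} (hn : ∀ (L : Type u) [Field L] [Algebra K L] (P : B.Pts L), tdeg K (B.x P) ≤ n)
    (nd : Noe B n e) (κ : SC K) (hl : lf (nd.l 0) (B.x b) ≠ 0)
    (hng : 2 ≤ n → ∀ z₀ z₁ : MvPolynomial (Fin n) (k0 K H hH), IsRelPrime z₀ z₁ →
      (aeval (nd.s b) z₀ ≠ 0 ∨ aeval (nd.s b) z₁ ≠ 0) → ∀ a a' : ℕ → K,
      gm a = aeval (nd.s b) z₀ → gm a' = aeval (nd.s b) z₁ → ∀ ε : ℝ, 0 < ε →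
        ∀ᶠ i in (hyperfilter ℕ : Filter ℕ), nd.gn κ (Q i) (a i) (a' i) ≤ ε * H i)
    (a : Fin (N + 1)) (ε : ℝ) (hε : 0 < ε)
    (hgain : ∀ᶠ i in (hyperfilter ℕ : Filter ℕ), ε * H i ≤
      jg (ChP nd κ P Q a i) (fun j => aeval (fun c => A.x (P i) c / A.x (P i) a) (g j))) :
    False := by
  have hHpos : ∀ᶠ i in (hyperfilter ℕ : Filter ℕ), 0 < H i := hH.eventually_gt_atTop 0
  -- the coordinate `a` does not vanish
  have ha : A.x p a ≠ 0 := by
    rw [hPp.ne_iff]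
    filter_upwards [hgain, hHpos] with i h1 h2
    have h3 : 0 < ε * H i := mul_pos hε h2
    obtain ⟨v, hv⟩ := jg_pos _ (h3.trans_le h1)
    intro h0
    have h4 := hv.1
    rw [h0, map_zero] at h4
    refine Z_x_ne A (P i) (funext fun c => ?_)
    exact (v.eq_zero).1 (le_antisymm (h4 c) (v.nonneg _))
  -- one of the forms does not vanish
  obtain ⟨j₀, hj₀⟩ : ∃ j, aeval (A.x p) (g j) ≠ 0 := by
    by_contra hcon
    push Not at hcon
    obtain ⟨F', _, _, q, hq⟩ := hY (GK K) p hcon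
    exact Z_tdeg_absurd (p := p) (p' := p) (q := q) le_self_add hq (Z_generic_tdeg A hgen q)
  have hj₀' : aeval (fun i => A.x p i / A.x p a) (g j₀) ≠ 0 := by
    intro h0
    apply hj₀
    have h1 := Z_aeval_smul (hg j₀) (A.x p a) (fun i => A.x p i / A.x p a)
    rw [h0, mul_zero] at h1
    rw [← h1]
    congr 2
    funext i
    rw [mul_div_cancel₀ _ ha]
  -- the pair
  have hpair : ∀ z z' : MvPolynomial (Fin n) (k0 K H hH),
      rename Sum.inr z ∈ Zideal hH nd g p b a → rename Sum.inr z' ∈ Zideal hH nd g p b a →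
      (aeval (nd.s b) z ≠ 0 ∨ aeval (nd.s b) z' ≠ 0) → ∀ ζ ζ' : ℕ → K,
      gm ζ = aeval (nd.s b) z → gm ζ' = aeval (nd.s b) z' →
      (∀ᶠ i in (hyperfilter ℕ : Filter ℕ), nd.gn κ (Q i) (ζ i) (ζ' i) ≤ ε / 3 * H i) → False := by
    intro z z' hz hz' h0 ζ ζ' hζ hζ' hs
    have h1 := Z_pair hH nd κ hPp hQb hl a g hz hz' h0 hζ hζ' (ε / 3) (by positivity)
    obtain ⟨i, g1, g2, g3, g4⟩ := (h1.and (hs.and (hgain.and hHpos))).exists
    have g5 : ε * H i ≤ ε / 3 * H i + ε / 3 * H i := g3.trans (g1.trans (add_le_add_left g2 _))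
    have g6 : 0 < ε * H i := mul_pos hε g4
    linarith
  rcases Z_cases (Zideal hH nd g p b a) (x := Sum.elim (fun i => A.x p i / A.x p a) (nd.y b))
    (t := nd.s b) (fun f hf => Ideal.mem_sup_left hf)
    (Z_algebraic hB hH hδ hw hP nd hl a)
    ⟨_, Ideal.mem_sup_right (Ideal.subset_span ⟨j₀, rfl⟩), by rwa [Z_aeval_g]⟩ with
    ⟨z, z', hzz, hz, hz', h0⟩ | ⟨hn0, h, hh, hdvd⟩
  · rcases Nat.lt_or_ge n 2 with h2 | h2
    · -- the unit ideal
      obtain ⟨α, β, hαβ⟩ := Z_isCoprime (by omega : n ≤ 1) hzz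
      have h3 : rename Sum.inr (1 : MvPolynomial (Fin n) (k0 K H hH)) ∈
          Zideal hH nd g p b a := by
        rw [← hαβ, map_add, map_mul, map_mul]
        exact Ideal.add_mem _ (Ideal.mul_mem_left _ _ hz) (Ideal.mul_mem_left _ _ hz')
      refine hpair 1 0 h3 (by rw [map_zero]; exact Ideal.zero_mem _)
        (Or.inl (by rw [map_one]; exact one_ne_zero)) (fun _ => 1) (fun _ => 0)
        (by rw [map_one]; rfl) (by rw [map_zero]; rfl) ?_
      filter_upwards [hHpos] with i hi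
      rw [Z_gn_one]
      positivity
    · obtain ⟨ζ, hζ⟩ := exists_gm (aeval (nd.s b) z)
      obtain ⟨ζ', hζ'⟩ := exists_gm (aeval (nd.s b) z')
      exact hpair z z' hz hz' h0 ζ ζ' hζ hζ'
        (hng h2 z z' hzz h0 ζ ζ' hζ hζ' (ε / 3) (by positivity))
  · -- the dimension count
    have hw' : A.Img (IsScalarTower.toAlgHom K (k0 K H hH) (GK K)) w w' := hw
    obtain ⟨Ω, i1, i2, q, hq0, hq⟩ := Z_centre hB hδ hw' hP hn nd hl hn0 a ha g hg
      (Zideal hH nd g p b a) (fun f hf => Ideal.mem_sup_left hf)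
      (fun j => Ideal.mem_sup_right (Ideal.subset_span ⟨j, rfl⟩)) h hh hdvd
    obtain ⟨F', _, _, q', hq'⟩ := hY Ω q hq0
    exact Z_tdeg_absurd hq hq' (Z_generic_tdeg A hgen q')

end Pool.Agent.Lib.MP_17a322_nt.VA
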