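import Pool.Agent.Lib.MP_17a322_nt.Mb

/-!
Elimination with a valuation ring: a prime ideal which contains an ideal and avoids the polynomials
in some of the variables not divisible by `h`.
-/

universe u

namespace Pool.Agent.Lib.MP_17a322_nt.VA

open MvPolynomial

/-- A valuation ring that dominates a prime ideal. -/
theorem Z_elim {k F : Type u} [Field k] [Field F] [Algebra k F] {ι τ : Type} (x : ι → F)
    (t : τ → F) (I : Ideal (MvPolynomial (ι ⊕ τ) k))
    (hI : ∀ p, aeval (Sum.elim x t) p = 0 → p ∈ I) (h : MvPolynomial τ k) (hirr : Irreducible h)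
    (hdvd : ∀ a : MvPolynomial τ k, rename Sum.inr a ∈ I → h ∣ a) :
    ∃ (R : Type u) (_ : CommRing R) (_ : IsDomain R) (_ : ValuationRing R) (_ : Algebra k R)
      (_ : Algebra R F) (_ : IsFractionRing R F) (_ : IsScalarTower k R F) (Ω : Type u)
      (_ : Field Ω) (_ : Algebra k Ω) (π : R →ₐ[k] Ω) (_ : IsLocalHom π.toRingHom) (x' : ι → R)
      (t' : τ → R), (∀ i, algebraMap R F (x' i) = x i) ∧ (∀ j, algebraMap R F (t' j) = t j) ∧
      (∀ p ∈ I, aeval (Sum.elim (fun i => π (x' i)) fun j => π (t' j)) p = 0) ∧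
      ∀ a : MvPolynomial τ k, aeval (fun j => π (t' j)) a = 0 → h ∣ a := by
  have hp : Prime h := hirr.prime
  -- the multiplicative set
  let S : Submonoid (MvPolynomial (ι ⊕ τ) k) :=
    { carrier := {f | ∃ a : MvPolynomial τ k, ¬ h ∣ a ∧ rename Sum.inr a = f}
      one_mem' := ⟨1, fun h1 => hp.not_unit (isUnit_of_dvd_one h1), map_one _⟩
      mul_mem' := by
        rintro _ _ ⟨a, ha, rfl⟩ ⟨b, hb, rfl⟩
        exact ⟨a * b, fun h1 => (hp.dvd_or_dvd h1).elim ha hb, map_mul _ _ _⟩ }
  have hdis : Disjoint (I : Set (MvPolynomial (ι ⊕ τ) k)) S := by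
    rw [Set.disjoint_left]
    rintro _ hf ⟨a, ha, rfl⟩
    exact ha (hdvd a hf)
  obtain ⟨P, hP, hIP, hPS⟩ := Ideal.exists_le_prime_disjoint I S hdis
  let φ : MvPolynomial (ι ⊕ τ) k →+* F := (aeval (Sum.elim x t)).toRingHom
  have hφ : ∀ y : P.primeCompl, IsUnit (φ y) := by
    intro y
    rw [isUnit_iff_ne_zero]
    intro h1
    exact y.2 (hIP (hI _ h1))
  let f : Localization.AtPrime P →+* F := IsLocalization.lift (M := P.primeCompl) hφ
  have hf : ∀ p, f (algebraMap _ _ p) = aeval (Sum.elim x t) p := fun p =>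
    IsLocalization.lift_eq hφ p
  obtain ⟨O, hO, hloc⟩ := IsLocalRing.exists_factor_valuationRing f
  have hmem : ∀ p, aeval (Sum.elim x t) p ∈ O := fun p => by
    rw [← hf]
    exact hO _
  have hk : ∀ c : k, algebraMap k F c ∈ O := fun c => by
    have h1 := hmem (C c)
    rwa [aeval_C] at h1
  have hx : ∀ i, x i ∈ O := fun i => by
    have h1 := hmem (X (Sum.inl i))
    rwa [aeval_X] at h1
  have ht : ∀ j, t j ∈ O := fun j => by
    have h1 := hmem (X (Sum.inr j))
    rwa [aeval_X] at h1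
  let _ : Algebra k O := ((algebraMap k F).codRestrict O.toSubring hk).toAlgebra
  have _ : IsScalarTower k O F := IsScalarTower.of_algebraMap_eq fun _ => rfl
  let Ω := IsLocalRing.ResidueField O
  let π₀ : O →+* Ω := IsLocalRing.residue O
  let _ : Algebra k Ω := (π₀.comp (algebraMap k O)).toAlgebra
  let π : O →ₐ[k] Ω := { π₀ with commutes' := fun _ => rfl }
  have hπ : ∀ a : O, π a = 0 ↔ ¬ IsUnit a := by
    intro a
    show IsLocalRing.residue O a = 0 ↔ _
    rw [IsLocalRing.residue_eq_zero_iff, IsLocalRing.mem_maximalIdeal]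
    rfl
  -- values in `O`
  have hval : ∀ p : MvPolynomial (ι ⊕ τ) k,
      ((aeval (Sum.elim (fun i => (⟨x i, hx i⟩ : O)) fun j => (⟨t j, ht j⟩ : O)) p : O) : F) =
        aeval (Sum.elim x t) p := by
    intro p
    have h1 : ((aeval (Sum.elim (fun i => (⟨x i, hx i⟩ : O)) fun j => (⟨t j, ht j⟩ : O)) p : O) :
        F) = algebraMap O F (aeval (Sum.elim (fun i => (⟨x i, hx i⟩ : O))
          fun j => (⟨t j, ht j⟩ : O)) p) := rfl
    rw [h1, ← aeval_algebraMap_apply]
    congr 1
    refine MvPolynomial.algHom_ext fun i => ?_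
    rw [aeval_X, aeval_X]
    rcases i with i | i <;> rfl
  have hvalπ : ∀ p : MvPolynomial (ι ⊕ τ) k,
      aeval (Sum.elim (fun i => π (⟨x i, hx i⟩ : O)) fun j => π (⟨t j, ht j⟩ : O)) p =
        π (aeval (Sum.elim (fun i => (⟨x i, hx i⟩ : O)) fun j => (⟨t j, ht j⟩ : O)) p) := by
    intro p
    rw [← AlgHom.comp_apply]
    congr 1
    refine MvPolynomial.algHom_ext fun i => ?_
    rw [AlgHom.comp_apply, aeval_X, aeval_X]
    rcases i with i | i <;> rfl
  -- units
  have hunit : ∀ p : MvPolynomial (ι ⊕ τ) k,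
      π (aeval (Sum.elim (fun i => (⟨x i, hx i⟩ : O)) fun j => (⟨t j, ht j⟩ : O)) p) = 0 ↔
        p ∈ P := by
    intro p
    rw [hπ, ← not_iff_not, not_not]
    have h1 : (aeval (Sum.elim (fun i => (⟨x i, hx i⟩ : O)) fun j => (⟨t j, ht j⟩ : O)) p : O) =
        f.codRestrict O.toSubring hO (algebraMap _ _ p) := by
      refine Subtype.ext ?_
      rw [hval]
      exact (hf p).symm
    rw [h1]
    constructor
    · intro h2 h3
      have h4 := hloc.map_nonunit _ h2
      rw [IsLocalization.AtPrime.isUnit_to_map_iff (Localization.AtPrime P) P] at h4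
      exact h4 h3
    · intro h2
      have h3 : IsUnit (algebraMap _ (Localization.AtPrime P) p) :=
        (IsLocalization.AtPrime.isUnit_to_map_iff (Localization.AtPrime P) P p).2 h2
      exact h3.map _
  refine ⟨O, inferInstance, inferInstance, inferInstance, inferInstance, inferInstance,
    inferInstance, inferInstance, Ω, inferInstance, inferInstance, π, ?_, fun i => ⟨x i, hx i⟩,
    fun j => ⟨t j, ht j⟩, fun _ => rfl, fun _ => rfl, ?_, ?_⟩
  · refine ⟨fun a ha => ?_⟩
    by_contra hc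
    have h1 : π a = 0 := (hπ a).2 hc
    rw [show π.toRingHom a = π a from rfl, h1] at ha
    exact not_isUnit_zero ha
  · intro p hpI
    rw [hvalπ, hunit]
    exact hIP hpI
  · intro a ha
    have h1 : aeval (Sum.elim (fun i => π (⟨x i, hx i⟩ : O)) fun j => π (⟨t j, ht j⟩ : O))
        (rename Sum.inr a) = 0 := by
      rw [aeval_rename]
      exact ha
    rw [hvalπ, hunit] at h1
    by_contra hc
    exact Set.disjoint_left.1 hPS h1 ⟨a, hc, rfl⟩

end Pool.Agent.Lib.MP_17a322_nt.VA
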