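import Pool.Agent.Lib.MP_17a322_nt.VN.Z7a
import Pool.Agent.Lib.MP_17a322_nt.VA.Z7

/-!
Gains at a set of places.
-/

universe u

namespace Pool.Agent.Lib.MP_17a322_nt.VA

open MvPolynomial Height Filter
open Pool.Agent.Lib.MP_17a322_nt.RO
open Pool.Agent.Lib.MP_17a322_nt.VJ
open Pool.Agent.Lib.MP_17a322_nt.VN

/-- The sum of `log max(1, |b|)` over the places with `C`. -/
noncomputable def cbC {K : Type*} [Field K] [AdmissibleAbsValues K]
    (C : AbsoluteValue K ℝ → Prop) (b : K) : ℝ :=
  open Classical in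
  gs fun v => if C v then Real.log (max 1 (v b)) else 0

/-- The gain of a family at the places with `C`. -/
noncomputable def jg {K : Type*} [Field K] [AdmissibleAbsValues K]
    (C : AbsoluteValue K ℝ → Prop) {ι : Type*} (f : ι → K) : ℝ :=
  open Classical in
  gs fun v => if C v then - Real.log (min 1 (⨆ k, v (f k))) else 0

/-- The gain of a pair at the places with `C`. -/
noncomputable def jg2 {K : Type*} [Field K] [AdmissibleAbsValues K]
    (C : AbsoluteValue K ℝ → Prop) (a b : K) : ℝ :=
  open Classical in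
  gs fun v => if C v then - Real.log (min 1 (max (v a) (v b))) else 0

section

variable {K : Type*} [Field K] [AdmissibleAbsValues K] (C : AbsoluteValue K ℝ → Prop)

theorem cbC_nonneg (b : K) : 0 ≤ cbC C b := by
  classical
  unfold cbC
  refine gs_nonneg fun v _ => ?_
  split_ifs
  · exact Z7_log_nonneg _
  · exact le_rfl

theorem cbC_le (b : K) : cbC C b ≤ logHeight₁ b := by
  classical
  rw [← gs_log_max]
  unfold cbC
  refine gs_le (Z7_FS_ite (FS_log_max b)) (FS_log_max b) fun v _ => ?_
  split_ifs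
  · exact le_rfl
  · exact Z7_log_nonneg _

theorem cbC_mul (a b : K) : cbC C (a * b) ≤ cbC C a + cbC C b := by
  classical
  unfold cbC
  rw [← gs_add (Z7_FS_ite (FS_log_max a)) (Z7_FS_ite (FS_log_max b))]
  refine gs_le (Z7_FS_ite (FS_log_max _)) (FS_add (Z7_FS_ite (FS_log_max a)) (Z7_FS_ite (FS_log_max b)))
    fun v _ => ?_
  split_ifs
  · have ha : 1 ≤ max 1 (v a) := le_max_left _ _
    have hb : 1 ≤ max 1 (v b) := le_max_left _ _
    rw [← Real.log_mul (by linarith) (by linarith)]
    refine Real.log_le_log (lt_max_of_lt_left one_pos) ?_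
    rw [map_mul]
    refine max_le (one_le_mul_of_one_le_of_one_le ha hb) ?_
    exact mul_le_mul (le_max_right _ _) (le_max_right _ _) (v.nonneg _) (by linarith)
  · simp

theorem cbC_add (a b : K) :
    cbC C (a + b) ≤ cbC C a + cbC C b + totalWeight K * Real.log 2 := by
  classical
  have h2 : gs (fun v : AbsoluteValue K ℝ => Real.log (cst v 2)) ≤ totalWeight K * Real.log 2 := by
    have := gs_log_cst (L := K) (n := 2) (by norm_num)
    simpa using this
  refine le_trans ?_ (add_le_add_right h2 _)
  unfold cbC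
  rw [← gs_add (Z7_FS_ite (FS_log_max a)) (Z7_FS_ite (FS_log_max b)),
    ← gs_add (FS_add (Z7_FS_ite (FS_log_max a)) (Z7_FS_ite (FS_log_max b))) (FS_log_cst 2)]
  refine gs_le (Z7_FS_ite (FS_log_max _))
    (FS_add (FS_add (Z7_FS_ite (FS_log_max a)) (Z7_FS_ite (FS_log_max b))) (FS_log_cst 2))
    fun v _ => ?_
  have hc := Z7_one_le_cst v
  split_ifs
  · have ha : 1 ≤ max 1 (v a) := le_max_left _ _
    have hb : 1 ≤ max 1 (v b) := le_max_left _ _
    rw [← Real.log_mul (by linarith) (by linarith), ← Real.log_mul (by positivity) (by linarith)]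
    refine Real.log_le_log (lt_max_of_lt_left one_pos) ?_
    refine max_le (one_le_mul_of_one_le_of_one_le (one_le_mul_of_one_le_of_one_le ha hb) hc) ?_
    refine (Z7_abv_add_le v a b).trans ?_
    rw [mul_comm]
    refine mul_le_mul_of_nonneg_right ?_ (by linarith)
    refine max_le ?_ ?_
    · calc v a ≤ max 1 (v a) := le_max_right _ _
        _ ≤ _ := le_mul_of_one_le_right (by linarith) hb
    · calc v b ≤ max 1 (v b) := le_max_right _ _
        _ ≤ _ := le_mul_of_one_le_left (by linarith) ha
  · simpa using Real.log_nonneg hc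

/-- A bound at the places with `C`. -/
theorem cbC_bound {b : K} {κ : AbsoluteValue K ℝ → ℝ} (hκ : ∀ v, 1 ≤ κ v)
    (hFS : FS fun v => Real.log (κ v)) (h : ∀ v, C v → v b ≤ κ v) :
    cbC C b ≤ gs fun v => Real.log (κ v) := by
  classical
  unfold cbC
  refine gs_le (Z7_FS_ite (FS_log_max b)) hFS fun v _ => ?_
  split_ifs with hv
  · exact Real.log_le_log (lt_max_of_lt_left one_pos) (max_le (hκ v) (h v hv))
  · exact Real.log_nonneg (hκ v)

theorem FS_jg {ι : Type*} [Finite ι] (f : ι → K) :
    FS fun v : AbsoluteValue K ℝ => - Real.log (min 1 (⨆ k, v (f k))) := by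
  classical
  by_cases hf : f = 0
  · rw [hf]
    have h1 : (fun v : AbsoluteValue K ℝ => - Real.log (min 1 (⨆ _k : ι, v 0))) = fun _ => 0 := by
      funext v
      have h2 : (⨆ _k : ι, v (0 : K)) = 0 := by
        rcases isEmpty_or_nonempty ι with h | h
        · exact Real.iSup_of_isEmpty _
        · rw [map_zero, ciSup_const]
      rw [h2, min_eq_right zero_le_one, Real.log_zero, neg_zero]
    have h3 : (fun v : AbsoluteValue K ℝ => - Real.log (min 1 (⨆ k : ι, v ((0 : ι → K) k)))) =
        fun _ => 0 := h1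
    rw [h3]
    simp [FS]
  · obtain ⟨k, hk⟩ := Function.ne_iff.1 hf
    refine (FS_log_abv hk).subset fun v hv => ?_
    intro h1
    have h2 : v.val (f k) = 1 := Real.eq_one_of_pos_of_log_eq_zero (v.val.pos hk) h1
    apply hv
    have h3 : 1 ≤ ⨆ k, v.val (f k) := by
      rw [← h2]
      exact le_ciSup (Set.finite_range fun k => v.val (f k)).bddAbove k
    show - Real.log (min 1 (⨆ k, v.val (f k))) = 0
    rw [min_eq_left h3, Real.log_one, neg_zero]

theorem Z_neg_log_nonneg {x : ℝ} (hx : 0 ≤ x) : 0 ≤ - Real.log (min 1 x) := by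
  have h2 := Real.log_nonpos (le_min zero_le_one hx) (min_le_left 1 x)
  linarith

theorem jg_nonneg {ι : Type*} (f : ι → K) : 0 ≤ jg C f := by
  classical
  unfold jg
  refine gs_nonneg fun v _ => ?_
  split_ifs
  · exact Z_neg_log_nonneg (Real.iSup_nonneg fun k => v.nonneg _)
  · exact le_rfl

/-- Where the gain is positive there is a place. -/
theorem jg_pos {ι : Type*} {f : ι → K} (h : 0 < jg C f) : ∃ v, C v := by
  classical
  by_contra hcon
  push Not at hcon
  have h1 : jg C f = 0 := by
    unfold jg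
    simp only [hcon, if_false]
    simp [gs]
  linarith

/-- The gain of a family is at most the gain of a pair of combinations. -/
theorem jg_comb {C' : AbsoluteValue K ℝ → Prop} (hC : ∀ v, C v → C' v) {ι : Type*} [Fintype ι]
    {f B B' : ι → K} {z z' : K} (hz : z = ∑ k, B k * f k) (hz' : z' = ∑ k, B' k * f k)
    (h0 : z ≠ 0 ∨ z' ≠ 0) :
    jg C f ≤ jg2 C' z z' + ((∑ k, cbC C (B k)) + (∑ k, cbC C (B' k)) +
      totalWeight K * Real.log (Fintype.card ι)) := by
  classical
  have hne : Nonempty ι := by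
    by_contra hcon
    rw [not_nonempty_iff] at hcon
    rw [Finset.univ_eq_empty, Finset.sum_empty] at hz hz'
    rcases h0 with h | h
    · exact h hz
    · exact h hz'
  have hn : 1 ≤ Fintype.card ι := Fintype.card_pos
  have h2 := gs_log_cst (L := K) hn
  have hF : ∀ x : K, FS (fun v : AbsoluteValue K ℝ =>
      if C v then Real.log (max 1 (v x)) else 0) := fun x => Z7_FS_ite (FS_log_max x)
  have hS : ∀ B : ι → K, FS (fun v : AbsoluteValue K ℝ =>
      ∑ k, if C v then Real.log (max 1 (v (B k))) else 0) := fun B => FS_sum _ fun k _ => hF (B k)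
  have h3 : (∑ k, cbC C (B k)) + (∑ k, cbC C (B' k)) + gs (fun v : AbsoluteValue K ℝ =>
      Real.log (cst v (Fintype.card ι))) = gs fun v : AbsoluteValue K ℝ =>
        (∑ k, if C v then Real.log (max 1 (v (B k))) else 0) +
        (∑ k, if C v then Real.log (max 1 (v (B' k))) else 0) +
          Real.log (cst v (Fintype.card ι)) := by
    rw [gs_add (FS_add (hS B) (hS B')) (FS_log_cst _), gs_add (hS B) (hS B'),
      gs_sum _ fun k _ => hF (B k), gs_sum _ fun k _ => hF (B' k)]
    rfl
  have hM2 : FS (fun v : AbsoluteValue K ℝ =>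
      if C' v then - Real.log (min 1 (max (v z) (v z'))) else 0) := Z7_FS_ite (Z7_FS_log_min z z')
  have hR := FS_add (FS_add (hS B) (hS B')) (FS_log_cst (L := K) (Fintype.card ι))
  have h5 : jg C f ≤ jg2 C' z z' + gs fun v : AbsoluteValue K ℝ =>
        (∑ k, if C v then Real.log (max 1 (v (B k))) else 0) +
        (∑ k, if C v then Real.log (max 1 (v (B' k))) else 0) +
          Real.log (cst v (Fintype.card ι)) := by
    unfold jg jg2
    rw [← gs_add hM2 hR]
    refine gs_le (Z7_FS_ite (FS_jg f)) (FS_add hM2 hR) fun v _ => ?_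
    have hc : 1 ≤ cst v (Fintype.card ι) := one_le_cst v hn
    by_cases hv : C v
    · rw [if_pos hv, if_pos (hC v hv)]
      simp only [if_pos hv]
      have h1 : ∀ x : K, 1 ≤ max 1 (v x) := fun x => le_max_left _ _
      obtain ⟨p, hp⟩ : ∃ p : ℝ, p = ∏ k, max 1 (v (B k)) := ⟨_, rfl⟩
      obtain ⟨p', hp'⟩ : ∃ p' : ℝ, p' = ∏ k, max 1 (v (B' k)) := ⟨_, rfl⟩
      have hp1 : 1 ≤ p := by
        rw [hp]
        exact one_le_prod_real _ _ fun k => h1 _
      have hp1' : 1 ≤ p' := by
        rw [hp']
        exact one_le_prod_real _ _ fun k => h1 _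
      obtain ⟨M, hM⟩ : ∃ M : ℝ, M = ⨆ k, v (f k) := ⟨_, rfl⟩
      have hfM : ∀ k, v (f k) ≤ M := fun k => by
        rw [hM]
        exact le_ciSup (Set.finite_range fun k => v (f k)).bddAbove k
      have hM0 : 0 ≤ M := (v.nonneg _).trans (hfM hne.some)
      obtain ⟨M', hM'⟩ : ∃ M' : ℝ, M' = max (v z) (v z') := ⟨_, rfl⟩
      have hM'0 : 0 < M' := by
        rw [hM']
        rcases h0 with h | h
        · exact (v.pos h).trans_le (le_max_left _ _)
        · exact (v.pos h).trans_le (le_max_right _ _)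
      have hb : ∀ (E : ι → K) (q : ℝ), q = ∏ k, max 1 (v (E k)) →
          v (∑ k, E k * f k) ≤ cst v (Fintype.card ι) * (q * M) := by
        intro E q hq
        have hq1 : 1 ≤ q := by
          rw [hq]
          exact one_le_prod_real _ _ fun k => h1 _
        have h4 := (SN_self v).sum_le Finset.univ (fun k => E k * f k) (B := q * M)
          (by positivity) (fun k _ => by
            rw [map_mul]
            refine mul_le_mul ?_ (hfM k) (v.nonneg _) (by linarith)
            rw [hq]
            exact (le_max_right 1 _).trans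
              (single_le_prod_real _ (fun k => max 1 (v (E k))) (fun k => h1 _)
                (Finset.mem_univ k)))
        rwa [Finset.card_univ] at h4
      have hMM : M' ≤ p * p' * cst v (Fintype.card ι) * M := by
        rw [hM']
        refine max_le ?_ ?_
        · rw [hz]
          refine (hb B p hp).trans ?_
          have h4 : cst v (Fintype.card ι) * (p * M) ≤ cst v (Fintype.card ι) * (p * M) * p' :=
            le_mul_of_one_le_right (by positivity) hp1'
          calc _ ≤ _ := h4
            _ = _ := by ring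
        · rw [hz']
          refine (hb B' p' hp').trans ?_
          have h4 : cst v (Fintype.card ι) * (p' * M) ≤ cst v (Fintype.card ι) * (p' * M) * p :=
            le_mul_of_one_le_right (by positivity) hp1
          calc _ ≤ _ := h4
            _ = _ := by ring
      have hMpos : 0 < M := by
        rcases hM0.lt_or_eq with h | h
        · exact h
        · rw [← h, mul_zero] at hMM
          exact absurd hMM (not_le.2 hM'0)
      have hq1 : 1 ≤ p * p' * cst v (Fintype.card ι) :=
        one_le_mul_of_one_le_of_one_le (one_le_mul_of_one_le_of_one_le hp1 hp1') hc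
      have hlog : Real.log (min 1 M') ≤
          Real.log (p * p' * cst v (Fintype.card ι) * min 1 M) := by
        refine Real.log_le_log (lt_min one_pos hM'0) ?_
        rcases le_total 1 M with h | h
        · rw [min_eq_left h, mul_one]
          exact (min_le_left _ _).trans hq1
        · rw [min_eq_right h]
          exact (min_le_right _ _).trans hMM
      rw [Real.log_mul (by linarith) (lt_min one_pos hMpos).ne',
        Real.log_mul (by positivity) (by linarith), Real.log_mul (by linarith) (by linarith), hp,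
        hp', Real.log_prod fun k _ => (one_pos.trans_le (h1 _)).ne',
        Real.log_prod fun k _ => (one_pos.trans_le (h1 _)).ne', hM, hM'] at hlog
      linarith
    · simp only [if_neg hv, Finset.sum_const_zero, zero_add]
      have h6 : 0 ≤ if C' v then - Real.log (min 1 (max (v z) (v z'))) else 0 := by
        split_ifs
        · exact Z_neg_log_nonneg ((v.nonneg z).trans (le_max_left _ _))
        · exact le_rfl
      have h7 := Real.log_nonneg hc
      linarith
  linarith

end

section

variable {K : Type u} [Field K] [NumberField K] {H : ℕ → ℝ}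
  (hH : Tendsto H (hyperfilter ℕ : Filter ℕ) atTop)

/-- The sum over the places with `C i` is `o(H)`. -/
def cbo (H : ℕ → ℝ) (C : ℕ → AbsoluteValue K ℝ → Prop) (β : ℕ → K) : Prop :=
  ∀ δ : ℝ, 0 < δ → ∀ᶠ i in (hyperfilter ℕ : Filter ℕ), cbC (C i) (β i) ≤ δ * H i

/-- Values of polynomials over `k0`. -/
theorem cbo_rep (C : ℕ → AbsoluteValue K ℝ → Prop) {σ : Type*} (u : σ → ℕ → K)
    (hu : ∀ t, cbo H C (u t)) (p : MvPolynomial σ (k0 K H hH)) :
    ∃ β : ℕ → K, gm β = aeval (fun t => gm (u t)) p ∧ cbo H C β := by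
  induction p using MvPolynomial.induction_on with
  | C a =>
    obtain ⟨α, hα, hα'⟩ : sml H (a : GK K) := a.2
    refine ⟨α, ?_, fun δ hδ => ?_⟩
    · rw [hα, aeval_C]
      rfl
    · filter_upwards [hα' δ hδ] with i hi
      exact (cbC_le _ _).trans hi
  | add p q hp hq =>
    obtain ⟨β, hβ, hβ'⟩ := hp
    obtain ⟨γ, hγ, hγ'⟩ := hq
    refine ⟨fun i => β i + γ i, ?_, fun δ hδ => ?_⟩
    · rw [gm_add, hβ, hγ, map_add]
    · filter_upwards [hβ' (δ / 3) (by linarith), hγ' (δ / 3) (by linarith),
        Z7_eventually_const_le H hH (totalWeight K * Real.log 2) (δ / 3) (by linarith)] with i h1 h2 h3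
      have h4 := cbC_add (C i) (β i) (γ i)
      show cbC (C i) (β i + γ i) ≤ δ * H i
      linarith
  | mul_X p t hp =>
    obtain ⟨β, hβ, hβ'⟩ := hp
    refine ⟨fun i => β i * u t i, ?_, fun δ hδ => ?_⟩
    · rw [gm_mul, hβ, map_mul, aeval_X]
    · filter_upwards [hβ' (δ / 2) (by linarith), hu t (δ / 2) (by linarith)] with i h1 h2
      have h3 := cbC_mul (C i) (β i) (u t i)
      show cbC (C i) (β i * u t i) ≤ δ * H i
      linarith

include hH in
theorem cbo_of_bound (C : ℕ → AbsoluteValue K ℝ → Prop) {β : ℕ → K}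
    {κ : AbsoluteValue K ℝ → ℝ} (hκ : ∀ v, 1 ≤ κ v) (hFS : FS fun v => Real.log (κ v))
    (h : ∀ i v, C i v → v (β i) ≤ κ v) : cbo H C β := by
  intro δ hδ
  filter_upwards [Z7_eventually_const_le H hH (gs fun v => Real.log (κ v)) δ hδ] with i hi
  exact (cbC_bound (C i) hκ hFS (h i)).trans hi

include hH in
/-- Comparison of gains. -/
theorem jg_comb_germ (C C' : ℕ → AbsoluteValue K ℝ → Prop) (hC : ∀ i v, C i v → C' i v)
    {ι : Type*} [Fintype ι] (f B B' : ι → ℕ → K) (z z' : ℕ → K) (hB : ∀ k, cbo H C (B k))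
    (hB' : ∀ k, cbo H C (B' k)) (hz : gm z = ∑ k, gm (B k) * gm (f k))
    (hz' : gm z' = ∑ k, gm (B' k) * gm (f k)) (h0 : gm z ≠ 0 ∨ gm z' ≠ 0) (δ : ℝ) (hδ : 0 < δ) :
    ∀ᶠ i in (hyperfilter ℕ : Filter ℕ),
      jg (C i) (fun k => f k i) ≤ jg2 (C' i) (z i) (z' i) + δ * H i := by
  have h1 : ∀ᶠ i in (hyperfilter ℕ : Filter ℕ), z i = ∑ k, B k i * f k i := by
    rw [← gm_eq_iff, gm_sum]
    exact hz
  have h2 : ∀ᶠ i in (hyperfilter ℕ : Filter ℕ), z' i = ∑ k, B' k i * f k i := by
    rw [← gm_eq_iff, gm_sum]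
    exact hz'
  have h3 : ∀ᶠ i in (hyperfilter ℕ : Filter ℕ), z i ≠ 0 ∨ z' i ≠ 0 := by
    rcases h0 with h | h
    · exact (gm_ne_zero_iff.1 h).mono fun i hi => Or.inl hi
    · exact (gm_ne_zero_iff.1 h).mono fun i hi => Or.inr hi
  have h4 : oH H fun i => (∑ k, cbC (C i) (B k i)) + (∑ k, cbC (C i) (B' k i)) +
      totalWeight K * Real.log (Fintype.card ι) :=
    ((oH.sum hH Finset.univ (fun k i => cbC (C i) (B k i)) fun k _ => hB k).add
      (oH.sum hH Finset.univ (fun k i => cbC (C i) (B' k i)) fun k _ => hB' k)).add (oH_const hH _)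
  filter_upwards [h1, h2, h3, h4 δ hδ] with i g1 g2 g3 g4
  exact (jg_comb (C i) (hC i) g1 g2 g3).trans (add_le_add_right g4 _)

end

end Pool.Agent.Lib.MP_17a322_nt.VA
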