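import Pool.Agent.Lib.MP_17a322_nt.VA.Z8

/-!
The height with respect to the centre is at most the sum of the gains in the charts.
-/

universe u

namespace Pool.Agent.Lib.MP_17a322_nt.VA

open MvPolynomial Height Filter
open Pool.Agent.Lib.MP_17a322_nt.RO
open Pool.Agent.Lib.MP_17a322_nt.VJ
open Pool.Agent.Lib.MP_17a322_nt.VN

/-- The coordinate `a` is maximal at `v` and the condition `C` holds. -/
def ChC {K : Type*} [Field K] {N : ℕ} (y : Fin (N + 1) → K) (a : Fin (N + 1))
    (C : AbsoluteValue K ℝ → Prop) (v : AbsoluteValue K ℝ) : Prop :=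
  (∀ b, v (y b) ≤ v (y a)) ∧ C v

theorem Z_total {K : Type*} [Field K] [AdmissibleAbsValues K] {N r s d : ℕ}
    (g : Fin r → MvPolynomial (Fin (N + 1)) K) (hg : ∀ k, (g k).IsHomogeneous d)
    (y : Fin (N + 1) → K) (hy : y ≠ 0) (hgy : (fun k => aeval y (g k)) ≠ 0)
    (C : Fin s → AbsoluteValue K ℝ → Prop) (hC : ∀ v, ∃ c, C c v) :
    d * logHeight y - logHeight (fun k => aeval y (g k)) ≤
      ∑ p : Fin (N + 1) × Fin s, jg (ChC y p.1 (C p.2))
        (fun k => aeval (fun b => y b / y p.1) (g k)) := by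
  classical
  have hF : ∀ p : Fin (N + 1) × Fin s, FS fun v : AbsoluteValue K ℝ =>
      if ChC y p.1 (C p.2) v then
        - Real.log (min 1 (⨆ k, v (aeval (fun b => y b / y p.1) (g k)))) else 0 := fun p =>
    Z7_FS_ite (FS_jg _)
  have hL : d * logHeight y - logHeight (fun k => aeval y (g k)) = gs fun v : AbsoluteValue K ℝ =>
      d * Real.log (⨆ b, v (y b)) - Real.log (⨆ k, v (aeval y (g k))) := by
    rw [gs_sub (FS_const_mul _ (FS_log_iSup hy)) (FS_log_iSup hgy), gs_const_mul, gs_log_iSup hy,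
      gs_log_iSup hgy]
  have hR : ∑ p : Fin (N + 1) × Fin s, jg (ChC y p.1 (C p.2))
        (fun k => aeval (fun b => y b / y p.1) (g k)) = gs fun v : AbsoluteValue K ℝ =>
      ∑ p : Fin (N + 1) × Fin s, if ChC y p.1 (C p.2) v then
        - Real.log (min 1 (⨆ k, v (aeval (fun b => y b / y p.1) (g k)))) else 0 := by
    rw [gs_sum _ fun p _ => hF p]
    rfl
  rw [hL, hR]
  refine gs_le (FS_sub (FS_const_mul _ (FS_log_iSup hy)) (FS_log_iSup hgy))
    (FS_sum _ fun p _ => hF p) fun v _ => ?_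
  obtain ⟨a, ha⟩ := Finite.exists_max fun b => v (y b)
  obtain ⟨c, hc⟩ := hC v
  have hnn : ∀ p : Fin (N + 1) × Fin s, 0 ≤ if ChC y p.1 (C p.2) v then
      - Real.log (min 1 (⨆ k, v (aeval (fun b => y b / y p.1) (g k)))) else 0 := by
    intro p
    split_ifs
    · exact Z_neg_log_nonneg (Real.iSup_nonneg fun k => v.nonneg _)
    · exact le_rfl
  refine le_trans ?_ (Finset.single_le_sum (f := fun p : Fin (N + 1) × Fin s =>
    if ChC y p.1 (C p.2) v then
      - Real.log (min 1 (⨆ k, v (aeval (fun b => y b / y p.1) (g k)))) else 0)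
    (fun p _ => hnn p) (Finset.mem_univ (a, c)))
  simp only
  rw [if_pos ⟨ha, hc⟩]
  obtain ⟨b, hb⟩ := Function.ne_iff.1 hy
  have ha0 : 0 < v (y a) := (v.pos hb).trans_le (ha b)
  have hya : y a ≠ 0 := (v.pos_iff).1 ha0
  have h1 : (⨆ b, v (y b)) = v (y a) :=
    le_antisymm (ciSup_le ha) (le_ciSup (Set.finite_range fun b => v (y b)).bddAbove a)
  have h2 : ∀ k, aeval y (g k) = y a ^ d * aeval (fun b => y b / y a) (g k) := by
    intro k
    rw [← Z_aeval_smul (hg k)]
    congr 2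
    funext b
    rw [mul_div_cancel₀ _ hya]
  obtain ⟨M, hM⟩ : ∃ M : ℝ, M = ⨆ k, v (aeval (fun b => y b / y a) (g k)) := ⟨_, rfl⟩
  have h3 : (⨆ k, v (aeval y (g k))) = v (y a) ^ d * M := by
    rw [hM, Real.mul_iSup_of_nonneg (pow_nonneg ha0.le d)]
    congr 1
    funext k
    rw [h2, map_mul, map_pow]
  obtain ⟨k, hk⟩ := Function.ne_iff.1 hgy
  have hM0 : 0 < M := by
    have h4 : aeval (fun b => y b / y a) (g k) ≠ 0 := by
      intro h5
      apply hk
      show aeval y (g k) = 0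
      rw [h2, h5, mul_zero]
    refine (v.pos h4).trans_le ?_
    rw [hM]
    exact le_ciSup (Set.finite_range fun k => v (aeval (fun b => y b / y a) (g k))).bddAbove k
  rw [h1, h3, Real.log_mul (pow_pos ha0 d).ne' hM0.ne', Real.log_pow, ← hM]
  have h5 := Real.log_le_log (lt_min one_pos hM0) (min_le_right 1 M)
  linarith

end Pool.Agent.Lib.MP_17a322_nt.VA
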